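import Pool.Agent.Lib.MP_4b1228_nt.PP.FinA

/-!
Method of Chebyshev and Hooley: the large primes, scale by scale.
-/

open Finset Real Filter UpperHalfPlane MeasureTheory
open scoped MatrixGroups Classical

noncomputable section

namespace Pool.Agent.Lib.MP_4b1228_nt.PP.Fz

/-- The contribution of the primes of `P` at the scale `exp s`. -/
def gP (f : ℝ → ℝ) (P : Finset ℕ) (s : ℝ) : ℝ := ∑ p ∈ P, log p * sA f (exp s) p

/-- The sum that Selberg's sieve bounds. -/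
def Sp (X : ℝ) (f : ℝ → ℝ) (Y : ℝ) : ℝ :=
  ∑ p ∈ (Icc 1 (KM X Y) : Finset ℕ) with Nat.Prime p ∧ X ^ (1 / 4 : ℝ) < p, sA f Y p

theorem toInt (hI3 : I3Stmt) {X Λ : ℝ} {f : ℝ → ℝ} (h3 : 3 ≤ X) (hf : Adm X Λ f) (L₀ : ℝ)
    {P : Finset ℕ} (hP : ∀ p ∈ P, 1 ≤ p) :
    Integrable (gP f P) ∧
    ∑ l ∈ LL X L₀, WW f l * ∑ p ∈ P with ((p : ℕ) : ℤ) ∣ l ^ 2 + 1, log p ≤ ∫ s, gP f P s := by
  obtain ⟨C, hC, H⟩ := hI3
  obtain ⟨hW, h2, -, -⟩ := H X _ f h3 hf
  have hi : ∀ p ∈ P, Integrable fun s => log p * sA f (exp s) p :=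
    fun p hp => (h2 p (hP p hp)).1.const_mul _
  refine ⟨integrable_finsetSum _ hi, ?_⟩
  unfold gP
  rw [integral_finsetSum _ hi]
  calc _ = ∑ p ∈ P, log p * ∑ l ∈ LL X L₀ with ((p : ℕ) : ℤ) ∣ l ^ 2 + 1, WW f l := by
        simp only [sum_filter, mul_sum]
        rw [sum_comm]
        refine sum_congr rfl fun k _ => sum_congr rfl fun l _ => ?_
        split_ifs <;> ring
    _ ≤ _ := by
        refine sum_le_sum fun p hp => ?_
        rw [integral_const_mul, (h2 p (hP p hp)).2]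
        refine mul_le_mul_of_nonneg_left ?_ (log_natCast_nonneg p)
        refine sum_le_sum_of_subset_of_nonneg ?_ fun l _ _ => (hW l).1
        intro l hl
        obtain ⟨hl1, hl2⟩ := mem_filter.1 hl
        obtain ⟨hl3, hl4, -⟩ := mem_filter.1 hl1
        exact mem_filter.2 ⟨hl3, even_iff_two_dvd.2 hl4, hl2⟩

/-- A sum over `P` is at most the sum over a set that contains the support. -/
theorem gP_le (hI2 : I2Stmt) {X Λ : ℝ} {f : ℝ → ℝ} (h3 : 3 ≤ X) (hf : Adm X Λ f)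
    {P Q : Finset ℕ} {s M : ℝ} (hM : 0 ≤ M) (hP : ∀ p ∈ P, 1 ≤ p) (hQ : ∀ p ∈ Q, 1 ≤ p)
    (h : ∀ p ∈ P, p ≤ KM X (exp s) → p ∈ Q ∧ log p ≤ M) :
    gP f P s ≤ M * ∑ p ∈ Q, sA f (exp s) p := by
  obtain ⟨C, hC, H⟩ := hI2
  obtain ⟨-, -, -, H⟩ := H X h3
  obtain ⟨-, H, -⟩ := H Λ f hf
  unfold gP
  rw [← sum_filter_of_ne (p := fun p => p ≤ KM X (exp s)) (fun p hp hne => by
    by_contra hlt
    exact hne (by rw [((H _ p (exp_pos s) (hP p hp)).2.2.2.1 (not_le.1 hlt)).1, mul_zero])),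
    mul_sum]
  refine le_trans (sum_le_sum fun p hp => ?_) (sum_le_sum_of_subset_of_nonneg
    (s := {p ∈ P | p ≤ KM X (exp s)}) (fun p hp => (h p (mem_filter.1 hp).1 (mem_filter.1 hp).2).1)
    fun p hp _ => mul_nonneg hM (H _ p (exp_pos s) (hQ p hp)).1)
  obtain ⟨h1, h2⟩ := mem_filter.1 hp
  exact mul_le_mul_of_nonneg_right (h p h1 h2).2 (H _ p (exp_pos s) (hP p h1)).1

theorem gP_sp (hI2 : I2Stmt) {X Λ : ℝ} {f : ℝ → ℝ} (h3 : 3 ≤ X) (hf : Adm X Λ f)
    {P : Finset ℕ} {s η : ℝ} (hη : log 2 ≤ η * log X) (hs : s ≤ (1 + η) * log X)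
    (hP : ∀ p ∈ P, p.Prime ∧ X ^ (1 / 4 : ℝ) < p) :
    gP f P s ≤ ((1 + η) * log X - s) * Sp X f (exp s) := by
  refine gP_le hI2 h3 hf (by linarith) (fun p hp => (hP p hp).1.one_le)
    (fun p hp => (mem_filter.1 hp).2.1.one_le) fun p hp hk =>
      ⟨mem_filter.2 ⟨mem_Icc.2 ⟨(hP p hp).1.one_le, hk⟩, hP p hp⟩, ?_⟩
  have hX : 0 < X := by linarith
  have h1 : (p : ℝ) ≤ 2 * X / exp s := (Nat.le_floor_iff (by positivity)).1 hk
  have h2 : (0 : ℝ) < p := by exact_mod_cast (hP p hp).1.pos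
  have h4 := log_le_log h2 h1
  rw [log_div (by positivity) (exp_pos s).ne', log_mul two_ne_zero hX.ne', log_exp] at h4
  linarith

theorem gP_zero (hI2 : I2Stmt) {X Λ : ℝ} {f : ℝ → ℝ} (h3 : 3 ≤ X) (hf : Adm X Λ f)
    {P : Finset ℕ} {s t : ℝ} (hP : ∀ p ∈ P, 1 ≤ p ∧ 2 * X / exp t ≤ p)
    (hs : s ∉ Set.Icc (-2 * log X) t) : gP f P s = 0 := by
  obtain ⟨C, hC, H⟩ := hI2
  obtain ⟨-, -, -, H⟩ := H X h3
  obtain ⟨-, H, -⟩ := H Λ f hf
  have hX : 0 < X := by linarith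
  refine sum_eq_zero fun p hp => ?_
  obtain ⟨-, -, -, h4, h5⟩ := H _ p (exp_pos s) (hP p hp).1
  rw [Set.mem_Icc, not_and_or, not_le, not_le] at hs
  rw [mul_eq_zero]
  right
  rcases hs with hs | hs
  · unfold sA
    refine (tsum_congr fun l => ?_).trans tsum_zero
    split_ifs with hl
    · by_contra hne
      have h6 := (h5 l hne).2.2.1
      have h7 : (p : ℝ) ≤ (l : ℝ) ^ 2 + 1 := by
        exact_mod_cast Int.le_of_dvd (by positivity) hl.2
      have h8 : exp s < 1 / X ^ 2 := by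
        have := exp_lt_exp.2 hs
        rwa [show -2 * log X = -log (X ^ 2) by rw [log_pow]; push_cast; ring, exp_neg,
          exp_log (by positivity), ← one_div] at this
      have h9 : (0 : ℝ) < p := by exact_mod_cast (hP p hp).1
      have h10 : 1 ≤ 2 * X * exp s := by
        by_contra hlt
        nlinarith [not_le.1 hlt]
      rw [lt_div_iff₀ (by positivity)] at h8
      nlinarith [exp_pos s]
    · rfl
  · refine (h4 ?_).1
    unfold KM
    rw [Nat.floor_lt (by positivity)]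
    refine lt_of_lt_of_le ?_ (hP p hp).2
    gcongr

theorem int_lin {g : ℝ → ℝ} (hg : Integrable g) {a b c K : ℝ} (hab : a ≤ b)
    (h : ∀ s ∈ Set.Icc a b, g s ≤ (c - s) * K) :
    ∫ s in a..b, g s ≤ ((c - a) ^ 2 - (c - b) ^ 2) / 2 * K := by
  refine (intervalIntegral.integral_mono_on hab hg.intervalIntegrable
    (Continuous.intervalIntegrable (by fun_prop) _ _) h).trans (le_of_eq ?_)
  rw [intervalIntegral.integral_mul_const, intervalIntegral.integral_sub (by simp) (by simp)]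
  simp only [intervalIntegral.integral_const, integral_id, smul_eq_mul]
  ring

theorem int_const {g : ℝ → ℝ} (hg : Integrable g) {a b K : ℝ} (hab : a ≤ b)
    (h : ∀ s ∈ Set.Icc a b, g s ≤ K) : ∫ s in a..b, g s ≤ (b - a) * K := by
  refine (intervalIntegral.integral_mono_on hab hg.intervalIntegrable
    (Continuous.intervalIntegrable (by fun_prop) _ _) h).trans (le_of_eq ?_)
  simp

theorem rp {X : ℝ} (hX : 0 < X) (y : ℝ) : X ^ y = exp (y * log X) := by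
  rw [rpow_def_of_pos hX, mul_comm]

/-- Selberg's sieve near the centre. -/
theorem selA (hSel : SelStmt) {c : ℝ} (hc : 0 < c) (hRS : RS c) {C₀ : ℝ} (A : ℕ) {η δ : ℝ}
    (h0 : 0 < η) (h1 : η ≤ 1 / 20) (hδ : 0 < δ) :
    ∀ᶠ X : ℝ in atTop, ∀ f : ℝ → ℝ, Adm X (log X ^ A) f → E1 X η δ f →
      (∀ Y : ℝ, 0 < Y → mu X f Y ≤ C₀ * Itot f) → 0 ≤ C₀ →
      ∀ s : ℝ, (η - 1 / 2) * log X ≤ s → s ≤ η / 2 * log X →
        Sp X f (exp s) ≤ 8 * C₀ / c * Itot f / log X + X / log X ^ 2 := by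
  filter_upwards [hSel c hc hRS A η δ h0 (by linarith) hδ, small 1 2 (half_pos hδ),
    eventually_ge_atTop (3 : ℝ)] with X H hs h3 f hf hE hmu hC s hs1 hs2
  have hX : 0 < X := by linarith
  have hl : 0 < log X := log_pos (by linarith)
  have hI := Itot_nonneg hf
  refine (H f hf hE (exp s) (by rw [rp hX]; gcongr) (by rw [rp hX]; gcongr)).trans
    (add_le_add ?_ ?_)
  · have h4 : 0 < 1 / 4 - η := by linarith
    calc _ ≤ C₀ * Itot f / (c * (1 / 4 - η) * log X) := by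
          gcongr; exact hmu _ (exp_pos s)
      _ ≤ C₀ * Itot f / (c * (1 / 8) * log X) := by gcongr; linarith
      _ = _ := by field_simp
  · rw [le_div_iff₀ (by positivity)]; linarith

/-- Selberg's sieve with the exact mass. -/
theorem selB (hSel : SelStmt) (hT1 : T1Stmt) {c : ℝ} (hc : 0 < c) (hRS : RS c) (A : ℕ) {η δ : ℝ}
    (h0 : 0 < η) (h1 : η ≤ 1 / 20) (hδ : 0 < δ) :
    ∀ᶠ X : ℝ in atTop, ∀ f : ℝ → ℝ, Adm X (log X ^ A) f → E1 X η δ f →
      ∀ s : ℝ, (η - 1 / 2) * log X ≤ s → s ≤ -η * log X →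
        Sp X f (exp s) ≤ 2 / (1 - 4 * η) * Itot f / log X + X / log X ^ 2 := by
  obtain ⟨δ', hδ', hT⟩ := hT1 c hRS A η δ h0 hδ
  filter_upwards [hSel c hc hRS A η δ h0 (by linarith) hδ, small 2 2 (half_pos hδ),
    small (16 / c) 1 hδ', hT, eventually_ge_atTop (3 : ℝ)] with X H hs hs' H' h3 f hf hE s hs1 hs2
  have hX : 0 < X := by linarith
  have hl : 0 < log X := log_pos (by linarith)
  have hI := Itot_nonneg hf
  have h5 : s ≤ η / 2 * log X := by nlinarith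
  have h6 := (abs_le.1 (H' f hf hE (exp s) (by rw [rp hX]; gcongr) (by rw [rp hX]; gcongr)).2).2
  refine (H f hf hE (exp s) (by rw [rp hX]; gcongr) (by rw [rp hX]; gcongr)).trans ?_
  have h4 : 0 < 1 / 4 - η := by linarith
  have h4' : 0 < 1 - 4 * η := by linarith
  have h7 : X ^ (1 - δ / 2) ≤ X / log X ^ 2 / 2 := by
    rw [le_div_iff₀ two_pos, le_div_iff₀ (by positivity)]; linarith
  have h8 : X ^ (1 - δ') / (c * (1 / 4 - η) * log X) ≤ X / log X ^ 2 / 2 := by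
    calc _ ≤ X ^ (1 - δ') / (c * (1 / 8) * log X) := by gcongr; linarith
      _ = 16 / c * log X ^ 1 * X ^ (1 - δ') / log X ^ 2 / 2 := by field_simp; norm_num
      _ ≤ _ := by gcongr
  have h9 : mu X f (exp s) / (c * (1 / 4 - η) * log X) ≤
      (c * Itot f / 2 + X ^ (1 - δ')) / (c * (1 / 4 - η) * log X) := by
    gcongr; linarith
  have h10 : c * Itot f / 2 / (c * (1 / 4 - η) * log X) = 2 / (1 - 4 * η) * Itot f / log X := by
    rw [show 1 / 4 - η = (1 - 4 * η) / 4 by ring]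
    field_simp; norm_num
  rw [add_div, h10] at h9
  linarith

/-- The scales beyond the largest primes. -/
theorem tail (hI2 : I2Stmt) (hT0 : T0Stmt) (A : ℕ) {η ϖ : ℝ} (h0 : 0 < η) (h1 : η ≤ 1)
    (hϖ : ϖ ≤ 2) :
    ∀ᶠ X : ℝ in atTop, ∀ f : ℝ → ℝ, Adm X (log X ^ A) f → ∀ (a s : ℝ), -2 * log X ≤ s →
      s ≤ (1 - ϖ - η) * log X → gP f (PR a (X ^ ϖ)) s ≤ X / (2 * log X) := by
  filter_upwards [hT0 A 0 η h0 h1, small 4 2 (show 0 < η / 5 by linarith),
    eventually_ge_atTop (3 : ℝ)] with X H hs h3 f hf a s hs1 hs2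
  have hX : 0 < X := by linarith
  have hl : 0 < log X := log_pos (by linarith)
  have h4 := (H f hf).2.1 (exp s) (by
    have := exp_le_exp.2 hs1
    rwa [show -2 * log X = -log (X ^ 2) by rw [log_pow]; push_cast; ring, exp_neg,
      exp_log (by positivity), ← one_div] at this)
  have h5 := gP_le hI2 h3 hf (P := PR a (X ^ ϖ)) (s := s) (M := 2 * log X)
    (Q := {k ∈ (Icc 1 (KM X (exp s)) : Finset ℕ) | ((k : ℕ) : ℝ) * exp s ≤ X ^ (1 - η)})
    (by positivity) (fun p hp => (mem_filter.1 hp).2.1.one_le)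
    (fun p hp => (mem_Icc.1 (mem_filter.1 hp).1).1) (fun p hp hk => by
      obtain ⟨h6, h7⟩ := mem_Icc.1 (mem_filter.1 hp).1
      have h8 : (p : ℝ) ≤ X ^ ϖ := (Nat.le_floor_iff (by positivity)).1 h7
      have h9 : (0 : ℝ) < p := by exact_mod_cast h6
      refine ⟨mem_filter.2 ⟨mem_Icc.2 ⟨h6, hk⟩, ?_⟩, ?_⟩
      · calc (p : ℝ) * exp s ≤ X ^ ϖ * X ^ (1 - ϖ - η) := by
              rw [rp hX (1 - ϖ - η)]; gcongr
          _ = _ := by rw [← rpow_add hX]; congr 1; ring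
      · have := log_le_log h9 h8
        rw [log_rpow hX] at this
        nlinarith)
  obtain ⟨C, hC, H2⟩ := hI2
  obtain ⟨-, -, -, H2⟩ := H2 X h3
  obtain ⟨-, H2, -⟩ := H2 _ f hf
  have h6 : ∑ k ∈ (Icc 1 (KM X (exp s)) : Finset ℕ) with ((k : ℕ) : ℝ) * exp s ≤ X ^ (1 - η),
      sA f (exp s) k ≤ X ^ (1 - η / 5) := by
    refine le_trans (sum_le_sum fun k hk => ?_) h4
    have := (H2 _ k (exp_pos s) (mem_Icc.1 (mem_filter.1 hk).1).1).2.1
    linarith
  refine h5.trans ?_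
  rw [le_div_iff₀ (by positivity)]
  calc _ ≤ 2 * log X * X ^ (1 - η / 5) * (2 * log X) := by gcongr
    _ ≤ X := by linarith

theorem cells {g : ℝ → ℝ} (hg : Integrable g) (t : ℕ → ℝ) (m : ℕ) (ht : ∀ i < m, t (i + 1) ≤ t i) :
    ∫ s in t m..t 0, g s = ∑ i ∈ range m, ∫ s in Set.Icc (t (i + 1)) (t i), g s := by
  rw [intervalIntegral.integral_symm, ← intervalIntegral.sum_integral_adjacent_intervals
    (fun _ _ => hg.intervalIntegrable), ← sum_neg_distrib]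
  refine sum_congr rfl fun i hi => ?_
  rw [← intervalIntegral.integral_symm, intervalIntegral.integral_of_le (ht i (mem_range.1 hi)),
    integral_Icc_eq_integral_Ioc]

end Pool.Agent.Lib.MP_4b1228_nt.PP.Fz
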