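import Pool.Agent.Lib.MP_4b1228_nt.PP.St2
import Pool.Agent.Lib.MP_4b1228_nt.PP.FinB

/-!
Large prime factors with an affine weight: the row given by Selberg's sieve.
-/

open Finset Real Filter MeasureTheory Topology
open scoped Classical

noncomputable section

namespace Pool.Agent.Lib.MP_4b1228_nt.PP

namespace Bg

open Fz

/-- The weighted contribution of the primes of `P` at the scale `exp s`. -/
def gW (f : ℝ → ℝ) (P : Finset ℕ) (w : ℕ → ℝ) (s : ℝ) : ℝ := ∑ p ∈ P, w p * sA f (exp s) p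

theorem toI (hI3 : I3Stmt) {X Λ : ℝ} {f : ℝ → ℝ} (h3 : 3 ≤ X) (hf : Adm X Λ f)
    {P : Finset ℕ} (hP : ∀ p ∈ P, 1 ≤ p) (w : ℕ → ℝ) :
    Integrable (gW f P w) ∧ ∫ s, gW f P w s =
      ∑ l ∈ (Icc (-⌈X⌉) ⌈X⌉ : Finset ℤ) with Even l,
        WW f l * ∑ p ∈ P with ((p : ℕ) : ℤ) ∣ l ^ 2 + 1, w p := by
  obtain ⟨C, hC, H⟩ := hI3
  obtain ⟨-, h2, -, -⟩ := H X _ f h3 hf
  have hi : ∀ p ∈ P, Integrable fun s => w p * sA f (exp s) p :=
    fun p hp => (h2 p (hP p hp)).1.const_mul _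
  refine ⟨integrable_finsetSum _ hi, ?_⟩
  unfold gW
  rw [integral_finsetSum _ hi]
  calc _ = ∑ p ∈ P, w p * ∑ l ∈ (Icc (-⌈X⌉) ⌈X⌉ : Finset ℤ) with
          Even l ∧ ((p : ℕ) : ℤ) ∣ l ^ 2 + 1, WW f l :=
        sum_congr rfl fun p hp => by rw [integral_const_mul, (h2 p (hP p hp)).2]
    _ = _ := by
        simp only [sum_filter, mul_sum]
        rw [sum_comm]
        refine sum_congr rfl fun l _ => ?_
        by_cases h : Even l
        · simp only [h, true_and, if_true]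
          refine sum_congr rfl fun p _ => ?_
          split_ifs <;> ring
        · simp [h]

theorem zero (hI2 : I2Stmt) {X Λ : ℝ} {f : ℝ → ℝ} (h3 : 3 ≤ X) (hf : Adm X Λ f)
    {P : Finset ℕ} (w : ℕ → ℝ) {s t : ℝ} (hP : ∀ p ∈ P, p.Prime ∧ 2 * X / exp t ≤ p)
    (hs : s ∉ Set.Icc (-2 * log X) t) : gW f P w s = 0 := by
  refine sum_eq_zero fun p hp => ?_
  have h := gP_zero hI2 h3 hf (P := {p}) (s := s) (t := t) (fun q hq => by
    rw [mem_singleton.1 hq]; exact ⟨(hP p hp).1.one_le, (hP p hp).2⟩) hs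
  unfold gP at h
  rw [sum_singleton, mul_eq_zero] at h
  have h1 : (1 : ℝ) < p := by exact_mod_cast (hP p hp).1.one_lt
  rcases h with h | h
  · exact absurd h (log_pos h1).ne'
  · rw [h, mul_zero]

theorem int_aff {g : ℝ → ℝ} (hg : Integrable g) {a b u v : ℝ} (hab : a ≤ b)
    (h : ∀ s ∈ Set.Icc a b, g s ≤ u + v * s) :
    ∫ s in a..b, g s ≤ (b - a) * (u + v * ((a + b) / 2)) := by
  refine (intervalIntegral.integral_mono_on hab hg.intervalIntegrable
    (Continuous.intervalIntegrable (by fun_prop) _ _) h).trans (le_of_eq ?_)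
  rw [intervalIntegral.integral_add (by simp) (Continuous.intervalIntegrable (by fun_prop) _ _),
    intervalIntegral.integral_const_mul]
  simp only [intervalIntegral.integral_const, integral_id, smul_eq_mul]
  ring

/-- The sum at one scale: primes far below the top, and primes near the top. -/
theorem split (hI2 : I2Stmt) {X Λ : ℝ} {f : ℝ → ℝ} (h3 : 3 ≤ X) (hf : Adm X Λ f)
    {P : Finset ℕ} {w : ℕ → ℝ} {s M N Z E : ℝ} (hM : 0 ≤ M) (hN : 0 ≤ N)
    (hP : ∀ p ∈ P, p.Prime ∧ X ^ (1 / 4 : ℝ) < p ∧ w p ≤ M)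
    (hw : ∀ p ∈ P, p ≤ KM X (exp s) → Z < (p : ℝ) * exp s → w p ≤ N)
    (hE : ∑ k ∈ (Icc 1 (KM X (exp s)) : Finset ℕ) with ((k : ℕ) : ℝ) * exp s ≤ Z,
      (sA f (exp s) k + sB f (exp s) k) ≤ E) :
    gW f P w s ≤ M * E + N * Sp X f (exp s) := by
  obtain ⟨C, hC, H⟩ := hI2
  obtain ⟨-, -, -, H⟩ := H X h3
  obtain ⟨-, H, -⟩ := H Λ f hf
  have h0 : ∀ p ∈ P, 0 ≤ sA f (exp s) p := fun p hp => (H _ p (exp_pos s) (hP p hp).1.one_le).1
  unfold gW
  rw [← sum_filter_of_ne (p := fun p => p ≤ KM X (exp s)) (fun p hp hne => by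
    by_contra hlt
    exact hne (by rw [((H _ p (exp_pos s) (hP p hp).1.one_le).2.2.2.1 (not_le.1 hlt)).1,
      mul_zero])),
    ← sum_filter_add_sum_filter_not _ (fun p : ℕ => (p : ℝ) * exp s ≤ Z)]
  refine add_le_add ?_ ?_
  · refine le_trans ?_ (mul_le_mul_of_nonneg_left hE hM)
    rw [mul_sum]
    refine le_trans (sum_le_sum fun p hp => ?_) (sum_le_sum_of_subset_of_nonneg
      (s := (P.filter fun p : ℕ => p ≤ KM X (exp s)).filter fun p : ℕ => (p : ℝ) * exp s ≤ Z)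
      (fun p hp => ?_)
      fun p hp _ => ?_)
    · have h1 := (mem_filter.1 (mem_filter.1 hp).1).1
      have h2 := (H _ p (exp_pos s) (hP p h1).1.one_le).2.1
      have h4 := mul_le_mul_of_nonneg_right (hP p h1).2.2 (h0 p h1)
      nlinarith [mul_nonneg hM h2]
    · obtain ⟨h1, h2⟩ := mem_filter.1 hp
      obtain ⟨h4, h5⟩ := mem_filter.1 h1
      exact mem_filter.2 ⟨mem_Icc.2 ⟨(hP p h4).1.one_le, h5⟩, h2⟩
    · have h1 := H _ p (exp_pos s) (mem_Icc.1 (mem_filter.1 hp).1).1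
      exact mul_nonneg hM (add_nonneg h1.1 h1.2.1)
  · unfold Sp
    rw [mul_sum]
    refine le_trans (sum_le_sum fun p hp => ?_) (sum_le_sum_of_subset_of_nonneg
      (s := (P.filter fun p : ℕ => p ≤ KM X (exp s)).filter fun p : ℕ => ¬ (p : ℝ) * exp s ≤ Z)
      (fun p hp => ?_)
      fun p hp _ => ?_)
    · obtain ⟨h1, h2⟩ := mem_filter.1 hp
      obtain ⟨h4, h5⟩ := mem_filter.1 h1
      exact mul_le_mul_of_nonneg_right (hw p h4 h5 (not_le.1 h2)) (h0 p h4)
    · obtain ⟨h1, -⟩ := mem_filter.1 hp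
      obtain ⟨h4, h5⟩ := mem_filter.1 h1
      exact mem_filter.2 ⟨mem_Icc.2 ⟨(hP p h4).1.one_le, h5⟩, (hP p h4).1, (hP p h4).2.1⟩
    · exact mul_nonneg hN (H _ p (exp_pos s) (mem_Icc.1 (mem_filter.1 hp).1).1).1

/-- The primes between `X ^ a` and `X ^ b`. -/
def PB (X a b : ℝ) : Finset ℕ := {p ∈ (Icc 1 ⌊X ^ b⌋₊ : Finset ℕ) | p.Prime ∧ X ^ a ≤ p}

theorem filt {X : ℝ} (hX : 0 < X) (a b : ℝ) (l : ℤ) :
    ((l ^ 2 + 1).toNat.primeFactors.filter fun p : ℕ => X ^ a ≤ p ∧ (p : ℝ) ≤ X ^ b) =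
      (PB X a b).filter fun p : ℕ => ((p : ℕ) : ℤ) ∣ l ^ 2 + 1 := by
  obtain ⟨n, hn⟩ := Int.eq_ofNat_of_zero_le (show 0 ≤ l ^ 2 + 1 by positivity)
  have hn0 : n ≠ 0 := by
    rintro rfl
    have : (0 : ℤ) < l ^ 2 + 1 := by positivity
    simp [hn] at this
  ext p
  unfold PB
  rw [hn, Int.toNat_natCast]
  simp only [mem_filter, Nat.mem_primeFactors, mem_Icc, Int.natCast_dvd_natCast,
    Nat.le_floor_iff (show 0 ≤ X ^ b by positivity)]
  exact ⟨fun h => ⟨⟨⟨h.1.1.one_le, h.2.2⟩, h.1.1, h.2.1⟩, h.1.2.1⟩,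
    fun h => ⟨⟨h.1.2.1, h.2, hn0⟩, h.1.2.2, h.1.1.2⟩⟩

theorem intg (hI2 : I2Stmt) (hI3 : I3Stmt) (hT1 : T1Stmt) (hT0 : T0Stmt) (hSel : SelStmt)
    {c : ℝ} (hc : 0 < c) (hRS : RS c) {a b c₀ c₁ η δ : ℝ} (A : ℕ) (hab : a ≤ b)
    (ha : 0 ≤ c₀ + c₁ * a) (hb : 0 ≤ c₀ + c₁ * b) (h0 : 0 < η) (h1 : η ≤ 1 / 20)
    (h2 : 1 + 2 * η ≤ a) (h2' : b + 2 * η ≤ 3 / 2) (hδ : 0 < δ) :
    ∀ᶠ X : ℝ in atTop, ∀ f : ℝ → ℝ, Adm X (log X ^ A) f → E1 X η δ f →
      ∫ s, gW f (PB X a b) (fun p => c₀ + c₁ * (log p / log X)) s ≤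
        4 * (b - a + 2 * η) * (c₀ + c₁ * ((a + b) / 2) + |c₁| * η) / (1 - 4 * η) * (Itot f / 2) +
          (|c₀| + 2 * |c₁| + 1) * (X / log X) := by
  filter_upwards [selB hSel hT1 hc hRS A h0 h1 hδ, hT0 A 0 η h0 (by linarith),
    small (2 * (|c₀| + 2 * |c₁|)) 2 (show 0 < η / 5 by linarith), eventually_ge_atTop (3 : ℝ),
    (tendsto_log_atTop.const_mul_atTop h0).eventually_ge_atTop (log 2)]
    with X HB HT hs h3 hl2 f hf hE1
  have hX : 0 < X := by linarith
  have hl : 1 ≤ log X := by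
    rw [le_log_iff_exp_le hX]; linarith [exp_one_lt_d9]
  have hI := Itot_nonneg hf
  set P := PB X a b with hP
  set w : ℕ → ℝ := fun p => c₀ + c₁ * (log p / log X) with hw
  set M := |c₀| + 2 * |c₁| with hM
  have hM0 : 0 ≤ M := by positivity
  have hP1 : ∀ p ∈ P, p.Prime ∧ X ^ a ≤ p ∧ (p : ℝ) ≤ X ^ b := fun p hp =>
    ⟨(mem_filter.1 hp).2.1, (mem_filter.1 hp).2.2,
      (Nat.le_floor_iff (by positivity)).1 (mem_Icc.1 (mem_filter.1 hp).1).2⟩
  have hP2 : ∀ p ∈ P, a * log X ≤ log p ∧ log p ≤ b * log X := fun p hp => by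
    obtain ⟨q1, q2, q3⟩ := hP1 p hp
    have q4 : (0 : ℝ) < p := by exact_mod_cast q1.pos
    rw [← log_rpow hX, ← log_rpow hX]
    exact ⟨log_le_log (by positivity) q2, log_le_log q4 q3⟩
  have hg : Integrable (gW f P w) := (toI hI3 h3 hf (fun p hp => (hP1 p hp).1.one_le) w).1
  set L := log X with hL
  set I := Itot f with hId
  have hL0 : 0 < L := by linarith
  have hP3 : ∀ p ∈ P, p.Prime ∧ X ^ (1 / 4 : ℝ) < p ∧ w p ≤ M := fun p hp => by
    refine ⟨(hP1 p hp).1, lt_of_lt_of_le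
      (rpow_lt_rpow_of_exponent_lt (by linarith) (by linarith)) (hP1 p hp).2.1, ?_⟩
    have q1 : log p / L ≤ 2 := by
      rw [div_le_iff₀ hL0]; nlinarith [(hP2 p hp).2]
    have q2 : 0 ≤ log p / L := div_nonneg (log_natCast_nonneg p) hL0.le
    have q3 : c₁ * (log p / L) ≤ |c₁| * (log p / L) :=
      mul_le_mul_of_nonneg_right (le_abs_self _) q2
    have q4 : |c₁| * (log p / L) ≤ |c₁| * 2 := mul_le_mul_of_nonneg_left q1 (abs_nonneg _)
    simp only [hw, hM]
    linarith [le_abs_self c₀]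
  have mL : ∀ {a b : ℝ}, a ≤ b → a * L ≤ b * L := fun h =>
    mul_le_mul_of_nonneg_right h hL0.le
  have hz : ∫ s, gW f P w s = ∫ s in (-2 * L)..((1 - a + η) * L), gW f P w s := by
    rw [intervalIntegral.integral_of_le (mL (by linarith)), ← integral_Icc_eq_integral_Ioc,
      setIntegral_eq_integral_of_forall_compl_eq_zero]
    intro s hs
    refine zero hI2 h3 hf w (fun p hp => ⟨(hP1 p hp).1, le_trans ?_ (hP1 p hp).2.1⟩) hs
    rw [div_le_iff₀ (exp_pos _), rp hX, ← exp_add, ← exp_log (show 0 < 2 * X by positivity),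
      log_mul two_ne_zero hX.ne']
    exact exp_le_exp.2 (by linarith)
  have hE : ∀ s, -2 * L ≤ s →
      ∑ k ∈ (Icc 1 (KM X (exp s)) : Finset ℕ) with ((k : ℕ) : ℝ) * exp s ≤ X ^ (1 - η),
        (sA f (exp s) k + sB f (exp s) k) ≤ X ^ (1 - η / 5) := fun s hs1 =>
    (HT f hf).2.1 (exp s) (by
      have := exp_le_exp.2 hs1
      rwa [show -2 * L = -log (X ^ 2) by rw [log_pow]; push_cast; ring, exp_neg,
        exp_log (by positivity), ← one_div] at this)
  set E := X ^ (1 - η / 5) with hEd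
  have hE0 : 0 ≤ E := by positivity
  set K := 2 / (1 - 4 * η) * I / L + X / L ^ 2 with hK
  have h4 : 0 < 1 - 4 * η := by linarith
  have hK0 : 0 ≤ K := by positivity
  rw [hz, ← intervalIntegral.integral_add_adjacent_intervals (b := (1 - b - η) * L)
    hg.intervalIntegrable hg.intervalIntegrable]
  have p0 : ∫ s in (-2 * L)..((1 - b - η) * L), gW f P w s ≤
      ((1 - b - η) * L - -2 * L) * (M * E) := by
    refine int_const hg (mL (by linarith)) fun s hs => ?_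
    have := split hI2 h3 hf (N := 0) hM0 le_rfl hP3 (fun p hp _ hZ => ?_) (hE s hs.1)
    · linarith
    · exfalso
      have q : (p : ℝ) * exp s ≤ X ^ b * X ^ (1 - b - η) := by
        rw [rp hX (1 - b - η)]
        gcongr
        exacts [(hP1 p hp).2.2, hs.2]
      rw [← rpow_add hX, show b + (1 - b - η) = 1 - η by ring] at q
      linarith
  have p1 : ∫ s in ((1 - b - η) * L)..((1 - a + η) * L), gW f P w s ≤
      ((1 - a + η) * L - (1 - b - η) * L) * (M * E + (c₀ + c₁ + |c₁| * η) * K +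
        -(c₁ / L * K) * (((1 - b - η) * L + (1 - a + η) * L) / 2)) := by
    refine int_aff hg (mL (by linarith)) fun s hs => ?_
    have q1 : 1 - b - η ≤ s / L := by rw [le_div_iff₀ hL0]; exact hs.1
    have q2 : s / L ≤ 1 - a + η := by rw [div_le_iff₀ hL0]; exact hs.2
    have hN : 0 ≤ c₀ + c₁ * (1 - s / L) + |c₁| * η := by
      rcases le_total 0 c₁ with q | q
      · rw [abs_of_nonneg q]
        nlinarith [mul_le_mul_of_nonneg_left q2 q]
      · rw [abs_of_nonpos q]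
        nlinarith [mul_le_mul_of_nonneg_left q1 (neg_nonneg.2 q)]
    have q3 := split hI2 h3 hf hM0 hN hP3 (fun p hp hk hZ => ?_)
      (hE s ((mL (by linarith)).trans hs.1))
    · have q4 := mul_le_mul_of_nonneg_left (HB f hf hE1 s ((mL (by linarith)).trans hs.1)
        (hs.2.trans (mL (by linarith)))) hN
      have e : (c₀ + c₁ * (1 - s / L) + |c₁| * η) * K =
          (c₀ + c₁ + |c₁| * η) * K + -(c₁ / L * K) * s := by ring
      linarith
    · have r0 : (0 : ℝ) < p := by exact_mod_cast (hP1 p hp).1.pos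
      have r1 : (p : ℝ) ≤ 2 * X / exp s := (Nat.le_floor_iff (by positivity)).1 hk
      have r2 := log_le_log r0 r1
      rw [log_div (by positivity) (exp_pos s).ne', log_mul two_ne_zero hX.ne', log_exp] at r2
      have r3 := log_le_log (by positivity) hZ.le
      rw [log_mul r0.ne' (exp_pos s).ne', log_exp, log_rpow hX] at r3
      have r4 : |log p / L - (1 - s / L)| ≤ η := by
        rw [show log p / L - (1 - s / L) = (log p - L + s) / L by field_simp; ring, abs_div,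
          abs_of_pos hL0, div_le_iff₀ hL0, abs_le]
        constructor <;> linarith
      have r5 : c₁ * (log p / L - (1 - s / L)) ≤ |c₁| * η := by
        refine (le_abs_self _).trans ?_
        rw [abs_mul]
        exact mul_le_mul_of_nonneg_left r4 (abs_nonneg _)
      simp only [hw]
      linarith
  set m := c₀ + c₁ * ((a + b) / 2) + |c₁| * η with hm
  have e1 : ((1 - a + η) * L - (1 - b - η) * L) * (M * E + (c₀ + c₁ + |c₁| * η) * K +
      -(c₁ / L * K) * (((1 - b - η) * L + (1 - a + η) * L) / 2)) =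
      (b - a + 2 * η) * L * (M * E) + 4 * (b - a + 2 * η) * m / (1 - 4 * η) * (I / 2) +
        (b - a + 2 * η) * m * (X / L) := by
    rw [hK, hm]; field_simp; ring
  rw [e1] at p1
  have hm0 : 0 ≤ m := by
    have : 0 ≤ |c₁| * η := by positivity
    rw [hm]; linarith
  have hm1 : m ≤ M := by
    have q1 : c₁ * ((a + b) / 2) ≤ |c₁| * ((a + b) / 2) :=
      mul_le_mul_of_nonneg_right (le_abs_self _) (by linarith)
    have q2 : |c₁| * ((a + b) / 2 + η) ≤ |c₁| * 2 :=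
      mul_le_mul_of_nonneg_left (by linarith) (abs_nonneg _)
    rw [hm, hM]; linarith [le_abs_self c₀]
  have hXL : 0 ≤ X / L := by positivity
  have q5 : (b - a + 2 * η) * m * (X / L) ≤ M * (X / L) := by
    refine mul_le_mul_of_nonneg_right ?_ hXL
    have : (b - a + 2 * η) * m ≤ 1 * m := mul_le_mul_of_nonneg_right (by linarith) hm0
    linarith
  have q6 : 2 * L * (M * E) ≤ X / L := by
    rw [le_div_iff₀ hL0]; linarith
  have q7 : (3 - a + η) * (L * (M * E)) ≤ 2 * (L * (M * E)) :=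
    mul_le_mul_of_nonneg_right (by linarith) (by positivity)
  linarith

end Bg

open Fz Bg in
theorem bigS (hRS : RSStmt) (hI2 : I2Stmt) (hI3 : I3Stmt) (hT1 : T1Stmt) (hT0 : T0Stmt)
    (hSel : SelStmt) : BigStmt := by
  intro a b c₀ c₁ ha hab hb h₀ h₁ C₀ τ _ hτ
  obtain ⟨c', hc', hRS⟩ := hRS
  set G : ℝ → ℝ := fun η =>
    4 * (b - a + 2 * η) * (c₀ + c₁ * ((a + b) / 2) + |c₁| * η) / (1 - 4 * η) with hG
  have hc2 : ∀ᶠ η : ℝ in 𝓝 0, G η < 4 * (b - a) * (c₀ + c₁ * ((a + b) / 2)) + τ / 2 ∧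
      η < 1 / 20 ∧ η < (a - 1) / 2 ∧ η < (3 / 2 - b) / 2 := by
    refine (ContinuousAt.eventually_lt ?_ continuousAt_const ?_).and
      ((eventually_lt_nhds (by norm_num)).and ((eventually_lt_nhds (by linarith)).and
        (eventually_lt_nhds (by linarith))))
    · rw [hG]
      fun_prop (disch := norm_num)
    · rw [hG]
      norm_num
      linarith
  obtain ⟨r, hr, H⟩ := Metric.eventually_nhds_iff.1 hc2
  refine ⟨r / 2, half_pos hr, fun A η δ c h0 hη hδ hc => ?_⟩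
  obtain ⟨g1, g2, g3, g4⟩ := H (y := η) (by
    rw [Real.dist_eq, sub_zero, abs_of_pos h0]; linarith)
  filter_upwards [Bg.intg hI2 hI3 hT1 hT0 hSel hc' hRS A hab h₀ h₁ h0 g2.le (by linarith)
    (by linarith) hδ, eventually_ge_atTop (3 : ℝ),
    tendsto_log_atTop.eventually_ge_atTop ((|c₀| + 2 * |c₁| + 1) * 4 / (τ * c))]
    with X HI h3 hL f hf
  have hX : 0 < X := by linarith
  have hl : 0 < log X := log_pos (by linarith)
  have hI := Itot_nonneg hf.adm
  have q1 := HI f hf.adm hf.e1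
  rw [(toI hI3 h3 hf.adm (P := PB X a b)
    (fun p hp => (mem_Icc.1 (mem_filter.1 hp).1).1) _).2] at q1
  have q2 : (|c₀| + 2 * |c₁| + 1) * (X / log X) ≤ τ / 2 * (Itot f / 2) := by
    rw [div_le_iff₀ (by positivity)] at hL
    rw [← mul_div_assoc, div_le_iff₀ hl]
    have r1 := mul_le_mul_of_nonneg_right hL hX.le
    have r2 := mul_le_mul_of_nonneg_left hf.low (show 0 ≤ log X * τ by positivity)
    linarith
  have q3 := mul_le_mul_of_nonneg_right g1.le (show 0 ≤ Itot f / 2 by positivity)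
  unfold EE
  simp only [filt hX, mul_neg, sum_neg_distrib]
  simp only [hG] at q3
  linarith

end Pool.Agent.Lib.MP_4b1228_nt.PP
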