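import Pool.Agent.Lib.MP_4b1228_nt.PP.I1

/-!
Type I information for the comparison sequence.
-/

open Finset Real Filter MeasureTheory

noncomputable section

namespace Pool.Agent.Lib.MP_4b1228_nt.PP

namespace B1

lemma abel (a h : ℕ → ℝ) (M : ℕ) :
    ∑ k ∈ (Icc 1 M : Finset ℕ), a k * h k =
      ∑ k ∈ (Icc 1 M : Finset ℕ), (∑ j ∈ (Icc 1 k : Finset ℕ), a j) * (h k - h (k + 1)) +
        (∑ j ∈ (Icc 1 M : Finset ℕ), a j) * h (M + 1) := by
  induction M with
  | zero => simp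
  | succ M ih =>
    rw [sum_Icc_succ_top (by omega), sum_Icc_succ_top (by omega), ih,
      sum_Icc_succ_top (a := 1) (b := M) (by omega) a]
    ring

lemma gg_le (R : RhoStmt) (d : ℕ) : |gg d| ≤ 1 := by
  rw [gg, abs_of_nonneg (prod_nonneg fun p _ => by positivity)]
  refine prod_le_one (fun p _ => by positivity) fun p hp => ?_
  have h1 := (Nat.prime_of_mem_primeFactors hp)
  have h2 := R.2.2.1 p 1 h1
  rw [pow_one] at h2
  have h3 : (rho p : ℝ) ≤ 2 := by exact_mod_cast h2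
  have h4 : (2 : ℝ) ≤ p := by exact_mod_cast h1.two_le
  rw [div_le_one (by positivity)]
  linarith

lemma harm (M : ℕ) : ∑ k ∈ (Icc 1 M : Finset ℕ), 1 / (k : ℝ) ≤ 1 + log M := by
  have := harmonic_le_one_add_log M
  rw [harmonic_eq_sum_Icc] at this
  push_cast at this
  simpa using this

lemma step {u u' B a : ℝ} (ha : 1 ≤ a) (hB : 0 ≤ B) (h0 : 0 ≤ u) (h1 : u ≤ B)
    (h2 : |u - u'| ≤ 1 / a * B) : |u / (2 * a) - u' / (2 * (a + 1))| ≤ B / a ^ 2 := by
  have ha0 : 0 < a := by linarith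
  have h3 : u / (2 * a) - u' / (2 * (a + 1)) =
      (u - u') / (2 * (a + 1)) + u / (2 * a * (a + 1)) := by
    field_simp
    ring
  rw [h3]
  refine (abs_add_le _ _).trans ?_
  rw [abs_div, abs_of_pos (a := 2 * (a + 1)) (by positivity),
    abs_of_nonneg (a := u / (2 * a * (a + 1))) (by positivity)]
  have h4 : |u - u'| / (2 * (a + 1)) ≤ 1 / a * B / (2 * a) :=
    div_le_div₀ (by positivity) h2 (by positivity) (by linarith)
  have h5 : u / (2 * a * (a + 1)) ≤ B / (2 * a * a) :=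
    div_le_div₀ hB h1 (by positivity) (by nlinarith)
  have h6 : 1 / a * B / (2 * a) + B / (2 * a * a) = B / a ^ 2 := by
    field_simp
    ring
  linarith

end B1

theorem b1 (R : RhoStmt) (I : I1Stmt) : B1Stmt := by
  intro c hc ε hε
  obtain ⟨C₁, hC₁, hI⟩ := I
  set e := ε / 6 with he
  have he0 : 0 < e := by positivity
  obtain ⟨C₂, hC₂, hR⟩ := hc e he0
  refine ⟨C₁ * (4 * C₂ / e ^ 2 + |c| / e), by positivity, fun X Λ Y f d hX hf hY hd ho hdX => ?_⟩
  obtain ⟨h1, -, h3, -⟩ := hI X Λ f hX hf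
  have hΛ := I1.lam_nonneg hX hf
  have hL := I1.one_le_log hX
  have hX0 : 0 < X := by linarith
  have hX1 : 1 ≤ X := by linarith
  have hY0 : 0 < Y := lt_of_lt_of_le (by positivity) hY
  have hd1 : (1 : ℝ) ≤ d := by exact_mod_cast ho.pos
  set M := KM X Y with hM
  set B := C₁ * Λ * log X * √(X * Y) with hB
  have hB0 : 0 ≤ B := by positivity
  set h : ℕ → ℝ := fun k => II f (k * Y) / (2 * k) with hh
  set a : ℕ → ℝ := fun k => (if Odd k ∧ d ∣ k then (rho k : ℝ) else 0) - c * gg d with ha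
  have hMX : (M : ℝ) ≤ X ^ 3 := by
    have h4 : (M : ℝ) ≤ 2 * X / Y := Nat.floor_le (by positivity)
    have h5 : 2 * X / Y ≤ 2 * X / (1 / X) := div_le_div_of_nonneg_left (by positivity) (by positivity) hY
    have h6 : 2 * X / (1 / X) = 2 * X ^ 2 := by field_simp
    nlinarith [sq_nonneg X]
  have hs : ∑ k ∈ (Icc 1 M : Finset ℕ) with d ∣ k, sB f Y k - c * gg d * Itot f / 2 =
      ∑ k ∈ (Icc 1 M : Finset ℕ), a k * h k +
        c * gg d / 2 * (∑ k ∈ (Icc 1 M : Finset ℕ), II f (k * Y) / k - Itot f) := by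
    rw [sum_filter, mul_sub, mul_sum, ← add_sub_assoc, ← sum_add_distrib]
    congr 1
    · refine sum_congr rfl fun k _ => ?_
      simp only [ha, hh, sB]
      by_cases h4 : Odd k <;> by_cases h5 : d ∣ k <;> simp [h4, h5] <;> ring
    · ring
  have hz : h (M + 1) = 0 := by
    have h4 : 2 * X / Y < (M : ℝ) + 1 := Nat.lt_floor_add_one _
    rw [div_lt_iff₀ hY0] at h4
    have := (h1 (((M + 1 : ℕ) : ℝ) * Y) (by positivity)).2.2.2.1 (by push_cast; exact h4)
    simp only [hh, this, zero_div]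
  have hterm : ∀ k ∈ (Icc 1 M : Finset ℕ),
      |(∑ j ∈ (Icc 1 k : Finset ℕ), a j) * (h k - h (k + 1))| ≤
        C₂ * X ^ (4 * e) * B * (1 / (k : ℝ)) := by
    intro k hk
    obtain ⟨hk1, hkM⟩ := mem_Icc.1 hk
    have hk1' : (1 : ℝ) ≤ k := by exact_mod_cast hk1
    have hk0 : (0 : ℝ) < k := by linarith
    have hkX : (k : ℝ) ≤ X ^ 3 := le_trans (by exact_mod_cast hkM) hMX
    have h4 := hR k d hk1 hd ho
    have h5 : ∑ j ∈ (Icc 1 k : Finset ℕ), a j =
        ∑ j ∈ (Icc 1 k : Finset ℕ) with Odd j ∧ d ∣ j, (rho j : ℝ) - c * gg d * k := by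
      simp only [ha]
      rw [sum_sub_distrib, sum_filter]
      simp [mul_comm]
    have h6 : ((d : ℝ) * k) ^ e ≤ X ^ (4 * e) := by
      rw [Real.rpow_mul hX0.le]
      refine Real.rpow_le_rpow (by positivity) ?_ he0.le
      have : X ^ (4 : ℝ) = X * X ^ 3 := by
        rw [show (4 : ℝ) = (4 : ℕ) by norm_num, Real.rpow_natCast]
        ring
      rw [this]
      exact mul_le_mul hdX hkX hk0.le hX0.le
    obtain ⟨-, h7, h8, -, h9⟩ := h1 (k * Y) (by positivity)
    obtain ⟨h10, h11, -⟩ := I1.log_step hk0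
    have h12 : |log ((k : ℝ) * Y / ((k + 1) * Y))| ≤ 1 / k := by
      rw [mul_div_mul_right _ _ hY0.ne', Real.log_div hk0.ne' (by positivity), abs_sub_comm,
        abs_of_nonneg h10]
      exact h11
    have h13 := h9 ((k + 1) * Y) (by positivity)
      (h12.trans (by rw [div_le_one hk0]; exact hk1'))
    have h14 : C₁ * Λ * log X * √(X * (k * Y)) = B * √k := by
      rw [hB, mul_assoc _ (√(X * Y)), ← Real.sqrt_mul (by positivity)]
      congr 2
      ring
    rw [h14] at h8 h13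
    have h15 := B1.step hk1' (by positivity) h7 h8
      (h13.trans (mul_le_mul_of_nonneg_right h12 (by positivity)))
    have h16 : |h k - h (k + 1)| ≤ B * √k / k ^ 2 := by
      simp only [hh]
      push_cast
      exact h15
    rw [abs_mul, h5]
    refine le_trans (mul_le_mul (h4.trans (mul_le_mul_of_nonneg_right
      (mul_le_mul_of_nonneg_left h6 hC₂.le) (Real.sqrt_nonneg _))) h16 (abs_nonneg _)
      (by positivity)) (le_of_eq ?_)
    have h17 : √(k : ℝ) ^ 2 = k := Real.sq_sqrt hk0.le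
    field_simp
    rw [h17, mul_comm]
  have hlog : log X ≤ X ^ e / e := Real.log_le_rpow_div hX0.le he0
  have hXe : 1 ≤ X ^ e := Real.one_le_rpow hX1 he0.le
  have hH : ∑ k ∈ (Icc 1 M : Finset ℕ), 1 / (k : ℝ) ≤ 4 * (X ^ e / e) := by
    refine (B1.harm M).trans ?_
    have : log (M : ℝ) ≤ 3 * log X := by
      rcases Nat.eq_zero_or_pos M with h4 | h4
      · rw [h4]
        simp only [Nat.cast_zero, Real.log_zero]
        linarith
      · have h5 := Real.log_le_log (by exact_mod_cast h4) hMX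
        rw [Real.log_pow] at h5
        exact_mod_cast h5
    linarith
  have hA : |∑ k ∈ (Icc 1 M : Finset ℕ), a k * h k| ≤
      C₂ * X ^ (4 * e) * B * (4 * (X ^ e / e)) := by
    rw [B1.abel, hz, mul_zero, add_zero]
    refine (abs_sum_le_sum_abs _ _).trans ((sum_le_sum hterm).trans ?_)
    rw [← mul_sum]
    exact mul_le_mul_of_nonneg_left hH (by positivity)
  have hM2 : |c * gg d / 2 * (∑ k ∈ (Icc 1 M : Finset ℕ), II f (k * Y) / k - Itot f)| ≤
      |c| * B := by
    rw [abs_mul]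
    refine mul_le_mul ?_ (h3 Y hY0) (abs_nonneg _) (abs_nonneg _)
    rw [abs_div, abs_mul, abs_two]
    have := B1.gg_le R d
    have h4 : |c| * |gg d| ≤ |c| := mul_le_of_le_one_right (abs_nonneg _) this
    linarith [abs_nonneg c]
  have hB1 : B ≤ C₁ * Λ * (X ^ e / e) * √(X * Y) := by
    rw [hB]
    gcongr
  have hE : X ^ ε = X ^ (4 * e) * X ^ e * X ^ e := by
    rw [← Real.rpow_add hX0, ← Real.rpow_add hX0]
    congr 1
    rw [he]
    ring
  have hE' : X ^ e ≤ X ^ ε := Real.rpow_le_rpow_of_exponent_le hX1 (by rw [he]; linarith)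
  rw [hs]
  refine (abs_add_le _ _).trans ((add_le_add hA hM2).trans ?_)
  have h20 : C₂ * X ^ (4 * e) * B * (4 * (X ^ e / e)) ≤
      C₁ * (4 * C₂ / e ^ 2) * Λ * X ^ ε * √(X * Y) := by
    calc C₂ * X ^ (4 * e) * B * (4 * (X ^ e / e)) ≤
          C₂ * X ^ (4 * e) * (C₁ * Λ * (X ^ e / e) * √(X * Y)) * (4 * (X ^ e / e)) := by gcongr
      _ = _ := by
        rw [hE]
        field_simp
  have h21 : |c| * B ≤ C₁ * (|c| / e) * Λ * X ^ ε * √(X * Y) := by
    calc |c| * B ≤ |c| * (C₁ * Λ * (X ^ ε / e) * √(X * Y)) := by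
          refine mul_le_mul_of_nonneg_left (hB1.trans ?_) (abs_nonneg _)
          gcongr
      _ = _ := by ring
  refine (add_le_add h20 h21).trans (le_of_eq ?_)
  ring

end Pool.Agent.Lib.MP_4b1228_nt.PP
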