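import Pool.Agent.Lib.MP_4b1228_nt.PP.T1
import Pool.Agent.Lib.MP_9177b7_ag.EQ.Div

/-! Trivial bounds for the two sequences. -/

open Finset Real Filter
open scoped Classical

noncomputable section

namespace Pool.Agent.Lib.MP_4b1228_nt.PP

namespace T0

theorem ev_exp (K c : ℝ) (n : ℕ) (hc : 0 < c) :
    ∀ᶠ u : ℝ in atTop, K * u ^ n ≤ exp (c * u) := by
  filter_upwards [tendsto_exp_atTop.eventually (T1.ev_log K c n hc)] with u hu
  rwa [log_exp, ← exp_mul, mul_comm u c] at hu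

/-- The bound for the weight of `l`. -/
def gl (X : ℝ) (l : ℤ) : ℝ := √(X / √((l : ℝ) ^ 2 + 1))

theorem gl_le {X t : ℝ} (hX : 0 ≤ X) (ht : 0 < t) {l : ℤ} (h : t ≤ |(l : ℝ)|) :
    gl X l ≤ √(X / t) := by
  unfold gl
  gcongr
  refine h.trans (abs_le_sqrt ?_)
  linarith

theorem sum_gl {X T : ℝ} (hX : 0 ≤ X) (hT : 0 ≤ T) (S : Finset ℤ) (hS : ∀ l ∈ S, |(l : ℝ)| ≤ T) :
    ∑ l ∈ S, gl X l ≤ √X * (1 + 4 * √T) := by
  have key : ∀ n : ℕ, ∑ l ∈ Icc (-(n : ℤ)) n, gl X l ≤ √X * (1 + 4 * √n) := by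
    intro n
    induction n with
    | zero => simp [gl]
    | succ n ih =>
      have e : Icc (-((n + 1 : ℕ) : ℤ)) (n + 1 : ℕ) =
          insert ((n : ℤ) + 1) (insert (-((n : ℤ) + 1)) (Icc (-(n : ℤ)) n)) := by
        ext l
        simp only [mem_Icc, mem_insert]
        omega
      rw [e, sum_insert (by simp only [mem_Icc, mem_insert]; omega),
        sum_insert (by simp only [mem_Icc]; omega)]
      have hn : (0 : ℝ) < n + 1 := by positivity
      have h1 : gl X ((n : ℤ) + 1) ≤ √(X / (n + 1)) :=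
        gl_le hX hn (by push_cast; exact le_abs_self _)
      have h2 : gl X (-((n : ℤ) + 1)) ≤ √(X / (n + 1)) :=
        gl_le hX hn (by push_cast; rw [abs_neg]; exact le_abs_self _)
      have h3 : √(X / (n + 1)) ≤ √X * (2 * (√(n + 1) - √n)) := by
        rw [sqrt_div hX, div_le_iff₀ (sqrt_pos.2 hn), mul_assoc]
        refine le_mul_of_one_le_right (sqrt_nonneg _) ?_
        nlinarith [sq_sqrt hn.le, sq_sqrt (Nat.cast_nonneg n : (0 : ℝ) ≤ n),
          sq_nonneg (√((n : ℝ) + 1) - √n)]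
      push_cast
      linarith
  calc ∑ l ∈ S, gl X l ≤ ∑ l ∈ Icc (-(⌊T⌋₊ : ℤ)) ⌊T⌋₊, gl X l := by
        refine sum_le_sum_of_subset_of_nonneg (fun l hl => ?_) fun _ _ _ => sqrt_nonneg _
        have h1 : l.natAbs ≤ ⌊T⌋₊ := Nat.le_floor (by rw [Nat.cast_natAbs, Int.cast_abs]; exact hS l hl)
        rw [mem_Icc]
        omega
    _ ≤ √X * (1 + 4 * √T) := by
        refine (key _).trans ?_
        gcongr
        exact Nat.floor_le hT

theorem cnt (hR : RhoStmt) (q : ℕ) (hq : 1 ≤ q) (n : ℕ) :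
    (#{l ∈ Icc (-(n : ℤ)) n | (q : ℤ) ∣ l ^ 2 + 1} : ℝ) ≤ rho q * ((2 * n + 1) / q + 1) := by
  obtain ⟨-, -, -, -, -, -, -, h8, -⟩ := hR
  have key : ∀ (a : ℤ) (j : ℕ), #{l ∈ Ico a (a + j * q) | (q : ℤ) ∣ l ^ 2 + 1} ≤ rho q * j := by
    intro a j
    induction j with
    | zero => simp
    | succ j ih =>
      have e : Ico a (a + (j + 1 : ℕ) * q) = Ico a (a + j * q) ∪ Ico (a + j * q) (a + j * q + q) := by
        rw [Ico_union_Ico_eq_Ico (by simp only [le_add_iff_nonneg_right]; positivity) (by omega)]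
        congr 1
        push_cast
        ring
      rw [e, filter_union, mul_add_one]
      exact (card_union_le _ _).trans (add_le_add ih (h8 q _).le)
  have h1 : #{l ∈ Icc (-(n : ℤ)) n | (q : ℤ) ∣ l ^ 2 + 1} ≤ rho q * ((2 * n + 1) / q + 1) := by
    refine le_trans (card_le_card (filter_subset_filter _ fun l hl => ?_)) (key (-n) _)
    have h := Nat.lt_mul_div_succ (2 * n + 1) hq
    rw [mul_comm q] at h
    rw [mem_Icc] at hl
    rw [mem_Ico, ← Nat.cast_mul]
    omega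
  refine le_trans (by exact_mod_cast h1 : _ ≤ ((rho q * ((2 * n + 1) / q + 1) : ℕ) : ℝ)) ?_
  push_cast
  gcongr
  refine Nat.cast_div_le.trans (by push_cast; rfl)

theorem dvd_sum (hR : RhoStmt) (d M : ℕ) (hd : 1 ≤ d) :
    ∑ k ∈ (Icc 1 M : Finset ℕ) with d ∣ k, (rho k : ℝ) / k ≤ rho d / d * (1 + log M) ^ 2 := by
  obtain ⟨-, h2, -, -, -, -, -, -, -, -, hs, -⟩ := hR
  calc ∑ k ∈ (Icc 1 M : Finset ℕ) with d ∣ k, (rho k : ℝ) / k
      ≤ ∑ k ∈ (Icc 1 M : Finset ℕ).image (d * ·), (rho k : ℝ) / k := by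
        refine sum_le_sum_of_subset_of_nonneg (fun k hk => ?_) fun _ _ _ => by positivity
        simp only [mem_filter, mem_Icc, mem_image] at hk ⊢
        obtain ⟨⟨h1, h3⟩, m, rfl⟩ := hk
        exact ⟨m, ⟨Nat.pos_of_mul_pos_left h1, le_trans (Nat.le_mul_of_pos_left m hd) h3⟩, rfl⟩
    _ = ∑ m ∈ (Icc 1 M : Finset ℕ), (rho (d * m) : ℝ) / (d * m : ℕ) :=
        sum_image fun a _ b _ h => Nat.eq_of_mul_eq_mul_left hd h
    _ ≤ ∑ m ∈ (Icc 1 M : Finset ℕ), (rho d : ℝ) / d * (rho m / m) := by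
        refine sum_le_sum fun m _ => ?_
        rw [div_mul_div_comm]
        push_cast
        gcongr
        exact_mod_cast h2 d m
    _ ≤ _ := by
        rw [← mul_sum]
        gcongr
        exact (hs M).1

theorem sum_sq {w : ℝ} (hw : 0 < w) (P : Finset ℕ) (hP : ∀ p ∈ P, w ≤ p) :
    ∑ p ∈ P, 1 / (p : ℝ) ^ 2 ≤ 2 / w := by
  have h1 : 1 ≤ ⌈w⌉₊ := Nat.ceil_pos.2 hw
  calc ∑ p ∈ P, 1 / (p : ℝ) ^ 2 ≤ ∑ p ∈ Ioo (⌈w⌉₊ - 1) (P.sup id + 1), ((p : ℝ) ^ 2)⁻¹ := by
        simp only [one_div]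
        refine sum_le_sum_of_subset_of_nonneg (fun p hp => ?_) fun _ _ _ => by positivity
        have h2 := Nat.ceil_le.2 (hP p hp)
        have h3 : p ≤ P.sup id := le_sup (f := id) hp
        rw [mem_Ioo]
        omega
    _ ≤ 2 / ((⌈w⌉₊ - 1 : ℕ) + 1) := sum_Ioo_inv_sq_le _ _
    _ ≤ 2 / w := by
        gcongr
        rw [Nat.cast_sub h1]
        simpa using Nat.le_ceil w

theorem rankin (hR : RhoStmt) : ∃ C : ℝ, ∀ (X : ℝ) (j : ℕ) (S : Finset ℕ), 2 ≤ X →
    (∀ d ∈ S, (d : ℝ) ≤ X ∧ Squarefree d ∧ j ≤ #d.primeFactors) →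
    ∑ d ∈ S, (rho d : ℝ) / d ≤ C * log X ^ 4 / 2 ^ j := by
  obtain ⟨-, -, -, -, -, -, h7, -⟩ := hR
  obtain ⟨-, ⟨C, hC⟩, -⟩ := MP_9177b7_ag.EQ.div
  refine ⟨exp (4 * C), fun X j S hX hS => ?_⟩
  have hL : 0 < log X := log_pos (by linarith)
  rw [le_div_iff₀ (by positivity), sum_mul]
  calc ∑ d ∈ S, (rho d : ℝ) / d * 2 ^ j ≤ ∑ d ∈ S, ∏ p ∈ d.primeFactors, 4 / (p : ℝ) := by
        refine sum_le_sum fun d hd => ?_
        obtain ⟨-, hq, hj⟩ := hS d hd
        rw [prod_div_distrib, prod_const, ← Nat.cast_prod, Nat.prod_primeFactors_of_squarefree hq,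
          div_mul_eq_mul_div, show (4 : ℝ) = 2 * 2 by norm_num, mul_pow]
        have h1 : rho d ≤ 2 ^ #d.primeFactors := by
          refine (h7 d).trans ?_
          rw [Nat.card_divisors hq.ne_zero]
          refine prod_le_pow_card _ _ _ fun p _ => ?_
          have := hq.natFactorization_le_one p
          omega
        gcongr
        · exact_mod_cast h1
        · norm_num
    _ = ∑ t ∈ S.image Nat.primeFactors, ∏ p ∈ t, 4 / (p : ℝ) := by
        refine (sum_image (f := fun t : Finset ℕ => ∏ p ∈ t, 4 / (p : ℝ)) fun a ha b hb h => ?_).symm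
        rw [← Nat.prod_primeFactors_of_squarefree (hS a ha).2.1, h,
          Nat.prod_primeFactors_of_squarefree (hS b hb).2.1]
    _ ≤ ∑ t ∈ (MP_9177b7_ag.EQ.Pr X).powerset, ∏ p ∈ t, 4 / (p : ℝ) := by
        refine sum_le_sum_of_subset_of_nonneg (fun t ht => ?_) fun _ _ _ => by positivity
        obtain ⟨d, hd, rfl⟩ := mem_image.1 ht
        refine mem_powerset.2 fun p hp => mem_filter.2 ⟨mem_range.2 (Nat.lt_succ_of_le ?_),
          Nat.prime_of_mem_primeFactors hp⟩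
        exact Nat.le_floor (le_trans (by exact_mod_cast Nat.le_of_mem_primeFactors hp) (hS d hd).1)
    _ = ∏ p ∈ MP_9177b7_ag.EQ.Pr X, (1 + 4 / (p : ℝ)) := (prod_one_add _).symm
    _ ≤ ∏ p ∈ MP_9177b7_ag.EQ.Pr X, exp (4 * (1 / (p : ℝ))) := by
        refine prod_le_prod (fun _ _ => by positivity) fun p _ => ?_
        rw [mul_one_div, add_comm]
        exact add_one_le_exp _
    _ ≤ exp (4 * C + 4 * log (log X)) := by
        rw [← exp_sum, ← Finset.mul_sum, exp_le_exp]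
        linarith [(abs_le.1 (hC X hX).1).2]
    _ = _ := by
        rw [exp_add, show (4 : ℝ) * log (log X) = (4 : ℕ) * log (log X) by norm_num, exp_nat_mul,
          exp_log hL]

theorem sa_le {X Λ Y : ℝ} {f : ℝ → ℝ} (hΛ : 0 ≤ Λ) (S : Finset ℕ)
    (h : ∀ k ∈ S, ∀ l : ℤ, f (hd (l / k) (1 / k) Y) ≠ 0 → |(l : ℝ)| ≤ X ∧ k * Y ≤ 2 * X ∧
      (l : ℝ) ^ 2 + 1 ≤ 2 * X * (k * Y) ∧
      f (hd (l / k) (1 / k) Y) ≤ Λ * √(X / √((l : ℝ) ^ 2 + 1))) :
    ∑ k ∈ S, sA f Y k ≤ Λ * ∑ l ∈ Icc (-(⌊X⌋₊ : ℤ)) ⌊X⌋₊, gl X l *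
      #(S.filter fun k : ℕ => (k : ℤ) ∣ l ^ 2 + 1 ∧ (l : ℝ) ^ 2 + 1 ≤ 2 * X * (k * Y)) := by
  calc ∑ k ∈ S, sA f Y k ≤ ∑ k ∈ S, ∑ l ∈ Icc (-(⌊X⌋₊ : ℤ)) ⌊X⌋₊,
        if (k : ℤ) ∣ l ^ 2 + 1 ∧ (l : ℝ) ^ 2 + 1 ≤ 2 * X * (k * Y) then Λ * gl X l else 0 := by
        refine sum_le_sum fun k hk => ?_
        rw [sA, tsum_eq_sum (s := Icc (-(⌊X⌋₊ : ℤ)) ⌊X⌋₊)]
        · refine sum_le_sum fun l _ => ?_
          have h0 : 0 ≤ Λ * gl X l := mul_nonneg hΛ (sqrt_nonneg _)
          by_cases hz : f (hd (l / k) (1 / k) Y) = 0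
          · rw [hz, ite_self]
            positivity
          · obtain ⟨-, -, h3, h4⟩ := h k hk l hz
            by_cases hc : Even l ∧ (k : ℤ) ∣ l ^ 2 + 1
            · rw [if_pos hc, if_pos ⟨hc.2, h3⟩]
              exact h4
            · rw [if_neg hc]
              positivity
        · intro l hl
          rw [ite_eq_right_iff]
          intro _
          by_contra hz
          have h1 : l.natAbs ≤ ⌊X⌋₊ :=
            Nat.le_floor (by rw [Nat.cast_natAbs, Int.cast_abs]; exact (h k hk l hz).1)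
          rw [mem_Icc] at hl
          omega
    _ = _ := by
        rw [sum_comm, Finset.mul_sum]
        refine sum_congr rfl fun l _ => ?_
        rw [← sum_filter, sum_const, nsmul_eq_mul]
        ring

theorem abs_le_of_mem {X : ℝ} (hX : 0 ≤ X) {l : ℤ} (hl : l ∈ Icc (-(⌊X⌋₊ : ℤ)) ⌊X⌋₊) :
    |(l : ℝ)| ≤ X := by
  refine le_trans ?_ (Nat.floor_le hX)
  have h : |l| ≤ (⌊X⌋₊ : ℤ) := abs_le.2 (mem_Icc.1 hl)
  exact_mod_cast h

/-- The integers `l` such that `l ^ 2 + 1` is divisible by the square of a large prime. -/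
theorem bad_sum (hR : RhoStmt) {X s : ℝ} (hX : 1 ≤ X) (hs : 1 ≤ s) (h4 : s ^ 2 ≤ X) (P : Finset ℕ)
    (hP : ∀ p ∈ P, p.Prime ∧ s ^ 2 ≤ p ∧ (p : ℝ) ≤ 2 * (X / s ^ 2)) :
    ∑ l ∈ Icc (-(⌊X⌋₊ : ℤ)) ⌊X⌋₊ with ∃ p ∈ P, ((p ^ 2 : ℕ) : ℤ) ∣ l ^ 2 + 1, gl X l ≤
      21 * (X / s) := by
  have hX0 : 0 < X := by linarith
  have hs0 : 0 < s := by linarith
  set I := Icc (-(⌊X⌋₊ : ℤ)) ⌊X⌋₊ with hI
  set D := I.filter fun l => ∃ p ∈ P, ((p ^ 2 : ℕ) : ℤ) ∣ l ^ 2 + 1 with hD
  have hc : (#D : ℝ) ≤ 16 * (X / s ^ 2) := by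
    have h1 : D ⊆ P.biUnion fun p => I.filter fun l => ((p ^ 2 : ℕ) : ℤ) ∣ l ^ 2 + 1 := by
      intro l hl
      obtain ⟨h1, p, hp, h2⟩ := mem_filter.1 hl
      exact mem_biUnion.2 ⟨p, hp, mem_filter.2 ⟨h1, h2⟩⟩
    have h2 : (#P : ℝ) ≤ 2 * (X / s ^ 2) := by
      refine le_trans ?_ (Nat.floor_le (by positivity))
      have h : P ⊆ Icc 1 ⌊2 * (X / s ^ 2)⌋₊ := fun p hp =>
        mem_Icc.2 ⟨(hP p hp).1.one_le, Nat.le_floor (hP p hp).2.2⟩
      simpa using card_le_card h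
    have h3 := sum_sq (by positivity : 0 < s ^ 2) P fun p hp => (hP p hp).2.1
    calc (#D : ℝ) ≤ ∑ p ∈ P, (#(I.filter fun l => ((p ^ 2 : ℕ) : ℤ) ∣ l ^ 2 + 1) : ℝ) := by
          exact_mod_cast (card_le_card h1).trans card_biUnion_le
      _ ≤ ∑ p ∈ P, (6 * X * (1 / (p : ℝ) ^ 2) + 2) := by
          refine sum_le_sum fun p hp => (cnt hR _ (pow_pos (hP p hp).1.pos 2) _).trans ?_
          have h5 : (rho (p ^ 2) : ℝ) ≤ 2 := by exact_mod_cast hR.2.2.1 p 2 (hP p hp).1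
          have h6 : 2 * (⌊X⌋₊ : ℝ) + 1 ≤ 3 * X := by linarith [Nat.floor_le hX0.le]
          push_cast
          calc _ ≤ 2 * (3 * X / (p : ℝ) ^ 2 + 1) := by gcongr
            _ = _ := by ring
      _ ≤ 6 * X * (2 / s ^ 2) + 2 * (X / s ^ 2) * 2 := by
          rw [sum_add_distrib, ← Finset.mul_sum, sum_const, nsmul_eq_mul]
          gcongr
      _ = _ := by ring
  rw [← sum_filter_add_sum_filter_not D fun l => |(l : ℝ)| ≤ X / s ^ 2]
  have h1 := sum_gl hX0.le (by positivity : 0 ≤ X / s ^ 2) (D.filter fun l => |(l : ℝ)| ≤ X / s ^ 2)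
    fun l hl => (mem_filter.1 hl).2
  have h2 : ∑ l ∈ D.filter (fun l : ℤ => ¬ |(l : ℝ)| ≤ X / s ^ 2), gl X l ≤
      16 * (X / s ^ 2) * s := by
    refine (sum_le_card_nsmul _ _ s fun l hl => ?_).trans ?_
    · refine (gl_le hX0.le (by positivity) (not_le.1 (mem_filter.1 hl).2).le).trans (le_of_eq ?_)
      rw [show X / (X / s ^ 2) = s ^ 2 by field_simp, sqrt_sq hs0.le]
    · rw [nsmul_eq_mul]
      gcongr
      exact le_trans (by exact_mod_cast card_filter_le _ _) hc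
  have h3 : √X * √(X / s ^ 2) = X / s := by
    rw [sqrt_div hX0.le, sqrt_sq hs0.le, ← mul_div_assoc, mul_self_sqrt hX0.le]
  have h5 : √X ≤ X / s := by
    rw [le_div_iff₀ hs0]
    nth_rewrite 2 [← mul_self_sqrt hX0.le]
    gcongr
    exact le_sqrt_of_sq_le h4
  have h6 : 16 * (X / s ^ 2) * s = 16 * (X / s) := by field_simp
  linarith

theorem div_card (S : Finset ℕ) (l : ℤ) (Q : ℕ → Prop) (T : Finset ℕ)
    (h : ∀ k ∈ S, k ∈ (l ^ 2 + 1).toNat.divisors → k ∈ T) :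
    #(S.filter fun k : ℕ => (k : ℤ) ∣ l ^ 2 + 1 ∧ Q k) ≤ #T := by
  refine card_le_card fun k hk => ?_
  obtain ⟨h1, h2, -⟩ := mem_filter.1 hk
  have h0 : 0 < l ^ 2 + 1 := by positivity
  refine h k h1 (Nat.mem_divisors.2 ⟨?_, by omega⟩)
  rwa [← Int.natCast_dvd_natCast, Int.toNat_of_nonneg h0.le]

theorem cast_toNat (l : ℤ) : (((l ^ 2 + 1).toNat : ℕ) : ℝ) = (l : ℝ) ^ 2 + 1 := by
  have h0 : 0 < l ^ 2 + 1 := by positivity
  rw [← Int.cast_natCast, Int.toNat_of_nonneg h0.le]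
  push_cast
  rfl

end T0

open T0 in
theorem t0 (hR : RhoStmt) (h1 : I1Stmt) (h2 : I2Stmt) : T0Stmt := by
  intro A B η hη hη1
  obtain ⟨C1, hC1, h1⟩ := h1
  obtain ⟨C2, -, h2⟩ := h2
  obtain ⟨C3, h3⟩ := rankin hR
  obtain ⟨C4, hC4, h4⟩ := MP_9177b7_ag.EQ.div.1 0 (η / 120) (by positivity)
  have hl2 : 0 < log 2 := log_pos one_lt_two
  have t6 := (tendsto_rpow_atTop (by norm_num : (0 : ℝ) < 1 / 6)).comp tendsto_log_atTop
  have t3 := (tendsto_rpow_atTop (by norm_num : (0 : ℝ) < 1 / 3)).comp tendsto_log_atTop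
  filter_upwards [eventually_ge_atTop (3 : ℝ), t6.eventually_ge_atTop 6,
    t6.eventually (ev_exp (21 + 100 * C1) 1 (6 * (A + 3)) one_pos),
    t3.eventually (ev_exp (50 * C1 * |C3|) (η * log 2) (3 * (A + 7 + B)) (by positivity)),
    T1.ev_log (9 * C4 + 25 * C1) (η / 40) (A + 3) (by positivity)] with X hX hv hKa hKc hKb
  intro f hf
  obtain ⟨-, -, -, h2⟩ := h2 X hX
  obtain ⟨-, h2, -⟩ := h2 _ f hf
  obtain ⟨h1, -⟩ := h1 X _ f hX hf
  have hX0 : 0 < X := by linarith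
  have hX1 : 1 ≤ X := by linarith
  have hL : 1 ≤ log X := by
    rw [le_log_iff_exp_le hX0]
    exact exp_one_lt_three.le.trans hX
  have mono : ∀ {a b : ℝ}, a ≤ b → X ^ a ≤ X ^ b := fun h => rpow_le_rpow_of_exponent_le hX1 h
  simp only [Function.comp] at hv hKa hKc
  set L := log X with hLd
  have hL0 : 0 < L := by linarith
  have hΛ : 1 ≤ L ^ A := one_le_pow₀ hL
  have hsB : ∀ (Y t : ℝ) (k : ℕ), 0 < Y → 1 ≤ k → 0 ≤ t → X * (k * Y) ≤ (2 * t) ^ 2 →
      sB f Y k ≤ C1 * L ^ A * L * t * (rho k / k) := by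
    intro Y t k hY hk ht h
    have hk0 : (0 : ℝ) < k := by exact_mod_cast hk
    rw [sB]
    split_ifs
    · calc _ ≤ (rho k : ℝ) / (2 * k) * (C1 * L ^ A * L * (2 * t)) := by
            gcongr
            refine (h1 _ (by positivity)).2.2.1.trans ?_
            gcongr
            exact sqrt_le_iff.2 ⟨by positivity, h⟩
        _ = _ := by field_simp
    · positivity
  have hkY : ∀ (Y : ℝ) (k : ℕ), 0 < Y → k ≤ KM X Y → k * Y ≤ 2 * X := fun Y k hY hk =>
    (le_div_iff₀ hY).1 ((Nat.le_floor_iff (by positivity)).1 hk)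
  have hsB' : ∀ (Y : ℝ) (k : ℕ), 0 < Y → k ∈ Icc 1 (KM X Y) →
      sB f Y k ≤ C1 * L ^ A * L * X * (rho k / k) := fun Y k hY hk =>
    hsB Y X k hY (mem_Icc.1 hk).1 hX0.le (by nlinarith [hkY Y k hY (mem_Icc.1 hk).2])
  have hM : ∀ (Y : ℝ) (d : ℕ), 1 / X ^ 2 ≤ Y → 1 ≤ d →
      ∑ k ∈ (Icc 1 (KM X Y) : Finset ℕ) with d ∣ k, (rho k : ℝ) / k ≤ rho d / d * (25 * L ^ 2) := by
    intro Y d hY hd
    have hY0 : 0 < Y := lt_of_lt_of_le (by positivity) hY
    refine (dvd_sum hR d _ hd).trans ?_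
    have h5 : (KM X Y : ℝ) ≤ X ^ 4 := by
      refine (Nat.floor_le (by positivity)).trans ?_
      rw [div_le_iff₀ hY0]
      calc 2 * X ≤ X * X := by gcongr; linarith
        _ = X ^ 4 * (1 / X ^ 2) := by field_simp
        _ ≤ _ := by gcongr
    have h6 := T1.log_nat_le (one_le_pow₀ hX1) h5
    rw [log_pow] at h6
    push_cast at h6
    gcongr
    nlinarith [log_natCast_nonneg (KM X Y)]
  have hm3 : ∀ l ∈ Icc (-(⌊X⌋₊ : ℤ)) ⌊X⌋₊, 1 ≤ (l ^ 2 + 1).toNat ∧
      ((l ^ 2 + 1).toNat : ℝ) ≤ X ^ 3 := by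
    intro l hl
    have h0 : 0 < l ^ 2 + 1 := by positivity
    refine ⟨by omega, ?_⟩
    rw [cast_toNat, ← sq_abs]
    nlinarith [pow_le_pow_left₀ (abs_nonneg _) (abs_le_of_mem hX0.le hl) 2]
  refine ⟨fun Y hY hY1 => ?_, fun Y hY => ?_, fun Y hY hY1 => ?_⟩
  · have hY0 : 0 < Y := lt_of_lt_of_le (by positivity) hY
    have hY2 : 1 / X ^ 2 ≤ Y := by
      refine le_trans ?_ hY
      rw [one_div, ← rpow_natCast, ← rpow_neg hX0.le]
      exact mono (by norm_num)
    set v := L ^ (1 / 6 : ℝ) with hvd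
    have pw : ∀ n : ℕ, v ^ n = L ^ ((n : ℝ) / 6) := fun n => by
      rw [hvd, ← rpow_natCast, ← rpow_mul hL0.le]
      congr 1
      ring
    have hv6 : v ^ 6 = L := by rw [pw]; norm_num
    have hv3 : √L = v ^ 3 := by rw [pw, sqrt_eq_rpow]; norm_num
    set s := exp (v ^ 4 / 2) with hsd
    have hs0 : 0 < s := exp_pos _
    have hs1 : 1 ≤ s := one_le_exp (by positivity)
    have hw : wX X = exp (v ^ 4) := by rw [wX, ← hLd, pw]; norm_num
    have hs2 : s ^ 2 = wX X := by rw [hw, hsd, ← exp_nat_mul]; congr 1; push_cast; ring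
    have hv0 : 0 < v := by linarith
    have hs8 : s ^ 8 ≤ X := by
      rw [hsd, ← exp_nat_mul, ← le_log_iff_exp_le hX0, ← hLd, ← hv6]
      push_cast
      nlinarith [mul_le_mul_of_nonneg_left (by nlinarith : 4 ≤ v ^ 2) (pow_pos hv0 4).le]
    set S := (Icc 1 (KM X Y) : Finset ℕ).filter fun k : ℕ => Rough (wX X) k ∧ ¬ Squarefree k with hS
    have hk1 : ∀ k ∈ S, 1 ≤ k := fun k hk => (mem_Icc.1 (mem_filter.1 hk).1).1
    set P := (Icc 1 (KM X Y) : Finset ℕ).filter fun p : ℕ => p.Prime ∧ s ^ 2 ≤ p ∧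
      (p : ℝ) ≤ 2 * (X / s ^ 2) with hP
    have hP1 : ∀ p ∈ P, p.Prime ∧ s ^ 2 ≤ p ∧ (p : ℝ) ≤ 2 * (X / s ^ 2) := fun p hp =>
      (mem_filter.1 hp).2
    have hex : ∀ k ∈ S, ∃ p ∈ P, p ^ 2 ∣ k := by
      intro k hk
      obtain ⟨a1, a2, a3⟩ := mem_filter.1 hk
      rw [Nat.squarefree_iff_prime_squarefree] at a3
      push Not at a3
      obtain ⟨p, hp, hpk⟩ := a3
      have a4 : p ∣ k := (dvd_mul_right p p).trans hpk
      have a5 : (p : ℝ) ^ 2 ≤ k := by exact_mod_cast sq p ▸ Nat.le_of_dvd (hk1 k hk) hpk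
      refine ⟨p, mem_filter.2 ⟨mem_Icc.2 ⟨hp.one_le, (Nat.le_of_dvd (hk1 k hk) a4).trans
        (mem_Icc.1 a1).2⟩, hp, hs2 ▸ a2 p hp a4, ?_⟩, sq p ▸ hpk⟩
      refine (abs_le_of_sq_le_sq' (a5.trans ?_) (by positivity)).2
      have a6 : s ^ 4 ≤ X * Y := by
        refine le_trans ?_ (mul_le_mul_of_nonneg_left hY hX0.le)
        rw [← rpow_one_add' hX0.le (by norm_num), show (1 : ℝ) + -(1 / 2) = 1 / 2 by norm_num,
          ← sqrt_eq_rpow]
        exact le_sqrt_of_sq_le (by rwa [← pow_mul])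
      rw [show (2 * (X / s ^ 2)) ^ 2 = 4 * X ^ 2 / s ^ 4 by field_simp; norm_num,
        le_div_iff₀ (by positivity)]
      nlinarith [mul_le_mul_of_nonneg_left a6 (Nat.cast_nonneg k : (0 : ℝ) ≤ k),
        mul_le_mul_of_nonneg_left (hkY Y k hY0 (mem_Icc.1 a1).2) hX0.le]
    set T := exp (3 * v ^ 2) with hT
    have hT1 : 1 ≤ T := one_le_exp (by positivity)
    have hA : ∑ k ∈ S, sA f Y k ≤ L ^ A * (21 * (X / s) * T) := by
      refine (sa_le (by positivity) S fun k hk => (h2 Y k hY0 (hk1 k hk)).2.2.2.2).trans ?_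
      gcongr
      refine le_trans ?_ (mul_le_mul_of_nonneg_right (bad_sum hR hX1 hs1
        ((pow_le_pow_right₀ hs1 (by norm_num)).trans hs8) P hP1) (by positivity))
      rw [sum_mul, sum_filter]
      refine sum_le_sum fun l hl => ?_
      split_ifs with hc
      · refine mul_le_mul_of_nonneg_left ?_ (sqrt_nonneg _)
        have a1 := hR.2.2.2.2.2.2.2.2.2.2.2 (wX X) _ (by rw [hw]; exact one_lt_exp_iff.2 (by positivity))
          (hm3 l hl).1
        refine le_trans (by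
          exact_mod_cast div_card S l _ _ fun k hk hd => mem_filter.2 ⟨hd, (mem_filter.1 hk).2.1⟩)
          (a1.trans ?_)
        have a2 := T1.log_nat_le (one_le_pow₀ hX1) (hm3 l hl).2
        rw [log_pow, ← hLd, ← hv6] at a2
        rw [hw, log_exp, rpow_def_of_pos two_pos, hT, exp_le_exp, ← mul_div_assoc,
          div_le_iff₀ (by positivity)]
        push_cast at a2
        nlinarith [log_two_lt_d9, log_natCast_nonneg (l ^ 2 + 1).toNat]
      · rw [filter_eq_empty_iff.2, card_empty, Nat.cast_zero, mul_zero]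
        rintro k hk ⟨h5, -⟩
        obtain ⟨p, hp, hpk⟩ := hex k hk
        exact hc ⟨p, hp, (Int.natCast_dvd_natCast.2 hpk).trans h5⟩
    have hB : ∑ k ∈ S, sB f Y k ≤ C1 * L ^ A * L * X * (50 * L ^ 2 * (2 / s ^ 2)) := by
      refine (sum_le_sum fun k hk => hsB' Y k hY0 (mem_filter.1 hk).1).trans ?_
      rw [← Finset.mul_sum]
      gcongr
      calc _ ≤ ∑ k ∈ S, ∑ p ∈ P, if p ^ 2 ∣ k then (rho k : ℝ) / k else 0 := by
            refine sum_le_sum fun k hk => ?_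
            obtain ⟨p, hp, hpk⟩ := hex k hk
            refine le_trans (le_of_eq ?_) (single_le_sum (fun _ _ => by positivity) hp)
            rw [if_pos hpk]
        _ ≤ ∑ p ∈ P, 50 * L ^ 2 * (1 / (p : ℝ) ^ 2) := by
            rw [sum_comm]
            refine sum_le_sum fun p hp => ?_
            have a1 : (rho (p ^ 2) : ℝ) ≤ 2 := by exact_mod_cast hR.2.2.1 p 2 (hP1 p hp).1
            have a2 := hM Y (p ^ 2) hY2 (pow_pos (hP1 p hp).1.pos 2)
            rw [sum_filter] at a2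
            refine (sum_le_sum_of_subset_of_nonneg (filter_subset _ _)
              fun _ _ _ => by positivity).trans (a2.trans ?_)
            push_cast
            calc _ ≤ 2 / (p : ℝ) ^ 2 * (25 * L ^ 2) := by gcongr
              _ = _ := by ring
        _ ≤ _ := by
            rw [← Finset.mul_sum]
            gcongr
            exact sum_sq (by positivity) P fun p hp => (hP1 p hp).2.1
    rw [pow_mul, hv6] at hKa
    rw [sum_add_distrib, hv3]
    calc _ ≤ L ^ A * L ^ 3 * (21 * (X / s) * T) + C1 * L ^ A * L * X * (50 * L ^ 2 * (2 / s)) * T := by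
          refine add_le_add (hA.trans ?_) (hB.trans (le_trans ?_
            (le_mul_of_one_le_right (by positivity) hT1)))
          · gcongr
            exact le_mul_of_one_le_right (by positivity) (one_le_pow₀ hL)
          · gcongr
            nlinarith
      _ = X * ((21 + 100 * C1) * L ^ (A + 3) * T / s) := by ring
      _ ≤ X * (exp (1 * v) * T / s) := by gcongr
      _ ≤ _ := by
          rw [hT, hsd, ← exp_add, ← exp_sub]
          gcongr
          nlinarith [mul_le_mul_of_nonneg_left hv (pow_pos hv0 3).le,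
            mul_le_mul_of_nonneg_left hv (pow_pos hv0 2).le, mul_le_mul_of_nonneg_left hv hv0.le]
  · have hY0 : 0 < Y := lt_of_lt_of_le (by positivity) hY
    set S := (Icc 1 (KM X Y) : Finset ℕ).filter fun k : ℕ => (k : ℝ) * Y ≤ X ^ (1 - η) with hS
    have hk1 : ∀ k ∈ S, 1 ≤ k := fun k hk => (mem_Icc.1 (mem_filter.1 hk).1).1
    set P := X ^ (1 - 9 * η / 40) with hP
    have hA : ∑ k ∈ S, sA f Y k ≤ L ^ A * (9 * C4 * P) := by
      refine (sa_le (by positivity) S fun k hk => (h2 Y k hY0 (hk1 k hk)).2.2.2.2).trans ?_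
      gcongr
      calc _ ≤ ∑ l ∈ (Icc (-(⌊X⌋₊ : ℤ)) ⌊X⌋₊).filter
            (fun l : ℤ => |(l : ℝ)| ≤ (2 * X ^ (1 / 2 - η / 4)) ^ 2), gl X l * (C4 * X ^ (η / 40)) := by
            rw [sum_filter]
            refine sum_le_sum fun l hl => ?_
            split_ifs with hc
            · refine mul_le_mul_of_nonneg_left ?_ (sqrt_nonneg _)
              refine le_trans (by exact_mod_cast div_card S l _ _ fun k _ hk => hk)
                ((h4 _ (hm3 l hl).1).1.trans ?_)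
              gcongr
              refine (rpow_le_rpow (by positivity) (hm3 l hl).2 (by positivity)).trans (le_of_eq ?_)
              rw [← rpow_natCast, ← rpow_mul hX0.le]
              congr 1
              push_cast
              ring
            · rw [filter_eq_empty_iff.2, card_empty, Nat.cast_zero, mul_zero]
              rintro k hk ⟨-, h5⟩
              refine hc (abs_le_of_sq_le_sq' ?_ (by positivity) |> abs_le.2)
              have h6 := (mem_filter.1 hk).2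
              have h7 : ((2 * X ^ (1 / 2 - η / 4)) ^ 2) ^ 2 = 16 * (X * X ^ (1 - η)) := by
                rw [← pow_mul, mul_pow, ← rpow_natCast (X ^ _), ← rpow_mul hX0.le,
                  ← rpow_one_add' hX0.le (by linarith)]
                congr 1
                · norm_num
                · congr 1
                  push_cast
                  ring
              rw [h7]
              nlinarith [mul_le_mul_of_nonneg_left h6 hX0.le, rpow_pos_of_pos hX0 (1 - η)]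
        _ ≤ √X * (1 + 4 * √((2 * X ^ (1 / 2 - η / 4)) ^ 2)) * (C4 * X ^ (η / 40)) := by
            rw [← sum_mul]
            gcongr
            exact sum_gl hX0.le (by positivity) _ fun l hl => (mem_filter.1 hl).2
        _ ≤ √X * (9 * X ^ (1 / 2 - η / 4)) * (C4 * X ^ (η / 40)) := by
            rw [sqrt_sq (by positivity)]
            gcongr
            linarith [one_le_rpow hX1 (by linarith : 0 ≤ 1 / 2 - η / 4)]
        _ = _ := by
            rw [hP, sqrt_eq_rpow, show 1 - 9 * η / 40 = 1 / 2 + (1 / 2 - η / 4) + η / 40 by ring,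
              rpow_add hX0, rpow_add hX0]
            ring
    have hB : ∑ k ∈ S, sB f Y k ≤ C1 * L ^ A * L * P * (25 * L ^ 2) := by
      refine (sum_le_sum fun k hk => hsB Y P k hY0 (hk1 k hk) (by positivity) ?_).trans ?_
      · have h7 : X * X ^ (1 - η) ≤ P ^ 2 := by
          rw [hP, ← rpow_natCast (X ^ _), ← rpow_mul hX0.le, ← rpow_one_add' hX0.le (by linarith)]
          refine mono ?_
          push_cast
          linarith
        nlinarith [mul_le_mul_of_nonneg_left (mem_filter.1 hk).2 hX0.le, sq_nonneg P]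
      · rw [← Finset.mul_sum]
        gcongr
        have h5 := hM Y 1 hY le_rfl
        rw [hR.2.2.2.2.1] at h5
        simp only [one_dvd, filter_true, Nat.cast_one, div_one, one_mul] at h5
        exact (sum_le_sum_of_subset_of_nonneg (filter_subset _ _) fun _ _ _ => by positivity).trans h5
    rw [sum_add_distrib, show 1 - η / 5 = η / 40 + (1 - 9 * η / 40) by ring, rpow_add hX0, ← hP]
    have hP0 : 0 < P := by positivity
    calc _ ≤ L ^ A * L ^ 3 * (9 * C4 * P) + C1 * L ^ A * L * P * (25 * L ^ 2) := by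
          refine add_le_add (hA.trans ?_) hB
          gcongr
          exact le_mul_of_one_le_right (by positivity) (one_le_pow₀ hL)
      _ = (9 * C4 + 25 * C1) * L ^ (A + 3) * P := by ring
      _ ≤ _ := by gcongr
  · have hY0 : 0 < Y := lt_of_lt_of_le (by positivity) hY
    have hY2 : 1 / X ^ 2 ≤ Y := le_trans (by gcongr; nlinarith) hY
    set u := L ^ (1 / 3 : ℝ) with hu
    have hu3 : u ^ 3 = L := by rw [hu, ← rpow_natCast, ← rpow_mul hL0.le]; norm_num
    set S := (Icc 1 ⌊X⌋₊ : Finset ℕ).filter fun d : ℕ => Squarefree d ∧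
      tiny (wX X) d = ⌊η * u⌋₊ with hS
    have h5 := h3 X ⌊η * u⌋₊ S (by linarith) fun d hd => by
      obtain ⟨a1, a2, a3⟩ := mem_filter.1 hd
      exact ⟨(Nat.le_floor_iff hX0.le).1 (mem_Icc.1 a1).2, a2, a3 ▸ card_filter_le _ _⟩
    have h6 : exp (η * log 2 * u) ≤ 2 * 2 ^ ⌊η * u⌋₊ := by
      rw [← pow_succ', ← rpow_natCast, rpow_def_of_pos two_pos, exp_le_exp]
      push_cast
      nlinarith [Nat.lt_floor_add_one (η * u)]
    rw [pow_mul, hu3] at hKc
    calc _ ≤ ∑ d ∈ S, C1 * L ^ A * L * X * (25 * L ^ 2) * (rho d / d) := by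
          refine sum_le_sum fun d hd => ?_
          refine (sum_le_sum fun k hk => hsB' Y k hY0 (mem_filter.1 hk).1).trans ?_
          rw [← Finset.mul_sum, mul_assoc _ (25 * _), mul_comm (25 * _)]
          gcongr
          exact hM Y d hY2 (mem_Icc.1 (mem_filter.1 hd).1).1
      _ ≤ C1 * L ^ A * L * X * (25 * L ^ 2) * (|C3| * L ^ 4 / 2 ^ ⌊η * u⌋₊) := by
          rw [← Finset.mul_sum]
          gcongr
          refine h5.trans ?_
          gcongr
          exact le_abs_self _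
      _ = X / L ^ B * (50 * C1 * |C3| * L ^ (A + 7 + B) / (2 * 2 ^ ⌊η * u⌋₊)) := by
          field_simp
          ring
      _ ≤ _ := mul_le_of_le_one_right (by positivity)
          ((div_le_one (by positivity)).2 (hKc.trans h6))

end Pool.Agent.Lib.MP_4b1228_nt.PP
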