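import Pool.Agent.Lib.MP_4b1228_nt.PP.I3
import Pool.Agent.Lib.MP_4b1228_nt.PP.B1
import Pool.Agent.Lib.MP_4b1228_nt.PP.T0

/-!
Moments of the divisor function of `l ^ 2 + 1` and negligible sets of integers.
-/

open Finset Real Filter
open scoped Classical

noncomputable section

namespace Pool.Agent.Lib.MP_4b1228_nt.PP

/-- The number of divisors of `l ^ 2 + 1`. -/
def tl (l : ℤ) : ℕ := (l ^ 2 + 1).toNat.divisors.card

/-- Small integers are negligible. -/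
def G0aStmt : Prop :=
  ∀ (A j : ℕ) (η : ℝ), 0 < η → η ≤ 1 → ∀ᶠ X : ℝ in atTop, ∀ f : ℝ → ℝ, Adm X (log X ^ A) f →
    ∑ l ∈ (Icc (-⌈X⌉) ⌈X⌉ : Finset ℤ) with |((l : ℤ) : ℝ)| ≤ X ^ (1 - η),
      WW f l * (tl l : ℝ) ^ j ≤ X ^ (1 - η / 3)

/-- Moments. -/
def G0bStmt : Prop :=
  ∀ A j : ℕ, ∃ D : ℕ, ∀ᶠ X : ℝ in atTop, ∀ f : ℝ → ℝ, Adm X (log X ^ A) f →
    ∑ l ∈ (Icc (-⌈X⌉) ⌈X⌉ : Finset ℤ), WW f l * (tl l : ℝ) ^ j ≤ X * log X ^ D

/-- Squares of primes that are not tiny are negligible. -/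
def G0cStmt : Prop :=
  ∀ A B j : ℕ, ∀ᶠ X : ℝ in atTop, ∀ f : ℝ → ℝ, Adm X (log X ^ A) f →
    ∑ l ∈ (Icc (-⌈X⌉) ⌈X⌉ : Finset ℤ) with
        (∃ p : ℕ, p.Prime ∧ wX X ≤ p ∧ (p : ℤ) ^ 2 ∣ l ^ 2 + 1),
      WW f l * (tl l : ℝ) ^ j ≤ X / log X ^ B

namespace G0

lemma tau_mul (a b : ℕ) : (a * b).divisors.card ≤ a.divisors.card * b.divisors.card :=
  (MP_9177b7_ag.EQ.div.2.2.2.1 a b).2.1

lemma small_div {z : ℝ} (hz : 1 ≤ z) (t : ℕ) : ∀ n : ℕ, 1 ≤ n → (n : ℝ) ≤ z ^ t →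
    ∃ d, d ∣ n ∧ (d : ℝ) ≤ z ∧ n.divisors.card ≤ (2 * d.divisors.card) ^ t := by
  induction t with
  | zero =>
    intro n h1 h2
    obtain rfl : n = 1 := by
      rw [pow_zero] at h2
      exact le_antisymm (by exact_mod_cast h2) h1
    exact ⟨1, dvd_rfl, by simpa using hz, by simp⟩
  | succ t ih =>
    intro n h1 h2
    have hne : (n.divisors.filter fun d : ℕ => (d : ℝ) ≤ z).Nonempty :=
      ⟨1, mem_filter.2 ⟨Nat.one_mem_divisors.2 (by omega), by simpa using hz⟩⟩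
    obtain ⟨d, hd, hmax⟩ := exists_max_image _ (fun d : ℕ => d) hne
    obtain ⟨h3, h4⟩ := mem_filter.1 hd
    have h5 := Nat.dvd_of_mem_divisors h3
    have hd0 : 0 < d := Nat.pos_of_mem_divisors h3
    have hc : 1 ≤ d.divisors.card := card_pos.2 ⟨1, Nat.one_mem_divisors.2 hd0.ne'⟩
    obtain ⟨m, rfl⟩ := h5
    by_cases hm : m = 1
    · subst hm
      refine ⟨d, by simp, h4, ?_⟩
      rw [mul_one]
      exact le_trans (by omega) (Nat.le_self_pow (by omega) _)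
    obtain ⟨p, hp, m', rfl⟩ := Nat.exists_prime_and_dvd hm
    have hm' : 1 ≤ m' := Nat.pos_of_ne_zero (by rintro rfl; simp at h1)
    have h6 : z < ((d * p : ℕ) : ℝ) := by
      by_contra h7
      have h8 := hmax (d * p) (mem_filter.2 ⟨Nat.mem_divisors.2 ⟨⟨m', by ring⟩, by omega⟩,
        not_lt.1 h7⟩)
      have := hp.two_le
      nlinarith
    have h9 : (m' : ℝ) ≤ z ^ t := by
      have h10 : z * m' ≤ z * z ^ t := by
        calc z * m' ≤ ((d * p : ℕ) : ℝ) * m' := mul_le_mul_of_nonneg_right h6.le (by positivity)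
          _ = ((d * (p * m') : ℕ) : ℝ) := by push_cast; ring
          _ ≤ _ := by rwa [← pow_succ']
      exact le_of_mul_le_mul_left h10 (by linarith)
    obtain ⟨e, he1, he2, he3⟩ := ih m' hm' h9
    have h11 : (d * (p * m')).divisors.card ≤
        2 * d.divisors.card * (2 * e.divisors.card) ^ t := by
      calc _ ≤ d.divisors.card * (p.divisors.card * m'.divisors.card) :=
            (tau_mul _ _).trans (Nat.mul_le_mul_left _ (tau_mul _ _))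
        _ ≤ d.divisors.card * (2 * (2 * e.divisors.card) ^ t) := by
            rw [hp.divisors, card_pair hp.one_lt.ne]
            gcongr
        _ = _ := by ring
    rcases le_total d.divisors.card e.divisors.card with h | h
    · refine ⟨e, (he1.mul_left p).mul_left d, he2, h11.trans ?_⟩
      rw [pow_succ']
      gcongr
    · refine ⟨d, dvd_mul_right _ _, h4, h11.trans ?_⟩
      rw [pow_succ']
      gcongr

lemma tau_sum (x k : ℕ) :
    ∑ d ∈ (Icc 1 x : Finset ℕ), (d.divisors.card : ℝ) ^ k / d ≤ (1 + log x) ^ 2 ^ k := by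
  induction k with
  | zero => simpa using B1.harm x
  | succ k ih =>
    have h1 : ∑ d ∈ (Icc 1 x : Finset ℕ), (d.divisors.card : ℝ) ^ (k + 1) / d ≤
        ∑ d ∈ (Icc 1 x : Finset ℕ), ∑ y ∈ d.divisorsAntidiagonal,
          (y.1.divisors.card : ℝ) ^ k / y.1 * ((y.2.divisors.card : ℝ) ^ k / y.2) := by
      refine sum_le_sum fun d _ => ?_
      have h2 : d.divisorsAntidiagonal.card = d.divisors.card := by
        rw [← Nat.map_div_right_divisors, card_map]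
      have h3 := card_nsmul_le_sum d.divisorsAntidiagonal
        (fun y => (y.1.divisors.card : ℝ) ^ k / y.1 * ((y.2.divisors.card : ℝ) ^ k / y.2))
        ((d.divisors.card : ℝ) ^ k / d) fun y hy => by
          obtain ⟨h4, -⟩ := Nat.mem_divisorsAntidiagonal.1 hy
          rw [div_mul_div_comm, ← mul_pow, ← Nat.cast_mul, ← Nat.cast_mul, h4]
          gcongr
          rw [← h4]
          exact tau_mul _ _
      rw [h2, nsmul_eq_mul] at h3
      refine le_trans (le_of_eq ?_) h3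
      ring
    refine h1.trans ?_
    rw [sum_sigma', pow_succ 2 k, pow_mul, sq]
    refine le_trans ?_ (mul_le_mul ih ih (sum_nonneg fun _ _ => by positivity)
      (le_trans (sum_nonneg fun _ _ => by positivity) ih))
    rw [sum_mul_sum, ← sum_product']
    refine le_trans (le_of_eq (sum_image (g := fun y : (_ : ℕ) × ℕ × ℕ => y.2)
      (f := fun y : ℕ × ℕ => (y.1.divisors.card : ℝ) ^ k / y.1 *
        ((y.2.divisors.card : ℝ) ^ k / y.2)) ?_).symm)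
      (sum_le_sum_of_subset_of_nonneg ?_ fun _ _ _ => by positivity)
    · rintro ⟨d, y⟩ hy ⟨d', y'⟩ hy' h
      have h5 := (Nat.mem_divisorsAntidiagonal.1 (mem_sigma.1 hy).2).1
      have h6 := (Nat.mem_divisorsAntidiagonal.1 (mem_sigma.1 hy').2).1
      dsimp only at h h5 h6
      subst h
      rw [← h5, ← h6]
    · intro y hy
      obtain ⟨⟨d, y'⟩, hy', rfl⟩ := mem_image.1 hy
      obtain ⟨h5, h6⟩ := mem_sigma.1 hy'
      obtain ⟨h7, h8⟩ := Nat.mem_divisorsAntidiagonal.1 h6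
      have h9 := (mem_Icc.1 h5).2
      dsimp only at h7 h8 h9 ⊢
      have h10 : 0 < y'.1 * y'.2 := by omega
      have h11 := Nat.pos_of_mul_pos_right h10
      have h12 := Nat.pos_of_mul_pos_left h10
      refine mem_product.2 ⟨mem_Icc.2 ⟨h11, ?_⟩, mem_Icc.2 ⟨h12, ?_⟩⟩
      · exact le_trans (Nat.le_mul_of_pos_right _ h12) (h7 ▸ h9)
      · exact le_trans (Nat.le_mul_of_pos_left _ h11) (h7 ▸ h9)

lemma tl_le (j : ℕ) {ε : ℝ} (hε : 0 < ε) : ∃ C : ℝ, 0 < C ∧ ∀ X : ℝ, 3 ≤ X → ∀ m : ℕ, 1 ≤ m →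
    (m : ℝ) ≤ X ^ 3 → (m.divisors.card : ℝ) ^ j ≤ C * X ^ ε := by
  obtain ⟨C, hC, h⟩ := MP_9177b7_ag.EQ.div.1 0 (ε / (3 * (j + 1))) (by positivity)
  refine ⟨C ^ j, by positivity, fun X hX m hm h1 => ?_⟩
  have h2 : (m.divisors.card : ℝ) ≤ C * (m : ℝ) ^ (ε / (3 * (j + 1))) := (h m hm).1
  have h3 : (m : ℝ) ^ (ε / (3 * (j + 1))) ≤ X ^ (ε / (j + 1)) := by
    refine (Real.rpow_le_rpow (by positivity) h1 (by positivity)).trans (le_of_eq ?_)
    rw [← Real.rpow_natCast, ← Real.rpow_mul (by linarith)]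
    congr 1
    push_cast
    field_simp
  have h4 : (X ^ (ε / (j + 1))) ^ j ≤ X ^ ε := by
    rw [← Real.rpow_natCast, ← Real.rpow_mul (by linarith)]
    refine Real.rpow_le_rpow_of_exponent_le (by linarith) ?_
    rw [div_mul_eq_mul_div, div_le_iff₀ (by positivity)]
    nlinarith
  calc (m.divisors.card : ℝ) ^ j ≤ (C * X ^ (ε / (j + 1))) ^ j := by
        gcongr
        exact h2.trans (mul_le_mul_of_nonneg_left h3 hC.le)
    _ ≤ _ := by
        rw [mul_pow]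
        gcongr

lemma rpow_le {X y : ℝ} (hX : 3 ≤ X) (h : y ≤ 1) : X ^ y ≤ X :=
  (Real.rpow_le_rpow_of_exponent_le (by linarith) h).trans_eq (Real.rpow_one X)

lemma nat_pos (l : ℤ) : 1 ≤ (l ^ 2 + 1).toNat := by
  have h0 : 0 < l ^ 2 + 1 := by positivity
  omega

lemma nat_le {X : ℝ} {l : ℤ} (h : |(l : ℝ)| ≤ X) : (((l ^ 2 + 1).toNat : ℕ) : ℝ) ≤ X ^ 2 + 1 := by
  rw [T0.cast_toNat]
  have := sq_le_sq' (abs_le.1 h).1 (abs_le.1 h).2
  linarith

lemma cls {X Λ L₀ C : ℝ} {f : ℝ → ℝ} (hf : Adm X Λ f) {d : ℕ} (hd : 1 ≤ d)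
    (h : ∀ r : ℤ, ∑ l ∈ (Icc (-⌈X⌉) ⌈X⌉ : Finset ℤ) with (d : ℤ) ∣ l - r ∧ L₀ ≤ |((l : ℤ) : ℝ)|,
      WW f l ≤ C) :
    ∑ l ∈ (Icc (-⌈X⌉) ⌈X⌉ : Finset ℤ) with (d : ℤ) ∣ l ^ 2 + 1 ∧ L₀ ≤ |((l : ℤ) : ℝ)|, WW f l ≤
      rho d * C := by
  have h1 := sum_le_card_nsmul ((range d).filter fun r : ℕ => d ∣ r ^ 2 + 1) _ C
    fun r _ => h r
  rw [nsmul_eq_mul] at h1
  refine le_trans ?_ h1
  simp only [sum_filter (s := Icc (-⌈X⌉) ⌈X⌉)]
  rw [sum_comm]
  refine sum_le_sum fun l _ => ?_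
  have hn : ∀ r : ℕ, 0 ≤ if (d : ℤ) ∣ l - r ∧ L₀ ≤ |(l : ℝ)| then WW f l else 0 := fun r => by
    split_ifs
    exacts [I3.WW_nonneg hf _, le_rfl]
  split_ifs with h2
  · have hd' : (0 : ℤ) < d := by exact_mod_cast hd
    have h3 := Int.emod_nonneg l hd'.ne'
    have h4 := Int.emod_lt_of_pos l hd'
    have h5 : (((l % d).toNat : ℕ) : ℤ) = l % d := Int.toNat_of_nonneg h3
    have h6 : (d : ℤ) ∣ l - ((l % d).toNat : ℕ) := by
      rw [h5]
      exact Int.dvd_self_sub_emod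
    refine le_trans (le_of_eq ?_) (single_le_sum (a := (l % d).toNat) (fun r _ => hn r) ?_)
    · rw [if_pos ⟨h6, h2.2⟩]
    · refine mem_filter.2 ⟨mem_range.2 (by omega), ?_⟩
      rw [← Int.natCast_dvd_natCast]
      push_cast
      have h7 : (((l % d).toNat : ℕ) : ℤ) ^ 2 + 1 =
          l ^ 2 + 1 - (l - ((l % d).toNat : ℕ)) * (l + ((l % d).toNat : ℕ)) := by ring
      rw [h7]
      exact dvd_sub h2.1 (h6.mul_right _)
  · exact sum_nonneg fun r _ => hn r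

end G0

theorem g0a (G : GeoStmt) : G0aStmt := by
  intro A j η hη hη1
  obtain ⟨C, hC, hτ⟩ := G0.tl_le j (ε := η / 12) (by positivity)
  filter_upwards [T1.ev_log (30 * C) (η / 12) (A + 1) (by positivity), eventually_ge_atTop 3]
    with X h1 hX f hf
  have hX0 : 0 < X := by linarith
  have hL := I1.one_le_log hX
  have hT : X ^ (1 - η) ≤ X := G0.rpow_le hX (by linarith)
  have h2 := T0.sum_gl hX0.le (T := X ^ (1 - η)) (by positivity)
    ((Icc (-⌈X⌉) ⌈X⌉).filter fun l : ℤ => |(l : ℝ)| ≤ X ^ (1 - η)) fun l hl => (mem_filter.1 hl).2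
  have h3 : √X * (1 + 4 * √(X ^ (1 - η))) ≤ 5 * X ^ (1 - η / 2) := by
    have h4 : 1 ≤ √(X ^ (1 - η)) :=
      Real.one_le_sqrt.2 (Real.one_le_rpow (by linarith) (by linarith))
    have h5 : √X * √(X ^ (1 - η)) = X ^ (1 - η / 2) := by
      rw [Real.sqrt_eq_rpow, Real.sqrt_eq_rpow, ← Real.rpow_mul hX0.le, ← Real.rpow_add hX0]
      congr 1
      ring
    nlinarith [Real.sqrt_nonneg X]
  calc _ ≤ ∑ l ∈ (Icc (-⌈X⌉) ⌈X⌉).filter fun l : ℤ => |(l : ℝ)| ≤ X ^ (1 - η),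
        6 * log X ^ A * log X * (C * X ^ (η / 12)) * T0.gl X l := by
        refine sum_le_sum fun l hl => ?_
        have h6 := G0.nat_le ((mem_filter.1 hl).2.trans hT)
        refine (mul_le_mul (I3.WW_le G hX hf l)
          (hτ X hX _ (G0.nat_pos l) (by nlinarith)) (by positivity) (by positivity)).trans
          (le_of_eq ?_)
        rw [T0.gl]
        ring
    _ ≤ 6 * log X ^ A * log X * (C * X ^ (η / 12)) * (5 * X ^ (1 - η / 2)) := by
        rw [← mul_sum]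
        exact mul_le_mul_of_nonneg_left (h2.trans h3) (by positivity)
    _ = 30 * C * log X ^ (A + 1) * (X ^ (η / 12) * X ^ (1 - η / 2)) := by ring
    _ ≤ X ^ (η / 12) * (X ^ (η / 12) * X ^ (1 - η / 2)) := by gcongr
    _ = _ := by
        rw [← Real.rpow_add hX0, ← Real.rpow_add hX0]
        congr 1
        ring

theorem g0b (R : RhoStmt) (G : GeoStmt) : G0bStmt := by
  intro A j
  obtain ⟨C₁, hC₁, hI1⟩ := i1 G
  obtain ⟨C₃, hC₃, hI3⟩ := i3 G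
  obtain ⟨C, hC, hτ⟩ := G0.tl_le (3 * j + 1) (ε := 1 / 16) (by norm_num)
  obtain ⟨J, hJ⟩ : ∃ J : ℕ, J = 2 ^ (3 * j + 1) := ⟨_, rfl⟩
  set K : ℝ := 2 ^ (3 * j) * C₁ * 2 ^ J + 2 with hK
  refine ⟨A + 1 + J + 1, ?_⟩
  filter_upwards [g0a G A j (1 / 4) (by norm_num) (by norm_num),
    T1.ev_log (2 ^ (3 * j) * C * C₃) (1 / 16) (A + 2) (by norm_num), eventually_ge_atTop 3,
    tendsto_log_atTop.eventually_ge_atTop K] with X h0 h1 hX hKX f hf
  have hX0 : 0 < X := by linarith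
  have hL := I1.one_le_log hX
  set z := X ^ (1 - 1 / 4 : ℝ) with hz
  have hz1 : 1 ≤ z := Real.one_le_rpow (by linarith) (by norm_num)
  have hzX : z ≤ X := G0.rpow_le hX (by norm_num)
  have hz3 : X ^ 2 + 1 ≤ z ^ 3 := by
    have h2 : z ^ 3 = X ^ 2 * X ^ (1 / 4 : ℝ) := by
      rw [hz, ← Real.rpow_natCast, ← Real.rpow_natCast, ← Real.rpow_mul hX0.le,
        ← Real.rpow_add hX0]
      norm_num
    have h3 : (10 / 9 : ℝ) ≤ X ^ (1 / 4 : ℝ) := by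
      refine le_of_pow_le_pow_left₀ (n := 4) (by norm_num) (by positivity) ?_
      rw [← Real.rpow_natCast (X ^ _), ← Real.rpow_mul hX0.le]
      norm_num
      linarith
    nlinarith
  have hI := (hI1 X _ f hX hf).2.2.2
  set E := C₃ * log X ^ A * log X ^ 2 * √(X / z) with hE
  have hE0 : 0 ≤ E := by positivity
  have hI0 : 0 ≤ Itot f := MeasureTheory.integral_nonneg fun _ => I1.II_nonneg hf _
  have h4 : ∑ l ∈ (Icc (-⌈X⌉) ⌈X⌉ : Finset ℤ) with ¬ |((l : ℤ) : ℝ)| ≤ z,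
      WW f l * (tl l : ℝ) ^ j ≤ ∑ d ∈ (Icc 1 ⌊z⌋₊ : Finset ℕ), (2 * d.divisors.card : ℝ) ^ (3 * j) *
        ∑ l ∈ (Icc (-⌈X⌉) ⌈X⌉ : Finset ℤ) with (d : ℤ) ∣ l ^ 2 + 1 ∧ z ≤ |((l : ℤ) : ℝ)|,
          WW f l := by
    simp only [sum_filter, mul_sum]
    rw [sum_comm]
    refine sum_le_sum fun l _ => ?_
    have hW := I3.WW_nonneg hf l
    have hn : ∀ d : ℕ, 0 ≤ (2 * d.divisors.card : ℝ) ^ (3 * j) *
        if (d : ℤ) ∣ l ^ 2 + 1 ∧ z ≤ |(l : ℝ)| then WW f l else 0 := fun d => by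
      split_ifs <;> positivity
    split_ifs with h5
    · exact sum_nonneg fun d _ => hn d
    by_cases h6 : |(l : ℝ)| ≤ X
    swap
    · rw [I3.WW_zero G hX hf (not_le.1 h6), zero_mul]
      exact sum_nonneg fun d _ => by simp
    obtain ⟨d, hd1, hd2, hd3⟩ := G0.small_div hz1 3 _ (G0.nat_pos l) ((G0.nat_le h6).trans hz3)
    have h7 : (d : ℤ) ∣ l ^ 2 + 1 := by
      rwa [← Int.natCast_dvd_natCast, Int.toNat_of_nonneg (by positivity)] at hd1
    have h8 : 1 ≤ d := Nat.pos_of_dvd_of_pos hd1 (G0.nat_pos l)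
    refine le_trans ?_ (single_le_sum (a := d) (fun d _ => hn d)
      (mem_Icc.2 ⟨h8, Nat.le_floor hd2⟩))
    rw [if_pos ⟨h7, (not_le.1 h5).le⟩, mul_comm, pow_mul]
    gcongr
    exact_mod_cast hd3
  have h5 : ∀ d ∈ (Icc 1 ⌊z⌋₊ : Finset ℕ), (2 * d.divisors.card : ℝ) ^ (3 * j) *
      ∑ l ∈ (Icc (-⌈X⌉) ⌈X⌉ : Finset ℤ) with (d : ℤ) ∣ l ^ 2 + 1 ∧ z ≤ |((l : ℤ) : ℝ)|, WW f l ≤
      2 ^ (3 * j) * Itot f * ((d.divisors.card : ℝ) ^ (3 * j + 1) / d) +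
        2 ^ (3 * j) * (C * X ^ (1 / 16 : ℝ)) * E := by
    intro d hd
    obtain ⟨h6, h7⟩ := mem_Icc.1 hd
    have h8 : (d : ℝ) ≤ z := (Nat.le_floor_iff (by linarith)).1 h7
    have h9 := G0.cls hf h6 fun r => (hI3 X _ f hX hf).2.2.1 z d r h6 h8 hzX
    have h10 : (rho d : ℝ) ≤ d.divisors.card := by exact_mod_cast R.2.2.2.2.2.2.1 d
    have h11 := hτ X hX d h6 (by nlinarith [sq_nonneg X])
    calc _ ≤ (2 * d.divisors.card : ℝ) ^ (3 * j) * (d.divisors.card * (Itot f / d + E)) := by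
          refine mul_le_mul_of_nonneg_left (h9.trans ?_) (by positivity)
          exact mul_le_mul_of_nonneg_right h10 (by positivity)
      _ = 2 ^ (3 * j) * Itot f * ((d.divisors.card : ℝ) ^ (3 * j + 1) / d) +
          2 ^ (3 * j) * (d.divisors.card : ℝ) ^ (3 * j + 1) * E := by ring
      _ ≤ _ := by gcongr
  have h6 := h4.trans (sum_le_sum h5)
  rw [sum_add_distrib, ← mul_sum, sum_const, Nat.card_Icc, Nat.add_sub_cancel, nsmul_eq_mul] at h6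
  have h7 : ∑ d ∈ (Icc 1 ⌊z⌋₊ : Finset ℕ), (d.divisors.card : ℝ) ^ (3 * j + 1) / d ≤
      (2 * log X) ^ J := by
    refine (G0.tau_sum _ _).trans ?_
    rw [← hJ]
    have h8 := T1.log_nat_le (x := ⌊z⌋₊) (y := X) (by linarith)
      ((Nat.floor_le (by linarith)).trans hzX)
    have h9 := Real.log_natCast_nonneg ⌊z⌋₊
    gcongr
    linarith
  have h8 : (⌊z⌋₊ : ℝ) * (2 ^ (3 * j) * (C * X ^ (1 / 16 : ℝ)) * E) ≤ X := by
    have h9 : √(X / z) = X ^ (1 / 8 : ℝ) := by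
      rw [hz, ← Real.rpow_one_sub' hX0.le (by norm_num), Real.sqrt_eq_rpow,
        ← Real.rpow_mul hX0.le]
      norm_num
    calc _ ≤ z * (2 ^ (3 * j) * (C * X ^ (1 / 16 : ℝ)) * E) := by
          gcongr
          exact Nat.floor_le (by linarith)
      _ = 2 ^ (3 * j) * C * C₃ * log X ^ (A + 2) *
          (z * X ^ (1 / 16 : ℝ) * X ^ (1 / 8 : ℝ)) := by
          rw [hE, h9]
          ring
      _ ≤ X ^ (1 / 16 : ℝ) * (z * X ^ (1 / 16 : ℝ) * X ^ (1 / 8 : ℝ)) := by gcongr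
      _ = X := by
          rw [hz, ← Real.rpow_add hX0, ← Real.rpow_add hX0, ← Real.rpow_add hX0]
          norm_num
  have h9 : X ^ (1 - 1 / 4 / 3 : ℝ) ≤ X := G0.rpow_le hX (by norm_num)
  have h10 := h0 f hf
  rw [← sum_filter_add_sum_filter_not _ fun l : ℤ => |(l : ℝ)| ≤ z]
  set P := log X ^ (A + 1 + J) with hP
  have hP1 : 1 ≤ P := one_le_pow₀ hL
  have h11 : 2 ^ (3 * j) * Itot f *
      ∑ d ∈ (Icc 1 ⌊z⌋₊ : Finset ℕ), (d.divisors.card : ℝ) ^ (3 * j + 1) / d ≤ (K - 2) * (X * P) := by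
    calc _ ≤ 2 ^ (3 * j) * (C₁ * log X ^ A * log X * X) * (2 * log X) ^ J :=
          mul_le_mul (mul_le_mul_of_nonneg_left hI (by positivity)) h7
            (sum_nonneg fun _ _ => by positivity) (by positivity)
      _ = _ := by
          rw [hK, hP, mul_pow]
          ring
  have h12 : X ≤ X * P := le_mul_of_one_le_right hX0.le hP1
  have h13 : K * (X * P) ≤ log X * (X * P) := mul_le_mul_of_nonneg_right hKX (by positivity)
  rw [pow_succ, ← hP, show X * (P * log X) = log X * (X * P) by ring]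
  linarith

theorem g0c (R : RhoStmt) (P : PPStmt) (G : GeoStmt) : G0cStmt := by
  intro A B j
  obtain ⟨D, hD⟩ := g0b R G A (2 * j)
  set N := A + 1 + (D + B + 1) + B with hN
  have ht : Tendsto (fun X : ℝ => log X ^ (1 / 3 : ℝ)) atTop atTop :=
    (tendsto_rpow_atTop (by norm_num)).comp tendsto_log_atTop
  filter_upwards [hD, P.1, T1.ev_log 144 (1 / 20) N (by norm_num), eventually_ge_atTop 3,
    tendsto_log_atTop.eventually_ge_atTop 2, ht.eventually (T0.ev_exp 504 1 (3 * N) one_pos),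
    ht.eventually_ge_atTop 2] with X h0 h1 h2 hX hL2 h3 h4 f hf
  have hX0 : 0 < X := by linarith
  set L := log X with hL
  set u := L ^ (1 / 3 : ℝ) with hu
  have hu3 : u ^ 3 = L := by
    rw [hu, ← Real.rpow_natCast, ← Real.rpow_mul (by linarith)]
    norm_num
  have hw : wX X = exp (u ^ 2) := by
    rw [wX, hu, ← Real.rpow_natCast, ← Real.rpow_mul (by linarith), ← hL]
    norm_num
  set s := exp (u ^ 2 / 2) with hs
  have hs2 : s ^ 2 = wX X := by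
    rw [hw, hs, ← Real.exp_nat_mul]
    congr 1
    push_cast
    ring
  have hs1 : 1 ≤ s := Real.one_le_exp (by positivity)
  have hwX : wX X * wX X ≤ X := by
    rw [hw, ← Real.exp_add, ← Real.le_log_iff_exp_le hX0, ← hL, ← hu3]
    nlinarith [sq_nonneg u]
  have hw1 : 1 ≤ wX X := by rw [← hs2]; exact one_le_pow₀ hs1
  set S := (Icc (-⌈X⌉) ⌈X⌉ : Finset ℤ).filter fun l : ℤ =>
    ∃ p : ℕ, p.Prime ∧ wX X ≤ p ∧ (p : ℤ) ^ 2 ∣ l ^ 2 + 1 with hS
  set Q := (Icc 1 ⌊2 * (X / s ^ 2)⌋₊ : Finset ℕ).filter fun p : ℕ => p.Prime ∧ s ^ 2 ≤ p with hQ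
  set S₁ := (Icc (-(⌊X⌋₊ : ℤ)) ⌊X⌋₊).filter fun l : ℤ => ∃ p ∈ Q, ((p ^ 2 : ℕ) : ℤ) ∣ l ^ 2 + 1
  set S₂ := (Icc (-⌈X⌉) ⌈X⌉ : Finset ℤ).filter fun l : ℤ => |(l : ℝ)| ≤ X ^ (9 / 10 : ℝ)
  set S₃ := ((Icc (-⌈X⌉) ⌈X⌉ : Finset ℤ).filter fun l : ℤ => ∃ p j : ℕ, p.Prime ∧ 2 ≤ j ∧
    (p : ℤ) ^ j ∣ l ^ 2 + 1 ∧ X ^ (1 / 2 : ℝ) < (p : ℝ) ^ j).filter
      fun l : ℤ => X ^ (9 / 10 : ℝ) ≤ |(l : ℝ)|
  have hg : ∀ l, 0 ≤ T0.gl X l := fun l => Real.sqrt_nonneg _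
  have b1 : ∑ l ∈ S₁, T0.gl X l ≤ 21 * (X / s) :=
    T0.bad_sum R (by linarith) hs1 (by nlinarith) Q fun p hp => by
      obtain ⟨h5, h6, h7⟩ := mem_filter.1 hp
      exact ⟨h6, h7, (Nat.le_floor_iff (by positivity)).1 (mem_Icc.1 h5).2⟩
  have b2 : ∑ l ∈ S₂, T0.gl X l ≤ 5 * X ^ (19 / 20 : ℝ) := by
    refine (T0.sum_gl hX0.le (T := X ^ (9 / 10 : ℝ)) (by positivity) _
      fun l hl => (mem_filter.1 hl).2).trans ?_
    have h5 : 1 ≤ √(X ^ (9 / 10 : ℝ)) :=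
      Real.one_le_sqrt.2 (Real.one_le_rpow (by linarith) (by norm_num))
    have h6 : √X * √(X ^ (9 / 10 : ℝ)) = X ^ (19 / 20 : ℝ) := by
      rw [Real.sqrt_eq_rpow, Real.sqrt_eq_rpow, ← Real.rpow_mul hX0.le, ← Real.rpow_add hX0]
      norm_num
    nlinarith [Real.sqrt_nonneg X]
  have b3 : ∑ l ∈ S₃, T0.gl X l ≤ X ^ (19 / 20 : ℝ) := by
    have h5 := sum_le_card_nsmul S₃ _ _ fun l hl =>
      T0.gl_le hX0.le (by positivity) (mem_filter.1 hl).2
    have h6 : (#S₃ : ℝ) ≤ X ^ (9 / 10 : ℝ) :=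
      le_trans (Nat.cast_le.2 (card_filter_le _ _)) h1
    rw [nsmul_eq_mul] at h5
    refine h5.trans ((mul_le_mul_of_nonneg_right h6 (Real.sqrt_nonneg _)).trans (le_of_eq ?_))
    rw [← Real.rpow_one_sub' hX0.le (by norm_num), Real.sqrt_eq_rpow, ← Real.rpow_mul hX0.le,
      ← Real.rpow_add hX0]
    norm_num
  have hsub : S.filter (fun l : ℤ => |(l : ℝ)| ≤ X) ⊆ S₁ ∪ (S₂ ∪ S₃) := by
    intro l hl
    obtain ⟨h5, h6⟩ := mem_filter.1 hl
    obtain ⟨h7, p, hp, h8, h9⟩ := mem_filter.1 h5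
    by_cases h10 : (p : ℝ) ≤ 2 * (X / s ^ 2)
    · refine mem_union_left _ (mem_filter.2 ⟨?_, p, mem_filter.2 ⟨mem_Icc.2 ⟨hp.pos,
        Nat.le_floor h10⟩, hp, hs2 ▸ h8⟩, by exact_mod_cast h9⟩)
      have h11 : l.natAbs ≤ ⌊X⌋₊ := Nat.le_floor (by rwa [Nat.cast_natAbs, Int.cast_abs])
      rw [mem_Icc]
      omega
    refine mem_union_right _ ?_
    rcases le_total |(l : ℝ)| (X ^ (9 / 10 : ℝ)) with h11 | h11
    · exact mem_union_left _ (mem_filter.2 ⟨h7, h11⟩)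
    refine mem_union_right _ (mem_filter.2 ⟨mem_filter.2 ⟨h7, p, 2, hp, le_rfl, h9, ?_⟩, h11⟩)
    have h12 : X ^ (1 / 2 : ℝ) ≤ X := G0.rpow_le hX (by norm_num)
    rw [hs2, not_le, ← mul_div_assoc, div_lt_iff₀ (by linarith)] at h10
    nlinarith
  have b4 : ∑ l ∈ S, WW f l ≤ 6 * L ^ (A + 1) * (21 * (X / s) + 6 * X ^ (19 / 20 : ℝ)) := by
    rw [← sum_filter_of_ne (p := fun l : ℤ => |(l : ℝ)| ≤ X) fun l _ h => by
      by_contra h5
      exact h (I3.WW_zero G hX hf (not_le.1 h5))]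
    have h5 : ∑ l ∈ S₁ ∪ (S₂ ∪ S₃), T0.gl X l ≤ 21 * (X / s) + 6 * X ^ (19 / 20 : ℝ) := by
      have e1 := sum_union_inter (s₁ := S₁) (s₂ := S₂ ∪ S₃) (f := T0.gl X)
      have e2 := sum_union_inter (s₁ := S₂) (s₂ := S₃) (f := T0.gl X)
      have e3 := sum_nonneg (s := S₁ ∩ (S₂ ∪ S₃)) fun l _ => hg l
      have e4 := sum_nonneg (s := S₂ ∩ S₃) fun l _ => hg l
      linarith
    refine le_trans (sum_le_sum (g := fun l => 6 * L ^ (A + 1) * T0.gl X l) fun l _ => ?_) ?_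
    · refine (I3.WW_le G hX hf l).trans (le_of_eq ?_)
      rw [T0.gl]
      ring
    · rw [← mul_sum]
      exact mul_le_mul_of_nonneg_left ((sum_le_sum_of_subset_of_nonneg hsub
        fun l _ _ => hg l).trans h5) (by positivity)
  set T := L ^ (D + B + 1) with hT
  have hT0 : 0 < T := by positivity
  have b5 : ∑ l ∈ S, WW f l * (tl l : ℝ) ^ j ≤ T * ∑ l ∈ S, WW f l + X * L ^ D / T := by
    refine le_trans ?_ (add_le_add le_rfl (div_le_div_of_nonneg_right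
      ((sum_le_sum_of_subset_of_nonneg (show S ⊆ _ from filter_subset _ _) fun l _ _ =>
        mul_nonneg (I3.WW_nonneg hf _) (by positivity)).trans (h0 f hf)) hT0.le))
    rw [mul_sum, sum_div, ← sum_add_distrib]
    refine sum_le_sum fun l _ => ?_
    have h5 : (tl l : ℝ) ^ j ≤ T + (tl l : ℝ) ^ (2 * j) / T := by
      rw [pow_mul', add_div' _ _ _ hT0.ne', le_div_iff₀ hT0]
      nlinarith [sq_nonneg ((tl l : ℝ) ^ j - T), pow_nonneg (Nat.cast_nonneg (α := ℝ) (tl l)) j]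
    refine (mul_le_mul_of_nonneg_left h5 (I3.WW_nonneg hf _)).trans (le_of_eq ?_)
    ring
  have hLB : 0 < L ^ B := by positivity
  have c1 : X * L ^ D / T ≤ X / L ^ B / 2 := by
    rw [div_div, div_le_div_iff₀ hT0 (by positivity), hT]
    calc X * L ^ D * (L ^ B * 2) ≤ X * L ^ D * (L ^ B * L) := by gcongr
      _ = _ := by ring
  have c2 : 504 * L ^ N ≤ s := by
    rw [pow_mul, hu3] at h3
    refine h3.trans (Real.exp_le_exp.2 ?_)
    nlinarith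
  have c3 : T * (6 * L ^ (A + 1) * (21 * (X / s))) ≤ X / L ^ B / 4 := by
    rw [div_div, le_div_iff₀ (by positivity)]
    calc _ = X * (504 * L ^ N) / s := by
          rw [hT, hN]
          ring
      _ ≤ X * s / s := by gcongr
      _ = X := by field_simp
  have c4 : T * (6 * L ^ (A + 1) * (6 * X ^ (19 / 20 : ℝ))) ≤ X / L ^ B / 4 := by
    rw [div_div, le_div_iff₀ (by positivity)]
    calc _ = 144 * L ^ N * X ^ (19 / 20 : ℝ) := by
          rw [hT, hN]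
          ring
      _ ≤ X ^ (1 / 20 : ℝ) * X ^ (19 / 20 : ℝ) := by gcongr
      _ = X := by
          rw [← Real.rpow_add hX0]
          norm_num
  have c5 := mul_le_mul_of_nonneg_left b4 hT0.le
  rw [mul_add, mul_add] at c5
  linarith

end Pool.Agent.Lib.MP_4b1228_nt.PP
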