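import Pool.Agent.Lib.MP_4b1228_nt.PP.St

/-!
Global certificates: means of functions of `l ^ 2 + 1`, rows, and the final step.
-/

open Finset Real Filter
open scoped Classical

noncomputable section

namespace Pool.Agent.Lib.MP_4b1228_nt.PP

/-- The weighted sum of `T (l ^ 2 + 1)` over the even `l`; the total weight is `Itot f / 2`. -/
def EE (X : ℝ) (f : ℝ → ℝ) (T : ℕ → ℝ) : ℝ :=
  ∑ l ∈ (Icc (-⌈X⌉) ⌈X⌉ : Finset ℤ) with Even l, WW f l * T (l ^ 2 + 1).toNat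

/-- What is known of the kernel. -/
structure Good (X : ℝ) (A : ℕ) (η δ c C₀ : ℝ) (f : ℝ → ℝ) : Prop where
  adm : Adm X (log X ^ A) f
  e1 : E1 X η δ f
  e2 : E2 X η δ f
  low : c * X ≤ Itot f
  mu : ∀ Y : ℝ, 0 < Y → mu X f Y ≤ C₀ * Itot f

/-- The mean of `T` is asymptotically at least `v`. -/
def Row (T : ℝ → ℕ → ℝ) (v : ℝ) : Prop :=
  ∀ C₀ τ : ℝ, 0 < C₀ → 0 < τ → ∃ η₀ : ℝ, 0 < η₀ ∧ ∀ (A : ℕ) (η δ c : ℝ), 0 < η → η ≤ η₀ →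
    0 < δ → 0 < c → ∀ᶠ X : ℝ in atTop, ∀ f : ℝ → ℝ, Good X A η δ c C₀ f →
      (v - τ) * (Itot f / 2) ≤ EE X f (T X)

/-- The primes of `n` which are at least `X ^ ε`. -/
def RP (X ε : ℝ) (n : ℕ) : Finset ℕ := n.primeFactors.filter fun p : ℕ => X ^ ε ≤ p

/-- A global certificate for the exponent `θ`. -/
def Glob (θ : ℝ) : Prop :=
  ∃ v κ C : ℝ, 0 < v ∧ 0 < κ ∧ ∀ ε₀ : ℝ, 0 < ε₀ → ∃ ε : ℝ, 0 < ε ∧ ε ≤ ε₀ ∧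
    ∃ T : ℝ → ℕ → ℝ, Row T v ∧ ∀ᶠ X : ℝ in atTop, ∀ n : ℕ, 1 ≤ n → (n : ℝ) ≤ X ^ 2 →
      T X n ≤ C ∧ ((∀ p ∈ n.primeFactors, (p : ℝ) ≤ X ^ θ) →
        (2 - κ) * log X ≤ ∑ p ∈ RP X ε n, log p → T X n ≤ 0)

def Final2Stmt : Prop := ∀ θ : ℝ, 1 ≤ θ → Glob θ → MainStmt θ

/-- Rules for rows. -/
def RowStmt : Prop :=
  (∀ a : ℝ, Row (fun _ _ => a) a) ∧
  (∀ T T' v v', Row T v → Row T' v' → Row (fun X n => T X n + T' X n) (v + v')) ∧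
  (∀ T v (a : ℝ), 0 ≤ a → Row T v → Row (fun X n => a * T X n) (a * v)) ∧
  (∀ (ι : Type) (s : Finset ι) (T : ι → ℝ → ℕ → ℝ) (v : ι → ℝ), (∀ i ∈ s, Row (T i) (v i)) →
    Row (fun X n => ∑ i ∈ s, T i X n) (∑ i ∈ s, v i)) ∧
  (∀ T T' v v', Row T v → v' ≤ v →
    (∀ᶠ X : ℝ in atTop, ∀ n : ℕ, 1 ≤ n → (n : ℝ) ≤ X ^ 2 → T X n ≤ T' X n) → Row T' v') ∧
  (∀ T v, (∀ τ : ℝ, 0 < τ → Row T (v - τ)) → Row T v)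

/-- Exact rows: bilinear weights on rough squarefree moduli have their true mean. -/
def ExStmt : Prop :=
  ∀ (ε γ v : ℝ) (B : ℕ) (a b : ℕ → ℝ) (α β : ℝ → ℕ → ℕ → ℝ), 0 < ε → 0 < γ →
    (∀ j < B, a j ≤ 1 - γ ∧ 4 * b j + a j ≤ 2 - γ) →
    (∀ᶠ X : ℝ in atTop, (∀ j < B, ∀ d : ℕ, |α X j d| ≤ B ∧ |β X j d| ≤ B ∧
        (α X j d ≠ 0 → Rough (X ^ ε) d ∧ (d : ℝ) ≤ X ^ a j) ∧
        (β X j d ≠ 0 → Rough (X ^ ε) d ∧ (d : ℝ) ≤ X ^ b j)) ∧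
      v ≤ ∑ k ∈ (Icc 1 ⌊X ^ 2⌋₊ : Finset ℕ) with Squarefree k,
        (∑ j ∈ range B, ∑ x ∈ k.divisorsAntidiagonal, α X j x.1 * β X j x.2) * (rho k / k)) →
    Row (fun X n => ∑ k ∈ n.divisors with Squarefree k,
      ∑ j ∈ range B, ∑ x ∈ k.divisorsAntidiagonal, α X j x.1 * β X j x.2) v

/-- Rows that are exact by Harman's sieve (use `σ = 1` or `σ = -1`). -/
def HaStmt : Prop :=
  ∀ (α₀ α₁ wl wh d₂ σ v : ℝ) (B : ℕ) (f₁ f₂ g₁ g₂ : ℝ → ℕ → ℕ → ℝ), 1 < α₀ → α₀ ≤ α₁ →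
    α₁ - 1 < wl → wl < wh → 3 * wh < 2 - α₁ → 0 < d₂ → wl + d₂ < 1 / 2 →
    (∀ᶠ X : ℝ in atTop, Ok (X ^ wl) (X ^ wh) (X ^ d₂) B (f₁ X) (f₂ X) (g₁ X) (g₂ X) ∧
      v ≤ σ * ∑ k ∈ (Icc 1 ⌊X ^ α₁⌋₊ : Finset ℕ) with Squarefree (k : ℕ) ∧ X ^ α₀ ≤ k,
        Psi (X ^ (wh - wl)) B (f₁ X) (f₂ X) (g₁ X) (g₂ X) k * (rho k / k)) →
    Row (fun X n => σ * ∑ k ∈ n.divisors with Squarefree (k : ℕ) ∧ X ^ α₀ ≤ k ∧ (k : ℝ) ≤ X ^ α₁,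
      Psi (X ^ (wh - wl)) B (f₁ X) (f₂ X) (g₁ X) (g₂ X) k) v

/-- Large prime factors with an affine weight: Selberg's sieve. -/
def BigStmt : Prop :=
  ∀ a b c₀ c₁ : ℝ, 1 < a → a ≤ b → b < 3 / 2 → 0 ≤ c₀ + c₁ * a → 0 ≤ c₀ + c₁ * b →
    Row (fun X n => -∑ p ∈ n.primeFactors.filter fun p : ℕ => X ^ a ≤ p ∧ (p : ℝ) ≤ X ^ b,
      (c₀ + c₁ * (log p / log X))) (-(4 * (b - a) * (c₀ + c₁ * ((a + b) / 2))))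

end Pool.Agent.Lib.MP_4b1228_nt.PP
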