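import Pool.Agent.Lib.MP_4b1228_nt.PP.GL
import Pool.Agent.Lib.MP_4b1228_nt.PP.G0
import Pool.Agent.Lib.MP_4b1228_nt.PP.St2

/-!
Exact rows.
-/

open Finset Real Filter
open scoped Classical

noncomputable section

namespace Pool.Agent.Lib.MP_4b1228_nt.PP

namespace Ex

lemma mem_div {k : ℕ} {l : ℤ} : k ∈ (l ^ 2 + 1).toNat.divisors ↔ (k : ℤ) ∣ l ^ 2 + 1 := by
  have h0 : 0 < l ^ 2 + 1 := by positivity
  rw [Nat.mem_divisors, ← Int.natCast_dvd_natCast, Int.toNat_of_nonneg h0.le]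
  exact ⟨fun h => h.1, fun h => ⟨h, by omega⟩⟩

/-- The mean of a divisor sum. -/
lemma ee_eq (X : ℝ) (f : ℝ → ℝ) (N : ℕ) (lam : ℕ → ℝ) (h : ∀ k, 1 ≤ k → lam k ≠ 0 → k ≤ N) :
    EE X f (fun n => ∑ k ∈ n.divisors, lam k) = ∑ k ∈ Icc 1 N, lam k * AA X f k := by
  simp only [EE, AA, mul_sum, ← filter_filter]
  simp only [sum_filter (p := fun l : ℤ => (_ : ℤ) ∣ l ^ 2 + 1)]
  rw [sum_comm]
  refine sum_congr rfl fun l _ => ?_
  refine sum_congr_of_eq_on_inter (fun k hk hk' => ?_) (fun k _ hk' => ?_) fun k hk _ => ?_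
  · have k1 := Nat.pos_of_mem_divisors hk
    have : lam k = 0 := by
      by_contra c
      exact hk' (mem_Icc.2 ⟨k1, h k k1 c⟩)
    rw [this, mul_zero]
  · rw [if_neg (mem_div.not.1 hk')]
  · rw [if_pos (mem_div.1 hk), mul_comm]

lemma bil_anti (N : ℕ) (r α β : ℕ → ℝ)
    (h : ∀ m n, 1 ≤ m → 1 ≤ n → α m ≠ 0 → β n ≠ 0 → m * n ≤ N) :
    ∑ k ∈ Icc 1 N, (∑ x ∈ k.divisorsAntidiagonal, α x.1 * β x.2) * r k =
      bil N r α β (fun _ => 0) fun _ => 0 := by
  rw [Glb.bil_eq, ← sum_filter_of_ne (p := fun z : ℕ × ℕ => z.1 * z.2 ∈ Icc 1 N) fun z hz c => ?_,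
    ← sum_fiberwise_of_maps_to (g := fun z : ℕ × ℕ => z.1 * z.2) (t := Icc 1 N)
      fun z hz => (mem_filter.1 hz).2]
  · refine sum_congr rfl fun k hk => ?_
    rw [sum_mul]
    obtain ⟨k1, k2⟩ := mem_Icc.1 hk
    refine sum_congr ?_ fun z hz => by rw [if_pos rfl, (mem_filter.1 hz).2]
    ext z
    simp only [Nat.mem_divisorsAntidiagonal, mem_filter, mem_product, mem_Icc]
    refine ⟨fun ⟨c, _⟩ => ?_, fun c => ⟨c.2, by omega⟩⟩
    have c1 : 0 < z.1 := Nat.pos_of_mul_pos_right (c ▸ k1)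
    have c2 : 0 < z.2 := Nat.pos_of_mul_pos_left (c ▸ k1)
    have c3 := Nat.le_mul_of_pos_right z.1 c2
    have c4 := Nat.le_mul_of_pos_left z.2 c1
    omega
  · simp only [mem_product, mem_Icc] at hz
    have c' := left_ne_zero_of_mul c
    rw [if_pos rfl] at c'
    exact mem_Icc.2 ⟨Nat.mul_pos hz.1.1 hz.2.1,
      h _ _ hz.1.1 hz.2.1 (left_ne_zero_of_mul c') (right_ne_zero_of_mul c')⟩

lemma ev_wX {ε : ℝ} (hε : 0 < ε) : ∀ᶠ X : ℝ in atTop, wX X ≤ X ^ ε := by
  have t3 : Tendsto (fun X : ℝ => log X ^ (1 / 3 : ℝ)) atTop atTop :=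
    (tendsto_rpow_atTop (by norm_num)).comp tendsto_log_atTop
  filter_upwards [eventually_gt_atTop 1, t3.eventually_ge_atTop (1 / ε)] with X hX a1
  have L0 := log_pos hX
  rw [wX, rpow_def_of_pos (by linarith : 0 < X)]
  refine exp_le_exp.2 ?_
  rw [div_le_iff₀ hε] at a1
  have e : log X = log X ^ (2 / 3 : ℝ) * log X ^ (1 / 3 : ℝ) := by
    rw [← rpow_add L0]; norm_num
  have := rpow_pos_of_pos L0 (2 / 3)
  nth_rw 2 [e]
  nlinarith

/-- Rough moduli that are not squarefree are negligible. -/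
lemma nsq (hR : RhoStmt) (h1 : I1Stmt) (h3 : I3Stmt) (hc : G0cStmt) (A : ℕ) {ε : ℝ}
    (hε : 0 < ε) : ∀ᶠ X : ℝ in atTop, ∀ f : ℝ → ℝ, Adm X (log X ^ A) f →
      ∑ k ∈ (Icc 1 ⌊X ^ 2⌋₊ : Finset ℕ) with Rough (X ^ ε) k ∧ ¬ Squarefree k,
        |AA X f k - BB f k| ≤ 2 * X / log X := by
  obtain ⟨C₁, hC₁, h1⟩ := h1
  obtain ⟨C₃, -, h3⟩ := h3
  filter_upwards [hc A 1 1, eventually_ge_atTop 3, ev_wX hε,
    T1.ev_log (18 * C₁) ε (A + 4) hε] with X a0 hX w a2 f hf
  have X0 : 0 < X := by linarith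
  have L1 := Glb.one_le_log hX
  have W0 : ∀ t, 0 ≤ WW f t := fun t => ((h3 X _ f hX hf).1 t).1
  obtain ⟨i1, i2, -, i4⟩ := h1 X _ f hX hf
  have I0 : 0 ≤ Itot f := MeasureTheory.integral_nonneg fun s => (i1 _ (exp_pos s)).2.1
  set N := ⌊X ^ 2⌋₊ with hN
  set S := (Icc 1 N : Finset ℕ).filter fun k : ℕ => Rough (X ^ ε) k ∧ ¬ Squarefree k with hS
  set P := (Icc 1 N : Finset ℕ).filter fun p : ℕ => p.Prime ∧ X ^ ε ≤ p with hP
  have ex : ∀ k ∈ S, ∃ p ∈ P, p ^ 2 ∣ k := fun k hk => by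
    obtain ⟨b1, b2, b3⟩ := mem_filter.1 hk
    rw [Nat.squarefree_iff_prime_squarefree] at b3
    push Not at b3
    obtain ⟨p, hp, hpk⟩ := b3
    have b4 : p ∣ k := (dvd_mul_right p p).trans hpk
    exact ⟨p, mem_filter.2 ⟨mem_Icc.2 ⟨hp.one_le, (Nat.le_of_dvd (mem_Icc.1 b1).1 b4).trans
      (mem_Icc.1 b1).2⟩, hp, b2 p hp b4⟩, sq p ▸ hpk⟩
  have bA : ∑ k ∈ S, AA X f k ≤ X / log X := by
    have a3 := a0 f hf
    rw [pow_one, sum_filter] at a3
    refine le_trans ?_ a3
    simp only [AA, sum_filter]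
    rw [sum_comm]
    refine sum_le_sum fun l _ => ?_
    rw [← sum_filter, sum_const, nsmul_eq_mul, pow_one]
    split_ifs with c
    · rw [mul_comm]
      gcongr
      · exact W0 _
      · exact card_le_card fun k hk => mem_div.2 (mem_filter.1 hk).2.2
    · rw [filter_eq_empty_iff.2 fun k hk hk' => c ?_]
      · simp
      · obtain ⟨p, hp, hpk⟩ := ex k hk
        obtain ⟨-, p1, p2⟩ := mem_filter.1 hp
        exact ⟨p, p1, w.trans p2, Dvd.dvd.trans (by exact_mod_cast hpk) hk'.2⟩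
  have bB : ∑ k ∈ S, BB f k ≤ X / log X := by
    have N1 : log (N : ℝ) ≤ 2 * log X := by
      have := T1.log_nat_le (one_le_pow₀ (by linarith)) (Nat.floor_le (sq_nonneg X))
      rwa [log_pow] at this
    have N0 := log_natCast_nonneg N
    have Xe := rpow_pos_of_pos X0 ε
    calc _ ≤ ∑ k ∈ S, ∑ p ∈ P, if p ^ 2 ∣ k then (rho k : ℝ) / k * (Itot f / 2) else 0 :=
          sum_le_sum fun k hk => by
            obtain ⟨p, hp, hpk⟩ := ex k hk
            refine le_trans ?_ (single_le_sum (f := fun p : ℕ =>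
              if p ^ 2 ∣ k then (rho k : ℝ) / k * (Itot f / 2) else 0)
              (fun _ _ => by positivity) hp)
            rw [if_pos hpk, BB]
            split_ifs
            · exact le_of_eq (by ring)
            · positivity
      _ ≤ ∑ p ∈ P, 1 / (p : ℝ) ^ 2 * (9 * log X ^ 2 * Itot f) := by
          rw [sum_comm]
          refine sum_le_sum fun p hp => ?_
          obtain ⟨-, p1, -⟩ := mem_filter.1 hp
          rw [← sum_filter, ← sum_mul]
          have b1 := T0.dvd_sum hR (p ^ 2) N (Nat.pow_pos p1.pos)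
          have b2 : (rho (p ^ 2) : ℝ) ≤ 2 := by exact_mod_cast hR.2.2.1 p 2 p1
          calc _ ≤ (∑ k ∈ (Icc 1 N : Finset ℕ) with p ^ 2 ∣ k, (rho k : ℝ) / k) * (Itot f / 2) := by
                gcongr
                exact filter_subset _ _
            _ ≤ 2 / (p ^ 2 : ℕ) * (3 * log X) ^ 2 * (Itot f / 2) := by
                gcongr
                refine b1.trans ?_
                gcongr
                linarith
            _ = _ := by push_cast; ring
      _ ≤ 2 / X ^ ε * (9 * log X ^ 2 * (C₁ * log X ^ A * log X * X)) := by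
          rw [← sum_mul]
          gcongr
          exact T0.sum_sq Xe P fun p hp => (mem_filter.1 hp).2.2
      _ = 18 * C₁ * log X ^ (A + 4) / X ^ ε * (X / log X) := by field_simp; ring
      _ ≤ _ := mul_le_of_le_one_left (by positivity) ((div_le_one Xe).2 a2)
  calc _ ≤ ∑ k ∈ S, (AA X f k + BB f k) := sum_le_sum fun k _ => by
        have d1 : 0 ≤ AA X f k := sum_nonneg fun _ _ => W0 _
        have d2 : 0 ≤ BB f k := by unfold BB; split_ifs <;> positivity
        exact abs_le.2 ⟨by linarith, by linarith⟩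
    _ ≤ _ := by rw [sum_add_distrib, mul_div_assoc]; linarith

end Ex

open Ex in
theorem exS (hR : RhoStmt) (h1 : I1Stmt) (h3 : I3Stmt) (hc : G0cStmt) (hg : GT2Stmt) :
    ExStmt := by
  intro ε γ v B a b α β hε hγ hab hev C₀ τ _ hτ
  refine ⟨min γ 1 / 4, by positivity, fun A η δ c hη hη0 hδ hc0 => ?_⟩
  have η1 : 4 * η ≤ γ := by linarith [min_le_left γ 1]
  have η2 : 4 * η ≤ 1 := by linarith [min_le_right γ 1]
  set T : ℝ := 2 ^ (2 / ε) with hT
  have T0 : 0 < T := by positivity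
  set D : ℝ := B + 1 with hD
  have D0 : 0 < D := by positivity
  have t23 : Tendsto (fun X : ℝ => exp (-(log X ^ (2 / 3 : ℝ) / 20))) atTop (nhds 0) :=
    tendsto_exp_neg_atTop_nhds_zero.comp (((tendsto_rpow_atTop (by norm_num)).comp
      tendsto_log_atTop).atTop_div_const (by norm_num))
  filter_upwards [hev, hg A (4 * η) δ (by positivity) η2 hδ, nsq hR h1 h3 hc A hε,
    eventually_ge_atTop 3, (tendsto_rpow_atTop hε).eventually_gt_atTop 2,
    t23.eventually_le_const (show 0 < τ * c / (4 * D ^ 3) by positivity),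
    tendsto_log_atTop.eventually_ge_atTop (8 * D ^ 3 * T / (τ * c)), ev_wX hε]
    with X ⟨a0, hv⟩ a1 a2 hX a3 a4 a5 a6 f hf
  have X0 : 0 < X := by linarith
  have X1 : 1 < X := by linarith
  have L1 := Glb.one_le_log hX
  have mono : ∀ {a b : ℝ}, a ≤ b → X ^ a ≤ X ^ b := fun h => rpow_le_rpow_of_exponent_le X1.le h
  set N := ⌊X ^ 2⌋₊ with hN
  set r : ℕ → ℝ := fun k => AA X f k - BB f k with hr
  have ac : ∀ j < B, ∀ m n, 1 ≤ m → 1 ≤ n → α X j m ≠ 0 → β X j n ≠ 0 →
      m * n ≤ N ∧ Rough (X ^ ε) (m * n) := fun j hj m n m1 n1 c1 c2 => by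
    obtain ⟨d1, d2⟩ := (a0 j hj m).2.2.1 c1
    obtain ⟨d3, d4⟩ := (a0 j hj n).2.2.2 c2
    obtain ⟨d5, d6⟩ := hab j hj
    have d7 : 0 ≤ a j := by
      by_contra c
      have := rpow_lt_one_of_one_lt_of_neg X1 (not_le.1 c)
      have : (1 : ℝ) ≤ m := by exact_mod_cast m1
      linarith
    refine ⟨Nat.le_floor ?_, fun p hp h => (hp.dvd_mul.1 h).elim (d1 p hp) (d3 p hp)⟩
    push_cast
    calc _ ≤ X ^ a j * X ^ b j := by gcongr
      _ ≤ _ := by rw [← rpow_add X0, ← rpow_two]; exact mono (by linarith)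
  have one : ∀ j ∈ range B, |∑ k ∈ Icc 1 N, (∑ x ∈ k.divisorsAntidiagonal, α X j x.1 * β X j x.2) *
      if Squarefree k then r k else 0| ≤ D ^ 2 * (τ * c / (2 * D ^ 3) * X) := fun j hj => by
    rw [mem_range] at hj
    set α' : ℕ → ℝ := fun m => α X j m / D with hα'
    set β' : ℕ → ℝ := fun n => if Squarefree n then β X j n / D else 0 with hβ'
    have b1 : ∀ m, |α' m| ≤ 1 := fun m => by
      rw [abs_div, abs_of_pos D0, div_le_one D0]
      linarith [(a0 j hj m).1]
    have b2 : ∀ n, |β' n| ≤ 1 := fun n => by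
      simp only [hβ']
      split_ifs
      · rw [abs_div, abs_of_pos D0, div_le_one D0]
        linarith [(a0 j hj n).2.1]
      · simp
    have b3 : ∀ m, α' m ≠ 0 → α X j m ≠ 0 := fun m h => (div_ne_zero_iff.1 h).1
    have b4 : ∀ n, β' n ≠ 0 → Squarefree n ∧ β X j n ≠ 0 := fun n h => by
      simp only [hβ'] at h
      split_ifs at h with c
      · exact ⟨c, (div_ne_zero_iff.1 h).1⟩
      · exact absurd rfl h
    have e : bil N (fun k => if Squarefree k then r k else 0) (α X j) (β X j) (fun _ => 0)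
        (fun _ => 0) = D ^ 2 * (bil N r α' β' (fun _ => 0) (fun _ => 0) -
          bil N (fun k => if Squarefree k then 0 else r k) α' β' (fun _ => 0) fun _ => 0) := by
      simp only [bil, ← sum_sub_distrib, mul_sum, if_true]
      refine sum_congr rfl fun m _ => sum_congr rfl fun n _ => ?_
      by_cases c : Squarefree (m * n)
      · simp only [hα', hβ', if_pos c, if_pos c.of_mul_right]
        field_simp
        ring
      · simp [c]
    have c1 := a1 f hf.adm (by rw [mul_div_cancel_left₀ _ four_ne_zero]; exact hf.e2) N α' β'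
      (fun _ => 0) (fun _ => 0) b1 b2
      (fun n h => ⟨(b4 n h).1, fun p hp hpn => le_trans a6
        (((a0 j hj n).2.2.2 (b4 n h).2).1 p hp hpn)⟩) fun m n _ c1 c2 => ?_
    · have c2 := Glb.bil_le N (fun k => if Squarefree k then 0 else r k) α' β' (fun _ => 0)
        (fun _ => 0) b1 b2 ((Icc 1 N).filter fun k => Rough (X ^ ε) k) (T := T)
        (fun k hk => ?_) fun m n m1 n1 _ c1 c2 => ?_
      · have c3 : ∑ k ∈ (Icc 1 N).filter fun k => Rough (X ^ ε) k,
            |if Squarefree k then 0 else r k| ≤ 2 * X / log X := by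
          refine le_trans (le_of_eq ?_) (a2 f hf.adm)
          rw [← filter_filter, sum_filter (p := fun k => ¬ Squarefree k)]
          refine sum_congr rfl fun k _ => ?_
          split_ifs <;> simp [hr]
        have c4 : T * (2 * X / log X) ≤ τ * c / (4 * D ^ 3) * X := by
          rw [div_le_iff₀ (by positivity)] at a5
          rw [← mul_div_assoc, div_mul_eq_mul_div, div_le_div_iff₀ (by linarith) (by positivity)]
          nlinarith
        rw [bil_anti N _ _ _ fun m n m1 n1 c1 c2 => (ac j hj m n m1 n1 c1 c2).1, e, abs_mul,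
          abs_of_pos (pow_pos D0 2)]
        gcongr
        refine (abs_sub _ _).trans ?_
        have c5 := mul_le_mul_of_nonneg_left c3 T0.le
        have c6 := mul_le_mul_of_nonneg_left a4 X0.le
        have c7 : τ * c / (2 * D ^ 3) = 2 * (τ * c / (4 * D ^ 3)) := by field_simp; norm_num
        rw [c7]
        linarith
      · obtain ⟨k1, k2⟩ := mem_filter.1 hk
        obtain ⟨k3, k4⟩ := mem_Icc.1 k1
        refine ⟨by omega, ?_⟩
        have d1 := hR.2.2.2.2.2.2.2.2.2.2.2 (X ^ ε) k (by linarith) k3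
        rw [filter_true_of_mem fun d hd p hp h => k2 p hp (h.trans (Nat.dvd_of_mem_divisors hd))]
          at d1
        refine d1.trans (rpow_le_rpow_of_exponent_le one_le_two ?_)
        have d2 := T1.log_nat_le (one_le_pow₀ X1.le) ((Nat.le_floor_iff (sq_nonneg X)).1 k4)
        rw [log_pow] at d2
        rw [log_rpow X0, div_le_div_iff₀ (by positivity) hε]
        push_cast at d2
        nlinarith
      · obtain ⟨d1, d2⟩ := ac j hj m n m1 n1 (b3 m c1) (b4 n c2).2
        exact mem_filter.2 ⟨mem_Icc.2 ⟨Nat.mul_pos m1 n1, d1⟩, d2⟩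
    · have d2 := ((a0 j hj m).2.2.1 (b3 m c1)).2
      have d4 := ((a0 j hj n).2.2.2 (b4 n c2).2).2
      obtain ⟨d5, d6⟩ := hab j hj
      refine ⟨d2.trans (mono (by linarith)), ?_⟩
      calc _ ≤ (X ^ b j) ^ 4 * X ^ a j := by gcongr
        _ ≤ _ := by
          rw [← rpow_natCast, ← rpow_mul X0.le, ← rpow_add X0]
          exact mono (by push_cast; linarith)
  set lam : ℕ → ℝ := fun k =>
    ∑ j ∈ range B, ∑ x ∈ k.divisorsAntidiagonal, α X j x.1 * β X j x.2 with hlam
  have su : ∀ k, lam k ≠ 0 → k ≤ N ∧ Rough (X ^ ε) k := fun k h => by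
    obtain ⟨j, hj, h⟩ := exists_ne_zero_of_sum_ne_zero h
    obtain ⟨x, hx, h⟩ := exists_ne_zero_of_sum_ne_zero h
    obtain ⟨x1, x2⟩ := Nat.mem_divisorsAntidiagonal.1 hx
    rw [← x1] at x2 ⊢
    exact ac j (mem_range.1 hj) _ _ (Nat.pos_of_ne_zero (left_ne_zero_of_mul x2))
      (Nat.pos_of_ne_zero (right_ne_zero_of_mul x2)) (left_ne_zero_of_mul h)
      (right_ne_zero_of_mul h)
  have I1 := hf.low
  have I0 : 0 ≤ Itot f := le_trans (by positivity) I1
  have e1 := ee_eq X f N (fun k => if Squarefree k then lam k else 0) fun k _ h => by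
    split_ifs at h
    · exact (su k h).1
    · exact absurd rfl h
  have e2 : ∑ k ∈ Icc 1 N, (if Squarefree k then lam k else 0) * AA X f k =
      (∑ k ∈ (Icc 1 N : Finset ℕ) with Squarefree k, lam k * (rho k / k)) * (Itot f / 2) +
      ∑ j ∈ range B, ∑ k ∈ Icc 1 N, (∑ x ∈ k.divisorsAntidiagonal, α X j x.1 * β X j x.2) *
        if Squarefree k then r k else 0 := by
    rw [sum_comm, sum_filter, sum_mul, ← sum_add_distrib]
    refine sum_congr rfl fun k _ => ?_
    rw [← sum_mul]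
    change _ = _ + lam k * _
    split_ifs
    · by_cases c : lam k = 0
      · simp [c]
      · have : Odd k := by
          rw [← Nat.not_even_iff_odd, even_iff_two_dvd]
          intro h
          have := (su k c).2 2 Nat.prime_two h
          norm_num at this
          linarith
        simp only [hr, BB, if_pos this]
        ring
    · simp
  have e3 := (abs_sum_le_sum_abs _ _).trans (sum_le_sum one)
  rw [sum_const, card_range, nsmul_eq_mul] at e3
  have e4 : B * (D ^ 2 * (τ * c / (2 * D ^ 3) * X)) ≤ τ * (Itot f / 2) := by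
    calc _ ≤ D * (D ^ 2 * (τ * c / (2 * D ^ 3) * X)) := by gcongr; linarith
      _ = τ * (c * X / 2) := by field_simp
      _ ≤ _ := by gcongr
  simp only [sum_filter (p := fun k => Squarefree k) (s := Nat.divisors _)]
  rw [e1, e2]
  have e5 := mul_le_mul_of_nonneg_right hv (show 0 ≤ Itot f / 2 by positivity)
  linarith [(abs_le.1 (e3.trans e4)).1]

end Pool.Agent.Lib.MP_4b1228_nt.PP
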