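import Pool.Agent.Lib.MP_4b1228_nt.PP.St

/-!
Rough squarefree moduli in a short window have small mass.
-/

set_option autoImplicit false

open Finset Real Filter
open scoped Classical

noncomputable section

namespace Pool.Agent.Lib.MP_4b1228_nt.PP.RW

theorem g_nonneg (k : ℕ) : (0 : ℝ) ≤ rho k / k := by positivity

theorem g_mul (hR : RhoStmt) (a b : ℕ) :
    (rho (a * b) : ℝ) / (a * b : ℕ) ≤ (rho a / a) * (rho b / b) := by
  rw [div_mul_div_comm, Nat.cast_mul]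
  refine div_le_div_of_nonneg_right ?_ (by positivity)
  exact_mod_cast hR.2.1 a b

theorem g_prod (hR : RhoStmt) (T : Finset ℕ) :
    (rho (∏ p ∈ T, p) : ℝ) / (∏ p ∈ T, p : ℕ) ≤ ∏ p ∈ T, ((rho p : ℝ) / p) := by
  induction T using Finset.induction_on with
  | empty => simp [hR.2.2.2.2.1]
  | insert a T ha ih =>
    rw [prod_insert ha, prod_insert ha]
    exact (g_mul hR _ _).trans (mul_le_mul_of_nonneg_left ih (g_nonneg a))

/-- Squarefree numbers composed of the primes of `P`. -/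
theorem tot (hR : RhoStmt) (S P : Finset ℕ)
    (hS : ∀ k ∈ S, Squarefree k ∧ k.primeFactors ⊆ P) :
    ∑ k ∈ S, (rho k : ℝ) / k ≤ exp (∑ p ∈ P, (rho p : ℝ) / p) := by
  have h1 : ∑ k ∈ S, (rho k : ℝ) / k ≤ ∑ k ∈ S, ∏ p ∈ k.primeFactors, ((rho p : ℝ) / p) :=
    sum_le_sum fun k hk => by
      have := g_prod hR k.primeFactors
      rwa [Nat.prod_primeFactors_of_squarefree (hS k hk).1] at this
  have h2 : ∑ k ∈ S, ∏ p ∈ k.primeFactors, ((rho p : ℝ) / p) =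
      ∑ T ∈ S.image Nat.primeFactors, ∏ p ∈ T, ((rho p : ℝ) / p) := by
    rw [sum_image]
    intro a ha b hb hab
    rw [← Nat.prod_primeFactors_of_squarefree (hS a ha).1,
      ← Nat.prod_primeFactors_of_squarefree (hS b hb).1, hab]
  have h3 : ∑ T ∈ S.image Nat.primeFactors, ∏ p ∈ T, ((rho p : ℝ) / p) ≤
      ∑ T ∈ P.powerset, ∏ p ∈ T, ((rho p : ℝ) / p) := by
    refine sum_le_sum_of_subset_of_nonneg (fun T hT => ?_) fun T _ _ =>
      prod_nonneg fun p _ => g_nonneg p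
    obtain ⟨k, hk, rfl⟩ := mem_image.1 hT
    exact mem_powerset.2 (hS k hk).2
  rw [← prod_one_add] at h3
  refine h1.trans (h2.le.trans (h3.trans ?_))
  rw [exp_sum]
  exact prod_le_prod (fun p _ => by have := g_nonneg p; linarith) fun p _ => by
    have := add_one_le_exp ((rho p : ℝ) / p); linarith

/-- The primes of a window. -/
def Pw (y y' : ℝ) : Finset ℕ := {p ∈ (Icc 1 ⌊y'⌋₊ : Finset ℕ) | Nat.Prime p ∧ y ≤ p}

theorem mem_Pw {y y' : ℝ} {p : ℕ} (hp : p.Prime) (h1 : y ≤ p) (h2 : (p : ℝ) ≤ y') : p ∈ Pw y y' :=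
  mem_filter.2 ⟨mem_Icc.2 ⟨hp.one_le, Nat.le_floor h2⟩, hp, h1⟩

theorem pw (hM : MertStmt) {z ε : ℝ} (hz : 0 < z) (hε : 0 < ε) :
    ∀ᶠ X : ℝ in atTop, ∀ y t B : ℝ, X ^ z ≤ y → 0 ≤ t → y * X ^ t ≤ X ^ B →
      ∑ p ∈ Pw y (y * X ^ t), (rho p : ℝ) / p ≤ ((1 + ε) * t + ε * B) / z := by
  obtain ⟨y₀, hy₀, H⟩ := hM ε hε
  filter_upwards [(tendsto_rpow_atTop hz).eventually_ge_atTop y₀, eventually_gt_atTop 1]
    with X hX hX1 y t B hy ht hB
  have hX0 : 0 < X := by linarith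
  have hL : 0 < log X := log_pos hX1
  have hy0 : 0 < y := by linarith
  have ht1 : 1 ≤ X ^ t := one_le_rpow hX1.le ht
  have h := (H y (y * X ^ t) (hX.trans hy) (le_mul_of_one_le_right hy0.le ht1)).2.1
  rw [mul_div_cancel_left₀ _ hy0.ne', log_rpow hX0] at h
  have h2 : log (y * X ^ t) ≤ B * log X := by
    rw [← log_rpow hX0]; exact log_le_log (by positivity) hB
  have h3 : (∑ p ∈ Pw y (y * X ^ t), (rho p : ℝ) / p) * (z * log X) ≤
      ∑ p ∈ Pw y (y * X ^ t), (rho p : ℝ) * log p / p := by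
    rw [sum_mul]
    refine sum_le_sum fun p hp => ?_
    have h4 : z * log X ≤ log p := by
      rw [← log_rpow hX0]
      exact log_le_log (by positivity) (hy.trans (mem_filter.1 hp).2.2)
    rw [mul_div_right_comm]
    exact mul_le_mul_of_nonneg_left h4 (g_nonneg p)
  rw [le_div_iff₀ hz]
  refine le_of_mul_le_mul_right ?_ hL
  have h5 := mul_le_mul_of_nonneg_left h2 hε.le
  unfold Pw at h3 ⊢
  nlinarith

/-- Total mass of the rough squarefree numbers up to `X ^ B`. -/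
theorem total (hR : RhoStmt) (hM : MertStmt) {z : ℝ} (hz : 0 < z) {B : ℝ} (hB : 0 ≤ B) :
    ∀ᶠ X : ℝ in atTop, ∀ S : Finset ℕ,
      (∀ k ∈ S, Squarefree k ∧ Rough (X ^ z) k ∧ (k : ℝ) ≤ X ^ B) →
      ∑ k ∈ S, (rho k : ℝ) / k ≤ exp ((3 * B + z) / z) := by
  filter_upwards [pw hM hz one_pos, eventually_gt_atTop 1] with X hX hX1 S hS
  have hX0 : 0 < X := by linarith
  have h := hX (X ^ z) B (z + B) le_rfl hB (by rw [rpow_add hX0])
  refine (tot hR S (Pw (X ^ z) (X ^ z * X ^ B)) fun k hk => ⟨(hS k hk).1, fun p hp => ?_⟩).trans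
    (exp_le_exp.2 (h.trans_eq (by ring)))
  obtain ⟨h1, h2, h3⟩ := hS k hk
  have hp' := Nat.prime_of_mem_primeFactors hp
  have hd := Nat.dvd_of_mem_primeFactors hp
  refine mem_Pw hp' (h2 p hp' hd) ?_
  have h4 : (p : ℝ) ≤ k := by exact_mod_cast Nat.le_of_dvd (Nat.pos_of_ne_zero h1.ne_zero) hd
  exact h4.trans (h3.trans (le_mul_of_one_le_left (by positivity) (one_le_rpow hX1.le hz.le)))

/-- Short windows. -/
theorem win (hR : RhoStmt) (hM : MertStmt) {z : ℝ} (hz : 0 < z) :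
    ∃ C : ℝ, 0 < C ∧ ∀ η : ℝ, 0 < η → η ≤ 1 → ∀ᶠ X : ℝ in atTop, ∀ (Y : ℝ) (S : Finset ℕ),
      1 < Y → Y ≤ X ^ (2 : ℝ) →
      (∀ k ∈ S, Squarefree k ∧ Rough (X ^ z) k ∧ Y ≤ k ∧ (k : ℝ) ≤ Y * X ^ η) →
      ∑ k ∈ S, (rho k : ℝ) / k ≤ C * η := by
  refine ⟨exp ((3 * 3 + z) / z) * (3 / z), by positivity, fun η hη hη1 => ?_⟩
  have hε : 0 < η / (z + 3) := by positivity
  filter_upwards [pw hM hz hε, total hR hM hz (B := 3) (by norm_num), eventually_gt_atTop 1]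
    with X hX hT hX1 Y S hY hY2 hS
  have hX0 : 0 < X := by linarith
  have hY0 : 0 < Y := by linarith
  have hXη : X ^ η ≤ X ^ (1 : ℝ) := rpow_le_rpow_of_exponent_le hX1.le hη1
  set S₁ := S.image fun k => k / k.minFac with hS₁
  set W := fun k₁ : ℕ => Pw (max (X ^ z) (Y / k₁)) (max (X ^ z) (Y / k₁) * X ^ η) with hW
  have hk1 : ∀ k ∈ S, k ≠ 1 := fun k hk h => by
    have := (hS k hk).2.2.1
    rw [h, Nat.cast_one] at this
    linarith
  have hsp : ∀ k : ℕ, k / k.minFac * k.minFac = k := fun k =>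
    Nat.div_mul_cancel (Nat.minFac_dvd k)
  have h1 : ∀ k ∈ S₁, Squarefree k ∧ Rough (X ^ z) k ∧ (k : ℝ) ≤ X ^ (3 : ℝ) := by
    intro k₁ hk₁
    obtain ⟨k, hk, rfl⟩ := mem_image.1 hk₁
    obtain ⟨a1, a2, -, a4⟩ := hS k hk
    have hd : k / k.minFac ∣ k := Dvd.intro _ (hsp k)
    refine ⟨a1.squarefree_of_dvd hd, fun p hp h => a2 p hp (h.trans hd), ?_⟩
    have a5 : ((k / k.minFac : ℕ) : ℝ) ≤ k := by exact_mod_cast Nat.div_le_self _ _
    refine a5.trans (a4.trans ?_)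
    rw [show (3 : ℝ) = 2 + 1 by norm_num, rpow_add hX0]
    exact mul_le_mul hY2 hXη (by positivity) (by positivity)
  have h2 : ∀ k₁ ∈ S₁, ∑ p ∈ W k₁, (rho p : ℝ) / p ≤ 3 / z * η := by
    intro k₁ hk₁
    have a1 : (1 : ℝ) ≤ k₁ := by exact_mod_cast Nat.pos_of_ne_zero (h1 k₁ hk₁).1.ne_zero
    have a2 : max (X ^ z) (Y / k₁) ≤ X ^ (z + 2) :=
      max_le (rpow_le_rpow_of_exponent_le hX1.le (by linarith))
        ((div_le_self hY0.le a1).trans
          (hY2.trans (rpow_le_rpow_of_exponent_le hX1.le (by linarith))))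
    refine (hX _ η (z + 3) (le_max_left _ _) hη.le ?_).trans ?_
    · rw [show z + 3 = z + 2 + 1 by ring, rpow_add hX0 (z + 2)]
      exact mul_le_mul a2 hXη (by positivity) (by positivity)
    · rw [div_mul_cancel₀ _ (by positivity), div_mul_eq_mul_div]
      refine div_le_div_of_nonneg_right ?_ hz.le
      have : η / (z + 3) ≤ 1 := by rw [div_le_one (by positivity)]; linarith
      nlinarith
  set φ : ℕ → (Σ _ : ℕ, ℕ) := fun k => ⟨k / k.minFac, k.minFac⟩ with hφ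
  set G : (Σ _ : ℕ, ℕ) → ℝ := fun x => ((rho x.1 : ℝ) / x.1) * ((rho x.2 : ℝ) / x.2) with hG
  have h3 : ∑ k ∈ S, (rho k : ℝ) / k ≤ ∑ k ∈ S, G (φ k) := sum_le_sum fun k _ => by
    have := g_mul hR (k / k.minFac) k.minFac
    rwa [hsp k] at this
  have h4 : ∑ k ∈ S, G (φ k) = ∑ x ∈ S.image φ, G x := by
    rw [sum_image]
    intro a _ b _ hab
    have e1 : a / a.minFac = b / b.minFac := congrArg Sigma.fst hab
    have e2 : a.minFac = b.minFac := congrArg (fun x : (Σ _ : ℕ, ℕ) => x.2) hab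
    rw [← hsp a, e1, e2, hsp b]
  have h5 : ∑ x ∈ S.image φ, G x ≤ ∑ x ∈ S₁.sigma W, G x := by
    refine sum_le_sum_of_subset_of_nonneg (fun x hx => ?_) fun x _ _ =>
      mul_nonneg (g_nonneg _) (g_nonneg _)
    obtain ⟨k, hk, rfl⟩ := mem_image.1 hx
    obtain ⟨a1, a2, a3, a4⟩ := hS k hk
    have hp := Nat.minFac_prime (hk1 k hk)
    have hm : k / k.minFac ∈ S₁ := mem_image_of_mem _ hk
    have a5 : (0 : ℝ) < (k / k.minFac : ℕ) := by
      exact_mod_cast Nat.pos_of_ne_zero (h1 _ hm).1.ne_zero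
    have a6 : ((k / k.minFac : ℕ) : ℝ) * k.minFac = k := by exact_mod_cast hsp k
    refine mem_sigma.2 ⟨hm, mem_Pw hp (max_le (a2 _ hp (Nat.minFac_dvd k)) ?_) ?_⟩
    · rw [div_le_iff₀' a5]
      exact a3.trans a6.ge
    · refine le_trans ?_ (mul_le_mul_of_nonneg_right (le_max_right _ _) (by positivity))
      rw [div_mul_eq_mul_div, le_div_iff₀' a5]
      exact a6.le.trans a4
  refine h3.trans (h4.le.trans (h5.trans ?_))
  rw [sum_sigma, mul_assoc]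
  refine le_trans (sum_le_sum fun k₁ hk₁ => ?_ : _ ≤ ∑ k₁ ∈ S₁, (rho k₁ : ℝ) / k₁ * (3 / z * η)) ?_
  · simp only [hG]
    rw [← mul_sum]
    exact mul_le_mul_of_nonneg_left (h2 k₁ hk₁) (g_nonneg _)
  · rw [← sum_mul]
    exact mul_le_mul_of_nonneg_right (hT S₁ h1) (by positivity)

/-- The same with exponents. -/
theorem rw (hR : RhoStmt) (hM : MertStmt) {z : ℝ} (hz : 0 < z) :
    ∃ C : ℝ, 0 < C ∧ ∀ η : ℝ, 0 < η → η ≤ 1 → ∀ᶠ X : ℝ in atTop, ∀ (a : ℝ) (S : Finset ℕ),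
      0 < a → a ≤ 2 →
      (∀ k ∈ S, Squarefree k ∧ Rough (X ^ z) k ∧ X ^ a ≤ k ∧ (k : ℝ) ≤ X ^ (a + η)) →
      ∑ k ∈ S, (rho k : ℝ) / k ≤ C * η := by
  obtain ⟨C, hC, H⟩ := win hR hM hz
  refine ⟨C, hC, fun η h1 h2 => ?_⟩
  filter_upwards [H η h1 h2, eventually_gt_atTop 1] with X hX hX1 a S ha ha2 hS
  refine hX (X ^ a) S (one_lt_rpow hX1 ha) (rpow_le_rpow_of_exponent_le hX1.le ha2) fun k hk => ?_
  rw [← rpow_add (by linarith)]
  exact hS k hk

end Pool.Agent.Lib.MP_4b1228_nt.PP.RW
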