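import Pool.Agent.Shared.SelbergUpper

/-!
A weighted form of Selberg's upper bound sieve with the remainders summed over the moduli.
-/

open Finset
open Pool.Agent.Shared Pool.Agent.Shared.SelbergUpper
open scoped Classical

noncomputable section

namespace Pool.Agent.Lib.MP_4b1228_nt.PP.Sel

theorem expand (I : Finset ℕ) (w : ℕ → ℝ) (U : Finset ℕ) (ν a b : ℕ → ℝ) (M : ℝ) :
    ∑ i ∈ I, w i * ∏ l ∈ U, (b l * (if l ∣ i then 1 else 0) + a l) ≤
      M * ∏ l ∈ U, (b l * ν l + a l) + ∑ T ∈ U.powerset, |(∏ l ∈ T, b l) * ∏ l ∈ U \ T, a l| *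
        |∑ i ∈ I with ∀ l ∈ T, l ∣ i, w i - M * ∏ l ∈ T, ν l| := by
  simp only [prod_add]
  simp only [mul_sum]
  rw [sum_comm, ← sum_add_distrib]
  refine sum_le_sum fun T _ => ?_
  have h2 : ∑ i ∈ I, w i * ((∏ l ∈ T, b l * (if l ∣ i then 1 else 0)) * ∏ l ∈ U \ T, a l) =
      ((∏ l ∈ T, b l) * ∏ l ∈ U \ T, a l) * ∑ i ∈ I with ∀ l ∈ T, l ∣ i, w i := by
    rw [sum_filter, mul_sum]
    refine sum_congr rfl fun i _ => ?_
    rw [prod_mul_distrib, prod_boole]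
    split_ifs <;> ring
  rw [h2, prod_mul_distrib, ← abs_mul]
  set c := (∏ l ∈ T, b l) * ∏ l ∈ U \ T, a l with hc
  have h3 := le_abs_self (c * (∑ i ∈ I with ∀ l ∈ T, l ∣ i, w i - M * ∏ l ∈ T, ν l))
  have h4 : M * (((∏ l ∈ T, b l) * ∏ l ∈ T, ν l) * ∏ l ∈ U \ T, a l) = c * (M * ∏ l ∈ T, ν l) := by
    rw [hc]; ring
  rw [h4]
  linarith

theorem sdiff_le (P : Finset ℕ) (hP : ∀ p ∈ P, p.Prime) {g : ℕ → ℝ} (hg : ∀ p ∈ P, 0 ≤ g p) (z : ℝ)
    (T : Finset ℕ) : ∑ A ∈ Sm P z, ∏ p ∈ A \ T, g p ≤ 2 ^ #T * G P g z := by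
  have sub : ∀ A ∈ Sm P z, A ⊆ P := fun A hA => mem_powerset.1 (mem_filter.1 hA).1
  have e : ∑ A ∈ Sm P z, ∏ p ∈ A \ T, g p =
      ∑ x ∈ (Sm P z).image (fun A => (A ∩ T, A \ T)), ∏ p ∈ x.2, g p := by
    rw [sum_image fun A _ B _ h => by
      rw [← sdiff_union_inter A T, ← sdiff_union_inter B T, (Prod.mk.inj h).1, (Prod.mk.inj h).2]]
  have e2 : ∑ x ∈ T.powerset ×ˢ Sm P z, ∏ p ∈ x.2, g p = 2 ^ #T * G P g z := by
    rw [sum_product]
    simp [G]
  rw [e, ← e2]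
  refine sum_le_sum_of_subset_of_nonneg (image_subset_iff.2 fun A hA => mem_product.2
    ⟨mem_powerset.2 inter_subset_right, mem_filter.2 ⟨mem_powerset.2 (sdiff_subset.trans (sub A hA)),
      le_trans ?_ (mem_filter.1 hA).2⟩⟩) fun x hx _ => prod_nonneg fun p hp =>
        hg p (sub _ (mem_product.1 hx).2 hp)
  exact prod_le_prod_of_subset_of_one_le sdiff_subset (fun p _ => Nat.cast_nonneg p) fun p hp _ => by
    exact_mod_cast (hP p (sub A hA hp)).one_lt.le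

/-- Selberg's sieve in orthogonal form. -/
theorem wsel (I : Finset ℕ) (w : ℕ → ℝ) (hw : ∀ i ∈ I, 0 ≤ w i) (P : Finset ℕ)
    (hP : ∀ p ∈ P, p.Prime) (ν : ℕ → ℝ) (a0 : ∀ p ∈ P, 0 ≤ ν p) (a2 : ∀ p ∈ P, ν p ≤ 1 / 2)
    (M : ℝ) {z : ℝ} (hz : 1 ≤ z) :
    (∑ i ∈ I with ∀ l ∈ P, ¬ l ∣ i, w i) * G P (fun p => ν p / (1 - ν p)) z ^ 2 ≤
      M * G P (fun p => ν p / (1 - ν p)) z + G P (fun p => ν p / (1 - ν p)) z ^ 2 *
        ∑ T ∈ Sm P (z ^ 2), 16 ^ #T * |∑ i ∈ I with ∀ l ∈ T, l ∣ i, w i - M * ∏ l ∈ T, ν l| := by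
  have a1 : ∀ p ∈ P, 0 < 1 - ν p := fun p hp => by linarith [a2 p hp]
  set g : ℕ → ℝ := fun p => ν p / (1 - ν p) with hg
  have g0 : ∀ p ∈ P, 0 ≤ g p := fun p hp => div_nonneg (a0 p hp) (a1 p hp).le
  set r : Finset ℕ → ℝ := fun T => |∑ i ∈ I with ∀ l ∈ T, l ∣ i, w i - M * ∏ l ∈ T, ν l| with hr
  have r0 : ∀ T, 0 ≤ r T := fun T => abs_nonneg _
  let η : ℕ → ℕ → ℝ := fun p i => (ν p - if p ∣ i then 1 else 0) / (1 - ν p)
  have sub : ∀ {y : ℝ}, ∀ A ∈ Sm P y, A ⊆ P := fun A hA => mem_powerset.1 (mem_filter.1 hA).1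
  have p1 : ∀ p ∈ P, (1 : ℝ) ≤ p := fun p hp => by exact_mod_cast (hP p hp).one_lt.le
  have key : ∀ A ∈ Sm P z, ∀ B ∈ Sm P z, ∑ i ∈ I, w i * ((∏ p ∈ A, η p i) * ∏ p ∈ B, η p i) ≤
      M * (if A = B then ∏ p ∈ A, g p else 0) + ∑ T ∈ Sm P (z ^ 2),
        4 ^ #T * r T * ((∏ p ∈ A \ T, g p) * ∏ p ∈ B \ T, g p) := fun A hA B hB => by
    have u : A ∪ B ⊆ P := union_subset (sub A hA) (sub B hB)
    let a : ℕ → ℝ := fun p => if p ∈ A ∧ p ∈ B then (ν p / (1 - ν p)) ^ 2 else ν p / (1 - ν p)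
    let b : ℕ → ℝ := fun p =>
      if p ∈ A ∧ p ∈ B then (1 - 2 * ν p) / (1 - ν p) ^ 2 else -1 / (1 - ν p)
    have e1 : ∀ i, (∏ p ∈ A, η p i) * ∏ p ∈ B, η p i =
        ∏ p ∈ A ∪ B, (b p * (if p ∣ i then 1 else 0) + a p) := fun i => by
      have : (∏ p ∈ A, η p i) * ∏ p ∈ B, η p i =
          ∏ p ∈ A ∪ B, (if p ∈ A then η p i else 1) * if p ∈ B then η p i else 1 := by
        rw [prod_mul_distrib, prod_ite_mem, prod_ite_mem, union_inter_cancel_left,
          union_inter_cancel_right]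
      rw [this]
      refine prod_congr rfl fun p hp => ?_
      have h1 := (a1 p (u hp)).ne'
      have h2 := mem_union.1 hp
      by_cases p1 : p ∈ A <;> by_cases p2 : p ∈ B <;> by_cases p3 : p ∣ i <;>
        simp only [a, b, η, p1, p2, p3, if_true, if_false, and_true, and_false, or_self,
          and_self] at h2 ⊢ <;> field_simp <;> ring
    have D1 : ∏ p ∈ A ∪ B, (p : ℝ) ≤ z ^ 2 := by
      have h1 : ∏ p ∈ A ∪ B, (p : ℝ) ≤ (∏ p ∈ A, (p : ℝ)) * ∏ p ∈ B, (p : ℝ) := by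
        rw [← prod_union_inter]
        exact le_mul_of_one_le_right (by positivity) (one_le_prod fun p hp =>
          p1 p (sub A hA (mem_inter.1 hp).1))
      refine h1.trans ?_
      rw [sq]
      exact mul_le_mul (mem_filter.1 hA).2 (mem_filter.1 hB).2 (by positivity) (by linarith)
    have h4 := expand I w (A ∪ B) ν a b M
    simp only [e1]
    refine h4.trans (add_le_add (le_of_eq ?_) ?_)
    · congr 1
      split_ifs with hAB
      · subst hAB
        rw [union_self]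
        refine prod_congr rfl fun p hp => ?_
        have h1 := (a1 p (sub A hA hp)).ne'
        simp only [a, b, hg, hp, and_self, if_true]
        field_simp
        ring
      · obtain ⟨p, hp⟩ : ∃ p, ¬ (p ∈ A ↔ p ∈ B) := not_forall.1 fun h' => hAB (Finset.ext h')
        have hp' : p ∈ A ∪ B := by rw [mem_union]; tauto
        refine prod_eq_zero hp' ?_
        have h1 : ¬ (p ∈ A ∧ p ∈ B) := by tauto
        simp only [a, b, if_neg h1]
        ring
    · have q0 : ∀ T : Finset ℕ, 0 ≤ (∏ p ∈ A \ T, g p) * ∏ p ∈ B \ T, g p := fun T =>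
        mul_nonneg (prod_nonneg fun p hp => g0 p (sub A hA (mem_sdiff.1 hp).1))
          (prod_nonneg fun p hp => g0 p (sub B hB (mem_sdiff.1 hp).1))
      refine le_trans (sum_le_sum fun T hT => ?_) (sum_le_sum_of_subset_of_nonneg
        (s := (A ∪ B).powerset) (fun T hT => mem_filter.2 ⟨mem_powerset.2 ((mem_powerset.1 hT).trans u),
          (prod_le_prod_of_subset_of_one_le (mem_powerset.1 hT) (fun p _ => Nat.cast_nonneg p)
            fun p hp _ => p1 p (u hp)).trans D1⟩)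
        fun T _ _ => mul_nonneg (mul_nonneg (by positivity) (r0 T)) (q0 T))
      have e2 : ∏ l ∈ (A ∪ B) \ T, a l = (∏ p ∈ A \ T, g p) * ∏ p ∈ B \ T, g p := by
        have : (∏ p ∈ A \ T, g p) * ∏ p ∈ B \ T, g p = ∏ p ∈ A \ T ∪ B \ T,
            (if p ∈ A \ T then g p else 1) * if p ∈ B \ T then g p else 1 := by
          rw [prod_mul_distrib, prod_ite_mem, prod_ite_mem, union_inter_cancel_left,
            union_inter_cancel_right]
        rw [this, union_sdiff_distrib]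
        refine prod_congr rfl fun p hp => ?_
        have h2 := mem_union.1 hp
        simp only [mem_sdiff] at h2 ⊢
        have h3 : p ∉ T := by tauto
        by_cases p1 : p ∈ A <;> by_cases p2 : p ∈ B <;>
          simp only [a, hg, p1, p2, h3, if_true, if_false, and_true, and_false, or_self,
            and_self, not_false_eq_true] at h2 ⊢ <;> ring
      have e3 : |∏ l ∈ T, b l| ≤ 4 ^ #T := by
        rw [abs_prod, ← prod_const]
        refine prod_le_prod (fun _ _ => abs_nonneg _) fun p hp => ?_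
        have hp' := u (mem_powerset.1 hT hp)
        have h1 := a1 p hp'
        have h2 := a0 p hp'
        have h5 := a2 p hp'
        simp only [b]
        split_ifs
        · rw [abs_of_nonneg (div_nonneg (by linarith) (by positivity)), div_le_iff₀ (by positivity)]
          nlinarith
        · rw [abs_div, abs_neg, abs_one, abs_of_pos h1, div_le_iff₀ h1]
          linarith
      rw [abs_mul, e2, abs_of_nonneg (q0 T), mul_right_comm]
      exact mul_le_mul_of_nonneg_right (mul_le_mul_of_nonneg_right e3 (r0 T)) (q0 T)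
  have up : ∑ i ∈ I, w i * (∑ A ∈ Sm P z, ∏ p ∈ A, η p i) ^ 2 ≤
      M * G P g z + G P g z ^ 2 * ∑ T ∈ Sm P (z ^ 2), 16 ^ #T * r T := by
    simp only [sq (∑ A ∈ Sm P z, _), sum_mul_sum]
    simp only [mul_sum (s := Sm P z)]
    rw [sum_comm]
    refine (sum_le_sum fun A hA => (sum_comm.trans_le (sum_le_sum (key A hA)))).trans ?_
    simp only [sum_add_distrib]
    refine add_le_add (le_of_eq ?_) ?_
    · simp only [← mul_sum, sum_ite_eq]
      rw [sum_congr rfl fun A hA => if_pos hA]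
      rfl
    · rw [sum_congr rfl fun A _ => sum_comm, sum_comm, mul_sum]
      refine sum_le_sum fun T _ => ?_
      simp only [← mul_sum]
      rw [← sum_mul]
      have h1 := sdiff_le P hP g0 z T
      have h2 : 0 ≤ ∑ A ∈ Sm P z, ∏ p ∈ A \ T, g p :=
        sum_nonneg fun A hA => prod_nonneg fun p hp => g0 p (sub A hA (mem_sdiff.1 hp).1)
      have h3 := mul_le_mul h1 h1 h2 (h2.trans h1)
      refine (mul_le_mul_of_nonneg_left h3 (mul_nonneg (by positivity) (r0 T))).trans (le_of_eq ?_)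
      rw [show (16 : ℝ) = 4 * 2 * 2 by norm_num, mul_pow, mul_pow]
      ring
  refine le_trans ?_ up
  rw [sum_mul]
  refine (le_of_eq (sum_congr rfl fun i hi => ?_)).trans
    (sum_le_sum_of_subset_of_nonneg (filter_subset _ _) fun i hi _ =>
      mul_nonneg (hw i hi) (sq_nonneg _))
  congr 2
  refine sum_congr rfl fun A hA => prod_congr rfl fun p hp => ?_
  simp only [η, if_neg ((mem_filter.1 hi).2 p (sub A hA hp)), sub_zero, hg]

/-- The reciprocal as a homomorphism. -/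
def invH : ℕ →* ℝ where
  toFun := fun n => (n : ℝ)⁻¹
  map_one' := by simp
  map_mul' := fun a b => by push_cast; rw [mul_inv]

theorem invH_apply (n : ℕ) : invH n = (n : ℝ)⁻¹ := rfl

theorem smooth_le (S : Finset ℕ) (hS : ∀ p ∈ S, p.Prime) (N : Finset ℕ)
    (h : ∀ n ∈ N, n ∈ Nat.factoredNumbers S) :
    ∑ n ∈ N, (n : ℝ)⁻¹ ≤ ∏ p ∈ S, (1 - (p : ℝ)⁻¹)⁻¹ := by
  have hf : ∀ {p : ℕ}, p.Prime → ‖invH p‖ < 1 := fun {p} hp => by
    have : (1 : ℝ) < p := by exact_mod_cast hp.one_lt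
    rw [invH_apply, Real.norm_of_nonneg (by positivity)]
    exact inv_lt_one_of_one_lt₀ this
  have hs := (EulerProduct.summable_and_hasSum_factoredNumbers_prod_filter_prime_geometric hf S).2
  rw [filter_true_of_mem hS] at hs
  have hs2 := (hasSum_subtype_iff_indicator (f := fun n : ℕ => invH n)
    (s := Nat.factoredNumbers S)).1 hs
  have h1 := sum_le_hasSum N (fun n _ => Set.indicator_nonneg
    (fun m _ => by rw [invH_apply]; positivity) n) hs2
  rw [sum_congr rfl fun n hn => Set.indicator_of_mem (h n hn) _] at h1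
  simpa only [invH_apply] using h1

theorem fib (S : Finset ℕ) (hS : ∀ p ∈ S, p.Prime) (N : Finset ℕ)
    (h : ∀ n ∈ N, n ≠ 0 ∧ n.primeFactors = S) :
    ∑ n ∈ N, 1 / (n : ℝ) ≤ ∏ p ∈ S, 1 / ((p : ℝ) - 1) := by
  obtain ⟨D, hD⟩ : ∃ D, D = ∏ p ∈ S, p := ⟨_, rfl⟩
  have dv : ∀ n ∈ N, D ∣ n := fun n hn => by
    rw [hD, ← (h n hn).2]; exact Nat.prod_primeFactors_dvd n
  have h1 := smooth_le S hS (N.image (· / D)) fun m hm => by
    obtain ⟨n, hn, rfl⟩ := mem_image.1 hm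
    exact Nat.mem_factoredNumbers_of_dvd (Nat.mem_factoredNumbers_of_primeFactors_subset (h n hn).1
      (h n hn).2.subset) (Nat.div_dvd_of_dvd (dv n hn))
  rw [sum_image fun n hn m hm e => by
    rw [← Nat.div_mul_cancel (dv n hn), ← Nat.div_mul_cancel (dv m hm)]
    exact congrArg (· * D) e] at h1
  have h2 : ∑ n ∈ N, 1 / (n : ℝ) = (∑ n ∈ N, ((n / D : ℕ) : ℝ)⁻¹) * (D : ℝ)⁻¹ := by
    rw [sum_mul]
    refine sum_congr rfl fun n hn => ?_
    rw [← mul_inv, ← Nat.cast_mul, Nat.div_mul_cancel (dv n hn), one_div]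
  rw [h2]
  refine (mul_le_mul_of_nonneg_right h1 (by positivity)).trans (le_of_eq ?_)
  rw [hD, Nat.cast_prod, ← prod_inv_distrib, ← prod_mul_distrib]
  refine prod_congr rfl fun p hp => ?_
  have : (1 : ℝ) < p := by exact_mod_cast (hS p hp).one_lt
  have h3 : (p : ℝ) - 1 ≠ 0 := by linarith
  have h4 : (p : ℝ) ≠ 0 := by linarith
  field_simp

theorem abel_low (a : ℕ → ℝ) (ha : ∀ k, 0 ≤ a k) {c C : ℝ} (hc : 0 ≤ c) (hC : 0 ≤ C)
    (h : ∀ x : ℕ, 1 ≤ x → c * x - C * ((x : ℝ) ^ (1 / 4 : ℝ) * √x) ≤ ∑ k ∈ Icc 1 x, a k) :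
    ∃ C' : ℝ, ∀ N : ℕ, 1 ≤ N → c * Real.log (N + 1) - C' ≤ ∑ k ∈ Icc 1 N, a k / k := by
  have hs : Summable fun k : ℕ => 1 / (k : ℝ) ^ (5 / 4 : ℝ) :=
    Real.summable_one_div_nat_rpow.2 (by norm_num)
  refine ⟨c + C * ∑' k : ℕ, 1 / (k : ℝ) ^ (5 / 4 : ℝ), fun N hN => ?_⟩
  have h1 : ∀ n : ℕ, c * (∑ k ∈ Icc 1 (n + 1), 1 / (k : ℝ) - 1) -
      C * ∑ k ∈ range (n + 1), 1 / (k : ℝ) ^ (5 / 4 : ℝ) ≤
      ∑ k ∈ Icc 1 (n + 1), a k / k - (∑ k ∈ Icc 1 (n + 1), a k) / (n + 1 : ℕ) := fun n => by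
    induction n with
    | zero => simp
    | succ n ih =>
      have h2 := h (n + 1) (by omega)
      rw [sum_Icc_succ_top (by omega), sum_Icc_succ_top (by omega) (fun k => a k / k),
        sum_Icc_succ_top (by omega) a, sum_range_succ]
      set S := ∑ k ∈ Icc 1 (n + 1), a k
      set x : ℝ := ((n + 1 : ℕ) : ℝ) with hx
      have x0 : 0 < x := by rw [hx]; positivity
      have e : ((n + 1 + 1 : ℕ) : ℝ) = x + 1 := by rw [hx]; push_cast; ring
      rw [e]
      have h3 : x ^ (1 / 4 : ℝ) * √x / (x * (x + 1)) ≤ 1 / x ^ (5 / 4 : ℝ) := by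
        rw [div_le_div_iff₀ (by positivity) (by positivity), Real.sqrt_eq_rpow, ← Real.rpow_add x0,
          ← Real.rpow_add x0, show (1 / 4 + 1 / 2 + 5 / 4 : ℝ) = (2 : ℕ) by norm_num, Real.rpow_natCast]
        nlinarith
      have h4 : (c * x - C * (x ^ (1 / 4 : ℝ) * √x)) / (x * (x + 1)) ≤ S / (x * (x + 1)) :=
        div_le_div_of_nonneg_right h2 (by positivity)
      have h5 : (c * x - C * (x ^ (1 / 4 : ℝ) * √x)) / (x * (x + 1)) =
          c * (1 / (x + 1)) - C * (x ^ (1 / 4 : ℝ) * √x / (x * (x + 1))) := by field_simp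
      have h6 : (S + a (n + 1 + 1)) / (x + 1) = a (n + 1 + 1) / (x + 1) + S / x - S / (x * (x + 1)) := by
        field_simp
        ring
      have h7 := mul_le_mul_of_nonneg_left h3 hC
      rw [h6]
      linarith
  obtain ⟨n, rfl⟩ : ∃ n, N = n + 1 := ⟨N - 1, by omega⟩
  have h2 := h1 n
  have h3 := log_add_one_le_harmonic (n + 1)
  rw [harmonic_eq_sum_Icc] at h3
  have h4 : Real.log ((n + 1 : ℕ) + 1) ≤ ∑ k ∈ Icc 1 (n + 1), 1 / (k : ℝ) := by
    simpa using h3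
  have h5 := mul_le_mul_of_nonneg_left (hs.sum_le_tsum (range (n + 1)) fun k _ => by positivity) hC
  have h6 : 0 ≤ (∑ k ∈ Icc 1 (n + 1), a k) / (n + 1 : ℕ) :=
    div_nonneg (sum_nonneg fun k _ => ha k) (by positivity)
  have h7 := mul_le_mul_of_nonneg_left h4 hc
  linarith

end Pool.Agent.Lib.MP_4b1228_nt.PP.Sel
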