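import Pool.Agent.Lib.MP_4b1228_nt.PP.St
import Pool.Agent.Lib.MP_4b1228_nt.PP.SelA
import Pool.Agent.Lib.MP_9177b7_ag.EQ.Div

/-!
The Selberg sieve bound for the primes of the sequence.
-/

open Finset Real Filter
open Pool.Agent.Shared Pool.Agent.Shared.SelbergUpper
open scoped Classical

noncomputable section

namespace Pool.Agent.Lib.MP_4b1228_nt.PP

namespace Sel

/-- The odd primes up to `R`. -/
def Po (R : ℝ) : Finset ℕ := (range (⌊R⌋₊ + 1)).filter fun p => p.Prime ∧ p ≠ 2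

/-- The local densities. -/
def nu (p : ℕ) : ℝ := (rho p : ℝ) / (p + 1)

theorem nu_facts (hr : RhoStmt) {p : ℕ} (hp : p.Prime) (h2 : p ≠ 2) :
    0 ≤ nu p ∧ nu p ≤ 1 / 2 ∧ nu p / (1 - nu p) = rho p * (1 / ((p : ℝ) - 1)) := by
  have h1 := hr.2.2.2.1 p 1 hp h2 le_rfl
  rw [pow_one] at h1
  have p3 : (3 : ℝ) ≤ p := by
    have := hp.two_le
    exact_mod_cast (show 3 ≤ p by omega)
  refine ⟨by unfold nu; positivity, ?_, ?_⟩
  · rw [nu, h1, div_le_iff₀ (by positivity)]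
    split_ifs <;> push_cast <;> linarith
  · rw [nu, h1]
    have h3 : (p : ℝ) - 1 ≠ 0 := by linarith
    have h4 : (p : ℝ) + 1 - 2 ≠ 0 := by linarith
    split_ifs
    · push_cast
      field_simp
      ring
    · simp

theorem rho_odd (hr : RhoStmt) {k : ℕ} (hk : Odd k) :
    (rho k : ℝ) = ∏ p ∈ k.primeFactors, (rho p : ℝ) := by
  rw [Nat.multiplicative_factorization rho hr.1 hr.2.2.2.2.1 hk.pos.ne', Finsupp.prod,
    Nat.support_factorization, Nat.cast_prod]
  refine prod_congr rfl fun p hp => ?_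
  have h1 := Nat.prime_of_mem_primeFactors hp
  have h2 : p ≠ 2 := fun e =>
    hk.not_two_dvd_nat (e ▸ Nat.dvd_of_mem_primeFactors hp)
  have h3 := hr.2.2.2.1 p 1 h1 h2 le_rfl
  rw [pow_one] at h3
  rw [h3, hr.2.2.2.1 p _ h1 h2 (h1.factorization_pos_of_dvd hk.pos.ne'
    (Nat.dvd_of_mem_primeFactors hp))]

theorem G_low (hr : RhoStmt) {R : ℝ} (hR : 0 ≤ R) :
    ∑ k ∈ Icc 1 ⌊R⌋₊ with Odd k, (rho k : ℝ) / k ≤ G (Po R) (fun p => nu p / (1 - nu p)) R := by
  rw [← sum_fiberwise_of_maps_to (t := Sm (Po R) R) (g := Nat.primeFactors) fun k hk => ?_]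
  · refine sum_le_sum fun S hS => ?_
    have hS' : ∀ p ∈ S, p.Prime ∧ p ≠ 2 := fun p hp =>
      (mem_filter.1 (mem_powerset.1 (mem_filter.1 hS).1 hp)).2
    rw [prod_congr rfl fun p hp => (nu_facts hr (hS' p hp).1 (hS' p hp).2).2.2, prod_mul_distrib]
    refine le_trans (le_of_eq ?_) (mul_le_mul_of_nonneg_left (fib S (fun p hp => (hS' p hp).1)
      {k ∈ {k ∈ Icc 1 ⌊R⌋₊ | Odd k} | k.primeFactors = S} fun k hk =>
        ⟨(mem_filter.1 (mem_filter.1 hk).1).2.pos.ne', (mem_filter.1 hk).2⟩) (by positivity))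
    rw [mul_sum]
    refine sum_congr rfl fun k hk => ?_
    rw [rho_odd hr (mem_filter.1 (mem_filter.1 hk).1).2, (mem_filter.1 hk).2, mul_one_div]
  · obtain ⟨h1, h2⟩ := mem_filter.1 hk
    have h3 := (mem_Icc.1 h1).2
    refine mem_filter.2 ⟨mem_powerset.2 fun p hp => mem_filter.2 ⟨mem_range.2 ?_,
      Nat.prime_of_mem_primeFactors hp, fun e =>
        h2.not_two_dvd_nat (e ▸ Nat.dvd_of_mem_primeFactors hp)⟩, ?_⟩
    · have := Nat.le_of_mem_primeFactors hp
      omega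
    · rw [← Nat.cast_prod]
      exact (Nat.le_floor_iff hR).1 ((Nat.le_of_dvd h2.pos (Nat.prod_primeFactors_dvd k)).trans h3)

theorem G_log (hr : RhoStmt) {c : ℝ} (hc : 0 < c) (h : RS c) : ∃ C : ℝ, ∀ R : ℝ, 1 ≤ R →
    c * log R - C ≤ G (Po R) (fun p => nu p / (1 - nu p)) R := by
  obtain ⟨C, C0, hC⟩ := h (1 / 4) (by norm_num)
  obtain ⟨C', hC'⟩ := abel_low (fun k => if Odd k then (rho k : ℝ) else 0)
    (fun k => by positivity) hc.le C0.le fun x hx => by
      have h1 := (abs_le.1 (hC x 1 hx squarefree_one odd_one)).1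
      simp only [gg, Nat.primeFactors_one, prod_empty, Nat.cast_one, one_mul, mul_one, one_dvd,
        and_true] at h1
      rw [← sum_filter]
      linarith
  refine ⟨C', fun R hR => le_trans ?_ (G_low hr (by linarith))⟩
  have h1 := hC' ⌊R⌋₊ (Nat.le_floor (by simpa using hR))
  have h2 := mul_le_mul_of_nonneg_left
    (log_le_log (by linarith) (Nat.lt_floor_add_one R).le) hc.le
  rw [sum_filter]
  simp only [ite_div, zero_div] at h1
  linarith

end Sel

open Sel in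
theorem sel (hr : RhoStmt) : SelStmt := by
  intro c hc hRS A η δ η0 η1 δ0
  obtain ⟨C₁, hC₁⟩ := G_log hr hc hRS
  obtain ⟨C₂, C0, hC₂⟩ := MP_9177b7_ag.EQ.div.1 16 (δ / 4) (by positivity)
  filter_upwards [eventually_gt_atTop 1,
    (tendsto_log_atTop.const_mul_atTop (show 0 < c * (η / 2) by positivity)).eventually_ge_atTop C₁,
    (tendsto_rpow_atTop (show 0 < δ / 4 by positivity)).eventually_ge_atTop C₂]
    with X X1 hX₁ hX₂ f hf hE Y Y1 Y2
  have X0 : 0 < X := by linarith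
  have L0 := log_pos X1
  obtain ⟨R, hR⟩ : ∃ R, R = X ^ (1 / 4 - η / 2) := ⟨_, rfl⟩
  have R1 : 1 ≤ R := hR ▸ one_le_rpow X1.le (by linarith)
  have R2 : R ^ 2 = X ^ (1 / 2 - η) := by
    rw [hR, ← rpow_natCast, ← rpow_mul X0.le]
    congr 1
    push_cast
    ring
  have R3 : R ≤ X ^ (1 / 4 : ℝ) := hR ▸ rpow_le_rpow_of_exponent_le X1.le (by linarith)
  have hP : ∀ p ∈ Po R, p.Prime ∧ p ≠ 2 := fun p hp => (mem_filter.1 hp).2
  have s0 : ∀ k, 0 ≤ sA f Y k := fun k => tsum_nonneg fun l => by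
    split_ifs
    · exact hf.nonneg _
    · exact le_rfl
  have m0 : 0 ≤ mu X f Y := sum_nonneg fun k _ => s0 k
  have h1 := wsel (Icc 1 (KM X Y)) (sA f Y) (fun k _ => s0 k) (Po R) (fun p hp => (hP p hp).1) nu
    (fun p hp => (nu_facts hr (hP p hp).1 (hP p hp).2).1)
    (fun p hp => (nu_facts hr (hP p hp).1 (hP p hp).2).2.1) (mu X f Y) R1
  have h2 := hC₁ R R1
  set g := G (Po R) (fun p => nu p / (1 - nu p)) R
  have h3 : c * (1 / 4 - η) * log X ≤ g := by
    rw [hR, log_rpow X0] at h2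
    linarith
  have h4 : 0 < c * (1 / 4 - η) * log X := mul_pos (mul_pos hc (by linarith)) L0
  have g0 : 0 < g := h4.trans_le h3
  have h5 : ∑ T ∈ Sm (Po R) (R ^ 2), 16 ^ #T * |∑ i ∈ Icc 1 (KM X Y) with ∀ l ∈ T, l ∣ i, sA f Y i -
      mu X f Y * ∏ l ∈ T, nu l| ≤ X ^ (1 - δ / 2) := by
    have sub : ∀ T ∈ Sm (Po R) (R ^ 2), ∀ p ∈ T, p.Prime ∧ p ≠ 2 := fun T hT p hp =>
      hP p (mem_powerset.1 (mem_filter.1 hT).1 hp)
    have h6 := (inj_sum (A := Sm (Po R) (R ^ 2)) (fun T hT p hp => (sub T hT p hp).1)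
      (B := {d ∈ Icc 1 ⌊X ^ (1 / 2 - η)⌋₊ | Squarefree d ∧ Odd d}) (fun T hT => mem_filter.2
        ⟨mem_Icc.2 ⟨prod_pos fun p hp => (sub T hT p hp).1.pos, Nat.le_floor (by
          rw [← R2, Nat.cast_prod]; exact (mem_filter.1 hT).2)⟩, ?_, ?_⟩)
      (F := fun d => |∑ k ∈ Icc 1 (KM X Y) with d ∣ k, sA f Y k - gg d * mu X f Y|)
      fun _ => abs_nonneg _).trans (hE Y Y1 Y2)
    · have e : X ^ (1 - δ / 2) = X ^ (δ / 4) * X ^ (δ / 4) * X ^ (1 - δ) := by
        rw [← rpow_add X0, ← rpow_add X0]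
        congr 1
        ring
      rw [e]
      refine le_trans ?_ (mul_le_mul_of_nonneg_left h6 (by positivity))
      rw [mul_sum]
      refine sum_le_sum fun T hT => ?_
      have hT' := fun p hp => (sub T hT p hp).1
      have e1 : ∀ i, (∀ l ∈ T, l ∣ i) ↔ ∏ p ∈ T, p ∣ i := fun i =>
        ⟨Finset.prod_primes_dvd _ fun q hq => (hT' q hq).prime,
          fun h l hl => (dvd_prod_of_mem _ hl).trans h⟩
      have e2 : gg (∏ p ∈ T, p) = ∏ l ∈ T, nu l := by rw [gg, Nat.primeFactors_prod hT']; rfl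
      simp only [e1]
      rw [e2, mul_comm (mu X f Y)]
      refine mul_le_mul_of_nonneg_right ?_ (abs_nonneg _)
      have h7 := (hC₂ (∏ p ∈ T, p) (prod_pos fun p hp => (hT' p hp).pos)).2.2.1
      rw [Nat.primeFactors_prod hT', abs_of_pos (by norm_num)] at h7
      refine h7.trans (mul_le_mul hX₂ (rpow_le_rpow (by positivity) ?_ (by positivity))
        (by positivity) (by positivity))
      rw [Nat.cast_prod]
      refine (mem_filter.1 hT).2.trans ?_
      rw [R2]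
      simpa using rpow_le_rpow_of_exponent_le X1.le (show 1 / 2 - η ≤ 1 by linarith)
    · refine Finset.squarefree_prod_of_pairwise_isCoprime (fun p hp q hq e => ?_)
        fun p hp => (sub T hT p hp).1.squarefree
      exact Nat.coprime_iff_isRelPrime.1 ((Nat.coprime_primes (sub T hT p hp).1
        (sub T hT q hq).1).2 e)
    · exact Finset.prod_induction _ Odd (fun _ _ => Odd.mul) odd_one fun p hp =>
        (sub T hT p hp).1.odd_of_ne_two (sub T hT p hp).2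
  have h6 : ∑ p ∈ Icc 1 (KM X Y) with Nat.Prime p ∧ X ^ (1 / 4 : ℝ) < p, sA f Y p ≤
      ∑ i ∈ Icc 1 (KM X Y) with ∀ l ∈ Po R, ¬ l ∣ i, sA f Y i :=
    sum_le_sum_of_subset_of_nonneg (monotone_filter_right _ fun p _ hp l hl e => by
      have h7 := (Nat.prime_dvd_prime_iff_eq (hP l hl).1 hp.1).1 e
      have h8 := (Nat.le_floor_iff (by linarith : 0 ≤ R)).1
        (Nat.lt_succ_iff.1 (mem_range.1 (mem_filter.1 hl).1))
      rw [h7] at h8
      linarith [hp.2]) fun k _ _ => s0 k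
  refine h6.trans (le_trans ?_ (add_le_add (div_le_div_of_nonneg_left m0 h4 h3) h5))
  refine le_of_mul_le_mul_right (h1.trans (le_of_eq ?_)) (pow_pos g0 2)
  field_simp

end Pool.Agent.Lib.MP_4b1228_nt.PP
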