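import Pool.Agent.Lib.MP_4b1228_nt.PP.St2e
import Pool.Agent.Lib.MP_4b1228_nt.PP.Ex
import Pool.Agent.Lib.MP_4b1228_nt.PP.Sel
import Pool.Agent.Lib.MP_4b1228_nt.PP.RW
import Pool.Agent.Lib.MP_4b1228_nt.PP.FinB

/-!
The rough divisors of size about `X` have small mean.
-/

open Finset Real Filter MeasureTheory
open Pool.Agent.Shared Pool.Agent.Shared.SelbergUpper
open scoped Classical

noncomputable section

namespace Pool.Agent.Lib.MP_4b1228_nt.PP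

namespace Edge

open Sel in
/-- Selberg's sieve for rough numbers. -/
theorem selR (hr : RhoStmt) {c : ℝ} (hc : 0 < c) (hRS : RS c) (A : ℕ) {η δ ζ : ℝ} (η0 : 0 < η)
    (η1 : η ≤ 1 / 8) (δ0 : 0 < δ) (ζ0 : 0 < ζ) (ζ1 : ζ ≤ 1 / 4) :
    ∀ᶠ X : ℝ in atTop, ∀ f : ℝ → ℝ, Adm X (log X ^ A) f → E1 X η δ f →
      ∀ Y : ℝ, X ^ (η - 1 / 2) ≤ Y → Y ≤ X ^ (η / 2) →
        ∑ p ∈ (Icc 1 (KM X Y) : Finset ℕ) with Rough (X ^ ζ) p, sA f Y p ≤
          mu X f Y / (c * (ζ / 4) * log X) + X ^ (1 - δ / 2) := by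
  obtain ⟨C₁, hC₁⟩ := G_log hr hc hRS
  obtain ⟨C₂, C0, hC₂⟩ := MP_9177b7_ag.EQ.div.1 16 (δ / 4) (by positivity)
  filter_upwards [eventually_gt_atTop 1,
    (tendsto_log_atTop.const_mul_atTop (show 0 < c * (ζ / 4) by positivity)).eventually_ge_atTop C₁,
    (tendsto_rpow_atTop (show 0 < δ / 4 by positivity)).eventually_ge_atTop C₂]
    with X X1 hX₁ hX₂ f hf hE Y Y1 Y2
  have X0 : 0 < X := by linarith
  have L0 := log_pos X1
  obtain ⟨R, hR⟩ : ∃ R, R = X ^ (ζ / 2) := ⟨_, rfl⟩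
  have R1 : 1 ≤ R := hR ▸ one_le_rpow X1.le (by linarith)
  have R2 : R ^ 2 = X ^ ζ := by
    rw [hR, ← rpow_natCast, ← rpow_mul X0.le]
    congr 1
    push_cast
    ring
  have R3 : R < X ^ ζ := hR ▸ rpow_lt_rpow_of_exponent_lt X1 (by linarith)
  have R4 : R ^ 2 ≤ X ^ (1 / 2 - η) := R2 ▸ rpow_le_rpow_of_exponent_le X1.le (by linarith)
  have hP : ∀ p ∈ Po R, p.Prime ∧ p ≠ 2 := fun p hp => (mem_filter.1 hp).2
  have s0 : ∀ k, 0 ≤ sA f Y k := fun k => tsum_nonneg fun l => by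
    split_ifs
    · exact hf.nonneg _
    · exact le_rfl
  have m0 : 0 ≤ mu X f Y := sum_nonneg fun k _ => s0 k
  have h1 := wsel (Icc 1 (KM X Y)) (sA f Y) (fun k _ => s0 k) (Po R) (fun p hp => (hP p hp).1) nu
    (fun p hp => (nu_facts hr (hP p hp).1 (hP p hp).2).1)
    (fun p hp => (nu_facts hr (hP p hp).1 (hP p hp).2).2.1) (mu X f Y) R1
  have h2 := hC₁ R R1
  set g := G (Po R) (fun p => nu p / (1 - nu p)) R
  have h3 : c * (ζ / 4) * log X ≤ g := by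
    rw [hR, log_rpow X0] at h2
    linarith
  have h4 : 0 < c * (ζ / 4) * log X := mul_pos (mul_pos hc (by linarith)) L0
  have g0 : 0 < g := h4.trans_le h3
  have h5 : ∑ T ∈ Sm (Po R) (R ^ 2), 16 ^ #T * |∑ i ∈ Icc 1 (KM X Y) with ∀ l ∈ T, l ∣ i, sA f Y i -
      mu X f Y * ∏ l ∈ T, nu l| ≤ X ^ (1 - δ / 2) := by
    have sub : ∀ T ∈ Sm (Po R) (R ^ 2), ∀ p ∈ T, p.Prime ∧ p ≠ 2 := fun T hT p hp =>
      hP p (mem_powerset.1 (mem_filter.1 hT).1 hp)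
    have h6 := (inj_sum (A := Sm (Po R) (R ^ 2)) (fun T hT p hp => (sub T hT p hp).1)
      (B := {d ∈ Icc 1 ⌊X ^ (1 / 2 - η)⌋₊ | Squarefree d ∧ Odd d}) (fun T hT => mem_filter.2
        ⟨mem_Icc.2 ⟨prod_pos fun p hp => (sub T hT p hp).1.pos, Nat.le_floor (by
          rw [Nat.cast_prod]; exact (mem_filter.1 hT).2.trans R4)⟩, ?_, ?_⟩)
      (F := fun d => |∑ k ∈ Icc 1 (KM X Y) with d ∣ k, sA f Y k - gg d * mu X f Y|)
      fun _ => abs_nonneg _).trans (hE Y Y1 Y2)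
    · have e : X ^ (1 - δ / 2) = X ^ (δ / 4) * X ^ (δ / 4) * X ^ (1 - δ) := by
        rw [← rpow_add X0, ← rpow_add X0]
        congr 1
        ring
      rw [e]
      refine le_trans ?_ (mul_le_mul_of_nonneg_left h6 (by positivity))
      rw [mul_sum]
      refine sum_le_sum fun T hT => ?_
      have hT' := fun p hp => (sub T hT p hp).1
      have e1 : ∀ i, (∀ l ∈ T, l ∣ i) ↔ ∏ p ∈ T, p ∣ i := fun i =>
        ⟨Finset.prod_primes_dvd _ fun q hq => (hT' q hq).prime,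
          fun h l hl => (dvd_prod_of_mem _ hl).trans h⟩
      have e2 : gg (∏ p ∈ T, p) = ∏ l ∈ T, nu l := by rw [gg, Nat.primeFactors_prod hT']; rfl
      simp only [e1]
      rw [e2, mul_comm (mu X f Y)]
      refine mul_le_mul_of_nonneg_right ?_ (abs_nonneg _)
      have h7 := (hC₂ (∏ p ∈ T, p) (prod_pos fun p hp => (hT' p hp).pos)).2.2.1
      rw [Nat.primeFactors_prod hT', abs_of_pos (by norm_num)] at h7
      refine h7.trans (mul_le_mul hX₂ (rpow_le_rpow (by positivity) ?_ (by positivity))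
        (by positivity) (by positivity))
      rw [Nat.cast_prod]
      refine (mem_filter.1 hT).2.trans ?_
      rw [R2]
      simpa using rpow_le_rpow_of_exponent_le X1.le (show ζ ≤ 1 by linarith)
    · refine Finset.squarefree_prod_of_pairwise_isCoprime (fun p hp q hq e => ?_)
        fun p hp => (sub T hT p hp).1.squarefree
      exact Nat.coprime_iff_isRelPrime.1 ((Nat.coprime_primes (sub T hT p hp).1
        (sub T hT q hq).1).2 e)
    · exact Finset.prod_induction _ Odd (fun _ _ => Odd.mul) odd_one fun p hp =>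
        (sub T hT p hp).1.odd_of_ne_two (sub T hT p hp).2
  have h6 : ∑ p ∈ Icc 1 (KM X Y) with Rough (X ^ ζ) p, sA f Y p ≤
      ∑ i ∈ Icc 1 (KM X Y) with ∀ l ∈ Po R, ¬ l ∣ i, sA f Y i :=
    sum_le_sum_of_subset_of_nonneg (monotone_filter_right _ fun p _ hp l hl e => by
      have h7 := hp l (hP l hl).1 e
      have h8 := (Nat.le_floor_iff (by linarith : 0 ≤ R)).1
        (Nat.lt_succ_iff.1 (mem_range.1 (mem_filter.1 hl).1))
      linarith) fun k _ _ => s0 k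
  refine h6.trans (le_trans ?_ (add_le_add (div_le_div_of_nonneg_left m0 h4 h3) h5))
  refine le_of_mul_le_mul_right (h1.trans (le_of_eq ?_)) (pow_pos g0 2)
  field_simp

theorem sA_zero (hI2 : I2Stmt) {X Λ : ℝ} {f : ℝ → ℝ} (h3 : 3 ≤ X) (hf : Adm X Λ f)
    {k : ℕ} {s t : ℝ} (k2 : 2 ≤ k) (hk : 2 * X / exp t ≤ k)
    (hs : s ∉ Set.Icc (-2 * log X) t) : sA f (exp s) k = 0 := by
  have h := Fz.gP_zero hI2 h3 hf (P := {k}) (s := s) (t := t) (fun q hq => by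
    rw [mem_singleton.1 hq]; exact ⟨by omega, hk⟩) hs
  unfold Fz.gP at h
  rw [sum_singleton, mul_eq_zero] at h
  exact h.resolve_left (log_pos (by exact_mod_cast k2)).ne'

/-- The moduli above `X ^ (1 - η / 4)`. -/
theorem high (hr : RhoStmt) {c : ℝ} (hc : 0 < c) (hRS : RS c) (h2 : I2Stmt) (h3 : I3Stmt)
    (h0 : T0Stmt) (A : ℕ) {η δ ζ γ C₀ : ℝ} (η0 : 0 < η) (η1 : η ≤ γ) (γ1 : γ ≤ 1 / 8)
    (δ0 : 0 < δ) (ζ0 : 0 < ζ) (ζ1 : ζ ≤ 1 / 4) (hC : 0 < C₀) :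
    ∀ᶠ X : ℝ in atTop, ∀ f : ℝ → ℝ, Adm X (log X ^ A) f → E1 X η δ f →
      (∀ Y : ℝ, 0 < Y → mu X f Y ≤ C₀ * Itot f) → ∀ S : Finset ℕ,
      (∀ k ∈ S, Rough (X ^ ζ) k ∧ X ^ (1 - η / 4) ≤ k ∧ (k : ℝ) ≤ X ^ (1 + γ)) →
      ∑ k ∈ S, AA X f k ≤ 12 * C₀ / (c * ζ) * γ * Itot f + 2 * (X / log X) := by
  have γ0 : 0 < γ := η0.trans_le η1
  filter_upwards [selR hr hc hRS A η0 (η1.trans γ1) δ0 ζ0 ζ1, h0 A 0 γ γ0 (by linarith),
    eventually_ge_atTop (3 : ℝ), Fz.big 2 (show 1 - η / 2 < 1 - η / 4 by linarith),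
    Fz.big 2 (show 0 < 1 - η / 4 by linarith), Fz.small 1 2 (half_pos δ0),
    Fz.small 2 2 (show 0 < γ / 5 by linarith)] with X a1 a0 hX b1 b2 b3 b4 f hf hE hmu S hS
  have X0 : 0 < X := by linarith
  have X1 : 1 < X := by linarith
  have L1 := Glb.one_le_log hX
  have I0 := Fz.Itot_nonneg hf
  rw [rpow_zero, mul_one] at b2
  have k2 : ∀ k ∈ S, 2 ≤ k := fun k hk => by exact_mod_cast b2.trans (hS k hk).2.1
  have hz : ∀ s : ℝ, s ∉ Set.Icc (-2 * log X) (η / 2 * log X) →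
      ∑ k ∈ S, sA f (exp s) k = 0 := fun s hs => sum_eq_zero fun k hk =>
    sA_zero h2 hX hf (k2 k hk) (by
      refine le_trans (le_of_eq ?_) (b1.trans (hS k hk).2.1)
      rw [← Fz.rp X0, rpow_sub X0, rpow_one, mul_div_assoc]) hs
  obtain ⟨C₃, -, h3⟩ := h3
  obtain ⟨C₂, -, h2⟩ := h2
  have k6 := ((h2 X hX).2.2.2 _ f hf).2.1
  have j1 := fun k hk => (h3 X _ f hX hf).2.1 k (show 1 ≤ k by have := k2 k hk; omega)
  have hi : Integrable fun s => ∑ k ∈ S, sA f (exp s) k :=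
    integrable_finsetSum _ fun k hk => (j1 k hk).1
  have e : ∑ k ∈ S, AA X f k = ∫ s, ∑ k ∈ S, sA f (exp s) k := by
    rw [integral_finsetSum _ fun k hk => (j1 k hk).1]
    exact sum_congr rfl fun k hk => (j1 k hk).2.symm
  have cut : ∀ (s : ℝ) (p : ℕ → Prop) [DecidablePred p] (b : ℕ → ℝ), (∀ k ∈ S, p k) →
      (∀ k, 1 ≤ k → sA f (exp s) k ≤ b k) →
      ∑ k ∈ S, sA f (exp s) k ≤ ∑ k ∈ (Icc 1 (KM X (exp s)) : Finset ℕ) with p k, b k := by
    intro s p _ b hp hb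
    rw [← sum_filter_of_ne (p := fun k => k ≤ KM X (exp s)) fun k hk hne => by
      by_contra hlt
      exact hne ((k6 _ k (exp_pos s) (by have := k2 k hk; omega)).2.2.2.1 (not_le.1 hlt)).1]
    refine le_trans (sum_le_sum fun k hk => hb k (by have := k2 k (mem_filter.1 hk).1; omega))
      (sum_le_sum_of_subset_of_nonneg (fun k hk => ?_) fun k hk _ => ?_)
    · obtain ⟨c1, c2⟩ := mem_filter.1 hk
      exact mem_filter.2 ⟨mem_Icc.2 ⟨by have := k2 k c1; omega, c2⟩, hp k c1⟩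
    · have c1 := (mem_Icc.1 (mem_filter.1 hk).1).1
      exact (k6 _ k (exp_pos s) c1).1.trans (hb k c1)
  set L := log X with hL
  have o1 : -2 * L ≤ -(2 * γ) * L := by nlinarith
  have o2 : -(2 * γ) * L ≤ η / 2 * L := by nlinarith
  have i1 := Fz.int_const hi o1 (K := X ^ (1 - γ / 5)) fun s hs => by
    refine (cut s (fun k => (k : ℝ) * exp s ≤ X ^ (1 - γ))
      (fun k => sA f (exp s) k + sB f (exp s) k) (fun k hk => ?_) fun k hk => ?_).trans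
      ((a0 f hf).2.1 _ ?_)
    · have := exp_le_exp.2 hs.2
      rw [← Fz.rp X0] at this
      calc _ ≤ X ^ (1 + γ) * X ^ (-(2 * γ)) := by gcongr; exact (hS k hk).2.2
        _ = _ := by rw [← rpow_add X0]; congr 1; ring
    · linarith [(k6 _ k (exp_pos s) hk).2.1]
    · have := exp_le_exp.2 hs.1
      rwa [← Fz.rp X0, rpow_neg X0.le, rpow_two, ← one_div] at this
  have i2 := Fz.int_const hi o2 (K := C₀ * Itot f / (c * (ζ / 4) * L) + X ^ (1 - δ / 2))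
    fun s hs => by
      refine (cut s (fun k => Rough (X ^ ζ) k) _ (fun k hk => (hS k hk).1)
        fun k _ => le_rfl).trans ((a1 f hf hE _ ?_ ?_).trans ?_)
      · rw [Fz.rp X0]
        exact exp_le_exp.2 (le_trans (by nlinarith) hs.1)
      · rw [Fz.rp X0]
        exact exp_le_exp.2 hs.2
      · gcongr
        exact hmu _ (exp_pos s)
  rw [e, ← setIntegral_eq_integral_of_forall_compl_eq_zero hz, integral_Icc_eq_integral_Ioc,
    ← intervalIntegral.integral_of_le (o1.trans o2),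
    ← intervalIntegral.integral_add_adjacent_intervals hi.intervalIntegrable
      hi.intervalIntegrable (b := -(2 * γ) * L)]
  have p1 : 0 ≤ X ^ (1 - γ / 5) := by positivity
  have p2 : 0 ≤ X ^ (1 - δ / 2) := by positivity
  have q1 : (-(2 * γ) * L - -2 * L) * X ^ (1 - γ / 5) ≤ X / L := by
    rw [le_div_iff₀ (by linarith)]
    nlinarith [mul_nonneg (mul_nonneg γ0.le (sq_nonneg L)) p1]
  have q2 : (η / 2 * L - -(2 * γ) * L) * X ^ (1 - δ / 2) ≤ X / L := by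
    rw [le_div_iff₀ (by linarith)]
    nlinarith [mul_nonneg (mul_nonneg (by linarith : 0 ≤ 1 - η / 2 - 2 * γ) (sq_nonneg L)) p2]
  have q3 : (η / 2 * L - -(2 * γ) * L) * (C₀ * Itot f / (c * (ζ / 4) * L)) ≤
      12 * C₀ / (c * ζ) * γ * Itot f := by
    calc _ ≤ 3 * γ * L * (C₀ * Itot f / (c * (ζ / 4) * L)) := by gcongr; nlinarith
      _ = _ := by field_simp; ring
  rw [mul_add] at i2
  linarith

end Edge

open Edge in
/-- The mean of the number of rough divisors near `X`. -/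
theorem edge_le (hr : RhoStmt) (hRS : RSStmt) (hM : MertStmt) (h1 : I1Stmt) (h2 : I2Stmt)
    (h3 : I3Stmt) (h0 : T0Stmt) {ζ C₀ : ℝ} (ζ0 : 0 < ζ) (hC : 0 < C₀) :
    ∃ K : ℝ, 0 < K ∧ ∀ γ : ℝ, 0 < γ → γ ≤ 1 / 8 → ∀ (A : ℕ) (η δ c : ℝ), 0 < η → η ≤ γ →
      0 < δ → 0 < c → ∀ᶠ X : ℝ in atTop, ∀ f : ℝ → ℝ, Good X A η δ c C₀ f →
        EE X f (edge X ζ γ) ≤ K * γ * (Itot f / 2) := by
  obtain ⟨c', hc', hRS⟩ := hRS
  obtain ⟨Cw, hw, hW⟩ := RW.rw hr hM ζ0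
  have z0 : 0 < min ζ (1 / 4) := lt_min ζ0 (by norm_num)
  refine ⟨Cw + 24 * C₀ / (c' * min ζ (1 / 4)) + 1, by positivity,
    fun γ γ0 γ1 A η δ c η0 η1 δ0 c0 => ?_⟩
  filter_upwards [high hr hc' hRS h2 h3 h0 A η0 η1 γ1 δ0 z0 (min_le_right _ _) hC,
    gt1 hr h1 h2 h3 h0 A (η / 4) (by linarith) (by linarith), hW γ γ0 (by linarith),
    eventually_ge_atTop (3 : ℝ), Fz.small 1 1 (show 0 < η / 4 / 12 by linarith),
    tendsto_log_atTop.eventually_ge_atTop (6 / (γ * c))] with X a1 a2 a3 hX b1 b2 f hf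
  have X0 : 0 < X := by linarith
  have X1 : 1 < X := by linarith
  have L1 := Glb.one_le_log hX
  have I0 := Fz.Itot_nonneg hf.adm
  obtain ⟨S, hS⟩ : ∃ S, S = {k ∈ (Icc 1 ⌊X ^ (1 + γ)⌋₊ : Finset ℕ) | Squarefree k ∧
    Rough (X ^ ζ) k ∧ X ^ (1 - γ) ≤ k ∧ (k : ℝ) ≤ X ^ (1 + γ)} := ⟨_, rfl⟩
  have e : EE X f (edge X ζ γ) = ∑ k ∈ S, AA X f k := by
    have := Ex.ee_eq X f ⌊X ^ (1 + γ)⌋₊ (fun k : ℕ => if Squarefree k ∧ Rough (X ^ ζ) k ∧
      X ^ (1 - γ) ≤ k ∧ (k : ℝ) ≤ X ^ (1 + γ) then 1 else 0) fun k _ h => by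
        by_contra c
        exact h (if_neg fun d => c (Nat.le_floor d.2.2.2))
    rw [hS, sum_filter]
    simp only [ite_mul, one_mul, zero_mul] at this
    rw [← this]
    congr 1
    funext n
    rw [edge, card_filter]
    push_cast
    rfl
  have mS : ∀ k ∈ S, 1 ≤ k ∧ Squarefree k ∧ Rough (X ^ ζ) k ∧ X ^ (1 - γ) ≤ k ∧
      (k : ℝ) ≤ X ^ (1 + γ) := fun k hk => by
    rw [hS, mem_filter, mem_Icc] at hk
    exact ⟨hk.1.1, hk.2⟩
  have c1 := a1 f hf.adm hf.e1 hf.mu (S.filter fun k : ℕ => ¬ (k : ℝ) ≤ X ^ (1 - η / 4)) fun k hk => by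
    obtain ⟨d1, d2⟩ := mem_filter.1 hk
    exact ⟨fun p hp h => (rpow_le_rpow_of_exponent_le X1.le (min_le_left _ _)).trans
      ((mS k d1).2.2.1 p hp h), (not_le.1 d2).le, (mS k d1).2.2.2.2⟩
  have c2 := a3 (1 - γ) (S.filter fun k : ℕ => (k : ℝ) ≤ X ^ (1 - η / 4)) (by linarith) (by linarith)
    fun k hk => by
      obtain ⟨d1, d2⟩ := mem_filter.1 hk
      exact ⟨(mS k d1).2.1, (mS k d1).2.2.1, (mS k d1).2.2.2.1,
        d2.trans (rpow_le_rpow_of_exponent_le X1.le (by linarith))⟩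
  have c3 : ∑ k ∈ S with ((k : ℕ) : ℝ) ≤ X ^ (1 - η / 4), AA X f k ≤
      Cw * γ * (Itot f / 2) + X ^ (1 - η / 4 / 12) := by
    refine le_trans ?_ (add_le_add (mul_le_mul_of_nonneg_right c2 (by positivity)) (le_trans
      (sum_le_sum_of_subset_of_nonneg (s := S.filter fun k : ℕ => (k : ℝ) ≤ X ^ (1 - η / 4))
        (fun k hk => mem_Icc.2 ⟨(mS k (mem_filter.1 hk).1).1, Nat.le_floor (mem_filter.1 hk).2⟩)
        fun _ _ _ => abs_nonneg _) (a2 f hf.adm)))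
    rw [sum_mul, ← sum_add_distrib]
    refine sum_le_sum fun k _ => ?_
    have : BB f k ≤ rho k / k * (Itot f / 2) := by
      unfold BB
      split_ifs
      · exact le_of_eq (by ring)
      · positivity
    linarith [le_abs_self (AA X f k - BB f k)]
  have c4 : X ^ (1 - η / 4 / 12) ≤ X / log X := by
    rw [le_div_iff₀ (by linarith)]
    linarith
  have c5 : 3 * (X / log X) ≤ γ * (Itot f / 2) := by
    rw [div_le_iff₀ (by positivity)] at b2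
    rw [← mul_div_assoc, div_le_iff₀ (by linarith)]
    nlinarith [mul_le_mul_of_nonneg_left hf.low (mul_nonneg γ0.le (by linarith : 0 ≤ log X))]
  rw [e, ← sum_filter_add_sum_filter_not S fun k : ℕ => (k : ℝ) ≤ X ^ (1 - η / 4)]
  have c6 : 12 * C₀ / (c' * min ζ (1 / 4)) * γ * Itot f =
      24 * C₀ / (c' * min ζ (1 / 4)) * γ * (Itot f / 2) := by ring
  nlinarith

theorem EE_add (X : ℝ) (f : ℝ → ℝ) (T T' : ℕ → ℝ) (a : ℝ) :
    EE X f (fun n => T n + a * T' n) = EE X f T + a * EE X f T' := by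
  unfold EE
  rw [mul_sum, ← sum_add_distrib]
  exact sum_congr rfl fun l _ => by ring

theorem edgeS (hr : RhoStmt) (hRS : RSStmt) (hM : MertStmt) (h1 : I1Stmt) (h2 : I2Stmt)
    (h3 : I3Stmt) (h0 : T0Stmt) (hRow : RowStmt) : EdgeStmt := by
  intro ζ C v T ζ0 H C₀ τ hC hτ
  obtain ⟨K, K0, hK⟩ := edge_le hr hRS hM h1 h2 h3 h0 ζ0 hC
  have D0 : 0 < 2 * K * (|C| + 1) := by positivity
  obtain ⟨γ, γ0, γ1, γ2⟩ : ∃ γ : ℝ, 0 < γ ∧ γ ≤ 1 / 8 ∧ γ * (2 * K * (|C| + 1)) ≤ τ :=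
    ⟨min (1 / 8) (τ / (2 * K * (|C| + 1))), by positivity, min_le_left _ _,
      (le_div_iff₀ D0).1 (min_le_right _ _)⟩
  obtain ⟨T', r1, r2⟩ := H γ γ0
  obtain ⟨η₀, e0, r3⟩ := hRow.2.2.2.2.1 T' (fun X n => T X n + |C| * edge X ζ γ n) v v r1 le_rfl
    (r2.mono fun X h n a b => (h n a b).trans (by
      have : 0 ≤ edge X ζ γ n := Nat.cast_nonneg _
      gcongr
      exact le_abs_self C)) C₀ (τ / 2) hC (half_pos hτ)
  refine ⟨min η₀ γ, lt_min e0 γ0, fun A η δ c η0 η1 δ0 c0 => ?_⟩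
  filter_upwards [r3 A η δ c η0 (η1.trans (min_le_left _ _)) δ0 c0,
    hK γ γ0 γ1 A η δ c η0 (η1.trans (min_le_right _ _)) δ0 c0] with X a1 a2 f hf
  have b1 := a1 f hf
  have b2 := mul_le_mul_of_nonneg_left (a2 f hf) (abs_nonneg C)
  have I0 := Fz.Itot_nonneg hf.adm
  rw [EE_add] at b1
  have b3 : |C| * (K * γ) ≤ τ / 2 := by nlinarith [mul_pos K0 γ0]
  nlinarith [mul_le_mul_of_nonneg_right b3 (by positivity : 0 ≤ Itot f / 2)]

end Pool.Agent.Lib.MP_4b1228_nt.PP
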