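import Pool.Agent.Lib.MP_4b1228_nt.PP.FinB

/-!
Method of Chebyshev and Hooley: assembly.
-/

open Finset Real Filter UpperHalfPlane MeasureTheory Topology
open scoped MatrixGroups Classical

noncomputable section

namespace Pool.Agent.Lib.MP_4b1228_nt.PP

namespace Fz

/-- The total contribution of the primes between `X ^ (1 - η / 4)` and `X ^ ϖ`. -/
theorem intg (hI2 : I2Stmt) (hI3 : I3Stmt) (hT1 : T1Stmt) (hT0 : T0Stmt) (hSel : SelStmt)
    {c : ℝ} (hc : 0 < c) (hRS : RS c) {C₀ : ℝ} (hC₀ : 0 < C₀) {ϖ : ℝ} (hϖ : 5 / 4 ≤ ϖ)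
    (hϖ' : ϖ ≤ 7 / 5) {m : ℕ} {β V : ℕ → ℝ} {η δ : ℝ} (A : ℕ) (h0 : 0 < η) (h1 : η ≤ 1 / 20)
    (hδ : 0 < δ) (hβ0 : 1 + η ≤ β 0) (hβ : ∀ i < m, β i ≤ β (i + 1)) (hβ0m : β 0 ≤ β m)
    (hβm : β m ≤ 5 / 4)
    (hcell : ∀ i ∈ range m, ∀ᶠ X : ℝ in atTop, ∀ f : ℝ → ℝ, Adm X (log X ^ A) f → E1 X η δ f →
      E2 X η δ f → ∀ P : Finset ℕ, (∀ p ∈ P, p.Prime) →
      ∫ s in Set.Icc ((1 - β (i + 1)) * log X) ((1 - β i) * log X), gP f P s ≤
        V i * log X * Itot f / 2 + X) :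
    ∀ᶠ X : ℝ in atTop, ∀ f : ℝ → ℝ, Adm X (log X ^ A) f → E1 X η δ f → E2 X η δ f →
      (∀ Y : ℝ, 0 < Y → mu X f Y ≤ C₀ * Itot f) →
      ∫ s, gP f (PR (X ^ (1 - η / 4)) (X ^ ϖ)) s ≤
        (∑ i ∈ range m, V i + (2 * ((β 0 + η) ^ 2 - 1) + 2 * ((ϖ + 2 * η) ^ 2 - β m ^ 2)) /
          (1 - 4 * η) + 48 * η * C₀ / c) * log X * Itot f / 2 + (m + 6) * X := by
  filter_upwards [(eventually_all_finset _).2 hcell, selA (C₀ := C₀) hSel hc hRS A h0 h1 hδ,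
    selB hSel hT1 hc hRS A h0 h1 hδ, tail hI2 hT0 A (ϖ := ϖ) h0 (by linarith) (by linarith),
    big 2 (show 1 - η / 2 < 1 - η / 4 by linarith), eventually_ge_atTop (3 : ℝ),
    (tendsto_log_atTop.const_mul_atTop h0).eventually_ge_atTop (log 2)]
    with X Hc HA HB HT hb h3 hl2 f hf hE1 hE2 hmu
  have hX : 0 < X := by linarith
  have hl : 1 ≤ log X := by
    rw [le_log_iff_exp_le hX]; linarith [exp_one_lt_d9]
  have hI := Itot_nonneg hf
  set P := PR (X ^ (1 - η / 4)) (X ^ ϖ) with hP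
  have hP1 : ∀ p ∈ P, p.Prime ∧ X ^ (1 - η / 4) < p := fun p hp => (mem_filter.1 hp).2
  have hP2 : ∀ p ∈ P, p.Prime ∧ X ^ (1 / 4 : ℝ) < p := fun p hp => ⟨(hP1 p hp).1,
    lt_of_le_of_lt (rpow_le_rpow_of_exponent_le (by linarith) (by linarith)) (hP1 p hp).2⟩
  have hg : Integrable (gP f P) := (toInt hI3 h3 hf 0 fun p hp => (hP1 p hp).1.one_le).1
  set L := log X with hL
  set I := Itot f with hId
  have mL : ∀ {a b : ℝ}, a ≤ b → a * L ≤ b * L := fun h =>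
    mul_le_mul_of_nonneg_right h (by linarith)
  have hz : ∫ s, gP f P s = ∫ s in (-2 * L)..(η / 2 * L), gP f P s := by
    rw [intervalIntegral.integral_of_le (mL (by linarith)), ← integral_Icc_eq_integral_Ioc,
      setIntegral_eq_integral_of_forall_compl_eq_zero]
    intro s hs
    refine gP_zero hI2 h3 hf (fun p hp => ⟨(hP1 p hp).1.one_le, ?_⟩) hs
    refine le_trans (le_of_eq ?_) (hb.trans (hP1 p hp).2.le)
    rw [← rp hX, rpow_sub hX, rpow_one, mul_div_assoc]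
  have hadd : ∀ a b d : ℝ, ∫ s in a..d, gP f P s =
      (∫ s in a..b, gP f P s) + ∫ s in b..d, gP f P s := fun a b d =>
    (intervalIntegral.integral_add_adjacent_intervals hg.intervalIntegrable
      hg.intervalIntegrable).symm
  rw [hz, hadd _ ((1 - ϖ - η) * L), hadd ((1 - ϖ - η) * L) ((1 - β m) * L),
    hadd ((1 - β m) * L) ((1 - β 0) * L), hadd ((1 - β 0) * L) (-η * L)]
  have h4 : 0 < 1 - 4 * η := by linarith
  have hsp : ∀ s, s ≤ (1 + η) * L → gP f P s ≤ ((1 + η) * L - s) * Sp X f (exp s) :=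
    fun s hs => gP_sp hI2 h3 hf hl2 hs hP2
  set K := 2 / (1 - 4 * η) * I / L + X / L ^ 2 with hK
  have hB : ∀ a b : ℝ, -η - 2 / 5 ≤ a → a ≤ b → b ≤ -η →
      ∫ s in (a * L)..(b * L), gP f P s ≤
        2 * ((1 + η - a) ^ 2 - (1 + η - b) ^ 2) / (1 - 4 * η) * L * I / 2 + 2 * X := by
    intro a b ha hab hb'
    refine (int_lin hg (c := (1 + η) * L) (K := K) (mL hab) fun s hs => ?_).trans ?_
    · have h5 : s ≤ -η * L := hs.2.trans (mL hb')
      have h6 : s ≤ (1 + η) * L := h5.trans (mL (by linarith))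
      exact (hsp s h6).trans (mul_le_mul_of_nonneg_left
        (HB f hf hE1 s ((mL (by linarith)).trans hs.1) h5) (sub_nonneg.2 h6))
    · have e : (((1 + η) * L - a * L) ^ 2 - ((1 + η) * L - b * L) ^ 2) / 2 * K =
          2 * ((1 + η - a) ^ 2 - (1 + η - b) ^ 2) / (1 - 4 * η) * L * I / 2 +
            ((1 + η - a) ^ 2 - (1 + η - b) ^ 2) / 2 * X := by
        rw [hK]; field_simp
      rw [e]
      have h6 : ((1 + η - a) ^ 2 - (1 + η - b) ^ 2) / 2 ≤ 2 := by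
        have : (1 + η - a) ^ 2 ≤ 2 ^ 2 := pow_le_pow_left₀ (by linarith) (by linarith) 2
        linarith [sq_nonneg (1 + η - b)]
      linarith [mul_le_mul_of_nonneg_right h6 hX.le]
  have p0 : ∫ s in (-2 * L)..((1 - ϖ - η) * L), gP f P s ≤ X := by
    refine (int_const hg (K := X / (2 * L)) (mL (by linarith))
      fun s hs => HT f hf _ s hs.1 hs.2).trans ?_
    calc _ ≤ (2 * L) * (X / (2 * L)) := by
          gcongr; linarith [mL (show 1 - ϖ - η ≤ 0 by linarith)]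
      _ = X := by field_simp
  have p1 := hB (1 - ϖ - η) (1 - β m) (by linarith) (by linarith) (by linarith)
  have p2 : ∫ s in ((1 - β m) * L)..((1 - β 0) * L), gP f P s ≤
      (∑ i ∈ range m, V i) * L * I / 2 + m * X := by
    rw [cells hg (fun i => (1 - β i) * L) m (fun i hi => mL (by linarith [hβ i hi]))]
    refine (sum_le_sum fun i hi => Hc i hi f hf hE1 hE2 P fun p hp => (hP1 p hp).1).trans
      (le_of_eq ?_)
    rw [sum_add_distrib, sum_mul, sum_mul, sum_div, hId]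
    simp
  have p3 := hB (1 - β 0) (-η) (by linarith) (by linarith) le_rfl
  have p4 : ∫ s in (-η * L)..(η / 2 * L), gP f P s ≤ 48 * η * C₀ / c * L * I / 2 + X := by
    refine (int_const hg (K := 2 * L * (8 * C₀ / c * I / L + X / L ^ 2)) (mL (by linarith))
      fun s hs => ?_).trans ?_
    · have h6 : s ≤ (1 + η) * L := hs.2.trans (mL (by linarith))
      refine (hsp s h6).trans ?_
      have h5 := HA f hf hE1 hmu hC₀.le s ((mL (by linarith)).trans hs.1) hs.2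
      calc _ ≤ ((1 + η) * L - s) * (8 * C₀ / c * I / L + X / L ^ 2) :=
            mul_le_mul_of_nonneg_left h5 (sub_nonneg.2 h6)
        _ ≤ _ := mul_le_mul_of_nonneg_right
            (by linarith [hs.1, mL (show 1 + 2 * η ≤ 2 by linarith)]) (by positivity)
    · have e : (η / 2 * L - -η * L) * (2 * L * (8 * C₀ / c * I / L + X / L ^ 2)) =
          48 * η * C₀ / c * L * I / 2 + 3 * η * X := by
        field_simp; ring
      rw [e]; linarith [mul_le_mul_of_nonneg_right (show 3 * η ≤ 1 by linarith) hX.le]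
  have h7 : 2 * ((1 + η - (1 - ϖ - η)) ^ 2 - (1 + η - (1 - β m)) ^ 2) / (1 - 4 * η) * L * I / 2 ≤
      2 * ((ϖ + 2 * η) ^ 2 - β m ^ 2) / (1 - 4 * η) * L * I / 2 := by
    have : (1 + η - (1 - ϖ - η)) ^ 2 - (1 + η - (1 - β m)) ^ 2 ≤ (ϖ + 2 * η) ^ 2 - β m ^ 2 := by
      linarith [mul_nonneg h0.le (show 0 ≤ β m by linarith), sq_nonneg η]
    gcongr
  have h8 : 2 * ((1 + η - (1 - β 0)) ^ 2 - (1 + η - -η) ^ 2) / (1 - 4 * η) * L * I / 2 ≤
      2 * ((β 0 + η) ^ 2 - 1) / (1 - 4 * η) * L * I / 2 := by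
    have : (1 + η - (1 - β 0)) ^ 2 - (1 + η - -η) ^ 2 ≤ (β 0 + η) ^ 2 - 1 := by
      linarith [sq_nonneg η]
    gcongr
  have e : (∑ i ∈ range m, V i + (2 * ((β 0 + η) ^ 2 - 1) + 2 * ((ϖ + 2 * η) ^ 2 - β m ^ 2)) /
      (1 - 4 * η) + 48 * η * C₀ / c) * L * I / 2 + (m + 6) * X =
      (∑ i ∈ range m, V i) * L * I / 2 + 2 * ((β 0 + η) ^ 2 - 1) / (1 - 4 * η) * L * I / 2 +
      2 * ((ϖ + 2 * η) ^ 2 - β m ^ 2) / (1 - 4 * η) * L * I / 2 + 48 * η * C₀ / c * L * I / 2 +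
      (m * X + 6 * X) := by ring
  rw [e]
  linarith

/-- Outside the exceptional sets, all prime factors of `l ^ 2 + 1` are at most `X ^ ϖ`. -/
theorem fac {ϖ : ℝ} (hϖ : 0 ≤ ϖ) (h : ¬ MainStmt ϖ) : ∃ M : ℝ, ∀ (X : ℝ) (l : ℤ), (2 : ℤ) ∣ l →
    M ≤ |(l : ℝ)| → |(l : ℝ)| ≤ X → ¬ (l.natAbs / 2).Prime →
    ∀ p : ℕ, p.Prime → (p : ℤ) ∣ l ^ 2 + 1 → (p : ℝ) ≤ X ^ ϖ := by
  obtain ⟨M, hM⟩ := (Set.not_infinite.1 h).bddAbove
  refine ⟨M + 4, fun X l h2 hl hX hp p hp1 hp2 => ?_⟩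
  have e : |(l : ℝ)| = (l.natAbs : ℝ) := by rw [Nat.cast_natAbs, Int.cast_abs]
  rw [e] at hl hX
  have hl' : M + 4 ≤ l.natAbs := by exact_mod_cast hl
  by_contra hlt
  have h3 : l.natAbs = 2 * (l.natAbs / 2) := by omega
  obtain ⟨q, hq, n, hn⟩ := Nat.exists_prime_and_dvd (show l.natAbs / 2 ≠ 1 by omega)
  have h4 : 1 < n := by
    rcases n with _ | _ | n
    · omega
    · rw [zero_add, mul_one] at hn
      exact absurd (hn ▸ hq) hp
    · omega
  have h5 : l.natAbs ≤ M := hM ⟨⟨q, n, hq, h4, by rw [mul_assoc, ← hn, ← h3]⟩, p, hp1, ?_, ?_⟩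
  · omega
  · have : ((l.natAbs ^ 2 + 1 : ℕ) : ℤ) = l ^ 2 + 1 := by push_cast; rw [sq_abs]
    rw [← this] at hp2
    exact_mod_cast hp2
  · exact lt_of_le_of_lt (rpow_le_rpow (Nat.cast_nonneg _) hX hϖ) (not_le.1 hlt)

end Fz

open Fz in
theorem final (hRho : RhoStmt) (hPP : PPStmt) (hRS : RSStmt) (hM : MertStmt) (hI2 : I2Stmt)
    (hI3 : I3Stmt) (hPack : PackStmt) (hT1 : T1Stmt) (hT0 : T0Stmt) (hSel : SelStmt)
    (hCell : CellStmt) : FinalStmt := by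
  rintro ϖ hϖ hϖ' ⟨m, β, v, ε, hε, hβ0, hβ, hβm, hcell, hsum⟩
  by_contra hne
  obtain ⟨M, hfac⟩ := fac (by linarith) hne
  obtain ⟨c, hc, hRS⟩ := hRS
  obtain ⟨C₀, hC₀, hPack⟩ := hPack
  have hmono : ∀ i ≤ m, β 0 ≤ β i := by
    intro i hi
    induction i with
    | zero => exact le_rfl
    | succ i ih => exact (ih (by omega)).trans (hβ i (by omega))
  have hpos : ∀ {t : ℝ}, 0 < t → ∀ᶠ η : ℝ in 𝓝[>] 0, η ≤ t := fun ht =>
    eventually_nhdsWithin_of_eventually_nhds (eventually_le_nhds ht)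
  have hc1 : ∀ i ∈ range m, ∀ᶠ η : ℝ in 𝓝[>] 0, 0 < η → ∀ (A : ℕ) (δ : ℝ), 0 < δ →
      ∀ᶠ X : ℝ in atTop, ∀ f : ℝ → ℝ, Adm X (log X ^ A) f → E1 X η δ f →
      E2 X η δ f → ∀ P : Finset ℕ, (∀ p ∈ P, p.Prime) →
      ∫ s in Set.Icc ((1 - β (i + 1)) * log X) ((1 - β i) * log X), gP f P s ≤
        (β (i + 1) + ε) * v i * log X * Itot f / 2 + X := by
    intro i hi
    have hi' := mem_range.1 hi
    have h1 := hcell i hi'
    have h2 : β (i + 1) + ε ≤ 4 / 3 := by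
      obtain ⟨B, wl, wh, d₂, a, b, d, -⟩ := h1
      linarith
    obtain ⟨η₀, hη₀, H⟩ := hCell _ _ _ ε hε (by linarith [hmono i hi'.le])
      (by linarith [hβ i hi']) h2 h1
    filter_upwards [hpos hη₀] with η hη h0 A δ hδ
    have := H A η δ h0 hη hδ
    rw [show 1 - (β (i + 1) + ε) + ε = 1 - β (i + 1) by ring,
      show 1 - (β i - ε) - ε = 1 - β i by ring] at this
    exact this
  set G : ℝ → ℝ := fun η => (1 + η) + 3 * η + η / 4 + (∑ i ∈ range m, (β (i + 1) + ε) * v i +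
    (2 * ((β 0 + η) ^ 2 - 1) + 2 * ((ϖ + 2 * η) ^ 2 - β m ^ 2)) / (1 - 4 * η) +
    48 * η * C₀ / c) with hG
  have hc2 : ∀ᶠ η : ℝ in 𝓝[>] 0, G η < 2 := by
    refine eventually_nhdsWithin_of_eventually_nhds (ContinuousAt.eventually_lt ?_
      continuousAt_const ?_)
    · rw [hG]
      fun_prop (disch := norm_num)
    · rw [hG]
      norm_num
      linarith
  obtain ⟨η, ⟨⟨⟨H1, H2⟩, H3⟩, H4⟩, h0⟩ := (((((eventually_all_finset _).2 hc1).and hc2).and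
    (hpos hε)).and (hpos (show (0 : ℝ) < 1 / 20 by norm_num)) |>.and self_mem_nhdsWithin).exists
  replace h0 : 0 < η := h0
  obtain ⟨A, δ, c', hδ, hc', hP⟩ := hPack η h0
  have hθ : 0 < η / 8 := by linarith
  obtain ⟨C, hC, HW⟩ := id hI3
  refine (eventually_atTop.1 ?_ : ∃ a : ℝ, ∀ b, a ≤ b → False).elim fun a ha => ha a le_rfl
  filter_upwards [hP, low hI3 A hθ (by linarith), sm hRho hM hI3 A hθ (by linarith) h0 (by linarith),
    pp hPP hI3 A hθ (by linarith), pr hPP hI3 A hθ (by linarith) h0,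
    intg hI2 hI3 hT1 hT0 hSel hc hRS hC₀ hϖ hϖ' A h0 H4 hδ (by linarith) hβ (hmono m le_rfl) hβm
      (fun i hi => H1 i hi h0 A δ hδ),
    eventually_ge_atTop (3 : ℝ),
    (tendsto_rpow_atTop (show 0 < 1 - η / 8 by linarith)).eventually_ge_atTop M,
    (tendsto_log_atTop.const_mul_atTop (mul_pos (sub_pos.2 H2) hc')).eventually_gt_atTop
      (2 * (m + 10))] with X ⟨f, hf, hE1, hE2, hI, hmu⟩ q1 q2 q3 q4 q5 h3 hM' hL
  replace q1 := q1 f hf
  replace q2 := q2 f hf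
  replace q3 := q3 f hf
  replace q4 := q4 f hf
  replace q5 := q5 f hf hE1 hE2 hmu
  have hX : 0 < X := by linarith
  have hl : 0 ≤ log X := log_nonneg (by linarith)
  obtain ⟨hW, -⟩ := HW X _ f h3 hf
  have q6 := (toInt hI3 h3 hf (X ^ (1 - η / 8)) (P := PR (X ^ (1 - η / 4)) (X ^ ϖ))
    fun p hp => (mem_filter.1 hp).2.1.one_le).2
  rw [show 1 - 2 * (η / 8) = 1 - η / 4 by ring] at q2
  rw [sum_filter, mul_sum] at q3 q4
  have q7 : ∑ l ∈ LL X (X ^ (1 - η / 8)), WW f l * log ((l : ℝ) ^ 2 + 1) ≤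
      ∑ l ∈ LL X (X ^ (1 - η / 8)), (WW f l *
        ∑ k ∈ (Icc 1 ⌊X ^ (1 - η / 4)⌋₊ : Finset ℕ) with ((k : ℕ) : ℤ) ∣ l ^ 2 + 1,
          ArithmeticFunction.vonMangoldt k +
        WW f l * ∑ p ∈ PR (X ^ (1 - η / 4)) (X ^ ϖ) with ((p : ℕ) : ℤ) ∣ l ^ 2 + 1, log p +
        (3 * log X * if Bad X l then WW f l else 0) +
        (3 * log X * if (l.natAbs / 2).Prime then WW f l else 0)) := by
    refine sum_le_sum fun l hl' => ?_
    obtain ⟨-, hl2, hl3⟩ := mem_filter.1 hl'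
    have w0 := (hW l).1
    have a1 : 0 ≤ WW f l * ∑ k ∈ (Icc 1 ⌊X ^ (1 - η / 4)⌋₊ : Finset ℕ) with
        ((k : ℕ) : ℤ) ∣ l ^ 2 + 1, ArithmeticFunction.vonMangoldt k :=
      mul_nonneg w0 (sum_nonneg fun _ _ => ArithmeticFunction.vonMangoldt_nonneg)
    have a2 : 0 ≤ WW f l * ∑ p ∈ PR (X ^ (1 - η / 4)) (X ^ ϖ) with ((p : ℕ) : ℤ) ∣ l ^ 2 + 1,
        log p := mul_nonneg w0 (sum_nonneg fun p _ => log_natCast_nonneg p)
    have a3 : 0 ≤ 3 * log X * WW f l := by positivity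
    by_cases hX' : |(l : ℝ)| ≤ X
    swap
    · rw [(hW l).2.2 (not_le.1 hX')]
      simp
    have a4 : WW f l * log ((l : ℝ) ^ 2 + 1) ≤ 3 * log X * WW f l := by
      rw [mul_comm]
      refine mul_le_mul_of_nonneg_right ?_ w0
      have b1 : (l : ℝ) ^ 2 ≤ X ^ 2 := by rw [← sq_abs]; gcongr
      have b2 := log_le_log (by positivity) (show (l : ℝ) ^ 2 + 1 ≤ X ^ 3 by
        have b3 : 3 ^ 2 ≤ X ^ 2 := by gcongr
        linarith [mul_le_mul_of_nonneg_right h3 (sq_nonneg X)])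
      rw [log_pow] at b2
      exact_mod_cast b2
    split_ifs with c1 c2 c2
    · linarith
    · linarith
    · linarith
    · have := mul_le_mul_of_nonneg_left (dec (a := X ^ (1 - η / 4))
        (rpow_le_rpow_of_exponent_le (by linarith) (by linarith)) (by positivity) c1
        (hfac X l hl2 (hM'.trans hl3) hX' c2)) w0
      linarith
  rw [sum_add_distrib, sum_add_distrib, sum_add_distrib] at q7
  have q8 : (2 - G η) * log X * Itot f ≤ 2 * (m + 10) * X := by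
    rw [hG]
    simp only
    linarith
  have q9 : (2 - G η) * log X * (c' * X) ≤ (2 - G η) * log X * Itot f :=
    mul_le_mul_of_nonneg_left hI (mul_nonneg (sub_pos.2 H2).le hl)
  linarith [mul_lt_mul_of_pos_right hL hX]

end Pool.Agent.Lib.MP_4b1228_nt.PP
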