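import Pool.Agent.Lib.MP_4b1228_nt.PP.St2
import Pool.Agent.Lib.MP_4b1228_nt.PP.Final

/-!
A global certificate implies the theorem.
-/

open Finset Real Filter MeasureTheory
open scoped Classical

noncomputable section

namespace Pool.Agent.Lib.MP_4b1228_nt.PP

namespace Fz

theorem ww_supp (hG : GeoStmt) {X Λ : ℝ} {f : ℝ → ℝ} (hX : 0 < X) (hf : Adm X Λ f) {t : ℝ}
    (ht : X ^ 2 < t ^ 2 + 1) : WW f t = 0 := by
  unfold WW
  refine integral_eq_zero_of_ae (Eventually.of_forall fun s => hf.supp _ ?_)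
  obtain ⟨h0, h1, -⟩ := hG.1 t 1 (exp s) one_pos (exp_pos s)
  by_contra hle
  have h2 : exp (hd t 1 (exp s)) ≤ X := (le_log_iff_exp_le hX).1 (not_lt.1 hle)
  have h3 : exp (-hd t 1 (exp s)) ≤ exp (hd t 1 (exp s)) := exp_le_exp.2 (by linarith)
  have h4 : X < cosh (hd t 1 (exp s)) := by
    rw [h1, lt_div_iff₀ (by positivity)]
    nlinarith [sq_nonneg (X - exp s)]
  rw [cosh_eq] at h4
  linarith

/-- The small values of `l` have negligible weight. -/
theorem sml (hI3 : I3Stmt) (A : ℕ) {θ : ℝ} (h0 : 0 < θ) (h1 : θ ≤ 1 / 2) :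
    ∀ᶠ X : ℝ in atTop, ∀ f : ℝ → ℝ, Adm X (log X ^ A) f →
      log X * ∑ l ∈ (Icc (-⌈X⌉) ⌈X⌉ : Finset ℤ) with (2 : ℤ) ∣ l ∧ ¬ X ^ (1 - θ) ≤ |(l : ℝ)|,
        WW f l ≤ X := by
  obtain ⟨C, hC, H⟩ := hI3
  filter_upwards [small (3 * C) (A + 3) (half_pos h0), eventually_ge_atTop (3 : ℝ),
    (tendsto_rpow_atTop (show 0 < 1 - θ by linarith)).eventually_ge_atTop 2] with X hs h3 h2 f hf
  have hX : 0 < X := by linarith
  have hl : 1 ≤ log X := by
    rw [le_log_iff_exp_le hX]; linarith [exp_one_lt_d9]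
  obtain ⟨hW, -, h5, h4⟩ := H X _ f h3 hf
  have hle : X ^ (1 - θ) ≤ X := by
    calc X ^ (1 - θ) ≤ X ^ (1 : ℝ) := rpow_le_rpow_of_exponent_le (by linarith) (by linarith)
      _ = X := rpow_one X
  have h6 := h4 _ h2 hle
  rw [sqrt_mul' hX] at h6
  have h7 := h5 2 2 0 (by norm_num) (by norm_num) (by linarith)
  simp only [sub_zero, Nat.cast_ofNat] at h7
  have h8 := (hW 0).2.1
  set E := C * log X ^ A * log X ^ 2 * X ^ (1 - θ / 2) with hE
  have hs1 : √X ≤ X ^ (1 - θ / 2) := by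
    rw [sqrt_eq_rpow]
    exact rpow_le_rpow_of_exponent_le (by linarith) (by linarith)
  have h9 : C * log X ^ A * log X ^ 2 * √(X / 2) ≤ E := by
    rw [hE]
    gcongr
    exact (sqrt_le_sqrt (by linarith)).trans hs1
  have h10 : WW f 0 ≤ E := by
    refine h8.trans ?_
    rw [hE]
    norm_num
    gcongr
    nlinarith
  have h11 : ∑ l ∈ (Icc (-⌈X⌉) ⌈X⌉ : Finset ℤ) with (2 : ℤ) ∣ l ∧ ¬ X ^ (1 - θ) ≤ |(l : ℝ)|,
      WW f l + ∑ l ∈ (Icc (-⌈X⌉) ⌈X⌉ : Finset ℤ) with (2 : ℤ) ∣ l ∧ X ^ (1 - θ) ≤ |(l : ℝ)|,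
      WW f l ≤ ∑ l ∈ (Icc (-⌈X⌉) ⌈X⌉ : Finset ℤ) with (2 : ℤ) ∣ l ∧ 2 ≤ |(l : ℝ)|, WW f l +
        WW f 0 := by
    rw [← sum_union (disjoint_filter.2 fun l _ a b => a.2 b.2)]
    have e : WW f 0 = ∑ l ∈ ({0} : Finset ℤ), WW f l := by simp
    rw [e, ← sum_union (by
      rw [disjoint_singleton_right, mem_filter]; norm_num)]
    refine sum_le_sum_of_subset_of_nonneg (fun l hl' => ?_) fun l _ _ => (hW l).1
    have h12 : l ∈ (Icc (-⌈X⌉) ⌈X⌉ : Finset ℤ) ∧ (2 : ℤ) ∣ l := by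
      rcases mem_union.1 hl' with a | a <;> exact ⟨(mem_filter.1 a).1, (mem_filter.1 a).2.1⟩
    by_cases hz : l = 0
    · exact mem_union_right _ (mem_singleton.2 hz)
    · refine mem_union_left _ (mem_filter.2 ⟨h12.1, h12.2, ?_⟩)
      have : (2 : ℤ) ≤ |l| := Int.le_of_dvd (abs_pos.2 hz) ((dvd_abs _ _).2 h12.2)
      exact_mod_cast this
  calc _ ≤ log X * (3 * E) := by gcongr; linarith
    _ = 3 * C * log X ^ (A + 3) * X ^ (1 - θ / 2) := by rw [hE]; ring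
    _ ≤ X := hs

/-- The mean of the von Mangoldt function over the divisors in a set of small numbers. -/
theorem smS (hRho : RhoStmt) (hI3 : I3Stmt) (A : ℕ) {θ : ℝ} (h0 : 0 < θ) (h1 : θ ≤ 1 / 4) :
    ∀ᶠ X : ℝ in atTop, ∀ f : ℝ → ℝ, Adm X (log X ^ A) f → ∀ (S : Finset ℕ) (B : ℝ),
      S ⊆ Icc 1 ⌊X ^ (1 / 2 : ℝ)⌋₊ → B ≤ 2 * log X →
      ∑ k ∈ S, ArithmeticFunction.vonMangoldt k * (rho k : ℝ) / k ≤ B →
      ∑ l ∈ LL X (X ^ (1 - θ)), WW f l * ∑ k ∈ S with ((k : ℕ) : ℤ) ∣ l ^ 2 + 1,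
          ArithmeticFunction.vonMangoldt k ≤ B * Itot f / 2 + X := by
  obtain ⟨C, hC, H⟩ := hI3
  filter_upwards [small (2 * C) (A + 3) h0, eventually_ge_atTop (3 : ℝ),
    big 2 (show (1 / 2 : ℝ) < 1 - θ by linarith)] with X hs h3 hb f hf S B hS hB hm
  have hX : 0 < X := by linarith
  have hl : 0 ≤ log X := log_nonneg (by linarith)
  have hI := Itot_nonneg hf
  obtain ⟨hW, -, h4, -⟩ := H X _ f h3 hf
  have hle : X ^ (1 - θ) ≤ X := by
    calc X ^ (1 - θ) ≤ X ^ (1 : ℝ) := rpow_le_rpow_of_exponent_le (by linarith) (by linarith)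
      _ = X := rpow_one X
  set P := X ^ (1 / 2 : ℝ) with hP
  have hP0 : 0 < P := by positivity
  set E := C * log X ^ A * log X ^ 2 * X ^ (θ / 2) with hE
  have hE0 : 0 ≤ E := by positivity
  have key : ∀ k ∈ (Icc 1 ⌊P⌋₊ : Finset ℕ),
      ∑ l ∈ LL X (X ^ (1 - θ)) with (k : ℤ) ∣ l ^ 2 + 1, WW f l ≤
        (rho k : ℝ) / k * (Itot f / 2 + P * E) := by
    intro k hk
    obtain ⟨hk1, hk2⟩ := mem_Icc.1 hk
    have hkP : (k : ℝ) ≤ P := (Nat.le_floor_iff hP0.le).1 hk2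
    have hk0 : (0 : ℝ) < k := by exact_mod_cast hk1
    by_cases ho : Odd k
    · have h5 := cls (W := fun l : ℤ => WW f l) (fun l => (hW l).1) (q := 2 * k)
        (fun r => h4 (X ^ (1 - θ)) (2 * k) r (by omega) (by push_cast; linarith) hle)
        (filter_subset (fun l : ℤ => (k : ℤ) ∣ l ^ 2 + 1) (LL X (X ^ (1 - θ))))
        {l ∈ Ico (0 : ℤ) (0 + 2 * k) | Even l ∧ (k : ℤ) ∣ l ^ 2 + 1} (by
          intro l hl'
          obtain ⟨hl1, hl2⟩ := mem_filter.1 hl'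
          have hl3 : (2 : ℤ) ∣ l := (mem_filter.1 hl1).2.1
          have hq : (0 : ℤ) < 2 * k := by omega
          have hd : (2 * k : ℤ) ∣ l - l % (2 * k) := Int.dvd_self_sub_emod
          refine ⟨l % (2 * k), mem_filter.2 ⟨mem_Ico.2 ⟨Int.emod_nonneg _ hq.ne', ?_⟩, ?_, ?_⟩, ?_⟩
          · simpa using Int.emod_lt_of_pos _ hq
          · rw [even_iff_two_dvd]
            have : (2 : ℤ) ∣ l - l % (2 * k) := (Dvd.intro _ rfl).trans hd
            simpa using dvd_sub hl3 this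
          · have h6 : (k : ℤ) ∣ l - l % (2 * k) := (Dvd.intro_left _ rfl).trans hd
            have h7 : (l % (2 * k)) ^ 2 + 1 =
                l ^ 2 + 1 - (l - l % (2 * k)) * (l + l % (2 * k)) := by ring
            rw [h7]
            exact dvd_sub hl2 (h6.mul_right _)
          · exact_mod_cast hd)
      rw [hRho.2.2.2.2.2.2.2.2.1 k 0 ho, sqrt_div hX] at h5
      refine h5.trans ?_
      have e : (rho k : ℝ) / k * (Itot f / 2 + P * E) =
          rho k * (Itot f / ((2 * k : ℕ) : ℝ) + P / k * E) := by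
        push_cast; field_simp
      rw [e]
      have : 1 ≤ P / k := (one_le_div hk0).2 hkP
      rw [← hE]
      gcongr
      exact le_mul_of_one_le_left hE0 this
    · rw [sum_eq_zero]
      · positivity
      · intro l hl'
        exfalso
        obtain ⟨hl1, hl2⟩ := mem_filter.1 hl'
        have hl3 : (2 : ℤ) ∣ l := (mem_filter.1 hl1).2.1
        have h2k : (2 : ℤ) ∣ k := by
          have := (Nat.not_odd_iff_even.1 ho).two_dvd
          exact_mod_cast this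
        have h6 : (2 : ℤ) ∣ l ^ 2 + 1 := h2k.trans hl2
        have h7 : (2 : ℤ) ∣ l ^ 2 := hl3.trans (dvd_pow_self l two_ne_zero)
        omega
  calc _ = ∑ k ∈ S, ArithmeticFunction.vonMangoldt k *
          ∑ l ∈ LL X (X ^ (1 - θ)) with (k : ℤ) ∣ l ^ 2 + 1, WW f l := by
        simp only [sum_filter, mul_sum]
        rw [sum_comm]
        refine sum_congr rfl fun k _ => sum_congr rfl fun l _ => ?_
        split_ifs <;> ring
    _ ≤ ∑ k ∈ S, ArithmeticFunction.vonMangoldt k * (rho k : ℝ) / k *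
          (Itot f / 2 + P * E) := by
        refine sum_le_sum fun k hk => ?_
        have := mul_le_mul_of_nonneg_left (key k (hS hk))
          (ArithmeticFunction.vonMangoldt_nonneg (n := k))
        refine this.trans (le_of_eq ?_)
        ring
    _ ≤ B * (Itot f / 2 + P * E) := by
        rw [← sum_mul]
        exact mul_le_mul_of_nonneg_right hm (by positivity)
    _ ≤ _ := by
        have h5 : P * X ^ (θ / 2) ≤ X ^ (1 - θ) := by
          rw [hP, ← rpow_add hX]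
          exact rpow_le_rpow_of_exponent_le (by linarith) (by linarith)
        have h6 : B * (P * E) ≤ 2 * C * log X ^ (A + 3) * X ^ (1 - θ) := by
          calc B * (P * E) ≤ 2 * log X * (P * E) := by gcongr
            _ = 2 * C * log X ^ (A + 3) * (P * X ^ (θ / 2)) := by rw [hE]; ring
            _ ≤ 2 * C * log X ^ (A + 3) * X ^ (1 - θ) := by gcongr
        linarith

/-- Small numbers and small composite numbers. -/
def SS (X ε : ℝ) : Finset ℕ :=
  {k ∈ (Icc 1 ⌊X ^ (1 / 2 : ℝ)⌋₊ : Finset ℕ) | ((k : ℕ) : ℝ) ≤ X ^ ε ∨ ¬ Nat.Prime k}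

theorem ssum (hRho : RhoStmt) (hM : MertStmt) {ε : ℝ} (hε : 0 < ε) :
    ∀ᶠ X : ℝ in atTop,
      ∑ k ∈ SS X ε, ArithmeticFunction.vonMangoldt k * (rho k : ℝ) / k ≤ 3 * ε * log X := by
  obtain ⟨y₀, hy₀, hy⟩ := hM 1 one_pos
  have hsum := ArithmeticFunction.vonMangoldt.summable_residueClass_non_primes_div (0 : ZMod 1)
  set F : ℕ → ℝ := fun n =>
    (if n.Prime then 0 else ArithmeticFunction.vonMangoldt.residueClass (0 : ZMod 1) n) / n with hF
  have hF' : ∀ n, F n = (if n.Prime then 0 else ArithmeticFunction.vonMangoldt n) / n := by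
    intro n
    simp only [hF, ArithmeticFunction.vonMangoldt.residueClass]
    rw [Set.indicator_of_mem (by simp [Subsingleton.elim _ (0 : ZMod 1)])]
  have hF0 : ∀ n, 0 ≤ F n := fun n => by
    rw [hF']
    refine div_nonneg ?_ (Nat.cast_nonneg n)
    split_ifs
    exacts [le_rfl, ArithmeticFunction.vonMangoldt_nonneg]
  filter_upwards [(tendsto_rpow_atTop hε).eventually_ge_atTop y₀, eventually_gt_atTop (0 : ℝ),
    (tendsto_log_atTop.const_mul_atTop hε).eventually_ge_atTop (2 * ∑' n, F n)] with X h1 hX h2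
  have h3 := (hy _ _ h1 le_rfl).2.2
  rw [log_rpow hX] at h3
  have h0 : ∀ k : ℕ, 0 ≤ ArithmeticFunction.vonMangoldt k * (rho k : ℝ) / k := fun k =>
    div_nonneg (mul_nonneg ArithmeticFunction.vonMangoldt_nonneg (Nat.cast_nonneg _))
      (Nat.cast_nonneg _)
  rw [← sum_filter_add_sum_filter_not _ (fun k : ℕ => (k : ℝ) ≤ X ^ ε)]
  have h4 : ∑ k ∈ SS X ε with ((k : ℕ) : ℝ) ≤ X ^ ε,
      ArithmeticFunction.vonMangoldt k * (rho k : ℝ) / k ≤ (1 + 1) * (ε * log X) := by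
    refine le_trans (sum_le_sum_of_subset_of_nonneg (fun k hk => ?_) fun k _ _ => h0 k) h3
    obtain ⟨a, b⟩ := mem_filter.1 hk
    exact mem_Icc.2 ⟨(mem_Icc.1 (mem_filter.1 a).1).1, (Nat.le_floor_iff (by positivity)).2 b⟩
  have h5 : ∑ k ∈ SS X ε with ¬ ((k : ℕ) : ℝ) ≤ X ^ ε,
      ArithmeticFunction.vonMangoldt k * (rho k : ℝ) / k ≤ 2 * ∑' n, F n := by
    refine le_trans ?_ (mul_le_mul_of_nonneg_left
      (hsum.sum_le_tsum {k ∈ SS X ε | ¬ ((k : ℕ) : ℝ) ≤ X ^ ε} fun n _ => hF0 n) two_pos.le)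
    rw [mul_sum]
    refine sum_le_sum fun k hk => ?_
    obtain ⟨a, b⟩ := mem_filter.1 hk
    have c : ¬ k.Prime := (mem_filter.1 a).2.resolve_left b
    change _ ≤ 2 * F k
    rw [hF', if_neg c, ← mul_div_assoc, mul_comm 2]
    by_cases hz : ArithmeticFunction.vonMangoldt k = 0
    · simp [hz]
    · obtain ⟨p, j, hp, hj, rfl⟩ :=
        (isPrimePow_nat_iff k).1 (ArithmeticFunction.vonMangoldt_ne_zero_iff.1 hz)
      have d : (rho (p ^ j) : ℝ) ≤ 2 := by exact_mod_cast hRho.2.2.1 p j hp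
      have := ArithmeticFunction.vonMangoldt_nonneg (n := p ^ j)
      gcongr
  linarith

theorem dec2 {X ε : ℝ} (hX : 1 ≤ X) (hε : ε ≤ 1 / 2) {l : ℤ} (hl : ¬ Bad X l) :
    log ((l : ℝ) ^ 2 + 1) ≤ ∑ p ∈ RP X ε (l ^ 2 + 1).toNat, log p +
      ∑ k ∈ SS X ε with ((k : ℕ) : ℤ) ∣ l ^ 2 + 1, ArithmeticFunction.vonMangoldt k := by
  obtain ⟨n, hn⟩ := Int.eq_ofNat_of_zero_le (show 0 ≤ l ^ 2 + 1 by positivity)
  have hn' : (l : ℝ) ^ 2 + 1 = n := by exact_mod_cast hn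
  have e : (l ^ 2 + 1).toNat = n := by rw [hn, Int.toNat_natCast]
  rw [hn', e, ← ArithmeticFunction.vonMangoldt_sum,
    ← sum_filter_add_sum_filter_not n.divisors (fun k : ℕ => k.Prime ∧ X ^ ε ≤ k)]
  refine add_le_add ?_ ?_
  · refine (sum_le_sum fun k _ => ArithmeticFunction.vonMangoldt_le_log (n := k)).trans
      (sum_le_sum_of_subset_of_nonneg (fun k hk => ?_) fun k _ _ => log_natCast_nonneg k)
    obtain ⟨h1, h2, h3⟩ := mem_filter.1 hk
    obtain ⟨h4, h5⟩ := Nat.mem_divisors.1 h1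
    exact mem_filter.2 ⟨Nat.mem_primeFactors.2 ⟨h2, h4, h5⟩, h3⟩
  · rw [← sum_filter_ne_zero]
    refine sum_le_sum_of_subset_of_nonneg (fun k hk => ?_)
      fun k _ _ => ArithmeticFunction.vonMangoldt_nonneg
    obtain ⟨hk1, h3⟩ := mem_filter.1 hk
    obtain ⟨h1, h2⟩ := mem_filter.1 hk1
    have hd : (k : ℤ) ∣ l ^ 2 + 1 := by
      rw [hn]
      exact_mod_cast Nat.dvd_of_mem_divisors h1
    have h4 : (k : ℝ) ≤ X ^ ε ∨ ¬ k.Prime := by
      by_cases hp : k.Prime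
      · exact Or.inl (not_le.1 fun h => h2 ⟨hp, h⟩).le
      · exact Or.inr hp
    refine mem_filter.2 ⟨mem_filter.2 ⟨mem_Icc.2 ⟨Nat.pos_of_mem_divisors h1,
      (Nat.le_floor_iff (by positivity)).2 ?_⟩, h4⟩, hd⟩
    rcases h4 with h4 | h4
    · exact h4.trans (rpow_le_rpow_of_exponent_le hX hε)
    · obtain ⟨p, j, hp, hj, rfl⟩ :=
        (isPrimePow_nat_iff k).1 (ArithmeticFunction.vonMangoldt_ne_zero_iff.1 h3)
      by_contra hlt
      refine hl ⟨p, j, hp, ?_, by exact_mod_cast hd, by exact_mod_cast not_le.1 hlt⟩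
      by_contra hj2
      rw [show j = 1 by omega, pow_one] at h4
      exact h4 hp

end Fz

open Fz in
theorem final2 (hRho : RhoStmt) (hPP : PPStmt) (hM : MertStmt) (hG : GeoStmt) (hI3 : I3Stmt)
    (hPack : PackStmt) : Final2Stmt := by
  rintro ϖ hϖ ⟨v, κ, C, hv, hκ, H⟩
  by_contra hne
  obtain ⟨M, hfac⟩ := fac (by linarith) hne
  obtain ⟨C₀, hC₀, hPack⟩ := hPack
  obtain ⟨D, hD0, hCD⟩ : ∃ D : ℝ, 0 < D ∧ C ≤ D := ⟨|C| + 1, by positivity, by
    linarith [le_abs_self C]⟩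
  obtain ⟨ε, hε, hε₀, T, hrow, hT⟩ := H (min (1 / 2) (v / (4 * D * (1 + 6 / κ))))
    (lt_min (by norm_num) (by positivity))
  obtain ⟨hε1, hε2⟩ := le_min_iff.1 hε₀
  rw [le_div_iff₀ (by positivity)] at hε2
  obtain ⟨η, hη, hrow⟩ := hrow C₀ (v / 2) hC₀ (half_pos hv)
  obtain ⟨A, δ, c, hδ, hc, hP⟩ := hPack η hη
  obtain ⟨θ, hθ, hθ1, hθ2⟩ : ∃ θ : ℝ, 0 < θ ∧ θ ≤ 1 / 10 ∧ θ ≤ κ / 4 :=
    ⟨min (1 / 10) (κ / 4), lt_min (by norm_num) (by positivity), min_le_left _ _, min_le_right _ _⟩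
  obtain ⟨C₃, -, HW⟩ := id hI3
  refine (eventually_atTop.1 ?_ : ∃ a : ℝ, ∀ b, a ≤ b → False).elim fun a ha => ha a le_rfl
  filter_upwards [hP, hT, hrow A η δ c hη le_rfl hδ hc, sml hI3 A hθ (by linarith),
    smS hRho hI3 A hθ (by linarith), ssum hRho hM hε, pp hPP hI3 A hθ hθ1,
    pr hPP hI3 A hθ (by linarith) hε, eventually_ge_atTop (3 : ℝ),
    (tendsto_rpow_atTop (show 0 < 1 - θ by linarith)).eventually_ge_atTop M,
    (tendsto_log_atTop.const_mul_atTop (show 0 < v / 8 * c by positivity)).eventually_gt_atTop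
      (D * (2 + 2 / κ))] with X ⟨f, hf, hE1, hE2, hI, hmu⟩ hT q1 q2 q3 q4 q5 q6 h3 hM' hL
  have hX : 0 < X := by linarith
  have hl : 0 < log X := log_pos (by linarith)
  replace q1 := q1 f ⟨hf, hE1, hE2, hI, hmu⟩
  replace q2 := q2 f hf
  replace q3 := q3 f hf (SS X ε) _ (filter_subset _ _) (by nlinarith) q4
  replace q5 := q5 f hf
  replace q6 := q6 f hf
  obtain ⟨hW, -⟩ := HW X _ f h3 hf
  have hI0 := Itot_nonneg hf
  have hn : ∀ l : ℤ, (((l ^ 2 + 1).toNat : ℕ) : ℝ) = (l : ℝ) ^ 2 + 1 := fun l => by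
    have : (((l ^ 2 + 1).toNat : ℕ) : ℤ) = l ^ 2 + 1 := Int.toNat_of_nonneg (by positivity)
    exact_mod_cast this
  have hn1 : ∀ l : ℤ, 1 ≤ (l ^ 2 + 1).toNat := fun l => by
    have : (1 : ℝ) ≤ ((l ^ 2 + 1).toNat : ℕ) := by rw [hn]; nlinarith
    exact_mod_cast this
  have htriv : ∀ l : ℤ, WW f l * T X (l ^ 2 + 1).toNat ≤ D * WW f l := fun l => by
    by_cases h : X ^ 2 < (l : ℝ) ^ 2 + 1
    · simp [ww_supp hG hX hf h]
    · rw [mul_comm]
      exact mul_le_mul_of_nonneg_right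
        ((hT _ (hn1 l) (by rw [hn]; exact not_lt.1 h)).1.trans hCD) (hW l).1
  have e : EE X f (T X) = ∑ l ∈ LL X (X ^ (1 - θ)), WW f l * T X (l ^ 2 + 1).toNat +
      ∑ l ∈ (Icc (-⌈X⌉) ⌈X⌉ : Finset ℤ) with (2 : ℤ) ∣ l ∧ ¬ X ^ (1 - θ) ≤ |(l : ℝ)|,
        WW f l * T X (l ^ 2 + 1).toNat := by
    unfold EE LL
    rw [← filter_filter, ← filter_filter, sum_filter_add_sum_filter_not]
    simp only [even_iff_two_dvd]
  have q7 := sum_le_sum fun l (_ : l ∈ {l ∈ (Icc (-⌈X⌉) ⌈X⌉ : Finset ℤ) |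
    (2 : ℤ) ∣ l ∧ ¬ X ^ (1 - θ) ≤ |(l : ℝ)|}) => htriv l
  rw [← mul_sum] at q7
  rw [sum_filter] at q5 q6
  have q8 : ∑ l ∈ LL X (X ^ (1 - θ)), log X * (WW f l * T X (l ^ 2 + 1).toNat) ≤
      ∑ l ∈ LL X (X ^ (1 - θ)), (D * (2 / κ) * (WW f l *
        ∑ k ∈ SS X ε with ((k : ℕ) : ℤ) ∣ l ^ 2 + 1, ArithmeticFunction.vonMangoldt k) +
        (D * log X * if Bad X l then WW f l else 0) +
        (D * log X * if (l.natAbs / 2).Prime then WW f l else 0)) := by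
    refine sum_le_sum fun l hl' => ?_
    obtain ⟨-, hl2, hl3⟩ := mem_filter.1 hl'
    have w0 := (hW l).1
    have a1 : 0 ≤ D * (2 / κ) * (WW f l * ∑ k ∈ SS X ε with ((k : ℕ) : ℤ) ∣ l ^ 2 + 1,
        ArithmeticFunction.vonMangoldt k) := mul_nonneg (by positivity)
      (mul_nonneg w0 (sum_nonneg fun _ _ => ArithmeticFunction.vonMangoldt_nonneg))
    have a3 : 0 ≤ D * log X * WW f l := by positivity
    have a4 := mul_le_mul_of_nonneg_left (htriv l) hl.le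
    by_cases h : X ^ 2 < (l : ℝ) ^ 2 + 1
    · simp [ww_supp hG hX hf h]
    have hX' : |(l : ℝ)| ≤ X := abs_le_of_sq_le_sq (by linarith [not_lt.1 h]) hX.le
    split_ifs with c1 c2 c2
    · linarith
    · linarith
    · linarith
    by_cases c3 : (2 - κ) * log X ≤ ∑ p ∈ RP X ε (l ^ 2 + 1).toNat, log p
    · have b1 := (hT _ (hn1 l) (by rw [hn]; exact not_lt.1 h)).2 (fun p hp =>
        hfac X l hl2 (hM'.trans hl3) hX' c2 p (Nat.prime_of_mem_primeFactors hp) (by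
          rw [← Int.toNat_of_nonneg (show 0 ≤ l ^ 2 + 1 by positivity)]
          exact_mod_cast Nat.dvd_of_mem_primeFactors hp)) c3
      have b2 := mul_nonpos_of_nonneg_of_nonpos hl.le (mul_nonpos_of_nonneg_of_nonpos w0 b1)
      linarith
    · have b1 := dec2 (by linarith) hε1 c1
      have b2 : (X ^ (1 - θ)) ^ 2 ≤ (l : ℝ) ^ 2 + 1 := by
        have : (X ^ (1 - θ)) ^ 2 ≤ |(l : ℝ)| ^ 2 := by gcongr
        rw [sq_abs] at this; linarith
      have b3 := log_le_log (by positivity) b2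
      rw [log_pow, log_rpow hX] at b3
      push_cast at b3
      have b4 : κ / 2 * log X ≤ ∑ k ∈ SS X ε with ((k : ℕ) : ℤ) ∣ l ^ 2 + 1,
          ArithmeticFunction.vonMangoldt k := by
        linarith [not_le.1 c3, mul_le_mul_of_nonneg_right hθ2 hl.le]
      have b5 := mul_le_mul_of_nonneg_left (mul_le_mul_of_nonneg_left b4 w0)
        (show 0 ≤ D * (2 / κ) by positivity)
      have b6 : D * (2 / κ) * (WW f l * (κ / 2 * log X)) = log X * (D * WW f l) := by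
        field_simp
      linarith
  rw [sum_add_distrib, sum_add_distrib, ← mul_sum, ← mul_sum, ← mul_sum, ← mul_sum] at q8
  rw [e] at q1
  have r1 := mul_le_mul_of_nonneg_left q1 hl.le
  have r2 := mul_le_mul_of_nonneg_left q2 hD0.le
  have r3 := mul_le_mul_of_nonneg_left q3 (show 0 ≤ D * (2 / κ) by positivity)
  have r5 := mul_le_mul_of_nonneg_left q5 hD0.le
  have r6 := mul_le_mul_of_nonneg_left q6 hD0.le
  have r7 := mul_le_mul_of_nonneg_left q7 hl.le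
  have r8 := mul_le_mul_of_nonneg_right hε2 (mul_nonneg hl.le hI0)
  have r9 := mul_le_mul_of_nonneg_left hI (show 0 ≤ v / 8 * log X by positivity)
  have r10 := mul_lt_mul_of_pos_right hL hX
  have r11 : 0 ≤ D * X := by positivity
  have e6 : 6 / κ = 3 * (2 / κ) := by ring
  rw [e6] at r8
  generalize 2 / κ = u at *
  linarith

end Pool.Agent.Lib.MP_4b1228_nt.PP
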