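import Pool.Agent.Lib.MP_4b1228_nt.PP.St2f
import Pool.Agent.Lib.MP_4b1228_nt.PP.RW

/-!
Harman's rows with an arbitrary lower end.
-/

open Finset Real Filter
open scoped Classical

noncomputable section

namespace Pool.Agent.Lib.MP_4b1228_nt.PP

namespace H2

theorem anti_one (a : ℕ → ℝ) {k : ℕ} (hk : k ≠ 0) :
    ∑ x ∈ k.divisorsAntidiagonal, a x.1 * (if x.2 = 1 then (1 : ℝ) else 0) = a k := by
  rw [sum_eq_single (k, 1)]
  · simp
  · intro x hx hne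
    rw [if_neg, mul_zero]
    intro h
    have := (Nat.mem_divisorsAntidiagonal.1 hx).1
    rw [h, mul_one] at this
    exact hne (Prod.ext this h)
  · intro h
    exact absurd (Nat.mem_divisorsAntidiagonal.2 ⟨mul_one k, hk⟩) h

theorem shift (S : Finset ℕ) (h1 : 1 ∈ S) (h0 : 0 ∉ S) (a h : ℕ → ℝ) (m : ℝ) (N : ℕ)
    (hh : h 1 = 1) :
    ∑ k ∈ S with Squarefree k, (∑ j ∈ range (N + 1), ∑ x ∈ k.divisorsAntidiagonal,
      (if j = 0 then a x.1 - (if x.1 = 1 then m else 0) else 0) *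
        (if x.2 = 1 then (1 : ℝ) else 0)) * h k = ∑ k ∈ S with Squarefree k, a k * h k - m := by
  have e : ∀ k ∈ S.filter Squarefree, (∑ j ∈ range (N + 1), ∑ x ∈ k.divisorsAntidiagonal,
      (if j = 0 then a x.1 - (if x.1 = 1 then m else 0) else 0) *
        (if x.2 = 1 then (1 : ℝ) else 0)) * h k = a k * h k - if k = 1 then m else 0 := by
    intro k hk
    have k0 : k ≠ 0 := fun c => h0 (c ▸ (mem_filter.1 hk).1)
    rw [sum_range_succ']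
    simp only [Nat.succ_ne_zero, if_false, zero_mul, sum_const_zero, zero_add, if_true]
    rw [anti_one (fun d => a d - if d = 1 then m else 0) k0]
    split_ifs with c
    · rw [c, hh]; ring
    · ring
  rw [sum_congr rfl e, sum_sub_distrib, sum_ite_eq', if_pos (mem_filter.2 ⟨h1, squarefree_one⟩)]

theorem abs_mean {S : Finset ℕ} {a : ℕ → ℝ} {C M : ℝ} {Q : ℕ → Prop} [DecidablePred Q] (hC : 0 ≤ C)
    (ha : ∀ k ∈ S, |a k| ≤ C ∧ (a k ≠ 0 → Q k))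
    (hM : ∑ k ∈ S with Q k, (rho k : ℝ) / k ≤ M) : |∑ k ∈ S, a k * (rho k / k)| ≤ C * M := by
  refine (abs_sum_le_sum_abs _ _).trans (le_trans ?_ (mul_le_mul_of_nonneg_left hM hC))
  rw [sum_filter, mul_sum]
  refine sum_le_sum fun k hk => ?_
  have h0 : (0 : ℝ) ≤ rho k / k := by positivity
  rw [abs_mul, abs_of_nonneg h0]
  split_ifs with c
  · exact mul_le_mul_of_nonneg_right (ha k hk).1 h0
  · rw [of_not_not (mt (ha k hk).2 c)]; simp

/-- Exact rows for one weight below `X ^ (1 - γ)`. -/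
theorem exF (hRho : RhoStmt) (hM : MertStmt) (hR : RowStmt) (hE : ExStmt) {ε γ C : ℝ}
    (hε : 0 < ε) (hγ : 0 < γ) (hγ1 : γ ≤ 1) {a : ℝ → ℕ → ℝ}
    (ha : ∀ᶠ X : ℝ in atTop, ∀ d : ℕ, |a X d| ≤ C ∧
      (a X d ≠ 0 → Rough (X ^ ε) d ∧ (d : ℝ) ≤ X ^ (1 - γ))) :
    RowF (fun X n => ∑ k ∈ n.divisors with Squarefree k, a X k)
      fun X => ∑ k ∈ (Icc 1 ⌊X ^ 2⌋₊ : Finset ℕ) with Squarefree k, a X k * (rho k / k) := by
  set M := exp ((3 * (1 - γ) + ε) / ε)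
  set m : ℝ → ℝ := fun X =>
    ∑ k ∈ (Icc 1 ⌊X ^ 2⌋₊ : Finset ℕ) with Squarefree k, a X k * (rho k / k) with hm
  set N := ⌈C + C * M⌉₊ with hN
  have h := hE ε γ 0 (N + 1) (fun _ => 1 - γ) (fun _ => 0)
    (fun X j d => if j = 0 then a X d - (if d = 1 then m X else 0) else 0)
    (fun _ _ d => if d = 1 then 1 else 0) hε hγ (fun _ _ => ⟨le_rfl, by linarith⟩) ?_
  · refine hR.2.2.2.2.1 _ _ _ _ h le_rfl (Eventually.of_forall fun X n n1 _ => le_of_eq ?_)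
    have := shift n.divisors (Nat.one_mem_divisors.2 (by omega)) (by simp) (a X) (fun _ => 1)
      (m X) N rfl
    simpa only [mul_one] using this
  · filter_upwards [ha, RW.total hRho hM hε (B := 1 - γ) (by linarith),
      eventually_ge_atTop (1 : ℝ)] with X h1 h2 hX
    have C0 : 0 ≤ C := (abs_nonneg _).trans (h1 0).1
    have r1 : Rough (X ^ ε) 1 := fun p hp hd => absurd (Nat.dvd_one.1 hd) hp.one_lt.ne'
    have b1 : |m X| ≤ C * M := abs_mean (Q := fun k => Rough (X ^ ε) k ∧ (k : ℝ) ≤ X ^ (1 - γ))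
      C0 (fun k _ => h1 k) (h2 _ fun k hk =>
        ⟨(mem_filter.1 (mem_filter.1 hk).1).2, (mem_filter.1 hk).2⟩)
    have b2 : C + C * M ≤ N := Nat.le_ceil _
    have b3 : (0 : ℝ) ≤ N := Nat.cast_nonneg _
    refine ⟨fun j _ d => ⟨?_, ?_, fun c => ?_, fun c => ?_⟩, le_of_eq ?_⟩
    · push_cast
      split_ifs
      · linarith [abs_sub (a X d) (m X), (h1 d).1]
      · rw [sub_zero]; linarith [(h1 d).1, abs_nonneg (m X)]
      · rw [abs_zero]; linarith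
    · push_cast
      split_ifs
      · rw [abs_one]; linarith
      · rw [abs_zero]; linarith
    · split_ifs at c with c1 c2
      · rw [c2, Nat.cast_one]
        exact ⟨r1, one_le_rpow hX (by linarith)⟩
      · exact (h1 d).2 (by simpa using c)
      · exact absurd rfl c
    · split_ifs at c with c1
      · rw [c1]; exact ⟨r1, by simp⟩
      · exact absurd rfl c
    · rw [shift _ (mem_Icc.2 ⟨le_rfl, Nat.le_floor (by rw [Nat.cast_one]; exact one_le_pow₀ hX)⟩) (by simp)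
        (a X) (fun k => (rho k : ℝ) / k) (m X) N (by simp [hRho.2.2.2.2.1]), sub_self]

theorem abs_anti {k : ℕ} {T B : ℝ} {a b : ℕ → ℝ} (hT : (#k.divisors : ℝ) ≤ T)
    (ha : ∀ d, |a d| ≤ B) (hb : ∀ d, |b d| ≤ B) :
    |∑ x ∈ k.divisorsAntidiagonal, a x.1 * b x.2| ≤ T * B ^ 2 := by
  have B0 := (abs_nonneg _).trans (ha 0)
  rw [Nat.sum_divisorsAntidiagonal fun m n => a m * b n]
  refine (abs_sum_le_sum_abs _ _).trans ((sum_le_card_nsmul _ _ (B ^ 2) fun d _ => ?_).trans ?_)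
  · rw [abs_mul, sq]
    exact mul_le_mul (ha _) (hb _) (abs_nonneg _) B0
  · rw [nsmul_eq_mul]
    exact mul_le_mul_of_nonneg_right hT (sq_nonneg _)

/-- The majorant is bounded. -/
theorem abs_Psi (hRho : RhoStmt) {X z WL WH D₂ : ℝ} (hX : 1 < X) (hz : 0 < z) {B : ℕ}
    {f₁ f₂ g₁ g₂ : ℕ → ℕ → ℝ} (h : Ok WL WH D₂ B f₁ f₂ g₁ g₂) {k : ℕ} (k1 : 1 ≤ k)
    (k2 : (k : ℝ) ≤ X ^ 2) : |Psi (X ^ z) B f₁ f₂ g₁ g₂ k| ≤
      B * (2 ^ (2 / z) * (2 ^ (2 / z) * B ^ 2) + 2 ^ (2 / z) * B ^ 2) := by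
  unfold Psi
  split_ifs with c
  swap
  · rw [abs_zero]; positivity
  have hl := log_pos hX
  have hT : (#k.divisors : ℝ) ≤ 2 ^ (2 / z) := by
    have d1 := hRho.2.2.2.2.2.2.2.2.2.2.2 (X ^ z) k (one_lt_rpow hX hz) k1
    rw [filter_true_of_mem fun d hd p hp h => c p hp (h.trans (Nat.dvd_of_mem_divisors hd))] at d1
    refine d1.trans (rpow_le_rpow_of_exponent_le one_le_two ?_)
    have d2 := log_le_log (by exact_mod_cast k1) k2
    rw [log_pow] at d2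
    rw [log_rpow (by linarith), div_le_div_iff₀ (by positivity) hz]
    push_cast at d2
    nlinarith
  refine (abs_sum_le_sum_abs _ _).trans ((sum_le_card_nsmul _ _ _ fun j _ => ?_).trans
    (le_of_eq (by rw [card_range, nsmul_eq_mul])))
  refine (abs_sub _ _).trans (add_le_add ?_
    (abs_anti hT (fun d => (h j d).2.2.1) fun d => (h j d).2.2.2.1))
  refine (abs_sum_le_sum_abs _ _).trans
    ((sum_le_card_nsmul _ _ ((2 : ℝ) ^ (2 / z) * (B : ℝ) ^ 2) fun D hD => ?_).trans ?_)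
  · refine abs_anti (le_trans ?_ hT) (fun d => (h j d).1) fun d => (h j d).2.1
    exact_mod_cast card_le_card
      (Nat.divisors_subset_of_dvd (by omega) (Nat.dvd_of_mem_divisors hD))
  · rw [nsmul_eq_mul]
    exact mul_le_mul_of_nonneg_right hT (by positivity)

theorem Psi_ne {z : ℝ} {B : ℕ} {f₁ f₂ g₁ g₂ : ℕ → ℕ → ℝ} {k : ℕ}
    (h : Psi z B f₁ f₂ g₁ g₂ k ≠ 0) : Rough z k := by
  by_contra c
  exact h (by rw [Psi, if_neg c])

/-- Three ranges. -/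
theorem three (S : Finset ℕ) (P h : ℕ → ℝ) {σ a b lo hi : ℝ} (hlo : lo ≤ hi) :
    σ * ∑ k ∈ S with Squarefree (k : ℕ) ∧ a ≤ k ∧ (k : ℝ) ≤ b, P k * h k =
      ∑ k ∈ S with Squarefree k,
        (if Squarefree k ∧ a ≤ k ∧ (k : ℝ) ≤ b ∧ (k : ℝ) < lo then σ * P k else 0) * h k +
      σ * ∑ k ∈ S with Squarefree (k : ℕ) ∧ max a hi ≤ k ∧ (k : ℝ) ≤ b, P k * h k +
      ∑ k ∈ S, (if Squarefree k ∧ a ≤ k ∧ (k : ℝ) ≤ b ∧ lo ≤ k ∧ (k : ℝ) < hi then σ * P k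
        else 0) * h k := by
  simp only [sum_filter, mul_sum, ← sum_add_distrib, max_le_iff]
  refine sum_congr rfl fun k _ => ?_
  by_cases c1 : Squarefree k
  swap
  · simp [c1]
  by_cases c2 : a ≤ k
  swap
  · simp [c2]
  by_cases c3 : (k : ℝ) ≤ b
  swap
  · simp [c3]
  rcases lt_or_ge (k : ℝ) lo with c4 | c4
  · simp [c1, c2, c3, c4, not_le.2 c4, not_le.2 (c4.trans_le hlo), mul_assoc]
  · rcases lt_or_ge (k : ℝ) hi with c5 | c5
    · simp [c1, c2, c3, c4, c5, not_lt.2 c4, not_le.2 c5, mul_assoc]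
    · simp [c1, c2, c3, c5, not_lt.2 c4, not_lt.2 c5]

theorem cut {X b : ℝ} (hX : 1 ≤ X) (hb : b ≤ 2) (a : ℝ) :
    ((Icc 1 ⌊X ^ b⌋₊ : Finset ℕ).filter fun k : ℕ => Squarefree k ∧ a ≤ k) =
      (Icc 1 ⌊X ^ 2⌋₊ : Finset ℕ).filter fun k : ℕ => Squarefree k ∧ a ≤ k ∧ (k : ℝ) ≤ X ^ b := by
  have h : X ^ b ≤ X ^ 2 := by
    rw [← rpow_two]; exact rpow_le_rpow_of_exponent_le hX hb
  ext k
  simp only [mem_filter, mem_Icc, Nat.le_floor_iff (show 0 ≤ X ^ b by positivity),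
    Nat.le_floor_iff (sq_nonneg X)]
  exact ⟨fun c => ⟨⟨c.1.1, c.1.2.trans h⟩, c.2.1, c.2.2, c.1.2⟩,
    fun c => ⟨⟨c.1.1, c.2.2.2⟩, c.2.1, c.2.2.1⟩⟩

theorem edge_mono {X ζ γ γ' : ℝ} (hX : 1 ≤ X) (h : γ' ≤ γ) (n : ℕ) :
    edge X ζ γ' n ≤ edge X ζ γ n := by
  unfold edge
  refine Nat.cast_le.2 (card_le_card fun k hk => ?_)
  obtain ⟨a, b, c, d, e⟩ := mem_filter.1 hk
  exact mem_filter.2 ⟨a, b, c, (rpow_le_rpow_of_exponent_le hX (by linarith)).trans d,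
    e.trans (rpow_le_rpow_of_exponent_le hX (by linarith))⟩

end H2

open H2 in
theorem ha2F (hRho : RhoStmt) (hM : MertStmt) (hR : RowStmt) (hE : ExStmt) (hH : HaFStmt)
    (hD : EdgeStmt) : Ha2FStmt := by
  intro α₀ α₁ wl wh d₂ σ B f₁ f₂ g₁ g₂ h1 h2 h3 h4 h5 h6 hOk
  have hz : 0 < wh - wl := by linarith
  set P : ℝ → ℕ → ℝ := fun X k => Psi (X ^ (wh - wl)) B (f₁ X) (f₂ X) (g₁ X) (g₂ X) k with hP
  set C : ℝ := |σ| * (B * (2 ^ (2 / (wh - wl)) * (2 ^ (2 / (wh - wl)) * B ^ 2) +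
    2 ^ (2 / (wh - wl)) * B ^ 2)) with hC
  have C0 : 0 ≤ C := by positivity
  have hb : ∀ᶠ X : ℝ in atTop, ∀ k : ℕ, 1 ≤ k → (k : ℝ) ≤ X ^ 2 → |σ * P X k| ≤ C := by
    filter_upwards [hOk, eventually_gt_atTop (1 : ℝ)] with X a hX k k1 k2
    rw [abs_mul]
    exact mul_le_mul_of_nonneg_left (abs_Psi hRho hX hz a k1 k2) (abs_nonneg _)
  obtain ⟨W, W0, hW⟩ := RW.rw hRho hM hz
  refine RowF.lim hR fun τ hτ => hD (wh - wl) C 0 _ hz fun γ' hγ' => ?_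
  obtain ⟨γ, g0, g1, g2, g3⟩ : ∃ γ : ℝ, 0 < γ ∧ γ ≤ γ' ∧ γ ≤ 1 / 2 ∧ C * (W * (2 * γ)) ≤ τ := by
    refine ⟨min γ' (min (1 / 2) (τ / (2 * (C + 1) * W))), by positivity, min_le_left _ _,
      (min_le_right _ _).trans (min_le_left _ _), ?_⟩
    have q : min γ' (min (1 / 2) (τ / (2 * (C + 1) * W))) ≤ τ / (2 * (C + 1) * W) :=
      (min_le_right _ _).trans (min_le_right _ _)
    calc _ ≤ (C + 1) * (W * (2 * (τ / (2 * (C + 1) * W)))) := by gcongr; linarith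
      _ = τ := by field_simp
  have low := exF hRho hM hR hE hz g0 (by linarith) (C := C)
    (a := fun X k => if Squarefree k ∧ X ^ α₀ ≤ k ∧ (k : ℝ) ≤ X ^ α₁ ∧ (k : ℝ) < X ^ (1 - γ) then
      σ * P X k else 0) (by
      filter_upwards [hb, eventually_ge_atTop (1 : ℝ)] with X a hX d
      split_ifs with c
      · refine ⟨a d (Nat.pos_of_ne_zero c.1.ne_zero) (c.2.2.1.trans ?_),
          fun e => ⟨Psi_ne (right_ne_zero_of_mul e), c.2.2.2.le⟩⟩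
        rw [← rpow_two]; exact rpow_le_rpow_of_exponent_le hX (by linarith)
      · exact ⟨by rwa [abs_zero], fun e => absurd rfl e⟩)
  have hmax : ∀ X : ℝ, 1 ≤ X → X ^ max α₀ (1 + γ) = max (X ^ α₀) (X ^ (1 + γ)) := fun X hX => by
    rcases le_total α₀ (1 + γ) with c | c
    · rw [max_eq_right c, max_eq_right (rpow_le_rpow_of_exponent_le hX c)]
    · rw [max_eq_left c, max_eq_left (rpow_le_rpow_of_exponent_le hX c)]
  have high : RowF (fun X n => σ * ∑ k ∈ n.divisors with Squarefree (k : ℕ) ∧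
        max (X ^ α₀) (X ^ (1 + γ)) ≤ k ∧ (k : ℝ) ≤ X ^ α₁, P X k)
      fun X => σ * ∑ k ∈ (Icc 1 ⌊X ^ 2⌋₊ : Finset ℕ) with Squarefree (k : ℕ) ∧
        max (X ^ α₀) (X ^ (1 + γ)) ≤ k ∧ (k : ℝ) ≤ X ^ α₁, P X k * (rho k / k) := by
    rcases le_or_gt (max α₀ (1 + γ)) α₁ with c | c
    · refine (hH _ α₁ wl wh d₂ σ B f₁ f₂ g₁ g₂ (lt_max_of_lt_right (by linarith)) c h1 h3 h4 h5 h6
        hOk).mono' hR ?_
      filter_upwards [eventually_ge_atTop (1 : ℝ)] with X hX n _ _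
      rw [cut hX (by linarith), hmax X hX]
    · refine (RowF.const hR fun _ => 0).mono' hR ?_
      filter_upwards [eventually_gt_atTop (1 : ℝ)] with X hX n _ _
      have q : X ^ α₁ < max (X ^ α₀) (X ^ (1 + γ)) := by
        rw [← hmax X hX.le]; exact rpow_lt_rpow_of_exponent_lt hX c
      rw [filter_false_of_mem fun k _ e => absurd (e.2.1.trans e.2.2) (not_le.2 q),
        filter_false_of_mem fun k _ e => absurd (e.2.1.trans e.2.2) (not_le.2 q)]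
      simp
  refine ⟨_, low.add hR high, ?_⟩
  filter_upwards [hb, hW (2 * γ) (by linarith) (by linarith), eventually_ge_atTop (1 : ℝ)]
    with X a w hX n n1 n2
  have lh : X ^ (1 - γ) ≤ X ^ (1 + γ) := rpow_le_rpow_of_exponent_le hX (by linarith)
  have e1 := three n.divisors (P X) (fun _ => 1) (σ := σ) (a := X ^ α₀) (b := X ^ α₁) lh
  have e2 := three (Icc 1 ⌊X ^ 2⌋₊) (P X) (fun k => (rho k : ℝ) / k) (σ := σ) (a := X ^ α₀)
    (b := X ^ α₁) lh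
  simp only [mul_one] at e1
  have mid : ∀ k : ℕ, 1 ≤ k → (k : ℝ) ≤ X ^ 2 →
      |if Squarefree k ∧ X ^ α₀ ≤ k ∧ (k : ℝ) ≤ X ^ α₁ ∧ X ^ (1 - γ) ≤ k ∧ (k : ℝ) < X ^ (1 + γ)
        then σ * P X k else 0| ≤ C ∧
      ((if Squarefree k ∧ X ^ α₀ ≤ k ∧ (k : ℝ) ≤ X ^ α₁ ∧ X ^ (1 - γ) ≤ k ∧ (k : ℝ) < X ^ (1 + γ)
        then σ * P X k else 0) ≠ 0 → Squarefree k ∧ Rough (X ^ (wh - wl)) k ∧
          X ^ (1 - γ) ≤ k ∧ (k : ℝ) ≤ X ^ (1 + γ)) := fun k k1 k2 => by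
    split_ifs with c
    · exact ⟨a k k1 k2, fun e => ⟨c.1, Psi_ne (right_ne_zero_of_mul e), c.2.2.2.1, c.2.2.2.2.le⟩⟩
    · exact ⟨by rwa [abs_zero], fun e => absurd rfl e⟩
  have b2 := abs_mean (S := Icc 1 ⌊X ^ 2⌋₊) C0 (fun k hk => mid k (mem_Icc.1 hk).1
    ((Nat.le_floor_iff (sq_nonneg X)).1 (mem_Icc.1 hk).2))
    (w (1 - γ) _ (by linarith) (by linarith) fun k hk => by
      rw [show 1 - γ + 2 * γ = 1 + γ by ring]; exact (mem_filter.1 hk).2)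
  have b1 : |∑ k ∈ n.divisors, if Squarefree k ∧ X ^ α₀ ≤ k ∧ (k : ℝ) ≤ X ^ α₁ ∧
      X ^ (1 - γ) ≤ k ∧ (k : ℝ) < X ^ (1 + γ) then σ * P X k else 0| ≤
      C * edge X (wh - wl) γ n := by
    refine (abs_sum_le_sum_abs _ _).trans ?_
    rw [edge, card_filter, Nat.cast_sum, mul_sum]
    refine sum_le_sum fun k hk => ?_
    have q := mid k (Nat.pos_of_mem_divisors hk)
      (le_trans (Nat.cast_le.2 (Nat.divisor_le hk)) n2)
    by_cases c : Squarefree k ∧ Rough (X ^ (wh - wl)) k ∧ X ^ (1 - γ) ≤ k ∧ (k : ℝ) ≤ X ^ (1 + γ)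
    · rw [if_pos c]; simpa using q.1
    · rw [if_neg c, of_not_not (mt q.2 c)]; simp
  have b3 := mul_le_mul_of_nonneg_left (edge_mono (ζ := wh - wl) hX g1 n) C0
  rw [cut hX (by linarith)]
  change _ ≤ σ * ∑ k ∈ _, P X k - (σ * ∑ k ∈ _, P X k * _ - τ) + _
  rw [e1, e2]
  linarith [(abs_le.1 b1).1, (abs_le.1 b2).2]

theorem ha2S (hRho : RhoStmt) (hM : MertStmt) (hR : RowStmt) (hE : ExStmt) (hH : HaFStmt)
    (hD : EdgeStmt) : Ha2Stmt :=
  ha2_of_F hR (ha2F hRho hM hR hE hH hD)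

end Pool.Agent.Lib.MP_4b1228_nt.PP
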