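import Pool.Agent.Lib.MP_4b1228_nt.PP.St2

/-!
The rules for rows.
-/

open Finset Real Filter MeasureTheory
open scoped Classical

noncomputable section

namespace Pool.Agent.Lib.MP_4b1228_nt.PP

namespace RowS

variable {X Λ : ℝ} {f : ℝ → ℝ}

theorem WW_nonneg (hf : Adm X Λ f) (t : ℝ) : 0 ≤ WW f t :=
  integral_nonneg fun _ => hf.nonneg _

theorem log_lt_hd (hX : 1 ≤ X) {t v : ℝ} (hv : 0 < v) (h : X ^ 2 < t ^ 2 + 1) :
    log X < hd t 1 v := by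
  have h1 : X < (t ^ 2 + 1 ^ 2 + v ^ 2) / (2 * 1 * v) := by
    rw [lt_div_iff₀ (by positivity)]
    nlinarith [sq_nonneg (X - v)]
  unfold hd arcosh
  exact Real.log_lt_log (by linarith) (lt_of_lt_of_le h1 (le_add_of_nonneg_right (sqrt_nonneg _)))

/-- The weight vanishes unless `t ^ 2 + 1 ≤ X ^ 2`. -/
theorem WW_zero (hX : 1 ≤ X) (hf : Adm X Λ f) {t : ℝ} (h : X ^ 2 < t ^ 2 + 1) : WW f t = 0 := by
  have : (fun s : ℝ => f (hd t 1 (exp s))) = fun _ => 0 := by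
    funext s
    exact hf.supp _ (log_lt_hd hX (exp_pos s) h)
  simp [WW, this]

theorem cast_toNat (l : ℤ) : (((l ^ 2 + 1).toNat : ℕ) : ℝ) = (l : ℝ) ^ 2 + 1 := by
  have h : (((l ^ 2 + 1).toNat : ℕ) : ℤ) = l ^ 2 + 1 := Int.toNat_of_nonneg (by positivity)
  exact_mod_cast congrArg (fun z : ℤ => (z : ℝ)) h

theorem one_le_toNat (l : ℤ) : 1 ≤ (l ^ 2 + 1).toNat := by
  have h : (((l ^ 2 + 1).toNat : ℕ) : ℤ) = l ^ 2 + 1 := Int.toNat_of_nonneg (by positivity)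
  have := sq_nonneg l
  omega

/-- The form used for the integers `n = l ^ 2 + 1`. -/
theorem toNat_le (hX : 1 ≤ X) (hf : Adm X Λ f) {l : ℤ} (h : WW f l ≠ 0) :
    (((l ^ 2 + 1).toNat : ℕ) : ℝ) ≤ X ^ 2 := by
  rw [cast_toNat]
  by_contra h1
  exact h (WW_zero hX hf (not_le.1 h1))

/-- Monotonicity of the mean. -/
theorem EE_mono (hX : 1 ≤ X) (hf : Adm X Λ f) {T T' : ℕ → ℝ}
    (h : ∀ n : ℕ, 1 ≤ n → (n : ℝ) ≤ X ^ 2 → T n ≤ T' n) : EE X f T ≤ EE X f T' := by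
  refine sum_le_sum fun l _ => ?_
  by_cases h0 : WW f l = 0
  · simp [h0]
  · exact mul_le_mul_of_nonneg_left (h _ (one_le_toNat l) (toNat_le hX hf h0)) (WW_nonneg hf _)

theorem EE_add (X : ℝ) (f : ℝ → ℝ) (T T' : ℕ → ℝ) :
    EE X f (fun n => T n + T' n) = EE X f T + EE X f T' := by
  unfold EE
  rw [← sum_add_distrib]
  exact sum_congr rfl fun l _ => by ring

theorem EE_mul (X : ℝ) (f : ℝ → ℝ) (a : ℝ) (T : ℕ → ℝ) :
    EE X f (fun n => a * T n) = a * EE X f T := by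
  unfold EE
  rw [mul_sum]
  exact sum_congr rfl fun l _ => by ring

theorem EE_const (X : ℝ) (f : ℝ → ℝ) (a : ℝ) :
    EE X f (fun _ => a) = a * EE X f (fun _ => 1) := by
  rw [← EE_mul]
  simp

theorem small (C : ℝ) (n : ℕ) : ∀ᶠ X : ℝ in atTop, C * log X ^ n ≤ √X := by
  have h := (isLittleO_log_rpow_rpow_atTop (n : ℝ) (show (0 : ℝ) < 1 / 2 by norm_num)).bound
    (c := 1 / (|C| + 1)) (by positivity)
  filter_upwards [h, eventually_ge_atTop (1 : ℝ)] with X hX h1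
  have h0 : 0 < X := by linarith
  have hl : 0 ≤ log X := log_nonneg h1
  rw [rpow_natCast, Real.norm_of_nonneg (by positivity), Real.norm_of_nonneg (by positivity),
    ← sqrt_eq_rpow] at hX
  have h2 : C * log X ^ n ≤ (|C| + 1) * log X ^ n := by
    gcongr; linarith [le_abs_self C]
  have h3 : (|C| + 1) * log X ^ n ≤ (|C| + 1) * (1 / (|C| + 1) * √X) := by gcongr
  have h4 : (|C| + 1) * (1 / (|C| + 1) * √X) = √X := by field_simp
  linarith

/-- The total weight, with an explicit error. -/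
theorem total_le (hI3 : I3Stmt) : ∃ C : ℝ, 0 < C ∧ ∀ (X Λ : ℝ) (f : ℝ → ℝ), 3 ≤ X → 0 ≤ Λ →
    Adm X Λ f → |EE X f (fun _ => 1) - Itot f / 2| ≤ C * Λ * log X ^ 2 * √X := by
  obtain ⟨C, hC, H⟩ := hI3
  refine ⟨2 * C, by positivity, fun X Λ f hX hΛ hf => ?_⟩
  obtain ⟨h1, -, h3, h4⟩ := H X Λ f hX hf
  have hL : 1 ≤ log X := by
    rw [le_log_iff_exp_le (by linarith)]
    linarith [exp_one_lt_d9]
  have a3 := h3 2 2 0 (by norm_num) (by norm_num) (by linarith)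
  have a4 := h4 2 le_rfl (by linarith)
  have a1 := (h1 0).2.1
  have hS : 0 ≤ √X := sqrt_nonneg _
  have e1 : √(X / 2) ≤ √X := sqrt_le_sqrt (by linarith)
  have e2 : √(X * 2) ≤ 2 * √X := by
    rw [sqrt_le_left (by positivity), mul_pow, sq_sqrt (by linarith)]
    linarith
  have e0 : √(X / √((0 : ℝ) ^ 2 + 1)) = √X := by simp
  rw [e0] at a1
  have hK : 0 ≤ C * Λ * log X ^ 2 := by positivity
  have hE : EE X f (fun _ => 1) =
      ∑ l ∈ (Icc (-⌈X⌉) ⌈X⌉ : Finset ℤ) with Even l, WW f l := by simp [EE]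
  have hset : ((Icc (-⌈X⌉) ⌈X⌉ : Finset ℤ).filter fun l => Even l) =
      insert 0 ((Icc (-⌈X⌉) ⌈X⌉ : Finset ℤ).filter fun l : ℤ => (2 : ℤ) ∣ l ∧ (2 : ℝ) ≤ |(l : ℝ)|) := by
    ext l
    have hc : 0 ≤ ⌈X⌉ := Int.ceil_nonneg (by linarith)
    have hl : (2 : ℝ) ≤ |(l : ℝ)| ↔ 2 ≤ l ∨ 2 ≤ -l := by
      rw [← le_abs]
      exact_mod_cast Iff.rfl
    simp only [mem_filter, mem_insert, mem_Icc, even_iff_two_dvd, hl]
    omega
  have hn : (0 : ℤ) ∉ ((Icc (-⌈X⌉) ⌈X⌉ : Finset ℤ).filter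
      fun l : ℤ => (2 : ℤ) ∣ l ∧ (2 : ℝ) ≤ |(l : ℝ)|) := by
    simp
  rw [hE, hset, sum_insert hn]
  simp only [sub_zero, Nat.cast_ofNat] at a3
  have b0 := (h1 0).1
  have b1 : C * Λ * log X * √X ≤ C * Λ * log X ^ 2 * √X := by
    have : log X ≤ log X ^ 2 := by nlinarith
    gcongr
  have b2 := mul_le_mul_of_nonneg_left e1 hK
  have b3 := mul_le_mul_of_nonneg_left e2 hK
  rw [Int.cast_zero, abs_le]
  constructor <;> nlinarith

/-- The total weight is `Itot f / 2` asymptotically. -/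
theorem total (hI3 : I3Stmt) (A : ℕ) {c τ : ℝ} (hc : 0 < c) (hτ : 0 < τ) :
    ∀ᶠ X : ℝ in atTop, ∀ f : ℝ → ℝ, Adm X (log X ^ A) f → c * X ≤ Itot f →
      |EE X f (fun _ => 1) - Itot f / 2| ≤ τ * (Itot f / 2) := by
  obtain ⟨C, hC, H⟩ := total_le hI3
  filter_upwards [small (2 * C / (τ * c)) (A + 2), eventually_ge_atTop (3 : ℝ)] with X hs hX f hf hl
  have hL : 0 ≤ log X := log_nonneg (by linarith)
  refine (H X _ f hX (by positivity) hf).trans ?_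
  have hS : 0 ≤ √X := sqrt_nonneg _
  have e : √X * √X = X := mul_self_sqrt (by linarith)
  have h1 : C * log X ^ A * log X ^ 2 = τ * c / 2 * (2 * C / (τ * c) * log X ^ (A + 2)) := by
    field_simp
    ring
  calc C * log X ^ A * log X ^ 2 * √X ≤ τ * c / 2 * √X * √X := by
        rw [h1]
        gcongr
    _ = τ * (c * X / 2) := by rw [mul_assoc, e]; ring
    _ ≤ _ := by gcongr

theorem itot_nonneg {A : ℕ} {η δ c C₀ : ℝ} (hc : 0 < c) (hX : 0 ≤ X) (hf : Good X A η δ c C₀ f) :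
    0 ≤ Itot f / 2 := by
  have := hf.low
  have := mul_nonneg hc.le hX
  linarith

theorem r1 (hI3 : I3Stmt) (a : ℝ) : Row (fun _ _ => a) a := by
  intro C₀ τ _ hτ
  refine ⟨1, one_pos, fun A η δ c _ _ _ hc => ?_⟩
  filter_upwards [total hI3 A hc (show 0 < τ / (|a| + 1) by positivity), eventually_ge_atTop 0]
    with X H X0 f hf
  have hI := itot_nonneg hc X0 hf
  have h1 := H f hf.adm hf.low
  rw [EE_const]
  have h2 : |a * (EE X f (fun _ => 1) - Itot f / 2)| ≤ τ * (Itot f / 2) := by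
    rw [abs_mul]
    calc _ ≤ (|a| + 1) * (τ / (|a| + 1) * (Itot f / 2)) := by gcongr; linarith
      _ = _ := by field_simp
  have h3 := (abs_le.1 h2).1
  linarith

theorem r2 {T T' : ℝ → ℕ → ℝ} {v v' : ℝ} (h : Row T v) (h' : Row T' v') :
    Row (fun X n => T X n + T' X n) (v + v') := by
  intro C₀ τ hC hτ
  obtain ⟨η₁, p1, H⟩ := h C₀ (τ / 2) hC (half_pos hτ)
  obtain ⟨η₂, p2, H'⟩ := h' C₀ (τ / 2) hC (half_pos hτ)
  refine ⟨min η₁ η₂, lt_min p1 p2, fun A η δ c h1 h2 h3 h4 => ?_⟩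
  filter_upwards [H A η δ c h1 (h2.trans (min_le_left _ _)) h3 h4,
    H' A η δ c h1 (h2.trans (min_le_right _ _)) h3 h4] with X a b f hf
  rw [EE_add]
  linarith [a f hf, b f hf]

theorem r3 {T : ℝ → ℕ → ℝ} {v a : ℝ} (ha : 0 ≤ a) (h : Row T v) :
    Row (fun X n => a * T X n) (a * v) := by
  intro C₀ τ hC hτ
  obtain ⟨η₁, p1, H⟩ := h C₀ (τ / (a + 1)) hC (by positivity)
  refine ⟨η₁, p1, fun A η δ c h1 h2 h3 h4 => ?_⟩
  filter_upwards [H A η δ c h1 h2 h3 h4, eventually_ge_atTop 0] with X b X0 f hf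
  have hI := itot_nonneg h4 X0 hf
  rw [EE_mul]
  have b1 := mul_le_mul_of_nonneg_left (b f hf) ha
  have b2 : a * (τ / (a + 1)) ≤ τ := by
    rw [← mul_div_assoc, div_le_iff₀ (by linarith)]
    nlinarith
  nlinarith [mul_le_mul_of_nonneg_right b2 hI]

theorem r4 (hI3 : I3Stmt) {ι : Type} (s : Finset ι) (T : ι → ℝ → ℕ → ℝ) (v : ι → ℝ)
    (h : ∀ i ∈ s, Row (T i) (v i)) : Row (fun X n => ∑ i ∈ s, T i X n) (∑ i ∈ s, v i) := by
  induction s using Finset.induction_on with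
  | empty => simpa using r1 hI3 0
  | insert i s hi ih =>
    simpa [sum_insert hi] using
      r2 (h i (mem_insert_self _ _)) (ih fun j hj => h j (mem_insert_of_mem hj))

theorem r5 {T T' : ℝ → ℕ → ℝ} {v v' : ℝ} (h : Row T v) (hv : v' ≤ v)
    (hT : ∀ᶠ X : ℝ in atTop, ∀ n : ℕ, 1 ≤ n → (n : ℝ) ≤ X ^ 2 → T X n ≤ T' X n) : Row T' v' := by
  intro C₀ τ hC hτ
  obtain ⟨η₁, p1, H⟩ := h C₀ τ hC hτ
  refine ⟨η₁, p1, fun A η δ c h1 h2 h3 h4 => ?_⟩
  filter_upwards [H A η δ c h1 h2 h3 h4, hT, eventually_ge_atTop 1] with X b e X1 f hf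
  have hI := itot_nonneg h4 (by linarith) hf
  have b1 := EE_mono X1 hf.adm e
  nlinarith [b f hf, mul_le_mul_of_nonneg_right hv hI]

theorem r6 {T : ℝ → ℕ → ℝ} {v : ℝ} (h : ∀ τ : ℝ, 0 < τ → Row T (v - τ)) : Row T v := by
  intro C₀ τ hC hτ
  obtain ⟨η₁, p1, H⟩ := h (τ / 2) (half_pos hτ) C₀ (τ / 2) hC (half_pos hτ)
  refine ⟨η₁, p1, fun A η δ c h1 h2 h3 h4 => ?_⟩
  filter_upwards [H A η δ c h1 h2 h3 h4] with X b f hf
  have := b f hf
  rwa [show v - τ / 2 - τ / 2 = v - τ by ring] at this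

end RowS

theorem rowS (hI3 : I3Stmt) : RowStmt :=
  ⟨RowS.r1 hI3, fun _ _ _ _ => RowS.r2, fun _ _ _ => RowS.r3, fun _ => RowS.r4 hI3,
    fun _ _ _ _ => RowS.r5, fun _ _ => RowS.r6⟩

end Pool.Agent.Lib.MP_4b1228_nt.PP
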