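import Pool.Agent.Lib.MP_4b1228_nt.PP.Ha
import Pool.Agent.Lib.MP_4b1228_nt.PP.Ha2
import Pool.Agent.Lib.MP_4b1228_nt.PP.RowS

/-!
Harman's rows with the true mean.
-/

open Finset Real Filter
open scoped Classical

noncomputable section

namespace Pool.Agent.Lib.MP_4b1228_nt.PP

theorem haF87 (hR : RhoStmt) (hRS : RSStmt) (hM : MertStmt) (h1 : I1Stmt) (h2 : I2Stmt)
    (h3 : I3Stmt) (hT1 : T1Stmt) (hT2 : T2Stmt) (hT0 : T0Stmt) : HaFStmt := by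
  intro α₀ α₁ wl wh d₂ σ B f₁ f₂ g₁ g₂ ha0 ha01 hwl hwh hw3 hd hd2 h C₀ τ _ hτ
  have hz : 0 < wh - wl := by linarith
  obtain ⟨M, hM'⟩ : ∃ M : ℝ, M = (B * (2 ^ (2 / (wh - wl)) * (2 ^ (2 / (wh - wl)) * B ^ 2) +
    2 ^ (2 / (wh - wl)) * B ^ 2)) * exp ((3 * 2 + (wh - wl)) / (wh - wl)) := ⟨_, rfl⟩
  have M0 : 0 ≤ M := hM' ▸ by positivity
  have s0 : 0 < |σ| * (M + 1) + 1 := by positivity
  obtain ⟨η₀, hη₀, H⟩ := Ha.main hR hRS hM h1 h2 h3 hT1 hT2 hT0 B ha0 ha01 hwl hwh hw3 hd hd2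
    (div_pos hτ s0)
  refine ⟨η₀, hη₀, fun A η δ c hη hη0 hδ hc => ?_⟩
  filter_upwards [H A η δ c hη hη0 hδ hc, h, eventually_gt_atTop 1,
    RowS.total h3 A hc (div_pos hτ s0), RW.total hR hM hz (B := 2) (by norm_num)]
    with X hX hok X1 hE hW f hf
  have q := hX f hf.adm hf.e1 hf.e2 hf.low _ _ _ _ hok
  have q' := hE f hf.adm hf.low
  have I0 : 0 ≤ Itot f / 2 := RowS.itot_nonneg hc (by linarith) hf
  have up : ∀ k ∈ (Icc 1 ⌊X ^ α₁⌋₊ : Finset ℕ), (k : ℝ) ≤ X ^ (2 : ℝ) := fun k hk =>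
    ((Nat.le_floor_iff (by positivity)).1 (mem_Icc.1 hk).2).trans
      (rpow_le_rpow_of_exponent_le X1.le (by linarith))
  have b : |∑ k ∈ (Icc 1 ⌊X ^ α₁⌋₊ : Finset ℕ) with Squarefree (k : ℕ) ∧ X ^ α₀ ≤ k,
      Psi (X ^ (wh - wl)) B (f₁ X) (f₂ X) (g₁ X) (g₂ X) k * (rho k / k)| ≤ M := by
    rw [hM']
    refine H2.abs_mean (Q := Rough (X ^ (wh - wl))) (by positivity) (fun k hk => ⟨?_, H2.Psi_ne⟩)
      (hW _ fun k hk => ?_)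
    · have := (mem_filter.1 hk).1
      exact H2.abs_Psi hR X1 hz hok (mem_Icc.1 this).1 (by rw [← rpow_two]; exact up k this)
    · have := mem_filter.1 (mem_filter.1 hk).1
      exact ⟨this.2.1, (mem_filter.1 hk).2, up k this.1⟩
  simp only [sub_eq_add_neg _ (σ * _)]
  rw [RowS.EE_add, EE_mul, RowS.EE_const]
  generalize EE X f (fun _ => 1) = E at q' ⊢
  generalize EE X f _ = F at q ⊢
  generalize (∑ k ∈ (Icc 1 ⌊X ^ α₁⌋₊ : Finset ℕ) with Squarefree (k : ℕ) ∧ X ^ α₀ ≤ k,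
      Psi (X ^ (wh - wl)) B (f₁ X) (f₂ X) (g₁ X) (g₂ X) k * (rho k / k)) = m at q b ⊢
  generalize Itot f / 2 = I at q q' I0 ⊢
  obtain ⟨t, ht⟩ : ∃ t : ℝ, t = τ / (|σ| * (M + 1) + 1) := ⟨_, rfl⟩
  rw [← ht] at q q'
  have t0 : 0 < t := ht ▸ div_pos hτ s0
  have e : τ = t * (|σ| * (M + 1) + 1) := by rw [ht]; field_simp
  have a1 : |σ * (F - m * I)| ≤ |σ| * (t * I) := by
    rw [abs_mul]; exact mul_le_mul_of_nonneg_left q (abs_nonneg σ)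
  have a2 : |σ * (m * (E - I))| ≤ |σ| * (M * (t * I)) := by
    rw [abs_mul, abs_mul]
    exact mul_le_mul_of_nonneg_left (mul_le_mul b q' (abs_nonneg _) M0) (abs_nonneg σ)
  have a3 := mul_nonneg t0.le I0
  rw [e]
  linarith only [neg_le_of_abs_le a1, le_of_abs_le a2, a3]

end Pool.Agent.Lib.MP_4b1228_nt.PP
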