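import Mathlib

/-!
The linear sieve of Rosser and Iwaniec on classes: weights, pointwise inequalities, splitting of
the support and the induction of Jurkat and Richert with step functions.
-/

open Finset
open scoped Classical

noncomputable section

namespace Pool.Agent.Lib.MP_4b1228_nt.PP.LS

/-- The conditions on a decreasing list of classes. -/
def ok (h : ℕ → ℝ) : Bool → ℝ → List ℕ → Prop
  | _, _, [] => True
  | true, D, x :: t => 3 * h x ≤ D ∧ ok h false (D - h x) t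
  | false, D, x :: t => ok h true (D - h x) t

/-- The conditions on a multiset of classes. -/
def chi (h : ℕ → ℝ) (up : Bool) (D : ℝ) (π : Multiset ℕ) : Prop := ok h up D (π.sort (· ≥ ·))

/-- The weights. -/
def lam (c : ℕ → ℕ) (h : ℕ → ℝ) (up : Bool) (D : ℝ) (S : Finset ℕ) : ℝ :=
  if chi h up D (S.val.map c) then (-1) ^ S.card else 0

/-- The main term. -/
def VV (c : ℕ → ℕ) (h g : ℕ → ℝ) (up : Bool) (D : ℝ) (T : Finset ℕ) : ℝ :=
  ∑ S ∈ T.powerset, lam c h up D S * ∏ p ∈ S, g p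

/-- A table of step functions. -/
structure Tab (K : ℝ) (N : ℕ) (a b : ℕ → ℝ) : Prop where
  hN : 1 ≤ N
  hK : 1 ≤ K
  a0 : ∀ i, 0 ≤ a i
  b0 : ∀ i, 0 ≤ b i
  ma : ∀ i, N ≤ i → a (i + 1) ≤ a i
  mb : ∀ i, 2 * N ≤ i → b (i + 1) ≤ b i
  hB : ∀ i M, 2 * N ≤ i → (K - 1) * a (i - N) + K / i * ∑ j ∈ Ico i M, a (j - N) ≤ b i
  hA : ∀ i M, 3 * N ≤ i → (K - 1) * b (i - N) + K / i * ∑ j ∈ Ico i M, b (j - N) ≤ a i
  hA0 : ∀ i, N ≤ i → i < 3 * N → K * (3 * N / i) * (1 + a (3 * N)) ≤ 1 + a i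

/-- The hypothesis of dimension one. -/
def Dim (c : ℕ → ℕ) (h g : ℕ → ℝ) (K : ℝ) (T : Finset ℕ) : Prop :=
  ∀ u z : ℝ, 0 < u → u ≤ z → u ≤ K * z * ∏ p ∈ T with u ≤ h (c p) ∧ h (c p) ≤ z, (1 - g p)

variable {c : ℕ → ℕ} {h g : ℕ → ℝ}

theorem abs_lam (up : Bool) (D : ℝ) (S : Finset ℕ) : |lam c h up D S| ≤ 1 := by
  unfold lam
  split_ifs <;> simp

theorem lam_empty (up : Bool) (D : ℝ) : lam c h up D ∅ = 1 := by
  cases up <;> simp [lam, chi, ok]

theorem lam_insert (hc : Monotone c) (up : Bool) (D : ℝ) {p : ℕ} {S : Finset ℕ}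
    (hp : ∀ x ∈ S, x < p) : lam c h up D (insert p S) =
      if up = true → 3 * h (c p) ≤ D then -lam c h (!up) (D - h (c p)) S else 0 := by
  have hn : p ∉ S := fun e => lt_irrefl _ (hp p e)
  have e1 : ((insert p S).val.map c).sort (· ≥ ·) = c p :: (S.val.map c).sort (· ≥ ·) := by
    rw [insert_val_of_notMem hn, Multiset.map_cons]
    refine Multiset.sort_cons _ _ _ fun b hb => ?_
    obtain ⟨x, hx, rfl⟩ := Multiset.mem_map.1 hb
    exact hc (hp x hx).le
  unfold lam chi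
  rw [e1, card_insert_of_notMem hn]
  cases up
  · rw [if_pos (by simp : false = true → _), Bool.not_false]
    by_cases h1 : ok h true (D - h (c p)) ((S.val.map c).sort (· ≥ ·))
    · rw [if_pos h1, if_pos (by exact h1), pow_succ, mul_neg_one]
    · rw [if_neg h1, if_neg (by exact h1), neg_zero]
  · simp only [ok, forall_const, Bool.not_true]
    by_cases h1 : 3 * h (c p) ≤ D
    · simp only [h1, true_and, if_true]
      split_ifs <;> simp [pow_succ]
    · simp [h1]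

theorem VV_empty (up : Bool) (D : ℝ) : VV c h g up D ∅ = 1 := by simp [VV, lam_empty]

theorem VV_insert (hc : Monotone c) (up : Bool) (D : ℝ) {p : ℕ} {T : Finset ℕ}
    (hp : ∀ x ∈ T, x < p) : VV c h g up D (insert p T) = VV c h g up D T -
      if up = true → 3 * h (c p) ≤ D then g p * VV c h g (!up) (D - h (c p)) T else 0 := by
  have hn : p ∉ T := fun e => lt_irrefl _ (hp p e)
  unfold VV
  rw [sum_powerset_insert hn, sub_eq_add_neg]
  congr 1
  have e : ∀ S ∈ T.powerset, lam c h up D (insert p S) * ∏ q ∈ insert p S, g q =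
      if up = true → 3 * h (c p) ≤ D then
        -(g p * (lam c h (!up) (D - h (c p)) S * ∏ q ∈ S, g q)) else 0 := fun S hS => by
    have hS' := mem_powerset.1 hS
    rw [lam_insert hc up D fun x hx => hp x (hS' hx), prod_insert fun e => hn (hS' e)]
    split_ifs
    · ring
    · simp
  rw [sum_congr rfl e]
  split_ifs
  · rw [sum_neg_distrib, mul_sum]
  · simp

theorem filter_insert_lt {p : ℕ} {T : Finset ℕ} (hp : ∀ x ∈ T, x < p) :
    (insert p T).filter (· < p) = T ∧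
      ∀ q ∈ T, (insert p T).filter (· < q) = T.filter (· < q) := by
  refine ⟨?_, fun q hq => ?_⟩
  · ext x
    simp only [mem_filter, mem_insert]
    exact ⟨fun ⟨a, b⟩ => a.resolve_left b.ne, fun a => ⟨Or.inr a, hp x a⟩⟩
  · rw [filter_insert, if_neg (hp q hq).not_gt]

/-- The recursion of Buchstab for the main terms. -/
theorem VV_eq (hc : Monotone c) (up : Bool) (D : ℝ) (T : Finset ℕ) : VV c h g up D T =
    1 - ∑ p ∈ T, if up = true → 3 * h (c p) ≤ D then
      g p * VV c h g (!up) (D - h (c p)) (T.filter (· < p)) else 0 := by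
  induction T using Finset.induction_on_max with
  | empty => simp [VV_empty]
  | insert p T hp ih =>
    have hn : p ∉ T := fun e => lt_irrefl _ (hp p e)
    obtain ⟨e1, e2⟩ := filter_insert_lt hp
    rw [sum_insert hn, e1, sum_congr rfl fun q hq => by rw [e2 q hq], VV_insert hc up D hp, ih]
    ring

theorem prod_eq (g : ℕ → ℝ) (T : Finset ℕ) : ∏ p ∈ T, (1 - g p) =
    1 - ∑ p ∈ T, g p * ∏ q ∈ T.filter (· < p), (1 - g q) := by
  induction T using Finset.induction_on_max with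
  | empty => simp
  | insert p T hp ih =>
    have hn : p ∉ T := fun e => lt_irrefl _ (hp p e)
    obtain ⟨e1, e2⟩ := filter_insert_lt hp
    rw [prod_insert hn, sum_insert hn, e1, sum_congr rfl fun q hq => by rw [e2 q hq]]
    linarith

/-- The comparison with the product; for `g = 1` the pointwise inequalities. -/
theorem point (hc : Monotone c) (T : Finset ℕ) (hg : ∀ p ∈ T, 0 ≤ g p ∧ g p ≤ 1) (D : ℝ) :
    VV c h g false D T ≤ ∏ p ∈ T, (1 - g p) ∧ ∏ p ∈ T, (1 - g p) ≤ VV c h g true D T := by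
  induction T using Finset.induction_on_max generalizing D with
  | empty => simp [VV_empty]
  | insert p T hp ih =>
    have hn : p ∉ T := fun e => lt_irrefl _ (hp p e)
    have ih := ih fun q hq => hg q (mem_insert_of_mem hq)
    have g0 := (hg p (mem_insert_self _ _)).1
    have P0 : 0 ≤ ∏ p ∈ T, (1 - g p) :=
      prod_nonneg fun q hq => sub_nonneg.2 (hg q (mem_insert_of_mem hq)).2
    rw [VV_insert hc _ D hp, VV_insert hc _ D hp, prod_insert hn]
    have a1 := ih D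
    have a2 := ih (D - h (c p))
    simp only [Bool.false_eq_true, IsEmpty.forall_iff, if_true, Bool.not_false, forall_const,
      Bool.not_true]
    refine ⟨by nlinarith [mul_le_mul_of_nonneg_left a2.2 g0], ?_⟩
    split_ifs
    · nlinarith [mul_le_mul_of_nonneg_left a2.1 g0]
    · nlinarith [mul_nonneg g0 P0]

theorem point_one (hc : Monotone c) (T : Finset ℕ) (D : ℝ) :
    ∑ S ∈ T.powerset, lam c h false D S ≤ (if T = ∅ then 1 else 0) ∧
      (if T = ∅ then 1 else 0) ≤ ∑ S ∈ T.powerset, lam c h true D S := by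
  have := point (h := h) (g := fun _ => 1) hc T (fun _ _ => ⟨zero_le_one, le_rfl⟩) D
  simp only [VV, prod_const_one, mul_one, sub_self, prod_const] at this
  by_cases e : T = ∅
  · simpa [e] using this
  · rw [zero_pow (card_ne_zero.2 (nonempty_iff_ne_empty.2 e))] at this
    rwa [if_neg e]

theorem split_list (hh : Monotone h) (h0 : ∀ n, 0 ≤ h n) (l : List ℕ) (hl : l.Pairwise (· ≥ ·))
    (up : Bool) (D D₁ D₂ : ℝ) (hok : ok h up D l) (h2 : up = false → ∀ x ∈ l, 2 * h x ≤ D)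
    (h₁ : 0 ≤ D₁) (h₂ : 0 ≤ D₂) (hD : D ≤ D₁ + D₂) :
    ∃ π₁ π₂ : Multiset ℕ, (l : Multiset ℕ) = π₁ + π₂ ∧ (π₁.map h).sum ≤ D₁ ∧
      (π₂.map h).sum ≤ D₂ := by
  induction l generalizing up D D₁ D₂ with
  | nil => exact ⟨0, 0, by simp, by simpa, by simpa⟩
  | cons x t ih =>
    obtain ⟨p1, p2⟩ := List.pairwise_cons.1 hl
    have x0 := h0 x
    have key : 2 * h x ≤ D ∧ ok h (!up) (D - h x) t ∧
        ((!up) = false → ∀ y ∈ t, 2 * h y ≤ D - h x) := by
      cases up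
      · exact ⟨h2 rfl x (List.mem_cons_self ..), hok, by simp⟩
      · exact ⟨by linarith [hok.1], hok.2, fun _ y hy => by linarith [hok.1, hh (p1 y hy)]⟩
    by_cases e : h x ≤ D₁
    · obtain ⟨π₁, π₂, a, b, d⟩ := ih p2 (!up) (D - h x) (D₁ - h x) D₂ key.2.1 key.2.2
        (by linarith) h₂ (by linarith)
      refine ⟨x ::ₘ π₁, π₂, ?_, ?_, d⟩
      · rw [Multiset.cons_add, ← a, Multiset.cons_coe]
      · rw [Multiset.map_cons, Multiset.sum_cons]; linarith
    · obtain ⟨π₁, π₂, a, b, d⟩ := ih p2 (!up) (D - h x) D₁ (D₂ - h x) key.2.1 key.2.2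
        h₁ (by linarith [key.1]) (by linarith)
      refine ⟨π₁, x ::ₘ π₂, ?_, b, ?_⟩
      · rw [Multiset.add_cons, ← a, Multiset.cons_coe]
      · rw [Multiset.map_cons, Multiset.sum_cons]; linarith

/-- Every pattern of the support splits. -/
theorem split (hh : Monotone h) (h0 : ∀ n, 0 ≤ h n) (π : Multiset ℕ) (up : Bool) (D D₁ D₂ : ℝ)
    (hok : chi h up D π) (h2 : up = false → ∀ x ∈ π, 2 * h x ≤ D)
    (h₁ : 0 ≤ D₁) (h₂ : 0 ≤ D₂) (hD : D ≤ D₁ + D₂) :
    ∃ π₁ π₂ : Multiset ℕ, π = π₁ + π₂ ∧ (π₁.map h).sum ≤ D₁ ∧ (π₂.map h).sum ≤ D₂ := by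
  have := split_list hh h0 _ (Multiset.pairwise_sort π (· ≥ ·)) up D D₁ D₂ hok
    (fun e x hx => h2 e x ((Multiset.mem_sort _).1 hx)) h₁ h₂ hD
  rwa [Multiset.sort_eq] at this

/-- The support. -/
theorem chi_sum (hh : Monotone h) (h0 : ∀ n, 0 ≤ h n) (π : Multiset ℕ) (up : Bool) (D : ℝ)
    (hok : chi h up D π) (h2 : up = false → ∀ x ∈ π, 2 * h x ≤ D) (hD : 0 ≤ D) :
    (π.map h).sum ≤ D := by
  obtain ⟨π₁, π₂, e, a, b⟩ := split hh h0 π up D D 0 hok h2 hD le_rfl (by linarith)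
  rw [e, Multiset.map_add, Multiset.sum_add]
  linarith

/-- Finitely many patterns in integer units. -/
theorem fin_pat (D : ℕ) : {π : Multiset ℕ | (∀ x ∈ π, 1 ≤ x) ∧ π.sum ≤ D}.Finite := by
  refine (Set.finite_Iic (D • (Finset.range (D + 1)).val)).subset fun π hπ => ?_
  refine Multiset.le_iff_count.2 fun x => ?_
  by_cases e : x ∈ π
  · have a1 : x ≤ D := (Multiset.single_le_sum (fun _ _ => Nat.zero_le _) x e).trans hπ.2
    have a2 : π.card ≤ D := by
      have := Multiset.card_nsmul_le_sum hπ.1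
      simp only [smul_eq_mul, mul_one] at this
      exact this.trans hπ.2
    rw [Multiset.count_nsmul, Multiset.count_eq_one_of_mem (Finset.range (D + 1)).nodup
      (Finset.mem_range.2 (Nat.lt_succ_of_le a1)), mul_one]
    exact (Multiset.count_le_card x π).trans a2
  · rw [Multiset.count_eq_zero.2 e]
    exact Nat.zero_le _

theorem tele {φ : ℕ → ℝ} {i : ℕ} (hi : 1 ≤ i) (K : ℝ) {M : ℕ} (hM : i ≤ M) :
    (K * (M + 1) / i - 1) * φ M + ∑ l ∈ Ico i M, (K * (l + 1) / i - 1) * (φ l - φ (l + 1)) =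
      (K - 1) * φ i + K / i * ∑ l ∈ Ico i (M + 1), φ l := by
  have i0 : (i : ℝ) ≠ 0 := by positivity
  induction M, hM using Nat.le_induction with
  | base => simp; field_simp; ring
  | succ M hM ih =>
    rw [sum_Ico_succ_top hM, sum_Ico_succ_top (by omega : i ≤ M + 1), mul_add (K / i), ← add_assoc _ _ (K / i * φ (M + 1)), ← ih]
    push_cast
    field_simp
    ring

theorem Dim.mono {K : ℝ} (hK : 0 ≤ K) {T T' : Finset ℕ} (H : Dim c h g K T) (hs : T' ⊆ T)
    (hg : ∀ p ∈ T, 0 ≤ g p ∧ g p ≤ 1) : Dim c h g K T' := fun u z hu hz =>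
  (H u z hu hz).trans (mul_le_mul_of_nonneg_left
    (prod_le_prod_of_subset_of_le_one (filter_subset_filter _ hs)
      (fun p hp => sub_nonneg.2 (hg p (mem_filter.1 hp).1).2)
      fun p hp _ => by linarith [(hg p (mem_filter.1 hp).1).1])
    (mul_nonneg hK (hu.le.trans hz)))

/-- Removing the elements of size at least `u`. -/
theorem Dim.cut {K : ℝ} (hK : 0 ≤ K) {T : Finset ℕ} (H : Dim c h g K T)
    (hg : ∀ p ∈ T, 0 ≤ g p ∧ g p ≤ 1) {u z : ℝ} (hu : 0 < u) (hz : u ≤ z)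
    (hT : ∀ p ∈ T, h (c p) ≤ z) (Q : ℕ → Prop) [DecidablePred Q]
    (hQ : ∀ p ∈ T, ¬Q p → u ≤ h (c p)) :
    ∏ p ∈ T.filter Q, (1 - g p) ≤ K * z / u * ∏ p ∈ T, (1 - g p) := by
  have a := H.mono hK (filter_subset (fun p => ¬Q p) T) hg u z hu hz
  rw [filter_true_of_mem fun p hp => ⟨hQ p (mem_filter.1 hp).1 (mem_filter.1 hp).2,
    hT p (mem_filter.1 hp).1⟩] at a
  have P0 : 0 ≤ ∏ p ∈ T.filter Q, (1 - g p) :=
    prod_nonneg fun q hq => sub_nonneg.2 (hg q (mem_filter.1 hq).1).2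
  rw [← prod_filter_mul_prod_filter_not T Q, div_mul_eq_mul_div, le_div_iff₀ hu]
  nlinarith [mul_le_mul_of_nonneg_left a P0]

theorem abel (hc : Monotone c) (hh : Monotone h) (h0 : ∀ n, 0 < h n) {K : ℝ} (hK : 1 ≤ K)
    {T : Finset ℕ} (H : Dim c h g K T) (hg : ∀ p ∈ T, 0 ≤ g p ∧ g p ≤ 1) {E z : ℝ} (hz : 0 < z)
    (hT : ∀ p ∈ T, h (c p) ≤ z) (hi : 1 ≤ ⌊E / z⌋₊) {φ : ℕ → ℝ} (φ0 : ∀ l, 0 ≤ φ l)
    (φ1 : ∀ l, ⌊E / z⌋₊ ≤ l → φ (l + 1) ≤ φ l) : ∃ M : ℕ,
    ∑ p ∈ T, g p * (∏ q ∈ T.filter (· < p), (1 - g q)) * φ ⌊E / h (c p)⌋₊ ≤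
      (∏ p ∈ T, (1 - g p)) *
        ((K - 1) * φ ⌊E / z⌋₊ + K / (⌊E / z⌋₊ : ℕ) * ∑ l ∈ Ico ⌊E / z⌋₊ M, φ l) := by
  obtain ⟨i, hi'⟩ : ∃ i, i = ⌊E / z⌋₊ := ⟨_, rfl⟩
  rw [← hi'] at hi φ1 ⊢
  have i0 : (0 : ℝ) < i := by exact_mod_cast hi
  have e0 : 0 < E / z := by
    by_contra e
    rw [Nat.floor_of_nonpos (not_lt.1 e)] at hi'
    omega
  have E0 : 0 < E := by
    have := mul_pos e0 hz
    rwa [div_mul_cancel₀ _ hz.ne'] at this
  have iz : (i : ℝ) ≤ E / z := hi' ▸ Nat.floor_le e0.le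
  have iz' : E / z < i + 1 := hi' ▸ Nat.lt_floor_add_one _
  obtain ⟨j, hj⟩ : ∃ j : ℕ → ℕ, ∀ p, j p = ⌊E / h (c p)⌋₊ := ⟨_, fun _ => rfl⟩
  obtain ⟨w, hw⟩ : ∃ w : ℕ → ℝ, ∀ p, w p = g p * ∏ q ∈ T.filter (· < p), (1 - g q) :=
    ⟨_, fun _ => rfl⟩
  obtain ⟨V, hV⟩ : ∃ V, V = ∏ p ∈ T, (1 - g p) := ⟨_, rfl⟩
  simp only [← hj, ← hw, ← hV]
  have ji : ∀ p ∈ T, i ≤ j p := fun p hp => by
    rw [hi', hj]
    exact Nat.floor_mono (div_le_div_of_nonneg_left E0.le (h0 _) (hT p hp))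
  have ja : ∀ p q, p ≤ q → j q ≤ j p := fun p q e => by
    rw [hj, hj]
    exact Nat.floor_mono (div_le_div_of_nonneg_left E0.le (h0 _) (hh (hc e)))
  have V0 : 0 ≤ V := hV ▸ prod_nonneg fun q hq => sub_nonneg.2 (hg q hq).2
  have W : ∀ l, i ≤ l → ∑ p ∈ T with j p ≤ l, w p ≤ V * (K * (l + 1) / i - 1) := fun l hl => by
    have l0 : (0 : ℝ) < l + 1 := by positivity
    have l1 : (i : ℝ) ≤ l := by exact_mod_cast hl
    have a1 := prod_eq g T
    have a2 := prod_eq g (T.filter fun p => ¬j p ≤ l)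
    have a3 : ∑ p ∈ T with ¬j p ≤ l, g p * ∏ q ∈ (T.filter fun p => ¬j p ≤ l).filter (· < p),
        (1 - g q) = ∑ p ∈ T with ¬j p ≤ l, w p := sum_congr rfl fun p hp => by
      rw [hw]
      congr 2
      ext q
      simp only [mem_filter]
      exact ⟨fun a => ⟨a.1.1, a.2⟩, fun a => ⟨⟨a.1, fun b =>
        (mem_filter.1 hp).2 ((ja q p a.2.le).trans b)⟩, a.2⟩⟩
    simp only [← hw, ← hV] at a1
    rw [a3] at a2
    have a4 := sum_filter_add_sum_filter_not T (fun p => j p ≤ l) w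
    have a5 := H.cut (by linarith) hg (u := E / (l + 1)) (z := z) (by positivity)
      (by rw [div_le_iff₀ l0]; rw [div_lt_iff₀ hz] at iz'; nlinarith) hT (fun p => ¬j p ≤ l)
      fun p _ b => by
        rw [not_not, hj] at b
        have := (Nat.lt_floor_add_one (E / h (c p))).trans_le
          (show ((⌊E / h (c p)⌋₊ : ℕ) : ℝ) + 1 ≤ l + 1 by exact_mod_cast Nat.succ_le_succ b)
        rw [div_lt_iff₀ (h0 _)] at this
        rw [div_le_iff₀ l0]
        linarith
    rw [← hV] at a5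
    have a6 : K * z / (E / (l + 1)) ≤ K * (l + 1) / i := by
      rw [le_div_iff₀ hz] at iz
      rw [div_div_eq_mul_div, div_le_div_iff₀ E0 i0]
      nlinarith [mul_le_mul_of_nonneg_left iz (mul_pos (show 0 < K by linarith) l0).le]
    have a7 := a5.trans (mul_le_mul_of_nonneg_right a6 V0)
    rw [a2] at a7
    rw [mul_sub, mul_one, mul_comm V]
    linarith
  obtain ⟨M, hM⟩ : ∃ M, M = i + T.sup j := ⟨_, rfl⟩
  have iM : i ≤ M := by omega
  have jM : ∀ p ∈ T, j p ≤ M := fun p hp => by have := le_sup (f := j) hp; omega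
  refine ⟨M + 1, ?_⟩
  rw [← tele hi K iM]
  have e : ∀ p ∈ T, w p * φ (j p) =
      w p * φ M + ∑ l ∈ Ico i M, if j p ≤ l then w p * (φ l - φ (l + 1)) else 0 := fun p hp => by
    have : (Ico i M).filter (fun l => j p ≤ l) = Ico (j p) M := by
      ext l
      have := ji p hp
      simp only [mem_filter, mem_Ico]
      omega
    rw [← sum_filter, this, ← mul_sum, ← mul_add]
    congr 1
    have := sum_Ico_sub φ (jM p hp)
    simp only [sum_sub_distrib] at this ⊢
    linarith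
  rw [sum_congr rfl e, sum_add_distrib, sum_comm, mul_add, mul_sum, ← sum_mul, ← mul_assoc]
  refine add_le_add (mul_le_mul_of_nonneg_right ?_ (φ0 M)) (sum_le_sum fun l hl => ?_)
  · have := W M iM
    rwa [filter_true_of_mem jM] at this
  · rw [← sum_filter, ← sum_mul, ← mul_assoc]
    exact mul_le_mul_of_nonneg_right (W l (mem_Ico.1 hl).1) (sub_nonneg.2 (φ1 l (mem_Ico.1 hl).1))

theorem floor_sub {N : ℕ} {D x : ℝ} (hx : 0 < x) :
    ⌊N * (D - x) / x⌋₊ = ⌊N * D / x⌋₊ - N := by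
  rw [← Nat.floor_sub_natCast]
  congr 1
  field_simp

/-- The theorem of Jurkat and Richert. -/
theorem jr (hc : Monotone c) (hh : Monotone h) (h0 : ∀ n, 0 < h n) {K : ℝ} {N : ℕ} {a b : ℕ → ℝ}
    (tab : Tab K N a b) (T : Finset ℕ) (H : Dim c h g K T) (hg : ∀ p ∈ T, 0 ≤ g p ∧ g p ≤ 1)
    (D z : ℝ) (hz : 0 < z) (hT : ∀ p ∈ T, h (c p) ≤ z) :
    (N ≤ ⌊N * D / z⌋₊ → VV c h g true D T ≤ (∏ p ∈ T, (1 - g p)) * (1 + a ⌊N * D / z⌋₊)) ∧
    (2 * N ≤ ⌊N * D / z⌋₊ → (∏ p ∈ T, (1 - g p)) * (1 - b ⌊N * D / z⌋₊) ≤ VV c h g false D T) ∧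
    (0 < D → D ≤ 3 * z →
      VV c h g true D T ≤ (∏ p ∈ T, (1 - g p)) * (K * (3 * z / D) * (1 + a (3 * N)))) := by
  have hN := tab.hN
  have hK := tab.hK
  have N0 : (0 : ℝ) < N := by exact_mod_cast hN
  obtain ⟨n, hn⟩ : ∃ n, #T ≤ n := ⟨_, le_rfl⟩
  induction n using Nat.strong_induction_on generalizing T D z with
  | _ n ih =>
  have sub : ∀ T' : Finset ℕ, T' ⊆ T → ∀ p ∈ T', T'.filter (· < p) ⊆ T ∧ #(T'.filter (· < p)) < n :=
    fun T' hs p hp => ⟨(filter_subset _ _).trans hs, lt_of_lt_of_le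
      (card_lt_card (filter_ssubset.2 ⟨p, hp, lt_irrefl _⟩)) ((card_le_card hs).trans hn)⟩
  have ih' := fun (T' : Finset ℕ) (hs : T' ⊆ T) (p : ℕ) (hp : p ∈ T') (D : ℝ) =>
    ih _ (sub T' hs p hp).2 (T'.filter (· < p)) (H.mono (by linarith) (sub T' hs p hp).1 hg)
      (fun q hq => hg q ((sub T' hs p hp).1 hq)) (D - h (c p)) (h (c p)) (h0 _)
      (fun q hq => hh (hc (mem_filter.1 hq).2.le)) le_rfl
  simp only [floor_sub (h0 _)] at ih'
  have fl : ∀ (D z : ℝ) (p k : ℕ), 0 < z → h (c p) ≤ z → (k + 1) * N ≤ ⌊N * D / z⌋₊ →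
      (k + 1) * N ≤ ⌊N * D / h (c p)⌋₊ ∧ (k + 1) * z ≤ D := fun D z p k hz hp e => by
    have e0 : (k + 1) * N ≠ 0 := by positivity
    have e1 := (Nat.le_floor_iff' e0).1 e
    rw [le_div_iff₀ hz] at e1
    push_cast at e1
    have e2 : (k + 1) * z ≤ D := le_of_mul_le_mul_left (by linarith) N0
    have D0 : 0 ≤ D := le_trans (by positivity) e2
    exact ⟨e.trans (Nat.floor_mono (div_le_div_of_nonneg_left (by positivity) (h0 _) hp)), e2⟩
  have P0 : ∀ T' : Finset ℕ, T' ⊆ T → 0 ≤ ∏ p ∈ T', (1 - g p) := fun T' hs =>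
    prod_nonneg fun q hq => sub_nonneg.2 (hg q (hs hq)).2
  have A3 : ∀ T' : Finset ℕ, T' ⊆ T → ∀ D z : ℝ, 0 < z → (∀ p ∈ T', h (c p) ≤ z) →
      3 * N ≤ ⌊N * D / z⌋₊ →
      VV c h g true D T' ≤ (∏ p ∈ T', (1 - g p)) * (1 + a ⌊N * D / z⌋₊) := fun T' hs D z hz hT e => by
    obtain ⟨M, hM⟩ := abel hc hh h0 hK (H.mono (by linarith) hs hg) (fun p hp => hg p (hs hp))
      (E := N * D) hz hT (by omega) (φ := fun l => b (l - N)) (fun l => tab.b0 _) fun l hl => by
        have := tab.mb (l - N) (by omega)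
        rwa [show l - N + 1 = l + 1 - N by omega] at this
    have a1 := hM.trans (mul_le_mul_of_nonneg_left (tab.hA _ M e) (P0 T' hs))
    have a2 := prod_eq g T'
    rw [VV_eq hc, mul_add, mul_one]
    have a3 : ∑ p ∈ T', (g p * ∏ q ∈ T'.filter (· < p), (1 - g q) -
        g p * (∏ q ∈ T'.filter (· < p), (1 - g q)) * b (⌊N * D / h (c p)⌋₊ - N)) ≤
        ∑ p ∈ T', if true = true → 3 * h (c p) ≤ D then
          g p * VV c h g (!true) (D - h (c p)) (T'.filter (· < p)) else 0 :=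
      sum_le_sum fun p hp => by
        obtain ⟨f1, f2⟩ := fl D z p 2 hz (hT p hp) e
        rw [if_pos fun _ => by push_cast at f2; linarith [hT p hp]]
        have := mul_le_mul_of_nonneg_left ((ih' T' hs p hp D).2.1 (by omega)) (hg p (hs hp)).1
        rw [Bool.not_true]
        linarith
    rw [sum_sub_distrib] at a3
    linarith
  have A0 : 0 < D → D ≤ 3 * z →
      VV c h g true D T ≤ (∏ p ∈ T, (1 - g p)) * (K * (3 * z / D) * (1 + a (3 * N))) := fun D0 e => by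
    have e1 : ⌊N * D / (D / 3)⌋₊ = 3 * N := by
      rw [show N * D / (D / 3) = ((3 * N : ℕ) : ℝ) by push_cast; field_simp, Nat.floor_natCast]
    have a1 := A3 (T.filter fun p => 3 * h (c p) ≤ D) (filter_subset _ _) D (D / 3) (by positivity)
      (fun p hp => by linarith [(mem_filter.1 hp).2]) e1.ge
    have a2 := H.cut (by linarith) hg (u := D / 3) (z := z) (by positivity) (by linarith) hT
      (fun p => 3 * h (c p) ≤ D) fun p _ e => by linarith [not_le.1 e]
    have a3 : VV c h g true D T = VV c h g true D (T.filter fun p => 3 * h (c p) ≤ D) := by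
      rw [VV_eq hc, VV_eq hc true D (T.filter _), sum_filter]
      congr 1
      refine sum_congr rfl fun p _ => ?_
      by_cases e : 3 * h (c p) ≤ D
      · rw [if_pos fun _ => e, if_pos e, if_pos fun _ => e]
        congr 2
        ext q
        simp only [mem_filter]
        exact ⟨fun a => ⟨⟨a.1, by linarith [hh (hc a.2.le)]⟩, a.2⟩, fun a => ⟨a.1.1, a.2⟩⟩
      · rw [if_neg fun f => e (f rfl), if_neg e]
    rw [e1] at a1
    rw [a3]
    refine a1.trans ((mul_le_mul_of_nonneg_right a2 (by linarith [tab.a0 (3 * N)])).trans_eq ?_)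
    field_simp
  refine ⟨fun e => ?_, fun e => ?_, A0⟩
  · rcases le_or_gt (3 * N) ⌊N * D / z⌋₊ with e' | e'
    · exact A3 T Subset.rfl D z hz hT e'
    · have i0 : (0 : ℝ) < (⌊N * D / z⌋₊ : ℕ) := by exact_mod_cast hN.trans e
      have e0 : 0 < N * D / z := by
        by_contra f
        rw [Nat.floor_of_nonpos (not_lt.1 f)] at e
        omega
      have D0 : 0 < D := by
        have := mul_pos e0 hz
        rw [div_mul_cancel₀ _ hz.ne'] at this
        exact (mul_pos_iff_of_pos_left N0).1 this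
      have f1 := (Nat.floor_lt e0.le).1 e'
      have f2 := Nat.floor_le e0.le
      rw [div_lt_iff₀ hz] at f1
      rw [le_div_iff₀ hz] at f2
      push_cast at f1
      refine (A0 D0 (le_of_mul_le_mul_left (by linarith) N0)).trans
        (mul_le_mul_of_nonneg_left (le_trans ?_ (tab.hA0 _ e e')) (P0 T Subset.rfl))
      refine mul_le_mul_of_nonneg_right (mul_le_mul_of_nonneg_left ?_ (by linarith))
        (by linarith [tab.a0 (3 * N)])
      rw [div_le_div_iff₀ D0 i0]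
      linarith
  · obtain ⟨M, hM⟩ := abel hc hh h0 hK H hg
      (E := N * D) hz hT (by omega) (φ := fun l => a (l - N)) (fun l => tab.a0 _) fun l hl => by
        have := tab.ma (l - N) (by omega)
        rwa [show l - N + 1 = l + 1 - N by omega] at this
    have a1 := hM.trans (mul_le_mul_of_nonneg_left (tab.hB _ M e) (P0 T Subset.rfl))
    have a2 := prod_eq g T
    rw [VV_eq hc, mul_sub, mul_one]
    have a3 : (∑ p ∈ T, if false = true → 3 * h (c p) ≤ D then
          g p * VV c h g (!false) (D - h (c p)) (T.filter (· < p)) else 0) ≤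
        ∑ p ∈ T, (g p * ∏ q ∈ T.filter (· < p), (1 - g q) +
          g p * (∏ q ∈ T.filter (· < p), (1 - g q)) * a (⌊N * D / h (c p)⌋₊ - N)) :=
      sum_le_sum fun p hp => by
        obtain ⟨f1, f2⟩ := fl D z p 1 hz (hT p hp) e
        rw [if_pos (by simp)]
        have := mul_le_mul_of_nonneg_left ((ih' T Subset.rfl p hp D).1 (by omega)) (hg p hp).1
        rw [Bool.not_false]
        linarith
    rw [sum_add_distrib] at a3
    linarith

end Pool.Agent.Lib.MP_4b1228_nt.PP.LS
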