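import Pool.Agent.Lib.MP_4b1228_nt.PP.LST
import Pool.Agent.Lib.MP_4b1228_nt.PP.LSW

/-!
The table of `LST` in the shape used by `LS.jr`, and its values at `s = j / 16`.
-/

namespace Pool.Agent.Lib.MP_4b1228_nt.PP.LST

theorem tabW : LS.Tab (10001 / 10000) 320 ta tb := by
  refine ⟨by norm_num, by norm_num, ta_nonneg, tb_nonneg, fun i _ => ta_anti (Nat.le_succ i),
    fun i _ => tb_anti (Nat.le_succ i), fun i M h => sumB h M, fun i M h => sumA h M,
    fun i h h' => ?_⟩
  have := cond0 h h'
  have e : (3 : ℝ) * (320 : ℕ) = 960 := by norm_num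
  rw [e]
  exact this

def FupL : List ℕ :=
  [0, 57116197, 28558099, 19038733, 14279050, 11423240, 9519367, 8159457, 7139525, 6346245,
   5711620, 5192382, 4759684, 4393554, 4079729, 3807747, 3569763, 3359777, 3173123, 3006116,
   2855810, 2719819, 2596191, 2483313, 2379842, 2284648, 2196777, 2115415, 2039865, 1969525,
   1903874, 1842458, 1784882, 1730794, 1679889, 1631892, 1586562, 1543681, 1503058, 1464518,
   1427905, 1393078, 1359910, 1328284, 1298096, 1269249, 1241657, 1215239, 1189802, 1166405,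
   1145935, 1127997, 1112261, 1098440, 1086293, 1075609, 1066208, 1057933, 1050649, 1044237,
   1038594, 1033630, 1029266, 1025431, 1022064, 1019112, 1016526, 1014264, 1012289, 1010567,
   1009068, 1007768, 1006640, 1005667, 1004827, 1004105, 1003487, 1002958, 1002507, 1002123,
   1001797, 1001521, 1001286, 1001087, 1000918, 1000775, 1000654, 1000551, 1000464, 1000390,
   1000328, 1000276, 1000232, 1000195, 1000163, 1000137, 1000115, 1000096, 1000081, 1000068,
   1000057, 1000048, 1000040, 1000034, 1000029, 1000025, 1000021, 1000018, 1000015, 1000013,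
   1000012, 1000010, 1000010, 1000010, 1000010, 1000010, 1000010, 1000010, 1000010, 1000010,
   1000010, 1000010, 1000010, 1000010, 1000010, 1000010, 1000010, 1000010]

def floL : List ℕ :=
  [0, 0, 0, 0, 0, 0, 0, 0, 0, 0, 0, 0, 0, 0, 0, 0, 0, 0, 0, 0, 0, 0, 0, 0, 0, 0, 0, 0, 0, 0, 0,
   0, 0, 98087, 191377, 274277, 348157, 414170, 473286, 526335, 574022, 616957, 655666, 690603,
   722166, 750704, 776520, 799885, 821035, 840181, 857509, 873187, 887364, 900173, 911733,
   922152, 931528, 939947, 947489, 954225, 960222, 965537, 970225, 974336, 977913, 981000,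
   983661, 985954, 987932, 989638, 991109, 992378, 993472, 994414, 995225, 995923, 996523,
   997039, 997481, 997860, 998185, 998462, 998699, 998901, 999072, 999218, 999342, 999446,
   999535, 999609, 999672, 999725, 999769, 999807, 999838, 999864, 999886, 999904, 999920,
   999932, 999943, 999952, 999960, 999966, 999971, 999975, 999979, 999982, 999985, 999987,
   999988, 999990, 999990, 999990, 999990, 999990, 999990, 999990, 999990, 999990, 999990,
   999990, 999990, 999990, 999990, 999990, 999990, 999990]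

/-- `10 ^ 6` times an upper bound for `F (j / 16)`, for `1 ≤ j < 128`. -/
def Fup (j : ℕ) : ℕ := FupL.getD j 0

/-- `10 ^ 6` times a lower bound for `f (j / 16)`, for `33 ≤ j < 128`. -/
def flo (j : ℕ) : ℕ := floL.getD j 0

theorem Fup_ck : ∀ j < 128, 16 ≤ j →
    1000000000 ≤ 1000 * Fup j ∧ sa (20 * j) ≤ sa (20 * j + 1) + (1000 * Fup j - 1000000000) := by
  decide +kernel

theorem flo_ck : ∀ j < 128, 33 ≤ j →
    1000 * flo j ≤ 1000000000 ∧ sb (20 * j) ≤ sb (20 * j + 1) + (1000000000 - 1000 * flo j) := by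
  decide +kernel

theorem Fup_lo : ∀ j < 16, 1 ≤ j → 10001 * 48 * 1189801779 ≤ 10000000 * j * Fup j := by
  decide +kernel

theorem Fup_ge {j : ℕ} (h : 16 ≤ j) (h' : j < 128) : 1 + ta (20 * j) ≤ (Fup j : ℝ) / 10 ^ 6 := by
  obtain ⟨k1, k2⟩ := Fup_ck j h' h
  have := ta_le (by omega) (by omega) k2
  rw [Nat.cast_sub k1] at this
  push_cast at this
  linarith

theorem flo_le {j : ℕ} (h : 33 ≤ j) (h' : j < 128) : (flo j : ℝ) / 10 ^ 6 ≤ 1 - tb (20 * j) := by
  obtain ⟨k1, k2⟩ := flo_ck j h' h
  have := tb_le (by omega) (by omega) k2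
  rw [Nat.cast_sub k1] at this
  push_cast at this
  linarith

/-- The closed form for `s = j / 16 < 1`. -/
theorem Fup_small {j : ℕ} (h : 1 ≤ j) (h' : j < 16) :
    10001 / 10000 * (48 / (j : ℝ)) * (1 + ta 960) ≤ (Fup j : ℝ) / 10 ^ 6 := by
  have k : (10001 : ℝ) * 48 * 1189801779 ≤ 10000000 * j * Fup j := by
    exact_mod_cast Fup_lo j h' h
  have jp : (0 : ℝ) < j := by exact_mod_cast h
  rw [ta_960, ← sub_nonneg]
  have : (Fup j : ℝ) / 10 ^ 6 - 10001 / 10000 * (48 / (j : ℝ)) * (1 + 189801779 / 10 ^ 9) =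
      (10000000 * j * Fup j - (10001 : ℝ) * 48 * 1189801779) / (10 ^ 13 * j) := by
    field_simp
    ring
  rw [this]
  exact div_nonneg (sub_nonneg.2 k) (by positivity)

/-- Upper bound at every index above the grid point. -/
theorem Fup_ge' {j i : ℕ} (h : 16 ≤ j) (h' : j < 128) (hi : 20 * j ≤ i) :
    1 + ta i ≤ (Fup j : ℝ) / 10 ^ 6 := by
  have := ta_anti hi
  have := Fup_ge h h'
  linarith

/-- Lower bound at every index above the grid point. -/
theorem flo_le' {j i : ℕ} (h : 33 ≤ j) (h' : j < 128) (hi : 20 * j ≤ i) :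
    (flo j : ℝ) / 10 ^ 6 ≤ 1 - tb i := by
  have := tb_anti hi
  have := flo_le h h'
  linarith

end Pool.Agent.Lib.MP_4b1228_nt.PP.LST
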