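import Mathlib

/-!
Sieve weights that depend only on the pattern of classes: transfer from sets of primes to
squarefree integers, and the bilinear form attached to a splitting of the patterns.
-/

open Finset Real
open scoped Classical

noncomputable section

namespace Pool.Agent.Lib.MP_4b1228_nt.PP.LSX

/-- The pattern of an integer. -/
def pt (c : ℕ → ℕ) (d : ℕ) : Multiset ℕ := d.primeFactors.val.map c

/-- Squarefree, with all prime factors in `P`. -/
def In (P : Finset ℕ) (d : ℕ) : Prop := Squarefree d ∧ d.primeFactors ⊆ P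

/-- The weight of a set of primes. -/
def lam (c : ℕ → ℕ) (chi : Multiset ℕ → Prop) (S : Finset ℕ) : ℝ :=
  if chi (S.val.map c) then (-1) ^ S.card else 0

/-- The weight of an integer. -/
def wt (P : Finset ℕ) (c : ℕ → ℕ) (chi : Multiset ℕ → Prop) (d : ℕ) : ℝ :=
  if In P d then lam c chi d.primeFactors else 0

variable {P : Finset ℕ} {c : ℕ → ℕ} {chi : Multiset ℕ → Prop}

lemma wt_eq (d : ℕ) :
    wt P c chi d = if In P d ∧ chi (pt c d) then (-1) ^ d.primeFactors.card else 0 := by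
  unfold wt lam pt
  by_cases h1 : In P d <;> by_cases h2 : chi (d.primeFactors.val.map c) <;> simp [h1, h2]

lemma abs_wt (d : ℕ) : |wt P c chi d| ≤ 1 := by
  rw [wt_eq]
  split_ifs <;> simp

lemma wt_supp {d : ℕ} (h : wt P c chi d ≠ 0) : In P d ∧ chi (pt c d) := by
  rw [wt_eq] at h
  by_contra h1
  exact h (if_neg h1)

lemma sgn_eq_moebius {d : ℕ} (h : Squarefree d) :
    ((-1 : ℝ)) ^ d.primeFactors.card = (ArithmeticFunction.moebius d : ℝ) := by
  rw [ArithmeticFunction.moebius_apply_of_squarefree h,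
    ← (ArithmeticFunction.cardDistinctFactors_eq_cardFactors_iff_squarefree h.ne_zero).2 h,
    ArithmeticFunction.cardDistinctFactors_apply, ← List.card_toFinset]
  push_cast
  rfl

lemma in_prod (hP : ∀ p ∈ P, p.Prime) {S : Finset ℕ} (hS : S ⊆ P) :
    In P (∏ p ∈ S, p) ∧ (∏ p ∈ S, p).primeFactors = S := by
  have h1 := Nat.primeFactors_prod (s := S) fun p hp => hP p (hS hp)
  refine ⟨⟨?_, h1.symm ▸ hS⟩, h1⟩
  refine Finset.squarefree_prod_of_pairwise_isCoprime (fun p hp q hq hpq => ?_)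
    fun p hp => (hP p (hS hp)).prime.squarefree
  exact Nat.coprime_iff_isRelPrime.1 ((Nat.coprime_primes (hP p (hS hp)) (hP q (hS hq))).2 hpq)

/-- Sums over divisors. -/
theorem sum_dvd (hP : ∀ p ∈ P, p.Prime) {n : ℕ} (hn : n ≠ 0) (G : Finset ℕ → ℝ) :
    ∑ d ∈ n.divisors, (if In P d then G d.primeFactors else 0) =
      ∑ S ∈ (P.filter (· ∣ n)).powerset, G S := by
  rw [← sum_filter]
  refine sum_nbij' (fun d => d.primeFactors) (fun T => ∏ p ∈ T, p) ?_ ?_ ?_ ?_ fun _ _ => rfl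
  · intro d hd
    obtain ⟨h1, h2⟩ := mem_filter.1 hd
    refine mem_powerset.2 fun p hp => mem_filter.2 ⟨h2.2 hp, ?_⟩
    exact (Nat.dvd_of_mem_primeFactors hp).trans (Nat.dvd_of_mem_divisors h1)
  · intro T hT
    have hT' := mem_powerset.1 hT
    refine mem_filter.2 ⟨Nat.mem_divisors.2 ⟨?_, hn⟩,
      (in_prod hP (hT'.trans (filter_subset _ _))).1⟩
    refine (prod_dvd_prod_of_subset _ _ _ fun p hp => ?_).trans (Nat.prod_primeFactors_dvd n)
    obtain ⟨h1, h2⟩ := mem_filter.1 (hT' hp)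
    exact Nat.mem_primeFactors.2 ⟨hP p h1, h2, hn⟩
  · intro d hd
    exact Nat.prod_primeFactors_of_squarefree (mem_filter.1 hd).2.1
  · intro T hT
    exact (in_prod hP ((mem_powerset.1 hT).trans (filter_subset _ _))).2

/-- (a) The sum of the weights over the divisors of `n`. -/
theorem sum_wt_dvd (hP : ∀ p ∈ P, p.Prime) {n : ℕ} (hn : n ≠ 0) :
    ∑ d ∈ n.divisors, wt P c chi d = ∑ S ∈ (P.filter (· ∣ n)).powerset, lam c chi S :=
  sum_dvd hP hn _

/-- (b) The mean of the weights, over any finite set containing the support. -/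
theorem sum_wt_mul (hP : ∀ p ∈ P, p.Prime) (F : Finset ℕ)
    (hF : ∀ d, In P d → chi (pt c d) → d ∈ F) (G : Finset ℕ → ℝ) :
    ∑ d ∈ F, wt P c chi d * G d.primeFactors = ∑ S ∈ P.powerset, lam c chi S * G S := by
  rw [← sum_filter_of_ne (p := fun d => In P d ∧ chi (pt c d))
      fun d _ h => wt_supp (left_ne_zero_of_mul h),
    ← sum_filter_of_ne (s := P.powerset) (p := fun S => chi (S.val.map c))
      fun S _ h => by
        by_contra h1
        exact left_ne_zero_of_mul h (if_neg h1)]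
  refine sum_nbij' (fun d => d.primeFactors) (fun T => ∏ p ∈ T, p) ?_ ?_ ?_ ?_ ?_
  · intro d hd
    obtain ⟨_, h2, h3⟩ := mem_filter.1 hd
    exact mem_filter.2 ⟨mem_powerset.2 h2.2, h3⟩
  · intro T hT
    obtain ⟨h1, h2⟩ := mem_filter.1 hT
    obtain ⟨h3, h4⟩ := in_prod hP (mem_powerset.1 h1)
    have h5 : chi (pt c (∏ p ∈ T, p)) := by
      unfold pt
      rwa [h4]
    exact mem_filter.2 ⟨hF _ h3 h5, h3, h5⟩
  · intro d hd
    exact Nat.prod_primeFactors_of_squarefree (mem_filter.1 hd).2.1.1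
  · intro T hT
    exact (in_prod hP (mem_powerset.1 (mem_filter.1 hT).1)).2
  · intro d hd
    unfold wt
    rw [if_pos (mem_filter.1 hd).2.1]

lemma sum_pset (S : Finset ℕ) (G : Multiset ℕ → ℝ) :
    ∑ T ∈ S.powerset, G (T.val.map c) = ((S.val.map c).powerset.map G).sum := by
  induction S using Finset.induction_on generalizing G with
  | empty => simp
  | insert a S ha ih =>
    rw [sum_powerset_insert ha, insert_val_of_notMem ha, Multiset.map_cons, Multiset.powerset_cons,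
      Multiset.map_add, Multiset.sum_add, Multiset.map_map, ← ih, ← ih]
    congr 1
    refine sum_congr rfl fun T hT => ?_
    rw [insert_val_of_notMem (notMem_mono (mem_powerset.1 hT) ha), Multiset.map_cons]
    rfl

lemma sum_pt {k : ℕ} (hk : Squarefree k) (G : Multiset ℕ → ℝ) :
    ∑ d ∈ k.divisors, G (pt c d) = ((pt c k).powerset.map G).sum := by
  have h := sum_dvd (P := k.primeFactors) (fun p hp => Nat.prime_of_mem_primeFactors hp)
    hk.ne_zero fun T => G (T.val.map c)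
  rw [filter_true_of_mem fun p hp => Nat.dvd_of_mem_primeFactors hp, sum_pset] at h
  refine Eq.trans (sum_congr rfl fun d hd => ?_) h
  have hd' := Nat.dvd_of_mem_divisors hd
  rw [if_pos ⟨hk.squarefree_of_dvd hd', Nat.primeFactors_mono hd' hk.ne_zero⟩]
  rfl

lemma pt_mul {a b : ℕ} (h : Squarefree (a * b)) : pt c a + pt c b = pt c (a * b) := by
  have hc := Nat.coprime_of_squarefree_mul h
  unfold pt
  rw [hc.primeFactors_mul, ← disjUnion_eq_union _ _ hc.disjoint_primeFactors, ← Multiset.map_add]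
  rfl

lemma card_pt (d : ℕ) : Multiset.card (pt c d) = d.primeFactors.card := by
  unfold pt
  rw [Multiset.card_map]
  rfl

lemma in_mul {a b : ℕ} (h : Squarefree (a * b)) : In P (a * b) ↔ In P a ∧ In P b := by
  have hc := Nat.coprime_of_squarefree_mul h
  unfold In
  rw [hc.primeFactors_mul, union_subset_iff]
  exact ⟨fun h1 => ⟨⟨h.of_mul_left, h1.2.1⟩, h.of_mul_right, h1.2.2⟩,
    fun h1 => ⟨h, h1.1.2, h1.2.2⟩⟩

lemma sum_ind (m : Multiset (Multiset ℕ)) (a : Multiset ℕ) (x : ℝ) :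
    (m.map fun v => if v = a then x else 0).sum = m.count a * x := by
  induction m using Multiset.induction_on with
  | empty => simp
  | cons b m ih =>
    rw [Multiset.map_cons, Multiset.sum_cons, ih, Multiset.count_cons]
    by_cases h : b = a
    · simp only [h, if_true]
      push_cast
      ring
    · simp [h, Ne.symm h]

/-- The bilinear form, indexed by the patterns. -/
theorem bilE (R₁ R₂ : Multiset ℕ → Prop) (E : Finset (Multiset ℕ))
    (hs : ∀ δ ∈ E, chi δ → ∃ δ₁ δ₂, δ = δ₁ + δ₂ ∧ R₁ δ₁ ∧ R₂ δ₂)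
    (hE : ∀ d, In P d → chi (pt c d) → pt c d ∈ E) :
    ∃ al be : Multiset ℕ → ℕ → ℝ,
      (∀ j d, |al j d| ≤ 1 ∧ |be j d| ≤ 1 ∧ (al j d ≠ 0 → In P d ∧ R₁ (pt c d)) ∧
        (be j d ≠ 0 → In P d ∧ R₂ (pt c d))) ∧
      ∀ d, Squarefree d →
        wt P c chi d = ∑ j ∈ E, ∑ x ∈ d.divisorsAntidiagonal, al j x.1 * be j x.2 := by
  choose! s₁ s₂ h1 h2 h3 using hs
  have hN : ∀ δ ∈ E, chi δ → (1 : ℝ) ≤ δ.powerset.count (s₁ δ) := by
    intro δ hδ h
    have : s₁ δ ≤ δ := by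
      conv_rhs => rw [h1 δ hδ h]
      exact Multiset.le_add_right _ _
    exact_mod_cast Multiset.one_le_count_iff_mem.2 (Multiset.mem_powerset.2 this)
  refine ⟨fun δ d => if (δ ∈ E ∧ chi δ) ∧ In P d ∧ pt c d = s₁ δ then
      (-1) ^ d.primeFactors.card else 0,
    fun δ d => if (δ ∈ E ∧ chi δ) ∧ In P d ∧ pt c d = s₂ δ then
      (-1) ^ d.primeFactors.card / δ.powerset.count (s₁ δ) else 0, fun δ d => ⟨?_, ?_, ?_, ?_⟩, ?_⟩
  · dsimp only
    split_ifs <;> simp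
  · dsimp only
    split_ifs with h
    · have := hN δ h.1.1 h.1.2
      rw [abs_div, abs_pow, abs_neg, abs_one, one_pow, abs_of_pos (by linarith)]
      exact div_le_one_of_le₀ this (by linarith)
    · simp
  · intro h
    dsimp only at h
    split_ifs at h with h4
    · exact ⟨h4.2.1, h4.2.2 ▸ h2 δ h4.1.1 h4.1.2⟩
    · exact absurd rfl h
  · intro h
    dsimp only at h
    split_ifs at h with h4
    · exact ⟨h4.2.1, h4.2.2 ▸ h3 δ h4.1.1 h4.1.2⟩
    · exact absurd rfl h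
  intro d hd
  have key : ∀ δ ∈ E, ∀ x ∈ d.divisorsAntidiagonal,
      (if (δ ∈ E ∧ chi δ) ∧ In P x.1 ∧ pt c x.1 = s₁ δ then
        (-1 : ℝ) ^ x.1.primeFactors.card else 0) *
      (if (δ ∈ E ∧ chi δ) ∧ In P x.2 ∧ pt c x.2 = s₂ δ then
        (-1 : ℝ) ^ x.2.primeFactors.card / δ.powerset.count (s₁ δ) else 0) =
      if pt c d = δ then (if pt c x.1 = s₁ δ then
        wt P c chi d / δ.powerset.count (s₁ δ) else 0) else 0 := by
    intro δ hδ x hx
    have e := (Nat.mem_divisorsAntidiagonal.1 hx).1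
    have hsq : Squarefree (x.1 * x.2) := e ▸ hd
    have e1 : pt c x.1 + pt c x.2 = pt c d := by rw [pt_mul hsq, e]
    have e2 : In P d ↔ In P x.1 ∧ In P x.2 := by rw [← in_mul hsq, e]
    have e3 : x.1.primeFactors.card + x.2.primeFactors.card = d.primeFactors.card := by
      rw [← card_pt (c := c), ← card_pt (c := c), ← card_pt (c := c), ← Multiset.card_add, e1]
    rw [wt_eq]
    by_cases a1 : (δ ∈ E ∧ chi δ) ∧ In P x.1 ∧ pt c x.1 = s₁ δ
    · by_cases a2 : (δ ∈ E ∧ chi δ) ∧ In P x.2 ∧ pt c x.2 = s₂ δ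
      · have a3 : pt c d = δ := by rw [← e1, a1.2.2, a2.2.2, ← h1 δ hδ a1.1.2]
        rw [if_pos a1, if_pos a2, if_pos a3, if_pos a1.2.2,
          if_pos ⟨e2.2 ⟨a1.2.1, a2.2.1⟩, a3 ▸ a1.1.2⟩, ← e3, pow_add]
        ring
      · rw [if_neg a2, mul_zero]
        split_ifs with a3 a4 a5
        · refine absurd ⟨a1.1, (e2.1 a5.1).2, ?_⟩ a2
          have e4 : pt c x.1 + pt c x.2 = pt c x.1 + s₂ δ := by
            rw [e1, a3, a4]
            exact h1 δ hδ a1.1.2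
          exact add_left_cancel e4
        all_goals simp
    · rw [if_neg a1, zero_mul]
      split_ifs with a3 a4 a5
      · exact absurd ⟨⟨hδ, a3 ▸ a5.2⟩, (e2.1 a5.1).1, a4⟩ a1
      all_goals simp
  rw [sum_congr rfl fun δ hδ => sum_congr rfl (key δ hδ), sum_comm]
  simp only [sum_ite_eq]
  by_cases h0 : In P d ∧ chi (pt c d)
  · have hδ := hE d h0.1 h0.2
    simp only [hδ, if_true]
    rw [Nat.sum_divisorsAntidiagonal fun x _ => if pt c x = s₁ (pt c d) then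
        wt P c chi d / (pt c d).powerset.count (s₁ (pt c d)) else 0,
      sum_pt hd fun v => if v = s₁ (pt c d) then
        wt P c chi d / (pt c d).powerset.count (s₁ (pt c d)) else 0, sum_ind]
    have := hN _ hδ h0.2
    field_simp
  · have : wt P c chi d = 0 := by rw [wt_eq, if_neg h0]
    simp [this]

lemma enum {α : Type} (E : Finset α) (a : α) :
    ∃ e : ℕ → α, ∀ F : α → ℝ, ∑ j ∈ range E.card, F (e j) = ∑ x ∈ E, F x := by
  refine ⟨fun j => if h : j < E.card then (E.equivFin.symm ⟨j, h⟩ : α) else a, fun F => ?_⟩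
  rw [sum_range, ← sum_coe_sort E, ← E.equivFin.symm.sum_comp]
  exact sum_congr rfl fun j _ => by simp only [dif_pos j.2]

/-- (c) The bilinear form. -/
theorem bil (R₁ R₂ : Multiset ℕ → Prop) (E : Finset (Multiset ℕ))
    (hs : ∀ δ ∈ E, chi δ → ∃ δ₁ δ₂, δ = δ₁ + δ₂ ∧ R₁ δ₁ ∧ R₂ δ₂)
    (hE : ∀ d, In P d → chi (pt c d) → pt c d ∈ E) :
    ∃ al be : ℕ → ℕ → ℝ,
      (∀ j d, |al j d| ≤ 1 ∧ |be j d| ≤ 1 ∧ (al j d ≠ 0 → In P d ∧ R₁ (pt c d)) ∧
        (be j d ≠ 0 → In P d ∧ R₂ (pt c d))) ∧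
      ∀ d, Squarefree d →
        wt P c chi d = ∑ j ∈ range E.card, ∑ x ∈ d.divisorsAntidiagonal, al j x.1 * be j x.2 := by
  obtain ⟨al, be, h1, h2⟩ := bilE R₁ R₂ E hs hE
  obtain ⟨e, he⟩ := enum E 0
  exact ⟨fun j => al (e j), fun j => be (e j), fun j d => h1 _ d, fun d hd => by
    rw [h2 d hd, ← he fun j => ∑ x ∈ d.divisorsAntidiagonal, al j x.1 * be j x.2]⟩

/-- (d) Sizes. -/
theorem le_rpow {h : ℕ → ℝ} {Y D : ℝ} (hY : 1 ≤ Y) (hp : ∀ p ∈ P, (p : ℝ) ≤ Y ^ h (c p)) {d : ℕ}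
    (hd : In P d) (hD : ((pt c d).map h).sum ≤ D) : (d : ℝ) ≤ Y ^ D := by
  refine le_trans ?_ (rpow_le_rpow_of_exponent_le hY hD)
  have e : ((pt c d).map h).sum = ∑ p ∈ d.primeFactors, h (c p) := by
    unfold pt
    rw [Multiset.map_map]
    rfl
  rw [e, rpow_sum_of_pos (by linarith)]
  conv_lhs => rw [← Nat.prod_primeFactors_of_squarefree hd.1, Nat.cast_prod]
  exact prod_le_prod (fun p _ => Nat.cast_nonneg p) fun p h1 => hp p (hd.2 h1)

/-- The same with integral sizes. -/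
theorem le_pow {h : ℕ → ℕ} {Y : ℝ} {D : ℕ} (hY : 1 ≤ Y) (hp : ∀ p ∈ P, (p : ℝ) ≤ Y ^ h (c p))
    {d : ℕ} (hd : In P d) (hD : ((pt c d).map h).sum ≤ D) : (d : ℝ) ≤ Y ^ D := by
  refine le_trans ?_ (pow_le_pow_right₀ hY hD)
  have e : ((pt c d).map h).sum = ∑ p ∈ d.primeFactors, h (c p) := by
    unfold pt
    rw [Multiset.map_map]
    rfl
  rw [e, ← prod_pow_eq_pow_sum]
  conv_lhs => rw [← Nat.prod_primeFactors_of_squarefree hd.1, Nat.cast_prod]
  exact prod_le_prod (fun p _ => Nat.cast_nonneg p) fun p h1 => hp p (hd.2 h1)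

/-- Patterns with at most `M` entries, all below `N`. -/
def EE (N M : ℕ) : Finset (Multiset ℕ) := (M • (range N).val).powerset.toFinset

lemma mem_EE {N M : ℕ} {δ : Multiset ℕ} (h1 : Multiset.card δ ≤ M) (h2 : ∀ a ∈ δ, a < N) :
    δ ∈ EE N M := by
  unfold EE
  rw [Multiset.mem_toFinset, Multiset.mem_powerset, Multiset.le_iff_count]
  intro a
  by_cases ha : a ∈ δ
  · rw [Multiset.count_nsmul, Multiset.count_eq_one_of_mem (range N).nodup
      (mem_range.2 (h2 a ha)), mul_one]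
    exact (Multiset.count_le_card _ _).trans h1
  · rw [Multiset.count_eq_zero_of_notMem ha]
    exact Nat.zero_le _

lemma lt_of_mem_EE {N M : ℕ} {δ : Multiset ℕ} (h : δ ∈ EE N M) : ∀ a ∈ δ, a < N := by
  intro a ha
  unfold EE at h
  rw [Multiset.mem_toFinset, Multiset.mem_powerset] at h
  exact mem_range.1 (Multiset.mem_of_mem_nsmul (Multiset.mem_of_le h ha))

lemma card_mul_le {h : ℕ → ℝ} {h₀ : ℝ} {δ : Multiset ℕ} (h1 : ∀ a ∈ δ, h₀ ≤ h a) :
    Multiset.card δ * h₀ ≤ (δ.map h).sum := by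
  have := Multiset.card_nsmul_le_sum (s := δ.map h) (a := h₀) fun x hx => by
    obtain ⟨a, ha, rfl⟩ := Multiset.mem_map.1 hx
    exact h1 a ha
  rwa [Multiset.card_map, nsmul_eq_mul] at this

/-- The bilinear form, with hypotheses only on the patterns that occur. -/
theorem bil' (R₁ R₂ : Multiset ℕ → Prop) (E : Finset (Multiset ℕ))
    (hE : ∀ d, In P d → chi (pt c d) →
      pt c d ∈ E ∧ ∃ δ₁ δ₂, pt c d = δ₁ + δ₂ ∧ R₁ δ₁ ∧ R₂ δ₂) :
    ∃ al be : ℕ → ℕ → ℝ,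
      (∀ j d, |al j d| ≤ 1 ∧ |be j d| ≤ 1 ∧ (al j d ≠ 0 → In P d ∧ R₁ (pt c d)) ∧
        (be j d ≠ 0 → In P d ∧ R₂ (pt c d))) ∧
      ∀ d, Squarefree d →
        wt P c chi d = ∑ j ∈ range E.card, ∑ x ∈ d.divisorsAntidiagonal, al j x.1 * be j x.2 := by
  obtain ⟨al, be, h1, h2⟩ := bil (P := P) (c := c)
    (chi := fun δ => chi δ ∧ ∃ δ₁ δ₂, δ = δ₁ + δ₂ ∧ R₁ δ₁ ∧ R₂ δ₂) R₁ R₂ E
    (fun δ _ h => h.2) fun d hd h => (hE d hd h.1).1
  refine ⟨al, be, h1, fun d hd => ?_⟩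
  rw [← h2 d hd, wt_eq, wt_eq]
  split_ifs with a1 a2 a2
  · rfl
  · exact absurd ⟨a1.1, a1.2, (hE d a1.1 a1.2).2⟩ a2
  · exact absurd ⟨a2.1, a2.2.1⟩ a1
  · rfl

lemma mem_pt {d a : ℕ} (hd : In P d) (ha : a ∈ pt c d) : ∃ p ∈ P, p ∣ d ∧ c p = a := by
  obtain ⟨p, hp, rfl⟩ := Multiset.mem_map.1 ha
  exact ⟨p, hd.2 hp, Nat.dvd_of_mem_primeFactors hp, rfl⟩

/-- Patterns of positive heights with bounded sum. -/
lemma mem_EE_of_sum {D : ℕ} {δ : Multiset ℕ} (h1 : ∀ a ∈ δ, 1 ≤ a) (h2 : δ.sum ≤ D) :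
    δ ∈ EE (D + 1) D := by
  refine mem_EE ?_ fun a ha => Nat.lt_succ_of_le ((Multiset.single_le_sum
    (fun x _ => Nat.zero_le x) a ha).trans h2)
  have := Multiset.card_nsmul_le_sum h1
  rw [smul_eq_mul, mul_one] at this
  exact this.trans h2

/-- The number of pieces at level `D`. -/
def nB (D : ℕ) : ℕ := (EE (D + 1) D).card

/-- The form used for the linear sieve: the classes are the heights. -/
theorem bilD {Y : ℝ} (D D₁ D₂ : ℕ) (hY : 1 ≤ Y) (h1 : ∀ p ∈ P, 1 ≤ c p)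
    (hp : ∀ p ∈ P, (p : ℝ) ≤ Y ^ c p)
    (hs : ∀ δ, (∀ a ∈ δ, ∃ p ∈ P, c p = a) → chi δ →
      δ.sum ≤ D ∧ ∃ δ₁ δ₂, δ = δ₁ + δ₂ ∧ δ₁.sum ≤ D₁ ∧ δ₂.sum ≤ D₂) :
    (∀ d, wt P c chi d ≠ 0 → In P d ∧ (d : ℝ) ≤ Y ^ D) ∧
    ∃ al be : ℕ → ℕ → ℝ,
      (∀ j d, |al j d| ≤ 1 ∧ |be j d| ≤ 1 ∧ (al j d ≠ 0 → In P d ∧ (d : ℝ) ≤ Y ^ D₁) ∧
        (be j d ≠ 0 → In P d ∧ (d : ℝ) ≤ Y ^ D₂)) ∧
      ∀ d, Squarefree d →
        wt P c chi d = ∑ j ∈ range (nB D), ∑ x ∈ d.divisorsAntidiagonal, al j x.1 * be j x.2 := by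
  have h0 : ∀ d, In P d → ∀ a ∈ pt c d, ∃ p ∈ P, c p = a := fun d hd a ha => by
    obtain ⟨p, e1, _, e2⟩ := mem_pt hd ha
    exact ⟨p, e1, e2⟩
  have hz : ∀ d W, In P d → (pt c d).sum ≤ W → (d : ℝ) ≤ Y ^ W := fun d W hd hW =>
    le_pow (h := id) hY hp hd (by rwa [Multiset.map_id])
  refine ⟨fun d hd => ⟨(wt_supp hd).1, hz d D (wt_supp hd).1
    (hs _ (h0 d (wt_supp hd).1) (wt_supp hd).2).1⟩, ?_⟩
  obtain ⟨al, be, h2, h3⟩ := bil' (P := P) (c := c) (chi := chi) (fun δ => δ.sum ≤ D₁)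
    (fun δ => δ.sum ≤ D₂) (EE (D + 1) D) fun d hd h =>
      ⟨mem_EE_of_sum (fun a ha => by
        obtain ⟨p, e1, rfl⟩ := h0 d hd a ha
        exact h1 p e1) (hs _ (h0 d hd) h).1, (hs _ (h0 d hd) h).2⟩
  refine ⟨al, be, fun j d => ?_, h3⟩
  obtain ⟨a1, a2, a3, a4⟩ := h2 j d
  exact ⟨a1, a2, fun h => ⟨(a3 h).1, hz d _ (a3 h).1 (a3 h).2⟩,
    fun h => ⟨(a4 h).1, hz d _ (a4 h).1 (a4 h).2⟩⟩

/-- The indicator of the integers without prime factor in `P`. -/
lemma prod_ind (n : ℕ) :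
    ∏ _p ∈ P.filter (· ∣ n), ((1 : ℝ) - 1) = if ∀ p ∈ P, ¬ p ∣ n then 1 else 0 := by
  rw [sub_self, prod_const]
  split_ifs with h
  · rw [filter_false_of_mem h, card_empty, pow_zero]
  · push Not at h
    obtain ⟨p, h1, h2⟩ := h
    exact zero_pow (card_ne_zero_of_mem (mem_filter.2 ⟨h1, h2⟩))

end Pool.Agent.Lib.MP_4b1228_nt.PP.LSX
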