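import Pool.Agent.Lib.MP_4b1228_nt.PP.LSt
import Pool.Agent.Lib.MP_4b1228_nt.PP.LSW
import Pool.Agent.Lib.MP_4b1228_nt.PP.LSX
import Pool.Agent.Lib.MP_4b1228_nt.PP.LST2

/-! The linear sieve with well-factorable weights: assembly. -/

open Finset Real
open scoped Classical

noncomputable section

namespace Pool.Agent.Lib.MP_4b1228_nt.PP.LS

theorem one_sub {τ y : ℝ} (hτ : τ ≤ 1 / 2) (h0 : 0 ≤ y) (h1 : y ≤ τ) :
    exp (-((1 + 2 * τ) * y)) ≤ 1 - y := by
  have hp : 0 ≤ (1 + 2 * τ) * y := mul_nonneg (by linarith) h0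
  have h2 := add_one_le_exp ((1 + 2 * τ) * y)
  rw [exp_neg, inv_le_iff_one_le_mul₀ (exp_pos _)]
  have h3 : 1 ≤ (1 - y) * ((1 + 2 * τ) * y + 1) := by
    have : (1 + 2 * τ) * y ≤ 2 * τ := by nlinarith
    nlinarith [mul_le_mul_of_nonneg_left this h0]
  exact h3.trans (mul_le_mul_of_nonneg_left h2 (by linarith))

/-- A product over a window of exponents `[a, b]`. -/
theorem core {K ε : ℝ} (hK : 1 < K) (hε : 0 < ε) : ∃ τ : ℝ, 0 < τ ∧ τ ≤ 1 / 2 ∧
    ∀ (T : Finset ℕ) (g : ℕ → ℝ) (a b : ℝ), ε ≤ a → a ≤ b → b ≤ 1 →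
      (∀ r ∈ T, 0 ≤ g r ∧ g r ≤ τ) → ∑ r ∈ T, g r ≤ (1 + τ) * log (b / a) + τ →
      a ≤ K * b * ∏ r ∈ T, (1 - g r) := by
  have hl : 0 < log K := log_pos hK
  have hΛ : 0 < 4 * |log ε| + 2 := by positivity
  refine ⟨min (1 / 2) (log K / (4 * |log ε| + 2)), lt_min (by norm_num) (div_pos hl hΛ),
    min_le_left _ _, ?_⟩
  set τ := min (1 / 2) (log K / (4 * |log ε| + 2)) with hτd
  have hτ0 : 0 < τ := lt_min (by norm_num) (div_pos hl hΛ)
  have hτ1 : τ ≤ 1 / 2 := min_le_left _ _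
  have hτ2 : τ * (4 * |log ε| + 2) ≤ log K := (le_div_iff₀ hΛ).1 (min_le_right _ _)
  intro T g a b ha hab hb hg hs
  have ha0 : 0 < a := hε.trans_le ha
  have hb0 : 0 < b := ha0.trans_le hab
  have hL0 : 0 ≤ log (b / a) := log_nonneg ((one_le_div ha0).2 hab)
  have hL1 : log (b / a) ≤ |log ε| := by
    rw [log_div hb0.ne' ha0.ne']
    have h1 : log b ≤ 0 := log_nonpos hb0.le hb
    have h2 : log ε ≤ log a := log_le_log hε ha
    linarith [neg_abs_le (log ε)]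
  have h1 : exp (-((1 + 2 * τ) * ∑ r ∈ T, g r)) ≤ ∏ r ∈ T, (1 - g r) := by
    rw [mul_sum, ← sum_neg_distrib, exp_sum]
    exact prod_le_prod (fun r _ => (exp_pos _).le) fun r hr => one_sub hτ1 (hg r hr).1 (hg r hr).2
  have h2 : (1 + 2 * τ) * ∑ r ∈ T, g r ≤ log (b / a) + log K := by
    have h3 := mul_le_mul_of_nonneg_left hs (show 0 ≤ 1 + 2 * τ by linarith)
    have h4 : τ * log (b / a) ≤ τ * |log ε| := mul_le_mul_of_nonneg_left hL1 hτ0.le
    have h5 : τ * (τ * log (b / a)) ≤ 1 / 2 * (τ * log (b / a)) :=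
      mul_le_mul_of_nonneg_right hτ1 (mul_nonneg hτ0.le hL0)
    nlinarith
  have h3 : exp (-(log (b / a) + log K)) ≤ ∏ r ∈ T, (1 - g r) :=
    (exp_le_exp.2 (by linarith)).trans h1
  rw [exp_neg, exp_add, exp_log (div_pos hb0 ha0), exp_log (by linarith)] at h3
  have h4 : a = K * b * (b / a * K)⁻¹ := by
    have : K ≠ 0 := by linarith
    field_simp
  calc a = K * b * (b / a * K)⁻¹ := h4
    _ ≤ _ := mul_le_mul_of_nonneg_left h3 (by positivity)

/-- The size of a class. -/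
def hm (n : ℕ) : ℝ := max n 1

theorem hm_mono : Monotone hm := fun _ _ e => max_le_max_right _ (Nat.cast_le.2 e)

theorem hm_pos (n : ℕ) : 0 < hm n := lt_of_lt_of_le one_pos (le_max_right _ _)

theorem hm_hq (X : ℝ) (Q p : ℕ) : hm (hq X Q p) = hq X Q p :=
  max_eq_left (by exact_mod_cast Nat.le_add_left 1 _)

theorem sum_le_hm (δ : Multiset ℕ) : (δ.sum : ℝ) ≤ (δ.map hm).sum := by
  induction δ using Multiset.induction_on with
  | empty => simp
  | cons a δ ih =>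
    rw [Multiset.sum_cons, Multiset.map_cons, Multiset.sum_cons, Nat.cast_add]
    exact add_le_add (le_max_left _ _) ih

variable {X ε : ℝ} {Q Z : ℕ}

theorem hq_mono (hX : 1 < X) (Q : ℕ) : Monotone (hq X Q) := fun p q e => by
  refine Nat.add_le_add_right (Nat.floor_mono ?_) 1
  refine div_le_div_of_nonneg_right (mul_le_mul_of_nonneg_left ?_ (Nat.cast_nonneg _))
    (log_pos hX).le
  rcases Nat.eq_zero_or_pos p with rfl | h
  · simpa using log_natCast_nonneg q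
  · exact log_le_log (by exact_mod_cast h) (by exact_mod_cast e)

theorem lt_hq (X : ℝ) (Q p : ℕ) : Q * (log p / log X) < hq X Q p := by
  unfold hq
  rw [← mul_div_assoc]
  push_cast
  exact Nat.lt_floor_add_one _

theorem hq_le (hX : 1 < X) (Q p : ℕ) : (hq X Q p : ℝ) ≤ Q * (log p / log X) + 1 := by
  unfold hq
  rw [← mul_div_assoc]
  push_cast
  exact add_le_add_left (Nat.floor_le (div_nonneg
    (mul_nonneg (Nat.cast_nonneg _) (log_natCast_nonneg p)) (log_pos hX).le)) _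

theorem rt_pow (hX : 1 < X) (D : ℕ) : (X ^ (1 / (Q : ℝ))) ^ D = X ^ ((D : ℝ) / Q) := by
  rw [← rpow_natCast, ← rpow_mul (by linarith)]
  congr 1
  ring

theorem le_rt (hX : 1 < X) (hQ : 1 ≤ Q) {p : ℕ} (hp : 0 < p) :
    (p : ℝ) ≤ (X ^ (1 / (Q : ℝ))) ^ hq X Q p := by
  have q0 : (0 : ℝ) < Q := by exact_mod_cast hQ
  have p0 : (0 : ℝ) < p := by exact_mod_cast hp
  have l0 := log_pos hX
  rw [rt_pow hX, le_rpow_iff_log_le p0 (by linarith), ← div_le_iff₀ l0, le_div_iff₀ q0, mul_comm]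
  exact (lt_hq X Q p).le

/-- The primes that are sifted. -/
def P0 (X ε : ℝ) (Q Z : ℕ) : Finset ℕ :=
  {p ∈ range (⌊X⌋₊ + 1) | p.Prime ∧ X ^ ε ≤ p ∧ hq X Q p ≤ Z}

theorem P0_prime : ∀ p ∈ P0 X ε Q Z, p.Prime := fun _ h => (mem_filter.1 h).2.1

theorem x_le (hQ : 1 ≤ Q) {p : ℕ} (h : hq X Q p ≤ Q) : log p / log X ≤ 1 := by
  have q0 : (0 : ℝ) < Q := by exact_mod_cast hQ
  have a := lt_hq X Q p
  have b : (hq X Q p : ℝ) ≤ Q := by exact_mod_cast h
  nlinarith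

theorem in_iff (hX : 1 < X) (hQ : 1 ≤ Q) (hZ : Z ≤ Q) (d : ℕ) :
    LSX.In (P0 X ε Q Z) d ↔ In X ε Q Z d := by
  refine and_congr_right fun _ => ⟨fun h p hp => (mem_filter.1 (h hp)).2.2, fun h p hp => ?_⟩
  have pp := Nat.prime_of_mem_primeFactors hp
  refine mem_filter.2 ⟨mem_range.2 (Nat.lt_succ_of_le (Nat.le_floor ?_)), pp, h p hp⟩
  have a := x_le hQ ((h p hp).2.trans hZ)
  rw [div_le_one (log_pos hX)] at a
  exact (log_le_log_iff (by exact_mod_cast pp.pos) (by linarith)).1 a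

theorem dim {K : ℝ} (hK : 1 < K) (hε : 0 < ε) : ∃ (Q₀ : ℕ) (τ : ℝ), 1 ≤ Q₀ ∧ 0 < τ ∧ τ ≤ 1 / 2 ∧
    ∀ (X : ℝ) (Q : ℕ) (g : ℕ → ℝ) (T : Finset ℕ), Q₀ ≤ Q → 1 < X →
      (∀ p ∈ T, X ^ ε ≤ p ∧ hq X Q p ≤ Q) → Mer τ g T → Dim (hq X Q) hm g K T := by
  have hs : 1 < √K := by rw [lt_sqrt (by norm_num)]; simpa using hK
  have hss : √K * √K = K := mul_self_sqrt (by linarith)
  obtain ⟨τ, t0, t1, H⟩ := core hs hε
  refine ⟨⌈1 / (ε * (√K - 1))⌉₊ + 1, τ, Nat.le_add_left _ _, t0, t1, ?_⟩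
  intro X Q g T hQ hX hT hM u z hu huz
  have hQ1 : 1 ≤ Q := (Nat.le_add_left _ _).trans hQ
  have q0 : (0 : ℝ) < Q := by exact_mod_cast hQ1
  have q1 : 1 ≤ Q * (ε * (√K - 1)) := by
    have a : 1 / (ε * (√K - 1)) ≤ Q :=
      (Nat.le_ceil _).trans (by exact_mod_cast (Nat.le_succ _).trans hQ)
    rwa [div_le_iff₀ (mul_pos hε (by linarith))] at a
  have l0 := log_pos hX
  obtain ⟨S, hS⟩ : ∃ S, S = {p ∈ T | u ≤ hm (hq X Q p) ∧ hm (hq X Q p) ≤ z} := ⟨_, rfl⟩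
  rw [← hS]
  rcases S.eq_empty_or_nonempty with e | e
  · rw [e, prod_empty]
    nlinarith
  have m1 := S.min'_mem e
  have m2 := S.max'_mem e
  have mS : ∀ p ∈ S, p ∈ T ∧ u ≤ hq X Q p ∧ (hq X Q p : ℝ) ≤ z := fun p hp => by
    rw [hS, mem_filter, hm_hq] at hp
    exact hp
  have xe : ∀ p ∈ S, ε ≤ log p / log X ∧ (0 : ℝ) < p := fun p hp => by
    have a := (hT p (mS p hp).1).1
    have b : 0 < X ^ ε := rpow_pos_of_pos (by linarith) _
    refine ⟨?_, b.trans_le a⟩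
    rw [le_div_iff₀ l0, ← log_rpow (by linarith)]
    exact log_le_log b a
  have mm := S.min'_le_max' e
  have k := H S g (log (S.min' e) / log X) (log (S.max' e) / log X) (xe _ m1).1
    (div_le_div_of_nonneg_right (log_le_log (xe _ m1).2 (by exact_mod_cast mm)) l0.le)
    (x_le hQ1 (hT _ (mS _ m2).1).2) (fun r hr => hM.1 r (mS r hr).1) (by
      rw [div_div_div_cancel_right₀ l0.ne']
      refine le_trans (sum_le_sum_of_subset_of_nonneg (fun r hr => ?_) fun r hr _ =>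
        (hM.1 r (mem_filter.1 hr).1).1) (hM.2 _ (mS _ m1).1 _ (mS _ m2).1 mm)
      exact mem_filter.2 ⟨(mS r hr).1, S.min'_le r hr, S.le_max' r hr⟩)
  have V0 : 0 ≤ ∏ r ∈ S, (1 - g r) :=
    prod_nonneg fun r hr => by linarith [(hM.1 r (mS r hr).1).2]
  have a1 := (mS _ m1).2.1.trans (hq_le hX Q _)
  have a2 := (lt_hq X Q (S.max' e)).le.trans (mS _ m2).2.2
  have a3 := (xe _ m1).1
  generalize log (S.min' e) / log X = a at *
  generalize log (S.max' e) / log X = b at *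
  generalize ∏ r ∈ S, (1 - g r) = V at *
  have b1 : u ≤ √K * (Q * a) := by
    nlinarith [mul_le_mul_of_nonneg_left a3 (mul_pos q0 (by linarith : 0 < √K - 1)).le]
  calc u ≤ √K * (Q * a) := b1
    _ ≤ √K * (Q * (√K * b * V)) := by gcongr
    _ = K * (Q * b) * V := by linear_combination (Q * b * V) * hss
    _ ≤ K * z * V := by gcongr

theorem wf (hX : 1 < X) (hQ : 1 ≤ Q) (hZ : Z ≤ Q) (up : Bool) {D : ℕ} (hD : D ≤ 2 * Q)
    (h2 : up = false → 2 * Z ≤ D) :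
    WF X ε Q Z D (LSX.nB (2 * Q)) (LSX.wt (P0 X ε Q Z) (hq X Q) (chi hm up D)) := by
  have hY : 1 ≤ X ^ (1 / (Q : ℝ)) := one_le_rpow hX.le (by positivity)
  have h1 : ∀ p ∈ P0 X ε Q Z, 1 ≤ hq X Q p := fun p _ => Nat.le_add_left _ _
  have hp : ∀ p ∈ P0 X ε Q Z, (p : ℝ) ≤ (X ^ (1 / (Q : ℝ))) ^ hq X Q p := fun p h =>
    le_rt hX hQ (P0_prime p h).pos
  have hs : ∀ D₁ D₂ : ℕ, D ≤ D₁ + D₂ → ∀ δ : Multiset ℕ,
      (∀ a ∈ δ, ∃ p ∈ P0 X ε Q Z, hq X Q p = a) → chi hm up D δ →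
      δ.sum ≤ D ∧ ∃ δ₁ δ₂, δ = δ₁ + δ₂ ∧ δ₁.sum ≤ D₁ ∧ δ₂.sum ≤ D₂ := by
    intro D₁ D₂ hh δ hδ hc
    have h3 : up = false → ∀ x ∈ δ, 2 * hm x ≤ D := fun e x hx => by
      obtain ⟨p, e1, rfl⟩ := hδ x hx
      have := (mem_filter.1 e1).2.2.2
      have := h2 e
      rw [hm_hq]
      exact_mod_cast (by omega : 2 * hq X Q p ≤ D)
    obtain ⟨δ₁, δ₂, e, a, b⟩ := split hm_mono (fun n => (hm_pos n).le) δ up D D₁ D₂ hc h3
      (Nat.cast_nonneg _) (Nat.cast_nonneg _) (by exact_mod_cast hh)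
    exact ⟨by exact_mod_cast (sum_le_hm δ).trans (chi_sum hm_mono (fun n => (hm_pos n).le) δ up D
      hc h3 (Nat.cast_nonneg _)), δ₁, δ₂, e, by exact_mod_cast (sum_le_hm δ₁).trans a,
      by exact_mod_cast (sum_le_hm δ₂).trans b⟩
  refine ⟨fun d => ⟨LSX.abs_wt d, fun h => ?_⟩, fun D₁ D₂ hh => ?_⟩
  · have := (LSX.bilD D D 0 hY h1 hp (hs D 0 le_rfl)).1 d h
    rwa [in_iff hX hQ hZ, rt_pow hX] at this
  · obtain ⟨-, al, be, k1, k2⟩ := LSX.bilD (2 * Q) D₁ D₂ hY h1 hp fun δ a b =>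
      ⟨(hs D₁ D₂ hh δ a b).1.trans hD, (hs D₁ D₂ hh δ a b).2⟩
    refine ⟨al, be, fun j d => ?_, k2⟩
    have := k1 j d
    rwa [in_iff hX hQ hZ, rt_pow hX, rt_pow hX] at this

theorem mean (hX : 1 < X) (hQ : 1 ≤ Q) (hZ : Z ≤ Q) (up : Bool) (D : ℝ) {m : ℕ}
    (hm' : In X ε Q Z m) (g : ℕ → ℝ) :
    ∑ d ∈ m.divisors, LSX.wt (P0 X ε Q Z) (hq X Q) (chi hm up D) d * ∏ p ∈ d.primeFactors, g p =
      VV (hq X Q) hm g up D m.primeFactors := by
  have e : (P0 X ε Q Z).filter (· ∣ m) = m.primeFactors := by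
    ext p
    rw [mem_filter]
    exact ⟨fun h => Nat.mem_primeFactors.2 ⟨P0_prime p h.1, h.2, hm'.1.ne_zero⟩, fun h =>
      ⟨((in_iff hX hQ hZ m).2 hm').2 h, Nat.dvd_of_mem_primeFactors h⟩⟩
  have := LSX.sum_dvd (P := P0 X ε Q Z) P0_prime hm'.1.ne_zero
    fun S => lam (hq X Q) hm up D S * ∏ p ∈ S, g p
  rw [e] at this
  refine Eq.trans (sum_congr rfl fun d _ => ?_) this
  unfold LSX.wt
  split_ifs
  · rfl
  · exact zero_mul _

/-- The sieve for an arbitrary table. -/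
theorem ls_tab {K : ℝ} {N : ℕ} {a b : ℕ → ℝ} (hK : 1 < K) (tab : Tab K N a b) :
    LSStmt N (fun i => if i < 3 * N then K * (3 * N / i) * (1 + a (3 * N)) else 1 + a i)
      fun i => 1 - b i := by
  intro ε hε
  obtain ⟨Q₀, τ, q1, t0, t1, H⟩ := dim hK hε
  refine ⟨Q₀, τ, t0, fun Q hQ => ⟨LSX.nB (2 * Q), fun X D Z hX hD hZ1 hZ => ?_⟩⟩
  have hQ1 := q1.trans hQ
  refine ⟨_, _, wf hX hQ1 hZ true hD (by simp), fun h => wf hX hQ1 hZ false hD fun _ => h,
    fun m hm' => ⟨?_, fun g i hM hi => ?_⟩⟩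
  · have k := point (h := hm) (g := fun _ => 1) (hq_mono hX Q) m.primeFactors
      (fun _ _ => ⟨zero_le_one, le_rfl⟩) D
    rw [← mean hX hQ1 hZ _ _ hm', ← mean hX hQ1 hZ _ _ hm'] at k
    simp only [prod_const_one, mul_one, sub_self, prod_const] at k
    by_cases e : m = 1
    · simpa [e] using k
    · rw [zero_pow (card_ne_zero.2 (Nat.nonempty_primeFactors.2 (by
        have := hm'.1.ne_zero
        omega)))] at k
      rwa [if_neg e]
  have hg : ∀ p ∈ m.primeFactors, 0 ≤ g p ∧ g p ≤ 1 := fun p hp =>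
    ⟨(hM.1 p hp).1, by linarith [(hM.1 p hp).2]⟩
  have z0 : (0 : ℝ) < Z := by exact_mod_cast hZ1
  obtain ⟨k1, k2, k3⟩ := jr (hq_mono hX Q) hm_mono hm_pos tab m.primeFactors
    (H X Q g _ hQ hX (fun p hp => ⟨(hm'.2 p hp).1, (hm'.2 p hp).2.trans hZ⟩) hM) hg D Z z0
    fun p hp => by
      rw [hm_hq]
      exact_mod_cast (hm'.2 p hp).2
  have V0 : 0 ≤ ∏ p ∈ m.primeFactors, (1 - g p) :=
    prod_nonneg fun p hp => sub_nonneg.2 (hg p hp).2
  have fl : ∀ j : ℕ, j * Z ≤ N * D → j ≤ ⌊(N : ℝ) * D / Z⌋₊ := fun j hj =>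
    Nat.le_floor ((le_div_iff₀ z0).2 (by exact_mod_cast hj))
  have an : ∀ (φ : ℕ → ℝ) (o : ℕ), (∀ l, o ≤ l → φ (l + 1) ≤ φ l) → ∀ j l, o ≤ j → j ≤ l →
      φ l ≤ φ j := fun φ o h j l hj hl => by
    induction l, hl using Nat.le_induction with
    | base => exact le_rfl
    | succ l hl ih => exact (h l (hj.trans hl)).trans ih
  have hN := tab.hN
  have a3 := tab.a0 (3 * N)
  rw [mean hX hQ1 hZ _ _ hm', mean hX hQ1 hZ _ _ hm', mul_comm, mul_comm (1 - b i)]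
  refine ⟨fun h => ?_, fun h => le_trans (mul_le_mul_of_nonneg_left ?_ V0)
    (k2 (h.trans (fl i hi)))⟩
  · have i0 : (0 : ℝ) < i := by exact_mod_cast h
    beta_reduce
    split_ifs with e
    · rcases le_total D (3 * Z) with e' | e'
      · have d0 : (0 : ℝ) < D := by
          have : 0 < N * D := lt_of_lt_of_le (Nat.mul_pos h hZ1) hi
          exact_mod_cast Nat.pos_of_mul_pos_left this
        refine (k3 d0 (by exact_mod_cast e')).trans (mul_le_mul_of_nonneg_left ?_ V0)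
        have : 3 * (Z : ℝ) / D ≤ 3 * N / i := by
          have : (i : ℝ) * Z ≤ N * D := by exact_mod_cast hi
          rw [div_le_div_iff₀ d0 i0]
          linarith
        gcongr
      · have j3 := fl (3 * N) (by nlinarith)
        refine (k1 (by omega)).trans (mul_le_mul_of_nonneg_left ?_ V0)
        have b1 := an a N tab.ma (3 * N) _ (by omega) j3
        have b2 : (1 : ℝ) ≤ 3 * N / i := (one_le_div i0).2 (by exact_mod_cast e.le)
        have b3 : (1 : ℝ) ≤ K * (3 * N / i) := by nlinarith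
        nlinarith
    · have j3 := fl i hi
      refine (k1 (by omega)).trans (mul_le_mul_of_nonneg_left ?_ V0)
      linarith [an a N tab.ma i _ (by omega) j3]
  · linarith [an b (2 * N) tab.mb i _ h (fl i hi)]

/-- Passing to a coarser grid and to weaker bounds. -/
theorem LSStmt.coarse {N c : ℕ} {F f F' f' : ℕ → ℝ} (h : LSStmt (c * N) F f) (hc : 1 ≤ c)
    (hF : ∀ i, 1 ≤ i → F (c * i) ≤ F' i) (hf : ∀ i, 2 * N ≤ i → f' i ≤ f (c * i)) :
    LSStmt N F' f' := by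
  intro ε hε
  obtain ⟨Q₀, τ, t0, H⟩ := h ε hε
  refine ⟨Q₀, min τ 1, lt_min t0 one_pos, fun Q hQ => ?_⟩
  obtain ⟨B, H⟩ := H Q hQ
  refine ⟨B, fun X D Z hX hD hZ1 hZ => ?_⟩
  obtain ⟨lP, lM, w1, w2, H⟩ := H X D Z hX hD hZ1 hZ
  refine ⟨lP, lM, w1, w2, fun m hm' => ⟨(H m hm').1, fun g i hM hi => ?_⟩⟩
  have V0 : 0 ≤ ∏ p ∈ m.primeFactors, (1 - g p) :=
    prod_nonneg fun p hp => sub_nonneg.2 ((hM.1 p hp).2.trans (min_le_right _ _))
  obtain ⟨k1, k2⟩ := (H m hm').2 g (c * i) ⟨fun p hp => ⟨(hM.1 p hp).1,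
    (hM.1 p hp).2.trans (min_le_left _ _)⟩, fun p hp p' hp' e => (hM.2 p hp p' hp' e).trans (by
      have p1 : (1 : ℝ) < p := by exact_mod_cast (Nat.prime_of_mem_primeFactors hp).one_lt
      have l0 : 0 ≤ log (log p' / log p) := log_nonneg ((one_le_div (log_pos p1)).2
        (log_le_log (by linarith) (by exact_mod_cast e)))
      have := min_le_left τ 1
      gcongr)⟩ (by rw [mul_assoc, mul_assoc]; exact Nat.mul_le_mul_left c hi)
  exact ⟨fun h => (k1 (Nat.mul_pos hc h)).trans (mul_le_mul_of_nonneg_right (hF i h) V0),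
    fun h => (mul_le_mul_of_nonneg_right (hf i h) V0).trans (k2 (by nlinarith))⟩

/-- The upper function on the grid `1 / 320`. -/
def Fu (i : ℕ) : ℝ := if i < 960 then 357 / 100 * (320 / i) else 1 + LST.ta i

/-- The lower function on the grid `1 / 320`. -/
def fl (i : ℕ) : ℝ := 1 - LST.tb i

/-- The linear sieve. -/
theorem ls320 : LSStmt 320 Fu fl := by
  refine LSStmt.coarse (c := 1) (ls_tab (by norm_num) LST.tabW) le_rfl (fun i hi => ?_)
    fun i _ => by simp [fl]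
  unfold Fu
  simp only [one_mul]
  split_ifs with e
  · have a := mul_le_mul_of_nonneg_right LST.const_le (by positivity : (0 : ℝ) ≤ 320 / i)
    refine le_trans (le_of_eq ?_) a
    norm_num
    ring
  · exact le_rfl

/-- The upper function on the grid `1 / 16`. -/
def F16 (j : ℕ) : ℝ := (LST.Fup (min j 127) : ℝ) / 10 ^ 6

/-- The lower function on the grid `1 / 16`. -/
def f16 (j : ℕ) : ℝ := if j < 33 then -1 else (LST.flo (min j 127) : ℝ) / 10 ^ 6

/-- The linear sieve on the coarse grid. -/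
theorem ls16 : LSStmt 16 F16 f16 := by
  refine LSStmt.coarse (c := 20) (ls_tab (by norm_num) LST.tabW) (by norm_num) (fun j hj => ?_)
    fun j hj => ?_
  · unfold F16
    beta_reduce
    split_ifs with e
    · rw [min_eq_left (by omega)]
      rcases lt_or_ge j 16 with l | l
      · refine le_trans (le_of_eq ?_) (LST.Fup_small hj l)
        have : (j : ℝ) ≠ 0 := by positivity
        push_cast
        field_simp
        norm_num
        ring
      · exact (LST.tabW.hA0 _ (by omega) e).trans (LST.Fup_ge l (by omega))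
    · exact LST.Fup_ge' (by omega) (by omega) (by omega)
  · unfold f16
    split_ifs with e
    · have a := LST.tb_le (i := 640) (n := 2000000000) le_rfl (by norm_num) (by decide +kernel)
      have b := LST.tb_anti (by omega : 640 ≤ 20 * j)
      norm_num at a
      linarith
    · exact LST.flo_le' (by omega) (by omega) (by omega)

end Pool.Agent.Lib.MP_4b1228_nt.PP.LS
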