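import Pool.Agent.Lib.MP_4b1228_nt.PP.St3

/-!
Rules for rows at the level of configurations, and the passage to a global certificate.
-/

open Finset Real Filter
open scoped Classical

noncomputable section

namespace Pool.Agent.Lib.MP_4b1228_nt.PP.R3

theorem sum_log_le {X : ℝ} (ε : ℝ) {n : ℕ} (h1 : 1 ≤ n) (h2 : (n : ℝ) ≤ X ^ 2) :
    ∑ p ∈ RP X ε n, log (p : ℝ) ≤ 2 * log X := by
  have h0 : (0 : ℝ) < n := by exact_mod_cast h1
  have h3 : ∑ p ∈ RP X ε n, log (p : ℝ) ≤ ∑ p ∈ n.primeFactors, log (p : ℝ) :=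
    sum_le_sum_of_subset_of_nonneg (filter_subset _ _) fun p _ _ => log_natCast_nonneg p
  have h4 : ∀ p ∈ n.primeFactors, (p : ℝ) ≠ 0 := fun p hp => by
    exact_mod_cast (Nat.prime_of_mem_primeFactors hp).ne_zero
  have h5 : ∏ p ∈ n.primeFactors, (p : ℝ) ≤ n := by
    rw [← Nat.cast_prod]
    exact Nat.cast_le.2 (Nat.le_of_dvd h1 (Nat.prod_primeFactors_dvd n))
  have h6 := log_le_log (prod_pos fun p hp => lt_of_le_of_ne (Nat.cast_nonneg p) (h4 p hp).symm) h5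
  rw [log_prod h4] at h6
  have h7 := log_le_log h0 h2
  rw [log_pow] at h7
  push_cast at h7
  linarith

theorem sz_pos {X u ε : ℝ} (hX : 1 < X) (hu : 0 < u) {n p : ℕ} (hp : p ∈ RP X ε n) :
    0 < sz X u p := by
  have h1 : (1 : ℝ) < p := by
    exact_mod_cast (Nat.prime_of_mem_primeFactors (mem_filter.1 hp).1).one_lt
  exact div_pos (log_pos h1) (mul_pos hu (log_pos hX))

theorem sum_sz (X u : ℝ) (S : Finset ℕ) :
    ∑ p ∈ S, sz X u p = (∑ p ∈ S, log (p : ℝ)) / (u * log X) := by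
  rw [sum_div]; rfl

theorem sum_sz_le {X u t : ℝ} (hX : 1 < X) (hu : 0 < u) (ht : 2 ≤ t * u) (ε : ℝ) {n : ℕ}
    (h1 : 1 ≤ n) (h2 : (n : ℝ) ≤ X ^ 2) : ∑ p ∈ RP X ε n, sz X u p ≤ t := by
  have hl := log_pos hX
  rw [sum_sz, div_le_iff₀ (mul_pos hu hl), ← mul_assoc]
  exact (sum_log_le ε h1 h2).trans (mul_le_mul_of_nonneg_right ht hl.le)

theorem row_le (hR : RowStmt) {T : ℝ → ℕ → ℝ} {v v' : ℝ} (h : Row T v) (hv : v' ≤ v) :
    Row T v' :=
  hR.2.2.2.2.1 T T v v' h hv (Eventually.of_forall fun _ _ _ _ => le_rfl)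

theorem RowC.const (hR : RowStmt) (u a : ℝ) : RowC u (fun _ _ => a) a :=
  fun _ hτ => ⟨1, one_pos, fun _ _ _ => row_le hR (hR.1 a) (by linarith)⟩

theorem RowC.add (hR : RowStmt) {u v v' : ℝ} {G G' : Cf} (h : RowC u G v) (h' : RowC u G' v') :
    RowC u (fun x S => G x S + G' x S) (v + v') := by
  intro τ hτ
  obtain ⟨e, he, H⟩ := h _ (half_pos hτ)
  obtain ⟨e', he', H'⟩ := h' _ (half_pos hτ)
  refine ⟨min e e', lt_min he he', fun ε h0 h1 => row_le hR (hR.2.1 _ _ _ _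
    (H ε h0 (h1.trans (min_le_left _ _))) (H' ε h0 (h1.trans (min_le_right _ _)))) ?_⟩
  linarith

theorem RowC.smul (hR : RowStmt) {u v a : ℝ} {G : Cf} (ha : 0 ≤ a) (h : RowC u G v) :
    RowC u (fun x S => a * G x S) (a * v) := by
  intro τ hτ
  obtain ⟨e, he, H⟩ := h (τ / (a + 1)) (by positivity)
  refine ⟨e, he, fun ε h0 h1 => row_le hR (hR.2.2.1 _ _ a ha (H ε h0 h1)) ?_⟩
  have : a * (τ / (a + 1)) ≤ τ := by
    rw [← mul_div_assoc, div_le_iff₀ (by positivity)]; linarith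
  linarith

theorem RowC.mono (hR : RowStmt) {u v v' t : ℝ} {G G' : Cf} (hu : 0 < u) (ht : 2 ≤ t * u)
    (h : RowC u G v) (hv : v' ≤ v) (hG : ∀ (x : ℕ → ℝ) (S : Finset ℕ), (∀ p ∈ S, 0 < x p) →
      ∑ p ∈ S, x p ≤ t → G x S ≤ G' x S) : RowC u G' v' := by
  intro τ hτ
  obtain ⟨e, he, H⟩ := h τ hτ
  refine ⟨e, he, fun ε h0 h1 => hR.2.2.2.2.1 _ _ _ _ (H ε h0 h1) (by linarith) ?_⟩
  filter_upwards [eventually_gt_atTop (1 : ℝ)] with X hX n h2 h3
  exact hG _ _ (fun p hp => sz_pos hX hu hp) (sum_sz_le hX hu ht ε h2 h3)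

/-- A further lower bound for the unit may be imposed. -/
theorem RowQ.raise {Q : ℕ} {G G' : Cf} {v v' a : ℝ} (h : RowQ Q G v) (ha : a * Q < 1)
    (H : ∀ u : ℚ, 0 < (u : ℝ) → a < u → (u : ℝ) * Q < 1 → RowC u G v → RowC u G' v') :
    RowQ Q G' v' := by
  obtain ⟨u₀, h0, h1, h2⟩ := h
  refine ⟨max u₀ a, lt_max_of_lt_left h0, ?_, fun u hu hu' => ?_⟩
  · rcases max_choice u₀ a with e | e <;> rwa [e]
  · obtain ⟨b1, b2⟩ := max_lt_iff.1 hu
    exact H u (h0.trans b1) b2 hu' (h2 u b1 hu')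

theorem RowQ.const (hR : RowStmt) {Q : ℕ} (hQ : 1 ≤ Q) (a : ℝ) : RowQ Q (fun _ _ => a) a := by
  have h0 : (0 : ℝ) < Q := by exact_mod_cast hQ
  refine ⟨1 / (2 * Q), by positivity, ?_, fun u _ _ => RowC.const hR u a⟩
  rw [show 1 / (2 * (Q : ℝ)) * Q = 1 / 2 by field_simp]
  norm_num

theorem RowQ.add (hR : RowStmt) {Q : ℕ} {v v' : ℝ} {G G' : Cf} (h : RowQ Q G v)
    (h' : RowQ Q G' v') : RowQ Q (fun x S => G x S + G' x S) (v + v') := by
  obtain ⟨u₀, -, h1, h2⟩ := h'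
  exact h.raise h1 fun u _ b1 b2 c => c.add hR (h2 u b1 b2)

theorem RowQ.smul (hR : RowStmt) {Q : ℕ} {v a : ℝ} {G : Cf} (ha : 0 ≤ a) (h : RowQ Q G v) :
    RowQ Q (fun x S => a * G x S) (a * v) :=
  h.raise (a := 0) (by simp) fun _ _ _ _ c => c.smul hR ha

theorem RowQ.mono (hR : RowStmt) {Q : ℕ} {v v' : ℝ} {G G' : Cf} (h : RowQ Q G v) (hv : v' ≤ v)
    (hG : ∀ (x : ℕ → ℝ) (S : Finset ℕ), (∀ p ∈ S, 0 < x p) → ∑ p ∈ S, x p ≤ 2 * (Q : ℝ) + 1 →
      G x S ≤ G' x S) : RowQ Q G' v' := by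
  have h0 : (0 : ℝ) < 2 * Q + 1 := by positivity
  refine h.raise (a := 2 / (2 * Q + 1)) ?_ fun u hu b1 _ c => c.mono hR hu ?_ hv hG
  · rw [div_mul_eq_mul_div, div_lt_one h0]; linarith
  · rw [div_lt_iff₀ h0] at b1; linarith

theorem rowQ (hR : RowStmt) : RowQStmt := by
  intro Q hQ
  refine ⟨RowQ.const hR hQ, fun _ _ _ _ => RowQ.add hR, fun _ _ _ => RowQ.smul hR, ?_, ?_,
    fun _ _ _ _ => RowQ.mono hR⟩
  · intro ι s G v
    induction s using Finset.induction_on with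
    | empty => exact fun _ => by simpa using RowQ.const hR hQ 0
    | insert i s hi ih =>
      intro h
      simp only [sum_insert hi]
      exact (h i (mem_insert_self _ _)).add hR (ih fun j hj => h j (mem_insert_of_mem hj))
  · intro ι s G v
    induction s with
    | nil => exact fun _ => by simpa using RowQ.const hR hQ 0
    | cons i s ih =>
      intro h
      simp only [List.map_cons, List.sum_cons]
      exact (h i List.mem_cons_self).add hR (ih fun j hj => h j (List.mem_cons_of_mem _ hj))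

theorem glob3 (hR : RowStmt) : Glob3Stmt := by
  rintro θ hθ - ⟨Q, Θ, κ, v, v', C, G, hQ, hΘ, hκ, hv, ⟨u₀, h0, h1, hG⟩, H⟩
  have Q0 : (1 : ℝ) ≤ Q := by exact_mod_cast hQ
  have Θ0 : 0 < Θ + κ := by nlinarith
  have m0 : 0 < min 1 κ := lt_min one_pos hκ
  have d0 : 0 < 2 * (Q : ℝ) + min 1 κ := by positivity
  obtain ⟨u, hu, hu'⟩ := exists_rat_btwn
    (show max u₀ (max (2 / (2 * Q + min 1 κ)) (θ / (Θ + κ))) < 1 / (Q : ℝ) by
      refine max_lt ?_ (max_lt ?_ ?_)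
      · rwa [lt_div_iff₀ (by linarith)]
      · rw [div_lt_div_iff₀ d0 (by linarith)]; linarith
      · rw [div_lt_div_iff₀ Θ0 (by linarith)]; linarith)
  obtain ⟨b1, b2⟩ := max_lt_iff.1 hu
  obtain ⟨b2, b3⟩ := max_lt_iff.1 b2
  rw [lt_div_iff₀ (by linarith)] at hu'
  rw [div_lt_iff₀ d0] at b2
  rw [div_lt_iff₀ Θ0] at b3
  have u0 : (0 : ℝ) < u := h0.trans b1
  obtain ⟨e, he, K⟩ := hG u b1 hu' ((v - v') / 2) (by linarith)
  refine ⟨(v - v') / 2, κ * u, C - v', by linarith, mul_pos hκ u0, fun ε₀ hε₀ =>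
    ⟨min e ε₀, lt_min he hε₀, min_le_right _ _,
      fun X n => G (sz X u) (RP X (min e ε₀) n) + -v', ?_, ?_⟩⟩
  · exact row_le hR (hR.2.1 _ _ _ _ (K _ (lt_min he hε₀) (min_le_left _ _)) (hR.1 (-v')))
      (by linarith)
  · filter_upwards [eventually_gt_atTop (1 : ℝ)] with X hX n n1 n2
    have hl := log_pos hX
    have c1 := sum_sz_le hX u0 (t := 2 * Q + min 1 κ) (by linarith) (min e ε₀) n1 n2
    obtain ⟨c2, c3⟩ := H (sz X u) (RP X (min e ε₀) n) (fun p hp => sz_pos hX u0 hp)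
      (by linarith [min_le_left 1 κ])
    refine ⟨by linarith, fun c4 c5 => ?_⟩
    have := c3 (fun p hp => ?_) ?_ (by linarith [min_le_right 1 κ])
    · linarith
    · have p1 := (mem_filter.1 hp).1
      have p0 : (0 : ℝ) < p := by exact_mod_cast (Nat.prime_of_mem_primeFactors p1).pos
      have c6 := log_le_log p0 (c4 p p1)
      rw [log_rpow (by linarith)] at c6
      rw [sz, div_le_iff₀ (mul_pos u0 hl), ← mul_assoc]
      exact c6.trans (mul_le_mul_of_nonneg_right (by linarith) hl.le)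
    · rw [sum_sz, le_div_iff₀ (mul_pos u0 hl), ← mul_assoc]
      exact (mul_le_mul_of_nonneg_right (by linarith) hl.le).trans c5

end Pool.Agent.Lib.MP_4b1228_nt.PP.R3
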