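import Pool.Agent.Lib.MP_4b1228_nt.PP.R3M
import Pool.Agent.Lib.MP_4b1228_nt.PP.RowQ

/-! Exact rows at the level of configurations. -/

open Finset Real Filter Topology
open scoped Classical

noncomputable section

namespace Pool.Agent.Lib.MP_4b1228_nt.PP.R3

/-- The weight of a small prime. -/
def sm (Z : ℝ) (e : ℕ) (t : ℝ) : ℝ := if t < Z then t ^ (e + 1) else 0

/-- Its mean. -/
def smI (Z δ : ℝ) (e : ℕ) : ℝ := Z ^ (e + 1) / (e + 1) - δ ^ (e + 1) / (e + 1)

theorem sm_fac (hR : RhoStmt) {u ε Z : ℝ} (hu : 0 < u) (hε : 0 < ε) (ha : ε ≤ u * Z)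
    (hb : u * Z ≤ 2) {e : ℕ} (he : e ≤ 2) :
    Tu.Fac ε (fun X p => sm Z e (sz X u p)) (u * Z) (smI Z (ε / u) e) := by
  have a0 : 0 < ε / u := div_pos hε hu
  have a1 : ε / u ≤ Z := by rwa [div_le_iff₀ hu, mul_comm]
  have a2 : u * (ε / u) = ε := mul_div_cancel₀ _ hu.ne'
  have Z0 := a0.trans_le a1
  refine ⟨⟨Z ^ (e + 1), ?_⟩, ?_⟩
  · filter_upwards [eventually_gt_atTop 1] with X X1 p
    unfold sm
    split_ifs with f
    · have := sz_nonneg X1 hu p
      exact ⟨by rw [abs_of_nonneg (by positivity)]; exact pow_le_pow_left₀ this f.le _,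
        fun _ => (sz_le X1 hu f).le⟩
    · exact ⟨by rw [abs_zero]; positivity, fun f => absurd rfl f⟩
  · refine (lip hR (K := 2 * Z + 1) hu a0 a1 hb (by positivity) (fun t => t ^ e)
      (fun t => t ^ (e + 1) / (e + 1)) fun s t b1 b2 b3 => ?_).congr' ?_
    · have s0 := a0.trans_le b1
      obtain ⟨d, rfl⟩ : ∃ d, t = s + d := ⟨t - s, by ring⟩
      have d0 : 0 ≤ d := by linarith
      rw [add_sub_cancel_left]
      have c1 : 0 ≤ d ^ 2 := by positivity
      have c2 : 0 ≤ Z * d := by positivity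
      have c3 : 0 ≤ Z * d ^ 2 := by positivity
      interval_cases e
      · constructor <;> rw [abs_le] <;> constructor <;> norm_num <;> nlinarith
      · constructor <;> rw [abs_le] <;> constructor <;> norm_num <;> nlinarith
      · have c4 : (s + d) * d ≤ Z * d := mul_le_mul_of_nonneg_right b3 d0
        have c5 : (s + d) * d ^ 2 ≤ Z * d ^ 2 := mul_le_mul_of_nonneg_right b3 c1
        have c6 : 0 ≤ s * d := by positivity
        have c7 : 0 ≤ s * d ^ 2 := by positivity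
        have c8 : 0 ≤ d ^ 3 := by positivity
        constructor <;> rw [abs_le] <;> constructor <;> norm_num <;> nlinarith
    · filter_upwards [eventually_gt_atTop 1] with X X1
      rw [← sum_cell X1 hu a2.ge hb]
      refine sum_congr rfl fun p hp => ?_
      have := (le_sz X1 hu (mem_pw.1 hp).1.pos).2 (a2.symm ▸ (mem_pw.1 hp).2.1)
      simp only [sm, this, true_and, ite_mul, zero_mul, gp, pow_succ, mul_assoc]

theorem sides (u : ℝ) (L : List Cel) (h : ∀ c ∈ L, 0 ≤ c.b) :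
    ((L.filter fun c => !c.side).map fun c => u * c.b).sum = u * mM L ∧
    ((L.filter fun c => c.side).map fun c => u * c.b).sum = u * mN L ∧
    0 ≤ mM L ∧ 0 ≤ mN L ∧ ∀ c ∈ L, c.b ≤ mM L + mN L := by
  induction L with
  | nil => simp [mM, mN]
  | cons c L ih =>
    obtain ⟨a1, a2, a3, a4, a5⟩ := ih fun d hd => h d (List.mem_cons_of_mem _ hd)
    have c0 := h c (List.mem_cons_self ..)
    unfold mM mN at *
    cases e : c.side <;> simp only [List.filter_cons, e, List.map_cons, List.sum_cons, a1, a2,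
      Bool.not_false, Bool.not_true, if_true, Bool.false_eq_true, if_false, List.forall_mem_cons] <;>
    exact ⟨by ring, by ring, by linarith, by linarith, by linarith, fun d hd => by linarith [a5 d hd]⟩

theorem rowA (hR : RhoStmt) (hRow : RowStmt) (hE : ExStmt) {Q j₁ j₂ : ℕ} {Z u ε : ℝ}
    {L : List Cel} (hu : 0 < u) (uQ : u * Q < 1) (hε : 0 < ε) (ε2 : ε ≤ 2) (εZ : ε ≤ u * Z)
    (hL : ∀ c ∈ L, Z ≤ c.a ∧ c.a ≤ c.b) (h₁ : mM L + j₁ * Z ≤ Q)
    (h₂ : 4 * (mN L + j₂ * Z) + (mM L + j₁ * Z) ≤ 2 * Q) (σ : ℝ) (A : List ℕ)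
    (hA : A.length ≤ j₁ + j₂) (hA' : ∀ e ∈ A, e ≤ 2) :
    Row (fun X n => σ * (tupF (A.map fun e p => sm Z e (sz X u p)) (RP X ε n) *
      tup L (sz X u) (RP X ε n))) (σ * ((A.map (smI Z (ε / u))).prod * (L.map Cel.I).prod)) := by
  have Z0 : 0 < Z := (mul_pos_iff_of_pos_left hu).1 (hε.trans_le εZ)
  obtain ⟨s1, s2, s3, s4, s5⟩ := sides u L fun c hc => by linarith [hL c hc]
  have j1 : 0 ≤ j₁ * Z := by positivity
  have j2 : 0 ≤ j₂ * Z := by positivity
  have P : List.Perm (((A.take j₁).map Sum.inl ++ (L.filter fun c => !c.side).map Sum.inr) ++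
      ((A.drop j₁).map Sum.inl ++ (L.filter fun c => c.side).map Sum.inr))
      (A.map Sum.inl ++ L.map Sum.inr : List (ℕ ⊕ Cel)) := by
    have p1 := (List.filter_append_perm (fun c : Cel => c.side) L).map (Sum.inr : Cel → ℕ ⊕ Cel)
    rw [List.map_append] at p1
    refine List.Perm.trans ?_ (p1.append_left _)
    conv_rhs => rw [← List.take_append_drop j₁ A, List.map_append]
    rw [List.append_assoc, List.append_assoc]
    refine List.Perm.append_left _ ?_
    rw [← List.append_assoc ((A.drop j₁).map Sum.inl)]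
    exact List.perm_append_comm
  have k1 : (((A.take j₁).length : ℕ) : ℝ) ≤ j₁ := by exact_mod_cast List.length_take_le ..
  have k2 : (((A.drop j₁).length : ℕ) : ℝ) ≤ j₂ := by
    have : (A.drop j₁).length ≤ j₂ := by rw [List.length_drop]; omega
    exact_mod_cast this
  have k3 := mul_le_mul_of_nonneg_right k1 (hε.le.trans εZ)
  have k4 := mul_le_mul_of_nonneg_right k2 (hε.le.trans εZ)
  have k5 := mul_le_mul_of_nonneg_left h₁ hu.le
  have k6 := mul_le_mul_of_nonneg_left h₂ hu.le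
  have := Tu.tupRow hR hRow hE hε ε2 (sub_pos.2 uQ) _ _
    (Sum.elim (fun e X p => sm Z e (sz X u p)) fun c X p => c.w (sz X u p))
    (Sum.elim (fun _ => u * Z) fun c => u * c.b) (Sum.elim (smI Z (ε / u)) Cel.I)
    (fun k hk => by
      rcases List.mem_append.1 (P.mem_iff.1 hk) with hk | hk <;>
        obtain ⟨i, hi, rfl⟩ := List.mem_map.1 hk
      · have : (1 : ℝ) ≤ j₁ + j₂ := by exact_mod_cast (List.length_pos_of_mem hi).trans_le hA
        have := mul_le_mul_of_nonneg_right this Z0.le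
        have : u * Z ≤ u * (2 * Q) := mul_le_mul_of_nonneg_left (by linarith) hu.le
        exact sm_fac hR hu hε εZ (by linarith) (hA' i hi)
      · have : u * i.b ≤ u * (2 * Q) := mul_le_mul_of_nonneg_left (by linarith [s5 i hi]) hu.le
        exact cel_fac hR hu hε i (εZ.trans (mul_le_mul_of_nonneg_left (hL i hi).1 hu.le))
          (hL i hi).2 (by linarith))
    (by
      simp only [List.map_append, List.map_map, List.sum_append, Function.comp_def, Sum.elim_inl,
        Sum.elim_inr, s1, List.map_const', List.sum_replicate, nsmul_eq_mul]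
      linarith)
    (by
      simp only [List.map_append, List.map_map, List.sum_append, Function.comp_def, Sum.elim_inl,
        Sum.elim_inr, s1, s2, List.map_const', List.sum_replicate, nsmul_eq_mul]
      linarith) σ
  rw [(P.map _).prod_eq] at this
  simp only [Tu.tup_perm (P.map _)] at this
  simp only [List.map_append, List.map_map, List.prod_append, Function.comp_def, Sum.elim_inl,
    Sum.elim_inr, ← tupF_eq] at this
  refine hRow.2.2.2.2.1 _ _ _ _ this le_rfl (Eventually.of_forall fun X n _ _ => le_of_eq ?_)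
  rw [tupF_append, tup]
  intro φ hφ ψ hψ p hp
  obtain ⟨e, -, rfl⟩ := List.mem_map.1 hφ
  obtain ⟨c, hc, rfl⟩ := List.mem_map.1 hψ
  refine if_neg fun f => hp (if_neg ?_)
  linarith [f.1, (hL c hc).1]

/-- Power sums in terms of tuples. -/
theorem pows (y : ℕ → ℝ) (S : Finset ℕ) :
    tupF [y] S = ∑ p ∈ S, y p ∧
    tupF [y, y] S + tupF [fun p => y p ^ 2] S = (∑ p ∈ S, y p) ^ 2 ∧
    tupF [y, y, y] S + 3 * tupF [fun p => y p ^ 2, y] S + tupF [fun p => y p ^ 3] S =
      (∑ p ∈ S, y p) ^ 3 := by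
  have t1 : ∀ (z : ℕ → ℝ) (T : Finset ℕ), tupF [z] T = ∑ p ∈ T, z p := fun z T => by simp [tupF]
  have t2 : ∀ (z : ℕ → ℝ) (T : Finset ℕ), tupF [z, y] T =
      (∑ p ∈ T, z p) * ∑ p ∈ T, y p - ∑ p ∈ T, z p * y p := fun z T => by
    rw [tupF, sum_mul, ← sum_sub_distrib]
    exact sum_congr rfl fun p hp => by rw [t1, sum_erase_eq_sub hp, mul_sub]
  have t3 : tupF [y, y, y] S = (∑ p ∈ S, y p) * (∑ p ∈ S, y p) ^ 2 -
      2 * (∑ p ∈ S, y p) * ∑ p ∈ S, y p ^ 2 - (∑ p ∈ S, y p) * ∑ p ∈ S, y p * y p +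
      2 * ∑ p ∈ S, y p ^ 3 := by
    rw [tupF, sum_mul, mul_sum S (fun p => y p ^ 2), sum_mul S y (∑ p ∈ S, y p * y p),
      mul_sum S fun p => y p ^ 3, ← sum_sub_distrib, ← sum_sub_distrib, ← sum_add_distrib]
    exact sum_congr rfl fun p hp => by
      rw [t2, sum_erase_eq_sub hp, sum_erase_eq_sub hp]; ring
  rw [t3, t2, t2, t1, t1, t1]
  simp only [← pow_two, ← pow_succ]
  exact ⟨trivial, by ring, by ring⟩

/-- From tuples of small primes to powers of the size of the small part. -/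
theorem expand (hRow : RowStmt) {u Z σ I ε₁ : ℝ} {j : ℕ} (hj : j ≤ 3) (h1 : 0 < ε₁) (T : Cf)
    (r : ∀ ε : ℝ, 0 < ε → ε ≤ ε₁ → ∀ A : List ℕ, A.length ≤ j → (∀ e ∈ A, e ≤ 2) →
      Row (fun X n => σ * (tupF (A.map fun e p => sm Z e (sz X u p)) (RP X ε n) *
        T (sz X u) (RP X ε n))) ((A.map (smI Z (ε / u))).prod * I)) :
    RowC u (fun x S => σ * (rr Z x S ^ j * T x S)) (mom Z j * I) := by
  intro τ hτ
  obtain ⟨m, hm⟩ : ∃ m : ℕ → ℝ → ℝ, ∀ e ε, m e ε = smI Z (ε / u) e := ⟨_, fun _ _ => rfl⟩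
  have key : ∃ v : ℝ → ℝ, Continuous v ∧ v 0 = mom Z j * I ∧ ∀ ε : ℝ, 0 < ε → ε ≤ ε₁ →
      Row (fun X n => σ * (rr Z (sz X u) (RP X ε n) ^ j * T (sz X u) (RP X ε n))) (v ε) := by
    have w : ∀ (x : ℕ → ℝ) (S : Finset ℕ), rr Z x S = ∑ p ∈ S, sm Z 0 (x p) := fun x S => by
      simp only [rr, sm, sum_filter, zero_add, pow_one]
    have w1 : ∀ t, sm Z 1 t = sm Z 0 t ^ 2 ∧ sm Z 2 t = sm Z 0 t ^ 3 := fun t => by
      unfold sm; split_ifs <;> simp
    have c : ∀ e, Continuous (m e) := fun e => by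
      rw [funext (hm e)]; unfold smI; fun_prop
    have c0 : m 0 0 = Z ∧ m 1 0 = Z ^ 2 / 2 ∧ m 2 0 = Z ^ 3 / 3 := by
      simp only [hm, smI]; norm_num
    interval_cases j
    · refine ⟨fun _ => 1 * I, by fun_prop, rfl, fun ε a1 a2 => ?_⟩
      simpa [tupF] using r ε a1 a2 [] le_rfl (by simp)
    · refine ⟨fun ε => m 0 ε * I, by fun_prop, by simp only [c0, mom], fun ε a1 a2 => ?_⟩
      simpa [(pows _ _).1, w, hm] using r ε a1 a2 [0] le_rfl (by simp)
    · refine ⟨fun ε => m 0 ε * m 0 ε * I + m 1 ε * I, by fun_prop,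
        by simp only [c0, mom]; ring, fun ε a1 a2 => ?_⟩
      refine hRow.2.2.2.2.1 _ _ _ _ (hRow.2.1 _ _ _ _ (r ε a1 a2 [0, 0] le_rfl (by simp))
        (r ε a1 a2 [1] (by simp) (by simp))) (by simp [hm])
        (Eventually.of_forall fun X n _ _ => le_of_eq ?_)
      simp only [w, ← (pows _ _).2.1, List.map_cons, List.map_nil, (w1 _).1]
      ring
    · refine ⟨fun ε => m 0 ε * (m 0 ε * m 0 ε) * I + 3 * (m 1 ε * m 0 ε * I) + m 2 ε * I,
        by fun_prop, by simp only [c0, mom]; ring, fun ε a1 a2 => ?_⟩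
      refine hRow.2.2.2.2.1 _ _ _ _ (hRow.2.1 _ _ _ _ (hRow.2.1 _ _ _ _
        (r ε a1 a2 [0, 0, 0] le_rfl (by simp))
        (hRow.2.2.1 _ _ 3 zero_le_three (r ε a1 a2 [1, 0] (by simp) (by simp))))
        (r ε a1 a2 [2] (by simp) (by simp))) (by simp [hm])
        (Eventually.of_forall fun X n _ _ => le_of_eq ?_)
      simp only [w, ← (pows _ _).2.2, List.map_cons, List.map_nil, (w1 _).1, (w1 _).2]
      ring
  obtain ⟨v, c, v0, hv⟩ := key
  obtain ⟨δ, δ0, hδ⟩ := Metric.continuous_iff.1 c 0 τ hτ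
  refine ⟨min (δ / 2) ε₁, by positivity, fun ε a1 a2 => ?_⟩
  obtain ⟨b1, b2⟩ := le_min_iff.1 a2
  have := hδ ε (by rw [Real.dist_eq, sub_zero, abs_of_pos a1]; linarith)
  rw [Real.dist_eq, v0] at this
  exact row_le hRow (hv ε a1 b2) (by linarith [(abs_lt.1 this).1])

theorem eS (hR : RhoStmt) (hRow : RowStmt) (hE : ExStmt) : EStmt := by
  intro Q j₁ j₂ Z σ L hQ Z0 hj hL h₁ h₂
  refine (RowQ.const hRow hQ 0).raise (a := 0) (by simp) fun u hu _ uQ _ => ?_
  rw [mul_left_comm σ (mom Z _)]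
  refine expand hRow (ε₁ := min 2 (u * Z)) hj (by positivity) _ fun ε a1 a2 A b1 b2 => ?_
  rw [mul_left_comm]
  exact rowA hR hRow hE hu uQ a1 (le_min_iff.1 a2).1 (le_min_iff.1 a2).2 hL h₁ h₂ σ A b1 b2

end Pool.Agent.Lib.MP_4b1228_nt.PP.R3
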