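import Pool.Agent.Lib.MP_4b1228_nt.PP.St3

/-!
More rows at the level of configurations: windows and slanted cuts.
-/

open Finset Real Filter Topology
open scoped Classical

noncomputable section

namespace Pool.Agent.Lib.MP_4b1228_nt.PP.R3

/-- The weight of a set `K` of large primes in a window. -/
def hw2 (A₀ A₁ : ℝ) (ψ : ℝ → ℝ) (W : ℝ → ℝ → ℝ) (x : ℕ → ℝ) (K : Finset ℕ) : ℝ :=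
  if A₀ ≤ ∑ p ∈ K, x p ∧ ∑ p ∈ K, x p < A₁ then
    ψ (∑ p ∈ K, x p) + ∑ q ∈ K, W (x q) (∑ p ∈ K, x p) else 0

def HT2 (Z A₀ A₁ : ℝ) (ψ : ℝ → ℝ) (W : ℝ → ℝ → ℝ) : Cf :=
  fun x S => ∑ K ∈ (S.filter fun p => Z ≤ x p).powerset, hw2 A₀ A₁ ψ W x K

def HM2 (X u Z A₀ A₁ : ℝ) (ψ : ℝ → ℝ) (W : ℝ → ℝ → ℝ) : ℝ :=
  ∑ K ∈ (PR X (u * Z)).powerset, (∏ p ∈ K, gp p) * hw2 A₀ A₁ ψ W (sz X u) K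

def LawH2 (Z A₀ A₁ : ℝ) (ψ : ℝ → ℝ) (W : ℝ → ℝ → ℝ) (v : ℝ) : Prop :=
  ∀ u τ : ℝ, 0 < u → u * A₁ ≤ 2 → 0 < τ → ∀ᶠ X : ℝ in atTop, v - τ ≤ HM2 X u Z A₀ A₁ ψ W

def H2Stmt : Prop :=
  ∀ (Q : ℕ) (Z A₀ A₁ B v : ℝ) (ψ : ℝ → ℝ) (W : ℝ → ℝ → ℝ), 1 ≤ Q → 0 < Z → 0 ≤ A₀ → A₀ ≤ A₁ →
    7 * A₁ ≤ 8 * Q → 3 * Z + A₁ ≤ 2 * Q →
    (∀ t ∈ Set.Icc A₀ A₁, ∀ t' ∈ Set.Icc A₀ A₁, |ψ t| ≤ B ∧ |ψ t - ψ t'| ≤ B * |t - t'|) →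
    (∀ y, ∀ t ∈ Set.Icc A₀ A₁, ∀ t' ∈ Set.Icc A₀ A₁,
      |W y t| ≤ B ∧ |W y t - W y t'| ≤ B * |t - t'| ∧
      (W y t ≠ 0 → t ≤ Q ∨ 2 * (y + t) ≤ 3 * Q)) →
    LawH2 Z A₀ A₁ ψ W v → RowQ Q (HT2 Z A₀ A₁ ψ W) v

/-- The sum over ordered tuples of distinct elements, with a weight `U` on the total size. -/
def tupC (U : ℝ → ℝ) (x : ℕ → ℝ) : List Cel → ℝ → Finset ℕ → ℝ
  | [], t, _ => U t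
  | c :: L, t, S => ∑ p ∈ S, c.w (x p) * tupC U x L (t + x p) (S.erase p)

/-- Its model mean. -/
def tupM (U : ℝ → ℝ) (x : ℕ → ℝ) : List Cel → ℝ → Finset ℕ → ℝ
  | [], t, _ => U t
  | c :: L, t, S => ∑ p ∈ S, c.w (x p) * gp p * tupM U x L (t + x p) (S.erase p)

def LawC (Z A σ : ℝ) (L : List Cel) (v : ℝ) : Prop :=
  ∀ u τ : ℝ, 0 < u → u * A ≤ 1 → 0 < τ → ∀ᶠ X : ℝ in atTop,
    v - τ ≤ σ * tupM (fun t => if t ≤ A then 1 else 0) (sz X u) L 0 (PR X (u * Z))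

/-- Exact rows cut by the condition that the large primes have total size at most `A`. -/
def ECStmt : Prop :=
  ∀ (Q j₁ j₂ : ℕ) (Z A σ v : ℝ) (L : List Cel), 1 ≤ Q → 0 < Z → 0 ≤ A → j₁ + j₂ ≤ 3 →
    (∀ c ∈ L, Z ≤ c.a ∧ c.a ≤ c.b) → A + j₁ * Z ≤ Q → 4 * (j₂ * Z) + (A + j₁ * Z) ≤ 2 * Q →
    LawC Z A σ L v →
    RowQ Q (fun x S => σ * (rr Z x S ^ (j₁ + j₂) *
      tupC (fun t => if t ≤ A then 1 else 0) x L 0 S)) (mom Z (j₁ + j₂) * v)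

end Pool.Agent.Lib.MP_4b1228_nt.PP.R3
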