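import Pool.Agent.Lib.MP_4b1228_nt.PP.He2
import Pool.Agent.Lib.MP_4b1228_nt.PP.St3c

/-!
Rows at the level of configurations that are exact by Harman's sieve.
-/

open Finset Real Filter
open scoped Classical

noncomputable section

namespace Pool.Agent.Lib.MP_4b1228_nt.PP.He

open Sv

variable {ζ : ℝ} {A A' : ℝ → Finset ℕ → ℝ}

/-- Short windows have small mass. -/
lemma win_mass (hR : RhoStmt) (hM : MertStmt) (hζ : 0 < ζ) : ∃ C : ℝ, 0 < C ∧ ∀ η : ℝ, 0 < η →
    η ≤ 1 → ∀ᶠ X : ℝ in atTop, ∀ a : ℝ, 0 < a → a + η ≤ 2 →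
      MN ζ (fun X => win X a (a + η) fun _ => 1) X ≤ C * η := by
  obtain ⟨C, C0, H⟩ := RW.rw hR hM hζ
  refine ⟨C, C0, fun η h0 h1 => ?_⟩
  filter_upwards [H η h0 h1, eventually_gt_atTop 1] with X H hX a a0 a1
  rw [MN, ← sum_lift_mean hR X ζ _ fun T hT h => ?_]
  · refine le_trans ?_ (H a ((Icc 1 ⌊X ^ 2⌋₊).filter fun k : ℕ => Squarefree k ∧ Rough (X ^ ζ) k ∧
      X ^ a ≤ k ∧ (k : ℝ) ≤ X ^ (a + η)) a0 (by linarith) fun k hk => (mem_filter.1 hk).2)
    rw [sum_filter, sum_filter]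
    refine sum_le_sum fun k _ => ?_
    have g0 := RW.g_nonneg k
    by_cases c : Squarefree k ∧ Rough (X ^ ζ) k
    · have e : ∀ t, ls X k.primeFactors ≤ t ↔ (k : ℝ) ≤ X ^ t := fun t => by
        rw [ls_le hX (fun p hp => Nat.prime_of_mem_primeFactors hp), ← Nat.cast_prod,
          Nat.prod_primeFactors_of_squarefree c.1]
      rw [if_pos c.1, lift, if_pos c, win]
      by_cases c' : a < ls X k.primeFactors ∧ ls X k.primeFactors ≤ a + η
      · rw [if_pos c', if_pos ⟨c.1, c.2, (not_le.1 fun h => absurd ((e a).2 h) (not_le.2 c'.1)).le,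
          (e _).1 c'.2⟩, one_mul]
      · rw [if_neg c', zero_mul]
        split_ifs <;> linarith
    · rw [lift, if_neg c, zero_mul]
      split_ifs <;> linarith
  · rw [← rpow_two, ← ls_le hX fun p hp => (mem_PR (hT hp)).1]
    by_contra e
    exact h (if_neg fun h' => e (h'.2.trans a1))

section
variable (hR : RhoStmt) (hM : MertStmt) (hW : RowStmt) (hH : Ha2Stmt)
include hR hM hW hH

/-- The values at one size do not matter. -/
theorem Exa.point (h : Exa ζ A') {c C : ℝ} (hζ : 0 < ζ) (h0 : 0 < c) (h1 : 7 * c < 8)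
    (h2 : 3 * ζ + c < 2) (e : ∀ᶠ X : ℝ in atTop, ∀ K : Finset ℕ, (∀ p ∈ K, p.Prime ∧ X ^ ζ ≤ p) →
      (ls X K ≠ c → A X K = A' X K) ∧ (ls X K = c → |A X K - A' X K| ≤ C)) : Exa ζ A := by
  obtain ⟨C', C0, H⟩ := win_mass hR hM hζ
  refine RowF.lim hW fun τ hτ => ?_
  obtain ⟨η, η0, η1, η2, η3⟩ : ∃ η : ℝ, 0 < η ∧ η ≤ 1 ∧ η < c ∧ 2 * |C| * (C' * η) ≤ τ := by
    refine ⟨min (min 1 (c / 2)) (τ / (2 * |C| * C' + 1)), by positivity,
      (min_le_left _ _).trans (min_le_left _ _),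
      ((min_le_left _ _).trans (min_le_right _ _)).trans_lt (by linarith), ?_⟩
    have h3 := (le_div_iff₀ (by positivity)).1 (min_le_right (min 1 (c / 2)) (τ / (2 * |C| * C' + 1)))
    have h4 : 0 < min (min 1 (c / 2)) (τ / (2 * |C| * C' + 1)) := by positivity
    nlinarith
  have h3 := h.add hW (heP hR hM hW hH (a := c - η) (b := c) (d := 0) (C := |C|)
    (φ := fun _ D => -|C| * dl D) hζ (by linarith) (by linarith) h1 h2 (by norm_num) (by linarith)
    (Eventually.of_forall fun X D _ => ⟨by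
      rw [abs_mul, abs_neg, abs_abs]
      exact mul_le_of_le_one_right (abs_nonneg _) (dl_bd D), fun e => by
      have : D = ∅ := by
        by_contra e'
        exact e (by simp [dl, e'])
      simp [this, ls]⟩))
  refine RowF.mono hW h3 ?_
  filter_upwards [e, H η η0 η1] with X e H
  have key : ∀ K : Finset ℕ, (∀ p ∈ K, p.Prime ∧ X ^ ζ ≤ p) →
      A' X K + win X (c - η) c (fun K => ∑ D ∈ K.powerset, -|C| * dl D) K ≤ A X K ∧
      A X K - 2 * |C| * win X (c - η) c (fun _ => 1) K ≤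
        A' X K + win X (c - η) c (fun K => ∑ D ∈ K.powerset, -|C| * dl D) K := by
    intro K hK
    have a0 := abs_nonneg C
    have a1 := le_abs_self C
    simp only [win, ← mul_sum, sum_dl]
    by_cases c1 : ls X K = c
    · have := abs_le.1 ((e K hK).2 c1)
      have c2 : c - η < ls X K ∧ ls X K ≤ c := ⟨by linarith, c1.le⟩
      simp only [if_pos c2]
      constructor <;> linarith
    · rw [(e K hK).1 c1]
      split_ifs <;> constructor <;> linarith
  refine ⟨?_, fun _ _ _ => sum_le_sum fun K hK =>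
    (key K fun p hp => mem_RP (mem_powerset.1 hK hp)).1⟩
  have h4 := H (c - η) (by linarith) (by linarith)
  rw [sub_add_cancel] at h4
  refine le_trans (sub_le_sub_left ((mul_le_mul_of_nonneg_left h4 (by positivity)).trans η3) _) ?_
  rw [MN, MN, mul_sum, ← sum_sub_distrib]
  refine sum_le_sum fun K hK => ?_
  rw [← mul_assoc, ← sub_mul]
  exact mul_le_mul_of_nonneg_right (key K fun p hp => mem_PR (mem_powerset.1 hK hp)).2
    (prod_nonneg fun p _ => gp_nonneg p)

/-- Windows that are closed on the left. -/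
theorem heW' {a b γ C : ℝ} {W : ℝ → Finset ℕ → ℝ → ℝ} (hζ : 0 < ζ) (h0 : 0 < a) (hab : a ≤ b)
    (h1 : 7 * b < 8) (h2 : 3 * ζ + b < 2) (hγ : 0 < γ)
    (hφ : ∀ᶠ X : ℝ in atTop, ∀ D : Finset ℕ, (∀ p ∈ D, p.Prime ∧ X ^ ζ ≤ p) → ∀ t, a ≤ t → t ≤ b →
      |W X D t| ≤ C ∧ (a < t → W X D t ≠ 0 → ls X D ≤ 1 / 2 - γ ∧ ls X D + t ≤ 3 / 2 - γ) ∧
      ∀ t', a ≤ t' → t' ≤ b → |W X D t - W X D t'| ≤ C * |t - t'|) :
    Exa ζ fun X K => if a ≤ ls X K ∧ ls X K < b then ∑ D ∈ K.powerset, W X D (ls X K) else 0 := by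
  have bd : ∀ᶠ X : ℝ in atTop, ∀ K : Finset ℕ, (∀ p ∈ K, p.Prime ∧ X ^ ζ ≤ p) → a ≤ ls X K →
      ls X K ≤ b → |∑ D ∈ K.powerset, W X D (ls X K)| ≤ 2 ^ ⌊b / ζ⌋₊ * C := by
    filter_upwards [hφ, eventually_gt_atTop 1] with X hφ hX K hK c1 c2
    exact sum_bd hX hζ (fun p hp => (hK p hp).2) ((ls_le hX (fun p hp => (hK p hp).1) b).1 c2)
      fun D hD => (hφ D (fun p hp => hK p (hD hp)) _ c1 c2).1
  refine Exa.point hR hM hW hH (A' := fun X K => if a < ls X K ∧ ls X K < b then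
    ∑ D ∈ K.powerset, W X D (ls X K) else 0) (Exa.point hR hM hW hH
      (heW hR hM hW hH (C := C) (W := W) hζ h0.le hab h1 h2 hγ ?_) (C := 2 ^ ⌊b / ζ⌋₊ * C) hζ
      (h0.trans_le hab) h1 h2 ?_) (C := 2 ^ ⌊b / ζ⌋₊ * C) hζ h0 (by linarith) (by linarith) ?_
  · filter_upwards [hφ] with X hφ D hD t t1 t2
    obtain ⟨a1, a2, a3⟩ := hφ D hD t t1.le t2
    exact ⟨a1, a2 t1, fun t' s1 s2 => a3 t' s1.le s2⟩
  · filter_upwards [bd] with X bd K hK
    refine ⟨fun e => if_congr (and_congr_right fun _ => lt_iff_le_and_ne.trans (and_iff_left e))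
      rfl rfl, fun e => ?_⟩
    have := bd K hK (e ▸ hab) e.le
    rw [if_neg fun h => absurd h.2 (not_lt.2 e.ge), zero_sub, abs_neg, win]
    split_ifs
    · exact this
    · exact abs_zero.le.trans ((abs_nonneg _).trans this)
  · filter_upwards [bd] with X bd K hK
    refine ⟨fun e => if_congr (and_congr_left fun _ =>
      (lt_iff_le_and_ne.trans (and_iff_left e.symm)).symm) rfl rfl, fun e => ?_⟩
    have := bd K hK e.ge (e ▸ hab)
    rw [if_neg (c := a < ls X K ∧ _) fun h => absurd h.1 (not_lt.2 e.le), sub_zero]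
    split_ifs
    · exact this
    · exact abs_zero.le.trans ((abs_nonneg _).trans this)

end

open R3

lemma sum_sz' (X u : ℝ) (K : Finset ℕ) : ∑ p ∈ K, sz X u p = ls X K / u := by
  rw [ls, sum_div]
  exact sum_congr rfl fun p _ => by rw [sz, div_div, mul_comm]

/-- Marks with at most one element. -/
def mrk (a : ℝ) (w : ℝ → ℝ) (x : ℕ → ℝ) (D : Finset ℕ) : ℝ :=
  if D = ∅ then a else if #D = 1 then w (∑ p ∈ D, x p) else 0

lemma sum_mrk (a : ℝ) (w : ℝ → ℝ) (x : ℕ → ℝ) (K : Finset ℕ) :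
    ∑ D ∈ K.powerset, mrk a w x D = a + ∑ q ∈ K, w (x q) := by
  have e : ∀ D, mrk a w x D = a * dl D + if #D = 1 then w (∑ p ∈ D, x p) else 0 := fun D => by
    unfold mrk dl
    by_cases h : D = ∅ <;> simp [h]
  simp only [e, sum_add_distrib, ← mul_sum, sum_dl, mul_one, ← sum_filter]
  rw [← powersetCard_eq_filter, powersetCard_one, sum_map]
  simp

lemma RP_filter {X u Z ε : ℝ} (hX : 1 < X) (hu : 0 < u) (hε : ε ≤ u * Z) (n : ℕ) :
    (RP X ε n).filter (fun p => Z ≤ sz X u p) = RP X (u * Z) n := by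
  unfold RP
  rw [filter_filter]
  refine filter_congr fun p hp => ?_
  have p0 : (0 : ℝ) < p := by exact_mod_cast (Nat.prime_of_mem_primeFactors hp).pos
  have e : Z ≤ sz X u p ↔ X ^ (u * Z) ≤ p := by
    rw [sz, le_div_iff₀ (mul_pos hu (log_pos hX)), rpow_le_iff_le_log (by linarith) p0,
      mul_left_comm, mul_assoc]
  rw [e]
  exact and_iff_right_of_imp fun h => (rpow_le_rpow_of_exponent_le hX.le hε).trans h

end Pool.Agent.Lib.MP_4b1228_nt.PP.He

namespace Pool.Agent.Lib.MP_4b1228_nt.PP.R3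

open He Sv

theorem h2S (hR : RhoStmt) (hM : MertStmt) (hW : RowStmt) (hE : ExSetStmt) (hH : Ha2Stmt) :
    H2Stmt := by
  intro Q Z A₀ A₁ B v ψ W hQ hZ h0 h01 h1 h2 hψ hw hL
  have Q0 : (1 : ℝ) ≤ Q := by exact_mod_cast hQ
  have e0 : 1 / (2 * (Q : ℝ)) * Q = 1 / 2 := by field_simp
  refine ⟨1 / (2 * Q), by positivity, by rw [e0]; norm_num, fun u u1 u2 τ hτ => ?_⟩
  generalize (u : ℝ) = u at u1 u2
  have hu : 0 < u := lt_trans (by positivity) u1
  have u3 : 1 / 2 < u * Q := e0 ▸ mul_lt_mul_of_pos_right u1 (by linarith)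
  have hζ := mul_pos hu hZ
  have B0 : 0 ≤ B := (abs_nonneg _).trans (hψ A₀ ⟨le_rfl, h01⟩ A₀ ⟨le_rfl, h01⟩).1
  have b1 : 7 * (u * A₁) < 8 := by nlinarith
  have b2 : 3 * (u * Z) + u * A₁ < 2 := by nlinarith
  have mb : ∀ X D, ∀ t ∈ Set.Icc A₀ A₁, |mrk (ψ t) (fun y => W y t) (sz X u) D| ≤ B := by
    intro X D t ht
    unfold mrk
    split_ifs
    · exact (hψ t ht t ht).1
    · exact (hw _ t ht t ht).1
    · simpa using B0
  have lo : Exa (u * Z) fun X K => if ls X K / u < Q then hw2 A₀ A₁ ψ W (sz X u) K else 0 := by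
    refine low hW hM hE (a := u * Q) (C := 2 ^ ⌊u * A₁ / (u * Z)⌋₊ * B) hζ u2 ?_
    filter_upwards [eventually_gt_atTop 1] with X hX K hK
    refine ⟨?_, fun e => ?_⟩
    · rw [hw2, ← sum_mrk _ (fun y => W y (∑ p ∈ K, sz X u p))]
      split_ifs with c1 c2
      · refine sum_bd hX hζ (fun p hp => (hK p hp).2)
          ((ls_le hX (fun p hp => (hK p hp).1) _).1 ?_) fun D _ => mb X D _ ⟨c2.1, c2.2.le⟩
        rw [sum_sz', div_lt_iff₀ hu] at c2
        linarith [c2.2]
      all_goals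
        rw [abs_zero]
        positivity
    · by_contra c
      exact e (if_neg fun h => c (by rw [div_lt_iff₀ hu] at h; linarith))
  have ex : Exa (u * Z) fun X K => hw2 A₀ A₁ ψ W (sz X u) K := by
    rcases le_total A₁ Q with c | c
    · refine lo.congr hW (Eventually.of_forall fun X K _ => ?_)
      split_ifs with c'
      · rfl
      · rw [hw2, sum_sz', if_neg fun h => c' (h.2.trans_le c)]
    have m1 := le_max_left A₀ Q
    have m2 := le_max_right A₀ Q
    refine (lo.add hW (heW' hR hM hW hH (a := u * max A₀ Q) (b := u * A₁) (γ := (1 - u * Q) / 2)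
      (C := B * (1 + 1 / u)) (W := fun X D t => mrk (ψ (t / u)) (fun y => W y (t / u)) (sz X u) D)
      hζ (mul_pos hu (by linarith)) (mul_le_mul_of_nonneg_left (max_le h01 c) hu.le) b1 b2
      (by linarith) (Eventually.of_forall fun X D _ t t1 t2 => ?_))).congr hW
      (Eventually.of_forall fun X K _ => ?_)
    · have I : ∀ t, u * max A₀ Q ≤ t → t ≤ u * A₁ → t / u ∈ Set.Icc A₀ A₁ := fun t t1 t2 =>
        ⟨m1.trans ((le_div_iff₀' hu).2 t1), (div_le_iff₀' hu).2 t2⟩
      have k : 0 ≤ B * (1 / u) := by positivity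
      refine ⟨(mb X D _ (I t t1 t2)).trans (by linarith), fun t3 e => ?_, fun t' s1 s2 => ?_⟩
      · unfold mrk at e
        split_ifs at e with c1 c2
        · simp only [c1, ls, sum_empty]
          constructor <;> linarith
        · have t4 : u * Q < t := (mul_le_mul_of_nonneg_left m2 hu.le).trans_lt t3
          have := ((hw _ _ (I t t1 t2) _ (I t t1 t2)).2.2 e).resolve_left
            (not_le.2 ((lt_div_iff₀' hu).2 t4))
          rw [sum_sz', ← add_div, ← mul_div_assoc, div_le_iff₀ hu] at this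
          constructor <;> linarith
        · exact absurd rfl e
      · have k2 : B * |t / u - t' / u| ≤ B * (1 + 1 / u) * |t - t'| := by
          rw [← sub_div, abs_div, abs_of_pos hu, div_eq_mul_one_div]
          nlinarith [mul_nonneg B0 (abs_nonneg (t - t'))]
        unfold mrk
        split_ifs
        · exact (hψ _ (I t t1 t2) _ (I t' s1 s2)).2.trans k2
        · exact (hw _ _ (I t t1 t2) _ (I t' s1 s2)).2.1.trans k2
        · simp only [sub_zero, abs_zero]
          positivity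
    · simp only [sum_mrk, hw2, sum_sz', ← le_div_iff₀' hu, ← div_lt_iff₀' hu, max_le_iff]
      by_cases c' : ls X K / u < Q
      · simp [c', not_le.2 c']
      · simp [c', not_lt.1 c']
  refine ⟨u * Z, hζ, fun ε _ hε => hW.2.2.2.2.1 _ _ _ _ (ex.row hW (v := v - τ) ?_) le_rfl ?_⟩
  · filter_upwards [hL u τ hu (by linarith) hτ] with X hX
    exact hX.trans_eq (sum_congr rfl fun K _ => mul_comm _ _)
  · filter_upwards [eventually_gt_atTop 1] with X hX n _ _
    rw [HT2, RP_filter hX hu hε]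
    rfl

end Pool.Agent.Lib.MP_4b1228_nt.PP.R3
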