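import Pool.Agent.Lib.MP_4b1228_nt.PP.St3

/-!
The row of one large prime.
-/

open Finset Real Filter
open scoped Classical

noncomputable section

namespace Pool.Agent.Lib.MP_4b1228_nt.PP.R3

theorem pS (hr : RowStmt) (hb : BigStmt) : PStmt := by
  intro Q c hQ h1 h2 h3 hw
  have Q0 : (0 : ℝ) < Q := by exact_mod_cast hQ
  have a0 : 0 < c.a := Q0.trans h1
  refine ⟨1 / c.a, by positivity, by rwa [one_div_mul_eq_div, div_lt_one a0],
    fun u u1 u2 τ hτ => ⟨1, one_pos, fun ε _ _ => ?_⟩⟩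
  have u0 : (0 : ℝ) < u := lt_trans (by positivity) u1
  rw [div_lt_iff₀ a0] at u1
  rcases h2.eq_or_lt with e | e
  · refine hr.2.2.2.2.1 _ _ _ _ (hr.1 0) (by rw [e]; simp [hτ.le])
      (Eventually.of_forall fun X n _ _ => ?_)
    have : ∀ t, c.w t = 0 := fun t => if_neg fun h => by linarith [h.1, h.2]
    simp [tup, tupF, this]
  have w1 : ∀ t ∈ Set.Icc c.a c.b, 0 ≤ c.α + c.β * t := by
    rw [← closure_Ico e.ne]
    refine (isClosed_le (g := fun t => c.α + c.β * t) continuous_const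
      (by fun_prop)).closure_subset_iff.2 fun t ht => ?_
    have := hw t
    rwa [Cel.w, if_pos (Set.mem_Ico.1 ht)] at this
  have e1 : ∀ t : ℝ, c.β / u * (u * t) = c.β * t := fun t => by field_simp
  refine hr.2.2.2.2.1 _ _ _ _ (hb (u * c.a) (u * c.b) c.α (c.β / u) u1 (by gcongr) (by nlinarith)
    (by rw [e1]; exact w1 _ ⟨le_rfl, h2⟩) (by rw [e1]; exact w1 _ ⟨h2, le_rfl⟩)) ?_ ?_
  · have w2 := w1 ((c.a + c.b) / 2) ⟨by linarith, by linarith⟩
    rw [← mul_add, mul_div_assoc (u : ℝ), e1, ← mul_sub]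
    have w3 : 0 ≤ 4 * (c.b - c.a) * (c.α + c.β * ((c.a + c.b) / 2)) :=
      mul_nonneg (by linarith) w2
    have w4 : (u : ℝ) ≤ 1 / Q := by rw [le_div_iff₀ Q0]; exact u2.le
    have := mul_le_mul_of_nonneg_left w4 w3
    rw [mul_one_div] at this
    linarith
  · filter_upwards [eventually_gt_atTop 1] with X hX n _ _
    have L0 := log_pos hX
    have X0 : 0 < X := by linarith
    simp only [tup, tupF, List.map, mul_one, neg_le_neg_iff, sum_filter]
    refine (sum_le_sum_of_subset_of_nonneg (filter_subset _ _) fun _ _ _ => hw _).trans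
      (sum_le_sum fun p hp => ?_)
    have p0 : (0 : ℝ) < p := by exact_mod_cast (Nat.prime_of_mem_primeFactors hp).pos
    have e2 : c.β / u * (log p / log X) = c.β * sz X u p := by rw [sz]; field_simp
    have e3 : (X ^ (u * c.a) ≤ p ∧ (p : ℝ) ≤ X ^ (u * c.b)) ↔ sz X u p ∈ Set.Icc c.a c.b := by
      rw [Set.mem_Icc, sz, le_div_iff₀ (by positivity), div_le_iff₀ (by positivity),
        ← log_le_log_iff (rpow_pos_of_pos X0 _) p0, ← log_le_log_iff p0 (rpow_pos_of_pos X0 _),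
        log_rpow X0, log_rpow X0]
      ring_nf
    rw [e2, Cel.w]
    split_ifs with d1 d2 d2
    · exact le_rfl
    · exact absurd (e3.2 ⟨d1.1, d1.2.le⟩) d2
    · exact w1 _ (e3.1 d2)
    · exact le_rfl

end Pool.Agent.Lib.MP_4b1228_nt.PP.R3
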