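import Mathlib

/-!
The linear sieve with well-factorable weights (Rosser, Iwaniec): the statement.
All sizes are in units of `log X / Q`.
-/

open Finset Real

noncomputable section

namespace Pool.Agent.Lib.MP_4b1228_nt.PP.LS

open scoped Classical

/-- Rounded size of a prime. -/
def hq (X : ℝ) (Q p : ℕ) : ℕ := ⌊Q * log p / log X⌋₊ + 1

/-- Squarefree, all prime factors at least `X ^ ε` and of rounded size at most `Z`. -/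
def In (X ε : ℝ) (Q Z d : ℕ) : Prop :=
  Squarefree d ∧ ∀ p ∈ d.primeFactors, X ^ ε ≤ p ∧ hq X Q p ≤ Z

/-- Well-factorable of level `D`. -/
def WF (X ε : ℝ) (Q Z D B : ℕ) (l : ℕ → ℝ) : Prop :=
  (∀ d, |l d| ≤ 1 ∧ (l d ≠ 0 → In X ε Q Z d ∧ (d : ℝ) ≤ X ^ ((D : ℝ) / Q))) ∧
  ∀ D₁ D₂ : ℕ, D ≤ D₁ + D₂ → ∃ al be : ℕ → ℕ → ℝ,
    (∀ j d, |al j d| ≤ 1 ∧ |be j d| ≤ 1 ∧
      (al j d ≠ 0 → In X ε Q Z d ∧ (d : ℝ) ≤ X ^ ((D₁ : ℝ) / Q)) ∧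
      (be j d ≠ 0 → In X ε Q Z d ∧ (d : ℝ) ≤ X ^ ((D₂ : ℝ) / Q))) ∧
    ∀ d, Squarefree d →
      l d = ∑ j ∈ range B, ∑ x ∈ d.divisorsAntidiagonal, al j x.1 * be j x.2

/-- The density has dimension at most one, up to `τ`. -/
def Mer (τ : ℝ) (g : ℕ → ℝ) (P : Finset ℕ) : Prop :=
  (∀ p ∈ P, 0 ≤ g p ∧ g p ≤ τ) ∧ ∀ p ∈ P, ∀ p' ∈ P, p ≤ p' →
    ∑ q ∈ P with p ≤ q ∧ q ≤ p', g q ≤ (1 + τ) * log (log p' / log p) + τ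

/-- The sieve; `F i` and `f i` are the upper and lower functions at `s = i / N`. -/
def LSStmt (N : ℕ) (F f : ℕ → ℝ) : Prop :=
  ∀ ε : ℝ, 0 < ε → ∃ (Q₀ : ℕ) (τ : ℝ), 0 < τ ∧ ∀ Q : ℕ, Q₀ ≤ Q → ∃ B : ℕ,
    ∀ (X : ℝ) (D Z : ℕ), 1 < X → D ≤ 2 * Q → 1 ≤ Z → Z ≤ Q →
      ∃ lP lM : ℕ → ℝ, WF X ε Q Z D B lP ∧ (2 * Z ≤ D → WF X ε Q Z D B lM) ∧
        ∀ m : ℕ, In X ε Q Z m →
          (∑ d ∈ m.divisors, lM d ≤ (if m = 1 then 1 else 0) ∧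
            (if m = 1 then 1 else 0) ≤ ∑ d ∈ m.divisors, lP d) ∧
          ∀ (g : ℕ → ℝ) (i : ℕ), Mer τ g m.primeFactors → i * Z ≤ N * D →
            (1 ≤ i → ∑ d ∈ m.divisors, lP d * ∏ p ∈ d.primeFactors, g p ≤
              F i * ∏ p ∈ m.primeFactors, (1 - g p)) ∧
            (2 * N ≤ i → f i * ∏ p ∈ m.primeFactors, (1 - g p) ≤
              ∑ d ∈ m.divisors, lM d * ∏ p ∈ d.primeFactors, g p)

end Pool.Agent.Lib.MP_4b1228_nt.PP.LS
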