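import Pool.Agent.Lib.MP_4b1228_nt.PP.St
import Pool.Agent.Lib.MP_4b1228_nt.PP.LSt

/-! The density `rho p / p` has dimension at most one. -/

open Finset Real Filter
open scoped Classical

namespace Pool.Agent.Lib.MP_4b1228_nt.PP.LS

theorem mer_rho (hR : RhoStmt) (hM : MertStmt) {ε τ : ℝ} (hε : 0 < ε) (hτ : 0 < τ) :
    ∀ᶠ X : ℝ in atTop, ∀ P : Finset ℕ, (∀ p ∈ P, p.Prime ∧ X ^ ε ≤ p) →
      Mer τ (fun p => (rho p : ℝ) / p) P := by
  obtain ⟨y₀, y2, hy⟩ := hM τ hτ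
  filter_upwards [(tendsto_rpow_atTop hε).eventually_ge_atTop (max y₀ (2 / τ))] with X x1 P hP
  refine ⟨fun p hp => ⟨by positivity, ?_⟩, fun p hp p' hp' e => ?_⟩
  · have r2 := hR.2.2.1 p 1 (hP p hp).1
    rw [pow_one] at r2
    have r3 : (rho p : ℝ) ≤ 2 := by exact_mod_cast r2
    have p0 : (0 : ℝ) < p := by exact_mod_cast (hP p hp).1.pos
    have := ((le_max_right _ _).trans x1).trans (hP p hp).2
    rw [div_le_iff₀ hτ] at this
    rw [div_le_iff₀ p0]
    linarith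
  · refine le_trans (sum_le_sum_of_subset_of_nonneg (fun q hq => ?_) fun q _ _ => by positivity)
      (hy p p' (((le_max_left _ _).trans x1).trans (hP p hp).2) (by exact_mod_cast e)).1
    obtain ⟨a1, a2, a3⟩ := mem_filter.1 hq
    rw [Nat.floor_natCast]
    exact mem_filter.2 ⟨mem_Icc.2 ⟨(hP q a1).1.pos, a3⟩, (hP q a1).1, by exact_mod_cast a2⟩

theorem mer_in (hR : RhoStmt) (hM : MertStmt) {ε τ : ℝ} (hε : 0 < ε) (hτ : 0 < τ) :
    ∀ᶠ X : ℝ in atTop, ∀ Q Z m : ℕ, In X ε Q Z m →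
      Mer τ (fun p => (rho p : ℝ) / p) m.primeFactors :=
  (mer_rho hR hM hε hτ).mono fun _ h _ _ _ hm => h _ fun p hp =>
    ⟨Nat.prime_of_mem_primeFactors hp, (hm.2 p hp).1⟩

theorem rho_prod (hR : RhoStmt) (S : Finset ℕ) (hS : ∀ p ∈ S, p.Prime) :
    rho (∏ p ∈ S, p) = ∏ p ∈ S, rho p := by
  induction S using Finset.induction_on with
  | empty => simpa using hR.2.2.2.2.1
  | insert a S ha ih =>
    have h1 := hS a (mem_insert_self _ _)
    have h2 := fun l hl => hS l (mem_insert_of_mem (b := a) hl)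
    rw [prod_insert ha, prod_insert ha, hR.1, ih h2]
    exact Nat.Coprime.prod_right fun l hl =>
      (Nat.coprime_primes h1 (h2 l hl)).2 fun e => ha (e ▸ hl)

theorem prod_rho (hR : RhoStmt) {d : ℕ} (hd : Squarefree d) :
    ∏ p ∈ d.primeFactors, (rho p : ℝ) / p = rho d / d := by
  have e := Nat.prod_primeFactors_of_squarefree hd
  have := rho_prod hR d.primeFactors fun p hp => Nat.prime_of_mem_primeFactors hp
  rw [e] at this
  rw [prod_div_distrib, this, ← Nat.cast_prod, ← Nat.cast_prod, e]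

end Pool.Agent.Lib.MP_4b1228_nt.PP.LS
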