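import Pool.Agent.Lib.MP_4b1228_nt.PP.SvD
import Pool.Agent.Lib.MP_4b1228_nt.PP.LSX
import Pool.Agent.Lib.MP_4b1228_nt.PP.LSR

/-!
Exact rows and sieved rows on sets of primes.
-/

open Finset Real Filter
open scoped Classical

noncomputable section

namespace Pool.Agent.Lib.MP_4b1228_nt.PP

namespace Sv

lemma sum_pp (T : Finset ℕ) (F : Finset ℕ → Finset ℕ → ℝ) :
    ∑ U ∈ T.powerset, ∑ W ∈ U.powerset, F W (U \ W) =
      ∑ W ∈ T.powerset, ∑ Y ∈ (T \ W).powerset, F W Y := by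
  rw [sum_comm' (s' := fun W => T.powerset.filter (W ⊆ ·)) (t' := T.powerset) fun U W => by
    simp only [mem_powerset, mem_filter]
    exact ⟨fun h => ⟨⟨h.1, h.2⟩, h.2.trans h.1⟩, fun h => ⟨h.1.1, h.1.2⟩⟩]
  refine sum_congr rfl fun W hW => ?_
  refine sum_nbij' (fun U => U \ W) (fun Y => Y ∪ W) ?_ ?_ ?_ ?_ fun _ _ => rfl
  · intro U hU
    exact mem_powerset.2 (sdiff_subset_sdiff (mem_powerset.1 (mem_filter.1 hU).1) Subset.rfl)
  · intro Y hY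
    exact mem_filter.2 ⟨mem_powerset.2 (union_subset ((mem_powerset.1 hY).trans sdiff_subset)
      (mem_powerset.1 hW)), subset_union_right⟩
  · intro U hU
    exact sdiff_union_of_subset (mem_filter.1 hU).2
  · intro Y hY
    exact union_sdiff_cancel_right (disjoint_of_subset_left (mem_powerset.1 hY) sdiff_disjoint)

lemma cv_comm (A B : Finset ℕ → ℝ) : cv A B = cv B A := by
  funext T
  unfold cv
  refine sum_nbij' (fun U => T \ U) (fun U => T \ U) (fun U _ => mem_powerset.2 sdiff_subset)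
    (fun U _ => mem_powerset.2 sdiff_subset) (fun U hU => Finset.sdiff_sdiff_eq_self (mem_powerset.1 hU))
    (fun U hU => Finset.sdiff_sdiff_eq_self (mem_powerset.1 hU)) fun U hU => ?_
  rw [Finset.sdiff_sdiff_eq_self (mem_powerset.1 hU), mul_comm]

lemma cv_assoc (A B C : Finset ℕ → ℝ) : cv (cv A B) C = cv A (cv B C) := by
  funext T
  unfold cv
  simp only [sum_mul, mul_sum]
  rw [← sum_pp T fun W Y => A W * (B Y * C ((T \ W) \ Y))]
  refine sum_congr rfl fun U _ => sum_congr rfl fun W hW => ?_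
  rw [mul_assoc, sdiff_sdiff_left, sup_eq_union, union_sdiff_of_subset (mem_powerset.1 hW)]

lemma cv_four (A B C D : Finset ℕ → ℝ) : cv (cv A C) (cv B D) = cv (cv A B) (cv C D) := by
  rw [cv_assoc, cv_assoc, ← cv_assoc C, ← cv_assoc B, cv_comm C B]

lemma cv_nonneg {A B : Finset ℕ → ℝ} {T : Finset ℕ} (hA : ∀ U ⊆ T, 0 ≤ A U)
    (hB : ∀ U ⊆ T, 0 ≤ B U) : 0 ≤ cv A B T :=
  sum_nonneg fun U hU => mul_nonneg (hA U (mem_powerset.1 hU)) (hB _ sdiff_subset)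

lemma cv_supp {A B : Finset ℕ → ℝ} {T : Finset ℕ} {x y : ℝ}
    (hA : ∀ U ⊆ T, A U ≠ 0 → ∏ p ∈ U, (p : ℝ) ≤ x) (hB : ∀ U ⊆ T, B U ≠ 0 → ∏ p ∈ U, (p : ℝ) ≤ y)
    (h : cv A B T ≠ 0) : ∏ p ∈ T, (p : ℝ) ≤ x * y := by
  obtain ⟨U, hU, h1⟩ := exists_ne_zero_of_sum_ne_zero h
  have hU' := mem_powerset.1 hU
  have h2 := hA U hU' (left_ne_zero_of_mul h1)
  have h3 := hB _ sdiff_subset (right_ne_zero_of_mul h1)
  rw [← prod_sdiff hU', mul_comm]
  exact mul_le_mul h2 h3 (by positivity) (le_trans (by positivity) h2)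

lemma cv_abs {A B : Finset ℕ → ℝ} {T : Finset ℕ} {x y : ℝ} (hA : ∀ U ⊆ T, |A U| ≤ x)
    (hB : ∀ U ⊆ T, |B U| ≤ y) : |cv A B T| ≤ 2 ^ T.card * (x * y) := by
  refine (abs_sum_le_sum_abs _ _).trans ((sum_le_card_nsmul _ _ (x * y) fun U hU => ?_).trans ?_)
  · rw [abs_mul]
    have := hA U (mem_powerset.1 hU)
    exact mul_le_mul this (hB _ sdiff_subset) (abs_nonneg _) ((abs_nonneg _).trans this)
  · rw [card_powerset, nsmul_eq_mul]
    push_cast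
    rfl

lemma card_le {X ε e : ℝ} (hX : 1 < X) (hε : 0 < ε) {T : Finset ℕ} (hT : ∀ p ∈ T, X ^ ε ≤ p)
    (h : ∏ p ∈ T, (p : ℝ) ≤ X ^ e) : T.card ≤ ⌊e / ε⌋₊ := by
  have h1 : ∏ _p ∈ T, X ^ ε ≤ ∏ p ∈ T, (p : ℝ) :=
    prod_le_prod (fun _ _ => by positivity) hT
  rw [prod_const, ← rpow_natCast, ← rpow_mul (by linarith)] at h1
  have h2 := (rpow_le_rpow_left_iff hX).1 (h1.trans h)
  exact Nat.le_floor ((le_div_iff₀ hε).2 (by linarith))

/-- Divisors of a product of distinct primes. -/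
lemma sum_dvs {Y : Finset ℕ} (hY : ∀ p ∈ Y, p.Prime) (G : ℕ → ℝ) :
    ∑ d ∈ (∏ p ∈ Y, p).divisors, G d = ∑ U ∈ Y.powerset, G (∏ p ∈ U, p) := by
  obtain ⟨h1, h2⟩ := LSX.in_prod hY Subset.rfl
  have h := LSX.sum_dvd hY h1.1.ne_zero fun U => G (∏ p ∈ U, p)
  rw [filter_true_of_mem (s := Y) (p := (· ∣ ∏ p ∈ Y, p)) fun p hp => dvd_prod_of_mem _ hp] at h
  refine Eq.trans (sum_congr rfl fun d hd => ?_) h
  have hd' := Nat.dvd_of_mem_divisors hd
  have h3 := h1.1.squarefree_of_dvd hd'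
  rw [if_pos ⟨h3, h2 ▸ Nat.primeFactors_mono hd' h1.1.ne_zero⟩,
    Nat.prod_primeFactors_of_squarefree h3]

lemma anti_set {Y : Finset ℕ} (hY : ∀ p ∈ Y, p.Prime) (A B : ℕ → ℝ) :
    ∑ x ∈ (∏ p ∈ Y, p).divisorsAntidiagonal, A x.1 * B x.2 =
      cv (fun U => A (∏ p ∈ U, p)) (fun U => B (∏ p ∈ U, p)) Y := by
  rw [Nat.sum_divisorsAntidiagonal fun x y => A x * B y, sum_dvs hY]
  refine sum_congr rfl fun U hU => ?_
  have hU' := mem_powerset.1 hU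
  rw [← prod_sdiff hU', Nat.mul_div_cancel _ (prod_pos fun p hp => (hY p (hU' hp)).pos)]

lemma sum_in {P : Finset ℕ} (hP : ∀ p ∈ P, p.Prime) (F : Finset ℕ) (G : Finset ℕ → ℝ)
    (hF : ∀ T ⊆ P, G T ≠ 0 → ∏ p ∈ T, p ∈ F) :
    ∑ d ∈ F, (if LSX.In P d then G d.primeFactors else 0) = ∑ S ∈ P.powerset, G S := by
  rw [← sum_filter, ← sum_filter_ne_zero, ← sum_filter_ne_zero P.powerset]
  refine sum_nbij' (fun d => d.primeFactors) (fun T => ∏ p ∈ T, p) ?_ ?_ ?_ ?_ fun _ _ => rfl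
  · intro d hd
    obtain ⟨h1, h2⟩ := mem_filter.1 hd
    exact mem_filter.2 ⟨mem_powerset.2 (mem_filter.1 h1).2.2, h2⟩
  · intro T hT
    obtain ⟨h1, h2⟩ := mem_filter.1 hT
    obtain ⟨h3, h4⟩ := LSX.in_prod hP (mem_powerset.1 h1)
    exact mem_filter.2 ⟨mem_filter.2 ⟨hF T (mem_powerset.1 h1) h2, h3⟩, h4.symm ▸ h2⟩
  · intro d hd
    exact Nat.prod_primeFactors_of_squarefree (mem_filter.1 (mem_filter.1 hd).1).2.1
  · intro T hT
    exact (LSX.in_prod hP (mem_powerset.1 (mem_filter.1 hT).1)).2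

/-- A set function as a function on the rough squarefree integers. -/
def lift (y : ℝ) (A : Finset ℕ → ℝ) (d : ℕ) : ℝ :=
  if Squarefree d ∧ Rough y d then A d.primeFactors else 0

lemma lift_prod {y : ℝ} (A : Finset ℕ → ℝ) {U : Finset ℕ} (hU : ∀ p ∈ U, p.Prime) :
    lift y A (∏ p ∈ U, p) = if ∀ p ∈ U, y ≤ p then A U else 0 := by
  obtain ⟨h1, h2⟩ := LSX.in_prod hU Subset.rfl
  unfold lift
  rw [h2]
  refine if_congr ⟨fun h p hp => h.2 p (hU p hp) (dvd_prod_of_mem _ hp),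
    fun h => ⟨h1.1, fun p hp hd => h p ?_⟩⟩ rfl rfl
  exact h2 ▸ Nat.mem_primeFactors.2 ⟨hp, hd, h1.1.ne_zero⟩

lemma lift_cv {y : ℝ} (A B : Finset ℕ → ℝ) {k : ℕ} (hk : Squarefree k) :
    ∑ x ∈ k.divisorsAntidiagonal, lift y A x.1 * lift y B x.2 = lift y (cv A B) k := by
  have hY : ∀ p ∈ k.primeFactors, p.Prime := fun p hp => Nat.prime_of_mem_primeFactors hp
  rw [← Nat.prod_primeFactors_of_squarefree hk, anti_set hY, lift_prod _ hY]
  unfold cv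
  split_ifs with h
  · refine sum_congr rfl fun U hU => ?_
    have hU' := mem_powerset.1 hU
    dsimp only
    rw [lift_prod _ fun p hp => hY p (hU' hp), lift_prod _ fun p hp => hY p (sdiff_subset hp),
      if_pos fun p hp => h p (hU' hp), if_pos fun p hp => h p (sdiff_subset hp)]
  · refine sum_eq_zero fun U hU => ?_
    have hU' := mem_powerset.1 hU
    dsimp only
    rw [lift_prod _ fun p hp => hY p (hU' hp), lift_prod _ fun p hp => hY p (sdiff_subset hp)]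
    split_ifs with h1 h2
    · refine absurd (fun p hp => ?_) h
      by_cases h3 : p ∈ U
      · exact h1 p h3
      · exact h2 p (mem_sdiff.2 ⟨hp, h3⟩)
    all_goals simp

lemma lift_sum {y : ℝ} (B : ℕ) (A : ℕ → Finset ℕ → ℝ) (k : ℕ) :
    ∑ j ∈ range B, lift y (A j) k = lift y (fun T => ∑ j ∈ range B, A j T) k := by
  unfold lift
  split_ifs <;> simp

lemma mem_RP {X ε : ℝ} {n p : ℕ} (h : p ∈ RP X ε n) : p.Prime ∧ X ^ ε ≤ p :=
  ⟨Nat.prime_of_mem_primeFactors (mem_filter.1 h).1, (mem_filter.1 h).2⟩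

lemma mem_PR {X ε : ℝ} {p : ℕ} (h : p ∈ PR X ε) : p.Prime ∧ X ^ ε ≤ p := (mem_filter.1 h).2

lemma sum_lift_dvd (X ε : ℝ) (A : Finset ℕ → ℝ) {n : ℕ} (hn : n ≠ 0) :
    ∑ k ∈ n.divisors with Squarefree k, lift (X ^ ε) A k = ∑ T ∈ (RP X ε n).powerset, A T := by
  have h := LSX.sum_dvd (P := RP X ε n) (fun p hp => (mem_RP hp).1) hn A
  rw [filter_true_of_mem (s := RP X ε n) (p := (· ∣ n))
    fun p hp => Nat.dvd_of_mem_primeFactors (mem_filter.1 hp).1] at h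
  rw [← h, sum_filter]
  refine sum_congr rfl fun d hd => ?_
  have hd' := Nat.dvd_of_mem_divisors hd
  unfold lift
  by_cases h1 : Squarefree d
  · rw [if_pos h1]
    refine if_congr ⟨fun h2 => ⟨h1, fun p hp => mem_filter.2 ⟨Nat.primeFactors_mono hd' hn hp,
      h2.2 p (Nat.prime_of_mem_primeFactors hp) (Nat.dvd_of_mem_primeFactors hp)⟩⟩,
      fun h2 => ⟨h1, fun p hp h3 =>
        (mem_RP (h2.2 (Nat.mem_primeFactors.2 ⟨hp, h3, h1.ne_zero⟩))).2⟩⟩ rfl rfl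
  · rw [if_neg h1, if_neg fun h2 => h1 h2.1]

lemma sum_lift_mean (hR : RhoStmt) (X ε : ℝ) (A : Finset ℕ → ℝ)
    (hA : ∀ T ⊆ PR X ε, A T ≠ 0 → ∏ p ∈ T, (p : ℝ) ≤ X ^ 2) :
    ∑ k ∈ (Icc 1 ⌊X ^ 2⌋₊ : Finset ℕ) with Squarefree k, lift (X ^ ε) A k * (rho k / k) =
      ∑ T ∈ (PR X ε).powerset, A T * ∏ p ∈ T, gp p := by
  rw [← sum_in (fun p hp => (mem_PR hp).1) (Icc 1 ⌊X ^ 2⌋₊) _ fun T hT h => mem_Icc.2
    ⟨prod_pos fun p hp => (mem_PR (hT hp)).1.pos,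
      Nat.le_floor (by push_cast; exact hA T hT (left_ne_zero_of_mul h))⟩, sum_filter]
  refine sum_congr rfl fun d hd => ?_
  unfold lift
  by_cases h1 : Squarefree d
  · rw [if_pos h1, ← LS.prod_rho hR h1, ite_mul, zero_mul]
    refine if_congr ⟨fun h2 => ⟨h1, fun p hp => ?_⟩, fun h2 => ⟨h1, fun p hp h3 =>
      (mem_PR (h2.2 (Nat.mem_primeFactors.2 ⟨hp, h3, h1.ne_zero⟩))).2⟩⟩ rfl rfl
    have p1 := Nat.prime_of_mem_primeFactors hp
    exact mem_filter.2 ⟨mem_Icc.2 ⟨p1.pos, (Nat.le_of_mem_primeFactors hp).trans (mem_Icc.1 hd).2⟩,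
      p1, h2.2 p p1 (Nat.dvd_of_mem_primeFactors hp)⟩
  · rw [if_neg h1, if_neg fun h2 => h1 h2.1]

lemma lift_bd {y x c : ℝ} {A : Finset ℕ → ℝ} (hc : 0 ≤ c)
    (h : ∀ T : Finset ℕ, (∀ p ∈ T, p.Prime ∧ y ≤ p) →
      |A T| ≤ c ∧ (A T ≠ 0 → ∏ p ∈ T, (p : ℝ) ≤ x)) (d : ℕ) :
    |lift y A d| ≤ c ∧ (lift y A d ≠ 0 → Rough y d ∧ (d : ℝ) ≤ x) := by
  unfold lift
  split_ifs with h1
  · have h2 := h d.primeFactors fun p hp => ⟨Nat.prime_of_mem_primeFactors hp,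
      h1.2 p (Nat.prime_of_mem_primeFactors hp) (Nat.dvd_of_mem_primeFactors hp)⟩
    refine ⟨h2.1, fun h3 => ⟨h1.2, ?_⟩⟩
    have := h2.2 h3
    rwa [← Nat.cast_prod, Nat.prod_primeFactors_of_squarefree h1.1] at this
  · simpa using hc

end Sv

open Sv

/-- Exact rows on sets of primes. -/
theorem exSet (hR : RhoStmt) (hW : RowStmt) (hE : ExStmt) : ExSetStmt := by
  intro ε γ v B a b U V hε hγ hab h
  refine hW.2.2.2.2.1 _ _ v v (hE ε γ v B a b (fun X j => lift (X ^ ε) (U X j))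
    (fun X j => lift (X ^ ε) (V X j)) hε hγ hab ?_) le_rfl ?_
  · filter_upwards [h, eventually_gt_atTop 1] with X ⟨h1, h2⟩ hX
    refine ⟨fun j hj d => ?_, h2.trans (le_of_eq ?_)⟩
    · have a1 := lift_bd (Nat.cast_nonneg B) (fun T hT =>
        ⟨(h1 j hj T hT).1, (h1 j hj T hT).2.2.1⟩) d
      have a2 := lift_bd (Nat.cast_nonneg B) (fun T hT =>
        ⟨(h1 j hj T hT).2.1, (h1 j hj T hT).2.2.2⟩) d
      exact ⟨a1.1, a2.1, a1.2, a2.2⟩
    · rw [← sum_lift_mean hR X ε _ fun T hT h3 => ?_]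
      · refine sum_congr rfl fun k hk => ?_
        rw [← lift_sum, sum_congr rfl fun j _ => lift_cv _ _ (mem_filter.1 hk).2]
      · obtain ⟨j, hj, h4⟩ := exists_ne_zero_of_sum_ne_zero h3
        have hj' := mem_range.1 hj
        refine (cv_supp (fun W hW => (h1 j hj' W fun p hp => mem_PR (hT (hW hp))).2.2.1)
          (fun W hW => (h1 j hj' W fun p hp => mem_PR (hT (hW hp))).2.2.2) h4).trans ?_
        rw [← rpow_add (by linarith), ← rpow_two]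
        exact rpow_le_rpow_of_exponent_le hX.le (by linarith [hab j hj'])
  · refine Eventually.of_forall fun X n hn _ => le_of_eq ?_
    rw [← sum_lift_dvd X ε _ (by omega)]
    refine sum_congr rfl fun k hk => ?_
    rw [← lift_sum, sum_congr rfl fun j _ => lift_cv _ _ (mem_filter.1 hk).2]

/-- The same with the number of pieces and the bound separated. -/
theorem exSet' (hE : ExSetStmt) {ε γ v C : ℝ} (J : ℕ) (a b : ℕ → ℝ)
    (U V : ℝ → ℕ → Finset ℕ → ℝ) (hε : 0 < ε) (hγ : 0 < γ)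
    (hab : ∀ j < J, a j ≤ 1 - γ ∧ 4 * b j + a j ≤ 2 - γ)
    (h : ∀ᶠ X : ℝ in atTop, (∀ j < J, ∀ T : Finset ℕ, (∀ p ∈ T, p.Prime ∧ X ^ ε ≤ p) →
        |U X j T| ≤ C ∧ |V X j T| ≤ C ∧ (U X j T ≠ 0 → ∏ p ∈ T, (p : ℝ) ≤ X ^ a j) ∧
          (V X j T ≠ 0 → ∏ p ∈ T, (p : ℝ) ≤ X ^ b j)) ∧
      v ≤ ∑ T ∈ (PR X ε).powerset, (∑ j ∈ range J, cv (U X j) (V X j) T) * ∏ p ∈ T, gp p) :
    Row (fun X n => ∑ T ∈ (RP X ε n).powerset, ∑ j ∈ range J, cv (U X j) (V X j) T) v := by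
  have e : ∀ X T, ∑ j ∈ range (J + ⌈C⌉₊), cv (if j < J then U X j else 0)
      (if j < J then V X j else 0) T = ∑ j ∈ range J, cv (U X j) (V X j) T := by
    intro X T
    rw [sum_range_add, sum_eq_zero (s := range ⌈C⌉₊) fun j _ => by simp [cv], add_zero]
    exact sum_congr rfl fun j hj => by rw [if_pos (mem_range.1 hj), if_pos (mem_range.1 hj)]
  have hC : C ≤ (J + ⌈C⌉₊ : ℕ) := by
    push_cast
    linarith [Nat.le_ceil C, Nat.cast_nonneg (α := ℝ) J]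
  have := hE ε γ v (J + ⌈C⌉₊) (fun j => if j < J then a j else -γ - γ)
    (fun j => if j < J then b j else 0) (fun X j => if j < J then U X j else 0)
    (fun X j => if j < J then V X j else 0) hε hγ (fun j _ => by
      split_ifs with h1
      · exact hab j h1
      · constructor <;> linarith) (by
      filter_upwards [h] with X ⟨h1, h2⟩
      refine ⟨fun j _ T hT => ?_, by simpa only [e] using h2⟩
      split_ifs with h3
      · obtain ⟨a1, a2, a3⟩ := h1 j h3 T hT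
        exact ⟨a1.trans hC, a2.trans hC, a3⟩
      · simp [add_nonneg])
  simpa only [e] using this

namespace Sv

open LS

/-- The product of the small primes of a set. -/
def sm (X : ℝ) (Q Z : ℕ) (R : Finset ℕ) : ℕ := ∏ p ∈ R with hq X Q p ≤ Z, p

lemma sm_in {X ε : ℝ} (Q Z : ℕ) {R : Finset ℕ} (hR : ∀ p ∈ R, p.Prime ∧ X ^ ε ≤ p) :
    In X ε Q Z (sm X Q Z R) ∧ (sm X Q Z R).primeFactors = R.filter fun p => hq X Q p ≤ Z := by
  obtain ⟨h1, h2⟩ := LSX.in_prod (fun p hp => (hR p hp).1)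
    (filter_subset (fun p => hq X Q p ≤ Z) R)
  refine ⟨⟨h1.1, fun p hp => ?_⟩, h2⟩
  have := mem_filter.1 (h2 ▸ hp)
  exact ⟨(hR p this.1).2, this.2⟩

lemma sum_sm {X ε : ℝ} {Q Z : ℕ} {R : Finset ℕ} (hR : ∀ p ∈ R, p.Prime) {l : ℕ → ℝ}
    (hl : ∀ d, l d ≠ 0 → In X ε Q Z d) (g : ℕ → ℝ) :
    ∑ Y ∈ R.powerset, l (∏ p ∈ Y, p) * ∏ p ∈ Y, g p =
      ∑ d ∈ (sm X Q Z R).divisors, l d * ∏ p ∈ d.primeFactors, g p := by
  unfold sm
  rw [sum_dvs fun p hp => hR p (mem_filter.1 hp).1]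
  refine (sum_subset (powerset_mono.2 (filter_subset (fun p => hq X Q p ≤ Z) R))
    fun Y hY h => ?_).symm.trans (sum_congr rfl fun Y hY => ?_)
  · by_contra h1
    have hY' := mem_powerset.1 hY
    have h2 := (hl _ (left_ne_zero_of_mul h1)).2
    rw [(LSX.in_prod hR hY').2] at h2
    exact h (mem_powerset.2 fun p hp => mem_filter.2 ⟨hY' hp, (h2 p hp).2⟩)
  · rw [(LSX.in_prod hR ((mem_powerset.1 hY).trans (filter_subset _ _))).2]

lemma sum_cv (W L : Finset ℕ → ℝ) (R : Finset ℕ) (g : ℕ → ℝ) :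
    ∑ T ∈ R.powerset, cv W L T * ∏ p ∈ T, g p = ∑ U ∈ R.powerset, W U * (∏ p ∈ U, g p) *
      ∑ Y ∈ (R \ U).powerset, L Y * ∏ p ∈ Y, g p := by
  simp only [mul_sum]
  rw [← sum_pp R fun U Y => W U * (∏ p ∈ U, g p) * (L Y * ∏ p ∈ Y, g p)]
  refine sum_congr rfl fun T _ => ?_
  unfold cv
  rw [sum_mul]
  refine sum_congr rfl fun U hU => ?_
  rw [← prod_sdiff (mem_powerset.1 hU)]
  ring

/-- A row with well-factorable weights. -/
theorem core (hW : RowStmt) (hE : ExSetStmt) {ε γ v σ a b : ℝ} {Q Z D L₁ L₂ B J : ℕ}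
    {U V : ℝ → Finset ℕ → ℝ} {l : ℝ → ℕ → ℝ} (hε : 0 < ε) (hγ : 0 < γ) (hσ : |σ| = 1)
    (hD : D ≤ L₁ + L₂) (h1 : a + L₁ / Q ≤ 1 - γ) (h2 : 4 * (b + L₂ / Q) + (a + L₁ / Q) ≤ 2 - γ)
    (hl : ∀ X : ℝ, 1 < X → WF X ε Q Z D J (l X))
    (hU : ∀ᶠ X : ℝ in atTop, ∀ T : Finset ℕ, (∀ p ∈ T, p.Prime ∧ X ^ ε ≤ p) →
        0 ≤ U X T ∧ U X T ≤ B ∧ 0 ≤ V X T ∧ V X T ≤ B ∧
          (U X T ≠ 0 → ∏ p ∈ T, (p : ℝ) ≤ X ^ a) ∧ (V X T ≠ 0 → ∏ p ∈ T, (p : ℝ) ≤ X ^ b))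
    (hv : ∀ᶠ X : ℝ in atTop, v ≤ σ * ∑ T ∈ (PR X ε).powerset, cv (U X) (V X) T *
      (∏ p ∈ T, gp p) * ∑ d ∈ (sm X Q Z (PR X ε \ T)).divisors,
        l X d * ∏ p ∈ d.primeFactors, gp p) :
    Row (fun X n => σ * ∑ T ∈ (RP X ε n).powerset, cv (U X) (V X) T *
      ∑ d ∈ (sm X Q Z (RP X ε n \ T)).divisors, l X d) v := by
  choose! al be hb hs using fun X (hX : 1 < X) => (hl X hX).2 L₁ L₂ hD
  have key : ∀ X : ℝ, 1 < X → ∀ R : Finset ℕ, (∀ p ∈ R, p.Prime) → ∀ g : ℕ → ℝ,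
      ∑ T ∈ R.powerset, (∑ j ∈ range J,
        cv (fun T => σ * cv (U X) (fun Y => al X j (∏ p ∈ Y, p)) T)
          (cv (V X) fun Y => be X j (∏ p ∈ Y, p)) T) * ∏ p ∈ T, g p =
      σ * ∑ T ∈ R.powerset, cv (U X) (V X) T * (∏ p ∈ T, g p) *
        ∑ d ∈ (sm X Q Z (R \ T)).divisors, l X d * ∏ p ∈ d.primeFactors, g p := by
    intro X hX R hR g
    have e : ∀ T ∈ R.powerset, ∑ j ∈ range J,
        cv (fun T => σ * cv (U X) (fun Y => al X j (∏ p ∈ Y, p)) T)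
          (cv (V X) fun Y => be X j (∏ p ∈ Y, p)) T =
        σ * cv (cv (U X) (V X)) (fun Y => l X (∏ p ∈ Y, p)) T := by
      intro T hT
      have e1 : ∀ j, cv (fun T => σ * cv (U X) (fun Y => al X j (∏ p ∈ Y, p)) T)
          (cv (V X) fun Y => be X j (∏ p ∈ Y, p)) T = σ * cv (cv (U X) (V X))
            (cv (fun Y => al X j (∏ p ∈ Y, p)) fun Y => be X j (∏ p ∈ Y, p)) T := by
        intro j
        rw [← cv_four]
        conv_lhs => unfold cv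
        conv_rhs => unfold cv
        rw [mul_sum]
        exact sum_congr rfl fun W _ => mul_assoc _ _ _
      rw [sum_congr rfl fun j _ => e1 j, ← mul_sum]
      congr 1
      generalize cv (U X) (V X) = W
      conv_lhs => arg 2; ext j; rw [cv]
      rw [sum_comm, cv]
      refine sum_congr rfl fun Y _ => ?_
      have hp : ∀ p ∈ T \ Y, p.Prime := fun p hp => hR p (mem_powerset.1 hT (sdiff_subset hp))
      rw [← mul_sum, hs X hX _ (LSX.in_prod hp Subset.rfl).1.1]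
      congr 1
      exact sum_congr rfl fun j _ => (anti_set hp _ _).symm
    rw [sum_congr rfl fun T hT => by rw [e T hT, mul_assoc], ← mul_sum, sum_cv]
    congr 1
    refine sum_congr rfl fun T _ => ?_
    rw [sum_sm (fun p hp => hR p (sdiff_subset hp)) fun d hd => (((hl X hX).1 d).2 hd).1]
  have bd : ∀ (X : ℝ) (A : Finset ℕ → ℝ) (w : ℕ → ℝ) (x y : ℝ), 1 < X →
      x + y ≤ max (a + L₁ / Q) (b + L₂ / Q) →
      (∀ T : Finset ℕ, (∀ p ∈ T, p.Prime ∧ X ^ ε ≤ p) →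
        0 ≤ A T ∧ A T ≤ B ∧ (A T ≠ 0 → ∏ p ∈ T, (p : ℝ) ≤ X ^ x)) →
      (∀ d, |w d| ≤ 1 ∧ (w d ≠ 0 → (d : ℝ) ≤ X ^ y)) →
      ∀ T : Finset ℕ, (∀ p ∈ T, p.Prime ∧ X ^ ε ≤ p) →
        |cv A (fun Y => w (∏ p ∈ Y, p)) T| ≤ 2 ^ ⌊max (a + L₁ / Q) (b + L₂ / Q) / ε⌋₊ * B ∧
        (cv A (fun Y => w (∏ p ∈ Y, p)) T ≠ 0 → ∏ p ∈ T, (p : ℝ) ≤ X ^ (x + y)) := by
    intro X A w x y hX hxy hA hw T hT
    have s1 : cv A (fun Y => w (∏ p ∈ Y, p)) T ≠ 0 → ∏ p ∈ T, (p : ℝ) ≤ X ^ (x + y) := fun h => by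
      rw [rpow_add (by linarith)]
      refine cv_supp (fun W hW => (hA W fun p hp => hT p (hW hp)).2.2) (fun W _ h3 => ?_) h
      have := (hw _).2 h3
      rwa [Nat.cast_prod] at this
    refine ⟨?_, s1⟩
    by_cases h0 : cv A (fun Y => w (∏ p ∈ Y, p)) T = 0
    · rw [h0, abs_zero]
      positivity
    have c1 := card_le hX hε (fun p hp => (hT p hp).2)
      ((s1 h0).trans (rpow_le_rpow_of_exponent_le hX.le hxy))
    refine (cv_abs (x := B) (y := 1) (fun W hW => ?_) fun W _ => (hw _).1).trans ?_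
    · have := hA W fun p hp => hT p (hW hp)
      rw [abs_of_nonneg this.1]
      exact this.2.1
    · rw [mul_one]
      exact mul_le_mul_of_nonneg_right (pow_le_pow_right₀ one_le_two c1) (Nat.cast_nonneg B)
  refine hW.2.2.2.2.1 _ _ v v (exSet' hE (C := 2 ^ ⌊max (a + L₁ / Q) (b + L₂ / Q) / ε⌋₊ * B) J
    (fun _ => a + L₁ / Q) (fun _ => b + L₂ / Q)
    (fun X j T => σ * cv (U X) (fun Y => al X j (∏ p ∈ Y, p)) T)
    (fun X j => cv (V X) fun Y => be X j (∏ p ∈ Y, p)) hε hγ (fun _ _ => ⟨h1, h2⟩) ?_) le_rfl ?_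
  · filter_upwards [hU, hv, eventually_gt_atTop 1] with X a1 a2 hX
    refine ⟨fun j _ T hT => ?_, a2.trans (key X hX _ (fun p hp => (mem_PR hp).1) gp).ge⟩
    have b1 := bd X (U X) (al X j) a (L₁ / Q) hX (le_max_left _ _) (fun T hT =>
      ⟨(a1 T hT).1, (a1 T hT).2.1, (a1 T hT).2.2.2.2.1⟩)
      (fun d => ⟨(hb X hX j d).1, fun h => ((hb X hX j d).2.2.1 h).2⟩) T hT
    have b2 := bd X (V X) (be X j) b (L₂ / Q) hX (le_max_right _ _) (fun T hT =>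
      ⟨(a1 T hT).2.2.1, (a1 T hT).2.2.2.1, (a1 T hT).2.2.2.2.2⟩)
      (fun d => ⟨(hb X hX j d).2.1, fun h => ((hb X hX j d).2.2.2 h).2⟩) T hT
    refine ⟨?_, b2.1, fun h => b1.2 (right_ne_zero_of_mul h), b2.2⟩
    rw [abs_mul, hσ, one_mul]
    exact b1.1
  · filter_upwards [eventually_gt_atTop 1] with X hX n _ _
    have := key X hX (RP X ε n) (fun p hp => (mem_RP hp).1) fun _ => 1
    simp only [prod_const_one, mul_one] at this
    exact this.le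

lemma phi_eq (X ε : ℝ) (Q Z : ℕ) (W : Finset ℕ → ℝ) (n : ℕ) :
    phi X ε Q Z W n = ∑ T ∈ (RP X ε n).powerset,
      W T * if sm X Q Z (RP X ε n \ T) = 1 then 1 else 0 := by
  unfold phi
  rw [sum_filter]
  refine sum_congr rfl fun T _ => ?_
  rw [mul_ite, mul_one, mul_zero]
  have h := (sm_in (ε := ε) Q Z (R := RP X ε n \ T) fun p hp => mem_RP (sdiff_subset hp)).2
  have e : (∀ p ∈ RP X ε n, hq X Q p ≤ Z → p ∈ T) ↔ sm X Q Z (RP X ε n \ T) = 1 := by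
    refine ⟨fun h1 => ?_, fun h1 p hp h2 => ?_⟩
    · unfold sm
      rw [filter_false_of_mem fun p hp h2 =>
        (Finset.mem_sdiff.1 hp).2 (h1 p (Finset.mem_sdiff.1 hp).1 h2), prod_empty]
    · by_contra h3
      have h4 : p ∈ (RP X ε n \ T).filter fun p => hq X Q p ≤ Z :=
        mem_filter.2 ⟨Finset.mem_sdiff.2 ⟨hp, h3⟩, h2⟩
      rw [← h, h1] at h4
      simp at h4
  simp only [e]

lemma MS_eq (X ε : ℝ) (Q Z : ℕ) (W : Finset ℕ → ℝ) :
    MS X ε Q Z W = ∑ T ∈ (PR X ε).powerset, W T * (∏ p ∈ T, gp p) *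
      ∏ p ∈ (sm X Q Z (PR X ε \ T)).primeFactors, (1 - gp p) := by
  refine sum_congr rfl fun T _ => ?_
  rw [(sm_in (ε := ε) Q Z (R := PR X ε \ T) fun p hp => mem_PR (sdiff_subset hp)).2]
  congr 2
  ext p
  simp only [mem_filter, Finset.mem_sdiff]
  tauto

lemma gp_nonneg (p : ℕ) : 0 ≤ gp p := by
  unfold gp
  positivity

end Sv

/-- Sieved rows. -/
theorem sv (hR : RhoStmt) (hM : MertStmt) (hW : RowStmt) (hE : ExSetStmt) {N : ℕ} {F f : ℕ → ℝ}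
    (hL : LS.LSStmt N F f) : SvStmt N F f := by
  intro ε γ hε hγ
  obtain ⟨Q₀, τ, hτ, H⟩ := hL ε hε
  refine ⟨Q₀, fun Q hQ Z D L₁ L₂ i B a b v U V hZ1 hZ hD hL hi h1 h2 hU => ?_⟩
  obtain ⟨J, H⟩ := H Q hQ
  choose! lP lM w1 w2 w3 using fun X (hX : 1 < X) => H X D Z hX hD hZ1 hZ
  have hW0 : ∀ᶠ X : ℝ in atTop, ∀ T : Finset ℕ, (∀ p ∈ T, p.Prime ∧ X ^ ε ≤ p) →
      0 ≤ cv (U X) (V X) T := hU.mono fun X h T hT =>
    cv_nonneg (fun W hW => (h W fun p hp => hT p (hW hp)).1)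
      fun W hW => (h W fun p hp => hT p (hW hp)).2.2.1
  have hm := LS.mer_in hR hM hε hτ
  refine ⟨fun i1 hv => ?_, fun hZD i1 hv => ?_⟩
  · refine hW.2.2.2.2.1 _ _ _ _ (core hW hE (σ := -1) (v := -v) hε hγ (by simp) hL h1 h2 w1 hU ?_)
      le_rfl ?_
    · filter_upwards [hv, hW0, hm, eventually_gt_atTop 1] with X a1 a2 a3 hX
      rw [neg_one_mul, neg_le_neg_iff]
      refine le_trans ?_ a1
      rw [MS_eq, mul_sum]
      refine sum_le_sum fun T hT => ?_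
      have b1 := (sm_in (ε := ε) Q Z (R := PR X ε \ T) fun p hp => mem_PR (sdiff_subset hp)).1
      rw [mul_left_comm]
      exact mul_le_mul_of_nonneg_left (((w3 X hX _ b1).2 gp i (a3 Q Z _ b1) hi).1 i1)
        (mul_nonneg (a2 T fun p hp => mem_PR (mem_powerset.1 hT hp))
          (prod_nonneg fun p _ => gp_nonneg p))
    · filter_upwards [hW0, eventually_gt_atTop 1] with X a2 hX n _ _
      rw [neg_one_mul, neg_le_neg_iff, phi_eq]
      refine sum_le_sum fun T hT => ?_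
      have b1 := (sm_in (ε := ε) Q Z (R := RP X ε n \ T) fun p hp => mem_RP (sdiff_subset hp)).1
      exact mul_le_mul_of_nonneg_left (w3 X hX _ b1).1.2
        (a2 T fun p hp => mem_RP (mem_powerset.1 hT hp))
  · refine hW.2.2.2.2.1 _ _ _ _ (core hW hE (σ := 1) (v := v) hε hγ (by simp) hL h1 h2
      (fun X hX => w2 X hX hZD) hU ?_) le_rfl ?_
    · filter_upwards [hv, hW0, hm, eventually_gt_atTop 1] with X a1 a2 a3 hX
      rw [one_mul]
      refine le_trans a1 ?_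
      rw [MS_eq, mul_sum]
      refine sum_le_sum fun T hT => ?_
      have b1 := (sm_in (ε := ε) Q Z (R := PR X ε \ T) fun p hp => mem_PR (sdiff_subset hp)).1
      rw [mul_left_comm]
      exact mul_le_mul_of_nonneg_left (((w3 X hX _ b1).2 gp i (a3 Q Z _ b1) hi).2 i1)
        (mul_nonneg (a2 T fun p hp => mem_PR (mem_powerset.1 hT hp))
          (prod_nonneg fun p _ => gp_nonneg p))
    · filter_upwards [hW0, eventually_gt_atTop 1] with X a2 hX n _ _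
      rw [one_mul, phi_eq]
      refine sum_le_sum fun T hT => ?_
      have b1 := (sm_in (ε := ε) Q Z (R := RP X ε n \ T) fun p hp => mem_RP (sdiff_subset hp)).1
      exact mul_le_mul_of_nonneg_left (w3 X hX _ b1).1.1
        (a2 T fun p hp => mem_RP (mem_powerset.1 hT hp))

end Pool.Agent.Lib.MP_4b1228_nt.PP
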