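import Pool.Agent.Lib.MP_4b1228_nt.PP.St3b
import Pool.Agent.Lib.MP_4b1228_nt.PP.Sv

/-!
Sieved rows with a visible small part.
-/

open Finset Real Filter Topology
open scoped Classical

noncomputable section

namespace Pool.Agent.Lib.MP_4b1228_nt.PP.R3

namespace RS

open Tu Sv

lemma sum_split (S : Finset ℕ) (x : ℕ → ℝ) (Z : ℝ) (A B : Finset ℕ → ℝ) :
    ∑ T ∈ S.powerset, A (T.filter (x · < Z)) * B (T.filter (Z ≤ x ·)) =
      (∑ T ∈ (S.filter (x · < Z)).powerset, A T) * ∑ T ∈ (S.filter (Z ≤ x ·)).powerset, B T := by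
  rw [sum_mul_sum, ← sum_product']
  refine sum_nbij' (fun T => (T.filter (x · < Z), T.filter (Z ≤ x ·))) (fun y => y.1 ∪ y.2)
    ?_ ?_ ?_ ?_ fun _ _ => rfl
  · intro T hT
    exact mem_product.2 ⟨mem_powerset.2 (filter_subset_filter _ (mem_powerset.1 hT)),
      mem_powerset.2 (filter_subset_filter _ (mem_powerset.1 hT))⟩
  · intro y hy
    obtain ⟨h1, h2⟩ := mem_product.1 hy
    exact mem_powerset.2 (union_subset ((mem_powerset.1 h1).trans (filter_subset _ _))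
      ((mem_powerset.1 h2).trans (filter_subset _ _)))
  · intro T _
    ext p
    simp only [mem_union, mem_filter]
    rcases lt_or_ge (x p) Z with h | h <;> tauto
  · intro y hy
    obtain ⟨h1, h2⟩ := mem_product.1 hy
    have a1 : ∀ p ∈ y.1, x p < Z := fun p hp => (mem_filter.1 (mem_powerset.1 h1 hp)).2
    have a2 : ∀ p ∈ y.2, Z ≤ x p := fun p hp => (mem_filter.1 (mem_powerset.1 h2 hp)).2
    refine Prod.ext ?_ ?_ <;> dsimp only
    · rw [filter_union, filter_true_of_mem a1, filter_false_of_mem fun p hp => (a2 p hp).not_gt,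
        union_empty]
    · rw [filter_union, filter_true_of_mem a2, filter_false_of_mem fun p hp => (a1 p hp).not_ge,
        empty_union]

lemma bij_perm {L L' : List (ℕ → ℝ)} (h : L.Perm L') (S : Finset ℕ) : bij L S = bij L' S := by
  induction h generalizing S with
  | nil => rfl
  | cons φ _ ih => simp only [bij, ih]
  | swap φ ψ L =>
    simp only [bij, mul_sum]
    rw [sum_comm' (t' := S) (s' := fun p => S.erase p) fun p q => by
      simp only [mem_erase]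
      exact ⟨fun a => ⟨⟨a.2.1.symm, a.1⟩, a.2.2⟩, fun a => ⟨a.1.2, a.1.1.symm, a.2⟩⟩]
    refine sum_congr rfl fun p _ => sum_congr rfl fun q _ => ?_
    rw [erase_right_comm]
    ring
  | trans _ _ a b => rw [a, b]

lemma bij_nonneg {L : List (ℕ → ℝ)} (h : ∀ φ ∈ L, ∀ p, 0 ≤ φ p) (S : Finset ℕ) : 0 ≤ bij L S := by
  induction L generalizing S with
  | nil => simp only [bij]; split_ifs <;> simp
  | cons φ L ih =>
    exact sum_nonneg fun p _ => mul_nonneg (h φ (List.mem_cons_self ..) p)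
      (ih (fun ψ hψ => h ψ (List.mem_cons_of_mem _ hψ)) _)

lemma tupF_eq (L : List (ℕ → ℝ)) (S : Finset ℕ) : tupF L S = Tu.tup L S := by
  induction L generalizing S with
  | nil => rfl
  | cons φ L ih => simp only [tupF, Tu.tup, ih]

/-- A function of the size of the small part times a tuple weight of the large part. -/
def U2 (χ : ℝ → ℝ) (Z : ℝ) (x : ℕ → ℝ) (L : List (ℕ → ℝ)) (T : Finset ℕ) : ℝ :=
  χ (∑ p ∈ T with x p < Z, x p) * bij L (T.filter (Z ≤ x ·))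

variable {χ : ℝ → ℝ} {Z Z₂ : ℝ} {x : ℕ → ℝ}

lemma cv_U2 (L₁ : List (ℕ → ℝ)) {L₂ : List (ℕ → ℝ)} (h : ∀ φ ∈ L₂, ∀ p, φ p ≠ 0 → Z ≤ x p) :
    cv (U2 χ Z x L₁) (bij L₂) = U2 χ Z x (L₁ ++ L₂) := by
  funext T
  have e := sum_split T x Z (fun W => if W = T.filter (x · < Z) then χ (∑ p ∈ W, x p) else 0)
    fun W => bij L₁ W * bij L₂ (T.filter (Z ≤ x ·) \ W)
  rw [sum_ite_eq', if_pos (mem_powerset_self _), ← bij_append] at e
  refine Eq.trans (sum_congr rfl fun W hW => ?_) e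
  have hW' := mem_powerset.1 hW
  unfold U2
  split_ifs with h1
  · rw [mul_assoc]
    congr 3
    ext p
    have := Finset.ext_iff.1 h1 p
    simp only [mem_filter, Finset.mem_sdiff] at this ⊢
    rcases lt_or_ge (x p) Z with h | h
    · have := h.not_ge
      tauto
    · tauto
  · rw [zero_mul]
    by_contra h2
    have h3 := (bij_card (right_ne_zero_of_mul h2)).2
    refine h1 (Subset.antisymm (filter_subset_filter _ hW') fun p hp => ?_)
    obtain ⟨a1, a2⟩ := mem_filter.1 hp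
    refine mem_filter.2 ⟨?_, a2⟩
    by_contra a3
    obtain ⟨φ, b1, b2⟩ := h3 p (Finset.mem_sdiff.2 ⟨a1, a3⟩)
    exact (h φ b1 p b2).not_gt a2

lemma sum_U2 (hZ : Z ≤ Z₂) (L : List (ℕ → ℝ)) (S : Finset ℕ) (c : ℕ → Prop)
    (hc : ∀ p, c p ↔ x p < Z₂) :
    ∑ T ∈ S.powerset with ∀ p ∈ S, c p → p ∈ T, U2 χ Z x L T = χ (rr Z x S) *
      ∑ K ∈ (S.filter (Z ≤ x ·)).powerset with ∀ p ∈ S, Z ≤ x p → x p < Z₂ → p ∈ K, bij L K := by
  have e := sum_split S x Z (fun W => if W = S.filter (x · < Z) then χ (∑ p ∈ W, x p) else 0)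
    fun K => if ∀ p ∈ S, Z ≤ x p → x p < Z₂ → p ∈ K then bij L K else 0
  rw [sum_ite_eq', if_pos (mem_powerset_self _)] at e
  rw [sum_filter, sum_filter]
  refine Eq.trans (sum_congr rfl fun T hT => ?_) (e.trans (by unfold rr; convert rfl))
  have hT' := mem_powerset.1 hT
  have key : (∀ p ∈ S, c p → p ∈ T) ↔ T.filter (x · < Z) = S.filter (x · < Z) ∧
      ∀ p ∈ S, Z ≤ x p → x p < Z₂ → p ∈ T.filter (Z ≤ x ·) := by
    refine ⟨fun h1 => ⟨Subset.antisymm (filter_subset_filter _ hT') fun p hp => ?_,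
      fun p a1 a2 a3 => mem_filter.2 ⟨h1 p a1 ((hc p).2 a3), a2⟩⟩, fun ⟨h2, h3⟩ p a1 a2 => ?_⟩
    · obtain ⟨a1, a2⟩ := mem_filter.1 hp
      exact mem_filter.2 ⟨h1 p a1 ((hc p).2 (a2.trans_le hZ)), a2⟩
    · rcases lt_or_ge (x p) Z with a3 | a3
      · exact (mem_filter.1 (h2 ▸ mem_filter.2 ⟨a1, a3⟩ : p ∈ T.filter (x · < Z))).1
      · exact (mem_filter.1 (h3 p a1 a3 ((hc p).1 a2))).1
  unfold U2
  by_cases h1 : ∀ p ∈ S, c p → p ∈ T
  · rw [if_pos h1, if_pos (key.1 h1).1, if_pos (key.1 h1).2]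
  · rw [if_neg h1]
    rcases not_and_or.1 (mt key.2 h1) with h2 | h2
    · rw [if_neg h2, zero_mul]
    · rw [if_neg h2, mul_zero]

lemma mean_U2 (hZ : Z ≤ Z₂) (L : List (ℕ → ℝ)) (P : Finset ℕ) (g : ℕ → ℝ) (c : ℕ → Prop)
    (hc : ∀ p, c p ↔ x p < Z₂) :
    ∑ T ∈ P.powerset, U2 χ Z x L T * (∏ p ∈ T, g p) * ∏ p ∈ P with c p ∧ p ∉ T, (1 - g p) =
      (∑ S ∈ (P.filter (x · < Z)).powerset, (∏ p ∈ S, g p) *
        (∏ p ∈ P.filter (x · < Z) \ S, (1 - g p)) * χ (∑ p ∈ S, x p)) *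
      ∑ K ∈ (P.filter (Z ≤ x ·)).powerset, bij L K * (∏ p ∈ K, g p) *
        ∏ p ∈ P with Z ≤ x p ∧ x p < Z₂ ∧ p ∉ K, (1 - g p) := by
  rw [← sum_split]
  refine sum_congr rfl fun T _ => ?_
  have e1 : (P.filter fun p => c p ∧ p ∉ T).filter (x · < Z) =
      P.filter (x · < Z) \ T.filter (x · < Z) := by
    ext p
    have := fun h : x p < Z => (hc p).2 (h.trans_le hZ)
    simp only [mem_filter, Finset.mem_sdiff]
    tauto
  have e2 : (P.filter fun p => c p ∧ p ∉ T).filter (¬ x · < Z) =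
      P.filter fun p => Z ≤ x p ∧ x p < Z₂ ∧ p ∉ T.filter (Z ≤ x ·) := by
    ext p
    simp only [mem_filter, not_lt, hc]
    tauto
  have e3 : T.filter (¬ x · < Z) = T.filter (Z ≤ x ·) := by simp only [not_lt]
  rw [← prod_filter_mul_prod_filter_not T (x · < Z),
    ← prod_filter_mul_prod_filter_not (P.filter fun p => c p ∧ p ∉ T) (x · < Z), e1, e2, e3]
  unfold U2
  ring

lemma unit {u : ℚ} (hu : 0 < u) (K : ℕ) :
    ∃ Q w : ℕ, K ≤ Q ∧ 1 ≤ Q ∧ 1 ≤ w ∧ (w : ℝ) = u * Q := by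
  have h1 : 0 < u.num := Rat.num_pos.2 hu
  refine ⟨u.den * (K + 1), u.num.toNat * (K + 1), ?_, ?_, ?_, ?_⟩
  · nlinarith [u.den_pos]
  · exact Nat.mul_pos u.den_pos K.succ_pos
  · exact Nat.mul_pos (by omega) K.succ_pos
  · have h2 : ((u.num.toNat : ℕ) : ℝ) = u.num := by
      exact_mod_cast Int.toNat_of_nonneg h1.le
    have h3 : (u.den : ℝ) ≠ 0 := by exact_mod_cast u.den_ne_zero
    push_cast
    rw [h2, Rat.cast_def]
    field_simp

lemma hq_iff {X u : ℝ} {Q w : ℕ} (hX : 1 < X) (hu : 0 < u) (hQ : 1 ≤ Q) (hw : (w : ℝ) = u * Q)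
    (Z p : ℕ) : LS.hq X Q p ≤ w * Z ↔ sz X u p < Z := by
  have h1 := log_pos hX
  have h2 := log_natCast_nonneg p
  have h3 : (0 : ℝ) < Q := by exact_mod_cast hQ
  unfold LS.hq sz
  rw [Nat.succ_le_iff, Nat.floor_lt (by positivity), div_lt_iff₀ h1, div_lt_iff₀ (by positivity)]
  push_cast
  rw [hw, show u * Q * Z * log X = Q * (Z * (u * log X)) by ring]
  exact mul_lt_mul_iff_right₀ h3

lemma le_of_sz {X u t : ℝ} (hX : 1 < X) (hu : 0 < u) {p : ℕ} (h : sz X u p ≤ t) :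
    (p : ℝ) ≤ X ^ (u * t) := by
  rcases Nat.eq_zero_or_pos p with rfl | hp
  · push_cast
    positivity
  have h1 := log_pos hX
  rw [le_rpow_iff_log_le (by exact_mod_cast hp) (by linarith)]
  unfold sz at h
  rw [div_le_iff₀ (by positivity)] at h
  linarith

lemma prod_le_of_sz {X u t : ℝ} (hX : 1 < X) (hu : 0 < u) {T : Finset ℕ}
    (h : ∑ p ∈ T, sz X u p ≤ t) : ∏ p ∈ T, (p : ℝ) ≤ X ^ (u * t) := by
  refine le_trans (prod_le_prod (fun p _ => Nat.cast_nonneg p) fun p _ => le_of_sz hX hu le_rfl) ?_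
  rw [← rpow_sum_of_pos (by linarith), ← mul_sum]
  exact rpow_le_rpow_of_exponent_le hX.le (mul_le_mul_of_nonneg_left h hu.le)

lemma w_bd (L : List Cel) (h : ∀ c ∈ L, 0 ≤ c.a) : ∃ C, 0 ≤ C ∧ ∀ c ∈ L, ∀ t, |c.w t| ≤ C := by
  induction L with
  | nil => exact ⟨0, le_rfl, by simp⟩
  | cons c L ih =>
    obtain ⟨C, c0, hC⟩ := ih fun d hd => h d (List.mem_cons_of_mem _ hd)
    refine ⟨C + (|c.α| + |c.β| * |c.b|), by positivity, fun d hd t => ?_⟩
    rcases List.mem_cons.1 hd with rfl | hd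
    · unfold Cel.w
      split_ifs with h1
      · have h2 := (h d (List.mem_cons_self ..)).trans h1.1
        have h3 : |t| ≤ |d.b| := abs_le_abs h1.2.le (by linarith [h1.2])
        have h4 := abs_add_le d.α (d.β * t)
        rw [abs_mul] at h4
        nlinarith [mul_le_mul_of_nonneg_left h3 (abs_nonneg d.β)]
      · rw [abs_zero]
        positivity
    · exact (hC d hd t).trans (le_add_of_nonneg_right (by positivity))

lemma sum_M (u : ℝ) (L : List Cel) :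
    ((L.filter fun c => !c.side).map fun c => u * c.b).sum = u * mM L ∧
    ((L.filter fun c => c.side).map fun c => u * c.b).sum = u * mN L := by
  unfold mM mN
  induction L with
  | nil => simp
  | cons c L ih =>
    cases h : c.side <;> simp [h, mul_add] <;> simpa using ih

lemma mM_nonneg {L : List Cel} (h : ∀ c ∈ L, 0 ≤ c.b) : 0 ≤ mM L ∧ 0 ≤ mN L := by
  constructor <;> refine List.sum_nonneg fun y hy => ?_ <;>
    obtain ⟨c, hc, rfl⟩ := List.mem_map.1 hy <;> split_ifs <;> first | exact le_rfl | exact h c hc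

lemma b_le {L : List Cel} (h : ∀ c ∈ L, 0 ≤ c.b) {c : Cel} (hc : c ∈ L) :
    c.b ≤ mM L ∨ c.b ≤ mN L := by
  cases e : c.side
  · refine Or.inl (List.single_le_sum (fun y hy => ?_) _ (List.mem_map.2 ⟨c, hc, by simp [e]⟩))
    obtain ⟨d, hd, rfl⟩ := List.mem_map.1 hy
    split_ifs
    exacts [le_rfl, h d hd]
  · refine Or.inr (List.single_le_sum (fun y hy => ?_) _ (List.mem_map.2 ⟨c, hc, by simp [e]⟩))
    obtain ⟨d, hd, rfl⟩ := List.mem_map.1 hy
    split_ifs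
    exacts [h d hd, le_rfl]

lemma gp_le (p : ℕ) : gp p ≤ 1 := by
  refine div_le_one_of_le₀ ?_ (Nat.cast_nonneg p)
  exact_mod_cast (card_filter_le _ _).trans_eq (card_range p)

lemma TM_nonneg (X ε u Z Z₂ : ℝ) {L : List Cel} (h : ∀ c ∈ L, ∀ t, 0 ≤ c.w t) :
    0 ≤ TM X ε u Z Z₂ L := by
  refine sum_nonneg fun K _ => mul_nonneg (mul_nonneg (bij_nonneg (fun φ hφ p => ?_) K)
    (prod_nonneg fun p _ => gp_nonneg p)) (prod_nonneg fun p _ => sub_nonneg.2 (gp_le p))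
  obtain ⟨c, hc, rfl⟩ := List.mem_map.1 hφ
  exact h c hc _

lemma tupE_self (L : List Cel) (h : ∀ c ∈ L, Z ≤ c.a) (S : Finset ℕ) :
    tupE L Z Z x S = R3.tup L x S := by
  unfold tupE R3.tup
  rw [sum_filter]
  refine (sum_congr rfl fun K _ => if_pos fun p _ a b => absurd a b.not_ge).trans ?_
  rw [sum_bij_one, tupF_eq, ← tup_filter, List.map_map]
  refine tup_congr L fun c hc p _ => ?_
  simp only [Function.comp]
  split_ifs with a
  · rfl
  · exact (if_neg fun b => a ((h c hc).trans b.1)).symm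

end RS

open RS Tu Sv

/-- The general sieved row. -/
theorem s2S (hW : RowStmt) (hT : TM2Stmt) {N : ℕ} {F f : ℕ → ℝ} (hS : SvStmt N F f) :
    S2Stmt N F f := by
  intro Q Z Z₂ i r₁ D₁ D₂ B v L χ hZ hZ₂ hQ hL hχ r0 d1 d2 h1 h2 hi
  obtain ⟨m, hm'⟩ : ∃ m : ℝ, m = (Z : ℝ) / Z₂ * (L.map Cel.I).prod := ⟨_, rfl⟩
  rw [← hm']
  have Z0 : (0 : ℝ) < Z := by exact_mod_cast hZ
  have ZZ : (Z : ℝ) ≤ Z₂ := by exact_mod_cast hZ₂
  have ZQ : (Z₂ : ℝ) ≤ Q := by exact_mod_cast hQ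
  have Q0 : (0 : ℝ) < Q := by linarith
  have B0 : 0 ≤ B := (hχ 0).1.trans (hχ 0).2.1
  obtain ⟨C, C0, hC⟩ := w_bd L fun c hc => Z0.le.trans (hL c hc).1
  obtain ⟨M0, N0⟩ := mM_nonneg fun c hc => Z0.le.trans ((hL c hc).1.trans (hL c hc).2.1)
  have T0 := fun X ε u : ℝ => TM_nonneg X ε u Z Z₂ fun c hc => (hL c hc).2.2
  have hm : ∀ u ε : ℝ, 0 < u → u * Q < 1 → 0 < ε → ε ≤ u * Z →
      Tendsto (fun X : ℝ => TM X ε u Z Z₂ L) atTop (𝓝 m) := fun u ε u0 u1 hε h => by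
    rw [hm']
    refine hT ε u Z Z₂ L hε u0 h ZZ (by nlinarith) fun c hc =>
      ⟨(hL c hc).1, (hL c hc).2.1, ?_, (hL c hc).2.2⟩
    have : c.b ≤ Q := by
      rcases b_le (fun c hc => Z0.le.trans ((hL c hc).1.trans (hL c hc).2.1)) hc with a | a <;>
        linarith
    nlinarith
  have hu₀ : 1 / (2 * (Q : ℝ)) * Q < 1 := by
    rw [one_div_mul_eq_div, div_lt_one (by positivity)]
    linarith
  have m0 : 0 ≤ m := ge_of_tendsto' (hm _ _ (by positivity) hu₀ (by positivity) le_rfl)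
    fun X => T0 X _ _
  have main : ∀ (u : ℚ) (ε v' : ℝ), (0 : ℝ) < u → (u : ℝ) * Q < 1 → 0 < ε →
      (1 ≤ i → (∀ᶠ X : ℝ in atTop, F i * (EM X ε u Z χ * TM X ε u Z Z₂ L) ≤ v') →
        Row (fun X n => -(χ (rr Z (sz X u) (RP X ε n)) * tupE L Z Z₂ (sz X u) (RP X ε n))) (-v')) ∧
      (2 * N ≤ i → 1 ≤ N → (∀ᶠ X : ℝ in atTop, v' ≤ f i * (EM X ε u Z χ * TM X ε u Z Z₂ L)) →
        Row (fun X n => χ (rr Z (sz X u) (RP X ε n)) * tupE L Z Z₂ (sz X u) (RP X ε n)) v') := by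
    intro u ε v' u0 u1 hε
    obtain ⟨γ, hγ⟩ : ∃ γ : ℝ, γ = (1 - u * Q) / 2 := ⟨_, rfl⟩
    have γ0 : 0 < γ := by linarith
    obtain ⟨Q₀, H⟩ := hS ε γ hε γ0
    obtain ⟨Q', w, k1, k2, k3, hw⟩ := unit (u := u) (by exact_mod_cast u0) (Q₀ + ⌈2 / γ⌉₊)
    have Q'0 : (0 : ℝ) < Q' := by exact_mod_cast k2
    have k4 : 1 / (Q' : ℝ) ≤ γ / 2 := by
      have a1 : (⌈2 / γ⌉₊ : ℝ) ≤ Q' := by exact_mod_cast (by omega : _ ≤ Q')
      have a2 := (div_le_iff₀ γ0).1 ((Nat.le_ceil _).trans a1)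
      rw [div_le_iff₀ Q'0]
      linarith
    have lv : ∀ D : ℝ, 0 ≤ D → (⌈D * w⌉₊ : ℝ) / Q' ≤ u * D + γ / 2 := fun D hD => by
      have a1 := (Nat.ceil_lt_add_one (show 0 ≤ D * w by positivity)).le
      have a2 : (⌈D * w⌉₊ : ℝ) / Q' ≤ (D * w + 1) / Q' := div_le_div_of_nonneg_right a1 Q'0.le
      rw [add_div, hw, show D * (u * Q') / Q' = u * D by field_simp] at a2
      rw [hw]
      linarith
    have l1 := lv D₁ d1
    have l2 := lv D₂ d2
    have s1 := mul_le_mul_of_nonneg_left h1 u0.le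
    have s2 := mul_le_mul_of_nonneg_left h2 u0.le
    have p1 := mul_nonneg u0.le M0
    have p2 := mul_nonneg u0.le N0
    have p3 := mul_nonneg u0.le r0
    have p4 := mul_nonneg u0.le d1
    have iD : i * (w * Z₂) ≤ N * (⌈D₁ * w⌉₊ + ⌈D₂ * w⌉₊) := by
      have a1 := add_le_add (Nat.le_ceil (D₁ * w)) (Nat.le_ceil (D₂ * w))
      have a2 := mul_le_mul_of_nonneg_left a1 (Nat.cast_nonneg (α := ℝ) N)
      have a3 := mul_le_mul_of_nonneg_right hi (Nat.cast_nonneg (α := ℝ) w)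
      have : (i : ℝ) * (w * Z₂) ≤ N * (⌈D₁ * w⌉₊ + ⌈D₂ * w⌉₊) := by linarith
      exact_mod_cast this
    obtain ⟨LM, hM⟩ : ∃ LM, LM = L.filter fun c => !c.side := ⟨_, rfl⟩
    obtain ⟨LN, hN⟩ : ∃ LN, LN = L.filter fun c => c.side := ⟨_, rfl⟩
    have mM' : ∀ c ∈ LM, c ∈ L := fun c hc => List.mem_of_mem_filter (hM ▸ hc)
    have mN' : ∀ c ∈ LN, c ∈ L := fun c hc => List.mem_of_mem_filter (hN ▸ hc)
    have pm : (LM ++ LN).Perm L := by
      rw [hM, hN]
      exact List.perm_append_comm.trans (List.filter_append_perm _ L)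
    have bb : ∀ (X : ℝ) (L' : List Cel), 1 < X → (∀ c ∈ L', c ∈ L) → ∀ K : Finset ℕ,
        0 ≤ bij (L'.map fun c p => c.w (sz X u p)) K ∧
        bij (L'.map fun c p => c.w (sz X u p)) K ≤ (L'.length * C) ^ L'.length ∧
        (bij (L'.map fun c p => c.w (sz X u p)) K ≠ 0 →
          ∏ p ∈ K, (p : ℝ) ≤ X ^ (L'.map fun c => (u : ℝ) * c.b).sum) := by
      intro X L' hX h K
      refine ⟨bij_nonneg (fun φ hφ p => ?_) K, ?_, fun a => bij_prod L'
        (fun c p => c.w (sz X u p)) (fun c => (u : ℝ) * c.b) (by linarith) (fun c _ p a1 => ?_) a⟩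
      · obtain ⟨c, hc, rfl⟩ := List.mem_map.1 hφ
        exact (hL c (h c hc)).2.2 _
      · have := bij_le (L := L'.map fun c p => c.w (sz X u p)) C0 (fun φ hφ p => by
          obtain ⟨c, hc, rfl⟩ := List.mem_map.1 hφ
          exact hC c (h c hc) _) K
        rw [List.length_map] at this
        exact (le_abs_self _).trans this
      · refine le_of_sz hX u0 ?_
        by_contra a2
        exact a1 (if_neg fun a3 => a2 a3.2.le)
    obtain ⟨B', hB'⟩ := exists_nat_ge (B * (LM.length * C) ^ LM.length + (LN.length * C) ^ LN.length)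
    have e1 : ∀ X : ℝ, cv (U2 χ Z (sz X u) (LM.map fun c p => c.w (sz X u p)))
        (bij (LN.map fun c p => c.w (sz X u p))) =
        U2 χ Z (sz X u) (L.map fun c p => c.w (sz X u p)) := by
      intro X
      rw [cv_U2 _ fun φ hφ p a1 => ?_, ← List.map_append]
      · funext T
        unfold U2
        rw [bij_perm (pm.map _)]
      · obtain ⟨c, hc, rfl⟩ := List.mem_map.1 hφ
        refine (hL c (mN' c hc)).1.trans ?_
        by_contra a2
        exact a1 (if_neg fun a3 => a2 a3.1)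
    have H' := H Q' (by omega) (w * Z₂) _ ⌈D₁ * w⌉₊ ⌈D₂ * w⌉₊ i B' (u * (mM L + r₁)) (u * mN L) v'
      (fun X => U2 χ Z (sz X u) (LM.map fun c p => c.w (sz X u p)))
      (fun X => bij (LN.map fun c p => c.w (sz X u p))) (Nat.mul_pos k3 (by omega))
      (by
        have : (w : ℝ) * Z₂ ≤ Q' := by
          rw [hw]
          nlinarith [mul_le_mul_of_nonneg_left ZQ u0.le]
        exact_mod_cast this)
      (by
        have a1 : (⌈D₁ * w⌉₊ : ℝ) / Q' ≤ 1 := by linarith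
        have a2 : (⌈D₂ * w⌉₊ : ℝ) / Q' ≤ 1 := by linarith
        rw [div_le_one Q'0] at a1 a2
        have : (⌈D₁ * w⌉₊ : ℝ) + ⌈D₂ * w⌉₊ ≤ 2 * Q' := by linarith
        exact_mod_cast this)
      le_rfl iD (by linarith) (by linarith) (by
        filter_upwards [eventually_gt_atTop 1] with X hX T _
        obtain ⟨a1, a2, a3⟩ := bb X LM hX mM' (T.filter (Z ≤ sz X u ·))
        obtain ⟨b1, b2, b3⟩ := bb X LN hX mN' T
        obtain ⟨c1, c2, c3⟩ := hχ (∑ p ∈ T with sz X u p < Z, sz X u p)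
        have a4 : 0 ≤ B * (LM.length * C) ^ LM.length := by positivity
        have b4 : 0 ≤ (LN.length * C) ^ LN.length := by positivity
        refine ⟨mul_nonneg c1 a1, (mul_le_mul c2 a2 a1 B0).trans (by linarith), b1, by linarith,
          fun h => ?_, fun h => ?_⟩
        · have a5 := a3 (right_ne_zero_of_mul h)
          have c4 := prod_le_of_sz hX u0 (c3 (left_ne_zero_of_mul h))
          rw [hM, (sum_M u L).1] at a5
          rw [← prod_filter_mul_prod_filter_not T (Z ≤ sz X u ·), mul_add, rpow_add (by linarith)]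
          simp only [not_le]
          exact mul_le_mul a5 c4 (by positivity) (by positivity)
        · have := b3 h
          rwa [hN, (sum_M u L).2] at this)
    simp only [e1] at H'
    have e2 : ∀ X : ℝ, 1 < X → MS X ε Q' (w * Z₂)
        (U2 χ Z (sz X u) (L.map fun c p => c.w (sz X u p))) = EM X ε u Z χ * TM X ε u Z Z₂ L :=
      fun X hX => by
        have := mean_U2 (χ := χ) ZZ (L.map fun c p => c.w (sz X u p)) (PR X ε) gp _
          (hq_iff hX u0 k2 hw Z₂)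
        unfold MS EM TM PS
        convert this
    have e3 : ∀ X : ℝ, 1 < X → ∀ n, phi X ε Q' (w * Z₂)
        (U2 χ Z (sz X u) (L.map fun c p => c.w (sz X u p))) n =
          χ (rr Z (sz X u) (RP X ε n)) * tupE L Z Z₂ (sz X u) (RP X ε n) := fun X hX n => by
      have := sum_U2 (χ := χ) ZZ (L.map fun c p => c.w (sz X u p)) (RP X ε n) _
        (hq_iff hX u0 k2 hw Z₂)
      unfold phi tupE
      convert this
    refine ⟨fun i1 hv => hW.2.2.2.2.1 _ _ _ _ (H'.1 i1 ?_) le_rfl ?_,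
      fun i1 N1 hv => hW.2.2.2.2.1 _ _ _ _ (H'.2 ?_ i1 ?_) le_rfl ?_⟩
    · filter_upwards [hv, eventually_gt_atTop 1] with X a hX
      rwa [e2 X hX]
    · filter_upwards [eventually_gt_atTop 1] with X hX n _ _
      rw [e3 X hX]
    · refine Nat.le_of_mul_le_mul_left (le_trans ?_ iD) N1
      rw [← mul_assoc, mul_comm N]
      exact Nat.mul_le_mul_right _ i1
    · filter_upwards [hv, eventually_gt_atTop 1] with X a hX
      rwa [e2 X hX]
    · filter_upwards [eventually_gt_atTop 1] with X hX n _ _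
      rw [e3 X hX]
  have small : ∀ c τ : ℝ, 0 ≤ c → 0 ≤ v → 0 < τ →
      ∃ δ : ℝ, 0 < δ ∧ δ ≤ 1 ∧ c * (δ * (v + m + 1)) ≤ τ := fun c τ c0 v0 hτ => by
    refine ⟨min 1 (τ / ((c + 1) * (v + m + 1))), lt_min one_pos (by positivity),
      min_le_left _ _, ?_⟩
    have a1 := (le_div_iff₀ (by positivity)).1 (min_le_right 1 (τ / ((c + 1) * (v + m + 1))))
    have a2 : 0 ≤ min 1 (τ / ((c + 1) * (v + m + 1))) * (v + m + 1) := by positivity
    nlinarith
  have uZ : ∀ u : ℝ, 0 < u → u * Q < 1 → u * Z ≤ 1 := fun u u0 u1 => by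
    nlinarith [mul_le_mul_of_nonneg_left (ZZ.trans ZQ) u0.le]
  refine ⟨fun i1 F0 v0 hl => ⟨1 / (2 * Q), by positivity, hu₀, fun u u1 u2 τ hτ => ?_⟩,
    fun i1 N1 F0 v0 hl => ⟨1 / (2 * Q), by positivity, hu₀, fun u u1 u2 τ hτ => ?_⟩⟩
  · have u0 : (0 : ℝ) < u := lt_trans (by positivity) u1
    obtain ⟨δ, δ0, δ1, δ2⟩ := small (F i) τ F0 v0 hτ
    obtain ⟨ε₀, e0, he⟩ := hl u δ u0 (uZ u u0 u2) δ0
    refine ⟨min ε₀ (u * Z), lt_min e0 (by positivity), fun ε hε hε' => ?_⟩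
    have := (main u ε (F i * v * m + τ) u0 u2 hε).1 i1 (by
      filter_upwards [he ε hε (hε'.trans (min_le_left _ _)), (hm u ε u0 u2 hε
        (hε'.trans (min_le_right _ _))).eventually_le_const (lt_add_of_pos_right m δ0)] with X a1 a2
      have a3 : EM X ε u Z (fun t => -χ t) = -EM X ε u Z χ := by
        simp only [EM, mul_neg, sum_neg_distrib]
      have a4 := mul_le_mul (show EM X ε u Z χ ≤ v + δ by linarith) a2 (T0 X ε u) (by positivity)
      have a5 : (v + δ) * (m + δ) ≤ v * m + δ * (v + m + 1) := by nlinarith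
      nlinarith [mul_le_mul_of_nonneg_left (a4.trans a5) F0])
    rwa [neg_add'] at this
  · have u0 : (0 : ℝ) < u := lt_trans (by positivity) u1
    obtain ⟨δ, δ0, δ1, δ2⟩ := small (f i) τ F0 v0 hτ
    obtain ⟨ε₀, e0, he⟩ := hl u δ u0 (uZ u u0 u2) δ0
    refine ⟨min ε₀ (u * Z), lt_min e0 (by positivity), fun ε hε hε' => ?_⟩
    refine (main u ε (f i * v * m - τ) u0 u2 hε).2 i1 N1 ?_
    have t := hm u ε u0 u2 hε (hε'.trans (min_le_right _ _))
    filter_upwards [he ε hε (hε'.trans (min_le_left _ _)),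
      t.eventually_le_const (lt_add_of_pos_right m δ0),
      t.eventually_const_le (sub_lt_self m δ0)] with X a1 a2 a3
    have a4 := mul_le_mul_of_nonneg_right a1 (T0 X ε u)
    have a5 : v * m - δ * (v + m + 1) ≤ EM X ε u Z χ * TM X ε u Z Z₂ L := by
      nlinarith [mul_le_mul_of_nonneg_left a3 v0, mul_le_mul_of_nonneg_left a2 δ0.le]
    nlinarith [mul_le_mul_of_nonneg_left a5 F0]

/-- Sieved rows with one limit. -/
theorem sS {N : ℕ} {F f : ℕ → ℝ} (h : S2Stmt N F f) : SStmt N F f := by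
  intro Q Z i r₁ D₁ D₂ B v L χ hZ hQ hL hχ r0 d1 d2 h1 h2 hi
  have := h Q Z Z i r₁ D₁ D₂ B v L χ hZ le_rfl hQ hL hχ r0 d1 d2 h1 h2 hi
  simp only [tupE_self L fun c hc => (hL c hc).1] at this
  rwa [div_self (by positivity), one_mul] at this

end Pool.Agent.Lib.MP_4b1228_nt.PP.R3
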