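import Pool.Agent.Lib.MP_4b1228_nt.PP.Mert

/-! Two-sided estimates for sums over primes between powers of `X`. -/

open Finset Real Filter Topology
open scoped Classical

namespace Pool.Agent.Lib.MP_4b1228_nt.PP

/-- The primes in `[X ^ a, X ^ b)`. -/
noncomputable def pw (X a b : ℝ) : Finset ℕ :=
  (range ⌈X ^ b⌉₊).filter fun p => p.Prime ∧ X ^ a ≤ p

theorem mem_pw {X a b : ℝ} {p : ℕ} : p ∈ pw X a b ↔ p.Prime ∧ X ^ a ≤ p ∧ (p : ℝ) < X ^ b := by
  rw [pw, mem_filter, mem_range, Nat.lt_ceil]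
  tauto

def Mert2Stmt : Prop :=
  ∀ ε τ : ℝ, 0 < ε → 0 < τ → ∀ᶠ X : ℝ in atTop, ∀ g : ℕ → ℝ,
    (∀ p : ℕ, p.Prime → X ^ ε ≤ p → |g p - rho p / p| ≤ 4 * rho p / p ^ 2) →
    ∀ a b : ℝ, ε ≤ a → a ≤ b → b ≤ 2 →
      |∑ p ∈ pw X a b, g p - log (b / a)| ≤ τ ∧
      |∑ p ∈ pw X a b, g p * log p - (b - a) * log X| ≤ τ * log X

namespace Mert

theorem two {δ : ℝ} (hδ : 0 < δ) (δ1 : δ ≤ 1) {M₀ : ℕ} (hM : ∀ n, M₀ ≤ n →
      (1 - δ) * n ≤ ∑ m ∈ Ioc 0 n, wp m ∧ ∑ m ∈ Ioc 0 n, wp m ≤ (1 + δ) * n)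
    {f : ℕ → ℝ} {G : ℝ → ℝ} (f0 : ∀ n, 2 ≤ n → 0 ≤ f n ∧ f (n + 1) ≤ f n ∧
      f (n + 1) ≤ G (n + 1 : ℕ) - G n ∧ G (n + 1 : ℕ) - G n ≤ f n)
    (hG : ∀ x y, 2 ≤ x → x ≤ y → G x ≤ G y) {y y' : ℝ} {M N : ℕ} (h2 : 2 ≤ M) (h0 : M₀ ≤ M)
    (hN : M ≤ N) (a1 : (M : ℝ) ≤ y) (a2 : y ≤ M + 1) (b1 : (N : ℝ) ≤ y') (b2 : y' ≤ N + 1)
    (hy : y ≤ y') :
    |∑ m ∈ Ioc M N, wp m * f m - (G y' - G y)| ≤ δ * (G y' - G y) + (2 * δ * M + 3) * f M := by
  have M2 : (2 : ℝ) ≤ M := by exact_mod_cast h2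
  have N2 : (2 : ℝ) ≤ N := by exact_mod_cast h2.trans hN
  have u := abel (a := wp) (f := f) (c := 1 + δ) (M := M) (fun n hn => (hM n (h0.trans hn)).2)
    (fun n hn => (f0 n (by omega)).2.1) (fun n hn => (f0 n (by omega)).1) hN
  have l := abel (a := fun m => -wp m) (f := f) (c := -(1 - δ)) (M := M)
    (fun n hn => by rw [sum_neg_distrib]; linarith [(hM n (h0.trans hn)).1])
    (fun n hn => (f0 n (by omega)).2.1) (fun n hn => (f0 n (by omega)).1) hN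
  simp only [neg_mul, sum_neg_distrib] at l
  have s : ∑ m ∈ Ioc M N, f m ≤ G N - G M ∧ G (N + 1 : ℕ) - G (M + 1 : ℕ) ≤ ∑ m ∈ Ioc M N, f m ∧
      f N ≤ f M := by
    clear u l b1 b2 N2
    induction N, hN using Nat.le_induction with
    | base => simp
    | succ N hN ih =>
      rw [sum_Ioc_succ_top hN]
      have := f0 N (by omega)
      have := f0 (N + 1) (by omega)
      refine ⟨by linarith, by linarith, by linarith⟩
  obtain ⟨c1, c2, c3, c4⟩ := f0 M h2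
  obtain ⟨d1, d2, d3, d4⟩ := f0 N (h2.trans hN)
  have c5 := (f0 (M + 1) (by omega)).1
  have g1 := hG M y M2 a1
  have g2 := hG y (M + 1 : ℕ) (M2.trans a1) (by exact_mod_cast a2)
  have g3 := hG N y' N2 b1
  have g4 := hG y' (N + 1 : ℕ) (N2.trans b1) (by exact_mod_cast b2)
  have g5 := hG y y' (M2.trans a1) hy
  obtain ⟨w1, w2⟩ := hM M h0
  have e1 : ((1 + δ) * M - ∑ m ∈ Ioc 0 M, wp m) * f (M + 1) ≤ 2 * δ * M * f M :=
    (mul_le_mul_of_nonneg_right (by linarith) c5).trans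
      (mul_le_mul_of_nonneg_left c2 (by positivity))
  have e2 : (-((1 - δ) * M) - -∑ m ∈ Ioc 0 M, wp m) * f (M + 1) ≤ 2 * δ * M * f M :=
    (mul_le_mul_of_nonneg_right (by linarith) c5).trans
      (mul_le_mul_of_nonneg_left c2 (by positivity))
  have s1 : ∑ m ∈ Ioc M N, f m ≤ G y' - G y + f M := by linarith [s.1]
  have s2 : G y' - G y - f M ≤ ∑ m ∈ Ioc M N, f m := by linarith [s.2.1]
  have t1 := mul_le_mul_of_nonneg_left s1 (show 0 ≤ 1 + δ by linarith)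
  have t2 := mul_le_mul_of_nonneg_left s2 (show 0 ≤ 1 - δ by linarith)
  have t3 := mul_le_mul_of_nonneg_right δ1 c1
  have t4 := mul_nonneg hδ.le c1
  rw [abs_le]
  constructor <;> nlinarith

theorem step' {n : ℕ} (h : 1 ≤ n) : log (n + 1 : ℕ) - log n ≤ 1 / (n : ℝ) := by
  have h1 : (0 : ℝ) < n := by exact_mod_cast h
  have h2 := log_le_sub_one_of_pos (show (0 : ℝ) < (n + 1 : ℕ) / n by positivity)
  rw [log_div (by positivity) h1.ne'] at h2
  refine h2.trans (le_of_eq ?_)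
  push_cast
  field_simp
  ring

theorem sum_pw {X a b : ℝ} (h1 : 1 ≤ X ^ a) (F : ℕ → ℝ) :
    ∑ p ∈ pw X a b, rho p * log p * F p =
      ∑ m ∈ Ioc (⌈X ^ a⌉₊ - 1) (⌈X ^ b⌉₊ - 1), wp m * F m := by
  have c1 : 1 ≤ ⌈X ^ a⌉₊ := Nat.one_le_ceil_iff.2 (by linarith)
  have e : pw X a b = (Ioc (⌈X ^ a⌉₊ - 1) (⌈X ^ b⌉₊ - 1)).filter Nat.Prime := by
    ext p
    rw [pw, mem_filter, mem_filter, mem_range, mem_Ioc, ← Nat.ceil_le]
    constructor
    · rintro ⟨a1, a2, a3⟩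
      exact ⟨⟨by omega, by omega⟩, a2⟩
    · rintro ⟨⟨a1, a2⟩, a3⟩
      exact ⟨by omega, a3, by omega⟩
  rw [e, sum_filter]
  refine sum_congr rfl fun m _ => ?_
  unfold wp
  split_ifs <;> simp

end Mert

open Mert in
theorem mert2 (h : RhoStmt) : Mert2Stmt := by
  intro ε τ hε hτ
  obtain ⟨L, hL⟩ : ∃ L, L = |log (2 / ε)| + 3 := ⟨_, rfl⟩
  have L3 : 3 ≤ L := by linarith [abs_nonneg (log (2 / ε))]
  obtain ⟨δ, hδ, δ1, δ2⟩ : ∃ δ : ℝ, 0 < δ ∧ δ ≤ 1 ∧ δ * (20 * L) ≤ τ :=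
    ⟨min 1 (τ / (20 * L)), by positivity, min_le_left _ _,
      (le_div_iff₀ (by positivity)).1 (min_le_right _ _)⟩
  obtain ⟨M₀, M2, hM⟩ := bounds h hδ
  filter_upwards [(tendsto_rpow_atTop hε).eventually_ge_atTop (M₀ + 2 + 1 / δ),
    tendsto_log_atTop.eventually_ge_atTop 1, eventually_ge_atTop 1] with X x1 x2 x3 g hg a b a1 a2 a3
  have X0 : 0 < X := by linarith
  have m2 : (2 : ℝ) ≤ M₀ := by exact_mod_cast M2
  have d0 : 0 < 1 / δ := by positivity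
  have y1 : X ^ ε ≤ X ^ a := rpow_le_rpow_of_exponent_le x3 a1
  have y2 : X ^ a ≤ X ^ b := rpow_le_rpow_of_exponent_le x3 a2
  have a0 : 0 < a := by linarith
  obtain ⟨M, hM'⟩ : ∃ M, M + 1 = ⌈X ^ a⌉₊ :=
    ⟨_, Nat.sub_add_cancel (Nat.one_le_ceil_iff.2 (by linarith))⟩
  obtain ⟨N, hN'⟩ : ∃ N, N + 1 = ⌈X ^ b⌉₊ :=
    ⟨_, Nat.sub_add_cancel (Nat.one_le_ceil_iff.2 (by linarith))⟩
  have MN : M ≤ N := by have := Nat.ceil_mono y2; omega
  have p1 : X ^ a ≤ M + 1 := by exact_mod_cast hM' ▸ Nat.le_ceil (X ^ a)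
  have p2 : (M : ℝ) ≤ X ^ a := (Nat.lt_ceil.1 (by omega)).le
  have p3 : X ^ b ≤ N + 1 := by exact_mod_cast hN' ▸ Nat.le_ceil (X ^ b)
  have p4 : (N : ℝ) ≤ X ^ b := (Nat.lt_ceil.1 (by omega)).le
  have q0 : (M₀ : ℝ) + 1 ≤ M := by linarith
  have q1 : M₀ + 1 ≤ M := by exact_mod_cast q0
  have M0 : (0 : ℝ) < M := by linarith
  have q2 : 1 / (M : ℝ) ≤ δ := by
    rw [div_le_iff₀ M0, mul_comm, ← div_le_iff₀ hδ]; linarith
  have hM2 : ∀ n, M₀ ≤ n → (1 - δ) * n ≤ ∑ m ∈ Ioc 0 n, wp m ∧ ∑ m ∈ Ioc 0 n, wp m ≤ (1 + δ) * n :=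
    fun n hn => ⟨(hM n hn).1, (hM n hn).2.1⟩
  have A := two hδ δ1 hM2 (f := fun m => 1 / (m : ℝ)) (G := log) (fun n hn => by
      have : (0 : ℝ) < n := by exact_mod_cast (by omega : 0 < n)
      exact ⟨by positivity, one_div_le_one_div_of_le this (by push_cast; linarith),
        step (by omega), step' (by omega)⟩)
    (fun x y hx hy => log_le_log (by linarith) hy) (by omega) (by omega) MN p2 p1 p4 p3 y2
  have B := two hδ δ1 hM2 (f := fun m => 1 / ((m : ℝ) * log m)) (G := fun x => log (log x))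
    (fun n hn => by
      have n0 : (2 : ℝ) ≤ n := by exact_mod_cast hn
      have l0 : 0 < log (n : ℝ) := log_pos (by linarith)
      have l1 : log (n : ℝ) ≤ log ((n + 1 : ℕ) : ℝ) := log_le_log (by linarith) (by push_cast; linarith)
      refine ⟨by positivity, one_div_le_one_div_of_le (by positivity)
        (mul_le_mul (by push_cast; linarith) l1 l0.le (by positivity)), ?_, ?_⟩
      · simpa using lharm hn (Nat.le_succ n)
      · have h2 := log_le_sub_one_of_pos (div_pos (l0.trans_le l1) l0)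
        rw [log_div (l0.trans_le l1).ne' l0.ne', div_sub_one l0.ne'] at h2
        refine h2.trans ((div_le_div_of_nonneg_right (step' (by omega)) l0.le).trans_eq ?_)
        rw [div_div])
    (fun x y hx hy => log_le_log (log_pos (by linarith)) (log_le_log (by linarith) hy))
    (by omega) (by omega) MN p2 p1 p4 p3 y2
  have sA := sum_pw (a := a) (b := b) (by linarith) fun m => 1 / (m : ℝ)
  have sB := sum_pw (a := a) (b := b) (by linarith) fun m => 1 / ((m : ℝ) * log m)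
  rw [← hM', ← hN', Nat.add_sub_cancel, Nat.add_sub_cancel] at sA sB
  have lX : log X ≠ 0 := by linarith
  rw [← sA, log_rpow X0, log_rpow X0, ← sub_mul] at A
  simp only [log_rpow X0] at B
  have b0 : 0 < b := by linarith
  rw [← sB, ← log_div (mul_ne_zero b0.ne' lX) (mul_ne_zero a0.ne' lX),
    mul_div_mul_right _ _ lX] at B
  have r0 : 0 ≤ log (b / a) := log_nonneg ((one_le_div a0).2 a2)
  have r1 : log (b / a) ≤ L - 3 := by
    rw [hL, add_sub_cancel_right]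
    exact (log_le_log (div_pos b0 a0) (div_le_div₀ zero_le_two a3 hε a1)).trans (le_abs_self _)
  have lM : 1 ≤ log (M : ℝ) := by
    rw [le_log_iff_exp_le M0]; linarith [exp_one_lt_three]
  have k1 : (2 * δ * M + 3) * (1 / (M : ℝ)) ≤ 5 * δ := by
    rw [add_mul]
    have : 2 * δ * M * (1 / (M : ℝ)) = 2 * δ := by field_simp
    linarith
  have k2 : (2 * δ * M + 3) * (1 / ((M : ℝ) * log M)) ≤ 5 * δ :=
    (mul_le_mul_of_nonneg_left (one_div_le_one_div_of_le M0 (le_mul_of_one_le_right M0.le lM))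
      (by positivity)).trans k1
  have pp : ∀ p ∈ pw X a b, 0 < log (p : ℝ) ∧ (0 : ℝ) < p ∧
      |g p - rho p / p| ≤ 4 * δ * (rho p / p) := fun p hp => by
    obtain ⟨b1, b2, -⟩ := mem_pw.1 hp
    have p0 : (0 : ℝ) < p := by linarith
    refine ⟨log_pos (by linarith), p0, (hg p b1 (y1.trans b2)).trans ?_⟩
    have : 1 / (p : ℝ) ≤ δ := (one_div_le_one_div_of_le M0 (p2.trans b2)).trans q2
    calc 4 * (rho p : ℝ) / p ^ 2 = 4 * (1 / p) * (rho p / p) := by field_simp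
      _ ≤ _ := by gcongr
  have eB : ∑ p ∈ pw X a b, rho p * log p * (1 / ((p : ℝ) * log p)) = ∑ p ∈ pw X a b, (rho p : ℝ) / p :=
    sum_congr rfl fun p hp => by have := (pp p hp).1; have := (pp p hp).2.1; field_simp
  have eA : ∑ p ∈ pw X a b, rho p * log p * (1 / (p : ℝ)) =
      ∑ p ∈ pw X a b, (rho p : ℝ) / p * log p := sum_congr rfl fun p _ => by ring
  rw [eA] at A
  rw [eB] at B
  have dB : |∑ p ∈ pw X a b, g p - ∑ p ∈ pw X a b, (rho p : ℝ) / p| ≤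
      4 * δ * ∑ p ∈ pw X a b, (rho p : ℝ) / p := by
    rw [← sum_sub_distrib, mul_sum]
    exact (abs_sum_le_sum_abs _ _).trans (sum_le_sum fun p hp => (pp p hp).2.2)
  have dA : |∑ p ∈ pw X a b, g p * log p - ∑ p ∈ pw X a b, (rho p : ℝ) / p * log p| ≤
      4 * δ * ∑ p ∈ pw X a b, (rho p : ℝ) / p * log p := by
    rw [← sum_sub_distrib, mul_sum]
    refine (abs_sum_le_sum_abs _ _).trans (sum_le_sum fun p hp => ?_)
    rw [← sub_mul, abs_mul, abs_of_pos (pp p hp).1, ← mul_assoc]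
    exact mul_le_mul_of_nonneg_right (pp p hp).2.2 (pp p hp).1.le
  have z1 : δ * log (b / a) ≤ δ * (L - 3) := mul_le_mul_of_nonneg_left r1 hδ.le
  have z2 : δ * (L - 3) ≤ L - 3 := mul_le_of_le_one_left (by linarith) δ1
  have z3 : (b - a) * log X ≤ 2 * log X := mul_le_mul_of_nonneg_right (by linarith) (by linarith)
  have z4 : δ * ((b - a) * log X) ≤ δ * (2 * log X) := mul_le_mul_of_nonneg_left z3 hδ.le
  have z5 : δ ≤ δ * log X := le_mul_of_one_le_right hδ.le x2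
  have z6 : δ * log X ≤ log X := mul_le_of_le_one_left (by linarith) δ1
  have z7 : δ * 3 ≤ δ * L := mul_le_mul_of_nonneg_left L3 hδ.le
  rw [abs_le] at A B dA dB
  constructor
  · have : ∑ p ∈ pw X a b, (rho p : ℝ) / p ≤ 2 * L := by linarith [B.2]
    have := mul_le_mul_of_nonneg_left this (show 0 ≤ 4 * δ by positivity)
    rw [abs_le]
    constructor <;> linarith [B.1, B.2, dB.1, dB.2]
  · have : ∑ p ∈ pw X a b, (rho p : ℝ) / p * log p ≤ 9 * log X := by linarith [A.2]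
    have := mul_le_mul_of_nonneg_left this (show 0 ≤ 4 * δ by positivity)
    have z8 : δ * 60 * log X ≤ τ * log X :=
      mul_le_mul_of_nonneg_right (by linarith) (by linarith)
    rw [abs_le]
    constructor <;> linarith [A.1, A.2, dA.1, dA.2]

/-- The three usual densities are admissible. -/
theorem dens_ok (h : RhoStmt) {p : ℕ} (hp : p.Prime) (h4 : 4 ≤ p) :
    |(rho p : ℝ) / p - rho p / p| ≤ 4 * rho p / p ^ 2 ∧
    |(rho p : ℝ) / (p + 1) - rho p / p| ≤ 4 * rho p / p ^ 2 ∧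
    |(rho p : ℝ) / (p - rho p) - rho p / p| ≤ 4 * rho p / p ^ 2 := by
  have r2 : (rho p : ℝ) ≤ 2 := by
    have := h.2.2.1 p 1 hp
    rw [pow_one] at this
    exact_mod_cast this
  have r0 : (0 : ℝ) ≤ rho p := Nat.cast_nonneg _
  have p4 : (4 : ℝ) ≤ p := by exact_mod_cast h4
  obtain ⟨r, hr⟩ : ∃ r : ℝ, r = rho p := ⟨_, rfl⟩
  rw [← hr] at r0 r2 ⊢
  have q0 : (0 : ℝ) < p - r := by linarith
  refine ⟨by rw [sub_self, abs_zero]; positivity, ?_, ?_⟩
  · rw [show r / (p + 1) - r / p = -(r / (p * (p + 1))) by field_simp; ring, abs_neg,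
      abs_of_nonneg (by positivity), div_le_div_iff₀ (by positivity) (by positivity)]
    nlinarith [mul_nonneg r0 (show (0 : ℝ) ≤ p * p by positivity), mul_nonneg r0 (show (0 : ℝ) ≤ p by positivity)]
  · rw [show r / (p - r) - r / p = r * r / (p * (p - r)) by field_simp; ring,
      abs_of_nonneg (by positivity), div_le_div_iff₀ (by positivity) (by positivity)]
    have : r * p ≤ 4 * (p - r) := by nlinarith
    nlinarith [mul_le_mul_of_nonneg_left this (mul_nonneg r0 (show (0 : ℝ) ≤ p by positivity))]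

end Pool.Agent.Lib.MP_4b1228_nt.PP
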