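import Mathlib

/-! Sums over ordered tuples of distinct elements of a finite set. -/

open Finset
open scoped Classical

noncomputable section

namespace Pool.Agent.Lib.MP_4b1228_nt.PP.Tu

/-- The sum of `∏ φᵢ (pᵢ)` over the ordered tuples of distinct elements of `S`. -/
def tup : List (ℕ → ℝ) → Finset ℕ → ℝ
  | [], _ => 1
  | φ :: L, S => ∑ p ∈ S, φ p * tup L (S.erase p)

/-- The same sum over the tuples which exhaust `S`. -/
def bij : List (ℕ → ℝ) → Finset ℕ → ℝ
  | [], S => if S = ∅ then 1 else 0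
  | φ :: L, S => ∑ p ∈ S, φ p * bij L (S.erase p)

theorem swap (T : Finset ℕ) (F : ℕ → Finset ℕ → ℝ) :
    ∑ S ∈ T.powerset, ∑ p ∈ S, F p (S.erase p) =
      ∑ p ∈ T, ∑ S ∈ (T.erase p).powerset, F p S := by
  rw [sum_comm' (t' := T) (s' := fun p => T.powerset.filter (p ∈ ·)) fun S p => by
    simp only [mem_filter, mem_powerset]
    exact ⟨fun a => ⟨a, a.1 a.2⟩, fun a => a.1⟩]
  refine sum_congr rfl fun p hp => sum_nbij' (fun S => S.erase p) (fun S => insert p S)
    (fun S hS => mem_powerset.2 (erase_subset_erase _ (mem_powerset.1 (mem_filter.1 hS).1)))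
    (fun S hS => mem_filter.2 ⟨mem_powerset.2 (insert_subset hp
      ((mem_powerset.1 hS).trans (erase_subset _ _))), mem_insert_self _ _⟩)
    (fun S hS => insert_erase (mem_filter.1 hS).2)
    (fun S hS => erase_insert fun e => notMem_erase p T (mem_powerset.1 hS e)) fun _ _ => rfl

theorem sum_bij (L : List (ℕ → ℝ)) (g : ℕ → ℝ) (T : Finset ℕ) :
    ∑ S ∈ T.powerset, bij L S * ∏ p ∈ S, g p = tup (L.map fun φ p => φ p * g p) T := by
  induction L generalizing T with
  | nil =>
    simp only [bij, List.map_nil, tup, ite_mul, one_mul, zero_mul]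
    rw [sum_ite_eq' _ ∅ fun S => ∏ p ∈ S, g p]
    simp
  | cons φ L ih =>
    simp only [bij, List.map_cons, tup, ← ih, mul_sum, sum_mul]
    rw [← swap T fun p S => φ p * g p * (bij L S * ∏ q ∈ S, g q)]
    refine sum_congr rfl fun S _ => sum_congr rfl fun p hp => ?_
    rw [← mul_prod_erase S g hp]
    ring

theorem sum_bij_one (L : List (ℕ → ℝ)) (T : Finset ℕ) : ∑ S ∈ T.powerset, bij L S = tup L T := by
  simpa using sum_bij L (fun _ => 1) T

theorem bij_append (L₁ L₂ : List (ℕ → ℝ)) (T : Finset ℕ) :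
    bij (L₁ ++ L₂) T = ∑ S ∈ T.powerset, bij L₁ S * bij L₂ (T \ S) := by
  induction L₁ generalizing T with
  | nil =>
    simp only [bij, List.nil_append, ite_mul, one_mul, zero_mul]
    rw [sum_ite_eq' _ ∅ fun S => bij L₂ (T \ S)]
    simp
  | cons φ L ih =>
    simp only [bij, List.cons_append, ih, mul_sum, sum_mul]
    rw [← swap T fun p S => φ p * (bij L S * bij L₂ (T.erase p \ S))]
    refine sum_congr rfl fun S _ => sum_congr rfl fun p hp => ?_
    rw [mul_assoc]
    congr 3
    ext q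
    simp only [mem_sdiff, mem_erase]
    by_cases e : q = p
    · simp [e, hp]
    · simp [e]

theorem bij_card {L : List (ℕ → ℝ)} {S : Finset ℕ} (h : bij L S ≠ 0) :
    #S = L.length ∧ ∀ p ∈ S, ∃ φ ∈ L, φ p ≠ 0 := by
  induction L generalizing S with
  | nil =>
    have : S = ∅ := by by_contra e; simp [bij, e] at h
    simp [this]
  | cons φ L ih =>
    obtain ⟨p, hp, e⟩ := exists_ne_zero_of_sum_ne_zero h
    obtain ⟨a, b⟩ := ih (right_ne_zero_of_mul e)
    refine ⟨by rw [← card_erase_add_one hp, a, List.length_cons], fun q hq => ?_⟩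
    by_cases f : q = p
    · exact ⟨φ, List.mem_cons_self .., f ▸ left_ne_zero_of_mul e⟩
    · obtain ⟨ψ, c, d⟩ := b q (mem_erase.2 ⟨f, hq⟩)
      exact ⟨ψ, List.mem_cons_of_mem _ c, d⟩

theorem bij_le {L : List (ℕ → ℝ)} {C : ℝ} (h0 : 0 ≤ C) (hC : ∀ φ ∈ L, ∀ p, |φ p| ≤ C)
    (S : Finset ℕ) : |bij L S| ≤ (L.length * C) ^ L.length := by
  induction L generalizing S with
  | nil => simp only [bij]; split_ifs <;> simp
  | cons φ L ih =>
    by_cases e : bij (φ :: L) S = 0
    · rw [e, abs_zero]; positivity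
    have c := (bij_card e).1
    have ih := ih fun ψ h => hC ψ (List.mem_cons_of_mem _ h)
    refine (abs_sum_le_sum_abs _ _).trans ((sum_le_card_nsmul _ _
      (C * ((φ :: L).length * C) ^ L.length) fun p _ => ?_).trans_eq ?_)
    · rw [abs_mul]
      refine mul_le_mul (hC φ (List.mem_cons_self ..) p) ((ih _).trans ?_) (abs_nonneg _) h0
      rw [List.length_cons]
      push_cast
      gcongr
      linarith
    · rw [c, nsmul_eq_mul, List.length_cons, pow_succ]
      ring

theorem bij_prod {ι : Type} (L : List ι) (φ : ι → ℕ → ℝ) (b : ι → ℝ) {X : ℝ} (hX : 0 < X)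
    (hb : ∀ i ∈ L, ∀ p, φ i p ≠ 0 → (p : ℝ) ≤ X ^ b i) {S : Finset ℕ} (h : bij (L.map φ) S ≠ 0) :
    ∏ p ∈ S, (p : ℝ) ≤ X ^ (L.map b).sum := by
  induction L generalizing S with
  | nil =>
    have : S = ∅ := by by_contra e; simp [bij, e] at h
    simp [this]
  | cons i L ih =>
    obtain ⟨p, hp, e⟩ := exists_ne_zero_of_sum_ne_zero h
    rw [← mul_prod_erase S _ hp, List.map_cons, List.sum_cons, Real.rpow_add hX]
    exact mul_le_mul (hb i (List.mem_cons_self ..) p (left_ne_zero_of_mul e))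
      (ih (fun j hj => hb j (List.mem_cons_of_mem _ hj)) (right_ne_zero_of_mul e))
      (prod_nonneg fun _ _ => Nat.cast_nonneg _) (by positivity)

theorem tup_filter (L : List (ℕ → ℝ)) (Q : ℕ → Prop) [DecidablePred Q] (S : Finset ℕ) :
    tup (L.map fun φ p => if Q p then φ p else 0) S = tup L (S.filter Q) := by
  induction L generalizing S with
  | nil => rfl
  | cons φ L ih =>
    simp only [List.map_cons, tup, ih, sum_filter, ite_mul, zero_mul, filter_erase]

theorem tup_congr {ι : Type} (L : List ι) {φ ψ : ι → ℕ → ℝ} {S : Finset ℕ}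
    (h : ∀ i ∈ L, ∀ p ∈ S, φ i p = ψ i p) : tup (L.map φ) S = tup (L.map ψ) S := by
  induction L generalizing S with
  | nil => rfl
  | cons i L ih =>
    refine sum_congr rfl fun p hp => ?_
    rw [h i (List.mem_cons_self ..) p hp,
      ih fun j hj q hq => h j (List.mem_cons_of_mem _ hj) q (mem_of_mem_erase hq)]

theorem tup_perm {L L' : List (ℕ → ℝ)} (h : L.Perm L') (S : Finset ℕ) : tup L S = tup L' S := by
  induction h generalizing S with
  | nil => rfl
  | cons φ _ ih => simp only [tup, ih]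
  | swap φ ψ L =>
    simp only [tup, mul_sum]
    rw [sum_comm' (t' := S) (s' := fun p => S.erase p) fun p q => by
      simp only [mem_erase]
      exact ⟨fun a => ⟨⟨a.2.1.symm, a.1⟩, a.2.2⟩, fun a => ⟨a.1.2, a.1.1.symm, a.2⟩⟩]
    refine sum_congr rfl fun p _ => sum_congr rfl fun q _ => ?_
    rw [erase_right_comm]
    ring
  | trans _ _ a b => rw [a, b]

/-- Removing the condition that the elements are distinct. -/
theorem tup_sub {L : List (ℕ → ℝ)} {P : Finset ℕ} {w : ℕ → ℝ} {C τ : ℝ} (h1 : 1 ≤ C) (hτ : 0 ≤ τ)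
    (hL : ∀ φ ∈ L, ∀ p ∈ P, |φ p| ≤ w p) (hC : ∑ p ∈ P, w p ≤ C) (hw : ∀ p ∈ P, 0 ≤ w p ∧ w p ≤ τ)
    {S : Finset ℕ} (hS : S ⊆ P) {k : ℕ} (hk : #(P \ S) ≤ k) :
    |(L.map fun φ => ∑ p ∈ P, φ p).prod| ≤ C ^ L.length ∧
    |tup L S - (L.map fun φ => ∑ p ∈ P, φ p).prod| ≤
      L.length * (k + L.length) * τ * C ^ L.length := by
  induction L generalizing S k with
  | nil => simp [tup]
  | cons φ L ih =>
    have ih := fun S hS k hk => ih (fun ψ h => hL ψ (List.mem_cons_of_mem _ h)) (S := S) hS (k := k) hk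
    have hφ := hL φ (List.mem_cons_self ..)
    obtain ⟨R, hR⟩ : ∃ R, R = (L.map fun φ => ∑ p ∈ P, φ p).prod := ⟨_, rfl⟩
    simp only [List.map_cons, List.prod_cons, List.length_cons, tup, ← hR] at ih ⊢
    have r1 := (ih S hS k hk).1
    have c0 : 0 ≤ C ^ L.length := by positivity
    refine ⟨?_, ?_⟩
    · rw [abs_mul, pow_succ, mul_comm (C ^ _)]
      exact mul_le_mul ((abs_sum_le_sum_abs _ _).trans ((sum_le_sum hφ).trans hC)) r1
        (abs_nonneg _) (by linarith)
    · have e : ∑ p ∈ S, φ p * tup L (S.erase p) - (∑ p ∈ P, φ p) * R =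
          ∑ p ∈ S, φ p * (tup L (S.erase p) - R) - (∑ p ∈ P \ S, φ p) * R := by
        rw [← sum_sdiff hS]
        simp only [mul_sub, sum_sub_distrib, ← sum_mul]
        ring
      obtain ⟨E, hE⟩ : ∃ E : ℝ, E = L.length * ((k + 1 : ℕ) + L.length) * τ * C ^ L.length := ⟨_, rfl⟩
      have E0 : 0 ≤ E := by rw [hE]; positivity
      have a1 : |∑ p ∈ S, φ p * (tup L (S.erase p) - R)| ≤ C * E := by
        refine (abs_sum_le_sum_abs _ _).trans ((sum_le_sum (g := fun p => w p * E) fun p hp => ?_).trans ?_)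
        · rw [abs_mul, hE]
          refine mul_le_mul (hφ p (hS hp)) (ih _ ((erase_subset _ _).trans hS) (k + 1) ?_).2
            (abs_nonneg _) (hw p (hS hp)).1
          refine (card_le_card (t := insert p (P \ S)) fun q hq => ?_).trans
            ((card_insert_le _ _).trans (by omega))
          simp only [mem_sdiff, mem_erase, mem_insert] at hq ⊢
          tauto
        · rw [← sum_mul]
          exact mul_le_mul_of_nonneg_right ((sum_le_sum_of_subset_of_nonneg hS
            fun p hp _ => (hw p hp).1).trans hC) E0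
      have a2 : |(∑ p ∈ P \ S, φ p) * R| ≤ k * τ * C ^ L.length := by
        rw [abs_mul]
        refine mul_le_mul ((abs_sum_le_sum_abs _ _).trans ((sum_le_card_nsmul _ _ τ fun p hp =>
          (hφ p (mem_sdiff.1 hp).1).trans (hw p (mem_sdiff.1 hp).1).2).trans ?_)) r1
          (abs_nonneg _) (by positivity)
        rw [nsmul_eq_mul]
        exact mul_le_mul_of_nonneg_right (by exact_mod_cast hk) hτ
      rw [e]
      refine (abs_sub _ _).trans ((add_le_add a1 a2).trans ?_)
      have a3 : k * τ * C ^ L.length ≤ k * τ * C ^ L.length * C :=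
        le_mul_of_one_le_right (by positivity) h1
      have a4 : 0 ≤ (L.length + 1) * τ * C ^ L.length * C := by positivity
      rw [hE, pow_succ]
      push_cast
      nlinarith

end Pool.Agent.Lib.MP_4b1228_nt.PP.Tu
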