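import Pool.Agent.Lib.MP_4b1228_nt.PP.St2
import Pool.Agent.Lib.MP_4b1228_nt.PP.Tu0
import Pool.Agent.Lib.MP_4b1228_nt.PP.Mert2
import Pool.Agent.Lib.MP_4b1228_nt.PP.LSR
import Pool.Agent.Lib.MP_4b1228_nt.PP.LSX

/-! Exact rows for tuples of distinct primes. -/

open Finset Real Filter Topology
open scoped Classical

noncomputable section

namespace Pool.Agent.Lib.MP_4b1228_nt.PP.Tu

/-- A bounded weight on the primes up to `X ^ b` with mean `μ`. -/
def Fac (ε : ℝ) (φ : ℝ → ℕ → ℝ) (b μ : ℝ) : Prop :=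
  (∃ C : ℝ, ∀ᶠ X : ℝ in atTop, ∀ p, |φ X p| ≤ C ∧ (φ X p ≠ 0 → (p : ℝ) ≤ X ^ b)) ∧
  Tendsto (fun X : ℝ => ∑ p ∈ pw X ε 2, φ X p * (rho p / p)) atTop (𝓝 μ)

theorem common {ι : Type} {ε : ℝ} (L : List ι) {φ : ι → ℝ → ℕ → ℝ} {b μ : ι → ℝ}
    (h : ∀ i ∈ L, Fac ε (φ i) (b i) (μ i)) : ∃ C : ℝ, 1 ≤ C ∧ ∀ᶠ X : ℝ in atTop, ∀ i ∈ L, ∀ p,
      |φ i X p| ≤ C ∧ (φ i X p ≠ 0 → (p : ℝ) ≤ X ^ b i) := by
  induction L with
  | nil => exact ⟨1, le_rfl, by simp⟩
  | cons i L ih =>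
    obtain ⟨C, c1, hC⟩ := ih fun j hj => h j (List.mem_cons_of_mem _ hj)
    obtain ⟨C', hC'⟩ := (h i (List.mem_cons_self ..)).1
    refine ⟨max C C', c1.trans (le_max_left _ _), ?_⟩
    filter_upwards [hC, hC'] with X a1 a2 j hj p
    rcases List.mem_cons.1 hj with rfl | hj
    · exact ⟨(a2 p).1.trans (le_max_right _ _), (a2 p).2⟩
    · exact ⟨(a1 j hj p).1.trans (le_max_left _ _), (a1 j hj p).2⟩

theorem rho_two (hR : RhoStmt) {p : ℕ} (hp : p.Prime) : (rho p : ℝ) ≤ 2 := by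
  have := hR.2.2.1 p 1 hp
  rw [pow_one] at this
  exact_mod_cast this

/-- The mean of the sum over tuples. -/
theorem tup_lim (hR : RhoStmt) {ι : Type} {ε : ℝ} (hε : 0 < ε) (ε2 : ε ≤ 2) (L : List ι)
    {φ : ι → ℝ → ℕ → ℝ} {b μ : ι → ℝ} (h : ∀ i ∈ L, Fac ε (φ i) (b i) (μ i)) :
    Tendsto (fun X : ℝ => tup (L.map fun i p => φ i X p * (rho p / p)) (pw X ε 2)) atTop
      (𝓝 (L.map μ).prod) := by
  obtain ⟨C, c1, hC⟩ := common L h
  have t1 : Tendsto (fun X : ℝ => (L.map fun i => ∑ p ∈ pw X ε 2, φ i X p * (rho p / p)).prod)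
      atTop (𝓝 (L.map μ).prod) := tendsto_list_prod L fun i hi => (h i hi).2
  obtain ⟨K, hK⟩ : ∃ K, K = C * (|log (2 / ε)| + 1) := ⟨_, rfl⟩
  have K1 : 1 ≤ K := by rw [hK]; nlinarith [abs_nonneg (log (2 / ε))]
  have t2 : Tendsto (fun X : ℝ => (L.length : ℝ) * ((0 : ℕ) + L.length) * (C * 2 * (X ^ ε)⁻¹) *
      K ^ L.length) atTop (𝓝 0) := by
    have := ((((tendsto_rpow_atTop hε).inv_tendsto_atTop.const_mul (C * 2)).const_mul
      ((L.length : ℝ) * ((0 : ℕ) + L.length))).mul_const (K ^ L.length))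
    simpa using this
  refine t1.congr_dist (squeeze_zero' (Eventually.of_forall fun _ => dist_nonneg) ?_ t2)
  filter_upwards [hC, mert2 hR ε 1 hε one_pos, eventually_gt_atTop 0] with X a1 a2 X0
  have := (tup_sub (L := L.map fun i p => φ i X p * (rho p / p)) (P := pw X ε 2)
    (w := fun p => C * (rho p / p)) (τ := C * 2 * (X ^ ε)⁻¹) K1 (by positivity) (fun ψ hψ p _ => by
      obtain ⟨i, hi, rfl⟩ := List.mem_map.1 hψ
      rw [abs_mul, abs_of_nonneg (a := (rho p : ℝ) / p) (by positivity)]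
      exact mul_le_mul_of_nonneg_right (a1 i hi p).1 (by positivity))
    (by
      rw [← mul_sum, hK]
      refine mul_le_mul_of_nonneg_left ?_ (by linarith)
      have := (a2 (fun p => rho p / p) (fun p _ _ => by rw [sub_self, abs_zero]; positivity)
        ε 2 le_rfl ε2 le_rfl).1
      linarith [(abs_le.1 this).2, le_abs_self (log (2 / ε))])
    (fun p hp => ⟨by positivity, by
      rw [mul_assoc, ← div_eq_mul_inv]
      exact mul_le_mul_of_nonneg_left (div_le_div₀ zero_le_two (rho_two hR (mem_pw.1 hp).1)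
        (by positivity) (mem_pw.1 hp).2.1) (by linarith)⟩) Subset.rfl (k := 0) (by simp)).2
  rw [List.map_map, List.length_map] at this
  rw [dist_comm, Real.dist_eq]
  exact this

theorem anti {k : ℕ} (hk : Squarefree k) (F G : Finset ℕ → ℝ) :
    ∑ x ∈ k.divisorsAntidiagonal, (if Squarefree x.1 then F x.1.primeFactors else 0) *
        (if Squarefree x.2 then G x.2.primeFactors else 0) =
      ∑ S ∈ k.primeFactors.powerset, F S * G (k.primeFactors \ S) := by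
  have k0 := hk.ne_zero
  have := LSX.sum_dvd (P := k.primeFactors) (fun p hp => Nat.prime_of_mem_primeFactors hp) k0
    fun S => F S * G (k.primeFactors \ S)
  rw [filter_true_of_mem fun p hp => Nat.dvd_of_mem_primeFactors hp] at this
  rw [← this, Nat.sum_divisorsAntidiagonal fun x y =>
    (if Squarefree x then F x.primeFactors else 0) * (if Squarefree y then G y.primeFactors else 0)]
  refine sum_congr rfl fun d hd => ?_
  have d1 := Nat.dvd_of_mem_divisors hd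
  have d2 := hk.squarefree_of_dvd d1
  have e := Nat.primeFactors_div_gcd hk d2.ne_zero
  rw [Nat.gcd_eq_right d1] at e
  rw [if_pos d2, if_pos (hk.squarefree_of_dvd (Nat.div_dvd_of_dvd d1)),
    if_pos ⟨d2, Nat.primeFactors_mono d1 k0⟩, e]

theorem sum_sq {n : ℕ} (hn : n ≠ 0) (G : Finset ℕ → ℝ) :
    ∑ k ∈ n.divisors with Squarefree k, G k.primeFactors = ∑ S ∈ n.primeFactors.powerset, G S := by
  have := LSX.sum_dvd (P := n.primeFactors) (fun p hp => Nat.prime_of_mem_primeFactors hp) hn G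
  rw [filter_true_of_mem fun p hp => Nat.dvd_of_mem_primeFactors hp] at this
  rw [← this, sum_filter]
  refine sum_congr rfl fun d hd => if_congr ⟨fun a => ⟨a, Nat.primeFactors_mono
    (Nat.dvd_of_mem_divisors hd) hn⟩, fun a => a.1⟩ rfl rfl

theorem sum_box {M : ℕ} {P : Finset ℕ} (hP : ∀ p ∈ P, p.Prime) (G : Finset ℕ → ℝ)
    (h1 : ∀ S, G S ≠ 0 → (∀ p ∈ S, p.Prime) → S ⊆ P ∧ ∏ p ∈ S, p ≤ M) :
    ∑ k ∈ (Icc 1 M : Finset ℕ) with Squarefree k, G k.primeFactors = ∑ S ∈ P.powerset, G S := by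
  have n0 : ∏ p ∈ P, p ≠ 0 := prod_ne_zero_iff.2 fun p hp => (hP p hp).ne_zero
  have := sum_sq n0 G
  rw [Nat.primeFactors_prod hP] at this
  rw [← this, ← sum_filter_ne_zero, ← sum_filter_ne_zero (s := filter _ (Nat.divisors _))]
  refine sum_congr ?_ fun _ _ => rfl
  ext k
  simp only [mem_filter, mem_Icc, Nat.mem_divisors]
  constructor
  · rintro ⟨⟨-, a⟩, c⟩
    refine ⟨⟨⟨?_, n0⟩, a⟩, c⟩
    rw [← Nat.prod_primeFactors_of_squarefree a]
    exact prod_dvd_prod_of_subset _ _ _ (h1 _ c fun p hp => Nat.prime_of_mem_primeFactors hp).1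
  · rintro ⟨⟨-, a⟩, c⟩
    have := (h1 _ c fun p hp => Nat.prime_of_mem_primeFactors hp).2
    rw [Nat.prod_primeFactors_of_squarefree a] at this
    exact ⟨⟨⟨Nat.pos_of_ne_zero a.ne_zero, this⟩, a⟩, c⟩

/-- Exact rows for tuples. -/
theorem tupRow (hR : RhoStmt) (hRow : RowStmt) (hE : ExStmt) {ι : Type} {ε γ : ℝ} (hε : 0 < ε)
    (ε2 : ε ≤ 2) (hγ : 0 < γ) (L₁ L₂ : List ι) (φ : ι → ℝ → ℕ → ℝ) (b μ : ι → ℝ)
    (h : ∀ i ∈ L₁ ++ L₂, Fac ε (φ i) (b i) (μ i)) (h₁ : (L₁.map b).sum ≤ 1 - γ)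
    (h₂ : 4 * (L₂.map b).sum + (L₁.map b).sum ≤ 2 - γ) (σ : ℝ) :
    Row (fun X n => σ * tup ((L₁ ++ L₂).map fun i => φ i X) (RP X ε n))
      (σ * ((L₁ ++ L₂).map μ).prod) := by
  obtain ⟨C, c1, hC⟩ := common _ h
  obtain ⟨ψ, hψ⟩ : ∃ ψ : ι → ℝ → ℕ → ℝ, ∀ i X p, ψ i X p = if X ^ ε ≤ p then φ i X p else 0 :=
    ⟨_, fun _ _ _ => rfl⟩
  obtain ⟨B, B1, B2, B3⟩ : ∃ B : ℕ, 1 ≤ B ∧ |σ| * (L₁.length * C) ^ L₁.length ≤ B ∧
      (L₂.length * C) ^ L₂.length ≤ B := by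
    obtain ⟨B, hB⟩ := exists_nat_ge (1 + |σ| * (L₁.length * C) ^ L₁.length +
      (L₂.length * C) ^ L₂.length)
    have a1 : 0 ≤ |σ| * (L₁.length * C) ^ L₁.length := by positivity
    have a2 : 0 ≤ (L₂.length * C) ^ L₂.length := by positivity
    exact ⟨B, by exact_mod_cast (show (1 : ℝ) ≤ B by linarith), by linarith, by linarith⟩
  obtain ⟨α, hα⟩ : ∃ α : ℝ → ℕ → ℕ → ℝ, ∀ X j d, α X j d = if j = 0 then (if Squarefree d then
    σ * bij (L₁.map fun i => ψ i X) d.primeFactors else 0) else 0 := ⟨_, fun _ _ _ => rfl⟩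
  obtain ⟨β, hβ⟩ : ∃ β : ℝ → ℕ → ℕ → ℝ, ∀ X j d, β X j d = if Squarefree d then
    bij (L₂.map fun i => ψ i X) d.primeFactors else 0 := ⟨_, fun _ _ _ => rfl⟩
  have key : ∀ (X : ℝ) (k : ℕ), Squarefree k →
      ∑ j ∈ range B, ∑ x ∈ k.divisorsAntidiagonal, α X j x.1 * β X j x.2 =
        σ * bij ((L₁ ++ L₂).map fun i => ψ i X) k.primeFactors := fun X k hk => by
    rw [sum_eq_single_of_mem 0 (mem_range.2 B1) fun j _ e => by simp [hα, e]]
    simp only [hα, hβ, if_true]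
    rw [anti hk (fun S => σ * bij (L₁.map fun i => ψ i X) S) (bij (L₂.map fun i => ψ i X)),
      List.map_append, bij_append, mul_sum]
    simp only [mul_assoc]
  have supp : ∀ (X : ℝ) (L : List ι) (S : Finset ℕ), 0 < X →
      (∀ i ∈ L, ∀ p, |φ i X p| ≤ C ∧ (φ i X p ≠ 0 → (p : ℝ) ≤ X ^ b i)) →
      |bij (L.map fun i => ψ i X) S| ≤ (L.length * C) ^ L.length ∧
      (bij (L.map fun i => ψ i X) S ≠ 0 →
        (∀ p ∈ S, X ^ ε ≤ p) ∧ ∏ p ∈ S, (p : ℝ) ≤ X ^ (L.map b).sum) := fun X L S X0 a => by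
    refine ⟨?_, fun e => ⟨fun p hp => ?_, bij_prod L _ b X0 (fun i hi p f => (a i hi p).2 ?_) e⟩⟩
    · have := bij_le (L := L.map fun i => ψ i X) (C := C) (by linarith) (fun θ hθ p => by
        obtain ⟨i, hi, rfl⟩ := List.mem_map.1 hθ
        rw [hψ]
        split_ifs
        · exact (a i hi p).1
        · rw [abs_zero]; linarith) S
      rwa [List.length_map] at this
    · obtain ⟨θ, hθ, f⟩ := (bij_card e).2 p hp
      obtain ⟨i, -, rfl⟩ := List.mem_map.1 hθ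
      by_contra f'
      exact f (by rw [hψ, if_neg f'])
    · intro f'
      exact f (by rw [hψ, f', ite_self])
  have sq : ∀ (X : ℝ) (d : ℕ) (y : ℝ), Squarefree d →
      ((∀ p ∈ d.primeFactors, X ^ ε ≤ p) ∧ ∏ p ∈ d.primeFactors, (p : ℝ) ≤ y) →
      Rough (X ^ ε) d ∧ (d : ℝ) ≤ y := fun X d y hd e =>
    ⟨fun p hp hp' => e.1 p (Nat.mem_primeFactors.2 ⟨hp, hp', hd.ne_zero⟩), by
      rw [← Nat.cast_prod, Nat.prod_primeFactors_of_squarefree hd] at e; exact e.2⟩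
  have flt : ∀ (X : ℝ) (g : ℕ → ℝ) (S : Finset ℕ),
      tup (((L₁ ++ L₂).map fun i => ψ i X).map fun θ p => θ p * g p) S =
        tup ((L₁ ++ L₂).map fun i p => φ i X p * g p) (S.filter fun p : ℕ => X ^ ε ≤ p) :=
    fun X g S => by
      rw [← tup_filter, List.map_map, List.map_map]
      exact tup_congr _ fun i _ p _ => by simp only [Function.comp, hψ, ite_mul, zero_mul]
  refine hRow.2.2.2.2.2 _ _ fun τ hτ => hRow.2.2.2.2.1 _ _ _ _
    (hE ε γ _ B (fun _ => (L₁.map b).sum) (fun _ => (L₂.map b).sum) α β hε hγ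
      (fun _ _ => ⟨h₁, h₂⟩) ?_) le_rfl (Eventually.of_forall fun X n hn _ => le_of_eq ?_)
  · have t := ((tup_lim hR hε ε2 _ h).const_mul σ).eventually_const_lt (sub_lt_self _ hτ)
    filter_upwards [hC, t, eventually_gt_atTop 1] with X a1 a2 X1
    have X0 : 0 < X := by linarith
    have s1 := fun S => supp X L₁ S X0 fun i hi => a1 i (List.mem_append_left _ hi)
    have s2 := fun S => supp X L₂ S X0 fun i hi => a1 i (List.mem_append_right _ hi)
    refine ⟨fun j _ d => ⟨?_, ?_, fun e => ?_, fun e => ?_⟩, a2.le.trans_eq ?_⟩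
    · rw [hα]
      split_ifs
      · rw [abs_mul]
        exact (mul_le_mul_of_nonneg_left (s1 _).1 (abs_nonneg _)).trans B2
      all_goals simp
    · rw [hβ]
      split_ifs
      · exact (s2 _).1.trans B3
      · simp
    · rw [hα] at e
      split_ifs at e with f1 f2
      · exact sq X d _ f2 ((s1 _).2 (right_ne_zero_of_mul e))
      all_goals exact absurd rfl e
    · rw [hβ] at e
      split_ifs at e with f2
      · exact sq X d _ f2 ((s2 _).2 e)
      · exact absurd rfl e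
    · rw [sum_congr rfl fun k hk => by
        rw [key X k (mem_filter.1 hk).2, ← LS.prod_rho hR (mem_filter.1 hk).2],
        sum_box (P := pw X ε 2) (fun p hp => (mem_pw.1 hp).1) (fun S =>
          σ * bij ((L₁ ++ L₂).map fun i => ψ i X) S * ∏ p ∈ S, (rho p : ℝ) / p) fun S e hS => ?_]
      · simp only [mul_assoc, ← mul_sum]
        rw [sum_bij, flt, filter_true_of_mem fun p hp => (mem_pw.1 hp).2.1]
      · obtain ⟨u1, u2⟩ := (supp X _ S X0 a1).2 (right_ne_zero_of_mul (left_ne_zero_of_mul e))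
        have u3 : ∏ p ∈ S, (p : ℝ) < X ^ (2 : ℝ) := u2.trans_lt (rpow_lt_rpow_of_exponent_lt X1
          (by rw [List.map_append, List.sum_append]; linarith))
        rw [← Nat.cast_prod] at u3
        refine ⟨fun p hp => mem_pw.2 ⟨hS p hp, u1 p hp, lt_of_le_of_lt ?_ u3⟩, Nat.le_floor ?_⟩
        · exact_mod_cast single_le_prod' (f := fun p => p) (fun q hq => (hS q hq).one_le) hp
        · rw [← rpow_two]; exact u3.le
  · rw [sum_congr rfl fun k hk => key X k (mem_filter.1 hk).2,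
      sum_sq (by omega) fun S => σ * bij ((L₁ ++ L₂).map fun i => ψ i X) S, ← mul_sum]
    have := sum_bij ((L₁ ++ L₂).map fun i => ψ i X) (fun _ => 1) n.primeFactors
    rw [flt] at this
    simp only [prod_const_one, mul_one] at this
    rw [this, RP]

end Pool.Agent.Lib.MP_4b1228_nt.PP.Tu
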