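import Pool.Agent.Lib.MP_4b1228_nt.PP.St3b
import Pool.Agent.Lib.MP_4b1228_nt.PP.Tu

/-!
The model mean of tuples that exhaust a window.
-/

open Finset Real Filter Topology
open scoped Classical

noncomputable section

namespace Pool.Agent.Lib.MP_4b1228_nt.PP.R3

namespace T3

lemma mlim (hR : RhoStmt) {ε a b : ℝ} (hε : 0 < ε) (h1 : ε ≤ a) (h2 : a ≤ b) (h3 : b ≤ 2)
    (g : ℝ → ℕ → ℝ) (hg : ∀ᶠ X : ℝ in atTop, ∀ p : ℕ, p.Prime → X ^ ε ≤ p →
      |g X p - rho p / p| ≤ 4 * rho p / p ^ 2) :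
    Tendsto (fun X : ℝ => ∑ p ∈ pw X a b, g X p) atTop (𝓝 (log (b / a))) ∧
    Tendsto (fun X : ℝ => ∑ p ∈ pw X a b, g X p * (log p / log X)) atTop (𝓝 (b - a)) := by
  refine ⟨Metric.tendsto_nhds.2 fun τ hτ => ?_, Metric.tendsto_nhds.2 fun τ hτ => ?_⟩
  · filter_upwards [hg, mert2 hR ε _ hε (half_pos hτ)] with X a1 a2
    exact (a2 _ a1 a b h1 h2 h3).1.trans_lt (half_lt_self hτ)
  · filter_upwards [hg, mert2 hR ε _ hε (half_pos hτ), eventually_gt_atTop 1] with X a1 a2 X1
    have L0 := log_pos X1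
    have := (a2 _ a1 a b h1 h2 h3).2
    refine lt_of_le_of_lt ?_ (half_lt_self hτ)
    simp only [← mul_div_assoc, ← sum_div]
    rw [Real.dist_eq, div_sub' L0.ne', abs_div, abs_of_pos L0, div_le_iff₀ L0, mul_comm (log X)]
    exact this

lemma lesz {X u a : ℝ} {p : ℕ} (hX : 1 < X) (hu : 0 < u) (hp : p.Prime) :
    a ≤ sz X u p ↔ X ^ (u * a) ≤ p := by
  have L0 := log_pos hX
  have X0 : 0 < X := by linarith
  rw [sz, le_div_iff₀ (by positivity), ← log_le_log_iff (rpow_pos_of_pos X0 _)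
    (by exact_mod_cast hp.pos), log_rpow X0]
  ring_nf

lemma szlt {X u a : ℝ} {p : ℕ} (hX : 1 < X) (hu : 0 < u) (hp : p.Prime) :
    sz X u p < a ↔ (p : ℝ) < X ^ (u * a) := by
  rw [← not_le, lesz hX hu hp, not_le]

lemma tup_supp {ι : Type} (L : List ι) (φ : ι → ℕ → ℝ) {S S' : Finset ℕ}
    (h : ∀ i ∈ L, ∀ p, φ i p ≠ 0 → (p ∈ S ↔ p ∈ S')) :
    Tu.tup (L.map φ) S = Tu.tup (L.map φ) S' := by
  have k : ∀ {S S' : Finset ℕ}, (∀ i ∈ L, ∀ p, φ i p ≠ 0 → p ∈ S → p ∈ S') →
      Tu.tup (L.map φ) S = Tu.tup (L.map φ) (S ∩ S') := fun {S S'} h => by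
    rw [← filter_mem_eq_inter, ← Tu.tup_filter, List.map_map]
    refine Tu.tup_congr _ fun i hi p hp => ?_
    by_cases c : φ i p = 0
    · simp [c]
    · simp [h i hi p c hp]
  rw [k fun i hi p c => (h i hi p c).1, k fun i hi p c => (h i hi p c).2, inter_comm]

lemma gp_half (hR : RhoStmt) {p : ℕ} (hp : p.Prime) (h4 : 4 ≤ p) : gp p ≤ 1 / 2 := by
  have := Tu.rho_two hR hp
  have p4 : (4 : ℝ) ≤ p := by exact_mod_cast h4
  rw [gp, div_le_iff₀ (by linarith)]
  linarith

lemma gp_div {p : ℕ} (hp : p.Prime) : gp p / (1 - gp p) = rho p / (p - rho p) := by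
  have p0 : (p : ℝ) ≠ 0 := by exact_mod_cast hp.ne_zero
  rw [gp, one_sub_div p0, div_div_div_cancel_right₀ p0]

/-- The product over a window. -/
lemma prod_lim (hR : RhoStmt) {a b : ℝ} (ha : 0 < a) (h2 : a ≤ b) (h3 : b ≤ 2) :
    Tendsto (fun X : ℝ => ∏ p ∈ pw X a b, (1 - gp p)) atTop (𝓝 (a / b)) := by
  have t4 := (tendsto_rpow_atTop ha).eventually_ge_atTop 4
  have t := (mlim hR ha le_rfl h2 h3 (fun _ p => -log (1 - gp p)) ?_).1.neg.rexp
  · rw [exp_neg, exp_log (div_pos (ha.trans_le h2) ha), inv_div] at t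
    refine t.congr' ?_
    filter_upwards [t4] with X a1
    rw [sum_neg_distrib, neg_neg, exp_sum]
    refine prod_congr rfl fun p hp => exp_log ?_
    obtain ⟨p1, p2, -⟩ := mem_pw.1 hp
    linarith [gp_half hR p1 (by exact_mod_cast a1.trans p2)]
  · filter_upwards [t4] with X a1 p p1 p2
    have h4 : 4 ≤ p := by exact_mod_cast a1.trans p2
    have g0 : 0 < 1 - gp p := by linarith [gp_half hR p1 h4]
    have b1 := log_le_sub_one_of_pos g0
    have b2 := log_le_sub_one_of_pos (inv_pos.2 g0)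
    have b3 := (abs_le.1 (dens_ok hR p1 h4).2.2).2
    have b4 : (1 - gp p)⁻¹ - 1 = gp p / (1 - gp p) := by field_simp; ring
    rw [log_inv, b4, gp_div p1] at b2
    have b5 : (0 : ℝ) ≤ 4 * rho p / p ^ 2 := by positivity
    rw [gp] at b1 b2 ⊢
    exact abs_le.2 ⟨by linarith, by linarith⟩

end T3

open T3 in
theorem tm2 (hR : RhoStmt) : TM2Stmt := by
  intro ε u Z Z₂ L hε hu h1 h2 h3 hL
  have Z0 : 0 < Z := (mul_pos_iff_of_pos_left hu).1 (hε.trans_le h1)
  have h2' : u * Z ≤ u * Z₂ := by gcongr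
  set h : ℝ → ℕ → ℝ := fun X p => if p ∈ pw X (u * Z) (u * Z₂) then (1 - gp p)⁻¹ else 1 with hh
  have t4 := (tendsto_rpow_atTop hε).eventually_ge_atTop 4
  have hb : ∀ᶠ X : ℝ in atTop, ∀ p ∈ pw X (u * Z) (u * Z₂), gp p ≤ 1 / 2 := by
    filter_upwards [t4, eventually_ge_atTop 1] with X a1 X1 p hp
    obtain ⟨p1, p2, -⟩ := mem_pw.1 hp
    exact gp_half hR p1 (by
      exact_mod_cast a1.trans ((rpow_le_rpow_of_exponent_le X1 h1).trans p2))
  have t1 := Tu.tup_lim hR hε (by linarith) L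
    (φ := fun c X p => (if p.Prime then c.w (sz X u p) else 0) * h X p) (b := fun _ => 1)
    (μ := Cel.I) fun c hc => ?_
  · have t2 := (prod_lim hR (hε.trans_le h1) h2' (by linarith)).mul t1
    rw [mul_div_mul_left _ _ hu.ne'] at t2
    refine t2.congr' ?_
    filter_upwards [hb, eventually_gt_atTop 1] with X a1 X1
    have X0 : 0 < X := by linarith
    have mono : ∀ {a b : ℝ}, a ≤ b → X ^ a ≤ X ^ b := fun h => rpow_le_rpow_of_exponent_le X1.le h
    have pr : ∀ p : ℕ, p.Prime → X ^ ε ≤ p → (p : ℝ) < X ^ (2 : ℝ) → p ∈ PR X ε :=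
      fun p p1 p2 p3 => mem_filter.2 ⟨mem_Icc.2 ⟨p1.one_le, Nat.le_floor
        (by rw [← rpow_two]; exact p3.le)⟩, p1, p2⟩
    rw [tup_supp L _ (S' := (PR X ε).filter fun p => Z ≤ sz X u p) fun c hc p hp => ?_]
    · have e := Tu.sum_bij (L.map fun c p => c.w (sz X u p)) (fun p => h X p * gp p)
        ((PR X ε).filter fun p => Z ≤ sz X u p)
      rw [List.map_map] at e
      rw [Tu.tup_congr L (ψ := (fun φ p => φ p * (h X p * gp p)) ∘ fun c p => c.w (sz X u p))
        fun c _ p hp => by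
          simp only [Function.comp, if_pos (mem_filter.1 (mem_filter.1 hp).1).2.1, gp, mul_assoc],
        ← e, TM, mul_sum]
      refine sum_congr rfl fun K _ => ?_
      have e1 : ((PR X ε).filter fun p => Z ≤ sz X u p ∧ sz X u p < Z₂ ∧ p ∉ K) =
          pw X (u * Z) (u * Z₂) \ K := by
        ext p
        rw [mem_filter, Finset.mem_sdiff, mem_pw]
        refine ⟨fun ⟨c1, c2, c3, c4⟩ => ?_, fun ⟨⟨c1, c2, c3⟩, c4⟩ => ⟨pr p c1 ((mono h1).trans c2)
          (c3.trans_le (mono (by linarith))), (lesz X1 hu c1).2 c2, (szlt X1 hu c1).2 c3, c4⟩⟩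
        have c5 := (mem_filter.1 c1).2.1
        exact ⟨⟨c5, (lesz X1 hu c5).1 c2, (szlt X1 hu c5).1 c3⟩, c4⟩
      have e2 : (∏ p ∈ pw X (u * Z) (u * Z₂), (1 - gp p)) * ∏ p ∈ K, h X p =
          ∏ p ∈ pw X (u * Z) (u * Z₂) \ K, (1 - gp p) := by
        simp only [hh]
        rw [prod_ite_mem, inter_comm, ← prod_sdiff (inter_subset_left (s₂ := K)),
          sdiff_inter_self_left, mul_assoc, ← prod_mul_distrib,
          prod_eq_one (s := _ ∩ _) fun p hp => ?_, mul_one]
        exact mul_inv_cancel₀ (by linarith [a1 p (mem_inter.1 hp).1])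
      rw [e1, ← e2, prod_mul_distrib]
      ring
    · have c1 := left_ne_zero_of_mul (left_ne_zero_of_mul hp)
      split_ifs at c1 with p1
      · obtain ⟨d1, d2, d3, -⟩ := hL c hc
        have c2 : c.a ≤ sz X u p ∧ sz X u p < c.b := by
          by_contra c2
          exact c1 (if_neg c2)
        have c3 := (lesz X1 hu p1).1 (d1.trans c2.1)
        have c4 := ((szlt X1 hu p1).1 c2.2).trans_le (mono (by linarith : u * c.b ≤ 2))
        exact iff_of_true (mem_pw.2 ⟨p1, (mono h1).trans c3, c4⟩)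
          (mem_filter.2 ⟨pr p p1 ((mono h1).trans c3) c4, d1.trans c2.1⟩)
      · exact absurd rfl c1
  · obtain ⟨d1, d2, d3, d4⟩ := hL c hc
    have a0 : 0 < c.a := Z0.trans_le d1
    refine ⟨⟨(|c.α| + |c.β| * c.b) * 2, ?_⟩, ?_⟩
    · filter_upwards [hb, eventually_gt_atTop 1] with X a1 X1 p
      have b0 : 0 ≤ |c.α| + |c.β| * c.b := by
        have := a0.le.trans d2
        positivity
      refine ⟨?_, fun hp => ?_⟩
      · rw [abs_mul]
        refine mul_le_mul ?_ ?_ (abs_nonneg _) b0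
        · unfold Cel.w
          split_ifs with c1 c2
          · refine (abs_add_le _ _).trans ?_
            rw [abs_mul, abs_of_pos (a0.trans_le c2.1)]
            gcongr
            exact c2.2.le
          all_goals simpa using b0
        · simp only [hh]
          split_ifs with c1
          · have := a1 p c1
            rw [abs_of_pos (inv_pos.2 (by linarith)), inv_le_comm₀ (by linarith) two_pos]
            linarith
          · norm_num
      · have c1 := left_ne_zero_of_mul hp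
        split_ifs at c1 with p1
        · have c2 : c.a ≤ sz X u p ∧ sz X u p < c.b := by
            by_contra c2
            exact c1 (if_neg c2)
          exact ((szlt X1 hu p1).1 c2.2).le.trans (rpow_le_rpow_of_exponent_le X1.le d3)
        · exact absurd rfl c1
    · have ua : ε ≤ u * c.a := h1.trans (by gcongr)
      obtain ⟨m1, m2⟩ := mlim hR hε ua (by gcongr : u * c.a ≤ u * c.b) (by linarith)
        (fun X p => h X p * (rho p / p)) (by
          filter_upwards [t4] with X a1 p p1 p2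
          have h4 : 4 ≤ p := by exact_mod_cast a1.trans p2
          simp only [hh]
          split_ifs
          · rw [← gp, inv_mul_eq_div, gp_div p1]
            exact (dens_ok hR p1 h4).2.2
          · rw [one_mul]
            exact (dens_ok hR p1 h4).1)
      have t := (m1.const_mul c.α).add (m2.const_mul (c.β / u))
      rw [mul_div_mul_left _ _ hu.ne', ← mul_sub, div_mul_eq_mul_div, mul_left_comm,
        mul_div_cancel_left₀ _ hu.ne'] at t
      refine t.congr' ?_
      filter_upwards [eventually_gt_atTop 1] with X X1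
      have L0 := log_pos X1
      have mono : ∀ {a b : ℝ}, a ≤ b → X ^ a ≤ X ^ b :=
        fun h => rpow_le_rpow_of_exponent_le X1.le h
      rw [mul_sum, mul_sum, ← sum_add_distrib]
      refine sum_congr_of_eq_on_inter (fun p hp hp' => absurd ?_ hp') (fun p hp hp' => ?_)
        fun p hp _ => ?_
      · obtain ⟨c1, c2, c3⟩ := mem_pw.1 hp
        exact mem_pw.2 ⟨c1, (mono ua).trans c2, c3.trans_le (mono (by linarith))⟩
      · have c1 := (mem_pw.1 hp).1
        rw [if_pos c1, Cel.w, if_neg fun c2 => hp' (mem_pw.2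
          ⟨c1, (lesz X1 hu c1).1 c2.1, (szlt X1 hu c1).1 c2.2⟩), zero_mul, zero_mul]
      · obtain ⟨c1, c2, c3⟩ := mem_pw.1 hp
        rw [if_pos c1, Cel.w, if_pos ⟨(lesz X1 hu c1).2 c2, (szlt X1 hu c1).2 c3⟩, sz]
        field_simp

end Pool.Agent.Lib.MP_4b1228_nt.PP.R3
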