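import Pool.Agent.Lib.MP_4b1228_nt.PP.R4D

/-!
The rows of one large prime and Harman's rows of a table.
-/

open Finset Real
open scoped Classical

namespace Pool.Agent.Lib.MP_4b1228_nt.PP.R4

open R3

lemma list_range_sum {β : Type} [AddCommMonoid β] (n : ℕ) (g : ℕ → β) :
    ((List.range n).map g).sum = ∑ i ∈ range n, g i := by
  induction n with
  | zero => simp
  | succ n ih => simp [List.range_succ, sum_range_succ, ih]

lemma cell_iff {y : ℝ} (hy : 0 ≤ y) (c : ℕ) : ((c : ℝ) ≤ y ∧ y < c + 1) ↔ ⌊y⌋₊ = c :=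
  (Nat.floor_eq_iff hy).symm

lemma fr_mem {y : ℝ} (hy : 0 ≤ y) : 0 ≤ fr y ∧ fr y ≤ 1 :=
  ⟨sub_nonneg.2 (Nat.floor_le hy), by unfold fr; linarith [Nat.lt_floor_add_one y]⟩

theorem mP (hq : RowQStmt) : MPStmt := by
  intro t n ht hn
  obtain ⟨-, r2, r3, r4, -, r6⟩ := hq t.Q (ht.1.trans ht.2.1)
  have Zp : t.Z ≤ t.p₀ := ht.2.2.2.2.2.2.2.2.2.2
  refine r6 _ _ _ _ (r4 ℕ (Ico t.p₀ t.p₁) _ _ fun c hc =>
    r2 _ _ _ _ (r3 _ _ (t.sl c 0) (Nat.cast_nonneg _) (hn c (mem_Ico.1 hc).1 (mem_Ico.1 hc).2).1)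
      (r3 _ _ (t.sl c 1) (Nat.cast_nonneg _) (hn c (mem_Ico.1 hc).1 (mem_Ico.1 hc).2).2))
    (le_of_eq ?_) fun x S hx _ => le_of_eq ?_
  · rw [Tab.vP, list_range_sum, sum_Ico_eq_sum_range]
    push_cast
    exact sum_congr rfl fun i _ => by ring
  · simp only [tup, tupF, List.map, mul_one, Tab.GP, Tab.big, sum_filter, ← sum_neg_distrib,
      mul_sum, ← sum_add_distrib]
    rw [sum_comm]
    refine sum_congr rfl fun p hp => ?_
    have x0 := (hx p hp).le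
    simp only [Cel.w, cell_iff x0]
    rw [sum_congr rfl (g := fun c => if ⌊x p⌋₊ = c then
      -((t.sl c 0 : ℝ) * (1 - fr (x p)) + t.sl c 1 * fr (x p)) else 0) fun c _ => ?_, sum_ite_eq]
    · simp only [Tab.lp, mem_Ico]
      split_ifs with c1 c2 c2
      · rfl
      · exact absurd ((Nat.le_floor_iff x0).1 (Zp.trans c1.1)) c2
      · rfl
      · rfl
    · split_ifs with c1
      · rw [fr, c1]; ring
      · simp

theorem mH (hq : RowQStmt) (hH : H2Stmt) : MHStmt := by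
  intro t v ht hv
  obtain ⟨o1, o2, -, -, -, o6, -, o8, o9, -⟩ := ht
  refine (hq t.Q (o1.trans o2)).2.2.2.1 ℕ _ _ _ fun a ha => ?_
  have a1 : a + 1 ≤ t.a₁ := (mem_Ico.1 ha).2
  set B₁ : ℝ := ∑ c ∈ range (a + 1), (|(t.h1 a c 0 : ℝ)| + |(t.h1 a c 1 : ℝ)| + |(t.h1 a c 2 : ℝ)|)
    with hB
  have B0 : 0 ≤ B₁ := sum_nonneg fun _ _ => by positivity
  have n0 := abs_nonneg (t.h0 a 0 : ℝ)
  have n1 := abs_nonneg (t.h0 a 1 : ℝ)
  refine hH t.Q t.T a (a + 1) (|(t.h0 a 0 : ℝ)| + |(t.h0 a 1 : ℝ)| + B₁) _ _ _ (o1.trans o2)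
    (by exact_mod_cast o1.trans o6) (Nat.cast_nonneg _) (by linarith)
    (by exact_mod_cast (Nat.mul_le_mul_left 7 a1).trans o8)
    (by exact_mod_cast (Nat.add_le_add_left a1 _).trans o9) (fun s hs s' _ => ⟨?_, ?_⟩)
    (fun y s hs s' _ => ?_) (hv a ha)
  · refine (abs_add_le _ _).trans (le_add_of_le_of_nonneg (add_le_add ?_ ?_) B0) <;> rw [abs_mul] <;>
      exact mul_le_of_le_one_right (abs_nonneg _) (abs_le.2 ⟨by linarith [hs.1, hs.2],
        by linarith [hs.1, hs.2]⟩)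
  · rw [show t.ψ a s - t.ψ a s' = (t.h0 a 1 - t.h0 a 0) * (s - s') by unfold Tab.ψ; ring, abs_mul]
    gcongr
    linarith [abs_sub (t.h0 a 1 : ℝ) (t.h0 a 0)]
  · unfold Tab.W
    split_ifs with c
    · obtain ⟨c1, c2, c3⟩ := c
      have b1 : |(t.h1 a ⌊y⌋₊ 0 : ℝ)| + |(t.h1 a ⌊y⌋₊ 1 : ℝ)| + |(t.h1 a ⌊y⌋₊ 2 : ℝ)| ≤ B₁ :=
        single_le_sum (f := fun c =>
          |(t.h1 a c 0 : ℝ)| + |(t.h1 a c 1 : ℝ)| + |(t.h1 a c 2 : ℝ)|) (fun _ _ => by positivity)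
          (mem_range.2 ((Nat.floor_lt c2).2 (by exact_mod_cast c3)))
      have m0 := abs_nonneg (t.h1 a ⌊y⌋₊ 0 : ℝ)
      have m2 := abs_nonneg (t.h1 a ⌊y⌋₊ 2 : ℝ)
      obtain ⟨f0, f1⟩ := fr_mem c2
      refine ⟨(abs_add_three _ _ _).trans ?_, ?_, fun _ => ?_⟩
      · rw [abs_mul, abs_mul]
        have d1 := mul_le_of_le_one_right (abs_nonneg (t.h1 a ⌊y⌋₊ 1 : ℝ))
          (abs_le.2 ⟨by linarith [hs.1], by linarith [hs.2]⟩ : |s - a| ≤ 1)
        have d2 := mul_le_of_le_one_right m2 (abs_le.2 ⟨by linarith, f1⟩ : |fr y| ≤ 1)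
        linarith
      · rw [show ∀ A B C : ℝ, A + B * (s - a) + C - (A + B * (s' - a) + C) = B * (s - s') from
          fun A B C => by ring, abs_mul]
        gcongr
        linarith
      · simp only [Tab.mk1, Bool.or_eq_true, decide_eq_true_eq] at c1
        refine c1.imp (fun d => hs.2.trans (by exact_mod_cast d)) fun d => ?_
        have d1 : (2 : ℝ) * (⌊y⌋₊ + a + 2) ≤ 3 * t.Q := by exact_mod_cast d
        linarith [Nat.lt_floor_add_one y, hs.2]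
    · simp only [sub_zero, abs_zero, ne_eq, not_true_eq_false, false_imp_iff, and_true]
      exact ⟨by positivity, by positivity⟩

end Pool.Agent.Lib.MP_4b1228_nt.PP.R4
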