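import Pool.Agent.Lib.MP_4b1228_nt.PP.Eng
import Pool.Agent.Lib.MP_4b1228_nt.PP.Final2
import Pool.Agent.Lib.MP_4b1228_nt.PP.RowS
import Pool.Agent.Lib.MP_4b1228_nt.PP.RowQ
import Pool.Agent.Lib.MP_4b1228_nt.PP.Ex
import Pool.Agent.Lib.MP_4b1228_nt.PP.Big
import Pool.Agent.Lib.MP_4b1228_nt.PP.Edge
import Pool.Agent.Lib.MP_4b1228_nt.PP.Ha2
import Pool.Agent.Lib.MP_4b1228_nt.PP.HaF87
import Pool.Agent.Lib.MP_4b1228_nt.PP.Sv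
import Pool.Agent.Lib.MP_4b1228_nt.PP.LS
import Pool.Agent.Lib.MP_4b1228_nt.PP.R3E
import Pool.Agent.Lib.MP_4b1228_nt.PP.R3H
import Pool.Agent.Lib.MP_4b1228_nt.PP.R3P
import Pool.Agent.Lib.MP_4b1228_nt.PP.R3S
import Pool.Agent.Lib.MP_4b1228_nt.PP.R3T
import Pool.Agent.Lib.MP_4b1228_nt.PP.R4P

/-!
All rows, without hypotheses.
-/

namespace Pool.Agent.Lib.MP_4b1228_nt.PP.Asm

open Eng R3

theorem row : RowStmt := rowS i3'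
theorem gt1' : GT1Stmt := gt1 rhoS i1' i2' i3' t0'
theorem gt2' : GT2Stmt := gt2 rhoS geoS i1' i2' i3' t0'
theorem ex : ExStmt := exS rhoS i1' i3' (g0c rhoS pp' geoS) gt2'
theorem exs : ExSetStmt := exSet rhoS row ex
theorem big : BigStmt := bigS rs' i2' i3' t1' t0' sel'
theorem edg : EdgeStmt := edgeS rhoS rs' mert' i1' i2' i3' t0' row
theorem haf : HaFStmt := haF87 rhoS rs' mert' i1' i2' i3' t1' t2' t0'
theorem ha2f : Ha2FStmt := ha2F rhoS mert' row ex haf edg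
theorem ha2 : Ha2Stmt := ha2S rhoS mert' row ex haf edg
theorem rq : RowQStmt := rowQ row
theorem rE : EStmt := eS rhoS row ex
theorem rP : PStmt := pS row big
theorem rH : H2Stmt := h2S rhoS mert' row exs ha2

theorem rS2 {N : ℕ} {F f : ℕ → ℝ} (h : LS.LSStmt N F f) : S2Stmt N F f :=
  s2S row (tm2 rhoS) (sv rhoS mert' row exs h)

theorem rS {N : ℕ} {F f : ℕ → ℝ} (h : LS.LSStmt N F f) : SStmt N F f := sS (rS2 h)

theorem fin2 : Final2Stmt := final2 rhoS pp' mert' geoS i3' pack'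

theorem glob {θ : ℝ} (h1 : 1 ≤ θ) (h2 : θ ≤ 2) (h : Cert3 θ) : Glob θ := glob3 row θ h1 h2 h

/-- A certificate on configurations implies the theorem. -/
theorem main3 {θ : ℝ} (h1 : 1 ≤ θ) (h2 : θ ≤ 2) (h : Cert3 θ) : MainStmt θ :=
  fin2 θ h1 (glob h1 h2 h)

open R4 Finset in
/-- The row of a table. -/
theorem rowG (hE : MEStmt) (h0 : MS0Stmt) (h1 : MS1Stmt) (t : Tab) (n : Enc) (vH : ℕ → ℝ)
    {F f : ℕ → ℝ} (hs : LS.LSStmt t.N F f) (ht : t.Ok) (oL : n.OkL) (oF : n.OkF t.N F f)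
    (oW : n.OkW t) (oP : n.OkP t)
    (oH : ∀ a ∈ Ico t.a₀ t.a₁, LawH2 t.T a (a + 1) (t.ψ a) (t.W a) (vH a)) :
    RowQ t.Q t.G (((t.vE n 0 + t.vE n 1 + t.vE n 2 + t.vE n 3 + t.vS0 n + t.vS1 n + t.vP n : ℚ) : ℝ)
      + ∑ a ∈ Ico t.a₀ t.a₁, vH a) := by
  obtain ⟨-, r2, -, r4, -⟩ := rq t.Q (ht.1.trans ht.2.1)
  have := r2 _ _ _ _ (r2 _ _ _ _ (r2 _ _ _ _ (r2 _ _ _ _
    (r4 ℕ (range 4) _ _ fun k hk => hE t n k ht oL (mem_range.1 hk))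
    (h0 t n F f ht (rS hs) oF oW)) (h1 t n F f ht (rS hs) oL oF oW)) (mP rq t n ht oP))
    (mH rq rH t vH ht oH)
  simp only [sum_range_succ (fun k => ((t.vE n k : ℚ) : ℝ)), range_zero, sum_empty, zero_add] at this
  push_cast
  exact this

open R4 Finset in
/-- A checked table is a certificate. -/
theorem cert4 (hP : PtStmt) (hE : MEStmt) (h0 : MS0Stmt) (h1 : MS1Stmt) (t : Tab) (n : Enc)
    (vH : ℕ → ℝ) (b : ℤ) {θ : ℝ} {F f : ℕ → ℝ} (hs : LS.LSStmt t.N F f) (ht : t.Ok)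
    (hb : t.Lat b) (oL : n.OkL) (oF : n.OkF t.N F f) (oW : n.OkW t) (oP : n.OkP t)
    (oH : ∀ a ∈ Ico t.a₀ t.a₁, LawH2 t.T a (a + 1) (t.ψ a) (t.W a) (vH a))
    (hv : (b : ℝ) < 60 * (((t.vE n 0 + t.vE n 1 + t.vE n 2 + t.vE n 3 + t.vS0 n + t.vS1 n +
      t.vP n : ℚ) : ℝ) + ∑ a ∈ Ico t.a₀ t.a₁, vH a)) (hθ : θ * t.Q < t.Θ) : Cert3 θ :=
  hP t b _ θ ht hb (rowG hE h0 h1 t n vH hs ht oL oF oW oP oH) hv hθ

end Pool.Agent.Lib.MP_4b1228_nt.PP.Asm
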