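import Pool.Agent.Lib.MP_4b1228_nt.PP.K2

/-! A bound for the convolution powers of the tent kernel without logarithmic loss. -/

open Real Filter UpperHalfPlane MeasureTheory Topology
open scoped MatrixGroups NNReal ENNReal

noncomputable section

namespace Pool.Agent.Lib.MP_4b1228_nt.PP

namespace K2s

open K2

/-- the eigenvalue -/
def lam3 (ρ : ℝ) : ℝ := ∫ v : ℍ, tent ρ (dist I v) * v.im ^ (3 / 4 : ℝ)

theorem lam3_nonneg (ρ : ℝ) : 0 ≤ lam3 ρ :=
  integral_nonneg fun v => mul_nonneg (tent_nonneg _ _) (rpow_nonneg v.im_pos.le _)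

theorem cont_im : Continuous fun v : ℍ => v.im ^ (3 / 4 : ℝ) :=
  continuous_im.rpow_const fun _ => Or.inr (by norm_num)

theorem lam3_le {ρ : ℝ} (hρ : 0 ≤ ρ) : lam3 ρ ≤ 8 * √(2 * exp ρ) * exp ρ ^ (1 / 4 : ℝ) := by
  set c := 2 * exp ρ with hc
  have hc0 : 0 < c := by positivity
  let A : Set (ℝ × ℝ) := {p | p.2 ∈ Set.Icc (exp (-ρ)) (exp ρ) ∧ |p.1| ≤ √(c * p.2)}
  have hA : MeasurableSet A :=
    (measurableSet_Icc.preimage measurable_snd).inter
      (measurableSet_le (f := fun p : ℝ × ℝ => |p.1|) (g := fun p : ℝ × ℝ => √(c * p.2))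
        (by fun_prop) (by fun_prop))
  let G : ℝ × ℝ → ℝ≥0∞ := A.indicator fun p => ENNReal.ofReal (p.2 ^ (3 / 4 : ℝ))
  have hG : Measurable G := Measurable.indicator (by fun_prop) hA
  have h1 : ∫⁻ v : ℍ, ENNReal.ofReal (tent ρ (dist I v) * v.im ^ (3 / 4 : ℝ)) ≤
      ∫⁻ v : ℍ, G (v.re, v.im) := by
    refine lintegral_mono fun v => ?_
    by_cases h : dist I v ≤ ρ
    · have hv : (v.re, v.im) ∈ A := box h
      simp only [G, Set.indicator_of_mem hv]
      exact ENNReal.ofReal_le_ofReal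
        (mul_le_of_le_one_left (rpow_nonneg v.im_pos.le _) (tent_le_one _ _))
    · simp [tent_zero (not_le.1 h).le]
  have h2 : ∀ y : ℝ, ∫⁻ x : ℝ, ENNReal.ofReal (1 / y ^ 2) * G (x, y) ≤
      (Set.Icc (exp (-ρ)) (exp ρ)).indicator
        (fun y => ENNReal.ofReal (2 * √c * y ^ (-(3 / 4) : ℝ))) y := by
    intro y
    by_cases hy : y ∈ Set.Icc (exp (-ρ)) (exp ρ)
    · have hy0 : 0 < y := (exp_pos _).trans_le hy.1
      have e : ∀ x : ℝ, ENNReal.ofReal (1 / y ^ 2) * G (x, y) =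
          (Set.Icc (-√(c * y)) √(c * y)).indicator
            (fun _ => ENNReal.ofReal (1 / y ^ 2 * y ^ (3 / 4 : ℝ))) x := by
        intro x
        by_cases hx : x ∈ Set.Icc (-√(c * y)) √(c * y)
        · have hv : (x, y) ∈ A := ⟨hy, abs_le.2 hx⟩
          simp only [G, Set.indicator_of_mem hv, Set.indicator_of_mem hx]
          rw [ENNReal.ofReal_mul (by positivity)]
        · have hv : (x, y) ∉ A := fun h => hx (abs_le.1 h.2)
          simp only [G, Set.indicator_of_notMem hv, Set.indicator_of_notMem hx, mul_zero]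
      simp only [e]
      rw [lintegral_indicator_const measurableSet_Icc, Real.volume_Icc, Set.indicator_of_mem hy,
        ← ENNReal.ofReal_mul (by positivity)]
      refine ENNReal.ofReal_le_ofReal (le_of_eq ?_)
      rw [sqrt_mul hc0.le, sqrt_eq_rpow y]
      have e3 : y ^ (3 / 4 : ℝ) * y ^ (1 / 2 : ℝ) = y ^ (-(3 / 4) : ℝ) * y ^ 2 := by
        rw [← rpow_natCast, ← rpow_add hy0, ← rpow_add hy0]
        norm_num
      have e2 : 1 / y ^ 2 * y ^ (3 / 4 : ℝ) * (√c * y ^ (1 / 2 : ℝ) - -(√c * y ^ (1 / 2 : ℝ))) =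
          2 * √c * (y ^ (3 / 4 : ℝ) * y ^ (1 / 2 : ℝ)) / y ^ 2 := by ring
      rw [e2, e3]
      field_simp
    · have e : ∀ x : ℝ, G (x, y) = 0 := fun x => Set.indicator_of_notMem (fun h => hy h.1) _
      simp [e]
  have hab : exp (-ρ) ≤ exp ρ := exp_le_exp.2 (by linarith)
  have h3 : ∫⁻ y in Set.Icc (exp (-ρ)) (exp ρ), ENNReal.ofReal (2 * √c * y ^ (-(3 / 4) : ℝ)) ≤
      ENNReal.ofReal (8 * √c * exp ρ ^ (1 / 4 : ℝ)) := by
    rw [← ofReal_integral_eq_lintegral_ofReal]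
    · rw [integral_Icc_eq_integral_Ioc, ← intervalIntegral.integral_of_le hab,
        intervalIntegral.integral_const_mul, integral_rpow (Or.inl (by norm_num))]
      refine ENNReal.ofReal_le_ofReal ?_
      rw [show (-(3 / 4) + 1 : ℝ) = 1 / 4 by norm_num]
      have : 0 ≤ √c * exp (-ρ) ^ (1 / 4 : ℝ) := by positivity
      linarith
    · refine ContinuousOn.integrableOn_Icc (continuousOn_const.mul
        (continuousOn_id.rpow_const fun y hy => Or.inl ((exp_pos _).trans_le hy.1).ne'))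
    · refine (ae_restrict_iff' measurableSet_Icc).2 (Eventually.of_forall fun y hy => ?_)
      have := (exp_pos _).trans_le hy.1
      positivity
  rw [lam3, integral_eq_lintegral_of_nonneg_ae
    (Eventually.of_forall fun v => mul_nonneg (tent_nonneg _ _) (rpow_nonneg v.im_pos.le _))
    (Continuous.aestronglyMeasurable (Continuous.mul (by unfold tent; fun_prop) cont_im))]
  refine ENNReal.toReal_le_of_le_ofReal (by positivity) (le_trans ?_ h3)
  rw [← lintegral_indicator measurableSet_Icc]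
  exact h1.trans ((lint_le G hG).trans (lintegral_mono h2))

theorem lam3_le' {ρ : ℝ} (hρ : 0 ≤ ρ) : lam3 ρ ≤ 12 * exp ρ ^ (3 / 4 : ℝ) := by
  refine (lam3_le hρ).trans ?_
  have h1 : √(2 * exp ρ) ≤ 3 / 2 * exp ρ ^ (1 / 2 : ℝ) := by
    rw [← sqrt_eq_rpow]
    refine sqrt_le_iff.2 ⟨by positivity, ?_⟩
    rw [mul_pow, sq_sqrt (exp_pos _).le]
    nlinarith [exp_pos ρ]
  calc _ ≤ 8 * (3 / 2 * exp ρ ^ (1 / 2 : ℝ)) * exp ρ ^ (1 / 4 : ℝ) := by gcongr
    _ = 12 * (exp ρ ^ (1 / 2 : ℝ) * exp ρ ^ (1 / 4 : ℝ)) := by ring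
    _ = _ := by rw [← rpow_add (exp_pos _)]; norm_num

theorem eigen3 (ρ : ℝ) (z : ℍ) :
    ∫ v : ℍ, tent ρ (dist z v) * v.im ^ (3 / 4 : ℝ) = lam3 ρ * z.im ^ (3 / 4 : ℝ) := by
  rw [← K1.int_smul z.toSL2R, lam3, ← integral_mul_const]
  refine integral_congr_ae (Eventually.of_forall fun v => ?_)
  have e : dist z (z.toSL2R • v) = dist I v := by
    rw [← dist_smul z.toSL2R I v, toSL2R_smul_I]
  simp only
  rw [e, im_toSL2R, mul_rpow z.im_pos.le v.im_pos.le]
  ring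

theorem ker_le3 {R : ℝ} (hR : 0 ≤ R) : ∀ (j : ℕ) (z : ℍ),
    ker R j z I ≤ (12 * exp R ^ (3 / 4 : ℝ)) ^ (j + 1) * z.im ^ (3 / 4 : ℝ)
  | 0, z => by
    have hz := z.im_pos
    rw [zero_add, pow_one, mul_assoc, ← mul_rpow (exp_pos _).le hz.le]
    change tent R (dist z I) ≤ _
    by_cases h : dist I z ≤ R
    · have h1 := mul_le_mul_of_nonneg_left (box h).1.1 (exp_pos R).le
      rw [← exp_add, add_neg_cancel, exp_zero] at h1
      have h2 := one_le_rpow h1 (show (0 : ℝ) ≤ 3 / 4 by norm_num)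
      linarith [tent_le_one R (dist z I)]
    · rw [dist_comm, tent_zero (not_le.1 h).le]
      positivity
  | j + 1, z => by
    have hz := z.im_pos
    calc _ ≤ ∫ v : ℍ, (12 * exp R ^ (3 / 4 : ℝ)) ^ (j + 1) *
          (tent R (dist z v) * v.im ^ (3 / 4 : ℝ)) := by
          refine integral_mono (integ _ _ (cont R j)) ((integ _ z cont_im).const_mul _) fun v => ?_
          have := mul_le_mul_of_nonneg_left (ker_le3 hR j v) (tent_nonneg R (dist z v))
          simp only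
          linarith
      _ = (12 * exp R ^ (3 / 4 : ℝ)) ^ (j + 1) * (lam3 R * z.im ^ (3 / 4 : ℝ)) := by
          rw [integral_const_mul, eigen3]
      _ ≤ (12 * exp R ^ (3 / 4 : ℝ)) ^ (j + 1) *
          (12 * exp R ^ (3 / 4 : ℝ) * z.im ^ (3 / 4 : ℝ)) := by gcongr; exact lam3_le' hR
      _ = _ := by ring

theorem prof_le {R : ℝ} (hR : 0 ≤ R) {n : ℕ} (hn : 1 ≤ n) {r : ℝ} (hr : 0 ≤ r) :
    prof R n r ≤ 12 ^ n * (exp (n * R) / cosh r) ^ (3 / 4 : ℝ) := by
  obtain ⟨j, rfl⟩ : ∃ i, n = i + 1 := ⟨n - 1, by omega⟩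
  rw [prof_eq R j hr]
  refine (ker_le3 hR j _).trans ?_
  have h3 : (pt (-r)).im ≤ 1 / cosh r := by
    change exp (-r) ≤ _
    rw [exp_neg, ← one_div]
    refine one_div_le_one_div_of_le (cosh_pos r) ?_
    rw [← cosh_add_sinh]
    have := sinh_nonneg_iff.2 hr
    linarith
  have hc := cosh_pos r
  rw [div_eq_mul_one_div (exp _), mul_rpow (exp_pos _).le (by positivity), mul_pow, mul_assoc,
    exp_nat_mul, ← rpow_natCast (exp R), ← rpow_natCast (exp R ^ _), ← rpow_mul (exp_pos _).le,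
    ← rpow_mul (exp_pos _).le, mul_comm (3 / 4 : ℝ)]
  have := (pt (-r)).im_pos
  gcongr

/-- The weight of an integer. -/
theorem ww_le (G : GeoStmt) {X C : ℝ} {f : ℝ → ℝ} (hX : 0 < X) (hC : 0 ≤ C) (h0 : ∀ r, 0 ≤ f r)
    (h : ∀ r, 0 ≤ r → f r ≤ C * (X / cosh r) ^ (3 / 4 : ℝ)) (t : ℝ) :
    WW f t ≤ 32 * C * (X / √(t ^ 2 + 1)) ^ (3 / 4 : ℝ) := by
  set a := √(t ^ 2 + 1) with ha
  have a0 : 0 < a := sqrt_pos.2 (by positivity)
  have a1 : a ^ 2 = t ^ 2 + 1 := sq_sqrt (by positivity)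
  have key : ∀ s : ℝ, f (hd t 1 (exp s)) ≤
      8 * C * (X / a) ^ (3 / 4 : ℝ) * (1 + (s - log a) ^ 2)⁻¹ := by
    intro s
    obtain ⟨g0, g1, -⟩ := G.1 t 1 (exp s) one_pos (exp_pos s)
    refine (h _ g0).trans ?_
    set u := s - log a with hu
    have e1 : exp s = a * exp u := by rw [hu, exp_sub, exp_log a0]; field_simp
    have e2 : cosh (hd t 1 (exp s)) = a * cosh u := by
      rw [g1, one_pow, ← a1, e1, cosh_eq, exp_neg]
      field_simp
      ring
    have e3 : exp |u| / 2 ≤ cosh u := by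
      rw [← cosh_abs, cosh_eq]
      linarith [exp_pos (-|u|)]
    have e4 : X / (a * cosh u) ≤ X / a * 2 * (exp |u|)⁻¹ := by
      rw [show X / a * 2 * (exp |u|)⁻¹ = X / (a * (exp |u| / 2)) by field_simp]
      gcongr
    have e5 : (exp |u|)⁻¹ ^ (3 / 4 : ℝ) ≤ 4 * (1 + u ^ 2)⁻¹ := by
      rw [inv_rpow (exp_pos _).le, ← exp_mul, ← div_eq_mul_inv, inv_eq_one_div,
        div_le_div_iff₀ (exp_pos _) (by positivity)]
      have := quadratic_le_exp_of_nonneg (show 0 ≤ |u| * (3 / 4) by positivity)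
      have h2 : |u| ^ 2 = u ^ 2 := sq_abs u
      nlinarith [abs_nonneg u]
    have e6 : (2 : ℝ) ^ (3 / 4 : ℝ) ≤ 2 := by
      simpa using rpow_le_rpow_of_exponent_le (one_le_two (α := ℝ)) (show (3 / 4 : ℝ) ≤ 1 by norm_num)
    have hc := cosh_pos u
    rw [e2]
    calc _ ≤ C * (X / a * 2 * (exp |u|)⁻¹) ^ (3 / 4 : ℝ) := by gcongr
      _ = C * ((X / a) ^ (3 / 4 : ℝ) * 2 ^ (3 / 4 : ℝ) * (exp |u|)⁻¹ ^ (3 / 4 : ℝ)) := by
          rw [mul_rpow (by positivity) (by positivity), mul_rpow (by positivity) (by positivity)]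
      _ ≤ C * ((X / a) ^ (3 / 4 : ℝ) * 2 * (4 * (1 + u ^ 2)⁻¹)) := by gcongr
      _ = _ := by ring
  refine (integral_mono_of_nonneg (Eventually.of_forall fun s => h0 _)
    ((integrable_inv_one_add_sq.comp_sub_right (log a)).const_mul _)
    (Eventually.of_forall key)).trans ?_
  rw [integral_const_mul, integral_sub_right_eq_self (fun x : ℝ => (1 + x ^ 2)⁻¹),
    integral_univ_inv_one_add_sq]
  have : 0 ≤ C * (X / a) ^ (3 / 4 : ℝ) := by positivity
  nlinarith [pi_le_four]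

end K2s

end Pool.Agent.Lib.MP_4b1228_nt.PP
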