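import Pool.Agent.Lib.MP_4b1228_nt.PP.St

/-! The properties of the kernel that are used on the arithmetic side. -/

open Finset Real Filter UpperHalfPlane MeasureTheory
open scoped MatrixGroups Classical

noncomputable section

namespace Pool.Agent.Lib.MP_4b1228_nt.PP

namespace Pack

theorem adm_mono {X Λ Λ' : ℝ} {f : ℝ → ℝ} (h : Adm X Λ f) (le : Λ ≤ Λ') : Adm X Λ' f :=
  ⟨h.nonneg, h.supp, fun r hr => (h.bd r hr).trans (by gcongr),
    fun r r' a b d => (h.lip r r' a b d).trans (by gcongr)⟩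

theorem e1_mono {X η δ δ' : ℝ} {f : ℝ → ℝ} (h : E1 X η δ f) (hX : 1 ≤ X) (le : δ' ≤ δ) :
    E1 X η δ' f := fun Y a b =>
  (h Y a b).trans (rpow_le_rpow_of_exponent_le hX (by linarith))

theorem e2_mono {X η δ δ' : ℝ} {f : ℝ → ℝ} (h : E2 X η δ f) (hX : 1 ≤ X) (le : δ' ≤ δ) :
    E2 X η δ' f := fun N J Y a b d e =>
  (h N J Y a b d e).trans (mul_le_mul_of_nonneg_left
    (rpow_le_rpow_of_exponent_le hX (by linarith)) (sq_nonneg _))

theorem mu_le (geo : GeoStmt) (i2 : I2Stmt) {X Λ Y : ℝ} {f : ℝ → ℝ} (hX : 3 ≤ X) (h : Adm X Λ f)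
    (hY : 0 < Y) : 4 * mu X f Y ≤ ∑' γ : SL(2, ℤ), f (dist (ipt Y) (γ • I)) := by
  obtain ⟨-, -, -, -, -, g6, g7, g8, g9⟩ := geo
  obtain ⟨_, -, i2⟩ := i2
  have a := ((i2 X hX).2.2.2 Λ f h).2.1 Y
  have b : ∀ (k : ℕ) (l : ℤ), (if k ≠ 0 ∧ Even l then f (hd (l / k) (1 / k) Y) else 0) ≠ 0 →
      |(l : ℝ)| ≤ X ∧ k * Y ≤ 2 * X := fun k l p => by
    rw [ite_ne_right_iff] at p
    have := (a k hY (Nat.pos_of_ne_zero p.1.1)).2.2.2.2 l p.2
    exact ⟨this.1, this.2.1⟩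
  obtain ⟨s, e⟩ := g9 (KM X Y) (fun k l => if k ≠ 0 ∧ Even l then f (hd (l / k) (1 / k) Y) else 0)
    (fun k l p => Nat.le_floor ((le_div_iff₀ hY).2 (b k l p).2))
    fun k => (Set.finite_Icc (-⌈X⌉) ⌈X⌉).subset fun l p => by
      have := (b k l p).1.trans (Int.le_ceil X)
      exact abs_le.1 (by exact_mod_cast this)
  have m : mu X f Y = ∑ k ∈ (Icc 1 (KM X Y) : Finset ℕ), ∑' l : ℤ, if (k : ℤ) ∣ l ^ 2 + 1 then
      (if k ≠ 0 ∧ Even l then f (hd (l / k) (1 / k) Y) else 0) else 0 :=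
    sum_congr rfl fun k hk => tsum_congr fun l => by
      have : k ≠ 0 := Nat.pos_iff_ne_zero.1 (mem_Icc.1 hk).1
      by_cases p : Even l <;> by_cases q : (k : ℤ) ∣ l ^ 2 + 1 <;> simp [p, q, this]
  rw [m, ← e]
  refine Summable.tsum_le_tsum (fun γ => ?_) (summable_of_hasFiniteSupport s)
    (summable_of_hasFiniteSupport ((g8 (ipt Y) I (log X)).subset fun γ p =>
      not_lt.1 fun q => p (h.supp _ q)))
  rw [(g6 Y γ hY).1]
  split_ifs
  exacts [le_rfl, h.nonneg _]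

end Pack

open Pack in
theorem pack (geo : GeoStmt) (k2 : K2Stmt) (k3 : K3Stmt) (k9 : K9Stmt) (k10 : K10Stmt)
    (i2 : I2Stmt) : PackStmt := by
  obtain ⟨C, hC, k2⟩ := k2
  obtain ⟨c, C₀, hc, hC₀, k3⟩ := k3
  refine ⟨C₀, hC₀, fun η hη => ?_⟩
  obtain ⟨n₁, k9⟩ := k9 η hη
  obtain ⟨n₂, k10⟩ := k10 η hη
  obtain ⟨δ₁, d1, k9⟩ := k9 (n₁ + n₂ + 1) (by omega)
  obtain ⟨δ₂, d2, k10⟩ := k10 (n₁ + n₂ + 1) (by omega)
  have hn : 1 ≤ n₁ + n₂ + 1 := by omega
  generalize n₁ + n₂ + 1 = n at k9 k10 hn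
  have n1 : (1 : ℝ) ≤ n := by exact_mod_cast hn
  refine ⟨n + 2, min δ₁ δ₂, c ^ n, lt_min d1 d2, by positivity, ?_⟩
  filter_upwards [k9, k10, eventually_ge_atTop 3,
    tendsto_log_atTop.eventually_ge_atTop (2 * n), tendsto_log_atTop.eventually_ge_atTop (2 * C ^ n)]
    with X e1 e2 hX l1 l2
  have l0 : 0 < log X := by linarith
  have hR : 2 ≤ log X / n := (le_div_iff₀ (by linarith)).2 l1
  have e : n * (log X / n) = log X := by field_simp
  have a := k2 _ n hR hn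
  obtain ⟨b1, b2⟩ := k3 _ n hR hn
  rw [e, exp_log (by linarith)] at a
  rw [mul_pow, ← exp_nat_mul, e, exp_log (by linarith)] at b1
  refine ⟨_, adm_mono a ?_, e1_mono e1 (by linarith) (min_le_left _ _),
    e2_mono e2 (by linarith) (min_le_right _ _), b1, fun Y hY => ?_⟩
  · have : (C * (log X / n)) ^ n ≤ C ^ n * log X ^ n := by
      rw [← mul_pow]
      gcongr
      exact div_le_self (by linarith) n1
    calc _ ≤ C ^ n * log X ^ n * (2 * log X) := by gcongr; linarith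
      _ = 2 * C ^ n * log X ^ (n + 1) := by ring
      _ ≤ log X * log X ^ (n + 1) := by gcongr
      _ = _ := by ring
  · have := (mu_le geo i2 hX a hY).trans (b2 _)
    have : 0 ≤ C₀ * Itot (prof (log X / n) n) := mul_nonneg hC₀.le (le_trans (by positivity) b1)
    linarith

end Pool.Agent.Lib.MP_4b1228_nt.PP
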