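import Pool.Agent.Lib.MP_4b1228_nt.PP.St2
import Pool.Agent.Lib.MP_4b1228_nt.PP.K2s
import Pool.Agent.Lib.MP_4b1228_nt.PP.Pack

/-!
From weighted mass to a positive proportion.
-/

open Finset Real Filter UpperHalfPlane MeasureTheory
open scoped MatrixGroups Classical

noncomputable section

namespace Pool.Agent.Lib.MP_4b1228_nt.PP

/-- The integers `l = ± 2 q n` for which `l ^ 2 + 1` has a prime factor beyond `X ^ θ`. -/
def GS (X θ : ℝ) : Finset ℤ :=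
  {l ∈ (Icc (-⌈X⌉) ⌈X⌉ : Finset ℤ) | (∃ q n : ℕ, q.Prime ∧ 1 < n ∧ l.natAbs = 2 * q * n) ∧
    ∃ p : ℕ, p.Prime ∧ (p : ℤ) ∣ l ^ 2 + 1 ∧ X ^ θ < p}

/-- These integers carry a positive share of the weight. -/
def Mass0 (θ : ℝ) : Prop :=
  ∀ C₀ : ℝ, 0 < C₀ → ∃ β η : ℝ, 0 < β ∧ 0 < η ∧ ∀ (A : ℕ) (δ c : ℝ), 0 < δ → 0 < c →
    ∀ᶠ X : ℝ in atTop, ∀ f : ℝ → ℝ, Good X A η δ c C₀ f → β * Itot f ≤ ∑ l ∈ GS X θ, WW f l

/-- A positive proportion. -/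
def DensStmt (θ : ℝ) : Prop :=
  ∃ c : ℝ, 0 < c ∧ ∀ᶠ N : ℕ in atTop, c * N ≤
    #{m ∈ (Icc 1 N : Finset ℕ) | (∃ q n : ℕ, q.Prime ∧ 1 < n ∧ m = 2 * q * n) ∧
      ∃ p : ℕ, p.Prime ∧ p ∣ m ^ 2 + 1 ∧ (N : ℝ) ^ θ < p}

/-- The kernel, with a bound for the weights without logarithmic loss. -/
def PackSStmt : Prop :=
  ∃ C₀ : ℝ, 0 < C₀ ∧ ∀ η : ℝ, 0 < η → ∃ (A : ℕ) (δ c C₁ : ℝ), 0 < δ ∧ 0 < c ∧ 0 < C₁ ∧
    ∀ᶠ X : ℝ in atTop, ∃ f : ℝ → ℝ, Good X A η δ c C₀ f ∧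
      ∀ t : ℝ, WW f t ≤ C₁ * (X / √(t ^ 2 + 1)) ^ (3 / 4 : ℝ)

open Pack in
theorem packS (geo : GeoStmt) (k2 : K2Stmt) (k3 : K3Stmt) (k9 : K9Stmt) (k10 : K10Stmt)
    (i2 : I2Stmt) : PackSStmt := by
  obtain ⟨C, hC, k2⟩ := k2
  obtain ⟨c, C₀, hc, hC₀, k3⟩ := k3
  refine ⟨C₀, hC₀, fun η hη => ?_⟩
  obtain ⟨n₁, k9⟩ := k9 η hη
  obtain ⟨n₂, k10⟩ := k10 η hη
  obtain ⟨δ₁, d1, k9⟩ := k9 (n₁ + n₂ + 1) (by omega)
  obtain ⟨δ₂, d2, k10⟩ := k10 (n₁ + n₂ + 1) (by omega)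
  have hn : 1 ≤ n₁ + n₂ + 1 := by omega
  generalize n₁ + n₂ + 1 = n at k9 k10 hn
  have n1 : (1 : ℝ) ≤ n := by exact_mod_cast hn
  refine ⟨n + 2, min δ₁ δ₂, c ^ n, 32 * 12 ^ n, lt_min d1 d2, by positivity, by positivity, ?_⟩
  filter_upwards [k9, k10, eventually_ge_atTop 3,
    tendsto_log_atTop.eventually_ge_atTop (2 * n), tendsto_log_atTop.eventually_ge_atTop (2 * C ^ n)]
    with X e1 e2 hX l1 l2
  have l0 : 0 < log X := by linarith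
  have hR : 2 ≤ log X / n := (le_div_iff₀ (by linarith)).2 l1
  have e : n * (log X / n) = log X := by field_simp
  have a := k2 _ n hR hn
  obtain ⟨b1, b2⟩ := k3 _ n hR hn
  rw [e, exp_log (by linarith)] at a
  rw [mul_pow, ← exp_nat_mul, e, exp_log (by linarith)] at b1
  refine ⟨_, ⟨adm_mono a ?_, e1_mono e1 (by linarith) (min_le_left _ _),
    e2_mono e2 (by linarith) (min_le_right _ _), b1, fun Y hY => ?_⟩,
    K2s.ww_le geo (by linarith) (by positivity) a.nonneg fun r hr => ?_⟩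
  · have : (C * (log X / n)) ^ n ≤ C ^ n * log X ^ n := by
      rw [← mul_pow]
      gcongr
      exact div_le_self (by linarith) n1
    calc _ ≤ C ^ n * log X ^ n * (2 * log X) := by gcongr; linarith
      _ = 2 * C ^ n * log X ^ (n + 1) := by ring
      _ ≤ log X * log X ^ (n + 1) := by gcongr
      _ = _ := by ring
  · have := (mu_le geo i2 hX a hY).trans (b2 _)
    have : 0 ≤ C₀ * Itot (prof (log X / n) n) := mul_nonneg hC₀.le (le_trans (by positivity) b1)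
    linarith
  · have := K2s.prof_le (R := log X / n) (by linarith) hn hr
    rwa [e, exp_log (by linarith)] at this

namespace Dens

theorem step {k : ℝ} (hk : 0 ≤ k) :
    (k + 1) ^ (-(3 / 4) : ℝ) ≤ 4 * ((k + 1) ^ (1 / 4 : ℝ) - k ^ (1 / 4 : ℝ)) := by
  have h1 : 0 < k + 1 := by linarith
  set a := (k + 1) ^ (1 / 4 : ℝ) with ha
  set b := k ^ (1 / 4 : ℝ) with hb
  have a0 : 0 < a := by positivity
  have b0 : 0 ≤ b := by positivity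
  have ab : b ≤ a := rpow_le_rpow hk (by linarith) (by norm_num)
  have a4 : a ^ 4 = k + 1 := by rw [ha, ← rpow_natCast, ← rpow_mul h1.le]; norm_num
  have b4 : b ^ 4 = k := by rw [hb, ← rpow_natCast, ← rpow_mul hk]; norm_num
  have e : (k + 1) ^ (-(3 / 4) : ℝ) = 1 / a ^ 3 := by
    rw [ha, ← rpow_natCast, ← rpow_mul h1.le, rpow_neg h1.le, one_div]; norm_num
  rw [e, div_le_iff₀ (by positivity)]
  have h2 : a ^ 3 + a ^ 2 * b + a * b ^ 2 + b ^ 3 ≤ a ^ 3 + a ^ 2 * a + a * a ^ 2 + a ^ 3 := by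
    gcongr
  nlinarith [mul_le_mul_of_nonneg_left h2 (sub_nonneg.2 ab)]

theorem sum_Icc (L : ℕ) :
    ∑ m ∈ (Icc 1 L : Finset ℕ), (m : ℝ) ^ (-(3 / 4) : ℝ) ≤ 4 * (L : ℝ) ^ (1 / 4 : ℝ) := by
  induction L with
  | zero => simp
  | succ L ih =>
    rw [sum_Icc_succ_top (by omega)]
    push_cast
    linarith [step (Nat.cast_nonneg (α := ℝ) L)]

theorem sum_set (M : Finset ℕ) (h : ∀ m ∈ M, 1 ≤ m) :
    ∑ m ∈ M, (m : ℝ) ^ (-(3 / 4) : ℝ) ≤ 5 * (#M : ℝ) ^ (1 / 4 : ℝ) := by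
  rcases M.eq_empty_or_nonempty with rfl | hM
  · simp
  have h0 : (0 : ℝ) < #M := by exact_mod_cast hM.card_pos
  rw [← sum_filter_add_sum_filter_not M fun m => m ≤ #M]
  have h1 : ∑ m ∈ M with m ≤ #M, (m : ℝ) ^ (-(3 / 4) : ℝ) ≤ 4 * (#M : ℝ) ^ (1 / 4 : ℝ) :=
    (sum_le_sum_of_subset_of_nonneg (fun m hm => mem_Icc.2
      ⟨h m (mem_filter.1 hm).1, (mem_filter.1 hm).2⟩) fun _ _ _ => by positivity).trans (sum_Icc _)
  have h2 : ∑ m ∈ M with ¬ m ≤ #M, (m : ℝ) ^ (-(3 / 4) : ℝ) ≤ (#M : ℝ) ^ (1 / 4 : ℝ) := by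
    refine (sum_le_card_nsmul _ _ ((#M : ℝ) ^ (-(3 / 4) : ℝ)) fun m hm => ?_).trans ?_
    · exact rpow_le_rpow_of_nonpos h0 (by exact_mod_cast (not_le.1 (mem_filter.1 hm).2).le)
        (by norm_num)
    · rw [nsmul_eq_mul]
      calc _ ≤ (#M : ℝ) * (#M : ℝ) ^ (-(3 / 4) : ℝ) := by gcongr; exact filter_subset _ _
        _ = _ := by
          rw [show (1 / 4 : ℝ) = 1 + -(3 / 4) by norm_num, rpow_add h0, rpow_one]
  linarith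

end Dens

theorem dens (hP : PackSStmt) {θ : ℝ} (h : Mass0 θ) : DensStmt θ := by
  obtain ⟨C₀, hC₀, hP⟩ := hP
  obtain ⟨β, η, hβ, hη, h⟩ := h C₀ hC₀
  obtain ⟨A, δ, c, C₁, hδ, hc, hC₁, hP⟩ := hP η hη
  refine ⟨(β * c / (10 * C₁)) ^ 4, by positivity, ?_⟩
  filter_upwards [tendsto_natCast_atTop_atTop (R := ℝ).eventually (hP.and (h A δ c hδ hc)),
    eventually_gt_atTop 0] with N ⟨⟨f, hf, hW⟩, h⟩ hN
  have hN' : (0 : ℝ) < N := by exact_mod_cast hN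
  set M := {m ∈ (Icc 1 N : Finset ℕ) | (∃ q n : ℕ, q.Prime ∧ 1 < n ∧ m = 2 * q * n) ∧
      ∃ p : ℕ, p.Prime ∧ p ∣ m ^ 2 + 1 ∧ (N : ℝ) ^ θ < p} with hM
  have h1 : ∀ l ∈ GS N θ, l.natAbs ∈ M := by
    intro l hl
    obtain ⟨a, ⟨q, n, hq, hn, e⟩, p, hp, hd, hlt⟩ := mem_filter.1 hl
    rw [Int.ceil_natCast, mem_Icc] at a
    refine mem_filter.2 ⟨mem_Icc.2 ⟨?_, by omega⟩, ⟨q, n, hq, hn, e⟩, p, hp, ?_, hlt⟩
    · rw [e]
      exact Nat.mul_pos (Nat.mul_pos two_pos hq.pos) (by omega)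
    · have : ((l.natAbs ^ 2 + 1 : ℕ) : ℤ) = l ^ 2 + 1 := by push_cast; rw [sq_abs]
      rw [← this] at hd
      exact_mod_cast hd
  have hM1 : ∀ m ∈ M, 1 ≤ m := fun m hm => (mem_Icc.1 (mem_filter.1 hm).1).1
  have h2 : ∑ l ∈ GS N θ, WW f l ≤
      ∑ m ∈ M, 2 * (C₁ * (N : ℝ) ^ (3 / 4 : ℝ) * (m : ℝ) ^ (-(3 / 4) : ℝ)) := by
    rw [← sum_fiberwise_of_maps_to h1]
    refine sum_le_sum fun m hm => ?_
    have m0 : (0 : ℝ) < m := by exact_mod_cast hM1 m hm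
    refine (sum_le_card_nsmul _ (fun l : ℤ => WW f l)
      (C₁ * (N : ℝ) ^ (3 / 4 : ℝ) * (m : ℝ) ^ (-(3 / 4) : ℝ))
      fun l hl => (hW l).trans ?_).trans ?_
    · have e : (m : ℝ) ≤ √((l : ℝ) ^ 2 + 1) := by
        refine le_sqrt_of_sq_le ?_
        rw [← (mem_filter.1 hl).2, Nat.cast_natAbs, Int.cast_abs, sq_abs]
        linarith
      rw [mul_assoc, rpow_neg m0.le, ← div_eq_mul_inv, ← div_rpow hN'.le m0.le]
      gcongr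
    · rw [nsmul_eq_mul]
      gcongr
      have : {l ∈ GS N θ | l.natAbs = m} ⊆ {(m : ℤ), -(m : ℤ)} := fun l hl => by
        have := (mem_filter.1 hl).2
        simp only [mem_insert, mem_singleton]
        omega
      exact_mod_cast (card_le_card this).trans card_le_two
  rw [← mul_sum, ← mul_sum] at h2
  have h3 := Dens.sum_set M hM1
  have h4 : β * (c * N) ≤ 2 * (C₁ * (N : ℝ) ^ (3 / 4 : ℝ) * (5 * (#M : ℝ) ^ (1 / 4 : ℝ))) :=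
    (mul_le_mul_of_nonneg_left hf.low hβ.le).trans ((h f hf).trans (h2.trans (by gcongr)))
  have e : (N : ℝ) = (N : ℝ) ^ (3 / 4 : ℝ) * (N : ℝ) ^ (1 / 4 : ℝ) := by
    rw [← rpow_add hN']; norm_num
  have h5 : β * c / (10 * C₁) * (N : ℝ) ^ (1 / 4 : ℝ) ≤ (#M : ℝ) ^ (1 / 4 : ℝ) := by
    rw [div_mul_eq_mul_div, div_le_iff₀ (by positivity)]
    refine le_of_mul_le_mul_left ?_ (show 0 < (N : ℝ) ^ (3 / 4 : ℝ) by positivity)
    nth_rewrite 1 [e] at h4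
    linarith
  have h6 := pow_le_pow_left₀ (by positivity) h5 4
  rw [mul_pow, ← rpow_natCast ((N : ℝ) ^ _), ← rpow_natCast ((#M : ℝ) ^ _), ← rpow_mul hN'.le,
    ← rpow_mul (Nat.cast_nonneg _)] at h6
  norm_num at h6 ⊢
  exact h6

/-- Outside the set, all prime factors are small. -/
theorem not_GS {X θ : ℝ} {l : ℤ} (h1 : l ∈ (Icc (-⌈X⌉) ⌈X⌉ : Finset ℤ)) (h2 : (2 : ℤ) ∣ l)
    (h4 : 4 ≤ |(l : ℝ)|) (hp : ¬ (l.natAbs / 2).Prime) (h : l ∉ GS X θ) :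
    ∀ p : ℕ, p.Prime → (p : ℤ) ∣ l ^ 2 + 1 → (p : ℝ) ≤ X ^ θ := by
  intro p hp1 hp2
  have e : |(l : ℝ)| = (l.natAbs : ℝ) := by rw [Nat.cast_natAbs, Int.cast_abs]
  rw [e] at h4
  have hl' : 4 ≤ l.natAbs := by exact_mod_cast h4
  by_contra hlt
  have h3 : l.natAbs = 2 * (l.natAbs / 2) := by omega
  obtain ⟨q, hq, n, hn⟩ := Nat.exists_prime_and_dvd (show l.natAbs / 2 ≠ 1 by omega)
  have h5 : 1 < n := by
    rcases n with _ | _ | n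
    · omega
    · rw [zero_add, mul_one] at hn
      exact absurd (hn ▸ hq) hp
    · omega
  exact h (mem_filter.2 ⟨h1, ⟨q, n, hq, h5, by rw [mul_assoc, ← hn, ← h3]⟩, p, hp1, hp2,
    not_le.1 hlt⟩)

end Pool.Agent.Lib.MP_4b1228_nt.PP
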