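import Pool.Agent.Lib.MP_4b1228_nt.PP.Final2

/-!
The weight of the integers `l = ± 2 q n` for which `l ^ 2 + 1` has a large prime factor.
-/

open Finset Real Filter MeasureTheory Topology
open scoped Classical

noncomputable section

namespace Pool.Agent.Lib.MP_4b1228_nt.PP

/-- `l = ± 2 q n` and `l ^ 2 + 1` has a prime factor larger than `X ^ θ`. -/
def Big (X θ : ℝ) (l : ℤ) : Prop :=
  (∃ q n : ℕ, q.Prime ∧ 1 < n ∧ l.natAbs = 2 * q * n) ∧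
    ∃ p : ℕ, p.Prime ∧ (p : ℤ) ∣ l ^ 2 + 1 ∧ X ^ θ < p

/-- These integers carry a positive proportion of the weight. -/
def MassStmt (θ : ℝ) : Prop :=
  ∃ β : ℝ, 0 < β ∧ ∀ C₀ : ℝ, 0 < C₀ → ∃ η₀ : ℝ, 0 < η₀ ∧ ∀ (A : ℕ) (η δ c : ℝ), 0 < η → η ≤ η₀ →
    0 < δ → 0 < c → ∀ᶠ X : ℝ in atTop, ∀ f : ℝ → ℝ, Good X A η δ c C₀ f →
      β * Itot f ≤ ∑ l ∈ (Icc (-⌈X⌉) ⌈X⌉ : Finset ℤ) with Big X θ l, WW f l

namespace Fz

theorem fac2 {X ϖ : ℝ} {l : ℤ} (h2 : (2 : ℤ) ∣ l) (hl : 4 ≤ |(l : ℝ)|)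
    (hp : ¬ (l.natAbs / 2).Prime) (hb : ¬ Big X ϖ l) (p : ℕ) (hp1 : p.Prime)
    (hp2 : (p : ℤ) ∣ l ^ 2 + 1) : (p : ℝ) ≤ X ^ ϖ := by
  have e : |(l : ℝ)| = (l.natAbs : ℝ) := by rw [Nat.cast_natAbs, Int.cast_abs]
  rw [e] at hl
  have hl' : 4 ≤ l.natAbs := by exact_mod_cast hl
  by_contra hlt
  have h3 : l.natAbs = 2 * (l.natAbs / 2) := by omega
  obtain ⟨q, hq, n, hn⟩ := Nat.exists_prime_and_dvd (show l.natAbs / 2 ≠ 1 by omega)
  have h4 : 1 < n := by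
    rcases n with _ | _ | n
    · omega
    · rw [zero_add, mul_one] at hn
      exact absurd (hn ▸ hq) hp
    · omega
  exact hb ⟨⟨q, n, hq, h4, by rw [mul_assoc, ← hn, ← h3]⟩, p, hp1, hp2, not_le.1 hlt⟩

theorem big_le {X ϖ L₀ : ℝ} {W : ℤ → ℝ} (hW : ∀ l, 0 ≤ W l) :
    (∑ l ∈ LL X L₀, if Big X ϖ l then W l else 0) ≤
      ∑ l ∈ (Icc (-⌈X⌉) ⌈X⌉ : Finset ℤ) with Big X ϖ l, W l := by
  rw [← sum_filter]
  exact sum_le_sum_of_subset_of_nonneg (filter_subset_filter _ (filter_subset _ _))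
    fun l _ _ => hW l

end Fz

open Fz in
theorem mass2 (hRho : RhoStmt) (hPP : PPStmt) (hM : MertStmt) (hG : GeoStmt) (hI3 : I3Stmt)
    {ϖ : ℝ} (h : Glob ϖ) : MassStmt ϖ := by
  obtain ⟨v, κ, C, hv, hκ, H⟩ := h
  obtain ⟨D, hD0, hCD⟩ : ∃ D : ℝ, 0 < D ∧ C ≤ D := ⟨|C| + 1, by positivity, by
    linarith [le_abs_self C]⟩
  obtain ⟨ε, hε, hε₀, T, hrow, hT⟩ := H (min (1 / 2) (v / (4 * D * (1 + 6 / κ))))
    (lt_min (by norm_num) (by positivity))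
  obtain ⟨hε1, hε2⟩ := le_min_iff.1 hε₀
  rw [le_div_iff₀ (by positivity)] at hε2
  refine ⟨v / (16 * D), by positivity, fun C₀ hC₀ => ?_⟩
  obtain ⟨η₀, hη₀, hrow⟩ := hrow C₀ (v / 2) hC₀ (half_pos hv)
  refine ⟨η₀, hη₀, fun A η δ c hη hη' hδ hc => ?_⟩
  obtain ⟨θ, hθ, hθ1, hθ2⟩ : ∃ θ : ℝ, 0 < θ ∧ θ ≤ 1 / 10 ∧ θ ≤ κ / 4 :=
    ⟨min (1 / 10) (κ / 4), lt_min (by norm_num) (by positivity), min_le_left _ _, min_le_right _ _⟩
  obtain ⟨C₃, -, HW⟩ := id hI3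
  filter_upwards [hT, hrow A η δ c hη hη' hδ hc, sml hI3 A hθ (by linarith),
    smS hRho hI3 A hθ (by linarith), ssum hRho hM hε, pp hPP hI3 A hθ hθ1,
    pr hPP hI3 A hθ (by linarith) hε, eventually_ge_atTop (3 : ℝ),
    (tendsto_rpow_atTop (show 0 < 1 - θ by linarith)).eventually_ge_atTop 4,
    (tendsto_log_atTop.const_mul_atTop (show 0 < v / 16 * c by positivity)).eventually_gt_atTop
      (D * (2 + 2 / κ))] with X hT q1 q2 q3 q4 q5 q6 h3 hM' hL f ⟨hf, hE1, hE2, hI, hmu⟩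
  have hX : 0 < X := by linarith
  have hl : 0 < log X := log_pos (by linarith)
  replace q1 := q1 f ⟨hf, hE1, hE2, hI, hmu⟩
  replace q2 := q2 f hf
  replace q3 := q3 f hf (SS X ε) _ (filter_subset _ _) (by nlinarith) q4
  replace q5 := q5 f hf
  replace q6 := q6 f hf
  obtain ⟨hW, -⟩ := HW X _ f h3 hf
  have hI0 := Itot_nonneg hf
  have hn : ∀ l : ℤ, (((l ^ 2 + 1).toNat : ℕ) : ℝ) = (l : ℝ) ^ 2 + 1 := fun l => by
    have : (((l ^ 2 + 1).toNat : ℕ) : ℤ) = l ^ 2 + 1 := Int.toNat_of_nonneg (by positivity)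
    exact_mod_cast this
  have hn1 : ∀ l : ℤ, 1 ≤ (l ^ 2 + 1).toNat := fun l => by
    have : (1 : ℝ) ≤ ((l ^ 2 + 1).toNat : ℕ) := by rw [hn]; nlinarith
    exact_mod_cast this
  have htriv : ∀ l : ℤ, WW f l * T X (l ^ 2 + 1).toNat ≤ D * WW f l := fun l => by
    by_cases h : X ^ 2 < (l : ℝ) ^ 2 + 1
    · simp [ww_supp hG hX hf h]
    · rw [mul_comm]
      exact mul_le_mul_of_nonneg_right
        ((hT _ (hn1 l) (by rw [hn]; exact not_lt.1 h)).1.trans hCD) (hW l).1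
  have e : EE X f (T X) = ∑ l ∈ LL X (X ^ (1 - θ)), WW f l * T X (l ^ 2 + 1).toNat +
      ∑ l ∈ (Icc (-⌈X⌉) ⌈X⌉ : Finset ℤ) with (2 : ℤ) ∣ l ∧ ¬ X ^ (1 - θ) ≤ |(l : ℝ)|,
        WW f l * T X (l ^ 2 + 1).toNat := by
    unfold EE LL
    rw [← filter_filter, ← filter_filter, sum_filter_add_sum_filter_not]
    simp only [even_iff_two_dvd]
  have q7 := sum_le_sum fun l (_ : l ∈ {l ∈ (Icc (-⌈X⌉) ⌈X⌉ : Finset ℤ) |
    (2 : ℤ) ∣ l ∧ ¬ X ^ (1 - θ) ≤ |(l : ℝ)|}) => htriv l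
  rw [← mul_sum] at q7
  rw [sum_filter] at q5 q6
  have q8 : ∑ l ∈ LL X (X ^ (1 - θ)), log X * (WW f l * T X (l ^ 2 + 1).toNat) ≤
      ∑ l ∈ LL X (X ^ (1 - θ)), (D * (2 / κ) * (WW f l *
        ∑ k ∈ SS X ε with ((k : ℕ) : ℤ) ∣ l ^ 2 + 1, ArithmeticFunction.vonMangoldt k) +
        (D * log X * if Bad X l then WW f l else 0) +
        (D * log X * if (l.natAbs / 2).Prime then WW f l else 0) +
        (D * log X * if Big X ϖ l then WW f l else 0)) := by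
    refine sum_le_sum fun l hl' => ?_
    obtain ⟨-, hl2, hl3⟩ := mem_filter.1 hl'
    have w0 := (hW l).1
    have a1 : 0 ≤ D * (2 / κ) * (WW f l * ∑ k ∈ SS X ε with ((k : ℕ) : ℤ) ∣ l ^ 2 + 1,
        ArithmeticFunction.vonMangoldt k) := mul_nonneg (by positivity)
      (mul_nonneg w0 (sum_nonneg fun _ _ => ArithmeticFunction.vonMangoldt_nonneg))
    have a3 : 0 ≤ D * log X * WW f l := by positivity
    have a4 := mul_le_mul_of_nonneg_left (htriv l) hl.le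
    by_cases h : X ^ 2 < (l : ℝ) ^ 2 + 1
    · simp [ww_supp hG hX hf h]
    by_cases c1 : Bad X l
    · split_ifs <;> linarith
    by_cases c2 : (l.natAbs / 2).Prime
    · split_ifs <;> linarith
    by_cases c4 : Big X ϖ l
    · split_ifs <;> linarith
    rw [if_neg c1, if_neg c2, if_neg c4]
    by_cases c3 : (2 - κ) * log X ≤ ∑ p ∈ RP X ε (l ^ 2 + 1).toNat, log p
    · have b1 := (hT _ (hn1 l) (by rw [hn]; exact not_lt.1 h)).2 (fun p hp =>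
        fac2 hl2 (hM'.trans hl3) c2 c4 p (Nat.prime_of_mem_primeFactors hp) (by
          rw [← Int.toNat_of_nonneg (show 0 ≤ l ^ 2 + 1 by positivity)]
          exact_mod_cast Nat.dvd_of_mem_primeFactors hp)) c3
      have b2 := mul_nonpos_of_nonneg_of_nonpos hl.le (mul_nonpos_of_nonneg_of_nonpos w0 b1)
      linarith
    · have b1 := dec2 (by linarith) hε1 c1
      have b2 : (X ^ (1 - θ)) ^ 2 ≤ (l : ℝ) ^ 2 + 1 := by
        have : (X ^ (1 - θ)) ^ 2 ≤ |(l : ℝ)| ^ 2 := by gcongr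
        rw [sq_abs] at this; linarith
      have b3 := log_le_log (by positivity) b2
      rw [log_pow, log_rpow hX] at b3
      push_cast at b3
      have b4 : κ / 2 * log X ≤ ∑ k ∈ SS X ε with ((k : ℕ) : ℤ) ∣ l ^ 2 + 1,
          ArithmeticFunction.vonMangoldt k := by
        linarith [not_le.1 c3, mul_le_mul_of_nonneg_right hθ2 hl.le]
      have b5 := mul_le_mul_of_nonneg_left (mul_le_mul_of_nonneg_left b4 w0)
        (show 0 ≤ D * (2 / κ) by positivity)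
      have b6 : D * (2 / κ) * (WW f l * (κ / 2 * log X)) = log X * (D * WW f l) := by
        field_simp
      linarith
  rw [sum_add_distrib, sum_add_distrib, sum_add_distrib, ← mul_sum, ← mul_sum, ← mul_sum,
    ← mul_sum, ← mul_sum] at q8
  have r4 := mul_le_mul_of_nonneg_left (big_le (X := X) (ϖ := ϖ) (L₀ := X ^ (1 - θ))
    (W := fun l : ℤ => WW f l) fun l => (hW l).1) (show 0 ≤ D * log X by positivity)
  rw [e] at q1
  have r1 := mul_le_mul_of_nonneg_left q1 hl.le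
  have r2 := mul_le_mul_of_nonneg_left q2 hD0.le
  have r3 := mul_le_mul_of_nonneg_left q3 (show 0 ≤ D * (2 / κ) by positivity)
  have r5 := mul_le_mul_of_nonneg_left q5 hD0.le
  have r6 := mul_le_mul_of_nonneg_left q6 hD0.le
  have r7 := mul_le_mul_of_nonneg_left q7 hl.le
  have r8 := mul_le_mul_of_nonneg_right hε2 (mul_nonneg hl.le hI0)
  have r9 := mul_le_mul_of_nonneg_left hI (show 0 ≤ v / 16 * log X by positivity)
  have r10 := mul_lt_mul_of_pos_right hL hX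
  have r11 : 0 ≤ D * X := by positivity
  have e6 : 6 / κ = 3 * (2 / κ) := by ring
  rw [e6] at r8
  generalize 2 / κ = u at *
  refine le_of_mul_le_mul_left ?_ (show 0 < D * log X by positivity)
  have e7 : D * log X * (v / (16 * D) * Itot f) = v / 16 * log X * Itot f := by field_simp
  rw [e7]
  linarith

open Fz in
theorem mass1 (hRho : RhoStmt) (hPP : PPStmt) (hRS : RSStmt) (hM : MertStmt) (hI2 : I2Stmt)
    (hI3 : I3Stmt) (hT1 : T1Stmt) (hT0 : T0Stmt) (hSel : SelStmt) (hCell : CellStmt) {ϖ : ℝ}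
    (hϖ : 5 / 4 ≤ ϖ) (hϖ' : ϖ ≤ 7 / 5) (h : CertStmt ϖ) : MassStmt ϖ := by
  obtain ⟨m, β, v, ε, hε, hβ0, hβ, hβm, hcell, hsum⟩ := h
  obtain ⟨c, hc, hRS⟩ := hRS
  obtain ⟨κ, hκ, hsum⟩ : ∃ κ : ℝ, 0 < κ ∧ ∑ i ∈ range m, (β (i + 1) + ε) * v i +
      2 * (β 0 ^ 2 - 1) + 2 * (ϖ ^ 2 - β m ^ 2) < 1 - κ :=
    ⟨(1 - (∑ i ∈ range m, (β (i + 1) + ε) * v i + 2 * (β 0 ^ 2 - 1) + 2 * (ϖ ^ 2 - β m ^ 2))) / 2,
      by linarith, by linarith⟩
  refine ⟨κ / 12, by positivity, fun C₀ hC₀ => ?_⟩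
  have hmono : ∀ i ≤ m, β 0 ≤ β i := by
    intro i hi
    induction i with
    | zero => exact le_rfl
    | succ i ih => exact (ih (by omega)).trans (hβ i (by omega))
  have hpos : ∀ {t : ℝ}, 0 < t → ∀ᶠ η : ℝ in 𝓝[>] 0, η ≤ t := fun ht =>
    eventually_nhdsWithin_of_eventually_nhds (eventually_le_nhds ht)
  have hc1 : ∀ i ∈ range m, ∀ᶠ η : ℝ in 𝓝[>] 0, 0 < η → ∀ (A : ℕ) (δ : ℝ), 0 < δ →
      ∀ᶠ X : ℝ in atTop, ∀ f : ℝ → ℝ, Adm X (log X ^ A) f → E1 X η δ f →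
      E2 X η δ f → ∀ P : Finset ℕ, (∀ p ∈ P, p.Prime) →
      ∫ s in Set.Icc ((1 - β (i + 1)) * log X) ((1 - β i) * log X), gP f P s ≤
        (β (i + 1) + ε) * v i * log X * Itot f / 2 + X := by
    intro i hi
    have hi' := mem_range.1 hi
    have h1 := hcell i hi'
    have h2 : β (i + 1) + ε ≤ 4 / 3 := by
      obtain ⟨B, wl, wh, d₂, a, b, d, -⟩ := h1
      linarith
    obtain ⟨η₀, hη₀, H⟩ := hCell _ _ _ ε hε (by linarith [hmono i hi'.le])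
      (by linarith [hβ i hi']) h2 h1
    filter_upwards [hpos hη₀] with η hη h0 A δ hδ
    have := H A η δ h0 hη hδ
    rw [show 1 - (β (i + 1) + ε) + ε = 1 - β (i + 1) by ring,
      show 1 - (β i - ε) - ε = 1 - β i by ring] at this
    exact this
  set G : ℝ → ℝ := fun η => (1 + η) + 3 * η + η / 4 + (∑ i ∈ range m, (β (i + 1) + ε) * v i +
    (2 * ((β 0 + η) ^ 2 - 1) + 2 * ((ϖ + 2 * η) ^ 2 - β m ^ 2)) / (1 - 4 * η) +
    48 * η * C₀ / c) with hG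
  have hc2 : ∀ᶠ η : ℝ in 𝓝[>] 0, G η < 2 - κ := by
    refine eventually_nhdsWithin_of_eventually_nhds (ContinuousAt.eventually_lt ?_
      continuousAt_const ?_)
    · rw [hG]
      fun_prop (disch := norm_num)
    · rw [hG]
      norm_num
      linarith
  obtain ⟨η₀, hη₀, Hη⟩ := (nhdsGT_basis_Ioc (0 : ℝ)).eventually_iff.1
    (((((eventually_all_finset _).2 hc1).and hc2).and (hpos hε)).and
      (hpos (show (0 : ℝ) < 1 / 20 by norm_num)))
  refine ⟨η₀, hη₀, fun A η δ c' h0 hη' hδ hc' => ?_⟩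
  obtain ⟨⟨⟨H1, H2⟩, H3⟩, H4⟩ := Hη (show η ∈ Set.Ioc 0 η₀ from ⟨h0, hη'⟩)
  have hθ : 0 < η / 8 := by linarith
  obtain ⟨C, hC, HW⟩ := id hI3
  filter_upwards [low hI3 A hθ (by linarith), sm hRho hM hI3 A hθ (by linarith) h0 (by linarith),
    pp hPP hI3 A hθ (by linarith), pr hPP hI3 A hθ (by linarith) h0,
    intg hI2 hI3 hT1 hT0 hSel hc hRS hC₀ hϖ hϖ' A h0 H4 hδ (by linarith) hβ (hmono m le_rfl) hβm
      (fun i hi => H1 i hi h0 A δ hδ),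
    eventually_ge_atTop (3 : ℝ),
    (tendsto_rpow_atTop (show 0 < 1 - η / 8 by linarith)).eventually_ge_atTop 4,
    (tendsto_log_atTop.const_mul_atTop (mul_pos hκ hc')).eventually_gt_atTop
      (4 * (m + 10))] with X q1 q2 q3 q4 q5 h3 hM' hL f ⟨hf, hE1, hE2, hI, hmu⟩
  replace q1 := q1 f hf
  replace q2 := q2 f hf
  replace q3 := q3 f hf
  replace q4 := q4 f hf
  replace q5 := q5 f hf hE1 hE2 hmu
  have hX : 0 < X := by linarith
  have hl0 : 0 < log X := log_pos (by linarith)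
  have hl := hl0.le
  obtain ⟨hW, -⟩ := HW X _ f h3 hf
  have q6 := (toInt hI3 h3 hf (X ^ (1 - η / 8)) (P := PR (X ^ (1 - η / 4)) (X ^ ϖ))
    fun p hp => (mem_filter.1 hp).2.1.one_le).2
  rw [show 1 - 2 * (η / 8) = 1 - η / 4 by ring] at q2
  rw [sum_filter, mul_sum] at q3 q4
  have q7 : ∑ l ∈ LL X (X ^ (1 - η / 8)), WW f l * log ((l : ℝ) ^ 2 + 1) ≤
      ∑ l ∈ LL X (X ^ (1 - η / 8)), (WW f l *
        ∑ k ∈ (Icc 1 ⌊X ^ (1 - η / 4)⌋₊ : Finset ℕ) with ((k : ℕ) : ℤ) ∣ l ^ 2 + 1,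
          ArithmeticFunction.vonMangoldt k +
        WW f l * ∑ p ∈ PR (X ^ (1 - η / 4)) (X ^ ϖ) with ((p : ℕ) : ℤ) ∣ l ^ 2 + 1, log p +
        (3 * log X * if Bad X l then WW f l else 0) +
        (3 * log X * if (l.natAbs / 2).Prime then WW f l else 0) +
        (3 * log X * if Big X ϖ l then WW f l else 0)) := by
    refine sum_le_sum fun l hl' => ?_
    obtain ⟨-, hl2, hl3⟩ := mem_filter.1 hl'
    have w0 := (hW l).1
    have a1 : 0 ≤ WW f l * ∑ k ∈ (Icc 1 ⌊X ^ (1 - η / 4)⌋₊ : Finset ℕ) with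
        ((k : ℕ) : ℤ) ∣ l ^ 2 + 1, ArithmeticFunction.vonMangoldt k :=
      mul_nonneg w0 (sum_nonneg fun _ _ => ArithmeticFunction.vonMangoldt_nonneg)
    have a2 : 0 ≤ WW f l * ∑ p ∈ PR (X ^ (1 - η / 4)) (X ^ ϖ) with ((p : ℕ) : ℤ) ∣ l ^ 2 + 1,
        log p := mul_nonneg w0 (sum_nonneg fun p _ => log_natCast_nonneg p)
    have a3 : 0 ≤ 3 * log X * WW f l := by positivity
    by_cases hX' : |(l : ℝ)| ≤ X
    swap
    · rw [(hW l).2.2 (not_le.1 hX')]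
      simp
    have a4 : WW f l * log ((l : ℝ) ^ 2 + 1) ≤ 3 * log X * WW f l := by
      rw [mul_comm]
      refine mul_le_mul_of_nonneg_right ?_ w0
      have b1 : (l : ℝ) ^ 2 ≤ X ^ 2 := by rw [← sq_abs]; gcongr
      have b2 := log_le_log (by positivity) (show (l : ℝ) ^ 2 + 1 ≤ X ^ 3 by
        have b3 : 3 ^ 2 ≤ X ^ 2 := by gcongr
        linarith [mul_le_mul_of_nonneg_right h3 (sq_nonneg X)])
      rw [log_pow] at b2
      exact_mod_cast b2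
    by_cases c1 : Bad X l
    · split_ifs <;> linarith
    by_cases c2 : (l.natAbs / 2).Prime
    · split_ifs <;> linarith
    by_cases c4 : Big X ϖ l
    · split_ifs <;> linarith
    rw [if_neg c1, if_neg c2, if_neg c4]
    · have := mul_le_mul_of_nonneg_left (dec (a := X ^ (1 - η / 4))
        (rpow_le_rpow_of_exponent_le (by linarith) (by linarith)) (by positivity) c1
        (fac2 hl2 (hM'.trans hl3) c2 c4)) w0
      linarith
  rw [sum_add_distrib, sum_add_distrib, sum_add_distrib, sum_add_distrib,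
    ← mul_sum _ (fun l : ℤ => if Big X ϖ l then WW f l else 0)] at q7
  have r4 := mul_le_mul_of_nonneg_left (big_le (X := X) (ϖ := ϖ) (L₀ := X ^ (1 - η / 8))
    (W := fun l : ℤ => WW f l) fun l => (hW l).1) (show 0 ≤ 3 * log X by positivity)
  have q8 : (2 - G η) * (log X * Itot f) ≤ 2 * (m + 10) * X + 6 * log X *
      ∑ l ∈ (Icc (-⌈X⌉) ⌈X⌉ : Finset ℤ) with Big X ϖ l, WW f l := by
    rw [hG]
    simp only
    linarith
  have q9 := mul_le_mul_of_nonneg_left hI (mul_nonneg hκ.le hl)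
  have q10 := mul_le_mul_of_nonneg_right (show κ ≤ 2 - G η by linarith)
    (mul_nonneg hl (Itot_nonneg hf))
  refine le_of_mul_le_mul_left ?_ hl0
  linarith [mul_lt_mul_of_pos_right hL hX]

end Pool.Agent.Lib.MP_4b1228_nt.PP
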