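import Pool.Agent.Lib.MP_4b1228_nt.PP.Eng
import Pool.Agent.Lib.MP_4b1228_nt.PP.Mass
import Pool.Agent.Lib.MP_4b1228_nt.PP.Dens

/-!
Certificates imply a positive proportion.
-/

open Finset Filter
open scoped Classical

namespace Pool.Agent.Lib.MP_4b1228_nt.PP

theorem densM {θ : ℝ} (h : MassStmt θ) : DensStmt θ := by
  refine dens (packS Eng.geo' k2 Eng.k3' Eng.k9' Eng.k10' Eng.i2') fun C₀ hC₀ => ?_
  obtain ⟨β, hβ, h⟩ := h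
  obtain ⟨η, hη, h⟩ := h C₀ hC₀
  refine ⟨β, η, hβ, hη, fun A δ c hδ hc => (h A η δ c hη le_rfl hδ hc).mono fun X hX f hf =>
    (hX f hf).trans (le_of_eq (sum_congr ?_ fun _ _ => rfl))⟩
  ext l
  simp only [GS, Big, mem_filter]

theorem dens1 {θ : ℝ} (h1 : 5 / 4 ≤ θ) (h2 : θ ≤ 7 / 5) (h : CertStmt θ) : DensStmt θ :=
  densM (mass1 Eng.rho' Eng.pp' Eng.rs' Eng.mert' Eng.i2' Eng.i3' Eng.t1' Eng.t0' Eng.sel'
    Eng.cell' h1 h2 h)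

theorem dens2 {θ : ℝ} (h : Glob θ) : DensStmt θ :=
  densM (mass2 Eng.rho' Eng.pp' Eng.mert' Eng.geo' Eng.i3' h)

end Pool.Agent.Lib.MP_4b1228_nt.PP
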