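import Pool.Agent.Lib.MP_4b1228_nt.PP.St3
import Pool.Agent.Lib.MP_4b1228_nt.PP.Tu

/-! Means of functions of the size of a prime, and of tuples of cells. -/

open Finset Real Filter Topology
open scoped Classical

noncomputable section

namespace Pool.Agent.Lib.MP_4b1228_nt.PP.R3

theorem tupF_eq (L : List (ℕ → ℝ)) (S : Finset ℕ) : tupF L S = Tu.tup L S := by
  induction L generalizing S with
  | nil => rfl
  | cons φ L ih => simp only [tupF, Tu.tup, ih]

/-- Only the elements where some weight is not zero matter. -/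
theorem tupF_sup {L : List (ℕ → ℝ)} {S S' : Finset ℕ}
    (h : ∀ φ ∈ L, ∀ p, φ p ≠ 0 → (p ∈ S ↔ p ∈ S')) : tupF L S = tupF L S' := by
  induction L generalizing S S' with
  | nil => rfl
  | cons φ L ih =>
    have e : ∀ p, tupF L (S.erase p) = tupF L (S'.erase p) := fun p => ih fun ψ hψ q hq => by
      rw [mem_erase, mem_erase, h ψ (List.mem_cons_of_mem _ hψ) q hq]
    simp only [tupF, e]
    rw [← sum_filter_ne_zero, ← sum_filter_ne_zero S']
    refine sum_congr ?_ fun _ _ => rfl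
    ext p
    rw [mem_filter, mem_filter]
    exact and_congr_left fun a => h φ (List.mem_cons_self ..) p (left_ne_zero_of_mul a)

/-- Weights with disjoint supports. -/
theorem tupF_append {A B : List (ℕ → ℝ)} (h : ∀ φ ∈ A, ∀ ψ ∈ B, ∀ p, φ p ≠ 0 → ψ p = 0)
    (S : Finset ℕ) : tupF (A ++ B) S = tupF A S * tupF B S := by
  induction A generalizing S with
  | nil => simp [tupF]
  | cons φ A ih =>
    simp only [List.cons_append, tupF, sum_mul, ih fun θ hθ => h θ (List.mem_cons_of_mem _ hθ)]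
    refine sum_congr rfl fun p _ => ?_
    by_cases e : φ p = 0
    · simp [e]
    · rw [mul_assoc, tupF_sup (L := B) (S := S.erase p) (S' := S) fun ψ hψ q hq => ?_]
      rw [mem_erase, and_iff_right]
      rintro rfl
      exact hq (h φ (List.mem_cons_self ..) ψ hψ q e)

theorem sz_lt {X u a : ℝ} (hX : 1 < X) (hu : 0 < u) {p : ℕ} (hp : 0 < p) :
    sz X u p < a ↔ (p : ℝ) < X ^ (u * a) := by
  rw [sz, div_lt_iff₀ (mul_pos hu (log_pos hX)),
    lt_rpow_iff_log_lt (by exact_mod_cast hp) (by linarith), mul_left_comm, mul_assoc]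

theorem le_sz {X u a : ℝ} (hX : 1 < X) (hu : 0 < u) {p : ℕ} (hp : 0 < p) :
    a ≤ sz X u p ↔ X ^ (u * a) ≤ p := by
  rw [← not_lt, sz_lt hX hu hp, not_lt]

theorem sz_nonneg {X u : ℝ} (hX : 1 < X) (hu : 0 < u) (p : ℕ) : 0 ≤ sz X u p :=
  div_nonneg (log_natCast_nonneg p) (mul_pos hu (log_pos hX)).le

theorem sz_le {X u a : ℝ} (hX : 1 < X) (hu : 0 < u) {p : ℕ} (h : sz X u p < a) :
    (p : ℝ) < X ^ (u * a) := by
  rcases p.eq_zero_or_pos with rfl | hp
  · rw [Nat.cast_zero]; positivity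
  · exact (sz_lt hX hu hp).1 h

theorem mem_sz {X u a b : ℝ} (hX : 1 < X) (hu : 0 < u) {p : ℕ} :
    p ∈ pw X (u * a) (u * b) ↔ p.Prime ∧ a ≤ sz X u p ∧ sz X u p < b := by
  rw [mem_pw]
  exact and_congr_right fun hp => by rw [le_sz hX hu hp.pos, sz_lt hX hu hp.pos]

theorem sum_cell {X u ε a b : ℝ} (hX : 1 < X) (hu : 0 < u) (ha : ε ≤ u * a) (hb : u * b ≤ 2)
    (F : ℕ → ℝ) : ∑ p ∈ pw X ε 2, (if a ≤ sz X u p ∧ sz X u p < b then F p else 0) =
      ∑ p ∈ pw X (u * a) (u * b), F p := by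
  rw [← sum_filter]
  refine sum_congr ?_ fun _ _ => rfl
  ext p
  rw [mem_filter, mem_sz hX hu, mem_pw]
  refine ⟨fun e => ⟨e.1.1, e.2⟩, fun e => ⟨⟨e.1, ?_, ?_⟩, e.2⟩⟩
  · exact (rpow_le_rpow_of_exponent_le hX.le ha).trans ((le_sz hX hu e.1.pos).1 e.2.1)
  · exact (sz_le hX hu e.2.2).trans_le (rpow_le_rpow_of_exponent_le hX.le hb)

theorem sum_split {X u a b c : ℝ} (hX : 1 < X) (hu : 0 < u) (h1 : a ≤ b) (h2 : b ≤ c)
    (F : ℕ → ℝ) : ∑ p ∈ pw X (u * a) (u * c), F p =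
      ∑ p ∈ pw X (u * a) (u * b), F p + ∑ p ∈ pw X (u * b) (u * c), F p := by
  rw [← sum_filter_add_sum_filter_not _ fun p => sz X u p < b]
  congr 2 <;> ext p <;> simp only [mem_filter, mem_sz hX hu, not_lt]
  · exact ⟨fun e => ⟨e.1.1, e.1.2.1, e.2⟩, fun e => ⟨⟨e.1, e.2.1, e.2.2.trans_le h2⟩, e.2.2⟩⟩
  · exact ⟨fun e => ⟨e.1.1, e.2, e.1.2.2⟩, fun e => ⟨⟨e.1, h1.trans e.2.1, e.2.2⟩, e.2.1⟩⟩

theorem m01 (hR : RhoStmt) {u a b : ℝ} (hu : 0 < u) (ha : 0 < a) (hab : a ≤ b) (hb : u * b ≤ 2) :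
    Tendsto (fun X : ℝ => ∑ p ∈ pw X (u * a) (u * b), gp p) atTop (𝓝 (log (b / a))) ∧
    Tendsto (fun X : ℝ => ∑ p ∈ pw X (u * a) (u * b), sz X u p * gp p) atTop (𝓝 (b - a)) := by
  have k := fun τ hτ => (mert2 hR (u * a) τ (mul_pos hu ha) hτ).mono fun X h =>
    h gp (fun p _ _ => by rw [gp, sub_self, abs_zero]; positivity) (u * a) (u * b) le_rfl
      (mul_le_mul_of_nonneg_left hab hu.le) hb
  constructor <;> refine Metric.tendsto_nhds.2 fun τ hτ => ?_
  · filter_upwards [k _ (half_pos hτ)] with X h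
    rw [mul_div_mul_left _ _ hu.ne'] at h
    exact h.1.trans_lt (half_lt_self hτ)
  · filter_upwards [k (τ / 2 * u) (by positivity), eventually_gt_atTop 1] with X h X1
    have l := mul_pos hu (log_pos X1)
    have e : ∑ p ∈ pw X (u * a) (u * b), sz X u p * gp p - (b - a) =
        (∑ p ∈ pw X (u * a) (u * b), gp p * log p - (u * b - u * a) * log X) / (u * log X) := by
      rw [sub_div, sum_div, ← mul_sub, mul_right_comm, mul_div_cancel_left₀ _ l.ne']
      congr 1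
      exact sum_congr rfl fun p _ => by rw [sz]; ring
    rw [Real.dist_eq, e, abs_div, abs_of_pos l, div_lt_iff₀ l]
    refine h.2.trans_lt ?_
    rw [mul_assoc]
    exact mul_lt_mul_of_pos_right (half_lt_self hτ) l

theorem gp_nonneg (p : ℕ) : 0 ≤ gp p := by unfold gp; positivity

/-- The mean of `F x * x` over the primes of size in `[a, b)` is the integral of `F`. -/
theorem lip (hR : RhoStmt) {u a b K : ℝ} (hu : 0 < u) (ha : 0 < a) (hab : a ≤ b) (hb : u * b ≤ 2)
    (hK : 0 ≤ K) (F G : ℝ → ℝ) (h : ∀ s t, a ≤ s → s ≤ t → t ≤ b →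
      |F t - F s| ≤ K * (t - s) ∧ |G t - G s - F s * (t - s)| ≤ K * (t - s) ^ 2) :
    Tendsto (fun X : ℝ => ∑ p ∈ pw X (u * a) (u * b), F (sz X u p) * (sz X u p * gp p)) atTop
      (𝓝 (G b - G a)) := by
  have key : ∀ d δ : ℝ, 0 ≤ d → 0 < δ → ∀ k : ℕ, a + k * d ≤ b → ∀ᶠ X : ℝ in atTop,
      |∑ p ∈ pw X (u * a) (u * (a + k * d)), F (sz X u p) * (sz X u p * gp p) -
        (G (a + k * d) - G a)| ≤ k * (2 * K * d ^ 2 + δ) := fun d δ d0 δ0 k => by
    induction k with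
    | zero =>
      intro _
      filter_upwards [eventually_gt_atTop 1] with X X1
      rw [Nat.cast_zero, zero_mul, add_zero, sub_self, sub_zero, zero_mul, sum_eq_zero, abs_zero]
      intro p hp
      have := ((mem_sz X1 hu).1 hp).2
      linarith
    | succ k ih =>
      intro hk
      push_cast at hk ⊢
      obtain ⟨s, hs⟩ : ∃ s, s = a + k * d := ⟨_, rfl⟩
      have s1 : a ≤ s := by rw [hs]; exact le_add_of_nonneg_right (by positivity)
      rw [show a + (k + 1) * d = s + d by rw [hs]; ring] at hk ⊢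
      rw [← hs] at ih
      have m := (m01 hR hu (ha.trans_le s1) (le_add_of_nonneg_right d0)
        ((mul_le_mul_of_nonneg_left hk hu.le).trans hb)).2
      rw [add_sub_cancel_left] at m
      have t := (((m.sub_const d).const_mul (F s)).abs.add (m.const_mul (K * d))).eventually_lt_const
        (lt_add_of_pos_right _ δ0)
      filter_upwards [ih (by linarith), t, eventually_gt_atTop 1] with X a1 a2 X1
      rw [sub_self, mul_zero, abs_zero, zero_add] at a2
      have a3 := (h s (s + d) s1 (le_add_of_nonneg_right d0) hk).2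
      have a4 : |∑ p ∈ pw X (u * s) (u * (s + d)), F (sz X u p) * (sz X u p * gp p) -
          F s * ∑ p ∈ pw X (u * s) (u * (s + d)), sz X u p * gp p| ≤
          K * d * ∑ p ∈ pw X (u * s) (u * (s + d)), sz X u p * gp p := by
        rw [mul_sum, mul_sum, ← sum_sub_distrib]
        refine (abs_sum_le_sum_abs _ _).trans (sum_le_sum fun p hp => ?_)
        obtain ⟨-, b1, b2⟩ := (mem_sz X1 hu).1 hp
        have b3 := mul_nonneg (sz_nonneg X1 hu p) (gp_nonneg p)
        rw [← sub_mul, abs_mul, abs_of_nonneg b3]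
        exact mul_le_mul_of_nonneg_right ((h s _ s1 b1 (by linarith)).1.trans
          (mul_le_mul_of_nonneg_left (by linarith) hK)) b3
      rw [sum_split X1 hu s1 (le_add_of_nonneg_right d0)]
      rw [add_sub_cancel_left] at a3
      have a5 := le_abs_self (F s * (∑ p ∈ pw X (u * s) (u * (s + d)), sz X u p * gp p - d))
      have a6 := neg_abs_le (F s * (∑ p ∈ pw X (u * s) (u * (s + d)), sz X u p * gp p - d))
      rw [abs_le] at a1 a3 a4 ⊢
      constructor <;> linarith [a1.1, a1.2, a3.1, a3.2, a4.1, a4.2]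
  refine Metric.tendsto_nhds.2 fun τ hτ => ?_
  obtain ⟨N, hN⟩ := exists_nat_gt ((2 * K * (b - a) ^ 2 + 1) / τ)
  have N0 : (0 : ℝ) < N := lt_trans (by positivity) hN
  have e : a + N * ((b - a) / N) = b := by field_simp; ring
  filter_upwards [key ((b - a) / N) (1 / N ^ 2) (div_nonneg (by linarith) N0.le) (by positivity) N
    e.le] with X a1
  rw [e] at a1
  refine a1.trans_lt ?_
  rw [show N * (2 * K * ((b - a) / N) ^ 2 + 1 / N ^ 2) = (2 * K * (b - a) ^ 2 + 1) / N by field_simp,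
    div_lt_iff₀ N0, mul_comm τ, ← div_lt_iff₀ hτ]
  exact hN

/-- The same with an integral. -/
theorem lipI (hR : RhoStmt) {u a b K : ℝ} (hu : 0 < u) (ha : 0 < a) (hab : a ≤ b) (hb : u * b ≤ 2)
    (hK : 0 ≤ K) (F : ℝ → ℝ) (h : ∀ s t, a ≤ s → s ≤ t → t ≤ b → |F t - F s| ≤ K * (t - s)) :
    Tendsto (fun X : ℝ => ∑ p ∈ pw X (u * a) (u * b), F (sz X u p) * (sz X u p * gp p)) atTop
      (𝓝 (∫ x in a..b, F x)) := by
  have c : ContinuousOn F (Set.Icc a b) :=
    (LipschitzOnWith.of_dist_le_mul (K := ⟨K, hK⟩) fun s hs t ht => by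
      rw [Real.dist_eq, Real.dist_eq]
      rcases le_total s t with e | e
      · rw [abs_sub_comm, abs_sub_comm s, abs_of_nonneg (sub_nonneg.2 e)]
        exact h s t hs.1 e ht.2
      · rw [abs_of_nonneg (sub_nonneg.2 e)]
        exact h t s ht.1 e hs.2).continuousOn
  have i : ∀ s t, a ≤ s → s ≤ t → t ≤ b → IntervalIntegrable F MeasureTheory.volume s t :=
    fun s t a1 a2 a3 => (c.mono (Set.Icc_subset_Icc a1 a3)).intervalIntegrable_of_Icc a2
  have := lip hR hu ha hab hb hK F (fun t => ∫ x in a..t, F x) fun s t a1 a2 a3 =>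
    ⟨h s t a1 a2 a3, by
      rw [intervalIntegral.integral_interval_sub_left (i a t le_rfl (a1.trans a2) a3)
        (i a s le_rfl a1 (a2.trans a3)), mul_comm (F s), ← smul_eq_mul,
        ← intervalIntegral.integral_const, ← intervalIntegral.integral_sub (i s t a1 a2 a3) (by simp)]
      have := intervalIntegral.norm_integral_le_of_norm_le_const (a := s) (b := t)
        (C := K * (t - s)) (f := fun x => F x - F s) fun x hx => by
          rw [Set.uIoc_of_le a2] at hx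
          exact (h s x a1 hx.1.le (hx.2.trans a3)).trans
            (mul_le_mul_of_nonneg_left (by linarith [hx.2]) hK)
      rw [abs_of_nonneg (sub_nonneg.2 a2), mul_assoc, ← pow_two] at this
      exact this⟩
  simpa using this

theorem cel_fac (hR : RhoStmt) {u ε : ℝ} (hu : 0 < u) (hε : 0 < ε) (c : Cel) (ha : ε ≤ u * c.a)
    (hab : c.a ≤ c.b) (hb : u * c.b ≤ 2) :
    Tu.Fac ε (fun X p => c.w (sz X u p)) (u * c.b) c.I := by
  have a0 : 0 < c.a := (mul_pos_iff_of_pos_left hu).1 (hε.trans_le ha)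
  refine ⟨⟨|c.α| + |c.β| * c.b, ?_⟩, ?_⟩
  · filter_upwards [eventually_gt_atTop 1] with X X1 p
    unfold Cel.w
    split_ifs with e
    · refine ⟨(abs_add_le _ _).trans (add_le_add le_rfl ?_), fun _ => (sz_le X1 hu e.2).le⟩
      rw [abs_mul, abs_of_nonneg (sz_nonneg X1 hu p)]
      exact mul_le_mul_of_nonneg_left e.2.le (abs_nonneg _)
    · exact ⟨by rw [abs_zero]; have := a0.trans_le hab; positivity, fun e => absurd rfl e⟩
  · obtain ⟨m0, m1⟩ := m01 hR hu a0 hab hb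
    refine ((m0.const_mul c.α).add (m1.const_mul c.β)).congr' ?_
    filter_upwards [eventually_gt_atTop 1] with X X1
    simp only [Cel.w, ite_mul, zero_mul]
    rw [sum_cell X1 hu ha hb, mul_sum, mul_sum, ← sum_add_distrib]
    exact sum_congr rfl fun p _ => by rw [gp]; ring

/-- The model mean of a tuple of cells; `P X` is any set that contains, of the sizes in the cells,
exactly the primes. -/
theorem tup_mean' (hR : RhoStmt) {u ε : ℝ} (hu : 0 < u) (hε : 0 < ε) (ε2 : ε ≤ 2) (L : List Cel)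
    (hL : ∀ c ∈ L, ε ≤ u * c.a ∧ c.a ≤ c.b ∧ u * c.b ≤ 2) (P : ℝ → Finset ℕ)
    (hP : ∀ᶠ X : ℝ in atTop, ∀ c ∈ L, ∀ p : ℕ, c.a ≤ sz X u p → sz X u p < c.b →
      (p ∈ P X ↔ p.Prime)) :
    Tendsto (fun X : ℝ => tupF (L.map fun c p => c.w (sz X u p) * gp p) (P X)) atTop
      (𝓝 (L.map Cel.I).prod) := by
  refine (Tu.tup_lim hR hε ε2 L fun c hc =>
    cel_fac hR hu hε c (hL c hc).1 (hL c hc).2.1 (hL c hc).2.2).congr' ?_
  filter_upwards [hP, eventually_gt_atTop 1] with X a1 X1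
  rw [← tupF_eq]
  refine tupF_sup fun φ hφ p hp => ?_
  obtain ⟨c, hc, rfl⟩ := List.mem_map.1 hφ
  have e : c.a ≤ sz X u p ∧ sz X u p < c.b := by
    by_contra e
    exact left_ne_zero_of_mul hp (if_neg e)
  rw [a1 c hc p e.1 e.2, mem_pw]
  exact ⟨fun f => f.1, fun f => ⟨f, (rpow_le_rpow_of_exponent_le X1.le (hL c hc).1).trans
    ((le_sz X1 hu f.pos).1 e.1),
    (sz_le X1 hu e.2).trans_le (rpow_le_rpow_of_exponent_le X1.le (hL c hc).2.2)⟩⟩

theorem mem_PR_sz {X u ε a b : ℝ} (hX : 1 < X) (hu : 0 < u) (ha : ε ≤ u * a) (hb : u * b ≤ 2)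
    {p : ℕ} (h1 : a ≤ sz X u p) (h2 : sz X u p < b) : p ∈ PR X ε ↔ p.Prime := by
  rw [PR, mem_filter, mem_Icc]
  refine ⟨fun f => f.2.1, fun f => ⟨⟨f.pos, Nat.le_floor ?_⟩, f,
    (rpow_le_rpow_of_exponent_le hX.le ha).trans ((le_sz hX hu f.pos).1 h1)⟩⟩
  rw [← rpow_two]
  exact (sz_le hX hu h2).le.trans (rpow_le_rpow_of_exponent_le hX.le hb)

/-- The model mean of a tuple of cells. -/
theorem tup_mean (hR : RhoStmt) {u ε : ℝ} (hu : 0 < u) (hε : 0 < ε) (ε2 : ε ≤ 2) (L : List Cel)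
    (hL : ∀ c ∈ L, ε ≤ u * c.a ∧ c.a ≤ c.b ∧ u * c.b ≤ 2) :
    Tendsto (fun X : ℝ => tupF (L.map fun c p => c.w (sz X u p) * gp p) (PR X ε)) atTop
      (𝓝 (L.map Cel.I).prod) :=
  tup_mean' hR hu hε ε2 L hL _ ((eventually_gt_atTop 1).mono fun _ X1 c hc _ =>
    mem_PR_sz X1 hu (hL c hc).1 (hL c hc).2.2)

end Pool.Agent.Lib.MP_4b1228_nt.PP.R3
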