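import Pool.Agent.Lib.MP_4b1228_nt.PP.R4D
import Pool.Agent.Lib.MP_4b1228_nt.PP.R3M

/-! The mean of the exact rows of a table. -/

open Finset Real
open scoped Classical

noncomputable section

namespace Pool.Agent.Lib.MP_4b1228_nt.PP.R4

open R3

namespace ME

theorem tupL_add (k : ℕ) (Φ Ψ : List ℕ → ℝ) (S : Finset ℕ) :
    tupL k (fun l => Φ l + Ψ l) S = tupL k Φ S + tupL k Ψ S := by
  induction k generalizing Φ Ψ S with
  | zero => rfl
  | succ k ih => simp only [tupL, ih, sum_add_distrib]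

theorem tupL_mul (k : ℕ) (a : ℝ) (Φ : List ℕ → ℝ) (S : Finset ℕ) :
    tupL k (fun l => a * Φ l) S = a * tupL k Φ S := by
  induction k generalizing Φ S with
  | zero => rfl
  | succ k ih => simp only [tupL, ih, mul_sum]

theorem tupL_congr {k : ℕ} {Φ Ψ : List ℕ → ℝ} {S : Finset ℕ}
    (h : ∀ l : List ℕ, l.length = k → (∀ p ∈ l, p ∈ S) → Φ l = Ψ l) : tupL k Φ S = tupL k Ψ S := by
  induction k generalizing Φ Ψ S with
  | zero => exact h [] rfl (by simp)
  | succ k ih =>
    refine sum_congr rfl fun p hp => ih fun l a1 a2 => h _ (by rw [List.length_cons, a1]) ?_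
    exact List.forall_mem_cons.2 ⟨hp, fun q hq => mem_of_mem_erase (a2 q hq)⟩

/-- The cell `[c, c + 1)` with the weight `1` or the fractional part. -/
def cel (s : Bool) (d : ℕ × Bool) : Cel :=
  ⟨d.1, d.1 + 1, if d.2 then -d.1 else 1, if d.2 then 1 else 0, s⟩

def pr (D : List (ℕ × Bool)) (ys : List ℝ) : ℝ :=
  (List.zipWith (fun d y => (cel false d).w y) D ys).prod

theorem tup_pr (D : List (ℕ × Bool)) (x : ℕ → ℝ) (S : Finset ℕ) :
    tup (D.map (cel false)) x S = tupL D.length (fun l => pr D (l.map x)) S := by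
  unfold tup pr
  induction D generalizing S with
  | nil => simp [tupF, tupL]
  | cons d D ih => simp only [List.map_cons, tupF, ih, List.length_cons, tupL,
      List.zipWith_cons_cons, List.prod_cons, tupL_mul]

theorem w0 (c : ℕ) {y : ℝ} (hy : 0 ≤ y) :
    (cel false (c, false)).w y = if ⌊y⌋₊ = c then 1 else 0 := by
  simp [cel, Cel.w, Nat.floor_eq_iff hy]

theorem w1 (c : ℕ) {y : ℝ} (hy : 0 ≤ y) :
    (cel false (c, true)).w y = (cel false (c, false)).w y * fr y := by
  rw [w0 c hy, fr]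
  simp only [cel, Cel.w, ← Nat.floor_eq_iff hy]
  split_ifs with e <;> simp [e, sub_eq_neg_add]

theorem vis_le {q : ℕ} {l : List ℕ} {M N : ℕ} (h : visB q l M N = true) :
    M ≤ q ∧ 4 * N + M ≤ 2 * q ∧ ∀ b ∈ l, b ≤ q := by
  induction l generalizing M N with
  | nil => simpa [visB] using h
  | cons b l ih =>
    rcases Bool.or_eq_true_iff.1 h with h | h <;> obtain ⟨a1, a2, a3⟩ := ih h <;>
      exact ⟨by omega, by omega, List.forall_mem_cons.2 ⟨by omega, a3⟩⟩

theorem vis_rep {q Z j M N : ℕ} (h : visB q (List.replicate j Z) M N = true) :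
    ∃ j₁ j₂, j₁ + j₂ = j ∧ M + j₁ * Z ≤ q ∧ 4 * (N + j₂ * Z) + (M + j₁ * Z) ≤ 2 * q := by
  induction j generalizing M N with
  | zero => exact ⟨0, 0, rfl, by have := vis_le h; omega⟩
  | succ j ih =>
    rcases Bool.or_eq_true_iff.1 h with h | h <;> obtain ⟨j₁, j₂, a1, a2, a3⟩ := ih h
    · exact ⟨j₁ + 1, j₂, by omega, by rw [add_mul]; omega⟩
    · exact ⟨j₁, j₂ + 1, by omega, by rw [add_mul]; omega⟩

theorem vis_cel {q : ℕ} (D : List (ℕ × Bool)) {l : List ℕ} {M N : ℕ}
    (h : visB q ((D.map Prod.fst).map (· + 1) ++ l) M N = true) :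
    ∃ L : List Cel, L.map Cel.w = (D.map (cel false)).map Cel.w ∧
      L.map Cel.I = (D.map (cel false)).map Cel.I ∧ (∀ c ∈ L, ∃ d ∈ D, c.a = d.1 ∧ c.b = d.1 + 1) ∧
      ∃ M' N' : ℕ, (M' : ℝ) = M + mM L ∧ (N' : ℝ) = N + mN L ∧ visB q l M' N' = true := by
  induction D generalizing M N with
  | nil => exact ⟨[], rfl, rfl, by simp, M, N, by simp [mM], by simp [mN], h⟩
  | cons d D ih =>
    rcases Bool.or_eq_true_iff.1 h with h | h <;> obtain ⟨L, a1, a2, a3, M', N', a4, a5, a6⟩ := ih h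
    · refine ⟨cel false d :: L, by simp only [List.map_cons, a1], by simp only [List.map_cons, a2],
        List.forall_mem_cons.2 ⟨⟨d, List.mem_cons_self .., rfl, rfl⟩, fun c hc =>
          (a3 c hc).imp fun _ e => ⟨List.mem_cons_of_mem _ e.1, e.2⟩⟩, M', N', ?_, ?_, a6⟩
      · rw [a4]; simp [mM, cel, add_assoc]
      · rw [a5]; simp [mN, cel]
    · refine ⟨cel true d :: L, by simp only [List.map_cons, a1]; rfl,
        by simp only [List.map_cons, a2]; rfl,
        List.forall_mem_cons.2 ⟨⟨d, List.mem_cons_self .., rfl, rfl⟩, fun c hc =>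
          (a3 c hc).imp fun _ e => ⟨List.mem_cons_of_mem _ e.1, e.2⟩⟩, M', N', ?_, ?_, a6⟩
      · rw [a4]; simp [mM, cel]
      · rw [a5]; simp [mN, cel, add_assoc]

/-- A row for tuples of `k` large elements with the factor `r ^ j`. -/
def RW (t : Tab) (j k : ℕ) (Φ : List ℝ → ℝ) (v : ℚ) : Prop :=
  RowQ t.Q (fun x S => rr t.Z x S ^ j * tupL k (fun l => Φ (l.map x)) (t.big x S)) v

variable {t : Tab} {j k : ℕ}

theorem RW.congr {Φ Ψ : List ℝ → ℝ} {v : ℚ} (h : RW t j k Φ v)
    (e : ∀ ys : List ℝ, ys.length = k → (∀ y ∈ ys, (t.Z : ℝ) ≤ y) → Φ ys = Ψ ys) : RW t j k Ψ v := by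
  unfold RW at h ⊢
  convert h using 4 with x S
  exact tupL_congr fun l a1 a2 => (e _ (by rw [List.length_map, a1]) fun y hy => by
    obtain ⟨p, hp, rfl⟩ := List.mem_map.1 hy
    exact (mem_filter.1 (a2 p hp)).2).symm

theorem RW.add (hQ : RowQStmt) (ho : t.Ok) {Φ Ψ : List ℝ → ℝ} {v v' : ℚ} (h : RW t j k Φ v)
    (h' : RW t j k Ψ v') : RW t j k (fun ys => Φ ys + Ψ ys) (v + v') := by
  simpa only [RW, tupL_add, mul_add, Rat.cast_add] using
    (hQ _ (ho.1.trans ho.2.1)).2.1 _ _ _ _ h h'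

theorem RW.zero (hQ : RowQStmt) (ho : t.Ok) : RW t j k (fun _ => 0) 0 := by
  have e : ∀ S, tupL k (fun _ => (0 : ℝ)) S = 0 := fun S => by
    simpa using tupL_mul k 0 (fun _ => 0) S
  simpa only [RW, e, mul_zero, Rat.cast_zero] using (hQ _ (ho.1.trans ho.2.1)).1 0

theorem RW.sum (hQ : RowQStmt) (ho : t.Ok) {ι : Type} (s : List ι) {Φ : ι → List ℝ → ℝ}
    {v : ι → ℚ} (h : ∀ i ∈ s, RW t j k (Φ i) (v i)) :
    RW t j k (fun ys => (s.map fun i => Φ i ys).sum) (s.map v).sum := by
  induction s with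
  | nil => exact RW.zero hQ ho
  | cons i s ih =>
    simpa only [List.map_cons, List.sum_cons] using (h i (List.mem_cons_self ..)).add hQ ho
      (ih fun i hi => h i (List.mem_cons_of_mem _ hi))

theorem rw_pr (hQ : RowQStmt) (hE : EStmt) (ho : t.Ok) (hj : j ≤ 3) (D : List (ℕ × Bool))
    (hD : ∀ d ∈ D, t.Z ≤ d.1) (a : ℤ) (ha : t.vis j (D.map Prod.fst) = true ∨ a = 0) {lo hi : ℚ}
    (h1 : (lo : ℝ) ≤ (D.map fun d => (cel false d).I).prod)
    (h2 : (D.map fun d => (cel false d).I).prod ≤ hi) :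
    RW t j D.length (fun ys => a * pr D ys) (momQ t.Z j * bd a lo hi) := by
  rcases ha with ha | rfl
  swap
  · simpa [bd] using RW.zero hQ ho
  obtain ⟨L, a1, a2, a3, M, N, a4, a5, a6⟩ := vis_cel D ha
  obtain ⟨j₁, j₂, rfl, b1, b2⟩ := vis_rep a6
  have Z0 : (0 : ℝ) < t.Z := by exact_mod_cast ho.1
  rw [Nat.cast_zero, zero_add] at a4 a5
  have m : ((momQ t.Z (j₁ + j₂) : ℚ) : ℝ) = mom t.Z (j₁ + j₂) ∧ 0 ≤ mom t.Z (j₁ + j₂) := by
    generalize j₁ + j₂ = j at hj
    interval_cases j <;> simp [momQ, mom]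
  refine (hQ _ (ho.1.trans ho.2.1)).2.2.2.2.2 _ _ _ _ (hE t.Q j₁ j₂ t.Z a L (ho.1.trans ho.2.1) Z0 hj
    (fun c hc => by
      obtain ⟨d, hd, e1, e2⟩ := a3 c hc
      rw [e1, e2]
      exact ⟨by exact_mod_cast hD d hd, by linarith⟩)
    (by rw [← a4]; exact_mod_cast b1) (by rw [← a4, ← a5]; exact_mod_cast b2)) ?_
    fun x S _ _ => le_of_eq ?_
  · rw [Rat.cast_mul, m.1, mul_left_comm, a2, List.map_map]
    refine mul_le_mul_of_nonneg_left ?_ m.2
    unfold bd
    split_ifs with e <;> push_cast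
    · exact mul_le_mul_of_nonneg_left h1 (by exact_mod_cast e)
    · exact mul_le_mul_of_nonpos_left h2 (by exact_mod_cast (not_le.1 e).le)
  · have e : ∀ L : List Cel, tup L x S = tupF ((L.map Cel.w).map fun f p => f (x p)) S := fun L => by
      rw [tup, List.map_map]; rfl
    rw [tupL_mul, ← tup_pr, e L, a1, ← e, mul_left_comm]
    congr 2
    refine tupF_sup fun φ hφ p hp => ?_
    obtain ⟨c, hc, rfl⟩ := List.mem_map.1 hφ
    obtain ⟨d, hd, rfl⟩ := List.mem_map.1 hc
    have : (t.Z : ℝ) ≤ d.1 := by exact_mod_cast hD d hd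
    refine (mem_filter.trans (and_iff_left ?_)).symm
    by_contra f
    exact hp (if_neg fun g => f (this.trans g.1))

theorem I0 (c : ℕ) : (cel false (c, false)).I = log ((c + 1) / c) := by simp [cel, Cel.I]

theorem I1 (c : ℕ) : (cel false (c, true)).I = 1 - c * log ((c + 1) / c) := by
  simp [cel, Cel.I, sub_eq_neg_add]

theorem enc0 {n : Enc} (hn : n.OkL) (cs : List ℕ) (h : ∀ c ∈ cs, 1 ≤ c) :
    (0 : ℝ) ≤ ((cs.map n.ll).prod : ℚ) ∧
    (((cs.map n.ll).prod : ℚ) : ℝ) ≤ (cs.map fun c => (cel false (c, false)).I).prod ∧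
    (cs.map fun c => (cel false (c, false)).I).prod ≤ ((cs.map n.lu).prod : ℚ) := by
  induction cs with
  | nil => simp
  | cons c cs ih =>
    obtain ⟨a1, a2, a3⟩ := ih fun d hd => h d (List.mem_cons_of_mem _ hd)
    obtain ⟨b1, b2, b3⟩ := hn c (h c (List.mem_cons_self ..))
    have b0 : (0 : ℝ) ≤ n.ll c := by exact_mod_cast b1
    simp only [List.map_cons, List.prod_cons, Rat.cast_mul]
    rw [I0]
    exact ⟨mul_nonneg b0 a1, mul_le_mul b2 a2 a1 (b0.trans b2),
      mul_le_mul b3 a3 (a1.trans a2) ((b0.trans b2).trans b3)⟩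

theorem enc1 {n : Enc} (hn : n.OkL) {c : ℕ} (h : 1 ≤ c) : (0 : ℝ) ≤ n.ul 1 c c ∧
    (n.ul 1 c c : ℝ) ≤ (cel false (c, true)).I ∧ (cel false (c, true)).I ≤ n.uu 1 c c := by
  obtain ⟨-, b2, b3⟩ := hn c h
  have c0 : (0 : ℝ) < c := by exact_mod_cast h
  have b4 := log_le_sub_one_of_pos (show (0 : ℝ) < (c + 1) / c by positivity)
  rw [div_sub_one c0.ne', add_sub_cancel_left, le_div_iff₀' c0] at b4
  have b5 := mul_le_mul_of_nonneg_left b2 c0.le
  have b6 := mul_le_mul_of_nonneg_left b3 c0.le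
  rw [I1, Enc.ul, Enc.uu]
  push_cast
  exact ⟨le_max_left _ _, max_le (by linarith) (by linarith), by linarith⟩

theorem rw_lin (hQ : RowQStmt) (hE : EStmt) (ho : t.Ok) (hj : j ≤ 3) {n : Enc} (hn : n.OkL)
    (co : ℕ → ℤ) (cs P : List ℕ) (hD : ∀ c ∈ P ++ cs, t.Z ≤ c)
    (ha : t.vis j (P ++ cs) = true ∨ ∀ i, co i = 0) (i : ℕ) :
    RW t j (P ++ cs).length (fun ys => pr ((P ++ cs).map (·, false)) ys *
      lin co ((ys.drop P.length).map fr) i)
      (momQ t.Z j * n.linB co cs (P.map n.ll).prod (P.map n.lu).prod i) := by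
  induction cs generalizing P i with
  | nil =>
    rw [Enc.linB, mul_zero]
    refine (RW.zero hQ ho).congr fun ys a1 _ => ?_
    rw [List.drop_of_length_le (by simpa using a1.le)]
    simp [lin]
  | cons c cs ih =>
    have h1 : ∀ d ∈ P ++ c :: cs, 1 ≤ d := fun d hd => ho.1.trans (hD d hd)
    obtain ⟨a1, a2, a3⟩ := enc0 hn P fun d hd => h1 d (by simp [hd])
    obtain ⟨b1, b2, b3⟩ := enc1 hn (h1 c (by simp))
    obtain ⟨c1, c2, c3⟩ := enc0 hn cs fun d hd => h1 d (by simp [hd])
    have e : (P.map (·, false) ++ (c, true) :: cs.map (·, false)).map Prod.fst = P ++ c :: cs := by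
      simp [Function.comp_def]
    have r1 := rw_pr hQ hE ho hj (P.map (·, false) ++ (c, true) :: cs.map (·, false))
      (fun d hd => hD _ (e ▸ List.mem_map_of_mem hd)) (co i) (e.symm ▸ ha.imp_right fun f => f i)
      (lo := (P.map n.ll).prod * n.ul 1 c c * (cs.map n.ll).prod)
      (hi := (P.map n.lu).prod * n.uu 1 c c * (cs.map n.lu).prod)
      (by
        simp only [List.map_append, List.map_cons, List.map_map, List.prod_append, List.prod_cons,
          Rat.cast_mul, Function.comp_def, mul_assoc]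
        exact mul_le_mul a2 (mul_le_mul b2 c2 c1 (b1.trans b2)) (mul_nonneg b1 c1) (a1.trans a2))
      (by
        simp only [List.map_append, List.map_cons, List.map_map, List.prod_append, List.prod_cons,
          Rat.cast_mul, Function.comp_def, mul_assoc]
        exact mul_le_mul a3 (mul_le_mul b3 c3 (c1.trans c2) ((b1.trans b2).trans b3))
          (mul_nonneg (b1.trans b2) (c1.trans c2)) ((a1.trans a2).trans a3))
    have r2 := ih (P ++ [c]) (by simpa using hD) (by simpa using ha) (i + 1)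
    rw [List.map_append (f := n.ll), List.map_append (f := n.lu), List.prod_append,
      List.prod_append, List.map_singleton, List.map_singleton, List.prod_singleton,
      List.prod_singleton, List.append_assoc, List.singleton_append] at r2
    rw [← List.length_map Prod.fst, e] at r1
    rw [Enc.linB, mul_add]
    refine (r1.add hQ ho r2).congr fun ys d1 d2 => ?_
    obtain ⟨y₁, y₂, rfl, d3⟩ : ∃ y₁ y₂, ys = y₁ ++ y₂ ∧ y₁.length = P.length :=
      ⟨_, _, (List.take_append_drop P.length ys).symm, List.length_take_of_le (by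
        rw [d1, List.length_append]; omega)⟩
    obtain _ | ⟨y, y₂⟩ := y₂
    · simp only [List.append_nil, d3, List.length_append, List.length_cons] at d1
      omega
    have y0 : 0 ≤ y := (Nat.cast_nonneg _).trans (d2 y (by simp))
    have d4 : (P.map (·, false)).length = y₁.length := by rw [List.length_map, d3]
    have d5 : (y₁ ++ y :: y₂).drop (P ++ [c]).length = y₂ := by
      rw [List.append_cons y₁]
      exact List.drop_left' (by rw [List.length_append, List.length_append, d3]; rfl)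
    simp only [d5, List.drop_left' d3, pr, List.map_append, List.map_cons, List.zipWith_append d4,
      List.zipWith_cons_cons, List.prod_append, List.prod_cons, w1 c y0, lin]
    ring

theorem rw_box (hQ : RowQStmt) (hE : EStmt) (ho : t.Ok) (hj : j ≤ 3) {n : Enc} (hn : n.OkL)
    (cs : List ℕ) (hD : ∀ c ∈ cs, t.Z ≤ c) :
    RW t j cs.length (fun ys => pr (cs.map (·, false)) ys *
      (t.co cs j 0 + if j ≤ 1 then lin (t.co cs j) (ys.map fr) 1 else 0)) (t.vD n cs j) := by
  have ha : t.vis j cs = true ∨ ∀ i, t.co cs j i = 0 :=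
    (em _).imp_right fun e i => if_neg e
  obtain ⟨-, a2, a3⟩ := enc0 hn cs fun d hd => ho.1.trans (hD d hd)
  have e : (cs.map (·, false)).map Prod.fst = cs := by simp [Function.comp_def]
  have r1 := rw_pr hQ hE ho hj (cs.map (·, false)) (fun d hd => hD _ (e ▸ List.mem_map_of_mem hd))
    (t.co cs j 0) (e.symm ▸ ha.imp_right fun f => f 0) (by rw [List.map_map]; exact a2)
    (by rw [List.map_map]; exact a3)
  have r2 := rw_lin hQ hE ho hj hn (t.co cs j) cs [] hD ha 1
  rw [List.length_map] at r1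
  rw [Tab.vD, Enc.box]
  split_ifs
  · rw [mul_add]
    refine (r1.add hQ ho r2).congr fun ys _ _ => ?_
    simp only [List.nil_append, List.length_nil, List.drop_zero]
    ring
  · rw [add_zero (bd _ _ _)]
    refine r1.congr fun ys _ _ => ?_
    ring

theorem mem_cells {Z Q k : ℕ} {cs : List ℕ} (h : cs ∈ cells Z Q k) :
    cs.length = k ∧ ∀ c ∈ cs, Z ≤ c := by
  induction k generalizing cs with
  | zero => simp only [cells, List.mem_singleton] at h; simp [h]
  | succ k ih =>
    obtain ⟨i, -, h1⟩ := List.mem_flatMap.1 h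
    obtain ⟨ds, h2, rfl⟩ := List.mem_map.1 h1
    exact ⟨by rw [List.length_cons, (ih h2).1], List.forall_mem_cons.2 ⟨by omega, (ih h2).2⟩⟩

theorem sum_rg (n : ℕ) (f : ℕ → ℝ) : ((List.range n).map f).sum = ∑ i ∈ range n, f i := by
  induction n with
  | zero => simp
  | succ n ih => rw [List.range_succ, List.map_append, List.sum_append, ih, sum_range_succ]; simp

theorem sum_cells {Z Q : ℕ} (ys : List ℝ) (h : ∀ y ∈ ys, (Z : ℝ) ≤ y) (H : List ℕ → ℝ) :
    ((cells Z Q ys.length).map fun cs => pr (cs.map (·, false)) ys * H cs).sum =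
      if ∀ y ∈ ys, ⌊y⌋₊ < Q then H (ys.map fun y => ⌊y⌋₊) else 0 := by
  induction ys generalizing H with
  | nil => simp [cells, pr]
  | cons y ys ih =>
    have y1 := h y (List.mem_cons_self ..)
    have y0 : 0 ≤ y := (Nat.cast_nonneg _).trans y1
    have y2 : Z ≤ ⌊y⌋₊ := Nat.le_floor y1
    have e := fun H => ih (fun z hz => h z (List.mem_cons_of_mem _ hz)) H
    unfold pr at e ⊢
    simp only [List.length_cons, cells, List.map_flatten, List.flatMap_def, List.sum_flatten,
      List.map_map, Function.comp_def, List.map_cons, List.zipWith_cons_cons, List.prod_cons,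
      mul_assoc, List.sum_map_mul_left, e, sum_rg, List.forall_mem_cons]
    simp only [w0 _ y0, ite_mul, one_mul, zero_mul]
    by_cases f : ⌊y⌋₊ < Q
    · rw [sum_eq_single_of_mem (⌊y⌋₊ - Z) (mem_range.2 (by omega)) fun i _ g => if_neg (by omega),
        add_tsub_cancel_of_le y2]
      simp [f]
    · rw [sum_eq_zero fun i hi => if_neg (by have := mem_range.1 hi; omega), if_neg fun g => f g.1]

theorem lin_zero (us : List ℝ) (i : ℕ) : lin (fun _ => 0) us i = 0 := by
  induction us generalizing i with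
  | nil => rfl
  | cons u us ih => simp [lin, ih]

theorem rw_all (hQ : RowQStmt) (hE : EStmt) (ho : t.Ok) (hj : j ≤ 3) {n : Enc} (hn : n.OkL) (k : ℕ) :
    RW t j k (fun ys => t.co (ys.map fun y : ℝ => ⌊y⌋₊) j 0 +
      if j ≤ 1 then lin (t.co (ys.map fun y : ℝ => ⌊y⌋₊) j) (ys.map fr) 1 else 0)
      ((cells t.Z t.Q k).map fun cs => t.vD n cs j).sum := by
  refine (RW.sum hQ ho _ fun cs h =>
    (mem_cells h).1 ▸ rw_box hQ hE ho hj hn cs (mem_cells h).2).congr fun ys a1 a2 => ?_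
  rw [← a1, sum_cells ys a2 fun cs =>
    t.co cs j 0 + if j ≤ 1 then lin (t.co cs j) (ys.map fr) 1 else 0]
  refine ite_eq_left_iff.2 fun f => ?_
  have : t.co (ys.map fun y : ℝ => ⌊y⌋₊) j = fun _ => 0 := funext fun _ => if_neg fun g =>
    f fun y hy => (vis_le g).2.2 _ (List.mem_append_left _
      (List.mem_map_of_mem (List.mem_map_of_mem hy)))
  simp [this, lin_zero]

end ME

open ME in
theorem mE (hQ : RowQStmt) (hE : EStmt) : MEStmt := by
  intro t n k ho hn _
  have h := hQ _ (ho.1.trans ho.2.1)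
  have r := fun j hj => rw_all hQ hE ho (j := j) hj hn k
  refine h.2.2.2.2.2 _ _ _ _ (h.2.1 _ _ _ _ (h.2.1 _ _ _ _ (h.2.1 _ _ _ _ (r 0 (by omega))
    (r 1 (by omega))) (r 2 (by omega))) (r 3 le_rfl)) (le_of_eq ?_) fun x S _ _ => le_of_eq ?_
  · simp only [Tab.vE, List.sum_map_add, Rat.cast_add]
  · simp only [Tab.GE, Tab.AE, sum_range_succ, sum_range_zero, zero_add, ← tupL_mul, ← tupL_add]

end Pool.Agent.Lib.MP_4b1228_nt.PP.R4
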