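import Pool.Agent.Lib.MP_4b1228_nt.PP.R4b
import Pool.Agent.Lib.MP_4b1228_nt.PP.R4E

/-! The mean of the exact rows on small boxes. -/

open Finset Real
open scoped Classical

noncomputable section

namespace Pool.Agent.Lib.MP_4b1228_nt.PP.R4

open R3 ME

namespace MC

/-- The box `[k / m, (k + 1) / m)` with the weight `1` or the fractional part. -/
def cel (m : ℕ) (s : Bool) (d : ℕ × Bool) : Cel :=
  ⟨d.1 / m, (d.1 + 1) / m, if d.2 then -(d.1 / m : ℕ) else 1, if d.2 then 1 else 0, s⟩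

def pm (m : ℕ) (D : List (ℕ × Bool)) (ys : List ℝ) : ℝ :=
  (List.zipWith (fun d y => (cel m false d).w y) D ys).prod

theorem tup_pm (m : ℕ) (D : List (ℕ × Bool)) (x : ℕ → ℝ) (S : Finset ℕ) :
    tup (D.map (cel m false)) x S = tupL D.length (fun l => pm m D (l.map x)) S := by
  unfold tup pm
  induction D generalizing S with
  | nil => simp [tupF, tupL]
  | cons d D ih => simp only [List.map_cons, tupF, ih, List.length_cons, tupL,
      List.zipWith_cons_cons, List.prod_cons, tupL_mul]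

theorem fl {m : ℕ} (hm : 1 ≤ m) (y : ℝ) : ⌊y⌋₊ = ⌊m * y⌋₊ / m := by
  have m0 : (m : ℝ) ≠ 0 := by positivity
  rw [← Nat.floor_div_natCast, mul_div_cancel_left₀ _ m0]

theorem box {m : ℕ} (hm : 1 ≤ m) (k : ℕ) {y : ℝ} (hy : 0 ≤ y) :
    ((k : ℝ) / m ≤ y ∧ y < (k + 1) / m) ↔ ⌊m * y⌋₊ = k := by
  have m0 : (0 : ℝ) < m := by positivity
  rw [Nat.floor_eq_iff (by positivity), div_le_iff₀' m0, lt_div_iff₀' m0]

theorem w0 {m : ℕ} (hm : 1 ≤ m) (k : ℕ) {y : ℝ} (hy : 0 ≤ y) :
    (cel m false (k, false)).w y = if ⌊m * y⌋₊ = k then 1 else 0 := by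
  simp [cel, Cel.w, box hm k hy]

theorem w1 {m : ℕ} (hm : 1 ≤ m) (k : ℕ) {y : ℝ} (hy : 0 ≤ y) :
    (cel m false (k, true)).w y = (cel m false (k, false)).w y * fr y := by
  rw [w0 hm k hy, fr, fl hm y]
  simp only [cel, Cel.w, box hm k hy]
  split_ifs with e <;> simp [e, sub_eq_neg_add]

theorem vis_cel {q m : ℕ} (hm : 1 ≤ m) (D : List (ℕ × Bool)) {l : List ℕ} {M N : ℕ}
    (h : visB q ((D.map Prod.fst).map (· + 1) ++ l) M N = true) :
    ∃ L : List Cel, L.map Cel.w = (D.map (cel m false)).map Cel.w ∧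
      L.map Cel.I = (D.map (cel m false)).map Cel.I ∧
      (∀ c ∈ L, ∃ d ∈ D, c.a = d.1 / m ∧ c.b = (d.1 + 1) / m) ∧
      ∃ M' N' : ℕ, (M' : ℝ) = M + m * mM L ∧ (N' : ℝ) = N + m * mN L ∧ visB q l M' N' = true := by
  have m0 : (m : ℝ) ≠ 0 := by positivity
  induction D generalizing M N with
  | nil => exact ⟨[], rfl, rfl, by simp, M, N, by simp [mM], by simp [mN], h⟩
  | cons d D ih =>
    rcases Bool.or_eq_true_iff.1 h with h | h <;> obtain ⟨L, a1, a2, a3, M', N', a4, a5, a6⟩ := ih h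
    · refine ⟨cel m false d :: L, by simp only [List.map_cons, a1], by simp only [List.map_cons, a2],
        List.forall_mem_cons.2 ⟨⟨d, List.mem_cons_self .., rfl, rfl⟩, fun c hc =>
          (a3 c hc).imp fun _ e => ⟨List.mem_cons_of_mem _ e.1, e.2⟩⟩, M', N', ?_, ?_, a6⟩
      · rw [a4]; simp [mM, cel, add_assoc, mul_add, mul_div_cancel₀ _ m0]
      · rw [a5]; simp [mN, cel]
    · refine ⟨cel m true d :: L, by simp only [List.map_cons, a1]; rfl,
        by simp only [List.map_cons, a2]; rfl,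
        List.forall_mem_cons.2 ⟨⟨d, List.mem_cons_self .., rfl, rfl⟩, fun c hc =>
          (a3 c hc).imp fun _ e => ⟨List.mem_cons_of_mem _ e.1, e.2⟩⟩, M', N', ?_, ?_, a6⟩
      · rw [a4]; simp [mM, cel]
      · rw [a5]; simp [mN, cel, add_assoc, mul_add, mul_div_cancel₀ _ m0]

variable {t : Tab} {j k : ℕ}

theorem rw_pm (hQ : RowQStmt) (hE : EStmt) (ho : t.Ok) (hj : j ≤ 3) (D : List (ℕ × Bool))
    (hD : ∀ d ∈ D, t.m * t.Z ≤ d.1) (a : ℤ) (ha : t.visM j (D.map Prod.fst) = true) {lo hi : ℚ}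
    (h1 : (lo : ℝ) ≤ (D.map fun d => (cel t.m false d).I).prod)
    (h2 : (D.map fun d => (cel t.m false d).I).prod ≤ hi) :
    RW t j D.length (fun ys => a * pm t.m D ys) (momQ t.Z j * bd a lo hi) := by
  obtain ⟨L, a1, a2, a3, M, N, a4, a5, a6⟩ := vis_cel ho.2.2.1 D ha
  obtain ⟨j₁, j₂, rfl, b1, b2⟩ := vis_rep a6
  have Z0 : (0 : ℝ) < t.Z := by exact_mod_cast ho.1
  have m0 : (0 : ℝ) < t.m := by exact_mod_cast ho.2.2.1
  have z : ∀ d ∈ D, (t.Z : ℝ) ≤ d.1 / t.m := fun d hd => by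
    rw [le_div_iff₀' m0]; exact_mod_cast hD d hd
  rw [Nat.cast_zero, zero_add] at a4 a5
  have c1 : (M : ℝ) + j₁ * (t.m * t.Z) ≤ t.m * t.Q := by exact_mod_cast b1
  have c2 : 4 * ((N : ℝ) + j₂ * (t.m * t.Z)) + (M + j₁ * (t.m * t.Z)) ≤ 2 * (t.m * t.Q) := by
    exact_mod_cast b2
  have m : ((momQ t.Z (j₁ + j₂) : ℚ) : ℝ) = mom t.Z (j₁ + j₂) ∧ 0 ≤ mom t.Z (j₁ + j₂) := by
    generalize j₁ + j₂ = j at hj
    interval_cases j <;> simp [momQ, mom]
  refine (hQ _ (ho.1.trans ho.2.1)).2.2.2.2.2 _ _ _ _ (hE t.Q j₁ j₂ t.Z a L (ho.1.trans ho.2.1) Z0 hj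
    (fun c hc => by
      obtain ⟨d, hd, e1, e2⟩ := a3 c hc
      rw [e1, e2]
      exact ⟨z d hd, div_le_div_of_nonneg_right (by linarith) m0.le⟩)
    (le_of_mul_le_mul_left (by linarith) m0) (le_of_mul_le_mul_left (by linarith) m0)) ?_
    fun x S _ _ => le_of_eq ?_
  · rw [Rat.cast_mul, m.1, mul_left_comm, a2, List.map_map]
    refine mul_le_mul_of_nonneg_left ?_ m.2
    unfold bd
    split_ifs with e <;> push_cast
    · exact mul_le_mul_of_nonneg_left h1 (by exact_mod_cast e)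
    · exact mul_le_mul_of_nonpos_left h2 (by exact_mod_cast (not_le.1 e).le)
  · have e : ∀ L : List Cel, tup L x S = tupF ((L.map Cel.w).map fun f p => f (x p)) S := fun L => by
      rw [tup, List.map_map]; rfl
    rw [tupL_mul, ← tup_pm, e L, a1, ← e, mul_left_comm]
    congr 2
    refine tupF_sup fun φ hφ p hp => ?_
    obtain ⟨c, hc, rfl⟩ := List.mem_map.1 hφ
    obtain ⟨d, hd, rfl⟩ := List.mem_map.1 hc
    refine (mem_filter.trans (and_iff_left ?_)).symm
    by_contra f
    exact hp (if_neg fun g => f ((z d hd).trans g.1))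

theorem I0 {m : ℕ} (hm : 1 ≤ m) (k : ℕ) :
    (cel m false (k, false)).I = (ME.cel false (k, false)).I := by
  have m0 : (m : ℝ) ≠ 0 := by positivity
  simp [cel, ME.cel, Cel.I, div_div_div_cancel_right₀ m0]

theorem enc1 {n : Enc} (hn : n.OkL) {m k : ℕ} (hm : 1 ≤ m) (h : 1 ≤ k) :
    (0 : ℝ) ≤ n.ul m (k / m) k ∧ (n.ul m (k / m) k : ℝ) ≤ (cel m false (k, true)).I ∧
      (cel m false (k, true)).I ≤ n.uu m (k / m) k := by
  obtain ⟨-, b2, b3⟩ := hn k h
  have m0 : (0 : ℝ) < m := by positivity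
  have k0 : (0 : ℝ) < k := by exact_mod_cast h
  have e : (cel m false (k, true)).I = 1 / m - (k / m : ℕ) * log ((k + 1) / k) := by
    simp only [cel, Cel.I, div_div_div_cancel_right₀ m0.ne', if_true]
    ring
  have b4 := log_le_sub_one_of_pos (show (0 : ℝ) < (k + 1) / k by positivity)
  rw [div_sub_one k0.ne', add_sub_cancel_left] at b4
  have c0 : (0 : ℝ) ≤ (k / m : ℕ) := Nat.cast_nonneg _
  have b5 := mul_le_mul_of_nonneg_left b2 c0
  have b6 := mul_le_mul_of_nonneg_left b3 c0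
  have b7 := mul_le_mul (Nat.cast_div_le (m := k) (n := m)) b4
    (log_nonneg ((one_le_div k0).2 (by linarith))) (by positivity)
  rw [show (k : ℝ) / m * (1 / k) = 1 / m by field_simp] at b7
  rw [e, Enc.ul, Enc.uu]
  push_cast
  exact ⟨le_max_left _ _, max_le (by linarith) (by linarith), by linarith⟩

theorem rw_lin (hQ : RowQStmt) (hE : EStmt) (ho : t.Ok) (hj : j ≤ 3) {n : Enc} (hn : n.OkL)
    (co : ℕ → ℤ) (cs P : List ℕ) (hD : ∀ c ∈ P ++ cs, t.m * t.Z ≤ c)
    (ha : t.visM j (P ++ cs) = true) (i : ℕ) :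
    RW t j (P ++ cs).length (fun ys => pm t.m ((P ++ cs).map (·, false)) ys *
      lin co ((ys.drop P.length).map fr) i)
      (momQ t.Z j * n.linM t.m co cs (P.map n.ll).prod (P.map n.lu).prod i) := by
  have hm := ho.2.2.1
  induction cs generalizing P i with
  | nil =>
    rw [Enc.linM, mul_zero]
    refine (RW.zero hQ ho).congr fun ys a1 _ => ?_
    rw [List.drop_of_length_le (by simpa using a1.le)]
    simp [lin]
  | cons c cs ih =>
    have h1 : ∀ d ∈ P ++ c :: cs, 1 ≤ d := fun d hd => (Nat.mul_pos hm ho.1).trans_le (hD d hd)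
    obtain ⟨a1, a2, a3⟩ := enc0 hn P fun d hd => h1 d (by simp [hd])
    obtain ⟨b1, b2, b3⟩ := enc1 hn hm (h1 c (by simp))
    obtain ⟨c1, c2, c3⟩ := enc0 hn cs fun d hd => h1 d (by simp [hd])
    have e : (P.map (·, false) ++ (c, true) :: cs.map (·, false)).map Prod.fst = P ++ c :: cs := by
      simp [Function.comp_def]
    have r1 := rw_pm hQ hE ho hj (P.map (·, false) ++ (c, true) :: cs.map (·, false))
      (fun d hd => hD _ (e ▸ List.mem_map_of_mem hd)) (co i) (e.symm ▸ ha)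
      (lo := (P.map n.ll).prod * n.ul t.m (c / t.m) c * (cs.map n.ll).prod)
      (hi := (P.map n.lu).prod * n.uu t.m (c / t.m) c * (cs.map n.lu).prod)
      (by
        simp only [List.map_append, List.map_cons, List.map_map, List.prod_append, List.prod_cons,
          Rat.cast_mul, Function.comp_def, mul_assoc, I0 hm]
        exact mul_le_mul a2 (mul_le_mul b2 c2 c1 (b1.trans b2)) (mul_nonneg b1 c1) (a1.trans a2))
      (by
        simp only [List.map_append, List.map_cons, List.map_map, List.prod_append, List.prod_cons,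
          Rat.cast_mul, Function.comp_def, mul_assoc, I0 hm]
        exact mul_le_mul a3 (mul_le_mul b3 c3 (c1.trans c2) ((b1.trans b2).trans b3))
          (mul_nonneg (b1.trans b2) (c1.trans c2)) ((a1.trans a2).trans a3))
    have r2 := ih (P ++ [c]) (by simpa using hD) (by simpa using ha) (i + 1)
    rw [List.map_append (f := n.ll), List.map_append (f := n.lu), List.prod_append,
      List.prod_append, List.map_singleton, List.map_singleton, List.prod_singleton,
      List.prod_singleton, List.append_assoc, List.singleton_append] at r2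
    rw [← List.length_map Prod.fst, e] at r1
    rw [Enc.linM, mul_add]
    refine (r1.add hQ ho r2).congr fun ys d1 d2 => ?_
    obtain ⟨y₁, y₂, rfl, d3⟩ : ∃ y₁ y₂, ys = y₁ ++ y₂ ∧ y₁.length = P.length :=
      ⟨_, _, (List.take_append_drop P.length ys).symm, List.length_take_of_le (by
        rw [d1, List.length_append]; omega)⟩
    obtain _ | ⟨y, y₂⟩ := y₂
    · simp only [List.append_nil, d3, List.length_append, List.length_cons] at d1
      omega
    have y0 : 0 ≤ y := (Nat.cast_nonneg _).trans (d2 y (by simp))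
    have d4 : (P.map (·, false)).length = y₁.length := by rw [List.length_map, d3]
    have d5 : (y₁ ++ y :: y₂).drop (P ++ [c]).length = y₂ := by
      rw [List.append_cons y₁]
      exact List.drop_left' (by rw [List.length_append, List.length_append, d3]; rfl)
    simp only [d5, List.drop_left' d3, pm, List.map_append, List.map_cons, List.zipWith_append d4,
      List.zipWith_cons_cons, List.prod_append, List.prod_cons, w1 hm c y0, lin]
    ring

theorem rw_box (hQ : RowQStmt) (hE : EStmt) (ho : t.Ok) (hj : j ≤ 3) {n : Enc} (hn : n.OkL)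
    (co : ℕ → ℤ) (ks : List ℕ) (hD : ∀ c ∈ ks, t.m * t.Z ≤ c) :
    RW t j ks.length (fun ys => pm t.m (ks.map (·, false)) ys *
      if t.visM j ks then co 0 + lin co (ys.map fr) 1 else 0)
      (momQ t.Z j * if t.visM j ks then n.boxM t.m co ks else 0) := by
  split_ifs with ha
  swap
  · simpa only [mul_zero] using RW.zero hQ ho
  obtain ⟨-, a2, a3⟩ := enc0 hn ks fun d hd => (Nat.mul_pos ho.2.2.1 ho.1).trans_le (hD d hd)
  have e : (ks.map (·, false)).map Prod.fst = ks := by simp [Function.comp_def]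
  have r1 := rw_pm hQ hE ho hj (ks.map (·, false)) (fun d hd => hD _ (e ▸ List.mem_map_of_mem hd))
    (co 0) (e.symm ▸ ha) (by simpa only [List.map_map, Function.comp_def, I0 ho.2.2.1] using a2)
    (by simpa only [List.map_map, Function.comp_def, I0 ho.2.2.1] using a3)
  have r2 := rw_lin hQ hE ho hj hn co ks [] hD ha 1
  rw [List.length_map] at r1
  rw [Enc.boxM, mul_add]
  refine (r1.add hQ ho r2).congr fun ys _ _ => ?_
  simp only [List.nil_append, List.length_nil, List.drop_zero]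
  ring

theorem mem_subs {m Z : ℕ} {cs ks : List ℕ} (h : ks ∈ subs m cs) (hZ : ∀ c ∈ cs, Z ≤ c) :
    ks.length = cs.length ∧ ∀ c ∈ ks, m * Z ≤ c := by
  induction cs generalizing ks with
  | nil => simp only [subs, List.mem_singleton] at h; simp [h]
  | cons c cs ih =>
    obtain ⟨i, -, h1⟩ := List.mem_flatMap.1 h
    obtain ⟨ds, h2, rfl⟩ := List.mem_map.1 h1
    obtain ⟨a1, a2⟩ := ih h2 fun d hd => hZ d (List.mem_cons_of_mem _ hd)
    exact ⟨by rw [List.length_cons, a1, List.length_cons], List.forall_mem_cons.2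
      ⟨(Nat.mul_le_mul_left m (hZ c (List.mem_cons_self ..))).trans (Nat.le_add_right _ _), a2⟩⟩

theorem sum_subs {m : ℕ} (hm : 1 ≤ m) (cs : List ℕ) (ys : List ℝ) (hl : ys.length = cs.length)
    (h : ∀ y ∈ ys, 0 ≤ y) (H : List ℕ → ℝ) :
    ((subs m cs).map fun ks => pm m (ks.map (·, false)) ys * H ks).sum =
      pr (cs.map (·, false)) ys * H (ys.map fun y : ℝ => ⌊m * y⌋₊) := by
  induction cs generalizing ys H with
  | nil => obtain rfl := List.length_eq_zero_iff.1 hl; simp [subs, pm, pr]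
  | cons c cs ih =>
    obtain _ | ⟨y, ys⟩ := ys
    · simp at hl
    have y0 := h y (List.mem_cons_self ..)
    have e := fun H => ih ys (Nat.succ.inj hl) (fun z hz => h z (List.mem_cons_of_mem _ hz)) H
    unfold pm pr at e ⊢
    simp only [subs, List.map_flatten, List.flatMap_def, List.sum_flatten,
      List.map_map, Function.comp_def, List.map_cons, List.zipWith_cons_cons, List.prod_cons,
      mul_assoc, List.sum_map_mul_left, e, sum_rg]
    simp only [w0 hm _ y0, ME.w0 _ y0, ite_mul, one_mul, zero_mul, fl hm y]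
    generalize ⌊m * y⌋₊ = K
    split_ifs with f
    · subst f
      rw [sum_eq_single_of_mem (K % m) (mem_range.2 (Nat.mod_lt _ hm)) fun i hi g => if_neg fun f =>
        g (by rw [f, Nat.mul_add_mod, Nat.mod_eq_of_lt (mem_range.1 hi)]), Nat.div_add_mod, if_pos rfl]
    · exact sum_eq_zero fun i hi => if_neg fun g => f (by
        rw [g, Nat.mul_add_div hm, Nat.div_eq_of_lt (mem_range.1 hi), add_zero])

theorem rw_cell {t : Tab2} (hQ : RowQStmt) (hE : EStmt) (ho : t.Ok) (hj : j ≤ 3) {n : Enc}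
    (hn : n.OkL) (cs : List ℕ) (hD : ∀ c ∈ cs, t.Z ≤ c) :
    RW t.toTab j cs.length (fun ys => pr (cs.map (·, false)) ys *
      if t.visM j (ys.map fun y : ℝ => ⌊t.m * y⌋₊) then
        t.cc cs j 0 + lin (t.cc cs j) (ys.map fr) 1 else 0) (if t.on cs then t.vB n cs j else 0) := by
  unfold Tab2.cc
  split_ifs
  · rw [Tab2.vB, ← List.sum_map_mul_left]
    refine (RW.sum hQ ho _ fun ks h => (mem_subs h hD).1 ▸
      rw_box hQ hE ho hj hn (t.c cs j) ks (mem_subs h hD).2).congr fun ys a1 a2 => ?_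
    exact sum_subs ho.2.2.1 cs ys a1 (fun y hy => (Nat.cast_nonneg _).trans (a2 y hy)) fun ks =>
      if t.visM j ks then t.c cs j 0 + lin (t.c cs j) (ys.map fr) 1 else 0
  · refine (RW.zero hQ ho).congr fun ys _ _ => ?_
    simp [lin_zero]

theorem rw_all {t : Tab2} (hQ : RowQStmt) (hE : EStmt) (ho : t.Ok) (hj : j ≤ 3) {n : Enc}
    (hn : n.OkL) (k : ℕ) :
    RW t.toTab j k (fun ys => if t.visM j (ys.map fun y : ℝ => ⌊t.m * y⌋₊) then
      t.cc (ys.map fun y : ℝ => ⌊y⌋₊) j 0 +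
        lin (t.cc (ys.map fun y : ℝ => ⌊y⌋₊) j) (ys.map fr) 1 else 0)
      ((cells t.Z t.Q k).map fun cs => if t.on cs then t.vB n cs j else 0).sum := by
  refine (RW.sum hQ ho _ fun cs h =>
    (mem_cells h).1 ▸ rw_cell hQ hE ho hj hn cs (mem_cells h).2).congr fun ys a1 a2 => ?_
  rw [← a1, sum_cells ys a2 fun cs => if t.visM j (ys.map fun y : ℝ => ⌊t.m * y⌋₊) then
    t.cc cs j 0 + lin (t.cc cs j) (ys.map fr) 1 else 0]
  refine ite_eq_left_iff.2 fun f => (if_neg fun g => f fun y hy => ?_).symm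
  rw [fl ho.2.2.1 y]
  exact Nat.div_lt_of_lt_mul ((vis_le g).2.2 _ (List.mem_append_left _
    (List.mem_map_of_mem (List.mem_map_of_mem hy))))

end MC

open MC in
theorem mC (hQ : RowQStmt) (hE : EStmt) : MCStmt := by
  intro t n k ho hn _
  have h := hQ _ (ho.1.trans ho.2.1)
  have r := fun j hj => MC.rw_all hQ hE ho (j := j) hj hn k
  refine h.2.2.2.2.2 _ _ _ _ (h.2.1 _ _ _ _ (r 0 (by omega)) (r 1 (by omega))) (le_of_eq ?_)
    fun x S _ _ => le_of_eq ?_
  · rw [← Rat.cast_add, ← List.sum_map_add, Tab2.vC]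
    simp only [ite_add_ite, add_zero]
  · simp only [Tab2.GC, Tab2.AC, sum_range_succ, sum_range_zero, zero_add, ← tupL_mul, ← tupL_add,
      mul_ite, mul_zero]

end Pool.Agent.Lib.MP_4b1228_nt.PP.R4
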