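import Pool.Agent.Lib.MP_4b1228_nt.PP.R4D

/-!
Rational enclosures of `log ((k + 1) / k)`.
-/

open Finset Real

namespace Pool.Agent.Lib.MP_4b1228_nt.PP.R4

def lgS (n : ℕ) : ℕ :=
  2000000000000 / n + 2000000000000 / (3 * n ^ 3) + 2000000000000 / (5 * n ^ 5) +
    2000000000000 / (7 * n ^ 7)

def llQ (k : ℕ) : ℚ := (lgS (2 * k + 1) : ℚ) / 1000000000000

def luQ (k : ℕ) : ℚ := (lgS (2 * k + 1) + 250000000000 / (2 * k + 1) ^ 9 + 5 : ℕ) / 1000000000000

theorem div_up (x y : ℕ) (hy : 0 < y) : (x : ℝ) / y ≤ (x / y : ℕ) + 1 := by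
  rw [div_le_iff₀ (by exact_mod_cast hy)]
  have := Nat.lt_div_mul_add (a := x) hy
  exact_mod_cast (show x ≤ (x / y + 1) * y by rw [Nat.succ_mul]; exact this.le)

theorem log_encl (k : ℕ) (hk : 1 ≤ k) :
    0 ≤ llQ k ∧ (llQ k : ℝ) ≤ log ((k + 1) / k) ∧ log ((k + 1) / k) ≤ luQ k := by
  have k1 : (1 : ℝ) ≤ k := by exact_mod_cast hk
  have hs := hasSum_log_one_add_inv (a := k) (by linarith)
  rw [show 1 + (k : ℝ)⁻¹ = (k + 1) / k by field_simp] at hs
  obtain ⟨n, hn⟩ : ∃ n : ℕ, n = 2 * k + 1 := ⟨_, rfl⟩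
  have e : 2 * (k : ℝ) + 1 = n := by rw [hn]; push_cast; ring
  have n3 : (3 : ℝ) ≤ n := by linarith
  have n0 : 0 < n := by omega
  rw [e] at hs
  have e4 : ∑ i ∈ range 4, 2 * (1 / (2 * (i : ℝ) + 1)) * (1 / (n : ℝ)) ^ (2 * i + 1) =
      (2000000000000 / n + 2000000000000 / (3 * n ^ 3) + 2000000000000 / (5 * n ^ 5) +
        2000000000000 / (7 * n ^ 7)) / 1000000000000 := by
    simp only [sum_range_succ, range_zero, sum_empty]
    push_cast
    field_simp
    ring
  refine ⟨by unfold llQ; positivity, le_trans ?_ (sum_le_hasSum (range 4)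
    (fun i _ => by positivity) hs), ?_⟩
  · rw [e4, llQ, ← hn, lgS]
    push_cast
    gcongr <;> exact Nat.cast_div_le.trans (by push_cast; exact le_rfl)
  · have h1 := (hasSum_nat_add_iff' 4).2 hs
    have h2 := (hasSum_geometric_of_lt_one (r := 1 / 9) (by norm_num) (by norm_num)).mul_left
      (2 / 9 * (1 / (n : ℝ)) ^ 9)
    have h3 := hasSum_le (fun i => ?_) h1 h2
    · rw [e4] at h3
      rw [luQ, ← hn, lgS]
      have a1 := div_up 2000000000000 n n0
      have a3 := div_up 2000000000000 (3 * n ^ 3) (by positivity)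
      have a5 := div_up 2000000000000 (5 * n ^ 5) (by positivity)
      have a7 := div_up 2000000000000 (7 * n ^ 7) (by positivity)
      have a9 := div_up 250000000000 (n ^ 9) (by positivity)
      have e9 : (1 / (n : ℝ)) ^ 9 = 250000000000 / n ^ 9 / 250000000000 := by field_simp
      rw [e9] at h3
      simp only [Nat.cast_add, Rat.cast_div, Rat.cast_add, Rat.cast_natCast, Rat.cast_ofNat,
        Nat.cast_mul, Nat.cast_pow, Nat.cast_ofNat] at a1 a3 a5 a7 a9 ⊢
      linarith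
    · have x0 : (0 : ℝ) ≤ 1 / n := by positivity
      have x1 : (1 / (n : ℝ)) ^ 2 ≤ 1 / 9 := by
        rw [div_pow, div_le_div_iff₀ (by positivity) (by norm_num)]
        nlinarith
      rw [show 2 * (i + 4) + 1 = 9 + 2 * i by ring, pow_add, pow_mul, ← mul_assoc]
      push_cast
      have : 2 * (1 / (2 * ((i : ℝ) + 4) + 1)) ≤ 2 / 9 := by
        rw [mul_one_div, div_le_div_iff₀ (by positivity) (by norm_num)]
        linarith [(Nat.cast_nonneg i : (0 : ℝ) ≤ i)]
      gcongr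

theorem okL (n : Enc) (h1 : n.ll = llQ) (h2 : n.lu = luQ) : n.OkL := fun k hk => by
  rw [h1, h2]; exact log_encl k hk

end Pool.Agent.Lib.MP_4b1228_nt.PP.R4
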