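import Pool.Agent.Lib.MP_4b1228_nt.PP.CtF

/-!
Cell certificates: data.
-/

namespace Pool.Agent.Lib.MP_4b1228_nt.PP.Ct

def v0 : Par := ⟨1208332, 1210417, 210418, 263194, 289581, 2500, 216240013282898903435380953622869, 341, 19, 39152629618000463848167835823052490568971172243088329014530731387401892335723895969373528101804731001558152250419240283159713748272873870511656, 10000, 10000, 111, 1395453595551371306387046944510968530966028246254998786943423824390101340807909527521259500072832083257843104360488938489737993385615210547917889792829998842569520892520279455672201203328784845911966705352579874153567599256862687242892101455096521342599354039172976073183723366205798701746167802713772873635187759546300071690956800125322582651315673671662783494371906752638443792795977095153406934719170933534104326847418666221871462626360251372637057644098535990698763758967270188783971529754626655257017496149047347787617537720074055190813527444555374902076980205731201313063543561723823751052524593449882837543103842122615036837677902567443159144107119721712551469327610473687541078366970002989552514896471689200025046210215486186216582177301833652746249068903171300385187013620739601593721247387176586229192173052150380115597366368164409653945353743164973183409093620907874428217257827716980866349281086730186913995684134636596049238107742935081832018899502245872417529854750860695801436963776175908804230523930427195382796124617884489293324589094365537907208727233825509950218337021185859007281173031036648577130010322341768864911829301974785383909980444230744094324097561525412666748997602324840110558645644666355408494805459783934156244366118806319445504425568671633267110042881617354919235039103679677049551573179417947145774171441723905969210483797057981216420552964400313662327003102103182924899119367503892851874149392876175586258062906699798598170805878651553836762461480291096775635588783961428394123696493142587917203697691300366344237500002627492175140476152349041107920558564711596032,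 153742535094973026963777485243290789084742808476906320747821157724729767227262238266467224555555970787152227545681533586836069914500339237617880404576821192350587272349554504372249264896009940042528497599576221956498927175692907490371244815398926531789762462031405273953330647836165393430109883103249200307476911453767654168252284355490170916253500227567419105753636945963415896238127670831316913196093065758653642275542383712841505308573891965125109743005320880424807155458429760540369864799745261803359217991122436986202470999940839536938768579988228607756423304920218863710079035030213792505999072820906528053251718933628657353962387246233401278861081383807927953341737342390090713292572403692489361105644702850718126464052357441607127122616311773762270441386254717700105909481204501366469849657206872965127923546986109893313124422712670663935175009744320910709028854898410017204115406059286533898421080501611697551224483575583021041629894030034567484202322731671820123862888088743456127554137104754773312777654013335447680280037844249689863127681930311383579986580984961811917123082620837594241026871900883987183258275748946364233170461474841137457060351461546775214967181032679733577342594687246400042498640484546600908210770586133786480437315230169546579078831887105471253812446955101575601514043207141913464794167983694733228851407058955551490577179045805744747453509396340973184813401834440951080636587809879147092639033703121759825306144415729097025292340778513159977839346546794519738950074295993484742856524875584040264127061893688701180878307182527901453209964612153126521354478468202496, 1556573075985848439195598340500950710348338129005562958218548195996267763618543680909643481080240000903874125305329106407267235211122341194946569454207202372580104026001443077728493061831010307145010410056770034269370272798448190031250795842149398466016064803033232176092611934495691353019379318276958152921044227995039393107638347187721051665524674685528470123,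 91699, 6612488705⟩

theorem v0_ok : v0.chk = true := by decide +kernel

end Pool.Agent.Lib.MP_4b1228_nt.PP.Ct
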