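import Pool.Agent.Lib.MP_4b1228_nt.PP.R4P2
import Pool.Agent.Lib.MP_4b1228_nt.PP.CtV0
import Pool.Agent.Lib.MP_4b1228_nt.PP.CtV1
import Pool.Agent.Lib.MP_4b1228_nt.PP.CtV2

/-!
The rows of one large prime: certified cells up to `583 / 480`, Selberg's bound above, also
inside one cell of the lattice.
-/

open Finset Real Filter
open scoped Classical

namespace Pool.Agent.Lib.MP_4b1228_nt.PP.R3

open Ct

theorem p2cut (h2 : P2Stmt) {L : List Par} {e : ℕ} (hL : ∀ p ∈ L, p.chk = true)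
    (hc : chain L e = true) {Q a b : ℕ} (hQ : 1 ≤ Q) (hQ' : Q ≤ 1000000) (hab : a < b)
    (ha : ((nth L e 0).A₀ + 1) * Q ≤ 1000000 * a)
    {w w₀ w₁ : ℝ} (h : 0 ≤ w) (h₀ : 0 ≤ w₀) (h₁ : 0 ≤ w₁) (W : ℝ → ℝ)
    (hW : ∀ t, W t ≤ 0 ∨ (a : ℝ) ≤ t ∧ t < b ∧ 1000000 * t < ((e + 1) * Q : ℕ) ∧
      W t ≤ w + w₀ * (b - t) + w₁ * (t - a)) :
    RowQ Q (fun x S => -∑ p ∈ S, W (x p))
      (-((w * pcC L Q a b + w₀ * pc0 L Q a b + w₁ * pc1 L Q a b) / (2 ^ 40 * 10 ^ 6))) := by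
  have H : ∀ i < L.length, side2 (nth L e i) = true ∧ (nth L e i).A₁ = (nth L e (i + 1)).A₀ + 2 :=
    fun i hi => by
      have := allB_imp hc i hi
      rw [Bool.and_eq_true] at this
      exact ⟨this.1, of_decide_eq_true this.2⟩
  have E : ∀ i < L.length, nth L 0 i = nth L e i := fun i hi => by
    rw [nth, nth, List.getD_eq_getElem _ _ hi, List.getD_eq_getElem _ _ hi]
  have he : (nth L e L.length).A₀ = e := by simp [nth]
  have R := h2 Q ℕ ((range L.length).filter fun i => sel Q a b (nth L 0 i) = true) (nth L 0)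
    (fun i => w + w₀ * ((1000000 * b - ((nth L 0 i).A₀ + 1) * Q : ℕ) / 1000000) +
      w₁ * (((nth L 0 i).A₁ * Q - 1000000 * a : ℕ) / 1000000)) W hQ (fun i hi => ?_) fun t => ?_
  · convert R using 2
    simp only [pcC, pc0, pc1, ← sum_filter, Nat.cast_sum, Nat.cast_mul, mul_sum, ← sum_add_distrib,
      sum_div]
    exact sum_congr rfl fun i _ => by push_cast; ring
  · have hi := mem_range.1 (mem_filter.1 hi).1
    refine ⟨hL _ ?_, by rw [E i hi]; exact (H i hi).1, by positivity⟩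
    rw [nth, List.getD_eq_getElem _ _ hi]
    exact List.getElem_mem hi
  refine (hW t).imp_right fun ⟨t1, t2, hb, t3⟩ => ?_
  obtain ⟨i, hi⟩ : ∃ i, i = Nat.findGreatest (fun i => ((((nth L e i).A₀ + 1) * Q : ℕ) : ℝ) ≤
    1000000 * t ∧ ((nth L e i).A₀ + 2) * Q ≤ 1000000 * b) L.length := ⟨_, rfl⟩
  have c1 : ((((nth L e i).A₀ + 1) * Q : ℕ) : ℝ) ≤ 1000000 * t ∧
      ((nth L e i).A₀ + 2) * Q ≤ 1000000 * b := by
    rw [hi]
    refine Nat.findGreatest_spec (P := fun i => ((((nth L e i).A₀ + 1) * Q : ℕ) : ℝ) ≤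
      1000000 * t ∧ ((nth L e i).A₀ + 2) * Q ≤ 1000000 * b) (Nat.zero_le _) ⟨?_, by nlinarith⟩
    refine (Nat.cast_le.2 ha).trans ?_
    push_cast
    linarith
  have c2 : i < L.length := lt_of_le_of_ne (hi ▸ Nat.findGreatest_le _) fun q => by
    rw [q, he] at c1
    exact hb.not_ge c1.1
  have c3 := Nat.findGreatest_is_greatest (P := fun i => ((((nth L e i).A₀ + 1) * Q : ℕ) : ℝ) ≤
    1000000 * t ∧ ((nth L e i).A₀ + 2) * Q ≤ 1000000 * b) (n := L.length) (k := i + 1)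
    (by rw [← hi]; exact Nat.lt_succ_self _) c2
  have c4 := (H i c2).2
  have Q1 : (1 : ℝ) ≤ Q := by exact_mod_cast hQ
  have c5 : 1000000 * a + Q < (nth L e i).A₁ * Q ∧ 1000000 * t ≤ (nth L e i).A₁ * Q := by
    rw [c4]
    rcases not_and_or.1 c3 with c | c
    · have c := not_le.1 c
      have : ((1000000 * a : ℕ) : ℝ) < (((nth L e (i + 1)).A₀ + 1) * Q : ℕ) := by
        refine lt_of_le_of_lt ?_ c
        push_cast
        linarith
      have := Nat.cast_lt.1 this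
      push_cast at c ⊢
      exact ⟨by nlinarith, by nlinarith⟩
    · have c := not_le.1 c
      have : ((1000000 * b : ℕ) : ℝ) < (((nth L e (i + 1)).A₀ + 2) * Q : ℕ) := Nat.cast_lt.2 c
      push_cast at this ⊢
      exact ⟨by nlinarith, by nlinarith⟩
  refine ⟨i, mem_filter.2 ⟨mem_range.2 c2, ?_⟩, ?_⟩ <;> rw [E i c2]
  · exact decide_eq_true ⟨c1.2, c5.1⟩
  refine ⟨by exact_mod_cast c1.1, c5.2, t3.trans ?_⟩
  rw [Nat.cast_sub (by nlinarith [c1.2]), Nat.cast_sub (by nlinarith [c5.1])]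
  have d1 := c1.1
  have d2 := c5.2
  push_cast at d1 ⊢
  gcongr <;> rw [le_div_iff₀ (by norm_num)] <;> linarith

def ue : List Par := uc ++ [v0, v1, v2]

theorem ue_ok : ∀ p ∈ ue, p.chk = true := fun p hp => by
  rcases List.mem_append.1 hp with h | h
  · exact uc_ok p h
  · simp only [List.mem_cons, List.not_mem_nil, or_false] at h
    rcases h with rfl | rfl | rfl
    exacts [v0_ok, v1_ok, v2_ok]

end Pool.Agent.Lib.MP_4b1228_nt.PP.R3

namespace Pool.Agent.Lib.MP_4b1228_nt.PP.R4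

open R3

/-- The point of `[c, c + 1]` where the certified cells end. -/
def cutS (Q c : ℕ) : ℚ := max c (min (c + 1) (1214583 * Q / 1000000))

/-- Costs of the weights `1 - u` (`b = 0`), `u` (`b = 1`) and `1` (`b = 2`) on `[c, c + 1)`. -/
def pcS (Q c b : ℕ) : ℚ :=
  ((if b = 0 then pc0 ue Q c (c + 1) else if b = 1 then pc1 ue Q c (c + 1)
      else pcC ue Q c (c + 1) : ℕ) : ℚ) / (2 ^ 40 * 10 ^ 6) +
    4 * (c + 1 - cutS Q c) * (if b = 0 then (c + 1 - cutS Q c) / 2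
      else if b = 1 then (cutS Q c + 1 - c) / 2 else 1) / Q

theorem rowS (hq : RowQStmt) (h2 : P2Stmt) (hP : PStmt) {Q c : ℕ} (hQ : 5 ≤ Q)
    (hQ' : Q ≤ 1000000) (h1 : Q ≤ c)
    (h3 : 2 * (c + 1) ≤ 3 * Q) {w w₀ w₁ α β : ℝ} (h : 0 ≤ w) (h₀ : 0 ≤ w₀) (h₁ : 0 ≤ w₁)
    (hα : α = w + w₀ * (c + 1) - w₁ * c) (hβ : β = w₁ - w₀) :
    RowQ Q (fun x S => -tup [⟨c, c + 1, α, β, false⟩] x S)
      (-(w * pcS Q c 2 + w₀ * pcS Q c 0 + w₁ * pcS Q c 1)) := by
  have e : ∀ t : ℝ, α + β * t = w + w₀ * (c + 1 - t) + w₁ * (t - c) := fun t => by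
    rw [hα, hβ]; ring
  obtain ⟨-, ha, -, -, -, hm⟩ := id hq Q (by omega)
  obtain ⟨s, hs⟩ : ∃ s : ℝ, s = cutS Q c := ⟨_, rfl⟩
  have s0 : s = max (c : ℝ) (min (c + 1) (1214583 * Q / 1000000)) := by
    rw [hs, cutS]; push_cast; rfl
  have s1 : (c : ℝ) ≤ s := s0 ▸ le_max_left _ _
  have s2 : s ≤ c + 1 := s0 ▸ max_le (by linarith) (min_le_left _ _)
  have Q5 : (5 : ℝ) ≤ Q := by exact_mod_cast hQ
  have Qc : (Q : ℝ) ≤ c := by exact_mod_cast h1
  have s3 : (Q : ℝ) < s := s0 ▸ lt_max_of_lt_right (lt_min (by linarith) (by linarith))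
  have R := p2cut h2 ue_ok (e := 1214582) (by decide +kernel) (by omega) hQ' (Nat.lt_succ_self c)
    (by rw [show (Ct.nth ue 1214582 0).A₀ + 1 = 1000000 by decide +kernel]; omega) h h₀ h₁
    (Cel.w ⟨c, s, α, β, false⟩) fun t => ?_
  · have R' := hP Q ⟨s, c + 1, α, β, false⟩ (by omega) s3 s2
      (show 2 * ((c : ℝ) + 1) ≤ 3 * Q by exact_mod_cast h3) fun t => ?_
    · refine hm _ _ _ _ (ha _ _ _ _ R R') (le_of_eq ?_) fun x S _ _ => le_of_eq ?_
      · simp only [pcS, e, hs]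
        push_cast
        ring
      · simp only [tup, tupF, List.map, mul_one, ← neg_add, ← sum_add_distrib, neg_inj]
        refine sum_congr rfl fun p _ => ?_
        simp only [Cel.w]
        rcases lt_or_ge (x p) s with q | q
        · rw [if_neg (fun r : s ≤ x p ∧ _ => q.not_ge r.1), add_zero]
          exact if_congr ⟨fun r => ⟨r.1, by linarith⟩, fun r => ⟨r.1, q⟩⟩ rfl rfl
        · rw [if_neg (fun r : _ ∧ x p < s => q.not_gt r.2), zero_add]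
          exact if_congr ⟨fun r => ⟨by linarith, r.2⟩, fun r => ⟨q, r.2⟩⟩ rfl rfl
    · rw [Cel.w]
      split_ifs with ht
      · rw [e]
        have := sub_nonneg.2 (s1.trans ht.1)
        have := sub_nonneg.2 ht.2.le
        positivity
      · exact le_rfl
  · rw [Cel.w]
    split_ifs with ht
    · have ht : (c : ℝ) ≤ t ∧ t < s := ht
      refine Or.inr ⟨ht.1, by push_cast; linarith, ?_, le_of_eq ?_⟩
      · have := ((lt_max_iff.1 (s0 ▸ ht.2)).resolve_left ht.1.not_gt).trans_le (min_le_right _ _)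
        push_cast
        linarith
      · push_cast
        exact e t
    · exact Or.inl le_rfl

theorem okS (hq : RowQStmt) (h2 : P2Stmt) (hP : PStmt) (n : Enc) (t : Tab) (hn : n.pc = pcS t.Q) (hQ : 5 ≤ t.Q)
    (hQ' : t.Q ≤ 1000000) (h0 : t.Q ≤ t.p₀) (h1 : 2 * t.p₁ ≤ 3 * t.Q) : n.OkP t := by
  intro c a b
  rw [hn]
  constructor
  · simpa using rowS hq h2 hP hQ hQ' (h0.trans a) (by omega) (α := c + 1) (β := -1) le_rfl
      zero_le_one le_rfl (by ring) (by ring)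
  · simpa using rowS hq h2 hP hQ hQ' (h0.trans a) (by omega) (α := -c) (β := 1) le_rfl
      le_rfl zero_le_one (by ring) (by ring)

/-- The sharper mean: the common part of the two weights is a constant weight. -/
def Tab.vP3 (t : Tab) : ℚ :=
  ∑ c ∈ Ico t.p₀ t.p₁, -((min (t.sl c 0) (t.sl c 1) : ℕ) * pcS t.Q c 2 +
    (t.sl c 0 - t.sl c 1 : ℕ) * pcS t.Q c 0 + (t.sl c 1 - t.sl c 0 : ℕ) * pcS t.Q c 1)

theorem mp3 (hq : RowQStmt) (h2 : P2Stmt) (hP : PStmt) (t : Tab) (hZ : t.Z ≤ t.p₀) (hQ : 5 ≤ t.Q)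
    (hQ' : t.Q ≤ 1000000) (h0 : t.Q ≤ t.p₀) (h1 : 2 * t.p₁ ≤ 3 * t.Q) :
    RowQ t.Q t.GP t.vP3 := by
  obtain ⟨-, -, -, hs, -, hm⟩ := id hq t.Q (by omega)
  refine hm _ _ _ _ (hs ℕ (Ico t.p₀ t.p₁) _ _ fun c hc => rowS hq h2 hP hQ hQ'
    (h0.trans (mem_Ico.1 hc).1) (by have := (mem_Ico.1 hc).2; omega)
    (w := (min (t.sl c 0) (t.sl c 1) : ℕ)) (w₀ := (t.sl c 0 - t.sl c 1 : ℕ))
    (w₁ := (t.sl c 1 - t.sl c 0 : ℕ)) (by positivity) (by positivity) (by positivity) rfl rfl)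
    (le_of_eq (by rw [Tab.vP3]; push_cast; rfl)) fun x S hx _ => le_of_eq ?_
  simp only [tup, tupF, List.map, mul_one, Tab.GP, Tab.big, ← sum_neg_distrib]
  rw [sum_comm, sum_filter]
  refine sum_congr rfl fun p hp => ?_
  have x0 := (hx p hp).le
  have f1 := Nat.floor_le x0
  have f2 := Nat.lt_floor_add_one (x p)
  have z : ∀ c, c ≠ ⌊x p⌋₊ → ∀ α β, -Cel.w ⟨c, c + 1, α, β, false⟩ (x p) = 0 := fun c hc α β => by
    rw [Cel.w, if_neg fun h => hc ((Nat.floor_eq_iff x0).2 h).symm, neg_zero]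
  by_cases hc : ⌊x p⌋₊ ∈ Ico t.p₀ t.p₁
  · rw [sum_eq_single_of_mem _ hc fun c _ h => z c h _ _, Cel.w, if_pos ⟨f1, f2⟩, Tab.lp,
      if_pos (mem_Ico.1 hc), if_pos ((Nat.cast_le.2 (hZ.trans (mem_Ico.1 hc).1)).trans f1), fr]
    rcases le_total (t.sl ⌊x p⌋₊ 0) (t.sl ⌊x p⌋₊ 1) with h | h
    · rw [min_eq_left h, Nat.sub_eq_zero_of_le h, Nat.cast_sub h]; push_cast; ring
    · rw [min_eq_right h, Nat.sub_eq_zero_of_le h, Nat.cast_sub h]; push_cast; ring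
  · rw [sum_eq_zero fun c h => z c (fun e => hc (e ▸ h)) _ _, Tab.lp,
      if_neg fun h => hc (mem_Ico.2 h), ite_self]

end Pool.Agent.Lib.MP_4b1228_nt.PP.R4
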