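import Pool.Agent.Lib.MP_4b1228_nt.PP.R4D
import Pool.Agent.Lib.MP_4b1228_nt.PP.LS

/-!
The mean of the sieved rows without large primes, and the enclosure of the sieve functions.
-/

open Finset Real
open scoped Classical

namespace Pool.Agent.Lib.MP_4b1228_nt.PP.R4

open R3

theorem tup_nonneg {L : List Cel} (h : ∀ c ∈ L, ∀ t, 0 ≤ c.w t) (x : ℕ → ℝ) (S : Finset ℕ) :
    0 ≤ tup L x S := by
  unfold tup
  induction L generalizing S with
  | nil => exact zero_le_one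
  | cons c L ih =>
    exact sum_nonneg fun p _ => mul_nonneg (h c (List.mem_cons_self ..) _)
      (ih (fun d hd => h d (List.mem_cons_of_mem _ hd)) _)

theorem rr_nonneg (Z : ℝ) {x : ℕ → ℝ} {S : Finset ℕ} (h : ∀ p ∈ S, 0 < x p) : 0 ≤ rr Z x S :=
  sum_nonneg fun p hp => (h p (mem_filter.1 hp).1).le

theorem fr_bd {r : ℝ} (h : 0 ≤ r) : 0 ≤ fr r ∧ fr r ≤ 1 :=
  ⟨sub_nonneg.2 (Nat.floor_le h), by unfold fr; linarith [Nat.lt_floor_add_one r]⟩

theorem chi_bd {m : ℕ} (hm : 1 ≤ m) (k b : ℕ) (r : ℝ) :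
    0 ≤ chi m k b r ∧ chi m k b r ≤ 1 ∧ (chi m k b r ≠ 0 → r ≤ ((k : ℝ) + 1) / m) := by
  have m0 : (0 : ℝ) < m := by exact_mod_cast hm
  unfold chi
  by_cases h : (k : ℝ) ≤ m * r ∧ m * r < k + 1
  · have := fr_bd (nonneg_of_mul_nonneg_right ((Nat.cast_nonneg k).trans h.1) m0)
    rw [if_pos h, le_div_iff₀ m0]
    refine ⟨?_, ?_, fun _ => by linarith [h.2]⟩ <;> split_ifs <;> linarith [this.1, this.2]
  · rw [if_neg h]
    exact ⟨le_rfl, zero_le_one, fun h => absurd rfl h⟩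

theorem chi_eq (m k b : ℕ) {r : ℝ} (h : 0 ≤ r) :
    chi m k b r = if ⌊(m : ℝ) * r⌋₊ = k then (if b = 0 then 1 - fr r else fr r) else 0 :=
  if_congr (Nat.floor_eq_iff (by positivity)).symm rfl rfl

theorem floor_div {m : ℕ} (hm : 1 ≤ m) (r : ℝ) : ⌊(m : ℝ) * r⌋₊ / m = ⌊r⌋₊ := by
  rw [← Nat.floor_div_natCast, mul_div_cancel_left₀ _ (by positivity)]

/-- Only one fine cell contributes. -/
theorem sum_one (M j : ℕ) (g : ℕ → ℝ) :
    ((List.range M).map fun k => if j = k then g k else 0).sum = if j < M then g j else 0 := by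
  rw [← List.sum_toFinset _ List.nodup_range, List.toFinset_range, sum_ite_eq]
  simp only [mem_range]

/-- The index of the sieve functions is admissible. -/
theorem Tab.lev_ok (t : Tab) (h : t.Ok) {k : ℕ} (hk : k ≤ t.m * t.Q) :
    1 ≤ t.lev k ∧ (t.lev k : ℝ) * t.Z ≤ t.N * ((t.Q - k / t.m) + t.Q / 4) := by
  obtain ⟨z1, -, m1, -, q4, -⟩ := h
  have d0 : 0 < 4 * t.m * t.Z := by positivity
  refine ⟨(Nat.le_div_iff_mul_le d0).2 ?_, ?_⟩
  · calc 1 * (4 * t.m * t.Z) = t.m * (4 * t.Z) := by ring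
      _ ≤ t.m * (t.N * t.Q) := Nat.mul_le_mul_left _ q4
      _ = t.N * (t.m * t.Q) := by ring
      _ ≤ _ := Nat.mul_le_mul_left _ (by rw [mul_assoc]; omega)
  · have a := Nat.div_mul_le_self (t.N * (5 * t.m * t.Q - 4 * k)) (4 * t.m * t.Z)
    have b : ((t.lev k * (4 * t.m * t.Z) : ℕ) : ℝ) ≤ (t.N * (5 * t.m * t.Q - 4 * k) : ℕ) :=
      Nat.cast_le.2 a
    rw [Nat.cast_mul t.N, Nat.cast_sub (by rw [mul_assoc]; omega)] at b
    push_cast at b
    have m0 : (0 : ℝ) < t.m := by exact_mod_cast m1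
    refine le_of_mul_le_mul_right ?_ (by positivity : (0 : ℝ) < 4 * t.m)
    calc _ = (t.lev k : ℝ) * (4 * t.m * t.Z) := by ring
      _ ≤ _ := b
      _ = _ := by field_simp; ring

/-- One sieved row with an integral coefficient of any sign. -/
theorem one_row (hQ : RowQStmt) {N : ℕ} {F f : ℕ → ℝ} (hS : SStmt N F f) {n : Enc}
    (hF : n.OkF N F f) (hN : 1 ≤ N) {Q Z i : ℕ} {r₁ D₁ D₂ B : ℝ} {L : List Cel} {χ : ℝ → ℝ}
    (z1 : 1 ≤ Z) (zQ : Z ≤ Q) (hL : ∀ c ∈ L, (Z : ℝ) ≤ c.a ∧ c.a ≤ c.b ∧ ∀ t, 0 ≤ c.w t)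
    (hχ : ∀ t, 0 ≤ χ t ∧ χ t ≤ B ∧ (χ t ≠ 0 → t ≤ r₁)) (r0 : 0 ≤ r₁) (d1 : 0 ≤ D₁) (d2 : 0 ≤ D₂)
    (a1 : mM L + r₁ + D₁ ≤ Q) (a2 : 4 * (mN L + D₂) + (mM L + r₁ + D₁) ≤ 2 * Q)
    (a3 : (i : ℝ) * Z ≤ N * (D₁ + D₂)) (i1 : 1 ≤ i) {wl wu Il Iu : ℚ} (l0 : 0 ≤ wl) (u0 : 0 ≤ wu)
    (hl : Law Z χ wl) (hu : Law Z (fun r => -χ r) (-wu)) (I1 : (Il : ℝ) ≤ (L.map Cel.I).prod)
    (I0 : 0 ≤ (L.map Cel.I).prod) (I2 : (L.map Cel.I).prod ≤ Iu) (c : ℤ) :
    RowQ Q (fun x S => c * (χ (rr Z x S) * tup L x S))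
      (bd c (n.fl i * wl * Il) (n.fu i * wu * Iu)) := by
  obtain ⟨q1, -, q3, -, -, q6⟩ := hQ Q (z1.trans zQ)
  obtain ⟨s1, s2⟩ := hS Q Z i r₁ D₁ D₂ B (if 0 ≤ c then wl else wu) L χ z1 zQ hL hχ r0 d1 d2 a1 a2 a3
  obtain ⟨f0, f1, f2⟩ := hF i
  have l0' : (0 : ℝ) ≤ wl := by exact_mod_cast l0
  have u0' : (0 : ℝ) ≤ wu := by exact_mod_cast u0
  have f0' : (0 : ℝ) ≤ n.fl i := by exact_mod_cast f0
  unfold bd
  by_cases hc : 0 ≤ c
  · have c0 : (0 : ℝ) ≤ c := by exact_mod_cast hc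
    rw [if_pos hc] at s2 ⊢
    by_cases e : n.fl i = 0
    · refine q6 _ _ _ _ (q1 0) (by simp [e]) fun x S _ _ =>
        mul_nonneg c0 (mul_nonneg (hχ _).1 (tup_nonneg (fun c hc => (hL c hc).2.2) x S))
    · refine q6 _ _ _ _ (q3 _ _ c c0 (s2 (f1 e).1 hN (f0'.trans (f1 e).2) l0' hl)) ?_
        fun _ _ _ _ => le_rfl
      push_cast
      refine mul_le_mul_of_nonneg_left ?_ c0
      calc _ ≤ (n.fl i : ℝ) * wl * (L.map Cel.I).prod := by gcongr
        _ ≤ _ := by gcongr; exact (f1 e).2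
  · have c0 : (0 : ℝ) ≤ -c := by exact_mod_cast (by omega : 0 ≤ -c)
    rw [if_neg hc] at s1 ⊢
    refine q6 _ _ _ _ (q3 _ _ (-c) c0 (s1 i1 (f2 i1).1 u0' hu)) ?_
      fun _ _ _ _ => le_of_eq (by ring)
    have : F i * wu * (L.map Cel.I).prod ≤ (n.fu i : ℝ) * wu * Iu := by
      have := (f2 i1).1.trans (f2 i1).2
      calc _ ≤ (n.fu i : ℝ) * wu * (L.map Cel.I).prod := by gcongr; exact (f2 i1).2
        _ ≤ _ := by gcongr
    push_cast
    nlinarith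

theorem cast_sum (l : List ℕ) (g : ℕ → ℚ) :
    (((l.map g).sum : ℚ) : ℝ) = (l.map fun k => (g k : ℝ)).sum := by
  rw [Rat.cast_list_sum, List.map_map]
  rfl

theorem mS0 (hQ : RowQStmt) : MS0Stmt := by
  intro t n F f h hS hF hW
  have h' := h
  obtain ⟨z1, zQ, m1, n1, -⟩ := h'
  have m0 : (0 : ℝ) < t.m := by exact_mod_cast m1
  obtain ⟨-, q2, -, -, q5, q6⟩ := hQ t.Q (z1.trans zQ)
  have one : ∀ k < t.m * t.Q, ∀ b < 2, ∀ c : ℤ,
      RowQ t.Q (fun x S => c * (chi t.m k b (rr t.Z x S) * tup [] x S))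
        (bd c (n.fl (t.lev (k + 1)) * n.wl k b) (n.fu (t.lev (k + 1)) * n.wu k b)) := by
    intro k hk b hb c
    obtain ⟨w1, w2, w3, w4⟩ := hW k hk b hb
    obtain ⟨v1, v2⟩ := t.lev_ok h (k := k + 1) hk
    have e : ((k : ℝ) + 1) / t.m ≤ t.Q := by
      rw [div_le_iff₀ m0, mul_comm]
      exact_mod_cast hk
    have := one_row hQ hS hF n1 (r₁ := ((k : ℝ) + 1) / t.m) (D₁ := t.Q - ((k : ℝ) + 1) / t.m)
      (D₂ := t.Q / 4) (L := []) (Il := 1) (Iu := 1) z1 zQ (by simp) (chi_bd m1 k b)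
      (by positivity) (by linarith) (by positivity) (by simp [mM]) (by simp [mM, mN]; linarith)
      (by simpa using v2) v1 w1 w2 w3 w4 (by simp) (by simp) (by simp) c
    rwa [mul_one, mul_one] at this
  unfold Tab.vS0
  rw [cast_sum]
  refine q6 _ _ _ _ (q5 ℕ (List.range (t.m * t.Q)) _ _ fun k hk =>
    q2 _ _ _ _ (one k (List.mem_range.1 hk) 0 (by norm_num) (t.s0 (k / t.m) 0))
      (one k (List.mem_range.1 hk) 1 (by norm_num) (t.s0 (k / t.m) 1)))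
    (le_of_eq (by simp only [Rat.cast_add])) fun x S hx _ => le_of_eq ?_
  have r0 := rr_nonneg t.Z hx
  unfold Tab.GS0 Tab.A0
  generalize rr t.Z x S = r at r0
  rw [List.map_congr_left (g := fun k => if ⌊(t.m : ℝ) * r⌋₊ = k then t.l0 (k / t.m) (fr r) else 0)
    fun k _ => by
      rw [chi_eq _ _ _ r0, chi_eq _ _ _ r0]
      split_ifs <;> simp_all [tup, tupF, Tab.l0], sum_one, floor_div m1]
  refine if_congr ?_ rfl rfl
  rw [← floor_div m1 r, Nat.div_lt_iff_lt_mul m1, mul_comm t.Q]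

/-- Lower values of the lower sieve function at `i / 320`. -/
def flQ (i : ℕ) : ℚ :=
  if i < 640 then 0
  else ((1000000000 + LST.sb (min i 2559 + 1) - LST.sb (min i 2559) : ℕ) : ℚ) / 1000000000

/-- Upper values of the upper sieve function at `i / 320`. -/
def fuQ (i : ℕ) : ℚ :=
  if i < 960 then 5712 / (5 * (i : ℚ))
  else ((1000000000 + (LST.sa (min i 2559) - LST.sa (min i 2559 + 1)) : ℕ) : ℚ) / 1000000000

theorem okF {n : Enc} (h1 : n.fl = flQ) (h2 : n.fu = fuQ) : n.OkF 320 LS.Fu LS.fl := by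
  intro i
  rw [h1, h2]
  refine ⟨?_, fun h => ?_, fun h => ?_⟩
  · unfold flQ
    split_ifs <;> positivity
  · unfold flQ at h ⊢
    split_ifs at h ⊢ with e
    · exact absurd rfl h
    have c : LST.sb (min i 2559) ≤ 1000000000 + LST.sb (min i 2559 + 1) := by
      by_contra c
      exact h (by rw [Nat.sub_eq_zero_of_le (not_le.1 c).le]; simp)
    refine ⟨by omega, ?_⟩
    have a := LST.tb_anti (min_le_left i 2559)
    have b : LST.tb (min i 2559) =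
        ((LST.sb (min i 2559) : ℝ) - LST.sb (min i 2559 + 1)) / 10 ^ 9 := by
      unfold LST.tb
      rw [max_eq_left (by omega), LST.el_lo (by omega)]
    unfold LS.fl
    rw [Rat.cast_div, Rat.cast_natCast, Nat.cast_sub c]
    push_cast
    linarith
  · have i0 : (0 : ℝ) < i := by exact_mod_cast h
    unfold LS.Fu fuQ
    split_ifs with e
    · refine ⟨by positivity, le_of_eq ?_⟩
      push_cast
      field_simp
      norm_num
    · refine ⟨by linarith [LST.ta_nonneg i], ?_⟩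
      have a := LST.ta_anti (min_le_left i 2559)
      have b := LST.ta_le (i := min i 2559) (n := LST.sa (min i 2559) - LST.sa (min i 2559 + 1))
        (by omega) (by omega) (by omega)
      rw [Rat.cast_div, Rat.cast_natCast, Nat.cast_add]
      generalize ((LST.sa (min i 2559) - LST.sa (min i 2559 + 1) : ℕ) : ℝ) = y at b ⊢
      push_cast
      linarith

end Pool.Agent.Lib.MP_4b1228_nt.PP.R4
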