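import Pool.Agent.Lib.MP_4b1228_nt.PP.R4D

/-!
The mean of the sieved rows with one large prime.
-/

open Finset Real
open scoped Classical

namespace Pool.Agent.Lib.MP_4b1228_nt.PP.R4

open R3

namespace S1

theorem lsum (n : ℕ) (f : ℕ → ℚ) : ((List.range n).map f).sum = ∑ i ∈ range n, f i := by
  induction n with
  | zero => simp
  | succ n ih => rw [List.range_succ, List.map_append, List.sum_append, ih, sum_range_succ]; simp

theorem bd_add (a : ℤ) (l l' h h' : ℚ) : bd a (l + l') (h + h') = bd a l h + bd a l' h' := by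
  unfold bd
  split_ifs <;> ring

theorem fr_mem {r : ℝ} (h : 0 ≤ r) : 0 ≤ fr r ∧ fr r ≤ 1 := by
  unfold fr
  exact ⟨sub_nonneg.2 (Nat.floor_le h), by linarith [Nat.lt_floor_add_one r]⟩

theorem chi_ok {m : ℕ} (hm : 1 ≤ m) (k b : ℕ) (r : ℝ) :
    0 ≤ chi m k b r ∧ chi m k b r ≤ 1 ∧ (chi m k b r ≠ 0 → r ≤ (k + 1) / m) := by
  have m0 : (0 : ℝ) < m := by exact_mod_cast hm
  unfold chi
  by_cases c : (k : ℝ) ≤ m * r ∧ m * r < k + 1
  · have r0 : 0 ≤ r := nonneg_of_mul_nonneg_right ((Nat.cast_nonneg k).trans c.1) m0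
    obtain ⟨f0, f1⟩ := fr_mem r0
    rw [if_pos c]
    refine ⟨?_, ?_, fun _ => by rw [le_div_iff₀ m0]; linarith [c.2]⟩ <;> split_ifs <;> linarith
  · rw [if_neg c]
    exact ⟨le_rfl, zero_le_one, fun h => absurd rfl h⟩

theorem tup_nonneg (x : ℕ → ℝ) : ∀ (L : List Cel), (∀ c ∈ L, ∀ t, 0 ≤ c.w t) →
    ∀ S, 0 ≤ tup L x S
  | [], _, _ => zero_le_one
  | c :: L, h, S => sum_nonneg fun p _ => mul_nonneg (h c List.mem_cons_self _)
      (tup_nonneg x L (fun d hd => h d (List.mem_cons_of_mem _ hd)) (S.erase p))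

/-- One sieved row. -/
theorem one (hR : RowQStmt) {t : Tab} {n : Enc} {F f : ℕ → ℝ} (ht : t.Ok) (hS : SStmt t.N F f)
    (hF : n.OkF t.N F f) (hW : n.OkW t) {L : List Cel} {K₁ k b : ℕ}
    (hL : ∀ c ∈ L, (t.Z : ℝ) ≤ c.a ∧ c.a ≤ c.b ∧ ∀ s, 0 ≤ c.w s) (hM : mM L = K₁ / t.m)
    (hN : mN L = 0) (hK : K₁ + k + 1 ≤ t.m * t.Q) (hb : b < 2) {lo hi : ℚ} (h0 : 0 ≤ lo)
    (h1 : (lo : ℝ) ≤ (L.map Cel.I).prod) (h2 : (L.map Cel.I).prod ≤ hi) (a : ℤ) :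
    RowQ t.Q (fun x S => a * (chi t.m k b (rr t.Z x S) * tup L x S))
      (bd a (n.fl (t.lev (K₁ + k + 1)) * n.wl k b * lo)
        (n.fu (t.lev (K₁ + k + 1)) * n.wu k b * hi)) := by
  obtain ⟨z1, z2, m1, n1, z4, -⟩ := ht
  obtain ⟨r0, -, r2, -, -, r5⟩ := hR t.Q (z1.trans z2)
  obtain ⟨w1, w2, w3, w4⟩ := hW k (by omega) b hb
  set i := t.lev (K₁ + k + 1) with hi'
  obtain ⟨f1, f2, f3⟩ := hF i
  have m0 : (0 : ℝ) < t.m := by exact_mod_cast m1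
  have d0 : 0 < 4 * t.m * t.Z := by positivity
  have i1 : 1 ≤ i := by
    rw [hi', Tab.lev, Nat.le_div_iff_mul_le d0]
    calc 1 * (4 * t.m * t.Z) = t.m * (4 * t.Z) := by ring
      _ ≤ t.m * (t.N * t.Q) := Nat.mul_le_mul_left _ z4
      _ = t.N * (t.m * t.Q) := by ring
      _ ≤ _ := Nat.mul_le_mul_left _ (by rw [mul_assoc]; omega)
  have hK' : (K₁ + k + 1 : ℝ) ≤ t.m * t.Q := by exact_mod_cast hK
  have i2 : (i : ℝ) * t.Z ≤ t.N * (t.Q - (K₁ + k + 1) / t.m + t.Q / 4) := by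
    have q : i * (4 * t.m * t.Z) ≤ t.N * (5 * t.m * t.Q - 4 * (K₁ + k + 1)) :=
      Nat.div_mul_le_self _ _
    have q' : (i : ℝ) * (4 * t.m * t.Z) ≤ t.N * (5 * t.m * t.Q - 4 * (K₁ + k + 1)) := by
      have := (Nat.cast_le (α := ℝ)).2 q
      rw [Nat.cast_mul, Nat.cast_mul t.N, Nat.cast_sub (by rw [mul_assoc]; omega)] at this
      push_cast at this
      exact this
    refine le_of_mul_le_mul_right ?_ (show (0 : ℝ) < 4 * t.m by positivity)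
    calc _ = (i : ℝ) * (4 * t.m * t.Z) := by ring
      _ ≤ _ := q'
      _ = _ := by field_simp; ring
  have e : mM L + (k + 1) / t.m + (t.Q - (K₁ + k + 1) / t.m) = (t.Q : ℝ) := by rw [hM]; ring
  have hS' := fun v => hS t.Q t.Z i ((k + 1) / t.m) (t.Q - (K₁ + k + 1) / t.m) (t.Q / 4) 1 v L
    (chi t.m k b) z1 z2 hL (chi_ok m1 k b) (by positivity)
    (by rw [sub_nonneg, div_le_iff₀ m0]; linarith) (by positivity) e.le
    (by rw [e, hN]; linarith) i2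
  have l0 : (0 : ℝ) ≤ lo := by exact_mod_cast h0
  have w1' : (0 : ℝ) ≤ n.wl k b := by exact_mod_cast w1
  have w2' : (0 : ℝ) ≤ n.wu k b := by exact_mod_cast w2
  have f1' : (0 : ℝ) ≤ n.fl i := by exact_mod_cast f1
  unfold bd
  split_ifs with c
  · have a0 : (0 : ℝ) ≤ a := by exact_mod_cast c
    by_cases c' : n.fl i = 0
    · refine r5 _ _ _ _ (r0 0) (by simp [c']) fun x S _ _ => ?_
      exact mul_nonneg a0 (mul_nonneg (chi_ok m1 k b _).1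
        (tup_nonneg x L (fun d hd => (hL d hd).2.2) S))
    · obtain ⟨g1, g2⟩ := f2 c'
      refine r5 _ _ _ _ (r2 _ _ a a0 ((hS' _).2 g1 n1 (f1'.trans g2) w1' w3)) ?_
        fun _ _ _ _ => le_rfl
      push_cast
      exact mul_le_mul_of_nonneg_left (mul_le_mul (mul_le_mul_of_nonneg_right g2 w1') h1 l0
        (mul_nonneg (f1'.trans g2) w1')) a0
  · have a0 : (0 : ℝ) ≤ -a := by
      have : (a : ℝ) ≤ 0 := by exact_mod_cast (not_le.1 c).le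
      linarith
    obtain ⟨g1, g2⟩ := f3 i1
    refine r5 _ _ _ _ (r2 _ _ (-a) a0 ((hS' _).1 i1 g1 w2' w4)) ?_
      fun _ _ _ _ => le_of_eq (by ring)
    push_cast
    have := mul_le_mul_of_nonneg_left (mul_le_mul (mul_le_mul_of_nonneg_right g2 w2') h2
      (l0.trans h1) (mul_nonneg (g1.trans g2) w2')) a0
    linarith

/-- The cell `[k / m, (k + 1) / m)` with the weight `α + β y`. -/
noncomputable def cel (m k : ℕ) (α β : ℝ) : Cel := ⟨k / m, (k + 1) / m, α, β, false⟩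

theorem cel_I {m k : ℕ} (hm : 1 ≤ m) (hk : 1 ≤ k) (α β : ℝ) :
    ([cel m k α β].map Cel.I).prod = α * log ((k + 1) / k) + β / m := by
  have m0 : (0 : ℝ) < m := by exact_mod_cast hm
  have k0 : (0 : ℝ) < k := by exact_mod_cast hk
  simp only [List.map_cons, List.map_nil, List.prod_cons, List.prod_nil, mul_one, Cel.I, cel]
  rw [show ((k : ℝ) + 1) / m / (k / m) = (k + 1) / k by field_simp]
  ring

theorem log_bd {k : ℕ} (hk : 1 ≤ k) :
    1 / ((k : ℝ) + 1) ≤ log ((k + 1) / k) ∧ log (((k : ℝ) + 1) / k) ≤ 1 / k := by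
  have k0 : (0 : ℝ) < k := by exact_mod_cast hk
  have h1 := one_sub_inv_le_log_of_pos (show 0 < ((k : ℝ) + 1) / k by positivity)
  have h2 := log_le_sub_one_of_pos (show 0 < ((k : ℝ) + 1) / k by positivity)
  rw [show 1 - (((k : ℝ) + 1) / k)⁻¹ = 1 / (k + 1) by field_simp; ring] at h1
  rw [show ((k : ℝ) + 1) / k - 1 = 1 / k by field_simp; ring] at h2
  exact ⟨h1, h2⟩

/-- The six rows of one pair of cells. -/
noncomputable def six (t : Tab) (k₁ k : ℕ) (g : Cel → ℝ) (r : ℝ) : ℝ :=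
  t.s1 (k₁ / t.m) (k / t.m) 0 * (chi t.m k 0 r * g (cel t.m k₁ ((k₁ / t.m : ℕ) + 1) (-1))) +
    t.s1 (k₁ / t.m) (k / t.m) 0 * (chi t.m k 1 r * g (cel t.m k₁ ((k₁ / t.m : ℕ) + 1) (-1))) +
    (t.s1 (k₁ / t.m) (k / t.m) 1 * (chi t.m k 0 r * g (cel t.m k₁ (-(k₁ / t.m : ℕ)) 1)) +
      t.s1 (k₁ / t.m) (k / t.m) 1 * (chi t.m k 1 r * g (cel t.m k₁ (-(k₁ / t.m : ℕ)) 1))) +
    t.s1 (k₁ / t.m) (k / t.m) 2 * (chi t.m k 0 r * g (cel t.m k₁ 1 0)) +
    t.s1 (k₁ / t.m) (k / t.m) 3 * (chi t.m k 1 r * g (cel t.m k₁ 1 0))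

theorem pair (hR : RowQStmt) {t : Tab} {n : Enc} {F f : ℕ → ℝ} (ht : t.Ok) (hS : SStmt t.N F f)
    (hL : n.OkL) (hF : n.OkF t.N F f) (hW : n.OkW t) {k₁ k : ℕ} (h1 : t.m * t.Z ≤ k₁)
    (h2 : k₁ + 1 + k + 1 ≤ t.m * t.Q) :
    RowQ t.Q (fun x S => six t k₁ k (fun c => tup [c] x S) (rr t.Z x S)) (t.vS1' n k₁ k) := by
  have z1 := ht.1
  have m1 := ht.2.2.1
  obtain ⟨-, r1, -⟩ := hR t.Q (z1.trans ht.2.1)
  have k1 : 1 ≤ k₁ := (Nat.mul_pos m1 z1).trans_le h1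
  have m0 : (0 : ℝ) < t.m := by exact_mod_cast m1
  have k0 : (0 : ℝ) < k₁ := by exact_mod_cast k1
  obtain ⟨l1, l2, l3⟩ := hL k₁ k1
  obtain ⟨l4, l5⟩ := log_bd k1
  set c := k₁ / t.m with hc
  have c0 : (0 : ℝ) ≤ c := Nat.cast_nonneg _
  have c1 : (c : ℝ) ≤ k₁ / t.m := Nat.cast_div_le
  have c2 : ((k₁ : ℝ) + 1) / t.m ≤ c + 1 := by
    rw [div_le_iff₀ m0]
    have : k₁ + 1 ≤ (c + 1) * t.m := (Nat.div_lt_iff_lt_mul m1).1 (Nat.lt_succ_self _)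
    exact_mod_cast this
  have key : ∀ (α β : ℝ) (lo hi : ℚ) (b : ℕ) (a : ℤ), b < 2 → 0 ≤ lo →
      (∀ s : ℝ, c ≤ s → s ≤ c + 1 → 0 ≤ α + β * s) →
      (lo : ℝ) ≤ α * log ((k₁ + 1) / k₁) + β / t.m → α * log ((k₁ + 1) / k₁) + β / t.m ≤ hi →
      RowQ t.Q (fun x S => a * (chi t.m k b (rr t.Z x S) * tup [cel t.m k₁ α β] x S))
        (bd a (n.fl (t.lev (k₁ + k + 2)) * n.wl k b * lo)
          (n.fu (t.lev (k₁ + k + 2)) * n.wu k b * hi)) := by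
    intro α β lo hi b a hb h0 hw hlo hhi
    rw [show k₁ + k + 2 = k₁ + 1 + k + 1 by ring]
    refine one hR ht hS hF hW (fun d hd => ?_) (by simp [mM, cel]) (by simp [mN, cel]) h2 hb h0
      (by rwa [cel_I m1 k1]) (by rwa [cel_I m1 k1]) a
    rw [List.mem_singleton.1 hd]
    refine ⟨?_, ?_, fun s => ?_⟩
    · change _ ≤ (k₁ : ℝ) / t.m
      rw [le_div_iff₀ m0, mul_comm]
      exact_mod_cast h1
    · change (k₁ : ℝ) / t.m ≤ (k₁ + 1) / t.m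
      gcongr; linarith
    · unfold Cel.w
      split_ifs with q
      · exact hw s (c1.trans q.1) (q.2.le.trans c2)
      · exact le_rfl
  have v0 : 0 ≤ ((c : ℝ) + 1) * log ((k₁ + 1) / k₁) + -1 / t.m := by
    have q : 1 / (t.m : ℝ) ≤ (c + 1) * (1 / (k₁ + 1)) := by
      rw [div_le_iff₀ m0] at c2
      rw [mul_one_div, div_le_div_iff₀ m0 (by positivity)]; linarith
    have := mul_le_mul_of_nonneg_left l4 (show (0 : ℝ) ≤ c + 1 by positivity)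
    rw [neg_div]; linarith
  have u0 : 0 ≤ -(c : ℝ) * log ((k₁ + 1) / k₁) + 1 / t.m := by
    have q : (c : ℝ) * (1 / k₁) ≤ 1 / t.m := by
      rw [le_div_iff₀ m0] at c1
      rw [mul_one_div, div_le_div_iff₀ k0 m0]; linarith
    have := mul_le_mul_of_nonneg_left l5 c0
    linarith
  have hv : ∀ b a, b < 2 → _ := fun b a hb => key (c + 1) (-1) (n.vl t.m c k₁) (n.vu t.m c k₁) b a
    hb (le_max_left _ _) (fun s _ _ => by linarith) (by
      unfold Enc.vl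
      push_cast
      refine max_le v0 ?_
      have := mul_le_mul_of_nonneg_left l2 (show (0 : ℝ) ≤ c + 1 by positivity)
      rw [neg_div]; linarith) (by
      unfold Enc.vu
      push_cast
      have := mul_le_mul_of_nonneg_left l3 (show (0 : ℝ) ≤ c + 1 by positivity)
      rw [neg_div]; linarith)
  have hu : ∀ b a, b < 2 → _ := fun b a hb => key (-c) 1 (n.ul t.m c k₁) (n.uu t.m c k₁) b a
    hb (le_max_left _ _) (fun s _ _ => by linarith) (by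
      unfold Enc.ul
      push_cast
      refine max_le u0 ?_
      have := mul_le_mul_of_nonneg_left l3 c0
      linarith) (by
      unfold Enc.uu
      push_cast
      have := mul_le_mul_of_nonneg_left l2 c0
      linarith)
  have hw : ∀ b a, b < 2 → _ := fun b a hb => key 1 0 (n.ll k₁) (n.lu k₁) b a hb l1
    (fun s _ _ => by linarith) (by simpa using l2) (by simpa using l3)
  have := r1 _ _ _ _ (r1 _ _ _ _ (r1 _ _ _ _
    (r1 _ _ _ _ (hv 0 (t.s1 c (k / t.m) 0) two_pos) (hv 1 (t.s1 c (k / t.m) 0) one_lt_two))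
    (r1 _ _ _ _ (hu 0 (t.s1 c (k / t.m) 1) two_pos) (hu 1 (t.s1 c (k / t.m) 1) one_lt_two)))
    (hw 0 (t.s1 c (k / t.m) 2) two_pos)) (hw 1 (t.s1 c (k / t.m) 3) one_lt_two)
  unfold Tab.vS1'
  simp only [mul_add, add_mul, bd_add, Rat.cast_add]
  exact this

theorem fl_eq {m : ℕ} (hm : 1 ≤ m) (y : ℝ) : ⌊y⌋₊ = ⌊m * y⌋₊ / m := by
  have m0 : (0 : ℝ) < m := by exact_mod_cast hm
  rw [← Nat.floor_div_natCast, mul_div_cancel_left₀ _ m0.ne']

theorem six_eq (t : Tab) (hm : 1 ≤ t.m) (k₁ k : ℕ) {y r : ℝ} (hy : 0 ≤ y) (hr : 0 ≤ r) :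
    six t k₁ k (fun c => c.w y) r = if ⌊t.m * y⌋₊ = k₁ ∧ ⌊t.m * r⌋₊ = k then
      t.l1 ⌊y⌋₊ ⌊r⌋₊ (fr y) (fr r) else 0 := by
  have m0 : (0 : ℝ) < t.m := by exact_mod_cast hm
  have e1 : ((k₁ : ℝ) / t.m ≤ y ∧ y < (k₁ + 1) / t.m) ↔ ⌊t.m * y⌋₊ = k₁ := by
    rw [Nat.floor_eq_iff (by positivity), div_le_iff₀ m0, lt_div_iff₀ m0, mul_comm]
  have e2 : ((k : ℝ) ≤ t.m * r ∧ t.m * r < k + 1) ↔ ⌊t.m * r⌋₊ = k := by
    rw [Nat.floor_eq_iff (by positivity)]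
  simp only [six, Cel.w, cel, chi, e1, e2]
  by_cases c1 : ⌊t.m * y⌋₊ = k₁
  swap
  · simp [c1]
  by_cases c2 : ⌊t.m * r⌋₊ = k
  swap
  · simp [c2]
  have e3 : k₁ / t.m = ⌊y⌋₊ := by rw [fl_eq hm y, c1]
  have e4 : k / t.m = ⌊r⌋₊ := by rw [fl_eq hm r, c2]
  simp only [c1, c2, e3, e4, if_true, and_self, one_ne_zero, if_false, Tab.l1, fr]
  ring

theorem pt (t : Tab) (hm : 1 ≤ t.m) {y r : ℝ} (hy : 0 ≤ y) (hr : 0 ≤ r) :
    ∑ i ∈ range (t.m * (t.Q - t.Z)), ∑ k ∈ range (t.m * (t.Q - (t.Z + i / t.m) - 1)),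
      six t (t.m * t.Z + i) k (fun c => c.w y) r = if (t.Z : ℝ) ≤ y then t.A1 y r else 0 := by
  have m0 : (0 : ℝ) < t.m := by exact_mod_cast hm
  simp only [six_eq t hm _ _ hy hr, ite_and]
  have e : (t.Z : ℝ) ≤ y ↔ t.m * t.Z ≤ ⌊t.m * y⌋₊ := by
    rw [Nat.le_floor_iff (by positivity), Nat.cast_mul, mul_le_mul_iff_right₀ m0]
  by_cases c : t.m * t.Z ≤ ⌊t.m * y⌋₊
  · obtain ⟨j, hj⟩ := Nat.exists_eq_add_of_le c
    have e1 : ⌊y⌋₊ = t.Z + j / t.m := by rw [fl_eq hm y, hj, Nat.mul_add_div hm]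
    have e2 := fl_eq hm r
    have e3 : ∀ a b : ℕ, a < t.m * b ↔ a / t.m < b := fun a b => by
      rw [Nat.div_lt_iff_lt_mul hm, mul_comm]
    rw [if_pos (e.2 c), Tab.A1]
    simp only [hj, Nat.add_left_cancel_iff, sum_ite_irrel, sum_const_zero, sum_ite_eq, mem_range,
      e3, ← e2]
    rw [← ite_and, ← e1]
    exact if_congr (by omega) rfl rfl
  · rw [if_neg (mt e.1 c)]
    exact sum_eq_zero fun i _ => sum_eq_zero fun k _ => if_neg (by omega)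

theorem six_sum (t : Tab) (k₁ k : ℕ) (x : ℕ → ℝ) (S : Finset ℕ) (r : ℝ) :
    six t k₁ k (fun c => tup [c] x S) r = ∑ p ∈ S, six t k₁ k (fun c => c.w (x p)) r := by
  simp only [six, tup, List.map_cons, List.map_nil, tupF, mul_one, mul_sum, sum_add_distrib]

end S1

open S1 in
theorem mS1 (hR : RowQStmt) : MS1Stmt := by
  intro t n F f ht hS hL hF hW
  have m1 := ht.2.2.1
  obtain ⟨-, -, -, r3, -, r5⟩ := hR t.Q (ht.1.trans ht.2.1)
  refine r5 _ _ _ _ (r3 ℕ (range (t.m * (t.Q - t.Z))) _ _ fun i hi =>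
    r3 ℕ (range (t.m * (t.Q - (t.Z + i / t.m) - 1))) _ _ fun k hk =>
      pair hR ht hS hL hF hW (k₁ := t.m * t.Z + i) (k := k) (Nat.le_add_right _ _) ?_)
    (le_of_eq ?_) fun x S hx _ => le_of_eq ?_
  · have h1 := mem_range.1 hk
    have h2 : i < t.m * (i / t.m + 1) := by
      rw [mul_comm]; exact (Nat.div_lt_iff_lt_mul m1).1 (Nat.lt_succ_self _)
    have h3 : 0 < t.Q - (t.Z + i / t.m) - 1 := Nat.pos_of_mul_pos_left (Nat.zero_lt_of_lt h1)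
    have h4 : t.m * t.Q = t.m * t.Z + t.m * (i / t.m + 1) + t.m * (t.Q - (t.Z + i / t.m) - 1) := by
      rw [← mul_add, ← mul_add]; congr 1; omega
    omega
  · simp only [Tab.vS1, lsum, Rat.cast_sum]
  · have hr : 0 ≤ rr t.Z x S := sum_nonneg fun p hp => (hx p (mem_filter.1 hp).1).le
    simp only [six_sum]
    rw [Tab.GS1, Tab.big, sum_filter, ← sum_congr rfl fun p hp => pt t m1 (hx p hp).le hr,
      sum_comm (s := S)]
    exact sum_congr rfl fun i _ => sum_comm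

end Pool.Agent.Lib.MP_4b1228_nt.PP.R4
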