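import Pool.Agent.Lib.MP_4b1228_nt.PP.DKc

/-! The law of the total size of a random set of primes: a faster checker. -/

open Finset

noncomputable section

namespace Pool.Agent.Lib.MP_4b1228_nt.PP.DK

def rv (l : List ℕ) : List ℕ → List ℕ := List.rec (fun a => a) (fun x _ ih a => ih (x :: a)) l

theorem rv_eq : ∀ l a : List ℕ, rv l a = l.reverse ++ a
  | [], _ => rfl
  | x :: l, a => by
    rw [List.reverse_cons, List.append_assoc]
    exact rv_eq l (x :: a)

abbrev Out : Type := List (ℕ × ℕ)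

def stp (g : ℕ → ℕ → ℕ → ℕ) (k : ℕ → ℕ → ℕ → List ℕ → Out) (l : List ℕ) :
    ℕ → ℕ → ℕ → ℕ → List ℕ → Out :=
  List.rec (fun _ F a t acc => k F a t acc) (fun x _ ih i F a t acc => frc (g i F x) fun y =>
    ih (Nat.succ i) (Nat.sub (Nat.add F y) x) (Nat.add a y) (Nat.add t (Nat.add a y))
      (y :: acc)) l

theorem stp_eq (g : ℕ → ℕ → ℕ → ℕ) {N : ℕ} (hN : 1 ≤ N) (u : ℕ) (k : ℕ → ℕ → ℕ → List ℕ → Out) :
    ∀ (n a s t : ℕ) (acc : List ℕ),
    stp g k ((List.range' a n).map (sq g N u)) (a + N) (∑ i ∈ Ico a (a + N), sq g N u i) s t acc =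
      k (∑ i ∈ Ico (a + n) (a + n + N), sq g N u i) (s + ∑ i ∈ range n, sq g N u (a + N + i))
        (t + n * s + ∑ i ∈ range n, (n - i) * sq g N u (a + N + i))
        (((List.range' (a + N) n).map (sq g N u)).reverse ++ acc)
  | 0, _, _, _, _ => by simp [stp]
  | n + 1, a, s, t, acc => by
    have ih := stp_eq g hN u k n (a + 1) (s + sq g N u (a + N)) (t + (s + sq g N u (a + N)))
      (sq g N u (a + N) :: acc)
    have e : ∑ i ∈ Ico (a + 1) (a + 1 + N), sq g N u i =
        ∑ i ∈ Ico a (a + N), sq g N u i + sq g N u (a + N) - sq g N u a := by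
      rw [← sum_Ico_succ_top (by omega), sum_eq_sum_Ico_succ_bot (show a < a + N + 1 by omega),
        Nat.add_sub_cancel_left, Nat.add_right_comm]
    rw [e, Nat.add_right_comm a 1 N] at ih
    simp only [stp, frc_eq] at ih
    simp only [List.range'_succ, List.map_cons, stp, frc_eq, ← sq_add g hN]
    refine ih.trans ?_
    simp only [sum_range_succ', Nat.add_sub_add_right, Nat.sub_zero, add_zero, add_assoc (a + N),
      add_assoc a 1 n, add_comm 1, List.reverse_cons, List.append_assoc, List.singleton_append]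
    congr 1 <;> ring

def unt (g : ℕ → ℕ → ℕ → ℕ) (st : ℕ) (k : ℕ → List (List ℕ) → Out → Out) (L : List (List ℕ)) :
    ℕ → ℕ → List (List ℕ) → Out → Out :=
  List.rec (fun _ F aL out => k F aL out) (fun c _ ih i F aL out =>
    stp g (fun F' a t acc => frc F' fun F'' => frc t fun t' => frc a fun a' =>
      frc (Nat.add i st) fun i' => ih i' F'' (rv acc [] :: aL) ((a', t') :: out)) c i F 0 0 []) L

/-- the values on one cell -/
def chk (f : ℕ → ℕ) (st m : ℕ) : List ℕ := (List.range' (m * st) st).map f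

theorem unt_eq (g : ℕ → ℕ → ℕ → ℕ) {Z st : ℕ} (hN : 1 ≤ Z * st) (u : ℕ)
    (k : ℕ → List (List ℕ) → Out → Out) : ∀ (n j : ℕ) (aL : List (List ℕ)) (out : Out),
    unt g st k ((List.range' j n).map (chk (sq g (Z * st) u) st)) (j * st + Z * st)
      (∑ i ∈ Ico (j * st) (j * st + Z * st), sq g (Z * st) u i) aL out =
      k (∑ i ∈ Ico ((j + n) * st) ((j + n) * st + Z * st), sq g (Z * st) u i)
        (((List.range' (j + Z) n).map (chk (sq g (Z * st) u) st)).reverse ++ aL)
        (((List.range' (j + Z) n).map (c2 (sq g (Z * st) u) st)).reverse ++ out)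
  | 0, _, _, _ => by simp [unt]
  | n + 1, j, aL, out => by
    have ih := unt_eq g hN u k n (j + 1) (chk (sq g (Z * st) u) st (j + Z) :: aL)
      (c2 (sq g (Z * st) u) st (j + Z) :: out)
    rw [add_one_mul, Nat.add_right_comm j 1 Z, add_assoc j 1 n, add_comm 1 n] at ih
    simp only [unt, frc_eq] at ih
    simp only [List.range'_succ, List.map_cons, unt, frc_eq, List.reverse_cons, List.append_assoc,
      List.singleton_append]
    rw [chk, stp_eq g hN, ← ih]
    simp only [rv_eq, List.append_nil, List.reverse_reverse, zero_add, mul_zero, chk, c2, add_mul,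
      Nat.add_eq, Nat.add_right_comm (j * st) (Z * st) st]

def go3 (g : ℕ → ℕ → ℕ → ℕ) (Z st k : ℕ) : List (List ℕ) → ℕ → ℕ → Out → Out :=
  Nat.rec (fun _ _ _ out => out.reverse) (fun _ ih L i F out =>
    unt g st (fun F' aL out' => ih aL.reverse (i + Z * st) F' out') L i F [] out) k

theorem go3_eq (g : ℕ → ℕ → ℕ → ℕ) {Z st : ℕ} (hN : 1 ≤ Z * st) (u : ℕ) :
    ∀ (k j : ℕ) (out : Out),
    go3 g Z st k ((List.range' j Z).map (chk (sq g (Z * st) u) st)) (j * st + Z * st)
      (∑ i ∈ Ico (j * st) (j * st + Z * st), sq g (Z * st) u i) out =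
      out.reverse ++ (List.range' (j + Z) (k * Z)).map (c2 (sq g (Z * st) u) st)
  | 0, _, _ => by simp [go3]
  | k + 1, j, out => by
    have ih := go3_eq g hN u k (j + Z)
      (((List.range' (j + Z) Z).map (c2 (sq g (Z * st) u) st)).reverse ++ out)
    simp only [go3] at ih ⊢
    rw [unt_eq g hN, List.append_nil, List.reverse_reverse, ← add_mul j Z st, ih,
      List.reverse_append, List.reverse_reverse, List.append_assoc, ← List.map_append,
      List.range'_append_1, show Z + k * Z = (k + 1) * Z by ring]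

def tab3 (g : ℕ → ℕ → ℕ → ℕ) (Z st : ℕ) : Out :=
  go3 g Z st 5 (List.replicate Z (List.replicate st 1099511627776)) (Z * st)
    (Z * st * 1099511627776)
    (List.replicate Z (st * 1099511627776, sp (List.replicate st 1099511627776) 0 0))

theorem tab3_eq (g : ℕ → ℕ → ℕ → ℕ) {Z st : ℕ} (hN : 1 ≤ Z * st) : tab3 g Z st = tab2 g Z st := by
  have h1 : ∀ m < Z, ∀ i < st, sq g (Z * st) 1099511627776 (m * st + i) = 1099511627776 :=
    fun m hm i hi => sq_lt _ _ (by nlinarith [Nat.mul_le_mul_right st hm])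
  have h2 : ∀ m < Z, chk (sq g (Z * st) 1099511627776) st m = List.replicate st 1099511627776 :=
    fun m hm => List.eq_replicate_iff.2 ⟨by simp [chk], fun b hb => by
      obtain ⟨k, hk, rfl⟩ := List.mem_map.1 hb
      obtain ⟨i, hi, rfl⟩ := List.mem_range'.1 hk
      rw [one_mul]
      exact h1 m hm i hi⟩
  have e1 : (List.range' 0 Z).map (chk (sq g (Z * st) 1099511627776) st) =
      List.replicate Z (List.replicate st 1099511627776) :=
    List.eq_replicate_iff.2 ⟨by simp, fun b hb => by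
      obtain ⟨k, hk, rfl⟩ := List.mem_map.1 hb
      exact h2 k (by simpa using hk)⟩
  have e2 : (List.range' 0 Z).map (c2 (sq g (Z * st) 1099511627776) st) =
      List.replicate Z (st * 1099511627776, sp (List.replicate st 1099511627776) 0 0) :=
    List.eq_replicate_iff.2 ⟨by simp, fun b hb => by
      obtain ⟨k, hk, rfl⟩ := List.mem_map.1 hb
      have hk' : k < Z := by simpa using hk
      rw [← h2 k hk', chk, sp_eq, c2, sum_congr rfl fun i hi => h1 k hk' i (mem_range.1 hi)]
      simp⟩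
  have e3 : ∑ i ∈ Ico (0 * st) (0 * st + Z * st), sq g (Z * st) 1099511627776 i =
      Z * st * 1099511627776 := by
    rw [sum_congr rfl fun i hi => sq_lt g _ (by simpa using hi)]
    simp
  have H := go3_eq g hN 1099511627776 5 0
    (List.replicate Z (st * 1099511627776, sp (List.replicate st 1099511627776) 0 0))
  rw [e1, e3, zero_mul, zero_add, List.reverse_replicate] at H
  rw [tab3, H, tab2_eq g hN, ← e2, ← List.map_append, List.range'_append_1,
    show Z + 5 * Z = 6 * Z by ring]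

/-- The same test as `check2`. -/
def check3 (Z st : ℕ) (lo hi : List (ℕ × ℕ)) : Bool :=
  Nat.ble 2 (Z * st) && Nat.ble hi.length (6 * Z) && Nat.ble lo.length (6 * Z) &&
  (frc (sf (tab3 gL Z st)) fun A =>
    frc (5 * sf (tab3 gU Z st) + sf ((tab3 gU Z st).drop (5 * Z))) fun B =>
    Nat.ble 1 A && Nat.ble 1 B &&
    ((hi.zip (tab3 gU Z st)).all fun p =>
      Nat.ble (p.2.2 * 4294967296) (p.1.1 * st * A) &&
      Nat.ble ((st + 1) * p.2.1 * 4294967296) (p.1.2 * st * A + p.2.2 * 4294967296)) &&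
    (lo.zip (tab3 gL Z st)).all fun p =>
      Nat.ble (p.1.1 * st * B + 5 * p.2.1 * 4294967296) (5 * p.2.2 * 4294967296) &&
      Nat.ble (p.1.2 * st * B + 5 * p.2.2 * 4294967296) (5 * (st * p.2.1) * 4294967296))

theorem check2_of {Z st : ℕ} {lo hi : List (ℕ × ℕ)} (h : check3 Z st lo hi = true) :
    check2 Z st lo hi = true := by
  have hN : 1 ≤ Z * st := by
    simp only [check3, Bool.and_eq_true, Nat.ble_eq] at h
    omega
  rwa [check3, tab3_eq _ hN, tab3_eq _ hN] at h

/-- Bounds for the masses of the cells. -/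
theorem law0 {Z st : ℕ} {lo hi : List (ℕ × ℕ)} (hc : check2 Z st lo hi = true) (h2 : 2 ≤ st) :
    (∀ (j : ℕ) (hj : j < hi.length), AL Z (fun t => -box j (j + 1) t)
      (-((hi[j].1 + hi[j].2) * st / (st + 1) / 2 ^ 32))) ∧
    ∀ (j : ℕ) (hj : j < lo.length),
      AL Z (box j (j + 1)) ((lo[j].1 + lo[j].2) * st / (st - 1) / 2 ^ 32) := by
  simp only [check2, frc_eq, Bool.and_eq_true, Nat.ble_eq] at hc
  obtain ⟨⟨⟨hN, lh⟩, ll⟩, ⟨⟨A1, B1⟩, c1⟩, c2'⟩ := hc
  have hN1 : 1 ≤ Z * st := by omega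
  have hst : 1 ≤ st := by omega
  have hst' : (2 : ℝ) ≤ st := mod_cast h2
  have eL : sf (tab2 gL Z st) = TL (Z * st) := by
    rw [tab2_eq _ hN1, sf_eq, zero_add, zero_mul, mul_assoc]
    rfl
  have eU : 5 * sf (tab2 gU Z st) + sf ((tab2 gU Z st).drop (5 * Z)) = TU (Z * st) := by
    rw [tab2_eq _ hN1, ← List.map_drop, List.drop_range', sf_eq, sf_eq, zero_add, zero_add,
      zero_mul, mul_one, mul_assoc, mul_assoc,
      show (5 * Z + (6 * Z - 5 * Z)) * st = 6 * (Z * st) by
        rw [Nat.add_sub_cancel' (by omega), mul_assoc]]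
    rfl
  rw [eL] at A1 c1
  rw [eU] at B1 c2'
  rw [tab2_eq _ hN1] at c1 c2'
  have hNc : ((Z * st : ℕ) : ℝ) = st * Z := by push_cast; ring
  have U := AL.unit hN A1 B1
  rw [hNc] at U
  have A1' : (0 : ℝ) < TL (Z * st) := mod_cast A1
  have B1' : (0 : ℝ) < TU (Z * st) := mod_cast B1
  have s1 : (0 : ℝ) < st - 1 := by linarith
  have e : ∀ (j : ℕ) (t : ℝ), ∑ i ∈ range st,
      box (j * st + i : ℕ) ((j * st + i : ℕ) + 1) (st * t) = box j (j + 1) t := fun j t => by
    rcases step_eq hst j (fun _ => 1) t with ⟨h, e⟩ | ⟨h, k, -, -, -, e⟩ <;>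
      simp only [one_mul] at e
    · rw [e, box, if_neg h]
    · rw [e, box, if_pos h]
  refine ⟨fun j hj => ?_, fun j hj => ?_⟩
  · have q := zip_all2 lh c1 hj
    simp only [Bool.and_eq_true, Nat.ble_eq, c2] at q
    have q1 := Nat.cast_le (α := ℝ).2 q.1
    have q2 := Nat.cast_le (α := ℝ).2 q.2
    simp only [Nat.cast_mul, Nat.cast_add, Nat.cast_ofNat, Nat.cast_one] at q1 q2
    refine ((AL.sum (range st) fun i _ => (U (j * st + i)).1).scale (by linarith)).mono ?_
      fun t _ => ?_
    · rw [sum_neg_distrib, neg_le_neg_iff, ← sum_div, ← Nat.cast_sum, div_div,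
        div_le_div_iff₀ (by positivity) (by positivity)]
      unfold UU
      linarith
    · rw [sum_neg_distrib, e]
  · have q := zip_all2 ll c2' hj
    simp only [Bool.and_eq_true, Nat.ble_eq, c2] at q
    have q1 := Nat.cast_le (α := ℝ).2 q.1
    have q2 := Nat.cast_le (α := ℝ).2 q.2
    simp only [Nat.cast_mul, Nat.cast_add, Nat.cast_ofNat] at q1 q2
    refine ((AL.sum (range st) fun i _ => (U (j * st + i)).2).scale (by linarith)).mono ?_
      fun t _ => (e j t).le
    rw [← sum_div, ← mul_sum, ← Nat.cast_sum, div_div,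
      div_le_div_iff₀ (by positivity) (by positivity)]
    unfold LL
    linarith

end Pool.Agent.Lib.MP_4b1228_nt.PP.DK
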