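import Pool.Agent.Lib.MP_4b1228_nt.PP.DK

/-! The law of the total size of a random set of primes: affine weights on cells. -/

open Finset
open scoped Classical

noncomputable section

namespace Pool.Agent.Lib.MP_4b1228_nt.PP.DK

/-- `v` is an asymptotic lower bound for the mean of `χ`. -/
def AL (Z : ℝ) (χ : ℝ → ℝ) (v : ℝ) : Prop :=
  ∀ δ : ℝ, 0 < δ → ∃ τ₀ : ℝ, 0 < τ₀ ∧ ∀ (P : Finset ℕ) (w s : ℕ → ℝ) (τ : ℝ), τ ≤ τ₀ →
    Hyp P w s Z τ → v - δ ≤ Ex P w fun S => χ (∑ p ∈ S, s p)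

variable {Z v v' : ℝ} {χ χ' : ℝ → ℝ}

theorem Ex_add (P : Finset ℕ) (w : ℕ → ℝ) (φ ψ : Finset ℕ → ℝ) :
    Ex P w (fun S => φ S + ψ S) = Ex P w φ + Ex P w ψ := by
  simp only [Ex, mul_add, sum_add_distrib]

theorem AL.const (Z c : ℝ) : AL Z (fun _ => c) c := fun δ hδ =>
  ⟨1, one_pos, fun P w _ _ _ _ => by rw [Ex_const]; linarith⟩

theorem AL.add (h : AL Z χ v) (h' : AL Z χ' v') : AL Z (fun t => χ t + χ' t) (v + v') := by
  intro δ hδ
  obtain ⟨a, a0, ha⟩ := h (δ / 2) (by linarith)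
  obtain ⟨b, b0, hb⟩ := h' (δ / 2) (by linarith)
  refine ⟨min a b, lt_min a0 b0, fun P w s τ hτ H => ?_⟩
  rw [Ex_add]
  linarith [ha P w s τ (hτ.trans (min_le_left _ _)) H, hb P w s τ (hτ.trans (min_le_right _ _)) H]

theorem AL.smul (h : AL Z χ v) {c : ℝ} (hc : 0 ≤ c) : AL Z (fun t => c * χ t) (c * v) := by
  intro δ hδ
  obtain ⟨a, a0, ha⟩ := h (δ / (c + 1)) (by positivity)
  refine ⟨a, a0, fun P w s τ hτ H => ?_⟩
  have h1 := mul_le_mul_of_nonneg_left (ha P w s τ hτ H) hc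
  have h2 : c * (δ / (c + 1)) ≤ δ := by
    rw [← mul_div_assoc, div_le_iff₀ (by linarith)]
    nlinarith
  rw [Ex_mul]
  linarith

theorem AL.mono (h : AL Z χ v) (hv : v' ≤ v) (hχ : ∀ t, 0 ≤ t → χ t ≤ χ' t) : AL Z χ' v' := by
  intro δ hδ
  obtain ⟨a, a0, ha⟩ := h δ hδ
  refine ⟨min a 1, lt_min a0 one_pos, fun P w s τ hτ H => ?_⟩
  refine le_trans (by linarith) ((ha P w s τ (hτ.trans (min_le_left _ _)) H).trans ?_)
  exact Ex_mono H.w0 (fun p hp => (H.w1 p hp).trans (hτ.trans (min_le_right _ _))) fun S hS =>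
    hχ _ (sum_nonneg fun p hp => H.s0 p (hS hp))

theorem AL.sum {ι : Type} (T : Finset ι) {χ : ι → ℝ → ℝ} {v : ι → ℝ}
    (h : ∀ i ∈ T, AL Z (χ i) (v i)) : AL Z (fun t => ∑ i ∈ T, χ i t) (∑ i ∈ T, v i) := by
  induction T using Finset.induction_on with
  | empty => simpa using AL.const Z 0
  | insert a T ha ih =>
    simp only [sum_insert ha]
    exact (h a (mem_insert_self _ _)).add (ih fun i hi => h i (mem_insert_of_mem hi))

theorem AL.scale {M : ℝ} (hM : 1 ≤ M) (h : AL (M * Z) χ v) : AL Z (fun t => χ (M * t)) v := by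
  intro δ hδ
  obtain ⟨a, a0, ha⟩ := h δ hδ
  refine ⟨a / M, by positivity, fun P w s τ hτ H => ?_⟩
  rw [le_div_iff₀' (by linarith)] at hτ
  simpa only [mul_sum] using ha P w _ _ hτ (H.scale hM)

/-- the mean of the size -/
theorem AL.mean (hZ : 0 ≤ Z) {σ : ℝ} (hσ : |σ| ≤ 1) : AL Z (fun t => σ * t) (σ * Z) := by
  intro δ hδ
  refine ⟨min 1 (δ / (Z + 2)), by positivity, fun P w s τ hτ H => ?_⟩
  have t1 := hτ.trans (min_le_left _ _)
  have t2 := (le_div_iff₀ (by linarith)).1 (hτ.trans (min_le_right _ _))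
  have k := H.key hZ t1 (∑ q ∈ P, s q + Z + 1)
  rw [Ex_congr (ψ := fun S => ∑ q ∈ S, s q - Z) fun S hS => by
    have := sum_le_sum_of_subset_of_nonneg hS fun q hq _ => H.s0 q hq
    rw [ind, if_pos (by linarith), min_eq_right (by linarith), max_eq_right hZ, mul_one],
    Ex_sub, Ex_const] at k
  have k1 : er Z τ ≤ δ := by
    have := H.tau
    unfold er
    nlinarith
  have k2 := (abs_mul σ _).trans_le (mul_le_mul hσ (k.trans k1) (abs_nonneg _) zero_le_one)
  rw [Ex_mul]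
  linarith [(abs_le.1 k2).1]

/-- indicator of `[a, b)` -/
def box (a b t : ℝ) : ℝ := if a ≤ t ∧ t < b then 1 else 0

theorem Ex_box (P : Finset ℕ) (w s : ℕ → ℝ) {a b : ℝ} (hab : a ≤ b) :
    (Ex P w fun S => box a b (∑ p ∈ S, s p)) = CC P w s b - CC P w s a := by
  rw [← mass_eq hab, mass, sum_filter, Ex]
  exact sum_congr rfl fun S _ => by simp only [box, mul_ite, mul_one, mul_zero]

def UU (N : ℕ) : ℕ → ℕ := sq gU N 1099511627776

def LL (N : ℕ) : ℕ → ℕ := sq gL N 1099511627776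

def TL (N : ℕ) : ℕ := ∑ k ∈ Ico 0 (6 * N), LL N k

def TU (N : ℕ) : ℕ := 5 * ∑ k ∈ Ico 0 (6 * N), UU N k + ∑ k ∈ Ico (5 * N) (6 * N), UU N k

/-- the masses of the unit boxes -/
theorem AL.unit {N : ℕ} (hN : 2 ≤ N) (h1 : 1 ≤ TL N) (h2 : 1 ≤ TU N) (i : ℕ) :
    AL N (fun t => -box i (i + 1) t) (-(UU N i / TL N)) ∧
    AL N (box i (i + 1)) (5 * LL N i / TU N) := by
  have hN' : (2 : ℝ) ≤ N := mod_cast hN
  have A1 : (1 : ℝ) ≤ TL N := mod_cast h1
  have B1 : (1 : ℝ) ≤ TU N := mod_cast h2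
  have H : ∀ E : ℝ, 0 < E → ∃ τ₀ : ℝ, 0 < τ₀ ∧ ∀ (P : Finset ℕ) (w s : ℕ → ℝ) (τ : ℝ), τ ≤ τ₀ →
      Hyp P w s N τ → ∃ γ : ℝ, 0 ≤ γ ∧ γ * TL N ≤ 1 + 25 * (E * N) ∧
        5 - 160 * (E * N) ≤ γ * TU N ∧
        CC P w s (i + 1) - CC P w s i ≤ γ * UU N i + E * (4 * i + 6) ∧
        γ * LL N i ≤ CC P w s (i + 1) - CC P w s i + E * (4 * i + 6) := by
    intro E hE
    obtain ⟨τ₀, t0, t1, H⟩ := lin' hN hE
    refine ⟨τ₀, t0, fun P w s τ hτ h => ?_⟩
    obtain ⟨he, hl⟩ := H _ _ _ _ hτ h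
    have t2 := hτ.trans t1
    have c0 : 0 ≤ CC P w s N := (h.zero le_rfl).ge.trans (h.mono t2 (by linarith))
    obtain ⟨γ, hγ, hl'⟩ : ∃ γ : ℝ, 0 ≤ γ ∧
        ∀ i : ℕ, i ≤ N → |CC P w s i - γ * ((1099511627776 : ℕ) * i)| ≤ E :=
      ⟨CC P w s N / N / (1099511627776 : ℕ), by positivity, fun i hi => by
        rw [← mul_assoc, div_mul_cancel₀ _ (by positivity)]
        exact hl i hi⟩
    have hEN : 2 * E ≤ E * N := by nlinarith
    have n1 := lower h hN t2 he hγ hl' (Nat.zero_le (6 * N))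
    have n2 := upper h hN t2 he hγ hl' (Nat.zero_le (6 * N))
    have n3 := upper h hN t2 he hγ hl' (show 5 * N ≤ 6 * N by omega)
    have n4 := h.tail (by linarith) t2 (6 * N : ℕ)
    have n5 := h.le_one t2 (6 * N : ℕ)
    have m1 := upper h hN t2 he hγ hl' (Nat.le_succ i)
    have m2 := lower h hN t2 he hγ hl' (Nat.le_succ i)
    rw [h.zero (x := (0 : ℕ)) (by simp)] at n1 n2
    rw [show ((6 * N : ℕ) : ℝ) - N = (5 * N : ℕ) by push_cast; ring] at n4
    rw [Nat.Ico_succ_singleton, sum_singleton, Nat.cast_succ] at m1 m2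
    have e6 : ((6 * N : ℕ) : ℝ) = 6 * N := by push_cast; ring
    generalize CC P w s (6 * N : ℕ) = x6 at *
    generalize CC P w s (5 * N : ℕ) = x5 at *
    rw [e6] at n1 n2 n3 n4
    have n6 : 6 * (1 - x6) ≤ 1 - x5 + E := by
      refine le_of_mul_le_mul_left ?_ (show (0 : ℝ) < N by linarith)
      nlinarith
    refine ⟨γ, hγ, ?_, ?_, ?_, ?_⟩
    · unfold TL LL
      linarith
    · unfold TU UU
      rw [Nat.cast_add, Nat.cast_mul, Nat.cast_ofNat]
      linarith
    · unfold UU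
      linarith
    · unfold LL
      linarith
  constructor
  · intro δ hδ
    have K0 : (0 : ℝ) < 25 * N * UU N i + (4 * i + 6) := by positivity
    obtain ⟨τ₀, t0, H⟩ := H (δ / (25 * N * UU N i + (4 * i + 6))) (by positivity)
    refine ⟨τ₀, t0, fun P w s τ hτ h => ?_⟩
    obtain ⟨γ, g0, g1, -, g2, -⟩ := H P w s τ hτ h
    have e := div_mul_cancel₀ δ K0.ne'
    have E0 : 0 ≤ δ / (25 * N * UU N i + (4 * i + 6)) := by positivity
    generalize δ / (25 * N * UU N i + (4 * i + 6)) = E at *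
    have g3 : γ ≤ 1 / TL N + 25 * (E * N) := by
      refine le_of_mul_le_mul_right ?_ (show (0 : ℝ) < TL N by linarith)
      rw [add_mul, div_mul_cancel₀ _ (by linarith)]
      have : 25 * (E * N) ≤ 25 * (E * N) * TL N := le_mul_of_one_le_right (by positivity) A1
      linarith
    have g4 := mul_le_mul_of_nonneg_right g3 (Nat.cast_nonneg (UU N i))
    have e2 := Ex_mul (P := P) (w := w) (-1) fun S => box i (i + 1) (∑ p ∈ S, s p)
    simp only [neg_mul, one_mul] at e2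
    rw [e2, Ex_box _ _ _ (by linarith), div_eq_mul_one_div]
    linarith
  · intro δ hδ
    have K0 : (0 : ℝ) < 160 * N * LL N i + (4 * i + 6) := by positivity
    obtain ⟨τ₀, t0, H⟩ := H (δ / (160 * N * LL N i + (4 * i + 6))) (by positivity)
    refine ⟨τ₀, t0, fun P w s τ hτ h => ?_⟩
    obtain ⟨γ, g0, -, g1, -, g2⟩ := H P w s τ hτ h
    have e := div_mul_cancel₀ δ K0.ne'
    have E0 : 0 ≤ δ / (160 * N * LL N i + (4 * i + 6)) := by positivity
    generalize δ / (160 * N * LL N i + (4 * i + 6)) = E at *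
    have g3 : 5 * (1 / TU N) - 160 * (E * N) ≤ γ := by
      refine le_of_mul_le_mul_right ?_ (show (0 : ℝ) < TU N by linarith)
      rw [sub_mul, mul_assoc, div_mul_cancel₀ _ (by linarith)]
      have : 160 * (E * N) ≤ 160 * (E * N) * TU N := le_mul_of_one_le_right (by positivity) B1
      linarith
    have g4 := mul_le_mul_of_nonneg_right g3 (Nat.cast_nonneg (LL N i))
    rw [Ex_box _ _ _ (by linarith), div_eq_mul_one_div]
    linarith

/-- the sum of the partial sums -/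
def sp (l : List ℕ) : ℕ → ℕ → ℕ :=
  List.rec (fun _ t => t) (fun x _ ih a t =>
    frc (Nat.add a x) fun a' => frc (Nat.add t a') (ih a')) l

theorem sp_eq (f : ℕ → ℕ) : ∀ (n b a t : ℕ), sp ((List.range' b n).map f) a t =
    t + n * a + ∑ i ∈ range n, (n - i) * f (b + i)
  | 0, _, _, _ => by simp [sp]
  | n + 1, b, a, t => by
    have ih := sp_eq f n (b + 1) (a + f b) (t + (a + f b))
    simp only [sp, frc_eq] at ih
    simp only [List.range'_succ, List.map_cons, sp, frc_eq]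
    refine ih.trans ?_
    simp only [sum_range_succ', Nat.add_sub_add_right, Nat.sub_zero, add_zero, add_assoc b,
      add_comm 1]
    ring

/-- sum and weighted sum over one cell -/
def c2 (f : ℕ → ℕ) (st j : ℕ) : ℕ × ℕ :=
  (∑ i ∈ range st, f (j * st + i), ∑ i ∈ range st, (st - i) * f (j * st + i))

def cell2 (st n : ℕ) : List ℕ → List (ℕ × ℕ) :=
  Nat.rec (fun _ => []) (fun _ ih l => frc (sm (l.take st) 0) fun c =>
    frc (sp (l.take st) 0 0) fun d => (c, d) :: ih (l.drop st)) n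

theorem cell2_eq (f : ℕ → ℕ) (st : ℕ) : ∀ n j : ℕ,
    cell2 st n ((List.range' (j * st) (n * st)).map f) = (List.range' j n).map (c2 f st)
  | 0, _ => rfl
  | n + 1, j => by
    have ih := cell2_eq f st n (j + 1)
    have e : List.range' (j * st) ((n + 1) * st) =
        List.range' (j * st) st ++ List.range' ((j + 1) * st) (n * st) := by
      rw [show (n + 1) * st = st + n * st by ring, ← List.range'_append_1, add_mul, one_mul]
    rw [e, List.map_append]
    simp only [cell2, frc_eq, sm_eq] at ih ⊢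
    rw [List.take_left' (by simp), List.drop_left' (by simp), ih, sum_map, zero_add, sp_eq,
      List.range'_succ, List.map_cons, sum_Ico_eq_sum_range, Nat.add_sub_cancel_left, mul_zero,
      zero_add, zero_add]
    rfl

def sf (l : List (ℕ × ℕ)) : ℕ := sm (l.map Prod.fst) 0

theorem sf_eq (f : ℕ → ℕ) (st j n : ℕ) : sf ((List.range' j n).map (c2 f st)) =
    ∑ k ∈ Ico (j * st) ((j + n) * st), f k := by
  rw [sf, sm_eq, zero_add, List.map_map, sum_map, ← sum_cl]
  refine sum_congr rfl fun k _ => ?_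
  rw [cl, sum_Ico_eq_sum_range, Nat.add_sub_cancel_left]
  rfl

def go2 (g : ℕ → ℕ → ℕ → ℕ) (Z st k : ℕ) : List ℕ → ℕ → List (ℕ × ℕ) :=
  Nat.rec (fun _ _ => []) (fun _ ih l i =>
    cell2 st Z l ++ ih (run g l i (sf (cell2 st Z l))) (i + Z * st)) k

theorem go2_eq (g : ℕ → ℕ → ℕ → ℕ) {Z st : ℕ} (hN : 1 ≤ Z * st) (u : ℕ) : ∀ k j : ℕ,
    go2 g Z st k ((List.range' (j * st) (Z * st)).map (sq g (Z * st) u)) (j * st + Z * st) =
      (List.range' j (k * Z)).map (c2 (sq g (Z * st) u) st)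
  | 0, _ => by simp [go2]
  | k + 1, j => by
    have ih := go2_eq g hN u k (j + Z)
    simp only [go2] at ih ⊢
    rw [cell2_eq, sf_eq, add_mul j, run_eq g hN, ← add_mul j, ih,
      ← List.map_append, List.range'_append_1, show Z + k * Z = (k + 1) * Z by ring]

def tab2 (g : ℕ → ℕ → ℕ → ℕ) (Z st : ℕ) : List (ℕ × ℕ) :=
  go2 g Z st 6 (List.replicate (Z * st) 1099511627776) (Z * st)

theorem tab2_eq (g : ℕ → ℕ → ℕ → ℕ) {Z st : ℕ} (hN : 1 ≤ Z * st) :
    tab2 g Z st = (List.range' 0 (6 * Z)).map (c2 (sq g (Z * st) 1099511627776) st) := by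
  rw [← go2_eq g hN, zero_mul, zero_add, tab2]
  congr 1
  refine (List.eq_replicate_iff.2 ⟨by simp, fun b hb => ?_⟩).symm
  obtain ⟨k, hk, rfl⟩ := List.mem_map.1 hb
  exact sq_lt _ _ (by simpa using hk)

/-- The checker. The entry `j` of `hi` (of `lo`) is a pair of upper (lower) bounds, in units of
`2 ^ (-32)`, for the means of `j + 1 - t` and of `t - j` on the cell `[j, j + 1)`. -/
def check2 (Z st : ℕ) (lo hi : List (ℕ × ℕ)) : Bool :=
  Nat.ble 2 (Z * st) && Nat.ble hi.length (6 * Z) && Nat.ble lo.length (6 * Z) &&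
  (frc (sf (tab2 gL Z st)) fun A =>
    frc (5 * sf (tab2 gU Z st) + sf ((tab2 gU Z st).drop (5 * Z))) fun B =>
    Nat.ble 1 A && Nat.ble 1 B &&
    ((hi.zip (tab2 gU Z st)).all fun p =>
      Nat.ble (p.2.2 * 4294967296) (p.1.1 * st * A) &&
      Nat.ble ((st + 1) * p.2.1 * 4294967296) (p.1.2 * st * A + p.2.2 * 4294967296)) &&
    (lo.zip (tab2 gL Z st)).all fun p =>
      Nat.ble (p.1.1 * st * B + 5 * p.2.1 * 4294967296) (5 * p.2.2 * 4294967296) &&
      Nat.ble (p.1.2 * st * B + 5 * p.2.2 * 4294967296) (5 * (st * p.2.1) * 4294967296))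

theorem zip_all2 {α β : Type} {f : ℕ → β} {n : ℕ} {l : List α} {q : α × β → Bool}
    (hl : l.length ≤ n) (h : (l.zip ((List.range' 0 n).map f)).all q = true) {j : ℕ}
    (hj : j < l.length) : q (l[j], f j) = true := by
  refine List.all_eq_true.1 h _ (List.mem_iff_getElem.2 ⟨j, by simp; omega, ?_⟩)
  simp

/-- the affine function on `[j, j + 1)` with the values `A` and `B` at the ends -/
def aff (j : ℕ) (A B t : ℝ) : ℝ := box j (j + 1) t * (A * (j + 1 - t) + B * (t - j))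

theorem step_eq {st : ℕ} (hst : 1 ≤ st) (j : ℕ) (c : ℕ → ℝ) (t : ℝ) :
    (¬ ((j : ℝ) ≤ t ∧ t < j + 1) ∧
      ∑ i ∈ range st, c i * box (j * st + i : ℕ) ((j * st + i : ℕ) + 1) (st * t) = 0) ∨
    (((j : ℝ) ≤ t ∧ t < j + 1) ∧ ∃ k : ℕ, k < st ∧ (j * st + k : ℝ) ≤ st * t ∧
      st * t < j * st + k + 1 ∧
      ∑ i ∈ range st, c i * box (j * st + i : ℕ) ((j * st + i : ℕ) + 1) (st * t) = c k) := by
  have s0 : (0 : ℝ) < st := mod_cast hst
  by_cases h : (j : ℝ) ≤ t ∧ t < j + 1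
  · have h1 : 0 ≤ st * t - j * st := by nlinarith [h.1]
    have h2 := Nat.floor_le h1
    have h3 := Nat.lt_floor_add_one (st * t - j * st)
    have h4 : ⌊st * t - j * st⌋₊ < st := (Nat.floor_lt h1).2 (by nlinarith [h.2])
    refine .inr ⟨h, _, h4, by linarith, by linarith, ?_⟩
    rw [sum_eq_single_of_mem _ (mem_range.2 h4) fun i _ hi => ?_, box, if_pos, mul_one]
    · push_cast
      exact ⟨by linarith, by linarith⟩
    · rw [box, if_neg, mul_zero]
      push_cast
      exact fun h5 => hi ((Nat.floor_eq_iff h1).2 ⟨by linarith [h5.1], by linarith [h5.2]⟩).symm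
  · refine .inl ⟨h, sum_eq_zero fun i hi => ?_⟩
    rw [box, if_neg, mul_zero]
    have h1 : (i : ℝ) + 1 ≤ st := mod_cast mem_range.1 hi
    have h2 : (0 : ℝ) ≤ i := Nat.cast_nonneg i
    push_cast
    refine fun h5 => h ⟨le_of_mul_le_mul_left (by linarith [h5.1]) s0,
      lt_of_mul_lt_mul_left (by linarith [h5.2]) s0.le⟩

theorem cast_w (f : ℕ → ℕ) (st b : ℕ) : ((∑ i ∈ range st, (st - i) * f (b + i) : ℕ) : ℝ) =
    ∑ i ∈ range st, ((st : ℝ) - i) * f (b + i) := by
  rw [Nat.cast_sum]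
  exact sum_congr rfl fun i hi => by rw [Nat.cast_mul, Nat.cast_sub (mem_range.1 hi).le]

/-- Soundness of the checker. -/
theorem law2 {Z st : ℕ} {lo hi : List (ℕ × ℕ)} (hc : check2 Z st lo hi = true) {A B : ℝ}
    (hA : 0 ≤ A) (hB : 0 ≤ B) :
    (∀ (j : ℕ) (hj : j < hi.length),
      AL Z (fun t => -aff j A B t) (-((A * hi[j].1 + B * hi[j].2) / 2 ^ 32))) ∧
    ∀ (j : ℕ) (hj : j < lo.length),
      AL Z (aff j A B) ((A * lo[j].1 + B * lo[j].2) / 2 ^ 32) := by
  simp only [check2, frc_eq, Bool.and_eq_true, Nat.ble_eq] at hc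
  obtain ⟨⟨⟨hN, lh⟩, ll⟩, ⟨⟨A1, B1⟩, c1⟩, c2'⟩ := hc
  have hN1 : 1 ≤ Z * st := by omega
  have hst : 1 ≤ st := Nat.pos_of_mul_pos_left hN1
  have hst' : (1 : ℝ) ≤ st := mod_cast hst
  have eL : sf (tab2 gL Z st) = TL (Z * st) := by
    rw [tab2_eq _ hN1, sf_eq, zero_add, zero_mul, mul_assoc]
    rfl
  have eU : 5 * sf (tab2 gU Z st) + sf ((tab2 gU Z st).drop (5 * Z)) = TU (Z * st) := by
    rw [tab2_eq _ hN1, ← List.map_drop, List.drop_range', sf_eq, sf_eq, zero_add, zero_add,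
      zero_mul, mul_one, mul_assoc, mul_assoc,
      show (5 * Z + (6 * Z - 5 * Z)) * st = 6 * (Z * st) by
        rw [Nat.add_sub_cancel' (by omega), mul_assoc]]
    rfl
  rw [eL] at A1 c1
  rw [eU] at B1 c2'
  rw [tab2_eq _ hN1] at c1 c2'
  have hNc : ((Z * st : ℕ) : ℝ) = st * Z := by push_cast; ring
  have U := AL.unit hN A1 B1
  rw [hNc] at U
  have A1' : (0 : ℝ) < TL (Z * st) := mod_cast A1
  have B1' : (0 : ℝ) < TU (Z * st) := mod_cast B1
  have s0 : (0 : ℝ) < st := by linarith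
  refine ⟨fun j hj => ?_, fun j hj => ?_⟩
  · have q := zip_all2 lh c1 hj
    simp only [Bool.and_eq_true, Nat.ble_eq, c2] at q
    have q1 := Nat.cast_le (α := ℝ).2 q.1
    have q2 := Nat.cast_le (α := ℝ).2 q.2
    simp only [Nat.cast_mul, Nat.cast_add, Nat.cast_ofNat, Nat.cast_one, cast_w] at q1 q2
    have H := (AL.sum (range st) (χ := fun i t => (A * (st - i) + B * (i + 1)) / st *
      -box (j * st + i : ℕ) ((j * st + i : ℕ) + 1) t) fun i hi => (U (j * st + i)).1.smul (by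
        have : (i : ℝ) ≤ st := mod_cast (mem_range.1 hi).le
        have : 0 ≤ (st : ℝ) - i := by linarith
        positivity)).scale hst'
    refine H.mono ?_ fun t _ => ?_
    · have e : ∑ i ∈ range st, (A * (st - i) + B * (i + 1)) / st *
          -((UU (Z * st) (j * st + i) : ℝ) / TL (Z * st)) =
          -((A * ∑ i ∈ range st, ((st : ℝ) - i) * UU (Z * st) (j * st + i) +
            B * ((st + 1) * (∑ i ∈ range st, UU (Z * st) (j * st + i) : ℕ) -
              ∑ i ∈ range st, ((st : ℝ) - i) * UU (Z * st) (j * st + i))) /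
            (st * TL (Z * st))) := by
        rw [Nat.cast_sum, mul_sum, mul_sum, ← sum_sub_distrib, mul_sum, ← sum_add_distrib, sum_div,
          ← sum_neg_distrib]
        exact sum_congr rfl fun i _ => by field_simp; ring
      rw [e, neg_le_neg_iff, div_le_div_iff₀ (by positivity) (by positivity)]
      unfold UU
      nlinarith [mul_le_mul_of_nonneg_left q1 hA, mul_le_mul_of_nonneg_left q2 hB]
    · simp only [mul_neg, sum_neg_distrib, neg_le_neg_iff]
      rcases step_eq hst j (fun i => (A * (st - i) + B * (i + 1)) / st) t with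
        ⟨h, e⟩ | ⟨h, k, -, k1, k2, e⟩
      · rw [e, aff, box, if_neg h, zero_mul]
      · rw [e, aff, box, if_pos h, one_mul, le_div_iff₀ s0]
        nlinarith [mul_le_mul_of_nonneg_left k1 hA, mul_le_mul_of_nonneg_left k2.le hB]
  · have q := zip_all2 ll c2' hj
    simp only [Bool.and_eq_true, Nat.ble_eq, c2] at q
    have q1 := Nat.cast_le (α := ℝ).2 q.1
    have q2 := Nat.cast_le (α := ℝ).2 q.2
    simp only [Nat.cast_mul, Nat.cast_add, Nat.cast_ofNat, cast_w] at q1 q2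
    have H := (AL.sum (range st) (χ := fun i t => (A * (st - i - 1) + B * i) / st *
      box (j * st + i : ℕ) ((j * st + i : ℕ) + 1) t) fun i hi => (U (j * st + i)).2.smul (by
        have : (i : ℝ) + 1 ≤ st := mod_cast mem_range.1 hi
        have : 0 ≤ (st : ℝ) - i - 1 := by linarith
        positivity)).scale hst'
    refine H.mono ?_ fun t _ => ?_
    · have e : ∑ i ∈ range st, (A * (st - i - 1) + B * i) / st *
          (5 * (LL (Z * st) (j * st + i) : ℝ) / TU (Z * st)) =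
          5 * (A * (∑ i ∈ range st, ((st : ℝ) - i) * LL (Z * st) (j * st + i) -
              (∑ i ∈ range st, LL (Z * st) (j * st + i) : ℕ)) +
            B * (st * (∑ i ∈ range st, LL (Z * st) (j * st + i) : ℕ) -
              ∑ i ∈ range st, ((st : ℝ) - i) * LL (Z * st) (j * st + i))) /
            (st * TU (Z * st)) := by
        rw [Nat.cast_sum, mul_sum _ _ (st : ℝ), ← sum_sub_distrib, ← sum_sub_distrib, mul_sum,
          mul_sum, ← sum_add_distrib, mul_sum, sum_div]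
        exact sum_congr rfl fun i _ => by field_simp; ring
      rw [e, div_le_div_iff₀ (by positivity) (by positivity)]
      unfold LL
      nlinarith [mul_le_mul_of_nonneg_left q1 hA, mul_le_mul_of_nonneg_left q2 hB]
    · rcases step_eq hst j (fun i => (A * (st - i - 1) + B * i) / st) t with
        ⟨h, e⟩ | ⟨h, k, -, k1, k2, e⟩
      · rw [e, aff, box, if_neg h, zero_mul]
      · rw [e, aff, box, if_pos h, one_mul, div_le_iff₀ s0]
        nlinarith [mul_le_mul_of_nonneg_left k2.le hA, mul_le_mul_of_nonneg_left k1 hB]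

end Pool.Agent.Lib.MP_4b1228_nt.PP.DK
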