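import Pool.Agent.Lib.MP_4b1228_nt.PP.St

/-!
Elementary facts on the number of roots of `l ^ 2 + 1`.
-/

open Finset Real
open scoped Classical

noncomputable section

namespace Pool.Agent.Lib.MP_4b1228_nt.PP

namespace Rho

/-- The roots in `ZMod k`. -/
def rts (k : ℕ) [NeZero k] : Finset (ZMod k) := {x | x ^ 2 + 1 = 0}

theorem mem_rts (k : ℕ) [NeZero k] (x : ZMod k) : x ∈ rts k ↔ x ^ 2 + 1 = 0 := by
  simp [rts]

theorem cast_mem (k : ℕ) [NeZero k] (l : ℤ) : (l : ZMod k) ∈ rts k ↔ (k : ℤ) ∣ l ^ 2 + 1 := by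
  rw [mem_rts, ← ZMod.intCast_zmod_eq_zero_iff_dvd]
  push_cast
  rfl

theorem exists_rep (k : ℕ) [NeZero k] (a : ℤ) (x : ZMod k) :
    ∃ l : ℤ, a ≤ l ∧ l < a + k ∧ (l : ZMod k) = x := by
  refine ⟨a + ((x - (a : ZMod k)).val : ℕ), by omega, ?_, ?_⟩
  · have := ZMod.val_lt (x - (a : ZMod k))
    omega
  · push_cast
    rw [ZMod.natCast_zmod_val]
    ring

theorem card_Ico (k : ℕ) [NeZero k] (a : ℤ) :
    #{l ∈ Ico a (a + k) | (k : ℤ) ∣ l ^ 2 + 1} = #(rts k) := by
  refine Finset.card_bij (fun l _ => (l : ZMod k)) ?_ ?_ ?_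
  · intro l hl
    exact (cast_mem k l).2 (mem_filter.1 hl).2
  · intro l hl l' hl' h
    have h1 := mem_Ico.1 (mem_filter.1 hl).1
    have h2 := mem_Ico.1 (mem_filter.1 hl').1
    have hd := (ZMod.intCast_eq_intCast_iff_dvd_sub l l' k).1 h
    have : l' - l = 0 := Int.eq_zero_of_abs_lt_dvd hd (by rw [abs_lt]; constructor <;> omega)
    omega
  · intro x hx
    obtain ⟨l, h1, h2, h3⟩ := exists_rep k a x
    exact ⟨l, mem_filter.2 ⟨mem_Ico.2 ⟨h1, h2⟩, (cast_mem k l).1 (h3 ▸ hx)⟩, h3⟩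

theorem rho_eq (k : ℕ) [NeZero k] : rho k = #(rts k) := by
  rw [← card_Ico k 0, rho]
  refine Finset.card_bij (fun l _ => (l : ℤ)) ?_ ?_ ?_
  · intro l hl
    have h := mem_filter.1 hl
    have h1 := mem_range.1 h.1
    refine mem_filter.2 ⟨mem_Ico.2 ⟨by omega, by omega⟩, ?_⟩
    exact_mod_cast h.2
  · intro l _ l' _ h
    exact_mod_cast h
  · intro l hl
    have h := mem_filter.1 hl
    have h1 := mem_Ico.1 h.1
    obtain ⟨n, rfl⟩ := Int.eq_ofNat_of_zero_le h1.1
    refine ⟨n, mem_filter.2 ⟨mem_range.2 (by omega), ?_⟩, rfl⟩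
    exact_mod_cast h.2

theorem rho_zero : rho 0 = 0 := by simp [rho]

theorem rho_one : rho 1 = 1 := by simp [rho]

theorem rho_two : rho 2 = 1 := by
  unfold rho
  rw [show (range 2).filter (fun l => 2 ∣ l ^ 2 + 1) = {1} from ?_]
  · simp
  · ext l
    simp only [mem_filter, mem_range, mem_singleton]
    constructor
    · rintro ⟨h1, h2⟩
      interval_cases l
      · simp at h2
      · rfl
    · rintro rfl
      simp

theorem rho_mul (a b : ℕ) (h : a.Coprime b) : rho (a * b) = rho a * rho b := by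
  rcases Nat.eq_zero_or_pos a with rfl | ha
  · simp [rho_zero]
  rcases Nat.eq_zero_or_pos b with rfl | hb
  · simp [rho_zero]
  have : NeZero a := ⟨ha.ne'⟩
  have : NeZero b := ⟨hb.ne'⟩
  have : NeZero (a * b) := ⟨(Nat.mul_pos ha hb).ne'⟩
  rw [rho_eq, rho_eq, rho_eq, ← card_product]
  refine Finset.card_bij (fun x _ => ZMod.chineseRemainder h x) ?_ ?_ ?_
  · intro x hx
    have h1 := congrArg (ZMod.chineseRemainder h) ((mem_rts _ x).1 hx)
    rw [map_add, map_pow, map_one, map_zero] at h1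
    refine mem_product.2 ⟨(mem_rts _ _).2 ?_, (mem_rts _ _).2 ?_⟩
    · simpa using congrArg Prod.fst h1
    · simpa using congrArg Prod.snd h1
  · intro x _ y _ hxy
    exact (ZMod.chineseRemainder h).injective hxy
  · intro y hy
    obtain ⟨h1, h2⟩ := mem_product.1 hy
    refine ⟨(ZMod.chineseRemainder h).symm y, (mem_rts _ _).2 ?_, by simp⟩
    apply (ZMod.chineseRemainder h).injective
    rw [map_add, map_pow, map_one, map_zero, RingEquiv.apply_symm_apply]
    exact Prod.ext (by simpa using (mem_rts _ _).1 h1) (by simpa using (mem_rts _ _).1 h2)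

theorem rho_eq_zero_of (k m : ℕ) (hm : m ∣ k) (h : ∀ l : ℕ, ¬ m ∣ l ^ 2 + 1) : rho k = 0 := by
  unfold rho
  rw [card_eq_zero, filter_eq_empty_iff]
  exact fun l _ hl => h l (hm.trans hl)

theorem not_four_dvd (l : ℕ) : ¬ 4 ∣ l ^ 2 + 1 := by
  rcases Nat.even_or_odd' l with ⟨m, rfl | rfl⟩
  · have : (2 * m) ^ 2 + 1 = 4 * (m ^ 2) + 1 := by ring
    omega
  · have : (2 * m + 1) ^ 2 + 1 = 4 * (m ^ 2 + m) + 2 := by ring
    omega

theorem rho_two_pow (j : ℕ) (hj : 2 ≤ j) : rho (2 ^ j) = 0 :=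
  rho_eq_zero_of _ 4 (pow_dvd_pow 2 hj : 2 ^ 2 ∣ 2 ^ j) not_four_dvd

theorem rho_three (p j : ℕ) (hp : p.Prime) (h3 : p % 4 = 3) (hj : 1 ≤ j) : rho (p ^ j) = 0 := by
  have : Fact p.Prime := ⟨hp⟩
  refine rho_eq_zero_of _ p (dvd_pow_self p (by omega)) fun l hl => ?_
  have h : ((l ^ 2 + 1 : ℕ) : ZMod p) = 0 := (ZMod.natCast_eq_zero_iff _ _).2 hl
  push_cast at h
  exact ZMod.mod_four_ne_three_of_sq_eq_neg_one (p := p) (y := (l : ZMod p))
    (eq_neg_of_add_eq_zero_left h) h3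

theorem rho_one_mod (p j : ℕ) (hp : p.Prime) (h1 : p % 4 = 1) (hj : 1 ≤ j) : rho (p ^ j) = 2 := by
  have : Fact p.Prime := ⟨hp⟩
  have : NeZero (p ^ j) := ⟨pow_ne_zero _ hp.ne_zero⟩
  obtain ⟨y, hy⟩ := (ZMod.exists_sq_eq_neg_one_iff (p := p)).2 (by omega)
  obtain ⟨l, -, -, rfl⟩ := exists_rep p 0 y
  have hl : (p : ℤ) ∣ l ^ 2 - (-1) := by
    rw [← ZMod.intCast_zmod_eq_zero_iff_dvd]
    push_cast
    rw [hy]
    ring
  obtain ⟨i, rfl⟩ : ∃ i, j = i + 1 := ⟨j - 1, by omega⟩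
  have hodd : Odd (p ^ i) := Odd.pow (Nat.odd_iff.2 (by omega))
  have h2 := dvd_sub_pow_of_dvd_sub hl i
  rw [hodd.neg_one_pow, ← pow_mul, mul_comm, pow_mul, sub_neg_eq_add] at h2
  set x : ℤ := l ^ p ^ i with hx
  have hpz : Prime (p : ℤ) := Nat.prime_iff_prime_int.1 hp
  have hpp : (p : ℤ) ∣ (p : ℤ) ^ (i + 1) := dvd_pow_self _ (by omega)
  have hp2 : ¬ (p : ℤ) ∣ 2 * x := by
    intro h
    rcases hpz.dvd_or_dvd h with h | h
    · have : p ∣ 2 := by exact_mod_cast h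
      have := Nat.le_of_dvd (by norm_num) this
      have := hp.two_le
      omega
    · have h3 : (p : ℤ) ∣ x ^ 2 := dvd_pow h (by norm_num)
      have h4 : (p : ℤ) ∣ 1 := (dvd_add_right h3).1 (hpp.trans h2)
      exact hpz.not_dvd_one h4
  rw [rho_eq, show rts (p ^ (i + 1)) = {(x : ZMod (p ^ (i + 1))), ((-x : ℤ) : ZMod (p ^ (i + 1)))}
    from ?_]
  · rw [card_pair]
    intro h
    have h3 := (ZMod.intCast_eq_intCast_iff_dvd_sub _ _ _).1 h
    push_cast at h3
    apply hp2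
    have h4 := hpp.trans h3
    rw [show -x - x = -(2 * x) by ring] at h4
    exact (dvd_neg).1 h4
  · ext z
    obtain ⟨m, -, -, rfl⟩ := exists_rep (p ^ (i + 1)) 0 z
    rw [cast_mem, mem_insert, mem_singleton, ZMod.intCast_eq_intCast_iff_dvd_sub,
      ZMod.intCast_eq_intCast_iff_dvd_sub]
    push_cast
    constructor
    · intro hm
      have h3 : (p : ℤ) ^ (i + 1) ∣ (x - m) * (-x - m) := by
        have := dvd_sub hm h2
        rwa [show m ^ 2 + 1 - (x ^ 2 + 1) = (x - m) * (-x - m) by ring] at this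
      by_cases h4 : (p : ℤ) ∣ x - m
      · left
        have h5 : ¬ (p : ℤ) ∣ -x - m := by
          intro h5
          apply hp2
          have := dvd_sub h4 h5
          rwa [show x - m - (-x - m) = 2 * x by ring] at this
        exact hpz.pow_dvd_of_dvd_mul_right _ h5 h3
      · right
        exact hpz.pow_dvd_of_dvd_mul_left _ h4 h3
    · rintro (h | h)
      · have := dvd_sub h2 (h.mul_right (x + m))
        rwa [show x ^ 2 + 1 - (x - m) * (x + m) = m ^ 2 + 1 by ring] at this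
      · have := dvd_add h2 (h.mul_right (x - m))
        rwa [show x ^ 2 + 1 + (-x - m) * (x - m) = m ^ 2 + 1 by ring] at this

theorem rho_odd (p j : ℕ) (hp : p.Prime) (h2 : p ≠ 2) (hj : 1 ≤ j) :
    rho (p ^ j) = if p % 4 = 1 then 2 else 0 := by
  have := hp.eq_two_or_odd
  split_ifs with h
  · exact rho_one_mod p j hp h hj
  · exact rho_three p j hp (by omega) hj

theorem rho_pp_le (p j : ℕ) (hp : p.Prime) : rho (p ^ j) ≤ 2 := by
  rcases Nat.eq_zero_or_pos j with rfl | hj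
  · simp [rho_one]
  by_cases h2 : p = 2
  · subst h2
    rcases Nat.lt_or_ge j 2 with h | h
    · obtain rfl : j = 1 := by omega
      simp [rho_two]
    · simp [rho_two_pow j h]
  · rw [rho_odd p j hp h2 hj]
    split_ifs <;> omega

theorem rho_pp_add (p i j : ℕ) (hp : p.Prime) : rho (p ^ (i + j)) ≤ rho (p ^ i) * rho (p ^ j) := by
  rcases Nat.eq_zero_or_pos i with rfl | hi
  · simp [rho_one]
  rcases Nat.eq_zero_or_pos j with rfl | hj
  · simp [rho_one]
  by_cases h2 : p = 2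
  · subst h2
    simp [rho_two_pow (i + j) (by omega)]
  · rw [rho_odd p _ hp h2 hi, rho_odd p _ hp h2 hj, rho_odd p _ hp h2 (by omega)]
    split_ifs <;> omega

theorem rho_prod (n : ℕ) (hn : n ≠ 0) (s : Finset ℕ) (hs : n.primeFactors ⊆ s) :
    rho n = ∏ p ∈ s, rho (p ^ n.factorization p) := by
  rw [Nat.multiplicative_factorization rho rho_mul rho_one hn]
  exact Finsupp.prod_of_support_subset _ (by simpa using hs) _ fun p _ => by simp [rho_one]

theorem rho_mul_le (a b : ℕ) : rho (a * b) ≤ rho a * rho b := by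
  rcases eq_or_ne a 0 with rfl | ha
  · simp [rho_zero]
  rcases eq_or_ne b 0 with rfl | hb
  · simp [rho_zero]
  rw [rho_prod (a * b) (mul_ne_zero ha hb) _ subset_rfl,
    rho_prod a ha (a * b).primeFactors (Nat.primeFactors_mono (dvd_mul_right a b) (mul_ne_zero ha hb)),
    rho_prod b hb (a * b).primeFactors (Nat.primeFactors_mono (dvd_mul_left b a) (mul_ne_zero ha hb)),
    ← prod_mul_distrib]
  refine prod_le_prod' fun p hp => ?_
  rw [Nat.factorization_mul ha hb, Finsupp.add_apply]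
  exact rho_pp_add p _ _ (Nat.prime_of_mem_primeFactors hp)

theorem rho_le_div (k : ℕ) : rho k ≤ k.divisors.card := by
  rcases eq_or_ne k 0 with rfl | hk
  · simp [rho_zero]
  rw [rho_prod k hk _ subset_rfl, Nat.card_divisors hk]
  refine prod_le_prod' fun p hp => ?_
  have h1 := rho_pp_le p (k.factorization p) (Nat.prime_of_mem_primeFactors hp)
  have h2 : 1 ≤ k.factorization p :=
    (Nat.prime_of_mem_primeFactors hp).factorization_pos_of_dvd hk (Nat.dvd_of_mem_primeFactors hp)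
  omega

theorem rho_Ico (k : ℕ) (a : ℤ) : #{l ∈ Ico a (a + k) | (k : ℤ) ∣ l ^ 2 + 1} = rho k := by
  rcases eq_or_ne k 0 with rfl | hk
  · simp [rho_zero]
  have : NeZero k := ⟨hk⟩
  rw [card_Ico, rho_eq]

theorem rho_Ico_even (k : ℕ) (a : ℤ) (hk : Odd k) :
    #{l ∈ Ico a (a + 2 * k) | Even l ∧ (k : ℤ) ∣ l ^ 2 + 1} = rho k := by
  have : NeZero k := ⟨hk.pos.ne'⟩
  have hk2 : (k : ℤ) % 2 = 1 := by
    have := Nat.odd_iff.1 hk
    omega
  rw [rho_eq]
  refine Finset.card_bij (fun l _ => (l : ZMod k)) ?_ ?_ ?_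
  · intro l hl
    exact (cast_mem k l).2 (mem_filter.1 hl).2.2
  · intro l hl l' hl' h
    have h1 := mem_Ico.1 (mem_filter.1 hl).1
    have h2 := mem_Ico.1 (mem_filter.1 hl').1
    have hd := (ZMod.intCast_eq_intCast_iff_dvd_sub l l' k).1 h
    have h3 : (2 : ℤ) ∣ l' - l :=
      even_iff_two_dvd.1 ((mem_filter.1 hl').2.1.sub (mem_filter.1 hl).2.1)
    have h4 : IsCoprime (2 : ℤ) (k : ℤ) := by
      have : Nat.Coprime 2 k := (Nat.coprime_two_left).2 hk
      exact_mod_cast Nat.isCoprime_iff_coprime.2 this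
    have h5 := h4.mul_dvd h3 hd
    have : l' - l = 0 := Int.eq_zero_of_abs_lt_dvd h5 (by rw [abs_lt]; constructor <;> omega)
    omega
  · intro x hx
    obtain ⟨l, h1, h2, h3⟩ := exists_rep k a x
    have h4 : (k : ℤ) ∣ l ^ 2 + 1 := (cast_mem k l).1 (h3 ▸ hx)
    by_cases he : Even l
    · exact ⟨l, mem_filter.2 ⟨mem_Ico.2 ⟨h1, by omega⟩, he, h4⟩, h3⟩
    · have h5 : ((l + k : ℤ) : ZMod k) = x := by
        push_cast
        rw [ZMod.natCast_self, add_zero, h3]
      refine ⟨l + k, mem_filter.2 ⟨mem_Ico.2 ⟨by omega, by omega⟩, ?_,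
        (cast_mem k _).1 (h5 ▸ hx)⟩, h5⟩
      rw [Int.even_iff] at he ⊢
      omega

theorem one_sub_sum_le (s : Finset ℕ) (f : ℕ → ℝ) (h0 : ∀ p ∈ s, 0 ≤ f p) (h1 : ∀ p ∈ s, f p ≤ 1) :
    1 - ∑ p ∈ s, f p ≤ ∏ p ∈ s, (1 - f p) := by
  induction s using Finset.induction_on with
  | empty => simp
  | insert a s ha ih =>
    rw [sum_insert ha, prod_insert ha]
    have ih' := ih (fun p hp => h0 p (mem_insert_of_mem hp)) (fun p hp => h1 p (mem_insert_of_mem hp))
    have h2 := h0 a (mem_insert_self _ _)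
    have h3 := h1 a (mem_insert_self _ _)
    have h4 : 0 ≤ ∑ p ∈ s, f p := sum_nonneg fun p hp => h0 p (mem_insert_of_mem hp)
    have h5 := mul_le_mul_of_nonneg_left ih' (sub_nonneg.2 h3)
    nlinarith

theorem gg_bounds (d : ℕ) (hd : Squarefree d) : 0 ≤ gg d ∧ gg d ≤ rho d / d ∧
    (rho d : ℝ) / d - gg d ≤ rho d / d * ∑ p ∈ d.primeFactors, 1 / (p : ℝ) := by
  have h1 : (rho d : ℝ) = ∏ p ∈ d.primeFactors, (rho p : ℝ) := by
    rw [rho_prod d hd.ne_zero _ subset_rfl]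
    push_cast
    refine prod_congr rfl fun p hp => ?_
    rw [Nat.factorization_eq_one_of_squarefree hd (Nat.prime_of_mem_primeFactors hp)
      (Nat.dvd_of_mem_primeFactors hp), pow_one]
  have h2 : (d : ℝ) = ∏ p ∈ d.primeFactors, (p : ℝ) := by
    rw [← Nat.cast_prod, Nat.prod_primeFactors_of_squarefree hd]
  have hpos : ∀ p ∈ d.primeFactors, (0 : ℝ) < p := fun p hp => by
    exact_mod_cast (Nat.prime_of_mem_primeFactors hp).pos
  have h3 : gg d = rho d / d * ∏ p ∈ d.primeFactors, (1 - 1 / ((p : ℝ) + 1)) := by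
    have : (rho d : ℝ) / d = ∏ p ∈ d.primeFactors, (rho p : ℝ) / p := by
      rw [prod_div_distrib, ← h1, ← h2]
    rw [this, ← prod_mul_distrib, gg]
    refine prod_congr rfl fun p hp => ?_
    have := hpos p hp
    field_simp
    ring
  have ha : ∀ p ∈ d.primeFactors, 0 ≤ 1 / ((p : ℝ) + 1) := fun p _ => by positivity
  have hb : ∀ p ∈ d.primeFactors, 1 / ((p : ℝ) + 1) ≤ 1 := fun p hp => by
    have := hpos p hp
    rw [div_le_one (by positivity)]
    linarith
  have h4 : (0 : ℝ) ≤ rho d / d := by positivity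
  have h5 : ∏ p ∈ d.primeFactors, (1 - 1 / ((p : ℝ) + 1)) ≤ 1 :=
    prod_le_one (fun p hp => sub_nonneg.2 (hb p hp)) fun p hp => by linarith [ha p hp]
  have h6 := one_sub_sum_le d.primeFactors (fun p => 1 / ((p : ℝ) + 1)) ha hb
  have h7 : ∑ p ∈ d.primeFactors, 1 / ((p : ℝ) + 1) ≤ ∑ p ∈ d.primeFactors, 1 / (p : ℝ) :=
    sum_le_sum fun p hp => one_div_le_one_div_of_le (hpos p hp) (by linarith)
  refine ⟨prod_nonneg fun p _ => by positivity, ?_, ?_⟩
  · rw [h3]
    exact mul_le_of_le_one_right h4 h5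
  · rw [h3]
    have : 1 - ∏ p ∈ d.primeFactors, (1 - 1 / ((p : ℝ) + 1)) ≤ ∑ p ∈ d.primeFactors, 1 / (p : ℝ) := by
      linarith
    have := mul_le_mul_of_nonneg_left this h4
    linarith

/-- A divisor sum as a double sum. -/
theorem sum_div (x : ℕ) (g : ℕ → ℝ) (hg : ∀ k, 0 ≤ g k) :
    ∑ k ∈ Icc 1 x, (rho k : ℝ) * g k ≤ ∑ a ∈ Icc 1 x, ∑ b ∈ Icc 1 (x / a), g (a * b) := by
  calc ∑ k ∈ Icc 1 x, (rho k : ℝ) * g k
      ≤ ∑ k ∈ Icc 1 x, ∑ a ∈ Icc 1 x, if a ∣ k then g k else 0 := by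
        refine sum_le_sum fun k hk => ?_
        have hk' := mem_Icc.1 hk
        rw [← sum_filter, sum_const, nsmul_eq_mul]
        refine mul_le_mul_of_nonneg_right ?_ (hg k)
        have : k.divisors ⊆ (Icc 1 x).filter (· ∣ k) := fun a ha => by
          have h1 := Nat.dvd_of_mem_divisors ha
          have h2 := Nat.pos_of_mem_divisors ha
          have h3 := Nat.le_of_dvd (by omega) h1
          exact mem_filter.2 ⟨mem_Icc.2 ⟨h2, by omega⟩, h1⟩
        exact_mod_cast (rho_le_div k).trans (card_le_card this)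
    _ = ∑ a ∈ Icc 1 x, ∑ b ∈ Icc 1 (x / a), g (a * b) := by
        rw [sum_comm]
        refine sum_congr rfl fun a ha => ?_
        have ha' := mem_Icc.1 ha
        rw [← sum_filter]
        symm
        refine sum_bij (fun b _ => a * b) ?_ ?_ ?_ fun _ _ => rfl
        · intro b hb
          have hb' := mem_Icc.1 hb
          refine mem_filter.2 ⟨mem_Icc.2 ⟨Nat.mul_pos ha'.1 hb'.1, ?_⟩, dvd_mul_right a b⟩
          have := (Nat.le_div_iff_mul_le (show 0 < a from ha'.1)).1 hb'.2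
          rwa [mul_comm] at this
        · intro b _ b' _ h
          exact Nat.eq_of_mul_eq_mul_left ha'.1 h
        · intro k hk
          obtain ⟨h1, b, rfl⟩ := mem_filter.1 hk
          have h2 := mem_Icc.1 h1
          refine ⟨b, mem_Icc.2 ⟨?_, ?_⟩, rfl⟩
          · exact Nat.pos_of_mul_pos_left (show 0 < a * b from h2.1)
          · exact (Nat.le_div_iff_mul_le (show 0 < a from ha'.1)).2 (by rw [mul_comm]; exact h2.2)

theorem harm (x : ℕ) : ∑ a ∈ Icc 1 x, 1 / (a : ℝ) ≤ 1 + log x := by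
  have := harmonic_le_one_add_log x
  simp_rw [harmonic_eq_sum_Icc, Rat.cast_sum, Rat.cast_inv, Rat.cast_natCast] at this
  simpa only [one_div] using this

theorem sum_inv_sqrt (n : ℕ) : ∑ b ∈ Icc 1 n, 1 / √(b : ℝ) ≤ 2 * √n := by
  induction n with
  | zero => simp
  | succ n ih =>
    rw [sum_Icc_succ_top (by omega)]
    have h1 : (0 : ℝ) < √((n + 1 : ℕ) : ℝ) := sqrt_pos.2 (by positivity)
    have h2 : √((n + 1 : ℕ) : ℝ) ^ 2 = n + 1 := by
      rw [sq_sqrt (by positivity)]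
      push_cast
      ring
    have h3 : √(n : ℝ) ^ 2 = n := sq_sqrt (by positivity)
    have h4 : 1 / √((n + 1 : ℕ) : ℝ) ≤ 2 * √((n + 1 : ℕ) : ℝ) - 2 * √n := by
      rw [div_le_iff₀ h1]
      nlinarith [sq_nonneg (√((n + 1 : ℕ) : ℝ) - √n)]
    linarith

theorem sum_rho_div (x : ℕ) : ∑ k ∈ Icc 1 x, (rho k : ℝ) / k ≤ (1 + log x) ^ 2 := by
  have h0 : 0 ≤ ∑ a ∈ Icc 1 x, 1 / (a : ℝ) := sum_nonneg fun _ _ => by positivity
  calc ∑ k ∈ Icc 1 x, (rho k : ℝ) / k = ∑ k ∈ Icc 1 x, (rho k : ℝ) * (1 / (k : ℝ)) :=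
        sum_congr rfl fun k _ => by ring
    _ ≤ ∑ a ∈ Icc 1 x, ∑ b ∈ Icc 1 (x / a), 1 / ((a * b : ℕ) : ℝ) :=
        sum_div x (fun k => 1 / (k : ℝ)) fun _ => by positivity
    _ ≤ ∑ a ∈ Icc 1 x, ∑ b ∈ Icc 1 x, 1 / (a : ℝ) * (1 / (b : ℝ)) := by
        refine sum_le_sum fun a _ => ?_
        calc ∑ b ∈ Icc 1 (x / a), 1 / ((a * b : ℕ) : ℝ)
            = ∑ b ∈ Icc 1 (x / a), 1 / (a : ℝ) * (1 / (b : ℝ)) :=
              sum_congr rfl fun b _ => by push_cast; rw [one_div_mul_one_div]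
          _ ≤ _ := sum_le_sum_of_subset_of_nonneg (Icc_subset_Icc_right (Nat.div_le_self _ _))
              fun _ _ _ => by positivity
    _ = (∑ a ∈ Icc 1 x, 1 / (a : ℝ)) ^ 2 := by rw [sq, sum_mul_sum]
    _ ≤ (1 + log x) ^ 2 := pow_le_pow_left₀ h0 (harm x) 2

theorem sum_rho_sqrt (x : ℕ) : ∑ k ∈ Icc 1 x, (rho k : ℝ) / √k ≤ 4 * √x * (1 + log x) := by
  have h0 : 0 ≤ ∑ a ∈ Icc 1 x, 1 / (a : ℝ) := sum_nonneg fun _ _ => by positivity
  have hx : 0 ≤ √(x : ℝ) := sqrt_nonneg _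
  calc ∑ k ∈ Icc 1 x, (rho k : ℝ) / √k = ∑ k ∈ Icc 1 x, (rho k : ℝ) * (1 / √(k : ℝ)) :=
        sum_congr rfl fun k _ => by ring
    _ ≤ ∑ a ∈ Icc 1 x, ∑ b ∈ Icc 1 (x / a), 1 / √((a * b : ℕ) : ℝ) :=
        sum_div x (fun k => 1 / √(k : ℝ)) fun _ => by positivity
    _ ≤ ∑ a ∈ Icc 1 x, 2 * √x * (1 / (a : ℝ)) := by
        refine sum_le_sum fun a ha => ?_
        have ha' : (0 : ℝ) < a := by exact_mod_cast (mem_Icc.1 ha).1
        have hs : 0 < √(a : ℝ) := sqrt_pos.2 ha'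
        calc ∑ b ∈ Icc 1 (x / a), 1 / √((a * b : ℕ) : ℝ)
            = 1 / √(a : ℝ) * ∑ b ∈ Icc 1 (x / a), 1 / √(b : ℝ) := by
              rw [mul_sum]
              refine sum_congr rfl fun b _ => ?_
              push_cast
              rw [sqrt_mul ha'.le, one_div_mul_one_div]
          _ ≤ 1 / √(a : ℝ) * (2 * √((x / a : ℕ) : ℝ)) :=
              mul_le_mul_of_nonneg_left (sum_inv_sqrt _) (by positivity)
          _ ≤ 1 / √(a : ℝ) * (2 * √((x : ℝ) / a)) := by
              gcongr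
              exact Nat.cast_div_le
          _ = 2 * √x * (1 / (a : ℝ)) := by
              rw [sqrt_div' _ ha'.le]
              have := mul_self_sqrt ha'.le
              field_simp
              rw [sq_sqrt ha'.le, mul_comm]
    _ = 2 * √x * ∑ a ∈ Icc 1 x, 1 / (a : ℝ) := by rw [mul_sum]
    _ ≤ 2 * √x * (1 + log x) := mul_le_mul_of_nonneg_left (harm x) (by positivity)
    _ ≤ 4 * √x * (1 + log x) := by
        have := h0.trans (harm x)
        nlinarith [mul_nonneg hx this]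

theorem rough_div (y : ℝ) (m : ℕ) (hy : 1 < y) (hm : 1 ≤ m) :
    (#{d ∈ m.divisors | Rough y d} : ℝ) ≤ 2 ^ (log m / log y) := by
  have hly : 0 < log y := log_pos hy
  induction m using induction_on_primes with
  | zero => omega
  | one =>
    have : #{d ∈ Nat.divisors 1 | Rough y d} ≤ 1 := (card_filter_le _ _).trans (by simp)
    simpa using this
  | prime_mul p a hp ih =>
    have ha : 1 ≤ a := Nat.pos_of_mul_pos_left (show 0 < p * a from hm)
    have ih' := ih ha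
    have hp0 : (0 : ℝ) < p := by exact_mod_cast hp.pos
    have ha0 : (0 : ℝ) < a := by exact_mod_cast ha
    have hlog : log ((p * a : ℕ) : ℝ) / log y = log p / log y + log a / log y := by
      push_cast
      rw [log_mul hp0.ne' ha0.ne', add_div]
    have hlp : 0 ≤ log p / log y := div_nonneg (log_natCast_nonneg p) hly.le
    have key : ∀ d ∈ (p * a).divisors, ¬ p ∣ d → d ∈ a.divisors := fun d hd h =>
      Nat.mem_divisors.2 ⟨(Nat.Coprime.dvd_mul_left
        ((Nat.Prime.coprime_iff_not_dvd hp).2 h).symm).1 (Nat.dvd_of_mem_divisors hd), by omega⟩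
    rw [hlog, rpow_add (by norm_num)]
    by_cases hpy : y ≤ p
    · have hsub : {d ∈ (p * a).divisors | Rough y d} ⊆
          {d ∈ a.divisors | Rough y d} ∪ ({d ∈ a.divisors | Rough y d} : Finset ℕ).image (p * ·) := by
        intro d hd
        obtain ⟨h1, h2⟩ := mem_filter.1 hd
        by_cases h : p ∣ d
        · obtain ⟨e, rfl⟩ := h
          refine mem_union_right _ (mem_image.2 ⟨e, mem_filter.2 ⟨Nat.mem_divisors.2
            ⟨Nat.dvd_of_mul_dvd_mul_left hp.pos (Nat.dvd_of_mem_divisors h1), by omega⟩, ?_⟩, rfl⟩)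
          exact fun q hq hqe => h2 q hq (hqe.mul_left p)
        · exact mem_union_left _ (mem_filter.2 ⟨key d h1 h, h2⟩)
      have h1 := (card_le_card hsub).trans ((card_union_le _ _).trans
        (Nat.add_le_add_left card_image_le _))
      have h2 : (#{d ∈ (p * a).divisors | Rough y d} : ℝ) ≤
          #{d ∈ a.divisors | Rough y d} + #{d ∈ a.divisors | Rough y d} := by exact_mod_cast h1
      have h3 : (1 : ℝ) ≤ log p / log y :=
        (one_le_div hly).2 (log_le_log (by linarith) hpy)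
      have h4 : (2 : ℝ) ≤ 2 ^ (log p / log y) := by
        simpa using rpow_le_rpow_of_exponent_le (show (1 : ℝ) ≤ 2 by norm_num) h3
      have h5 : (0 : ℝ) ≤ 2 ^ (log a / log y) := by positivity
      nlinarith
    · have hsub : {d ∈ (p * a).divisors | Rough y d} ⊆ {d ∈ a.divisors | Rough y d} := by
        intro d hd
        obtain ⟨h1, h2⟩ := mem_filter.1 hd
        exact mem_filter.2 ⟨key d h1 fun h => hpy (h2 p hp h), h2⟩
      have h2 : (#{d ∈ (p * a).divisors | Rough y d} : ℝ) ≤ #{d ∈ a.divisors | Rough y d} := by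
        exact_mod_cast card_le_card hsub
      have h4 : (1 : ℝ) ≤ 2 ^ (log p / log y) := one_le_rpow (by norm_num) hlp
      have h5 : (0 : ℝ) ≤ 2 ^ (log a / log y) := by positivity
      nlinarith

end Rho

theorem rhoS : RhoStmt :=
  ⟨Rho.rho_mul, Rho.rho_mul_le, Rho.rho_pp_le, Rho.rho_odd, Rho.rho_one, Rho.rho_two,
    Rho.rho_le_div, Rho.rho_Ico, Rho.rho_Ico_even, Rho.gg_bounds,
    fun x => ⟨Rho.sum_rho_div x, Rho.sum_rho_sqrt x⟩, Rho.rough_div⟩

end Pool.Agent.Lib.MP_4b1228_nt.PP
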