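import Pool.Agent.Lib.MP_4b1228_nt.PP.St3
import Pool.Agent.Lib.MP_4b1228_nt.PP.Mert2
import Pool.Agent.Lib.MP_4b1228_nt.PP.Rho
import Pool.Agent.Lib.MP_4b1228_nt.PP.DKc

/-! The law of the size of the small part: rules and the checked table. -/

open Finset Real Filter Topology
open scoped Classical

noncomputable section

namespace Pool.Agent.Lib.MP_4b1228_nt.PP.R3

variable {Z v v' : ℝ} {χ χ' : ℝ → ℝ}

theorem l_EM_eq (X ε u Z : ℝ) (χ : ℝ → ℝ) :
    EM X ε u Z χ = DK.Ex (PS X ε u Z) gp fun S => χ (∑ p ∈ S, sz X u p) := rfl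

theorem l_gp_nn (p : ℕ) : 0 ≤ gp p := by
  unfold gp
  positivity

theorem l_gp_le (p : ℕ) : gp p ≤ 1 :=
  div_le_one_of_le₀ (Nat.cast_le.2 ((card_filter_le _ _).trans (card_range p).le)) (Nat.cast_nonneg p)

theorem l_sz_nn {X u : ℝ} (hX : 1 ≤ X) (hu : 0 < u) (p : ℕ) : 0 ≤ sz X u p :=
  div_nonneg (log_natCast_nonneg p) (mul_nonneg hu.le (log_nonneg hX))

theorem l_hyp {u τ : ℝ} (hZ : 0 ≤ Z) (hu : 0 < u) (huZ : u * Z ≤ 1) (hτ : 0 < τ) {ε : ℝ}
    (hε : 0 < ε) (h : ε ≤ u * τ / 2) :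
    ∀ᶠ X : ℝ in atTop, DK.Hyp (PS X ε u Z) gp (sz X u) Z τ := by
  filter_upwards [mert2 rhoS ε (u * τ / 2) hε (by positivity), eventually_gt_atTop 1,
    (tendsto_rpow_atTop hε).eventually_ge_atTop (2 / τ)] with X hM hX hb
  have hL := log_pos hX
  have hX0 : 0 < X := by linarith
  have hlt : ∀ (p : ℕ) (y : ℝ), p.Prime → (sz X u p < y ↔ (p : ℝ) < X ^ (u * y)) := by
    intro p y hp
    rw [sz, div_lt_iff₀ (by positivity), lt_rpow_iff_log_lt (mod_cast hp.pos) hX0]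
    ring_nf
  have hP : ∀ p ∈ PS X ε u Z, p.Prime ∧ X ^ ε ≤ p := fun p hp =>
    (mem_filter.1 (mem_filter.1 hp).1).2
  refine ⟨fun p _ => l_gp_nn p, fun p hp => ?_, fun p _ => l_sz_nn hX.le hu p, fun x => ?_⟩
  · obtain ⟨h1, h2⟩ := hP p hp
    have h3 : (rho p : ℝ) ≤ 2 := by exact_mod_cast (by simpa using rhoS.2.2.1 p 1 h1 : rho p ≤ 2)
    have h4 := hb.trans h2
    rw [div_le_iff₀ hτ] at h4
    rw [gp, div_le_iff₀ (mod_cast h1.pos)]
    linarith
  · have e : (PS X ε u Z).filter (fun p => sz X u p < x) = pw X ε (u * min x Z) := by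
      ext p
      simp only [PS, PR, mem_filter, mem_pw, mem_Icc]
      refine ⟨fun ⟨⟨⟨_, h1, h2⟩, h3⟩, h4⟩ => ⟨h1, h2, (hlt p _ h1).1 (lt_min h4 h3)⟩,
        fun ⟨h1, h2, h3⟩ => ?_⟩
      have h4 := lt_min_iff.1 ((hlt p _ h1).2 h3)
      refine ⟨⟨⟨⟨h1.pos, Nat.le_floor (h3.le.trans ?_)⟩, h1, h2⟩, h4.2⟩, h4.1⟩
      rw [← rpow_two]
      refine rpow_le_rpow_of_exponent_le hX.le ?_
      linarith [mul_le_mul_of_nonneg_left (min_le_right x Z) hu.le]
    rw [e]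
    have hy : u * min x Z ≤ 2 := by linarith [mul_le_mul_of_nonneg_left (min_le_right x Z) hu.le]
    generalize min x Z = y at hy ⊢
    rcases le_total ε (u * y) with h1 | h1
    · have h2 := (hM gp (fun p _ _ => by rw [gp, sub_self, abs_zero]; positivity) ε _ le_rfl h1 hy).2
      have h3 : ∑ p ∈ pw X ε (u * y), sz X u p * gp p =
          (∑ p ∈ pw X ε (u * y), gp p * log p) / (u * log X) := by
        rw [sum_div]
        exact sum_congr rfl fun p _ => by rw [sz]; ring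
      have y0 : 0 ≤ y := le_of_mul_le_mul_left (by linarith) hu
      rw [h3, max_eq_right y0, div_sub' (by positivity), abs_div, abs_of_pos (mul_pos hu hL),
        div_le_iff₀ (by positivity)]
      have h4 := mul_le_mul_of_nonneg_right h hL.le
      have h5 := mul_pos hε hL
      obtain ⟨h6, h7⟩ := abs_le.1 h2
      refine abs_le.2 ⟨?_, ?_⟩ <;> linarith
    · rw [sum_eq_zero fun p hp => ?_, zero_sub, abs_neg, abs_of_nonneg (le_max_left _ _)]
      · refine max_le hτ.le (le_of_mul_le_mul_left ?_ hu)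
        linarith [mul_pos hu hτ]
      · obtain ⟨-, h2, h3⟩ := mem_pw.1 hp
        exact absurd (h2.trans_lt h3) (not_lt.2 (rpow_le_rpow_of_exponent_le hX.le h1))

theorem Law.of_AL (hZ : 0 ≤ Z) (h : DK.AL Z χ v) : Law Z χ v := by
  intro u τ hu huZ hτ
  obtain ⟨τ₀, t0, H⟩ := h τ hτ
  refine ⟨u * τ₀ / 2, by positivity, fun ε hε h1 => ?_⟩
  filter_upwards [l_hyp hZ hu huZ t0 hε h1] with X hX
  exact H _ _ _ _ le_rfl hX

theorem Law.const (Z c : ℝ) : Law Z (fun _ => c) c := fun u τ _ _ hτ =>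
  ⟨1, one_pos, fun ε _ _ => Eventually.of_forall fun X => by
    rw [l_EM_eq, DK.Ex_const]
    linarith⟩

theorem Law.add (h : Law Z χ v) (h' : Law Z χ' v') : Law Z (fun t => χ t + χ' t) (v + v') := by
  intro u τ hu huZ hτ
  obtain ⟨a, a0, ha⟩ := h u (τ / 2) hu huZ (by linarith)
  obtain ⟨b, b0, hb⟩ := h' u (τ / 2) hu huZ (by linarith)
  refine ⟨min a b, lt_min a0 b0, fun ε hε h1 => ?_⟩
  filter_upwards [ha ε hε (h1.trans (min_le_left _ _)), hb ε hε (h1.trans (min_le_right _ _))]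
    with X h2 h3
  rw [l_EM_eq] at h2 h3 ⊢
  rw [DK.Ex_add]
  linarith

theorem Law.smul (h : Law Z χ v) {c : ℝ} (hc : 0 ≤ c) : Law Z (fun t => c * χ t) (c * v) := by
  intro u τ hu huZ hτ
  obtain ⟨a, a0, ha⟩ := h u (τ / (c + 1)) hu huZ (by positivity)
  refine ⟨a, a0, fun ε hε h1 => ?_⟩
  filter_upwards [ha ε hε h1] with X h2
  have h3 := mul_le_mul_of_nonneg_left h2 hc
  have h4 : c * (τ / (c + 1)) ≤ τ := by
    rw [← mul_div_assoc, div_le_iff₀ (by linarith)]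
    nlinarith
  rw [l_EM_eq] at h3 ⊢
  rw [DK.Ex_mul]
  linarith

theorem Law.mono (h : Law Z χ v) (hv : v' ≤ v) (hχ : ∀ t, 0 ≤ t → χ t ≤ χ' t) : Law Z χ' v' := by
  intro u τ hu huZ hτ
  obtain ⟨a, a0, ha⟩ := h u τ hu huZ hτ
  refine ⟨a, a0, fun ε hε h1 => ?_⟩
  filter_upwards [ha ε hε h1, eventually_ge_atTop 1] with X h2 hX
  refine le_trans (by linarith) (h2.trans ?_)
  exact DK.Ex_mono (fun p _ => l_gp_nn p) (fun p _ => l_gp_le p) fun S _ =>
    hχ _ (sum_nonneg fun p _ => l_sz_nn hX hu p)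

theorem Law.sum {ι : Type} (T : Finset ι) {χ : ι → ℝ → ℝ} {v : ι → ℝ}
    (h : ∀ i ∈ T, Law Z (χ i) (v i)) : Law Z (fun t => ∑ i ∈ T, χ i t) (∑ i ∈ T, v i) := by
  induction T using Finset.induction_on with
  | empty => simpa using Law.const Z 0
  | insert a T ha ih =>
    simp only [sum_insert ha]
    exact (h a (mem_insert_self _ _)).add (ih fun i hi => h i (mem_insert_of_mem hi))

theorem Law.lsum {ι : Type} (T : List ι) {χ : ι → ℝ → ℝ} {v : ι → ℝ}
    (h : ∀ i ∈ T, Law Z (χ i) (v i)) :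
    Law Z (fun t => (T.map fun i => χ i t).sum) (T.map v).sum := by
  induction T with
  | nil => simpa using Law.const Z 0
  | cons a T ih =>
    simp only [List.map_cons, List.sum_cons]
    exact (h a List.mem_cons_self).add (ih fun i hi => h i (List.mem_cons_of_mem _ hi))

/-- the mean size of the small part -/
theorem Law.mean (hZ : 0 ≤ Z) : Law Z (fun t => t) Z ∧ Law Z (fun t => -t) (-Z) :=
  ⟨by simpa using Law.of_AL hZ (DK.AL.mean hZ (σ := 1) (by simp)),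
    by simpa using Law.of_AL hZ (DK.AL.mean hZ (σ := -1) (by simp))⟩

/-- An affine weight on `[a, b)`. -/
def wtL (a b α β t : ℝ) : ℝ := if a ≤ t ∧ t < b then α + β * t else 0

/-- The value of the table `l` on the weight `α + β t` on the cell `[j, j + 1)`. -/
def tv (l : List (ℕ × ℕ)) (α β : ℝ) (j : ℕ) : ℝ :=
  ((α + β * j) * (l.getD j (0, 0)).1 + (α + β * (j + 1)) * (l.getD j (0, 0)).2) / 2 ^ 32

theorem wtL_unit (j : ℕ) (α β t : ℝ) :
    wtL j (j + 1) α β t = DK.aff j (α + β * j) (α + β * (j + 1)) t := by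
  unfold wtL DK.aff DK.box
  split_ifs <;> ring

theorem wtL_sum (α β t : ℝ) {a b : ℕ} (hab : a ≤ b) :
    wtL a b α β t = ∑ j ∈ Ico a b, wtL j (j + 1) α β t := by
  induction b, hab using Nat.le_induction with
  | base => simp [wtL]
  | succ b hb ih =>
    rw [sum_Ico_succ_top hb, ← ih]
    have : (a : ℝ) ≤ b := mod_cast hb
    unfold wtL
    push_cast
    by_cases h1 : t < b
    · simp [h1, not_le.2 h1, h1.trans (lt_add_one _)]
    · simp [h1, not_lt.1 h1, this.trans (not_lt.1 h1)]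

section
variable {Z st : ℕ} {lo hi : List (ℕ × ℕ)} (hc : DK.check2 Z st lo hi = true) {α β : ℝ}
include hc

/-- upper bound on one cell -/
theorem law_up1 {j : ℕ} (hj : j < hi.length) (h0 : 0 ≤ α + β * j) (h1 : 0 ≤ α + β * (j + 1)) :
    Law Z (fun t => -wtL j (j + 1) α β t) (-tv hi α β j) := by
  simp only [wtL_unit, tv, List.getD_eq_getElem _ _ hj]
  exact Law.of_AL (Nat.cast_nonneg Z) ((DK.law2 hc h0 h1).1 j hj)

/-- lower bound on one cell -/
theorem law_low1 {j : ℕ} (hj : j < lo.length) (h0 : 0 ≤ α + β * j) (h1 : 0 ≤ α + β * (j + 1)) :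
    Law Z (wtL j (j + 1) α β) (tv lo α β j) := by
  simp only [funext (wtL_unit j α β), tv, List.getD_eq_getElem _ _ hj]
  exact Law.of_AL (Nat.cast_nonneg Z) ((DK.law2 hc h0 h1).2 j hj)

omit hc in
theorem l_aff_nn {a b x : ℝ} (h0 : 0 ≤ α + β * a) (h1 : 0 ≤ α + β * b) (ha : a ≤ x)
    (hb : x ≤ b) : 0 ≤ α + β * x := by
  rcases le_total 0 β with h | h
  · linarith [mul_le_mul_of_nonneg_left ha h]
  · linarith [mul_le_mul_of_nonpos_left hb h]

/-- upper bound on `[a, b)` -/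
theorem law_up {a b : ℕ} (hab : a ≤ b) (hb : b ≤ hi.length) (h0 : 0 ≤ α + β * a)
    (h1 : 0 ≤ α + β * b) :
    Law Z (fun t => -wtL a b α β t) (-∑ j ∈ Ico a b, tv hi α β j) := by
  simp only [wtL_sum α β _ hab, ← sum_neg_distrib]
  refine Law.sum _ fun j hj => ?_
  obtain ⟨j1, j2⟩ := mem_Ico.1 hj
  have k1 : (a : ℝ) ≤ j := mod_cast j1
  have k2 : (j : ℝ) + 1 ≤ b := mod_cast j2
  exact law_up1 hc (j2.trans_le hb) (l_aff_nn h0 h1 k1 (by linarith))
    (l_aff_nn h0 h1 (by linarith) k2)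

/-- lower bound on `[a, b)` -/
theorem law_low {a b : ℕ} (hab : a ≤ b) (hb : b ≤ lo.length) (h0 : 0 ≤ α + β * a)
    (h1 : 0 ≤ α + β * b) : Law Z (wtL a b α β) (∑ j ∈ Ico a b, tv lo α β j) := by
  simp only [funext fun t => wtL_sum α β t hab]
  refine Law.sum _ fun j hj => ?_
  obtain ⟨j1, j2⟩ := mem_Ico.1 hj
  have k1 : (a : ℝ) ≤ j := mod_cast j1
  have k2 : (j : ℝ) + 1 ≤ b := mod_cast j2
  exact law_low1 hc (j2.trans_le hb) (l_aff_nn h0 h1 k1 (by linarith))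
    (l_aff_nn h0 h1 (by linarith) k2)

end

end Pool.Agent.Lib.MP_4b1228_nt.PP.R3
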