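import Pool.Agent.Lib.MP_4b1228_nt.PP.R4D
import Pool.Agent.Lib.MP_4b1228_nt.PP.R3L
import Pool.Agent.Lib.MP_4b1228_nt.PP.DKd

/-! The enclosures for the law of the small part from the checked table. -/

open Finset Real

namespace Pool.Agent.Lib.MP_4b1228_nt.PP.R4

open R3

/-- Lower bound for the mean of `chi m k b`. -/
def wlQ (lo : List (ℕ × ℕ)) (st m k b : ℕ) : ℚ :=
  ((if b = 0 then (m - 1 - k % m : ℕ) else (k % m : ℕ)) *
      ((((lo.getD k (0, 0)).1 + (lo.getD k (0, 0)).2) * st : ℕ) / (st - 1 : ℕ)) +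
    (if b = 0 then (lo.getD k (0, 0)).1 else (lo.getD k (0, 0)).2 : ℕ)) / (m * 2 ^ 32 : ℕ)

/-- Upper bound for the mean of `chi m k b`. -/
def wuQ (hi : List (ℕ × ℕ)) (st m k b : ℕ) : ℚ :=
  ((if b = 0 then (m - 1 - k % m : ℕ) else (k % m : ℕ)) *
      ((((hi.getD k (0, 0)).1 + (hi.getD k (0, 0)).2) * st : ℕ) / (st + 1 : ℕ)) +
    (if b = 0 then (hi.getD k (0, 0)).1 else (hi.getD k (0, 0)).2 : ℕ)) / (m * 2 ^ 32 : ℕ)

theorem w_chi_eq {m : ℕ} (hm : 1 ≤ m) (k b : ℕ) (r : ℝ) : chi m k b r =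
    1 / m * (((if b = 0 then m - 1 - k % m else k % m : ℕ) : ℝ) * DK.box k (k + 1) (m * r) +
      DK.aff k (if b = 0 then 1 else 0) (if b = 0 then 0 else 1) (m * r)) := by
  unfold chi DK.aff DK.box
  by_cases h : (k : ℝ) ≤ m * r ∧ m * r < k + 1
  · have m0 : (0 : ℝ) < m := mod_cast hm
    have h1 : k % m < m := Nat.mod_lt _ hm
    have h2 : (k : ℝ) = m * (k / m : ℕ) + (k % m : ℕ) := mod_cast (Nat.div_add_mod k m).symm
    have h3 : ((k % m : ℕ) : ℝ) + 1 ≤ m := mod_cast h1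
    have h4 : (0 : ℝ) ≤ (k % m : ℕ) := Nat.cast_nonneg _
    have h5 : ((k / m : ℕ) : ℝ) ≤ r := le_of_mul_le_mul_left (by linarith [h.1]) m0
    have h6 : ⌊r⌋₊ = k / m := (Nat.floor_eq_iff ((Nat.cast_nonneg _).trans h5)).2
      ⟨h5, lt_of_mul_lt_mul_left (by linarith [h.2]) m0.le⟩
    have h7 : ((m - 1 - k % m : ℕ) : ℝ) = m - 1 - (k % m : ℕ) := by
      rw [Nat.cast_sub (by omega), Nat.cast_sub hm, Nat.cast_one]
    simp only [if_pos h, fr, h6]
    split_ifs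
    · rw [h7]
      field_simp
      linarith
    · field_simp
      linarith
  · simp [if_neg h]

theorem okW {t : Tab} {n : Enc} {st : ℕ} {lo hi : List (ℕ × ℕ)} (hm : 1 ≤ t.m) (hst : 2 ≤ st)
    (hc : DK.check2 (t.m * t.Z) st lo hi = true) (l1 : t.m * t.Q ≤ lo.length)
    (l2 : t.m * t.Q ≤ hi.length)
    (h : ∀ k < t.m * t.Q, ∀ b < 2, 0 ≤ n.wl k b ∧ n.wl k b ≤ wlQ lo st t.m k b ∧
      wuQ hi st t.m k b ≤ n.wu k b) : n.OkW t := by
  intro k hk b hb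
  obtain ⟨h0, h1, h2⟩ := h k hk b hb
  have m1 : (1 : ℝ) ≤ t.m := mod_cast hm
  have hA : (0 : ℝ) ≤ if b = 0 then 1 else 0 := by positivity
  have hB : (0 : ℝ) ≤ if b = 0 then 0 else 1 := by positivity
  have hC : (0 : ℝ) ≤ (if b = 0 then t.m - 1 - k % t.m else k % t.m : ℕ) := Nat.cast_nonneg _
  have a := DK.law0 hc hst
  have c := DK.law2 hc hA hB
  rw [Nat.cast_mul] at a c
  have s1 : ((st - 1 : ℕ) : ℝ) = st - 1 := by rw [Nat.cast_sub (by omega), Nat.cast_one]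
  refine ⟨h0, le_trans (by unfold wuQ; positivity) h2,
    Law.of_AL (Nat.cast_nonneg _) ?_, Law.of_AL (Nat.cast_nonneg _) ?_⟩
  · refine (((((a.2 k (hk.trans_le l1)).smul hC).add (c.2 k (hk.trans_le l1))).smul
      (c := 1 / t.m) (by positivity)).scale m1).mono ?_ fun r _ => (w_chi_eq hm k b r).ge
    refine (Rat.cast_le.2 h1).trans (le_of_eq ?_)
    rw [wlQ, List.getD_eq_getElem _ _ (hk.trans_le l1)]
    split_ifs <;> push_cast [s1] <;> ring
  · refine (((((a.1 k (hk.trans_le l2)).smul hC).add (c.1 k (hk.trans_le l2))).smul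
      (c := 1 / t.m) (by positivity)).scale m1).mono ?_ fun r _ => le_of_eq ?_
    · refine (neg_le_neg (Rat.cast_le.2 h2)).trans (le_of_eq ?_)
      rw [wuQ, List.getD_eq_getElem _ _ (hk.trans_le l2)]
      split_ifs <;> push_cast <;> ring
    · rw [w_chi_eq hm]
      ring

end Pool.Agent.Lib.MP_4b1228_nt.PP.R4
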