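import Pool.Agent.Lib.MP_4b1228_nt.PP.Asm
import Pool.Agent.Lib.MP_4b1228_nt.PP.Dens2
import Pool.Agent.Lib.MP_4b1228_nt.PP.R4E
import Pool.Agent.Lib.MP_4b1228_nt.PP.R4S0
import Pool.Agent.Lib.MP_4b1228_nt.PP.R4S1
import Pool.Agent.Lib.MP_4b1228_nt.PP.R4C
import Pool.Agent.Lib.MP_4b1228_nt.PP.R4P3
import Pool.Agent.Lib.MP_4b1228_nt.PP.R4W
import Pool.Agent.Lib.MP_4b1228_nt.PP.R4L
import Pool.Agent.Lib.MP_4b1228_nt.PP.R4Pt4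

/-!
From checked tables to the theorem.
-/

open Finset

namespace Pool.Agent.Lib.MP_4b1228_nt.PP.R4

open R3 Asm

/-- The enclosures. -/
def en (lo hi : List (ℕ × ℕ)) (st m : ℕ) : Enc :=
  ⟨llQ, luQ, flQ, fuQ, wlQ lo st m, wuQ hi st m, fun _ _ => 0⟩

theorem en_L (lo hi : List (ℕ × ℕ)) (st m : ℕ) : (en lo hi st m).OkL := okL _ rfl rfl

theorem en_F (lo hi : List (ℕ × ℕ)) (st m : ℕ) : (en lo hi st m).OkF 320 LS.Fu LS.fl := okF rfl rfl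

theorem en_W {lo hi : List (ℕ × ℕ)} {st : ℕ} (t : Tab) (hm : 1 ≤ t.m) (hst : 2 ≤ st)
    (hc : DK.check2 (t.m * t.Z) st lo hi = true) (l1 : t.m * t.Q ≤ lo.length)
    (l2 : t.m * t.Q ≤ hi.length) : (en lo hi st t.m).OkW t :=
  okW hm hst hc l1 l2 fun k _ b _ => ⟨by unfold en wlQ; positivity, le_rfl, le_rfl⟩

theorem rP2 : P2Stmt := p2S Eng.rho' Eng.mert' row ha2

/-- The side conditions. -/
def Tab.Sd (t : Tab) : Prop :=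
  t.N = 320 ∧ 5 ≤ t.Q ∧ t.Q ≤ 1000000 ∧ t.Q ≤ t.p₀ ∧ 2 * t.p₁ ≤ 3 * t.Q ∧ t.Q < t.Θ ∧
    2 * t.Θ < 3 * t.Q

/-- The row of a table. -/
theorem rowG3 (t : Tab) (n : Enc) (vH : ℕ → ℝ) (ht : t.Ok) (hs : t.Sd) (oL : n.OkL)
    (oF : n.OkF 320 LS.Fu LS.fl) (oW : n.OkW t)
    (oH : ∀ a ∈ Ico t.a₀ t.a₁, LawH2 t.T a (a + 1) (t.ψ a) (t.W a) (vH a)) :
    RowQ t.Q t.G (((t.vE n 0 + t.vE n 1 + t.vE n 2 + t.vE n 3 + t.vS0 n + t.vS1 n + t.vP3 : ℚ) : ℝ)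
      + ∑ a ∈ Ico t.a₀ t.a₁, vH a) := by
  obtain ⟨s0, s1, s2, s3, s4, -⟩ := hs
  obtain ⟨-, r2, -, r4, -⟩ := rq t.Q (ht.1.trans ht.2.1)
  have hS : SStmt t.N LS.Fu LS.fl := s0 ▸ rS LS.ls320
  rw [← s0] at oF
  have := r2 _ _ _ _ (r2 _ _ _ _ (r2 _ _ _ _ (r2 _ _ _ _
    (r4 ℕ (range 4) _ _ fun k hk => mE rq rE t n k ht oL (mem_range.1 hk))
    (mS0 rq t n _ _ ht hS oF oW)) (mS1 rq t n _ _ ht hS oL oF oW))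
    (mp3 rq rP2 rP t (ht.2.1.trans s3) s1 s2 s3 s4)) (mH rq rH t vH ht oH)
  simp only [sum_range_succ (fun k => ((t.vE n k : ℚ) : ℝ)), range_zero, sum_empty, zero_add] at this
  push_cast
  exact this

/-- Checked tables are a certificate. -/
theorem Tab2.cert (t : Tab2) (n : Enc) (vH : ℕ → ℚ) {θ : ℝ} {b w wP wH wC : ℤ}
    (ht : t.toTab.Ok) (hs : t.toTab.Sd) (hb : t.Lat3 b) (oL : n.OkL)
    (oF : n.OkF 320 LS.Fu LS.fl) (oW : n.OkW t.toTab)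
    (oH : ∀ a ∈ Ico t.a₀ t.a₁, LawH2 t.T a (a + 1) (t.ψ a) (t.W a) (vH a))
    (hw : (w : ℚ) ≤ t.vE n 0 + t.vE n 1 + t.vE n 2 + t.vE n 3 + t.vS0 n + t.vS1 n)
    (hP : (wP : ℚ) ≤ t.vP3) (hH : (wH : ℚ) ≤ ∑ a ∈ Ico t.a₀ t.a₁, vH a)
    (hC : (wC : ℚ) ≤ ∑ k ∈ range 4, t.vC n k) (hv : b < 60 * (w + wP + wH + wC))
    (hθ : θ * t.Q ≤ t.Θ) : Cert3 θ := by
  obtain ⟨-, r2, -, r4, -⟩ := rq t.Q (ht.1.trans ht.2.1)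
  have a := r2 _ _ _ _ (rowG3 t.toTab n _ ht hs oL oF oW oH)
    (r4 ℕ (range 4) _ _ fun k hk => mC rq rE t n k ht oL (mem_range.1 hk))
  refine pt4 rq rP t b _ θ ht hb a ?_ hθ hs.2.2.2.2.2.1 hs.2.2.2.2.2.2
  have e := (Rat.cast_le (K := ℝ)).2 (add_le_add (add_le_add (add_le_add hw hP) hH) hC)
  have e4 := (Int.cast_lt (R := ℝ)).2 hv
  push_cast at e e4 ⊢
  linarith

theorem densOf {θ : ℝ} (h1 : 1 ≤ θ) (h2 : θ ≤ 2) (h : Cert3 θ) : DensStmt θ := dens2 (glob h1 h2 h)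

end Pool.Agent.Lib.MP_4b1228_nt.PP.R4
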