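import Pool.Agent.Lib.MP_4b1228_nt.PP.Rnd

/-!
Rounding with negative dependence.
-/

open Finset
open scoped Classical

noncomputable section

namespace Pool.Agent.Lib.MP_4b1228_nt.PP.Rnd

variable {α : Type*}

/-- Products of nonnegative affine functions with slopes of one sign do not increase in the mean. -/
def Neg (s : Finset α) (k : ℕ) (u : α → ℝ) (w : Finset α → ℝ) : Prop :=
  ∀ c d : α → ℝ, (∀ i, 0 ≤ c i ∧ 0 ≤ c i + d i) → (∀ i j, 0 ≤ d i * d j) →
    ∑ T ∈ powersetCard k s, w T * ∏ i ∈ s, (c i + d i * if i ∈ T then 1 else 0) ≤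
      ∏ i ∈ s, (c i + d i * u i)

/-- A rounding law with negative cylinder dependence. -/
def NLaw (s : Finset α) (k : ℕ) (u : α → ℝ) (w : Finset α → ℝ) : Prop :=
  Law s k u w ∧ (∀ A ⊆ s, ∑ T ∈ powersetCard k s with A ⊆ T, w T ≤ ∏ i ∈ A, u i) ∧
    ∀ A ⊆ s, ∑ T ∈ powersetCard k s with Disjoint A T, w T ≤ ∏ i ∈ A, (1 - u i)

theorem prod_mv {s : Finset α} (u c d : α → ℝ) {i j : α} (hi : i ∈ s) (hj : j ∈ s) (hij : i ≠ j)
    (a : ℝ) : ∏ l ∈ s, (c l + d l * mv u i j a l) =
      (c i + d i * (u i + a)) * (c j + d j * (u j - a)) *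
        ∏ l ∈ (s.erase i).erase j, (c l + d l * u l) := by
  rw [← mul_prod_erase s _ hi, ← mul_prod_erase (s.erase i) _ (mem_erase.2 ⟨hij.symm, hj⟩),
    ← mul_assoc]
  congr 1
  · simp [mv, hij, hij.symm]
  · refine prod_congr rfl fun l hl => ?_
    have h1 := (mem_erase.1 hl).1
    have h2 := (mem_erase.1 (mem_erase.1 hl).2).1
    simp [mv, h1, h2]

theorem nlaw_aux (s : Finset α) (k : ℕ) (n : ℕ) : ∀ u : α → ℝ, #(fr s u) ≤ n →
    (∀ i ∈ s, 0 ≤ u i ∧ u i ≤ 1) → ∑ i ∈ s, u i = k → ∃ w, Law s k u w ∧ Neg s k u w := by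
  induction n with
  | zero =>
    intro u hn h hs
    obtain ⟨w, H⟩ := law s k u h hs
    refine ⟨w, H, fun c d _ _ => ?_⟩
    have h0 : fr s u = ∅ := card_eq_zero.1 (Nat.le_zero.1 hn)
    refine le_of_eq ?_
    refine Eq.trans (sum_congr rfl fun T hT => ?_)
      (show ∑ T ∈ powersetCard k s, w T * ∏ i ∈ s, (c i + d i * u i) = _ by
        rw [← sum_mul, H.2.1, one_mul])
    rcases (H.1 T).eq_or_lt with e | e
    · rw [← e, zero_mul, zero_mul]
    congr 1
    refine prod_congr rfl fun i hi => ?_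
    congr 2
    have h1 : ¬ (0 < u i ∧ u i < 1) := fun hh => (h0 ▸ notMem_empty i : i ∉ fr s u)
      (mem_filter.2 ⟨hi, hh⟩)
    have h2 := sum_filter_add_sum_filter_not (powersetCard k s) (fun T => i ∈ T) w
    rw [H.2.1, H.2.2 i hi] at h2
    obtain ⟨a0, a1⟩ := h i hi
    split_ifs with hh
    · have := single_le_sum (s := {T ∈ powersetCard k s | i ∈ T}) (fun T _ => H.1 T)
        (mem_filter.2 ⟨hT, hh⟩)
      rw [H.2.2 i hi] at this
      by_contra e1
      exact h1 ⟨by linarith, lt_of_le_of_ne a1 (Ne.symm e1)⟩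
    · have := single_le_sum (s := {T ∈ powersetCard k s | ¬ i ∈ T}) (fun T _ => H.1 T)
        (mem_filter.2 ⟨hT, hh⟩)
      by_contra e1
      exact h1 ⟨lt_of_le_of_ne a0 e1, by linarith⟩
  | succ n ih =>
    intro u hn h hs
    by_cases h0 : #(fr s u) ≤ n
    · exact ih u h0 h hs
    obtain ⟨i, hi, j, hj, hij⟩ : ∃ i ∈ fr s u, ∃ j ∈ fr s u, i ≠ j := by
      refine one_lt_card.1 (lt_of_not_ge fun h1 => ?_)
      obtain ⟨i, hi⟩ := card_eq_one.1 (show #(fr s u) = 1 by omega)
      rw [sum_split s u h, hi, sum_singleton] at hs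
      have h2 := (mem_filter.1 (hi ▸ mem_singleton_self i : i ∈ fr s u)).2
      have h3 : #{i ∈ s | u i = 1} < k := by
        have : (#{i ∈ s | u i = 1} : ℝ) < k := by linarith [h2.1]
        exact_mod_cast this
      have h4 : k < #{i ∈ s | u i = 1} + 1 := by
        have : (k : ℝ) < #{i ∈ s | u i = 1} + 1 := by linarith [h2.2]
        exact_mod_cast this
      omega
    obtain ⟨p1, p2, p3⟩ := mv_ok h hi hj hij
    obtain ⟨q1, q2, q3⟩ := mv_ok h hj hi hij.symm
    obtain ⟨w₁, ⟨a1, a2, a3⟩, a4⟩ := ih _ (by omega) p1 (p2.trans hs)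
    obtain ⟨w₂, ⟨b1, b2, b3⟩, b4⟩ := ih _ (by omega) q1 (q2.trans hs)
    obtain ⟨hi1, hi2, hi3⟩ := mem_filter.1 hi
    obtain ⟨hj1, hj2, hj3⟩ := mem_filter.1 hj
    have a0 : 0 < min (1 - u i) (u j) := lt_min (by linarith) hj2
    have b0 : 0 < min (1 - u j) (u i) := lt_min (by linarith) hi2
    set a := min (1 - u i) (u j)
    set b := min (1 - u j) (u i)
    have e : ∀ S : Finset (Finset α), ∑ T ∈ S, (b * w₁ T + a * w₂ T) / (a + b) =
        (b * ∑ T ∈ S, w₁ T + a * ∑ T ∈ S, w₂ T) / (a + b) := fun S => by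
      rw [← sum_div, sum_add_distrib, mul_sum, mul_sum]
    refine ⟨fun T => (b * w₁ T + a * w₂ T) / (a + b), ⟨fun T => ?_, ?_, fun l hl => ?_⟩,
      fun c d hc hd => ?_⟩
    · have := a1 T
      have := b1 T
      positivity
    · rw [e, a2, b2]; field_simp; ring
    · rw [e, a3 l hl, b3 l hl, mv, mv]
      split_ifs <;> (field_simp; ring)
    · have c1 := a4 c d hc hd
      have c2 := b4 c d hc hd
      have c3 := prod_mv u c d hi1 hj1 hij 0
      rw [prod_mv u c d hi1 hj1 hij] at c1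
      rw [prod_mv u c d hj1 hi1 hij.symm, erase_right_comm] at c2
      simp only [mv, ite_self, add_zero, sub_zero] at c3
      rw [c3]
      have r0 : 0 ≤ ∏ l ∈ (s.erase i).erase j, (c l + d l * u l) := prod_nonneg fun l hl => by
        obtain ⟨x0, x1⟩ := h l (mem_of_mem_erase (mem_of_mem_erase hl))
        obtain ⟨y0, y1⟩ := hc l
        nlinarith [mul_nonneg x0 y1, mul_nonneg (sub_nonneg.2 x1) y0]
      set r := ∏ l ∈ (s.erase i).erase j, (c l + d l * u l)
      have e2 : ∑ T ∈ powersetCard k s, (b * w₁ T + a * w₂ T) / (a + b) *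
          ∏ i ∈ s, (c i + d i * if i ∈ T then 1 else 0) =
          (b * ∑ T ∈ powersetCard k s, w₁ T * ∏ i ∈ s, (c i + d i * if i ∈ T then 1 else 0) +
          a * ∑ T ∈ powersetCard k s, w₂ T * ∏ i ∈ s, (c i + d i * if i ∈ T then 1 else 0)) /
            (a + b) := by
        rw [mul_sum, mul_sum, ← sum_add_distrib, sum_div]
        exact sum_congr rfl fun T _ => by ring
      rw [e2, div_le_iff₀ (by positivity)]
      have c4 : 0 ≤ d i * d j * (a * b * (a + b)) * r := by
        have := hd i j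
        positivity
      have c5 := mul_le_mul_of_nonneg_left c1 b0.le
      have c6 := mul_le_mul_of_nonneg_left c2 a0.le
      linarith

theorem nlaw_of {s : Finset α} {k : ℕ} {u : α → ℝ} {w : Finset α → ℝ} (H : Law s k u w)
    (N : Neg s k u w) : NLaw s k u w := by
  have e : ∀ A ⊆ s, ∀ g : α → ℝ, ∏ i ∈ s, (if i ∈ A then g i else 1) = ∏ i ∈ A, g i :=
    fun A hA g => by rw [← prod_filter, filter_mem_eq_inter, inter_eq_right.2 hA]
  refine ⟨H, fun A hA => ?_, fun A hA => ?_⟩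
  · have := N (fun i => if i ∈ A then 0 else 1) (fun i => if i ∈ A then 1 else 0)
      (fun i => by split_ifs <;> norm_num) fun i j => by split_ifs <;> norm_num
    rw [← e A hA, sum_filter]
    refine le_trans (le_of_eq (sum_congr rfl fun T _ => ?_))
      (this.trans (le_of_eq (prod_congr rfl fun i _ => by split_ifs <;> simp)))
    rw [prod_congr rfl (g := fun i => if i ∈ A then (if i ∈ T then 1 else 0) else 1)
      (fun i _ => by by_cases h : i ∈ A <;> simp [h]), e A hA, prod_boole]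
    by_cases h : A ⊆ T
    · rw [if_pos h, if_pos fun i hi => h hi, mul_one]
    · rw [if_neg h, if_neg fun hh => h fun i hi => hh i hi, mul_zero]
  · have := N (fun _ => 1) (fun i => if i ∈ A then -1 else 0)
      (fun i => by split_ifs <;> norm_num) fun i j => by split_ifs <;> norm_num
    rw [← e A hA, sum_filter]
    refine le_trans (le_of_eq (sum_congr rfl fun T _ => ?_))
      (this.trans (le_of_eq (prod_congr rfl fun i _ => by split_ifs <;> ring)))
    rw [prod_congr rfl (g := fun i => if i ∈ A then (if i ∉ T then 1 else 0) else 1)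
      (fun i _ => by by_cases h : i ∈ A <;> by_cases h' : i ∈ T <;> simp [h, h']), e A hA,
      prod_boole]
    by_cases h : Disjoint A T
    · rw [if_pos h, if_pos fun i hi => disjoint_left.1 h hi, mul_one]
    · rw [if_neg h, if_neg fun hh => h (disjoint_left.2 fun i hi => hh i hi), mul_zero]

/-- Existence of a negatively dependent rounding. -/
theorem nlaw (s : Finset α) (k : ℕ) (u : α → ℝ) (h : ∀ i ∈ s, 0 ≤ u i ∧ u i ≤ 1)
    (hs : ∑ i ∈ s, u i = k) : ∃ w, NLaw s k u w := by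
  obtain ⟨w, H, N⟩ := nlaw_aux s k _ u le_rfl h hs
  exact ⟨w, nlaw_of H N⟩

/-- Integer form: cells `[v i, v i + 1]`, total `N`. -/
theorem nlaw_int (s : Finset α) (v : α → ℤ) (N : ℤ) (x : α → ℝ)
    (h : ∀ i ∈ s, (v i : ℝ) ≤ x i ∧ x i ≤ v i + 1) (hs : ∑ i ∈ s, x i = N) :
    ∃ (k : ℕ) (w : Finset α → ℝ), ∑ i ∈ s, v i + k = N ∧ NLaw s k (fun i => x i - v i) w := by
  obtain ⟨k, w, hk, H⟩ := law_int s v N x h hs
  obtain ⟨w', hw⟩ := nlaw s k (fun i => x i - v i)
    (fun i hi => ⟨by linarith [(h i hi).1], by linarith [(h i hi).2]⟩) (by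
      rw [sum_sub_distrib, hs, ← hk]
      push_cast
      ring)
  exact ⟨k, w', hk, hw⟩

variable {s : Finset α} {k : ℕ} {u : α → ℝ} {w : Finset α → ℝ}

theorem NLaw.both_le (H : NLaw s k u w) {i j : α} (hi : i ∈ s) (hj : j ∈ s) (hij : i ≠ j) :
    both s k w i j ≤ u i * u j := by
  have := H.2.1 {i, j} (insert_subset hi (singleton_subset_iff.2 hj))
  rw [prod_pair hij] at this
  refine le_trans (le_of_eq (sum_congr ?_ fun _ _ => rfl)) this
  ext T
  simp [insert_subset_iff]

end Pool.Agent.Lib.MP_4b1228_nt.PP.Rnd
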