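import Pool.Agent.Lib.MP_4b1228_nt.PP.R5T2
import Pool.Agent.Lib.MP_4b1228_nt.PP.RndN

/-!
The laws with negative dependence.
-/

open Finset
open scoped Classical

namespace Pool.Agent.Lib.MP_4b1228_nt.PP.R5

open Rnd R5M

variable {α : Type}

theorem neg : R5.Neg (α := α) NLaw := by
  intro s k u w h
  refine ⟨h.1, fun i hi j hj ij => h.both_le hi hj ij, fun i hi j hj l hl ij il jl => ?_⟩
  have hA : ({i, j, l} : Finset α) ⊆ s := by simp [insert_subset_iff, hi, hj, hl]
  have a := h.2.1 _ hA
  have b := h.2.2 _ hA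
  rw [prod_insert (by simp [ij, il]), prod_pair jl, ← mul_assoc] at a b
  constructor
  · refine le_trans (le_of_eq ?_) a
    exact sum_congr (filter_congr fun T _ => by simp [insert_subset_iff]) fun _ _ => rfl
  · refine le_trans (le_of_eq ?_) b
    exact sum_congr (filter_congr fun T _ => by simp) fun _ _ => rfl

theorem exS : ExS (α := α) NLaw := ⟨fun _ _ _ _ h => h.1, nlaw⟩

theorem t2S : T2S (α := α) NLaw := t2N neg

end Pool.Agent.Lib.MP_4b1228_nt.PP.R5
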