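import Pool.Agent.Lib.MP_4b1228_nt.PP.R4D

/-!
From the vertices to the cells: sums over tuples and affine majorants.
-/

open Finset Real
open scoped Classical

noncomputable section

namespace Pool.Agent.Lib.MP_4b1228_nt.PP.R4

open R3

namespace Pt

lemma tupL_le : ∀ (k : ℕ) (Φ Ψ : List ℕ → ℝ) (S : Finset ℕ),
    (∀ l : List ℕ, l.length = k → l.Nodup → (∀ p ∈ l, p ∈ S) → Φ l ≤ Ψ l) →
    tupL k Φ S ≤ tupL k Ψ S
  | 0, _, _, _, h => h [] rfl List.nodup_nil (by simp)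
  | k + 1, Φ, Ψ, S, h => by
    simp only [tupL]
    refine sum_le_sum fun p hp => tupL_le k _ _ _ fun l h1 h2 h3 => h _ (by simp [h1]) ?_ ?_
    · exact List.nodup_cons.2 ⟨fun hh => by simpa using h3 p hh, h2⟩
    · intro q hq
      rcases List.mem_cons.1 hq with rfl | hq
      · exact hp
      · exact mem_of_mem_erase (h3 q hq)

lemma tupL_add : ∀ (k : ℕ) (Φ Ψ : List ℕ → ℝ) (S : Finset ℕ),
    tupL k (fun l => Φ l + Ψ l) S = tupL k Φ S + tupL k Ψ S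
  | 0, _, _, _ => rfl
  | k + 1, Φ, Ψ, S => by
    simp only [tupL, ← sum_add_distrib]
    exact sum_congr rfl fun p _ => tupL_add k _ _ _

lemma tupL_mul (a : ℝ) : ∀ (k : ℕ) (Φ : List ℕ → ℝ) (S : Finset ℕ),
    tupL k (fun l => a * Φ l) S = a * tupL k Φ S
  | 0, _, _ => rfl
  | k + 1, Φ, S => by
    simp only [tupL, mul_sum]
    exact sum_congr rfl fun p _ => tupL_mul a k _ _

lemma tupL_sum {Ω : Type} (P : Finset Ω) (w : Ω → ℝ) : ∀ (k : ℕ) (Φ : List ℕ → Ω → ℝ)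
    (S : Finset ℕ), tupL k (fun l => ∑ ω ∈ P, w ω * Φ l ω) S =
      ∑ ω ∈ P, w ω * tupL k (fun l => Φ l ω) S
  | 0, _, _ => rfl
  | k + 1, Φ, S => by
    simp only [tupL, mul_sum]
    rw [sum_comm]
    exact sum_congr rfl fun p _ => tupL_sum P w k _ _

lemma tupL_cast : ∀ (k : ℕ) (Φ : List ℕ → ℤ) (S : Finset ℕ),
    ((tupL k Φ S : ℤ) : ℝ) = tupL k (fun l => (Φ l : ℝ)) S
  | 0, _, _ => rfl
  | k + 1, Φ, S => by
    simp only [tupL, Int.cast_sum]
    exact sum_congr rfl fun p _ => tupL_cast k _ _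

lemma tupL_const {M : ℝ} (hM : 0 ≤ M) (n : ℕ) : ∀ (k : ℕ) (S : Finset ℕ), S.card ≤ n →
    tupL k (fun _ => M) S ≤ M * n ^ k
  | 0, _, _ => by simp [tupL]
  | k + 1, S, h => by
    simp only [tupL]
    calc _ ≤ ∑ _p ∈ S, M * (n : ℝ) ^ k :=
          sum_le_sum fun p _ => tupL_const hM n k _ (card_erase_le.trans h)
      _ = S.card * (M * (n : ℝ) ^ k) := by rw [sum_const, nsmul_eq_mul]
      _ ≤ n * (M * (n : ℝ) ^ k) := by gcongr
      _ = _ := by ring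

lemma tupL_sym : ∀ (k : ℕ) (Φ : Finset ℕ → ℝ) (S : Finset ℕ),
    tupL k (fun l => Φ l.toFinset) S = k.factorial * ∑ K ∈ powersetCard k S, Φ K
  | 0, _, _ => by simp [tupL]
  | k + 1, Φ, S => by
    simp only [tupL, List.toFinset_cons]
    have e1 : ∀ p ∈ S, tupL k (fun l => Φ (insert p l.toFinset)) (S.erase p) =
        k.factorial * ∑ K ∈ powersetCard (k + 1) S, if p ∈ K then Φ K else 0 := by
      intro p hp
      rw [tupL_sym k (fun K => Φ (insert p K)), ← sum_filter]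
      congr 1
      refine sum_nbij' (fun K => insert p K) (fun K => K.erase p) ?_ ?_ ?_ ?_ ?_
      · intro K hK
        rw [mem_powersetCard] at hK
        have : p ∉ K := fun h => by simpa using hK.1 h
        simp only [mem_filter, mem_powersetCard, mem_insert_self, and_true]
        exact ⟨insert_subset hp (hK.1.trans (erase_subset _ _)), by rw [card_insert_of_notMem this, hK.2]⟩
      · intro K hK
        simp only [mem_filter, mem_powersetCard] at hK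
        rw [mem_powersetCard]
        exact ⟨erase_subset_erase _ hK.1.1, by rw [card_erase_of_mem hK.2, hK.1.2]; rfl⟩
      · intro K hK
        rw [mem_powersetCard] at hK
        exact erase_insert fun h => by simpa using hK.1 h
      · intro K hK
        exact insert_erase (mem_filter.1 hK).2
      · intro K _; rfl
    rw [sum_congr rfl e1, ← mul_sum, sum_comm, Nat.factorial_succ]
    have e2 : ∀ K ∈ powersetCard (k + 1) S, (∑ p ∈ S, if p ∈ K then Φ K else 0) =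
        (k + 1 : ℝ) * Φ K := by
      intro K hK
      rw [mem_powersetCard] at hK
      rw [← sum_filter, filter_mem_eq_inter, inter_eq_right.2 hK.1, sum_const, hK.2, nsmul_eq_mul]
      push_cast; ring
    rw [sum_congr rfl e2, ← mul_sum]
    push_cast; ring

/-! ### Casts -/

lemma cast_lin (co : ℕ → ℤ) : ∀ (l : List ℤ) (i : ℕ),
    ((lin co l i : ℤ) : ℝ) = lin co (l.map fun a : ℤ => (a : ℝ)) i
  | [], _ => by simp [lin]
  | a :: l, i => by simp [lin, cast_lin co l]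

lemma cast_sec (co : ℕ → ℤ) (v : ℤ) : ∀ (l : List ℤ) (i : ℕ),
    ((sec co v l i : ℤ) : ℝ) = sec co (v : ℝ) (l.map fun a : ℤ => (a : ℝ)) i
  | [], _ => by simp [sec]
  | a :: l, i => by
    simp only [sec, List.map_cons, ← cast_sec co v l]
    split_ifs <;> simp

lemma cast_marks (t : Tab) (a : ℕ) (τ : ℤ) : ∀ (cs : List ℕ) (l : List ℤ),
    ((t.marks a τ cs l : ℤ) : ℝ) = t.marks a (τ : ℝ) cs (l.map fun a : ℤ => (a : ℝ))
  | [], _ => by simp [Tab.marks]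
  | _ :: _, [] => by simp [Tab.marks]
  | c :: cs, u :: l => by
    simp only [Tab.marks, List.map_cons, ← cast_marks t a τ cs l]
    split_ifs <;> simp

lemma cast_hv (t : Tab) (a : ℕ) (cs : List ℕ) (l : List ℤ) :
    ((t.hv a cs l : ℤ) : ℝ) = t.hv a cs (l.map fun a : ℤ => (a : ℝ)) := by
  unfold Tab.hv
  split_ifs
  · rw [← Int.cast_list_sum]
    generalize cs.sum = n
    push_cast [cast_marks]
    rfl
  · simp

lemma cast_VE (t : Tab) (cs : List ℕ) (l : List ℤ) (ρ : ℕ) (v : ℤ) :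
    ((t.VE cs l ρ v : ℤ) : ℝ) = m0 (t.co cs 0) (l.map fun a : ℤ => (a : ℝ)) +
      m1 (t.co cs 1) ρ (l.map fun a : ℤ => (a : ℝ)) (v : ℝ) +
      m23 (t.co cs 2 0) (t.co cs 3 0) ρ (v : ℝ) := by
  unfold Tab.VE m0 m1 m23 q2 q3
  push_cast [cast_lin, cast_sec]
  split_ifs <;> simp

/-! ### Means of affine functions -/

section mean

variable {Ω : Type} {P : Finset Ω} {w : Ω → ℝ}

lemma E_lin (co : ℕ → ℤ) {β : ℕ → Ω → ℝ} {u : ℕ → ℝ} : ∀ (l : List ℕ) (i : ℕ),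
    (∀ p ∈ l, ∑ ω ∈ P, w ω * β p ω = u p) →
    ∑ ω ∈ P, w ω * lin co (l.map fun p => β p ω) i = lin co (l.map u) i
  | [], _, _ => by simp [lin]
  | p :: l, i, h => by
    simp only [List.map_cons, lin, mul_add, sum_add_distrib]
    rw [E_lin co l _ fun q hq => h q (List.mem_cons_of_mem _ hq), ← h p List.mem_cons_self,
      mul_sum]
    congr 1
    exact sum_congr rfl fun ω _ => by ring

lemma E_aff (h1 : ∑ ω ∈ P, w ω = 1) {a b : Ω → ℝ} {x y : ℝ} (ha : ∑ ω ∈ P, w ω * a ω = x)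
    (hb : ∑ ω ∈ P, w ω * b ω = y) (c₀ c₁ c₂ : ℝ) :
    ∑ ω ∈ P, w ω * (c₀ + c₁ * a ω + c₂ * b ω) = c₀ + c₁ * x + c₂ * y := by
  rw [← ha, ← hb, mul_sum, mul_sum]
  nth_rewrite 2 [← mul_one c₀]
  rw [← h1, mul_sum, ← sum_add_distrib, ← sum_add_distrib]
  exact sum_congr rfl fun ω _ => by ring

lemma E_add (a b : Ω → ℝ) :
    ∑ ω ∈ P, w ω * (a ω + b ω) = ∑ ω ∈ P, w ω * a ω + ∑ ω ∈ P, w ω * b ω := by
  simp only [mul_add, sum_add_distrib]

lemma E_sec (h1 : ∑ ω ∈ P, w ω = 1) (co : ℕ → ℤ) {β : ℕ → Ω → ℝ} {u : ℕ → ℝ} {b : Ω → ℝ}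
    {v : ℝ} (hb : ∑ ω ∈ P, w ω * b ω = v) : ∀ (l : List ℕ) (i : ℕ),
    (∀ p ∈ l, ∑ ω ∈ P, w ω * β p ω = u p) →
    ∑ ω ∈ P, w ω * sec co (b ω) (l.map fun p => β p ω) i = sec co v (l.map u) i
  | [], _, _ => by simp [sec]
  | p :: l, i, h => by
    simp only [List.map_cons, sec]
    rw [E_add, E_sec h1 co hb l _ fun q hq => h q (List.mem_cons_of_mem _ hq)]
    congr 1
    have := E_aff h1 (h p List.mem_cons_self) hb
      (-(30 * co i * if co i < 0 then 1 else 0)) (30 * co i) (30 * co i)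
    rw [sum_congr rfl fun ω _ => ?_, this]
    · ring
    · ring

lemma E_sum {β : ℕ → Ω → ℝ} {u : ℕ → ℝ} : ∀ (l : List ℕ),
    (∀ p ∈ l, ∑ ω ∈ P, w ω * β p ω = u p) →
    ∑ ω ∈ P, w ω * (l.map fun p => β p ω).sum = (l.map u).sum
  | [], _ => by simp
  | p :: l, h => by
    simp only [List.map_cons, List.sum_cons]
    rw [E_add, E_sum l fun q hq => h q (List.mem_cons_of_mem _ hq), h p List.mem_cons_self]

lemma E_marks (h1 : ∑ ω ∈ P, w ω = 1) (t : Tab) (a : ℕ) (c : ℕ → ℕ) {β : ℕ → Ω → ℝ} {u : ℕ → ℝ}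
    {b : Ω → ℝ} {v : ℝ} (hb : ∑ ω ∈ P, w ω * b ω = v) : ∀ (l : List ℕ),
    (∀ p ∈ l, ∑ ω ∈ P, w ω * β p ω = u p) →
    ∑ ω ∈ P, w ω * t.marks a (b ω) (l.map c) (l.map fun p => β p ω) =
      t.marks a v (l.map c) (l.map u)
  | [], _ => by simp [Tab.marks]
  | p :: l, h => by
    simp only [List.map_cons, Tab.marks]
    rw [E_add, E_marks h1 t a c hb l fun q hq => h q (List.mem_cons_of_mem _ hq)]
    congr 1
    split_ifs
    · exact E_aff h1 hb (h p List.mem_cons_self) _ _ _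
    · simp

lemma E_hv (h1 : ∑ ω ∈ P, w ω = 1) (t : Tab) (a : ℕ) (c : ℕ → ℕ) {β : ℕ → Ω → ℝ} {u : ℕ → ℝ}
    (l : List ℕ) (h : ∀ p ∈ l, ∑ ω ∈ P, w ω * β p ω = u p) :
    ∑ ω ∈ P, w ω * t.hv a (l.map c) (l.map fun p => β p ω) = t.hv a (l.map c) (l.map u) := by
  unfold Tab.hv
  split_ifs
  · have hb : ∑ ω ∈ P, w ω * ((((l.map c).sum : ℕ) : ℝ) + (l.map fun p => β p ω).sum - a) =
        (((l.map c).sum : ℕ) : ℝ) + (l.map u).sum - a := by
      have := E_aff h1 (E_sum l h) (E_sum l h) ((((l.map c).sum : ℕ) : ℝ) - a) 1 0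
      rw [sum_congr rfl fun ω _ => ?_, this]
      · ring
      · ring
    rw [E_add, E_marks h1 t a c hb l h]
    congr 1
    have := E_aff h1 hb hb (t.h0 a 0) (-t.h0 a 0) (t.h0 a 1)
    rw [sum_congr rfl fun ω _ => ?_, this]
    · ring
    · ring
  · simp

end mean

/-! ### The majorants -/

lemma sec_ge (co : ℕ → ℤ) {v : ℝ} (h0 : 0 ≤ v) (h1 : v ≤ 1) : ∀ (us : List ℝ) (i : ℕ),
    (∀ u ∈ us, 0 ≤ u ∧ u ≤ 1) → 60 * (v * lin co us i) ≤ sec co v us i
  | [], _, _ => by simp [lin, sec]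
  | u :: us, i, h => by
    have ih := sec_ge co h0 h1 us (i + 1) fun y hy => h y (List.mem_cons_of_mem _ hy)
    obtain ⟨a, b⟩ := h u List.mem_cons_self
    simp only [lin, sec]
    have : 60 * (v * (co i * u)) ≤ 30 * co i * (u + v - if co i < 0 then 1 else 0) := by
      split_ifs with hc
      · have hc' : (co i : ℝ) ≤ 0 := by exact_mod_cast hc.le
        have : 0 ≤ u * v + (1 - u) * (1 - v) :=
          add_nonneg (mul_nonneg a h0) (mul_nonneg (by linarith) (by linarith))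
        nlinarith
      · have hc' : (0 : ℝ) ≤ co i := by exact_mod_cast not_lt.1 hc
        have : 0 ≤ u * (1 - v) + (1 - u) * v :=
          add_nonneg (mul_nonneg a (by linarith)) (mul_nonneg (by linarith) h0)
        nlinarith
    linarith

lemma q2_ge (a : ℤ) {v : ℝ} (h0 : 0 ≤ v) (h1 : v ≤ 1) : 60 * (a * v ^ 2) ≤ q2 a v := by
  unfold q2
  split_ifs with hc
  · have hc' : (a : ℝ) ≤ 0 := by exact_mod_cast hc.le
    nlinarith [sq_nonneg (2 * v - 1)]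
  · have hc' : (0 : ℝ) ≤ a := by exact_mod_cast not_lt.1 hc
    have : 0 ≤ v * (1 - v) := mul_nonneg h0 (by linarith)
    nlinarith

lemma q3_ge (a : ℤ) {v : ℝ} (h0 : 0 ≤ v) (h1 : v ≤ 1) : 60 * (a * v ^ 3) ≤ q3 a v := by
  unfold q3
  split_ifs with hc
  · have hc' : (a : ℝ) ≤ 0 := by exact_mod_cast hc.le
    have : 0 ≤ 60 * v ^ 3 - 60 * v + 24 := by
      nlinarith [mul_nonneg h0 (sq_nonneg (v - 4 / 7)), sq_nonneg (v - 4 / 7)]
    nlinarith
  · have hc' : (0 : ℝ) ≤ a := by exact_mod_cast not_lt.1 hc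
    have : 0 ≤ v * (1 - v) * (1 + v) := by
      have : 0 ≤ 1 - v := by linarith
      positivity
    nlinarith

lemma fr_mem {y : ℝ} (h : 0 ≤ y) : 0 ≤ fr y ∧ fr y < 1 := by
  unfold fr
  exact ⟨by linarith [Nat.floor_le h], by linarith [Nat.lt_floor_add_one y]⟩

lemma AE_le (t : Tab) (ys : List ℝ) (hy : ∀ y ∈ ys, 0 ≤ y) {r : ℝ} (hr : 0 ≤ r) :
    60 * t.AE ys r ≤ m0 (t.co (ys.map fun y : ℝ => ⌊y⌋₊) 0) (ys.map fr) +
      m1 (t.co (ys.map fun y : ℝ => ⌊y⌋₊) 1) ⌊r⌋₊ (ys.map fr) (fr r) +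
      m23 (t.co (ys.map fun y : ℝ => ⌊y⌋₊) 2 0) (t.co (ys.map fun y : ℝ => ⌊y⌋₊) 3 0) ⌊r⌋₊
        (fr r) := by
  obtain ⟨h0, h1⟩ := fr_mem hr
  have e : r = ⌊r⌋₊ + fr r := by unfold fr; ring
  set cs := ys.map fun y : ℝ => ⌊y⌋₊
  have a1 := sec_ge (t.co cs 1) h0 h1.le (ys.map fr) 1 (by
    intro u hu
    obtain ⟨y, hy', rfl⟩ := List.mem_map.1 hu
    exact ⟨(fr_mem (hy y hy')).1, (fr_mem (hy y hy')).2.le⟩)
  have a2 := q2_ge (t.co cs 2 0 + 3 * ⌊r⌋₊ * t.co cs 3 0) h0 h1.le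
  have a3 := q3_ge (t.co cs 3 0) h0 h1.le
  unfold Tab.AE m0 m1 m23
  simp only [sum_range_succ, range_zero, sum_empty]
  norm_num
  push_cast at a2
  generalize fr r = v at *
  generalize (⌊r⌋₊ : ℝ) = ρ at *
  subst e
  nlinarith

end Pt

end Pool.Agent.Lib.MP_4b1228_nt.PP.R4
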