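import Pool.Agent.Lib.MP_4b1228_nt.PP.R5S
import Pool.Agent.Lib.MP_4b1228_nt.PP.R4Pa
import Pool.Agent.Lib.MP_4b1228_nt.PP.R4E
import Pool.Agent.Lib.MP_4b1228_nt.PP.RndN

/-! The terms with at most one large prime of a certificate on two scales. -/

open Finset Real
open scoped Classical

noncomputable section

namespace Pool.Agent.Lib.MP_4b1228_nt.PP.R5

open R3 R4 R5M R4.Pt

namespace T1

theorem fr_div {μ : ℕ} (hμ : 1 ≤ μ) (x : ℝ) : fr (x / μ) = ((⌊x⌋₊ % μ : ℕ) + fr x) / μ := by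
  have m0 : (μ : ℝ) ≠ 0 := by positivity
  have e : ((μ * (⌊x⌋₊ / μ) + ⌊x⌋₊ % μ : ℕ) : ℝ) = ⌊x⌋₊ := by rw [Nat.div_add_mod]
  rw [Nat.cast_add, Nat.cast_mul] at e
  rw [fr, fr, Nat.floor_div_natCast, eq_div_iff m0, sub_mul, div_mul_cancel₀ _ m0]
  linarith

def V0 (t : Tab) (ρ : ℕ) (v : ℝ) : ℝ :=
  m0 (t.co [] 0) [] + m1 (t.co [] 1) ρ [] v + m23 (t.co [] 2 0) (t.co [] 3 0) ρ v +
    if ρ < t.Q then 60 * t.l0 ρ v else 0

def V1 (t : Tab) (c ρ : ℕ) (u v : ℝ) : ℝ :=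
  m0 (t.co [c] 0) [u] + m1 (t.co [c] 1) ρ [u] v + m23 (t.co [c] 2 0) (t.co [c] 3 0) ρ v +
    ((if c + ρ + 2 ≤ t.Q then 60 * t.l1 c ρ u v else 0) + 60 * t.lp c u) +
    if t.T ≤ c then 60 * t.hv c [c] [u] else 0

theorem cast0 {t : Tab} (ht : t.Ok) (ρ : ℕ) (b : ℤ) : ((t.V [] [] ρ b : ℤ) : ℝ) = V0 t ρ b := by
  have e : t.VH [] [] = 0 := by
    have := ht.2.2.2.2.2.2.1
    have e : t.hv 0 [] ([] : List ℤ) = 0 := if_neg (by omega)
    exact mul_eq_zero_of_right _ e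
  rw [Tab.V, e, add_zero, Int.cast_add, cast_VE, V0, Tab.VS]
  split_ifs <;> simp [Tab.l0]

theorem cast1 (t : Tab) (c ρ : ℕ) (a b : ℤ) : ((t.V [c] [a] ρ b : ℤ) : ℝ) = V1 t c ρ a b := by
  rw [Tab.V, Int.cast_add, Int.cast_add, cast_VE, V1, Tab.VS]
  congr 2
  · simp only [Tab.l1, Tab.lp]
    split_ifs <;> simp
  · simp only [Tab.VH, List.all_cons, List.all_nil, Bool.and_true, decide_eq_true_eq]
    split_ifs
    · simp [Tab.hm, cast_hv]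
    · simp

theorem aff0 (t : Tab) (ρ : ℕ) (v : ℝ) : V0 t ρ v = V0 t ρ 0 * (1 - v) + V0 t ρ 1 * v := by
  simp only [V0, m0, m1, m23, q2, q3, lin, sec, Tab.l0]
  by_cases e : ρ < t.Q <;> simp only [e, if_true, if_false] <;> ring

theorem aff1 (t : Tab) (c ρ : ℕ) (u v : ℝ) : V1 t c ρ u v = V1 t c ρ 0 0 * ((1 - u) * (1 - v)) +
    V1 t c ρ 1 0 * (u * (1 - v)) + V1 t c ρ 0 1 * ((1 - u) * v) + V1 t c ρ 1 1 * (u * v) := by
  have h1 : t.lp c u = t.lp c 0 * (1 - u) + t.lp c 1 * u := by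
    simp only [Tab.lp]; split_ifs <;> ring
  have h2 : t.hv c [c] [u] = t.hv c [c] [0] * (1 - u) + t.hv c [c] [1] * u := by
    simp only [Tab.hv, Tab.marks, List.sum_cons, List.sum_nil]; split_ifs <;> ring
  simp only [V1, m0, m1, m23, q2, q3, lin, sec, Tab.l1]
  rw [h1, h2]
  by_cases e : c + ρ + 2 ≤ t.Q <;> by_cases e' : t.T ≤ c <;>
    simp only [e, e', if_true, if_false] <;> ring

theorem le0 (t : Tab) {r : ℝ} (hr : 0 ≤ r) : 60 * (t.AE [] r + t.A0 r) ≤ V0 t ⌊r⌋₊ (fr r) := by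
  have := AE_le t [] (by simp) hr
  simp only [List.map_nil] at this
  unfold V0 Tab.A0
  split_ifs <;> linarith

theorem le1 (t : Tab) {x r : ℝ} (hx : 0 ≤ x) (hr : 0 ≤ r) :
    60 * (t.AE [x] r + t.A1 x r + t.lp ⌊x⌋₊ (fr x) + Hv t [x]) ≤ V1 t ⌊x⌋₊ ⌊r⌋₊ (fr x) (fr r) := by
  have := AE_le t [x] (by simpa using hx) hr
  simp only [List.map_cons, List.map_nil] at this
  simp only [V1, Tab.A1, Hv, List.forall_mem_singleton, ← Nat.le_floor_iff hx, List.map_cons,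
    List.map_nil, List.sum_cons, List.sum_nil, add_zero]
  split_ifs <;> linarith

/-- From two vertices to a segment. -/
theorem seg {α : Type} {s : Finset α} {k : ℕ} {u : α → ℝ} {w : Finset α → ℝ} (H : Rnd.Law s k u w)
    {l : α} (hl : l ∈ s) {c : Co} (hμ : 1 ≤ c.μ) {r : ℝ} (hr : 0 ≤ r) (e : u l = fr (r / c.μ))
    (G : ℕ → ℤ) {A : ℕ → ℤ} {y : ℝ} (h : ∀ b ≤ 1, c.μ * A b ≤
      60 * c.Λ * L1 c.μ (fun j => G (⌊r⌋₊ / c.μ + j)) (c.ps ⌊r⌋₊ b))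
    (hy : 60 * y ≤ A 0 * (1 - fr r) + A 1 * fr r) :
    y ≤ c.Λ * ∑ T ∈ powersetCard k s, w T * (G (⌊r / c.μ⌋₊ + bt T l) : ℝ) := by
  have m0 : (0 : ℝ) < c.μ := by positivity
  obtain ⟨v0, v1⟩ := fr_mem hr
  have a0 := mul_le_mul_of_nonneg_right ((Int.cast_le (R := ℝ)).2 (h 0 zero_le_one))
    (sub_nonneg.2 v1.le)
  have a1 := mul_le_mul_of_nonneg_right ((Int.cast_le (R := ℝ)).2 (h 1 le_rfl)) v0
  rw [one H hl fun j => (G (⌊r / c.μ⌋₊ + j) : ℝ), e, fr_div hμ, Nat.floor_div_natCast]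
  simp only [L1, Co.ps] at a0 a1
  generalize ⌊r⌋₊ % c.μ = p at *
  generalize ⌊r⌋₊ / c.μ = q at *
  push_cast at a0 a1
  refine le_of_mul_le_mul_left ?_ (show 0 < 60 * (c.μ : ℝ) by positivity)
  refine (le_of_eq_of_le (by ring) ((mul_le_mul_of_nonneg_left hy m0.le).trans
    (le_of_eq_of_le (by ring) (add_le_add a0 a1)))).trans_eq ?_
  field_simp
  ring

end T1

open T1

variable {α : Type} {N : Cls α}

theorem t0N (hN : ∀ s k u w, N s k u w → Rnd.Law s k u w) : T0S N :=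
  fun t _ s k u w ht hc H _ hl r hr e G h =>
    seg (hN s k u w H) hl hc.1 hr e G (A := fun b => t.V [] [] ⌊r⌋₊ (b : ℕ)) h (by
      rw [cast0 ht, cast0 ht]
      simpa using (le0 t hr).trans_eq (aff0 t _ _))

theorem tIN (hN : ∀ s k u w, N s k u w → Rnd.Law s k u w) : TIS N := by
  intro t c s k u w _ hc H i hi x r hx hr e h
  have x0 : 0 ≤ x := (Nat.cast_nonneg _).trans hx
  have x1 : t.Q ≤ ⌊x⌋₊ := Nat.le_floor hx
  refine seg (hN s k u w H) hi hc.1 x0 e c.inv (A := fun a => t.V [⌊x⌋₊] [(a : ℕ)] 0 0) h ?_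
  have z : ∀ j, t.co [⌊x⌋₊] j = fun _ => 0 := fun j => funext fun _ => if_neg fun g => by
    have := (ME.vis_le g).2.2 (⌊x⌋₊ + 1) (by simp)
    omega
  have y : V1 t ⌊x⌋₊ ⌊r⌋₊ (fr x) (fr r) = V1 t ⌊x⌋₊ 0 (fr x) 0 := by
    unfold V1
    rw [if_neg (by omega), if_neg (show ¬⌊x⌋₊ + 0 + 2 ≤ t.Q by omega)]
    simp [z, m1, m23, q2, q3, lin, sec]
  rw [cast1, cast1]
  simpa using (le1 t x0 hr).trans_eq (y.trans (aff1 t _ _ _ _))

theorem t1N (hN : ∀ s k u w, N s k u w → Rnd.Law s k u w ∧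
    ∀ i ∈ s, ∀ j ∈ s, i ≠ j → Rnd.both s k w i j ≤ u i * u j) : T1S N := by
  intro t c s k u w _ hc H i hi l hl il x r hx hr e e' G n h
  have hμ := hc.1
  have m0 : (0 : ℝ) < c.μ := by positivity
  obtain ⟨u0, u1⟩ := fr_mem hx
  obtain ⟨v0, v1⟩ := fr_mem hr
  have u2 := sub_nonneg.2 u1.le
  have v2 := sub_nonneg.2 v1.le
  have f := fun a ha b hb => (Int.cast_le (R := ℝ)).2 (h a ha b hb)
  have a0 := mul_le_mul_of_nonneg_right (f 0 zero_le_one 0 zero_le_one) (mul_nonneg u2 v2)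
  have a1 := mul_le_mul_of_nonneg_right (f 1 le_rfl 0 zero_le_one) (mul_nonneg u0 v2)
  have a2 := mul_le_mul_of_nonneg_right (f 0 zero_le_one 1 le_rfl) (mul_nonneg u2 v0)
  have a3 := mul_le_mul_of_nonneg_right (f 1 le_rfl 1 le_rfl) (mul_nonneg u0 v0)
  have hy := (le1 t hx hr).trans_eq (aff1 t _ _ _ _)
  rw [Nat.floor_div_natCast, Nat.floor_div_natCast]
  obtain ⟨m, hm⟩ : ∃ m, m = max 0 (mx fun i j => G (⌊x⌋₊ / c.μ + i) (⌊r⌋₊ / c.μ + j)) := ⟨_, rfl⟩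
  refine le_trans ?_ (mul_le_mul_of_nonneg_left (lam2_le' (hN s k u w H).1 hi hl
    ((hN s k u w H).2 i hi l hl il) (fun a b => (G (⌊x⌋₊ / c.μ + a) (⌊r⌋₊ / c.μ + b) : ℝ))
    (m := m) (θ := bz (c.th [⌊x⌋₊, ⌊r⌋₊] n)) (by exact_mod_cast hm ▸ le_max_left _ _)
    (by
      have := (Int.cast_le (R := ℝ)).2 (hm ▸ le_max_right _ _ :
        (mx fun i j => G (⌊x⌋₊ / c.μ + i) (⌊r⌋₊ / c.μ + j)) ≤ m)
      simpa [mx, R5M.mx] using this)
    (by unfold bz; split_ifs <;> simp) (by unfold bz; split_ifs <;> simp)) (Nat.cast_nonneg _))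
  rw [e, e', fr_div hμ, fr_div hμ]
  simp only [Int.cast_mul, cast1, L2, ← hm, ML2, gp, Co.ps] at a0 a1 a2 a3
  generalize ⌊x⌋₊ % c.μ = p at *
  generalize ⌊r⌋₊ % c.μ = q at *
  generalize ⌊x⌋₊ / c.μ = p' at *
  generalize ⌊r⌋₊ / c.μ = q' at *
  push_cast at a0 a1 a2 a3
  refine le_of_mul_le_mul_left ?_ (show 0 < 60 * (c.μ : ℝ) ^ 2 by positivity)
  refine (le_of_eq_of_le (by ring) ((mul_le_mul_of_nonneg_left hy (sq_nonneg (c.μ : ℝ))).trans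
    (le_of_eq_of_le (by ring) (add_le_add (add_le_add a0 a1) (add_le_add a2 a3))))).trans_eq ?_
  simp only [lam2, ml2, gap]
  field_simp
  ring

theorem t0S : T0S (α := α) Rnd.NLaw := t0N fun _ _ _ _ H => H.1

theorem tIS : TIS (α := α) Rnd.NLaw := tIN fun _ _ _ _ H => H.1

theorem t1S : T1S (α := α) Rnd.NLaw := t1N fun _ _ _ _ H => ⟨H.1, fun _ hi _ hj => H.both_le hi hj⟩

end Pool.Agent.Lib.MP_4b1228_nt.PP.R5
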