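import Mathlib

/-!
Rounding to lattice points with the same sum (the hypersimplex is the hull of its vertices).
-/

open Finset
open scoped Classical

noncomputable section

namespace Pool.Agent.Lib.MP_4b1228_nt.PP.Rnd

variable {α : Type*}

/-- `w` is a probability on the subsets of `s` with `k` elements, with marginals `u`. -/
def Law (s : Finset α) (k : ℕ) (u : α → ℝ) (w : Finset α → ℝ) : Prop :=
  (∀ T, 0 ≤ w T) ∧ ∑ T ∈ powersetCard k s, w T = 1 ∧
    ∀ i ∈ s, ∑ T ∈ powersetCard k s with i ∈ T, w T = u i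

/-- The fractional coordinates. -/
def fr (s : Finset α) (u : α → ℝ) : Finset α := {i ∈ s | 0 < u i ∧ u i < 1}

/-- Move mass `a` from `j` to `i`. -/
def mv (u : α → ℝ) (i j : α) (a : ℝ) : α → ℝ := fun l =>
  u l + (if l = i then a else 0) - (if l = j then a else 0)

theorem sum_split (s : Finset α) (u : α → ℝ) (h : ∀ i ∈ s, 0 ≤ u i ∧ u i ≤ 1) :
    ∑ i ∈ s, u i = (#{i ∈ s | u i = 1} : ℝ) + ∑ i ∈ fr s u, u i := by
  rw [fr, sum_filter, card_filter, Nat.cast_sum, ← sum_add_distrib]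
  refine sum_congr rfl fun i hi => ?_
  obtain ⟨h0, h1⟩ := h i hi
  rcases h1.eq_or_lt with e | e
  · simp [e]
  · rcases h0.eq_or_lt with e0 | e0
    · simp [← e0]
    · simp [e.ne, e, e0]

theorem mv_ok {s : Finset α} {u : α → ℝ} (h : ∀ i ∈ s, 0 ≤ u i ∧ u i ≤ 1) {i j : α}
    (hi : i ∈ fr s u) (hj : j ∈ fr s u) (hij : i ≠ j) :
    (∀ l ∈ s, 0 ≤ mv u i j (min (1 - u i) (u j)) l ∧ mv u i j (min (1 - u i) (u j)) l ≤ 1) ∧
    ∑ l ∈ s, mv u i j (min (1 - u i) (u j)) l = ∑ l ∈ s, u l ∧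
    #(fr s (mv u i j (min (1 - u i) (u j)))) < #(fr s u) := by
  obtain ⟨hi1, hi2, hi3⟩ := mem_filter.1 hi
  obtain ⟨hj1, hj2, hj3⟩ := mem_filter.1 hj
  have a0 : 0 < min (1 - u i) (u j) := lt_min (by linarith) hj2
  have a1 := min_le_left (1 - u i) (u j)
  have a2 := min_le_right (1 - u i) (u j)
  have ei : mv u i j (min (1 - u i) (u j)) i = u i + min (1 - u i) (u j) := by simp [mv, hij]
  have ej : mv u i j (min (1 - u i) (u j)) j = u j - min (1 - u i) (u j) := by simp [mv, hij.symm]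
  have el : ∀ l, l ≠ i → l ≠ j → mv u i j (min (1 - u i) (u j)) l = u l := fun l h1 h2 => by
    simp [mv, h1, h2]
  refine ⟨fun l hl => ?_, ?_, card_lt_card ⟨fun l hl => ?_, fun hs => ?_⟩⟩
  · by_cases h1 : l = i
    · rw [h1, ei]; constructor <;> linarith
    · by_cases h2 : l = j
      · rw [h2, ej]; constructor <;> linarith
      · rw [el l h1 h2]; exact h l hl
  · simp [mv, sum_add_distrib, sum_sub_distrib, hi1, hj1]
  · by_cases h1 : l = i
    · rwa [h1]
    · by_cases h2 : l = j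
      · rwa [h2]
      · have := mem_filter.1 hl
        rw [el l h1 h2] at this
        exact mem_filter.2 this
  · have b1 := (mem_filter.1 (hs hi)).2.2
    have b2 := (mem_filter.1 (hs hj)).2.1
    rw [ei] at b1
    rw [ej] at b2
    rcases min_choice (1 - u i) (u j) with e | e <;> linarith

theorem law_aux (s : Finset α) (k : ℕ) (n : ℕ) : ∀ u : α → ℝ, #(fr s u) ≤ n →
    (∀ i ∈ s, 0 ≤ u i ∧ u i ≤ 1) → ∑ i ∈ s, u i = k → ∃ w, Law s k u w := by
  induction n with
  | zero =>
    intro u hn h hs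
    have h0 : fr s u = ∅ := card_eq_zero.1 (Nat.le_zero.1 hn)
    rw [sum_split s u h, h0, sum_empty, add_zero, Nat.cast_inj] at hs
    have hT : {i ∈ s | u i = 1} ∈ powersetCard k s := mem_powersetCard.2 ⟨filter_subset _ _, hs⟩
    refine ⟨fun T => if T = {i ∈ s | u i = 1} then 1 else 0, fun T => by positivity, ?_,
      fun i hi => ?_⟩
    · rw [sum_ite_eq', if_pos hT]
    · rw [sum_ite_eq']
      have h1 : i ∉ fr s u := h0 ▸ notMem_empty i
      obtain ⟨a0, a1⟩ := h i hi
      split_ifs with hh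
      · exact (mem_filter.1 (mem_filter.1 hh).2).2.symm
      · have e : u i ≠ 1 := fun e => hh (by simp only [mem_filter]; exact ⟨hT, hi, e⟩)
        by_contra e0
        exact h1 (mem_filter.2 ⟨hi, lt_of_le_of_ne a0 e0, lt_of_le_of_ne a1 e⟩)
  | succ n ih =>
    intro u hn h hs
    by_cases h0 : #(fr s u) ≤ n
    · exact ih u h0 h hs
    obtain ⟨i, hi, j, hj, hij⟩ : ∃ i ∈ fr s u, ∃ j ∈ fr s u, i ≠ j := by
      refine one_lt_card.1 (lt_of_not_ge fun h1 => ?_)
      obtain ⟨i, hi⟩ := card_eq_one.1 (show #(fr s u) = 1 by omega)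
      rw [sum_split s u h, hi, sum_singleton] at hs
      have h2 := (mem_filter.1 (hi ▸ mem_singleton_self i : i ∈ fr s u)).2
      have h3 : #{i ∈ s | u i = 1} < k := by
        have : (#{i ∈ s | u i = 1} : ℝ) < k := by linarith [h2.1]
        exact_mod_cast this
      have h4 : k < #{i ∈ s | u i = 1} + 1 := by
        have : (k : ℝ) < #{i ∈ s | u i = 1} + 1 := by linarith [h2.2]
        exact_mod_cast this
      omega
    obtain ⟨p1, p2, p3⟩ := mv_ok h hi hj hij
    obtain ⟨q1, q2, q3⟩ := mv_ok h hj hi hij.symm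
    obtain ⟨w₁, a1, a2, a3⟩ := ih _ (by omega) p1 (p2.trans hs)
    obtain ⟨w₂, b1, b2, b3⟩ := ih _ (by omega) q1 (q2.trans hs)
    obtain ⟨-, hi2, hi3⟩ := mem_filter.1 hi
    obtain ⟨-, hj2, hj3⟩ := mem_filter.1 hj
    have a0 : 0 < min (1 - u i) (u j) := lt_min (by linarith) hj2
    have b0 : 0 < min (1 - u j) (u i) := lt_min (by linarith) hi2
    set a := min (1 - u i) (u j)
    set b := min (1 - u j) (u i)
    have e : ∀ S : Finset (Finset α), ∑ T ∈ S, (b * w₁ T + a * w₂ T) / (a + b) =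
        (b * ∑ T ∈ S, w₁ T + a * ∑ T ∈ S, w₂ T) / (a + b) := fun S => by
      rw [← sum_div, sum_add_distrib, mul_sum, mul_sum]
    refine ⟨fun T => (b * w₁ T + a * w₂ T) / (a + b), fun T => ?_, ?_, fun l hl => ?_⟩
    · have := a1 T
      have := b1 T
      positivity
    · rw [e, a2, b2]; field_simp; ring
    · rw [e, a3 l hl, b3 l hl, mv, mv]
      split_ifs <;> (field_simp; ring)

/-- A point of the cube with integer sum is a mean of vertices with the same sum. -/
theorem law (s : Finset α) (k : ℕ) (u : α → ℝ) (h : ∀ i ∈ s, 0 ≤ u i ∧ u i ≤ 1)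
    (hs : ∑ i ∈ s, u i = k) : ∃ w, Law s k u w := law_aux s k _ u le_rfl h hs

variable {s : Finset α} {k : ℕ} {u : α → ℝ} {w : Finset α → ℝ}

/-- Affine functions commute with the mean. -/
theorem Law.aff (H : Law s k u w) (c : ℝ) (a : α → ℝ) :
    ∑ T ∈ powersetCard k s, w T * (c + ∑ i ∈ T, a i) = c + ∑ i ∈ s, a i * u i := by
  simp only [mul_add, sum_add_distrib]
  rw [← sum_mul, H.2.1, one_mul]
  congr 1
  have : ∀ T ∈ powersetCard k s, w T * ∑ i ∈ T, a i = ∑ i ∈ s, if i ∈ T then a i * w T else 0 :=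
    fun T hT => by
      rw [← sum_filter, filter_mem_eq_inter, inter_eq_right.2 (mem_powersetCard.1 hT).1, mul_sum]
      exact sum_congr rfl fun i _ => mul_comm _ _
  rw [sum_congr rfl this, sum_comm]
  refine sum_congr rfl fun i hi => ?_
  rw [← H.2.2 i hi, mul_sum, sum_filter]

/-- One coordinate. -/
theorem Law.one (H : Law s k u w) {i : α} (hi : i ∈ s) (F : Prop → ℝ) :
    ∑ T ∈ powersetCard k s, w T * F (i ∈ T) = F False + (F True - F False) * u i := by
  rw [← H.2.2 i hi, mul_sum, sum_filter]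
  nth_rewrite 1 [← mul_one (F False), ← H.2.1]
  rw [mul_sum, ← sum_add_distrib]
  refine sum_congr rfl fun T _ => ?_
  by_cases h : i ∈ T <;> simp [h] <;> ring

/-- The probability that both coordinates are rounded up. -/
def both (s : Finset α) (k : ℕ) (w : Finset α → ℝ) (i j : α) : ℝ :=
  ∑ T ∈ powersetCard k s with i ∈ T ∧ j ∈ T, w T

theorem Law.both_bd (H : Law s k u w) {i j : α} (hi : i ∈ s) (hj : j ∈ s) :
    0 ≤ both s k w i j ∧ u i + u j - 1 ≤ both s k w i j ∧ both s k w i j ≤ u i ∧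
      both s k w i j ≤ u j := by
  rw [← H.2.2 i hi, ← H.2.2 j hj, ← H.2.1, both]
  simp only [sum_filter]
  rw [← sum_add_distrib, ← sum_sub_distrib]
  refine ⟨sum_nonneg fun T _ => ?_, sum_le_sum fun T _ => ?_, sum_le_sum fun T _ => ?_,
    sum_le_sum fun T _ => ?_⟩ <;> have := H.1 T <;> by_cases h : i ∈ T <;> by_cases h' : j ∈ T <;>
    simp [h, h', this]

theorem Law.cov (H : Law s k u w) {i j : α} (hi : i ∈ s) (hj : j ∈ s) :
    |both s k w i j - u i * u j| ≤ 1 / 4 := by
  obtain ⟨h0, h1, h2, h3⟩ := H.both_bd hi hj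
  obtain ⟨g0, g1, -, -⟩ := H.both_bd hi hi
  obtain ⟨f0, f1, -, -⟩ := H.both_bd hj hj
  obtain ⟨-, -, g2, -⟩ := H.both_bd hi hi
  obtain ⟨-, -, f2, -⟩ := H.both_bd hj hj
  set p := both s k w i j
  set x := u i
  set y := u j
  have x0 : 0 ≤ x := g0.trans g2
  have y0 : 0 ≤ y := f0.trans f2
  have x1 : x ≤ 1 := by linarith
  have y1 : y ≤ 1 := by linarith
  rw [abs_le]
  constructor
  · rcases le_total (x + y) 1 with h | h
    · nlinarith [sq_nonneg (x - y), sq_nonneg (x + y - 1), mul_nonneg x0 y0]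
    · nlinarith [sq_nonneg (x - y), mul_nonneg (sub_nonneg.2 x1) (sub_nonneg.2 y1)]
  · rcases le_total x y with h | h
    · nlinarith [sq_nonneg (2 * x - 1), mul_nonneg x0 (sub_nonneg.2 h)]
    · nlinarith [sq_nonneg (2 * y - 1), mul_nonneg y0 (sub_nonneg.2 h)]

/-- Two coordinates. -/
theorem Law.two (H : Law s k u w) {i j : α} (hi : i ∈ s) (hj : j ∈ s) (F : Prop → Prop → ℝ) :
    ∑ T ∈ powersetCard k s, w T * F (i ∈ T) (j ∈ T) =
      F False False + (F True False - F False False) * u i + (F False True - F False False) * u j +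
        (F True True - F True False - F False True + F False False) * both s k w i j := by
  rw [← H.2.2 i hi, ← H.2.2 j hj, both]
  simp only [mul_sum, sum_filter]
  nth_rewrite 1 [← mul_one (F False False), ← H.2.1]
  rw [mul_sum, ← sum_add_distrib, ← sum_add_distrib, ← sum_add_distrib]
  refine sum_congr rfl fun T _ => ?_
  by_cases h : i ∈ T <;> by_cases h' : j ∈ T <;> simp [h, h'] <;> ring

/-- The lower convex envelope on the unit square. -/
theorem Law.env (H : Law s k u w) {i j : α} (hi : i ∈ s) (hj : j ∈ s) (b : ℝ) :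
    max b 0 * max (u i + u j - 1) 0 - max (-b) 0 * min (u i) (u j) ≤ b * both s k w i j := by
  obtain ⟨h0, h1, h2, h3⟩ := H.both_bd hi hj
  rcases le_total 0 b with hb | hb
  · rw [max_eq_left hb, max_eq_right (neg_nonpos.2 hb), zero_mul, sub_zero]
    exact mul_le_mul_of_nonneg_left (max_le h1 h0) hb
  · rw [max_eq_right hb, max_eq_left (neg_nonneg.2 hb), zero_mul, zero_sub, neg_mul, neg_neg]
    exact mul_le_mul_of_nonpos_left (le_min h2 h3) hb

/-- A mean is at most the largest value. -/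
theorem Law.le (H : Law s k u w) {F : Finset α → ℝ} {c : ℝ}
    (h : ∀ T ∈ powersetCard k s, F T ≤ c) : ∑ T ∈ powersetCard k s, w T * F T ≤ c := by
  calc _ ≤ ∑ T ∈ powersetCard k s, w T * c :=
        sum_le_sum fun T hT => mul_le_mul_of_nonneg_left (h T hT) (H.1 T)
    _ = c := by rw [← sum_mul, H.2.1, one_mul]

/-- The vertex attached to `T`. -/
def vx (s : Finset α) (v x : α → ℝ) (T : Finset α) : α → ℝ := fun i =>
  if i ∈ s then v i + (if i ∈ T then 1 else 0) else x i

/-- Jensen inequality for the rounding. -/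
theorem Law.jensen {v x : α → ℝ} (H : Law s k (fun i => x i - v i) w) {C : Set (α → ℝ)}
    {G : (α → ℝ) → ℝ} (hG : ConvexOn ℝ C G) (hC : ∀ T ∈ powersetCard k s, vx s v x T ∈ C) :
    G x ≤ ∑ T ∈ powersetCard k s, w T * G (vx s v x T) := by
  have := hG.map_sum_le (fun T _ => H.1 T) H.2.1 hC
  refine le_trans (le_of_eq (congrArg G ?_)) this
  funext i
  rw [Finset.sum_apply]
  simp only [Pi.smul_apply, smul_eq_mul, vx]
  by_cases hi : i ∈ s
  · simp only [hi, if_true]
    have := H.one hi fun P => v i + if P then 1 else 0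
    simp only [if_true, if_false] at this
    rw [show x i = v i + 0 + (v i + 1 - (v i + 0)) * (x i - v i) by ring, ← this]
    exact sum_congr rfl fun T _ => by congr
  · simp only [hi, if_false]
    rw [← sum_mul, H.2.1, one_mul]

/-- Integer form: cells `[v i, v i + 1]`, total `N`. -/
theorem law_int (s : Finset α) (v : α → ℤ) (N : ℤ) (x : α → ℝ)
    (h : ∀ i ∈ s, (v i : ℝ) ≤ x i ∧ x i ≤ v i + 1) (hs : ∑ i ∈ s, x i = N) :
    ∃ (k : ℕ) (w : Finset α → ℝ), ∑ i ∈ s, v i + k = N ∧ Law s k (fun i => x i - v i) w := by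
  have h1 : ∑ i ∈ s, v i ≤ N := by
    have : ∑ i ∈ s, (v i : ℝ) ≤ N := hs ▸ sum_le_sum fun i hi => (h i hi).1
    exact_mod_cast this
  obtain ⟨k, hk⟩ := Int.eq_ofNat_of_zero_le (sub_nonneg.2 h1)
  obtain ⟨w, hw⟩ := law s k (fun i => x i - v i)
    (fun i hi => ⟨by linarith [(h i hi).1], by linarith [(h i hi).2]⟩) (by
      rw [sum_sub_distrib, hs]
      exact_mod_cast hk)
  exact ⟨k, w, by linarith, hw⟩

/-- A convex function on the cell is bounded by its values at lattice points with the same sum. -/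
theorem rnd {ι : Type*} [Fintype ι] (v : ι → ℤ) (N : ℤ) (x : ι → ℝ) {G : (ι → ℝ) → ℝ} {c : ℝ}
    (hG : ConvexOn ℝ {y : ι → ℝ | ∀ i, (v i : ℝ) ≤ y i ∧ y i ≤ (v i : ℝ) + 1} G)
    (h : ∀ i, (v i : ℝ) ≤ x i ∧ x i ≤ v i + 1) (hs : ∑ i, x i = N)
    (hc : ∀ y : ι → ℤ, (∀ i, y i = v i ∨ y i = v i + 1) → ∑ i, y i = N → G (fun i => y i) ≤ c) :
    G x ≤ c := by
  obtain ⟨k, w, hk, H⟩ := law_int univ v N x (fun i _ => h i) hs
  refine (H.jensen hG fun T _ i => ?_).trans (H.le fun T hT => ?_)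
  · by_cases hi : i ∈ T <;> simp [vx, hi]
  · have := hc (fun i => v i + if i ∈ T then 1 else 0)
      (fun i => by by_cases hi : i ∈ T <;> simp [hi]) (by
        rw [sum_add_distrib, ← hk, ← (mem_powersetCard.1 hT).2]
        simp)
    refine le_trans (le_of_eq (congrArg G ?_)) this
    funext i
    by_cases hi : i ∈ T <;> simp [vx, hi]

end Pool.Agent.Lib.MP_4b1228_nt.PP.Rnd
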