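import Pool.Agent.Lib.MP_4b1228_nt.PP.R4Pa
import Pool.Agent.Lib.MP_4b1228_nt.PP.Rnd

/-!
The check at the vertices gives the certificate.
-/

open Finset Real
open scoped Classical

noncomputable section

namespace Pool.Agent.Lib.MP_4b1228_nt.PP.R4

open R3

namespace Pt

/-- Random rounding with a constant total. -/
structure Rd (B : Finset ℕ) (x : ℕ → ℝ) (r : ℝ) (P : Finset (Finset (Option (Option ℕ))))
    (w : Finset (Option (Option ℕ)) → ℝ) (δ : Finset (Option (Option ℕ)) → ℕ → ℕ)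
    (δ₀ d : Finset (Option (Option ℕ)) → ℕ) : Prop where
  pos : ∀ ω, 0 ≤ w ω
  one : ∑ ω ∈ P, w ω = 1
  b1 : ∀ ω p, δ ω p ≤ 1
  b2 : ∀ ω, δ₀ ω ≤ 1
  b3 : ∀ ω, d ω ≤ 1
  e1 : ∀ p ∈ B, ∑ ω ∈ P, w ω * (δ ω p : ℝ) = fr (x p)
  e2 : ∑ ω ∈ P, w ω * (δ₀ ω : ℝ) = fr r
  e3 : ∑ ω ∈ P, w ω * (d ω : ℝ) = ⌈r + ∑ p ∈ B, x p⌉₊ - (r + ∑ p ∈ B, x p)
  tot : ∀ ω ∈ P, ⌊r⌋₊ + δ₀ ω + ∑ p ∈ B, (⌊x p⌋₊ + δ ω p) + d ω = ⌈r + ∑ p ∈ B, x p⌉₊

lemma exists_rd (B : Finset ℕ) (x : ℕ → ℝ) {r : ℝ} (hx : ∀ p ∈ B, 0 ≤ x p) (hr : 0 ≤ r) :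
    ∃ P w δ δ₀ d, Rd B x r P w δ δ₀ d := by
  set s := insertNone (insertNone B) with hs
  set A := r + ∑ p ∈ B, x p with hA
  have A0 : 0 ≤ A := add_nonneg hr (sum_nonneg hx)
  let u : Option (Option ℕ) → ℝ := fun o => match o with
    | none => ⌈A⌉₊ - A
    | some none => fr r
    | some (some p) => fr (x p)
  set n := ⌊r⌋₊ + ∑ p ∈ B, ⌊x p⌋₊ with hn
  have hnA : (n : ℝ) ≤ A := by
    rw [hn, hA]; push_cast
    exact add_le_add (Nat.floor_le hr) (sum_le_sum fun p hp => Nat.floor_le (hx p hp))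
  have hn2 : n ≤ ⌈A⌉₊ := by exact_mod_cast hnA.trans (Nat.le_ceil A)
  have hu : ∀ i ∈ s, 0 ≤ u i ∧ u i ≤ 1 := by
    rintro (_ | _ | p) hi
    · exact ⟨by simp only [u]; linarith [Nat.le_ceil A],
        by simp only [u]; linarith [Nat.ceil_lt_add_one A0]⟩
    · exact ⟨(fr_mem hr).1, (fr_mem hr).2.le⟩
    · have hp : p ∈ B := by simpa [hs] using hi
      exact ⟨(fr_mem (hx p hp)).1, (fr_mem (hx p hp)).2.le⟩
  have hsum : ∑ i ∈ s, u i = ((⌈A⌉₊ - n : ℕ) : ℝ) := by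
    rw [hs, sum_insertNone, sum_insertNone, Nat.cast_sub hn2, hn]
    simp only [u, fr, sum_sub_distrib]
    push_cast
    rw [hA]; ring
  obtain ⟨w, H⟩ := Rnd.law s _ u hu hsum
  have key : ∀ i ∈ s, ∑ T ∈ powersetCard (⌈A⌉₊ - n) s,
      w T * (((if i ∈ T then 1 else 0 : ℕ) : ℕ) : ℝ) = u i := by
    intro i hi
    rw [← H.2.2 i hi, sum_filter]
    exact sum_congr rfl fun T _ => by split_ifs <;> simp
  refine ⟨powersetCard (⌈A⌉₊ - n) s, w, fun T p => if some (some p) ∈ T then 1 else 0,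
    fun T => if some none ∈ T then 1 else 0, fun T => if none ∈ T then 1 else 0, H.1, H.2.1,
    fun _ _ => by split_ifs <;> simp, fun _ => by split_ifs <;> simp,
    fun _ => by split_ifs <;> simp, fun p hp => key _ (by simpa [hs] using hp),
    key _ (by simp [hs]), key _ (by simp [hs]), fun T hT => ?_⟩
  obtain ⟨h1, h2⟩ := mem_powersetCard.1 hT
  have : ∑ i ∈ s, (if i ∈ T then 1 else 0 : ℕ) = T.card := by
    rw [← card_filter, filter_mem_eq_inter, inter_eq_right.2 h1]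
  rw [hs, sum_insertNone, sum_insertNone, h2] at this
  rw [sum_add_distrib, ← hA]
  omega

lemma hm_ge (t : Tab) (cs : List ℕ) (δs : List ℤ) : ∀ n o : ℕ, o ≤ n →
    t.hv (cs.sum + o) cs δs ≤ t.hm cs δs n
  | 0, o, h => by rw [Nat.le_zero.1 h]; exact le_rfl
  | n + 1, o, h => by
    rcases h.eq_or_lt with rfl | h
    · exact le_max_right _ _
    · exact (hm_ge t cs δs n o (Nat.lt_succ_iff.1 h)).trans (le_max_left _ _)

lemma marks_eq (t : Tab) (a : ℕ) (s : ℝ) (x : ℕ → ℝ) : ∀ l : List ℕ,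
    (∀ p ∈ l, 0 ≤ x p ∧ x p < a + 1) →
    t.marks a (s - a) (l.map fun p => ⌊x p⌋₊) (l.map fun p => fr (x p)) =
      (l.map fun p => t.W a (x p) s).sum
  | [], _ => by simp [Tab.marks]
  | p :: l, h => by
    simp only [List.map_cons, Tab.marks, List.sum_cons]
    rw [marks_eq t a s x l fun q hq => h q (List.mem_cons_of_mem _ hq)]
    congr 1
    simp [Tab.W, h p List.mem_cons_self]

lemma sum_fl (x : ℕ → ℝ) : ∀ l : List ℕ,
    (((l.map fun p => ⌊x p⌋₊).sum : ℕ) : ℝ) + (l.map fun p => fr (x p)).sum = (l.map x).sum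
  | [] => by simp
  | p :: l => by
    simp only [List.map_cons, List.sum_cons, Nat.cast_add, ← sum_fl x l, fr]
    ring

lemma sum_fr (x : ℕ → ℝ) : ∀ l : List ℕ, (∀ p ∈ l, 0 ≤ x p) →
    0 ≤ (l.map fun p => fr (x p)).sum ∧ (l.map fun p => fr (x p)).sum < (l.length - 1 : ℕ) + 1 ∧
      (l.map fun p => fr (x p)).sum ≤ l.length
  | [], _ => by simp
  | p :: l, h => by
    obtain ⟨a, _, c⟩ := sum_fr x l fun q hq => h q (List.mem_cons_of_mem _ hq)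
    obtain ⟨d, e⟩ := fr_mem (h p List.mem_cons_self)
    simp only [List.map_cons, List.sum_cons, List.length_cons, Nat.add_sub_cancel]
    push_cast
    exact ⟨by linarith, by linarith, by linarith⟩

/-- The weight of a set in all windows. -/
def Hs (t : Tab) (x : ℕ → ℝ) (K : Finset ℕ) : ℝ :=
  if ∀ p ∈ K, (t.T : ℝ) ≤ x p then
    ∑ a ∈ Ico t.a₀ t.a₁, hw2 a (a + 1) (t.ψ a) (t.W a) x K else 0

lemma win_eq (t : Tab) (x : ℕ → ℝ) (l : List ℕ) (hl : l.Nodup) (h : ∀ p ∈ l, 0 ≤ x p) :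
    ∑ a ∈ Ico t.a₀ t.a₁, hw2 a (a + 1) (t.ψ a) (t.W a) x l.toFinset =
      t.hv ⌊(l.map x).sum⌋₊ (l.map fun p => ⌊x p⌋₊) (l.map fun p => fr (x p)) := by
  have e : ∑ p ∈ l.toFinset, x p = (l.map x).sum := List.sum_toFinset _ hl
  have s0 : 0 ≤ (l.map x).sum := List.sum_nonneg (by simpa using h)
  set s := (l.map x).sum with hs
  have e1 : ∀ a ∈ Ico t.a₀ t.a₁, hw2 a (a + 1) (t.ψ a) (t.W a) x l.toFinset =
      if ⌊s⌋₊ = a then t.ψ a s + (l.map fun p => t.W a (x p) s).sum else 0 := by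
    intro a _
    unfold hw2
    rw [e, List.sum_toFinset _ hl]
    simp only [Nat.floor_eq_iff s0]
  rw [sum_congr rfl e1, sum_ite_eq, Tab.hv, sum_fl, ← hs, marks_eq]
  · simp only [mem_Ico, Tab.ψ]
  · intro p hp
    refine ⟨h p hp, lt_of_le_of_lt ?_ (Nat.lt_floor_add_one s)⟩
    exact List.single_le_sum (by simpa using h) _ (List.mem_map_of_mem hp)

lemma GH_eq (t : Tab) (ht : t.Ok) (x : ℕ → ℝ) (S : Finset ℕ) :
    ∑ k ∈ range 4, tupL k (fun l => 60 / (l.length.factorial : ℝ) * Hs t x l.toFinset)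
      (t.big x S) = 60 * t.GH x S := by
  obtain ⟨-, -, -, -, -, hT, -, -, -, h4, -⟩ := ht
  have e1 : ∀ k ∈ range 4, tupL k (fun l => 60 / (l.length.factorial : ℝ) * Hs t x l.toFinset)
      (t.big x S) = 60 * ∑ K ∈ (t.big x S).powerset, if K.card = k then Hs t x K else 0 := by
    intro k _
    have : tupL k (fun l => 60 / (l.length.factorial : ℝ) * Hs t x l.toFinset) (t.big x S) =
        tupL k (fun l => 60 / (k.factorial : ℝ) * Hs t x l.toFinset) (t.big x S) :=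
      le_antisymm (tupL_le _ _ _ _ fun l h _ _ => by rw [h]) (tupL_le _ _ _ _ fun l h _ _ => by rw [h])
    rw [this, tupL_mul, tupL_sym, powersetCard_eq_filter, sum_filter]
    have : (k.factorial : ℝ) ≠ 0 := by positivity
    field_simp
  rw [sum_congr rfl e1, ← mul_sum, sum_comm]
  congr 1
  have e2 : ∀ K ∈ (t.big x S).powerset,
      (∑ k ∈ range 4, if K.card = k then Hs t x K else 0) = Hs t x K := by
    intro K _
    rw [sum_ite_eq]
    split_ifs with hK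
    · rfl
    · unfold Hs
      split_ifs with h
      · refine (sum_eq_zero fun a ha => ?_).symm
        unfold hw2
        rw [if_neg]
        rintro ⟨-, h2⟩
        have a1 : (K.card : ℝ) * t.T ≤ ∑ p ∈ K, x p := by
          rw [← nsmul_eq_mul]; exact card_nsmul_le_sum _ _ _ h
        have a2 : (4 : ℝ) ≤ K.card := by exact_mod_cast not_lt.1 (mt mem_range.2 hK)
        have a3 : (a : ℝ) + 1 ≤ 4 * t.T := by
          exact_mod_cast (Nat.succ_le_of_lt (mem_Ico.1 ha).2).trans h4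
        nlinarith [(Nat.cast_nonneg t.T : (0 : ℝ) ≤ t.T)]
      · rfl
  rw [sum_congr rfl e2]
  unfold Tab.GH HT2 Hs
  rw [sum_comm, ← sum_filter]
  refine sum_congr ?_ fun _ _ => rfl
  ext K
  simp only [mem_filter, mem_powerset, Tab.big, subset_iff]
  have hT' : (t.Z : ℝ) ≤ t.T := by exact_mod_cast hT
  exact ⟨fun h p hp => ⟨(h.1 hp).1, h.2 p hp⟩,
    fun h => ⟨fun p hp => ⟨(h hp).1, hT'.trans (h hp).2⟩, fun p hp => (h hp).2⟩⟩

/-- The sieved terms. -/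
def Sl (t : Tab) (x : ℕ → ℝ) (r : ℝ) : List ℕ → ℝ
  | [] => 60 * t.A0 r
  | [p] => 60 * t.A1 (x p) r + 60 * t.lp ⌊x p⌋₊ (fr (x p))
  | _ => 0

section term

variable {B : Finset ℕ} {x : ℕ → ℝ} {r : ℝ} {P : Finset (Finset (Option (Option ℕ)))}
  {w : Finset (Option (Option ℕ)) → ℝ} {δ : Finset (Option (Option ℕ)) → ℕ → ℕ}
  {δ₀ d : Finset (Option (Option ℕ)) → ℕ}

lemma term_E (H : Rd B x r P w δ δ₀ d) (t : Tab) (hx : ∀ p ∈ B, 0 ≤ x p) (hr : 0 ≤ r)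
    (l : List ℕ) (hl : ∀ p ∈ l, p ∈ B) :
    60 * t.AE (l.map x) r ≤ ∑ ω ∈ P, w ω *
      (t.VE (l.map fun p => ⌊x p⌋₊) (l.map fun p => (δ ω p : ℤ)) ⌊r⌋₊ (δ₀ ω) : ℤ) := by
  refine (AE_le t _ (by simpa using fun p hp => hx p (hl p hp)) hr).trans (le_of_eq ?_)
  simp only [cast_VE, List.map_map, Function.comp_def, Int.cast_natCast]
  set cs := l.map fun p => ⌊x p⌋₊
  have h1 := fun co i => E_lin (P := P) (w := w) (β := fun p ω => (δ ω p : ℝ))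
    (u := fun p => fr (x p)) co l i fun p hp => H.e1 p (hl p hp)
  have h2 := fun co i => E_sec H.one co (β := fun p ω => (δ ω p : ℝ))
    (u := fun p => fr (x p)) H.e2 l i fun p hp => H.e1 p (hl p hp)
  rw [E_add, E_add]
  congr 1
  · congr 1
    · have := E_aff H.one (h1 (t.co cs 0) 1) H.e2 (60 * t.co cs 0 0) 60 0
      unfold m0
      rw [sum_congr rfl fun ω _ => ?_, this]
      · ring
      · ring
    · unfold m1
      rw [E_add, h2]
      congr 1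
      have := E_aff H.one (h1 (t.co cs 1) 1) H.e2 (60 * ⌊r⌋₊ * t.co cs 1 0) (60 * ⌊r⌋₊)
        (60 * t.co cs 1 0)
      rw [sum_congr rfl fun ω _ => ?_, this]
      · ring
      · ring
  · have e : ∀ v : ℝ, m23 (t.co cs 2 0) (t.co cs 3 0) ⌊r⌋₊ v =
        m23 (t.co cs 2 0) (t.co cs 3 0) ⌊r⌋₊ (0 : ℝ) + (m23 (t.co cs 2 0) (t.co cs 3 0) ⌊r⌋₊ (1 : ℝ) -
          m23 (t.co cs 2 0) (t.co cs 3 0) ⌊r⌋₊ (0 : ℝ)) * v + 0 * v := by
      intro v
      unfold m23 q2 q3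
      ring
    rw [e, ← E_aff H.one H.e2 H.e2]
    exact sum_congr rfl fun ω _ => by rw [← e]

lemma term_S (H : Rd B x r P w δ δ₀ d) (t : Tab) : ∀ (l : List ℕ), (∀ p ∈ l, p ∈ B) →
    Sl t x r l = ∑ ω ∈ P, w ω *
      (t.VS (l.map fun p => ⌊x p⌋₊) (l.map fun p => (δ ω p : ℤ)) ⌊r⌋₊ (δ₀ ω) : ℤ)
  | [], _ => by
    simp only [Sl, Tab.A0, List.map_nil, Tab.VS, Tab.l0]
    split_ifs
    · have := E_aff H.one H.e2 H.e2 (60 * t.s0 ⌊r⌋₊ 0) (-60 * t.s0 ⌊r⌋₊ 0) (60 * t.s0 ⌊r⌋₊ 1)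
      rw [sum_congr rfl fun ω _ => ?_, this]
      · ring
      · push_cast; ring
    · simp
  | [p], h => by
    have e1 := H.e1 p (h p List.mem_cons_self)
    simp only [Sl, Tab.A1, List.map_cons, List.map_nil, Tab.VS, Tab.l1, Tab.lp, Int.cast_add]
    rw [E_add]
    congr 1
    · split_ifs
      · have := E_aff H.one e1 H.e2 (60 * (t.s1 ⌊x p⌋₊ ⌊r⌋₊ 0 + t.s1 ⌊x p⌋₊ ⌊r⌋₊ 2))
          (60 * (t.s1 ⌊x p⌋₊ ⌊r⌋₊ 1 - t.s1 ⌊x p⌋₊ ⌊r⌋₊ 0))
          (60 * (t.s1 ⌊x p⌋₊ ⌊r⌋₊ 3 - t.s1 ⌊x p⌋₊ ⌊r⌋₊ 2))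
        rw [sum_congr rfl fun ω _ => ?_, this]
        · ring
        · push_cast; ring
      · simp
    · split_ifs
      · have := E_aff H.one e1 e1 (-60 * t.sl ⌊x p⌋₊ 0) (60 * t.sl ⌊x p⌋₊ 0) (-60 * t.sl ⌊x p⌋₊ 1)
        rw [sum_congr rfl fun ω _ => ?_, this]
        · ring
        · push_cast; ring
      · simp
  | _ :: _ :: _, _ => by simp [Sl, Tab.VS]

lemma term_H (H : Rd B x r P w δ δ₀ d) (t : Tab) (hx : ∀ p ∈ B, 0 ≤ x p) (l : List ℕ)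
    (h4 : l.length < 4) (hn : l.Nodup) (hl : ∀ p ∈ l, p ∈ B) :
    60 / (l.length.factorial : ℝ) * Hs t x l.toFinset ≤ ∑ ω ∈ P, w ω *
      (t.VH (l.map fun p => ⌊x p⌋₊) (l.map fun p => (δ ω p : ℤ)) : ℤ) := by
  have h0 : ∀ p ∈ l, 0 ≤ x p := fun p hp => hx p (hl p hp)
  have e0 : (∀ p ∈ l.toFinset, (t.T : ℝ) ≤ x p) ↔
      ((l.map fun p => ⌊x p⌋₊).all fun c => decide (t.T ≤ c)) = true := by
    simp only [List.mem_toFinset, List.all_map, List.all_eq_true, Function.comp_def,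
      decide_eq_true_eq]
    exact forall₂_congr fun p hp => (Nat.le_floor_iff (h0 p hp)).symm
  unfold Hs Tab.VH
  simp only [e0]
  split_ifs
  · have e1 : ((60 / (l.length.factorial : ℤ) : ℤ) : ℝ) = 60 / (l.length.factorial : ℝ) := by
      generalize l.length = k at h4
      interval_cases k <;> norm_num [Nat.factorial]
    simp only [List.length_map, Int.cast_mul, e1]
    rw [win_eq t x l hn h0, ← E_hv H.one t _ (fun p => ⌊x p⌋₊) (β := fun p ω => (δ ω p : ℝ)) l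
      fun p hp => H.e1 p (hl p hp), mul_sum]
    refine sum_le_sum fun ω _ => ?_
    rw [mul_left_comm]
    refine mul_le_mul_of_nonneg_left (mul_le_mul_of_nonneg_left ?_ (by positivity)) (H.pos ω)
    obtain ⟨a, b, -⟩ := sum_fr x l h0
    have e2 : ⌊(l.map x).sum⌋₊ = (l.map fun p => ⌊x p⌋₊).sum + ⌊(l.map fun p => fr (x p)).sum⌋₊ := by
      rw [← sum_fl, add_comm, Nat.floor_add_natCast a, add_comm]
    have := hm_ge t (l.map fun p => ⌊x p⌋₊) (l.map fun p => (δ ω p : ℤ)) (l.length - 1)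
      ⌊(l.map fun p => fr (x p)).sum⌋₊ (Nat.lt_succ_iff.1 ((Nat.floor_lt a).2 (by exact_mod_cast b)))
    have := (Int.cast_le (R := ℝ)).2 this
    rw [cast_hv, ← e2] at this
    simpa only [List.map_map, Function.comp_def, Int.cast_natCast] using this
  · simp

/-- The value at a vertex. -/
def FV (t : Tab) (s : Finset ℕ) (c δ : ℕ → ℕ) (ρ δ₀ : ℕ) : ℤ :=
  ∑ k ∈ range 4, tupL k (fun l => t.V (l.map c) (l.map fun p => (δ p : ℤ)) ρ δ₀) s

lemma G_le (t : Tab) (ht : t.Ok) {S : Finset ℕ} (hS : ∀ p ∈ S, 0 < x p)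
    (H : Rd (t.big x S) x (rr t.Z x S) P w δ δ₀ d) :
    60 * t.G x S ≤ ∑ ω ∈ P, w ω *
      (FV t (t.big x S) (fun p => ⌊x p⌋₊) (δ ω) ⌊rr t.Z x S⌋₊ (δ₀ ω) : ℤ) := by
  have hx : ∀ p ∈ t.big x S, 0 ≤ x p := fun p hp => (hS p (mem_filter.1 hp).1).le
  have hr : 0 ≤ rr t.Z x S := sum_nonneg fun p hp => (hS p (mem_filter.1 hp).1).le
  have e1 : 60 * t.G x S = ∑ k ∈ range 4, tupL k (fun l => 60 * t.AE (l.map x) (rr t.Z x S) +
      Sl t x (rr t.Z x S) l + 60 / (l.length.factorial : ℝ) * Hs t x l.toFinset) (t.big x S) := by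
    simp only [tupL_add, tupL_mul, sum_add_distrib, GH_eq t ht]
    have : ∑ k ∈ range 4, tupL k (fun l => Sl t x (rr t.Z x S) l) (t.big x S) =
        60 * (t.GS0 x S + t.GS1 x S + t.GP x S) := by
      simp [sum_range_succ, tupL, Sl, Tab.GS0, Tab.GS1, Tab.GP, sum_add_distrib, mul_add, mul_sum,
        add_assoc]
    rw [this, ← mul_sum]
    unfold Tab.G Tab.GE
    ring
  simp only [FV, Int.cast_sum, tupL_cast, mul_sum]
  rw [e1, sum_comm]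
  refine sum_le_sum fun k hk => ?_
  rw [← tupL_sum]
  refine tupL_le _ _ _ _ fun l h1 h2 h3 => ?_
  simp only [Tab.V, Int.cast_add]
  rw [E_add, E_add, ← term_S H t l h3]
  exact add_le_add (add_le_add (term_E H t hx hr l h3) le_rfl)
    (term_H H t hx l (h1 ▸ mem_range.1 hk) h2 h3)

end term

lemma FV_bd (t : Tab) (n : ℕ) : ∃ C : ℝ, ∀ (s : Finset ℕ) (c δ : ℕ → ℕ) (ρ δ₀ : ℕ), s.card ≤ n →
    (∀ p ∈ s, c p ≤ n ∧ δ p ≤ n) → ρ ≤ n → δ₀ ≤ n → (FV t s c δ ρ δ₀ : ℝ) ≤ C := by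
  have hA : {l : List ℕ | l.length ≤ 3 ∧ ∀ a ∈ l, a ≤ n}.Finite := by
    refine ((List.finite_length_le (Fin (n + 1)) 3).image (List.map Fin.val)).subset ?_
    rintro l ⟨h1, h2⟩
    refine ⟨l.map (Fin.ofNat (n + 1)), by simpa using h1, ?_⟩
    rw [List.map_map]
    conv_rhs => rw [← List.map_id l]
    exact List.map_congr_left fun a ha => by simpa using Nat.lt_succ_of_le (h2 a ha)
  obtain ⟨M, hM⟩ := (((hA.prod hA).prod ((Set.finite_Iic n).prod (Set.finite_Iic n))).image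
    fun q => ((t.V q.1.1 (q.1.2.map fun a : ℕ => (a : ℤ)) q.2.1 q.2.2 : ℤ) : ℝ)).bddAbove
  refine ⟨∑ k ∈ range 4, max M 0 * (n : ℝ) ^ k, fun s c δ ρ δ₀ h1 h2 h3 h4 => ?_⟩
  simp only [FV, Int.cast_sum, tupL_cast]
  refine sum_le_sum fun k hk => le_trans (tupL_le _ _ _ _ fun l a1 _ a3 => ?_)
    (tupL_const (le_max_right M 0) n k s h1)
  have hl : l.length ≤ 3 := by have := mem_range.1 hk; omega
  refine le_trans (hM ⟨((l.map c, l.map δ), (ρ, δ₀)), ⟨⟨⟨by simpa using hl, ?_⟩,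
    ⟨by simpa using hl, ?_⟩⟩, h3, h4⟩, ?_⟩) (le_max_left _ _)
  · simpa using fun p hp => (h2 p (a3 p hp)).1
  · simpa using fun p hp => (h2 p (a3 p hp)).2
  · simp only [List.map_map, Function.comp_def]

end Pt

open Pt in
theorem pt : PtStmt := by
  intro t b v θ ht hL hv hb hθ
  have hZ : 1 ≤ t.Z := ht.1
  have hQ : 1 ≤ t.Q := hZ.trans ht.2.1
  obtain ⟨C₀, hC₀⟩ := FV_bd t (2 * t.Q + 1)
  set C := max C₀ b with hC
  have hCb : 0 ≤ C - b := sub_nonneg.2 (le_max_right _ _)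
  obtain ⟨κ, κ0, κ1, κ2, κ3⟩ : ∃ κ : ℝ, 0 < κ ∧ κ < 1 ∧ θ * t.Q + κ < t.Θ ∧
      b + (C - b) * κ < 60 * v := by
    have c1 : ∀ᶠ κ : ℝ in nhds 0, κ < 1 := eventually_lt_nhds one_pos
    have c2 : ∀ᶠ κ : ℝ in nhds 0, θ * t.Q + κ < t.Θ :=
      ContinuousAt.eventually_lt (by fun_prop) (by fun_prop) (by simpa using hθ)
    have c3 : ∀ᶠ κ : ℝ in nhds 0, b + (C - b) * κ < 60 * v :=
      ContinuousAt.eventually_lt (by fun_prop) (by fun_prop) (by simpa using hb)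
    obtain ⟨κ, ⟨a, b, c⟩, d⟩ := (((c1.and (c2.and c3)).filter_mono nhdsWithin_le_nhds).and
      (self_mem_nhdsWithin (s := Set.Ioi (0 : ℝ)))).exists
    exact ⟨κ, d, a, b, c⟩
  refine ⟨t.Q, θ * t.Q, κ, v, (b + (C - b) * κ) / 60, C / 60, t.G, hQ, le_rfl, κ0, by linarith, hv,
    fun x S hS hs => ?_⟩
  have hx : ∀ p ∈ t.big x S, 0 ≤ x p := fun p hp => (hS p (mem_filter.1 hp).1).le
  have hr : 0 ≤ rr t.Z x S := sum_nonneg fun p hp => (hS p (mem_filter.1 hp).1).le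
  have hA : rr t.Z x S + ∑ p ∈ t.big x S, x p = ∑ p ∈ S, x p := by
    rw [← sum_filter_add_sum_filter_not S (fun p => x p < (t.Z : ℝ))]
    simp only [not_lt]; rfl
  obtain ⟨P, w, δ, δ₀, d, H⟩ := exists_rd (t.big x S) x hx hr
  have hG := G_le t ht hS H
  have fl : ∀ y : ℝ, y ≤ 2 * t.Q + 1 → ⌊y⌋₊ ≤ 2 * t.Q + 1 := fun y hy =>
    Nat.floor_le_of_le (by exact_mod_cast hy)
  have hB0 : 0 ≤ ∑ p ∈ t.big x S, x p := sum_nonneg hx
  have hcard : (t.big x S).card ≤ 2 * t.Q + 1 := by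
    have a1 : ((t.big x S).card : ℝ) * 1 ≤ ∑ p ∈ t.big x S, x p := by
      rw [← nsmul_eq_mul]
      exact card_nsmul_le_sum _ _ _ fun p hp =>
        le_trans (by exact_mod_cast hZ) (mem_filter.1 hp).2
    have : ((t.big x S).card : ℝ) ≤ 2 * t.Q + 1 := by linarith
    exact_mod_cast this
  have hF : ∀ ω, (FV t (t.big x S) (fun p => ⌊x p⌋₊) (δ ω) ⌊rr t.Z x S⌋₊ (δ₀ ω) : ℝ) ≤ C := by
    intro ω
    refine le_trans (hC₀ _ _ _ _ _ hcard (fun p hp => ⟨fl _ ?_, (H.b1 ω p).trans (by omega)⟩)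
      (fl _ (by linarith)) ((H.b2 ω).trans (by omega))) (le_max_left _ _)
    linarith [single_le_sum hx hp]
  have mean : ∀ {c₀ c₁ : ℝ}, (∀ ω ∈ P, (FV t (t.big x S) (fun p => ⌊x p⌋₊) (δ ω) ⌊rr t.Z x S⌋₊
      (δ₀ ω) : ℝ) ≤ c₀ + c₁ * d ω) →
      60 * t.G x S ≤ c₀ + c₁ * (⌈∑ p ∈ S, x p⌉₊ - ∑ p ∈ S, x p) := by
    intro c₀ c₁ h
    have := E_aff H.one H.e3 H.e3 c₀ c₁ 0
    simp only [zero_mul, add_zero, hA] at this
    rw [← this]
    exact hG.trans (sum_le_sum fun ω hω => mul_le_mul_of_nonneg_left (h ω hω) (H.pos ω))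
  refine ⟨by linarith [mean (c₀ := C) (c₁ := 0) fun ω _ => by simpa using hF ω],
    fun h1 h2 h3 => ?_⟩
  have good : ∀ ω ∈ P, 2 * t.Q + d ω = ⌈∑ p ∈ S, x p⌉₊ →
      (FV t (t.big x S) (fun p => ⌊x p⌋₊) (δ ω) ⌊rr t.Z x S⌋₊ (δ₀ ω) : ℝ) ≤ b := by
    intro ω hω h
    have a1 := H.tot ω hω
    rw [hA] at a1
    refine Int.cast_le.2 (hL _ _ _ _ _ (fun p hp => ⟨Nat.le_floor (mem_filter.1 hp).2,
      (Nat.floor_lt (hx p hp)).2 ?_, H.b1 ω p⟩) (H.b2 ω) (by omega))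
    linarith [h1 p (mem_filter.1 hp).1]
  have hQ' : (1 : ℝ) ≤ t.Q := by exact_mod_cast hQ
  rcases le_or_gt (∑ p ∈ S, x p) (2 * t.Q) with h | h
  · have e : ⌈∑ p ∈ S, x p⌉₊ = 2 * t.Q := by
      rw [Nat.ceil_eq_iff (by omega), Nat.cast_sub (by omega)]
      push_cast
      exact ⟨by linarith, h⟩
    have := mean (c₀ := b) (c₁ := C - b) fun ω hω => by
      rcases Nat.le_one_iff_eq_zero_or_eq_one.1 (H.b3 ω) with e0 | e0
      · simpa [e0] using good ω hω (by omega)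
      · simpa [e0] using hF ω
    rw [e] at this
    push_cast at this
    nlinarith
  · have e : ⌈∑ p ∈ S, x p⌉₊ = 2 * t.Q + 1 := by
      rw [Nat.ceil_eq_iff (by omega), Nat.add_sub_cancel]
      push_cast
      exact ⟨h, hs⟩
    have := mean (c₀ := C) (c₁ := b - C) fun ω hω => by
      rcases Nat.le_one_iff_eq_zero_or_eq_one.1 (H.b3 ω) with e0 | e0
      · simpa [e0] using hF ω
      · simpa [e0] using good ω hω (by omega)
    rw [e] at this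
    push_cast at this
    nlinarith

end Pool.Agent.Lib.MP_4b1228_nt.PP.R4
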