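import Pool.Agent.Lib.MP_4b1228_nt.PP.R5S
import Pool.Agent.Lib.MP_4b1228_nt.PP.RndN
import Pool.Agent.Lib.MP_4b1228_nt.PP.R4Pt

/-!
Certificates on two scales: the term of a triple.
-/

open Finset
open scoped Classical

noncomputable section

namespace Pool.Agent.Lib.MP_4b1228_nt.PP.R5

open R4

namespace T3

lemma ml3_mono {A G : ℕ → ℕ → ℕ → ℝ} (h : ∀ a ≤ 1, ∀ b ≤ 1, ∀ d ≤ 1, A a b d ≤ G a b d)
    {a b d : ℝ} (a0 : 0 ≤ a) (a1 : a ≤ 1) (b0 : 0 ≤ b) (b1 : b ≤ 1) (d0 : 0 ≤ d) (d1 : d ≤ 1) :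
    R5M.ml3 A a b d ≤ R5M.ml3 G a b d := by
  have a2 := sub_nonneg.2 a1
  have b2 := sub_nonneg.2 b1
  have d2 := sub_nonneg.2 d1
  have z := Nat.zero_le 1
  have o := le_refl 1
  unfold R5M.ml3 R5M.ml2
  gcongr <;> apply h <;> assumption

lemma ml3_const (c a b d : ℝ) : R5M.ml3 (fun _ _ _ => c) a b d = c := by
  unfold R5M.ml3 R5M.ml2
  ring

lemma fr_div {μ : ℕ} (hμ : 1 ≤ μ) (x : ℝ) : fr (x / μ) = ((⌊x⌋₊ % μ : ℕ) + fr x) / μ := by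
  have h0 : (μ : ℝ) ≠ 0 := by positivity
  have h1 : ((⌊x⌋₊ : ℕ) : ℝ) = μ * (⌊x⌋₊ / μ : ℕ) + (⌊x⌋₊ % μ : ℕ) := by
    exact_mod_cast (Nat.div_add_mod _ _).symm
  unfold fr
  rw [Nat.floor_div_natCast]
  field_simp
  linarith

lemma cast_L3 {μ : ℕ} (hμ : 1 ≤ μ) (F : ℕ → ℕ → ℕ → ℤ) (θ : ℕ → Bool) (a b d : ℤ) :
    ((L3 μ F θ a b d : ℤ) : ℝ) = μ ^ 3 * R5M.lam3 (fun i j k => (F i j k : ℝ))
      (mm (fun i j => F i j 0) (fun i j => F i j 1) : ℤ)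
      (mm (fun i k => F i 0 k) (fun i k => F i 1 k) : ℤ)
      (mm (fun j k => F 0 j k) (fun j k => F 1 j k) : ℤ)
      (bz (θ 0) : ℤ) (bz (θ 1) : ℤ) (bz (θ 2) : ℤ) (a / μ) (b / μ) (d / μ) := by
  have h0 : (μ : ℝ) ≠ 0 := by positivity
  unfold L3 ML2 gp R5M.lam3 R5M.ml3 R5M.ml2 R5M.gap
  generalize mm (fun i j => F i j 0) _ = m₁
  generalize mm (fun i k => F i 0 k) _ = m₂
  generalize mm (fun j k => F 0 j k) _ = m₃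
  push_cast
  field_simp
  ring

lemma lam3_ml (F : ℕ → ℕ → ℕ → ℝ) (m₁ m₂ m₃ θ₁ θ₂ θ₃ p q s ν a b d : ℝ) :
    R5M.ml3 (fun i j k => R5M.lam3 F m₁ m₂ m₃ θ₁ θ₂ θ₃ ((p + i) * ν) ((q + j) * ν) ((s + k) * ν))
      a b d = R5M.lam3 F m₁ m₂ m₃ θ₁ θ₂ θ₃ ((p + a) * ν) ((q + b) * ν) ((s + d) * ν) := by
  unfold R5M.lam3 R5M.ml3 R5M.ml2 R5M.gap
  push_cast
  ring

lemma mm_ge (F G : ℕ → ℕ → ℤ) : (0 : ℝ) ≤ (mm F G : ℤ) ∧
    R5M.mx (fun i j => (F i j : ℝ)) ≤ (mm F G : ℤ) ∧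
    R5M.mx (fun i j => (G i j : ℝ)) ≤ (mm F G : ℤ) := by
  have h0 : 0 ≤ mm F G := le_max_left _ _
  have h1 : mx F ≤ mm F G := (le_max_left _ _).trans (le_max_right _ _)
  have h2 : mx G ≤ mm F G := (le_max_right _ _).trans (le_max_right _ _)
  unfold mx at h1 h2
  simp only [R5M.mx]
  exact ⟨by exact_mod_cast h0, by exact_mod_cast h1, by exact_mod_cast h2⟩

lemma bz_mem (b : Bool) : (0 : ℝ) ≤ (bz b : ℤ) ∧ ((bz b : ℤ) : ℝ) ≤ 1 := by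
  cases b <;> simp [bz]

/-- The term as a function of the fractional parts. -/
def af (t : Tab) (n X Y Z : ℕ) (a b d : ℝ) : ℝ :=
  (mul3 X Y Z : ℤ) * (t.co [X, Y, Z] 0 0 + lin (t.co [X, Y, Z] 0) [a, b, d] 1) +
    if [X, Y, Z].all (fun c => decide (t.T ≤ c)) then t.hv n [X, Y, Z] [a, b, d] else 0

lemma af_ml (t : Tab) (n X Y Z : ℕ) (a b d : ℝ) :
    af t n X Y Z a b d = R5M.ml3 (fun i j k => af t n X Y Z i j k) a b d := by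
  unfold af R5M.ml3 R5M.ml2 Tab.hv
  simp only [lin, Tab.marks, List.sum_cons, List.sum_nil]
  split_ifs <;> push_cast <;> ring

lemma af_le (t : Tab) {o : ℕ} (ho : o ≤ 2) (X Y Z a b d : ℕ) :
    af t ([X, Y, Z].sum + o) X Y Z a b d ≤ ((mul3 X Y Z * ev t [X, Y, Z] 0 [a, b, d] +
      hx t [X, Y, Z] [a, b, d] : ℤ) : ℝ) := by
  unfold af ev hx
  push_cast [Pt.cast_lin]
  refine add_le_add (le_of_eq (by simp)) ?_
  split_ifs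
  · have h := (Int.cast_le (R := ℝ)).2 (Pt.hm_ge t [X, Y, Z] [a, b, d] 2 o ho)
    rw [Pt.cast_hv] at h
    simpa using h
  · exact le_rfl

lemma AE_eq {t : Tab} {c : Co} (hc : c.Ok t) (x y z r : ℝ) :
    t.AE [x, y, z] r = t.co [⌊x⌋₊, ⌊y⌋₊, ⌊z⌋₊] 0 0 +
      lin (t.co [⌊x⌋₊, ⌊y⌋₊, ⌊z⌋₊] 0) [fr x, fr y, fr z] 1 := by
  have h : ∀ j b, 1 ≤ j → t.co [⌊x⌋₊, ⌊y⌋₊, ⌊z⌋₊] j b = 0 := fun j b hj => by
    unfold Tab.co
    rw [hc.2.2.2.2.2.2.2.2.2.2.2 _ _ _ j b (Or.inr (Or.inr hj)), ite_self]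
  unfold Tab.AE
  simp [sum_range_succ, lin, h]

end T3

open T3 Rnd in
/-- The term of a triple, for a law with negative dependence of three coordinates. -/
theorem t3' {α : Type*} {s : Finset α} {k : ℕ} {u : α → ℝ} {w : Finset α → ℝ} {i j l : α}
    (H : Law s k u w) (hi : i ∈ s) (hj : j ∈ s) (hl : l ∈ s)
    (n₁ : both s k w i j ≤ u i * u j) (n₂ : both s k w i l ≤ u i * u l)
    (n₃ : both s k w j l ≤ u j * u l) (n₄ : R5M.up3 s k w i j l ≤ u i * u j * u l)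
    (n₅ : R5M.dn3 s k w i j l ≤ (1 - u i) * (1 - u j) * (1 - u l))
    {t : Tab} {c : Co} (hc : c.Ok t) {x y z : ℝ} (r : ℝ) (hx : 0 ≤ x) (hy : 0 ≤ y) (hz : 0 ≤ z)
    (ui : u i = R4.fr (x / c.μ)) (uj : u j = R4.fr (y / c.μ)) (ul : u l = R4.fr (z / c.μ))
    (hC : c.C3 t ⌊x⌋₊ ⌊y⌋₊ ⌊z⌋₊) :
    (mul3 ⌊x⌋₊ ⌊y⌋₊ ⌊z⌋₊ : ℤ) * t.AE [x, y, z] r +
      (if [⌊x⌋₊, ⌊y⌋₊, ⌊z⌋₊].all (fun c => decide (t.T ≤ c)) then
        t.hv ⌊[x, y, z].sum⌋₊ [⌊x⌋₊, ⌊y⌋₊, ⌊z⌋₊] [R4.fr x, R4.fr y, R4.fr z] else 0) ≤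
      c.Λ * ∑ T ∈ powersetCard k s, w T * (c.F3 (⌊x⌋₊ / c.μ + R5M.bt T i)
        (⌊y⌋₊ / c.μ + R5M.bt T j) (⌊z⌋₊ / c.μ + R5M.bt T l) : ℤ) := by
  obtain ⟨a0, a1⟩ := Pt.fr_mem hx
  obtain ⟨b0, b1⟩ := Pt.fr_mem hy
  obtain ⟨d0, d1⟩ := Pt.fr_mem hz
  have hμ := hc.1
  have hμ' : (0 : ℝ) < c.μ := by exact_mod_cast hμ
  have hΛ : (0 : ℝ) ≤ c.Λ := Nat.cast_nonneg _
  have e : ⌊[x, y, z].sum⌋₊ =
      [⌊x⌋₊, ⌊y⌋₊, ⌊z⌋₊].sum + ⌊R4.fr x + R4.fr y + R4.fr z⌋₊ := by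
    rw [add_comm, ← Nat.floor_add_natCast (by linarith)]
    congr 1
    simp only [List.sum_cons, List.sum_nil, R4.fr]
    push_cast
    ring
  have ho : ⌊R4.fr x + R4.fr y + R4.fr z⌋₊ ≤ 2 :=
    Nat.lt_succ_iff.1 ((Nat.floor_lt (by linarith)).2 (by push_cast; linarith))
  rw [AE_eq hc, e]
  generalize ⌊R4.fr x + R4.fr y + R4.fr z⌋₊ = o at ho
  rw [fr_div hμ] at ui uj ul
  generalize ⌊x⌋₊ = X at *
  generalize ⌊y⌋₊ = Y at *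
  generalize ⌊z⌋₊ = Z at *
  change af t _ X Y Z _ _ _ ≤ _
  rw [af_ml]
  rcases hC with h | h
  · obtain ⟨p₁, q₁, r₁⟩ := mm_ge (fun i j => c.F3 (X / c.μ + i) (Y / c.μ + j) (Z / c.μ + 0))
      fun i j => c.F3 (X / c.μ + i) (Y / c.μ + j) (Z / c.μ + 1)
    obtain ⟨p₂, q₂, r₂⟩ := mm_ge (fun i k => c.F3 (X / c.μ + i) (Y / c.μ + 0) (Z / c.μ + k))
      fun i k => c.F3 (X / c.μ + i) (Y / c.μ + 1) (Z / c.μ + k)
    obtain ⟨p₃, q₃, r₃⟩ := mm_ge (fun j k => c.F3 (X / c.μ + 0) (Y / c.μ + j) (Z / c.μ + k))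
      fun j k => c.F3 (X / c.μ + 1) (Y / c.μ + j) (Z / c.μ + k)
    have h1 := R5M.lam3_le' H hi hj hl n₁ n₂ n₃ n₄ n₅
      (fun i j k => (c.F3 (X / c.μ + i) (Y / c.μ + j) (Z / c.μ + k) : ℝ)) p₁ p₂ p₃ q₁ r₁ q₂ r₂ q₃ r₃
      (bz_mem (c.th [X, Y, Z] 0)).1 (bz_mem _).2 (bz_mem (c.th [X, Y, Z] 1)).1 (bz_mem _).2
      (bz_mem (c.th [X, Y, Z] 2)).1 (bz_mem _).2
    refine le_trans ?_ (mul_le_mul_of_nonneg_left h1 hΛ)
    rw [ui, uj, ul, div_eq_mul_inv, div_eq_mul_inv, div_eq_mul_inv, ← lam3_ml]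
    have e2 : ∀ (G : ℕ → ℕ → ℕ → ℝ) (a b d : ℝ),
        c.Λ * R5M.ml3 G a b d = R5M.ml3 (fun i j k => c.Λ * G i j k) a b d := fun G a b d => by
      unfold R5M.ml3 R5M.ml2
      ring
    rw [e2]
    refine ml3_mono (fun a ha b hb d hd => (af_le t ho X Y Z a b d).trans ?_) a0 a1.le b0 b1.le
      d0 d1.le
    have h2 := (Int.cast_le (R := ℝ)).2 (h a ha b hb d hd)
    rw [Int.cast_mul, Int.cast_mul (c.Λ : ℤ), cast_L3 hμ] at h2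
    simp only [Co.ps, Int.cast_natCast, Nat.cast_add, Int.cast_add, Int.cast_pow,
      div_eq_mul_inv] at h2 ⊢
    refine le_of_mul_le_mul_left ?_ (pow_pos hμ' 3)
    rw [mul_left_comm] at h2
    exact h2
  · rw [mul_sum]
    simp only [mul_left_comm (c.Λ : ℝ)]
    refine R5M.ge H fun T _ => ?_
    rw [← ml3_const (c.Λ * _) (R4.fr x) (R4.fr y) (R4.fr z)]
    refine ml3_mono (fun a ha b hb d hd => (af_le t ho X Y Z a b d).trans ?_) a0 a1.le b0 b1.le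
      d0 d1.le
    exact_mod_cast h a ha b hb d hd _ (R5M.bt_le T i) _ (R5M.bt_le T j) _ (R5M.bt_le T l)

open Rnd in
/-- The term of a triple for any class of negatively dependent laws. -/
theorem t3G {α : Type} (N : Cls α) (h1 : ∀ s k u w, N s k u w → Law s k u w)
    (h2 : ∀ s k u w, N s k u w → ∀ i ∈ s, ∀ j ∈ s, i ≠ j → both s k w i j ≤ u i * u j)
    (h3 : ∀ s k u w, N s k u w → ∀ i ∈ s, ∀ j ∈ s, ∀ l ∈ s, i ≠ j → i ≠ l → j ≠ l →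
      R5M.up3 s k w i j l ≤ u i * u j * u l ∧
      R5M.dn3 s k w i j l ≤ (1 - u i) * (1 - u j) * (1 - u l)) : T3S N := by
  intro t c s k u w _ hc H i hi j hj l hl hij hil hjl x y z r hx hy hz ui uj ul hC
  obtain ⟨n₄, n₅⟩ := h3 s k u w H i hi j hj l hl hij hil hjl
  have h := t3' (h1 s k u w H) hi hj hl (h2 s k u w H i hi j hj hij) (h2 s k u w H i hi l hl hil)
    (h2 s k u w H j hj l hl hjl) n₄ n₅ hc r hx hy hz ui uj ul hC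
  have e : (∀ v ∈ [x, y, z], (t.T : ℝ) ≤ v) ↔
      ([⌊x⌋₊, ⌊y⌋₊, ⌊z⌋₊].all fun c => decide (t.T ≤ c)) = true := by
    simp [Nat.le_floor_iff hx, Nat.le_floor_iff hy, Nat.le_floor_iff hz]
  simp only [Hv, e, Nat.floor_div_natCast]
  exact h

theorem t3S {α : Type} : T3S (α := α) Rnd.NLaw := by
  refine t3G _ (fun _ _ _ _ H => H.1) (fun _ _ _ _ H _ hi _ hj hij => H.both_le hi hj hij)
    fun s k u w H i hi j hj l hl hij hil hjl => ?_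
  have hA : ({i, j, l} : Finset α) ⊆ s :=
    insert_subset hi (insert_subset hj (singleton_subset_iff.2 hl))
  have hn : i ∉ ({j, l} : Finset α) := by simp [hij, hil]
  have a := H.2.1 _ hA
  have b := H.2.2 _ hA
  rw [prod_insert hn, prod_pair hjl, ← mul_assoc] at a b
  refine ⟨le_trans (le_of_eq (sum_congr ?_ fun _ _ => rfl)) a,
    le_trans (le_of_eq (sum_congr ?_ fun _ _ => rfl)) b⟩
  · ext T
    simp [insert_subset_iff]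
  · ext T
    simp

end Pool.Agent.Lib.MP_4b1228_nt.PP.R5
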