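import Pool.Agent.Lib.MP_4b1228_nt.PP.R5Pt
import Pool.Agent.Lib.MP_4b1228_nt.PP.R5M
import Pool.Agent.Lib.MP_4b1228_nt.PP.R5T1
import Pool.Agent.Lib.MP_4b1228_nt.PP.R5T3

/-!
Certificates on two scales: the closed statements.
-/

namespace Pool.Agent.Lib.MP_4b1228_nt.PP.R5

open R3

theorem pt5 : Pt5Stmt := pt5N exS t0S t1S tIS t2S t3S

theorem pt6 (hR : RowQStmt) (hP : PStmt) : Pt6Stmt := pt6N hR hP exS t0S t1S tIS t2S t3S

end Pool.Agent.Lib.MP_4b1228_nt.PP.R5
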