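import Pool.Agent.Lib.MP_4b1228_nt.PP.Asm4
import Pool.Agent.Lib.MP_4b1228_nt.PP.R5A

/-!
From checked tables on two scales to the theorem.
-/

open Finset

namespace Pool.Agent.Lib.MP_4b1228_nt.PP.R5

open R3 R4 Asm

/-- Checked tables are a certificate. -/
theorem cert5 (t : Tab) (c : Co) (n : Enc) (vH : ℕ → ℚ) {θ : ℝ} {b w wP wH : ℤ}
    (ht : t.Ok) (hs : t.Sd) (hc : c.Ok t) (hl : c.Loc t) (hb : c.Lat b) (oL : n.OkL)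
    (oF : n.OkF 320 LS.Fu LS.fl) (oW : n.OkW t)
    (oH : ∀ a ∈ Ico t.a₀ t.a₁, LawH2 t.T a (a + 1) (t.ψ a) (t.W a) (vH a))
    (hw : (w : ℚ) ≤ t.vE n 0 + t.vE n 1 + t.vE n 2 + t.vE n 3 + t.vS0 n + t.vS1 n)
    (hP : (wP : ℚ) ≤ t.vP3) (hH : (wH : ℚ) ≤ ∑ a ∈ Ico t.a₀ t.a₁, vH a)
    (hv : c.Λ * b < w + wP + wH) (hθ : θ * c.Q ≤ c.Θ) (h1 : c.Q < c.Θ) (h2 : 2 * c.Θ < 3 * c.Q) :
    Cert3 θ := by
  have a := rowG3 t n _ ht hs oL oF oW oH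
  refine pt6 rq rP t c b _ θ ht hc hl hb a ?_ hθ h1 h2
  have e := (Rat.cast_le (K := ℝ)).2 (add_le_add (add_le_add hw hP) hH)
  have e4 := (Int.cast_lt (R := ℝ)).2 hv
  push_cast at e e4 ⊢
  linarith

end Pool.Agent.Lib.MP_4b1228_nt.PP.R5
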