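import Pool.Agent.Lib.MP_4b1228_nt.PP.CtD

/-!
A function of the pattern of classes is a majorant of the form `Psi`.
-/

open Finset Real
open scoped Classical

noncomputable section

namespace Pool.Agent.Lib.MP_4b1228_nt.PP.Ct

namespace C1

/-- The pattern of an integer. -/
def pt (cls : ℕ → ℕ) (d : ℕ) : Multiset ℕ := d.primeFactors.val.map cls

lemma sum_pset (cls : ℕ → ℕ) (S : Finset ℕ) (G : Multiset ℕ → ℝ) :
    ∑ T ∈ S.powerset, G (T.val.map cls) = ((S.val.map cls).powerset.map G).sum := by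
  induction S using Finset.induction_on generalizing G with
  | empty => simp
  | insert a S ha ih =>
    rw [sum_powerset_insert ha, insert_val_of_notMem ha, Multiset.map_cons, Multiset.powerset_cons,
      Multiset.map_add, Multiset.sum_add, Multiset.map_map, ← ih, ← ih]
    congr 1
    refine sum_congr rfl fun T hT => ?_
    rw [insert_val_of_notMem (notMem_mono (mem_powerset.1 hT) ha), Multiset.map_cons]
    rfl

lemma sum_dvs {k : ℕ} (hk : Squarefree k) (G : Finset ℕ → ℝ) :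
    ∑ d ∈ k.divisors, G d.primeFactors = ∑ T ∈ k.primeFactors.powerset, G T := by
  refine sum_nbij' (fun d => d.primeFactors) (fun T => ∏ p ∈ T, p) ?_ ?_ ?_ ?_ fun _ _ => rfl
  · intro d hd
    exact mem_powerset.2 (Nat.primeFactors_mono (Nat.dvd_of_mem_divisors hd) hk.ne_zero)
  · intro T hT
    refine Nat.mem_divisors.2 ⟨?_, hk.ne_zero⟩
    exact (prod_dvd_prod_of_subset _ _ _ (mem_powerset.1 hT)).trans (Nat.prod_primeFactors_dvd k)
  · intro d hd
    exact Nat.prod_primeFactors_of_squarefree (hk.squarefree_of_dvd (Nat.dvd_of_mem_divisors hd))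
  · intro T hT
    exact Nat.primeFactors_prod fun p hp => Nat.prime_of_mem_primeFactors (mem_powerset.1 hT hp)

lemma sum_pt (cls : ℕ → ℕ) {k : ℕ} (hk : Squarefree k) (G : Multiset ℕ → ℝ) :
    ∑ d ∈ k.divisors, G (pt cls d) = ((pt cls k).powerset.map G).sum := by
  unfold pt
  rw [← sum_pset]
  exact sum_dvs hk fun T => G (T.val.map cls)

lemma pt_mul (cls : ℕ → ℕ) {a b : ℕ} (h : Squarefree (a * b)) :
    pt cls a + pt cls b = pt cls (a * b) := by
  have hc := Nat.coprime_of_squarefree_mul h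
  unfold pt
  rw [hc.primeFactors_mul, ← disjUnion_eq_union _ _ hc.disjoint_primeFactors, ← Multiset.map_add]
  rfl

lemma sum_ind (m : Multiset (Multiset ℕ)) (a : Multiset ℕ) (c : ℝ) :
    (m.map fun v => if v = a then c else 0).sum = m.count a * c := by
  induction m using Multiset.induction_on with
  | empty => simp
  | cons b m ih =>
    rw [Multiset.map_cons, Multiset.sum_cons, ih, Multiset.count_cons]
    by_cases h : b = a
    · simp only [h, if_true]
      push_cast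
      ring
    · simp [h, Ne.symm h]

lemma spread (Φ : Multiset ℕ → ℝ) (R : Multiset ℕ → Multiset ℕ → Prop)
    (h : ∀ δ, Φ δ ≠ 0 → ∃ v, v ≤ δ ∧ R δ v) :
    ∃ φ : Multiset ℕ → Multiset ℕ → ℝ, (∀ δ, (δ.powerset.map (φ δ)).sum = Φ δ) ∧
      ∀ δ v, φ δ v ≠ 0 → R δ v := by
  have h' : ∀ δ, ∃ v, v ≤ δ ∧ (Φ δ ≠ 0 → R δ v) := by
    intro δ
    by_cases h0 : Φ δ = 0
    · exact ⟨0, Multiset.zero_le _, fun h1 => absurd h0 h1⟩
    · obtain ⟨v, h1, h2⟩ := h δ h0
      exact ⟨v, h1, fun _ => h2⟩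
  choose sel h1 h2 using h'
  refine ⟨fun δ v => if v = sel δ then Φ δ / δ.powerset.count (sel δ) else 0, fun δ => ?_,
    fun δ v hv => ?_⟩
  · rw [sum_ind]
    have : (δ.powerset.count (sel δ) : ℝ) ≠ 0 := by
      exact_mod_cast Multiset.count_ne_zero.2 (Multiset.mem_powerset.2 (h1 δ))
    field_simp
  · dsimp only at hv
    split_ifs at hv with h3
    · rw [h3]
      exact h2 δ fun h0 => hv (by rw [h0, zero_div])
    · exact absurd rfl hv

lemma sum_sz {X : ℝ} (Q : ℕ) {d : ℕ} (hd : Squarefree d) :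
    ∑ p ∈ d.primeFactors, sz X Q p = Q * log d / log X := by
  conv_rhs => rw [← Nat.prod_primeFactors_of_squarefree hd]
  rw [Nat.cast_prod, Real.log_prod fun p hp => by
    exact_mod_cast (Nat.prime_of_mem_primeFactors hp).ne_zero, mul_sum, sum_div]
  rfl

lemma le_of_hi {t cls : ℕ → ℕ} {X : ℝ} (hX : 1 < X) {Q W d : ℕ} (hQ : 1 ≤ Q) (hd : Squarefree d)
    (h : ∀ p ∈ d.primeFactors, sz X Q p ≤ t (cls p + 1)) (hW : hi t (pt cls d) ≤ W) :
    (d : ℝ) ≤ X ^ ((W : ℝ) / Q) := by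
  have h0 : (0 : ℝ) < d := by exact_mod_cast Nat.pos_of_ne_zero hd.ne_zero
  have hQ0 : (0 : ℝ) < Q := by exact_mod_cast hQ
  have h1 : (hi t (pt cls d) : ℝ) = ∑ p ∈ d.primeFactors, (t (cls p + 1) : ℝ) := by
    unfold hi pt
    rw [Multiset.map_map, ← Nat.cast_sum]
    rfl
  have h2 := sum_le_sum h
  have h3 : (hi t (pt cls d) : ℝ) ≤ W := by exact_mod_cast hW
  rw [sum_sz Q hd, ← h1, div_le_iff₀ (Real.log_pos hX)] at h2
  rw [Real.le_rpow_iff_log_le h0 (by linarith), div_mul_eq_mul_div, le_div_iff₀ hQ0]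
  nlinarith [Real.log_pos hX]

lemma ge_of_lo {t cls : ℕ → ℕ} {X : ℝ} (hX : 1 < X) {Q W d : ℕ} (hQ : 1 ≤ Q) (hd : Squarefree d)
    (h : ∀ p ∈ d.primeFactors, (t (cls p) : ℝ) ≤ sz X Q p) (hW : W ≤ lo t (pt cls d)) :
    X ^ ((W : ℝ) / Q) ≤ d := by
  have h0 : (0 : ℝ) < d := by exact_mod_cast Nat.pos_of_ne_zero hd.ne_zero
  have hQ0 : (0 : ℝ) < Q := by exact_mod_cast hQ
  have h1 : (lo t (pt cls d) : ℝ) = ∑ p ∈ d.primeFactors, (t (cls p) : ℝ) := by
    unfold lo pt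
    rw [Multiset.map_map, ← Nat.cast_sum]
    rfl
  have h2 := sum_le_sum h
  have h3 : (W : ℝ) ≤ lo t (pt cls d) := by exact_mod_cast hW
  rw [sum_sz Q hd, ← h1, le_div_iff₀ (Real.log_pos hX)] at h2
  rw [Real.rpow_le_iff_le_log (by linarith) h0, div_mul_eq_mul_div, div_le_iff₀ hQ0]
  nlinarith [Real.log_pos hX]

/-- The finite set of patterns that occur. -/
def EE (N M : ℕ) : Finset (Multiset ℕ) := (M • (range N).val).powerset.toFinset

lemma mem_EE {cls : ℕ → ℕ} {N M d : ℕ} (h1 : d.primeFactors.card ≤ M)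
    (h2 : ∀ p ∈ d.primeFactors, cls p < N) : pt cls d ∈ EE N M := by
  unfold EE
  rw [Multiset.mem_toFinset, Multiset.mem_powerset, Multiset.le_iff_count]
  intro a
  by_cases ha : a ∈ pt cls d
  · obtain ⟨p, hp, rfl⟩ := Multiset.mem_map.1 ha
    rw [Multiset.count_nsmul, Multiset.count_eq_one_of_mem (range N).nodup
      (mem_range.2 (h2 p hp)), mul_one]
    refine (Multiset.count_le_card _ _).trans ?_
    unfold pt
    rw [Multiset.card_map]
    exact h1
  · rw [Multiset.count_eq_zero_of_notMem ha]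
    exact Nat.zero_le _

lemma pick (e : Multiset ℕ × Multiset ℕ ≃ ℕ) (F : Finset (Multiset ℕ × Multiset ℕ)) {B : ℕ}
    (hB : ∀ p ∈ F, e p < B) (c : Multiset ℕ × Multiset ℕ → ℝ) {a b : Multiset ℕ} (hab : (a, b) ∈ F)
    (P₁ P₂ : Prop) [Decidable P₁] [Decidable P₂] (hP : c (a, b) ≠ 0 → P₁ ∧ P₂) :
    ∑ j ∈ range B, (if e.symm j ∈ F ∧ a = (e.symm j).1 ∧ P₁ then c (e.symm j) else 0) *
      (if b = (e.symm j).2 ∧ P₂ then 1 else 0) = c (a, b) := by
  rw [sum_eq_single (e (a, b))]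
  · simp only [Equiv.symm_apply_apply, hab, true_and]
    by_cases h0 : c (a, b) = 0
    · simp [h0]
    · simp [hP h0]
  · intro j _ hj
    split_ifs with h1 h2
    · refine absurd ?_ hj
      rw [h1.2.1, h2.1]
      simp
    all_goals simp
  · intro h
    exact absurd (mem_range.2 (hB _ hab)) h

end C1

open C1 in
theorem c1 : C1Stmt := by
  intro t N M Q WL WH D₂ fP hQ hS
  obtain ⟨φ, hφ1, hφ2⟩ := spread fP (fun δ v => hi t v ≤ WH ∧ hi t (δ - v) ≤ D₂) fun δ h => by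
    obtain ⟨d₁, d₂, rfl, h1, h2⟩ := hS δ h
    exact ⟨d₁, Multiset.le_add_right _ _, h1, by rwa [add_tsub_cancel_left]⟩
  obtain ⟨ψ, hψ1, hψ2⟩ := spread (fun δ => if Win t WL WH δ then (δ.powerset.map fP).sum else 0)
    (fun _ v => WL ≤ lo t v ∧ hi t v ≤ WH) fun δ h => by
      split_ifs at h with h1
      · exact h1
      · exact absurd rfl h
  let e : Multiset ℕ × Multiset ℕ ≃ ℕ := Denumerable.eqv _
  let F := EE N M ×ˢ EE N M
  let c : Multiset ℕ × Multiset ℕ → ℝ := fun p => φ (p.1 + p.2) p.1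
  let c' : Multiset ℕ × Multiset ℕ → ℝ := fun p => ψ (p.1 + p.2) p.2
  obtain ⟨B₀, hB₀⟩ := (F.image fun p => (e p : ℝ) + |c p| + |c' p|).exists_le
  obtain ⟨B₁, hB₁⟩ := exists_nat_ge B₀
  have hB : ∀ p ∈ F, e p < B₁ + 1 ∧ |c p| ≤ (B₁ + 1 : ℕ) ∧ |c' p| ≤ (B₁ + 1 : ℕ) := by
    intro p hp
    have h1 := (hB₀ _ (mem_image_of_mem _ hp)).trans hB₁
    have h2 := abs_nonneg (c p)
    have h3 := abs_nonneg (c' p)
    have h4 : (0 : ℝ) ≤ e p := Nat.cast_nonneg _
    have h5 : (e p : ℝ) ≤ B₁ := by linarith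
    push_cast
    exact ⟨Nat.lt_succ_of_le (by exact_mod_cast h5), by linarith, by linarith⟩
  refine ⟨B₁ + 1, fun X z cls hX => ⟨
    fun j d => if e.symm j ∈ F ∧ pt cls d = (e.symm j).1 ∧ (d : ℝ) ≤ X ^ ((WH : ℝ) / Q) then
      c (e.symm j) else 0,
    fun j d => if pt cls d = (e.symm j).2 ∧ (d : ℝ) ≤ X ^ ((D₂ : ℝ) / Q) then 1 else 0,
    fun j d => if e.symm j ∈ F ∧ pt cls d = (e.symm j).1 ∧ True then c' (e.symm j) else 0,
    fun j d => if pt cls d = (e.symm j).2 ∧ X ^ ((WL : ℝ) / Q) ≤ d ∧ (d : ℝ) ≤ X ^ ((WH : ℝ) / Q)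
      then 1 else 0, fun j d => ?_, fun k hk hz hM hc => ?_⟩⟩
  · have h0 : (0 : ℝ) ≤ B₁ := Nat.cast_nonneg _
    refine ⟨?_, ?_, ?_, ?_, fun h => ?_, fun h => ?_, fun h => ?_⟩
    · dsimp only
      split_ifs with h
      · exact (hB _ h.1).2.1
      · rw [abs_zero]; positivity
    · dsimp only
      split_ifs
      · rw [abs_one]; push_cast; linarith
      · rw [abs_zero]; positivity
    · dsimp only
      split_ifs with h
      · exact (hB _ h.1).2.2
      · rw [abs_zero]; positivity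
    · dsimp only
      split_ifs
      · rw [abs_one]; push_cast; linarith
      · rw [abs_zero]; positivity
    · by_contra h1
      exact h (if_neg fun h2 => h1 h2.2.2)
    · by_contra h1
      exact h (if_neg fun h2 => h1 h2.2)
    · by_contra h1
      exact h (if_neg fun h2 => h1 h2.2)
  · have sub : ∀ d, d ∣ k → d.primeFactors ⊆ k.primeFactors := fun d hd =>
      Nat.primeFactors_mono hd hk.ne_zero
    have hE : ∀ d, d ∣ k → pt cls d ∈ EE N M := fun d hd =>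
      mem_EE ((card_le_card (sub d hd)).trans hM) fun p hp => (hc p (sub d hd hp)).1
    have hhi : ∀ d W, d ∣ k → hi t (pt cls d) ≤ W → (d : ℝ) ≤ X ^ ((W : ℝ) / Q) := fun d W hd h =>
      le_of_hi hX hQ (hk.squarefree_of_dvd hd) (fun p hp => (hc p (sub d hd hp)).2.2) h
    have hlo : ∀ d W, d ∣ k → W ≤ lo t (pt cls d) → X ^ ((W : ℝ) / Q) ≤ d := fun d W hd h =>
      ge_of_lo hX hQ (hk.squarefree_of_dvd hd) (fun p hp => (hc p (sub d hd hp)).2.1) h
    unfold Psi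
    rw [if_pos hz, sum_sub_distrib, sum_comm, sum_comm (s := range (B₁ + 1))]
    have e1 : ∀ D ∈ k.divisors, ∑ j ∈ range (B₁ + 1), ∑ x ∈ D.divisorsAntidiagonal,
        (if e.symm j ∈ F ∧ pt cls x.1 = (e.symm j).1 ∧ (x.1 : ℝ) ≤ X ^ ((WH : ℝ) / Q) then
          c (e.symm j) else 0) *
        (if pt cls x.2 = (e.symm j).2 ∧ (x.2 : ℝ) ≤ X ^ ((D₂ : ℝ) / Q) then 1 else 0) =
        fP (pt cls D) := by
      intro D hD
      have hDk := Nat.dvd_of_mem_divisors hD
      have hD' := hk.squarefree_of_dvd hDk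
      rw [sum_comm, ← hφ1, ← sum_pt cls hD',
        ← Nat.sum_divisorsAntidiagonal fun a _ => φ (pt cls D) (pt cls a)]
      refine sum_congr rfl fun x hx => ?_
      have hx' := (Nat.mem_divisorsAntidiagonal.1 hx).1
      have h1 : x.1 ∣ k := (Dvd.intro _ hx').trans hDk
      have h2 : x.2 ∣ k := (Dvd.intro_left _ hx').trans hDk
      refine (pick e F (fun p hp => (hB p hp).1) c (a := pt cls x.1) (b := pt cls x.2)
        (mem_product.2 ⟨hE _ h1, hE _ h2⟩) _ _ fun h => ?_).trans ?_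
      · obtain ⟨h3, h4⟩ := hφ2 _ _ h
        rw [add_tsub_cancel_left] at h4
        exact ⟨hhi _ _ h1 h3, hhi _ _ h2 h4⟩
      · simp only [c]
        rw [pt_mul cls (hx' ▸ hD'), hx']
    have e2 : ∀ x ∈ k.divisorsAntidiagonal, ∑ j ∈ range (B₁ + 1),
        (if e.symm j ∈ F ∧ pt cls x.1 = (e.symm j).1 ∧ True then c' (e.symm j) else 0) *
        (if pt cls x.2 = (e.symm j).2 ∧ X ^ ((WL : ℝ) / Q) ≤ x.2 ∧
          (x.2 : ℝ) ≤ X ^ ((WH : ℝ) / Q) then 1 else 0) = ψ (pt cls k) (pt cls x.2) := by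
      intro x hx
      have hx' := (Nat.mem_divisorsAntidiagonal.1 hx).1
      have h1 : x.1 ∣ k := Dvd.intro _ hx'
      have h2 : x.2 ∣ k := Dvd.intro_left _ hx'
      refine (pick e F (fun p hp => (hB p hp).1) c' (a := pt cls x.1) (b := pt cls x.2)
        (mem_product.2 ⟨hE _ h1, hE _ h2⟩) _ _ fun h => ?_).trans ?_
      · obtain ⟨h3, h4⟩ := hψ2 _ _ h
        exact ⟨trivial, hlo _ _ h2 h3, hhi _ _ h2 h4⟩
      · simp only [c']
        rw [pt_mul cls (hx' ▸ hk), hx']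
    rw [sum_congr rfl e1, sum_congr rfl e2,
      Nat.sum_divisorsAntidiagonal' fun _ b => ψ (pt cls k) (pt cls b), sum_pt cls hk,
      sum_pt cls hk, hψ1, FF, sum_pset]
    unfold pt
    split_ifs <;> simp

end Pool.Agent.Lib.MP_4b1228_nt.PP.Ct
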