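import Pool.Agent.Lib.MP_4b1228_nt.PP.CtD2

/-!
Cell certificates: the value and the support of the coefficients.
-/

open Finset Real Filter
open scoped Classical

noncomputable section

namespace Pool.Agent.Lib.MP_4b1228_nt.PP.Ct

namespace C2

lemma split (S : Finset ℕ) (P Q : ℕ → Prop) [DecidablePred P] [DecidablePred Q]
    (h : ∀ p, Q p ↔ ¬ P p) (a b : Finset ℕ → ℝ) :
    ∑ T ∈ S.powerset, a (T.filter P) * b (T.filter Q) =
      (∑ T ∈ (S.filter P).powerset, a T) * ∑ T ∈ (S.filter Q).powerset, b T := by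
  rw [sum_mul_sum, ← sum_product']
  refine sum_nbij' (fun T => (T.filter P, T.filter Q)) (fun x => x.1 ∪ x.2) ?_ ?_ ?_ ?_ ?_
  · intro T hT
    rw [mem_powerset] at hT
    simp only [mem_product, mem_powerset]
    exact ⟨filter_subset_filter _ hT, filter_subset_filter _ hT⟩
  · intro x hx
    simp only [mem_product, mem_powerset] at hx ⊢
    exact union_subset (hx.1.trans (filter_subset _ _)) (hx.2.trans (filter_subset _ _))
  · intro T _
    ext p
    simp only [mem_union, mem_filter, h]
    tauto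
  · intro x hx
    simp only [mem_product, mem_powerset] at hx
    have h1 : ∀ p ∈ x.1, P p := fun p hp => (mem_filter.1 (hx.1 hp)).2
    have h2 : ∀ p ∈ x.2, ¬ P p := fun p hp => (h p).1 (mem_filter.1 (hx.2 hp)).2
    refine Prod.ext ?_ ?_ <;> ext p <;> simp only [mem_union, mem_filter, h]
    · have := h1 p; have := h2 p; tauto
    · have := h1 p; have := h2 p; tauto
  · intro T _
    rfl

lemma cnt (U : Finset ℕ) (k : ℕ) :
    ∑ T ∈ U.powerset, (if #T = k then (1 : ℝ) else 0) = (#U).choose k := by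
  rw [sum_boole, ← powersetCard_eq_filter, card_powersetCard]

lemma sa2 (U : Finset ℕ) :
    ∑ T ∈ U.powerset, a2 #T = ((#U : ℝ) - 1) * ((#U : ℝ) - 2) / 2 := by
  have : ∀ i, a2 i = (if i = 0 then 1 else 0) - (if i = 1 then 1 else 0) +
      (if i = 2 then 1 else 0) := fun i => by
    unfold a2; split_ifs <;> first | omega | norm_num
  simp only [this, sum_add_distrib, sum_sub_distrib, cnt]
  rw [Nat.cast_choose_two]
  simp
  ring

lemma sa1 (U : Finset ℕ) : ∑ T ∈ U.powerset, a1 #T = 1 - (#U : ℝ) := by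
  have : ∀ i, a1 i = (if i = 0 then 1 else 0) - (if i = 1 then 1 else 0) := fun i => by
    unfold a1; split_ifs <;> first | omega | norm_num
  simp only [this, sum_sub_distrib, cnt]
  simp

lemma sb (U : Finset ℕ) (c : ℕ → ℝ) :
    ∑ T ∈ U.powerset, (if #T = 1 then ∑ p ∈ T, c p else 0) = ∑ p ∈ U, c p := by
  rw [← sum_filter, ← powersetCard_eq_filter, powersetCard_one, sum_map]
  simp

lemma fP_eq (NS : ℕ) (c : ℕ → ℝ) (cls : ℕ → ℕ) (T : Finset ℕ) :
    fP NS c (T.val.map cls) =
      a2 #{p ∈ T | cls p < NS} * (if #{p ∈ T | NS ≤ cls p} = 0 then 1 else 0) -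
        a1 #{p ∈ T | cls p < NS} *
          (if #{p ∈ T | NS ≤ cls p} = 1 then ∑ p ∈ T with NS ≤ cls p, c (cls p) else 0) := by
  have e1 : ((T.val.map cls).filter (NS ≤ ·)) = (T.filter fun p => NS ≤ cls p).val.map cls := by
    rw [Multiset.filter_map]; rfl
  have e2 : ((T.val.map cls).filter (· < NS)) = (T.filter fun p => cls p < NS).val.map cls := by
    rw [Multiset.filter_map]; rfl
  unfold fP
  rw [e1, e2, Multiset.card_map, Multiset.card_map, Multiset.map_map, card_val, card_val,
    mul_ite, mul_ite, mul_one, mul_zero, mul_zero]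
  rfl

lemma hi_one {t : ℕ → ℕ} {W : ℕ} {m : Multiset ℕ} (hm : m.card ≤ 1)
    (h : ∀ a ∈ m, t (a + 1) ≤ W) : hi t m ≤ W := by
  rcases Nat.le_one_iff_eq_zero_or_eq_one.1 hm with e | e
  · rw [Multiset.card_eq_zero.1 e]; simp [hi]
  · obtain ⟨a, rfl⟩ := Multiset.card_eq_one.1 e
    simpa [hi] using h

end C2

open C2 in
theorem c2 : C2Stmt := by
  refine ⟨fun NS c cls S => ?_, fun t NS WH D₂ c ht hW hD hc δ hδ => ?_⟩
  · simp only [fP_eq, sum_sub_distrib]
    rw [split S (fun p => cls p < NS) (fun p => NS ≤ cls p) (fun _ => not_lt.symm)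
        (fun T => a2 #T) (fun T => if #T = 0 then 1 else 0),
      split S (fun p => cls p < NS) (fun p => NS ≤ cls p) (fun _ => not_lt.symm)
        (fun T => a1 #T) (fun T => if #T = 1 then ∑ p ∈ T, c (cls p) else 0),
      sa2, sa1, cnt, sb]
    simp
    ring
  · have hs : δ = δ.filter (· < NS) + δ.filter (NS ≤ ·) := by
      conv_lhs => rw [← Multiset.filter_add_not (· < NS) δ]
      simp only [not_lt]
    have hsm : ∀ a ∈ δ.filter (· < NS), t (a + 1) ≤ t NS := fun a ha =>
      ht (Multiset.mem_filter.1 ha).2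
    unfold fP at hδ
    generalize δ.filter (NS ≤ ·) = bg at hs hδ
    have hlt : ∀ a ∈ δ.filter (· < NS), a < NS := fun a ha => (Multiset.mem_filter.1 ha).2
    generalize δ.filter (· < NS) = sm at hs hδ hsm hlt
    subst hs
    by_cases h0 : bg.card = 0
    · obtain rfl := Multiset.card_eq_zero.1 h0
      by_cases h2 : sm.card = 2
      · obtain ⟨a, b, rfl⟩ := Multiset.card_eq_two.1 h2
        have ha := hsm a (by simp)
        have hb := hsm b (by simp)
        have hb' := hlt b (by simp)
        refine ⟨{a}, {b}, by simp, ?_, ?_⟩ <;> simp only [hi, Multiset.map_singleton,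
          Multiset.sum_singleton] <;> omega
      · have : sm.card ≤ 1 := by
          by_contra k
          apply hδ
          simp [a2, h2, show sm.card ≠ 0 by omega, show sm.card ≠ 1 by omega]
        exact ⟨sm, 0, rfl, hi_one this fun a ha => (hsm a ha).trans hW, by simp [hi]⟩
    · by_cases h1 : bg.card = 1
      · obtain ⟨b, rfl⟩ := Multiset.card_eq_one.1 h1
        have k : a1 sm.card ≠ 0 ∧ c b ≠ 0 := by simpa using hδ
        have : sm.card ≤ 1 := by
          by_contra k'
          apply k.1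
          simp [a1, show sm.card ≠ 0 by omega, show sm.card ≠ 1 by omega]
        exact ⟨sm, {b}, rfl, hi_one this fun a ha => (hsm a ha).trans hW,
          by simpa [hi] using hc b k.2⟩
      · exact absurd (by rw [if_neg h0, if_neg h1, sub_zero]) hδ

end Pool.Agent.Lib.MP_4b1228_nt.PP.Ct
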