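import Pool.Agent.Lib.MP_4b1228_nt.PP.CtD

/-! From the abstract cell to the cell. -/

open Finset Real Filter
open scoped Classical

noncomputable section

namespace Pool.Agent.Lib.MP_4b1228_nt.PP.Ct

namespace C5

theorem le_sz {X : ℝ} {Q n : ℕ} (hX : 1 < X) (hQ : 1 ≤ Q) (hn : 1 ≤ n) (a : ℝ) :
    X ^ (a / Q) ≤ n ↔ a ≤ sz X Q n := by
  have hL := log_pos hX
  have hQ' : (0 : ℝ) < Q := Nat.cast_pos.2 hQ
  rw [rpow_def_of_pos (by linarith), ← le_log_iff_exp_le (Nat.cast_pos.2 hn), sz, le_div_iff₀ hL,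
    ← mul_div_assoc, div_le_iff₀ hQ', mul_comm a, mul_comm (Q : ℝ)]

theorem sz_le {X : ℝ} {Q n : ℕ} (hX : 1 < X) (hQ : 1 ≤ Q) (hn : 1 ≤ n) (a : ℝ) :
    (n : ℝ) ≤ X ^ (a / Q) ↔ sz X Q n ≤ a := by
  have hL := log_pos hX
  have hQ' : (0 : ℝ) < Q := Nat.cast_pos.2 hQ
  rw [rpow_def_of_pos (by linarith), ← log_le_iff_le_exp (Nat.cast_pos.2 hn), sz, div_le_iff₀ hL,
    ← mul_div_assoc, le_div_iff₀ hQ', mul_comm a, mul_comm (Q : ℝ)]

theorem sz_sum (X : ℝ) (Q : ℕ) {k : ℕ} (hk : Squarefree k) :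
    ∑ p ∈ k.primeFactors, sz X Q p = sz X Q k := by
  conv_rhs => rw [sz, ← Nat.prod_primeFactors_of_squarefree hk, Nat.cast_prod,
    log_prod fun p hp => Nat.cast_ne_zero.2 (Nat.prime_of_mem_primeFactors hp).ne_zero]
  rw [mul_sum, sum_div]
  rfl

theorem rho_prod (hR : RhoStmt) (S : Finset ℕ) (hS : ∀ p ∈ S, p.Prime) :
    rho (∏ p ∈ S, p) = ∏ p ∈ S, rho p := by
  induction S using Finset.induction_on with
  | empty => simpa using hR.2.2.2.2.1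
  | insert q S hq ih =>
    rw [prod_insert hq, prod_insert hq, hR.1, ih fun p hp => hS p (mem_insert_of_mem hp)]
    exact Nat.Coprime.prod_right fun p hp =>
      (Nat.coprime_primes (hS q (mem_insert_self _ _)) (hS p (mem_insert_of_mem hp))).2
        fun h => hq (h ▸ hp)

theorem rho_div (hR : RhoStmt) {k : ℕ} (hk : Squarefree k) :
    (rho k : ℝ) / k = ∏ p ∈ k.primeFactors, (rho p : ℝ) / p := by
  rw [prod_div_distrib, ← Nat.cast_prod, ← Nat.cast_prod,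
    ← rho_prod hR _ fun p hp => Nat.prime_of_mem_primeFactors hp,
    Nat.prod_primeFactors_of_squarefree hk]

end C5

open C5 in
theorem c5 (hR : RhoStmt) (hM : MertStmt) (h1 : C1Stmt) : C5Stmt := by
  rintro Q A₀ A₁ WL WH D₂ v hQ a1 a2 a3 a4 a5 a6 a7 ⟨t, N, fP, -, t0, tN, sup, H⟩
  obtain ⟨B, hB⟩ := h1 t N A₁ Q WL WH D₂ fP hQ sup
  have hQ' : (0 : ℝ) < Q := Nat.cast_pos.2 hQ
  obtain ⟨Z, hZ⟩ : ∃ Z, Z = WH - WL := ⟨_, rfl⟩
  have Z1 : (1 : ℝ) ≤ Z := by exact_mod_cast (by omega : 1 ≤ Z)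
  have ZA : (Z : ℝ) ≤ A₀ := by exact_mod_cast (by omega : Z ≤ A₀)
  have eZ : (WH : ℝ) / Q - WL / Q = Z / Q := by rw [hZ, Nat.cast_sub a4.le, sub_div]
  rw [← hZ] at t0 H
  refine ⟨B, WL / Q, WH / Q, D₂ / Q, ?_, ?_, ?_, ?_, ?_, ?_⟩
  · rw [sub_lt_iff_lt_add, div_add_one hQ'.ne']
    exact div_lt_div_of_pos_right (by exact_mod_cast (by omega : A₁ < WL + Q)) hQ'
  · exact div_lt_div_of_pos_right (by exact_mod_cast a4) hQ'
  · have : (3 : ℝ) * WH + A₁ < 2 * Q := by exact_mod_cast a5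
    rw [lt_sub_iff_add_lt, ← mul_div_assoc, ← add_div, div_lt_iff₀ hQ']
    exact this
  · exact div_pos (Nat.cast_pos.2 a6) hQ'
  · have : (2 : ℝ) * (WL + D₂) < Q := by exact_mod_cast a7
    rw [← add_div, div_lt_iff₀ hQ']
    linarith
  obtain ⟨y₀, -, hy⟩ := hM (1 / 2 ^ 32) (by positivity)
  filter_upwards [eventually_gt_atTop 1, (tendsto_rpow_atTop
    (div_pos (one_pos.trans_le Z1) hQ')).eventually_ge_atTop y₀] with X hX hz
  have hX0 : 0 < X := by linarith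
  have hL := log_pos hX
  rw [eZ]
  obtain ⟨cls, hcls⟩ : ∃ cls : ℕ → ℕ, cls = fun p =>
    Nat.findGreatest (fun c => (t c : ℝ) ≤ sz X Q p) N := ⟨_, rfl⟩
  obtain ⟨P, hP⟩ : ∃ P : Finset ℕ, ∀ p, p ∈ P ↔ p.Prime ∧ (Z : ℝ) ≤ sz X Q p ∧ sz X Q p ≤ A₁ := by
    refine ⟨(Icc 1 ⌊X ^ ((A₁ : ℝ) / Q)⌋₊).filter fun p => p.Prime ∧ (Z : ℝ) ≤ sz X Q p, fun p => ?_⟩
    rw [mem_filter, mem_Icc, Nat.le_floor_iff (by positivity)]
    exact ⟨fun h => ⟨h.2.1, h.2.2, (sz_le hX hQ h.1.1 _).1 h.1.2⟩,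
      fun h => ⟨⟨h.1.one_le, (sz_le hX hQ h.1.one_le _).2 h.2.2⟩, h.1, h.2.1⟩⟩
  have hc : ∀ p ∈ P, cls p < N ∧ (t (cls p) : ℝ) ≤ sz X Q p ∧ sz X Q p < t (cls p + 1) := by
    intro p hp
    obtain ⟨-, b1, b2⟩ := (hP p).1 hp
    have b3 : (t (cls p) : ℝ) ≤ sz X Q p := by
      rw [hcls]
      exact Nat.findGreatest_spec (P := fun c => (t c : ℝ) ≤ sz X Q p) (Nat.zero_le N) (t0 ▸ b1)
    have b4 : cls p ≤ N := hcls ▸ Nat.findGreatest_le N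
    have b5 : cls p < N := lt_of_le_of_ne b4 fun q => by
      rw [q] at b3
      exact not_lt.2 (b3.trans b2) (Nat.cast_lt.2 tN)
    refine ⟨b5, b3, not_le.1 ?_⟩
    exact Nat.findGreatest_is_greatest (P := fun c => (t c : ℝ) ≤ sz X Q p) (n := N)
      (by rw [hcls]; exact Nat.lt_succ_self _) b5
  have hD : Dat P (fun p => (rho p : ℝ) / p) (sz X Q) Z := by
    refine ⟨fun p => by positivity, fun a b ha hab => ?_⟩
    have m1 : ∀ a b : ℝ, a ≤ b → X ^ (a / Q) ≤ X ^ (b / Q) := fun a b h =>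
      rpow_le_rpow_of_exponent_le hX.le (div_le_div_of_nonneg_right h hQ'.le)
    have b1 := (hy _ _ (hz.trans (m1 _ _ ha)) (m1 _ _ hab)).1
    have a0 : 0 < a := by linarith
    rw [log_rpow hX0, log_rpow hX0, show b / Q * log X / (a / Q * log X) = b / a by
      field_simp] at b1
    refine le_trans (sum_le_sum_of_subset_of_nonneg (fun p hp => ?_) fun _ _ _ => by positivity) b1
    rw [mem_filter] at hp ⊢
    have hpp := ((hP p).1 hp.1).1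
    exact ⟨mem_Icc.2 ⟨hpp.one_le, Nat.le_floor ((sz_le hX hQ hpp.one_le _).2 hp.2.2)⟩, hpp,
      (le_sz hX hQ hpp.one_le _).2 hp.2.1⟩
  obtain ⟨H1, H2⟩ := H P _ _ cls hD hc
  obtain ⟨f₁, f₂, g₁, g₂, hO, hPsi⟩ := hB X (X ^ ((Z : ℝ) / Q)) cls hX
  have key : ∀ k : ℕ, Squarefree k → X ^ ((A₀ : ℝ) / Q) ≤ k → (k : ℝ) ≤ X ^ ((A₁ : ℝ) / Q) →
      Rough (X ^ ((Z : ℝ) / Q)) k → k.primeFactors ⊆ P ∧
        ((A₀ : ℝ) ≤ ∑ p ∈ k.primeFactors, sz X Q p ∧ ∑ p ∈ k.primeFactors, sz X Q p ≤ A₁) ∧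
        Psi (X ^ ((Z : ℝ) / Q)) B f₁ f₂ g₁ g₂ k = FF t WL WH fP cls k.primeFactors := by
    intro k hk b1 b2 b3
    have k1 : 1 ≤ k := Nat.pos_of_ne_zero hk.ne_zero
    have c1 : k.primeFactors ⊆ P := fun p hp => by
      have hpp := Nat.prime_of_mem_primeFactors hp
      exact (hP p).2 ⟨hpp, (le_sz hX hQ hpp.one_le _).1
        (b3 p hpp (Nat.dvd_of_mem_primeFactors hp)), (sz_le hX hQ hpp.one_le _).1
        ((Nat.cast_le.2 (Nat.le_of_mem_primeFactors hp)).trans b2)⟩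
    have c2 : ∑ p ∈ k.primeFactors, sz X Q p ≤ A₁ := by
      rw [sz_sum X Q hk]
      exact (sz_le hX hQ k1 _).1 b2
    refine ⟨c1, ⟨?_, c2⟩, hPsi k hk b3 ?_ fun p hp => ?_⟩
    · rw [sz_sum X Q hk]
      exact (le_sz hX hQ k1 _).1 b1
    · have := card_nsmul_le_sum k.primeFactors (sz X Q) 1 fun p hp =>
        Z1.trans ((hP p).1 (c1 hp)).2.1
      rw [nsmul_eq_mul, mul_one] at this
      exact_mod_cast this.trans c2
    · exact ⟨(hc p (c1 hp)).1, (hc p (c1 hp)).2.1, (hc p (c1 hp)).2.2.le⟩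
  refine ⟨f₁, f₂, g₁, g₂, hO, fun k hk b1 b2 => ?_, le_trans ?_ H2⟩
  · by_cases b3 : Rough (X ^ ((Z : ℝ) / Q)) k
    · obtain ⟨c1, c2, c3⟩ := key k hk b1 b2 b3
      rw [c3]
      refine le_trans ?_ (H1 _ c1 c2.1 c2.2)
      by_cases c4 : k.Prime
      · simp [c4, c4.primeFactors]
      · rw [if_neg c4]
        split_ifs <;> norm_num
    · rw [Psi, if_neg b3, if_neg fun c4 => b3 fun p hp h => ?_]
      rw [(Nat.prime_dvd_prime_iff_eq hp c4).1 h]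
      exact (rpow_le_rpow_of_exponent_le hX.le (div_le_div_of_nonneg_right ZA hQ'.le)).trans b1
  · obtain ⟨U, hU⟩ : ∃ U : Finset ℕ, U = (Icc 1 ⌊X ^ ((A₁ : ℝ) / Q)⌋₊ : Finset ℕ).filter
      fun k : ℕ => Squarefree k ∧ X ^ ((A₀ : ℝ) / Q) ≤ k := ⟨_, rfl⟩
    rw [← hU]
    have hU' : ∀ k ∈ U, Squarefree k ∧ X ^ ((A₀ : ℝ) / Q) ≤ k ∧ (k : ℝ) ≤ X ^ ((A₁ : ℝ) / Q) := by
      intro k hk
      rw [hU, mem_filter, mem_Icc, Nat.le_floor_iff (by positivity)] at hk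
      exact ⟨hk.2.1, hk.2.2, hk.1.2⟩
    rw [← sum_filter_of_ne (p := Rough (X ^ ((Z : ℝ) / Q))) fun k _ h => by
      by_contra c
      exact h (by rw [Psi, if_neg c, zero_mul])]
    have e : ∀ k ∈ U.filter (Rough (X ^ ((Z : ℝ) / Q))),
        Psi (X ^ ((Z : ℝ) / Q)) B f₁ f₂ g₁ g₂ k * (rho k / k) =
        (fun S : Finset ℕ => (∏ p ∈ S, (rho p : ℝ) / p) * FF t WL WH fP cls S) k.primeFactors := by
      intro k hk
      rw [mem_filter] at hk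
      obtain ⟨c1, c2, c3⟩ := hU' k hk.1
      rw [(key k c1 c2 c3 hk.2).2.2, rho_div hR c1, mul_comm]
    rw [sum_congr rfl e, ← sum_image (g := Nat.primeFactors)
      (f := fun S : Finset ℕ => (∏ p ∈ S, (rho p : ℝ) / p) * FF t WL WH fP cls S)
      fun k hk k' hk' h => by
        rw [← Nat.prod_primeFactors_of_squarefree (hU' k (mem_filter.1 hk).1).1, h,
          Nat.prod_primeFactors_of_squarefree (hU' k' (mem_filter.1 hk').1).1]]
    refine sum_le_sum_of_subset_of_nonneg (fun S hS => ?_) fun S hS _ => ?_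
    · obtain ⟨k, hk, rfl⟩ := mem_image.1 hS
      rw [mem_filter] at hk
      obtain ⟨c1, c2, c3⟩ := hU' k hk.1
      obtain ⟨d1, d2, -⟩ := key k c1 c2 c3 hk.2
      exact mem_filter.2 ⟨mem_powerset.2 d1, d2⟩
    · rw [mem_filter, mem_powerset] at hS
      refine mul_nonneg (prod_nonneg fun _ _ => by positivity)
        (le_trans ?_ (H1 S hS.1 hS.2.1 hS.2.2))
      split_ifs <;> norm_num

end Pool.Agent.Lib.MP_4b1228_nt.PP.Ct
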