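import Pool.Agent.Lib.MP_4b1228_nt.PP.CtM

/-!
Cell certificates: soundness of the enumeration of the sets of large primes.
-/

open Finset Real
open scoped Classical

namespace Pool.Agent.Lib.MP_4b1228_nt.PP.Ct

theorem pl_sum (key : ℕ → ℕ) (T : Finset ℕ) (f : ℕ → ℕ) :
    ((pl key T).map f).sum = ∑ p ∈ T, f (key p) := by
  rw [← Multiset.sum_coe, ← Multiset.map_coe, pl_coe, Multiset.map_map]; rfl

namespace E

def lo (t₀ h : ℕ) (l : List ℕ) : ℕ := (l.map fun d => t₀ + d * h).sum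

def hi (t₀ h : ℕ) (l : List ℕ) : ℕ := (l.map fun d => t₀ + d * h + h).sum

def aa (t₀ h Y : ℕ) (l : List ℕ) : ℕ := max (Y - hi t₀ h l) (t₀ + l.headD 0 * h)

def mx (t₀ h Y V : ℕ) (e Fv : ℕ → ℕ) (l : List ℕ) : ℕ :=
  mxa (fun x => Fv ((l.map e).sum + e x))
    ((V - lo t₀ h l - t₀) / h + 1 - (aa t₀ h Y l - t₀) / h) ((aa t₀ h Y l - t₀) / h) 0

def Inv (t₀ h : ℕ) (e : ℕ → ℕ) (l : List ℕ) (st : ℕ × ℕ × ℕ) : Prop :=
  st = (lo t₀ h l, hi t₀ h l, (l.map e).sum)

def Dead (t₀ h V : ℕ) (l : List ℕ) : Prop := V < lo t₀ h l + (t₀ + l.headD 0 * h)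

noncomputable def gg (t₀ h Y V del : ℕ) (e Fv : ℕ → ℕ) (l : List ℕ) : ℝ :=
  (slabN (aa t₀ h Y l) (V - lo t₀ h l) del : ℝ) / 2 ^ 32 * ((mx t₀ h Y V e Fv l : ℝ) / 1024)

variable {t₀ h Y V del n : ℕ} {e Fv : ℕ → ℕ}

theorem leaf_eq {l : List ℕ} {st : ℕ × ℕ × ℕ} (hi : Inv t₀ h e l st) (m : ℕ) :
    enLeaf t₀ h Y V del e Fv st (l.headD 0) m =
      if V - lo t₀ h l < aa t₀ h Y l then 0 else
        m * slabN (aa t₀ h Y l) (V - lo t₀ h l) del * mx t₀ h Y V e Fv l / 2 ^ 42 + 1 := by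
  subst hi
  simp only [enLeaf, frc_eq, mxN_eq, Bool.cond_eq_ite, Nat.blt_eq, Nat.add_eq, Nat.sub_eq,
    Nat.mul_eq, Nat.shiftRight_eq, Nat.shiftRight_eq_div_pow, Nat.succ_eq_add_one, dv]
  rfl

theorem gg_nonneg (l : List ℕ) : 0 ≤ gg t₀ h Y V del e Fv l := by unfold gg; positivity

theorem gg_zero {l : List ℕ} (hl : V - lo t₀ h l < aa t₀ h Y l) : gg t₀ h Y V del e Fv l = 0 := by
  rw [gg, slabN_eq, if_pos hl]; simp

theorem gg_dead (h0 : 0 < t₀) (l : List ℕ) (hl : Dead t₀ h V l) : gg t₀ h Y V del e Fv l = 0 := by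
  refine gg_zero (lt_of_lt_of_le ?_ (le_max_right _ _))
  unfold Dead at hl
  omega

theorem lo_cons (d : ℕ) (l : List ℕ) : lo t₀ h (d :: l) = t₀ + d * h + lo t₀ h l := by simp [lo]

theorem dead_cons (l : List ℕ) (d : ℕ) (hl : Dead t₀ h V l) (hd : l.headD 0 ≤ d) :
    Dead t₀ h V (d :: l) := by
  have := Nat.mul_le_mul_right h hd
  unfold Dead at hl ⊢
  rw [lo_cons, List.headD_cons]
  omega

theorem lo_ge (l : List ℕ) : l.length * t₀ ≤ lo t₀ h l := by
  induction l with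
  | nil => simp
  | cons d l ih => rw [lo_cons, List.length_cons, Nat.succ_mul]; omega

theorem hleaf (l : List ℕ) (st : ℕ × ℕ × ℕ) (m : ℕ) (hi : Inv t₀ h e l st) :
    m * gg t₀ h Y V del e Fv l ≤ enLeaf t₀ h Y V del e Fv st (l.headD 0) m := by
  rw [leaf_eq hi]
  split_ifs with hl
  · rw [gg_zero hl]; simp
  · refine le_trans (le_of_eq ?_) (div_lt _ (2 ^ 42) (by positivity))
    unfold gg
    push_cast
    ring

theorem hstop (l : List ℕ) (st : ℕ × ℕ × ℕ) (d d' : ℕ) (hi : Inv t₀ h e l st)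
    (hs : Nat.blt V (Nat.add st.1 (Nat.mul 2 (Nat.add t₀ (Nat.mul d h)))) = true) (hd : d ≤ d') :
    Dead t₀ h V (d' :: l) := by
  subst hi
  simp only [Nat.blt_eq, Nat.add_eq, Nat.mul_eq] at hs
  have := Nat.mul_le_mul_right h hd
  unfold Dead
  rw [lo_cons, List.headD_cons]
  omega

theorem hnx (l : List ℕ) (st : ℕ × ℕ × ℕ) (d : ℕ) (hi : Inv t₀ h e l st) :
    ∃ st', Inv t₀ h e (d :: l) st' ∧ ∀ k, enNx t₀ h e st d k = k st' := by
  subst hi
  refine ⟨_, rfl, fun k => ?_⟩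
  simp only [enNx, frc_eq, Nat.add_eq, Nat.mul_eq, lo, E.hi, List.map_cons, List.sum_cons]
  congr 2
  · exact add_comm _ _
  · congr 1 <;> exact add_comm _ _

variable {P : Finset ℕ} {s : ℕ → ℝ} {cls : ℕ → ℕ} {y : ℝ}

theorem key (hh : 0 < h)
    (hc : ∀ p ∈ P, cls p < n ∧ (t₀ + cls p * h : ℝ) ≤ s p ∧ s p < t₀ + (cls p + 1) * h)
    (hY : (Y : ℝ) ≤ y) (hV : y + del ≤ V) {T : Finset ℕ} (hT : T ⊆ P) {q : ℕ} (hq : q ∈ P)
    (hm : ∀ x ∈ T, cls x ≤ cls q) (h1 : y ≤ s q + ∑ p ∈ T, s p)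
    (h2 : s q + ∑ p ∈ T, s p ≤ y + del) :
    (aa t₀ h Y (pl cls T) : ℝ) ≤ s q ∧ ¬ Dead t₀ h V (pl cls T) ∧
      aa t₀ h Y (pl cls T) ≤ V - lo t₀ h (pl cls T) ∧
      Fv (e (cls q) + ∑ p ∈ T, e (cls p)) ≤ mx t₀ h Y V e Fv (pl cls T) := by
  have a1 : (lo t₀ h (pl cls T) : ℝ) ≤ ∑ p ∈ T, s p := by
    rw [lo, pl_sum]; push_cast
    exact sum_le_sum fun p hp => (hc p (hT hp)).2.1
  have a2 : ∑ p ∈ T, s p ≤ (hi t₀ h (pl cls T) : ℝ) := by
    rw [hi, pl_sum]; push_cast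
    exact sum_le_sum fun p hp => (hc p (hT hp)).2.2.le.trans (le_of_eq (by ring))
  obtain ⟨-, a3, a4⟩ := hc q hq
  have a5 : (pl cls T).headD 0 * h ≤ cls q * h :=
    Nat.mul_le_mul_right h (pl_head_le (Nat.zero_le _) hm)
  have b1 : Y < hi t₀ h (pl cls T) + (t₀ + (cls q + 1) * h) := by
    have : (Y : ℝ) < hi t₀ h (pl cls T) + (t₀ + (cls q + 1) * h) := by linarith
    exact_mod_cast this
  have b2 : lo t₀ h (pl cls T) + (t₀ + cls q * h) ≤ V := by
    have : (lo t₀ h (pl cls T) : ℝ) + (t₀ + cls q * h) ≤ V := by linarith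
    exact_mod_cast this
  have b3 : (aa t₀ h Y (pl cls T) : ℝ) ≤ s q := by
    have a6 : ((t₀ + (pl cls T).headD 0 * h : ℕ) : ℝ) ≤ s q := by
      refine le_trans ?_ a3
      exact_mod_cast Nat.add_le_add_left a5 t₀
    rw [aa, Nat.cast_max]
    refine max_le ?_ a6
    rcases le_total Y (hi t₀ h (pl cls T)) with c | c
    · rw [Nat.sub_eq_zero_of_le c, Nat.cast_zero]
      exact (Nat.cast_nonneg _).trans a6
    · rw [Nat.cast_sub c]; linarith
  have b4 : aa t₀ h Y (pl cls T) + lo t₀ h (pl cls T) ≤ V := by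
    have : (aa t₀ h Y (pl cls T) : ℝ) + lo t₀ h (pl cls T) ≤ V := by linarith
    exact_mod_cast this
  have b5 : aa t₀ h Y (pl cls T) < t₀ + (cls q + 1) * h := by
    exact_mod_cast b3.trans_lt a4
  refine ⟨b3, by unfold Dead; omega, by omega, ?_⟩
  rw [add_comm, ← pl_sum cls T e]
  have c1 : (aa t₀ h Y (pl cls T) - t₀) / h < cls q + 1 := by
    rw [Nat.div_lt_iff_lt_mul hh]
    have : 0 < (cls q + 1) * h := by positivity
    omega
  have c2 : cls q ≤ (V - lo t₀ h (pl cls T) - t₀) / h := by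
    rw [Nat.le_div_iff_mul_le hh]; omega
  exact (mxa_ge (fun x => Fv (((pl cls T).map e).sum + e x)) _ _ 0).2 (cls q) (by omega) (by omega)

end E

open E in
theorem eS : EStmt := by
  intro P w s cls Z t₀ h Y V del n e Fv y hD hZ h0 hh hc hY hV
  have hk : ∀ p ∈ P, 0 ≤ cls p ∧ cls p < n := fun p hp => ⟨Nat.zero_le _, (hc p hp).1⟩
  have hi0 : E.Inv t₀ h e [] (0, 0, 0) := rfl
  refine ⟨?_, fun hen S hS hne h1 h2 => ?_⟩
  · have s1 := slab_le (P := P) (key := cls) hD.w0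
      (G := fun S => if S ≠ ∅ ∧ y ≤ ∑ p ∈ S, s p ∧ ∑ p ∈ S, s p ≤ y + del then
        (Fv (∑ p ∈ S, e (cls p)) : ℝ) / 1024 else 0) (g := E.gg t₀ h Y V del e Fv)
      (fun S => by split_ifs <;> positivity) (by simp) fun T hT => by
        have ha : t₀ ≤ aa t₀ h Y (pl cls T) := (Nat.le_add_right _ _).trans (le_max_right _ _)
        have a1 : (E.lo t₀ h (pl cls T) : ℝ) ≤ ∑ p ∈ T, s p := by
          rw [E.lo, pl_sum]; push_cast
          exact sum_le_sum fun p hp => (hc p (hT hp)).2.1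
        have a2 : (V : ℝ) - E.lo t₀ h (pl cls T) ≤ (V - E.lo t₀ h (pl cls T) : ℕ) := by
          rw [sub_le_iff_le_add]; exact_mod_cast le_tsub_add
        have m := slab_massN hD (hZ.trans ha) (h0.trans_le ha) (U := V - E.lo t₀ h (pl cls T))
          (del := del) (b' := y + del - ∑ p ∈ T, s p)
          (le_max_left _ (y - ∑ p ∈ T, s p)) (by linarith)
          (by have := le_max_right (aa t₀ h Y (pl cls T) : ℝ) (y - ∑ p ∈ T, s p); linarith)
        refine le_trans ?_ (mul_le_mul_of_nonneg_right m (by positivity))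
        rw [sum_mul, sum_filter, sum_filter]
        refine sum_le_sum fun q hq => ?_
        have hw := hD.w0 q
        by_cases c : q ∉ T ∧ ∀ x ∈ T, cls x ≤ cls q
        swap
        · rw [if_neg c]; split_ifs <;> positivity
        rw [if_pos c, sum_insert c.1, sum_insert c.1]
        by_cases c' : insert q T ≠ ∅ ∧ y ≤ s q + ∑ p ∈ T, s p ∧ s q + ∑ p ∈ T, s p ≤ y + del
        swap
        · rw [if_neg c', mul_zero]; split_ifs <;> positivity
        obtain ⟨k1, -, -, k2⟩ := E.key (e := e) (Fv := Fv) hh hc hY hV hT hq c.2 c'.2.1 c'.2.2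
        rw [if_pos c', if_pos ⟨max_le k1 (by linarith [c'.2.1]), by linarith [c'.2.2]⟩]
        gcongr
    have s2 := tree_le (c₀ := 0) (L := fun d => (enL t₀ h d : ℝ) / 2 ^ 32) hD.w0 hk (fun d => by
        have hz : (Z : ℝ) ≤ (t₀ + d * h : ℕ) := by exact_mod_cast hZ.trans (Nat.le_add_right _ _)
        have hz' : ((t₀ + d * h : ℕ) : ℝ) ≤ (t₀ + d * h + h : ℕ) := by
          exact_mod_cast Nat.le_add_right _ _
        refine le_trans ?_ ((hD.mert _ _ hz hz').trans (le_trans (lgN_ge (a := t₀ + d * h)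
          (by omega) (Nat.le_add_right _ h)) (by simp only [enL, frc_eq]; rfl)))
        refine sum_le_sum_of_subset_of_nonneg (fun p hp => ?_) fun p _ _ => hD.w0 p
        obtain ⟨hp', rfl⟩ := mem_filter.1 hp
        refine mem_filter.2 ⟨hp', ?_, ?_⟩ <;> push_cast
        · exact (hc p hp').2.1
        · exact (hc p hp').2.2.le.trans (le_of_eq (by ring))) (V / t₀) (E.gg t₀ h Y V del e Fv)
      gg_nonneg fun l hl => gg_dead h0 l (by
        have := lo_ge (t₀ := t₀) (h := h) l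
        have := (Nat.div_lt_iff_lt_mul h0).1 hl
        unfold Dead; omega)
    have s3 := tr_le (n := n) (eps := 0) (L := enL t₀ h) (cru := fun _ _ _ => 1)
      (leaf := enLeaf t₀ h Y V del e Fv) (ok := fun _ _ => true) (nx := enNx t₀ h e)
      (stop := fun st d => Nat.blt V (Nat.add st.1 (Nat.mul 2 (Nat.add t₀ (Nat.mul d h)))))
      (c₀ := 0) (g := E.gg t₀ h Y V del e Fv) (E.Inv t₀ h e) (Dead t₀ h V) gg_nonneg (gg_dead h0) dead_cons hleaf
      (fun _ _ _ _ c => absurd c (by decide)) hstop (fun _ _ _ _ c => absurd c (by decide))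
      (fun l st d i _ _ => hnx l st d i) (V / t₀) [] (0, 0, 0) 0 1099511627776 hi0 (Nat.zero_le _)
    rw [sum_filter, le_div_iff₀' (by positivity)]
    refine le_trans ?_ s3
    refine mul_le_mul (by norm_num) (le_trans (le_of_eq ?_) (s1.trans s2))
      (sum_nonneg fun S _ => ?_) (by positivity)
    · exact sum_congr rfl fun S _ => by rw [mul_ite, mul_zero]
    · have : 0 ≤ ∏ p ∈ S, w p := prod_nonneg fun p _ => hD.w0 p
      split_ifs <;> positivity
  · obtain ⟨q, hq, hm⟩ := exists_max_image S cls (nonempty_iff_ne_empty.2 hne)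
    have hT : S.erase q ⊆ P := (erase_subset _ _).trans hS
    rw [← add_sum_erase _ _ hq] at h1 h2 ⊢
    obtain ⟨-, k1, k2, k3⟩ := E.key (e := e) (Fv := Fv) hh hc hY hV hT (hS hq)
      (fun x hx => hm x (mem_of_mem_erase hx)) h1 h2
    obtain ⟨st, m, hm1, i, hl⟩ := tr_reach (n := n) (eps := 0) (L := enL t₀ h)
      (cru := fun _ _ _ => 1)
      (leaf := enLeaf t₀ h Y V del e Fv) (ok := fun _ _ => true) (nx := enNx t₀ h e)
      (stop := fun st d => Nat.blt V (Nat.add st.1 (Nat.mul 2 (Nat.add t₀ (Nat.mul d h)))))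
      (c₀ := 0) (E.Inv t₀ h e) (Dead t₀ h V) dead_cons (fun _ _ _ => Nat.one_pos) hstop
      (fun _ _ _ _ c => absurd c (by decide)) (fun l st d i _ _ => hnx l st d i) (V / t₀)
      (0, 0, 0) 1099511627776 hi0 (by norm_num) cls (S.erase q) (fun p hp => hk p (hT hp)) (by
        have := lo_ge (t₀ := t₀) (h := h) (pl cls (S.erase q))
        rw [pl_length] at this
        rw [Nat.le_div_iff_mul_le h0]
        unfold Dead at k1; omega) k1
    have hl' := hl.trans_lt hen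
    rw [leaf_eq i, if_neg k2.not_gt] at hl'
    by_contra c
    have c1 := Nat.mul_le_mul (Nat.mul_le_mul hm1 (four_le_slabN k2 del)) ((not_lt.1 c).trans k3)
    have c2 := Nat.div_le_div_right (c := 2 ^ 42) c1
    omega

end Pool.Agent.Lib.MP_4b1228_nt.PP.Ct
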