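import Pool.Agent.Lib.MP_4b1228_nt.PP.CtF

/-!
Cell certificates: from a list of checked cells to the certificate.
-/

open Finset Real

namespace Pool.Agent.Lib.MP_4b1228_nt.PP.Ct

def nth (L : List Par) (e i : ℕ) : Par :=
  L.getD i ⟨e, 0, 0, 0, 0, 0, 0, 0, 0, 0, 0, 0, 0, 0, 0, 0, 0, 0⟩

/-- Side conditions of one cell, with `Q = 10 ^ 6`. -/
def Par.side (p : Par) : Bool :=
  decide (1000000 < p.A₀ ∧ p.A₀ ≤ p.A₁ ∧ p.A₁ < 1000000 + p.WL ∧ p.WL < p.WH ∧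
    3 * p.WH + p.A₁ < 2 * 1000000 ∧ 0 < p.D₂ ∧ 2 * (p.WL + p.D₂) < 1000000)

theorem Par.cell (h5 : C5Stmt) (hA : AStmt) (p : Par) (h : p.chk = true) (hs : p.side = true) :
    Cell ((p.A₀ : ℝ) / 1000000) ((p.A₁ : ℝ) / 1000000) ((p.v : ℝ) / 2 ^ 40) := by
  obtain ⟨a, b, c, d, e, f, g⟩ := of_decide_eq_true hs
  exact_mod_cast h5 1000000 _ _ _ _ _ _ (by norm_num) a b c d e f g (hA p h)

def fin (L : List Par) (e a b : ℕ) : Bool :=
  allB (fun i => (nth L e i).side && decide ((nth L e i).A₀ ≤ (nth L e (i + 1)).A₀ ∧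
    (nth L e i).A₁ = (nth L e (i + 1)).A₀ + 2)) L.length &&
  decide (1000000 < (nth L e 0).A₀ ∧ e + 1 ≤ 1250000 ∧ 0 < b ∧
    b ^ 2 * (10 ^ 6 * ∑ i ∈ range L.length, (nth L e i).A₁ * (nth L e i).v +
      2 ^ 41 * ((nth L e 0).A₀ + 1) ^ 2) + 2 ^ 41 * 10 ^ 12 * a ^ 2 <
      b ^ 2 * 2 ^ 40 * (3 * 10 ^ 12 + 2 * (e + 1) ^ 2))

theorem cert_of (h5 : C5Stmt) (hA : AStmt) (L : List Par) (e a b : ℕ)
    (h : ∀ p ∈ L, p.chk = true) (hf : fin L e a b = true) : CertStmt ((a : ℝ) / b) := by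
  rw [fin, Bool.and_eq_true] at hf
  obtain ⟨h1, h2, h3, h4⟩ := of_decide_eq_true hf.2
  have H : ∀ i < L.length, (nth L e i).side = true ∧ (nth L e i).A₀ ≤ (nth L e (i + 1)).A₀ ∧
      (nth L e i).A₁ = (nth L e (i + 1)).A₀ + 2 := fun i hi => by
    have := allB_imp hf.1 i hi
    rw [Bool.and_eq_true] at this
    exact ⟨this.1, of_decide_eq_true this.2⟩
  have he : (nth L e L.length).A₀ = e := by simp [nth]
  have e1 : ∀ i < L.length, (((nth L e (i + 1)).A₀ : ℝ) + 1) / 1000000 + 1 / 1000000 =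
      (nth L e i).A₁ / 1000000 := fun i hi => by rw [(H i hi).2.2]; push_cast; ring
  refine ⟨L.length, fun i => ((nth L e i).A₀ + 1) / 1000000, fun i => (nth L e i).v / 2 ^ 40,
    1 / 1000000, by norm_num, ?_, fun i hi => ?_, ?_, fun i hi => ?_, ?_⟩
  · have : (1000000 : ℝ) < (nth L e 0).A₀ := by exact_mod_cast h1
    linarith
  · have : ((nth L e i).A₀ : ℝ) ≤ (nth L e (i + 1)).A₀ := by exact_mod_cast (H i hi).2.1
    linarith
  · have : (e : ℝ) + 1 ≤ 1250000 := by exact_mod_cast h2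
    simp only [he]
    linarith
  · simp only [e1 i hi]
    rw [show (((nth L e i).A₀ : ℝ) + 1) / 1000000 - 1 / 1000000 = (nth L e i).A₀ / 1000000 by ring]
    refine Par.cell h5 hA _ (h _ ?_) (H i hi).1
    rw [nth, List.getD_eq_getElem _ _ hi]
    exact List.getElem_mem hi
  · rw [sum_congr rfl (g := fun i => ((nth L e i).A₁ * (nth L e i).v : ℝ) / (10 ^ 6 * 2 ^ 40))
      fun i hi => by simp only [e1 i (mem_range.1 hi)]; ring, ← sum_div]
    simp only [he]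
    have h5 : (b : ℝ) ^ 2 * (10 ^ 6 * ∑ i ∈ range L.length, ((nth L e i).A₁ * (nth L e i).v : ℝ) +
        2 ^ 41 * ((nth L e 0).A₀ + 1) ^ 2) + 2 ^ 41 * 10 ^ 12 * a ^ 2 <
        b ^ 2 * 2 ^ 40 * (3 * 10 ^ 12 + 2 * (e + 1) ^ 2) := by exact_mod_cast h4
    have hb : (0 : ℝ) < b := by exact_mod_cast h3
    generalize ∑ i ∈ range L.length, ((nth L e i).A₁ * (nth L e i).v : ℝ) = S at h5 ⊢
    have ha : (a : ℝ) = a / b * b := by field_simp
    generalize (a : ℝ) / b = x at ha ⊢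
    rw [ha] at h5
    refine lt_of_mul_lt_mul_left (a := (b : ℝ) ^ 2 * (10 ^ 12 * 2 ^ 40)) ?_ (by positivity)
    linarith

end Pool.Agent.Lib.MP_4b1228_nt.PP.Ct
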