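import Pool.Agent.Lib.MP_4b1228_nt.PP.CtF

/-!
Cell certificates: soundness of the sum over the sets of small primes.
-/

open Finset Real
open scoped Classical

noncomputable section

namespace Pool.Agent.Lib.MP_4b1228_nt.PP.Ct

namespace SS

lemma blt_false {a b : ℕ} (h : ¬ a < b) : Nat.blt a b = false :=
  Bool.eq_false_iff.2 fun h1 => h (by simpa using h1)

lemma winB_imp {WL WH a b : ℕ} : ∀ ss : List (ℕ × ℕ), winB WL WH a b ss = true →
    ∃ e ∈ ss, WL ≤ e.1 + a ∧ e.2 + b ≤ WH := by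
  intro ss
  induction ss with
  | nil => intro h; exact absurd h (by simp [winB])
  | cons e ss ih =>
    intro h
    have e1 : winB WL WH a b (e :: ss) = cond (Nat.ble WL (Nat.add e.1 a) &&
      Nat.ble (Nat.add e.2 b) WH) true (winB WL WH a b ss) := rfl
    rw [e1] at h
    cases hc : (Nat.ble WL (Nat.add e.1 a) && Nat.ble (Nat.add e.2 b) WH) with
    | true =>
      simp only [Bool.and_eq_true, Nat.ble_eq, Nat.add_eq] at hc
      exact ⟨e, List.mem_cons_self, hc⟩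
    | false =>
      rw [hc] at h
      obtain ⟨e', h1, h2⟩ := ih h
      exact ⟨e', List.mem_cons_of_mem _ h1, h2⟩

lemma addK_spec {WH a b : ℕ} : ∀ ss acc : List (ℕ × ℕ), ∃ acc' : List (ℕ × ℕ),
    (∀ k, addK WH a b k ss acc = k acc') ∧
      ∀ e ∈ acc', e ∈ acc ∨ ∃ e₀ ∈ ss, e = (e₀.1 + a, e₀.2 + b) := by
  intro ss
  induction ss with
  | nil => exact fun acc => ⟨acc, fun k => rfl, fun e he => Or.inl he⟩
  | cons e ss ih =>
    intro acc
    have e1 : ∀ k, addK WH a b k (e :: ss) acc = frc (Nat.add e.2 b) fun y =>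
      cond (Nat.ble y WH) (frc (Nat.add e.1 a) fun x => addK WH a b k ss ((x, y) :: acc))
        (addK WH a b k ss acc) := fun k => rfl
    simp only [frc_eq, Nat.add_eq] at e1
    cases hc : Nat.ble (e.2 + b) WH with
    | true =>
      obtain ⟨acc', h1, h2⟩ := ih ((e.1 + a, e.2 + b) :: acc)
      refine ⟨acc', fun k => by rw [e1, hc, cond_true, h1], fun x hx => ?_⟩
      rcases h2 x hx with h | ⟨e₀, h, h'⟩
      · rcases List.mem_cons.1 h with h | h
        · exact Or.inr ⟨e, List.mem_cons_self, h⟩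
        · exact Or.inl h
      · exact Or.inr ⟨e₀, List.mem_cons_of_mem _ h, h'⟩
    | false =>
      obtain ⟨acc', h1, h2⟩ := ih acc
      refine ⟨acc', fun k => by rw [e1, hc, cond_false, h1], fun x hx => ?_⟩
      rcases h2 x hx with h | ⟨e₀, h, h'⟩
      · exact Or.inl h
      · exact Or.inr ⟨e₀, List.mem_cons_of_mem _ h, h'⟩

lemma lo_cons (t : ℕ → ℕ) (d : ℕ) (v : Multiset ℕ) : lo t (d ::ₘ v) = lo t v + t d := by
  simp [lo, add_comm]

lemma hi_cons (t : ℕ → ℕ) (d : ℕ) (v : Multiset ℕ) : hi t (d ::ₘ v) = hi t v + t (d + 1) := by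
  simp [hi, add_comm]

lemma card_le_lo {t : ℕ → ℕ} (ht : Monotone t) (v : Multiset ℕ) : v.card * t 0 ≤ lo t v := by
  induction v using Multiset.induction_on with
  | empty => simp
  | cons d v ih =>
    rw [lo_cons, Multiset.card_cons, add_mul, one_mul]
    exact add_le_add ih (ht (Nat.zero_le _))

/-- Real form of the slab bound. -/
def slabR (a U del : ℕ) : ℝ := if U < a then 0 else lgR ((min (a + del) U : ℕ) / a)

lemma slabR_nonneg {a : ℕ} (ha : 0 < a) (U del : ℕ) : 0 ≤ slabR a U del := by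
  unfold slabR
  split_ifs with h
  · exact le_rfl
  · refine lgR_nonneg ?_
    rw [one_le_div (by exact_mod_cast ha)]
    exact_mod_cast le_min (Nat.le_add_right _ _) (not_lt.1 h)

lemma slabR_le {a : ℕ} (ha : 0 < a) (U del : ℕ) :
    slabR a U del ≤ (slabN a U del : ℝ) / 2 ^ 32 := by
  unfold slabR slabN
  split_ifs with h
  · positivity
  · rw [blt_false h, cond_false, frc_eq, mnN_eq]
    exact lgN_ge ha (le_min (Nat.le_add_right _ _) (not_lt.1 h))

lemma slabR_le' {a b : ℕ} (hb : 0 < b) (h : b ≤ a) (U del : ℕ) :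
    slabR a U del ≤ (lgN b (b + del) : ℝ) / 2 ^ 32 := by
  have hb' : (0 : ℝ) < b := by exact_mod_cast hb
  have h' : (b : ℝ) ≤ a := by exact_mod_cast h
  have ha' : (0 : ℝ) < a := by linarith
  unfold slabR
  split_ifs with h1
  · positivity
  · refine le_trans (lgR_mono ?_ ?_) (lgN_ge hb (Nat.le_add_right b del))
    · refine div_pos ?_ ha'
      exact_mod_cast lt_min (by omega) (by omega)
    · have h2 : ((min (a + del) U : ℕ) : ℝ) ≤ a + del := by exact_mod_cast min_le_left _ _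
      rw [div_le_div_iff₀ ha' hb']
      push_cast at h2 ⊢
      have : (0 : ℝ) ≤ del := Nat.cast_nonneg _
      nlinarith

lemma slab_mass {P : Finset ℕ} {w s : ℕ → ℝ} {Z a : ℕ} (D : Dat P w s Z) (hZ : Z ≤ a) (ha : 0 < a)
    (U del : ℕ) (x : ℝ) :
    ∑ q ∈ P with (a : ℝ) ≤ s q ∧ s q ≤ U ∧ x ≤ s q ∧ s q ≤ x + del, w q ≤ slabR a U del := by
  have ha' : (0 : ℝ) < a := by exact_mod_cast ha
  have hd : (0 : ℝ) ≤ del := Nat.cast_nonneg _
  by_cases h : (U : ℝ) < max x a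
  · refine le_trans (le_of_eq (sum_eq_zero fun q hq => ?_)) (slabR_nonneg ha U del)
    obtain ⟨-, h1, h2, h3, -⟩ := mem_filter.1 hq
    exact absurd (max_le (h3.trans h2) (h1.trans h2)) (not_le.2 h)
  rw [not_lt] at h
  have h0 : (a : ℝ) ≤ max x a := le_max_right _ _
  have h1 : ¬ U < a := not_lt.2 (by exact_mod_cast h0.trans h)
  have h2 := D.mert (max x a) (min (max x a + del) U) (le_trans (by exact_mod_cast hZ) h0)
    (le_min (by linarith) h)
  refine le_trans (sum_le_sum_of_subset_of_nonneg (fun q hq => ?_) fun q _ _ => D.w0 q)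
    (h2.trans ?_)
  · obtain ⟨hq, h3, h4, h5, h6⟩ := mem_filter.1 hq
    exact mem_filter.2 ⟨hq, max_le h5 h3, le_min (by linarith [le_max_left x (a : ℝ)]) h4⟩
  · rw [slabR, if_neg h1]
    refine lgR_mono (div_pos (lt_min (by linarith) (by linarith)) (by linarith)) ?_
    push_cast
    generalize max x (a : ℝ) = α at *
    rw [div_le_div_iff₀ (by linarith) ha']
    rcases le_total ((a : ℝ) + del) U with h3 | h3
    · rw [min_eq_left h3]
      nlinarith [min_le_left (α + del) U]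
    · rw [min_eq_right h3]
      nlinarith [min_le_right (α + del) U]

section
variable (A₀ A₁ WL WH NS g nt cm : ℕ) (t T₀ T₁ : ℕ → ℕ)

def Dead (l : List ℕ) : Prop := Win t WL WH l ∨ A₁ < lo t l

def Inv (l : List ℕ) (st : SSt) : Prop :=
  st.2.1 = lo t l ∧ st.2.2.1 = hi t l ∧ st.2.2.2 = l.length ∧
    (∀ e ∈ st.1, ∃ v, v ≤ (l : Multiset ℕ) ∧ e = (lo t v, hi t v)) ∧ ∀ d ∈ l, d < NS

/-- The table entry for a list. -/
def tb (T : ℕ → ℕ) (l : List ℕ) : ℕ :=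
  min (mxa T ((A₀ - lo t l) / g + 1 - (A₀ - hi t l) / g) ((A₀ - hi t l) / g) 0) (mxa T nt 0 0)

def g₁ (l : List ℕ) : ℝ :=
  if Dead A₁ WL WH t l ∨ l.length < 2 then 0 else
    ((l.length - 1 : ℕ) * (l.length - 2 : ℕ) / 2 : ℝ) * (tb A₀ g nt t T₀ l / 2 ^ 40) +
      (l.length - 1 : ℕ) * (cm / 1024) * (tb A₀ g nt t T₁ l / 2 ^ 40)

def sl (l : List ℕ) : ℝ :=
  if t NS < max (A₀ - hi t l) (t (l.headD 0)) then 0 else
    slabR (max (A₀ - hi t l) (t (l.headD 0))) (A₁ - lo t l) (A₁ - A₀)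

def g₂ (l : List ℕ) : ℝ :=
  if Dead A₁ WL WH t l ∨ l.length < 2 then 0 else
    (l.length * (l.length - 1 : ℕ) / 2 : ℝ) * sl A₀ A₁ NS t l

variable {A₀ A₁ WL WH NS g nt cm t T₀ T₁}

lemma sl_nonneg (ht : Monotone t) (h0 : 0 < t 0) (l : List ℕ) : 0 ≤ sl A₀ A₁ NS t l := by
  unfold sl
  split_ifs
  · exact le_rfl
  · exact slabR_nonneg (lt_max_of_lt_right (h0.trans_le (ht (Nat.zero_le _)))) _ _

lemma g₁_nonneg (l : List ℕ) : 0 ≤ g₁ A₀ A₁ WL WH g nt cm t T₀ T₁ l := by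
  unfold g₁
  split_ifs
  · exact le_rfl
  · positivity

lemma g₂_nonneg (ht : Monotone t) (h0 : 0 < t 0) (l : List ℕ) : 0 ≤ g₂ A₀ A₁ WL WH NS t l := by
  have := sl_nonneg (A₀ := A₀) (A₁ := A₁) (NS := NS) ht h0 l
  unfold g₂
  split_ifs
  · exact le_rfl
  · positivity

lemma dead_cons {l : List ℕ} (d : ℕ) (h : Dead A₁ WL WH t l) : Dead A₁ WL WH t (d :: l) := by
  rcases h with ⟨v, h1, h2⟩ | h
  · exact Or.inl ⟨v, h1.trans (Multiset.le_cons_self _ d), h2⟩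
  · right
    rw [← Multiset.cons_coe, lo_cons]
    omega

lemma leaf_le (ht : Monotone t) (h0 : 0 < t 0) (l : List ℕ) (st : SSt) (m : ℕ)
    (h : Inv NS t l st) :
    m * (g₁ A₀ A₁ WL WH g nt cm t T₀ T₁ l + g₂ A₀ A₁ WL WH NS t l) ≤
      smLeaf A₀ A₁ NS g cm t T₀ T₁ st (l.headD 0) m := by
  obtain ⟨h1, h2, h3, -⟩ := h
  unfold g₁ g₂
  split_ifs with hd
  · rw [add_zero, mul_zero]; exact Nat.cast_nonneg _
  have hj : Nat.blt l.length 2 = false := blt_false (not_or.1 hd).2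
  rw [smLeaf, h1, h2, h3, hj, cond_false]
  simp only [frc_eq, mxN_eq, Nat.add_eq, Nat.sub_eq, Nat.mul_eq, Nat.shiftRight_eq,
    Nat.shiftRight_eq_div_pow, Nat.succ_eq_add_one, dv]
  refine le_trans ?_ (div_lt _ _ (by positivity))
  have a0 : (tb A₀ g nt t T₀ l : ℝ) ≤ (mxa T₀ ((A₀ - lo t l) / g + 1 - (A₀ - hi t l) / g)
      ((A₀ - hi t l) / g) 0 : ℕ) := by exact_mod_cast min_le_left _ _
  have a1 : (tb A₀ g nt t T₁ l : ℝ) ≤ (mxa T₁ ((A₀ - lo t l) / g + 1 - (A₀ - hi t l) / g)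
      ((A₀ - hi t l) / g) 0 : ℕ) := by exact_mod_cast min_le_left _ _
  have a2 : sl A₀ A₁ NS t l ≤ ((cond (Nat.blt (t NS) (max (A₀ - hi t l) (t (l.headD 0)))) 0
      (slabN (max (A₀ - hi t l) (t (l.headD 0))) (A₁ - lo t l) (A₁ - A₀)) : ℕ) : ℝ) / 2 ^ 32 := by
    unfold sl
    split_ifs with h4
    · positivity
    · rw [blt_false h4, cond_false]
      exact slabR_le (lt_max_of_lt_right (h0.trans_le (ht (Nat.zero_le _)))) _ _
  generalize mxa T₀ _ _ 0 = x₀ at *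
  generalize mxa T₁ _ _ 0 = x₁ at *
  generalize cond (Nat.blt (t NS) _) 0 _ = x₂ at *
  generalize l.length - 1 = j₁
  generalize l.length - 2 = j₂
  push_cast
  rw [mul_div_assoc (m : ℝ)]
  refine mul_le_mul_of_nonneg_left ?_ (Nat.cast_nonneg _)
  calc _ ≤ (j₁ * j₂ / 2 : ℝ) * (x₀ / 2 ^ 40) + j₁ * (cm / 1024) * (x₁ / 2 ^ 40) +
        (l.length * j₁ / 2 : ℝ) * (x₂ / 2 ^ 32) := by gcongr
    _ = _ := by ring

lemma g_le (ht : Monotone t) (h0 : 0 < t 0) (l : List ℕ) :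
    g₁ A₀ A₁ WL WH g nt cm t T₀ T₁ l + g₂ A₀ A₁ WL WH NS t l ≤
      (l.length * (l.length - 1) / 2 : ℝ) * ((1024 * mxa T₀ nt 0 0 + cm * mxa T₁ nt 0 0 +
        262144 * lgN (t (l.headD 0)) (t (l.headD 0) + (A₁ - A₀)) : ℕ) / 2 ^ 50) := by
  have hl : (0 : ℝ) ≤ l.length * (l.length - 1) := by
    rcases Nat.eq_zero_or_pos l.length with h | h
    · simp [h]
    · have : (1 : ℝ) ≤ l.length := by exact_mod_cast h
      nlinarith
  unfold g₁ g₂
  split_ifs with hd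
  · rw [add_zero]; positivity
  rw [not_or, not_lt] at hd
  have a0 : (tb A₀ g nt t T₀ l : ℝ) ≤ (mxa T₀ nt 0 0 : ℕ) := by exact_mod_cast min_le_right _ _
  have a1 : (tb A₀ g nt t T₁ l : ℝ) ≤ (mxa T₁ nt 0 0 : ℕ) := by exact_mod_cast min_le_right _ _
  have a2 : sl A₀ A₁ NS t l ≤ (lgN (t (l.headD 0)) (t (l.headD 0) + (A₁ - A₀)) : ℝ) / 2 ^ 32 := by
    unfold sl
    split_ifs
    · positivity
    · exact slabR_le' (h0.trans_le (ht (Nat.zero_le _))) (le_max_right _ _) _ _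
  have hj : (2 : ℝ) ≤ l.length := by exact_mod_cast hd.2
  rw [Nat.cast_sub (by omega : 1 ≤ l.length), Nat.cast_sub hd.2]
  generalize mxa T₀ nt 0 0 = x₀ at *
  generalize mxa T₁ nt 0 0 = x₁ at *
  generalize lgN _ _ = x₂ at *
  push_cast
  generalize (l.length : ℝ) = j at *
  have b0 : (j - 1) * (j - 2) / 2 ≤ j * (j - 1) / 2 := by nlinarith
  have b1 : j - 1 ≤ j * (j - 1) / 2 := by nlinarith
  have b2 : 0 ≤ j * (j - 1) / 2 := by positivity
  calc _ ≤ (j * (j - 1) / 2) * (x₀ / 2 ^ 40) + (j * (j - 1) / 2) * (cm / 1024) * (x₁ / 2 ^ 40) +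
        (j * (j - 1) / 2) * (x₂ / 2 ^ 32) := by gcongr
    _ = _ := by ring

lemma nn_le {H : ℕ → ℕ} (ht : Monotone t) (h0 : 0 < t 0)
    (hok : smOk A₀ A₁ NS nt cm t T₀ T₁ H = true) (f : ℕ) : ∀ l : List ℕ, 3 ≤ l.length →
    l.headD 0 < NS → NN NS 0 (fun d => (smL t d : ℝ) / 2 ^ 32)
      (fun l => g₁ A₀ A₁ WL WH g nt cm t T₀ T₁ l + g₂ A₀ A₁ WL WH NS t l) f l ≤
      (l.length * (l.length - 1) / 2 : ℝ) * (H (l.headD 0) / 2 ^ 50) := by
  have key : ∀ c < NS, ((1024 * mxa T₀ nt 0 0 + cm * mxa T₁ nt 0 0 +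
      262144 * lgN (t c) (t c + (A₁ - A₀)) : ℕ) : ℝ) +
      (∑ d ∈ Ico c NS, (smL t d : ℝ) * H d) / 2 ^ 31 ≤ H c := by
    intro c hc
    rw [smOk, frc_eq] at hok
    have h1 := allB_imp hok c hc
    simp only [Nat.ble_eq, Nat.add_eq, Nat.sub_eq, Nat.mul_eq, Nat.shiftLeft_eq',
      Nat.shiftLeft_eq] at h1
    have h2 := lp_ge (fun _ => false) (fun _ => true) (fun d => smL t d * H d)
      (fun d => (smL t d : ℝ) * H d) NS (NS - c) c (by omega) (by simp) (by simp) (by simp)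
    generalize lp _ _ _ _ _ = y at h1 h2
    generalize 1024 * mxa T₀ nt 0 0 + cm * mxa T₁ nt 0 0 + 262144 * lgN _ _ = K at h1 ⊢
    have h3 : (K : ℝ) * 2 ^ 31 + y ≤ H c * 2 ^ 31 := by exact_mod_cast h1
    rw [← sub_nonneg]
    have : (H c : ℝ) - (K + (∑ d ∈ Ico c NS, (smL t d : ℝ) * H d) / 2 ^ 31) =
      (H c * 2 ^ 31 - K * 2 ^ 31 - ∑ d ∈ Ico c NS, (smL t d : ℝ) * H d) / 2 ^ 31 := by ring
    rw [this]
    exact div_nonneg (by linarith) (by positivity)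
  induction f with
  | zero =>
    intro l h3 hc
    have hj : (3 : ℝ) ≤ l.length := by exact_mod_cast h3
    refine (g_le ht h0 l).trans (mul_le_mul_of_nonneg_left ?_ (by nlinarith))
    have h4 := key _ hc
    have h5 : 0 ≤ (∑ d ∈ Ico (l.headD 0) NS, (smL t d : ℝ) * H d) / 2 ^ 31 := by positivity
    exact div_le_div_of_nonneg_right (by linarith) (by positivity)
  | succ f ih =>
    intro l h3 hc
    have hj : (3 : ℝ) ≤ l.length := by exact_mod_cast h3
    have h4 := key _ hc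
    have h6 := g_le (A₀ := A₀) (A₁ := A₁) (WL := WL) (WH := WH) (NS := NS) (g := g) (nt := nt)
      (cm := cm) (T₀ := T₀) (T₁ := T₁) ht h0 l
    have h7 : Ph NS 0 (fun d => (smL t d : ℝ) / 2 ^ 32) (NN NS 0 (fun d => (smL t d : ℝ) / 2 ^ 32)
        (fun l => g₁ A₀ A₁ WL WH g nt cm t T₀ T₁ l + g₂ A₀ A₁ WL WH NS t l) f) l ≤
        (l.length * (l.length - 1) / 2 : ℝ) *
          ((∑ d ∈ Ico (l.headD 0) NS, (smL t d : ℝ) * H d) / 2 ^ 31 / 2 ^ 50) := by
      rw [Ph, sum_div, sum_div, mul_sum]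
      refine sum_le_sum fun d hd => ?_
      have h8 := ih (d :: l) (by simp; omega) (mem_Ico.1 hd).2
      simp only [List.length_cons, List.headD_cons] at h8
      push_cast at h8
      have h9 : (smL t d : ℝ) / 2 ^ 32 / (l.count d + 1) ≤ (smL t d : ℝ) / 2 ^ 32 :=
        div_le_self (by positivity) (by simp)
      have h10 : ((l.length : ℝ) + 1) * (l.length + 1 - 1) / 2 ≤ l.length * (l.length - 1) := by
        nlinarith
      calc _ ≤ (smL t d : ℝ) / 2 ^ 32 * (l.length * (l.length - 1) * (H d / 2 ^ 50)) :=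
            mul_le_mul h9 (h8.trans (mul_le_mul_of_nonneg_right h10 (by positivity)))
              (NN_nonneg (fun d => by positivity)
                (fun l => add_nonneg (g₁_nonneg l) (g₂_nonneg ht h0 l)) _ _) (by positivity)
        _ = _ := by ring
    rw [NN]
    refine (add_le_add h6 h7).trans ?_
    rw [← mul_add, ← add_div]
    refine mul_le_mul_of_nonneg_left ?_ (by nlinarith)
    gcongr

lemma cru_le {H : ℕ → ℕ} {eps : ℕ} (ht : Monotone t) (h0 : 0 < t 0)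
    (hok : smOk A₀ A₁ NS nt cm t T₀ T₁ H = true) (l : List ℕ) (st : SSt) (m : ℕ)
    (h : Inv NS t l st) (hc : smCru eps H st (l.headD 0) m ≤ eps) (f : ℕ) :
    m * NN NS 0 (fun d => (smL t d : ℝ) / 2 ^ 32)
      (fun l => g₁ A₀ A₁ WL WH g nt cm t T₀ T₁ l + g₂ A₀ A₁ WL WH NS t l) f l ≤
      smCru eps H st (l.headD 0) m := by
  obtain ⟨-, -, h3, -, h5⟩ := h
  rw [smCru, h3] at hc ⊢
  have hj : 3 ≤ l.length := by
    by_contra h4
    have : Nat.blt l.length 3 = true := by simpa using h4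
    rw [this, cond_true] at hc
    exact absurd hc (by simp)
  have hb : Nat.blt l.length 3 = false := blt_false (not_lt.2 hj)
  have hh : l.headD 0 < NS := by
    cases l with
    | nil => simp at hj
    | cons a l => exact h5 a List.mem_cons_self
  rw [hb, cond_false]
  simp only [Nat.sub_eq, Nat.mul_eq, Nat.shiftRight_eq, Nat.shiftRight_eq_div_pow,
    Nat.succ_eq_add_one]
  refine le_trans ?_ (div_lt _ _ (by positivity))
  refine (mul_le_mul_of_nonneg_left (nn_le ht h0 hok f l hj hh) (Nat.cast_nonneg _)).trans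
    (le_of_eq ?_)
  push_cast [Nat.cast_sub (by omega : 1 ≤ l.length)]
  ring

lemma nx_spec (l : List ℕ) (st : SSt) (d : ℕ) (h : Inv NS t l st) (hd : d < NS) :
    ∃ st', Inv NS t (d :: l) st' ∧ ∀ k, smNx WH t st d k = k st' := by
  obtain ⟨h1, h2, h3, h4, h5⟩ := h
  obtain ⟨acc, a1, a2⟩ := addK_spec (WH := WH) (a := t d) (b := t (d + 1)) st.1 st.1
  refine ⟨(acc, st.2.1 + t d, st.2.2.1 + t (d + 1), st.2.2.2 + 1), ⟨?_, ?_, ?_, ?_, ?_⟩,
    fun k => ?_⟩
  · rw [← Multiset.cons_coe, lo_cons, ← h1]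
  · rw [← Multiset.cons_coe, hi_cons, ← h2]
  · rw [List.length_cons, ← h3]
  · intro e he
    rcases a2 e he with h | ⟨e₀, h, rfl⟩
    · obtain ⟨v, b1, b2⟩ := h4 e h
      exact ⟨v, b1.trans (Multiset.le_cons_self _ d), b2⟩
    · obtain ⟨v, b1, rfl⟩ := h4 e₀ h
      exact ⟨d ::ₘ v, Multiset.cons_le_cons d b1, by rw [lo_cons, hi_cons]⟩
  · intro x hx
    rcases List.mem_cons.1 hx with rfl | hx
    · exact hd
    · exact h5 x hx
  · simp only [smNx, frc_eq]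
    exact a1 _

lemma tree {H : ℕ → ℕ} {eps : ℕ} (ht : Monotone t) (h0 : 0 < t 0)
    (hok : smOk A₀ A₁ NS nt cm t T₀ T₁ H = true) :
    NN NS 0 (fun d => (smL t d : ℝ) / 2 ^ 32)
      (fun l => g₁ A₀ A₁ WL WH g nt cm t T₀ T₁ l + g₂ A₀ A₁ WL WH NS t l) (A₁ / t 0) [] ≤
      (sm A₀ A₁ WL WH NS g cm eps t T₀ T₁ H : ℝ) / 2 ^ 40 := by
  have h := tr_le (n := NS) (eps := eps) (L := smL t) (cru := smCru eps H)
    (leaf := smLeaf A₀ A₁ NS g cm t T₀ T₁)
    (stop := fun st d => Nat.blt A₁ (Nat.add st.2.1 (t d)))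
    (ok := fun st d => frc (t d) fun a => frc (t (Nat.succ d)) fun b => !winB WL WH a b st.1)
    (nx := smNx WH t) (c₀ := 0)
    (g := fun l => g₁ A₀ A₁ WL WH g nt cm t T₀ T₁ l + g₂ A₀ A₁ WL WH NS t l)
    (Inv NS t) (Dead A₁ WL WH t) (fun l => add_nonneg (g₁_nonneg l) (g₂_nonneg ht h0 l))
    (fun l hl => by simp only [g₁, g₂, hl, true_or, if_true, add_zero])
    (fun l d hl _ => dead_cons d hl) (fun l st m hi => leaf_le ht h0 l st m hi)
    (fun l st m hi hc f => cru_le ht h0 hok l st m hi hc f)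
    (fun l st d d' hi hs hd => by
      right
      rw [← Multiset.cons_coe, lo_cons, ← hi.1]
      simp only [Nat.blt_eq, Nat.add_eq] at hs
      exact hs.trans_le (Nat.add_le_add_left (ht hd) _))
    (fun l st d hi ho => by
      left
      simp only [frc_eq, Bool.not_eq_false', Nat.succ_eq_add_one] at ho
      obtain ⟨e, he, b1, b2⟩ := winB_imp _ ho
      obtain ⟨v, c1, rfl⟩ := hi.2.2.2.1 e he
      exact ⟨d ::ₘ v, Multiset.cons_le_cons d c1, by rwa [lo_cons], by rwa [hi_cons]⟩)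
    (fun l st d hi _ hd => nx_spec l st d hi hd) (A₁ / t 0) [] ([(0, 0)], 0, 0, 0) 0
    1099511627776 ⟨rfl, rfl, rfl, fun e he => ⟨0, le_rfl, by simpa [lo, hi] using he⟩, by simp⟩
    (Nat.zero_le _)
  rw [le_div_iff₀ (by positivity), mul_comm]
  refine le_trans (le_of_eq ?_) h
  norm_num

variable {P : Finset ℕ} {w s : ℕ → ℝ} {cls : ℕ → ℕ}

lemma lo_le (hc : ∀ p ∈ P, cls p < NS ∧ (t (cls p) : ℝ) ≤ s p ∧ s p < t (cls p + 1))
    {R : Finset ℕ} (hR : R ⊆ P) :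
    (lo t (pl cls R) : ℝ) ≤ ∑ p ∈ R, s p ∧ ∑ p ∈ R, s p ≤ hi t (pl cls R) := by
  have h1 : (lo t (pl cls R) : ℝ) = ∑ p ∈ R, (t (cls p) : ℝ) := by
    rw [pl_coe, lo, Multiset.map_map, ← Nat.cast_sum]
    rfl
  have h2 : (hi t (pl cls R) : ℝ) = ∑ p ∈ R, (t (cls p + 1) : ℝ) := by
    rw [pl_coe, hi, Multiset.map_map, ← Nat.cast_sum]
    rfl
  rw [h1, h2]
  exact ⟨sum_le_sum fun p hp => (hc p (hR hp)).2.1, sum_le_sum fun p hp => (hc p (hR hp)).2.2.le⟩

lemma cast_sub_le {a b : ℕ} {x : ℝ} :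
    ((b : ℝ) ≤ x → max (a - x) 0 ≤ (a - b : ℕ)) ∧ (x ≤ b → ((a - b : ℕ) : ℝ) ≤ max (a - x) 0) := by
  rcases le_total a b with h | h
  · have h' : (a : ℝ) ≤ b := by exact_mod_cast h
    rw [Nat.sub_eq_zero_of_le h, Nat.cast_zero]
    exact ⟨fun h1 => max_le (by linarith) le_rfl, fun _ => le_max_right _ _⟩
  · have h' : (b : ℝ) ≤ a := by exact_mod_cast h
    rw [Nat.cast_sub h]
    exact ⟨fun h1 => max_le (by linarith) (by linarith),
      fun h1 => le_trans (by linarith) (le_max_left _ _)⟩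

lemma idx (ht : Monotone t) (hg : 0 < g) (hn : (A₀ - 2 * t 0) / g < nt) (l : List ℕ)
    (h2 : 2 ≤ l.length) {x : ℝ} (h3 : (lo t l : ℝ) ≤ x) (h4 : x ≤ hi t l) :
    ∃ i < nt, (i * g : ℝ) ≤ max (A₀ - x) 0 ∧ max (A₀ - x) 0 ≤ (i + 1) * g ∧
      ∀ T : ℕ → ℕ, T i ≤ tb A₀ g nt t T l := by
  have hg' : (0 : ℝ) < g := by exact_mod_cast hg
  have hu : 0 ≤ max ((A₀ : ℝ) - x) 0 := le_max_right _ _
  have a1 := (cast_sub_le (a := A₀)).1 h3
  have a2 := (cast_sub_le (a := A₀)).2 h4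
  generalize max ((A₀ : ℝ) - x) 0 = u at *
  have b1 : ⌊u / g⌋₊ ≤ (A₀ - lo t l) / g := by
    rw [← Nat.floor_div_eq_div (K := ℝ)]
    exact Nat.floor_le_floor (by gcongr)
  have b2 : (A₀ - hi t l) / g ≤ ⌊u / g⌋₊ := by
    rw [← Nat.floor_div_eq_div (K := ℝ)]
    exact Nat.floor_le_floor (by gcongr)
  have b3 : 2 * t 0 ≤ lo t l :=
    le_trans (Nat.mul_le_mul_right _ (by simpa using h2)) (card_le_lo ht l)
  have b4 : ⌊u / g⌋₊ < nt :=
    (b1.trans (Nat.div_le_div_right (Nat.sub_le_sub_left b3 _))).trans_lt hn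
  refine ⟨⌊u / g⌋₊, b4, (le_div_iff₀ hg').1 (Nat.floor_le (by positivity)),
    (div_le_iff₀ hg').1 (Nat.lt_floor_add_one _).le, fun T => le_min ?_ ?_⟩
  · exact (mxa_ge T _ _ 0).2 _ b2 (by omega)
  · exact (mxa_ge T _ _ 0).2 _ (Nat.zero_le _) (by omega)

lemma part₂ (D : Dat P w s (t 0)) (ht : Monotone t) (h0 : 0 < t 0) (hA : A₀ ≤ A₁)
    (hc : ∀ p ∈ P, cls p < NS ∧ (t (cls p) : ℝ) ≤ s p ∧ s p < t (cls p + 1)) :
    ∑ R ∈ P.powerset, (if (¬ Win t WL WH (R.val.map cls) ∧ ∑ p ∈ R, s p ≤ A₁) ∧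
      (A₀ : ℝ) ≤ ∑ p ∈ R, s p then
        (∏ p ∈ R, w p) * ((R.card - 1 : ℕ) * (R.card - 2 : ℕ) / 2 : ℝ) else 0) ≤
      ∑ T ∈ P.powerset, (∏ p ∈ T, w p) * g₂ A₀ A₁ WL WH NS t (pl cls T) := by
  refine (peel P cls _ fun S => ?_).trans ?_
  · have := prod_nonneg fun p (_ : p ∈ S) => D.w0 p
    split_ifs
    · positivity
    · exact le_rfl
  have e0 : (if (¬ Win t WL WH ((∅ : Finset ℕ).val.map cls) ∧ ∑ p ∈ (∅ : Finset ℕ), s p ≤ A₁) ∧
      (A₀ : ℝ) ≤ ∑ p ∈ (∅ : Finset ℕ), s p then (∏ p ∈ (∅ : Finset ℕ), w p) *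
        (((∅ : Finset ℕ).card - 1 : ℕ) * ((∅ : Finset ℕ).card - 2 : ℕ) / 2 : ℝ) else 0) = 0 := by
    simp
  rw [e0, zero_add]
  refine sum_le_sum fun T hT => ?_
  have hT' := mem_powerset.1 hT
  have hw := prod_nonneg fun p (_ : p ∈ T) => D.w0 p
  obtain ⟨b1, b2⟩ := lo_le hc hT'
  have hpos : ∀ c, 0 < t c := fun c => h0.trans_le (ht (Nat.zero_le c))
  set a := max (A₀ - hi t (pl cls T)) (t ((pl cls T).headD 0)) with ha
  have ha0 : t 0 ≤ a := le_max_of_le_right (ht (Nat.zero_le _))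
  have hm := slab_mass D ha0 (h0.trans_le ha0) (A₁ - lo t (pl cls T)) (A₁ - A₀)
    (A₀ - ∑ p ∈ T, s p)
  have key : ∀ q ∈ P, q ∉ T → (∀ x ∈ T, cls x ≤ cls q) →
      (¬ Win t WL WH ((insert q T).val.map cls) ∧ ∑ p ∈ insert q T, s p ≤ A₁) ∧
        (A₀ : ℝ) ≤ ∑ p ∈ insert q T, s p → ¬ Dead A₁ WL WH t (pl cls T) ∧ ¬ t NS < a ∧
        (a : ℝ) ≤ s q ∧ s q ≤ (A₁ - lo t (pl cls T) : ℕ) ∧ A₀ - ∑ p ∈ T, s p ≤ s q ∧
          s q ≤ A₀ - ∑ p ∈ T, s p + (A₁ - A₀ : ℕ) := by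
    intro q hq hqT hx ⟨⟨c1, c2⟩, c3⟩
    rw [sum_insert hqT] at c2 c3
    obtain ⟨d1, d2, d3⟩ := hc q hq
    have d4 : (0 : ℝ) < t (cls q) := by exact_mod_cast hpos _
    have d5 : lo t (pl cls T) ≤ A₁ := by
      have : (lo t (pl cls T) : ℝ) ≤ A₁ := by linarith
      exact_mod_cast this
    have d6 : (a : ℝ) ≤ s q := by
      rw [ha, Nat.cast_max]
      refine max_le (((cast_sub_le (a := A₀)).2 b2).trans (max_le (by linarith) (by linarith)))
        (le_trans ?_ d2)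
      exact_mod_cast ht (pl_head_le (Nat.zero_le _) hx)
    have d7 : (t (cls q + 1) : ℝ) ≤ t NS := by exact_mod_cast ht d1
    refine ⟨?_, fun h => ?_, d6, ?_, by linarith, ?_⟩
    · rintro (⟨v, e1, e2⟩ | h)
      · refine c1 ⟨v, e1.trans ?_, e2⟩
        rw [pl_coe, insert_val_of_notMem hqT, Multiset.map_cons]
        exact Multiset.le_cons_self _ _
      · omega
    · have : (t NS : ℝ) < a := by exact_mod_cast h
      linarith
    · rw [Nat.cast_sub d5]; linarith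
    · rw [Nat.cast_sub hA]; linarith
  by_cases hz : Dead A₁ WL WH t (pl cls T) ∨ t NS < a
  · refine le_trans (le_of_eq (sum_eq_zero fun q hq => ?_)) (mul_nonneg hw (g₂_nonneg ht h0 _))
    obtain ⟨h1, h2, h3⟩ := mem_filter.1 hq
    rw [if_neg fun h => ?_, zero_div]
    obtain ⟨e1, e2, -⟩ := key q h1 h2 h3 h
    exact hz.elim e1 e2
  rw [not_or] at hz
  have hC : (0 : ℝ) ≤ T.card * (T.card - 1 : ℕ) / 2 := by positivity
  have e2 : g₂ A₀ A₁ WL WH NS t (pl cls T) =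
      (T.card * (T.card - 1 : ℕ) / 2 : ℝ) * slabR a (A₁ - lo t (pl cls T)) (A₁ - A₀) := by
    rw [g₂, sl, if_neg hz.2, pl_length]
    split_ifs with h
    · have h1 : T.card - 1 = 0 := by have := h.resolve_left hz.1; omega
      simp [h1]
    · rfl
  rw [e2]
  refine le_trans ?_ (mul_le_mul_of_nonneg_left (mul_le_mul_of_nonneg_left hm hC) hw)
  rw [mul_sum, mul_sum, sum_filter, sum_filter]
  refine sum_le_sum fun q hq => ?_
  have hq0 := D.w0 q
  by_cases h1 : q ∉ T ∧ ∀ x ∈ T, cls x ≤ cls q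
  · rw [if_pos h1]
    by_cases h2 : (¬ Win t WL WH ((insert q T).val.map cls) ∧ ∑ p ∈ insert q T, s p ≤ A₁) ∧
        (A₀ : ℝ) ≤ ∑ p ∈ insert q T, s p
    · rw [if_pos h2, if_pos (key q hq h1.1 h1.2 h2).2.2, prod_insert h1.1,
        card_insert_of_notMem h1.1]
      refine (div_le_self (by positivity) (by simp)).trans (le_of_eq ?_)
      rw [Nat.add_sub_cancel, show T.card + 1 - 2 = T.card - 1 by omega]
      ring
    · rw [if_neg h2, zero_div]
      split_ifs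
      · positivity
      · exact le_rfl
  · rw [if_neg h1]
    split_ifs
    · positivity
    · exact le_rfl

end

end SS

open SS in
theorem sS : SStmt := by
  intro P w s cls A₀ A₁ WL WH NS g nt cm eps t T₀ T₁ H B₀ B₁ D ht h0 hg hA hn hc hB hok
  refine le_trans ?_ (tree (WL := WL) (WH := WH) (g := g) (eps := eps) ht h0 hok)
  refine le_trans ?_ (tree_le (P := P) (key := cls) (w := w) D.w0
    (fun p hp => ⟨Nat.zero_le _, (hc p hp).1⟩) (fun d => ?_) _ _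
    (fun l => add_nonneg (g₁_nonneg l) (g₂_nonneg ht h0 l)) fun l hl => ?_)
  · simp only [mul_add (∏ p ∈ _, w p) (g₁ _ _ _ _ _ _ _ _ _ _ _)]
    rw [sum_add_distrib]
    refine le_trans ?_ (add_le_add le_rfl (part₂ (WL := WL) (WH := WH) D ht h0 hA hc))
    rw [← sum_add_distrib, sum_filter]
    refine sum_le_sum fun R hR => ?_
    have hR' := mem_powerset.1 hR
    have hw := prod_nonneg fun p (_ : p ∈ R) => D.w0 p
    by_cases h1 : ¬ Win t WL WH (R.val.map cls) ∧ ∑ p ∈ R, s p ≤ A₁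
    · obtain ⟨b1, b2⟩ := lo_le hc hR'
      have h2 : ((R.card - 1 : ℕ) * (R.card - 2 : ℕ) / 2 : ℝ) * B₀ (∑ p ∈ R, s p) +
          (R.card - 1 : ℕ) * (cm / 1024) * B₁ (∑ p ∈ R, s p) ≤
          g₁ A₀ A₁ WL WH g nt cm t T₀ T₁ (pl cls R) := by
        rcases lt_or_ge R.card 2 with h | h
        · rw [show R.card - 1 = 0 by omega]
          simpa using g₁_nonneg _
        have hn' : (A₀ - 2 * t 0) / g < nt := by
          refine hn.resolve_left fun h3 => ?_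
          obtain ⟨p, hp⟩ := card_pos.1 (by omega : 0 < R.card)
          have := (hc p (hR' hp)).1
          omega
        obtain ⟨i, c1, c2, c3, c4⟩ := idx ht hg hn' (pl cls R) (by rwa [pl_length]) b1 b2
        obtain ⟨d0, d1⟩ := hB _ i c1 c2 c3
        have e0 : (T₀ i : ℝ) ≤ tb A₀ g nt t T₀ (pl cls R) := by exact_mod_cast c4 T₀
        have e1 : (T₁ i : ℝ) ≤ tb A₀ g nt t T₁ (pl cls R) := by exact_mod_cast c4 T₁
        rw [g₁, if_neg, pl_length]
        · gcongr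
          · exact d0.trans (by gcongr)
          · exact d1.trans (by gcongr)
        · rw [pl_length]
          rintro ((h3 | h3) | h3)
          · exact h1.1 (by rwa [pl_coe] at h3)
          · have : (A₁ : ℝ) < lo t (pl cls R) := by exact_mod_cast h3
            linarith [h1.2]
          · omega
      have h3 := mul_le_mul_of_nonneg_left h2 hw
      rw [if_pos h1]
      by_cases h4 : (A₀ : ℝ) ≤ ∑ p ∈ R, s p
      · rw [if_pos h4, if_pos ⟨h1, h4⟩]
        linarith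
      · rw [if_neg h4, if_neg fun h => h4 h.2]
        linarith
    · rw [if_neg h1, if_neg fun h => h1 h.1, add_zero]
      exact mul_nonneg hw (g₁_nonneg _)
  · have h1 : (t d : ℝ) ≤ t (d + 1) := by exact_mod_cast ht (Nat.le_succ d)
    have h2 := D.mert (t d) (t (d + 1)) (by exact_mod_cast ht (Nat.zero_le d)) h1
    have h3 := lgN_ge (h0.trans_le (ht (Nat.zero_le d))) (ht (Nat.le_succ d))
    simp only [smL, frc_eq]
    refine le_trans (sum_le_sum_of_subset_of_nonneg (fun p hp => ?_) fun p _ _ => D.w0 p)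
      (h2.trans h3)
    obtain ⟨hq, rfl⟩ := mem_filter.1 hp
    exact mem_filter.2 ⟨hq, (hc p hq).2.1, (hc p hq).2.2.le⟩
  · have h1 : Dead A₁ WL WH t l := by
      right
      refine lt_of_lt_of_le ?_ (card_le_lo ht l)
      rw [Multiset.coe_card]
      exact (Nat.div_lt_iff_lt_mul h0).1 hl
    simp only [g₁, g₂, h1, true_or, if_true, add_zero]

end Pool.Agent.Lib.MP_4b1228_nt.PP.Ct
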