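import Pool.Agent.Lib.MP_4b1228_nt.PP.CtA
import Pool.Agent.Lib.MP_4b1228_nt.PP.CtC1
import Pool.Agent.Lib.MP_4b1228_nt.PP.CtC2
import Pool.Agent.Lib.MP_4b1228_nt.PP.CtC5
import Pool.Agent.Lib.MP_4b1228_nt.PP.CtE
import Pool.Agent.Lib.MP_4b1228_nt.PP.CtS
import Pool.Agent.Lib.MP_4b1228_nt.PP.CtG
import Pool.Agent.Lib.MP_4b1228_nt.PP.CtR0
import Pool.Agent.Lib.MP_4b1228_nt.PP.CtR1
import Pool.Agent.Lib.MP_4b1228_nt.PP.CtR2
import Pool.Agent.Lib.MP_4b1228_nt.PP.CtR3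
import Pool.Agent.Lib.MP_4b1228_nt.PP.CtR4
import Pool.Agent.Lib.MP_4b1228_nt.PP.CtR5
import Pool.Agent.Lib.MP_4b1228_nt.PP.CtR6
import Pool.Agent.Lib.MP_4b1228_nt.PP.CtR7

/-!
The certificate.
-/

namespace Pool.Agent.Lib.MP_4b1228_nt.PP

open Ct

def Ct.cells : List Par := [
  r0, r1, r2, r3, r4, r5, r6, r7, r8, r9, r10, r11, r12, r13, r14, r15, r16, r17, r18, r19, r20,
  r21, r22, r23, r24, r25, r26, r27, r28, r29, r30, r31, r32, r33, r34, r35, r36, r37, r38, r39,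
  r40, r41, r42, r43, r44, r45, r46, r47, r48, r49, r50, r51, r52, r53, r54, r55, r56, r57, r58,
  r59, r60, r61, r62, r63, r64, r65, r66, r67, r68, r69, r70, r71, r72, r73, r74, r75, r76, r77,
  r78, r79, r80, r81, r82, r83, r84]

theorem Ct.cells_ok : ∀ p ∈ cells, p.chk = true := by
  simp only [cells, List.forall_mem_cons]
  exact ⟨
  r0_ok, r1_ok, r2_ok, r3_ok, r4_ok, r5_ok, r6_ok, r7_ok, r8_ok, r9_ok, r10_ok, r11_ok, r12_ok,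
  r13_ok, r14_ok, r15_ok, r16_ok, r17_ok, r18_ok, r19_ok, r20_ok, r21_ok, r22_ok, r23_ok,
  r24_ok, r25_ok, r26_ok, r27_ok, r28_ok, r29_ok, r30_ok, r31_ok, r32_ok, r33_ok, r34_ok,
  r35_ok, r36_ok, r37_ok, r38_ok, r39_ok, r40_ok, r41_ok, r42_ok, r43_ok, r44_ok, r45_ok,
  r46_ok, r47_ok, r48_ok, r49_ok, r50_ok, r51_ok, r52_ok, r53_ok, r54_ok, r55_ok, r56_ok,
  r57_ok, r58_ok, r59_ok, r60_ok, r61_ok, r62_ok, r63_ok, r64_ok, r65_ok, r66_ok, r67_ok,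
  r68_ok, r69_ok, r70_ok, r71_ok, r72_ok, r73_ok, r74_ok, r75_ok, r76_ok, r77_ok, r78_ok,
  r79_ok, r80_ok, r81_ok, r82_ok, r83_ok, r84_ok, fun _ h => absurd h List.not_mem_nil⟩

theorem Ct.aC : AStmt := aS eS sS c2

theorem cert (hR : RhoStmt) (hM : MertStmt) : CertStmt (133 / 100) := by
  exact_mod_cast cert_of (c5 hR hM c1) aC cells 1216213 133 100 cells_ok (by decide +kernel)

end Pool.Agent.Lib.MP_4b1228_nt.PP
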