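import Pool.Agent.Lib.MP_4b1228_nt.PP.R4P3

/-! A check of the lower bound for the mean of the rows of one large prime. -/

namespace Pool.Agent.Lib.MP_4b1228_nt.PP.R4

/-- The number `w` is at most the mean. -/
def ckP (t : Tab) (w : ℤ) : Bool := decide ((w : ℚ) ≤ t.vP3)

theorem ckP_ok {t : Tab} {w : ℤ} (h : ckP t w = true) : (w : ℚ) ≤ t.vP3 := of_decide_eq_true h

end Pool.Agent.Lib.MP_4b1228_nt.PP.R4
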