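import Pool.Agent.Lib.MP_4b1228_nt.PP.CtD

/-!
Cell certificates: the coefficients of the majorant.
-/

open Finset Real Filter
open scoped Classical

noncomputable section

namespace Pool.Agent.Lib.MP_4b1228_nt.PP.Ct

def a2 (i : ℕ) : ℝ := if i = 0 then 1 else if i = 1 then -1 else if i = 2 then 1 else 0

def a1 (i : ℕ) : ℝ := if i = 0 then 1 else if i = 1 then -1 else 0

/-- The coefficients; the classes below `NS` are the small ones. -/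
def fP (NS : ℕ) (c : ℕ → ℝ) (δ : Multiset ℕ) : ℝ :=
  (if (δ.filter (NS ≤ ·)).card = 0 then a2 (δ.filter (· < NS)).card else 0) -
    (if (δ.filter (NS ≤ ·)).card = 1 then
      a1 (δ.filter (· < NS)).card * ((δ.filter (NS ≤ ·)).map c).sum else 0)

def C2Stmt : Prop :=
  (∀ (NS : ℕ) (c : ℕ → ℝ) (cls : ℕ → ℕ) (S : Finset ℕ),
    ∑ T ∈ S.powerset, fP NS c (T.val.map cls) =
      ((#{p ∈ S | cls p < NS} : ℝ) - 1) * ((#{p ∈ S | cls p < NS} : ℝ) - 2) / 2 +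
        ((#{p ∈ S | cls p < NS} : ℝ) - 1) * ∑ p ∈ S with NS ≤ cls p, c (cls p)) ∧
  (∀ (t : ℕ → ℕ) (NS WH D₂ : ℕ) (c : ℕ → ℝ), Monotone t → t NS ≤ WH → (NS = 0 ∨ t NS ≤ D₂) →
    (∀ b, c b ≠ 0 → t (b + 1) ≤ D₂) → ∀ δ, fP NS c δ ≠ 0 → Sup t WH D₂ δ)

end Pool.Agent.Lib.MP_4b1228_nt.PP.Ct
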