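import Pool.Agent.Lib.MP_4b1228_nt.PP.CtF
import Pool.Agent.Lib.MP_4b1228_nt.PP.CtD2

/-!
Cell certificates: the checker implies the abstract cell.
-/

open Finset Real
open scoped Classical

noncomputable section

namespace Pool.Agent.Lib.MP_4b1228_nt.PP.Ct

namespace CA

variable {p : Par}

lemma t_big (p : Par) {c : ℕ} (h : p.NS < c) : p.t c = p.WH + (c - (p.NS + 1)) * p.h := by
  have : Nat.ble c p.NS = false := by
    rw [← Bool.not_eq_true, Nat.ble_eq]; omega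
  simp [Par.t, this]

lemma e_le (p : Par) (d : ℕ) : p.e d ≤ p.cm := by
  unfold Par.e
  cases Nat.ble (Nat.add p.WH (Nat.mul (Nat.succ d) p.h)) p.D₂ <;> simp [mnN_eq]

lemma e_ne {d : ℕ} (h : p.e d ≠ 0) : p.WH + (d + 1) * p.h ≤ p.D₂ := by
  unfold Par.e at h
  cases k : Nat.ble (Nat.add p.WH (Nat.mul (Nat.succ d) p.h)) p.D₂
  · rw [k] at h; exact absurd rfl h
  · exact Nat.le_of_ble_eq_true k

lemma e1_eq {d : ℕ} (h : p.WH + d * p.h₂ < p.D₂) : p.e₁ d = 1024 := by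
  have : Nat.blt (Nat.add p.WH (Nat.mul d p.h₂)) p.D₂ = true := by
    rw [Nat.blt_eq]; exact h
  rw [Par.e₁, this]; rfl

lemma fb_lt {x : ℕ} (h : Par.fb x < 2 ^ 100) : x ≤ 1024 ∧ Par.fb x = 1024 - x := by
  unfold Par.fb at h ⊢
  cases k : Nat.ble x 1024
  · rw [k] at h; norm_num at h
  · exact ⟨Nat.le_of_ble_eq_true k, rfl⟩

lemma dat_sub {P Q : Finset ℕ} {w s : ℕ → ℝ} {Z : ℕ} (h : Dat P w s Z) (k : Q ⊆ P) :
    Dat Q w s Z :=
  ⟨h.w0, fun a b x y => le_trans (sum_le_sum_of_subset_of_nonneg (filter_subset_filter _ k)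
    fun q _ _ => h.w0 q) (h.mert a b x y)⟩

lemma win_mono {t : ℕ → ℕ} {WL WH : ℕ} {cls : ℕ → ℕ} {R S : Finset ℕ} (k : R ⊆ S)
    (h : Win t WL WH (R.val.map cls)) : Win t WL WH (S.val.map cls) := by
  obtain ⟨v, a, b⟩ := h
  exact ⟨v, a.trans (Multiset.map_le_map (val_le_iff.2 k)), b⟩

lemma sinj {α β : Type} {s : Finset α} {t : Finset β} (φ : α → β) (f : α → ℝ) (g : β → ℝ)
    (h1 : Set.InjOn φ s) (h2 : ∀ a ∈ s, φ a ∈ t) (h3 : ∀ a ∈ s, f a ≤ g (φ a))
    (h4 : ∀ b ∈ t, 0 ≤ g b) : ∑ a ∈ s, f a ≤ ∑ b ∈ t, g b := by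
  refine (sum_le_sum h3).trans ?_
  rw [← sum_image (g := φ) (f := g) h1]
  exact sum_le_sum_of_subset_of_nonneg (image_subset_iff.2 h2) fun b hb _ => h4 b hb

/-- The coefficients of the large classes. -/
def cc (p : Par) (b : ℕ) : ℝ := if p.NS < b then (p.e (b - (p.NS + 1)) : ℝ) / 1024 else 0

lemma cc_nonneg (p : Par) (b : ℕ) : 0 ≤ cc p b := by
  unfold cc; split_ifs <;> positivity

end CA

open CA in
theorem aS (hE : EStmt) (hS : SStmt) (h2 : C2Stmt) : AStmt := by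
  intro p hp
  simp only [Par.chk, Bool.and_eq_true, decide_eq_true_eq, Nat.ble_eq] at hp
  obtain ⟨⟨⟨⟨⟨c1, c2, c3, c4, c5, c6, c7, c8, c9, c10, c11, c12, c13⟩, hm⟩, htab⟩, hok⟩, hv⟩ := hp
  have tN : p.t (p.NS + 1) = p.WH := by rw [t_big p (Nat.lt_succ_self _)]; simp
  have mono : Monotone p.t := monotone_nat_of_le_succ fun c => by
    rcases lt_trichotomy c p.NS with k | k | k
    · exact Nat.le_of_ble_eq_true (allB_imp hm c k)
    · rw [k, tN]; exact c11
    · rw [t_big p k, t_big p (k.trans (Nat.lt_succ_self _))]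
      gcongr; omega
  have t0 : p.t 0 = p.WH - p.WL := by omega
  have tn : p.t (p.NS + 1 + (p.A₁ + 1)) = p.n := by
    rw [t_big p (by omega), Nat.add_sub_cancel_left]; rfl
  have nA : p.A₁ < p.n := by
    have : (p.A₁ + 1) * 1 ≤ (p.A₁ + 1) * p.h := Nat.mul_le_mul_left _ c6
    show p.A₁ < p.WH + (p.A₁ + 1) * p.h
    omega
  refine ⟨p.t, p.NS + 1 + (p.A₁ + 1), fP p.NS (cc p), mono, t0, tn ▸ nA,
    h2.2 p.t p.NS p.WH p.D₂ (cc p) mono c11 (c12.imp id And.left) fun b hb => ?_,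
    fun P w s cls hD hc => ?_⟩
  · unfold cc at hb
    split_ifs at hb with k
    · have := e_ne (p := p) (d := b - (p.NS + 1)) fun e => hb (by rw [e]; simp)
      rw [t_big p (by omega), show b + 1 - (p.NS + 1) = b - (p.NS + 1) + 1 by omega]
      exact this
    · exact absurd rfl hb
  have hv1 : en p.WH p.h p.A₀ p.A₁ (p.A₁ - p.A₀) (p.A₁ + 1) p.e Par.fb +
      sm p.A₀ p.A₁ p.WL p.WH p.NS p.g p.cm p.eps p.t (get 48 p.T₀) (get 48 p.T₁) (get 64 p.H) ≤
      p.v := hv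
  have del : ((p.A₁ - p.A₀ : ℕ) : ℝ) = p.A₁ - p.A₀ := Nat.cast_sub c3
  have s0 : ∀ q ∈ P, 0 ≤ s q := fun q hq => (Nat.cast_nonneg _).trans (hc q hq).2.1
  have w0 : ∀ S : Finset ℕ, 0 ≤ ∏ q ∈ S, w q := fun S => prod_nonneg fun q _ => hD.w0 q
  set Ps := P.filter fun q => cls q < p.NS with hPs
  set Pb := P.filter fun q => p.NS < cls q with hPb
  have big : ∀ q ∈ Pb, cls q - (p.NS + 1) < p.A₁ + 1 ∧
      (p.WH + (cls q - (p.NS + 1) : ℕ) * p.h : ℝ) ≤ s q ∧
      s q < p.WH + ((cls q - (p.NS + 1) : ℕ) + 1) * p.h := fun q hq => by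
    obtain ⟨a, b⟩ := mem_filter.1 hq
    obtain ⟨x, y, z⟩ := hc q a
    rw [t_big p b] at y
    rw [t_big p (by omega), show cls q + 1 - (p.NS + 1) = cls q - (p.NS + 1) + 1 by omega] at z
    exact ⟨by omega, by exact_mod_cast y, by exact_mod_cast z⟩
  have E1 := hE Pb w s (fun q => cls q - (p.NS + 1)) _ p.WH p.h p.A₀ p.A₁ (p.A₁ - p.A₀) (p.A₁ + 1)
    p.e Par.fb p.A₀ (dat_sub hD (filter_subset _ _)) (Nat.sub_le _ _) (by omega) c6 big le_rfl
    (by rw [del]; linarith)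
  rw [del, add_sub_cancel] at E1
  -- no prime of the window class
  have nw : ∀ S : Finset ℕ, ¬ Win p.t p.WL p.WH (S.val.map cls) → ∀ q ∈ S, cls q ≠ p.NS :=
    fun S k q hq e => k ⟨{p.NS}, Multiset.singleton_le.2 (Multiset.mem_map.2 ⟨q, hq, e⟩),
      by simpa [lo] using c10, by simp [hi, tN]⟩
  have hsp : ∀ S : Finset ℕ, ¬ Win p.t p.WL p.WH (S.val.map cls) →
      (S.filter fun q => p.NS < cls q) = S.filter fun q => ¬ cls q < p.NS :=
    fun S k => filter_congr fun q hq => by have := nw S k q hq; omega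
  have spl : ∀ S : Finset ℕ, ¬ Win p.t p.WL p.WH (S.val.map cls) → ∀ s : ℕ → ℝ,
      ∑ q ∈ S with cls q < p.NS, s q + ∑ q ∈ S with p.NS < cls q, s q = ∑ q ∈ S, s q :=
    fun S k s => by rw [hsp S k, sum_filter_add_sum_filter_not]
  have mpl : ∀ (S : Finset ℕ) (w : ℕ → ℝ),
      ¬ Win p.t p.WL p.WH (S.val.map cls) →
      (∏ q ∈ S with cls q < p.NS, w q) * ∏ q ∈ S with p.NS < cls q, w q = ∏ q ∈ S, w q :=
    fun S w k => by rw [hsp S k, prod_filter_mul_prod_filter_not]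
  -- sets of large primes
  have j0 : ∀ S ⊆ P, (p.A₀ : ℝ) ≤ ∑ q ∈ S, s q → ∑ q ∈ S, s q ≤ p.A₁ →
      ¬ Win p.t p.WL p.WH (S.val.map cls) → #{q ∈ S | cls q < p.NS} = 0 →
      S ⊆ Pb ∧ S ≠ ∅ ∧ ∑ q ∈ S, p.e (cls q - (p.NS + 1)) ≤ 1024 ∧
        FF p.t p.WL p.WH (fP p.NS (cc p)) cls S =
          (Par.fb (∑ q ∈ S, p.e (cls q - (p.NS + 1))) : ℝ) / 1024 := fun S a b c d e => by
    have lt : ∀ q ∈ S, p.NS < cls q := fun q hq => by
      have := nw S d q hq
      have := filter_eq_empty_iff.1 (card_eq_zero.1 e) hq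
      omega
    have sub : S ⊆ Pb := fun q hq => mem_filter.2 ⟨a hq, lt q hq⟩
    have ne : S ≠ ∅ := by
      rintro rfl
      have : (0 : ℝ) < p.A₀ := by exact_mod_cast (by omega : 0 < p.A₀)
      simp at b; omega
    obtain ⟨f1, f2⟩ := fb_lt (E1.2 (by omega) S sub ne b c)
    refine ⟨sub, ne, f1, ?_⟩
    rw [FF, if_neg d, h2.1, e, f2, Nat.cast_sub f1, filter_true_of_mem fun q hq => (lt q hq).le,
      show ∑ q ∈ S, cc p (cls q) = ∑ q ∈ S, (p.e (cls q - (p.NS + 1)) : ℝ) / 1024 from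
        sum_congr rfl fun q hq => if_pos (lt q hq), ← sum_div]
    push_cast
    ring
  have j1 : ∀ S : Finset ℕ, ¬ Win p.t p.WL p.WH (S.val.map cls) → #{q ∈ S | cls q < p.NS} ≠ 0 →
      FF p.t p.WL p.WH (fP p.NS (cc p)) cls S =
        (#{q ∈ S | cls q < p.NS} - 1 : ℕ) * (#{q ∈ S | cls q < p.NS} - 2 : ℕ) / 2 +
          (#{q ∈ S | cls q < p.NS} - 1 : ℕ) * ∑ q ∈ S with p.NS < cls q, cc p (cls q) :=
    fun S d e => by
      rw [FF, if_neg d, h2.1, show (S.filter fun q => p.NS ≤ cls q) = S.filter fun q => p.NS < cls q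
        from filter_congr fun q hq => by have := nw S d q hq; omega]
      generalize #{q ∈ S | cls q < p.NS} = j at e
      obtain rfl | k : j = 1 ∨ 2 ≤ j := by omega
      · simp
      · rw [Nat.cast_sub k, Nat.cast_sub (by omega)]; simp
  have A0W : (p.WH : ℝ) < p.A₀ := by exact_mod_cast c1
  constructor
  · intro S a b c
    by_cases one : S.card = 1
    · obtain ⟨q, rfl⟩ := card_eq_one.1 one
      rw [sum_singleton] at b
      have hq : q ∈ P := a (mem_singleton_self q)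
      have lt : p.A₀ < p.t (cls q + 1) := by exact_mod_cast b.trans_lt (hc q hq).2.2
      have gt : p.NS < cls q := by
        by_contra k
        have := mono (show cls q + 1 ≤ p.NS + 1 by omega)
        omega
      have d : ¬ Win p.t p.WL p.WH (({q} : Finset ℕ).val.map cls) := by
        rintro ⟨v, v1, v2, v3⟩
        rw [singleton_val, Multiset.map_singleton, Multiset.le_singleton] at v1
        rcases v1 with rfl | rfl
        · simp [lo] at v2; omega
        · simp [hi] at v3; omega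
      have e0 : p.e (cls q - (p.NS + 1)) = 0 := by
        by_contra k
        have := e_ne k
        rw [t_big p (by omega), show cls q + 1 - (p.NS + 1) = cls q - (p.NS + 1) + 1 by omega] at lt
        omega
      rw [(j0 {q} a (by simpa using b) c d (by simp [filter_singleton]; omega)).2.2.2, sum_singleton,
        e0, if_pos one, show Par.fb 0 = 1024 from rfl]
      norm_num
    · rw [if_neg one]
      by_cases d : Win p.t p.WL p.WH (S.val.map cls)
      · rw [FF, if_pos d]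
      by_cases e : #{q ∈ S | cls q < p.NS} = 0
      · rw [(j0 S a b c d e).2.2.2]; positivity
      · rw [j1 S d e]
        have := sum_nonneg fun q (_ : q ∈ S.filter fun q => p.NS < cls q) => cc_nonneg p (cls q)
        positivity
  -- the second classification of the large primes
  obtain ⟨cl, hcl⟩ : ∃ cl : ℕ → ℕ, ∀ q ∈ Pb, cl q < p.n ∧ (p.WH + cl q * p.h₂ : ℝ) ≤ s q ∧
      s q < p.WH + (cl q + 1) * p.h₂ := by
    refine ⟨fun q => ⌊(s q - p.WH) / p.h₂⌋₊, fun q hq => ?_⟩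
    have h1 : (1 : ℝ) ≤ p.h₂ := by exact_mod_cast c8
    have a : 0 ≤ s q - p.WH := by
      have := (big q hq).2.1
      have : (0 : ℝ) ≤ (cls q - (p.NS + 1) : ℕ) * p.h := by positivity
      linarith
    have b : s q < p.n := by
      obtain ⟨x, -, z⟩ := hc q (mem_filter.1 hq).1
      exact z.trans_le (by exact_mod_cast tn ▸ mono x)
    have c := Nat.floor_le (div_nonneg a (by linarith : (0 : ℝ) ≤ p.h₂))
    have d := Nat.lt_floor_add_one ((s q - p.WH) / p.h₂)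
    rw [le_div_iff₀ (by linarith)] at c
    rw [div_lt_iff₀ (by linarith)] at d
    refine ⟨(Nat.floor_lt (div_nonneg a (by linarith))).2 ?_, by linarith, by linarith⟩
    have : (0 : ℝ) ≤ p.WH := Nat.cast_nonneg _
    exact (div_le_self a h1).trans_lt (by linarith)
  set B : (Finset ℕ → ℝ) → ℝ → ℝ := fun f x =>
    ∑ T ∈ Pb.powerset with T ≠ ∅ ∧ p.A₀ - x ≤ ∑ q ∈ T, s q ∧ ∑ q ∈ T, s q ≤ p.A₁ - x,
      (∏ q ∈ T, w q) * f T with hB
  set E : Finset ℕ → ℝ := fun T => (∑ q ∈ T, p.e₁ (cl q) : ℕ) / 1024 with hE'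
  have E0 : ∀ T, 0 ≤ E T := fun T => by positivity
  have tab : ∀ (e Fv : ℕ → ℕ) (x : ℝ) (i : ℕ), (i * p.g : ℝ) ≤ max (p.A₀ - x) 0 →
      max (p.A₀ - x) 0 ≤ (i + 1) * p.g → B (fun T => Fv (∑ q ∈ T, e (cl q)) / 1024) x ≤
        (en p.WH p.h₂ (i * p.g) (i * p.g + p.g + (p.A₁ - p.A₀)) (p.A₁ - p.A₀) p.n e Fv : ℝ) /
          2 ^ 40 := fun e Fv x i a b => by
    refine le_trans (sum_le_sum_of_subset_of_nonneg (fun T hT => ?_) fun T _ _ => ?_)
      (hE Pb w s cl _ p.WH p.h₂ (i * p.g) (i * p.g + p.g + (p.A₁ - p.A₀)) (p.A₁ - p.A₀) p.n e Fv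
        (max (p.A₀ - x) 0) (dat_sub hD (filter_subset _ _)) (Nat.sub_le _ _) (by omega) c8 hcl
        (by exact_mod_cast a) (by push_cast; linarith)).1
    · rw [mem_filter, mem_powerset] at hT ⊢
      refine ⟨hT.1, hT.2.1, max_le hT.2.2.1
        (sum_nonneg fun q hq => s0 q (mem_filter.1 (hT.1 hq)).1), ?_⟩
      rw [del]; linarith [le_max_left (p.A₀ - x) 0, hT.2.2.2]
    · have := w0 T
      positivity
  have S1 := hS Ps w s cls p.A₀ p.A₁ p.WL p.WH p.NS p.g p.nt p.cm p.eps p.t (get 48 p.T₀)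
    (get 48 p.T₁) (get 64 p.H) (B fun _ => 1) (B E) (t0 ▸ dat_sub hD (filter_subset _ _)) mono
    (by omega) c7 c3 (c12.imp id And.right)
    (fun q hq => ⟨(mem_filter.1 hq).2, (hc q (mem_filter.1 hq).1).2⟩) (fun x i hi a b => by
      have k := allB_imp htab i hi
      simp only [Par.tab, frc_eq, Bool.and_eq_true, Nat.ble_eq] at k
      have k1 := tab (fun _ => 0) (fun _ => 1024) x i a b
      have k2 := tab p.e₁ (fun x => x) x i a b
      rw [show (fun T : Finset ℕ => ((1024 : ℕ) : ℝ) / 1024) = fun _ => 1 by norm_num] at k1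
      exact ⟨k1.trans (by gcongr; exact_mod_cast k.1), k2.trans (by gcongr; exact_mod_cast k.2)⟩) hok
  refine le_trans ?_ ((add_le_add E1.1 S1).trans (by rw [← add_div, ← Nat.cast_add]; gcongr))
  rw [← sum_filter_add_sum_filter_not _ fun S => Win p.t p.WL p.WH (S.val.map cls),
    sum_eq_zero fun S hS => by rw [FF, if_pos (mem_filter.1 hS).2, mul_zero], zero_add,
    ← sum_filter_add_sum_filter_not _ fun S => #{q ∈ S | cls q < p.NS} = 0]
  refine add_le_add (sinj id _ _ (Set.injOn_id _) (fun S k => ?_) (fun S k => ?_)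
    fun S _ => ?_) ?_
  · simp only [mem_filter, mem_powerset, id] at k ⊢
    obtain ⟨a, b, -⟩ := j0 S k.1.1.1 k.1.1.2.1 k.1.1.2.2 k.1.2 k.2
    exact ⟨a, b, k.1.1.2⟩
  · simp only [mem_filter, mem_powerset, id] at k ⊢
    rw [(j0 S k.1.1.1 k.1.1.2.1 k.1.1.2.2 k.1.2 k.2).2.2.2]
  · have := w0 S
    positivity
  -- sets with a small prime
  refine le_trans (sinj (t := (Ps.powerset.filter fun R =>
      ¬ Win p.t p.WL p.WH (R.val.map cls) ∧ ∑ q ∈ R, s q ≤ p.A₁).sigma fun R =>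
      Pb.powerset.filter fun T => p.A₀ - ∑ q ∈ R, s q ≤ ∑ q ∈ T, s q ∧
        ∑ q ∈ T, s q ≤ p.A₁ - ∑ q ∈ R, s q)
    (fun S => ⟨S.filter fun q => cls q < p.NS, S.filter fun q => p.NS < cls q⟩) _
    (fun x => (∏ q ∈ x.1, w q) * ((∏ q ∈ x.2, w q) *
      ((x.1.card - 1 : ℕ) * (x.1.card - 2 : ℕ) / 2 + (x.1.card - 1 : ℕ) * (p.cm / 1024) * E x.2)))
    ?_ (fun S k => ?_) (fun S k => ?_) fun x _ => ?_) ?_
  · intro S k S' k' e
    simp only [coe_filter, mem_filter, Set.mem_setOf_eq] at k k'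
    obtain ⟨e1, e2⟩ := Sigma.mk.inj e
    have e2 := eq_of_heq e2
    ext q
    have a1 := Finset.ext_iff.1 e1 q
    have a2 := Finset.ext_iff.1 e2 q
    have a3 := nw S k.1.2 q
    have a4 := nw S' k'.1.2 q
    simp only [mem_filter] at a1 a2
    exact ⟨fun hq => (lt_or_gt_of_ne (a3 hq)).elim (fun z => (a1.1 ⟨hq, z⟩).1)
      fun z => (a2.1 ⟨hq, z⟩).1, fun hq => (lt_or_gt_of_ne (a4 hq)).elim
      (fun z => (a1.2 ⟨hq, z⟩).1) fun z => (a2.2 ⟨hq, z⟩).1⟩
  · simp only [mem_filter, mem_powerset, mem_sigma] at k ⊢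
    have sp := spl S k.1.2 s
    have : 0 ≤ ∑ q ∈ S with p.NS < cls q, s q :=
      sum_nonneg fun q hq => s0 q (k.1.1.1 (mem_filter.1 hq).1)
    exact ⟨⟨filter_subset_filter _ k.1.1.1, fun z => k.1.2 (win_mono (filter_subset _ _) z),
      by linarith [k.1.1.2.2]⟩, filter_subset_filter _ k.1.1.1, by linarith [k.1.1.2.1],
      by linarith [k.1.1.2.2]⟩
  · simp only [mem_filter, mem_powerset] at k
    rw [j1 S k.1.2 k.2, ← mul_assoc, mpl S w k.1.2, mul_assoc _ _ (E _)]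
    have := w0 S
    gcongr
    rw [hE']
    push_cast
    rw [sum_div, mul_sum]
    refine sum_le_sum fun q hq => ?_
    obtain ⟨a, b⟩ := mem_filter.1 hq
    have hq' : q ∈ Pb := mem_filter.2 ⟨k.1.1.1 a, b⟩
    rw [cc, if_pos b]
    by_cases z : p.e (cls q - (p.NS + 1)) = 0
    · rw [z]; simp only [Nat.cast_zero, zero_div]; positivity
    · have z1 : ((p.WH + (cls q - (p.NS + 1) + 1) * p.h : ℕ) : ℝ) ≤ p.D₂ := by
        exact_mod_cast e_ne z
      have z2 : ((p.WH + cl q * p.h₂ : ℕ) : ℝ) < p.D₂ := by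
        push_cast at z1 ⊢
        linarith [(big q hq').2.2, (hcl q hq').2.1]
      rw [e1_eq (by exact_mod_cast z2)]
      have : (p.e (cls q - (p.NS + 1)) : ℝ) ≤ p.cm := by exact_mod_cast e_le p _
      push_cast
      linarith
  · have := w0 x.1
    have := w0 x.2
    have := E0 x.2
    positivity
  rw [sum_sigma]
  refine sum_le_sum fun R hR => ?_
  dsimp only
  rw [← mul_sum]
  refine mul_le_mul_of_nonneg_left ?_ (w0 R)
  rw [← sum_filter_add_sum_filter_not _ fun T => T = ∅, mul_add, add_assoc]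
  refine add_le_add ?_ (le_of_eq ?_)
  · rw [sum_filter, sum_ite_eq']
    simp only [mem_filter, empty_mem_powerset, sum_empty, true_and, prod_empty, hE', Nat.cast_zero,
      zero_div, mul_zero, add_zero, one_mul]
    split_ifs with a b
    · rw [mul_one]
    · exact absurd (by linarith [a.1]) b
    · positivity
    · rw [mul_zero]
  · rw [filter_filter, hB]
    simp only [mul_sum, ← sum_add_distrib]
    refine sum_congr (filter_congr fun T _ => and_comm) fun T _ => by ring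

end Pool.Agent.Lib.MP_4b1228_nt.PP.Ct
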