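import Pool.Agent.Lib.MP_4b1228_nt.PP.St

/-!
Cell certificates: patterns of classes of primes, and the statements of the parts.
All sizes are in units of `log X / Q`.
-/

open Finset Real Filter
open scoped Classical

noncomputable section

namespace Pool.Agent.Lib.MP_4b1228_nt.PP.Ct

/-- Size of an integer. -/
def sz (X : ℝ) (Q : ℕ) (p : ℕ) : ℝ := Q * log p / log X

/-- Lower bound for the size of a pattern. -/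
def lo (t : ℕ → ℕ) (δ : Multiset ℕ) : ℕ := (δ.map t).sum

/-- Upper bound for the size of a pattern. -/
def hi (t : ℕ → ℕ) (δ : Multiset ℕ) : ℕ := (δ.map fun c => t (c + 1)).sum

/-- Some sub-pattern lies in the window. -/
def Win (t : ℕ → ℕ) (WL WH : ℕ) (δ : Multiset ℕ) : Prop :=
  ∃ v, v ≤ δ ∧ WL ≤ lo t v ∧ hi t v ≤ WH

/-- Admissible support of the coefficients. -/
def Sup (t : ℕ → ℕ) (WH D₂ : ℕ) (δ : Multiset ℕ) : Prop :=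
  ∃ d₁ d₂, δ = d₁ + d₂ ∧ hi t d₁ ≤ WH ∧ hi t d₂ ≤ D₂

/-- The majorant on a set of primes. -/
def FF (t : ℕ → ℕ) (WL WH : ℕ) (fP : Multiset ℕ → ℝ) (cls : ℕ → ℕ) (S : Finset ℕ) : ℝ :=
  if Win t WL WH (S.val.map cls) then 0 else ∑ T ∈ S.powerset, fP (T.val.map cls)

/-- Abstract data on primes: weights and sizes. -/
structure Dat (P : Finset ℕ) (w s : ℕ → ℝ) (Z : ℕ) : Prop where
  w0 : ∀ p, 0 ≤ w p
  mert : ∀ a b : ℝ, Z ≤ a → a ≤ b →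
    ∑ p ∈ P with a ≤ s p ∧ s p ≤ b, w p ≤ (1 + 1 / 2 ^ 32) * log (b / a) + 1 / 2 ^ 32

/-- The abstract form of a cell. -/
def AbsCell (A₀ A₁ WL WH D₂ : ℕ) (v : ℝ) : Prop :=
  ∃ (t : ℕ → ℕ) (N : ℕ) (fP : Multiset ℕ → ℝ), Monotone t ∧ t 0 = WH - WL ∧ A₁ < t N ∧
    (∀ δ, fP δ ≠ 0 → Sup t WH D₂ δ) ∧
    ∀ (P : Finset ℕ) (w s : ℕ → ℝ) (cls : ℕ → ℕ), Dat P w s (WH - WL) →
      (∀ p ∈ P, cls p < N ∧ (t (cls p) : ℝ) ≤ s p ∧ s p < t (cls p + 1)) →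
      (∀ S ⊆ P, (A₀ : ℝ) ≤ ∑ p ∈ S, s p → ∑ p ∈ S, s p ≤ A₁ →
        (if S.card = 1 then 1 else 0) ≤ FF t WL WH fP cls S) ∧
      ∑ S ∈ P.powerset with (A₀ : ℝ) ≤ ∑ p ∈ S, s p ∧ ∑ p ∈ S, s p ≤ A₁,
        (∏ p ∈ S, w p) * FF t WL WH fP cls S ≤ v

/-- A function of the pattern is of the form `Psi`. -/
def C1Stmt : Prop :=
  ∀ (t : ℕ → ℕ) (N M Q WL WH D₂ : ℕ) (fP : Multiset ℕ → ℝ), 1 ≤ Q →
    (∀ δ, fP δ ≠ 0 → Sup t WH D₂ δ) →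
    ∃ B : ℕ, ∀ (X z : ℝ) (cls : ℕ → ℕ), 1 < X → ∃ f₁ f₂ g₁ g₂ : ℕ → ℕ → ℝ,
      Ok (X ^ ((WL : ℝ) / Q)) (X ^ ((WH : ℝ) / Q)) (X ^ ((D₂ : ℝ) / Q)) B f₁ f₂ g₁ g₂ ∧
      ∀ k : ℕ, Squarefree k → Rough z k → k.primeFactors.card ≤ M →
        (∀ p ∈ k.primeFactors, cls p < N ∧ (t (cls p) : ℝ) ≤ sz X Q p ∧
          sz X Q p ≤ t (cls p + 1)) →
        Psi z B f₁ f₂ g₁ g₂ k = FF t WL WH fP cls k.primeFactors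

/-- From the abstract cell to the cell. -/
def C5Stmt : Prop :=
  ∀ (Q A₀ A₁ WL WH D₂ : ℕ) (v : ℝ), 1 ≤ Q → Q < A₀ → A₀ ≤ A₁ → A₁ < Q + WL → WL < WH →
    3 * WH + A₁ < 2 * Q → 0 < D₂ → 2 * (WL + D₂) < Q → AbsCell A₀ A₁ WL WH D₂ v →
    Cell ((A₀ : ℝ) / Q) ((A₁ : ℝ) / Q) v

end Pool.Agent.Lib.MP_4b1228_nt.PP.Ct
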