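import Pool.Agent.Lib.MP_4b1228_nt.PP.CtK

/-!
Cell certificates: the checker and the statements of its parts.
-/

open Finset Real

namespace Pool.Agent.Lib.MP_4b1228_nt.PP.Ct

/-- Entry of a packed table. -/
def get (w T i : ℕ) : ℕ :=
  Nat.land (Nat.shiftRight T (Nat.mul w i)) (Nat.pred (Nat.shiftLeft 1 w))

def mxN (a b : ℕ) : ℕ := frc a fun x => frc b fun y => cond (Nat.ble x y) y x

def mnN (a b : ℕ) : ℕ := frc a fun x => frc b fun y => cond (Nat.ble x y) x y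

theorem mxN_eq (a b : ℕ) : mxN a b = max a b := by
  simp only [mxN, frc_eq, Bool.cond_eq_ite, Nat.ble_eq]; rfl

theorem mnN_eq (a b : ℕ) : mnN a b = min a b := by
  simp only [mnN, frc_eq, Bool.cond_eq_ite, Nat.ble_eq]; rfl

/-- Maximum of `F d, …, F (d + k - 1)` and `acc`. -/
def mxa (F : ℕ → ℕ) (k : ℕ) : ℕ → ℕ → ℕ :=
  Nat.rec (fun _ acc => acc) (fun _ ih d acc =>
    frc (mxN acc (F d)) fun a => frc (Nat.succ d) fun d' => ih d' a) k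

theorem mxa_ge (F : ℕ → ℕ) (k : ℕ) : ∀ d acc, acc ≤ mxa F k d acc ∧
    ∀ x, d ≤ x → x < d + k → F x ≤ mxa F k d acc := by
  induction k with
  | zero => exact fun d acc => ⟨le_rfl, fun x a b => by omega⟩
  | succ k ih =>
    intro d acc
    have e : mxa F (k + 1) d acc = mxa F k (d + 1) (max acc (F d)) := by
      rw [mxa, mxa]; simp [mxN_eq]
    obtain ⟨h1, h2⟩ := ih (d + 1) (max acc (F d))
    rw [e]
    refine ⟨(le_max_left _ _).trans h1, fun x a b => ?_⟩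
    rcases a.eq_or_lt with rfl | a
    · exact (le_max_right _ _).trans h1
    · exact h2 x a (by omega)

def allB (p : ℕ → Bool) (k : ℕ) : Bool := Nat.rec true (fun i ih => cond (p i) ih false) k

theorem allB_imp {p : ℕ → Bool} {k : ℕ} (h : allB p k = true) : ∀ i < k, p i = true := by
  induction k with
  | zero => intro i hi; omega
  | succ k ih =>
    have e : allB p (k + 1) = cond (p k) (allB p k) false := rfl
    rw [e] at h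
    cases hp : p k with
    | false => rw [hp] at h; exact absurd h (by simp)
    | true =>
      rw [hp] at h
      intro i hi
      rcases (Nat.lt_succ_iff.1 hi).eq_or_lt with rfl | hi
      · exact hp
      · exact ih h i hi

/-- Mass of a thin slab that starts at `a` or later and ends at `U` or earlier. -/
def slabN (a U del : ℕ) : ℕ :=
  cond (Nat.blt U a) 0 (frc (mnN (Nat.add a del) U) fun b => lgN a b)

/-! ### Sets of large primes -/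

def enLeaf (t₀ h Y V del : ℕ) (e Fv : ℕ → ℕ) (st : ℕ × ℕ × ℕ) (c m : ℕ) : ℕ :=
  frc (Nat.sub V st.1) fun U => frc (mxN (Nat.sub Y st.2.1) (Nat.add t₀ (Nat.mul c h))) fun a =>
    cond (Nat.blt U a) 0 (frc (Nat.div (Nat.sub a t₀) h) fun d =>
      Nat.succ (Nat.shiftRight (Nat.mul (Nat.mul m (slabN a U del))
        (mxa (fun x => Fv (Nat.add st.2.2 (e x)))
          (Nat.sub (Nat.succ (Nat.div (Nat.sub U t₀) h)) d) d 0)) 42))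

def enNx (t₀ h : ℕ) (e : ℕ → ℕ) (st : ℕ × ℕ × ℕ) (d : ℕ) (k : ℕ × ℕ × ℕ → ℕ) : ℕ :=
  frc (Nat.add t₀ (Nat.mul d h)) fun x => frc (Nat.add st.1 x) fun a =>
    frc (Nat.add st.2.1 (Nat.add x h)) fun b => frc (Nat.add st.2.2 (e d)) fun c => k (a, b, c)

def enL (t₀ h d : ℕ) : ℕ :=
  frc (Nat.add t₀ (Nat.mul d h)) fun x => frc (Nat.add x h) fun y => lgN x y

/-- Here `V` is the upper end of the range of `y` plus `del`. -/
def en (t₀ h Y V del n : ℕ) (e Fv : ℕ → ℕ) : ℕ :=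
  tr n 0 (enL t₀ h) (fun _ _ _ => 1) (enLeaf t₀ h Y V del e Fv)
    (fun st d => Nat.blt V (Nat.add st.1 (Nat.mul 2 (Nat.add t₀ (Nat.mul d h)))))
    (fun _ _ => true) (enNx t₀ h e) (Nat.div V t₀) (0, 0, 0) 0 0 1099511627776

def EStmt : Prop :=
  ∀ (P : Finset ℕ) (w s : ℕ → ℝ) (cls : ℕ → ℕ) (Z t₀ h Y V del n : ℕ) (e Fv : ℕ → ℕ) (y : ℝ),
    Dat P w s Z → Z ≤ t₀ → 0 < t₀ → 0 < h →
    (∀ p ∈ P, cls p < n ∧ (t₀ + cls p * h : ℝ) ≤ s p ∧ s p < t₀ + (cls p + 1) * h) →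
    Y ≤ y → y + del ≤ V →
    ∑ S ∈ P.powerset with S ≠ ∅ ∧ y ≤ ∑ p ∈ S, s p ∧ ∑ p ∈ S, s p ≤ y + del,
      (∏ p ∈ S, w p) * (Fv (∑ p ∈ S, e (cls p)) / 1024) ≤ (en t₀ h Y V del n e Fv : ℝ) / 2 ^ 40 ∧
    (en t₀ h Y V del n e Fv < 2 ^ 60 → ∀ S ⊆ P, S ≠ ∅ → y ≤ ∑ p ∈ S, s p →
      ∑ p ∈ S, s p ≤ y + del → Fv (∑ p ∈ S, e (cls p)) < 2 ^ 100)

/-! ### Sets of small primes -/

/-- State: some sub-sums, lower size, upper size, number of primes. -/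
abbrev SSt := List (ℕ × ℕ) × ℕ × ℕ × ℕ

def winB (WL WH a b : ℕ) (ss : List (ℕ × ℕ)) : Bool :=
  List.rec false (fun e _ ih =>
    cond (Nat.ble WL (Nat.add e.1 a) && Nat.ble (Nat.add e.2 b) WH) true ih) ss

def addK (WH a b : ℕ) (k : List (ℕ × ℕ) → ℕ) (ss : List (ℕ × ℕ)) : List (ℕ × ℕ) → ℕ :=
  List.rec k (fun e _ ih acc => frc (Nat.add e.2 b) fun y =>
    cond (Nat.ble y WH) (frc (Nat.add e.1 a) fun x => ih ((x, y) :: acc)) (ih acc)) ss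

section
variable (A₀ A₁ WL WH NS g nt cm eps : ℕ) (t T₀ T₁ H : ℕ → ℕ)

def smNx (st : SSt) (d : ℕ) (k : SSt → ℕ) : ℕ :=
  frc (t d) fun a => frc (t (Nat.succ d)) fun b => frc (Nat.add st.2.1 a) fun x =>
    frc (Nat.add st.2.2.1 b) fun y => frc (Nat.succ st.2.2.2) fun j =>
      addK WH a b (fun ss => k (ss, x, y, j)) st.1 st.1

def smLeaf (st : SSt) (c m : ℕ) : ℕ :=
  cond (Nat.blt st.2.2.2 2) 0 (frc (Nat.sub A₀ st.2.2.1) fun y => frc (Nat.div y g) fun i =>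
    frc (Nat.sub (Nat.succ (Nat.div (Nat.sub A₀ st.2.1) g)) i) fun k => frc (mxN y (t c)) fun a =>
      Nat.succ (Nat.shiftRight (Nat.mul m (Nat.add (Nat.add
        (Nat.mul (Nat.mul (Nat.mul (Nat.sub st.2.2.2 1) (Nat.sub st.2.2.2 2)) 512) (mxa T₀ k i 0))
        (Nat.mul (Nat.mul (Nat.sub st.2.2.2 1) cm) (mxa T₁ k i 0)))
        (Nat.mul (Nat.mul (Nat.mul st.2.2.2 (Nat.sub st.2.2.2 1)) 131072)
          (cond (Nat.blt (t NS) a) 0 (slabN a (Nat.sub A₁ st.2.1) (Nat.sub A₁ A₀)))))) 50))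

def smCru (st : SSt) (c m : ℕ) : ℕ :=
  cond (Nat.blt st.2.2.2 3) (Nat.succ eps) (Nat.succ (Nat.shiftRight
    (Nat.mul (Nat.mul m (Nat.mul st.2.2.2 (Nat.sub st.2.2.2 1))) (H c)) 51))

def smL (d : ℕ) : ℕ := frc (t d) fun a => frc (t (Nat.succ d)) fun b => lgN a b

def sm : ℕ :=
  tr NS eps (smL t) (smCru eps H) (smLeaf A₀ A₁ NS g cm t T₀ T₁)
    (fun st d => Nat.blt A₁ (Nat.add st.2.1 (t d)))
    (fun st d => frc (t d) fun a => frc (t (Nat.succ d)) fun b => !winB WL WH a b st.1)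
    (smNx WH t) (Nat.div A₁ (t 0)) ([(0, 0)], 0, 0, 0) 0 0 1099511627776

/-- The table `H` (in units of `2 ^ (-50)`) bounds the whole subtree. -/
def smOk : Bool :=
  frc (Nat.add (Nat.mul 1024 (mxa T₀ nt 0 0)) (Nat.mul cm (mxa T₁ nt 0 0))) fun K =>
    allB (fun c => Nat.ble (Nat.add (Nat.shiftLeft (Nat.add K (Nat.mul 262144
        (lgN (t c) (Nat.add (t c) (Nat.sub A₁ A₀))))) 31)
      (lp (fun _ => false) (fun _ => true) (fun d => Nat.mul (smL t d) (H d)) (Nat.sub NS c) c))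
      (Nat.shiftLeft (H c) 31)) NS

end

open scoped Classical in
def SStmt : Prop :=
  ∀ (P : Finset ℕ) (w s : ℕ → ℝ) (cls : ℕ → ℕ) (A₀ A₁ WL WH NS g nt cm eps : ℕ)
    (t T₀ T₁ H : ℕ → ℕ) (B₀ B₁ : ℝ → ℝ),
    Dat P w s (t 0) → Monotone t → 0 < t 0 → 0 < g → A₀ ≤ A₁ →
    (NS = 0 ∨ (A₀ - 2 * t 0) / g < nt) →
    (∀ p ∈ P, cls p < NS ∧ (t (cls p) : ℝ) ≤ s p ∧ s p < t (cls p + 1)) →
    (∀ (x : ℝ) (i : ℕ), i < nt → (i * g : ℝ) ≤ max (A₀ - x) 0 → max (A₀ - x) 0 ≤ (i + 1) * g →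
      B₀ x ≤ T₀ i / 2 ^ 40 ∧ B₁ x ≤ T₁ i / 2 ^ 40) →
    smOk A₀ A₁ NS nt cm t T₀ T₁ H = true →
    ∑ R ∈ P.powerset with ¬ Win t WL WH (R.val.map cls) ∧ ∑ p ∈ R, s p ≤ A₁,
      (∏ p ∈ R, w p) * (((R.card - 1 : ℕ) * (R.card - 2 : ℕ) / 2 : ℝ) *
        ((if (A₀ : ℝ) ≤ ∑ p ∈ R, s p then 1 else 0) + B₀ (∑ p ∈ R, s p)) +
        (R.card - 1 : ℕ) * (cm / 1024) * B₁ (∑ p ∈ R, s p)) ≤
      (sm A₀ A₁ WL WH NS g cm eps t T₀ T₁ H : ℝ) / 2 ^ 40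

/-! ### One cell -/

structure Par where
  (A₀ A₁ WL WH D₂ h ct cm NS ts g h₂ nt T₀ T₁ H eps v : ℕ)

namespace Par
variable (p : Par)

/-- Class boundaries. -/
def t (c : ℕ) : ℕ :=
  cond (Nat.ble c p.NS) (get 24 p.ts c) (Nat.add p.WH (Nat.mul (Nat.sub c (Nat.succ p.NS)) p.h))

/-- Coefficient (times 1024) of the large class `d`. -/
def e (d : ℕ) : ℕ :=
  cond (Nat.ble (Nat.add p.WH (Nat.mul (Nat.succ d) p.h)) p.D₂) (mnN (get 11 p.ct d) p.cm) 0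

def e₁ (d : ℕ) : ℕ := cond (Nat.blt (Nat.add p.WH (Nat.mul d p.h₂)) p.D₂) 1024 0

def fb (x : ℕ) : ℕ := cond (Nat.ble x 1024) (Nat.sub 1024 x) 1267650600228229401496703205376

/-- Bound for all sizes and all class numbers. -/
def n : ℕ := Nat.add p.WH (Nat.mul (Nat.succ p.A₁) p.h)

def tab (i : ℕ) : Bool :=
  frc (Nat.mul i p.g) fun Y => frc (Nat.add (Nat.add Y p.g) (Nat.sub p.A₁ p.A₀)) fun V =>
    Nat.ble (en p.WH p.h₂ Y V (Nat.sub p.A₁ p.A₀) p.n (fun _ => 0) fun _ => 1024) (get 48 p.T₀ i) &&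
    Nat.ble (en p.WH p.h₂ Y V (Nat.sub p.A₁ p.A₀) p.n p.e₁ fun x => x) (get 48 p.T₁ i)

def val : ℕ :=
  Nat.add (en p.WH p.h p.A₀ p.A₁ (Nat.sub p.A₁ p.A₀) (Nat.succ p.A₁) p.e fb)
    (sm p.A₀ p.A₁ p.WL p.WH p.NS p.g p.cm p.eps p.t (get 48 p.T₀) (get 48 p.T₁) (get 64 p.H))

def chk : Bool :=
  decide (p.WH < p.A₀ ∧ p.D₂ < p.A₀ ∧ p.A₀ ≤ p.A₁ ∧ 0 < p.WL ∧ p.WL < p.WH ∧ 0 < p.h ∧ 0 < p.g ∧
    0 < p.h₂ ∧ p.t 0 + p.WL = p.WH ∧ p.WL ≤ p.t p.NS ∧ p.t p.NS ≤ p.WH ∧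
    (p.NS = 0 ∨ p.t p.NS ≤ p.D₂ ∧ (p.A₀ - 2 * p.t 0) / p.g < p.nt) ∧ p.v < 2 ^ 60) &&
  allB (fun c => Nat.ble (p.t c) (p.t (Nat.succ c))) p.NS && allB p.tab p.nt &&
  smOk p.A₀ p.A₁ p.NS p.nt p.cm p.t (get 48 p.T₀) (get 48 p.T₁) (get 64 p.H) &&
  Nat.ble p.val p.v

end Par

def AStmt : Prop :=
  ∀ p : Par, p.chk = true → AbsCell p.A₀ p.A₁ p.WL p.WH p.D₂ ((p.v : ℝ) / 2 ^ 40)

end Pool.Agent.Lib.MP_4b1228_nt.PP.Ct
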