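import Pool.Agent.Lib.MP_4b1228_nt.PP.CtT

/-!
Cell certificates: a computable upper bound for the sum over the tree.
-/

open Finset Real

namespace Pool.Agent.Lib.MP_4b1228_nt.PP.Ct

def frc {α : Type} (n : ℕ) (f : ℕ → α) : α := Nat.rec (f 0) (fun m _ => f (Nat.succ m)) n

@[simp] theorem frc_eq {α : Type} (n : ℕ) (f : ℕ → α) : frc n f = f n := by cases n <;> rfl

theorem dv (a b : ℕ) : Nat.div a b = a / b := rfl

def lp (stop ok : ℕ → Bool) (v : ℕ → ℕ) (k : ℕ) : ℕ → ℕ :=
  Nat.rec (fun _ => 0) (fun _ ih d =>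
    cond (stop d) 0 (Nat.add (cond (ok d) (v d) 0) (frc (Nat.succ d) ih))) k

theorem lp_succ (stop ok : ℕ → Bool) (v : ℕ → ℕ) (k d : ℕ) : lp stop ok v (k + 1) d =
    cond (stop d) 0 (cond (ok d) (v d) 0 + lp stop ok v k (d + 1)) := by
  rw [lp, lp]; simp

theorem lp_ge (stop ok : ℕ → Bool) (v : ℕ → ℕ) (r : ℕ → ℝ) (n : ℕ) (k : ℕ) : ∀ c, c + k = n →
    (∀ d d', c ≤ d → d ≤ d' → d' < n → stop d = true → r d' = 0) →
    (∀ d, c ≤ d → d < n → ok d = false → r d = 0) →
    (∀ d, c ≤ d → d < n → stop d = false → ok d = true → r d ≤ v d) →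
    ∑ d ∈ Ico c n, r d ≤ lp stop ok v k c := by
  induction k with
  | zero => intro c hc _ _ _; subst hc; simp
  | succ k ih =>
    intro c hc h1 h2 h3
    have hn : c < n := by omega
    rw [lp_succ]
    cases hs : stop c with
    | true =>
      rw [sum_eq_zero fun d hd => h1 c d le_rfl (mem_Ico.1 hd).1 (mem_Ico.1 hd).2 hs]; simp
    | false =>
      rw [sum_eq_sum_Ico_succ_bot hn, cond_false, Nat.cast_add]
      refine add_le_add ?_ (ih _ (by omega) (fun d d' a => h1 d d' (by omega))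
        (fun d a => h2 d (by omega)) fun d a => h3 d (by omega))
      cases ho : ok c with
      | true => exact h3 c le_rfl hn hs ho
      | false => rw [h2 c le_rfl hn ho]; simp

theorem lp_term (stop ok : ℕ → Bool) (v : ℕ → ℕ) (k : ℕ) : ∀ c d, c ≤ d → d < c + k →
    (∀ x, c ≤ x → x ≤ d → stop x = false) → ok d = true → v d ≤ lp stop ok v k c := by
  induction k with
  | zero => intro c d h1 h2; omega
  | succ k ih =>
    intro c d h1 h2 h3 h4
    rw [lp_succ, h3 c le_rfl h1, cond_false]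
    rcases h1.eq_or_lt with rfl | h
    · rw [h4]; exact Nat.le_add_right _ _
    · exact (ih (c + 1) d h (by omega) (fun x a => h3 x (by omega)) h4).trans (Nat.le_add_left _ _)

section
variable {σ : Type} (n eps : ℕ) (L : ℕ → ℕ) (cru leaf : σ → ℕ → ℕ → ℕ) (stop ok : σ → ℕ → Bool)
  (nx : σ → ℕ → (σ → ℕ) → ℕ)

def tr (f : ℕ) : σ → ℕ → ℕ → ℕ → ℕ :=
  Nat.rec (fun st c _ m => leaf st c m) (fun _ ih st c mu m =>
    frc (cru st c m) fun v => cond (Nat.ble v eps) v (Nat.add (leaf st c m)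
      (lp (stop st) (ok st) (fun d => frc (cond (Nat.beq d c) (Nat.succ mu) 1) fun mu' =>
        frc (Nat.succ (Nat.div (Nat.shiftRight (Nat.mul m (L d)) 32) mu')) fun m' =>
          nx st d fun st' => ih st' d mu' m') (Nat.sub n c) c))) f

theorem tr_succ (f : ℕ) (st : σ) (c mu m : ℕ) :
    tr n eps L cru leaf stop ok nx (f + 1) st c mu m =
      if cru st c m ≤ eps then cru st c m else leaf st c m +
        lp (stop st) (ok st) (fun d => nx st d fun st' => tr n eps L cru leaf stop ok nx f st' d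
          (if d = c then mu + 1 else 1)
          (m * L d / 2 ^ 32 / (if d = c then mu + 1 else 1) + 1)) (n - c) c := by
  rw [tr, tr]
  simp only [frc_eq, Bool.cond_eq_ite, Nat.ble_eq, Nat.beq_eq, Nat.add_eq, Nat.sub_eq, Nat.mul_eq,
    Nat.shiftRight_eq, Nat.shiftRight_eq_div_pow, Nat.succ_eq_add_one]
  rfl

variable {n eps L cru leaf stop ok nx} {c₀ : ℕ} {g : List ℕ → ℝ} (Inv : List ℕ → σ → Prop)
  (Dead : List ℕ → Prop)

theorem div_lt (x y : ℕ) (hy : 0 < y) : (x : ℝ) / y ≤ (x / y + 1 : ℕ) := by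
  rw [div_le_iff₀ (by exact_mod_cast hy)]
  have := Nat.lt_div_mul_add (a := x) hy
  exact_mod_cast (show x ≤ (x / y + 1) * y by rw [Nat.succ_mul]; exact this.le)

theorem tr_le (hg : ∀ l, 0 ≤ g l) (h0 : ∀ l, Dead l → g l = 0)
    (h1 : ∀ l d, Dead l → l.headD c₀ ≤ d → Dead (d :: l))
    (hleaf : ∀ l st (m : ℕ), Inv l st → m * g l ≤ leaf st (l.headD c₀) m)
    (hcru : ∀ l st (m : ℕ), Inv l st → cru st (l.headD c₀) m ≤ eps → ∀ f,
      m * NN n c₀ (fun d => (L d : ℝ) / 2 ^ 32) g f l ≤ cru st (l.headD c₀) m)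
    (hstop : ∀ l st d d', Inv l st → stop st d = true → d ≤ d' → Dead (d' :: l))
    (hok : ∀ l st d, Inv l st → ok st d = false → Dead (d :: l))
    (hnx : ∀ l st d, Inv l st → l.headD c₀ ≤ d → d < n →
      ∃ st', Inv (d :: l) st' ∧ ∀ k, nx st d k = k st') (f : ℕ) :
    ∀ l st (mu m : ℕ), Inv l st → mu ≤ l.count (l.headD c₀) →
      m * NN n c₀ (fun d => (L d : ℝ) / 2 ^ 32) g f l ≤
        tr n eps L cru leaf stop ok nx f st (l.headD c₀) mu m := by
  induction f with
  | zero => exact fun l st mu m h _ => hleaf l st m h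
  | succ f ih =>
    intro l st mu m h hmu
    rw [tr_succ]
    split_ifs with hc
    · exact hcru l st m h hc _
    rw [NN, mul_add, Nat.cast_add, Ph, mul_sum]
    refine add_le_add (hleaf l st m h) ?_
    rcases le_or_gt (l.headD c₀) n with hn | hn
    swap
    · rw [Ico_eq_empty_of_le hn.le]; simp
    refine lp_ge _ _ _ _ n _ _ (by omega) (fun d d' _ b _ e => ?_) (fun d _ _ e => ?_)
      fun d a b _ _ => ?_
    · rw [NN_dead Dead h0 h1 _ _ (hstop l st d d' h e b)]; simp
    · rw [NN_dead Dead h0 h1 _ _ (hok l st d h e)]; simp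
    · obtain ⟨st', hi, e⟩ := hnx l st d h a b
      rw [e]
      have hm : (if d = l.headD c₀ then mu + 1 else 1) ≤ l.count d + 1 := by
        split_ifs with hd
        · rw [hd]; omega
        · omega
      have hp : 0 < if d = l.headD c₀ then mu + 1 else 1 := by split_ifs <;> omega
      generalize (if d = l.headD c₀ then mu + 1 else 1) = u at hm hp
      refine le_trans ?_ (ih (d :: l) st' u _ hi (by simpa using hm))
      rw [← mul_assoc]
      refine mul_le_mul_of_nonneg_right ?_ (NN_nonneg (fun d => by positivity) hg _ _)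
      rw [Nat.div_div_eq_div_mul]
      refine le_trans ?_ (div_lt _ _ (by positivity))
      have : (u : ℝ) ≤ l.count d + 1 := by exact_mod_cast hm
      have hu : (0 : ℝ) < u := by exact_mod_cast hp
      push_cast
      rw [← div_div, mul_div_assoc, mul_div_assoc]
      gcongr
      norm_num

/-- Every list that is not dead is visited. -/
theorem tr_reach (h1 : ∀ l d, Dead l → l.headD c₀ ≤ d → Dead (d :: l))
    (hcru : ∀ st c m, eps < cru st c m)
    (hstop : ∀ l st d d', Inv l st → stop st d = true → d ≤ d' → Dead (d' :: l))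
    (hok : ∀ l st d, Inv l st → ok st d = false → Dead (d :: l))
    (hnx : ∀ l st d, Inv l st → l.headD c₀ ≤ d → d < n →
      ∃ st', Inv (d :: l) st' ∧ ∀ k, nx st d k = k st') (f : ℕ) (st₀ : σ) (m₀ : ℕ)
    (hi : Inv [] st₀) (hm : 1 ≤ m₀) (key : ℕ → ℕ) (T : Finset ℕ)
    (hk : ∀ p ∈ T, c₀ ≤ key p ∧ key p < n) (hf : T.card ≤ f) (hD : ¬ Dead (pl key T)) :
    ∃ st m, 1 ≤ m ∧ Inv (pl key T) st ∧
      leaf st ((pl key T).headD c₀) m ≤ tr n eps L cru leaf stop ok nx f st₀ c₀ 0 m₀ := by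
  suffices H : ∃ st mu m, 1 ≤ m ∧ Inv (pl key T) st ∧
      tr n eps L cru leaf stop ok nx (f - T.card) st ((pl key T).headD c₀) mu m ≤
        tr n eps L cru leaf stop ok nx f st₀ c₀ 0 m₀ by
    obtain ⟨st, mu, m, a, b, c⟩ := H
    refine ⟨st, m, a, b, le_trans ?_ c⟩
    cases f - T.card with
    | zero => exact le_rfl
    | succ k => rw [tr_succ, if_neg (hcru _ _ _).not_ge]; exact Nat.le_add_right _ _
  induction T using Finset.induction_on_max_value key with
  | empty => exact ⟨st₀, 0, m₀, hm, by simpa [pl_empty] using hi, by simp [pl_empty]⟩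
  | insert q T hq hmax ih =>
    rw [pl_insert key hq hmax] at hD ⊢
    rw [card_insert_of_notMem hq] at hf ⊢
    have hq' := hk q (mem_insert_self _ _)
    have hh := pl_head_le hq'.1 hmax
    obtain ⟨st, mu, m, a, b, c⟩ := ih (fun p hp => hk p (mem_insert_of_mem hp)) (by omega)
      fun h => hD (h1 _ _ h hh)
    obtain ⟨st', i, e⟩ := hnx _ st _ b hh hq'.2
    refine ⟨st', if key q = (pl key T).headD c₀ then mu + 1 else 1, m * L (key q) / 2 ^ 32 /
      (if key q = (pl key T).headD c₀ then mu + 1 else 1) + 1, Nat.le_add_left 1 _, i,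
      le_trans ?_ c⟩
    rw [show f - #T = f - (#T + 1) + 1 by omega, tr_succ, if_neg (hcru _ _ _).not_ge]
    refine le_trans ?_ ((lp_term _ _ _ _ _ (key q) hh (by omega) (fun x _ hx => ?_) ?_).trans
      (Nat.le_add_left _ _))
    · rw [e]; rfl
    · exact Bool.eq_false_iff.2 fun h => hD (hstop _ st x _ b h hx)
    · exact Bool.of_not_eq_false fun h => hD (hok _ st _ b h)

end

/-- Upper bound for `2 ^ 32` times the mass of the primes with size in `[a, b]`. -/
def lgN (a b : ℕ) : ℕ :=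
  frc (Nat.div (Nat.shiftLeft (Nat.sub (Nat.mul b b) (Nat.mul a a)) 31) (Nat.mul a b)) fun x =>
    Nat.add (Nat.add x (Nat.shiftRight x 20)) 4

noncomputable def lgR (x : ℝ) : ℝ := (1 + 1 / 2 ^ 32) * log x + 1 / 2 ^ 32

theorem lgR_mono {x y : ℝ} (hx : 0 < x) (h : x ≤ y) : lgR x ≤ lgR y := by
  unfold lgR; gcongr

theorem lgR_nonneg {x : ℝ} (hx : 1 ≤ x) : 0 ≤ lgR x := by
  have := log_nonneg hx
  unfold lgR; positivity

theorem four_le_lgN (a b : ℕ) : 4 ≤ lgN a b := by
  rw [lgN, frc_eq]; exact Nat.le_add_left _ _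

theorem lgN_ge {a b : ℕ} (ha : 0 < a) (h : a ≤ b) : lgR (b / a) ≤ (lgN a b : ℝ) / 2 ^ 32 := by
  have ha' : (0 : ℝ) < a := by exact_mod_cast ha
  have hb' : (a : ℝ) ≤ b := by exact_mod_cast h
  have h1 : (1 : ℝ) ≤ b / a := (one_le_div ha').2 hb'
  have h2 : log (b / a) ≤ ((b : ℝ) * b - a * a) / (2 * (a * b)) := by
    refine (self_le_sinh_iff.2 (log_nonneg h1)).trans (le_of_eq ?_)
    rw [sinh_log (by linarith)]
    have : (0 : ℝ) < b := by linarith
    field_simp
  have h3 := div_lt ((b * b - a * a) * 2 ^ 31) (a * b) (Nat.mul_pos ha (by omega))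
  have h4 := div_lt ((b * b - a * a) * 2 ^ 31 / (a * b)) (2 ^ 20) (by positivity)
  rw [lgN, frc_eq]
  simp only [Nat.add_eq, Nat.sub_eq, Nat.mul_eq, Nat.shiftRight_eq, Nat.shiftRight_eq_div_pow,
    Nat.shiftLeft_eq', Nat.shiftLeft_eq, dv]
  generalize (b * b - a * a) * 2 ^ 31 / (a * b) = x at h3 h4 ⊢
  generalize x / 2 ^ 20 = y at h4 ⊢
  rw [Nat.cast_mul, Nat.cast_sub (Nat.mul_le_mul h h)] at h3
  push_cast at h3 h4 ⊢
  have h5 : log (b / a) * 2 ^ 32 ≤ x + 1 := by
    refine le_trans ?_ h3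
    refine (mul_le_mul_of_nonneg_right h2 (by positivity)).trans (le_of_eq ?_)
    ring
  have hx : (0 : ℝ) ≤ x := Nat.cast_nonneg x
  unfold lgR
  rw [le_div_iff₀ (by positivity)]
  nlinarith

end Pool.Agent.Lib.MP_4b1228_nt.PP.Ct
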