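import Pool.Agent.Lib.MP_4b1228_nt.PP.CtF

/-!
Cell certificates: the mass of a thin slab, and removing the last prime.
-/

open Finset Real
open scoped Classical

namespace Pool.Agent.Lib.MP_4b1228_nt.PP.Ct

theorem slab_mass {P : Finset ℕ} {w s : ℕ → ℝ} {Z : ℕ} (hD : Dat P w s Z) {a U del : ℕ}
    {a' b' : ℝ} (hZ : Z ≤ a) (h0 : 0 < a) (ha : (a : ℝ) ≤ a') (hb : b' ≤ U)
    (hd : b' ≤ a' + del) :
    ∑ q ∈ P with a' ≤ s q ∧ s q ≤ b', w q ≤
      if U < a then 0 else lgR ((min (a + del) U : ℕ) / a) := by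
  have h0' : (0 : ℝ) < a := by exact_mod_cast h0
  have hZ' : (Z : ℝ) ≤ a := by exact_mod_cast hZ
  rcases lt_or_ge b' a' with h | h
  · rw [sum_eq_zero fun q hq => absurd ((mem_filter.1 hq).2.1.trans (mem_filter.1 hq).2.2)
      h.not_ge]
    split_ifs with hU
    · exact le_rfl
    · refine lgR_nonneg ((one_le_div h0').2 ?_)
      exact_mod_cast (show a ≤ min (a + del) U by omega)
  · have hU : (a : ℝ) ≤ U := ha.trans (h.trans hb)
    rw [if_neg (by exact_mod_cast hU.not_gt)]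
    have h1 : 0 < a' := h0'.trans_le ha
    refine (hD.mert a' b' (hZ'.trans ha) h).trans (lgR_mono (div_pos (h1.trans_le h) h1) ?_)
    push_cast
    rw [← min_div_div_right h0'.le]
    refine le_min ?_ (div_le_div₀ (Nat.cast_nonneg _) hb h0' ha)
    refine (div_le_div_of_nonneg_right hd h1.le).trans ?_
    rw [add_div, add_div, div_self h1.ne', div_self h0'.ne']
    gcongr

theorem slabN_eq (a U del : ℕ) :
    slabN a U del = if U < a then 0 else lgN a (min (a + del) U) := by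
  simp only [slabN, frc_eq, mnN_eq, Bool.cond_eq_ite, Nat.blt_eq, Nat.add_eq]

theorem slabN_ge {a : ℕ} (h0 : 0 < a) (U del : ℕ) :
    (if U < a then 0 else lgR ((min (a + del) U : ℕ) / a)) ≤ (slabN a U del : ℝ) / 2 ^ 32 := by
  rw [slabN_eq]
  split_ifs with hU
  · simp
  · exact lgN_ge h0 (by omega)

theorem slab_massN {P : Finset ℕ} {w s : ℕ → ℝ} {Z : ℕ} (hD : Dat P w s Z) {a U del : ℕ}
    {a' b' : ℝ} (hZ : Z ≤ a) (h0 : 0 < a) (ha : (a : ℝ) ≤ a') (hb : b' ≤ U)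
    (hd : b' ≤ a' + del) :
    ∑ q ∈ P with a' ≤ s q ∧ s q ≤ b', w q ≤ (slabN a U del : ℝ) / 2 ^ 32 :=
  (slab_mass hD hZ h0 ha hb hd).trans (slabN_ge h0 U del)

theorem four_le_slabN {a U : ℕ} (h : a ≤ U) (del : ℕ) : 4 ≤ slabN a U del := by
  rw [slabN_eq, if_neg h.not_gt]; exact four_le_lgN _ _

theorem slab_le {P : Finset ℕ} {key : ℕ → ℕ} {w : ℕ → ℝ} (hw : ∀ p, 0 ≤ w p)
    {G : Finset ℕ → ℝ} {g : List ℕ → ℝ} (hG : ∀ S, 0 ≤ G S) (h0 : G ∅ = 0)
    (h : ∀ T ⊆ P, ∑ q ∈ P with q ∉ T ∧ ∀ x ∈ T, key x ≤ key q, w q * G (insert q T) ≤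
      g (pl key T)) :
    ∑ S ∈ P.powerset, (∏ p ∈ S, w p) * G S ≤ ∑ T ∈ P.powerset, (∏ p ∈ T, w p) * g (pl key T) := by
  have hp : ∀ S : Finset ℕ, 0 ≤ ∏ p ∈ S, w p := fun S => prod_nonneg fun p _ => hw p
  refine (peel P key _ fun S => mul_nonneg (hp S) (hG S)).trans ?_
  rw [h0, mul_zero, zero_add]
  refine sum_le_sum fun T hT => ?_
  refine le_trans ?_ (mul_le_mul_of_nonneg_left (h T (mem_powerset.1 hT)) (hp T))
  rw [mul_sum]
  refine sum_le_sum fun q hq => ?_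
  rw [prod_insert (mem_filter.1 hq).2.1]
  refine (div_le_self (mul_nonneg (mul_nonneg (hw q) (hp T)) (hG _)) ?_).trans (le_of_eq ?_)
  · exact le_add_of_nonneg_left (Nat.cast_nonneg _)
  · ring

end Pool.Agent.Lib.MP_4b1228_nt.PP.Ct
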