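import Pool.Agent.Lib.MP_4b1228_nt.PP.CtD2

/-!
Cell certificates: sums over sets of primes are bounded by sums over a tree of sorted lists.
-/

open Finset Real
open scoped Classical

noncomputable section

namespace Pool.Agent.Lib.MP_4b1228_nt.PP.Ct

/-- The classes of a set of primes, largest first. -/
def pl (key : ℕ → ℕ) (T : Finset ℕ) : List ℕ := (T.val.map key).sort (· ≥ ·)

theorem pl_empty (key : ℕ → ℕ) : pl key ∅ = [] := by simp [pl]

theorem pl_coe (key : ℕ → ℕ) (T : Finset ℕ) : (pl key T : Multiset ℕ) = T.val.map key := by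
  simp [pl]

theorem pl_insert (key : ℕ → ℕ) {T : Finset ℕ} {q : ℕ} (hq : q ∉ T)
    (h : ∀ x ∈ T, key x ≤ key q) : pl key (insert q T) = key q :: pl key T := by
  unfold pl
  rw [insert_val_of_notMem hq, Multiset.map_cons, Multiset.sort_cons]
  intro b hb
  obtain ⟨x, hx, rfl⟩ := Multiset.mem_map.1 hb
  exact h x hx

theorem pl_length (key : ℕ → ℕ) (T : Finset ℕ) : (pl key T).length = T.card := by simp [pl]

theorem pl_count (key : ℕ → ℕ) (T : Finset ℕ) (d : ℕ) :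
    (pl key T).count d = #{x ∈ T | key x = d} := by
  rw [← Multiset.coe_count, pl_coe, Multiset.count_map]
  simp only [Finset.card, filter_val]
  congr 1
  exact Multiset.filter_congr fun x _ => eq_comm

theorem pl_mem {key : ℕ → ℕ} {T : Finset ℕ} {d : ℕ} : d ∈ pl key T ↔ ∃ x ∈ T, key x = d := by
  simp [pl]

theorem pl_head_le {key : ℕ → ℕ} {T : Finset ℕ} {c₀ d : ℕ} (h0 : c₀ ≤ d)
    (h : ∀ x ∈ T, key x ≤ d) : (pl key T).headD c₀ ≤ d := by
  cases hl : pl key T with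
  | nil => simpa using h0
  | cons a l =>
    have : a ∈ pl key T := by rw [hl]; simp
    obtain ⟨x, hx, rfl⟩ := pl_mem.1 this
    simpa using h x hx

theorem sum_inj {α β : Type} {s : Finset α} {t : Finset β} {f : α → ℝ} {g : β → ℝ} (e : α → β)
    (he : Set.InjOn e s) (hm : ∀ x ∈ s, e x ∈ t) (h : ∀ x ∈ s, f x ≤ g (e x))
    (hg : ∀ y ∈ t, 0 ≤ g y) : ∑ x ∈ s, f x ≤ ∑ y ∈ t, g y := by
  refine (sum_le_sum h).trans ?_
  rw [← sum_image (f := g) he]
  exact sum_le_sum_of_subset_of_nonneg (image_subset_iff.2 hm) fun y hy _ => hg y hy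

/-- Removing a prime of the largest class. -/
theorem peel (P : Finset ℕ) (key : ℕ → ℕ) (G : Finset ℕ → ℝ) (hG : ∀ S, 0 ≤ G S) :
    ∑ S ∈ P.powerset, G S ≤ G ∅ + ∑ T ∈ P.powerset,
      ∑ q ∈ P with q ∉ T ∧ ∀ x ∈ T, key x ≤ key q,
        G (insert q T) / ((pl key T).count (key q) + 1) := by
  have h1 : ∀ S ∈ P.powerset.erase ∅, G S =
      ∑ q ∈ S with ∀ x ∈ S, key x ≤ key q, G S / ((pl key (S.erase q)).count (key q) + 1) := by
    intro S hS
    obtain ⟨q₀, hq₀, hm⟩ := exists_max_image S key (nonempty_iff_ne_empty.2 (mem_erase.1 hS).1)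
    have e : (S.filter fun q => ∀ x ∈ S, key x ≤ key q) = S.filter fun x => key x = key q₀ := by
      refine filter_congr fun q hq => ⟨fun h => le_antisymm (hm q hq) (h q₀ hq₀), fun h x hx => ?_⟩
      rw [h]; exact hm x hx
    have pos : 0 < #{x ∈ S | key x = key q₀} := card_pos.2 ⟨q₀, mem_filter.2 ⟨hq₀, rfl⟩⟩
    rw [e, sum_congr rfl (g := fun _ => G S / #{x ∈ S | key x = key q₀}), sum_const, nsmul_eq_mul,
      mul_div_cancel₀]
    · exact_mod_cast pos.ne'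
    · intro q hq
      obtain ⟨hq, hk⟩ := mem_filter.1 hq
      rw [pl_count, filter_erase, hk, card_erase_of_mem (mem_filter.2 ⟨hq, hk⟩)]
      congr 1
      rw [Nat.cast_sub pos]; simp
  rw [← add_sum_erase _ _ (empty_mem_powerset P), sum_congr rfl h1, sum_sigma', sum_sigma']
  gcongr
  refine sum_inj (fun x => (⟨x.1.erase x.2, x.2⟩ : Σ _ : Finset ℕ, ℕ)) ?_ ?_ ?_ ?_
  · rintro ⟨S, q⟩ h ⟨S', q'⟩ h' e
    simp only [coe_sigma, Set.mem_sigma_iff, mem_coe, mem_filter] at h h'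
    obtain ⟨e1, e2⟩ := Sigma.mk.inj_iff.1 e
    have e3 : q = q' := eq_of_heq e2
    subst e3
    have : S = S' := by rw [← insert_erase h.2.1, ← insert_erase h'.2.1]; exact congrArg _ e1
    subst this; rfl
  · rintro ⟨S, q⟩ h
    simp only [mem_sigma, mem_filter, mem_erase, mem_powerset] at h ⊢
    exact ⟨(erase_subset _ _).trans h.1.2, h.1.2 h.2.1, by simp, fun x hx => h.2.2 x hx.2⟩
  · rintro ⟨S, q⟩ h
    simp only [mem_sigma, mem_filter] at h
    simp only [insert_erase h.2.1, le_refl]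
  · intro y _
    exact div_nonneg (hG _) (by positivity)

/-- One step down the tree. -/
def Ph (n c₀ : ℕ) (L : ℕ → ℝ) (g : List ℕ → ℝ) (l : List ℕ) : ℝ :=
  ∑ d ∈ Ico (l.headD c₀) n, L d / (l.count d + 1) * g (d :: l)

/-- The sum over the tree. -/
def NN (n c₀ : ℕ) (L : ℕ → ℝ) (g : List ℕ → ℝ) : ℕ → List ℕ → ℝ
  | 0, l => g l
  | f + 1, l => g l + Ph n c₀ L (NN n c₀ L g f) l

theorem NN_succ (n c₀ : ℕ) (L : ℕ → ℝ) (f : ℕ) : ∀ (g : List ℕ → ℝ) (l : List ℕ),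
    NN n c₀ L g (f + 1) l = g l + NN n c₀ L (Ph n c₀ L g) f l := by
  induction f with
  | zero => intro g l; rfl
  | succ f ih =>
    intro g l
    rw [NN, NN]
    congr 1
    unfold Ph
    rw [← sum_add_distrib]
    exact sum_congr rfl fun d _ => by rw [ih, mul_add]; rfl

theorem Ph_nonneg {n c₀ : ℕ} {L : ℕ → ℝ} {g : List ℕ → ℝ} (hL : ∀ d, 0 ≤ L d) (hg : ∀ l, 0 ≤ g l)
    (l : List ℕ) : 0 ≤ Ph n c₀ L g l :=
  sum_nonneg fun d _ => mul_nonneg (div_nonneg (hL d) (by positivity)) (hg _)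

theorem step_le {P : Finset ℕ} {key : ℕ → ℕ} {w : ℕ → ℝ} {n c₀ : ℕ} {L : ℕ → ℝ}
    (hw : ∀ p, 0 ≤ w p) (hk : ∀ p ∈ P, c₀ ≤ key p ∧ key p < n)
    (hL : ∀ d, ∑ p ∈ P with key p = d, w p ≤ L d) (g : List ℕ → ℝ) (hg : ∀ l, 0 ≤ g l) :
    ∑ T ∈ P.powerset, (∏ p ∈ T, w p) * g (pl key T) ≤
      g [] + ∑ T ∈ P.powerset, (∏ p ∈ T, w p) * Ph n c₀ L g (pl key T) := by
  refine (peel P key _ fun S => mul_nonneg (prod_nonneg fun p _ => hw p) (hg _)).trans ?_
  rw [pl_empty, prod_empty, one_mul]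
  gcongr with T hT
  have hp : 0 ≤ ∏ p ∈ T, w p := prod_nonneg fun p _ => hw p
  have hm : ∀ q ∈ P.filter fun q => q ∉ T ∧ ∀ x ∈ T, key x ≤ key q,
      key q ∈ Ico ((pl key T).headD c₀) n := by
    intro q hq
    obtain ⟨hq, -, h⟩ := mem_filter.1 hq
    exact mem_Ico.2 ⟨pl_head_le (hk q hq).1 h, (hk q hq).2⟩
  rw [← sum_fiberwise_of_maps_to hm, Ph, mul_sum]
  refine sum_le_sum fun d _ => ?_
  calc _ = (∑ q ∈ (P.filter fun q => q ∉ T ∧ ∀ x ∈ T, key x ≤ key q) with key q = d, w q) *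
        ((∏ p ∈ T, w p) * g (d :: pl key T) / ((pl key T).count d + 1)) := by
        rw [sum_mul]
        refine sum_congr rfl fun q hq => ?_
        obtain ⟨hq1, e⟩ := mem_filter.1 hq
        obtain ⟨-, h1, h2⟩ := mem_filter.1 hq1
        rw [prod_insert h1, pl_insert key h1 h2, e]; ring
    _ ≤ L d * ((∏ p ∈ T, w p) * g (d :: pl key T) / ((pl key T).count d + 1)) := by
        refine mul_le_mul_of_nonneg_right (le_trans ?_ (hL d))
          (div_nonneg (mul_nonneg hp (hg _)) (by positivity))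
        exact sum_le_sum_of_subset_of_nonneg (filter_subset_filter _ (filter_subset _ _))
          fun p _ _ => hw p
    _ = _ := by ring

theorem tree_le {P : Finset ℕ} {key : ℕ → ℕ} {w : ℕ → ℝ} {n c₀ : ℕ} {L : ℕ → ℝ}
    (hw : ∀ p, 0 ≤ w p) (hk : ∀ p ∈ P, c₀ ≤ key p ∧ key p < n)
    (hL : ∀ d, ∑ p ∈ P with key p = d, w p ≤ L d) (f : ℕ) : ∀ g : List ℕ → ℝ, (∀ l, 0 ≤ g l) →
    (∀ l, f < l.length → g l = 0) →
    ∑ T ∈ P.powerset, (∏ p ∈ T, w p) * g (pl key T) ≤ NN n c₀ L g f [] := by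
  have hL0 : ∀ d, 0 ≤ L d := fun d => (sum_nonneg fun p _ => hw p).trans (hL d)
  induction f with
  | zero =>
    intro g hg h0
    refine (step_le hw hk hL g hg).trans (le_of_eq ?_)
    rw [NN, add_eq_left]
    refine sum_eq_zero fun T _ => mul_eq_zero_of_right _ (sum_eq_zero fun d _ => ?_)
    rw [h0 _ (by simp), mul_zero]
  | succ f ih =>
    intro g hg h0
    refine (step_le hw hk hL g hg).trans ?_
    rw [NN_succ]
    gcongr
    refine ih _ (Ph_nonneg hL0 hg) fun l hl => sum_eq_zero fun d _ => ?_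
    rw [h0 _ (by simpa using hl), mul_zero]

theorem NN_nonneg {n c₀ : ℕ} {L : ℕ → ℝ} {g : List ℕ → ℝ} (hL : ∀ d, 0 ≤ L d) (hg : ∀ l, 0 ≤ g l)
    (f : ℕ) : ∀ l, 0 ≤ NN n c₀ L g f l := by
  induction f with
  | zero => exact hg
  | succ f ih => exact fun l => add_nonneg (hg l) (Ph_nonneg hL ih l)

theorem NN_dead {n c₀ : ℕ} {L : ℕ → ℝ} {g : List ℕ → ℝ} (Dead : List ℕ → Prop)
    (h0 : ∀ l, Dead l → g l = 0) (h1 : ∀ l d, Dead l → l.headD c₀ ≤ d → Dead (d :: l)) (f : ℕ) :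
    ∀ l, Dead l → NN n c₀ L g f l = 0 := by
  induction f with
  | zero => exact h0
  | succ f ih =>
    intro l hl
    rw [NN, h0 l hl, zero_add]
    exact sum_eq_zero fun d hd => by rw [ih _ (h1 l d hl (mem_Ico.1 hd).1), mul_zero]

end Pool.Agent.Lib.MP_4b1228_nt.PP.Ct
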