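import Pool.Agent.Lib.MP_4b1228_nt.PP.DKa

/-! The law of the total size of a random set of primes: a checked table. -/

open Finset
open scoped Classical

noncomputable section

namespace Pool.Agent.Lib.MP_4b1228_nt.PP.DK

/-- A sequence given by a rule on windows of length `N`. -/
def sq (g : ℕ → ℕ → ℕ → ℕ) (N u : ℕ) (i : ℕ) : ℕ :=
  if i < N then u else
    g i (∑ k ∈ range N, if _h : i - N + k < i then sq g N u (i - N + k) else 0)
      (if _h : i - N < i then sq g N u (i - N) else 0)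
termination_by i

theorem sq_lt (g : ℕ → ℕ → ℕ → ℕ) {N i : ℕ} (u : ℕ) (h : i < N) : sq g N u i = u := by
  rw [sq, if_pos h]

theorem sq_add (g : ℕ → ℕ → ℕ → ℕ) {N : ℕ} (hN : 1 ≤ N) (u a : ℕ) :
    sq g N u (a + N) = g (a + N) (∑ k ∈ Ico a (a + N), sq g N u k) (sq g N u a) := by
  rw [sq, if_neg (by omega), Nat.add_sub_cancel, dif_pos (by omega), sum_Ico_eq_sum_range,
    Nat.add_sub_cancel_left]
  congr 1
  exact sum_congr rfl fun k hk => dif_pos (by have := mem_range.1 hk; omega)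

def frc {α : Type} (x : ℕ) (f : ℕ → α) : α := Nat.rec (f 0) (fun n _ => f (Nat.succ n)) x

theorem frc_eq {α : Type} (x : ℕ) (f : ℕ → α) : frc x f = f x := by cases x <;> rfl

def run (g : ℕ → ℕ → ℕ → ℕ) (l : List ℕ) : ℕ → ℕ → List ℕ :=
  List.rec (fun _ _ => []) (fun x _ ih i F => frc (g i F x) fun y =>
    frc (Nat.sub (Nat.add F y) x) fun F' => frc (Nat.succ i) fun i' => y :: ih i' F') l

theorem run_eq (g : ℕ → ℕ → ℕ → ℕ) {N : ℕ} (hN : 1 ≤ N) (u : ℕ) : ∀ n a : ℕ,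
    run g ((List.range' a n).map (sq g N u)) (a + N) (∑ k ∈ Ico a (a + N), sq g N u k) =
      (List.range' (a + N) n).map (sq g N u)
  | 0, _ => rfl
  | n + 1, a => by
    have ih := run_eq g hN u n (a + 1)
    have e : ∑ k ∈ Ico (a + 1) (a + 1 + N), sq g N u k =
        ∑ k ∈ Ico a (a + N), sq g N u k + sq g N u (a + N) - sq g N u a := by
      rw [← sum_Ico_succ_top (by omega), sum_eq_sum_Ico_succ_bot (show a < a + N + 1 by omega),
        Nat.add_sub_cancel_left, Nat.add_right_comm]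
    rw [e, Nat.add_right_comm] at ih
    simp only [run, frc_eq] at ih
    simp only [List.range'_succ, List.map_cons, run, frc_eq, ← sq_add g hN]
    exact congrArg _ ih

def sm (l : List ℕ) : ℕ → ℕ :=
  List.rec (fun a => a) (fun x _ ih a => frc (Nat.add a x) ih) l

theorem sm_eq : ∀ (l : List ℕ) (a : ℕ), sm l a = a + l.sum
  | [], _ => rfl
  | x :: l, a => by
    have := sm_eq l (a + x)
    simp only [sm, frc_eq, List.sum_cons, ← add_assoc] at this ⊢
    exact this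

theorem sum_map (f : ℕ → ℕ) (a n : ℕ) :
    ((List.range' a n).map f).sum = ∑ k ∈ Ico a (a + n), f k := by
  induction n with
  | zero => simp
  | succ n ih => rw [List.range'_concat, ← add_assoc, sum_Ico_succ_top (by omega), ← ih]; simp

def cells (st n : ℕ) : List ℕ → List ℕ :=
  Nat.rec (fun _ => []) (fun _ ih l => frc (sm (l.take st) 0) fun c => c :: ih (l.drop st)) n

/-- the sum over one cell -/
def cl (f : ℕ → ℕ) (st j : ℕ) : ℕ := ∑ k ∈ Ico (j * st) (j * st + st), f k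

theorem cells_eq (f : ℕ → ℕ) (st : ℕ) : ∀ n j : ℕ,
    cells st n ((List.range' (j * st) (n * st)).map f) = (List.range' j n).map (cl f st)
  | 0, _ => rfl
  | n + 1, j => by
    have ih := cells_eq f st n (j + 1)
    have e : List.range' (j * st) ((n + 1) * st) =
        List.range' (j * st) st ++ List.range' ((j + 1) * st) (n * st) := by
      rw [show (n + 1) * st = st + n * st by ring, ← List.range'_append_1, add_mul, one_mul]
    rw [e, List.map_append]
    simp only [cells, frc_eq, sm_eq] at ih ⊢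
    rw [List.take_left' (by simp), List.drop_left' (by simp), ih, sum_map, zero_add,
      List.range'_succ, List.map_cons]
    rfl

theorem sum_cl (f : ℕ → ℕ) (st j n : ℕ) :
    ∑ k ∈ Ico j (j + n), cl f st k = ∑ k ∈ Ico (j * st) ((j + n) * st), f k := by
  induction n with
  | zero => simp
  | succ n ih =>
    rw [← add_assoc, sum_Ico_succ_top (by omega), ih, cl, add_mul (j + n), one_mul,
      sum_Ico_consecutive _ (Nat.mul_le_mul_right _ (by omega)) (by omega)]

def go (g : ℕ → ℕ → ℕ → ℕ) (Z st k : ℕ) : List ℕ → ℕ → List ℕ :=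
  Nat.rec (fun _ _ => []) (fun _ ih l i =>
    cells st Z l ++ ih (run g l i (sm (cells st Z l) 0)) (i + Z * st)) k

theorem go_eq (g : ℕ → ℕ → ℕ → ℕ) {Z st : ℕ} (hN : 1 ≤ Z * st) (u : ℕ) : ∀ k j : ℕ,
    go g Z st k ((List.range' (j * st) (Z * st)).map (sq g (Z * st) u)) (j * st + Z * st) =
      (List.range' j (k * Z)).map (cl (sq g (Z * st) u) st)
  | 0, _ => by simp [go]
  | k + 1, j => by
    have ih := go_eq g hN u k (j + Z)
    simp only [go] at ih ⊢
    rw [cells_eq, sm_eq, zero_add, sum_map, sum_cl, add_mul j, run_eq g hN, ← add_mul j, ih,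
      ← List.map_append, List.range'_append_1, show Z + k * Z = (k + 1) * Z by ring]

def gU (i F _x : ℕ) : ℕ := Nat.succ (Nat.div F (Nat.pred i))

def gL (i F x : ℕ) : ℕ := Nat.div (Nat.sub F x) (Nat.succ i)

def tab (g : ℕ → ℕ → ℕ → ℕ) (Z st : ℕ) : List ℕ :=
  go g Z st 6 (List.replicate (Z * st) 1099511627776) (Z * st)

theorem tab_eq (g : ℕ → ℕ → ℕ → ℕ) {Z st : ℕ} (hN : 1 ≤ Z * st) :
    tab g Z st = (List.range' 0 (6 * Z)).map (cl (sq g (Z * st) 1099511627776) st) := by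
  rw [← go_eq g hN, zero_mul, zero_add, tab]
  congr 1
  refine (List.eq_replicate_iff.2 ⟨by simp, fun b hb => ?_⟩).symm
  obtain ⟨k, hk, rfl⟩ := List.mem_map.1 hb
  exact sq_lt _ _ (by simpa using hk)

/-- The checker; `lo` and `hi` are in units of `2 ^ (-32)`. -/
def check (Z st : ℕ) (lo hi : List ℕ) : Bool :=
  Nat.ble 2 (Z * st) && Nat.ble hi.length (6 * Z) && Nat.ble lo.length (6 * Z) &&
  (frc (sm (tab gL Z st) 0) fun TL => Nat.ble 1 TL && (hi.zip (tab gU Z st)).all fun p =>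
    Nat.ble p.1 4294967296 && Nat.ble (p.2 * 4294967296 + TL) (p.1 * TL)) &&
  (frc (5 * sm (tab gU Z st) 0 + sm ((tab gU Z st).drop (5 * Z)) 0) fun TU =>
    Nat.ble 1 TU && (lo.zip (tab gL Z st)).all fun p => Nat.beq p.1 0 ||
      (Nat.ble (p.1 + 1) 4294967296 && Nat.ble ((p.1 + 1) * TU) (5 * p.2 * 4294967296)))

theorem chain {G : ℕ → ℝ} {N n : ℕ} {E : ℝ} (h0 : ∀ b ≤ N, |G b| ≤ E)
    (h1 : ∀ i, N ≤ i → i < n → G (i + 1) ≤ G i) {a b : ℕ} (hab : a ≤ b) (hb : b ≤ n) :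
    G b ≤ G a + 2 * E := by
  have hE : 0 ≤ E := (abs_nonneg _).trans (h0 0 (Nat.zero_le _))
  have m : ∀ c d, N ≤ c → c ≤ d → d ≤ n → G d ≤ G c := fun c d hc hd hn => by
    induction d, hd using Nat.le_induction with
    | base => exact le_rfl
    | succ d hd ih => exact (h1 d (hc.trans hd) hn).trans (ih (by omega))
  rcases le_total N a with e | e
  · linarith [m a b e hab hb]
  · have a1 := (abs_le.1 (h0 a e)).1
    rcases le_total N b with e' | e'
    · linarith [m N b le_rfl e' hb, (abs_le.1 (h0 N le_rfl)).2]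
    · linarith [(abs_le.1 (h0 b e')).2]

variable {P : Finset ℕ} {w s : ℕ → ℝ} {τ E γ : ℝ} {N u : ℕ}

theorem pre (g : ℕ → ℕ → ℕ → ℕ) {b : ℕ} (hb : b ≤ N) :
    ((∑ k ∈ range b, sq g N u k : ℕ) : ℝ) = u * b := by
  rw [sum_congr rfl fun k hk => sq_lt g u ((mem_range.1 hk).trans_le hb)]
  simp [mul_comm]

theorem cast_Ico (f : ℕ → ℕ) {a b : ℕ} (h : a ≤ b) : ((∑ k ∈ Ico a b, f k : ℕ) : ℝ) =
    (∑ k ∈ range b, f k : ℕ) - (∑ k ∈ range a, f k : ℕ) := by
  rw [← sum_range_add_sum_Ico f h]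
  push_cast
  ring

theorem upper (h : Hyp P w s N τ) (hN : 2 ≤ N) (h1 : τ ≤ 1) (he : er N τ ≤ E) (hγ : 0 ≤ γ)
    (hl : ∀ i : ℕ, i ≤ N → |CC P w s i - γ * (u * i)| ≤ E) {a b : ℕ} (hab : a ≤ b) :
    CC P w s b - CC P w s a ≤
      γ * (∑ k ∈ Ico a b, sq gU N u k : ℕ) + 4 * E * b + 2 * E := by
  have hE : 0 ≤ E := (abs_nonneg _).trans (hl 0 (Nat.zero_le _))
  have hN' : (2 : ℝ) ≤ N := mod_cast hN
  let G : ℕ → ℝ := fun b =>
    CC P w s b - γ * (∑ k ∈ range b, sq gU N u k : ℕ) - 4 * E * (b - N : ℕ)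
  have h0 : ∀ b ≤ N, |G b| ≤ E := fun b hb => by
    simpa only [G, pre gU hb, Nat.sub_eq_zero_of_le hb, Nat.cast_zero, mul_zero, sub_zero]
      using hl b hb
  have hs : ∀ n i, N ≤ i → i < n → G (i + 1) ≤ G i := by
    intro n
    induction n with
    | zero => omega
    | succ n ih =>
      intro i hi hn
      rcases Nat.lt_or_ge i n with e | e
      · exact ih i hi e
      obtain ⟨a, rfl⟩ : ∃ a, i = a + N := ⟨i - N, by omega⟩
      have k1 := chain h0 ih (Nat.le_add_right a N) (show a + N ≤ n by omega)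
      have k2 := h.up (by linarith) h1 (a + N : ℕ)
      have k3 : (∑ k ∈ Ico a (a + N), sq gU N u k) ≤ (a + N - 1) * sq gU N u (a + N) := by
        rw [sq_add gU (by omega)]
        exact (Nat.lt_mul_div_succ _ (by omega)).le
      have k4 : ((∑ k ∈ Ico a (a + N), sq gU N u k : ℕ) : ℝ) ≤
          (a + N - 1) * sq gU N u (a + N) := by
        have : ((a + N - 1 : ℕ) : ℝ) = a + N - 1 := by rw [Nat.cast_sub (by omega)]; simp
        rw [← this]
        exact_mod_cast k3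
      rw [cast_Ico _ (Nat.le_add_right a N)] at k4
      have k5 := mul_le_mul_of_nonneg_left k4 hγ
      have k6 : (0 : ℝ) ≤ 4 * E * (a - N : ℕ) := by positivity
      have a0 : (0 : ℝ) ≤ a := Nat.cast_nonneg a
      simp only [G, sum_range_succ, Nat.add_sub_cancel, show a + N + 1 - N = a + 1 by omega] at k1 ⊢
      push_cast at k1 k2 k5 ⊢
      rw [add_sub_cancel_right] at k2
      have k7 : CC P w s (a + N + 1) - CC P w s (a + N) ≤ γ * sq gU N u (a + N) + 4 * E := by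
        refine le_of_mul_le_mul_left ?_ (show (0 : ℝ) < a + N - 1 by linarith)
        nlinarith [mul_nonneg hE (sub_nonneg.2 hN')]
      linarith
  have k := chain h0 (hs b) hab le_rfl
  have k1 : ((b - N : ℕ) : ℝ) ≤ b := mod_cast Nat.sub_le _ _
  have k2 : (0 : ℝ) ≤ 4 * E * (a - N : ℕ) := by positivity
  rw [cast_Ico _ hab]
  simp only [G] at k
  nlinarith

theorem lower (h : Hyp P w s N τ) (hN : 2 ≤ N) (h1 : τ ≤ 1) (he : er N τ ≤ E) (hγ : 0 ≤ γ)
    (hl : ∀ i : ℕ, i ≤ N → |CC P w s i - γ * (u * i)| ≤ E) {a b : ℕ} (hab : a ≤ b) :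
    γ * (∑ k ∈ Ico a b, sq gL N u k : ℕ) ≤ CC P w s b - CC P w s a + 4 * E * b + 2 * E := by
  have hE : 0 ≤ E := (abs_nonneg _).trans (hl 0 (Nat.zero_le _))
  have hN' : (2 : ℝ) ≤ N := mod_cast hN
  let G : ℕ → ℝ := fun b =>
    γ * (∑ k ∈ range b, sq gL N u k : ℕ) - CC P w s b - 4 * E * (b - N : ℕ)
  have h0 : ∀ b ≤ N, |G b| ≤ E := fun b hb => by
    simpa only [G, pre gL hb, Nat.sub_eq_zero_of_le hb, Nat.cast_zero, mul_zero, sub_zero,
      abs_sub_comm] using hl b hb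
  have hs : ∀ n i, N ≤ i → i < n → G (i + 1) ≤ G i := by
    intro n
    induction n with
    | zero => omega
    | succ n ih =>
      intro i hi hn
      rcases Nat.lt_or_ge i n with e | e
      · exact ih i hi e
      obtain ⟨a, rfl⟩ : ∃ a, i = a + N := ⟨i - N, by omega⟩
      have k1 := chain h0 ih (show a + 1 ≤ a + N by omega) (show a + N ≤ n by omega)
      have k2 := h.low (by linarith) h1 (a + N : ℕ)
      have k3 : (a + N + 1) * sq gL N u (a + N) ≤ ∑ k ∈ Ico (a + 1) (a + N), sq gL N u k := by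
        rw [sq_add gL (by omega), sum_eq_sum_Ico_succ_bot (show a < a + N by omega)]
        refine (Nat.mul_div_le _ _).trans (le_of_eq ?_)
        exact Nat.add_sub_cancel_left _ _
      have k4 : ((a : ℝ) + N + 1) * sq gL N u (a + N) ≤
          ((∑ k ∈ Ico (a + 1) (a + N), sq gL N u k : ℕ) : ℝ) := by exact_mod_cast k3
      rw [cast_Ico _ (show a + 1 ≤ a + N by omega)] at k4
      have k5 := mul_le_mul_of_nonneg_left k4 hγ
      have k6 : (0 : ℝ) ≤ 4 * E * (a + 1 - N : ℕ) := by positivity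
      have a0 : (0 : ℝ) ≤ a := Nat.cast_nonneg a
      simp only [G, sum_range_succ _ (a + N), Nat.add_sub_cancel,
        show a + N + 1 - N = a + 1 by omega] at k1 ⊢
      push_cast at k1 k2 k5 ⊢
      rw [add_sub_cancel_right] at k2
      have k7 : γ * sq gL N u (a + N) - 4 * E ≤ CC P w s (a + N + 1) - CC P w s (a + N) := by
        refine le_of_mul_le_mul_left ?_ (show (0 : ℝ) < a + N + 1 by linarith)
        nlinarith [mul_nonneg hE (sub_nonneg.2 hN')]
      linarith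
  have k := chain h0 (hs b) hab le_rfl
  have k1 : ((b - N : ℕ) : ℝ) ≤ b := mod_cast Nat.sub_le _ _
  have k2 : (0 : ℝ) ≤ 4 * E * (a - N : ℕ) := by positivity
  rw [cast_Ico _ hab]
  simp only [G] at k
  nlinarith

theorem zip_all {f : ℕ → ℕ} {n : ℕ} {l : List ℕ} {q : ℕ × ℕ → Bool} (hl : l.length ≤ n)
    (h : (l.zip ((List.range' 0 n).map f)).all q = true) {j : ℕ} (hj : j < l.length) :
    q (l[j], f j) = true := by
  refine List.all_eq_true.1 h _ (List.mem_iff_getElem.2 ⟨j, by simp; omega, ?_⟩)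
  simp

/-- Soundness of the checker. -/
theorem law {Z st : ℕ} {lo hi : List ℕ} (hc : check Z st lo hi = true) :
    ∃ τ₀ : ℝ, 0 < τ₀ ∧ ∀ (P : Finset ℕ) (w s : ℕ → ℝ) (τ : ℝ), τ ≤ τ₀ → Hyp P w s Z τ →
      (∀ (j : ℕ) (hj : j < lo.length), (lo[j] : ℝ) / 2 ^ 32 ≤ mass P w s j (j + 1)) ∧
      ∀ (j : ℕ) (hj : j < hi.length), mass P w s j (j + 1) ≤ (hi[j] : ℝ) / 2 ^ 32 := by
  simp only [check, frc_eq, Bool.and_eq_true, Nat.ble_eq] at hc
  obtain ⟨⟨⟨⟨hN, lh⟩, ll⟩, TL1, c1⟩, TU1, c2⟩ := hc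
  have hN1 : 1 ≤ Z * st := by omega
  have hst : 1 ≤ st := Nat.pos_of_mul_pos_left hN1
  have hZ : 1 ≤ Z := Nat.pos_of_mul_pos_right hN1
  have hst' : (1 : ℝ) ≤ st := mod_cast hst
  have eL : sm (tab gL Z st) 0 = ∑ k ∈ Ico 0 (6 * (Z * st)), sq gL (Z * st) 1099511627776 k := by
    rw [sm_eq, tab_eq _ hN1, sum_map, sum_cl, zero_add, zero_add, zero_mul, mul_assoc]
  have eU : sm (tab gU Z st) 0 = ∑ k ∈ Ico 0 (6 * (Z * st)), sq gU (Z * st) 1099511627776 k := by
    rw [sm_eq, tab_eq _ hN1, sum_map, sum_cl, zero_add, zero_add, zero_mul, mul_assoc]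
  have eU' : sm ((tab gU Z st).drop (5 * Z)) 0 =
      ∑ k ∈ Ico (5 * (Z * st)) (6 * (Z * st)), sq gU (Z * st) 1099511627776 k := by
    rw [sm_eq, tab_eq _ hN1, ← List.map_drop, List.drop_range', sum_map, sum_cl, zero_add,
      zero_add, mul_one, mul_assoc, show (5 * Z + (6 * Z - 5 * Z)) * st = 6 * (Z * st) by
        rw [Nat.add_sub_cancel' (by omega), mul_assoc]]
  rw [eL] at TL1 c1
  rw [eU, eU'] at TU1 c2
  rw [tab_eq _ hN1] at c1 c2
  have hj6 : ∀ j < 6 * Z, j * st + st ≤ 6 * (Z * st) := fun j hj => by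
    rw [← mul_assoc, ← add_one_mul]
    exact Nat.mul_le_mul_right _ hj
  have hNc : ((Z * st : ℕ) : ℝ) = st * Z := by push_cast; ring
  generalize Z * st = N at *
  have hN' : (2 : ℝ) ≤ N := mod_cast hN
  obtain ⟨E, hE, hE'⟩ : ∃ E : ℝ, 0 < E ∧ 64 * (E * N) * 2 ^ 32 = 1 :=
    ⟨1 / (64 * N * 2 ^ 32), by positivity, by field_simp⟩
  obtain ⟨τ₀, t0, t1, H⟩ := lin' hN hE
  refine ⟨τ₀ / st, by positivity, fun P w s τ hτ h => ?_⟩
  have h' := h.scale hst'
  rw [← hNc] at h'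
  rw [le_div_iff₀' (by positivity)] at hτ
  obtain ⟨he, hl⟩ := H _ _ _ _ hτ h'
  have t2 := hτ.trans t1
  have em : ∀ j : ℕ, mass P w s j (j + 1) = CC P w (fun p => st * s p) (j * st + st : ℕ) -
      CC P w (fun p => st * s p) (j * st : ℕ) := fun j => by
    rw [mass_eq (by linarith), ← CC_scale (M := st) (by positivity) (j + 1),
      ← CC_scale (M := st) (by positivity) j]
    push_cast
    ring_nf
  simp only [em]
  generalize (fun p => st * s p) = s' at *
  generalize st * τ = τ' at *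
  have c0 : 0 ≤ CC P w s' N := (h'.zero le_rfl).ge.trans (h'.mono t2 (by linarith))
  obtain ⟨γ, hγ, hl'⟩ : ∃ γ : ℝ, 0 ≤ γ ∧
      ∀ i : ℕ, i ≤ N → |CC P w s' i - γ * ((1099511627776 : ℕ) * i)| ≤ E :=
    ⟨CC P w s' N / N / (1099511627776 : ℕ), by positivity, fun i hi => by
      rw [← mul_assoc, div_mul_cancel₀ _ (by positivity)]
      exact hl i hi⟩
  have hEN : 2 * E ≤ E * N := by nlinarith
  have n1 := lower h' hN t2 he hγ hl' (Nat.zero_le (6 * N))
  have n2 := upper h' hN t2 he hγ hl' (Nat.zero_le (6 * N))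
  have n3 := upper h' hN t2 he hγ hl' (show 5 * N ≤ 6 * N by omega)
  have n4 := h'.tail (by linarith) t2 (6 * N : ℕ)
  have n5 := h'.le_one t2 (6 * N : ℕ)
  rw [h'.zero (x := (0 : ℕ)) (by simp)] at n1 n2
  rw [show ((6 * N : ℕ) : ℝ) - N = (5 * N : ℕ) by push_cast; ring] at n4
  have e6 : ((6 * N : ℕ) : ℝ) = 6 * N := by push_cast; ring
  generalize CC P w s' (6 * N : ℕ) = x6 at *
  generalize CC P w s' (5 * N : ℕ) = x5 at *
  rw [e6] at n1 n2 n3 n4
  have n6 : 6 * (1 - x6) ≤ 1 - x5 + E := by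
    refine le_of_mul_le_mul_left ?_ (show (0 : ℝ) < N by linarith)
    nlinarith
  refine ⟨fun j hj => ?_, fun j hj => ?_⟩
  · have q := zip_all ll c2 hj
    have b1 := hj6 j (hj.trans_le ll)
    have m0 := h'.mono t2 (show ((j * st : ℕ) : ℝ) ≤ (j * st + st : ℕ) from
      mod_cast Nat.le_add_right _ _)
    have m1 := lower h' hN t2 he hγ hl' (Nat.le_add_right (j * st) st)
    have b2 : E * (j * st + st : ℕ) ≤ E * (6 * N) :=
      mul_le_mul_of_nonneg_left (by exact_mod_cast b1) hE.le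
    simp only [Bool.or_eq_true, Bool.and_eq_true, Nat.ble_eq, Nat.beq_eq, cl] at q
    rcases q with q | ⟨q1, q2⟩
    · rw [q, Nat.cast_zero, zero_div]
      linarith
    have q1' : (lo[j] : ℝ) + 1 ≤ 2 ^ 32 := by exact_mod_cast q1
    have q2' := mul_le_mul_of_nonneg_left (Nat.cast_le (α := ℝ).2 q2) hγ
    have l0 : (0 : ℝ) ≤ lo[j] := Nat.cast_nonneg _
    simp only [Nat.cast_mul, Nat.cast_add, Nat.cast_ofNat, Nat.cast_one] at q2'
    generalize ((∑ k ∈ Ico 0 (6 * N), sq gU N 1099511627776 k : ℕ) : ℝ) = A at *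
    generalize ((∑ k ∈ Ico (5 * N) (6 * N), sq gU N 1099511627776 k : ℕ) : ℝ) = B at *
    generalize ((∑ k ∈ Ico (j * st) (j * st + st), sq gL N 1099511627776 k : ℕ) : ℝ) = c at *
    generalize (lo[j] : ℝ) = y at *
    have n7 : 5 - 160 * (E * N) ≤ γ * (5 * A + B) := by nlinarith
    have n8 := mul_le_mul_of_nonneg_left n7 (show 0 ≤ y + 1 by linarith)
    have n9 : (y + 1) * (E * N) ≤ 2 ^ 32 * (E * N) :=
      mul_le_mul_of_nonneg_right q1' (by positivity)
    rw [div_le_iff₀ (by positivity)]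
    nlinarith
  · have q := zip_all lh c1 hj
    have b1 := hj6 j (hj.trans_le lh)
    have m1 := upper h' hN t2 he hγ hl' (Nat.le_add_right (j * st) st)
    have b2 : E * (j * st + st : ℕ) ≤ E * (6 * N) :=
      mul_le_mul_of_nonneg_left (by exact_mod_cast b1) hE.le
    simp only [Bool.and_eq_true, Nat.ble_eq, cl] at q
    obtain ⟨q1, q2⟩ := q
    have q1' : (hi[j] : ℝ) ≤ 2 ^ 32 := by exact_mod_cast q1
    have q2' := Nat.cast_le (α := ℝ).2 q2
    have T1 : (1 : ℝ) ≤ (∑ k ∈ Ico 0 (6 * N), sq gL N 1099511627776 k : ℕ) := by exact_mod_cast TL1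
    simp only [Nat.cast_mul, Nat.cast_add, Nat.cast_ofNat] at q2'
    have l0 : (0 : ℝ) ≤ (∑ k ∈ Ico (j * st) (j * st + st), sq gU N 1099511627776 k : ℕ) :=
      Nat.cast_nonneg _
    generalize ((∑ k ∈ Ico 0 (6 * N), sq gL N 1099511627776 k : ℕ) : ℝ) = A at *
    generalize ((∑ k ∈ Ico (j * st) (j * st + st), sq gU N 1099511627776 k : ℕ) : ℝ) = c at *
    generalize (hi[j] : ℝ) = y at *
    have y1 : 1 ≤ y := by
      refine le_of_mul_le_mul_right ?_ (show 0 < A by linarith)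
      linarith
    have n7 : γ * A ≤ 1 + 25 * (E * N) := by linarith
    have n8 := mul_le_mul_of_nonneg_left n7 (show 0 ≤ y - 1 by linarith)
    have n9 : (y - 1) * (E * N) ≤ 2 ^ 32 * (E * N) :=
      mul_le_mul_of_nonneg_right (by linarith) (by positivity)
    have q3 := mul_le_mul_of_nonneg_left q2' hγ
    rw [le_div_iff₀ (by positivity)]
    nlinarith

end Pool.Agent.Lib.MP_4b1228_nt.PP.DK
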