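import Pool.Agent.Lib.MP_4b1228_nt.PP.DKT165u
import Pool.Agent.Lib.MP_4b1228_nt.PP.DKT165l

/-! The law of the size of the small part: the table for `Z = 165`. -/

namespace Pool.Agent.Lib.MP_4b1228_nt.PP.DK

theorem ok165 : check2 165 242 lo165 hi165 = true := check2_of2 okU165 okL165

end Pool.Agent.Lib.MP_4b1228_nt.PP.DK
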