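import Pool.Agent.Lib.MP_4b1228_nt.PP.DKT60u
import Pool.Agent.Lib.MP_4b1228_nt.PP.DKT60l

/-! The law of the size of the small part: the table for `Z = 60`. -/

namespace Pool.Agent.Lib.MP_4b1228_nt.PP.DK

theorem ok60 : check2 60 500 lo60 hi60 = true := check2_of2 okU60 okL60

end Pool.Agent.Lib.MP_4b1228_nt.PP.DK
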