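import Pool.Agent.Lib.MP_4b1228_nt.PP.DKT80u
import Pool.Agent.Lib.MP_4b1228_nt.PP.DKT80l

/-! The law of the size of the small part: the table for `Z = 80`. -/

namespace Pool.Agent.Lib.MP_4b1228_nt.PP.DK

theorem ok80 : check2 80 500 lo80 hi80 = true := check2_of2 okU80 okL80

end Pool.Agent.Lib.MP_4b1228_nt.PP.DK
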