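import Mathlib

/-! The law of the total size of a random set of primes: the size-bias inequalities. -/

open Finset
open scoped Classical

noncomputable section

namespace Pool.Agent.Lib.MP_4b1228_nt.PP.DK

/-- The probability of the set `S` for independent choices with probabilities `w`. -/
def pr (P : Finset ℕ) (w : ℕ → ℝ) (S : Finset ℕ) : ℝ := (∏ p ∈ S, w p) * ∏ p ∈ P \ S, (1 - w p)

def Ex (P : Finset ℕ) (w : ℕ → ℝ) (φ : Finset ℕ → ℝ) : ℝ := ∑ S ∈ P.powerset, pr P w S * φ S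

/-- The probability that the total size lies in `[a, b)`. -/
def mass (P : Finset ℕ) (w s : ℕ → ℝ) (a b : ℝ) : ℝ :=
  ∑ S ∈ P.powerset with a ≤ ∑ p ∈ S, s p ∧ ∑ p ∈ S, s p < b, pr P w S

/-- Small weights, and the first theorem of Mertens on `[0, Z]` with error `τ`. -/
structure Hyp (P : Finset ℕ) (w s : ℕ → ℝ) (Z τ : ℝ) : Prop where
  w0 : ∀ p ∈ P, 0 ≤ w p
  w1 : ∀ p ∈ P, w p ≤ τ
  s0 : ∀ p ∈ P, 0 ≤ s p
  mert : ∀ x : ℝ, |∑ p ∈ P with s p < x, s p * w p - max 0 (min x Z)| ≤ τ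

variable {P : Finset ℕ} {w s : ℕ → ℝ} {Z τ : ℝ}

theorem Ex_insert {p : ℕ} (hp : p ∉ P) (φ : Finset ℕ → ℝ) :
    Ex (insert p P) w φ = Ex P w fun S => (1 - w p) * φ S + w p * φ (insert p S) := by
  unfold Ex
  rw [sum_powerset_insert hp, ← sum_add_distrib]
  refine sum_congr rfl fun S hS => ?_
  have h1 : p ∉ S := fun h => hp (mem_powerset.1 hS h)
  have h2 : p ∉ P \ S := fun h => hp (mem_sdiff.1 h).1
  have h3 : insert p P \ insert p S = P \ S := by
    rw [insert_sdiff_insert, sdiff_insert_of_notMem hp]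
  unfold pr
  rw [insert_sdiff_of_notMem _ h1, prod_insert h2, prod_insert h1, h3]
  ring

theorem Ex_const (P : Finset ℕ) (w : ℕ → ℝ) (c : ℝ) : Ex P w (fun _ => c) = c := by
  induction P using Finset.induction_on with
  | empty => simp [Ex, pr]
  | insert p P hp ih =>
    rw [Ex_insert hp]
    simpa only [← add_mul, sub_add_cancel, one_mul] using ih

theorem pr_nonneg (h0 : ∀ p ∈ P, 0 ≤ w p) (h1 : ∀ p ∈ P, w p ≤ 1) {S : Finset ℕ} (hS : S ⊆ P) :
    0 ≤ pr P w S :=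
  mul_nonneg (prod_nonneg fun p hp => h0 p (hS hp))
    (prod_nonneg fun p hp => sub_nonneg.2 (h1 p (mem_sdiff.1 hp).1))

theorem Ex_mono (h0 : ∀ p ∈ P, 0 ≤ w p) (h1 : ∀ p ∈ P, w p ≤ 1) {φ ψ : Finset ℕ → ℝ}
    (h : ∀ S ⊆ P, φ S ≤ ψ S) : Ex P w φ ≤ Ex P w ψ :=
  sum_le_sum fun S hS => mul_le_mul_of_nonneg_left (h S (mem_powerset.1 hS))
    (pr_nonneg h0 h1 (mem_powerset.1 hS))

theorem Ex_sub (φ ψ : Finset ℕ → ℝ) : Ex P w (fun S => φ S - ψ S) = Ex P w φ - Ex P w ψ := by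
  simp only [Ex, mul_sub, sum_sub_distrib]

theorem Ex_mul (c : ℝ) (φ : Finset ℕ → ℝ) : Ex P w (fun S => c * φ S) = c * Ex P w φ := by
  simp only [Ex, mul_sum]
  exact sum_congr rfl fun _ _ => by ring

theorem Ex_sum (T : Finset ℕ) (φ : ℕ → Finset ℕ → ℝ) :
    Ex P w (fun S => ∑ p ∈ T, φ p S) = ∑ p ∈ T, Ex P w (φ p) := by
  simp only [Ex, mul_sum]
  exact sum_comm

theorem Ex_congr {φ ψ : Finset ℕ → ℝ} (h : ∀ S ⊆ P, φ S = ψ S) : Ex P w φ = Ex P w ψ :=
  sum_congr rfl fun S hS => by rw [h S (mem_powerset.1 hS)]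

theorem Ex_abs (h0 : ∀ p ∈ P, 0 ≤ w p) (h1 : ∀ p ∈ P, w p ≤ 1) {φ : Finset ℕ → ℝ} {c : ℝ}
    (h : ∀ S ⊆ P, |φ S| ≤ c) : |Ex P w φ| ≤ c := by
  refine abs_le.2 ⟨?_, ?_⟩
  · rw [← Ex_const P w (-c)]
    exact Ex_mono h0 h1 fun S hS => (abs_le.1 (h S hS)).1
  · rw [← Ex_const P w c]
    exact Ex_mono h0 h1 fun S hS => (abs_le.1 (h S hS)).2

/-- indicator of `r < b` -/
def ind (b r : ℝ) : ℝ := if r < b then 1 else 0

theorem bias (h0 : ∀ p ∈ P, 0 ≤ w p) (h1 : ∀ p ∈ P, w p ≤ 1) {p : ℕ} (hp : p ∈ P) (b : ℝ) :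
    |Ex P w (fun S => (if p ∈ S then 1 else 0) * ind b (∑ q ∈ S, s q) -
      w p * ind b (∑ q ∈ S, s q + s p))| ≤ w p ^ 2 := by
  obtain ⟨Q, hQ, rfl⟩ : ∃ Q, p ∉ Q ∧ P = insert p Q := ⟨_, notMem_erase p P, (insert_erase hp).symm⟩
  rw [Ex_insert hQ]
  refine Ex_abs (fun q hq => h0 q (mem_insert_of_mem hq)) (fun q hq => h1 q (mem_insert_of_mem hq))
    fun S hS => ?_
  have hn : p ∉ S := fun h => hQ (hS h)
  rw [if_neg hn, if_pos (mem_insert_self _ _), sum_insert hn, add_comm (s p)]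
  have := sq_nonneg (w p)
  unfold ind
  split_ifs <;> refine abs_le.2 ⟨?_, ?_⟩ <;> nlinarith

/-- the error term -/
def er (Z τ : ℝ) : ℝ := τ * (Z + τ) + τ

theorem Hyp.tau (h : Hyp P w s Z τ) : 0 ≤ τ := (abs_nonneg _).trans (h.mert 0)

theorem Hyp.tot (h : Hyp P w s Z τ) (hZ : 0 ≤ Z) : ∑ p ∈ P, s p * w p ≤ Z + τ := by
  have h1 := (abs_le.1 (h.mert (∑ p ∈ P, s p + 1))).2
  rw [filter_true_of_mem fun p hp => (single_le_sum h.s0 hp).trans_lt (lt_add_one _)] at h1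
  have : max 0 (min (∑ p ∈ P, s p + 1) Z) ≤ Z := max_le hZ (min_le_right _ _)
  linarith

theorem Hyp.key (h : Hyp P w s Z τ) (hZ : 0 ≤ Z) (h1 : τ ≤ 1) (b : ℝ) :
    |Ex P w fun S => (∑ q ∈ S, s q) * ind b (∑ q ∈ S, s q) - max 0 (min (b - ∑ q ∈ S, s q) Z)| ≤
      er Z τ := by
  have w1 : ∀ p ∈ P, w p ≤ 1 := fun p hp => (h.w1 p hp).trans h1
  have e : Ex P w (fun S => (∑ q ∈ S, s q) * ind b (∑ q ∈ S, s q) -
      max 0 (min (b - ∑ q ∈ S, s q) Z)) =
      ∑ p ∈ P, s p * Ex P w (fun S => (if p ∈ S then 1 else 0) * ind b (∑ q ∈ S, s q) -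
        w p * ind b (∑ q ∈ S, s q + s p)) -
      Ex P w fun S => max 0 (min (b - ∑ q ∈ S, s q) Z) -
        ∑ p ∈ P with s p < b - ∑ q ∈ S, s q, s p * w p := by
    simp only [← Ex_mul]
    rw [← Ex_sum, ← Ex_sub]
    refine Ex_congr fun S hS => ?_
    have e1 : ∑ p ∈ P, s p * (if p ∈ S then (1 : ℝ) else 0) = ∑ p ∈ S, s p := by
      simp only [mul_ite, mul_one, mul_zero]
      rw [← sum_filter, filter_mem_eq_inter, inter_eq_right.2 hS]
    have e2 : ∑ p ∈ P with s p < b - ∑ q ∈ S, s q, s p * w p =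
        ∑ p ∈ P, s p * (w p * ind b (∑ q ∈ S, s q + s p)) := by
      rw [sum_filter]
      refine sum_congr rfl fun p _ => ?_
      simp only [ind, lt_sub_iff_add_lt', mul_ite, mul_one, mul_zero]
    simp only [mul_sub, sum_sub_distrib, ← mul_assoc, ← sum_mul, e1, e2]
    ring
  rw [e]
  refine (abs_sub _ _).trans (add_le_add ?_ (Ex_abs h.w0 w1 fun S _ => ?_))
  · refine (abs_sum_le_sum_abs _ _).trans ?_
    refine le_trans (sum_le_sum fun p hp => ?_)
      ((mul_sum P (fun p => s p * w p) τ).symm.trans_le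
        (mul_le_mul_of_nonneg_left (h.tot hZ) h.tau))
    rw [abs_mul, abs_of_nonneg (h.s0 p hp)]
    refine (mul_le_mul_of_nonneg_left (bias h.w0 w1 hp b) (h.s0 p hp)).trans ?_
    have := mul_le_mul_of_nonneg_left (h.w1 p hp) (mul_nonneg (h.s0 p hp) (h.w0 p hp))
    nlinarith
  · rw [abs_sub_comm]
    exact h.mert _

/-- the distribution function -/
def CC (P : Finset ℕ) (w s : ℕ → ℝ) (x : ℝ) : ℝ := Ex P w fun S => ind x (∑ q ∈ S, s q)

theorem mass_eq {a b : ℝ} (hab : a ≤ b) : mass P w s a b = CC P w s b - CC P w s a := by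
  rw [CC, CC, ← Ex_sub, mass, sum_filter]
  refine sum_congr rfl fun S _ => ?_
  unfold ind
  by_cases h1 : ∑ q ∈ S, s q < a
  · simp [h1, h1.trans_le hab, not_le.2 h1]
  · by_cases h2 : ∑ q ∈ S, s q < b <;> simp [h1, h2, not_lt.1 h1]

section
variable (h : Hyp P w s Z τ) (hZ : 1 ≤ Z) (h1 : τ ≤ 1)
include h h1

omit h1 in
theorem Hyp.zero {x : ℝ} (hx : x ≤ 0) : CC P w s x = 0 := by
  rw [← Ex_const P w 0]
  exact Ex_congr fun S hS => if_neg (not_lt.2 (hx.trans (sum_nonneg fun q hq => h.s0 q (hS hq))))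

theorem Hyp.le_one (x : ℝ) : CC P w s x ≤ 1 := by
  rw [← Ex_const P w 1]
  refine Ex_mono h.w0 (fun p hp => (h.w1 p hp).trans h1) fun S _ => ?_
  unfold ind
  split_ifs <;> norm_num

theorem Hyp.mono {x y : ℝ} (hxy : x ≤ y) : CC P w s x ≤ CC P w s y := by
  refine Ex_mono h.w0 (fun p hp => (h.w1 p hp).trans h1) fun S _ => ?_
  unfold ind
  split_ifs <;> linarith

include hZ

theorem Hyp.up (x : ℝ) : (x - 1) * (CC P w s (x + 1) - CC P w s x) ≤
    CC P w s x - CC P w s (x - Z) + 2 * er Z τ := by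
  have k1 := (abs_le.1 (h.key (by linarith) h1 (x + 1))).2
  have k2 := (abs_le.1 (h.key (by linarith) h1 x)).1
  suffices H : (x - 1) * (CC P w s (x + 1) - CC P w s x) - (CC P w s x - CC P w s (x - Z)) ≤ _ - _ by
    have := H.trans (sub_le_sub k1 k2)
    linarith
  simp only [CC, ← Ex_sub, ← Ex_mul]
  refine Ex_mono h.w0 (fun p hp => (h.w1 p hp).trans h1) fun S _ => ?_
  generalize ∑ q ∈ S, s q = r
  simp only [ind, max_def, min_def]
  split_ifs <;> linarith

theorem Hyp.low (x : ℝ) : CC P w s x - CC P w s (x - Z + 1) - 2 * er Z τ ≤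
    (x + 1) * (CC P w s (x + 1) - CC P w s x) := by
  have k1 := (abs_le.1 (h.key (by linarith) h1 (x + 1))).1
  have k2 := (abs_le.1 (h.key (by linarith) h1 x)).2
  suffices H : _ - _ ≤
      (x + 1) * (CC P w s (x + 1) - CC P w s x) - (CC P w s x - CC P w s (x - Z + 1)) by
    have := (sub_le_sub k1 k2).trans H
    linarith
  simp only [CC, ← Ex_sub, ← Ex_mul]
  refine Ex_mono h.w0 (fun p hp => (h.w1 p hp).trans h1) fun S _ => ?_
  generalize ∑ q ∈ S, s q = r
  simp only [ind, max_def, min_def]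
  split_ifs <;> linarith

theorem Hyp.tail (x : ℝ) :
    x * (1 - CC P w s x) ≤ Z * (1 - CC P w s (x - Z)) + 2 * er Z τ := by
  have k1 := (abs_le.1 (h.key (by linarith) h1 (∑ q ∈ P, s q + Z))).2
  have k2 := (abs_le.1 (h.key (by linarith) h1 x)).1
  suffices H : x * (Ex P w (fun _ => 1) - CC P w s x) -
      Z * (Ex P w (fun _ => 1) - CC P w s (x - Z)) ≤ _ - _ by
    have := H.trans (sub_le_sub k1 k2)
    rw [Ex_const] at this
    linarith
  simp only [CC, ← Ex_sub, ← Ex_mul]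
  refine Ex_mono h.w0 (fun p hp => (h.w1 p hp).trans h1) fun S hS => ?_
  have := sum_le_sum_of_subset_of_nonneg hS fun q hq _ => h.s0 q hq
  generalize ∑ q ∈ S, s q = r at this ⊢
  generalize ∑ q ∈ P, s q = B at this ⊢
  simp only [ind, max_def, min_def]
  split_ifs <;> linarith

end

theorem er_nonneg (h : Hyp P w s Z τ) (hZ : 0 ≤ Z) : 0 ≤ er Z τ := by
  have := h.tau
  unfold er
  positivity

/-- the distribution function is almost linear on `[0, N]` -/
theorem Hyp.lin {N : ℕ} (h : Hyp P w s N τ) (hN : 2 ≤ N) (h1 : τ ≤ 1) {i : ℕ} (hi : i ≤ N) :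
    (N + 1) * (CC P w s i - 2 * er N τ) ≤ (i + 1) * CC P w s N ∧
    (i - 1) * CC P w s N ≤ (N - 1) * (CC P w s i + 2 * er N τ) := by
  have hN' : (2 : ℝ) ≤ N := mod_cast hN
  have he := er_nonneg h (by linarith)
  have hc : ∀ x, 0 ≤ CC P w s x := fun x => by
    rcases le_total x 0 with e | e
    · exact (h.zero e).ge
    · exact (h.zero le_rfl).ge.trans (h.mono h1 e)
  constructor
  · have : (N + 1) * (CC P w s i - 2 * er N τ) ≤ (i + 1) * (CC P w s N - 2 * er N τ) := by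
      induction hi using Nat.decreasingInduction with
      | self => exact le_rfl
      | of_succ k hk ih =>
        have hk' : (k : ℝ) + 1 ≤ N := mod_cast hk
        have h2 := h.low (by linarith) h1 k
        rw [h.zero (x := k - N + 1) (by linarith)] at h2
        push_cast at ih
        have hk0 : (0 : ℝ) ≤ k := Nat.cast_nonneg k
        refine le_of_mul_le_mul_left ?_ (show (0 : ℝ) < k + 2 by linarith)
        have h3 := mul_le_mul_of_nonneg_left ih (show (0 : ℝ) ≤ k + 1 by linarith)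
        have h4 := mul_le_mul_of_nonneg_left h2 (show (0 : ℝ) ≤ N + 1 by linarith)
        nlinarith
    have h5 : (0 : ℝ) ≤ (i + 1) * (2 * er N τ) := by positivity
    linarith
  · rcases le_or_gt i 1 with e | e
    · have : (i : ℝ) ≤ 1 := mod_cast e
      exact (mul_nonpos_of_nonpos_of_nonneg (by linarith) (hc _)).trans
        (mul_nonneg (by linarith) (add_nonneg (hc _) (by linarith)))
    have : (i - 1) * (CC P w s N + 2 * er N τ) ≤ (N - 1) * (CC P w s i + 2 * er N τ) := by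
      induction hi using Nat.decreasingInduction with
      | self => exact le_rfl
      | of_succ k hk ih =>
        have hk' : (k : ℝ) + 1 ≤ N := mod_cast hk
        have h2 := h.up (by linarith) h1 k
        rw [h.zero (x := k - N) (by linarith)] at h2
        have ih := ih (Nat.lt_succ_of_lt e)
        push_cast at ih
        have hk0 : (1 : ℝ) < k := mod_cast e
        refine le_of_mul_le_mul_left ?_ (show (0 : ℝ) < k by linarith)
        have h3 := mul_le_mul_of_nonneg_left ih (show (0 : ℝ) ≤ k - 1 by linarith)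
        have h4 := mul_le_mul_of_nonneg_left h2 (show (0 : ℝ) ≤ N - 1 by linarith)
        nlinarith
    have : (1 : ℝ) < i := mod_cast e
    have h5 : (0 : ℝ) ≤ (i - 1) * (2 * er N τ) := mul_nonneg (by linarith) (by linarith)
    linarith

theorem Hyp.scale (h : Hyp P w s Z τ) {M : ℝ} (hM : 1 ≤ M) :
    Hyp P w (fun p => M * s p) (M * Z) (M * τ) := by
  have hM0 : 0 < M := by linarith
  refine ⟨h.w0, fun p hp => (h.w1 p hp).trans (le_mul_of_one_le_left h.tau hM),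
    fun p hp => mul_nonneg hM0.le (h.s0 p hp), fun x => ?_⟩
  obtain ⟨y, rfl⟩ : ∃ y, x = M * y := ⟨x / M, by field_simp⟩
  simp only [mul_lt_mul_iff_right₀ hM0, mul_assoc, ← mul_sum]
  rw [← mul_min_of_nonneg _ _ hM0.le, ← mul_zero M, ← mul_max_of_nonneg _ _ hM0.le, ← mul_sub,
    abs_mul, abs_of_pos hM0]
  exact mul_le_mul_of_nonneg_left (h.mert y) hM0.le

theorem CC_scale {M : ℝ} (hM : 0 < M) (x : ℝ) :
    CC P w (fun p => M * s p) (M * x) = CC P w s x := by
  simp only [CC, ind, ← mul_sum, mul_lt_mul_iff_right₀ hM]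

/-- exact linearity in the limit -/
theorem lin' {N : ℕ} (hN : 2 ≤ N) {E : ℝ} (hE : 0 < E) : ∃ τ₀ : ℝ, 0 < τ₀ ∧ τ₀ ≤ 1 ∧
    ∀ (P : Finset ℕ) (w s : ℕ → ℝ) (τ : ℝ), τ ≤ τ₀ → Hyp P w s N τ →
      er N τ ≤ E ∧ ∀ i : ℕ, i ≤ N → |CC P w s i - CC P w s N / N * i| ≤ E := by
  obtain ⟨M, hM⟩ := exists_nat_gt (2 / E)
  have hN' : (2 : ℝ) ≤ N := mod_cast hN
  have hM0 : (0 : ℝ) < M := lt_trans (by positivity) hM
  have hM1 : 1 ≤ M := by exact_mod_cast (show 0 < M from mod_cast hM0)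
  have hM1' : (1 : ℝ) ≤ M := mod_cast hM1
  rw [div_lt_iff₀ hE] at hM
  have hK : (0 : ℝ) < M * (M * N + 2) := by positivity
  refine ⟨min (1 / M) (E / 4 / (M * (M * N + 2))), by positivity,
    (min_le_left _ _).trans (by rw [div_le_one hM0]; exact hM1'), fun P w s τ hτ h => ?_⟩
  have t0 := h.tau
  have t1 : M * τ ≤ 1 := by
    have := hτ.trans (min_le_left _ _)
    rwa [le_div_iff₀' hM0] at this
  have t2 : τ * (M * (M * N + 2)) ≤ E / 4 := (le_div_iff₀ hK).1 (hτ.trans (min_le_right _ _))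
  have h' := h.scale hM1'
  rw [← Nat.cast_mul] at h'
  have e1 : er (M * N : ℕ) (M * τ) ≤ E / 4 := by
    refine le_trans ?_ t2
    unfold er
    push_cast
    have := mul_le_mul_of_nonneg_left t1 (mul_nonneg hM0.le t0)
    nlinarith
  have e2 : er N τ ≤ er (M * N : ℕ) (M * τ) := by
    have a1 : τ ≤ M * τ := le_mul_of_one_le_left t0 hM1'
    have a2 : (N : ℝ) ≤ M * N := le_mul_of_one_le_left (by linarith) hM1'
    unfold er
    push_cast
    gcongr
  refine ⟨by linarith, fun i hi => ?_⟩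
  obtain ⟨l1, l2⟩ := h'.lin (by nlinarith) t1 (Nat.mul_le_mul_left M hi)
  have e0 := er_nonneg h' (by positivity)
  generalize er (M * N : ℕ) (M * τ) = η at *
  push_cast at l1 l2
  rw [CC_scale hM0, CC_scale hM0] at l1 l2
  have t3 : τ ≤ 1 := (le_mul_of_one_le_left t0 hM1').trans t1
  have c1 := h.le_one t3 N
  have c0 : 0 ≤ CC P w s N := (h.zero le_rfl).ge.trans (h.mono t3 (by linarith))
  have d0 : 0 ≤ CC P w s i := (h.zero le_rfl).ge.trans (h.mono t3 (Nat.cast_nonneg i))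
  have d1 := h.le_one t3 i
  generalize CC P w s N = c at *
  generalize CC P w s i = d at *
  have hMN : (0 : ℝ) < M * N := by positivity
  have hE2 : 4 ≤ M * N * E := by nlinarith
  have e3 : M * N * (c / N * i) = M * i * c := by field_simp
  have e4 : M * N * η ≤ M * N * (E / 4) := mul_le_mul_of_nonneg_left e1 hMN.le
  have e5 : η ≤ M * N * η := le_mul_of_one_le_left e0 (by nlinarith)
  refine abs_le.2 ⟨?_, ?_⟩ <;> refine le_of_mul_le_mul_left ?_ hMN <;> rw [mul_sub, e3] <;> nlinarith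

end Pool.Agent.Lib.MP_4b1228_nt.PP.DK
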