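import Pool.Agent.Lib.MP_4b1228_nt.PP.DKd

/-! The law of the total size of a random set of primes: the checker in two halves. -/

noncomputable section

namespace Pool.Agent.Lib.MP_4b1228_nt.PP.DK

def checkU (Z st A B : ℕ) (hi : List (ℕ × ℕ)) : Bool :=
  Nat.ble 2 (Z * st) && Nat.ble hi.length (6 * Z) && Nat.ble 1 A &&
  (frc (5 * sf (tab3 gU Z st) + sf ((tab3 gU Z st).drop (5 * Z))) fun B' =>
    Nat.ble 1 B' && Nat.ble B' B) &&
  (hi.zip (tab3 gU Z st)).all fun p =>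
    Nat.ble (p.2.2 * 4294967296) (p.1.1 * st * A) &&
    Nat.ble ((st + 1) * p.2.1 * 4294967296) (p.1.2 * st * A + p.2.2 * 4294967296)

def checkL (Z st A B : ℕ) (lo : List (ℕ × ℕ)) : Bool :=
  Nat.ble lo.length (6 * Z) && Nat.ble A (sf (tab3 gL Z st)) &&
  (lo.zip (tab3 gL Z st)).all fun p =>
    Nat.ble (p.1.1 * st * B + 5 * p.2.1 * 4294967296) (5 * p.2.2 * 4294967296) &&
    Nat.ble (p.1.2 * st * B + 5 * p.2.2 * 4294967296) (5 * (st * p.2.1) * 4294967296)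

theorem check2_of2 {Z st A B : ℕ} {lo hi : List (ℕ × ℕ)} (hU : checkU Z st A B hi = true)
    (hL : checkL Z st A B lo = true) : check2 Z st lo hi = true := by
  refine check2_of ?_
  simp only [checkU, checkL, check3, frc_eq, Bool.and_eq_true, Nat.ble_eq, List.all_eq_true]
    at hU hL ⊢
  obtain ⟨⟨⟨⟨h1, h2⟩, h3⟩, h4, h5⟩, h6⟩ := hU
  obtain ⟨⟨h7, h8⟩, h9⟩ := hL
  refine ⟨⟨⟨h1, h2⟩, h7⟩, ⟨⟨h3.trans h8, h4⟩, fun p hp => ⟨?_, ?_⟩⟩, fun p hp => ⟨?_, ?_⟩⟩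
  · exact (h6 p hp).1.trans (Nat.mul_le_mul_left _ h8)
  · exact (h6 p hp).2.trans (Nat.add_le_add_right (Nat.mul_le_mul_left _ h8) _)
  · exact (Nat.add_le_add_right (Nat.mul_le_mul_left _ h5) _).trans (h9 p hp).1
  · exact (Nat.add_le_add_right (Nat.mul_le_mul_left _ h5) _).trans (h9 p hp).2

end Pool.Agent.Lib.MP_4b1228_nt.PP.DK
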