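import Pool.Agent.Lib.MP_4b1228_nt.PP.LatR

/-! Packed data for the tables. -/

namespace Pool.Agent.Lib.MP_4b1228_nt.PP.R4

open PP.Lat

noncomputable section

def nth {α : Type} (d : α) (l : List α) : ℕ → α :=
  List.rec (fun _ => d) (fun a _ r i => Nat.rec a (fun j _ => r j) i) l

/-- Lane `b` of `y`: `2 z` stands for `z` and `2 z + 1` for `-(z + 1)`. -/
def gz (w y b : ℕ) : ℤ :=
  Bool.rec (Int.negSucc (Nat.shiftRight (ln w y b) 1)) (Int.ofNat (Nat.shiftRight (ln w y b) 1))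
    (Nat.beq (Nat.land (ln w y b) 1) 0)

theorem gz_zero (w b : ℕ) : gz w 0 b = 0 := by simp [gz, ln]

/-- One number for each sorted list of at most three cells. -/
structure Tr where
  x0 : ℕ
  x1 : List ℕ
  x2 : List (List ℕ)
  x3 : List (List (List ℕ))

def Tr.get (x : Tr) (Z : ℕ) : List ℕ → ℕ
  | [] => x.x0
  | [c] => nth 0 x.x1 (Nat.sub c Z)
  | [c, d] => Bool.rec 0 (nth 0 (nth [] x.x2 (Nat.sub c Z)) (Nat.sub d c)) (Nat.ble c d)
  | [c, d, e] => Bool.rec 0 (Bool.rec 0 (nth 0 (nth [] (nth [] x.x3 (Nat.sub c Z)) (Nat.sub d c))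
      (Nat.sub e d)) (Nat.ble d e)) (Nat.ble c d)
  | _ => 0

/-- The coefficient with indices `j, b` is in the lane `j * (k + 1) + b`, `k` the number of cells. -/
def Tr.co (x : Tr) (w Z : ℕ) : List ℕ → ℕ → ℕ → ℤ
  | [c, d], j, b => Bool.rec 0 (gz w (x.get Z [c, d]) (Nat.add (Nat.mul j 3) b)) (Nat.ble j 1)
  | [c, d, e], j, b => Bool.rec 0 (gz w (x.get Z [c, d, e]) b) (Nat.ble j 0)
  | cs, j, b => gz w (x.get Z cs) (Nat.add (Nat.mul j 2) b)

structure Dat where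
  (Q Z m N T a₀ a₁ Θ p₀ p₁ w : ℕ)
  (e c : Tr)
  (s0 sl h0 : List ℕ)
  (s1 h1 : List (List ℕ))

def Dat.tab (d : Dat) : Tab2 where
  Q := d.Q
  Z := d.Z
  m := d.m
  N := d.N
  T := d.T
  a₀ := d.a₀
  a₁ := d.a₁
  Θ := d.Θ
  p₀ := d.p₀
  p₁ := d.p₁
  e := d.e.co d.w d.Z
  s0 ρ := gz d.w (nth 0 d.s0 ρ)
  s1 c ρ := gz d.w (nth 0 (nth [] d.s1 (Nat.sub c d.Z)) ρ)
  sl c := ln d.w (nth 0 d.sl (Nat.sub c d.p₀))
  h0 a := gz d.w (nth 0 d.h0 (Nat.sub a d.a₀))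
  h1 a c := gz d.w (nth 0 (nth [] d.h1 (Nat.sub a d.a₀)) (Nat.sub c d.T))
  on cs := Nat.blt 0 (d.c.get d.Z cs) && decide (cs.sum < max d.a₁ (5 * d.Q / 4))
  c := d.c.co d.w d.Z

end

theorem ble_no {a b : ℕ} (h : b < a) : Nat.ble a b = false :=
  Bool.eq_false_iff.2 fun e => (Nat.le_of_ble_eq_true e).not_gt h

theorem Tr.co_two (x : Tr) (w Z c d j b : ℕ) (h : d < c ∨ 2 ≤ j) : x.co w Z [c, d] j b = 0 := by
  rcases h with h | h
  · simp only [co, get, ble_no h, gz_zero]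
    cases Nat.ble j 1 <;> rfl
  · simp only [co, ble_no h]

theorem Tr.co_three (x : Tr) (w Z c d e j b : ℕ) (h : d < c ∨ e < d ∨ 1 ≤ j) :
    x.co w Z [c, d, e] j b = 0 := by
  rcases h with h | h | h
  · simp only [co, get, ble_no h, gz_zero]
    cases Nat.ble j 0 <;> rfl
  · simp only [co, get, ble_no h]
    cases Nat.ble j 0 <;> cases Nat.ble c d <;> simp only [gz_zero]
  · simp only [co, ble_no h]

theorem Dat.low (x : Dat) : x.tab.Low :=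
  ⟨fun c d j h => x.e.co_two x.w x.Z c d j 0 (Or.inr h),
    fun c d e b => ⟨fun j h => x.e.co_three x.w x.Z c d e j b (Or.inr (Or.inr h)),
      x.c.co_three x.w x.Z c d e 1 b (Or.inr (Or.inr le_rfl))⟩,
    fun _ h => of_decide_eq_true (Bool.and_eq_true_iff.1 h).2⟩

end Pool.Agent.Lib.MP_4b1228_nt.PP.R4
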