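import Pool.Agent.Lib.MP_4b1228_nt.PP.R4V
import Pool.Agent.Lib.MP_4b1228_nt.PP.Dat

/-! The fixed point evaluation of the means on packed data. -/

open Finset

namespace Pool.Agent.Lib.MP_4b1228_nt.PP.R4

open V

noncomputable section

/-- Six times the rows on the cell `a`. -/
def V.evA (t : Tab) (D : ℕ) (L U : ℕ → ℕ) (a : ℕ) : ℕ :=
  frc (L a) fun l => frc (U a) fun u => frc (Nat.sub D (Nat.mul a u)) fun x =>
    frc (Nat.sub D (Nat.mul a l)) fun y => Nat.add (Nat.add (Nat.add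
      (Nat.mul 6 (Bool.rec 0 (Nat.add (tm (t.e [a] 0 0) l u) (tm (t.e [a] 0 1) x y)) (t.vis 0 [a])))
      (Nat.mul (Nat.mul 6 t.Z)
        (Bool.rec 0 (Nat.add (tm (t.e [a] 1 0) l u) (tm (t.e [a] 1 1) x y)) (t.vis 1 [a]))))
      (Nat.mul (Nat.mul 9 (Nat.pow t.Z 2)) (Bool.rec 0 (tm (t.e [a] 2 0) l u) (t.vis 2 [a]))))
      (Nat.mul (Nat.mul 17 (Nat.pow t.Z 3)) (Bool.rec 0 (tm (t.e [a] 3 0) l u) (t.vis 3 [a])))

def Tab.kA (t : Tab) (n : Enc) : ℕ :=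
  sm t.Z (Nat.sub t.Q t.Z) (evA t 1099511627776 (fun k => flo 1099511627776 (n.ll k))
    fun k => cei 1099511627776 (n.lu k))

def V.frg {α : Type} (n : ℕ) (f : ℕ → α) : α := Nat.rec (f 0) (fun m _ => f (Nat.succ m)) n

def Dat.c2 (d : Dat) (j a b : ℕ) : ℤ × ℤ × ℤ :=
  frg (d.e.get d.Z [a, b]) fun y => (gz d.w y (Nat.add (Nat.mul j 3) 0),
    gz d.w y (Nat.add (Nat.mul j 3) 1), gz d.w y (Nat.add (Nat.mul j 3) 2))

def Dat.c3 (d : Dat) (a b c : ℕ) : ℤ × ℤ × ℤ × ℤ :=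
  frg (d.e.get d.Z [a, b, c]) fun y => (gz d.w y 0, gz d.w y 1, gz d.w y 2, gz d.w y 3)

def Dat.c1 (d : Dat) (c ρ : ℕ) : ℤ × ℤ × ℤ × ℤ :=
  frg (nth 0 (nth [] d.s1 (Nat.sub c d.Z)) ρ) fun y => (gz d.w y 0, gz d.w y 1, gz d.w y 2, gz d.w y 3)

/-- The checks: `k2 j`, `k3`, `k1` for the first cells in `[lo, lo + len)`. -/
def Dat.k2 (d : Dat) (n : Enc) (j lo len : ℕ) (w : ℤ) : Bool :=
  chk (d.tab.toTab.k2 n j id (d.c2 j) lo len) (1099511627776 ^ 2) w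

def Dat.k3 (d : Dat) (n : Enc) (lo len : ℕ) (w : ℤ) : Bool :=
  chk (d.tab.toTab.k3 n 0 id d.c3 lo len) (1099511627776 ^ 3) w

def Dat.k1 (d : Dat) (n : Enc) (lo len : ℕ) (w : ℤ) : Bool :=
  chk (d.tab.toTab.k1 n d.c1 lo len) (1099511627776 * 1099511627776 * (d.m * 1099511627776)) w

def Dat.k0 (d : Dat) (n : Enc) (w : ℤ) : Bool :=
  chk (d.tab.toTab.k0 n 0 (d.m * d.Q)) (1099511627776 * 1099511627776) w

def Dat.kA (d : Dat) (n : Enc) (w : ℤ) : Bool := chk (d.tab.toTab.kA n) (6 * 1099511627776) w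

/-- Six times the rows without cells. -/
def Tab.z0 (t : Tab) : ℤ :=
  6 * t.co [] 0 0 + 6 * t.Z * t.co [] 1 0 + 9 * t.Z ^ 2 * t.co [] 2 0 + 17 * t.Z ^ 3 * t.co [] 3 0

end

theorem V.frg_eq {α : Type} (n : ℕ) (f : ℕ → α) : frg n f = f n := by cases n <;> rfl

theorem V.Rl.mul {x : ℕ} {v : ℚ} (c : ℕ) (h : Rl x v) : Rl (Nat.mul c x) (c * v) := by
  obtain ⟨P, N, rfl, a⟩ := h
  refine ⟨c * P, c * N, by rw [Nat.mul_eq]; ring, ?_⟩
  push_cast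
  linarith [mul_le_mul_of_nonneg_left a (Nat.cast_nonneg c : (0 : ℚ) ≤ c)]

variable {t : Tab} {n : Enc} {D lo len : ℕ} {L U : ℕ → ℕ} {w : ℤ} {F f : ℕ → ℝ}

theorem Tab.vE0 (t : Tab) (n : Enc) : t.vE n 0 = t.z0 / 6 := by
  have e : ∀ c : ℤ, bd c 1 1 = c := fun c => by simp [bd]
  simp only [Tab.vE, cells, Tab.vD, Enc.box, Enc.linB, momQ, Tab.z0, List.map_cons, List.map_nil,
    List.prod_nil, List.sum_cons, List.sum_nil, e, ite_self]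
  push_cast
  ring

theorem evA_ok {a : ℕ} (A : n.NL D L U a) : Rl (evA t D L U a) ((6 * D : ℕ) *
    (t.vD n [a] 0 + t.vD n [a] 1 + t.vD n [a] 2 + t.vD n [a] 3)) := by
  have z : ∀ (j x : ℕ), Rl x (D * n.box j (t.e [a] j) [a]) →
      Rl (Bool.rec 0 x (t.vis j [a])) (D * n.box j (t.co [a] j) [a]) := fun j x h => by
    cases e : t.vis j [a]
    · rw [t.box_zero n (Or.inl e), mul_zero]
      exact Rl.zero
    · rwa [show t.co [a] j = t.e [a] j from funext fun i => by simp [Tab.co, e]]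
  have p : ∀ j ≤ 1, Rl _ (D * n.box j (t.e [a] j) [a]) := fun j h =>
    ((Rl.tm (t.e [a] j 0) A.1 A.2.1).add (Rl.tm (t.e [a] j 1) A.u.1 A.u.2.1)).mono
      (le_of_eq (by simp [Enc.box, Enc.linB, h, mul_add]))
  have q : ∀ j, ¬j ≤ 1 → Rl _ (D * n.box j (t.e [a] j) [a]) := fun j h =>
    (Rl.tm (t.e [a] j 0) A.1 A.2.1).mono (le_of_eq (by simp [Enc.box, h]))
  unfold evA
  simp only [frc_eq]
  refine (((((z 0 _ (p 0 (by decide))).mul _).add ((z 1 _ (p 1 le_rfl)).mul _)).add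
    ((z 2 _ (q 2 (by decide))).mul _)).add ((z 3 _ (q 3 (by decide))).mul _)).mono (le_of_eq ?_)
  simp only [Tab.vD, momQ, Nat.mul_eq, Nat.pow_eq]
  push_cast
  ring

theorem vE1_ge (ht : t.Ok) (oL : n.OkL) (c : chk (t.kA n) (6 * 1099511627776) w = true) :
    (w : ℚ) ≤ t.vE n 1 := by
  have := (Bd.of (by decide) (fun _ a1 _ => evA_ok (t := t) (oL.nl _ (ht.1.trans a1))) c).2
  rw [Nat.sub_eq, Nat.add_sub_cancel' ht.2.1, ← lsum] at this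
  rwa [Tab.vE, sumC_eq]

variable {d : Dat}

theorem Dat.bd2 {j : ℕ} (ht : d.tab.toTab.Ok) (oL : n.OkL) (hj : j ≤ 1) (h1 : d.Z ≤ lo)
    (h2 : lo + len ≤ d.Q) (c : d.k2 n j lo len w = true) :
    Bd (d.tab.toTab.r2 n j) lo (lo + len) w :=
  R4.bd2 ht oL (fun a b h _ => ⟨h, fun h i _ => d.e.co_two _ _ a b j i (.inl h), fun _ => by
    rw [Dat.c2, frg_eq, Tab.d2, if_pos hj, if_pos hj]
    interval_cases j <;> rfl⟩) h1 h2 c

theorem Dat.bd3 (ht : d.tab.toTab.Ok) (oL : n.OkL) (h1 : d.Z ≤ lo) (h2 : lo + len ≤ d.Q)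
    (c : d.k3 n lo len w = true) : Bd (d.tab.toTab.r3 n 0) lo (lo + len) w :=
  R4.bd3 ht oL (fun a b c h _ _ => ⟨h, fun h i _ => d.e.co_three _ _ a b c 0 i (h.imp_right .inl),
    fun _ _ => by rw [Dat.c3, frg_eq]; rfl⟩) h1 h2 c

theorem Dat.bd1 (ht : d.tab.toTab.Ok) (oL : n.OkL) (oF : n.OkF d.N F f) (oW : n.OkW d.tab.toTab)
    (h1 : 1 ≤ lo) (c : d.k1 n lo len w = true) : Bd (d.tab.toTab.r1 n) lo (lo + len) w :=
  R4.bd1 ht oL oF oW (fun a b => by rw [Dat.c1, frg_eq]; rfl) h1 c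

/-- The means of the exact and of the sieved rows. -/
theorem Dat.total {wA w₀ w₁ w₂ w₂' w₃ : ℤ} (ht : d.tab.toTab.Ok) (oL : n.OkL) (oF : n.OkF d.N F f)
    (oW : n.OkW d.tab.toTab) (hA : d.kA n wA = true) (h0 : d.k0 n w₀ = true)
    (h1 : Bd (d.tab.toTab.r1 n) (d.m * d.Z) (d.m * d.Q) w₁)
    (h2 : Bd (d.tab.toTab.r2 n 0) d.Z d.Q w₂) (h2' : Bd (d.tab.toTab.r2 n 1) d.Z d.Q w₂')
    (h3 : Bd (d.tab.toTab.r3 n 0) d.Z d.Q w₃)
    (h : 6 * w ≤ d.tab.toTab.z0 + 6 * (wA + w₀ + w₁ + (w₂ + d.Z * w₂') + w₃)) :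
    (w : ℚ) ≤ d.tab.toTab.vE n 0 + d.tab.toTab.vE n 1 + d.tab.toTab.vE n 2 + d.tab.toTab.vE n 3 +
      d.tab.toTab.vS0 n + d.tab.toTab.vS1 n := by
  have a := vE1_ge ht oL hA
  have b := vE2_ge h2 h2' fun a b j i h => d.e.co_two _ _ a b j i (.inr h)
  have c := vE3_ge h3 fun a b c j i h => d.e.co_three _ _ a b c j i (.inr (.inr h))
  have e := vS0_ge (by simpa using bd0 ht oF oW (zero_add _).le h0)
  have g := vS1_ge ht h1
  have := (Int.cast_le (R := ℚ)).2 h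
  rw [show d.tab.toTab.Z = d.Z from rfl] at b
  rw [Tab.vE0]
  push_cast at this b
  linarith

end Pool.Agent.Lib.MP_4b1228_nt.PP.R4
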