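import Pool.Agent.Lib.MP_4b1228_nt.PP.R4S0
import Pool.Agent.Lib.MP_4b1228_nt.PP.R4W
import Pool.Agent.Lib.MP_4b1228_nt.PP.R4L

/-! The enclosures. -/

namespace Pool.Agent.Lib.MP_4b1228_nt.PP.R4

def en' (lo hi : List (ℕ × ℕ)) (st m : ℕ) : Enc :=
  ⟨llQ, luQ, flQ, fuQ, wlQ lo st m, wuQ hi st m, fun _ _ => 0⟩

end Pool.Agent.Lib.MP_4b1228_nt.PP.R4
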