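import Pool.Agent.Lib.MP_4b1228_nt.PP.St

/-! Hyperbolic geometry and the orbit of `i` under the modular group. -/

open Finset Real Filter UpperHalfPlane MeasureTheory
open scoped MatrixGroups Classical

noncomputable section

namespace Pool.Agent.Lib.MP_4b1228_nt.PP

namespace Geo

/-- The point `x + i y`. -/
def pt (x y : ℝ) (hy : 0 < y) : ℍ := ⟨⟨x, y⟩, hy⟩

theorem one_le_arg (x : ℝ) {y Y : ℝ} (hy : 0 < y) (hY : 0 < Y) :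
    1 ≤ (x ^ 2 + y ^ 2 + Y ^ 2) / (2 * y * Y) := by
  rw [le_div_iff₀ (by positivity)]
  nlinarith [sq_nonneg x, sq_nonneg (y - Y)]

theorem dist_eq_hd (z w : ℍ) : dist z w = hd (z.re - w.re) z.im w.im := by
  rw [hd, ← cosh_dist', arcosh_cosh dist_nonneg]

theorem hd_eq (x x' : ℝ) {y Y : ℝ} (hy : 0 < y) (hY : 0 < Y) :
    hd (x - x') y Y = dist (pt x y hy) (pt x' Y hY) := by
  rw [dist_eq_hd]; rfl

theorem dist_vert (x : ℝ) {y y' : ℝ} (hy : 0 < y) (hy' : 0 < y') :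
    dist (pt x y hy) (pt x y' hy') = |log (y / y')| := by
  rw [dist_of_re_eq (by rfl), Real.dist_eq, log_div hy.ne' hy'.ne']; rfl

theorem dist_hor (x x' : ℝ) {y : ℝ} (hy : 0 < y) :
    dist (pt x y hy) (pt x' y hy) ≤ |x - x'| / y := by
  refine (dist_le_dist_coe_div_sqrt _ _).trans (le_of_eq ?_)
  have h1 : √((pt x y hy).im * (pt x' y hy).im) = y := sqrt_mul_self hy.le
  have h2 : dist ((pt x y hy : ℍ) : ℂ) (pt x' y hy : ℍ) = |x - x'| := by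
    rw [Complex.dist_of_im_eq (by rfl), Real.dist_eq]; rfl
  rw [h1, h2]

theorem part1 (x y Y : ℝ) (hy : 0 < y) (hY : 0 < Y) : 0 ≤ hd x y Y ∧
    cosh (hd x y Y) = (x ^ 2 + y ^ 2 + Y ^ 2) / (2 * y * Y) ∧
    (∀ x' : ℝ, |hd x y Y - hd x' y Y| ≤ |x - x'| / Y) ∧
    (∀ Y' : ℝ, 0 < Y' → |hd x y Y - hd x y Y'| ≤ |log (Y / Y')|) ∧
    (∀ y' : ℝ, 0 < y' → |hd x y Y - hd x y' Y| ≤ |log (y / y')|) ∧
    (∀ a : ℝ, 0 < a → hd (a * x) (a * y) (a * Y) = hd x y Y) := by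
  refine ⟨arcosh_nonneg (one_le_arg x hy hY), cosh_arcosh (one_le_arg x hy hY), fun x' => ?_,
    fun Y' hY' => ?_, fun y' hy' => ?_, fun a ha => ?_⟩
  · have h1 := hd_eq 0 (-x) hy hY
    have h2 := hd_eq 0 (-x') hy hY
    rw [zero_sub, neg_neg] at h1 h2
    rw [h1, h2, dist_comm, dist_comm (pt 0 y hy)]
    refine (abs_dist_sub_le _ _ _).trans ((dist_hor _ _ hY).trans (le_of_eq ?_))
    rw [show -x - -x' = -(x - x') by ring, abs_neg]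
  · have h1 := hd_eq x 0 hy hY
    have h2 := hd_eq x 0 hy hY'
    rw [sub_zero] at h1 h2
    rw [h1, h2, dist_comm, dist_comm (pt x y hy)]
    exact (abs_dist_sub_le _ _ _).trans (dist_vert _ hY hY').le
  · have h1 := hd_eq x 0 hy hY
    have h2 := hd_eq x 0 hy' hY
    rw [sub_zero] at h1 h2
    rw [h1, h2]
    exact (abs_dist_sub_le _ _ _).trans (dist_vert _ hy hy').le
  · unfold hd
    congr 1
    field_simp

theorem part2 (y Y : ℝ) (hy : 0 < y) (hY : 0 < Y) : Continuous fun x => hd x y Y :=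
  continuousOn_arcosh.comp_continuous (by fun_prop) fun x => one_le_arg x hy hY

theorem part3 (y : ℝ) (hy : 0 < y) : Continuous fun p : ℝ × ℝ => hd p.1 y (exp p.2) := by
  refine continuousOn_arcosh.comp_continuous
    (f := fun p : ℝ × ℝ => (p.1 ^ 2 + y ^ 2 + exp p.2 ^ 2) / (2 * y * exp p.2)) ?_
    fun p => one_le_arg p.1 hy (exp_pos _)
  exact Continuous.div (by fun_prop) (by fun_prop) fun p => by positivity

theorem ipt_eq {Y : ℝ} (hY : 0 < Y) : ipt Y = pt 0 Y hY := by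
  rw [ipt, ofComplex_apply_of_im_pos (by simpa using hY)]
  apply ext_re_im <;> simp [pt]

theorem ipt_re {Y : ℝ} (hY : 0 < Y) : (ipt Y).re = 0 := by rw [ipt_eq hY]; rfl

theorem ipt_im {Y : ℝ} (hY : 0 < Y) : (ipt Y).im = Y := by rw [ipt_eq hY]; rfl

theorem part4 (Y : ℝ) (z : ℍ) (hY : 0 < Y) : dist (ipt Y) z = hd z.re z.im Y := by
  rw [dist_comm, dist_eq_hd, ipt_re hY, ipt_im hY, sub_zero]

theorem part5 : ipt 1 = I := by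
  apply ext_re_im
  · rw [ipt_re one_pos, I_re]
  · rw [ipt_im one_pos, I_im]

theorem det_eq (γ : SL(2, ℤ)) : γ 0 0 * γ 1 1 - γ 0 1 * γ 1 0 = 1 := by
  have := γ.det_coe
  rwa [Matrix.det_fin_two] at this

theorem sq_pos (γ : SL(2, ℤ)) : 1 ≤ γ 1 0 ^ 2 + γ 1 1 ^ 2 := by
  have h := det_eq γ
  by_contra h1
  have h2 : γ 1 0 = 0 := by nlinarith [sq_nonneg (γ 1 0), sq_nonneg (γ 1 1)]
  have h3 : γ 1 1 = 0 := by nlinarith [sq_nonneg (γ 1 0), sq_nonneg (γ 1 1)]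
  rw [h2, h3] at h
  simp at h

theorem kk_eq (γ : SL(2, ℤ)) : (kk γ : ℤ) = γ 1 0 ^ 2 + γ 1 1 ^ 2 :=
  Int.toNat_of_nonneg (by positivity)

theorem one_le_kk (γ : SL(2, ℤ)) : 1 ≤ kk γ := by
  have := sq_pos γ
  rw [← kk_eq] at this
  exact_mod_cast this

theorem kk_mul (γ : SL(2, ℤ)) (h : ℤ) :
    (kk γ : ℤ) * ((γ 0 0 + h * γ 1 0) ^ 2 + (γ 0 1 + h * γ 1 1) ^ 2) = (ll γ + h * kk γ) ^ 2 + 1 := by
  rw [kk_eq, ll]
  linear_combination (γ 0 0 * γ 1 1 - γ 0 1 * γ 1 0 + 1) * det_eq γ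

theorem parity (γ : SL(2, ℤ)) :
    Even (ll γ) ↔ (2 : ℤ) ∣ (γ 0 0 + γ 1 0) ^ 2 + (γ 0 1 + γ 1 1) ^ 2 := by
  have H : ∀ a b c e : ZMod 2, a * e - b * c = 1 →
      (a * c + b * e = 0 ↔ (a + c) ^ 2 + (b + e) ^ 2 = 0) := by decide
  have h := congrArg (Int.cast : ℤ → ZMod 2) (det_eq γ)
  push_cast at h
  have h2 := H _ _ _ _ h
  rw [even_iff_two_dvd]
  have e1 := ZMod.intCast_zmod_eq_zero_iff_dvd (ll γ) 2
  have e2 := ZMod.intCast_zmod_eq_zero_iff_dvd ((γ 0 0 + γ 1 0) ^ 2 + (γ 0 1 + γ 1 1) ^ 2) 2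
  rw [ll] at e1 ⊢
  push_cast at e1 e2
  rw [← e1, ← e2, h2]

theorem smul_ipt (γ : SL(2, ℤ)) {Y : ℝ} (hY : 0 < Y) :
    (γ • ipt Y).re = ((γ 0 0 : ℝ) * γ 1 0 * Y ^ 2 + γ 0 1 * γ 1 1) /
      ((γ 1 0 : ℝ) ^ 2 * Y ^ 2 + (γ 1 1 : ℝ) ^ 2) ∧
    (γ • ipt Y).im = Y / ((γ 1 0 : ℝ) ^ 2 * Y ^ 2 + (γ 1 1 : ℝ) ^ 2) := by
  have hd : (γ 0 0 : ℝ) * γ 1 1 - γ 0 1 * γ 1 0 = 1 := by exact_mod_cast det_eq γ
  have h := coe_specialLinearGroup_apply γ (ipt Y)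
  rw [← coe_re, ← coe_im, h, Complex.div_re, Complex.div_im]
  simp only [Complex.normSq_apply, Complex.add_re, Complex.mul_re, Complex.ofReal_re,
    Complex.ofReal_im, Complex.add_im, Complex.mul_im, coe_re, coe_im, ipt_re hY, ipt_im hY,
    algebraMap_int_eq, eq_intCast]
  constructor
  · rw [← add_div]
    congr 1 <;> ring
  · rw [← sub_div]
    congr 1
    · linear_combination Y * hd
    · ring

theorem den_pos (γ : SL(2, ℤ)) {Y : ℝ} (hY : 0 < Y) :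
    0 < (γ 1 0 : ℝ) ^ 2 * Y ^ 2 + (γ 1 1 : ℝ) ^ 2 := by
  have h := (γ • ipt Y).im_pos
  rw [(smul_ipt γ hY).2] at h
  exact (div_pos_iff_of_pos_left hY).1 h

theorem cosh_ipt (γ : SL(2, ℤ)) {Y : ℝ} (hY : 0 < Y) :
    2 * cosh (dist (ipt Y) (γ • ipt Y)) =
      (γ 0 0 : ℝ) ^ 2 + (γ 1 1 : ℝ) ^ 2 + (γ 0 1 : ℝ) ^ 2 / Y ^ 2 + (γ 1 0 : ℝ) ^ 2 * Y ^ 2 := by
  have hd : (γ 0 0 : ℝ) * γ 1 1 - γ 0 1 * γ 1 0 = 1 := by exact_mod_cast det_eq γ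
  have hD := den_pos γ hY
  rw [cosh_dist', (smul_ipt γ hY).1, (smul_ipt γ hY).2, ipt_re hY, ipt_im hY]
  generalize (γ 0 0 : ℝ) = a at *
  generalize (γ 0 1 : ℝ) = b at *
  generalize (γ 1 0 : ℝ) = c at *
  generalize (γ 1 1 : ℝ) = e at *
  field_simp
  linear_combination (-(a * e - b * c + 1) * Y ^ 2) * hd

theorem part6 (Y : ℝ) (γ : SL(2, ℤ)) (hY : 0 < Y) :
    dist (ipt Y) (γ • I) = hd (ll γ / kk γ) (1 / kk γ) Y := by
  have hk : (kk γ : ℝ) = (γ 1 0 : ℝ) ^ 2 + (γ 1 1 : ℝ) ^ 2 := by exact_mod_cast kk_eq γ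
  rw [part4 _ _ hY, ← part5, (smul_ipt γ one_pos).1, (smul_ipt γ one_pos).2, hk, ll]
  simp

theorem dist_smul' (g : SL(2, ℤ)) (z w : ℍ) : dist (g • z) (g • w) = dist z w := by
  have H : ∀ z : ℍ,
      g • z = (Matrix.SpecialLinearGroup.map (Int.castRingHom ℝ) g : SL(2, ℝ)) • z := by
    intro z
    ext
    rw [coe_specialLinearGroup_apply, coe_specialLinearGroup_apply]
    simp
  rw [H, H, dist_smul]

theorem finite_box (B : ℤ) : {γ : SL(2, ℤ) | ∀ i j, γ i j ∈ Set.Icc (-B) B}.Finite := by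
  have h : {A : Matrix (Fin 2) (Fin 2) ℤ | ∀ i, A i ∈ {v : Fin 2 → ℤ | ∀ j, v j ∈ Set.Icc (-B) B}}.Finite :=
    Set.Finite.pi' fun _ => Set.Finite.pi' fun _ => Set.finite_Icc _ _
  exact (h.preimage (f := fun γ : SL(2, ℤ) => γ.1) Subtype.val_injective.injOn).subset
    fun γ hγ => hγ

theorem finite_sq (B : ℤ) :
    {γ : SL(2, ℤ) | γ 0 0 ^ 2 + γ 1 1 ^ 2 + γ 0 1 ^ 2 + γ 1 0 ^ 2 ≤ B}.Finite := by
  refine (finite_box B).subset fun γ hγ i j => ?_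
  have h : γ 0 0 ^ 2 + γ 1 1 ^ 2 + γ 0 1 ^ 2 + γ 1 0 ^ 2 ≤ B := hγ
  have h1 : γ i j ^ 2 ≤ B := by
    have := sq_nonneg (γ 0 0)
    have := sq_nonneg (γ 0 1)
    have := sq_nonneg (γ 1 0)
    have := sq_nonneg (γ 1 1)
    fin_cases i <;> fin_cases j <;> simp <;> linarith
  have h2 := Int.le_self_sq (γ i j)
  have h3 := Int.le_self_sq (-γ i j)
  constructor <;> nlinarith

theorem part8 (z w : ℍ) (r : ℝ) : {γ : SL(2, ℤ) | dist z (γ • w) ≤ r}.Finite := by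
  refine (finite_sq ⌈2 * cosh (dist I z + r + dist w I)⌉).subset fun γ hγ => ?_
  have h : dist z (γ • w) ≤ r := hγ
  have h1 : dist I (γ • I) ≤ dist I z + r + dist w I := by
    have := dist_triangle4 I z (γ • w) (γ • I)
    rw [dist_smul'] at this
    linarith
  have h2 := cosh_ipt γ one_pos
  rw [part5] at h2
  have h3 : cosh (dist I (γ • I)) ≤ cosh (dist I z + r + dist w I) := by
    rw [cosh_le_cosh, abs_of_nonneg dist_nonneg]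
    exact h1.trans (le_abs_self _)
  have h4 := Int.le_ceil (2 * cosh (dist I z + r + dist w I))
  have h5 : (γ 0 0 : ℝ) ^ 2 + (γ 1 1 : ℝ) ^ 2 + (γ 0 1 : ℝ) ^ 2 + (γ 1 0 : ℝ) ^ 2 ≤
      ⌈2 * cosh (dist I z + r + dist w I)⌉ := by
    simp only [one_pow, div_one, mul_one] at h2
    linarith
  exact_mod_cast h5

/-- Every root of `l ^ 2 + 1` modulo `k` comes from a matrix. -/
theorem exists_mat (k : ℕ) : ∀ l : ℤ, 1 ≤ k → (k : ℤ) ∣ l ^ 2 + 1 →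
    ∃ a b c e : ℤ, a * e - b * c = 1 ∧ c ^ 2 + e ^ 2 = k ∧ a * c + b * e = l := by
  induction k using Nat.strong_induction_on with
  | _ k ih =>
  intro l hk hl
  rcases hk.eq_or_lt with rfl | hk2
  · exact ⟨1, l, 0, 1, by ring, by simp, by ring⟩
  have hk0 : (2 : ℤ) ≤ k := by exact_mod_cast hk2
  obtain ⟨q, r, hqr, hr⟩ : ∃ q r : ℤ, l = r + q * k ∧ 4 * r ^ 2 ≤ (k : ℤ) ^ 2 := by
    have h1 := Int.emod_nonneg l (b := k) (by omega)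
    have h2 := Int.emod_lt_of_pos l (b := k) (by omega)
    have h3 := Int.emod_add_mul_ediv l k
    by_cases h : 2 * (l % k) ≤ k
    · exact ⟨l / k, l % k, by linarith, by nlinarith⟩
    · exact ⟨l / k + 1, l % k - k, by linarith, by nlinarith⟩
  obtain ⟨m, hm⟩ : (k : ℤ) ∣ r ^ 2 + 1 := by
    have : r ^ 2 + 1 = l ^ 2 + 1 - k * (2 * r * q + q ^ 2 * k) := by rw [hqr]; ring
    rw [this]
    exact dvd_sub hl (dvd_mul_right _ _)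
  have hm1 : 0 < m := by
    by_contra h
    nlinarith [sq_nonneg r]
  have hm2 : m < k := by
    by_contra h
    nlinarith
  obtain ⟨n, rfl⟩ := Int.eq_ofNat_of_zero_le hm1.le
  obtain ⟨a, b, c, e, h1, h2, h3⟩ := ih n (by exact_mod_cast hm2) (-r) (by exact_mod_cast hm1)
    ⟨k, by rw [neg_sq, hm, mul_comm]⟩
  have h4 : a ^ 2 + b ^ 2 = k := by
    apply mul_left_cancel₀ hm1.ne'
    rw [mul_comm (n : ℤ) k, ← hm, ← h2, ← neg_sq r, ← h3]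
    linear_combination (a * e - b * c + 1) * h1
  refine ⟨-c + q * a, -e + q * b, a, b, by linear_combination h1, h4, ?_⟩
  rw [hqr, ← h4]
  linear_combination -h3

theorem exists_sl (k : ℕ) (l : ℤ) (hk : 1 ≤ k) (hl : (k : ℤ) ∣ l ^ 2 + 1) :
    ∃ γ : SL(2, ℤ), kk γ = k ∧ ll γ = l := by
  obtain ⟨a, b, c, e, h1, h2, h3⟩ := exists_mat k l hk hl
  refine ⟨⟨!![a, b; c, e], by rw [Matrix.det_fin_two_of]; exact h1⟩, ?_, h3⟩
  have : ((c ^ 2 + e ^ 2).toNat : ℤ) = k := by rw [h2, Int.toNat_natCast]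
  exact_mod_cast this

/-- The rotation matrices. -/
def rot (p q : ℤ) (h : p ^ 2 + q ^ 2 = 1) : SL(2, ℤ) :=
  ⟨!![p, q; -q, p], by rw [Matrix.det_fin_two_of]; linear_combination h⟩

/-- The stabiliser of `i`. -/
def stab : Finset SL(2, ℤ) :=
  {rot 1 0 (by norm_num), rot (-1) 0 (by norm_num), rot 0 1 (by norm_num),
    rot 0 (-1) (by norm_num)}

theorem rot_inj {p q p' q' : ℤ} {h : p ^ 2 + q ^ 2 = 1} {h' : p' ^ 2 + q' ^ 2 = 1} :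
    rot p q h = rot p' q' h' ↔ p = p' ∧ q = q' := by
  constructor
  · intro H
    exact ⟨congrArg (fun γ : SL(2, ℤ) => γ 0 0) H, congrArg (fun γ : SL(2, ℤ) => γ 0 1) H⟩
  · rintro ⟨rfl, rfl⟩; rfl

theorem card_stab : stab.card = 4 := by
  rw [stab, card_insert_of_notMem, card_insert_of_notMem, card_pair] <;> simp [rot_inj]

theorem rot_mem (p q : ℤ) (h : p ^ 2 + q ^ 2 = 1) : rot p q h ∈ stab := by
  have h1 : -1 ≤ p := by nlinarith [sq_nonneg q]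
  have h2 : p ≤ 1 := by nlinarith [sq_nonneg q]
  have h3 : -1 ≤ q := by nlinarith [sq_nonneg p]
  have h4 : q ≤ 1 := by nlinarith [sq_nonneg p]
  simp only [stab, mem_insert, mem_singleton, rot_inj]
  interval_cases p <;> interval_cases q <;> simp at h ⊢

theorem mul_rot (γ : SL(2, ℤ)) (p q : ℤ) (h : p ^ 2 + q ^ 2 = 1) (i : Fin 2) :
    (γ * rot p q h) i 0 = γ i 0 * p - γ i 1 * q ∧ (γ * rot p q h) i 1 = γ i 0 * q + γ i 1 * p := by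
  change (γ.1 * !![p, q; -q, p]) i 0 = _ ∧ (γ.1 * !![p, q; -q, p]) i 1 = _
  simp [Matrix.mul_apply, Fin.sum_univ_two, sub_eq_add_neg]

theorem fibre (γ₀ γ : SL(2, ℤ)) :
    (kk γ = kk γ₀ ∧ ll γ = ll γ₀) ↔ γ ∈ stab.image (γ₀ * ·) := by
  rw [mem_image]
  constructor
  · rintro ⟨hk, hl⟩
    have h1 := kk_mul γ 0
    have h2 := kk_mul γ₀ 0
    have h0 : (kk γ₀ : ℤ) ≠ 0 := by have := one_le_kk γ₀; omega
    simp only [zero_mul, add_zero] at h1 h2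
    rw [hk, hl, ← h2] at h1
    have h3 := mul_left_cancel₀ h0 h1
    have h4 : γ 1 0 ^ 2 + γ 1 1 ^ 2 = γ₀ 1 0 ^ 2 + γ₀ 1 1 ^ 2 := by rw [← kk_eq, ← kk_eq, hk]
    have d := det_eq γ
    have d₀ := det_eq γ₀
    rw [ll, ll] at hl
    have hp : (γ₀ 1 1 * γ 0 0 - γ₀ 0 1 * γ 1 0) ^ 2 + (γ₀ 1 1 * γ 0 1 - γ₀ 0 1 * γ 1 1) ^ 2 = 1 := by
      linear_combination γ₀ 1 1 ^ 2 * h3 - 2 * γ₀ 1 1 * γ₀ 0 1 * hl + γ₀ 0 1 ^ 2 * h4 +
        (γ₀ 0 0 * γ₀ 1 1 - γ₀ 0 1 * γ₀ 1 0 + 1) * d₀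
    refine ⟨rot _ _ hp, rot_mem _ _ hp, ?_⟩
    have e0 := mul_rot γ₀ _ _ hp 0
    have e1 := mul_rot γ₀ _ _ hp 1
    have hz : (γ₀ 1 1 * γ 0 0 - γ₀ 0 1 * γ 1 0 - (γ₀ 0 0 * γ 1 1 - γ₀ 1 0 * γ 0 1)) ^ 2 +
        (γ₀ 1 1 * γ 0 1 - γ₀ 0 1 * γ 1 1 + (γ₀ 0 0 * γ 1 0 - γ₀ 1 0 * γ 0 0)) ^ 2 = 0 := by
      linear_combination hp + γ₀ 1 0 ^ 2 * h3 - 2 * γ₀ 1 0 * γ₀ 0 0 * hl + γ₀ 0 0 ^ 2 * h4 +
        (γ₀ 0 0 * γ₀ 1 1 - γ₀ 0 1 * γ₀ 1 0 - 1) * d₀ -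
        2 * (γ₀ 0 0 * γ₀ 1 1 - γ₀ 0 1 * γ₀ 1 0) * d
    have hs := pow_eq_zero_iff (two_ne_zero) |>.1
      ((add_eq_zero_iff_of_nonneg (sq_nonneg _) (sq_nonneg _)).1 hz).1
    have hr := pow_eq_zero_iff (two_ne_zero) |>.1
      ((add_eq_zero_iff_of_nonneg (sq_nonneg _) (sq_nonneg _)).1 hz).2
    refine Matrix.SpecialLinearGroup.ext _ _ ?_
    rw [Fin.forall_fin_two, Fin.forall_fin_two, Fin.forall_fin_two]
    refine ⟨⟨e0.1.trans ?_, e0.2.trans ?_⟩, e1.1.trans ?_, e1.2.trans ?_⟩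
    · linear_combination γ 0 0 * d₀ - γ₀ 0 1 * hr
    · linear_combination γ 0 1 * d₀ + γ₀ 0 1 * hs
    · linear_combination γ 1 0 * d₀ - γ₀ 1 1 * hr
    · linear_combination γ 1 1 * d₀ + γ₀ 1 1 * hs
  · rintro ⟨u, hu, rfl⟩
    obtain ⟨p, q, h, rfl⟩ : ∃ p q h, u = rot p q h := by
      simp only [stab, mem_insert, mem_singleton] at hu
      rcases hu with rfl | rfl | rfl | rfl <;> exact ⟨_, _, _, rfl⟩
    have e0 := mul_rot γ₀ p q h 0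
    have e1 := mul_rot γ₀ p q h 1
    constructor
    · rw [kk, kk, e1.1, e1.2]
      congr 1
      linear_combination (γ₀ 1 0 ^ 2 + γ₀ 1 1 ^ 2) * h
    · rw [ll, ll, e0.1, e0.2, e1.1, e1.2]
      linear_combination (γ₀ 0 0 * γ₀ 1 0 + γ₀ 0 1 * γ₀ 1 1) * h

theorem part9 (M : ℕ) (h : ℕ → ℤ → ℝ) (hM : ∀ k l, h k l ≠ 0 → k ≤ M)
    (hf : ∀ k, {l | h k l ≠ 0}.Finite) :
    {γ : SL(2, ℤ) | h (kk γ) (ll γ) ≠ 0}.Finite ∧
    ∑' γ : SL(2, ℤ), h (kk γ) (ll γ) =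
      4 * ∑ k ∈ (Icc 1 M : Finset ℕ), ∑' l : ℤ, if (k : ℤ) ∣ l ^ 2 + 1 then h k l else 0 := by
  let L : Finset ℤ := (Icc 1 M : Finset ℕ).biUnion fun k => (hf k).toFinset
  have hL : ∀ k l, 1 ≤ k → h k l ≠ 0 → l ∈ L := fun k l hk hl =>
    mem_biUnion.2 ⟨k, mem_Icc.2 ⟨hk, hM k l hl⟩, (hf k).mem_toFinset.2 hl⟩
  let P : Finset (ℕ × ℤ) := ((Icc 1 M : Finset ℕ) ×ˢ L).filter fun p => (p.1 : ℤ) ∣ p.2 ^ 2 + 1
  have hP : ∀ p ∈ P, ∃ F : Finset SL(2, ℤ), F.card = 4 ∧ ∀ γ, (kk γ, ll γ) = p ↔ γ ∈ F := by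
    rintro ⟨k, l⟩ hp
    obtain ⟨h1, h2⟩ := mem_filter.1 hp
    obtain ⟨γ₀, rfl, rfl⟩ := exists_sl k l (mem_Icc.1 (mem_product.1 h1).1).1 h2
    refine ⟨stab.image (γ₀ * ·), ?_, fun γ => by rw [← fibre, Prod.mk.injEq]⟩
    rw [card_image_of_injective _ (mul_right_injective γ₀), card_stab]
  choose! F hF1 hF2 using hP
  let T : Finset SL(2, ℤ) := P.biUnion F
  have hT : ∀ γ, γ ∈ T ↔ (kk γ, ll γ) ∈ P := by
    intro γ
    rw [mem_biUnion]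
    exact ⟨fun ⟨p, hp, hγ⟩ => (hF2 p hp γ).2 hγ ▸ hp, fun hγ => ⟨_, hγ, (hF2 _ hγ γ).1 rfl⟩⟩
  have hS : ∀ γ, h (kk γ) (ll γ) ≠ 0 → γ ∈ T := by
    intro γ hγ
    refine (hT γ).2 (mem_filter.2 ⟨mem_product.2 ⟨mem_Icc.2 ⟨one_le_kk γ, hM _ _ hγ⟩,
      hL _ _ (one_le_kk γ) hγ⟩, ?_⟩)
    have := kk_mul γ 0
    simp only [zero_mul, add_zero] at this
    exact ⟨_, this.symm⟩
  refine ⟨T.finite_toSet.subset hS, ?_⟩
  rw [tsum_eq_sum (s := T) fun γ hγ => by_contra fun h0 => hγ (hS γ h0)]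
  have e1 : ∑ k ∈ (Icc 1 M : Finset ℕ), ∑' l : ℤ, (if (k : ℤ) ∣ l ^ 2 + 1 then h k l else 0) =
      ∑ p ∈ P, h p.1 p.2 := by
    rw [sum_filter, sum_product]
    refine sum_congr rfl fun k hk => tsum_eq_sum fun l hl => ?_
    have : h k l = 0 := by_contra fun h0 => hl (hL k l (mem_Icc.1 hk).1 h0)
    rw [this, ite_self]
  rw [e1, mul_sum, ← sum_fiberwise_of_maps_to (g := fun γ => (kk γ, ll γ)) (t := P)
    fun γ hγ => (hT γ).1 hγ]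
  refine sum_congr rfl fun p hp => ?_
  have e2 : T.filter (fun γ => (kk γ, ll γ) = p) = F p := by
    ext γ
    rw [mem_filter, hT, ← hF2 p hp]
    exact ⟨fun H => H.2, fun H => ⟨H ▸ hp, H⟩⟩
  rw [e2, sum_congr rfl (g := fun _ => h p.1 p.2) fun γ hγ => by rw [← (hF2 p hp γ).2 hγ],
    sum_const, hF1 p hp, nsmul_eq_mul, Nat.cast_ofNat]

end Geo

theorem geoS : GeoStmt :=
  ⟨Geo.part1, Geo.part2, Geo.part3, Geo.part4, Geo.part5,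
    fun Y γ hY => ⟨Geo.part6 Y γ hY, Geo.cosh_ipt γ hY⟩,
    fun γ h => ⟨Geo.one_le_kk γ, Geo.kk_eq γ, Geo.kk_mul γ h, Geo.parity γ⟩,
    Geo.part8, Geo.part9⟩

end Pool.Agent.Lib.MP_4b1228_nt.PP
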