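import Pool.Agent.Lib.MP_4b1228_nt.PP.St

/-!
Horocycle integrals of an admissible profile.
-/

open Finset Real Filter MeasureTheory

noncomputable section

namespace Pool.Agent.Lib.MP_4b1228_nt.PP

namespace I1

variable {X Λ : ℝ} {f : ℝ → ℝ}

lemma lam_nonneg (hX : 3 ≤ X) (hf : Adm X Λ f) : 0 ≤ Λ := by
  have h1 := hf.bd 0 le_rfl
  have h2 := hf.nonneg 0
  rw [cosh_zero, div_one] at h1
  have h3 : 0 < √X := Real.sqrt_pos.2 (by linarith)
  by_contra h
  have : Λ * √X < 0 := mul_neg_of_neg_of_pos (not_le.1 h) h3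
  linarith

lemma one_le_log (hX : 3 ≤ X) : 1 ≤ log X := by
  rw [Real.le_log_iff_exp_le (by linarith)]
  have := Real.exp_one_lt_d9
  linarith

lemma int_le (hX : 3 ≤ X) (F : ℝ → ℝ) (B : ℝ) (hB : 0 ≤ B)
    (h1 : ∀ t, |F t| ≤ B * (√(1 + t ^ 2))⁻¹) (h2 : ∀ t, F t ≠ 0 → |t| < 2 * X) :
    |∫ t, F t| ≤ B * (6 * log X) := by
  have hs : Function.support F ⊆ Set.Ioc (-(2 * X)) (2 * X) := by
    intro t ht
    have := abs_lt.1 (h2 t ht)
    exact ⟨this.1, this.2.le⟩
  rw [← intervalIntegral.integral_eq_integral_of_support_subset hs]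
  have hc : Continuous fun t : ℝ => (√(1 + t ^ 2))⁻¹ := by
    refine Continuous.inv₀ (by fun_prop) fun t => ?_
    exact (Real.sqrt_pos.2 (by positivity)).ne'
  have h3 : ‖∫ t in (-(2 * X))..(2 * X), F t‖ ≤
      ∫ t in (-(2 * X))..(2 * X), B * (√(1 + t ^ 2))⁻¹ :=
    intervalIntegral.norm_integral_le_of_norm_le (by linarith)
      (Eventually.of_forall fun t _ => h1 t) ((hc.const_mul B).intervalIntegrable _ _)
  have h4 : ∫ t in (-(2 * X))..(2 * X), (√(1 + t ^ 2))⁻¹ =
      arsinh (2 * X) - arsinh (-(2 * X)) :=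
    intervalIntegral.integral_eq_sub_of_hasDerivAt (fun t _ => hasDerivAt_arsinh t)
      (hc.intervalIntegrable _ _)
  rw [intervalIntegral.integral_const_mul, h4, arsinh_neg] at h3
  have h5 : arsinh (2 * X) ≤ 3 * log X := by
    have h6 : √(1 + (2 * X) ^ 2) ≤ 1 + 2 * X := by
      rw [Real.sqrt_le_left (by linarith)]
      nlinarith
    have h7 : 2 * X + √(1 + (2 * X) ^ 2) ≤ X ^ 3 := by nlinarith [sq_nonneg X]
    have h8 : 0 < 2 * X + √(1 + (2 * X) ^ 2) := by positivity
    have h9 := Real.log_le_log h8 h7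
    rw [Real.log_pow] at h9
    simpa [arsinh] using h9
  refine le_trans h3 (mul_le_mul_of_nonneg_left (by linarith) hB)

lemma supp (G : GeoStmt) (hX : 3 ≤ X) (hf : Adm X Λ f) {v : ℝ} (hv : 0 < v) {t : ℝ}
    (h : f (hd t 1 v) ≠ 0) : t ^ 2 + 1 + v ^ 2 ≤ 2 * v * X := by
  obtain ⟨h0, hc, -⟩ := G.1 t 1 v one_pos hv
  have h1 : hd t 1 v ≤ log X := by
    by_contra h1
    exact h (hf.supp _ (not_le.1 h1))
  have h2 : cosh (hd t 1 v) ≤ cosh (log X) := by
    rw [cosh_le_cosh, abs_of_nonneg h0, abs_of_nonneg (h0.trans h1)]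
    exact h1
  rw [hc, cosh_log (by linarith), div_le_iff₀ (by positivity)] at h2
  have h3 : X⁻¹ ≤ X := le_trans (inv_le_one_of_one_le₀ (by linarith)) (by linarith)
  nlinarith

lemma supp' (G : GeoStmt) (hX : 3 ≤ X) (hf : Adm X Λ f) {v : ℝ} (hv : 0 < v) {t : ℝ}
    (h : f (hd t 1 v) ≠ 0) : |t| < 2 * X ∧ v ≤ 2 * X ∧ 1 ≤ 2 * v * X := by
  have h1 := supp G hX hf hv h
  have h2 : v ≤ 2 * X := by nlinarith [sq_nonneg t]
  refine ⟨?_, h2, by nlinarith [sq_nonneg t, sq_nonneg v]⟩
  refine abs_lt_of_sq_lt_sq (by nlinarith [sq_nonneg v]) (by linarith)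

lemma wt_le (G : GeoStmt) (hX : 3 ≤ X) {v : ℝ} (hv : 0 < v) (t : ℝ) :
    √(X / cosh (hd t 1 v)) ≤ 2 * √(X * v) * (√(1 + t ^ 2))⁻¹ := by
  obtain ⟨-, hc, -⟩ := G.1 t 1 v one_pos hv
  have h1 : X / cosh (hd t 1 v) ≤ 2 ^ 2 * (X * v) / (1 + t ^ 2) := by
    rw [hc, div_div_eq_mul_div, div_le_div_iff₀ (by positivity) (by positivity)]
    have : 0 < X * v := by positivity
    nlinarith [sq_nonneg t, sq_nonneg v, mul_nonneg this.le (sq_nonneg t),
      mul_nonneg this.le (sq_nonneg v)]
  refine le_trans (Real.sqrt_le_sqrt h1) (le_of_eq ?_)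
  rw [Real.sqrt_div' _ (by positivity), Real.sqrt_mul (by positivity), Real.sqrt_sq (by norm_num),
    div_eq_mul_inv]

lemma cont_of_lip {g : ℝ → ℝ} {s : Set ℝ} {B : ℝ → ℝ}
    (h : ∀ r ∈ s, ∀ r' ∈ s, |r - r'| ≤ 1 → |g r - g r'| ≤ |r - r'| * B r) : ContinuousOn g s := by
  intro r hr
  rw [ContinuousWithinAt, tendsto_iff_norm_sub_tendsto_zero]
  have h1 : Tendsto (fun r' => |r - r'| * B r) (nhdsWithin r s) (nhds 0) := by
    have : Continuous fun r' => |r - r'| * B r := by fun_prop
    have h2 := (this.tendsto r).mono_left (nhdsWithin_le_nhds (s := s))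
    simpa using h2
  refine squeeze_zero' (Eventually.of_forall fun _ => norm_nonneg _) ?_ h1
  have h3 : ∀ᶠ r' in nhds r, |r - r'| ≤ 1 := by
    have : Continuous fun r' => |r - r'| := by fun_prop
    exact (this.tendsto r).eventually_le_const (by simp)
  filter_upwards [self_mem_nhdsWithin, h3.filter_mono nhdsWithin_le_nhds] with r' h4 h5
  rw [Real.norm_eq_abs, abs_sub_comm]
  exact h r hr r' h4 h5

lemma cont_f (hf : Adm X Λ f) : ContinuousOn f (Set.Ici 0) :=
  cont_of_lip (B := fun r => Λ * √(X / cosh r)) fun r hr r' hr' h => by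
    simpa [mul_assoc] using hf.lip r r' hr hr' h

lemma integ (G : GeoStmt) (hX : 3 ≤ X) (hf : Adm X Λ f) {v : ℝ} (hv : 0 < v) :
    Integrable fun t : ℝ => f (hd t 1 v) := by
  have hc : Continuous fun t : ℝ => f (hd t 1 v) :=
    (cont_f hf).comp_continuous (G.2.1 1 v one_pos hv) fun t => (G.1 t 1 v one_pos hv).1
  refine hc.integrable_of_hasCompactSupport ?_
  refine HasCompactSupport.intro (K := Set.Icc (-(2 * X)) (2 * X)) isCompact_Icc fun t ht => ?_
  by_contra h
  have := abs_lt.1 (supp' G hX hf hv h).1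
  exact ht ⟨this.1.le, this.2.le⟩

lemma II_nonneg (hf : Adm X Λ f) (v : ℝ) : 0 ≤ II f v :=
  integral_nonneg fun _ => hf.nonneg _

lemma II_le (G : GeoStmt) (hX : 3 ≤ X) (hf : Adm X Λ f) {v : ℝ} (hv : 0 < v) :
    II f v ≤ 12 * Λ * log X * √(X * v) := by
  have hΛ := lam_nonneg hX hf
  have h := int_le hX (fun t => f (hd t 1 v)) (Λ * (2 * √(X * v))) (by positivity)
    (fun t => by
      rw [abs_of_nonneg (hf.nonneg _), mul_assoc]
      exact (hf.bd _ (G.1 t 1 v one_pos hv).1).trans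
        (mul_le_mul_of_nonneg_left (wt_le G hX hv t) hΛ))
    (fun t ht => (supp' G hX hf hv ht).1)
  refine le_trans (le_abs_self _) (h.trans (le_of_eq ?_))
  ring

lemma II_zero (G : GeoStmt) (hX : 3 ≤ X) (hf : Adm X Λ f) {v : ℝ} (hv : 0 < v)
    (h : 2 * X < v ∨ 2 * v * X < 1) : II f v = 0 := by
  have : (fun t : ℝ => f (hd t 1 v)) = fun _ => 0 := by
    funext t
    by_contra h1
    obtain ⟨-, h2, h3⟩ := supp' G hX hf hv h1
    rcases h with h | h <;> linarith
  simp [II, this]

lemma II_lip (G : GeoStmt) (hX : 3 ≤ X) (hf : Adm X Λ f) {v v' : ℝ} (hv : 0 < v) (hv' : 0 < v')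
    (h : |log (v / v')| ≤ 1) :
    |II f v - II f v'| ≤ |log (v / v')| * (12 * Λ * log X * √(X * v)) := by
  have hΛ := lam_nonneg hX hf
  have h1 := int_le hX (fun t => f (hd t 1 v) - f (hd t 1 v'))
    (|log (v / v')| * Λ * (2 * √(X * v))) (by positivity)
    (fun t => by
      obtain ⟨h0, -, -, h2, -⟩ := G.1 t 1 v one_pos hv
      have h3 := h2 v' hv'
      have h4 := hf.lip _ _ h0 (G.1 t 1 v' one_pos hv').1 (h3.trans h)
      refine h4.trans ?_
      rw [mul_assoc (|log (v / v')| * Λ)]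
      exact mul_le_mul (mul_le_mul_of_nonneg_right h3 hΛ) (wt_le G hX hv t) (Real.sqrt_nonneg _)
        (by positivity))
    (fun t ht => by
      by_cases h2 : f (hd t 1 v) = 0
      · refine (supp' G hX hf hv' fun h3 => ht ?_).1
        rw [h2, h3, sub_self]
      · exact (supp' G hX hf hv h2).1)
  rw [integral_sub (integ G hX hf hv) (integ G hX hf hv')] at h1
  refine h1.trans (le_of_eq ?_)
  ring

lemma log_ratio {v : ℝ} (hv : 0 < v) (s s' : ℝ) : log (v * exp s / (v * exp s')) = s - s' := by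
  rw [mul_div_mul_left _ _ hv.ne', ← Real.exp_sub, Real.log_exp]

lemma cont_II (G : GeoStmt) (hX : 3 ≤ X) (hf : Adm X Λ f) {v : ℝ} (hv : 0 < v) :
    Continuous fun s : ℝ => II f (v * exp s) := by
  rw [← continuousOn_univ]
  refine cont_of_lip (B := fun s => 12 * Λ * log X * √(X * (v * exp s))) fun s _ s' _ h => ?_
  have := II_lip G hX hf (v := v * exp s) (v' := v * exp s') (by positivity) (by positivity)
    (by rwa [log_ratio hv])
  rwa [log_ratio hv] at this

lemma integ_II (G : GeoStmt) (hX : 3 ≤ X) (hf : Adm X Λ f) {v : ℝ} (hv : 0 < v) :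
    Integrable fun s : ℝ => II f (v * exp s) := by
  refine (cont_II G hX hf hv).integrable_of_hasCompactSupport ?_
  refine HasCompactSupport.intro (K := Set.Icc (-log (2 * v * X)) (log (2 * X / v))) isCompact_Icc
    fun s hs => ?_
  have hX0 : 0 < X := by linarith
  refine II_zero G hX hf (by positivity) ?_
  by_contra h
  push Not at h
  refine hs ⟨?_, ?_⟩
  · have h1 : 1 ≤ 2 * v * X * exp s := by linarith [h.2]
    have h2 := Real.log_le_log one_pos h1
    rw [Real.log_one, Real.log_mul (by positivity) (by positivity), Real.log_exp] at h2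
    linarith
  · rw [Real.le_log_iff_exp_le (by positivity), le_div_iff₀ hv]
    linarith [h.1]

lemma int_II {v : ℝ} (hv : 0 < v) : ∫ s : ℝ, II f (v * exp s) = Itot f := by
  have := integral_add_right_eq_self (μ := volume) (fun s : ℝ => II f (exp s)) (log v)
  rw [Itot, ← this]
  congr 1
  funext s
  rw [Real.exp_add, Real.exp_log hv, mul_comm]

lemma sum_le (M : ℕ) : ∑ k ∈ range M, 1 / (((k : ℝ) + 1) * √(k + 1)) ≤ 3 - 2 / √(M : ℝ) ∨ M = 0 := by
  induction M with
  | zero => right; rfl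
  | succ M ih =>
    left
    rcases ih with ih | ih
    · rcases Nat.eq_zero_or_pos M with h | h
      · subst h
        norm_num
      rw [sum_range_succ]
      push_cast
      have hM : (1 : ℝ) ≤ M := by exact_mod_cast h
      set a := √(M : ℝ) with ha
      set b := √((M : ℝ) + 1) with hb
      have ha0 : 0 < a := Real.sqrt_pos.2 (by linarith)
      have hb0 : 0 < b := Real.sqrt_pos.2 (by linarith)
      have ha2 : a ^ 2 = M := Real.sq_sqrt (by linarith)
      have hb2 : b ^ 2 = M + 1 := Real.sq_sqrt (by linarith)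
      have hab : a ≤ b := Real.sqrt_le_sqrt (by linarith)
      have h1 : 1 / (((M : ℝ) + 1) * b) ≤ 2 / a - 2 / b := by
        rw [← hb2, div_sub_div _ _ ha0.ne' hb0.ne', div_le_div_iff₀ (by positivity) (by positivity)]
        have h2 : (b - a) * (b + a) = 1 := by nlinarith
        have h3 : a * b ≤ b * b := mul_le_mul_of_nonneg_right hab hb0.le
        have h4 : 0 ≤ b - a := by linarith
        have h5 : (b - a) * (b + a) ≤ (b - a) * (2 * b) := by nlinarith
        calc 1 * (a * b) ≤ (b - a) * (2 * b) * (b * b) := by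
              apply mul_le_mul (by linarith) h3 (by positivity) (by positivity)
          _ = _ := by ring
      linarith
    · subst ih
      norm_num

lemma sum_le' (M : ℕ) : ∑ k ∈ range M, 1 / (((k : ℝ) + 1) * √(k + 1)) ≤ 3 := by
  rcases sum_le M with h | h
  · have : 0 ≤ 2 / √(M : ℝ) := by positivity
    linarith
  · subst h
    simp

lemma log_step {a : ℝ} (ha : 0 < a) :
    0 ≤ log (a + 1) - log a ∧ log (a + 1) - log a ≤ 1 / a ∧
      1 / a - (log (a + 1) - log a) ≤ 1 / a ^ 2 := by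
  have h1 : log (a + 1) - log a = log ((a + 1) / a) := by
    rw [Real.log_div (by positivity) ha.ne']
  have h2 := Real.log_le_sub_one_of_pos (x := (a + 1) / a) (by positivity)
  have h3 := Real.one_sub_inv_le_log_of_pos (x := (a + 1) / a) (by positivity)
  have h4 : (a + 1) / a - 1 = 1 / a := by field_simp; ring
  have h5 : 1 - ((a + 1) / a)⁻¹ = 1 / (a + 1) := by field_simp; ring
  have h6 : 1 / a - 1 / (a + 1) ≤ 1 / a ^ 2 := by
    rw [div_sub_div _ _ ha.ne' (by positivity), div_le_div_iff₀ (by positivity) (by positivity)]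
    nlinarith
  have h7 : 0 ≤ 1 / (a + 1) := by positivity
  rw [h1]
  refine ⟨by linarith, by linarith, by linarith⟩

lemma piece (G : GeoStmt) (hX : 3 ≤ X) (hf : Adm X Λ f) {Y a : ℝ} (hY : 0 < Y) (ha : 1 ≤ a) :
    |II f (a * Y) / a - ∫ s in (log a)..(log (a + 1)), II f (Y * exp s)| ≤
      24 * Λ * log X * √(X * Y) * (1 / (a * √a)) := by
  have hΛ := lam_nonneg hX hf
  have hL := one_le_log hX
  have ha0 : 0 < a := by linarith
  obtain ⟨h1, h2, h3⟩ := log_step ha0
  set B := 12 * Λ * log X * √(X * (a * Y)) with hB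
  have hB0 : 0 ≤ B := by positivity
  have h4 : ‖∫ s in (log a)..(log (a + 1)), (II f (a * Y) - II f (Y * exp s))‖ ≤
      1 / a * B * |log (a + 1) - log a| := by
    refine intervalIntegral.norm_integral_le_of_norm_le_const fun s hs => ?_
    rw [Set.uIoc_of_le (by linarith)] at hs
    have h5 : log (a * Y / (Y * exp s)) = log a - s := by
      rw [mul_comm a, mul_div_mul_left _ _ hY.ne', Real.log_div ha0.ne' (by positivity),
        Real.log_exp]
    have h6 : |log a - s| ≤ 1 / a := by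
      rw [abs_le]
      constructor <;> linarith [hs.1, hs.2]
    have h7 : 1 / a ≤ 1 := by rw [div_le_one ha0]; exact ha
    have h8 := II_lip G hX hf (v := a * Y) (v' := Y * exp s) (by positivity) (by positivity)
      (by rw [h5]; exact h6.trans h7)
    rw [h5] at h8
    exact h8.trans (mul_le_mul_of_nonneg_right h6 hB0)
  rw [intervalIntegral.integral_sub intervalIntegrable_const
    ((cont_II G hX hf hY).intervalIntegrable _ _), intervalIntegral.integral_const, smul_eq_mul,
    Real.norm_eq_abs, abs_of_nonneg h1] at h4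
  have h9 := II_le G hX hf (v := a * Y) (by positivity)
  have h10 := II_nonneg hf (a * Y)
  have h11 : |II f (a * Y) / a - (log (a + 1) - log a) * II f (a * Y)| ≤ 1 / a ^ 2 * B := by
    have : II f (a * Y) / a - (log (a + 1) - log a) * II f (a * Y) =
        (1 / a - (log (a + 1) - log a)) * II f (a * Y) := by ring
    rw [this, abs_of_nonneg (mul_nonneg (by linarith) h10)]
    exact mul_le_mul h3 h9 h10 (by positivity)
  have h12 : 1 / a * B * (log (a + 1) - log a) ≤ 1 / a ^ 2 * B := by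
    calc 1 / a * B * (log (a + 1) - log a) ≤ 1 / a * B * (1 / a) :=
          mul_le_mul_of_nonneg_left h2 (by positivity)
      _ = _ := by field_simp
  have h13 : 2 * (1 / a ^ 2 * B) = 24 * Λ * log X * √(X * Y) * (1 / (a * √a)) := by
    have h14 : √(X * (a * Y)) = √(X * Y) * √a := by
      rw [← Real.sqrt_mul (by positivity)]
      congr 1
      ring
    have h15 : 0 < √a := Real.sqrt_pos.2 ha0
    have h16 : √a * √a = a := Real.mul_self_sqrt ha0.le
    rw [hB, h14]
    field_simp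
    rw [show √a ^ 2 = a from Real.sq_sqrt ha0.le]
    ring
  have h17 := abs_sub_le (II f (a * Y) / a) ((log (a + 1) - log a) * II f (a * Y))
    (∫ s in (log a)..(log (a + 1)), II f (Y * exp s))
  linarith

lemma riem (G : GeoStmt) (hX : 3 ≤ X) (hf : Adm X Λ f) {Y : ℝ} (hY : 0 < Y) :
    |∑ k ∈ (Icc 1 (KM X Y) : Finset ℕ), II f (k * Y) / k - Itot f| ≤
      96 * Λ * log X * √(X * Y) := by
  have hΛ := lam_nonneg hX hf
  have hL := one_le_log hX
  have hX0 : 0 < X := by linarith
  set M := KM X Y with hM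
  set B := Λ * log X * √(X * Y) with hB
  have hB0 : 0 ≤ B := by positivity
  have hi := integ_II G hX hf hY
  have h1 := intervalIntegral.integral_Iic_add_Ioi (b := 0) hi.integrableOn hi.integrableOn
  rw [int_II hY] at h1
  have h2 : ‖∫ s in Set.Iic (0 : ℝ), II f (Y * exp s)‖ ≤
      ∫ s in Set.Iic (0 : ℝ), 12 * B * exp (1 / 2 * s) := by
    refine norm_integral_le_of_norm_le
      ((integrableOn_exp_mul_Iic (a := 1 / 2) (by norm_num) 0).const_mul _)
      (Eventually.of_forall fun s => ?_)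
    rw [Real.norm_eq_abs, abs_of_nonneg (II_nonneg hf _)]
    refine (II_le G hX hf (by positivity)).trans (le_of_eq ?_)
    have : √(X * (Y * exp s)) = √(X * Y) * exp (1 / 2 * s) := by
      rw [← mul_assoc, Real.sqrt_mul (by positivity), ← Real.exp_half]
      congr 2
      ring
    rw [this, hB]
    ring
  rw [integral_const_mul, integral_exp_mul_Iic (by norm_num), Real.norm_eq_abs] at h2
  have h3 : ∫ s in Set.Ioi (0 : ℝ), II f (Y * exp s) =
      ∫ s in (0 : ℝ)..(log ((M : ℝ) + 1)), II f (Y * exp s) := by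
    have h4 : (0 : ℝ) ≤ log ((M : ℝ) + 1) := Real.log_nonneg (by simp)
    rw [intervalIntegral.integral_of_le h4]
    refine setIntegral_eq_of_subset_of_forall_sdiff_eq_zero measurableSet_Ioi
      Set.Ioc_subset_Ioi_self fun s hs => ?_
    have h5 : log ((M : ℝ) + 1) < s := by
      by_contra h6
      exact hs.2 ⟨hs.1, not_lt.1 h6⟩
    rw [Real.log_lt_iff_lt_exp (by positivity)] at h5
    refine II_zero G hX hf (by positivity) (Or.inl ?_)
    have h7 : 2 * X / Y < (M : ℝ) + 1 := Nat.lt_floor_add_one _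
    rw [div_lt_iff₀ hY] at h7
    nlinarith
  have h8 := intervalIntegral.sum_integral_adjacent_intervals (μ := volume)
    (f := fun s => II f (Y * exp s)) (a := fun k : ℕ => log ((k : ℝ) + 1)) (n := M)
    fun k _ => (cont_II G hX hf hY).intervalIntegrable _ _
  simp only [Nat.cast_zero, zero_add, Real.log_one, Nat.cast_add, Nat.cast_one] at h8
  have h9 : ∑ k ∈ (Icc 1 M : Finset ℕ), II f (k * Y) / k =
      ∑ k ∈ range M, II f (((k : ℝ) + 1) * Y) / (k + 1) := by
    rw [range_eq_Ico, ← Finset.Ico_add_one_right_eq_Icc, ← Finset.sum_Ico_add' _ 0 M 1]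
    simp
  have h10 : |∑ k ∈ range M, II f (((k : ℝ) + 1) * Y) / (k + 1) -
      ∑ k ∈ range M, ∫ s in (log ((k : ℝ) + 1))..(log ((k : ℝ) + 1 + 1)), II f (Y * exp s)| ≤
      24 * B * 3 := by
    rw [← sum_sub_distrib]
    refine (abs_sum_le_sum_abs _ _).trans ?_
    refine le_trans (sum_le_sum fun k _ => piece G hX hf hY (a := (k : ℝ) + 1) (by simp)) ?_
    rw [← mul_sum]
    refine le_trans (mul_le_mul_of_nonneg_left (sum_le' M) (by positivity)) (le_of_eq ?_)
    rw [hB]
    ring
  rw [h8, ← h3, ← h9] at h10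
  rw [← h1]
  have h11 : 96 * Λ * log X * √(X * Y) = 96 * B := by rw [hB]; ring
  rw [h11]
  simp only [mul_zero, Real.exp_zero] at h2
  rw [abs_le] at h2 h10 ⊢
  constructor <;> linarith [h2.1, h2.2, h10.1, h10.2]

end I1

theorem i1 (G : GeoStmt) : I1Stmt := by
  refine ⟨200, by norm_num, fun X Λ f hX hf => ?_⟩
  have hΛ := I1.lam_nonneg hX hf
  have hL := I1.one_le_log hX
  have hX0 : 0 < X := by linarith
  have hm : ∀ (a u : ℝ), a ≤ 200 → a * Λ * log X * √u ≤ 200 * Λ * log X * √u := fun a u h => by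
    gcongr
  refine ⟨fun v hv => ⟨I1.integ G hX hf hv, I1.II_nonneg hf v,
    (I1.II_le G hX hf hv).trans (hm _ _ (by norm_num)), fun h => I1.II_zero G hX hf hv (Or.inl h),
    fun v' hv' h => (I1.II_lip G hX hf hv hv' h).trans
      (mul_le_mul_of_nonneg_left (hm _ _ (by norm_num)) (abs_nonneg _))⟩,
    fun v hv => ⟨I1.integ_II G hX hf hv, I1.int_II hv⟩,
    fun Y hY => (I1.riem G hX hf hY).trans (hm _ _ (by norm_num)), ?_⟩
  have h := I1.riem G hX hf (Y := 4 * X) (by positivity)
  have h1 : KM X (4 * X) = 0 := by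
    rw [KM, Nat.floor_eq_zero, div_lt_one (by positivity)]
    linarith
  have h2 : √(X * (4 * X)) = 2 * X := by
    rw [show X * (4 * X) = (2 * X) ^ 2 by ring, Real.sqrt_sq (by positivity)]
  rw [h1, h2] at h
  simp only [Nat.not_le, zero_lt_one, Icc_eq_empty, sum_empty, zero_sub,
    abs_neg] at h
  have h3 : 0 ≤ Λ * log X * X := by positivity
  have h4 := le_abs_self (Itot f)
  nlinarith

end Pool.Agent.Lib.MP_4b1228_nt.PP
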