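import Pool.Agent.Lib.MP_4b1228_nt.PP.I1

/-!
Trivial counting for the two sequences.
-/

open Finset Real Filter MeasureTheory
open scoped Classical

noncomputable section

namespace Pool.Agent.Lib.MP_4b1228_nt.PP

namespace I2

variable {X Λ : ℝ} {f : ℝ → ℝ}

lemma scale (G : GeoStmt) {Y : ℝ} (hY : 0 < Y) {k : ℕ} (hk : 1 ≤ k) (t : ℝ) :
    hd (t / k) (1 / k) Y = hd t 1 (k * Y) := by
  have hk0 : (0 : ℝ) < k := by exact_mod_cast hk
  have := (G.1 (t / k) (1 / k) Y (by positivity) hY).2.2.2.2.2 k hk0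
  rw [← this, mul_div_cancel₀ _ hk0.ne', mul_one_div_cancel hk0.ne']

lemma maj_nonneg (X r : ℝ) : 0 ≤ maj X r := by
  unfold maj
  split_ifs
  · exact Real.sqrt_nonneg _
  · exact le_rfl

lemma cosh_le {r r' : ℝ} (h : |r - r'| ≤ 1) : cosh r' ≤ 3 * cosh r := by
  rw [abs_le] at h
  have h1 : exp r' ≤ exp 1 * exp r := by
    rw [← Real.exp_add]; exact Real.exp_le_exp.2 (by linarith)
  have h2 : exp (-r') ≤ exp 1 * exp (-r) := by
    rw [← Real.exp_add]; exact Real.exp_le_exp.2 (by linarith)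
  have h3 := Real.exp_one_lt_d9
  have h4 := Real.exp_pos r
  have h5 := Real.exp_pos (-r)
  rw [Real.cosh_eq, Real.cosh_eq]
  nlinarith

lemma maj_le (hX : 3 ≤ X) {r r' : ℝ} (h : |r - r'| ≤ 1) : maj X r ≤ maj (3 * X) r' := by
  unfold maj
  by_cases h1 : r ≤ log X + 1
  · have h2 : r' ≤ log (3 * X) + 1 := by
      rw [Real.log_mul (by norm_num) (by linarith)]
      have := I1.one_le_log (X := 3) le_rfl
      rw [abs_le] at h
      linarith
    rw [if_pos h1, if_pos h2]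
    refine Real.sqrt_le_sqrt ?_
    rw [div_le_div_iff₀ (cosh_pos _) (cosh_pos _)]
    have := cosh_le h
    nlinarith
  · rw [if_neg h1]
    split_ifs
    · exact Real.sqrt_nonneg _
    · exact le_rfl

lemma maj_supp (G : GeoStmt) (hX : 3 ≤ X) {v : ℝ} (hv : 0 < v) {t : ℝ}
    (h : maj X (hd t 1 v) ≠ 0) : |t| ≤ 3 * X ∧ v ≤ 6 * X := by
  obtain ⟨h0, hc, -⟩ := G.1 t 1 v one_pos hv
  have h1 : hd t 1 v ≤ log X + 1 := by
    by_contra h1
    exact h (if_neg h1)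
  have hL := I1.one_le_log hX
  have h2 : cosh (hd t 1 v) ≤ cosh (log X + 1) := by
    rw [cosh_le_cosh, abs_of_nonneg h0, abs_of_nonneg (h0.trans h1)]
    exact h1
  have h3 : cosh (log X + 1) ≤ 3 * cosh (log X) := cosh_le (by simp)
  have h4 : cosh (log X) ≤ X := by
    rw [cosh_log (by linarith)]
    have : X⁻¹ ≤ X := le_trans (inv_le_one_of_one_le₀ (by linarith)) (by linarith)
    linarith
  have h5 : cosh (hd t 1 v) ≤ 3 * X := by linarith
  rw [hc, div_le_iff₀ (by positivity)] at h5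
  refine ⟨abs_le_of_sq_le_sq (by nlinarith [sq_nonneg (v - 3 * X)]) (by linarith), ?_⟩
  nlinarith [sq_nonneg t]

lemma fin_of_bd {g : ℤ → ℝ} {B : ℝ} (h : ∀ l, g l ≠ 0 → |(l : ℝ)| ≤ B) {l : ℤ} (hl : g l ≠ 0) :
    |l| ≤ (⌈B⌉₊ : ℤ) := by
  have := (h l hl).trans (Nat.le_ceil B)
  exact_mod_cast this

lemma ite_bd {P : ℤ → Prop} [DecidablePred P] {g : ℤ → ℝ} {B : ℝ}
    (h : ∀ l, g l ≠ 0 → |(l : ℝ)| ≤ B) (l : ℤ) (hl : (if P l then g l else 0) ≠ 0) :
    |l| ≤ (⌈B⌉₊ : ℤ) := by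
  split_ifs at hl
  · exact fin_of_bd h hl
  · exact absurd rfl hl

lemma blocks {q : ℤ} (hq : 1 ≤ q) (N : ℕ) (F : ℤ → ℝ) (hF : ∀ l, F l ≠ 0 → |l| ≤ (N : ℤ)) :
    ∑' l, F l = ∑ j ∈ Icc (-(N : ℤ)) N, ∑ l ∈ Ico (j * q) (j * q + q), F l := by
  have hN : (0 : ℤ) ≤ N := Int.natCast_nonneg N
  have key : ∀ l j : ℤ, l / q = j ↔ j * q ≤ l ∧ l < j * q + q := by
    intro l j
    have h1 := Int.le_ediv_iff_mul_le (a := j) (b := l) (c := q) (by omega)
    have h2 := Int.ediv_lt_iff_lt_mul (a := l) (b := j + 1) (c := q) (by omega)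
    rw [add_mul, one_mul] at h2
    rw [← h1, ← h2]
    omega
  rw [tsum_eq_sum (s := Ico (-(N : ℤ) * q) (N * q + q))]
  · rw [← sum_fiberwise_of_maps_to (t := Icc (-(N : ℤ)) N) (g := fun l => l / q)]
    · refine sum_congr rfl fun j hj => sum_congr ?_ fun _ _ => rfl
      ext l
      rw [mem_Icc] at hj
      rw [mem_filter, mem_Ico, mem_Ico, key]
      constructor
      · exact fun h => h.2
      · intro h
        refine ⟨⟨?_, ?_⟩, h⟩ <;> nlinarith [h.1, h.2, hj.1, hj.2]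
    · intro l hl
      rw [mem_Ico] at hl
      have := (key l _).1 rfl
      rw [mem_Icc]
      constructor <;> nlinarith [this.1, this.2, hl.1, hl.2]
  · intro l hl
    by_contra h
    have := abs_le.1 (hF l h)
    refine hl (mem_Ico.2 ⟨?_, ?_⟩) <;> nlinarith [this.1, this.2]

lemma harm (N : ℕ) :
    ∑ j ∈ Icc (-(N : ℤ)) N, 1 / (1 + |(j : ℝ)|) ≤ 1 + 2 * log ((N : ℝ) + 1) := by
  induction N with
  | zero => simp
  | succ N ih =>
    have e : Icc (-((N + 1 : ℕ) : ℤ)) ((N + 1 : ℕ) : ℤ) =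
        insert ((N : ℤ) + 1) (insert (-((N : ℤ) + 1)) (Icc (-(N : ℤ)) N)) := by
      ext j
      simp only [mem_Icc, mem_insert]
      push_cast
      omega
    rw [e, sum_insert (by simp only [mem_Icc, mem_insert]; omega),
      sum_insert (by simp only [mem_Icc]; omega)]
    push_cast
    have hN : (0 : ℝ) < N + 1 := by positivity
    rw [abs_neg, abs_of_pos hN]
    have h1 := Real.one_sub_inv_le_log_of_pos (x := ((N : ℝ) + 1 + 1) / (N + 1)) (by positivity)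
    rw [Real.log_div (by positivity) hN.ne'] at h1
    have h2 : 1 - (((N : ℝ) + 1 + 1) / (N + 1))⁻¹ = 1 / (1 + (N + 1)) := by field_simp; ring
    linarith

lemma harm' (hX : 3 ≤ X) :
    ∑ j ∈ Icc (-(⌈3 * X⌉₊ : ℤ)) ⌈3 * X⌉₊, 1 / (1 + |(j : ℝ)|) ≤ 7 * log X := by
  refine (harm _).trans ?_
  have h1 : (⌈3 * X⌉₊ : ℝ) < 3 * X + 1 := Nat.ceil_lt_add_one (by linarith)
  have h2 : (⌈3 * X⌉₊ : ℝ) + 1 ≤ X ^ 3 := by nlinarith [sq_nonneg X]
  have h3 := Real.log_le_log (by positivity) h2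
  rw [Real.log_pow] at h3
  have := I1.one_le_log hX
  push_cast at h3
  linarith

lemma maj_blk (G : GeoStmt) (hX : 3 ≤ X) {Y : ℝ} (hY : 1 ≤ Y) {k : ℕ} (hk : 1 ≤ k) {j l : ℤ}
    (hl : l ∈ Ico (j * k) (j * k + k)) :
    maj X (hd l 1 (k * Y)) ≤ 5 * √(X * Y / k) * (1 / (1 + |(j : ℝ)|)) := by
  have hk0 : (1 : ℝ) ≤ k := by exact_mod_cast hk
  obtain ⟨-, hc, -⟩ := G.1 l 1 (k * Y) one_pos (by positivity)
  unfold maj
  split_ifs
  · have h1 : (j : ℝ) * k ≤ l := by exact_mod_cast (mem_Ico.1 hl).1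
    have h2 : (l : ℝ) ≤ j * k + k := by exact_mod_cast (mem_Ico.1 hl).2.le
    have h3 : |(j : ℝ)| * k ≤ |(l : ℝ)| + k := by
      have := le_abs_self (l : ℝ)
      have := neg_abs_le (l : ℝ)
      rcases abs_cases (j : ℝ) with h | h <;> rw [h.1] <;> nlinarith
    have h4 : ((1 + |(j : ℝ)|) * k) ^ 2 ≤ 5 * ((l : ℝ) ^ 2 + k ^ 2) := by
      have h5 : (1 + |(j : ℝ)|) * k ≤ |(l : ℝ)| + 2 * k := by linarith
      have h6 := pow_le_pow_left₀ (by positivity) h5 2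
      have h7 := sq_abs (l : ℝ)
      nlinarith [sq_nonneg (2 * |(l : ℝ)| - k)]
    have h8 : (k : ℝ) ^ 2 ≤ (k * Y) ^ 2 := pow_le_pow_left₀ (by positivity) (by nlinarith) 2
    have h9 : X / cosh (hd l 1 (k * Y)) ≤ (5 * (1 / (1 + |(j : ℝ)|))) ^ 2 * (X * Y / k) := by
      have e : (5 * (1 / (1 + |(j : ℝ)|))) ^ 2 * (X * Y / k) =
          25 * (X * Y * k) / ((1 + |(j : ℝ)|) * k) ^ 2 := by field_simp; ring
      rw [e, hc, div_div_eq_mul_div, div_le_div_iff₀ (by positivity) (by positivity)]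
      have h10 : 0 < X * Y * k := by positivity
      have h11 : ((1 + |(j : ℝ)|) * k) ^ 2 ≤ 5 * ((l : ℝ) ^ 2 + 1 ^ 2 + (k * Y) ^ 2) := by linarith
      have h12 := mul_le_mul_of_nonneg_left h11 h10.le
      have h13 : 0 ≤ X * Y * k * ((l : ℝ) ^ 2 + 1 ^ 2 + (k * Y) ^ 2) := by positivity
      nlinarith
    refine (Real.sqrt_le_sqrt h9).trans (le_of_eq ?_)
    rw [Real.sqrt_mul (by positivity), Real.sqrt_sq (by positivity)]
    ring
  · positivity

lemma pk (hR : RhoStmt) (G : GeoStmt) (hX : 3 ≤ X) {Y : ℝ} (hY : 1 ≤ Y) {k : ℕ} (hk : 1 ≤ k) :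
    (∑' l : ℤ, if (k : ℤ) ∣ l ^ 2 + 1 then maj X (hd l 1 (k * Y)) else 0) ≤
      35 * log X * rho k * √(X * Y / k) := by
  have hk0 : (1 : ℝ) ≤ k := by exact_mod_cast hk
  rw [blocks (q := k) (by exact_mod_cast hk) ⌈3 * X⌉₊ _
    (ite_bd fun l hl => (maj_supp G hX (by positivity) hl).1)]
  calc _ ≤ ∑ j ∈ Icc (-(⌈3 * X⌉₊ : ℤ)) ⌈3 * X⌉₊,
        5 * rho k * √(X * Y / k) * (1 / (1 + |(j : ℝ)|)) := by
        refine sum_le_sum fun j _ => ?_
        rw [← sum_filter]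
        refine (sum_le_card_nsmul _ _ _ fun l hl => maj_blk G hX hY hk (mem_filter.1 hl).1).trans
          (le_of_eq ?_)
        rw [hR.2.2.2.2.2.2.2.1 k (j * k), nsmul_eq_mul]
        ring
    _ ≤ _ := by
        rw [← mul_sum]
        refine (mul_le_mul_of_nonneg_left (harm' hX) (by positivity)).trans (le_of_eq ?_)
        ring

/-- The double sum over moduli and roots. -/
def TT (P : ℤ → Prop) (g : ℝ → ℝ) (Y : ℝ) (M : ℕ) : ℝ :=
  ∑ k ∈ (Icc 1 M : Finset ℕ), ∑' l : ℤ, if P l ∧ (k : ℤ) ∣ l ^ 2 + 1 then g (hd l 1 (k * Y)) else 0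

/-- The same sum arranged by the root. -/
def DD (P : ℤ → Prop) (g : ℝ → ℝ) (Y : ℝ) (N : ℕ) : ℝ :=
  ∑ l ∈ Icc (-(N : ℤ)) N, if P l then
    ∑ k ∈ (l.natAbs ^ 2 + 1).divisors, g (hd l 1 ((k : ℕ) * Y)) else 0

lemma dvd_iff (k : ℕ) (l : ℤ) : (k : ℤ) ∣ l ^ 2 + 1 ↔ k ∣ l.natAbs ^ 2 + 1 := by
  rw [← Int.natCast_dvd_natCast]
  push_cast
  rw [sq_abs]

lemma TT_eq (P : ℤ → Prop) (g : ℝ → ℝ) (Y : ℝ) (M N : ℕ)
    (h : ∀ (k : ℕ) (l : ℤ), 1 ≤ k → g (hd l 1 (k * Y)) ≠ 0 → |l| ≤ (N : ℤ) ∧ k ≤ M) :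
    TT P g Y M = DD P g Y N := by
  unfold TT DD
  have e : ∀ k ∈ (Icc 1 M : Finset ℕ),
      (∑' l : ℤ, if P l ∧ (k : ℤ) ∣ l ^ 2 + 1 then g (hd l 1 (k * Y)) else 0) =
      ∑ l ∈ Icc (-(N : ℤ)) N, if P l ∧ (k : ℤ) ∣ l ^ 2 + 1 then g (hd l 1 (k * Y)) else 0 := by
    intro k hk
    refine tsum_eq_sum fun l hl => ?_
    split_ifs
    · by_contra h0
      exact hl (mem_Icc.2 (abs_le.1 (h k l (mem_Icc.1 hk).1 h0).1))
    · rfl
  rw [sum_congr rfl e, sum_comm]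
  refine sum_congr rfl fun l _ => ?_
  by_cases hP : P l
  · simp only [hP, true_and, if_true]
    rw [← sum_filter]
    refine sum_subset (fun k hk => ?_) fun k hk hk' => ?_
    · rw [Nat.mem_divisors, ← dvd_iff]
      exact ⟨(mem_filter.1 hk).2, by positivity⟩
    · by_contra h0
      have h1 := Nat.pos_of_mem_divisors hk
      exact hk' (mem_filter.2 ⟨mem_Icc.2 ⟨h1, (h k l h1 h0).2⟩,
        (dvd_iff k l).2 (Nat.dvd_of_mem_divisors hk)⟩)
  · simp [hP]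

lemma DD_swap (P : ℤ → Prop) (g : ℝ → ℝ) {Y : ℝ} (hY : 0 < Y) (N : ℕ) :
    DD P g Y N = DD P g (1 / Y) N := by
  unfold DD
  refine sum_congr rfl fun l _ => ?_
  split_ifs
  · rw [← Nat.sum_div_divisors (l.natAbs ^ 2 + 1) fun k => g (hd l 1 (k * (1 / Y)))]
    refine sum_congr rfl fun k hk => ?_
    have h1 := Nat.pos_of_mem_divisors hk
    have h2 : (0 : ℝ) < k := by exact_mod_cast h1
    rw [Nat.cast_div (Nat.dvd_of_mem_divisors hk) h2.ne']
    push_cast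
    rw [Nat.cast_natAbs, Int.cast_abs, sq_abs]
    unfold hd
    congr 2
    field_simp
    ring
  · rfl

lemma TT_swap (P : ℤ → Prop) (g : ℝ → ℝ) {Y : ℝ} (hY : 0 < Y) {A B : ℝ}
    (h : ∀ t v : ℝ, 0 < v → g (hd t 1 v) ≠ 0 → |t| ≤ A ∧ v ≤ B) :
    TT P g Y ⌊B / Y⌋₊ = TT P g (1 / Y) ⌊B / (1 / Y)⌋₊ := by
  have key : ∀ Y : ℝ, 0 < Y → TT P g Y ⌊B / Y⌋₊ = DD P g Y ⌈A⌉₊ := by
    intro Y hY
    refine TT_eq P g Y _ _ fun k l hk h0 => ?_
    have hk0 : (0 : ℝ) < k := by exact_mod_cast hk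
    obtain ⟨h1, h2⟩ := h l (k * Y) (by positivity) h0
    refine ⟨?_, Nat.le_floor ((le_div_iff₀ hY).2 h2)⟩
    have := h1.trans (Nat.le_ceil A)
    exact_mod_cast this
  rw [key Y hY, key _ (by positivity), DD_swap P g hY]

lemma TT_le (hR : RhoStmt) (G : GeoStmt) (hX : 3 ≤ X) {Y : ℝ} (hY : 1 ≤ Y) :
    TT (fun _ => True) (maj X) Y ⌊6 * X / Y⌋₊ ≤ 1680 * X * log X ^ 2 := by
  unfold TT
  simp only [true_and]
  set M := ⌊6 * X / Y⌋₊ with hM
  have hL := I1.one_le_log hX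
  have h1 : (M : ℝ) ≤ 6 * X / Y := Nat.floor_le (by positivity)
  have h2 : log M ≤ 3 * log X := by
    rcases Nat.eq_zero_or_pos M with h | h
    · rw [h]; simp; linarith
    have h3 : 6 * X / Y ≤ 6 * X := div_le_self (by linarith) hY
    have h4 : (M : ℝ) ≤ X ^ 3 := by nlinarith [sq_nonneg X]
    have h5 := Real.log_le_log (by exact_mod_cast h) h4
    rw [Real.log_pow] at h5
    exact_mod_cast h5
  have h3 : √(X * Y) * √M ≤ 3 * X := by
    rw [← Real.sqrt_mul (by positivity), Real.sqrt_le_left (by linarith)]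
    rw [le_div_iff₀ (by linarith)] at h1
    nlinarith
  calc _ ≤ ∑ k ∈ (Icc 1 M : Finset ℕ), 35 * log X * √(X * Y) * ((rho k : ℝ) / √k) := by
        refine sum_le_sum fun k hk => (pk hR G hX hY (mem_Icc.1 hk).1).trans (le_of_eq ?_)
        rw [Real.sqrt_div' _ (Nat.cast_nonneg k)]
        ring
    _ ≤ 35 * log X * √(X * Y) * (4 * √M * (1 + log M)) := by
        rw [← mul_sum]
        exact mul_le_mul_of_nonneg_left (hR.2.2.2.2.2.2.2.2.2.2.1 M).2 (by positivity)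
    _ ≤ 35 * log X * √(X * Y) * (4 * √M * (4 * log X)) := by gcongr; linarith
    _ = 560 * log X ^ 2 * (√(X * Y) * √M) := by ring
    _ ≤ 560 * log X ^ 2 * (3 * X) := by gcongr
    _ = _ := by ring

lemma tot (hR : RhoStmt) (G : GeoStmt) (hX : 3 ≤ X) {Y : ℝ} (hY : 0 < Y) (M : ℕ) :
    ∑ k ∈ (Icc 1 M : Finset ℕ), (∑' l : ℤ,
      if (k : ℤ) ∣ l ^ 2 + 1 then maj X (hd (l / k) (1 / k) Y) else 0) ≤ 1680 * X * log X ^ 2 := by
  have h1 : TT (fun _ => True) (maj X) Y ⌊6 * X / Y⌋₊ ≤ 1680 * X * log X ^ 2 := by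
    rcases le_total 1 Y with h | h
    · exact TT_le hR G hX h
    · rw [TT_swap _ _ hY (A := 3 * X) fun t v hv h0 => maj_supp G hX hv h0]
      exact TT_le hR G hX (by rw [le_div_iff₀ hY]; linarith)
  refine le_trans ?_ h1
  unfold TT
  simp only [true_and]
  have e : ∀ k ∈ (Icc 1 M : Finset ℕ),
      (∑' l : ℤ, if (k : ℤ) ∣ l ^ 2 + 1 then maj X (hd (l / k) (1 / k) Y) else 0) =
      ∑' l : ℤ, if (k : ℤ) ∣ l ^ 2 + 1 then maj X (hd l 1 (k * Y)) else 0 := fun k hk => by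
    simp only [scale G hY (mem_Icc.1 hk).1]
  rw [sum_congr rfl e, ← sum_filter_of_ne (p := fun k => k ≤ ⌊6 * X / Y⌋₊)]
  · refine sum_le_sum_of_subset_of_nonneg (fun k hk => ?_) fun k _ _ => tsum_nonneg fun l => ?_
    · exact mem_Icc.2 ⟨(mem_Icc.1 (mem_filter.1 hk).1).1, (mem_filter.1 hk).2⟩
    · split_ifs
      · exact maj_nonneg _ _
      · exact le_rfl
  · intro k hk h0
    have hk0 : (0 : ℝ) < k := by exact_mod_cast (mem_Icc.1 hk).1
    by_contra h2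
    refine h0 ((tsum_congr fun l => ?_).trans tsum_zero)
    split_ifs
    · by_contra h3
      exact h2 (Nat.le_floor ((le_div_iff₀ hY).2 (maj_supp G hX (by positivity) h3).2))
    · rfl

lemma f_le (hf : Adm X Λ f) {r r' : ℝ} (hr : 0 ≤ r) (hr' : 0 ≤ r') (h : |r - r'| ≤ 1) :
    f r ≤ Λ * maj X r ∧ |f r - f r'| ≤ |r - r'| * Λ * maj X r := by
  unfold maj
  split_ifs with h1
  · exact ⟨hf.bd r hr, hf.lip r r' hr hr' h⟩
  · rw [abs_le] at h
    rw [hf.supp r (by linarith), hf.supp r' (by linarith)]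
    simp

lemma f_supp (G : GeoStmt) (hX : 3 ≤ X) (hf : Adm X Λ f) {v : ℝ} (hv : 0 < v) {t : ℝ}
    (h : f (hd t 1 v) ≠ 0) : |t| ≤ X ∧ v ≤ 2 * X ∧ t ^ 2 + 1 ≤ 2 * X * v := by
  have h1 := I1.supp G hX hf hv h
  exact ⟨abs_le_of_sq_le_sq (by nlinarith [sq_nonneg (v - X)]) (by linarith),
    (I1.supp' G hX hf hv h).2.1, by nlinarith [sq_nonneg v]⟩

lemma f_bd (G : GeoStmt) (hX : 3 ≤ X) (hf : Adm X Λ f) {v : ℝ} (hv : 0 < v) (t : ℝ) :
    f (hd t 1 v) ≤ Λ * √(X / √(t ^ 2 + 1)) := by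
  obtain ⟨h0, hc, -⟩ := G.1 t 1 v one_pos hv
  refine (hf.bd _ h0).trans (mul_le_mul_of_nonneg_left (Real.sqrt_le_sqrt ?_) (I1.lam_nonneg hX hf))
  have h1 : 0 < √(t ^ 2 + 1) := Real.sqrt_pos.2 (by positivity)
  refine div_le_div_of_nonneg_left (by linarith) h1 ?_
  rw [hc, le_div_iff₀ (by positivity)]
  have h2 : √(t ^ 2 + 1) ^ 2 = t ^ 2 + 1 := Real.sq_sqrt (by positivity)
  nlinarith [sq_nonneg (√(t ^ 2 + 1) - v)]

lemma sA_eq (G : GeoStmt) (f : ℝ → ℝ) {Y : ℝ} (hY : 0 < Y) {k : ℕ} (hk : 1 ≤ k) :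
    sA f Y k = ∑' l : ℤ, if Even l ∧ (k : ℤ) ∣ l ^ 2 + 1 then f (hd l 1 (k * Y)) else 0 := by
  unfold sA
  simp only [scale G hY hk]

lemma sA_even (f : ℝ → ℝ) (Y : ℝ) {k : ℕ} (hk : Even k) : sA f Y k = 0 := by
  unfold sA
  refine (tsum_congr fun l => if_neg ?_).trans tsum_zero
  rintro ⟨h1, h2⟩
  have h3 : Even (l ^ 2 + 1) :=
    even_iff_two_dvd.2 (dvd_trans (by exact_mod_cast even_iff_two_dvd.1 hk) h2)
  rw [Int.even_add_one] at h3
  exact h3 (h1.pow_of_ne_zero two_ne_zero)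

lemma mu_eq (G : GeoStmt) (X : ℝ) (f : ℝ → ℝ) {Y : ℝ} (hY : 0 < Y) :
    mu X f Y = TT Even f Y ⌊2 * X / Y⌋₊ := by
  unfold mu TT KM
  refine sum_congr rfl fun k hk => ?_
  rw [sA_eq G f hY (mem_Icc.1 hk).1]
  exact tsum_congr fun l => by split_ifs <;> rfl

lemma mu_swap (G : GeoStmt) (hX : 3 ≤ X) (hf : Adm X Λ f) {Y : ℝ} (hY : 0 < Y) :
    mu X f Y = mu X f (1 / Y) := by
  rw [mu_eq G X f hY, mu_eq G X f (by positivity)]
  exact TT_swap _ _ hY (A := X) fun t v hv h =>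
    ⟨(f_supp G hX hf hv h).1, (f_supp G hX hf hv h).2.1⟩

lemma II_blocks (G : GeoStmt) (hX : 3 ≤ X) (hf : Adm X Λ f) {v q : ℝ} (hv : 0 < v) (hq : 1 ≤ q)
    {N : ℕ} (hN : X ≤ N) :
    II f v / q = ∑ j ∈ Icc (-(N : ℤ)) N, ∫ x in (j : ℝ)..(j + 1), f (hd (q * x) 1 v) := by
  have h1 := ((I1.integ G hX hf hv).comp_mul_left' (R := q)
    (by positivity)).hasSum_intervalIntegral 0
  rw [Measure.integral_comp_mul_left (fun t => f (hd t 1 v)) q, abs_of_pos (by positivity),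
    smul_eq_mul] at h1
  simp only [zero_add] at h1
  rw [div_eq_inv_mul]
  refine h1.unique (hasSum_sum_of_ne_finset_zero fun j hj => ?_)
  rw [intervalIntegral.integral_of_le (by linarith), integral_Ioc_eq_integral_Ioo]
  refine setIntegral_eq_zero_of_forall_eq_zero fun x hx => ?_
  by_contra h0
  have h2 := (f_supp G hX hf hv h0).1
  rw [abs_mul, abs_of_pos (by positivity : (0 : ℝ) < q)] at h2
  have h3 : |x| ≤ N := by nlinarith [abs_nonneg x]
  rw [abs_le] at h3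
  refine hj (mem_Icc.2 ⟨?_, ?_⟩)
  · have : ((-(N : ℤ) : ℤ) : ℝ) < (j + 1 : ℤ) := by push_cast; linarith [hx.2]
    have := Int.cast_lt.1 this
    omega
  · have : (j : ℝ) < ((N : ℤ) : ℝ) := by push_cast; linarith [hx.1]
    exact (Int.cast_lt.1 this).le

lemma blk_err (G : GeoStmt) (hX : 3 ≤ X) (hf : Adm X Λ f) {Y : ℝ} (hY : 2 ≤ Y) {m : ℕ}
    (hm : 1 ≤ m) {j l : ℤ} (hl : l ∈ Ico (j * (2 * m)) (j * (2 * m) + 2 * m)) :
    |f (hd l 1 (m * Y)) - ∫ x in (j : ℝ)..(j + 1), f (hd (2 * m * x) 1 (m * Y))| ≤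
      2 / Y * Λ * maj X (hd l 1 (m * Y)) := by
  have hm0 : (1 : ℝ) ≤ m := by exact_mod_cast hm
  have hv : 0 < (m : ℝ) * Y := by positivity
  have hΛ := I1.lam_nonneg hX hf
  have h1 : (j : ℝ) * (2 * m) ≤ l := by exact_mod_cast (mem_Ico.1 hl).1
  have h2 : (l : ℝ) ≤ j * (2 * m) + 2 * m := by exact_mod_cast (mem_Ico.1 hl).2.le
  have hi := ((I1.integ G hX hf hv).comp_mul_left' (R := 2 * m) (by positivity)).intervalIntegrable
    (a := j) (b := j + 1)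
  have h3 : ‖∫ x in (j : ℝ)..(j + 1), (f (hd l 1 (m * Y)) - f (hd (2 * m * x) 1 (m * Y)))‖ ≤
      2 / Y * Λ * maj X (hd l 1 (m * Y)) * |(j : ℝ) + 1 - j| := by
    refine intervalIntegral.norm_integral_le_of_norm_le_const fun x hx => ?_
    rw [Set.uIoc_of_le (by linarith)] at hx
    obtain ⟨h0, -, h4, -⟩ := G.1 l 1 (m * Y) one_pos hv
    have h5 : |(l : ℝ) - 2 * m * x| ≤ 2 * m := by
      rw [abs_le]
      constructor <;> nlinarith [hx.1, hx.2]
    have h6 : |hd l 1 (m * Y) - hd (2 * m * x) 1 (m * Y)| ≤ 2 / Y := by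
      refine (h4 _).trans ((div_le_div_of_nonneg_right h5 hv.le).trans (le_of_eq ?_))
      field_simp
    have h7 : 2 / Y ≤ 1 := by rw [div_le_one (by linarith)]; exact hY
    refine (f_le hf h0 (G.1 _ 1 _ one_pos hv).1 (h6.trans h7)).2.trans ?_
    exact mul_le_mul_of_nonneg_right (mul_le_mul_of_nonneg_right h6 hΛ) (maj_nonneg _ _)
  rw [intervalIntegral.integral_sub intervalIntegrable_const hi, intervalIntegral.integral_const]
    at h3
  simpa using h3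

lemma tc (hR : RhoStmt) (G : GeoStmt) (hX : 3 ≤ X) (hf : Adm X Λ f) {Y : ℝ} (hY : 2 ≤ Y) {m : ℕ}
    (hm : 1 ≤ m) : |sA f Y m - sB f Y m| ≤ 70 * Λ * log X * rho m * √(X / (m * Y)) := by
  have hm0 : (1 : ℝ) ≤ m := by exact_mod_cast hm
  have hv : 0 < (m : ℝ) * Y := by positivity
  have hΛ := I1.lam_nonneg hX hf
  have hL := I1.one_le_log hX
  rcases Nat.even_or_odd m with he | ho
  · rw [sA_even f Y he, sB, if_neg (Nat.not_odd_iff_even.2 he), sub_zero, abs_zero]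
    positivity
  set N := ⌈3 * X⌉₊ with hN
  have hN1 : 3 * X ≤ N := Nat.le_ceil _
  have hq : (1 : ℤ) ≤ 2 * m := by omega
  have hA := blocks hq N
    (fun l : ℤ => if Even l ∧ (m : ℤ) ∣ l ^ 2 + 1 then f (hd l 1 (m * Y)) else 0)
    (ite_bd fun l hl => (f_supp G hX hf hv hl).1.trans (by linarith))
  have hM := blocks hq N (fun l : ℤ => if (m : ℤ) ∣ l ^ 2 + 1 then maj X (hd l 1 (m * Y)) else 0)
    (ite_bd fun l hl => (maj_supp G hX hv hl).1)
  have hB : sB f Y m = ∑ j ∈ Icc (-(N : ℤ)) N,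
      rho m * ∫ x in (j : ℝ)..(j + 1), f (hd (2 * m * x) 1 (m * Y)) := by
    rw [sB, if_pos ho, ← mul_sum, ← II_blocks G hX hf hv (by linarith) (by linarith)]
    ring
  have hP := pk hR G hX (Y := Y) (by linarith) hm
  rw [sA_eq G f (by linarith) hm, hA, hB, ← sum_sub_distrib]
  calc _ ≤ ∑ j ∈ Icc (-(N : ℤ)) N, 2 / Y * Λ * ∑ l ∈ Ico (j * (2 * m)) (j * (2 * m) + 2 * m),
        (if (m : ℤ) ∣ l ^ 2 + 1 then maj X (hd l 1 (m * Y)) else 0) := by
        refine (abs_sum_le_sum_abs _ _).trans (sum_le_sum fun j _ => ?_)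
        rw [← hR.2.2.2.2.2.2.2.2.1 m (j * (2 * m)) ho, ← sum_filter, ← sum_filter,
          ← nsmul_eq_mul (card _), ← sum_const, ← sum_sub_distrib, mul_sum]
        refine (abs_sum_le_sum_abs _ _).trans ((sum_le_sum fun l hl =>
          blk_err G hX hf hY hm (mem_filter.1 hl).1).trans ?_)
        refine sum_le_sum_of_subset_of_nonneg (fun l hl => ?_) fun l _ _ => ?_
        · exact mem_filter.2 ⟨(mem_filter.1 hl).1, (mem_filter.1 hl).2.2⟩
        · have := maj_nonneg X (hd l 1 (m * Y))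
          positivity
    _ ≤ 2 / Y * Λ * (35 * log X * rho m * √(X * Y / m)) := by
        rw [← mul_sum, ← hM]
        exact mul_le_mul_of_nonneg_left hP (by positivity)
    _ = _ := by
        have : X * Y / m = Y ^ 2 * (X / (m * Y)) := by field_simp
        rw [this, Real.sqrt_mul (by positivity), Real.sqrt_sq (by linarith)]
        field_simp
        ring

end I2

open I2 in
theorem i2 (hR : RhoStmt) (G : GeoStmt) : I2Stmt := by
  refine ⟨1680, by norm_num, fun X hX => ⟨fun Y M hY => tot hR G hX hY M,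
    fun r r' _ _ h => ⟨maj_nonneg _ _, maj_le hX h⟩, fun Y k hY hk => ?_, fun Λ f hf =>
    ⟨fun r r' hr hr' h => f_le hf hr hr' h, fun Y k hY hk => ?_, fun Y m hY hm => ?_,
      fun Y hY => mu_swap G hX hf hY⟩⟩⟩
  · have hk0 : (0 : ℝ) < k := by exact_mod_cast hk
    refine (Set.finite_Icc (-(⌈3 * X⌉₊ : ℤ)) ⌈3 * X⌉₊).subset fun l hl => ?_
    refine abs_le.1 (fin_of_bd (g := fun l => maj X (hd (l / k) (1 / k) Y)) (fun l hl => ?_) hl)
    rw [scale G hY hk] at hl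
    exact (maj_supp G hX (by positivity) hl).1
  · have hk0 : (0 : ℝ) < k := by exact_mod_cast hk
    have hv : 0 < (k : ℝ) * Y := by positivity
    refine ⟨tsum_nonneg fun l => ?_, ?_, fun h => sA_even f Y h, fun h => ?_, fun l hl => ?_⟩
    · split_ifs
      · exact hf.nonneg _
      · exact le_rfl
    · have := I1.II_nonneg hf (k * Y)
      unfold sB
      split_ifs
      · positivity
      · exact le_rfl
    · have h1 : 2 * X < k * Y := (div_lt_iff₀ hY).1 (Nat.lt_of_floor_lt h)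
      constructor
      · rw [sA_eq G f hY hk]
        refine (tsum_congr fun l => ?_).trans tsum_zero
        split_ifs
        · by_contra h0
          linarith [(f_supp G hX hf hv h0).2.1]
        · rfl
      · rw [sB, I1.II_zero G hX hf hv (Or.inl h1)]
        simp
    · rw [scale G hY hk] at hl ⊢
      obtain ⟨h1, h2, h3⟩ := f_supp G hX hf hv hl
      exact ⟨h1, h2, h3, f_bd G hX hf hv _⟩
  · refine (tc hR G hX hf hY hm).trans ?_
    have hΛ := I1.lam_nonneg hX hf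
    have hL := I1.one_le_log hX
    gcongr
    norm_num

end Pool.Agent.Lib.MP_4b1228_nt.PP
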