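import Pool.Agent.Lib.MP_4b1228_nt.PP.I1

/-!
The weight of the integers and its sums over residue classes.
-/

open Finset Real Filter MeasureTheory

noncomputable section

namespace Pool.Agent.Lib.MP_4b1228_nt.PP

namespace I3

variable {X Λ : ℝ} {f : ℝ → ℝ}

lemma log_two_mul (hX : 3 ≤ X) : log (2 * X) ≤ 2 * log X := by
  have h := Real.log_le_log (x := 2 * X) (y := X ^ 2) (by linarith) (by nlinarith)
  rw [Real.log_pow] at h
  exact_mod_cast h

lemma s_supp (G : GeoStmt) (hX : 3 ≤ X) (hf : Adm X Λ f) {t s : ℝ}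
    (h : f (hd t 1 (exp s)) ≠ 0) : |s| ≤ 2 * log X ∧ |t| ≤ X := by
  obtain ⟨-, h2, h3⟩ := I1.supp' G hX hf (exp_pos s) h
  have h4 := I1.supp G hX hf (exp_pos s) h
  have h5 := log_two_mul hX
  have hX0 : 0 < X := by linarith
  refine ⟨abs_le.2 ⟨?_, ?_⟩, abs_le_of_sq_le_sq' (by nlinarith [sq_nonneg (exp s - X)]) hX0.le
    |> abs_le.2⟩
  · have h6 := Real.log_le_log one_pos (show 1 ≤ 2 * X * exp s by linarith)
    rw [Real.log_one, Real.log_mul (by positivity) (by positivity), Real.log_exp] at h6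
    linarith
  · have h6 := Real.log_le_log (exp_pos s) h2
    rw [Real.log_exp] at h6
    linarith

lemma wt_le (G : GeoStmt) (hX : 3 ≤ X) {v : ℝ} (hv : 0 < v) (t : ℝ) :
    √(X / cosh (hd t 1 v)) ≤ √(X / √(t ^ 2 + 1)) := by
  obtain ⟨-, hc, -⟩ := G.1 t 1 v one_pos hv
  have h0 : 0 < √(t ^ 2 + 1) := Real.sqrt_pos.2 (by positivity)
  have h1 : √(t ^ 2 + 1) ^ 2 = t ^ 2 + 1 := Real.sq_sqrt (by positivity)
  refine Real.sqrt_le_sqrt (div_le_div_of_nonneg_left (by linarith) h0 ?_)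
  rw [hc, le_div_iff₀ (by positivity)]
  nlinarith [sq_nonneg (√(t ^ 2 + 1) - v)]

lemma int_le {F : ℝ → ℝ} {B T : ℝ} (hT : 0 ≤ T) (h1 : ∀ s, |F s| ≤ B)
    (h2 : ∀ s, F s ≠ 0 → |s| < T) : |∫ s, F s| ≤ B * (2 * T) := by
  have hs : Function.support F ⊆ Set.Ioc (-T) T := by
    intro t ht
    have := abs_lt.1 (h2 t ht)
    exact ⟨this.1, this.2.le⟩
  rw [← intervalIntegral.integral_eq_integral_of_support_subset hs]
  have := intervalIntegral.norm_integral_le_of_norm_le_const (a := -T) (b := T) (f := F) (C := B)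
    fun s _ => h1 s
  rwa [show T - -T = 2 * T by ring, abs_of_nonneg (a := 2 * T) (by linarith)] at this

lemma cont2 (G : GeoStmt) (hf : Adm X Λ f) :
    Continuous fun p : ℝ × ℝ => f (hd p.1 1 (exp p.2)) :=
  (I1.cont_f hf).comp_continuous (G.2.2.1 1 one_pos) fun p =>
    (G.1 p.1 1 _ one_pos (exp_pos _)).1

lemma cs2 (G : GeoStmt) (hX : 3 ≤ X) (hf : Adm X Λ f) :
    HasCompactSupport fun p : ℝ × ℝ => f (hd p.1 1 (exp p.2)) := by
  refine HasCompactSupport.intro (K := Set.Icc (-X) X ×ˢ Set.Icc (-(2 * log X)) (2 * log X))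
    (isCompact_Icc.prod isCompact_Icc) fun p hp => ?_
  by_contra h
  obtain ⟨h1, h2⟩ := s_supp G hX hf h
  exact hp ⟨abs_le.1 h2, abs_le.1 h1⟩

lemma integ_s (G : GeoStmt) (hX : 3 ≤ X) (hf : Adm X Λ f) (t : ℝ) :
    Integrable fun s : ℝ => f (hd t 1 (exp s)) := by
  have hc : Continuous fun s : ℝ => f (hd t 1 (exp s)) :=
    (cont2 G hf).comp (f := fun s : ℝ => (t, s)) (by fun_prop)
  refine hc.integrable_of_hasCompactSupport ?_
  refine HasCompactSupport.intro (K := Set.Icc (-(2 * log X)) (2 * log X)) isCompact_Icc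
    fun s hs => ?_
  by_contra h
  exact hs (abs_le.1 (s_supp G hX hf h).1)

lemma shift {a : ℝ} (ha : 0 < a) (s : ℝ) : a * exp s = exp (s + log a) := by
  rw [Real.exp_add, Real.exp_log ha, mul_comm]

lemma integ_s' (G : GeoStmt) (hX : 3 ≤ X) (hf : Adm X Λ f) (t : ℝ) {a : ℝ} (ha : 0 < a) :
    (Integrable fun s : ℝ => f (hd t 1 (a * exp s))) ∧
      ∫ s : ℝ, f (hd t 1 (a * exp s)) = WW f t := by
  simp only [shift ha]
  exact ⟨(integ_s G hX hf t).comp_add_right (log a),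
    integral_add_right_eq_self (μ := volume) (fun s : ℝ => f (hd t 1 (exp s))) (log a)⟩

lemma WW_nonneg (hf : Adm X Λ f) (t : ℝ) : 0 ≤ WW f t :=
  integral_nonneg fun _ => hf.nonneg _

lemma WW_le (G : GeoStmt) (hX : 3 ≤ X) (hf : Adm X Λ f) (t : ℝ) :
    WW f t ≤ 6 * Λ * log X * √(X / √(t ^ 2 + 1)) := by
  have hΛ := I1.lam_nonneg hX hf
  have hL := I1.one_le_log hX
  have h := int_le (F := fun s => f (hd t 1 (exp s))) (B := Λ * √(X / √(t ^ 2 + 1)))
    (T := 3 * log X) (by linarith)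
    (fun s => by
      rw [abs_of_nonneg (hf.nonneg _)]
      exact (hf.bd _ (G.1 t 1 _ one_pos (exp_pos s)).1).trans
        (mul_le_mul_of_nonneg_left (wt_le G hX (exp_pos s) t) hΛ))
    (fun s hs => by linarith [(s_supp G hX hf hs).1])
  refine (le_abs_self _).trans (h.trans (le_of_eq ?_))
  ring

lemma WW_zero (G : GeoStmt) (hX : 3 ≤ X) (hf : Adm X Λ f) {t : ℝ} (h : X < |t|) :
    WW f t = 0 := by
  have : (fun s : ℝ => f (hd t 1 (exp s))) = fun _ => 0 := by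
    funext s
    by_contra h1
    linarith [(s_supp G hX hf h1).2]
  simp [WW, this]

lemma WW_neg (t : ℝ) : WW f (-t) = WW f t := by
  simp [WW, hd]

lemma WW_int (G : GeoStmt) (hX : 3 ≤ X) (hf : Adm X Λ f) :
    Integrable (WW f) ∧ ∫ t in Set.Ioi (0 : ℝ), WW f t = Itot f / 2 := by
  have hi : Integrable (fun p : ℝ × ℝ => f (hd p.1 1 (exp p.2))) (volume.prod volume) :=
    (cont2 G hf).integrable_of_hasCompactSupport (cs2 G hX hf)
  refine ⟨hi.integral_prod_left, ?_⟩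
  have h1 : ∫ t, WW f t = Itot f :=
    integral_integral_swap (f := fun t s : ℝ => f (hd t 1 (exp s))) hi
  have h2 := integral_comp_abs (f := WW f)
  have h3 : (fun x : ℝ => WW f |x|) = WW f := by
    funext x
    rcases abs_choice x with h | h <;> rw [h]
    exact WW_neg x
  rw [h3, h1] at h2
  linarith

lemma WW_lip (G : GeoStmt) (hX : 3 ≤ X) (hf : Adm X Λ f) {t a : ℝ} (ha : 0 < a)
    (h : |log a| ≤ 1) :
    |WW f t - WW f (a * t)| ≤ |log a| * (8 * Λ * log X * √(X / √(t ^ 2 + 1))) := by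
  have hΛ := I1.lam_nonneg hX hf
  have hL := I1.one_le_log hX
  obtain ⟨h1, h2⟩ := integ_s' G hX hf (a * t) ha
  have h3 : ∀ s, hd (a * t) 1 (a * exp s) = hd t a⁻¹ (exp s) := fun s => by
    have := (G.1 t a⁻¹ (exp s) (by positivity) (exp_pos s)).2.2.2.2.2 a ha
    rwa [mul_inv_cancel₀ ha.ne'] at this
  have h4 := int_le (F := fun s => f (hd t 1 (exp s)) - f (hd (a * t) 1 (a * exp s)))
    (B := |log a| * Λ * √(X / √(t ^ 2 + 1))) (T := 4 * log X) (by linarith)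
    (fun s => by
      obtain ⟨h0, -, -, -, h5, -⟩ := G.1 t 1 (exp s) one_pos (exp_pos s)
      have h6 := h5 a⁻¹ (by positivity)
      rw [one_div, inv_inv] at h6
      rw [h3]
      refine (hf.lip _ _ h0 (G.1 t a⁻¹ (exp s) (by positivity) (exp_pos s)).1
        (h6.trans h)).trans ?_
      exact mul_le_mul (mul_le_mul_of_nonneg_right h6 hΛ) (wt_le G hX (exp_pos s) t)
        (Real.sqrt_nonneg _) (by positivity))
    (fun s hs => by
      by_cases h5 : f (hd t 1 (exp s)) = 0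
      · have h6 : f (hd (a * t) 1 (exp (s + log a))) ≠ 0 := fun h7 => hs (by
          rw [h5, shift ha, h7, sub_self])
        have h7 := abs_le.1 (s_supp G hX hf h6).1
        have h8 := abs_le.1 h
        rw [abs_lt]
        constructor <;> linarith [h7.1, h7.2, h8.1, h8.2]
      · linarith [(s_supp G hX hf h5).1])
  rw [integral_sub (integ_s G hX hf t) h1, h2] at h4
  refine h4.trans (le_of_eq ?_)
  ring

lemma osc (G : GeoStmt) (hX : 3 ≤ X) (hf : Adm X Λ f) {L₀ q l t : ℝ} (hq : 1 ≤ q) (h0 : q ≤ L₀)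
    (h1 : L₀ ≤ l) (h2 : l ≤ t) (h3 : t < l + q) :
    |WW f l - WW f t| ≤ q * (32 * Λ * log X * √(X / L₀)) * (√(1 + t ^ 2))⁻¹ := by
  have hΛ := I1.lam_nonneg hX hf
  have hL := I1.one_le_log hX
  have hl : 0 < l := by linarith
  have ht : 0 < t := by linarith
  have h4 : 0 ≤ log (t / l) := Real.log_nonneg (by rw [le_div_iff₀ hl]; linarith)
  have h5 : log (t / l) ≤ q / l := by
    refine (Real.log_le_sub_one_of_pos (by positivity)).trans ?_
    rw [div_sub_one hl.ne']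
    exact div_le_div_of_nonneg_right (by linarith) hl.le
  have h6 : q / l ≤ 1 := by rw [div_le_one hl]; linarith
  have h7 := WW_lip G hX hf (t := l) (a := t / l) (by positivity)
    (by rw [abs_of_nonneg h4]; linarith)
  rw [div_mul_cancel₀ _ hl.ne', abs_of_nonneg h4] at h7
  have h8 : √(X / √(l ^ 2 + 1)) ≤ √(X / L₀) := by
    refine Real.sqrt_le_sqrt (div_le_div_of_nonneg_left (by linarith) (by linarith) ?_)
    exact h1.trans (Real.le_sqrt_of_sq_le (by linarith))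
  have h9 : √(1 + t ^ 2) ≤ 4 * l := by
    rw [Real.sqrt_le_left (by linarith)]
    nlinarith
  have h10 : 0 < √(1 + t ^ 2) := Real.sqrt_pos.2 (by positivity)
  have h11 : q / l ≤ 4 * q * (√(1 + t ^ 2))⁻¹ := by
    rw [← div_eq_mul_inv, div_le_div_iff₀ hl h10]
    nlinarith
  refine h7.trans ?_
  calc log (t / l) * (8 * Λ * log X * √(X / √(l ^ 2 + 1))) ≤
        4 * q * (√(1 + t ^ 2))⁻¹ * (8 * Λ * log X * √(X / L₀)) := by
        refine mul_le_mul (h5.trans h11) ?_ (by positivity) (by positivity)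
        exact mul_le_mul_of_nonneg_left h8 (by positivity)
    _ = _ := by ring

lemma core (G : GeoStmt) (hX : 3 ≤ X) (hf : Adm X Λ f) {L₀ : ℝ} {q : ℕ} {r : ℤ} (hq : 1 ≤ q)
    (h0 : (q : ℝ) ≤ L₀) (S : Finset ℤ)
    (hS : ∀ l ∈ S, (q : ℤ) ∣ l - r ∧ L₀ ≤ (l : ℝ) ∧ (l : ℝ) ≤ X) :
    |q * ∑ l ∈ S, WW f l - ∫ t in ⋃ l ∈ S, Set.Ico (l : ℝ) (l + q), WW f t| ≤
      q * (192 * Λ * log X ^ 2 * √(X / L₀)) := by
  have hΛ := I1.lam_nonneg hX hf
  have hL := I1.one_le_log hX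
  have hq' : (1 : ℝ) ≤ q := by exact_mod_cast hq
  have hW := (WW_int G hX hf).1
  set D := (q : ℝ) * (32 * Λ * log X * √(X / L₀)) with hD
  have hD0 : 0 ≤ D := by positivity
  have hc : Continuous fun t : ℝ => D * (√(1 + t ^ 2))⁻¹ := by
    refine (Continuous.inv₀ (by fun_prop) fun t => ?_).const_mul D
    exact (Real.sqrt_pos.2 (by positivity)).ne'
  have hE : ∀ l : ℤ, IntegrableOn (fun t : ℝ => D * (√(1 + t ^ 2))⁻¹) (Set.Ico (l : ℝ) (l + q)) :=
    fun l => (hc.integrableOn_Icc).mono_set Set.Ico_subset_Icc_self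
  have hdj : Set.Pairwise (S : Set ℤ)
      (Function.onFun Disjoint fun l : ℤ => Set.Ico (l : ℝ) (l + q)) := by
    intro l hl l' hl' hne
    have h1 : (q : ℤ) ∣ l - l' := by
      have := dvd_sub (hS l hl).1 (hS l' hl').1
      rwa [sub_sub_sub_cancel_right] at this
    have h2 : (q : ℤ) ≤ |l - l'| := Int.le_of_dvd (abs_pos.2 (sub_ne_zero.2 hne)) ((dvd_abs _ _).2 h1)
    have h3 : (q : ℝ) ≤ |(l : ℝ) - l'| := by exact_mod_cast h2
    refine Set.disjoint_left.2 fun t h4 h5 => ?_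
    rcases le_abs.1 h3 with h6 | h6 <;> linarith [h4.1, h4.2, h5.1, h5.2]
  have hm : MeasurableSet (⋃ l ∈ S, Set.Ico (l : ℝ) (l + q)) :=
    Finset.measurableSet_biUnion _ fun _ _ => measurableSet_Ico
  rw [integral_biUnion_finset S (fun _ _ => measurableSet_Ico) hdj fun _ _ => hW.integrableOn,
    mul_sum, ← sum_sub_distrib]
  refine (abs_sum_le_sum_abs _ _).trans ?_
  have h1 : ∀ l ∈ S, |q * WW f l - ∫ t in Set.Ico (l : ℝ) (l + q), WW f t| ≤
      ∫ t in Set.Ico (l : ℝ) (l + q), D * (√(1 + t ^ 2))⁻¹ := by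
    intro l hl
    have h2 : (q : ℝ) * WW f l = ∫ _ in Set.Ico (l : ℝ) (l + q), WW f l := by
      simp
    have h2' : IntegrableOn (fun _ : ℝ => WW f l) (Set.Ico (l : ℝ) (l + q)) :=
      integrableOn_const (by simp)
    rw [h2, ← integral_sub h2' hW.integrableOn]
    rw [← Real.norm_eq_abs]
    refine norm_integral_le_of_norm_le (hE l) ?_
    rw [ae_restrict_iff' measurableSet_Ico]
    exact Eventually.of_forall fun t ht => osc G hX hf hq' h0 (hS l hl).2.1 ht.1 ht.2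
  refine (sum_le_sum h1).trans ?_
  rw [← integral_biUnion_finset S (fun _ _ => measurableSet_Ico) hdj fun l _ => hE l,
    ← integral_indicator hm]
  have h3 := I1.int_le hX ((⋃ l ∈ S, Set.Ico (l : ℝ) (l + q)).indicator
    fun t : ℝ => D * (√(1 + t ^ 2))⁻¹) D hD0
    (fun t => by
      refine (abs_of_nonneg (Set.indicator_nonneg (fun _ _ => by positivity) t)).trans_le ?_
      exact Set.indicator_le_self' (fun _ _ => by positivity) t)
    (fun t ht => by
      have h4 := Set.mem_of_indicator_ne_zero ht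
      simp only [Set.mem_iUnion] at h4
      obtain ⟨l, hl, h5⟩ := h4
      obtain ⟨-, h6, h7⟩ := hS l hl
      rw [abs_lt]
      constructor <;> linarith [h5.1, h5.2])
  refine (le_abs_self _).trans (h3.trans (le_of_eq ?_))
  rw [hD]
  ring

lemma upper (G : GeoStmt) (hX : 3 ≤ X) (hf : Adm X Λ f) {L₀ : ℝ} {q : ℕ} {r : ℤ} (hq : 1 ≤ q)
    (h0 : (q : ℝ) ≤ L₀) (S : Finset ℤ) (hS : ∀ l ∈ S, (q : ℤ) ∣ l - r ∧ L₀ ≤ (l : ℝ)) :
    ∑ l ∈ S, WW f l ≤ Itot f / q / 2 + 192 * Λ * log X ^ 2 * √(X / L₀) := by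
  have hq' : (1 : ℝ) ≤ q := by exact_mod_cast hq
  obtain ⟨hW, hI⟩ := WW_int G hX hf
  have h1 : ∑ l ∈ S, WW f l = ∑ l ∈ S.filter fun l : ℤ => (l : ℝ) ≤ X, WW f (l : ℤ) := by
    refine (sum_filter_of_ne fun l _ h => ?_).symm
    by_contra h2
    exact h (WW_zero G hX hf ((not_le.1 h2).trans_le (le_abs_self _)))
  have h2 := core G hX hf (r := r) hq h0 (S.filter fun l : ℤ => (l : ℝ) ≤ X) fun l hl =>
    ⟨(hS l (mem_filter.1 hl).1).1, (hS l (mem_filter.1 hl).1).2, (mem_filter.1 hl).2⟩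
  have h3 : ∫ t in ⋃ l ∈ S.filter fun l : ℤ => (l : ℝ) ≤ X, Set.Ico (l : ℝ) (l + q), WW f t ≤
      ∫ t in Set.Ioi (0 : ℝ), WW f t := by
    refine setIntegral_mono_set hW.integrableOn
      (Eventually.of_forall fun t => WW_nonneg hf t) (LE.le.eventuallyLE ?_)
    intro t ht
    simp only [Set.mem_iUnion] at ht
    obtain ⟨l, hl, h5⟩ := ht
    have := (hS l (mem_filter.1 hl).1).2
    simp only [Set.mem_Ioi]
    linarith [h5.1]
  rw [← h1] at h2
  have h4 := (abs_le.1 h2).2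
  refine le_of_mul_le_mul_left ?_ (show (0 : ℝ) < q by linarith)
  have h5 : (q : ℝ) * (Itot f / q / 2) = Itot f / 2 := by field_simp
  rw [mul_add, h5]
  linarith

lemma near (G : GeoStmt) (hX : 3 ≤ X) (hf : Adm X Λ f) {T : ℝ} (hT : 0 ≤ T) :
    ∫ t in Set.Ioc (0 : ℝ) T, WW f t ≤ 24 * Λ * log X * √X * √(T + 1) := by
  have hΛ := I1.lam_nonneg hX hf
  have hL := I1.one_le_log hX
  rw [← intervalIntegral.integral_of_le hT]
  have hc : ContinuousOn (fun t : ℝ => 1 / (2 * √(t + 1))) (Set.uIcc 0 T) := by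
    rw [Set.uIcc_of_le hT]
    refine ContinuousOn.div continuousOn_const (by fun_prop) fun t ht => ?_
    have : 0 < √(t + 1) := Real.sqrt_pos.2 (by linarith [ht.1])
    positivity
  have h1 : ∫ t in (0 : ℝ)..T, 1 / (2 * √(t + 1)) = √(T + 1) - √(0 + 1) := by
    refine intervalIntegral.integral_eq_sub_of_hasDerivAt (f := fun t => √(t + 1))
      (fun t ht => ?_) hc.intervalIntegrable
    rw [Set.uIcc_of_le hT] at ht
    exact ((hasDerivAt_id t).add_const 1).sqrt (by simp only [id]; linarith [ht.1])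
  have h2 : ∫ t in (0 : ℝ)..T, WW f t ≤
      ∫ t in (0 : ℝ)..T, 24 * Λ * log X * √X * (1 / (2 * √(t + 1))) := by
    refine intervalIntegral.integral_mono_on hT (WW_int G hX hf).1.intervalIntegrable
      (hc.intervalIntegrable.const_mul _) fun t ht => (WW_le G hX hf t).trans ?_
    have h3 : 0 < t + 1 := by linarith [ht.1]
    have h4 : X / √(t ^ 2 + 1) ≤ 2 ^ 2 * X / (t + 1) := by
      have h5 : (t + 1) / 4 ≤ √(t ^ 2 + 1) :=
        Real.le_sqrt_of_sq_le (by nlinarith [sq_nonneg (t - 1)])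
      refine (div_le_div_of_nonneg_left (by linarith) (by positivity) h5).trans (le_of_eq ?_)
      field_simp
      norm_num
    have h6 := Real.sqrt_le_sqrt h4
    rw [Real.sqrt_div' _ h3.le, Real.sqrt_mul (by positivity), Real.sqrt_sq (by norm_num)] at h6
    refine (mul_le_mul_of_nonneg_left h6 (by positivity)).trans (le_of_eq ?_)
    have : 0 < √(t + 1) := Real.sqrt_pos.2 h3
    field_simp
    ring
  rw [intervalIntegral.integral_const_mul, h1] at h2
  refine h2.trans (mul_le_mul_of_nonneg_left ?_ (by positivity))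
  linarith [Real.sqrt_nonneg (0 + 1 : ℝ)]

lemma lower (G : GeoStmt) (hX : 3 ≤ X) (hf : Adm X Λ f) {L₀ : ℝ} (h0 : 2 ≤ L₀) :
    Itot f / 4 - 300 * Λ * log X ^ 2 * √(X * L₀) ≤
      ∑ l ∈ (Icc (-⌈X⌉) ⌈X⌉ : Finset ℤ) with (2 : ℤ) ∣ l ∧ L₀ ≤ (l : ℝ) ∧ (l : ℝ) ≤ X, WW f l := by
  have hΛ := I1.lam_nonneg hX hf
  have hL := I1.one_le_log hX
  have hX0 : 0 < X := by linarith
  obtain ⟨hW, hI⟩ := WW_int G hX hf
  set S := (Icc (-⌈X⌉) ⌈X⌉ : Finset ℤ).filter fun l : ℤ => (2 : ℤ) ∣ l ∧ L₀ ≤ (l : ℝ) ∧ (l : ℝ) ≤ X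
    with hS
  have h1 := core G hX hf (q := 2) (r := 0) (L₀ := L₀) (by norm_num) (by exact_mod_cast h0) S
    fun l hl => by simpa using (mem_filter.1 hl).2
  have h2 : ∫ t in Set.Ioi (0 : ℝ), WW f t =
      (∫ t in Set.Ioc (0 : ℝ) (L₀ + 2), WW f t) + ∫ t in Set.Ioi (L₀ + 2), WW f t := by
    rw [← setIntegral_union Set.Ioc_disjoint_Ioi_same measurableSet_Ioi hW.integrableOn
      hW.integrableOn, Set.Ioc_union_Ioi_eq_Ioi (by linarith)]
  have h3 : ∫ t in Set.Ioi (L₀ + 2), WW f t = ∫ t in Set.Ioc (L₀ + 2) X, WW f t := by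
    refine setIntegral_eq_of_subset_of_forall_sdiff_eq_zero measurableSet_Ioi
      Set.Ioc_subset_Ioi_self fun t ht => WW_zero G hX hf ?_
    refine lt_of_lt_of_le ?_ (le_abs_self _)
    by_contra h
    exact ht.2 ⟨ht.1, not_lt.1 h⟩
  have h4 : ∫ t in Set.Ioc (L₀ + 2) X, WW f t ≤
      ∫ t in ⋃ l ∈ S, Set.Ico (l : ℝ) (l + (2 : ℕ)), WW f t := by
    refine setIntegral_mono_set hW.integrableOn
      (Eventually.of_forall fun t => WW_nonneg hf t) (LE.le.eventuallyLE ?_)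
    intro t ht
    simp only [Set.mem_iUnion]
    have h5 := Int.floor_le (t / 2)
    have h6 := Int.lt_floor_add_one (t / 2)
    have h7 := Int.le_ceil X
    refine ⟨2 * ⌊t / 2⌋, mem_filter.2 ⟨mem_Icc.2 ⟨?_, ?_⟩, dvd_mul_right _ _, ?_, ?_⟩, ?_, ?_⟩
    · have : ((-⌈X⌉ : ℤ) : ℝ) ≤ ((2 * ⌊t / 2⌋ : ℤ) : ℝ) := by
        push_cast
        linarith [ht.1]
      exact_mod_cast this
    · have : ((2 * ⌊t / 2⌋ : ℤ) : ℝ) ≤ ((⌈X⌉ : ℤ) : ℝ) := by
        push_cast
        linarith [ht.2]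
      exact_mod_cast this
    all_goals
      push_cast
      linarith [ht.1, ht.2]
  have h5 := near G hX hf (T := L₀ + 2) (by linarith)
  have h6 : √X * √(L₀ + 2 + 1) ≤ 2 * √(X * L₀) := by
    rw [← Real.sqrt_mul hX0.le, show 2 * √(X * L₀) = √(2 ^ 2 * (X * L₀)) by
      rw [Real.sqrt_mul (x := 2 ^ 2) (by positivity), Real.sqrt_sq (by norm_num)]]
    exact Real.sqrt_le_sqrt (by nlinarith)
  have h7 : √(X / L₀) ≤ √(X * L₀) := by
    refine Real.sqrt_le_sqrt ?_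
    rw [div_le_iff₀ (by linarith)]
    nlinarith [mul_pos hX0 (show 0 < L₀ * L₀ - 1 by nlinarith)]
  have h8 : 24 * Λ * log X * √X * √(L₀ + 2 + 1) ≤ 48 * (Λ * log X ^ 2 * √(X * L₀)) := by
    calc 24 * Λ * log X * √X * √(L₀ + 2 + 1) = 24 * Λ * log X * (√X * √(L₀ + 2 + 1)) := by ring
      _ ≤ 24 * Λ * log X ^ 2 * (2 * √(X * L₀)) := by
        have : log X ≤ log X ^ 2 := by nlinarith
        gcongr
      _ = _ := by ring
  have h9 : Λ * log X ^ 2 * √(X / L₀) ≤ Λ * log X ^ 2 * √(X * L₀) := by gcongr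
  have h10 : 0 ≤ Λ * log X ^ 2 * √(X * L₀) := by positivity
  have h11 := (abs_le.1 h1).1
  push_cast at h11 h4
  nlinarith

lemma sum_neg (S : Finset ℤ) : ∑ l ∈ S.image (fun l => -l), WW f l = ∑ l ∈ S, WW f l := by
  rw [sum_image fun a _ b _ h => neg_injective h]
  refine sum_congr rfl fun l _ => ?_
  push_cast
  exact WW_neg _

lemma sA_eq (G : GeoStmt) (hX : 3 ≤ X) (hf : Adm X Λ f) {k : ℕ} (hk : 1 ≤ k) (s : ℝ) :
    sA f (exp s) k = ∑ l ∈ (Icc (-⌈X⌉) ⌈X⌉ : Finset ℤ) with Even l ∧ (k : ℤ) ∣ l ^ 2 + 1,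
      f (hd l 1 (k * exp s)) := by
  have hk' : (0 : ℝ) < k := by exact_mod_cast hk
  have h1 : ∀ l : ℤ, hd (l / k) (1 / k) (exp s) = hd l 1 (k * exp s) := fun l => by
    have := (G.1 (l / k) (1 / k) (exp s) (by positivity) (exp_pos s)).2.2.2.2.2 k hk'
    rw [← this]
    congr 1 <;> field_simp
  simp only [sA, h1]
  rw [sum_filter, tsum_eq_sum (s := Icc (-⌈X⌉) ⌈X⌉)]
  intro l hl
  split_ifs
  · by_contra h
    rw [shift hk'] at h
    have h2 := abs_le.1 (s_supp G hX hf h).2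
    have h3 := Int.le_ceil X
    refine hl (mem_Icc.2 ⟨?_, ?_⟩)
    · have : ((-⌈X⌉ : ℤ) : ℝ) ≤ l := by
        push_cast
        linarith [h2.1]
      exact_mod_cast this
    · have : (l : ℝ) ≤ ((⌈X⌉ : ℤ) : ℝ) := by linarith [h2.2]
      exact_mod_cast this
  · rfl

end I3

theorem i3 (G : GeoStmt) : I3Stmt := by
  refine ⟨600, by norm_num, fun X Λ f hX hf => ?_⟩
  have hΛ := I1.lam_nonneg hX hf
  have hL := I1.one_le_log hX
  refine ⟨fun t => ⟨I3.WW_nonneg hf t, (I3.WW_le G hX hf t).trans (by gcongr; norm_num),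
    I3.WW_zero G hX hf⟩, fun k hk => ?_, fun L₀ q r hq h0 _ => ?_, fun L₀ h0 _ => ?_⟩
  · have hk' : (0 : ℝ) < k := by exact_mod_cast hk
    simp only [I3.sA_eq G hX hf hk]
    refine ⟨integrable_finsetSum _ fun (l : ℤ) _ => (I3.integ_s' G hX hf l hk').1, ?_⟩
    rw [integral_finsetSum _ fun (l : ℤ) _ => (I3.integ_s' G hX hf l hk').1]
    exact sum_congr rfl fun l _ => (I3.integ_s' G hX hf l hk').2
  · set S := (Icc (-⌈X⌉) ⌈X⌉ : Finset ℤ).filter fun l : ℤ => (q : ℤ) ∣ l - r ∧ L₀ ≤ |(l : ℝ)|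
    rw [← sum_filter_add_sum_filter_not S fun l => 0 ≤ l,
      ← I3.sum_neg (S.filter fun l => ¬ 0 ≤ l)]
    have h1 := I3.upper G hX hf (r := r) hq h0 (S.filter fun l => 0 ≤ l) fun l hl => by
      obtain ⟨h1, h2⟩ := mem_filter.1 hl
      obtain ⟨-, h3, h4⟩ := mem_filter.1 h1
      rw [abs_of_nonneg (by exact_mod_cast h2)] at h4
      exact ⟨h3, h4⟩
    have h2 := I3.upper G hX hf (r := -r) hq h0
      ((S.filter fun l => ¬ 0 ≤ l).image fun l => -l) fun l hl => by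
      obtain ⟨l, hl', rfl⟩ := mem_image.1 hl
      obtain ⟨h1, h2⟩ := mem_filter.1 hl'
      obtain ⟨-, h3, h4⟩ := mem_filter.1 h1
      rw [abs_of_neg (by exact_mod_cast not_le.1 h2)] at h4
      refine ⟨?_, by push_cast; exact h4⟩
      rw [show -l - -r = -(l - r) by ring]
      exact (dvd_neg).2 h3
    have h3 : 0 ≤ Λ * log X ^ 2 * √(X / L₀) := by positivity
    nlinarith
  · have h1 := I3.lower G hX hf h0
    set P := (Icc (-⌈X⌉) ⌈X⌉ : Finset ℤ).filter
      fun l : ℤ => (2 : ℤ) ∣ l ∧ L₀ ≤ (l : ℝ) ∧ (l : ℝ) ≤ X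
    have h2 : Disjoint P (P.image fun l => -l) := by
      refine disjoint_left.2 fun l h3 h4 => ?_
      obtain ⟨l', h5, rfl⟩ := mem_image.1 h4
      have h6 := (mem_filter.1 h3).2.2.1
      have h7 := (mem_filter.1 h5).2.2.1
      push_cast at h6
      linarith
    have h3 : P ∪ (P.image fun l => -l) ⊆
        (Icc (-⌈X⌉) ⌈X⌉ : Finset ℤ).filter fun l : ℤ => (2 : ℤ) ∣ l ∧ L₀ ≤ |(l : ℝ)| := by
      refine union_subset (fun l hl => ?_) fun l hl => ?_
      · obtain ⟨h4, h5, h6, -⟩ := mem_filter.1 hl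
        exact mem_filter.2 ⟨h4, h5, h6.trans (le_abs_self _)⟩
      · obtain ⟨l, hl', rfl⟩ := mem_image.1 hl
        obtain ⟨h4, h5, h6, -⟩ := mem_filter.1 hl'
        rw [mem_Icc] at h4
        refine mem_filter.2 ⟨mem_Icc.2 ⟨by linarith [h4.2], by linarith [h4.1]⟩,
          (dvd_neg).2 h5, ?_⟩
        push_cast
        rw [abs_neg]
        exact h6.trans (le_abs_self _)
    have h4 := sum_le_sum_of_subset_of_nonneg (f := fun l : ℤ => WW f l) h3
      fun l _ _ => I3.WW_nonneg hf _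
    rw [sum_union h2, I3.sum_neg] at h4
    linarith

end Pool.Agent.Lib.MP_4b1228_nt.PP
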