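import Pool.Agent.Lib.MP_4b1228_nt.PP.St

/-! Basic properties of the convolution powers of the tent kernel. -/

open Real Filter UpperHalfPlane MeasureTheory Topology
open scoped MatrixGroups

noncomputable section

namespace Pool.Agent.Lib.MP_4b1228_nt.PP

namespace K1

theorem coe_ipt {Y : ℝ} (hY : 0 < Y) : (ipt Y : ℂ) = Y * Complex.I := by
  rw [ipt, ofComplex_apply_of_im_pos (by simpa using hY)]

theorem rot {x y Y : ℝ} (h : (Y - y) * (1 - y * Y) + x ^ 2 * Y = 0) :
    ∃ c s : ℝ, c ^ 2 + s ^ 2 = 1 ∧ x * c = (1 - y * Y) * s ∧ (Y - y) * c + x * Y * s = 0 := by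
  by_cases h0 : (1 - y * Y) ^ 2 + x ^ 2 = 0
  · have h1 : x = 0 := by nlinarith [sq_nonneg (1 - y * Y), sq_nonneg x]
    have h2 : 1 - y * Y = 0 := by nlinarith [sq_nonneg (1 - y * Y), sq_nonneg x]
    exact ⟨0, 1, by norm_num, by rw [h2]; simp, by rw [h1]; simp⟩
  · have h1 : 0 < (1 - y * Y) ^ 2 + x ^ 2 := lt_of_le_of_ne (by positivity) (Ne.symm h0)
    obtain ⟨n, hn, hn2⟩ : ∃ n : ℝ, n ≠ 0 ∧ n ^ 2 = (1 - y * Y) ^ 2 + x ^ 2 :=
      ⟨√_, (sqrt_pos.2 h1).ne', sq_sqrt h1.le⟩
    refine ⟨(1 - y * Y) / n, x / n, ?_, by ring, ?_⟩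
    · field_simp
      linear_combination -hn2
    · field_simp
      linear_combination h

/-- the group is transitive on pairs of points at a given distance -/
theorem two_point (z w : ℍ) :
    ∃ g : SL(2, ℝ), g • I = z ∧ g • ipt (exp (dist z w)) = w := by
  suffices H : ∀ w : ℍ, ∃ g : SL(2, ℝ), g • I = I ∧ g • ipt (exp (dist I w)) = w by
    obtain ⟨g, h1, h2⟩ := H (z.toSL2R⁻¹ • w)
    have e : dist I (z.toSL2R⁻¹ • w) = dist z w := by
      rw [← dist_smul z.toSL2R, smul_inv_smul, toSL2R_smul_I]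
    exact ⟨z.toSL2R * g, by rw [mul_smul, h1, toSL2R_smul_I],
      by rw [mul_smul, ← e, h2, smul_inv_smul]⟩
  intro w
  have hc := cosh_dist' I w
  rw [cosh_eq, exp_neg] at hc
  have hY := exp_pos (dist I w)
  generalize exp (dist I w) = Y at hc hY
  have hy := w.im_pos
  simp only [I_re, I_im] at hc
  field_simp at hc
  obtain ⟨c, s, h1, h2, h3⟩ := rot (x := w.re) (y := w.im) (Y := Y) (by linear_combination -hc)
  let g : SL(2, ℝ) := ⟨!![c, s; -s, c], by rw [Matrix.det_fin_two_of]; linear_combination h1⟩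
  refine ⟨g, ?_, ?_⟩
  · ext
    rw [coe_specialLinearGroup_apply, div_eq_iff (mod_cast denom_ne_zero g I)]
    simp [g, Complex.ext_iff]
  · ext
    rw [coe_specialLinearGroup_apply, div_eq_iff (mod_cast denom_ne_zero g (ipt Y)), coe_ipt hY]
    simp only [g, Complex.ext_iff]
    simp
    constructor
    · linear_combination -h2
    · linear_combination h3

theorem int_smul (g : SL(2, ℝ)) (f : ℍ → ℝ) : ∫ v : ℍ, f (g • v) = ∫ v : ℍ, f v :=
  integral_smul_eq_self (G := GL (Fin 2) ℝ) f (g := Matrix.SpecialLinearGroup.mapGL ℝ g)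

theorem smulZ (g : SL(2, ℤ)) (z : ℍ) :
    g • z = (Matrix.SpecialLinearGroup.map (Int.castRingHom ℝ) g : SL(2, ℝ)) • z := by
  ext
  rw [coe_specialLinearGroup_apply, coe_specialLinearGroup_apply]
  simp

theorem dist_smulZ (g : SL(2, ℤ)) (z w : ℍ) : dist (g • z) (g • w) = dist z w := by
  rw [smulZ, smulZ, dist_smul]

theorem int_smulZ (g : SL(2, ℤ)) (f : ℍ → ℝ) : ∫ v : ℍ, f (g • v) = ∫ v : ℍ, f v := by
  simp only [smulZ]
  exact int_smul _ f

/-- continuous invariant kernels with bounded range -/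
structure Good (r : ℝ) (k : ℍ → ℍ → ℝ) : Prop where
  cont : Continuous fun p : ℍ × ℍ => k p.1 p.2
  nonneg : ∀ z w, 0 ≤ k z w
  supp : ∀ z w, r < dist z w → k z w = 0
  inv : ∀ (g : SL(2, ℝ)) (z w : ℍ), k (g • z) (g • w) = k z w

theorem Good.radial {r : ℝ} {k : ℍ → ℍ → ℝ} (h : Good r k) (z w : ℍ) :
    k z w = k I (ipt (exp (dist z w))) := by
  obtain ⟨g, h1, h2⟩ := two_point z w
  rw [← h.inv g I, h1, h2]

theorem Good.symm {r : ℝ} {k : ℍ → ℍ → ℝ} (h : Good r k) (z w : ℍ) : k z w = k w z := by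
  rw [h.radial z w, h.radial w z, dist_comm]

theorem good_tent (R : ℝ) : Good R fun z w => tent R (dist z w) where
  cont := by unfold tent; fun_prop
  nonneg _ _ := le_max_left _ _
  supp z w h := max_eq_left ((min_le_right _ _).trans (by linarith))
  inv g z w := by rw [dist_smul]

theorem Good.conv {r s : ℝ} {a b : ℍ → ℍ → ℝ} (ha : Good r a) (hb : Good s b) :
    Good (r + s) fun z w => ∫ v : ℍ, a z v * b v w where
  cont := by
    refine continuous_iff_continuousAt.2 fun p => ?_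
    have h1 : Continuous fun q : ℍ × ℍ => ∫ v in Metric.closedBall p.1 (r + 1), a q.1 v * b v q.2 :=
      continuous_parametric_integral_of_continuous
        ((ha.cont.comp (f := fun x : (ℍ × ℍ) × ℍ => (x.1.1, x.2)) (by fun_prop)).mul
          (hb.cont.comp (f := fun x : (ℍ × ℍ) × ℍ => (x.2, x.1.2)) (by fun_prop)))
        (isCompact_closedBall _ _)
    refine h1.continuousAt.congr ?_
    have h2 : ∀ᶠ q : ℍ × ℍ in 𝓝 p, dist q.1 p.1 < 1 :=
      continuous_fst.continuousAt.eventually (Metric.ball_mem_nhds p.1 one_pos)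
    filter_upwards [h2] with q hq
    refine setIntegral_eq_integral_of_forall_compl_eq_zero fun v hv => ?_
    rw [Metric.mem_closedBall, not_le] at hv
    have := dist_triangle v q.1 p.1
    rw [ha.supp _ _ (by rw [dist_comm]; linarith), zero_mul]
  nonneg z w := integral_nonneg fun v => mul_nonneg (ha.nonneg _ _) (hb.nonneg _ _)
  supp z w h := by
    refine integral_eq_zero_of_ae (Eventually.of_forall fun v => ?_)
    by_cases h1 : r < dist z v
    · simp [ha.supp _ _ h1]
    · have := dist_triangle z v w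
      simp [hb.supp v w (by linarith)]
  inv g z w := by
    rw [← int_smul g]
    simp only [ha.inv, hb.inv]

theorem Good.assoc {r s t : ℝ} {a b c : ℍ → ℍ → ℝ} (ha : Good r a) (hb : Good s b)
    (hc : Good t c) (z w : ℍ) :
    ∫ u : ℍ, a z u * ∫ v : ℍ, b u v * c v w = ∫ v : ℍ, (∫ u : ℍ, a z u * b u v) * c v w := by
  simp only [← integral_const_mul, ← integral_mul_const, mul_assoc]
  refine integral_integral_swap (f := fun u v => a z u * (b u v * c v w)) ?_
  refine Continuous.integrable_of_hasCompactSupport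
    ((ha.cont.comp (f := fun x : ℍ × ℍ => (z, x.1)) (by fun_prop)).mul
      (hb.cont.mul (hc.cont.comp (f := fun x : ℍ × ℍ => (x.2, w)) (by fun_prop)))) ?_
  refine HasCompactSupport.intro
    ((isCompact_closedBall z r).prod (isCompact_closedBall w t)) fun x hx => ?_
  simp only [Set.mem_prod, Metric.mem_closedBall, not_and_or, not_le] at hx
  rcases hx with h | h
  · simp [Function.uncurry, ha.supp z x.1 (by rwa [dist_comm])]
  · simp [Function.uncurry, hc.supp _ _ h]

theorem good_ker (R : ℝ) : ∀ j : ℕ, Good ((j + 1 : ℕ) * R) (ker R j)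
  | 0 => by
    rw [zero_add, Nat.cast_one, one_mul]
    exact good_tent R
  | j + 1 => by
    have := (good_tent R).conv (good_ker R j)
    rwa [show R + ((j + 1 : ℕ) : ℝ) * R = ((j + 1 + 1 : ℕ) : ℝ) * R by push_cast; ring] at this

theorem ker_add (R : ℝ) (j : ℕ) : ∀ (i : ℕ) (z w : ℍ),
    ker R (i + j + 1) z w = ∫ v : ℍ, ker R i z v * ker R j v w
  | 0, z, w => by simp [ker]
  | i + 1, z, w => by
    rw [show i + 1 + j + 1 = (i + j + 1) + 1 by ring, ker]
    simp only [ker_add R j i]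
    exact (good_tent R).assoc (good_ker R i) (good_ker R j) z w

theorem good_kr (R : ℝ) {j : ℕ} (hj : 1 ≤ j) : Good (j * R) (kr R j) := by
  have := good_ker R (j - 1)
  rwa [Nat.sub_add_cancel hj] at this

end K1

theorem k1 : K1Stmt := by
  intro R j _ hj
  have h := K1.good_kr R hj
  refine ⟨h.cont, h.nonneg, h.symm, h.supp, h.inv, fun g z w => ?_, fun i hi z w => ?_, h.radial⟩
  · rw [K1.smulZ, K1.smulZ, h.inv]
  · rw [kr, show i + j - 1 = (i - 1) + (j - 1) + 1 by omega, K1.ker_add]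
    rfl

end Pool.Agent.Lib.MP_4b1228_nt.PP
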