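import Pool.Agent.Lib.MP_4b1228_nt.PP.K10a
import Pool.Agent.Lib.MP_9177b7_ag.EQ.Div

/-!
Type II information from the engine: summation over the moduli.
-/

open Finset Real Filter UpperHalfPlane MeasureTheory
open scoped MatrixGroups Classical

noncomputable section

namespace Pool.Agent.Lib.MP_4b1228_nt.PP

namespace K10

lemma mj_nonneg (U r : ℝ) : 0 ≤ mj U r := by
  unfold mj; split_ifs <;> positivity

lemma cosh_le_exp {r : ℝ} (h : 0 ≤ r) : cosh r ≤ exp r := by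
  have : exp (-r) ≤ exp r := exp_le_exp.mpr (by linarith)
  rw [cosh_eq]; linarith

/-- The kernel is bounded by the truncated majorant. -/
lemma kr_le (k1 : K1Stmt) {R Λ : ℝ} {j : ℕ} (hR : 1 ≤ R) (hj : 1 ≤ j) (hΛ : 0 ≤ Λ)
    (hf : Adm (exp ((2 * j : ℕ) * R)) Λ (prof R (2 * j))) (z w : ℍ) :
    kr R (2 * j) z w ≤ Λ * exp (j * R) * mj (exp (j * R) ^ 2) (dist z w) := by
  rw [(k1 R (2 * j) hR (by omega)).2.2.2.2.2.2.2]
  have e : exp ((2 * j : ℕ) * R) = exp (j * R) ^ 2 := by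
    rw [← exp_nat_mul]; congr 1; push_cast; ring
  by_cases h : log (exp ((2 * j : ℕ) * R)) < dist z w
  · rw [hf.supp _ h]
    exact mul_nonneg (by positivity) (mj_nonneg _ _)
  · rw [log_exp, not_lt] at h
    have h1 : cosh (dist z w) ≤ exp (j * R) ^ 2 :=
      (cosh_le_exp dist_nonneg).trans (by rw [← e]; exact exp_le_exp.mpr h)
    refine (hf.bd _ dist_nonneg).trans (le_of_eq ?_)
    unfold mj
    rw [if_pos h1, e, sqrt_div (by positivity), sqrt_sq (exp_pos _).le]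
    ring

/-- A finite set outside which the majorant vanishes. -/
lemma exists_T (geo : GeoStmt) (z : ℍ) (U : ℝ) : ∃ T : Finset SL(2, ℤ),
    ∀ γ ∉ T, ∀ U' ≤ U, mj U' (dist z (γ • z)) = 0 := by
  refine ⟨(geo.2.2.2.2.2.2.2.1 z z (2 * U)).toFinset, fun γ hγ U' hU => ?_⟩
  simp only [Set.Finite.mem_toFinset, Set.mem_ofPred_eq, not_le] at hγ
  unfold mj
  rw [if_neg]
  intro h
  have h1 := add_one_le_exp (dist z (γ • z))
  have h2 := exp_pos (-dist z (γ • z))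
  rw [cosh_eq] at h
  linarith

lemma cnt_le {B Q : ℝ} (hτ : ∀ m : ℕ, 1 ≤ m → (m : ℝ) ≤ B → (#m.divisors : ℝ) ≤ Q) (hQ : 0 ≤ Q)
    (N : ℕ) (s : Finset ℕ) (hs : s ⊆ Icc 1 N) (v : ℤ) (hv : |(v : ℝ)| ≤ B) :
    ∑ q ∈ s, (if (q : ℤ) ∣ v then (1 : ℝ) else 0) ≤ Q + N * (if v = 0 then 1 else 0) := by
  rw [sum_boole]
  by_cases h : v = 0
  · rw [if_pos h]
    have : #(s.filter fun q : ℕ => (q : ℤ) ∣ v) ≤ N := by
      calc _ ≤ s.card := card_filter_le _ _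
        _ ≤ #(Icc 1 N) := card_le_card hs
        _ = N := by simp
    have : (#(s.filter fun q : ℕ => (q : ℤ) ∣ v) : ℝ) ≤ N := by exact_mod_cast this
    linarith
  · rw [if_neg h]
    have h1 : #(s.filter fun q : ℕ => (q : ℤ) ∣ v) ≤ #v.natAbs.divisors := by
      refine card_le_card fun q hq => ?_
      rw [Nat.mem_divisors]
      exact ⟨Int.natCast_dvd.mp (mem_filter.mp hq).2, Int.natAbs_ne_zero.mpr h⟩
    have h2 : (#(s.filter fun q : ℕ => (q : ℤ) ∣ v) : ℝ) ≤ #v.natAbs.divisors := by exact_mod_cast h1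
    have h3 := hτ v.natAbs (Nat.one_le_iff_ne_zero.mpr (Int.natAbs_ne_zero.mpr h)) (by
      rw [Nat.cast_natAbs]; push_cast; exact hv)
    linarith

/-- The sum of the first factors. -/
lemma sumA (hρ : RhoStmt) (geo : GeoStmt) {X Q S : ℝ} {N : ℕ} (hX : 3 ≤ X) (hQ : 1 ≤ Q)
    (hS : 1 ≤ S) (hSX : S ≤ X) (hNS : (N : ℝ) ^ 2 ≤ S) (hNX : (N : ℝ) ≤ X) (hN : 1 ≤ N)
    (hτ : ∀ m : ℕ, 1 ≤ m → (m : ℝ) ≤ X ^ 6 → (#m.divisors : ℝ) ≤ Q)
    (hlog : (1 + log X) ^ 2 ≤ Q) (s : Finset ℕ) (hs : s ⊆ Icc 1 N) (hsq : ∀ q ∈ s, Squarefree q)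
    (T : Finset SL(2, ℤ)) (κ : SL(2, ℤ) → ℝ) (hκ : ∀ γ, κ γ ≤ Q * S * mj (S ^ 2) (dist I (γ • I)))
    (h1 : ∑ γ ∈ T, mj (S ^ 2) (dist I (γ • I)) ≤ Q * (S + 2))
    (h2 : ∑ γ ∈ T, mj 1 (dist I (γ • I)) ≤ Q * 3) :
    ∑ γ ∈ T, (∑ q ∈ s, aa q γ) ^ 2 * κ γ ≤ 102 * Q ^ 6 * S ^ 2 := by
  have hX6 : X ≤ X ^ 6 := le_self_pow₀ (by linarith) (by norm_num)
  have hN0 : (1 : ℝ) ≤ N := by exact_mod_cast hN
  have hr : ∀ q ∈ s, (rho q : ℝ) ≤ Q := by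
    intro q hq
    obtain ⟨a, b⟩ := mem_Icc.mp (hs hq)
    have c : (rho q : ℝ) ≤ #q.divisors := by exact_mod_cast hρ.2.2.2.2.2.2.1 q
    have d : (q : ℝ) ≤ N := by exact_mod_cast b
    exact c.trans (hτ q a (by linarith))
  have hg : ∑ q ∈ s, gg q ≤ Q := by
    calc _ ≤ ∑ q ∈ s, (rho q : ℝ) / q :=
          sum_le_sum fun q hq => (hρ.2.2.2.2.2.2.2.2.2.1 q (hsq q hq)).2.1
      _ ≤ ∑ q ∈ (Icc 1 N : Finset ℕ), (rho q : ℝ) / q :=
          sum_le_sum_of_subset_of_nonneg hs fun q _ _ => by positivity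
      _ ≤ (1 + log N) ^ 2 := (hρ.2.2.2.2.2.2.2.2.2.2.1 N).1
      _ ≤ (1 + log X) ^ 2 := by
          have := log_nonneg hN0
          have := log_le_log (by linarith) hNX
          gcongr
      _ ≤ Q := hlog
  have main : ∀ γ : SL(2, ℤ), (∑ q ∈ s, aa q γ) ^ 2 * κ γ ≤
      Q ^ 3 * S * (32 * Q ^ 2 * mj (S ^ 2) (dist I (γ • I)) +
        2 * N ^ 2 * mj 1 (dist I (γ • I))) := by
    intro γ
    have m1 := mj_nonneg (S ^ 2) (dist I (γ • I))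
    have m2 := mj_nonneg 1 (dist I (γ • I))
    by_cases hc : cosh (dist I (γ • I)) ≤ S ^ 2
    swap
    · have z1 : mj (S ^ 2) (dist I (γ • I)) = 0 := by unfold mj; rw [if_neg hc]
      have := hκ γ
      rw [z1, mul_zero] at this
      calc _ ≤ 0 := mul_nonpos_of_nonneg_of_nonpos (sq_nonneg _) this
        _ ≤ _ := by positivity
    have hf : (fro γ : ℝ) = 2 * cosh (dist I (γ • I)) := by
      have := (geo.2.2.2.2.2.1 1 γ one_pos).2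
      rw [geo.2.2.2.2.1] at this
      rw [this]; unfold fro; push_cast; ring
    have c1 := one_le_cosh (dist I (γ • I))
    have hv : |((fro γ ^ 2 - 4 : ℤ) : ℝ)| ≤ X ^ 6 := by
      push_cast
      rw [hf, abs_of_nonneg (by nlinarith)]
      have a1 : cosh (dist I (γ • I)) ≤ X ^ 2 := hc.trans (by gcongr)
      have a2 : cosh (dist I (γ • I)) ^ 2 ≤ (X ^ 2) ^ 2 := by gcongr
      have a3 : 4 * X ^ 4 ≤ X ^ 6 := by
        have : X ^ 6 = X ^ 2 * X ^ 4 := by ring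
        rw [this]; gcongr; nlinarith
      nlinarith
    have hcnt := cnt_le hτ (by linarith) N s hs _ hv
    have ha : ∑ q ∈ s, aa q γ ≤ Q * (4 * Q + N * (if fro γ ^ 2 - 4 = 0 then 1 else 0)) := by
      calc _ ≤ ∑ q ∈ s, Q * ((if (q : ℤ) ∣ fro γ ^ 2 - 4 then (1 : ℝ) else 0) + 3 * gg q) := by
            refine sum_le_sum fun q hq => ?_
            unfold aa
            have := hr q hq
            have := mul_le_mul_of_nonneg_right (hr q hq) (gg_nonneg q)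
            split_ifs <;> linarith
        _ = Q * (∑ q ∈ s, (if (q : ℤ) ∣ fro γ ^ 2 - 4 then (1 : ℝ) else 0) +
              3 * ∑ q ∈ s, gg q) := by rw [← mul_sum, sum_add_distrib, ← mul_sum]
        _ ≤ _ := by gcongr ?_ * ?_; linarith
    have ha0 : 0 ≤ ∑ q ∈ s, aa q γ := sum_nonneg fun q _ => aa_nonneg _ _
    calc _ ≤ (∑ q ∈ s, aa q γ) ^ 2 * (Q * S * mj (S ^ 2) (dist I (γ • I))) :=
          mul_le_mul_of_nonneg_left (hκ γ) (sq_nonneg _)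
      _ ≤ (Q * (4 * Q + N * (if fro γ ^ 2 - 4 = 0 then 1 else 0))) ^ 2 *
            (Q * S * mj (S ^ 2) (dist I (γ • I))) := by gcongr
      _ = Q ^ 3 * S * ((4 * Q + N * (if fro γ ^ 2 - 4 = 0 then 1 else 0)) ^ 2 *
            mj (S ^ 2) (dist I (γ • I))) := by ring
      _ ≤ _ := by
          gcongr ?_ * ?_
          split_ifs with h0
          · have h4 : cosh (dist I (γ • I)) = 1 := by
              have : ((fro γ ^ 2 - 4 : ℤ) : ℝ) = 0 := by exact_mod_cast h0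
              push_cast at this
              rw [hf] at this
              nlinarith
            have e1 : mj (S ^ 2) (dist I (γ • I)) = 1 := by
              unfold mj; rw [if_pos hc, h4]; simp
            have e2 : mj 1 (dist I (γ • I)) = 1 := by
              unfold mj; rw [h4]; simp
            rw [e1, e2]
            nlinarith [sq_nonneg (4 * Q - N)]
          · have : 0 ≤ Q ^ 2 * mj (S ^ 2) (dist I (γ • I)) := by positivity
            have : 0 ≤ (N : ℝ) ^ 2 * mj 1 (dist I (γ • I)) := by positivity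
            nlinarith
  calc _ ≤ ∑ γ ∈ T, Q ^ 3 * S * (32 * Q ^ 2 * mj (S ^ 2) (dist I (γ • I)) +
        2 * N ^ 2 * mj 1 (dist I (γ • I))) := sum_le_sum fun γ _ => main γ
    _ = Q ^ 3 * S * (32 * Q ^ 2 * ∑ γ ∈ T, mj (S ^ 2) (dist I (γ • I)) +
        2 * N ^ 2 * ∑ γ ∈ T, mj 1 (dist I (γ • I))) := by
          rw [← mul_sum, sum_add_distrib, ← mul_sum, ← mul_sum]
    _ ≤ Q ^ 3 * S * (32 * Q ^ 2 * (Q * (S + 2 * S)) + 2 * S * (Q ^ 3 * 3)) := by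
          have q3 : Q ≤ Q ^ 3 := le_self_pow₀ hQ (by norm_num)
          gcongr
          · exact h1.trans (by gcongr; linarith)
          · exact sum_nonneg fun γ _ => mj_nonneg _ _
          · exact h2.trans (by linarith)
    _ = _ := by ring

/-- The sum of the second factors. -/
lemma sumB (geo : GeoStmt) {X Q S Y : ℝ} {N J : ℕ} (hX : 3 ≤ X) (hQ : 1 ≤ Q)
    (hSX : S ≤ X) (hY : 1 ≤ Y) (hJ : (J : ℝ) ≤ Y) (hYN : Y ≤ N) (hNS : (N : ℝ) ^ 2 / Y ≤ S)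
    (hτ : ∀ m : ℕ, 1 ≤ m → (m : ℝ) ≤ X ^ 6 → (#m.divisors : ℝ) ≤ Q)
    (s : Finset ℕ) (hs : s ⊆ Icc 1 N) (T : Finset SL(2, ℤ)) (κ : SL(2, ℤ) → ℝ)
    (hκ : ∀ γ, κ γ ≤ Q * S * mj (S ^ 2) (dist (ipt Y) (γ • ipt Y)))
    (h1 : ∑ γ ∈ T, mj (S ^ 2) (dist (ipt Y) (γ • ipt Y)) ≤ Q * (S + Y + 1 / Y))
    (h2 : ∑ γ ∈ T, mj (S ^ 2) (dist (ipt Y) (γ • ipt Y)) *
      (#{p ∈ range J ×ˢ range J | dl γ p.1 p.2 = 0} : ℝ) ^ 2 ≤ Q * J ^ 3) :
    ∑ γ ∈ T, (∑ q ∈ s, bb J q γ) ^ 2 * κ γ ≤ 8 * Q ^ 4 * Y ^ 4 * S ^ 2 := by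
  have hY0 : 0 < Y := by linarith
  rw [div_le_iff₀ hY0] at hNS
  have hYS : Y ≤ S := by
    have : Y * Y ≤ S * Y := by nlinarith
    exact le_of_mul_le_mul_right this hY0
  have hS : 1 ≤ S := hY.trans hYS
  have hJ0 : (0 : ℝ) ≤ J := Nat.cast_nonneg _
  have main : ∀ γ : SL(2, ℤ), (∑ q ∈ s, bb J q γ) ^ 2 * κ γ ≤
      Q * S * (2 * J ^ 4 * Q ^ 2 * mj (S ^ 2) (dist (ipt Y) (γ • ipt Y)) +
        2 * N ^ 2 * (mj (S ^ 2) (dist (ipt Y) (γ • ipt Y)) *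
          (#{p ∈ range J ×ˢ range J | dl γ p.1 p.2 = 0} : ℝ) ^ 2)) := by
    intro γ
    have m1 := mj_nonneg (S ^ 2) (dist (ipt Y) (γ • ipt Y))
    by_cases hc : cosh (dist (ipt Y) (γ • ipt Y)) ≤ S ^ 2
    swap
    · have z1 : mj (S ^ 2) (dist (ipt Y) (γ • ipt Y)) = 0 := by unfold mj; rw [if_neg hc]
      have := hκ γ
      rw [z1, mul_zero] at this
      calc _ ≤ 0 := mul_nonpos_of_nonneg_of_nonpos (sq_nonneg _) this
        _ ≤ _ := by positivity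
    have hf := (geo.2.2.2.2.2.1 Y γ hY0).2
    have hX2 : 2 * cosh (dist (ipt Y) (γ • ipt Y)) ≤ (2 * X) ^ 2 := by
      have : S ^ 2 ≤ X ^ 2 := by gcongr
      nlinarith
    rw [hf] at hX2
    have p1 : 0 ≤ (γ 0 0 : ℝ) ^ 2 := sq_nonneg _
    have p2 : 0 ≤ (γ 1 1 : ℝ) ^ 2 := sq_nonneg _
    have p3 : 0 ≤ (γ 0 1 : ℝ) ^ 2 / Y ^ 2 := by positivity
    have p4 : 0 ≤ (γ 1 0 : ℝ) ^ 2 * Y ^ 2 := by positivity
    have hYX : Y ≤ X := hYS.trans hSX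
    have b1 : |(γ 0 0 : ℝ)| ≤ 2 * X := abs_le_of_sq_le_sq (by linarith) (by linarith)
    have b2 : |(γ 1 1 : ℝ)| ≤ 2 * X := abs_le_of_sq_le_sq (by linarith) (by linarith)
    have b3 : |(γ 0 1 : ℝ)| ≤ 2 * X * X := by
      refine abs_le_of_sq_le_sq ?_ (by positivity)
      have : (γ 0 1 : ℝ) ^ 2 / Y ^ 2 ≤ (2 * X) ^ 2 := by linarith
      rw [div_le_iff₀ (by positivity)] at this
      calc _ ≤ (2 * X) ^ 2 * Y ^ 2 := this
        _ ≤ (2 * X) ^ 2 * X ^ 2 := by gcongr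
        _ = _ := by ring
    have b4 : |(γ 1 0 : ℝ)| ≤ 2 * X := by
      refine abs_le_of_sq_le_sq ?_ (by positivity)
      have : (γ 1 0 : ℝ) ^ 2 * 1 ≤ (γ 1 0 : ℝ) ^ 2 * Y ^ 2 := by gcongr; nlinarith
      linarith
    have hv : ∀ i ∈ range J, ∀ i' ∈ range J, |((dl γ i i' : ℤ) : ℝ)| ≤ X ^ 6 := by
      intro i hi i' hi'
      have c1 : (i : ℝ) ≤ X := by
        have : (i : ℝ) ≤ J := by exact_mod_cast (mem_range.mp hi).le
        linarith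
      have c2 : (i' : ℝ) ≤ X := by
        have : (i' : ℝ) ≤ J := by exact_mod_cast (mem_range.mp hi').le
        linarith
      unfold dl
      push_cast
      calc _ ≤ (|(γ 0 0 : ℝ)| + 2 * i * |(γ 1 0 : ℝ)|) * (2 * i') +
            (|(γ 0 1 : ℝ)| + 2 * i * |(γ 1 1 : ℝ)|) := by
            refine (abs_sub _ _).trans (add_le_add ?_ ?_)
            · rw [abs_mul, abs_of_nonneg (by positivity : (0 : ℝ) ≤ 2 * i')]
              gcongr
              refine (abs_add_le _ _).trans (le_of_eq ?_)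
              rw [abs_mul, abs_of_nonneg (by positivity : (0 : ℝ) ≤ 2 * i)]
            · refine (abs_add_le _ _).trans (le_of_eq ?_)
              rw [abs_mul, abs_of_nonneg (by positivity : (0 : ℝ) ≤ 2 * i)]
        _ ≤ (2 * X + 2 * X * (2 * X)) * (2 * X) + (2 * X * X + 2 * X * (2 * X)) := by gcongr
        _ = X ^ 2 * (8 * X + 10) := by ring
        _ ≤ X ^ 2 * X ^ 4 := by
            gcongr
            have : X ^ 4 = X * X ^ 3 := by ring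
            have h27 : (3 : ℝ) ^ 3 ≤ X ^ 3 := by gcongr
            nlinarith
        _ = _ := by ring
    have hb : ∑ q ∈ s, bb J q γ ≤
        J ^ 2 * Q + N * (#{p ∈ range J ×ˢ range J | dl γ p.1 p.2 = 0} : ℝ) := by
      unfold bb
      rw [sum_comm, sum_congr rfl fun i _ => sum_comm]
      calc _ ≤ ∑ i ∈ range J, ∑ i' ∈ range J, (Q + N * (if dl γ i i' = 0 then (1 : ℝ) else 0)) :=
            sum_le_sum fun i hi => sum_le_sum fun i' hi' =>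
              cnt_le hτ (by linarith) N s hs _ (hv i hi i' hi')
        _ = _ := by
            rw [← sum_boole, sum_product]
            simp only [sum_add_distrib, ← mul_sum, sum_const, card_range, nsmul_eq_mul]
            ring
    have hb0 : 0 ≤ ∑ q ∈ s, bb J q γ := sum_nonneg fun q _ => bb_nonneg _ _ _
    set Z : ℝ := (#{p ∈ range J ×ˢ range J | dl γ p.1 p.2 = 0} : ℝ)
    calc _ ≤ (∑ q ∈ s, bb J q γ) ^ 2 * (Q * S * mj (S ^ 2) (dist (ipt Y) (γ • ipt Y))) :=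
          mul_le_mul_of_nonneg_left (hκ γ) (sq_nonneg _)
      _ ≤ (J ^ 2 * Q + N * Z) ^ 2 * (Q * S * mj (S ^ 2) (dist (ipt Y) (γ • ipt Y))) := by gcongr
      _ ≤ (2 * (J ^ 2 * Q) ^ 2 + 2 * (N * Z) ^ 2) *
            (Q * S * mj (S ^ 2) (dist (ipt Y) (γ • ipt Y))) := by
          gcongr; nlinarith [sq_nonneg (J ^ 2 * Q - N * Z)]
      _ = _ := by ring
  calc _ ≤ _ := sum_le_sum fun γ _ => main γ
    _ = Q * S * (2 * J ^ 4 * Q ^ 2 * ∑ γ ∈ T, mj (S ^ 2) (dist (ipt Y) (γ • ipt Y)) +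
        2 * N ^ 2 * ∑ γ ∈ T, (mj (S ^ 2) (dist (ipt Y) (γ • ipt Y)) *
          (#{p ∈ range J ×ˢ range J | dl γ p.1 p.2 = 0} : ℝ) ^ 2)) := by
          rw [← mul_sum, sum_add_distrib, ← mul_sum, ← mul_sum]
    _ ≤ Q * S * (2 * Y ^ 4 * Q ^ 2 * (Q * (S + S + S)) + 2 * (S * Y) * (Q ^ 3 * Y ^ 3)) := by
          have q3 : Q ≤ Q ^ 3 := le_self_pow₀ hQ (by norm_num)
          have y1 : 1 / Y ≤ S := by
            rw [div_le_iff₀ hY0]; nlinarith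
          gcongr
          · exact sum_nonneg fun γ _ => mj_nonneg _ _
          · exact h1.trans (by gcongr)
          · exact sum_nonneg fun γ _ => mul_nonneg (mj_nonneg _ _) (sq_nonneg _)
          · exact h2.trans (by gcongr)
    _ = _ := by ring

lemma exists_j {R t : ℝ} (hR : 0 < R) (ht : 1 ≤ t) :
    ∃ j : ℕ, 1 ≤ j ∧ t ≤ exp (j * R) ∧ j * R ≤ log t + R := by
  have h0 : 0 ≤ log t / R := div_nonneg (log_nonneg ht) hR.le
  refine ⟨⌊log t / R⌋₊ + 1, by omega, ?_, ?_⟩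
  · have h1 := Nat.lt_floor_add_one (log t / R)
    rw [div_lt_iff₀ hR] at h1
    calc t = exp (log t) := (exp_log (by linarith)).symm
      _ ≤ _ := exp_le_exp.mpr (by push_cast; exact h1.le)
  · have h1 := Nat.floor_le h0
    rw [le_div_iff₀ hR] at h1
    push_cast; linarith

lemma sum_pairs (P : Finset (ℕ × ℕ)) (s : Finset ℕ) (hP : P ⊆ s ×ˢ s) (T : Finset SL(2, ℤ))
    (a : ℕ → SL(2, ℤ) → ℝ) (κ : SL(2, ℤ) → ℝ) (ha : ∀ q γ, 0 ≤ a q γ) (hκ : ∀ γ, 0 ≤ κ γ) :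
    ∑ n ∈ P, ∑ γ ∈ T, a n.1 γ * a n.2 γ * κ γ ≤ ∑ γ ∈ T, (∑ q ∈ s, a q γ) ^ 2 * κ γ := by
  calc _ ≤ ∑ n ∈ s ×ˢ s, ∑ γ ∈ T, a n.1 γ * a n.2 γ * κ γ :=
        sum_le_sum_of_subset_of_nonneg hP fun n _ _ => sum_nonneg fun γ _ =>
          mul_nonneg (mul_nonneg (ha _ _) (ha _ _)) (hκ _)
    _ = _ := by
        rw [sum_comm]
        refine sum_congr rfl fun γ _ => ?_
        rw [← sum_mul, sq, sum_mul_sum, sum_product]

/-- The estimate with all small factors bounded by `Q`. -/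
lemma core (hρ : RhoStmt) (geo : GeoStmt) (k1 : K1Stmt) (k7 : K7Stmt) {X Q R η δ C₂ C₆ C₈ ε : ℝ}
    {n : ℕ} (hX : 3 ≤ X) (hQ : 51 ≤ Q) (hR : 2 ≤ R) (hnR : n * R = log X) (hη : 0 < η)
    (hn : 3 ≤ η * n) (hδ : 0 < δ) (hC₂ : 1 ≤ C₂) (hC₆ : 1 ≤ C₆) (hC₈ : 0 < C₈) (hε : 0 < ε)
    (k2 : ∀ j : ℕ, 1 ≤ j → Adm (exp (j * R)) ((C₂ * R) ^ j * (2 + j * R)) (prof R j))
    (k6 : ∀ (n₀ n₁ n₂ : ℕ), 1 ≤ n₁ → 1 ≤ n₂ →
      ∀ (q₁ q₂ : ℕ) [NeZero q₁] [NeZero q₂], q₁.Coprime q₂ →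
      ∀ W : ZMod q₁ × ZMod q₁ → ZMod q₂ × ZMod q₂ → ℝ,
      (∀ (u₁ : (ZMod q₁)ˣ) (u₂ : (ZMod q₂)ˣ) x₁ x₂,
        W ((u₁ : ZMod q₁) • x₁) ((u₂ : ZMod q₂) • x₂) = W x₁ x₂) →
      ∑ x₁ ∈ UU q₁, ∑ x₂ ∈ UU q₂, W x₁ x₂ = 0 →
      ∀ (ι : Type) (s : Finset ι) (x₁ : ι → ZMod q₁ × ZMod q₁) (x₂ : ι → ZMod q₂ × ZMod q₂) (z : ℍ),
      (∀ a ∈ s, x₁ a ∈ UU q₁ ∧ x₂ a ∈ UU q₂) →
      (∑ a ∈ s, ∑' γ : SL(2, ℤ),
          W (ract γ (x₁ a)) (ract γ (x₂ a)) * kr R (n₀ + n₁ + n₂) z (γ • I)) ^ 2 ≤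
        (C₆ * R * exp ((1 - δ) * R)) ^ (2 * n₀) *
        (∑' γ : SL(2, ℤ), (∑ y₁ ∈ UU q₁, ∑ y₂ ∈ UU q₂, |W y₁ y₂| * |W (ract γ y₁) (ract γ y₂)|) /
          (Nat.totient q₁ * Nat.totient q₂) * kr R (2 * n₁) I (γ • I)) *
        (∑ a ∈ s, ∑ b ∈ s, ∑' γ : SL(2, ℤ),
          if dt (ract γ (x₁ a)) (x₁ b) = 0 ∧ dt (ract γ (x₂ a)) (x₂ b) = 0 then
            kr R (2 * n₂) z (γ • z) else 0))
    (k8 : ∀ U Y : ℝ, 1 ≤ U → 0 < Y →
      ∑' γ : SL(2, ℤ), mj U (dist (ipt Y) (γ • ipt Y)) ≤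
        C₈ * (U * (Y + 1 / Y)) ^ ε * (√U + Y + 1 / Y) ∧
      (1 ≤ Y → ∀ J : ℕ, ∑' γ : SL(2, ℤ), mj U (dist (ipt Y) (γ • ipt Y)) *
        (#{p ∈ range J ×ˢ range J | dl γ p.1 p.2 = 0} : ℝ) ^ 2 ≤ C₈ * U ^ ε * J ^ 3))
    (hτ : ∀ m : ℕ, 1 ≤ m → (m : ℝ) ≤ X ^ 6 → (#m.divisors : ℝ) ≤ Q)
    (hlog : (1 + log X) ^ 2 ≤ Q) (hΛ : (C₂ * R) ^ (2 * n) * (2 + 2 * n * R) ≤ Q)
    (h6 : (C₆ * R) ^ (2 * n) ≤ Q) (h8 : C₈ * (X ^ 4) ^ ε ≤ Q)
    (N J : ℕ) (Y : ℝ) (hY : 1 ≤ Y) (hJ : (J : ℝ) ≤ Y) (hYN : Y ≤ N)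
    (hN4 : (N : ℝ) ^ 4 ≤ Y * X ^ (1 - η)) :
    (∑ m ∈ (Icc 1 N ×ˢ Icc 1 N : Finset (ℕ × ℕ)) with
        m.1.Coprime m.2 ∧ Squarefree m.1 ∧ Squarefree m.2,
      |∑ i ∈ range J ×ˢ range J, ∑ k ∈ (Icc 1 (KM X Y) : Finset ℕ), ∑' l : ℤ,
        if (k : ℤ) ∣ l ^ 2 + 1 then
          xi m.1 (((l + 2 * i.1 * k) ^ 2 + 1) / k) * xi m.2 (((l + 2 * i.2 * k) ^ 2 + 1) / k) *
            prof R n (hd (l / k) (1 / k) Y) else 0|) ^ 2 ≤
      Q ^ 12 * Y ^ 4 * X ^ 2 * exp (-(2 * δ * R)) := by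
  have hR1 : 1 ≤ R := by linarith
  have hR0 : 0 < R := by linarith
  have hY0 : 0 < Y := by linarith
  have hX0 : 0 < X := by linarith
  have hQ1 : 1 ≤ Q := by linarith
  have hN1 : (1 : ℝ) ≤ N := hY.trans hYN
  have hN1' : 1 ≤ N := by exact_mod_cast hN1
  have hXe : exp (n * R) = X := by rw [hnR, exp_log hX0]
  have hn1 : 1 ≤ n := by
    rcases Nat.eq_zero_or_pos n with h | h
    · rw [h] at hn; norm_num at hn
    · exact h
  have hXη : X ^ (1 - η) ≤ X := by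
    calc _ ≤ X ^ (1 : ℝ) := rpow_le_rpow_of_exponent_le (by linarith) (by linarith)
      _ = X := rpow_one X
  have hNX : (N : ℝ) ≤ X := by
    have a1 : (N : ℝ) ^ 3 * N ≤ X * N := by
      calc _ = (N : ℝ) ^ 4 := by ring
        _ ≤ Y * X ^ (1 - η) := hN4
        _ ≤ N * X := by gcongr
        _ = _ := by ring
    have a2 := le_of_mul_le_mul_right a1 (by linarith)
    exact (le_self_pow₀ hN1 (by norm_num)).trans a2
  have hYX : Y ≤ X := hYN.trans hNX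
  have t2 : 1 ≤ (N : ℝ) ^ 2 / Y := by
    rw [le_div_iff₀ hY0]; nlinarith
  obtain ⟨j₁, hj₁, a₁, b₁⟩ := exists_j hR0 (one_le_pow₀ hN1 : 1 ≤ (N : ℝ) ^ 2)
  obtain ⟨j₂, hj₂, a₂, b₂⟩ := exists_j hR0 t2
  have hjn : j₁ + j₂ + 1 ≤ n := by
    have c1 : log ((N : ℝ) ^ 2) + log ((N : ℝ) ^ 2 / Y) ≤ (1 - η) * log X := by
      rw [← log_mul (by positivity) (by positivity), ← log_rpow hX0]
      refine log_le_log (by positivity) ?_
      rw [← mul_div_assoc, div_le_iff₀ hY0]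
      linarith
    have c2 : ((j₁ : ℝ) + j₂ + 1) * R ≤ n * R := by
      rw [← hnR] at c1
      have := mul_le_mul_of_nonneg_right hn hR0.le
      linarith
    exact_mod_cast le_of_mul_le_mul_right c2 hR0
  obtain ⟨n₀, hn₀⟩ : ∃ n₀, n = n₀ + j₁ + j₂ := ⟨n - j₁ - j₂, by omega⟩
  have hn₀1 : 1 ≤ n₀ := by omega
  have hSX : ∀ j : ℕ, j ≤ n → exp (j * R) ≤ X := fun j hj => by
    rw [← hXe]; refine exp_le_exp.mpr ?_; gcongr
  have hS1 : ∀ j : ℕ, 1 ≤ exp (j * R) := fun j => one_le_exp (by positivity)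
  have hkr : ∀ j : ℕ, 1 ≤ j → j ≤ n → ∀ z w : ℍ,
      kr R (2 * j) z w ≤ Q * exp (j * R) * mj (exp (j * R) ^ 2) (dist z w) := by
    intro j hj hjn z w
    refine (kr_le k1 hR1 hj (by positivity) (k2 (2 * j) (by omega)) z w).trans ?_
    have := mj_nonneg (exp (j * R) ^ 2) (dist z w)
    gcongr
    refine le_trans ?_ hΛ
    have c1 : 1 ≤ C₂ * R := by nlinarith
    push_cast
    gcongr
  have hkr0 : ∀ j : ℕ, 1 ≤ j → ∀ z w : ℍ, 0 ≤ kr R (2 * j) z w := fun j hj =>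
    (k1 R (2 * j) hR1 (by omega)).2.1
  have h8' : ∀ U : ℝ, 0 ≤ U → U ≤ X ^ 4 → C₈ * U ^ ε ≤ Q := fun U h0 h =>
    le_trans (by gcongr) h8
  have hX4 : ∀ S y : ℝ, 0 ≤ S → S ≤ X → 1 ≤ y → y ≤ X → S ^ 2 * (y + 1 / y) ≤ X ^ 4 := by
    intro S y h0 h1 h2 h3
    have : 1 / y ≤ 1 := by rw [div_le_one (by linarith)]; exact h2
    calc _ ≤ X ^ 2 * X ^ 2 := by gcongr; nlinarith
      _ = _ := by ring
  set S₁ := exp (j₁ * R) with hS₁
  set S₂ := exp (j₂ * R) with hS₂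
  have s1 : 1 ≤ S₁ := hS1 j₁
  have s2 : 1 ≤ S₂ := hS1 j₂
  have x1 : S₁ ≤ X := hSX j₁ (by omega)
  have x2 : S₂ ≤ X := hSX j₂ (by omega)
  obtain ⟨T₁, hT₁⟩ := exists_T geo I (S₁ ^ 2)
  obtain ⟨T₂, hT₂⟩ := exists_T geo (ipt Y) (S₂ ^ 2)
  set s : Finset ℕ := (Icc 1 N).filter Squarefree with hs
  have hss : s ⊆ Icc 1 N := filter_subset _ _
  have hA : ∑ γ ∈ T₁, (∑ q ∈ s, aa q γ) ^ 2 * kr R (2 * j₁) I (γ • I) ≤ 102 * Q ^ 6 * S₁ ^ 2 := by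
    refine sumA hρ geo hX hQ1 s1 x1 a₁ hNX hN1' hτ hlog s hss (fun q hq => (mem_filter.mp hq).2)
      T₁ _ (fun γ => hkr j₁ hj₁ (by omega) _ _) ?_ ?_
    · have c := (k8 (S₁ ^ 2) 1 (one_le_pow₀ s1) one_pos).1
      rw [geo.2.2.2.2.1, tsum_eq_sum (s := T₁) (fun γ hγ => hT₁ γ hγ _ le_rfl),
        sqrt_sq (by linarith)] at c
      refine c.trans ?_
      have := h8' _ (by positivity) (hX4 S₁ 1 (by linarith) x1 le_rfl (by linarith))
      exact mul_le_mul this (by linarith) (by linarith) (by linarith)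
    · have c := (k8 1 1 le_rfl one_pos).1
      rw [geo.2.2.2.2.1, tsum_eq_sum (s := T₁) (fun γ hγ => hT₁ γ hγ _ (one_le_pow₀ s1)),
        sqrt_one] at c
      refine c.trans ?_
      have := h8' _ (by positivity) (hX4 1 1 (by linarith) (by linarith) le_rfl (by linarith))
      rw [one_pow] at this
      gcongr
      linarith
  have hB : ∑ γ ∈ T₂, (∑ q ∈ s, bb J q γ) ^ 2 * kr R (2 * j₂) (ipt Y) (γ • ipt Y) ≤
      8 * Q ^ 4 * Y ^ 4 * S₂ ^ 2 := by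
    refine sumB geo hX hQ1 x2 hY hJ hYN a₂ hτ s hss T₂ _ (fun γ => hkr j₂ hj₂ (by omega) _ _) ?_ ?_
    · have c := (k8 (S₂ ^ 2) Y (one_le_pow₀ s2) hY0).1
      rw [tsum_eq_sum (s := T₂) (fun γ hγ => hT₂ γ hγ _ le_rfl), sqrt_sq (by linarith)] at c
      refine c.trans ?_
      have := h8' _ (by positivity) (hX4 S₂ Y (by linarith) x2 hY hYX)
      gcongr
    · have c := (k8 (S₂ ^ 2) Y (one_le_pow₀ s2) hY0).2 hY J
      rw [tsum_eq_sum (s := T₂) (fun γ hγ => by rw [hT₂ γ hγ _ le_rfl, zero_mul])] at c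
      refine c.trans ?_
      have := h8' (S₂ ^ 2) (by positivity) (by
        calc _ ≤ X ^ 2 := by gcongr
          _ ≤ _ := pow_le_pow_right₀ (by linarith) (by norm_num))
      gcongr
  set Γ := (C₆ * R * exp ((1 - δ) * R)) ^ (2 * n₀) with hΓ
  have hΓ0 : 0 ≤ Γ := by positivity
  set P := (Icc 1 N ×ˢ Icc 1 N : Finset (ℕ × ℕ)).filter
    fun m => m.1.Coprime m.2 ∧ Squarefree m.1 ∧ Squarefree m.2 with hP
  have hPs : P ⊆ s ×ˢ s := by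
    intro m hm
    simp only [hP, hs, mem_filter, mem_product] at hm ⊢
    exact ⟨⟨hm.1.1, hm.2.2.1⟩, hm.1.2, hm.2.2.2⟩
  have hf : Adm X ((C₂ * R) ^ n * (2 + n * R)) (prof R n) := by
    have := k2 n hn1
    rwa [hXe] at this
  refine (sum_sq_le_sum_mul_sum_of_sq_le_mul P
    (f := fun m => Γ / 16 * ∑ γ ∈ T₁, aa m.1 γ * aa m.2 γ * kr R (2 * j₁) I (γ • I))
    (g := fun m => ∑ γ ∈ T₂, bb J m.1 γ * bb J m.2 γ * kr R (2 * j₂) (ipt Y) (γ • ipt Y))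
    (fun m _ => mul_nonneg (by positivity) (sum_nonneg fun γ _ =>
      mul_nonneg (mul_nonneg (aa_nonneg _ _) (aa_nonneg _ _)) (hkr0 j₁ hj₁ _ _)))
    (fun m _ => sum_nonneg fun γ _ =>
      mul_nonneg (mul_nonneg (bb_nonneg _ _ _) (bb_nonneg _ _ _)) (hkr0 j₂ hj₂ _ _))
    (fun m hm => ?_)).trans ?_
  · simp only [hP, mem_filter, mem_product, mem_Icc] at hm
    have : NeZero m.1 := ⟨by omega⟩
    have : NeZero m.2 := ⟨by omega⟩
    have key := pair k1 k7 (n := n) hR1 hj₁ hj₂ hΓ0 m.1 m.2 J hm.2.2.1 hm.2.2.2 (ipt Y) T₁ T₂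
      (fun γ hγ => le_antisymm (by
        have := hkr j₁ hj₁ (by omega) I (γ • I)
        rwa [hT₁ γ hγ _ le_rfl, mul_zero] at this) (hkr0 j₁ hj₁ _ _))
      (fun γ hγ => le_antisymm (by
        have := hkr j₂ hj₂ (by omega) (ipt Y) (γ • ipt Y)
        rwa [hT₂ γ hγ _ le_rfl, mul_zero] at this) (hkr0 j₂ hj₂ _ _))
      (by rw [hn₀]; exact k6 n₀ j₁ j₂ hj₁ hj₂ m.1 m.2 hm.2.1)
    simp only [inner_eq geo k1 hR1 hn1 hf (by linarith) hY0, ← mul_sum] at key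
    rw [sq_abs]
    linarith
  · rw [← mul_sum]
    have c1 := (sum_pairs P s hPs T₁ aa _ aa_nonneg (fun γ => hkr0 j₁ hj₁ I (γ • I))).trans hA
    have c2 := (sum_pairs P s hPs T₂ (bb J) _ (bb_nonneg J)
      (fun γ => hkr0 j₂ hj₂ (ipt Y) (γ • ipt Y))).trans hB
    have c3 : Γ ≤ Q * (exp (n₀ * R) ^ 2 * exp (-(2 * δ * R))) := by
      rw [hΓ, mul_pow]
      have d1 : 1 ≤ C₆ * R := by nlinarith
      refine mul_le_mul ((pow_le_pow_right₀ d1 (by omega)).trans h6) ?_ (by positivity)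
        (by linarith)
      rw [← exp_nat_mul, ← exp_nat_mul, ← exp_add]
      refine exp_le_exp.mpr ?_
      push_cast
      have d2 : (1 : ℝ) ≤ n₀ := by exact_mod_cast hn₀1
      have d3 : 0 ≤ (n₀ - 1 : ℝ) * (δ * R) := mul_nonneg (by linarith) (by positivity)
      linarith
    have c4 : exp (n₀ * R) * S₁ * S₂ = X := by
      rw [hS₁, hS₂, ← exp_add, ← exp_add, ← hXe, hn₀]
      congr 1; push_cast; ring
    calc _ ≤ Q * (exp (n₀ * R) ^ 2 * exp (-(2 * δ * R))) / 16 * (102 * Q ^ 6 * S₁ ^ 2) *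
          (8 * Q ^ 4 * Y ^ 4 * S₂ ^ 2) := by
          gcongr
          · exact sum_nonneg fun m _ => sum_nonneg fun γ _ =>
              mul_nonneg (mul_nonneg (bb_nonneg _ _ _) (bb_nonneg _ _ _)) (hkr0 j₂ hj₂ _ _)
          · exact sum_nonneg fun m _ => sum_nonneg fun γ _ =>
              mul_nonneg (mul_nonneg (aa_nonneg _ _) (aa_nonneg _ _)) (hkr0 j₁ hj₁ _ _)
      _ = 51 * Q ^ 11 * Y ^ 4 * (exp (n₀ * R) * S₁ * S₂) ^ 2 * exp (-(2 * δ * R)) := by ring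
      _ ≤ Q * Q ^ 11 * Y ^ 4 * (exp (n₀ * R) * S₁ * S₂) ^ 2 * exp (-(2 * δ * R)) := by gcongr
      _ = _ := by rw [c4]; ring

/-- Powers of the logarithm are small. -/
lemma ev_log (C : ℝ) (A : ℕ) {ε : ℝ} (hε : 0 < ε) :
    ∀ᶠ X : ℝ in atTop, C * log X ^ A ≤ X ^ ε := by
  have h := (isLittleO_log_rpow_rpow_atTop (A : ℝ) hε).bound (c := 1 / (|C| + 1)) (by positivity)
  filter_upwards [h, eventually_ge_atTop 1] with X h1 h2
  have l0 := log_nonneg h2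
  rw [rpow_natCast, norm_of_nonneg (by positivity), norm_of_nonneg (by positivity),
    one_div, ← div_eq_inv_mul, le_div_iff₀ (by positivity)] at h1
  have := le_abs_self C
  have : 0 ≤ log X ^ A := by positivity
  nlinarith

lemma ev_pow (C : ℝ) {ε : ℝ} (hε : 0 < ε) : ∀ᶠ X : ℝ in atTop, C * X ^ ε ≤ X ^ (2 * ε) := by
  filter_upwards [ev_log C 0 hε, eventually_gt_atTop 0] with X h1 h2
  rw [pow_zero, mul_one] at h1
  rw [two_mul, rpow_add h2]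
  gcongr

end K10

open K10 in
theorem k10 (hρ : RhoStmt) (geo : GeoStmt) (k1 : K1Stmt) (k2 : K2Stmt) (k6 : K6Stmt)
    (k7 : K7Stmt) (k8 : K8Stmt) : K10Stmt := by
  intro η hη
  refine ⟨⌈3 / η⌉₊, fun n hn => ?_⟩
  have hn3 : 3 ≤ η * n := by
    have h1 : 3 / η ≤ n := (Nat.le_ceil _).trans (by exact_mod_cast hn)
    rw [div_le_iff₀ hη] at h1
    linarith
  have hn0 : (0 : ℝ) < n := by
    rcases Nat.eq_zero_or_pos n with h | h
    · rw [h] at hn3; norm_num at hn3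
    · exact_mod_cast h
  have hn1 : (1 : ℝ) ≤ n := by exact_mod_cast (show 0 < n by exact_mod_cast hn0)
  obtain ⟨C₂, hC₂, k2⟩ := k2
  obtain ⟨δ, C₆, hδ, hC₆, k6⟩ := k6
  set e : ℝ := δ / (12 * n) with he
  have he0 : 0 < e := by positivity
  obtain ⟨C₈, hC₈, k8⟩ := k8 (e / 8) (by positivity)
  obtain ⟨Cτ, hCτ, hτ⟩ := MP_9177b7_ag.EQ.div.1 0 (e / 12) (by positivity)
  refine ⟨δ / (2 * n), by positivity, ?_⟩
  filter_upwards [eventually_ge_atTop 3, tendsto_log_atTop.eventually_ge_atTop (2 * n),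
    ev_log 51 0 he0, ev_log 4 2 he0, ev_log (4 * C₂ ^ (2 * n)) (2 * n + 1) he0,
    ev_log (C₆ ^ (2 * n)) (2 * n) he0, ev_pow C₈ (half_pos he0), ev_pow Cτ (half_pos he0)]
    with X hX hL q1 q2 q3 q4 q5 q6
  intro N J Y hY hJ hYN hN4
  have hX0 : 0 < X := by linarith
  have hR : 2 ≤ log X / n := by rw [le_div_iff₀ hn0]; exact hL
  have hL1 : 1 ≤ log X := by linarith
  have hRL : log X / n ≤ log X := div_le_self (by linarith) hn1
  have hnR : n * (log X / n) = log X := by field_simp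
  have e2 : 2 * (e / 2) = e := by ring
  rw [e2] at q5 q6
  have key := core hρ geo k1 k7 (Q := X ^ e) (R := log X / n) (n := n) hX (by simpa using q1) hR hnR
    hη hn3 hδ hC₂ hC₆ hC₈ (by positivity : 0 < e / 8) (fun j hj => k2 _ j hR hj)
    (fun n₀ n₁ n₂ h1 h2 => k6 _ n₀ n₁ n₂ hR h1 h2)
    (fun U Y h1 h2 => ⟨(k8 U Y h1 h2).1, (k8 U Y h1 h2).2.2⟩)
    (fun m hm hmX => by
      refine (hτ m hm).1.trans (le_trans ?_ q6)
      have : X ^ (e / 2) = (X ^ 6) ^ (e / 12) := by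
        rw [← rpow_natCast, ← rpow_mul hX0.le]; congr 1; push_cast; ring
      rw [this]; gcongr)
    (le_trans (by nlinarith) q2)
    (by
      refine le_trans ?_ q3
      have : 2 + 2 * n * (log X / n) ≤ 4 * log X := by rw [mul_assoc, hnR]; linarith
      calc _ ≤ (C₂ * log X) ^ (2 * n) * (4 * log X) := by gcongr
        _ = _ := by rw [mul_pow]; ring)
    (by
      refine le_trans ?_ q4
      rw [← mul_pow]; gcongr)
    (by
      refine le_trans (le_of_eq ?_) q5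
      rw [← rpow_natCast, ← rpow_mul hX0.le]; congr 2; push_cast; ring)
    N J Y hY hJ hYN hN4
  refine abs_le_of_sq_le_sq' (key.trans (le_of_eq ?_)) (by positivity) |>.2
  have e3 : exp (-(2 * δ * (log X / n))) = X ^ (-(2 * δ / n)) := by
    rw [rpow_def_of_pos hX0]; congr 1; ring
  have e4 : (X ^ e) ^ 12 * X ^ 2 * X ^ (-(2 * δ / n)) = (X ^ (1 - δ / (2 * n))) ^ 2 := by
    rw [← rpow_natCast, ← rpow_natCast, ← rpow_natCast, ← rpow_mul hX0.le, ← rpow_mul hX0.le,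
      ← rpow_add hX0, ← rpow_add hX0]
    congr 1
    rw [he]; push_cast; field_simp; ring
  rw [e3, mul_pow, ← e4]; ring

end Pool.Agent.Lib.MP_4b1228_nt.PP
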