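import Pool.Agent.Lib.MP_4b1228_nt.PP.K1

/-! Size and Lipschitz bounds for the convolution powers of the tent kernel. -/

open Real Filter UpperHalfPlane MeasureTheory Topology
open scoped MatrixGroups NNReal ENNReal

noncomputable section

namespace Pool.Agent.Lib.MP_4b1228_nt.PP

namespace K2

/-- integrals over the upper half plane in coordinates -/
theorem lint_le (G : ℝ × ℝ → ℝ≥0∞) (hG : Measurable G) :
    ∫⁻ v : ℍ, G (v.re, v.im) ≤ ∫⁻ y : ℝ, ∫⁻ x : ℝ, ENNReal.ofReal (1 / y ^ 2) * G (x, y) := by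
  have hm : MeasurePreserving UpperHalfPlane.coe (volume.comap UpperHalfPlane.coe)
      (volume.restrict (.range UpperHalfPlane.coe)) :=
    ⟨measurable_coe, by rw [measurableEmbedding_coe.map_comap]⟩
  have h1 : Measurable fun z : ℍ => ((1 / NNReal.mk z.im z.im_pos.le : ℝ≥0) ^ 2 : ℝ≥0) := by
    refine Continuous.measurable (.pow (.div₀ continuous_const ?_ ?_) _)
    · exact continuous_im.subtype_mk _
    · exact fun x => NNReal.ne_iff.mp x.im_ne_zero
  have h2 : Measurable fun v : ℍ => G (v.re, v.im) :=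
    hG.comp (continuous_re.prodMk continuous_im).measurable
  have h3 : Measurable fun p : ℝ × ℝ => ENNReal.ofReal (1 / p.2 ^ 2) * G p := by fun_prop
  rw [volume_def, lintegral_withDensity_eq_lintegral_mul _ h1.coe_nnreal_ennreal h2]
  calc _ = ∫⁻ v : ℍ, (fun z : ℂ => ENNReal.ofReal (1 / z.im ^ 2) * G (z.re, z.im)) (v : ℂ)
        ∂(volume.comap UpperHalfPlane.coe) := by
        refine lintegral_congr fun v => ?_
        simp only [Pi.mul_apply, coe_im, coe_re]
        congr 1
        rw [← ENNReal.ofReal_coe_nnreal]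
        congr 1
        simp
    _ = ∫⁻ z : ℂ in .range UpperHalfPlane.coe, ENNReal.ofReal (1 / z.im ^ 2) * G (z.re, z.im) :=
        hm.lintegral_comp_emb measurableEmbedding_coe
          fun z : ℂ => ENNReal.ofReal (1 / z.im ^ 2) * G (z.re, z.im)
    _ ≤ ∫⁻ z : ℂ, ENNReal.ofReal (1 / z.im ^ 2) * G (z.re, z.im) :=
        lintegral_mono' Measure.restrict_le_self le_rfl
    _ = ∫⁻ p : ℝ × ℝ, ENNReal.ofReal (1 / p.2 ^ 2) * G p :=
        Complex.volume_preserving_equiv_real_prod.lintegral_comp h3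
    _ = _ := by rw [Measure.volume_eq_prod, lintegral_prod_symm _ h3.aemeasurable]

theorem tent_nonneg (R r : ℝ) : 0 ≤ tent R r := le_max_left _ _

theorem tent_le_one (R r : ℝ) : tent R r ≤ 1 := max_le zero_le_one (min_le_left _ _)

theorem tent_zero {R r : ℝ} (h : R ≤ r) : tent R r = 0 :=
  max_eq_left ((min_le_right _ _).trans (by linarith))

theorem tent_one {R r : ℝ} (h : r + 1 ≤ R) : tent R r = 1 := by
  rw [tent, min_eq_left (by linarith), max_eq_right zero_le_one]

theorem tent_lip (R r r' : ℝ) : |tent R r - tent R r'| ≤ |r - r'| := by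
  unfold tent
  refine (abs_max_sub_max_le_max _ _ _ _).trans (max_le (by simp) ?_)
  refine (abs_min_sub_min_le_max _ _ _ _).trans (max_le (by simp) ?_)
  rw [show R - r - (R - r') = -(r - r') by ring, abs_neg]

theorem tent_le (R r : ℝ) : tent R r ≤ tent (R + 2) r := by
  unfold tent
  gcongr
  linarith

theorem tent_lip' (R r r' : ℝ) (h : |r - r'| ≤ 1) :
    |tent R r - tent R r'| ≤ |r - r'| * tent (R + 2) r := by
  by_cases h1 : r ≤ R + 1
  · rw [tent_one (R := R + 2) (by linarith), mul_one]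
    exact tent_lip _ _ _
  · have := (abs_le.1 h).2
    rw [tent_zero (R := R) (r := r) (by linarith), tent_zero (R := R) (r := r') (by linarith),
      sub_zero, abs_zero]
    exact mul_nonneg (abs_nonneg _) (tent_nonneg _ _)

/-- the eigenvalue -/
def lam (ρ : ℝ) : ℝ := ∫ v : ℍ, tent ρ (dist I v) * √v.im

theorem lam_nonneg (ρ : ℝ) : 0 ≤ lam ρ :=
  integral_nonneg fun _ => mul_nonneg (tent_nonneg _ _) (sqrt_nonneg _)

theorem box {ρ : ℝ} {v : ℍ} (h : dist I v ≤ ρ) :
    (exp (-ρ) ≤ v.im ∧ v.im ≤ exp ρ) ∧ |v.re| ≤ √(2 * exp ρ * v.im) := by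
  have hy := v.im_pos
  have h1 := im_le_im_mul_exp_dist v I
  have h2 := im_div_exp_dist_le I v
  have h3 := cosh_dist' I v
  have h4 : exp (dist I v) ≤ exp ρ := exp_le_exp.2 h
  rw [dist_comm] at h1
  simp only [I_im, I_re, one_mul] at h1 h2 h3
  refine ⟨⟨?_, h1.trans h4⟩, abs_le_sqrt ?_⟩
  · rw [exp_neg, ← one_div]
    exact (one_div_le_one_div_of_le (exp_pos _) h4).trans h2
  · have h5 : cosh (dist I v) ≤ exp ρ := by
      rw [← cosh_add_sinh] at h4
      have := sinh_nonneg_iff.2 (dist_nonneg (x := I) (y := v))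
      linarith
    rw [h3, div_le_iff₀ (by positivity)] at h5
    nlinarith [sq_nonneg v.im]

theorem lam_le {ρ : ℝ} (hρ : 0 ≤ ρ) : lam ρ ≤ 4 * ρ * √(2 * exp ρ) := by
  set c := 2 * exp ρ with hc
  have hc0 : 0 < c := by positivity
  let A : Set (ℝ × ℝ) := {p | p.2 ∈ Set.Icc (exp (-ρ)) (exp ρ) ∧ |p.1| ≤ √(c * p.2)}
  have hA : MeasurableSet A :=
    (measurableSet_Icc.preimage measurable_snd).inter
      (measurableSet_le (f := fun p : ℝ × ℝ => |p.1|) (g := fun p : ℝ × ℝ => √(c * p.2))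
        (by fun_prop) (by fun_prop))
  let G : ℝ × ℝ → ℝ≥0∞ := A.indicator fun p => ENNReal.ofReal √p.2
  have hG : Measurable G := Measurable.indicator (by fun_prop) hA
  have h1 : ∫⁻ v : ℍ, ENNReal.ofReal (tent ρ (dist I v) * √v.im) ≤ ∫⁻ v : ℍ, G (v.re, v.im) := by
    refine lintegral_mono fun v => ?_
    by_cases h : dist I v ≤ ρ
    · have hv : (v.re, v.im) ∈ A := box h
      simp only [G, Set.indicator_of_mem hv]
      exact ENNReal.ofReal_le_ofReal (mul_le_of_le_one_left (sqrt_nonneg _) (tent_le_one _ _))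
    · simp [tent_zero (not_le.1 h).le]
  have h2 : ∀ y : ℝ, ∫⁻ x : ℝ, ENNReal.ofReal (1 / y ^ 2) * G (x, y) ≤
      (Set.Icc (exp (-ρ)) (exp ρ)).indicator (fun y => ENNReal.ofReal (2 * √c * y⁻¹)) y := by
    intro y
    by_cases hy : y ∈ Set.Icc (exp (-ρ)) (exp ρ)
    · have hy0 : 0 < y := (exp_pos _).trans_le hy.1
      have e : ∀ x : ℝ, ENNReal.ofReal (1 / y ^ 2) * G (x, y) =
          (Set.Icc (-√(c * y)) √(c * y)).indicator
            (fun _ => ENNReal.ofReal (1 / y ^ 2 * √y)) x := by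
        intro x
        by_cases hx : x ∈ Set.Icc (-√(c * y)) √(c * y)
        · have hv : (x, y) ∈ A := ⟨hy, abs_le.2 hx⟩
          simp only [G, Set.indicator_of_mem hv, Set.indicator_of_mem hx]
          rw [ENNReal.ofReal_mul (by positivity)]
        · have hv : (x, y) ∉ A := fun h => hx (abs_le.1 h.2)
          simp only [G, Set.indicator_of_notMem hv, Set.indicator_of_notMem hx, mul_zero]
      simp only [e]
      rw [lintegral_indicator_const measurableSet_Icc, Real.volume_Icc, Set.indicator_of_mem hy,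
        ← ENNReal.ofReal_mul (by positivity)]
      refine ENNReal.ofReal_le_ofReal (le_of_eq ?_)
      rw [sqrt_mul hc0.le]
      have := mul_self_sqrt hy0.le
      have e2 : 1 / y ^ 2 * √y * (√c * √y - -(√c * √y)) = 2 * √c * (√y * √y) / y ^ 2 := by ring
      rw [e2, this]
      field_simp
    · have e : ∀ x : ℝ, G (x, y) = 0 := fun x => Set.indicator_of_notMem (fun h => hy h.1) _
      simp [e]
  have hab : exp (-ρ) ≤ exp ρ := exp_le_exp.2 (by linarith)
  have h0 : (0 : ℝ) ∉ Set.uIcc (exp (-ρ)) (exp ρ) := by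
    rw [Set.uIcc_of_le hab]
    exact fun h => absurd h.1 (not_le.2 (exp_pos _))
  have h3 : ∫⁻ y in Set.Icc (exp (-ρ)) (exp ρ), ENNReal.ofReal (2 * √c * y⁻¹) =
      ENNReal.ofReal (4 * ρ * √c) := by
    rw [← ofReal_integral_eq_lintegral_ofReal]
    · rw [integral_Icc_eq_integral_Ioc, ← intervalIntegral.integral_of_le hab,
        intervalIntegral.integral_const_mul, integral_inv h0, ← exp_sub, log_exp]
      congr 1
      ring
    · refine ContinuousOn.integrableOn_Icc (continuousOn_const.mul (continuousOn_id.inv₀ ?_))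
      exact fun y hy => ((exp_pos _).trans_le hy.1).ne'
    · refine (ae_restrict_iff' measurableSet_Icc).2 (Eventually.of_forall fun y hy => ?_)
      have := (exp_pos _).trans_le hy.1
      positivity
  rw [lam, integral_eq_lintegral_of_nonneg_ae
    (Eventually.of_forall fun _ => mul_nonneg (tent_nonneg _ _) (sqrt_nonneg _))
    (Continuous.aestronglyMeasurable (by unfold tent; fun_prop))]
  refine ENNReal.toReal_le_of_le_ofReal (by positivity) ?_
  rw [← h3, ← lintegral_indicator measurableSet_Icc]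
  exact h1.trans ((lint_le G hG).trans (lintegral_mono h2))

theorem im_toSL2R (z v : ℍ) : (z.toSL2R • v).im = z.im * v.im := by
  have hz := z.im_pos
  have h := sqrt_pos.2 hz
  have e : ((z.toSL2R • v : ℍ) : ℂ) = z.im * v + z.re := by
    rw [coe_specialLinearGroup_apply, div_eq_iff (mod_cast denom_ne_zero z.toSL2R v)]
    have : ((√z.im : ℝ) : ℂ) * √z.im = z.im := mod_cast mul_self_sqrt hz.le
    have h' : ((√z.im : ℝ) : ℂ) ≠ 0 := mod_cast h.ne'
    simp
    field_simp
    linear_combination (v : ℂ) * this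
  rw [← coe_im, e]
  simp

/-- the square root of the imaginary part is an eigenfunction -/
theorem eigen (ρ : ℝ) (z : ℍ) : ∫ v : ℍ, tent ρ (dist z v) * √v.im = lam ρ * √z.im := by
  rw [← K1.int_smul z.toSL2R, lam, ← integral_mul_const]
  refine integral_congr_ae (Eventually.of_forall fun v => ?_)
  have e : dist z (z.toSL2R • v) = dist I v := by
    rw [← dist_smul z.toSL2R I v, toSL2R_smul_I]
  simp only
  rw [e, im_toSL2R, sqrt_mul z.im_pos.le]
  ring

theorem integ (ρ : ℝ) (z : ℍ) {f : ℍ → ℝ} (hf : Continuous f) :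
    Integrable fun v : ℍ => tent ρ (dist z v) * f v := by
  refine Continuous.integrable_of_hasCompactSupport (by unfold tent; fun_prop) ?_
  refine HasCompactSupport.intro (isCompact_closedBall z ρ) fun v hv => ?_
  rw [Metric.mem_closedBall, not_le, dist_comm] at hv
  rw [tent_zero hv.le, zero_mul]

theorem cont (R : ℝ) (j : ℕ) : Continuous fun v : ℍ => ker R j v I :=
  (K1.good_ker R j).cont.comp (f := fun v : ℍ => (v, I)) (by fun_prop)

theorem step {R M : ℝ} {j : ℕ} (h : ∀ z : ℍ, ker R j z I ≤ M * √z.im) (z : ℍ) :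
    ∫ v : ℍ, tent (R + 2) (dist z v) * ker R j v I ≤ M * lam (R + 2) * √z.im := by
  rw [mul_assoc, ← eigen, ← integral_const_mul]
  refine integral_mono (integ _ _ (cont R j))
    ((integ _ z (f := fun v => √v.im) (by fun_prop)).const_mul _) fun v => ?_
  have := mul_le_mul_of_nonneg_left (h v) (tent_nonneg (R + 2) (dist z v))
  simp only
  linarith

theorem base {ρ : ℝ} (z : ℍ) : tent ρ (dist z I) ≤ √(exp ρ) * √z.im := by
  by_cases h : dist I z ≤ ρ
  · refine (tent_le_one _ _).trans ?_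
    rw [← sqrt_mul (exp_pos _).le]
    refine le_sqrt_of_sq_le ?_
    have := mul_le_mul_of_nonneg_left (box h).1.1 (exp_pos ρ).le
    rwa [← exp_add, add_neg_cancel, exp_zero, ← one_pow 2] at this
  · rw [dist_comm, tent_zero (not_le.1 h).le]
    positivity

theorem ker_le (R : ℝ) : ∀ (j : ℕ) (z : ℍ),
    ker R j z I ≤ √(exp (R + 2)) * lam (R + 2) ^ j * √z.im
  | 0, z => by
    rw [pow_zero, mul_one]
    exact (tent_le _ _).trans (base z)
  | j + 1, z => by
    rw [pow_succ, ← mul_assoc]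
    refine le_trans ?_ (step (ker_le R j) z)
    exact integral_mono (integ _ _ (cont R j)) (integ _ _ (cont R j)) fun v =>
      mul_le_mul_of_nonneg_right (tent_le _ _) ((K1.good_ker R j).nonneg _ _)

theorem ker_lip (R : ℝ) : ∀ (j : ℕ) (z z' : ℍ), dist z z' ≤ 1 →
    |ker R j z I - ker R j z' I| ≤ dist z z' * (√(exp (R + 2)) * lam (R + 2) ^ j * √z.im)
  | 0, z, z', h => by
    have h1 := abs_dist_sub_le z z' I
    rw [pow_zero, mul_one]
    exact (tent_lip' R _ _ (h1.trans h)).trans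
      (mul_le_mul h1 (base z) (tent_nonneg _ _) dist_nonneg)
  | j + 1, z, z', h => by
    rw [pow_succ, ← mul_assoc √(exp (R + 2))]
    refine le_trans ?_ (mul_le_mul_of_nonneg_left (step (ker_le R j) z) dist_nonneg)
    rw [ker, ← integral_sub (integ _ _ (cont R j)) (integ _ _ (cont R j)), ← integral_const_mul]
    refine (abs_integral_le_integral_abs).trans (integral_mono
      ((integ _ _ (cont R j)).sub (integ _ _ (cont R j))).abs
      ((integ _ _ (cont R j)).const_mul _) fun v => ?_)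
    have h1 := abs_dist_sub_le z z' v
    have h2 := (K1.good_ker R j).nonneg v I
    simp only
    rw [← sub_mul, abs_mul, abs_of_nonneg h2, ← mul_assoc]
    exact mul_le_mul_of_nonneg_right ((tent_lip' R _ _ (h1.trans h)).trans
      (mul_le_mul_of_nonneg_right h1 (tent_nonneg _ _))) h2

/-- the point `i e ^ s` -/
def pt (s : ℝ) : ℍ := mk ⟨0, exp s⟩ (exp_pos s)

theorem dist_pt (s t : ℝ) : dist (pt s) (pt t) = |s - t| :=
  (isometry_vertical_line 0).dist_eq s t

theorem pt_zero : pt 0 = I := by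
  ext
  simp [pt, Complex.ext_iff]

theorem ipt_exp (s : ℝ) : ipt (exp s) = pt s := by
  ext
  rw [K1.coe_ipt (exp_pos s)]
  simp [pt, Complex.ext_iff, -Complex.ofReal_exp]

theorem prof_eq (R : ℝ) (j : ℕ) {r : ℝ} (hr : 0 ≤ r) :
    prof R (j + 1) r = ker R j (pt (-r)) I := by
  rw [(K1.good_ker R j).radial, ← pt_zero, dist_pt, pt_zero, sub_zero, abs_neg, abs_of_nonneg hr]
  rfl

theorem const_le {R : ℝ} (hR : 2 ≤ R) (j : ℕ) {r : ℝ} (hr : 0 ≤ r) :
    √(exp (R + 2)) * lam (R + 2) ^ j * √(pt (-r)).im ≤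
      (40 * R) ^ (j + 1) * √(exp ((j + 1 : ℕ) * R) / cosh r) := by
  have he : exp 2 ≤ 9 := by
    have h1 := exp_one_lt_three
    have h2 := exp_pos 1
    rw [show (2 : ℝ) = 1 + 1 by norm_num, exp_add]
    nlinarith
  have hs := sqrt_nonneg (exp R)
  have h1 : √(exp (R + 2)) ≤ 40 * R * √(exp R) := by
    refine sqrt_le_iff.2 ⟨by positivity, ?_⟩
    rw [mul_pow, sq_sqrt (exp_pos _).le, exp_add, mul_comm]
    exact mul_le_mul_of_nonneg_right (by nlinarith) (exp_pos _).le
  have h2 : lam (R + 2) ≤ 40 * R * √(exp R) := by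
    refine (lam_le (by linarith)).trans ?_
    have : √(2 * exp (R + 2)) ≤ 5 * √(exp R) := by
      refine sqrt_le_iff.2 ⟨by positivity, ?_⟩
      rw [mul_pow, sq_sqrt (exp_pos _).le, exp_add]
      nlinarith [exp_pos R]
    calc _ ≤ (8 * R) * (5 * √(exp R)) :=
          mul_le_mul (by linarith) this (sqrt_nonneg _) (by positivity)
      _ = _ := by ring
  have h3 : √(pt (-r)).im ≤ √(1 / cosh r) := by
    refine sqrt_le_sqrt ?_
    change exp (-r) ≤ _
    rw [exp_neg, ← one_div]
    refine one_div_le_one_div_of_le (cosh_pos r) ?_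
    rw [← cosh_add_sinh]
    have := sinh_nonneg_iff.2 hr
    linarith
  have h4 : √(exp ((j + 1 : ℕ) * R) / cosh r) = √(exp R) ^ (j + 1) * √(1 / cosh r) := by
    rw [div_eq_mul_one_div, sqrt_mul (exp_pos _).le, exp_nat_mul, sqrt_eq_rpow, sqrt_eq_rpow (exp R),
      ← rpow_natCast, ← rpow_natCast, ← rpow_mul (exp_pos _).le, ← rpow_mul (exp_pos _).le,
      mul_comm (1 / 2 : ℝ)]
  have h5 := lam_nonneg (R + 2)
  rw [h4, ← mul_assoc, ← mul_pow, pow_succ']
  gcongr

end K2

theorem k2 : K2Stmt := by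
  refine ⟨40, by norm_num, fun R j hR hj => ?_⟩
  obtain ⟨j, rfl⟩ : ∃ i, j = i + 1 := ⟨j - 1, by omega⟩
  have hg := K1.good_ker R j
  have hΛ : (40 * R) ^ (j + 1) ≤ (40 * R) ^ (j + 1) * (2 + (j + 1 : ℕ) * R) :=
    le_mul_of_one_le_right (by positivity) (by
      have : (0 : ℝ) ≤ (j + 1 : ℕ) * R := by positivity
      linarith)
  refine ⟨fun r => hg.nonneg _ _, fun r hr => ?_, fun r hr => ?_, fun r r' hr hr' h => ?_⟩
  · rw [log_exp] at hr
    refine hg.supp _ _ ?_
    rw [K2.ipt_exp, ← K2.pt_zero, K2.dist_pt, zero_sub, abs_neg]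
    exact hr.trans_le (le_abs_self r)
  · rw [K2.prof_eq R j hr]
    exact (K2.ker_le R j _).trans ((K2.const_le hR j hr).trans
      (mul_le_mul_of_nonneg_right hΛ (sqrt_nonneg _)))
  · have e : dist (K2.pt (-r)) (K2.pt (-r')) = |r - r'| := by
      rw [K2.dist_pt, show -r - -r' = -(r - r') by ring, abs_neg]
    rw [K2.prof_eq R j hr, K2.prof_eq R j hr', mul_assoc]
    refine (K2.ker_lip R j _ _ (e.trans_le h)).trans ?_
    rw [e]
    exact mul_le_mul_of_nonneg_left ((K2.const_le hR j hr).trans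
      (mul_le_mul_of_nonneg_right hΛ (sqrt_nonneg _))) (abs_nonneg _)

end Pool.Agent.Lib.MP_4b1228_nt.PP
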