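import Pool.Agent.Lib.MP_4b1228_nt.PP.K1

/-! The total mass of the kernels and the packing bound. -/

open Real Filter UpperHalfPlane MeasureTheory Topology Set
open scoped MatrixGroups

noncomputable section

namespace Pool.Agent.Lib.MP_4b1228_nt.PP

namespace K3

/-- Horocyclic coordinates. -/
def pt (q : ℝ × ℝ) : ℍ := ⟨⟨q.2 * exp (-q.1), exp (-q.1)⟩, exp_pos _⟩

theorem pt_re (q : ℝ × ℝ) : (pt q).re = q.2 * exp (-q.1) := rfl

theorem pt_im (q : ℝ × ℝ) : (pt q).im = exp (-q.1) := rfl

theorem cont_pt : Continuous pt := by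
  refine isOpenEmbedding_coe.isInducing.continuous_iff.2 ?_
  have : (UpperHalfPlane.coe ∘ pt) = fun q : ℝ × ℝ =>
      ((q.2 * exp (-q.1) : ℝ) : ℂ) + ((exp (-q.1) : ℝ) : ℂ) * Complex.I := by
    funext q
    exact Complex.mk_eq_add_mul_I _ _
  rw [this]
  fun_prop

theorem cosh_pt (q : ℝ × ℝ) :
    cosh (dist I (pt q)) = (q.2 ^ 2 + 1 ^ 2 + exp q.1 ^ 2) / (2 * 1 * exp q.1) := by
  rw [cosh_dist', pt_re, pt_im, I_re, I_im, exp_neg]
  have := exp_pos q.1
  field_simp
  ring

theorem dist_pt (q : ℝ × ℝ) : dist I (pt q) = hd q.2 1 (exp q.1) := by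
  rw [hd, ← cosh_pt, arcosh_cosh dist_nonneg]

theorem coord (F : ℍ → ℝ) : ∫ v : ℍ, F v = ∫ q : ℝ × ℝ, F (pt q) := by
  have : Measure.IsAddHaarMeasure volume (G := ℝ × ℝ) := Measure.prod.instIsAddHaarMeasure _ _
  let G : ℂ → ℝ := fun z => (1 / z.im) ^ 2 * F (ofComplex z)
  have h1 : ∫ v : ℍ, F v = ∫ z in range UpperHalfPlane.coe, G z := by
    rw [volume_def, integral_withDensity_eq_integral_smul, ← measurableEmbedding_coe.map_comap,
      measurableEmbedding_coe.integral_map]
    · refine integral_congr_ae (Eventually.of_forall fun v => ?_)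
      simp [G, NNReal.smul_def]
    · refine Continuous.measurable (.pow (.div₀ continuous_const ?_ ?_) _)
      · exact continuous_im.subtype_mk _
      · exact fun x ↦ NNReal.ne_iff.mp x.im_ne_zero
  let Φ : ℝ × ℝ → ℝ × ℝ := fun q => (q.2 * exp (-q.1), exp (-q.1))
  let Φ' : ℝ × ℝ → ℝ × ℝ →L[ℝ] ℝ × ℝ := fun q => (Matrix.toLin (.finTwoProd ℝ) (.finTwoProd ℝ)
    !![-(q.2 * exp (-q.1)), exp (-q.1); -exp (-q.1), 0]).toContinuousLinearMap
  have hd : ∀ q, HasFDerivAt Φ (Φ' q) q := by
    intro q
    have he : HasFDerivAt (fun q : ℝ × ℝ => exp (-q.1))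
        (exp (-q.1) • -ContinuousLinearMap.fst ℝ ℝ ℝ) q := (hasFDerivAt_fst.neg).exp
    simp only [Φ', Matrix.toLin_finTwoProd_toContinuousLinearMap]
    convert! HasFDerivAt.prodMk (𝕜 := ℝ) (hasFDerivAt_snd.mul he) he using 2 <;>
    simp [smul_smul, neg_smul _ (ContinuousLinearMap.fst ℝ ℝ ℝ)]
  have hdet : ∀ q, (Φ' q).det = exp (-q.1) ^ 2 := by
    intro q
    simp only [Φ', LinearMap.det_toContinuousLinearMap, LinearMap.det_toLin,
      Matrix.det_fin_two_of]
    ring
  have hinj : InjOn Φ univ := by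
    rintro ⟨s, t⟩ - ⟨s', t'⟩ - h
    simp only [Φ, Prod.mk.injEq, exp_eq_exp, neg_inj] at h
    obtain ⟨h1, rfl⟩ := h
    rw [mul_right_cancel₀ (exp_pos _).ne' h1]
  have h2 := integral_image_eq_integral_abs_det_fderiv_smul volume MeasurableSet.univ
    (fun q _ => (hd q).hasFDerivWithinAt) hinj (fun p => G (Complex.measurableEquivRealProd.symm p))
  have h3 : range UpperHalfPlane.coe = Complex.measurableEquivRealProd ⁻¹' (Φ '' univ) := by
    ext z
    constructor
    · rintro ⟨v, rfl⟩
      refine ⟨(-log v.im, v.re / v.im), trivial, ?_⟩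
      have := v.im_pos
      simp [Φ, exp_log this, this.ne']
    · rintro ⟨q, -, hq⟩
      refine ⟨pt q, ?_⟩
      apply Complex.measurableEquivRealProd.injective
      rw [← hq]
      rfl
  have h4 := Complex.volume_preserving_equiv_real_prod.setIntegral_preimage_emb
    Complex.measurableEquivRealProd.measurableEmbedding
    (fun p => G (Complex.measurableEquivRealProd.symm p)) (Φ '' univ)
  simp only [MeasurableEquiv.symm_apply_apply] at h4
  rw [h1, h3, h4, h2, Measure.restrict_univ]
  refine integral_congr_ae (Eventually.of_forall fun q => ?_)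
  have e : Complex.measurableEquivRealProd.symm (Φ q) = (pt q : ℂ) := rfl
  have := exp_pos (-q.1)
  simp only [hdet, e, G, ofComplex_apply, coe_im, pt_im, smul_eq_mul, abs_sq]
  field_simp

theorem supp_row {r : ℝ} {k : ℍ → ℍ → ℝ} (h : K1.Good r k) (z : ℍ) : HasCompactSupport (k z) :=
  HasCompactSupport.intro (isCompact_closedBall z r) fun v hv =>
    h.supp _ _ (by rwa [Metric.mem_closedBall, not_le, dist_comm] at hv)

theorem cont_row {r : ℝ} {k : ℍ → ℍ → ℝ} (h : K1.Good r k) (z : ℍ) : Continuous (k z) :=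
  h.cont.comp (f := fun v : ℍ => (z, v)) (by fun_prop)

theorem int_row {r : ℝ} {k : ℍ → ℍ → ℝ} (h : K1.Good r k) (z : ℍ) : Integrable (k z) :=
  (cont_row h z).integrable_of_hasCompactSupport (supp_row h z)

theorem int_pt {r : ℝ} {k : ℍ → ℍ → ℝ} (h : K1.Good r k) :
    Integrable fun q : ℝ × ℝ => k I (pt q) := by
  refine ((cont_row h I).comp cont_pt).integrable_of_hasCompactSupport ?_
  have hc : Continuous fun v : ℍ => (-log v.im, v.re / v.im) :=
    .prodMk (continuous_im.log fun v => v.im_ne_zero).neg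
      (continuous_re.div continuous_im fun v => v.im_ne_zero)
  refine HasCompactSupport.intro ((isCompact_closedBall I r).image hc) fun q hq => ?_
  refine h.supp _ _ (not_le.1 fun h1 => hq ⟨pt q, by rwa [Metric.mem_closedBall, dist_comm], ?_⟩)
  simp [pt_re, pt_im]

/-- The mass of a kernel. -/
def mass (k : ℍ → ℍ → ℝ) : ℝ := ∫ v : ℍ, k I v

theorem mass_row {r : ℝ} {k : ℍ → ℍ → ℝ} (h : K1.Good r k) (z : ℍ) : ∫ v : ℍ, k z v = mass k := by
  rw [mass, ← K1.int_smul z.toSL2R]
  refine integral_congr_ae (Eventually.of_forall fun v => ?_)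
  simp only
  rw [← h.inv z.toSL2R I v, toSL2R_smul_I]

theorem mass_nonneg {r : ℝ} {k : ℍ → ℍ → ℝ} (h : K1.Good r k) : 0 ≤ mass k :=
  integral_nonneg fun _ => h.nonneg _ _

theorem mass_conv {r s : ℝ} {a b : ℍ → ℍ → ℝ} (ha : K1.Good r a) (hb : K1.Good s b) :
    mass (fun z w => ∫ v : ℍ, a z v * b v w) = mass a * mass b := by
  have h : Integrable (Function.uncurry fun w v => a I v * b v w)
      ((volume : Measure ℍ).prod volume) := by
    refine Continuous.integrable_of_hasCompactSupport
      ((ha.cont.comp (f := fun x : ℍ × ℍ => (I, x.2)) (by fun_prop)).mul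
        (hb.cont.comp (f := fun x : ℍ × ℍ => (x.2, x.1)) (by fun_prop))) ?_
    refine HasCompactSupport.intro
      ((isCompact_closedBall I (r + s)).prod (isCompact_closedBall I r)) fun x hx => ?_
    simp only [Set.mem_prod, Metric.mem_closedBall, not_and_or, not_le] at hx
    by_cases h1 : r < dist I x.2
    · simp [Function.uncurry, ha.supp _ _ h1]
    · rcases hx with h | h
      · have := dist_triangle x.1 x.2 I
        rw [dist_comm x.1 x.2, dist_comm x.2 I] at this
        simp [Function.uncurry, hb.supp x.2 x.1 (by linarith)]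
      · exact absurd (by rwa [dist_comm]) h1
  rw [mass, integral_integral_swap h]
  simp only [integral_const_mul, mass_row hb]
  rw [integral_mul_const]
  rfl

/-- The mass of the tent kernel. -/
def m (R : ℝ) : ℝ := mass fun z w => tent R (dist z w)

theorem mass_ker (R : ℝ) : ∀ j : ℕ, mass (ker R j) = m R ^ (j + 1)
  | 0 => by rw [zero_add, pow_one]; rfl
  | j + 1 => by
    rw [pow_succ', ← mass_ker R j]
    exact mass_conv (K1.good_tent R) (K1.good_ker R j)

theorem mass_eq {r : ℝ} {k : ℍ → ℍ → ℝ} (h : K1.Good r k) :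
    mass k = ∫ s : ℝ, ∫ t : ℝ, k I (pt (s, t)) := by
  rw [mass, coord]
  exact integral_prod _ (int_pt h)

theorem itot (R : ℝ) (j : ℕ) : Itot (prof R (j + 1)) = m R ^ (j + 1) := by
  have h := K1.good_ker R j
  rw [← mass_ker, mass_eq h]
  refine integral_congr_ae (Eventually.of_forall fun s => ?_)
  refine integral_congr_ae (Eventually.of_forall fun t => ?_)
  simp only
  rw [h.radial, dist_pt]
  rfl

theorem tent_le (R r : ℝ) : tent R r ≤ 1 := max_le zero_le_one (min_le_left _ _)

theorem m_ge {R : ℝ} (hR : 2 ≤ R) : 1 / 9 * exp R ≤ m R := by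
  have he : exp 1 ≤ 3 := exp_one_lt_d9.le.trans (by norm_num)
  have he' : 27 / 10 ≤ exp 1 := le_trans (by norm_num) exp_one_gt_d9.le
  obtain ⟨U, hU⟩ : ∃ U, U = exp (R - 1) := ⟨_, rfl⟩
  have hU1 : 27 / 10 ≤ U := he'.trans (hU ▸ exp_le_exp.2 (by linarith))
  have hU2 : exp R ≤ 3 * U := by
    rw [show R = 1 + (R - 1) by ring, exp_add, ← hU]
    gcongr
  let B : Set (ℝ × ℝ) := Icc (R - 2) (R - 3 / 2) ×ˢ Icc (-(U / 3)) (U / 3)
  have hB : MeasurableSet B := measurableSet_Icc.prod measurableSet_Icc
  have hv : volume.real B = U / 3 := by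
    rw [Measure.volume_eq_prod, measureReal_prod_prod, Real.volume_real_Icc_of_le (by linarith),
      Real.volume_real_Icc_of_le (by linarith)]
    ring
  have h1 : ∫ q, B.indicator (fun _ => (1 : ℝ)) q ≤ m R := by
    rw [m, mass, coord]
    refine integral_mono_of_nonneg
      (Eventually.of_forall fun q => indicator_nonneg (fun _ _ => zero_le_one) q)
      (int_pt (K1.good_tent R)) (Eventually.of_forall fun q => ?_)
    by_cases hq : q ∈ B
    · rw [indicator_of_mem hq]
      obtain ⟨⟨h1, h2⟩, h3, h4⟩ := hq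
      have a1 : U ≤ 3 * exp q.1 := by
        rw [hU]
        calc exp (R - 1) ≤ exp (1 + q.1) := exp_le_exp.2 (by linarith)
          _ ≤ 3 * exp q.1 := by rw [exp_add]; gcongr
      have a2 : 3 / 2 * exp q.1 ≤ U := by
        rw [hU]
        calc 3 / 2 * exp q.1 ≤ exp (1 / 2) * exp q.1 := by
              gcongr
              linarith [add_one_le_exp (1 / 2 : ℝ)]
          _ ≤ exp (R - 1) := by rw [← exp_add]; exact exp_le_exp.2 (by linarith)
      have a3 : cosh (dist I (pt q)) ≤ cosh (R - 1) := by
        rw [cosh_pt, cosh_eq, exp_neg, ← hU]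
        have hY := exp_pos q.1
        generalize exp q.1 = Y at a1 a2 hY
        have b1 : q.2 ^ 2 ≤ (U / 3) ^ 2 := sq_le_sq' h3 h4
        have b2 : 1 / 3 ≤ Y * U⁻¹ := by
          rw [← div_eq_mul_inv, le_div_iff₀ (by linarith)]
          linarith
        rw [div_le_iff₀ (by positivity)]
        nlinarith [mul_nonneg (sub_nonneg.2 a1) (sub_nonneg.2 a2)]
      rw [cosh_le_cosh, abs_of_nonneg dist_nonneg, abs_of_nonneg (by linarith)] at a3
      exact le_max_of_le_right (le_min le_rfl (by linarith))
    · rw [indicator_of_notMem hq]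
      exact le_max_left _ _
  rw [integral_indicator_const _ hB, hv, smul_eq_mul] at h1
  linarith

theorem m_le {R : ℝ} (hR : 0 ≤ R) : m R ≤ 16 * exp R := by
  rw [m, mass_eq (K1.good_tent R)]
  have h2 : (0 : ℝ) < 1 / 2 := by norm_num
  have hi := ((integrableOn_exp_mul_Iic h2 (R + 1)).const_mul (4 * exp (R / 2)))
  have he : exp (1 / 2) ≤ 2 := by
    have h : exp (1 / 2) ^ 2 ≤ 2 ^ 2 := by
      rw [← exp_nat_mul]
      norm_num
      exact exp_one_lt_d9.le.trans (by norm_num)
    exact (pow_le_pow_iff_left₀ (exp_pos _).le (by norm_num) two_ne_zero).1 h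
  calc _ ≤ ∫ s : ℝ, (Iic (R + 1)).indicator (fun s => 4 * exp (R / 2) * exp (1 / 2 * s)) s := by
        refine integral_mono_of_nonneg
          (Eventually.of_forall fun s => integral_nonneg fun t => le_max_left _ _)
          ((integrable_indicator_iff measurableSet_Iic).2 hi) (Eventually.of_forall fun s => ?_)
        have key : ∀ t, tent R (dist I (pt (s, t))) ≠ 0 →
            t ^ 2 + exp s ^ 2 ≤ 2 * exp s * exp R := by
          intro t ht
          have a1 : dist I (pt (s, t)) ≤ R := not_lt.1 fun h => ht ((K1.good_tent R).supp _ _ h)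
          have a2 : cosh (dist I (pt (s, t))) ≤ exp R := by
            have : cosh (dist I (pt (s, t))) ≤ cosh R := by
              rwa [cosh_le_cosh, abs_of_nonneg dist_nonneg, abs_of_nonneg hR]
            rw [cosh_eq R] at this
            linarith [exp_le_exp.2 (show -R ≤ R by linarith)]
          rw [cosh_pt, div_le_iff₀ (by positivity)] at a2
          simp only at a2
          linarith
        by_cases hs : s ∈ Iic (R + 1)
        · rw [indicator_of_mem hs]
          obtain ⟨b, hb⟩ : ∃ b, b = exp (R / 2) * exp (1 / 2 * s) := ⟨_, rfl⟩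
          have hb0 : 0 < b := by rw [hb]; positivity
          have hb2 : b ^ 2 = exp s * exp R := by
            rw [hb, ← exp_add, ← exp_add, ← exp_nat_mul]
            congr 1
            push_cast
            ring
          calc _ ≤ ∫ t : ℝ, (Icc (-(2 * b)) (2 * b)).indicator (fun _ => (1 : ℝ)) t := by
                refine integral_mono_of_nonneg (Eventually.of_forall fun t => le_max_left _ _)
                  ((integrable_indicator_iff measurableSet_Icc).2 (integrableOn_const (by simp)))
                  (Eventually.of_forall fun t => ?_)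
                by_cases ht : tent R (dist I (pt (s, t))) = 0
                · exact ht.le.trans (indicator_nonneg (fun _ _ => zero_le_one) t)
                · have := key t ht
                  have h3 : t ^ 2 ≤ (2 * b) ^ 2 := by nlinarith [sq_nonneg (exp s), sq_nonneg b]
                  have h4 : t ∈ Icc (-(2 * b)) (2 * b) := abs_le_of_sq_le_sq' h3 (by linarith)
                  rw [indicator_of_mem h4]
                  exact tent_le _ _
            _ = _ := by
                rw [integral_indicator_const _ measurableSet_Icc,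
                  Real.volume_real_Icc_of_le (by linarith), mul_assoc, ← hb, smul_eq_mul]
                ring
        · rw [indicator_of_notMem hs]
          refine (integral_eq_zero_of_ae (Eventually.of_forall fun t => ?_)).le
          by_contra ht
          have h3 := key t ht
          have h4 : exp R * 2 < exp s := by
            calc exp R * 2 ≤ exp R * exp 1 := by
                  gcongr
                  linarith [add_one_le_exp (1 : ℝ)]
              _ < exp s := by rw [← exp_add]; exact exp_lt_exp.2 (not_le.1 hs)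
          nlinarith [sq_nonneg t, exp_pos s]
    _ ≤ _ := by
        rw [integral_indicator measurableSet_Iic, integral_const_mul, integral_exp_mul_Iic h2,
          show 1 / 2 * (R + 1) = R / 2 + 1 / 2 by ring, exp_add]
        have : exp (R / 2) * exp (R / 2) = exp R := by rw [← exp_add, add_halves]
        have h5 := mul_le_mul_of_nonneg_left he (exp_pos R).le
        calc _ = 8 * (exp (R / 2) * exp (R / 2) * exp (1 / 2)) := by ring
          _ ≤ _ := by rw [this]; linarith

theorem pack (hf : {γ : SL(2, ℤ) | dist I (γ • I) ≤ 4}.Finite) :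
    ∃ C : ℝ, 0 < C ∧ ∀ R : ℝ, 2 ≤ R → ∀ (S : Finset SL(2, ℤ)) (v : ℍ),
      ∑ γ ∈ S, tent R (dist v (γ • I)) ≤ C * m R := by
  classical
  obtain ⟨M, hM⟩ : ∃ M : ℕ, M = hf.toFinset.card := ⟨_, rfl⟩
  have hmul : ∀ (S : Finset SL(2, ℤ)) (u : ℍ), ∑ γ ∈ S, tent 2 (dist (γ • I) u) ≤ M := by
    intro S u
    rw [← Finset.sum_filter_of_ne (p := fun γ => dist (γ • I) u ≤ 2)
      fun γ _ h => not_lt.1 fun h' => h ((K1.good_tent 2).supp _ _ h')]
    refine (Finset.sum_le_card_nsmul _ _ 1 fun γ _ => tent_le _ _).trans ?_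
    rw [nsmul_eq_mul, mul_one, Nat.cast_le, hM]
    rcases (S.filter fun γ => dist (γ • I) u ≤ 2).eq_empty_or_nonempty with h | ⟨γ₀, h⟩
    · rw [h]
      exact Nat.zero_le _
    · refine Finset.card_le_card_of_injOn (fun γ => γ₀⁻¹ * γ) (fun γ hγ => ?_)
        fun a _ b _ h => mul_left_cancel h
      have h1 := (Finset.mem_filter.1 h).2
      have h2 := (Finset.mem_filter.1 hγ).2
      have h3 := dist_triangle_right (γ₀ • I) (γ • I) u
      simp only [Finite.coe_toFinset, mem_ofPred_eq]
      rw [← K1.dist_smulZ γ₀, mul_smul, smul_inv_smul]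
      linarith
  have h2 : 0 < m 2 := lt_of_lt_of_le (by positivity) (m_ge le_rfl)
  refine ⟨(M + 1) * (144 * exp 3) / m 2, by positivity, fun R hR S v => ?_⟩
  have g2 := K1.good_tent 2
  have g3 := K1.good_tent (R + 3)
  have hi : ∀ γ : SL(2, ℤ), Integrable fun u : ℍ =>
      tent (R + 3) (dist v u) * tent 2 (dist (γ • I) u) := fun γ =>
    ((cont_row g3 v).mul (cont_row g2 (γ • I))).integrable_of_hasCompactSupport
      (supp_row g3 v).mul_right
  have h3 : ∀ γ : SL(2, ℤ), tent R (dist v (γ • I)) * m 2 ≤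
      ∫ u : ℍ, tent (R + 3) (dist v u) * tent 2 (dist (γ • I) u) := by
    intro γ
    rw [m, ← mass_row g2 (γ • I), ← integral_const_mul]
    refine integral_mono ((int_row g2 _).const_mul _) (hi γ) fun u => ?_
    by_cases h : 2 < dist (γ • I) u
    · have : tent 2 (dist (γ • I) u) = 0 := g2.supp _ _ h
      simp only [this, mul_zero, le_refl]
    · refine mul_le_mul_of_nonneg_right ?_ (le_max_left _ _)
      have := dist_triangle v (γ • I) u
      exact max_le_max le_rfl (min_le_min le_rfl (by linarith))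
  have h4 : (∑ γ ∈ S, tent R (dist v (γ • I))) * m 2 ≤ M * m (R + 3) := by
    rw [Finset.sum_mul]
    refine (Finset.sum_le_sum fun γ _ => h3 γ).trans ?_
    rw [← integral_finsetSum _ fun γ _ => hi γ, m, ← mass_row g3 v, ← integral_const_mul]
    refine integral_mono (integrable_finsetSum _ fun γ _ => hi γ) ((int_row g3 v).const_mul _)
      fun u => ?_
    simp only
    rw [← Finset.mul_sum, mul_comm]
    exact mul_le_mul_of_nonneg_right (hmul S u) (le_max_left _ _)
  have h5 : m (R + 3) ≤ 144 * exp 3 * m R := by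
    have a := m_le (R := R + 3) (by linarith)
    have b := m_ge hR
    rw [exp_add] at a
    nlinarith [exp_pos 3]
  have h6 : 0 ≤ m (R + 3) := mass_nonneg g3
  rw [div_mul_eq_mul_div, le_div_iff₀ h2]
  calc _ ≤ (M + 1) * m (R + 3) := h4.trans (by nlinarith)
    _ ≤ (M + 1) * (144 * exp 3 * m R) := by gcongr
    _ = _ := by ring

end K3

theorem k3 (G : GeoStmt) (_ : K1Stmt) : K3Stmt := by
  have hf := G.2.2.2.2.2.2.2.1
  obtain ⟨C, hC, h⟩ := K3.pack (hf I I 4)
  refine ⟨1 / 9, C, by norm_num, hC, fun R j hR hj => ?_⟩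
  obtain ⟨j, rfl⟩ : ∃ i, j = i + 1 := ⟨j - 1, by omega⟩
  rw [K3.itot]
  refine ⟨pow_le_pow_left₀ (by positivity) (K3.m_ge hR) _, fun z => ?_⟩
  have g := K1.good_ker R j
  have e : ∀ γ : SL(2, ℤ), prof R (j + 1) (dist z (γ • I)) = ker R j z (γ • I) := fun γ =>
    (g.radial z (γ • I)).symm
  simp only [e]
  rw [tsum_eq_sum (s := (hf z I ((j + 1 : ℕ) * R)).toFinset) fun γ hγ =>
    g.supp _ _ (by simpa using hγ)]
  generalize (hf z I ((j + 1 : ℕ) * R)).toFinset = S
  rcases j with _ | j
  · rw [zero_add, pow_one]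
    exact h R hR S z
  · have g' := K1.good_ker R j
    have gt := K1.good_tent R
    have hi : ∀ γ : SL(2, ℤ), Integrable fun v : ℍ => ker R j z v * tent R (dist v (γ • I)) :=
      fun γ => ((K3.cont_row g' z).mul
        (gt.cont.comp (f := fun v : ℍ => (v, γ • I)) (by fun_prop))).integrable_of_hasCompactSupport
        (K3.supp_row g' z).mul_right
    have e' : ∀ w, ker R (j + 1) z w = ∫ v : ℍ, ker R j z v * tent R (dist v w) :=
      fun w => K1.ker_add R 0 j z w
    simp only [e']
    rw [← integral_finsetSum _ fun γ _ => hi γ]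
    calc _ ≤ ∫ v : ℍ, ker R j z v * (C * K3.m R) := by
          refine integral_mono (integrable_finsetSum _ fun γ _ => hi γ)
            ((K3.int_row g' z).mul_const _) fun v => ?_
          simp only
          rw [← Finset.mul_sum]
          exact mul_le_mul_of_nonneg_left (h R hR S v) (g'.nonneg _ _)
      _ = _ := by
          rw [integral_mul_const, K3.mass_row g', K3.mass_ker]
          ring

end Pool.Agent.Lib.MP_4b1228_nt.PP
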