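import Pool.Agent.Lib.MP_4b1228_nt.PP.St

/-!
The Cauchy-Schwarz inequality on the quotient, by unfolding against a measurable partition of unity.
-/

set_option autoImplicit false
set_option linter.unusedSectionVars false

open Finset Real Filter UpperHalfPlane MeasureTheory
open scoped MatrixGroups Classical

noncomputable section

namespace Pool.Agent.Lib.MP_4b1228_nt.PP

namespace K4

section abs

variable {Γ H 𝒳 : Type} [Group Γ] [MulAction Γ H] [MeasurableSpace H] [Fintype 𝒳]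

/-- The number of translates in `Ω`. -/
def cnt (Ω : Set H) (S : Finset Γ) (w : H) : ℝ := ∑ γ ∈ S, if γ • w ∈ Ω then 1 else 0

/-- The partition of unity. -/
def eta (Ω : Set H) (S : Finset Γ) (w : H) : ℝ := if w ∈ Ω then 1 / cnt Ω S w else 0

/-- The folded pairing. -/
def BB (μ : Measure H) (act : Γ → 𝒳 → 𝒳) (S : Finset Γ) (F G : 𝒳 → H → ℝ) : ℝ :=
  ∑ y, ∑ γ ∈ S, ∫ v, F y v * G (act γ y) (γ⁻¹ • v) ∂μ

/-- The periodisation. -/
def per (act : Γ → 𝒳 → 𝒳) (S : Finset Γ) (F : 𝒳 → H → ℝ) (y : 𝒳) (w : H) : ℝ :=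
  ∑ σ ∈ S, F (act σ y) (σ⁻¹ • w)

theorem shiftL (S : Finset Γ) (σ : Γ) (h : Γ → ℝ) (h1 : ∀ γ, h γ ≠ 0 → γ ∈ S)
    (h2 : ∀ γ, h (σ * γ) ≠ 0 → γ ∈ S) : ∑ γ ∈ S, h (σ * γ) = ∑ γ ∈ S, h γ := by
  rw [← tsum_eq_sum (L := SummationFilter.unconditional Γ) (f := fun γ => h (σ * γ)) (s := S)
      (fun γ hγ => by by_contra hc; exact hγ (h2 γ hc)),
    ← tsum_eq_sum (L := SummationFilter.unconditional Γ) (f := h) (s := S)
      (fun γ hγ => by by_contra hc; exact hγ (h1 γ hc))]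
  exact (Equiv.mulLeft σ).tsum_eq h

theorem shiftR (S : Finset Γ) (σ : Γ) (h : Γ → ℝ) (h1 : ∀ γ, h γ ≠ 0 → γ ∈ S)
    (h2 : ∀ γ, h (γ * σ) ≠ 0 → γ ∈ S) : ∑ γ ∈ S, h (γ * σ) = ∑ γ ∈ S, h γ := by
  rw [← tsum_eq_sum (L := SummationFilter.unconditional Γ) (f := fun γ => h (γ * σ)) (s := S)
      (fun γ hγ => by by_contra hc; exact hγ (h2 γ hc)),
    ← tsum_eq_sum (L := SummationFilter.unconditional Γ) (f := h) (s := S)
      (fun γ hγ => by by_contra hc; exact hγ (h1 γ hc))]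
  exact (Equiv.mulRight σ).tsum_eq h

theorem cnt_nonneg (Ω : Set H) (S : Finset Γ) (w : H) : 0 ≤ cnt Ω S w :=
  sum_nonneg fun _ _ => by split_ifs <;> norm_num

theorem one_le_cnt {Ω : Set H} {S : Finset Γ} (hS : ∀ (γ : Γ) (v : H), v ∈ Ω → γ • v ∈ Ω → γ ∈ S)
    {w : H} (hw : w ∈ Ω) : 1 ≤ cnt Ω S w := by
  have h1 : (1 : Γ) ∈ S := hS 1 w hw (by simpa using hw)
  have := single_le_sum (f := fun γ : Γ => if γ • w ∈ Ω then (1 : ℝ) else 0)
    (fun _ _ => by split_ifs <;> norm_num) h1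
  simpa [cnt, hw] using this

theorem cnt_smul {Ω : Set H} {S : Finset Γ} (hS : ∀ (γ : Γ) (v : H), v ∈ Ω → γ • v ∈ Ω → γ ∈ S)
    {w : H} (hw : w ∈ Ω) (σ : Γ) (hσ : σ • w ∈ Ω) : cnt Ω S (σ • w) = cnt Ω S w := by
  unfold cnt
  rw [← shiftR S σ (fun γ => if γ • w ∈ Ω then (1 : ℝ) else 0)]
  · simp only [mul_smul]
  · intro γ h
    by_cases hc : γ • w ∈ Ω
    · exact hS γ w hw hc
    · simp [hc] at h
  · intro γ h
    by_cases hc : (γ * σ) • w ∈ Ω
    · exact hS γ (σ • w) hσ (by simpa [mul_smul] using hc)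
    · simp [hc] at h

theorem sum_eta {Ω : Set H} {S : Finset Γ} (hS : ∀ (γ : Γ) (v : H), v ∈ Ω → γ • v ∈ Ω → γ ∈ S)
    {w : H} (hw : w ∈ Ω) : ∑ σ ∈ S, eta Ω S (σ • w) = 1 := by
  have h1 := one_le_cnt hS hw
  have h : ∀ σ ∈ S, eta Ω S (σ • w) = (if σ • w ∈ Ω then (1 : ℝ) else 0) / cnt Ω S w := by
    intro σ _
    unfold eta
    split_ifs with hc
    · rw [cnt_smul hS hw σ hc]
    · simp
  rw [sum_congr rfl h, ← sum_div]
  exact div_self (by change cnt Ω S w ≠ 0; linarith)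

theorem eta_nonneg (Ω : Set H) (S : Finset Γ) (w : H) : 0 ≤ eta Ω S w := by
  unfold eta
  split_ifs
  · exact div_nonneg zero_le_one (cnt_nonneg _ _ _)
  · exact le_rfl

theorem eta_le {Ω : Set H} {S : Finset Γ} (hS : ∀ (γ : Γ) (v : H), v ∈ Ω → γ • v ∈ Ω → γ ∈ S)
    (w : H) : eta Ω S w ≤ 1 := by
  unfold eta
  split_ifs with hw
  · have := one_le_cnt hS hw
    rw [div_le_one (by linarith)]
    exact this
  · exact zero_le_one

theorem eta_meas [MeasurableConstSMul Γ H] {Ω : Set H} (hΩ : MeasurableSet Ω) (S : Finset Γ) :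
    Measurable (eta Ω S) := by
  unfold eta
  refine Measurable.ite hΩ (measurable_const.div ?_) measurable_const
  unfold cnt
  refine Finset.measurable_sum _ fun γ _ => ?_
  exact Measurable.ite (measurable_const_smul γ hΩ) measurable_const measurable_const

variable [MeasurableConstSMul Γ H] {μ : Measure H} [SMulInvariantMeasure Γ H μ]

theorem lp_smul {f : H → ℝ} (hf : MemLp f 2 μ) (σ : Γ) : MemLp (fun v => f (σ • v)) 2 μ :=
  hf.comp_measurePreserving (measurePreserving_smul σ μ)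

theorem int_eta {Ω : Set H} (hΩ : MeasurableSet Ω) {S : Finset Γ}
    (hS : ∀ (γ : Γ) (v : H), v ∈ Ω → γ • v ∈ Ω → γ ∈ S) (σ : Γ) {f g : H → ℝ}
    (hf : MemLp f 2 μ) (hg : MemLp g 2 μ) :
    Integrable (fun v => eta Ω S (σ • v) * (f v * g v)) μ := by
  refine Integrable.bdd_mul (c := 1) (hf.integrable_mul hg)
    ((eta_meas hΩ S).comp (measurable_const_smul σ)).aestronglyMeasurable ?_
  refine Eventually.of_forall fun v => ?_
  rw [Real.norm_eq_abs, abs_of_nonneg (eta_nonneg _ _ _)]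
  exact eta_le hS _

theorem int_eta1 {Ω : Set H} (hΩ : MeasurableSet Ω) {S : Finset Γ}
    (hS : ∀ (γ : Γ) (v : H), v ∈ Ω → γ • v ∈ Ω → γ ∈ S) {f g : H → ℝ}
    (hf : MemLp f 2 μ) (hg : MemLp g 2 μ) :
    Integrable (fun v => eta Ω S v * (f v * g v)) μ := by
  simpa using int_eta hΩ hS (1 : Γ) hf hg

theorem per_lp (act : Γ → 𝒳 → 𝒳) (S : Finset Γ) {F : 𝒳 → H → ℝ} (hF : ∀ y, MemLp (F y) 2 μ)
    (y : 𝒳) : MemLp (per act S F y) 2 μ := by
  unfold per
  exact memLp_finsetSum S fun σ _ => lp_smul (hF _) σ⁻¹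

/-- Unfolding. -/
theorem unfold_eq (act : Γ → 𝒳 → 𝒳) (h1 : ∀ x, act 1 x = x)
    (hm : ∀ γ σ x, act (γ * σ) x = act σ (act γ x)) {Ω : Set H} (hΩ : MeasurableSet Ω)
    {S : Finset Γ} (hS : ∀ (γ : Γ) (v : H), v ∈ Ω → γ • v ∈ Ω → γ ∈ S) {F G : 𝒳 → H → ℝ}
    (hF : ∀ y, MemLp (F y) 2 μ) (hG : ∀ y, MemLp (G y) 2 μ)
    (sF : ∀ y v, F y v ≠ 0 → v ∈ Ω) (sG : ∀ y v, G y v ≠ 0 → v ∈ Ω) :
    BB μ act S F G = ∑ y, ∫ w, eta Ω S w * (per act S F y w * per act S G y w) ∂μ := by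
  set U : 𝒳 → Γ → Γ → ℝ := fun y σ τ =>
    ∫ w, eta Ω S w * (F (act σ y) (σ⁻¹ • w) * G (act τ y) (τ⁻¹ • w)) ∂μ with hU
  have e1 : ∀ (y : 𝒳) (γ : Γ), ∫ v, F y v * G (act γ y) (γ⁻¹ • v) ∂μ =
      ∑ σ ∈ S, U (act σ⁻¹ y) σ (σ * γ) := by
    intro y γ
    have a1 : ∀ v, F y v * G (act γ y) (γ⁻¹ • v) =
        ∑ σ ∈ S, eta Ω S (σ • v) * (F y v * G (act γ y) (γ⁻¹ • v)) := by
      intro v
      rw [← sum_mul]
      by_cases hv : F y v = 0
      · simp [hv]
      · rw [sum_eta hS (sF y v hv), one_mul]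
    rw [integral_congr_ae (Eventually.of_forall a1),
      integral_finsetSum _ fun σ _ => int_eta hΩ hS σ (hF y) (lp_smul (hG _) γ⁻¹)]
    refine sum_congr rfl fun σ _ => ?_
    have a2 : act σ (act σ⁻¹ y) = y := by rw [← hm, inv_mul_cancel, h1]
    have a3 : act (σ * γ) (act σ⁻¹ y) = act γ y := by rw [hm, a2]
    simp only [hU, a2, a3]
    rw [← integral_smul_eq_self (μ := μ) (g := σ)
      (fun w => eta Ω S w * (F y (σ⁻¹ • w) * G (act γ y) ((σ * γ)⁻¹ • w)))]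
    simp only [mul_inv_rev, mul_smul, inv_smul_smul]
  have e2 : ∀ (y : 𝒳) (σ : Γ), ∑ γ ∈ S, U y σ (σ * γ) = ∑ τ ∈ S, U y σ τ := by
    intro y σ
    have b : ∀ τ, U y σ τ ≠ 0 → ∃ w, w ∈ Ω ∧ σ⁻¹ • w ∈ Ω ∧ τ⁻¹ • w ∈ Ω := by
      intro τ h
      by_contra hc
      apply h
      simp only [hU]
      refine integral_eq_zero_of_ae (Eventually.of_forall fun w => ?_)
      by_contra hw
      simp only [Pi.zero_apply, mul_eq_zero, not_or] at hw
      refine hc ⟨w, ?_, sF _ _ hw.2.1, sG _ _ hw.2.2⟩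
      by_contra hn
      exact hw.1 (by simp [eta, hn])
    refine shiftL S σ (U y σ) (fun τ h => ?_) fun γ h => ?_
    · obtain ⟨w, hw, -, hτ⟩ := b τ h
      exact hS τ _ hτ (by simpa using hw)
    · obtain ⟨w, -, hσ, hτ⟩ := b _ h
      exact hS γ _ hτ (by simpa [mul_smul] using hσ)
  have e3 : ∀ σ : Γ, ∑ y, ∑ γ ∈ S, U (act σ⁻¹ y) σ (σ * γ) = ∑ y, ∑ τ ∈ S, U y σ τ := by
    intro σ
    simp only [e2]
    refine Fintype.sum_equiv ⟨act σ⁻¹, act σ, fun y => ?_, fun y => ?_⟩ _ _ fun _ => rfl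
    · rw [← hm, inv_mul_cancel, h1]
    · rw [← hm, mul_inv_cancel, h1]
  have e4 : ∀ y : 𝒳, ∫ w, eta Ω S w * (per act S F y w * per act S G y w) ∂μ =
      ∑ σ ∈ S, ∑ τ ∈ S, U y σ τ := by
    intro y
    have c1 : ∀ w, eta Ω S w * (per act S F y w * per act S G y w) = ∑ σ ∈ S, ∑ τ ∈ S,
        eta Ω S w * (F (act σ y) (σ⁻¹ • w) * G (act τ y) (τ⁻¹ • w)) := by
      intro w
      unfold per
      rw [sum_mul_sum]
      simp only [mul_sum]
    have c2 : ∀ σ τ : Γ, Integrable (fun w =>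
        eta Ω S w * (F (act σ y) (σ⁻¹ • w) * G (act τ y) (τ⁻¹ • w))) μ := fun σ τ =>
      int_eta1 hΩ hS (lp_smul (hF _) σ⁻¹) (lp_smul (hG _) τ⁻¹)
    rw [integral_congr_ae (Eventually.of_forall c1),
      integral_finsetSum _ fun σ _ => integrable_finsetSum _ fun τ _ => c2 σ τ]
    exact sum_congr rfl fun σ _ => integral_finsetSum _ fun τ _ => c2 σ τ
  unfold BB
  simp only [e1, e4]
  calc ∑ y, ∑ γ ∈ S, ∑ σ ∈ S, U (act σ⁻¹ y) σ (σ * γ)
      = ∑ σ ∈ S, ∑ y, ∑ γ ∈ S, U (act σ⁻¹ y) σ (σ * γ) := by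
        rw [sum_comm (s := S)]
        exact sum_congr rfl fun y _ => sum_comm
    _ = ∑ σ ∈ S, ∑ y, ∑ τ ∈ S, U y σ τ := sum_congr rfl fun σ _ => e3 σ
    _ = _ := sum_comm

/-- The abstract inequality. -/
theorem cs (act : Γ → 𝒳 → 𝒳) (h1 : ∀ x, act 1 x = x)
    (hm : ∀ γ σ x, act (γ * σ) x = act σ (act γ x)) {Ω : Set H} (hΩ : MeasurableSet Ω)
    {S : Finset Γ} (hS : ∀ (γ : Γ) (v : H), v ∈ Ω → γ • v ∈ Ω → γ ∈ S) {F G : 𝒳 → H → ℝ}
    (hF : ∀ y, MemLp (F y) 2 μ) (hG : ∀ y, MemLp (G y) 2 μ)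
    (sF : ∀ y v, F y v ≠ 0 → v ∈ Ω) (sG : ∀ y v, G y v ≠ 0 → v ∈ Ω) :
    0 ≤ BB μ act S F F ∧ BB μ act S F G ^ 2 ≤ BB μ act S F F * BB μ act S G G := by
  rw [unfold_eq act h1 hm hΩ hS hF hF sF sF, unfold_eq act h1 hm hΩ hS hF hG sF sG,
    unfold_eq act h1 hm hΩ hS hG hG sG sG]
  refine ⟨sum_nonneg fun y _ => integral_nonneg fun w =>
    mul_nonneg (eta_nonneg _ _ _) (mul_self_nonneg _), ?_⟩
  have pF := per_lp act S hF
  have pG := per_lp act S hG
  have key := discrim_le_zero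
    (a := ∑ y, ∫ w, eta Ω S w * (per act S F y w * per act S F y w) ∂μ)
    (b := 2 * ∑ y, ∫ w, eta Ω S w * (per act S F y w * per act S G y w) ∂μ)
    (c := ∑ y, ∫ w, eta Ω S w * (per act S G y w * per act S G y w) ∂μ) (fun t => by
      rw [sum_mul, mul_sum, sum_mul, ← sum_add_distrib, ← sum_add_distrib]
      refine sum_nonneg fun y _ => ?_
      have i1 := (int_eta1 hΩ hS (pF y) (pF y)).mul_const (t * t)
      have i2 := ((int_eta1 hΩ hS (pF y) (pG y)).const_mul 2).mul_const t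
      have i3 := int_eta1 hΩ hS (pG y) (pG y)
      have i4 : Integrable (fun w => eta Ω S w * (per act S F y w * per act S F y w) * (t * t) +
          2 * (eta Ω S w * (per act S F y w * per act S G y w)) * t) μ := i1.add i2
      rw [← integral_mul_const, ← integral_const_mul, ← integral_mul_const,
        ← integral_add i1 i2, ← integral_add i4 i3]
      refine integral_nonneg fun w => ?_
      have := mul_nonneg (eta_nonneg Ω S w)
        (mul_self_nonneg (t * per act S F y w + per act S G y w))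
      simp only [Pi.zero_apply]
      linarith)
  unfold discrim at key
  nlinarith [key]

end abs

instance instMeas : MeasurableConstSMul SL(2, ℤ) ℍ :=
  ⟨fun γ => (continuous_const_smul (γ : GL (Fin 2) ℝ)).measurable⟩

instance instInv : SMulInvariantMeasure SL(2, ℤ) ℍ volume :=
  ⟨fun γ _ hs => SMulInvariantMeasure.measure_preimage_smul (γ : GL (Fin 2) ℝ) hs⟩

theorem dist_sl (γ : SL(2, ℤ)) (z w : ℍ) : dist (γ • z) (γ • w) = dist z w :=
  dist_smul (Matrix.SpecialLinearGroup.map (Int.castRingHom ℝ) γ) z w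

/-- The function attached to a family of weighted points. -/
def FF {𝒳 ι : Type} (R : ℝ) (i : ℕ) (s : Finset ι) (c : ι → ℝ) (x : ι → 𝒳) (z : ι → ℍ)
    (y : 𝒳) (v : ℍ) : ℝ := ∑ a ∈ s, (if y = x a then c a else 0) * kr R i (z a) v

theorem kr_lp (hK : K1Stmt) {R : ℝ} {i : ℕ} (hR : 1 ≤ R) (hi : 1 ≤ i) (z : ℍ) :
    MemLp (kr R i z) 2 volume := by
  obtain ⟨hc, -, -, hz, -⟩ := hK R i hR hi
  refine Continuous.memLp_of_hasCompactSupport (hc.comp (Continuous.prodMk_right z)) ?_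
  refine HasCompactSupport.intro (isCompact_closedBall z (i * R)) fun v hv => hz z v ?_
  rw [Metric.mem_closedBall, dist_comm] at hv
  exact not_le.1 hv

theorem FF_lp (hK : K1Stmt) {𝒳 ι : Type} {R : ℝ} {i : ℕ} (hR : 1 ≤ R) (hi : 1 ≤ i) (s : Finset ι)
    (c : ι → ℝ) (x : ι → 𝒳) (z : ι → ℍ) (y : 𝒳) : MemLp (FF R i s c x z y) 2 volume := by
  unfold FF
  exact memLp_finsetSum s fun a _ => (kr_lp hK hR hi (z a)).const_mul _

theorem FF_supp {𝒳 ι : Type} {R : ℝ} {i : ℕ} {s : Finset ι} (c : ι → ℝ) (x : ι → 𝒳) {z : ι → ℍ}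
    {Ω : Set ℍ} (h : ∀ a ∈ s, ∀ v, kr R i (z a) v ≠ 0 → v ∈ Ω) (y : 𝒳) (v : ℍ)
    (hv : FF R i s c x z y v ≠ 0) : v ∈ Ω := by
  obtain ⟨a, ha, hne⟩ := exists_ne_zero_of_sum_ne_zero hv
  exact h a ha v (right_ne_zero_of_mul hne)

theorem QQ_eq (hK : K1Stmt) {𝒳 ι κ : Type} [Fintype 𝒳] (act : SL(2, ℤ) → 𝒳 → 𝒳) {R : ℝ}
    {i j : ℕ} (hR : 1 ≤ R) (hi : 1 ≤ i) (hj : 1 ≤ j) {Ω : Set ℍ} {S : Finset SL(2, ℤ)}
    (hS : ∀ (γ : SL(2, ℤ)) (v : ℍ), v ∈ Ω → γ • v ∈ Ω → γ ∈ S)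
    (s : Finset ι) (c : ι → ℝ) (x : ι → 𝒳) (z : ι → ℍ)
    (s' : Finset κ) (c' : κ → ℝ) (x' : κ → 𝒳) (z' : κ → ℍ)
    (h : ∀ a ∈ s, ∀ v, kr R i (z a) v ≠ 0 → v ∈ Ω)
    (h' : ∀ b ∈ s', ∀ v, kr R j (z' b) v ≠ 0 → v ∈ Ω) :
    QQ act R (i + j) s c x z s' c' x' z' =
      BB volume act S (FF R i s c x z) (FF R j s' c' x' z') := by
  obtain ⟨-, -, hsym, -, -, hinv, hconv, -⟩ := hK R j hR hj
  have e0 : ∀ (u w : ℍ) (γ : SL(2, ℤ)),
      kr R (i + j) u (γ • w) = ∫ v, kr R i u v * kr R j w (γ⁻¹ • v) := by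
    intro u w γ
    rw [hconv i hi]
    refine integral_congr_ae (Eventually.of_forall fun v => ?_)
    simp only
    rw [hsym v, ← hinv γ w (γ⁻¹ • v), smul_inv_smul]
  have e1 : ∀ (y : 𝒳) (γ : SL(2, ℤ)),
      ∫ v, FF R i s c x z y v * FF R j s' c' x' z' (act γ y) (γ⁻¹ • v) =
      ∑ a ∈ s, ∑ b ∈ s', (if y = x a then c a else 0) * (if act γ y = x' b then c' b else 0) *
        kr R (i + j) (z a) (γ • z' b) := by
    intro y γ
    have c1 : ∀ v, FF R i s c x z y v * FF R j s' c' x' z' (act γ y) (γ⁻¹ • v) =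
        ∑ a ∈ s, ∑ b ∈ s', (if y = x a then c a else 0) * (if act γ y = x' b then c' b else 0) *
          (kr R i (z a) v * kr R j (z' b) (γ⁻¹ • v)) := by
      intro v
      simp only [FF, sum_mul_sum]
      exact sum_congr rfl fun a _ => sum_congr rfl fun b _ => by ring
    have c2 : ∀ (a : ι) (b : κ), Integrable (fun v : ℍ =>
        (if y = x a then c a else 0) * (if act γ y = x' b then c' b else 0) *
          (kr R i (z a) v * kr R j (z' b) (γ⁻¹ • v))) := fun a b =>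
      ((kr_lp hK hR hi (z a)).integrable_mul (lp_smul (kr_lp hK hR hj (z' b)) γ⁻¹)).const_mul _
    rw [integral_congr_ae (Eventually.of_forall c1),
      integral_finsetSum _ fun a _ => integrable_finsetSum _ fun b _ => c2 a b]
    refine sum_congr rfl fun a _ => ?_
    rw [integral_finsetSum _ fun b _ => c2 a b]
    exact sum_congr rfl fun b _ => by rw [integral_const_mul, e0]
  unfold QQ BB
  simp only [e1]
  symm
  calc ∑ y, ∑ γ ∈ S, ∑ a ∈ s, ∑ b ∈ s', (if y = x a then c a else 0) *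
        (if act γ y = x' b then c' b else 0) * kr R (i + j) (z a) (γ • z' b)
      = ∑ a ∈ s, ∑ b ∈ s', ∑ γ ∈ S, ∑ y, (if y = x a then c a else 0) *
        (if act γ y = x' b then c' b else 0) * kr R (i + j) (z a) (γ • z' b) := by
        rw [sum_comm]
        simp only [sum_comm (s := (univ : Finset 𝒳)) (t := s),
          sum_comm (s := (univ : Finset 𝒳)) (t := s')]
        rw [sum_comm]
        exact sum_congr rfl fun a _ => sum_comm
    _ = _ := by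
        refine sum_congr rfl fun a ha => sum_congr rfl fun b hb => ?_
        rw [tsum_eq_sum (s := S), mul_sum]
        · refine sum_congr rfl fun γ _ => ?_
          rw [sum_eq_single (x a) (fun y _ hy => by simp [hy]) (by simp)]
          split_ifs with h1 h2 <;> simp_all
        · intro γ hγ
          split_ifs with h1
          · rw [e0]
            refine integral_eq_zero_of_ae (Eventually.of_forall fun v => ?_)
            by_contra hv
            simp only [Pi.zero_apply, mul_eq_zero, not_or] at hv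
            exact hγ (hS γ _ (h' b hb _ hv.2) (by simpa using h a ha v hv.1))
          · rfl

end K4

theorem k4 (hG : GeoStmt) (hK : K1Stmt) : K4Stmt := by
  intro 𝒳 ι κ _ act h1 hm R i j hR hi hj s c x z s' c' x' z'
  obtain ⟨-, -, -, -, -, -, -, hfin, -⟩ := hG
  set ρ : ℝ := ∑ a ∈ s, dist (z a) I + ∑ b ∈ s', dist (z' b) I + (i * R + j * R) with hρ
  have hS : ∀ (γ : SL(2, ℤ)) (v : ℍ), v ∈ Metric.closedBall I ρ → γ • v ∈ Metric.closedBall I ρ →
      γ ∈ (hfin I I (2 * ρ)).toFinset := by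
    intro γ v hv hγ
    rw [Metric.mem_closedBall] at hv hγ
    rw [Set.Finite.mem_toFinset, Set.mem_ofPred_eq]
    have := dist_triangle_left I (γ • I) (γ • v)
    rw [K4.dist_sl] at this
    linarith
  have n1 : 0 ≤ ∑ a ∈ s, dist (z a) I := sum_nonneg fun _ _ => dist_nonneg
  have n2 : 0 ≤ ∑ b ∈ s', dist (z' b) I := sum_nonneg fun _ _ => dist_nonneg
  have n3 : 0 ≤ (i : ℝ) * R := by positivity
  have n4 : 0 ≤ (j : ℝ) * R := by positivity
  have h : ∀ a ∈ s, ∀ v, kr R i (z a) v ≠ 0 → v ∈ Metric.closedBall I ρ := by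
    intro a ha v hv
    have a1 : dist (z a) v ≤ i * R := not_lt.1 fun hc => hv ((hK R i hR hi).2.2.2.1 _ _ hc)
    have a2 := single_le_sum (f := fun a => dist (z a) I) (fun _ _ => dist_nonneg) ha
    have a3 := dist_triangle_left v I (z a)
    rw [Metric.mem_closedBall]
    linarith
  have h' : ∀ b ∈ s', ∀ v, kr R j (z' b) v ≠ 0 → v ∈ Metric.closedBall I ρ := by
    intro a ha v hv
    have a1 : dist (z' a) v ≤ j * R := not_lt.1 fun hc => hv ((hK R j hR hj).2.2.2.1 _ _ hc)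
    have a2 := single_le_sum (f := fun a => dist (z' a) I) (fun _ _ => dist_nonneg) ha
    have a3 := dist_triangle_left v I (z' a)
    rw [Metric.mem_closedBall]
    linarith
  rw [two_mul, two_mul, K4.QQ_eq hK act hR hi hi hS s c x z s c x z h h,
    K4.QQ_eq hK act hR hi hj hS s c x z s' c' x' z' h h',
    K4.QQ_eq hK act hR hj hj hS s' c' x' z' s' c' x' z' h' h']
  exact K4.cs act h1 hm measurableSet_closedBall hS (K4.FF_lp hK hR hi s c x z)
    (K4.FF_lp hK hR hj s' c' x' z') (K4.FF_supp c x h) (K4.FF_supp c' x' h')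

end Pool.Agent.Lib.MP_4b1228_nt.PP
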