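import Pool.Agent.Lib.MP_4b1228_nt.PP.K5b
import Pool.Agent.Lib.MP_9177b7_ag.EQ.K0
import Pool.Agent.Lib.MP_9177b7_ag.EQ.KL
import Pool.Agent.Lib.MP_9177b7_ag.EQ.KP
import Pool.Agent.Lib.MP_9177b7_ag.EQ.Div

/-!
Equidistribution in large balls, with an exponent independent of the level.
-/

open Finset Real UpperHalfPlane
open scoped MatrixGroups Classical

noncomputable section

namespace Pool.Agent.Lib.MP_4b1228_nt.PP

open MP_9177b7_ag.EQ

namespace K5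

lemma sumE (E : ℕ → ℝ) (B : ℕ) (Cs : Finset ℤ) (hE : ∀ m, 1 ≤ m → 0 ≤ E m)
    (h : ∀ c ∈ Cs, c ≠ 0 ∧ |c| ≤ B) :
    ∑ c ∈ Cs, E c.natAbs ≤ 2 * ∑ m ∈ (Icc 1 B : Finset ℕ), E m := by
  have h1 : ∀ c ∈ Cs, c.natAbs ∈ (Icc 1 B : Finset ℕ) := fun c hc => by
    have := h c hc
    rw [← Int.natCast_natAbs] at this
    rw [mem_Icc]; omega
  rw [← sum_fiberwise_of_maps_to h1, mul_sum]
  refine sum_le_sum fun m hm => ?_
  rw [sum_congr rfl (g := fun _ => E m) fun c hc => by rw [(mem_filter.1 hc).2], sum_const,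
    nsmul_eq_mul]
  refine mul_le_mul_of_nonneg_right ?_ (hE m (mem_Icc.1 hm).1)
  have : #{c ∈ Cs | c.natAbs = m} ≤ 2 := by
    refine le_trans (card_le_card (t := {(m : ℤ), -(m : ℤ)}) fun c hc => ?_) card_le_two
    have := (mem_filter.1 hc).2
    simp only [mem_insert, mem_singleton]; omega
  exact_mod_cast this

lemma pow_rpow {x y : ℝ} (hx : 0 ≤ x) (hy : 0 ≤ y) (a b : ℕ) (ha : a ≠ 0) (h : x ≤ y ^ a) :
    x ^ ((b : ℝ) / a) ≤ y ^ b := by
  refine (rpow_le_rpow hx h (by positivity)).trans (le_of_eq ?_)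
  have : (a : ℝ) ≠ 0 := by exact_mod_cast ha
  rw [← rpow_natCast, ← rpow_mul hy, mul_div_cancel₀ _ this, rpow_natCast]

/-- The estimate with all parameters explicit. -/
lemma main (hg : GeoStmt) {X Λ t : ℝ} {f : ℝ → ℝ} (hf : Adm X Λ f) (hΛ : 0 ≤ Λ) (ht : 1 ≤ t)
    (hX : t ^ 256 = X) (ψ : M2 → ℝ) (hψ : ∀ g, |ψ g| ≤ 1) (E : ℕ → ℝ) (B L C₀ K : ℕ) (A : ℝ)
    (hB1 : 2 * t ^ 128 ≤ B) (hB2 : (B : ℝ) ≤ 3 * t ^ 128) (hL1 : t ^ 119 ≤ L)
    (hL2 : (L : ℝ) ≤ 2 * t ^ 119) (hC1 : 4 * t ^ 125 ≤ C₀)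
    (hK : ∀ m : ℕ, 1 ≤ m → (m : ℝ) ≤ 82 * t ^ 256 → #m.divisors ≤ K)
    (hE : ∀ (c a₀ a₁ d₀ : ℤ) (L : ℕ), c ≠ 0 → L ≤ c.natAbs →
      |boxSum ψ 1 c a₀ d₀ L - boxSum ψ 1 c a₁ d₀ L| ≤ E c.natAbs)
    (hA : ∑ m ∈ (Icc 1 B : Finset ℕ), E m ≤ A) :
    |∑' γ : SL(2, ℤ), (ψ (ModularGroup.T * γ).1 - ψ γ.1) * f (dist I (γ • I))| ≤
      4 * Λ * t ^ 128 * (((2 * C₀ + 1) * (2 * K) + 4) * (3 + 2 * log B)) +
      (81 * t ^ 18 * (Λ * t ^ 3 * (2 * A)) +
        2 * (Λ / t ^ 3) * (81 * t ^ 256 * (2 * K) + 14 * t ^ 128)) := by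
  have ht0 : 0 < t := by linarith
  have hX0 : 0 < X := hX ▸ by positivity
  have hp : ∀ a b : ℕ, a ≤ b → t ^ a ≤ t ^ b := fun a b h => pow_le_pow_right₀ ht h
  have hfin := hg.2.2.2.2.2.2.2.1 I I (log X)
  set S := hfin.toFinset with hS
  have hmem : ∀ γ, γ ∈ S ↔ dist I (γ • I) ≤ log X := fun γ => by simp [hS]
  have hsq : ∀ (γ : SL(2, ℤ)) i j, (γ i j : ℝ) ^ 2 ≤ 2 * cosh (dist I (γ • I)) := by
    intro γ i j
    rw [cosh_dist_I hg]
    fin_cases i <;> fin_cases j <;> simp only [Fin.zero_eta, Fin.mk_one, Fin.isValue] <;>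
      nlinarith [sq_nonneg (γ 0 0 : ℝ), sq_nonneg (γ 0 1 : ℝ), sq_nonneg (γ 1 0 : ℝ),
        sq_nonneg (γ 1 1 : ℝ)]
  have hent : ∀ γ ∈ S, ∀ i j, |γ i j| ≤ B := by
    intro γ hγ i j
    have h1 : exp (dist I (γ • I)) ≤ X := by
      rw [← exp_log hX0]; exact exp_le_exp.2 ((hmem γ).1 hγ)
    have h2 : cosh (dist I (γ • I)) ≤ X := by
      rw [cosh_eq]
      have : exp (-dist I (γ • I)) ≤ exp (dist I (γ • I)) :=
        exp_le_exp.2 (by linarith [dist_nonneg (x := I) (y := γ • I)])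
      linarith
    have h3 : |(γ i j : ℝ)| ≤ 2 * t ^ 128 := by
      refine abs_le_of_sq_le_sq' ?_ (by positivity) |> abs_le.2
      have : (2 * t ^ 128) ^ 2 = 4 * X := by rw [← hX]; ring
      linarith [hsq γ i j]
    exact_mod_cast h3.trans hB1
  rw [tsum_eq_sum (s := S) fun γ hγ => by
    rw [hf.supp _ (lt_of_not_ge fun h => hγ ((hmem γ).2 h)), mul_zero],
    ← sum_filter_add_sum_filter_not S fun γ => |γ 1 0| ≤ C₀]
  refine (abs_add_le _ _).trans (add_le_add ?_ ?_)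
  · have h1 := small (S.filter fun γ => |γ 1 0| ≤ C₀) B C₀ K
      (fun γ => √(X / cosh (dist I (γ • I))) / (2 * t ^ 128))
      (fun γ hγ => hent γ (mem_filter.1 hγ).1) (fun γ hγ => (mem_filter.1 hγ).2)
      (fun m h1 h2 => hK m h1 (by
        have h3 : (m : ℝ) ≤ (B : ℝ) ^ 2 := by exact_mod_cast h2
        have h4 : (B : ℝ) ^ 2 ≤ (3 * t ^ 128) ^ 2 := by gcongr
        have h5 : (3 * t ^ 128) ^ 2 = 9 * t ^ 256 := by ring
        have : 0 < t ^ 256 := by positivity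
        linarith))
      (fun γ _ i j => by
        have hm : 0 < max 1 |(γ i j : ℝ)| := lt_max_of_lt_left one_pos
        have hc := one_le_cosh (dist I (γ • I))
        unfold hw
        rw [div_le_iff₀ (by positivity)]
        refine sqrt_le_iff.2 ⟨by positivity, ?_⟩
        have h5 : (max 1 |(γ i j : ℝ)|) ^ 2 ≤ 4 * cosh (dist I (γ • I)) := by
          rcases max_choice 1 |(γ i j : ℝ)| with h | h <;> rw [h]
          · linarith
          · rw [sq_abs]; linarith [hsq γ i j]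
        have h6 : (1 / max 1 |(γ i j : ℝ)| * (2 * t ^ 128)) ^ 2 =
            4 * X / (max 1 |(γ i j : ℝ)|) ^ 2 := by rw [← hX]; field_simp; norm_num
        rw [h6, div_le_div_iff₀ (by positivity) (by positivity)]
        nlinarith)
    refine le_trans ?_ (mul_le_mul_of_nonneg_left h1 (by positivity))
    rw [mul_sum]
    refine (abs_sum_le_sum_abs _ _).trans (sum_le_sum fun γ _ => ?_)
    have h2 := hf.bd _ (dist_nonneg (x := I) (y := γ • I))
    have h3 := abs_sub (ψ (ModularGroup.T * γ).1) (ψ γ.1)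
    have h4 : 4 * Λ * t ^ 128 * (√(X / cosh (dist I (γ • I))) / (2 * t ^ 128)) =
        2 * (Λ * √(X / cosh (dist I (γ • I)))) := by field_simp; ring
    rw [h4, abs_mul, abs_of_nonneg (hf.nonneg _)]
    exact mul_le_mul (by linarith [hψ (ModularGroup.T * γ).1, hψ γ.1]) h2 (hf.nonneg _)
      (by norm_num)
  · have hL0 : 0 < L := by
      have : (0 : ℝ) < L := lt_of_lt_of_le (by positivity) hL1
      exact_mod_cast this
    set n := (2 * B + 1) / L + 1 with hn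
    have hn1 : 2 * B + 1 < n * L := by
      rw [hn, mul_comm _ L]; exact Nat.lt_mul_div_succ _ hL0
    have hn2 : n * L ≤ 2 * B + 1 + L := by
      rw [hn, add_mul, one_mul]; exact Nat.add_le_add_right (Nat.div_mul_le_self _ _) _
    have hn3 : (n : ℝ) * L ≤ 9 * t ^ 128 := by
      have : (n : ℝ) * L ≤ 2 * B + 1 + L := by exact_mod_cast hn2
      have := hp 0 128 (by norm_num)
      have := hp 119 128 (by norm_num)
      simp only [pow_zero] at *
      linarith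
    have hn4 : (n : ℝ) ≤ 9 * t ^ 9 := by
      have h1 : (n : ℝ) * t ^ 119 ≤ 9 * t ^ 9 * t ^ 119 :=
        (mul_le_mul_of_nonneg_left hL1 (Nat.cast_nonneg n)).trans (hn3.trans (le_of_eq (by ring)))
      exact le_of_mul_le_mul_right h1 (by positivity)
    set Cs : Finset ℤ := (Icc (-(B : ℤ)) B).filter fun c => ¬ |c| ≤ C₀ with hCs
    set W := Ico (-(B : ℤ)) (-(B : ℤ) + n * L) ×ˢ Ico (-(B : ℤ)) (-(B : ℤ) + n * L) with hW
    have hn1' : (2 * B + 1 : ℤ) < n * L := by exact_mod_cast hn1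
    have hCm : ∀ c ∈ Cs, c ≠ 0 ∧ |c| ≤ B ∧ (C₀ : ℤ) ≤ |c| := fun c hc => by
      obtain ⟨h1, h2⟩ := mem_filter.1 hc
      refine ⟨fun h => h2 (by simp [h]), abs_le.2 (mem_Icc.1 h1), (not_le.1 h2).le⟩
    rw [large hg ψ f _ Cs W (fun h => (hCm 0 h).1 rfl) (fun γ hγ => by
        obtain ⟨h1, h2⟩ := mem_filter.1 hγ
        have u1 := abs_le.1 (hent γ h1 0 0)
        have u2 := abs_le.1 (hent γ h1 1 1)
        refine ⟨mem_filter.2 ⟨mem_Icc.2 (abs_le.1 (hent γ h1 1 0)), h2⟩, mem_product.2 ⟨?_, ?_⟩⟩ <;>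
          simp only [mem_Ico] <;> omega)
      (fun γ h1 h2 => mem_filter.2 ⟨(hmem γ).2 (le_of_not_gt fun h => h2 (hf.supp _ h)),
        (mem_filter.1 h1).2⟩)]
    have hC0 : (0 : ℝ) < C₀ := lt_of_lt_of_le (by positivity) hC1
    have hLC : 2 * (L : ℝ) ≤ C₀ := by linarith [hp 119 125 (by norm_num)]
    have hP : √(X / ((C₀ : ℝ) ^ 2 / 2)) ≤ t ^ 3 := by
      refine sqrt_le_iff.2 ⟨by positivity, ?_⟩
      rw [div_le_iff₀ (by positivity), ← hX]
      have h1 : (4 * t ^ 125) ^ 2 ≤ (C₀ : ℝ) ^ 2 := by gcongr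
      have h2 : (t ^ 3) ^ 2 * ((4 * t ^ 125) ^ 2 / 2) ≤ (t ^ 3) ^ 2 * ((C₀ : ℝ) ^ 2 / 2) := by
        gcongr
      have h3 : (t ^ 3) ^ 2 * ((4 * t ^ 125) ^ 2 / 2) = 8 * t ^ 256 := by ring
      have : 0 < t ^ 256 := by positivity
      linarith
    have hrow : ∀ c ∈ Cs, |∑ w ∈ W, gs ψ f c w| ≤ (n : ℝ) ^ 2 * (Λ * t ^ 3 * E c.natAbs) +
        2 * (2 * L / C₀ * Λ * t ^ 3) * ∑ w ∈ W, (if c ∣ w.1 * w.2 - 1 then (1 : ℝ) else 0) := by
      intro c hc
      obtain ⟨h1, -, h3⟩ := hCm c hc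
      refine row hg hf hΛ hX0.le ψ hψ c _ L n _ _ C₀ hC0 (by exact_mod_cast h3) hLC hP
        fun a e => hE c _ _ _ L h1 ?_
      have : 2 * L ≤ C₀ := by exact_mod_cast hLC
      rw [← Int.natCast_natAbs] at h3
      omega
    refine (abs_sum_le_sum_abs _ _).trans ((sum_le_sum hrow).trans ?_)
    rw [sum_add_distrib, ← mul_sum, ← mul_sum, ← mul_sum]
    have hE0 : ∀ m, 1 ≤ m → 0 ≤ E m := fun m hm => by
      have := hE m 0 0 0 0 (by omega) (Nat.zero_le _)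
      rw [Int.natAbs_natCast] at this
      exact (abs_nonneg _).trans this
    have h1 := sumE E B Cs hE0 fun c hc => ⟨(hCm c hc).1, (hCm c hc).2.1⟩
    have h1' : 0 ≤ ∑ c ∈ Cs, E c.natAbs :=
      sum_nonneg fun c hc => hE0 _ (Int.natAbs_pos.2 (hCm c hc).1)
    have h2 := total Cs W K fun w hw hne => hK _ (Int.natAbs_pos.2 hne) (by
      simp only [hW, mem_product, mem_Ico] at hw
      have hb : ∀ a : ℤ, -(B : ℤ) ≤ a → a < -(B : ℤ) + n * L → |(a : ℝ)| ≤ 9 * t ^ 128 := by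
        intro a u v
        have u' : -(B : ℝ) ≤ a := by exact_mod_cast u
        have v' : (a : ℝ) < -(B : ℝ) + n * L := by exact_mod_cast v
        have : (0 : ℝ) ≤ B := Nat.cast_nonneg B
        exact abs_le.2 ⟨by linarith, by linarith⟩
      have u := hb _ hw.1.1 hw.1.2
      have v := hb _ hw.2.1 hw.2.2
      have e : (((w.1 * w.2 - 1).natAbs : ℕ) : ℝ) = |(w.1 : ℝ) * w.2 - 1| := by
        rw [Nat.cast_natAbs]; push_cast; rfl
      have h3 : |(w.1 : ℝ)| * |(w.2 : ℝ)| ≤ 9 * t ^ 128 * (9 * t ^ 128) :=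
        mul_le_mul u v (abs_nonneg _) (by positivity)
      have h4 := abs_sub ((w.1 : ℝ) * w.2) 1
      have h5 := hp 0 256 (by norm_num)
      have h6 : 9 * t ^ 128 * (9 * t ^ 128) = 81 * t ^ 256 := by ring
      rw [abs_mul, abs_one] at h4
      rw [pow_zero] at h5
      rw [e]; linarith)
    have h3 : (#W : ℝ) ≤ 81 * t ^ 256 := by
      have : #W = n * L * (n * L) := by
        rw [hW, card_product, Int.card_Ico]
        congr 1 <;> · rw [add_sub_cancel_left, ← Nat.cast_mul, Int.toNat_natCast]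
      rw [this]; push_cast
      exact (mul_le_mul hn3 hn3 (by positivity) (by positivity)).trans (le_of_eq (by ring))
    have h4 : (#Cs : ℝ) ≤ 7 * t ^ 128 := by
      have u : #Cs ≤ 2 * B + 1 := by
        refine (card_filter_le _ _).trans (le_of_eq ?_)
        rw [Int.card_Icc]; omega
      have v : (#Cs : ℝ) ≤ 2 * B + 1 := by exact_mod_cast u
      have := hp 0 128 (by norm_num)
      rw [pow_zero] at this
      linarith
    have h5 : 2 * (L : ℝ) / C₀ * Λ * t ^ 3 ≤ Λ / t ^ 3 := by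
      have u : 2 * (L : ℝ) / C₀ ≤ 1 / t ^ 6 := by
        rw [div_le_div_iff₀ hC0 (by positivity)]
        have : 2 * (L : ℝ) * t ^ 6 ≤ 2 * (2 * t ^ 119) * t ^ 6 := by gcongr
        have e : 2 * (2 * t ^ 119) * t ^ 6 = 4 * t ^ 125 := by ring
        linarith
      calc _ ≤ 1 / t ^ 6 * Λ * t ^ 3 := by gcongr
        _ = _ := by field_simp
    refine add_le_add ?_ ?_
    · have u : (n : ℝ) ^ 2 ≤ 81 * t ^ 18 :=
        (pow_le_pow_left₀ (Nat.cast_nonneg n) hn4 2).trans (le_of_eq (by ring))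
      exact mul_le_mul u (mul_le_mul_of_nonneg_left (by linarith) (by positivity))
        (by positivity) (by positivity)
    · refine mul_le_mul (by linarith) (h2.trans ?_) (sum_nonneg fun c _ => sum_nonneg fun w _ => by
        split_ifs <;> norm_num) (by positivity)
      have := mul_le_mul_of_nonneg_right h3 (show (0 : ℝ) ≤ 2 * K by positivity)
      linarith

end K5

theorem k5 (hg : GeoStmt) : K5Stmt := by
  refine ⟨1 / 256, 1, by norm_num, fun q hq => ?_⟩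
  obtain ⟨C₁, hK0⟩ := k0 div (kl div kp) (1 / 64) (by norm_num)
  obtain ⟨E, hE1, hE2⟩ := hK0 1 q le_rfl hq
  obtain ⟨C₂, hC₂, hτ⟩ := div.1 0 (1 / 128) (by norm_num)
  set C₃ : ℝ := max C₁ 0 * (q : ℝ) ^ 3 * 2 ^ 113 with hC₃
  have hC₃0 : 0 ≤ C₃ := by positivity
  refine ⟨24 * (11 * (164 * C₂) + 4) + (162 * C₃ + 2 * (81 * (164 * C₂) + 14)),
    fun X Λ f hX hf ψ hψ => ?_⟩
  have hX0 : 0 < X := by linarith
  set t := X ^ (1 / 256 : ℝ) with htd
  have ht : 1 ≤ t := one_le_rpow (by linarith) (by norm_num)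
  have ht0 : 0 < t := by linarith
  have hXt : t ^ 256 = X := by
    rw [htd, ← rpow_natCast, ← rpow_mul hX0.le]; norm_num
  have hX1 : X ^ (1 - 1 / 256 : ℝ) = t ^ 255 := by
    rw [htd, ← rpow_natCast, ← rpow_mul hX0.le]; norm_num
  have hp : ∀ a b : ℕ, a ≤ b → t ^ a ≤ t ^ b := fun a b h => pow_le_pow_right₀ ht h
  have hp1 : ∀ a : ℕ, 1 ≤ t ^ a := fun a => one_le_pow₀ ht
  have hΛ : 0 ≤ Λ := by
    have h1 := (hf.nonneg 0).trans (hf.bd 0 le_rfl)
    have h2 : 0 < √(X / cosh 0) := by rw [cosh_zero]; positivity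
    exact nonneg_of_mul_nonneg_left h1 h2
  have hlog : 1 ≤ log X := by
    rw [le_log_iff_exp_le hX0]; linarith [exp_one_lt_d9]
  set B := ⌈2 * t ^ 128⌉₊ with hB
  have hB2 : (B : ℝ) ≤ 3 * t ^ 128 := by
    have := Nat.ceil_lt_add_one (show 0 ≤ 2 * t ^ 128 by positivity)
    linarith [hp1 128]
  have hB1 : 2 * t ^ 128 ≤ B := Nat.le_ceil _
  have hB0 : 1 ≤ B := by
    have : (1 : ℝ) ≤ B := by linarith [hp1 128]
    exact_mod_cast this
  have hC2 : ((⌈4 * t ^ 125⌉₊ : ℕ) : ℝ) ≤ 5 * t ^ 125 := by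
    have := Nat.ceil_lt_add_one (show 0 ≤ 4 * t ^ 125 by positivity)
    linarith [hp1 125]
  have hK2 : ((⌊C₂ * (82 * t ^ 2)⌋₊ : ℕ) : ℝ) ≤ C₂ * (82 * t ^ 2) := Nat.floor_le (by positivity)
  have hA : ∑ m ∈ (Icc 1 B : Finset ℕ), E m ≤ C₃ * t ^ 226 := by
    refine (hE1 B hB0).trans ?_
    have h1 := K5.pow_rpow (Nat.cast_nonneg B) (show 0 ≤ 2 * t ^ 2 by positivity) 64 113
      (by norm_num) (hB2.trans (by
        rw [mul_pow, ← pow_mul]
        exact mul_le_mul_of_nonneg_right (by norm_num) (by positivity)))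
    rw [show (7 / 4 + 1 / 64 : ℝ) = ((113 : ℕ) : ℝ) / (64 : ℕ) by norm_num, Nat.cast_one, one_rpow,
      mul_one]
    calc _ ≤ max C₁ 0 * (q : ℝ) ^ 3 * (2 * t ^ 2) ^ 113 := by
          gcongr; exact le_max_left _ _
      _ = _ := by rw [hC₃]; ring
  have hm := K5.main hg hf hΛ ht hXt ψ hψ.1 E B ⌈t ^ 119⌉₊ ⌈4 * t ^ 125⌉₊ ⌊C₂ * (82 * t ^ 2)⌋₊
    (C₃ * t ^ 226) hB1 hB2 (Nat.le_ceil _) (by
      have := Nat.ceil_lt_add_one (show 0 ≤ t ^ 119 by positivity)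
      linarith [hp1 119]) (Nat.le_ceil _) (fun m h1 h2 => by
      refine Nat.le_floor (((hτ m h1).1).trans (mul_le_mul_of_nonneg_left ?_ hC₂.le))
      have := K5.pow_rpow (Nat.cast_nonneg m) (show 0 ≤ 82 * t ^ 2 by positivity) 128 1
        (by norm_num) (h2.trans (by
          rw [mul_pow, ← pow_mul]
          exact mul_le_mul_of_nonneg_right (by norm_num) (by positivity)))
      simpa using this) (by simpa using hE2 ψ hψ) hA
  refine hm.trans ?_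
  generalize ((⌈4 * t ^ 125⌉₊ : ℕ) : ℝ) = C₀ at hC2 ⊢
  have hK0' : (0 : ℝ) ≤ (⌊C₂ * (82 * t ^ 2)⌋₊ : ℕ) := Nat.cast_nonneg _
  generalize ((⌊C₂ * (82 * t ^ 2)⌋₊ : ℕ) : ℝ) = K at hK2 hK0' ⊢
  have hH : 3 + 2 * log B ≤ 6 * log X := by
    have h0 : (0 : ℝ) < B := by exact_mod_cast hB0
    have h1 : (B : ℝ) ^ 2 ≤ X ^ 3 := by
      have u : (B : ℝ) ^ 2 ≤ (3 * t ^ 128) ^ 2 := by gcongr
      have v : (3 * t ^ 128) ^ 2 = 9 * X := by rw [← hXt]; ring
      have w : 9 * X ≤ X ^ 2 * X := mul_le_mul_of_nonneg_right (by nlinarith) hX0.le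
      have w' : X ^ 2 * X = X ^ 3 := by ring
      linarith
    have h2 := log_le_log (by positivity) h1
    rw [log_pow, log_pow] at h2
    push_cast at h2
    linarith
  have hH0 : 0 ≤ 3 + 2 * log B := by
    have := log_natCast_nonneg B; linarith
  have a1 : (2 * C₀ + 1) * (2 * K) + 4 ≤ (11 * (164 * C₂) + 4) * t ^ 127 := by
    have u : (2 * C₀ + 1) * (2 * K) ≤ (11 * t ^ 125) * (2 * (C₂ * (82 * t ^ 2))) :=
      mul_le_mul (by linarith [hp1 125]) (by linarith) (by linarith) (by positivity)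
    have v : (11 * t ^ 125) * (2 * (C₂ * (82 * t ^ 2))) = 11 * (164 * C₂) * t ^ 127 := by ring
    have := hp1 127
    nlinarith
  have a2 : 81 * t ^ 256 * (2 * K) + 14 * t ^ 128 ≤ (81 * (164 * C₂) + 14) * t ^ 258 := by
    have u : 81 * t ^ 256 * (2 * K) ≤ 81 * t ^ 256 * (2 * (C₂ * (82 * t ^ 2))) := by gcongr
    have v : 81 * t ^ 256 * (2 * (C₂ * (82 * t ^ 2))) = 81 * (164 * C₂) * t ^ 258 := by ring
    have := hp 128 258 (by norm_num)
    nlinarith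
  have b1 : 4 * Λ * t ^ 128 * (((2 * C₀ + 1) * (2 * K) + 4) * (3 + 2 * log B)) ≤
      24 * (11 * (164 * C₂) + 4) * (Λ * log X * t ^ 255) :=
    (mul_le_mul_of_nonneg_left (mul_le_mul a1 hH hH0 (by positivity)) (by positivity)).trans
      (le_of_eq (by ring))
  have hz : Λ * t ^ 255 ≤ Λ * log X * t ^ 255 := by
    refine mul_le_mul_of_nonneg_right ?_ (by positivity)
    nlinarith
  have b2 : 81 * t ^ 18 * (Λ * t ^ 3 * (2 * (C₃ * t ^ 226))) ≤ 162 * C₃ * (Λ * log X * t ^ 255) := by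
    have u : Λ * t ^ 247 ≤ Λ * t ^ 255 := mul_le_mul_of_nonneg_left (hp _ _ (by norm_num)) hΛ
    calc _ = 162 * C₃ * (Λ * t ^ 247) := by ring
      _ ≤ _ := mul_le_mul_of_nonneg_left (u.trans hz) (by positivity)
  have b3 : 2 * (Λ / t ^ 3) * (81 * t ^ 256 * (2 * K) + 14 * t ^ 128) ≤
      2 * (81 * (164 * C₂) + 14) * (Λ * log X * t ^ 255) := by
    refine (mul_le_mul_of_nonneg_left a2 (by positivity)).trans ?_
    calc _ = 2 * (81 * (164 * C₂) + 14) * (Λ * t ^ 255) := by field_simp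
      _ ≤ _ := mul_le_mul_of_nonneg_left hz (by positivity)
  rw [hX1, pow_one]
  linarith

end Pool.Agent.Lib.MP_4b1228_nt.PP
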