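import Pool.Agent.Lib.MP_4b1228_nt.PP.St

/-!
Unimodular rows modulo `q`: the action of the modular group and the isotropic rows.
-/

open Finset Real
open scoped MatrixGroups Classical

noncomputable section

namespace Pool.Agent.Lib.MP_4b1228_nt.PP

namespace K7

theorem ract_one {q : ℕ} (x : ZMod q × ZMod q) : ract 1 x = x := by
  ext <;> simp [ract]

theorem ract_mul {q : ℕ} (γ σ : SL(2, ℤ)) (x : ZMod q × ZMod q) :
    ract (γ * σ) x = ract σ (ract γ x) := by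
  ext <;> simp [ract, Matrix.mul_apply, Fin.sum_univ_two] <;> ring

theorem det_eq (γ : SL(2, ℤ)) : γ 0 0 * γ 1 1 - γ 0 1 * γ 1 0 = 1 := by
  have := γ.det_coe
  rwa [Matrix.det_fin_two] at this

theorem det_cast {q : ℕ} (γ : SL(2, ℤ)) :
    ((γ 0 0 : ℤ) : ZMod q) * (γ 1 1 : ℤ) - ((γ 0 1 : ℤ) : ZMod q) * (γ 1 0 : ℤ) = 1 := by
  have := congrArg (Int.cast : ℤ → ZMod q) (det_eq γ)
  push_cast at this
  exact this

theorem cop_ract {q : ℕ} (γ : SL(2, ℤ)) (x : ZMod q × ZMod q) (h : IsCoprime x.1 x.2) :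
    IsCoprime (ract γ x).1 (ract γ x).2 := by
  obtain ⟨u, v, h⟩ := h
  refine ⟨u * (γ 1 1 : ℤ) - v * (γ 0 1 : ℤ), v * (γ 0 0 : ℤ) - u * (γ 1 0 : ℤ), ?_⟩
  simp only [ract]
  linear_combination h + (u * x.1 + v * x.2) * det_cast (q := q) γ

theorem mem_UU {q : ℕ} [NeZero q] (x : ZMod q × ZMod q) : x ∈ UU q ↔ IsCoprime x.1 x.2 := by
  simp [UU]

theorem ract_inv {q : ℕ} (γ : SL(2, ℤ)) (x : ZMod q × ZMod q) : ract γ⁻¹ (ract γ x) = x := by
  rw [← ract_mul, mul_inv_cancel, ract_one]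

theorem ract_inv' {q : ℕ} (γ : SL(2, ℤ)) (x : ZMod q × ZMod q) : ract γ (ract γ⁻¹ x) = x := by
  rw [← ract_mul, inv_mul_cancel, ract_one]

theorem ract_mem {q : ℕ} [NeZero q] (γ : SL(2, ℤ)) (x : ZMod q × ZMod q) :
    ract γ x ∈ UU q ↔ x ∈ UU q := by
  rw [mem_UU, mem_UU]
  refine ⟨fun h => ?_, cop_ract γ x⟩
  have := cop_ract γ⁻¹ _ h
  rwa [ract_inv] at this

theorem crt {q₁ q₂ : ℕ} (h : q₁.Coprime q₂) (s : ZMod q₁) (t : ZMod q₂) :
    ∃ a : ℤ, (a : ZMod q₁) = s ∧ (a : ZMod q₂) = t := by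
  obtain ⟨u, v, huv⟩ := Nat.isCoprime_iff_coprime.2 h
  obtain ⟨s, rfl⟩ := ZMod.intCast_surjective s
  obtain ⟨t, rfl⟩ := ZMod.intCast_surjective t
  have h1 := congrArg (Int.cast : ℤ → ZMod q₁) huv
  have h2 := congrArg (Int.cast : ℤ → ZMod q₂) huv
  push_cast at h1 h2
  rw [ZMod.natCast_self] at h1 h2
  refine ⟨s * v * q₂ + t * u * q₁, ?_, ?_⟩
  · push_cast
    rw [ZMod.natCast_self]
    linear_combination (s : ZMod q₁) * h1
  · push_cast
    rw [ZMod.natCast_self]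
    linear_combination (t : ZMod q₂) * h2

theorem cop_gcd {q : ℕ} {g a b : ℤ} (h : IsCoprime ((g * a : ℤ) : ZMod q) ((g * b : ℤ) : ZMod q)) :
    IsCoprime g (q : ℤ) := by
  obtain ⟨u, v, h⟩ := h
  obtain ⟨u, rfl⟩ := ZMod.intCast_surjective u
  obtain ⟨v, rfl⟩ := ZMod.intCast_surjective v
  have : ((1 - (u * a + v * b) * g : ℤ) : ZMod q) = 0 := by
    push_cast at h ⊢
    linear_combination -h
  obtain ⟨w, hw⟩ := (ZMod.intCast_zmod_eq_zero_iff_dvd _ _).1 this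
  exact ⟨u * a + v * b, w, by linear_combination -hw⟩

theorem reach {q₁ q₂ : ℕ} [NeZero q₁] [NeZero q₂] (h : q₁.Coprime q₂) (x₁ : ZMod q₁ × ZMod q₁)
    (h₁ : x₁ ∈ UU q₁) (x₂ : ZMod q₂ × ZMod q₂) (h₂ : x₂ ∈ UU q₂) :
    ∃ γ : SL(2, ℤ), ract γ (1, 0) = x₁ ∧ ract γ (1, 0) = x₂ := by
  rw [mem_UU] at h₁ h₂
  obtain ⟨a, ha₁, ha₂⟩ := crt h x₁.1 x₂.1
  obtain ⟨b, hb₁, hb₂⟩ := crt h x₁.2 x₂.2
  obtain ⟨a', b', ha, hb, hu⟩ := extract_gcd a b
  generalize gcd a b = g at ha hb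
  subst ha hb
  have c1 : IsCoprime g (q₁ : ℤ) := cop_gcd (a := a') (b := b') (by rw [ha₁, hb₁]; exact h₁)
  have c2 : IsCoprime g (q₂ : ℤ) := cop_gcd (a := a') (b := b') (by rw [ha₂, hb₂]; exact h₂)
  obtain ⟨σ, s0, s1⟩ := (c1.mul_right c2).exists_SL2_row 0
  obtain ⟨τ, t0, t1⟩ := ((gcd_isUnit_iff a' b').1 hu).exists_SL2_row 0
  refine ⟨σ * τ, ?_, ?_⟩
  · rw [ract_mul]
    ext
    · rw [← ha₁]; simp [ract, s0, s1, t0]
    · rw [← hb₁]; simp [ract, s0, s1, t1]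
  · rw [ract_mul]
    ext
    · rw [← ha₂]; simp [ract, s0, s1, t0]
    · rw [← hb₂]; simp [ract, s0, s1, t1]

theorem trans {q₁ q₂ : ℕ} [NeZero q₁] [NeZero q₂] (h : q₁.Coprime q₂) :
    ∀ x₁ ∈ UU q₁, ∀ y₁ ∈ UU q₁, ∀ x₂ ∈ UU q₂, ∀ y₂ ∈ UU q₂,
      ∃ γ : SL(2, ℤ), ract γ x₁ = y₁ ∧ ract γ x₂ = y₂ := by
  intro x₁ hx₁ y₁ hy₁ x₂ hx₂ y₂ hy₂
  obtain ⟨σ, rfl, rfl⟩ := reach h x₁ hx₁ x₂ hx₂
  obtain ⟨τ, rfl, rfl⟩ := reach h y₁ hy₁ y₂ hy₂
  exact ⟨σ⁻¹ * τ, by rw [ract_mul, ract_inv], by rw [ract_mul, ract_inv]⟩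

theorem unit_of_iso {R : Type} [CommRing R] {x y : R} (h : IsCoprime x y) (h0 : x ^ 2 + y ^ 2 = 0) :
    IsUnit y := by
  have h1 : IsCoprime (x ^ 2) y := h.pow_left
  obtain ⟨u, v, huv⟩ := h1
  exact IsUnit.of_mul_eq_one (v - u * y) (by linear_combination huv - u * h0)

theorem card_roots (q : ℕ) [NeZero q] : #{l : ZMod q | l ^ 2 + 1 = 0} = rho q := by
  unfold rho
  symm
  refine Finset.card_bij (fun l _ => (l : ZMod q)) ?_ ?_ ?_
  · intro l hl
    rw [mem_filter] at hl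
    have := (ZMod.natCast_eq_zero_iff _ _).2 hl.2
    push_cast at this
    simpa using this
  · intro l hl l' hl' e
    rw [mem_filter, mem_range] at hl hl'
    have := (ZMod.natCast_eq_natCast_iff' _ _ _).1 e
    rwa [Nat.mod_eq_of_lt hl.1, Nat.mod_eq_of_lt hl'.1] at this
  · intro l hl
    rw [mem_filter] at hl
    refine ⟨l.val, ?_, ZMod.natCast_zmod_val l⟩
    rw [mem_filter, mem_range]
    refine ⟨ZMod.val_lt l, (ZMod.natCast_eq_zero_iff _ _).1 ?_⟩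
    push_cast
    rw [ZMod.natCast_zmod_val]
    exact hl.2

theorem card_iso (q : ℕ) [NeZero q] :
    #{x ∈ UU q | x.1 ^ 2 + x.2 ^ 2 = 0} = Nat.totient q * rho q := by
  rw [← ZMod.card_units_eq_totient, ← card_roots, ← Finset.card_univ, ← Finset.card_product]
  symm
  refine Finset.card_bij (fun p _ => ((p.1 : ZMod q) * p.2, (p.1 : ZMod q))) ?_ ?_ ?_
  · rintro ⟨u, l⟩ hp
    simp only [mem_product, mem_filter, mem_univ, true_and] at hp
    rw [mem_filter, mem_UU]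
    refine ⟨⟨0, (u⁻¹ : (ZMod q)ˣ), by simp⟩, ?_⟩
    linear_combination (u : ZMod q) ^ 2 * hp
  · rintro ⟨u, l⟩ _ ⟨u', l'⟩ _ e
    simp only [Prod.mk.injEq] at e
    have e1 : u = u' := Units.ext e.2
    subst e1
    rw [Prod.mk.injEq]
    exact ⟨rfl, (Units.mul_right_inj u).1 e.1⟩
  · rintro ⟨x, y⟩ hx
    rw [mem_filter, mem_UU] at hx
    obtain ⟨u, rfl⟩ := unit_of_iso hx.1 hx.2
    refine ⟨(u, (u⁻¹ : (ZMod q)ˣ) * x), ?_, by simp⟩
    simp only [mem_product, mem_filter, mem_univ, true_and]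
    have h1 : ((u⁻¹ : (ZMod q)ˣ) : ZMod q) * u = 1 := by simp
    have h2 : x ^ 2 + (u : ZMod q) ^ 2 = 0 := hx.2
    linear_combination ((u⁻¹ : (ZMod q)ˣ) : ZMod q) ^ 2 * h2 -
      (((u⁻¹ : (ZMod q)ˣ) : ZMod q) * u + 1) * h1

theorem sum_iso (q : ℕ) [NeZero q] : ∑ x ∈ UU q, iso x = Nat.totient q * rho q := by
  unfold iso
  rw [Finset.sum_boole, card_iso]
  push_cast
  rfl

/-- The number of unimodular rows over a ring. -/
def un (R : Type) [CommRing R] : ℕ := Nat.card {x : R × R // IsCoprime x.1 x.2}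

theorem un_equiv {R S : Type} [CommRing R] [CommRing S] (e : R ≃+* S) : un R = un S := by
  unfold un
  refine Nat.card_congr (Equiv.subtypeEquiv (e.toEquiv.prodCongr e.toEquiv) fun x => ?_)
  refine ⟨fun h => h.map (e : R →+* S), fun h => ?_⟩
  simpa using h.map (e.symm : S →+* R)

theorem un_prod (R S : Type) [CommRing R] [CommRing S] : un (R × S) = un R * un S := by
  unfold un
  rw [← Nat.card_prod]
  refine Nat.card_congr
    { toFun := fun x => (⟨(x.1.1.1, x.1.2.1), x.2.map (RingHom.fst R S)⟩,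
        ⟨(x.1.1.2, x.1.2.2), x.2.map (RingHom.snd R S)⟩)
      invFun := fun y => ⟨((y.1.1.1, y.2.1.1), (y.1.1.2, y.2.1.2)), ?_⟩
      left_inv := fun x => rfl
      right_inv := fun y => rfl }
  obtain ⟨u, v, h⟩ := y.1.2
  obtain ⟨u', v', h'⟩ := y.2.2
  exact ⟨(u, u'), (v, v'), Prod.ext h h'⟩

theorem un_eq (q : ℕ) [NeZero q] : un (ZMod q) = #(UU q) := by
  unfold un UU
  rw [Nat.card_eq_fintype_card, Fintype.card_subtype]

theorem un_prime (p : ℕ) (hp : p.Prime) : un (ZMod p) + 1 = p ^ 2 := by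
  have : Fact p.Prime := ⟨hp⟩
  rw [un_eq]
  have : UU p = univ.erase 0 := by
    ext x
    rw [mem_UU, Semifield.isCoprime_iff]
    simp [Prod.ext_iff]
    tauto
  rw [this, card_erase_add_one (mem_univ _), card_univ, Fintype.card_prod, ZMod.card, sq]

theorem gg_un (hR : RhoStmt) (q : ℕ) (hq : Squarefree q) :
    gg q * un (ZMod q) = Nat.totient q * rho q := by
  induction q using Nat.recOnPosPrimePosCoprime with
  | prime_pow p n hp hn =>
    have h1 : n = 1 := by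
      rcases (Nat.squarefree_pow_iff hp.ne_one hn.ne').1 hq with ⟨_, h⟩
      exact h
    subst h1
    rw [pow_one, Nat.totient_prime hp]
    have h2 : (un (ZMod p) : ℝ) = p ^ 2 - 1 := by
      have := congrArg (Nat.cast : ℕ → ℝ) (un_prime p hp)
      push_cast at this
      linarith
    rw [h2, gg, hp.primeFactors, prod_singleton, Nat.cast_sub hp.one_le]
    have : (p : ℝ) + 1 ≠ 0 := by positivity
    field_simp
    push_cast
    ring
  | zero => exact absurd hq not_squarefree_zero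
  | one =>
    have : un (ZMod 1) = 1 := by
      rw [un_eq]
      have : UU 1 = univ := by
        ext x
        simp only [mem_UU, mem_univ, iff_true]
        exact ⟨0, 0, Subsingleton.elim _ _⟩
      rw [this]
      simp
    simp [this, gg, hR.2.2.2.2.1]
  | coprime a b ha hb hab iha ihb =>
    have ia := iha (hq.squarefree_of_dvd (Dvd.intro _ rfl))
    have ib := ihb (hq.squarefree_of_dvd (Dvd.intro_left _ rfl))
    have hg : gg (a * b) = gg a * gg b := by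
      unfold gg
      rw [hab.primeFactors_mul, prod_union hab.disjoint_primeFactors]
    rw [hg, un_equiv (ZMod.chineseRemainder hab), un_prod, Nat.totient_mul hab, hR.1 a b hab]
    push_cast
    linear_combination (gg b * un (ZMod b)) * ia + (Nat.totient a * rho a : ℝ) * ib

theorem dvd_of_iso {q : ℕ} (γ : SL(2, ℤ)) (x : ZMod q × ZMod q) (hx : IsCoprime x.1 x.2)
    (h1 : x.1 ^ 2 + x.2 ^ 2 = 0) (h2 : (ract γ x).1 ^ 2 + (ract γ x).2 ^ 2 = 0) :
    (q : ℤ) ∣ fro γ ^ 2 - 4 := by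
  rw [← ZMod.intCast_zmod_eq_zero_iff_dvd]
  have hu := (unit_of_iso hx h1).pow 4
  rw [← hu.mul_right_eq_zero]
  have h3 := det_cast (q := q) γ
  simp only [ract] at h2
  simp only [fro]
  push_cast
  generalize ((γ 0 0 : ℤ) : ZMod q) = a at *
  generalize ((γ 0 1 : ℤ) : ZMod q) = b at *
  generalize ((γ 1 0 : ℤ) : ZMod q) = c at *
  generalize ((γ 1 1 : ℤ) : ZMod q) = e at *
  linear_combination
    (x.2 ^ 2 * (c ^ 2 + e ^ 2 - a ^ 2 - b ^ 2) - 2 * x.1 * x.2 * (a * c + b * e)) * h2 +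
    (4 * x.2 ^ 2 * (a * c + b * e) ^ 2 - (a ^ 2 + b ^ 2) *
      (x.2 ^ 2 * (c ^ 2 + e ^ 2 - a ^ 2 - b ^ 2) - 2 * x.1 * x.2 * (a * c + b * e))) * h1 +
    4 * x.2 ^ 4 * (a * e - b * c + 1) * h3

theorem sum_ract (q : ℕ) [NeZero q] (γ : SL(2, ℤ)) :
    ∑ x ∈ UU q, iso (ract γ x) = ∑ x ∈ UU q, iso x :=
  Finset.sum_nbij' (ract γ) (ract γ⁻¹) (fun x hx => (ract_mem γ x).2 hx)
    (fun x hx => (ract_mem γ⁻¹ x).2 hx) (fun x _ => ract_inv γ x) (fun x _ => ract_inv' γ x)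
    (fun _ _ => rfl)

theorem corr (q : ℕ) [NeZero q] (γ : SL(2, ℤ)) :
    ∑ x ∈ UU q, iso x * iso (ract γ x) ≤
      Nat.totient q * (if (q : ℤ) ∣ fro γ ^ 2 - 4 then (rho q : ℝ) else 0) := by
  split_ifs with h
  · rw [← sum_iso]
    refine sum_le_sum fun x _ => ?_
    unfold iso
    split_ifs <;> norm_num
  · rw [mul_zero]
    refine (sum_eq_zero fun x hx => ?_).le
    unfold iso
    split_ifs with h1 h2
    · exact absurd (dvd_of_iso γ x ((mem_UU x).1 hx) h1 h2) h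
    all_goals norm_num

end K7

open K7 in
theorem k7 (hR : RhoStmt) : K7Stmt := by
  refine ⟨fun q x => ⟨ract_one x, fun γ σ => ract_mul γ σ x⟩, fun q _ γ x => ract_mem γ x,
    fun q₁ q₂ _ _ h => trans h, fun q _ hq => ?_⟩
  have h1 := sum_iso q
  have h2 : ∑ x ∈ UU q, iso x = gg q * #(UU q) := by rw [h1, ← un_eq, gg_un hR q hq]
  refine ⟨h1, h2, fun γ => ?_⟩
  have h3 := corr q γ
  have h4 := sum_ract q γ
  have h5 : ∑ x ∈ UU q, (iso x + gg q) * (iso (ract γ x) + gg q) =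
      ∑ x ∈ UU q, iso x * iso (ract γ x) + gg q * ∑ x ∈ UU q, iso x +
        gg q * ∑ x ∈ UU q, iso (ract γ x) + gg q * (gg q * #(UU q)) := by
    rw [mul_sum, mul_sum, ← sum_add_distrib, ← sum_add_distrib]
    have : gg q * (gg q * #(UU q)) = ∑ _x ∈ UU q, gg q * gg q := by
      rw [sum_const, nsmul_eq_mul]; ring
    rw [this, ← sum_add_distrib]
    exact sum_congr rfl fun x _ => by ring
  rw [h5, h4, ← h2, h1]
  linarith

end Pool.Agent.Lib.MP_4b1228_nt.PP
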