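import Pool.Agent.Lib.MP_4b1228_nt.PP.St
import Pool.Agent.Lib.MP_9177b7_ag.EQ.Div

/-! Counting integral matrices in hyperbolic balls. -/

open Finset Real Filter UpperHalfPlane MeasureTheory
open scoped MatrixGroups Classical

noncomputable section

namespace Pool.Agent.Lib.MP_4b1228_nt.PP

namespace K8

theorem dy {ι : Type} (s : Finset ι) (ch w : ι → ℝ) (U α β : ℝ) (hU : 1 ≤ U)
    (hch : ∀ i, 1 ≤ ch i) (hw : ∀ i, 0 ≤ w i) (hα : 0 ≤ α) (hβ : 0 ≤ β)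
    (h : ∀ T, 1 ≤ T → T ≤ 2 * U → ∑ i ∈ s with ch i ≤ T, w i ≤ α * T + β * √T) :
    ∑ i ∈ s, (if ch i ≤ U then 1 / √(ch i) else 0) * w i ≤
      (Nat.log 2 ⌊U⌋₊ + 1) * (2 * α * √U + 2 * β) := by
  set J := Nat.log 2 ⌊U⌋₊ with hJ
  have hU1 : 1 ≤ ⌊U⌋₊ := Nat.le_floor (by simpa using hU)
  have hpow : ∀ j ∈ range (J + 1), (2 : ℝ) ^ j ≤ U := by
    intro j hj
    have h1 : 2 ^ j ≤ 2 ^ J := Nat.pow_le_pow_right (by norm_num) (Nat.lt_succ_iff.mp (mem_range.mp hj))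
    have h2 : 2 ^ J ≤ ⌊U⌋₊ := Nat.pow_log_le_self 2 (by omega)
    have h3 : ((2 ^ j : ℕ) : ℝ) ≤ (⌊U⌋₊ : ℝ) := by exact_mod_cast h1.trans h2
    push_cast at h3
    exact h3.trans (Nat.floor_le (by linarith))
  have h1 : ∀ i ∈ s, (if ch i ≤ U then 1 / √(ch i) else 0) * w i ≤
      ∑ j ∈ range (J + 1), (if ch i ≤ 2 ^ (j + 1) then w i else 0) / √(2 ^ j) := by
    intro i _
    have hnn : ∀ j ∈ range (J + 1), 0 ≤ (if ch i ≤ 2 ^ (j + 1) then w i else 0) / √((2 : ℝ) ^ j) := by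
      intro j _
      have := hw i
      split_ifs <;> positivity
    split_ifs with hc
    · set j := Nat.log 2 ⌊ch i⌋₊ with hj
      have hc1 : 1 ≤ ⌊ch i⌋₊ := Nat.le_floor (by simpa using hch i)
      have hjJ : j ∈ range (J + 1) := by
        rw [mem_range, Nat.lt_succ_iff]
        exact Nat.log_mono_right (Nat.floor_le_floor hc)
      have a1 : (2 : ℝ) ^ j ≤ ch i := by
        have h2 : 2 ^ j ≤ ⌊ch i⌋₊ := Nat.pow_log_le_self 2 (by omega)
        have h3 : ((2 ^ j : ℕ) : ℝ) ≤ (⌊ch i⌋₊ : ℝ) := by exact_mod_cast h2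
        push_cast at h3
        exact h3.trans (Nat.floor_le (by linarith [hch i]))
      have a2 : ch i ≤ 2 ^ (j + 1) := by
        have h2 : ⌊ch i⌋₊ < 2 ^ (j + 1) := Nat.lt_pow_succ_log_self (by norm_num) _
        have h3 : ((⌊ch i⌋₊ + 1 : ℕ) : ℝ) ≤ ((2 ^ (j + 1) : ℕ) : ℝ) := by exact_mod_cast h2
        push_cast at h3
        exact (Nat.lt_floor_add_one _).le.trans h3
      refine le_trans ?_ (single_le_sum hnn hjJ)
      rw [if_pos a2, one_div, inv_mul_eq_div]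
      exact div_le_div_of_nonneg_left (hw i) (by positivity) (sqrt_le_sqrt a1)
    · rw [zero_mul]
      exact sum_nonneg hnn
  refine (sum_le_sum h1).trans ?_
  rw [sum_comm]
  have h2 : ∀ j ∈ range (J + 1),
      ∑ i ∈ s, (if ch i ≤ 2 ^ (j + 1) then w i else 0) / √((2 : ℝ) ^ j) ≤ 2 * α * √U + 2 * β := by
    intro j hj
    rw [← sum_div, ← sum_filter]
    have hp := hpow j hj
    have hp1 : (1 : ℝ) ≤ 2 ^ j := one_le_pow₀ (by norm_num)
    have hs : 0 < √((2 : ℝ) ^ j) := by positivity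
    have h3 := h (2 ^ (j + 1)) (by rw [pow_succ]; linarith) (by rw [pow_succ]; linarith)
    rw [div_le_iff₀ hs]
    refine h3.trans ?_
    have e1 : √((2 : ℝ) ^ j) * √((2 : ℝ) ^ j) = 2 ^ j := mul_self_sqrt (by positivity)
    have e2 : √((2 : ℝ) ^ j) ≤ √U := sqrt_le_sqrt hp
    have e3 : √((2 : ℝ) ^ (j + 1)) ≤ 2 * √((2 : ℝ) ^ j) := by
      rw [sqrt_le_left (by positivity), mul_pow, sq_sqrt (by positivity), pow_succ]
      linarith
    have e4 : (2 : ℝ) ^ (j + 1) ≤ 2 * (√U * √((2 : ℝ) ^ j)) := by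
      rw [pow_succ]
      nlinarith
    nlinarith [mul_le_mul_of_nonneg_left e3 hβ, mul_le_mul_of_nonneg_left e4 hα]
  refine (sum_le_sum h2).trans ?_
  rw [sum_const, card_range, nsmul_eq_mul]
  push_cast
  exact le_rfl

theorem lg {ε U : ℝ} (hε : 0 < ε) (hU : 1 ≤ U) :
    (Nat.log 2 ⌊U⌋₊ + 1 : ℝ) ≤ (2 / ε + 1) * U ^ ε := by
  have hU1 : 1 ≤ ⌊U⌋₊ := Nat.le_floor (by simpa using hU)
  have h2 : 2 ^ Nat.log 2 ⌊U⌋₊ ≤ ⌊U⌋₊ := Nat.pow_log_le_self 2 (by omega)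
  have h3 : ((2 ^ Nat.log 2 ⌊U⌋₊ : ℕ) : ℝ) ≤ (⌊U⌋₊ : ℝ) := by exact_mod_cast h2
  push_cast at h3
  have h4 : (2 : ℝ) ^ Nat.log 2 ⌊U⌋₊ ≤ U := h3.trans (Nat.floor_le (by linarith))
  have h5 := log_le_log (by positivity) h4
  rw [log_pow] at h5
  have h6 := log_le_rpow_div (x := U) (by linarith) hε
  have h7 := log_two_gt_d9
  have h8 : 1 ≤ U ^ ε := one_le_rpow hU hε.le
  have h9 : (0 : ℝ) ≤ Nat.log 2 ⌊U⌋₊ := Nat.cast_nonneg _
  have h10 : (2 / ε + 1) * U ^ ε = 2 * (U ^ ε / ε) + U ^ ε := by ring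
  nlinarith

/-- Integers of absolute value at most `B`. -/
def IB (B : ℝ) : Finset ℤ := Icc (-⌊B⌋) ⌊B⌋

theorem mem_IB {B : ℝ} {b : ℤ} (h : |(b : ℝ)| ≤ B) : b ∈ IB B := by
  rw [abs_le] at h
  rw [IB, mem_Icc]
  constructor
  · rw [neg_le, Int.le_floor]
    push_cast
    linarith
  · exact Int.le_floor.mpr h.2

theorem card_IB {B : ℝ} (hB : 0 ≤ B) : (#(IB B) : ℝ) ≤ 2 * B + 1 := by
  have h0 : 0 ≤ ⌊B⌋ := Int.floor_nonneg.mpr hB
  have h1 : (#(IB B) : ℤ) = 2 * ⌊B⌋ + 1 := by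
    rw [IB, Int.card_Icc, Int.toNat_of_nonneg (by omega)]
    ring
  have h2 : (#(IB B) : ℝ) = 2 * (⌊B⌋ : ℝ) + 1 := by exact_mod_cast h1
  linarith [Int.floor_le B]

theorem card_IB0 {B : ℝ} (hB : 0 ≤ B) : (#((IB B).erase 0) : ℝ) ≤ 2 * B := by
  have h0 : (0 : ℤ) ∈ IB B := mem_IB (by simpa using hB)
  have h1 := card_erase_add_one h0
  have h2 : (#((IB B).erase 0) : ℝ) + 1 = #(IB B) := by exact_mod_cast h1
  linarith [card_IB hB]

theorem cnt2 {ι : Type} (S : Finset ι) (f g : ι → ℤ) {B : ℝ} (hB : 0 ≤ B)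
    (hf : ∀ i ∈ S, f i = 1 ∨ f i = -1) (hg : ∀ i ∈ S, |(g i : ℝ)| ≤ B)
    (hi : ∀ i ∈ S, ∀ j ∈ S, f i = f j → g i = g j → i = j) : (#S : ℝ) ≤ 4 * B + 2 := by
  have h1 : #S ≤ #(({1, -1} : Finset ℤ) ×ˢ IB B) := by
    refine card_le_card_of_injOn (fun i => (f i, g i)) ?_ ?_
    · intro i hi
      simp only [coe_product, Set.mem_prod, mem_coe, mem_insert, mem_singleton]
      exact ⟨hf i hi, mem_IB (hg i hi)⟩
    · intro i h1 j h2 h
      exact hi i h1 j h2 (congrArg Prod.fst h) (congrArg Prod.snd h)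
  rw [card_product, card_pair (by norm_num)] at h1
  have h2 : (#S : ℝ) ≤ 2 * #(IB B) := by exact_mod_cast h1
  linarith [card_IB hB]

theorem det1 (γ : SL(2, ℤ)) : γ 0 0 * γ 1 1 - γ 0 1 * γ 1 0 = 1 := by
  have := γ.det_coe
  rwa [Matrix.det_fin_two] at this

theorem ext4 {γ σ : SL(2, ℤ)} (h1 : γ 0 0 = σ 0 0) (h2 : γ 0 1 = σ 0 1) (h3 : γ 1 0 = σ 1 0)
    (h4 : γ 1 1 = σ 1 1) : γ = σ := by
  ext i j
  fin_cases i <;> fin_cases j <;> assumption

/-- Twice the hyperbolic cosine. -/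
def qq (Y : ℝ) (γ : SL(2, ℤ)) : ℝ :=
  (γ 0 0 : ℝ) ^ 2 + (γ 1 1 : ℝ) ^ 2 + (γ 0 1 : ℝ) ^ 2 / Y ^ 2 + (γ 1 0 : ℝ) ^ 2 * Y ^ 2

theorem bds {Y T : ℝ} {γ : SL(2, ℤ)} (hY : 0 < Y) (h : qq Y γ ≤ 2 * T) :
    |(γ 0 0 : ℝ)| ≤ 3 / 2 * √T ∧ |(γ 1 1 : ℝ)| ≤ 3 / 2 * √T ∧ |(γ 0 1 : ℝ)| ≤ 3 / 2 * √T * Y ∧
      |(γ 1 0 : ℝ)| ≤ 3 / 2 * √T / Y ∧ |(γ 0 1 : ℝ) * γ 1 0| ≤ T := by
  unfold qq at h
  generalize ((γ 0 0 : ℤ) : ℝ) = a at *
  generalize ((γ 0 1 : ℤ) : ℝ) = b at *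
  generalize ((γ 1 0 : ℤ) : ℝ) = c at *
  generalize ((γ 1 1 : ℤ) : ℝ) = e at *
  have hb : b ^ 2 / Y ^ 2 = (b / Y) ^ 2 := by ring
  have hc : c ^ 2 * Y ^ 2 = (c * Y) ^ 2 := by ring
  rw [hb, hc] at h
  have hT : 0 ≤ T := by nlinarith [sq_nonneg a, sq_nonneg e, sq_nonneg (b / Y), sq_nonneg (c * Y)]
  have hs : √T ^ 2 = T := sq_sqrt hT
  have key : ∀ x : ℝ, x ^ 2 ≤ 2 * T → |x| ≤ 3 / 2 * √T := fun x hx =>
    abs_le_of_sq_le_sq' (by nlinarith) (by positivity) |> abs_le.mpr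
  have k1 := key a (by nlinarith [sq_nonneg e, sq_nonneg (b / Y), sq_nonneg (c * Y)])
  have k2 := key e (by nlinarith [sq_nonneg a, sq_nonneg (b / Y), sq_nonneg (c * Y)])
  have k3 := key (b / Y) (by nlinarith [sq_nonneg a, sq_nonneg e, sq_nonneg (c * Y)])
  have k4 := key (c * Y) (by nlinarith [sq_nonneg a, sq_nonneg e, sq_nonneg (b / Y)])
  refine ⟨k1, k2, ?_, ?_, ?_⟩
  · rw [abs_div, abs_of_pos hY, div_le_iff₀ hY] at k3
    exact k3
  · rw [abs_mul, abs_of_pos hY] at k4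
    rwa [le_div_iff₀ hY]
  · have : b * c = b / Y * (c * Y) := by field_simp
    rw [this, abs_le]
    constructor <;>
      nlinarith [sq_nonneg a, sq_nonneg e, sq_nonneg (b / Y + c * Y), sq_nonneg (b / Y - c * Y)]

theorem cntc {Y T : ℝ} (hY : 0 < Y) (hT : 1 ≤ T) (S : Finset SL(2, ℤ))
    (h : ∀ γ ∈ S, qq Y γ ≤ 2 * T ∧ γ 1 0 = 0) : (#S : ℝ) ≤ (6 * Y + 2) * √T := by
  have hs : 1 ≤ √T := one_le_sqrt.mpr hT
  have hd : ∀ γ ∈ S, γ 0 0 * γ 1 1 = 1 := fun γ hγ => by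
    have := det1 γ
    rw [(h γ hγ).2] at this
    linarith
  have := cnt2 S (fun γ => γ 0 0) (fun γ => γ 0 1) (B := 3 / 2 * √T * Y) (by positivity)
    (fun γ hγ => Int.eq_one_or_neg_one_of_mul_eq_one (hd γ hγ))
    (fun γ hγ => (bds hY (h γ hγ).1).2.2.1) (fun γ hγ σ hσ h1 h2 => by
      refine ext4 h1 h2 (by rw [(h γ hγ).2, (h σ hσ).2]) ?_
      have a1 := hd γ hγ
      have a2 := hd σ hσ
      rw [← h1] at a2
      rcases Int.eq_one_or_neg_one_of_mul_eq_one a1 with h | h <;> rw [h] at a1 a2 <;> linarith)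
  nlinarith

theorem cntb {Y T : ℝ} (hY : 0 < Y) (hT : 1 ≤ T) (S : Finset SL(2, ℤ))
    (h : ∀ γ ∈ S, qq Y γ ≤ 2 * T ∧ γ 0 1 = 0) : (#S : ℝ) ≤ (6 * (1 / Y) + 2) * √T := by
  have hs : 1 ≤ √T := one_le_sqrt.mpr hT
  have hd : ∀ γ ∈ S, γ 0 0 * γ 1 1 = 1 := fun γ hγ => by
    have := det1 γ
    rw [(h γ hγ).2] at this
    linarith
  have := cnt2 S (fun γ => γ 0 0) (fun γ => γ 1 0) (B := 3 / 2 * √T / Y) (by positivity)
    (fun γ hγ => Int.eq_one_or_neg_one_of_mul_eq_one (hd γ hγ))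
    (fun γ hγ => (bds hY (h γ hγ).1).2.2.2.1) (fun γ hγ σ hσ h1 h2 => by
      refine ext4 h1 (by rw [(h γ hγ).2, (h σ hσ).2]) h2 ?_
      have a1 := hd γ hγ
      have a2 := hd σ hσ
      rw [← h1] at a2
      rcases Int.eq_one_or_neg_one_of_mul_eq_one a1 with h | h <;> rw [h] at a1 a2 <;> linarith)
  have e : 4 * (3 / 2 * √T / Y) = 6 * (1 / Y) * √T := by ring
  nlinarith

theorem cntm {Y T : ℝ} (hY : 0 < Y) (hT : 1 ≤ T) (S : Finset SL(2, ℤ))
    (h : ∀ γ ∈ S, qq Y γ ≤ 2 * T ∧ γ 0 1 * γ 1 0 = -1) : (#S : ℝ) ≤ 16 * √T := by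
  have hs : 1 ≤ √T := one_le_sqrt.mpr hT
  have hf : ∀ γ ∈ S, γ 0 1 = 1 ∨ γ 0 1 = -1 := fun γ hγ =>
    Int.eq_one_or_neg_one_of_mul_eq_neg_one (h γ hγ).2
  have hc : ∀ γ ∈ S, ∀ σ ∈ S, γ 0 1 = σ 0 1 → γ 1 0 = σ 1 0 := fun γ hγ σ hσ h1 => by
    have a1 := (h γ hγ).2
    have a2 := (h σ hσ).2
    rw [← h1] at a2
    rcases hf γ hγ with h | h <;> rw [h] at a1 a2 <;> linarith
  have h1 := cnt2 (S.filter fun γ => γ 0 0 = 0) (fun γ => γ 0 1) (fun γ => γ 1 1)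
    (B := 3 / 2 * √T) (by positivity) (fun γ hγ => hf γ (mem_filter.mp hγ).1)
    (fun γ hγ => (bds hY (h γ (mem_filter.mp hγ).1).1).2.1) (fun γ hγ σ hσ h1 h2 => by
      rw [mem_filter] at hγ hσ
      exact ext4 (by rw [hγ.2, hσ.2]) h1 (hc γ hγ.1 σ hσ.1 h1) h2)
  have h2 := cnt2 (S.filter fun γ => ¬ γ 0 0 = 0) (fun γ => γ 0 1) (fun γ => γ 0 0)
    (B := 3 / 2 * √T) (by positivity) (fun γ hγ => hf γ (mem_filter.mp hγ).1)
    (fun γ hγ => (bds hY (h γ (mem_filter.mp hγ).1).1).1) (fun γ hγ σ hσ h1 h2 => by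
      rw [mem_filter] at hγ hσ
      have z : ∀ γ ∈ S, ¬ γ 0 0 = 0 → γ 1 1 = 0 := fun γ hγ h0 => by
        have a1 := det1 γ
        rw [(h γ hγ).2] at a1
        have : γ 0 0 * γ 1 1 = 0 := by linarith
        exact (mul_eq_zero.mp this).resolve_left h0
      exact ext4 h2 h1 (hc γ hγ.1 σ hσ.1 h1) (by rw [z γ hγ.1 hγ.2, z σ hσ.1 hσ.2]))
  have h3 := card_filter_add_card_filter_not (s := S) (fun γ => γ 0 0 = 0)
  have h4 : (#(S.filter fun γ => γ 0 0 = 0) : ℝ) + #(S.filter fun γ => ¬ γ 0 0 = 0) = #S := by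
    exact_mod_cast h3
  linarith

theorem cntg {Y T M : ℝ} (hY : 0 < Y) (hT : 1 ≤ T) (hM0 : 0 ≤ M)
    (hM : ∀ m : ℕ, 1 ≤ m → (m : ℝ) ≤ 2 * T → (#m.divisors : ℝ) ≤ M) (S : Finset SL(2, ℤ))
    (h : ∀ γ ∈ S, qq Y γ ≤ 2 * T ∧ γ 1 0 ≠ 0 ∧ γ 0 1 ≠ 0 ∧ γ 0 1 * γ 1 0 ≠ -1) :
    (#S : ℝ) ≤ 18 * M * T := by
  have hs : 1 ≤ √T := one_le_sqrt.mpr hT
  set P := (IB (3 / 2 * √T * Y)).erase 0 ×ˢ (IB (3 / 2 * √T / Y)).erase 0 with hP
  have h1 : #S = ∑ p ∈ P, #(S.filter fun γ => (γ 0 1, γ 1 0) = p) := by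
    refine card_eq_sum_card_fiberwise fun γ hγ => ?_
    have hγ' := h γ hγ
    have hb := bds hY hγ'.1
    simp only [hP, coe_product, Set.mem_prod, mem_coe, mem_erase]
    exact ⟨⟨hγ'.2.2.1, mem_IB hb.2.2.1⟩, hγ'.2.1, mem_IB hb.2.2.2.1⟩
  have h2 : ∀ p ∈ P, (#(S.filter fun γ => (γ 0 1, γ 1 0) = p) : ℝ) ≤ 2 * M := by
    intro p _
    rcases (S.filter fun γ => (γ 0 1, γ 1 0) = p).eq_empty_or_nonempty with h0 | ⟨γ₀, h0⟩
    · rw [h0, card_empty]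
      push_cast
      linarith
    rw [mem_filter] at h0
    have hp1 : γ₀ 0 1 = p.1 := congrArg Prod.fst h0.2
    have hp2 : γ₀ 1 0 = p.2 := congrArg Prod.snd h0.2
    set m := (1 + p.1 * p.2).natAbs with hm
    have hne : 1 + p.1 * p.2 ≠ 0 := by
      have := (h γ₀ h0.1).2.2.2
      rw [hp1, hp2] at this
      omega
    have hm1 : 1 ≤ m := Int.natAbs_pos.mpr hne
    have hm2 : (m : ℝ) ≤ 2 * T := by
      have a1 := (bds hY (h γ₀ h0.1).1).2.2.2.2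
      rw [hp1, hp2] at a1
      have a2 : (m : ℝ) = |1 + (p.1 : ℝ) * p.2| := by
        rw [hm, Nat.cast_natAbs]
        push_cast
        rfl
      rw [a2]
      refine (abs_add_le _ _).trans ?_
      rw [abs_one]
      linarith
    have hae : ∀ γ ∈ S.filter fun γ => (γ 0 1, γ 1 0) = p, γ 0 0 * γ 1 1 = 1 + p.1 * p.2 := by
      intro γ hγ
      rw [mem_filter] at hγ
      have a1 : γ 0 1 = p.1 := congrArg Prod.fst hγ.2
      have a2 : γ 1 0 = p.2 := congrArg Prod.snd hγ.2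
      have := det1 γ
      rw [a1, a2] at this
      linarith
    have h3 : #(S.filter fun γ => (γ 0 1, γ 1 0) = p) ≤ #((univ : Finset Bool) ×ˢ m.divisors) := by
      refine card_le_card_of_injOn (fun γ => (decide (0 ≤ γ 0 0), (γ 0 0).natAbs)) ?_ ?_
      · intro γ hγ
        simp only [coe_product, Set.mem_prod, mem_coe, mem_univ, true_and, Nat.mem_divisors]
        exact ⟨Int.natAbs_dvd_natAbs.mpr ⟨_, (hae γ hγ).symm⟩, by omega⟩
      · intro γ hγ σ hσ hh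
        have a1 : decide (0 ≤ γ 0 0) = decide (0 ≤ σ 0 0) := congrArg Prod.fst hh
        have a2 : (γ 0 0).natAbs = (σ 0 0).natAbs := congrArg Prod.snd hh
        have a3 : γ 0 0 = σ 0 0 := by
          rw [decide_eq_decide] at a1
          omega
        have b1 := hae γ hγ
        have b2 := hae σ hσ
        have c1 := (mem_filter.mp hγ).2
        have c2 := (mem_filter.mp hσ).2
        have c3 := c1.trans c2.symm
        have hne' : γ 0 0 ≠ 0 := fun h0 => hne (by rw [← b1, h0, zero_mul])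
        refine ext4 a3 (congrArg Prod.fst c3) (congrArg Prod.snd c3) ?_
        rw [← a3, ← b1] at b2
        exact (mul_left_cancel₀ hne' b2).symm
    rw [card_product, card_univ, Fintype.card_bool] at h3
    have h4 : (#(S.filter fun γ => (γ 0 1, γ 1 0) = p) : ℝ) ≤ 2 * #m.divisors := by exact_mod_cast h3
    linarith [hM m hm1 hm2]
  have h3 : (#S : ℝ) ≤ #P * (2 * M) := by
    rw [h1]
    push_cast
    refine (sum_le_sum h2).trans ?_
    rw [sum_const, nsmul_eq_mul]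
  have h4 : (#P : ℝ) ≤ 9 * T := by
    rw [hP, card_product]
    push_cast
    have a1 := card_IB0 (B := 3 / 2 * √T * Y) (by positivity)
    have a2 := card_IB0 (B := 3 / 2 * √T / Y) (by positivity)
    refine (mul_le_mul a1 a2 (Nat.cast_nonneg _) (by positivity)).trans (le_of_eq ?_)
    have : √T * √T = T := mul_self_sqrt (by linarith)
    field_simp
    nlinarith
  nlinarith

theorem dl1 {γ : SL(2, ℤ)} {i i' : ℕ} (h : dl γ i i' = 0) :
    (γ 0 0 + 2 * i * γ 1 0) * (γ 1 1 - 2 * i' * γ 1 0) = 1 := by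
  unfold dl at h
  linear_combination det1 γ - γ 1 0 * h

theorem cntz {Y T : ℝ} (hY : 1 ≤ Y) (hT : 1 ≤ T) (J : ℕ) (S : Finset SL(2, ℤ))
    (h : ∀ γ ∈ S, qq Y γ ≤ 2 * T) :
    ∑ γ ∈ S, (#{p ∈ range J ×ˢ range J | dl γ p.1 p.2 = 0} : ℝ) ^ 2 ≤ 42 * J ^ 3 * √T := by
  have hs : 1 ≤ √T := one_le_sqrt.mpr hT
  have hJ : (J : ℝ) ^ 2 ≤ (J : ℝ) ^ 3 := by
    rcases Nat.eq_zero_or_pos J with h0 | h0
    · simp [h0]
    · exact pow_le_pow_right₀ (by exact_mod_cast h0) (by norm_num)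
  have hJ0 : (0 : ℝ) ≤ J := Nat.cast_nonneg _
  set Z : SL(2, ℤ) → Finset (ℕ × ℕ) := fun γ => {p ∈ range J ×ˢ range J | dl γ p.1 p.2 = 0} with hZ
  have hmem : ∀ γ p, p ∈ Z γ ↔ (p.1 < J ∧ p.2 < J) ∧ dl γ p.1 p.2 = 0 := by
    intro γ p
    simp [hZ]
  have hsec : ∀ γ p p', p ∈ Z γ → p' ∈ Z γ → p.1 = p'.1 → p = p' := by
    intro γ p p' hp hp' h1
    have a1 := ((hmem γ p).mp hp).2
    have a2 := ((hmem γ p').mp hp').2
    have a3 := Int.eq_one_or_neg_one_of_mul_eq_one (dl1 a1)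
    unfold dl at a1 a2
    rw [← h1] at a2
    refine Prod.ext h1 ?_
    rcases a3 with h | h <;> rw [h] at a1 a2 <;> omega
  set S0 := S.filter fun γ => (Z γ).Nonempty ∧ γ 1 0 = 0 with hS0
  set S1 := S.filter fun γ => (Z γ).Nonempty ∧ γ 1 0 ≠ 0 with hS1
  have h1 : ∀ γ ∈ S, (#(Z γ) : ℝ) ^ 2 ≤ (if (Z γ).Nonempty ∧ γ 1 0 = 0 then (J : ℝ) ^ 2 else 0) +
      (if (Z γ).Nonempty ∧ γ 1 0 ≠ 0 then 4 else 0) := by
    intro γ _
    rcases (Z γ).eq_empty_or_nonempty with h0 | h0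
    · simp [h0]
    by_cases hc : γ 1 0 = 0
    · rw [if_pos ⟨h0, hc⟩, if_neg (fun h => h.2 hc), add_zero]
      have a1 : #(Z γ) ≤ #(range J) :=
        card_le_card_of_injOn Prod.fst (fun p hp => by
          simpa using ((hmem γ p).mp hp).1.1) (fun p hp p' hp' => hsec γ p p' hp hp')
      rw [card_range] at a1
      exact pow_le_pow_left₀ (Nat.cast_nonneg _) (by exact_mod_cast a1) 2
    · rw [if_neg (fun h => hc h.2), if_pos ⟨h0, hc⟩, zero_add]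
      have a1 : #(Z γ) ≤ #({1, -1} : Finset ℤ) :=
        card_le_card_of_injOn (fun p => γ 0 0 + 2 * p.1 * γ 1 0) (fun p hp => by
          simpa using Int.eq_one_or_neg_one_of_mul_eq_one (dl1 ((hmem γ p).mp hp).2))
          (fun p hp p' hp' hh => hsec γ p p' hp hp' (by
            have b1 : (2 * p.1 : ℤ) * γ 1 0 = 2 * p'.1 * γ 1 0 := add_left_cancel hh
            have b2 := mul_right_cancel₀ hc b1
            omega))
      rw [card_pair (by norm_num)] at a1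
      have a2 : (#(Z γ) : ℝ) ≤ 2 := by exact_mod_cast a1
      nlinarith [Nat.cast_nonneg (α := ℝ) #(Z γ)]
  refine (sum_le_sum h1).trans ?_
  rw [sum_add_distrib, ← sum_filter, ← sum_filter, sum_const, sum_const, nsmul_eq_mul, nsmul_eq_mul]
  have c0 : (#S0 : ℝ) ≤ 4 * (2 * J) + 2 := by
    have hd : ∀ γ ∈ S0, γ 0 0 * γ 1 1 = 1 := fun γ hγ => by
      have := det1 γ
      rw [(mem_filter.mp hγ).2.2] at this
      linarith
    refine cnt2 S0 (fun γ => γ 0 0) (fun γ => γ 0 1) (by positivity)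
      (fun γ hγ => Int.eq_one_or_neg_one_of_mul_eq_one (hd γ hγ)) (fun γ hγ => ?_)
      (fun γ hγ σ hσ h1 h2 => ?_)
    · obtain ⟨⟨p, hp⟩, hc⟩ := (mem_filter.mp hγ).2
      obtain ⟨⟨p1, p2⟩, a1⟩ := (hmem γ p).mp hp
      have a2 := hd γ hγ
      unfold dl at a1
      rw [hc] at a1
      have a3 : |γ 0 1| ≤ 2 * J := by
        rw [abs_le]
        rcases Int.eq_one_or_neg_one_of_mul_eq_one' a2 with h | h <;> rw [h.1, h.2] at a1 <;>
          constructor <;> omega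
      exact_mod_cast a3
    · refine ext4 h1 h2 (by rw [(mem_filter.mp hγ).2.2, (mem_filter.mp hσ).2.2]) ?_
      have a1 := hd γ hγ
      have a2 := hd σ hσ
      rw [← h1] at a2
      rcases Int.eq_one_or_neg_one_of_mul_eq_one a1 with h | h <;> rw [h] at a1 a2 <;> linarith
  have c1 : (#S1 : ℝ) ≤ 8 * J ^ 2 * √T := by
    set P := (({1, -1} : Finset ℤ) ×ˢ IB (3 / 2 * √T)) ×ˢ (range J ×ˢ range J) with hP
    have a1 : #S1 ≤ #(P.image fun x : (ℤ × ℤ) × (ℕ × ℕ) => ((x.1.1 - 2 * x.2.1 * x.1.2,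
        x.1.1 * (2 * x.2.2) - 2 * x.2.1 * (x.1.1 + 2 * x.2.2 * x.1.2)),
        (x.1.2, x.1.1 + 2 * x.2.2 * x.1.2))) := by
      refine card_le_card_of_injOn (fun γ => ((γ 0 0, γ 0 1), (γ 1 0, γ 1 1))) ?_ ?_
      · intro γ hγ
        obtain ⟨hγS, ⟨p, hp⟩, hc⟩ := mem_filter.mp hγ
        obtain ⟨⟨p1, p2⟩, a1⟩ := (hmem γ p).mp hp
        have a2 := dl1 a1
        have a3 := Int.eq_one_or_neg_one_of_mul_eq_one' a2
        rw [mem_coe, mem_image]
        refine ⟨((γ 0 0 + 2 * p.1 * γ 1 0, γ 1 0), p), ?_, ?_⟩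
        · simp only [hP, mem_product, mem_insert, mem_singleton, mem_range]
          refine ⟨⟨a3.imp And.left And.left, mem_IB ?_⟩, p1, p2⟩
          refine (bds (by linarith) (h γ hγS)).2.2.2.1.trans ?_
          exact div_le_self (by positivity) hY
        · have a4 : γ 0 0 + 2 * p.1 * γ 1 0 + 2 * p.2 * γ 1 0 = γ 1 1 := by
            rcases a3 with h | h <;> linarith [h.1, h.2]
          unfold dl at a1
          simp only [Prod.mk.injEq]
          rw [a4]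
          exact ⟨⟨by ring, by linarith⟩, trivial, rfl⟩
      · intro γ _ σ _ hh
        simp only [Prod.mk.injEq] at hh
        exact ext4 hh.1.1 hh.1.2 hh.2.1 hh.2.2
    have a2 := a1.trans card_image_le
    rw [hP, card_product, card_product, card_product, card_range, card_pair (by norm_num)] at a2
    have a3 : (#S1 : ℝ) ≤ 2 * #(IB (3 / 2 * √T)) * (J * J) := by exact_mod_cast a2
    have a4 := card_IB (B := 3 / 2 * √T) (by positivity)
    have a5 : (#(IB (3 / 2 * √T)) : ℝ) ≤ 4 * √T := by linarith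
    nlinarith [mul_le_mul_of_nonneg_right a5 (mul_nonneg hJ0 hJ0)]
  have e1 : (#S0 : ℝ) * J ^ 2 ≤ 10 * J ^ 3 := by
    nlinarith [mul_le_mul_of_nonneg_right c0 (sq_nonneg (J : ℝ))]
  have e2 : (J : ℝ) ^ 3 ≤ J ^ 3 * √T := le_mul_of_one_le_right (by positivity) hs
  have e3 : (J : ℝ) ^ 2 * √T ≤ J ^ 3 * √T := mul_le_mul_of_nonneg_right hJ (by positivity)
  nlinarith

end K8

open K8 in
theorem k8 (hG : GeoStmt) : K8Stmt := by
  intro ε hε
  obtain ⟨C₀, hC₀, hτ⟩ := MP_9177b7_ag.EQ.div.1 0 (ε / 2) (by positivity)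
  have hq : ∀ Y : ℝ, 0 < Y → ∀ γ : SL(2, ℤ),
      2 * cosh (dist (ipt Y) (γ • ipt Y)) = qq Y γ := fun Y hY γ => (hG.2.2.2.2.2.1 Y γ hY).2
  set L := 4 / ε + 1 with hL
  have hL0 : 0 < L := by positivity
  set D := 36 * C₀ * 4 ^ (ε / 2) with hD
  have hD0 : 0 < D := by positivity
  refine ⟨L * (D + 84), by positivity, fun U Y hU hY => ?_⟩
  set ch : SL(2, ℤ) → ℝ := fun γ => cosh (dist (ipt Y) (γ • ipt Y)) with hch
  have hch1 : ∀ γ, 1 ≤ ch γ := fun γ => one_le_cosh _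
  have hmj : ∀ γ : SL(2, ℤ), mj U (dist (ipt Y) (γ • ipt Y)) =
      if ch γ ≤ U then 1 / √(ch γ) else 0 := fun γ => rfl
  have hqT : ∀ T γ, ch γ ≤ T → qq Y γ ≤ 2 * T := fun T γ h => by
    rw [← hq Y hY γ]
    linarith
  have hlg : (Nat.log 2 ⌊U⌋₊ + 1 : ℝ) ≤ L * U ^ (ε / 2) := by
    have := lg (ε := ε / 2) (by positivity) hU
    have e : 2 / (ε / 2) = 4 / ε := by field_simp; norm_num
    rwa [e] at this
  have hU1 : 1 ≤ U ^ (ε / 2) := one_le_rpow hU (by positivity)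
  have hUU : U ^ (ε / 2) * U ^ (ε / 2) = U ^ ε := by
    rw [← rpow_add (by linarith)]
    congr 1
    ring
  have hUle : U ^ (ε / 2) ≤ U ^ ε := rpow_le_rpow_of_exponent_le hU (by linarith)
  have hsU : 1 ≤ √U := one_le_sqrt.mpr hU
  have hYi : 0 < 1 / Y := by positivity
  have hYY : 1 ≤ Y + 1 / Y := by
    rcases le_total 1 Y with h | h
    · linarith
    · have : 1 ≤ 1 / Y := one_le_one_div hY h
      linarith
  refine ⟨?_, ?_, fun hY1 J => ?_⟩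
  · refine tsum_le_of_sum_le' (by positivity) fun s => ?_
    have key := dy s ch (fun _ => 1) U (18 * (C₀ * 4 ^ (ε / 2) * U ^ (ε / 2)))
      (6 * Y + 6 * (1 / Y) + 20) hU hch1 (fun _ => zero_le_one) (by positivity) (by positivity)
      (fun T hT hTU => by
        rw [sum_const, nsmul_eq_mul, mul_one]
        set S := s.filter fun γ => ch γ ≤ T with hS
        have hS' : ∀ γ ∈ S, qq Y γ ≤ 2 * T := fun γ hγ => hqT T γ (mem_filter.mp hγ).2
        have c1 := cntc hY hT (S.filter fun γ => γ 1 0 = 0) fun γ hγ =>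
          ⟨hS' γ (mem_filter.mp hγ).1, (mem_filter.mp hγ).2⟩
        have c2 := cntb hY hT (S.filter fun γ => γ 0 1 = 0) fun γ hγ =>
          ⟨hS' γ (mem_filter.mp hγ).1, (mem_filter.mp hγ).2⟩
        have c3 := cntm hY hT (S.filter fun γ => γ 0 1 * γ 1 0 = -1) fun γ hγ =>
          ⟨hS' γ (mem_filter.mp hγ).1, (mem_filter.mp hγ).2⟩
        have c4 := cntg (M := C₀ * 4 ^ (ε / 2) * U ^ (ε / 2)) hY hT (by positivity)
          (fun m hm hm2 => by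
            refine (hτ m hm).1.trans ?_
            rw [mul_assoc, ← mul_rpow (by norm_num) (by linarith)]
            refine mul_le_mul_of_nonneg_left ?_ hC₀.le
            exact rpow_le_rpow (Nat.cast_nonneg _) (by linarith) (by positivity))
          (S.filter fun γ => γ 1 0 ≠ 0 ∧ γ 0 1 ≠ 0 ∧ γ 0 1 * γ 1 0 ≠ -1) fun γ hγ =>
          ⟨hS' γ (mem_filter.mp hγ).1, (mem_filter.mp hγ).2⟩
        have c5 : S ⊆ ((S.filter fun γ => γ 1 0 = 0) ∪ (S.filter fun γ => γ 0 1 = 0)) ∪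
            ((S.filter fun γ => γ 0 1 * γ 1 0 = -1) ∪
              (S.filter fun γ => γ 1 0 ≠ 0 ∧ γ 0 1 ≠ 0 ∧ γ 0 1 * γ 1 0 ≠ -1)) := by
          intro γ hγ
          simp only [mem_union, mem_filter (s := S)]
          tauto
        have c6 := (card_le_card c5).trans ((card_union_le _ _).trans
          (add_le_add (card_union_le _ _) (card_union_le _ _)))
        have c7 : (#S : ℝ) ≤ (#(S.filter fun γ => γ 1 0 = 0) + #(S.filter fun γ => γ 0 1 = 0)) +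
            (#(S.filter fun γ => γ 0 1 * γ 1 0 = -1) +
              #(S.filter fun γ => γ 1 0 ≠ 0 ∧ γ 0 1 ≠ 0 ∧ γ 0 1 * γ 1 0 ≠ -1)) := by
          exact_mod_cast c6
        linarith)
    simp only [mul_one] at key
    simp only [hmj]
    refine key.trans ?_
    have a1 : U ^ ε ≤ (U * (Y + 1 / Y)) ^ ε :=
      rpow_le_rpow (by linarith) (le_mul_of_one_le_right (by linarith) hYY) hε.le
    have a2 : 2 * (18 * (C₀ * 4 ^ (ε / 2) * U ^ (ε / 2))) * √U + 2 * (6 * Y + 6 * (1 / Y) + 20) ≤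
        U ^ (ε / 2) * ((D + 84) * (√U + Y + 1 / Y)) := by
      have b1 : 2 * (18 * (C₀ * 4 ^ (ε / 2) * U ^ (ε / 2))) * √U = U ^ (ε / 2) * (D * √U) := by
        rw [hD]
        ring
      have b2 : 2 * (6 * Y + 6 * (1 / Y) + 20) ≤ 84 * (√U + Y + 1 / Y) := by linarith
      have b3 : 84 * (√U + Y + 1 / Y) ≤ U ^ (ε / 2) * (84 * (√U + Y + 1 / Y)) :=
        le_mul_of_one_le_left (by positivity) hU1
      have b4 : U ^ (ε / 2) * (D * √U) ≤ U ^ (ε / 2) * (D * (√U + Y + 1 / Y)) := by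
        gcongr
        linarith
      rw [b1]
      nlinarith
    calc _ ≤ (L * U ^ (ε / 2)) * (U ^ (ε / 2) * ((D + 84) * (√U + Y + 1 / Y))) :=
          mul_le_mul hlg a2 (by positivity) (by positivity)
      _ = L * (D + 84) * U ^ ε * (√U + Y + 1 / Y) := by rw [← hUU]; ring
      _ ≤ _ := by gcongr
  · refine tsum_le_of_sum_le' (by positivity) fun s => ?_
    have key := dy (s.filter fun γ => γ 1 0 = 0) ch (fun _ => 1) U 0 (6 * Y + 2) hU hch1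
      (fun _ => zero_le_one) le_rfl (by positivity) (fun T hT _ => by
        rw [sum_const, nsmul_eq_mul, mul_one, zero_mul, zero_add]
        exact cntc hY hT _ fun γ hγ =>
          ⟨hqT T γ (mem_filter.mp hγ).2, (mem_filter.mp (mem_filter.mp hγ).1).2⟩)
    simp only [mul_one] at key
    rw [← sum_filter]
    simp only [hmj]
    refine key.trans ?_
    calc _ ≤ (L * U ^ ε) * ((D + 84) * (1 + Y)) := by
          refine mul_le_mul (hlg.trans (by gcongr)) ?_ (by positivity) (by positivity)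
          nlinarith
      _ = _ := by ring
  · refine tsum_le_of_sum_le' (by positivity) fun s => ?_
    have key := dy s ch (fun γ => (#{p ∈ range J ×ˢ range J | dl γ p.1 p.2 = 0} : ℝ) ^ 2) U 0
      (42 * J ^ 3) hU hch1 (fun _ => by positivity) le_rfl (by positivity) (fun T hT _ => by
        rw [zero_mul, zero_add]
        exact cntz hY1 hT J _ fun γ hγ => hqT T γ (mem_filter.mp hγ).2)
    simp only [hmj]
    refine key.trans ?_
    calc _ ≤ (L * U ^ ε) * ((D + 84) * J ^ 3) := by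
          refine mul_le_mul (hlg.trans (by gcongr)) ?_ (by positivity) (by positivity)
          have : 0 ≤ D * (J : ℝ) ^ 3 := by positivity
          nlinarith
      _ = _ := by ring

end Pool.Agent.Lib.MP_4b1228_nt.PP
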