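import Pool.Agent.Lib.MP_4b1228_nt.PP.St
import Pool.Agent.Lib.MP_9177b7_ag.EQ.Div

/-! Type I information from the engine. -/

open Finset Real Filter UpperHalfPlane
open scoped MatrixGroups Classical

noncomputable section

namespace Pool.Agent.Lib.MP_4b1228_nt.PP

namespace K9

theorem cosh_le {r : ℝ} (h : 0 ≤ r) : cosh r ≤ exp r := by
  rw [cosh_eq]
  have : exp (-r) ≤ exp r := exp_le_exp.2 (by linarith)
  linarith

theorem sm (hG : GeoStmt) (z w : ℍ) (r : ℝ) (g : SL(2, ℤ) → ℝ)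
    (hg : ∀ γ, r < dist z (γ • w) → g γ = 0) : Summable g := by
  refine summable_of_hasFiniteSupport ((hG.2.2.2.2.2.2.2.1 z w r).subset fun γ hγ => ?_)
  by_contra h
  exact hγ (hg γ (not_le.1 h))

theorem mj_nonneg (U r : ℝ) : 0 ≤ mj U r := by
  unfold mj
  split_ifs <;> positivity

theorem mj_zero {U r : ℝ} (h0 : 0 ≤ r) (h : U < r) : mj U r = 0 := by
  have h1 := self_le_sinh_iff.2 h0
  have h2 := sinh_lt_cosh r
  unfold mj
  rw [if_neg (by linarith)]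

theorem mj_neg {U r : ℝ} (h : ¬cosh r ≤ U) : mj U r = 0 := if_neg h

theorem mj_one {U r : ℝ} (h : cosh r = 1) (hU : 1 ≤ U) : mj U r = 1 := by simp [mj, h, hU]

theorem sm_mj (hG : GeoStmt) (z : ℍ) (U : ℝ) : Summable fun γ : SL(2, ℤ) => mj U (dist z (γ • z)) :=
  sm hG z z U _ fun _ h => mj_zero dist_nonneg h

theorem adm_le {X Λ r : ℝ} {f : ℝ → ℝ} (hf : Adm X Λ f) (hX : 0 < X) (hΛ : 0 ≤ Λ) (hr : 0 ≤ r) :
    f r ≤ Λ * √X * mj X r := by
  rcases lt_or_ge (log X) r with h | h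
  · rw [hf.supp r h]
    exact mul_nonneg (by positivity) (mj_nonneg _ _)
  · have h1 : cosh r ≤ X := (cosh_le hr).trans ((exp_le_exp.2 h).trans_eq (exp_log hX))
    have h2 := hf.bd r hr
    unfold mj
    rw [if_pos h1]
    rw [sqrt_div hX.le] at h2
    calc f r ≤ _ := h2
      _ = _ := by ring

theorem supp (hG : GeoStmt) {X Λ Y : ℝ} {f : ℝ → ℝ} (hf : Adm X Λ f) (hX : 0 < X) (hY : 0 < Y)
    {k : ℕ} (hk : 1 ≤ k) {l : ℤ} (h : f (hd (l / k) (1 / k) Y) ≠ 0) :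
    k ≤ KM X Y ∧ (l : ℝ) ^ 2 ≤ 2 * X * (k * Y) := by
  have hk' : (0 : ℝ) < k := by exact_mod_cast hk
  obtain ⟨h0, h1, -⟩ := hG.1 (l / k) (1 / k) Y (by positivity) hY
  have h2 : hd (l / k) (1 / k) Y ≤ log X := by
    by_contra h2
    exact h (hf.supp _ (not_le.1 h2))
  have h3 : cosh (hd (l / k) (1 / k) Y) ≤ X :=
    (cosh_le h0).trans ((exp_le_exp.2 h2).trans_eq (exp_log hX))
  rw [h1, div_le_iff₀ (by positivity)] at h3
  have h4 : (l : ℝ) ^ 2 + 1 + (k * Y) ^ 2 ≤ 2 * X * (k * Y) := by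
    have h5 := mul_le_mul_of_nonneg_right h3 (sq_nonneg (k : ℝ))
    have e1 : ((l / k : ℝ) ^ 2 + (1 / k) ^ 2 + Y ^ 2) * (k : ℝ) ^ 2 = l ^ 2 + 1 + (k * Y) ^ 2 := by
      field_simp
    have e2 : X * (2 * (1 / k) * Y) * (k : ℝ) ^ 2 = 2 * X * (k * Y) := by field_simp
    rwa [e1, e2] at h5
  have hkY : 0 < k * Y := by positivity
  refine ⟨Nat.le_floor ?_, by nlinarith [sq_nonneg (k * Y)]⟩
  rw [le_div_iff₀ hY]
  nlinarith [sq_nonneg (l : ℝ)]

theorem iso_int {q : ℕ} (a b : ℤ) :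
    iso (((a : ZMod q), (b : ZMod q))) = if (q : ℤ) ∣ a ^ 2 + b ^ 2 then 1 else 0 := by
  unfold iso
  have : ((a : ZMod q) ^ 2 + (b : ZMod q) ^ 2 = 0) ↔ (q : ℤ) ∣ a ^ 2 + b ^ 2 := by
    rw [← ZMod.intCast_zmod_eq_zero_iff_dvd]
    push_cast
    rfl
  simp only [this]

theorem iso_smul {q : ℕ} (u : (ZMod q)ˣ) (x : ZMod q × ZMod q) :
    iso ((u : ZMod q) • x) = iso x := by
  unfold iso
  have : (((u : ZMod q) • x).1 ^ 2 + ((u : ZMod q) • x).2 ^ 2 = 0) ↔ x.1 ^ 2 + x.2 ^ 2 = 0 := by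
    have e : ((u : ZMod q) • x).1 ^ 2 + ((u : ZMod q) • x).2 ^ 2 =
        ((u ^ 2 : (ZMod q)ˣ) : ZMod q) * (x.1 ^ 2 + x.2 ^ 2) := by
      simp only [Prod.smul_fst, Prod.smul_snd, smul_eq_mul, Units.val_pow_eq_pow_val]
      ring
    rw [e, Units.mul_right_eq_zero]
  simp only [this]

theorem iso_nonneg {q : ℕ} (x : ZMod q × ZMod q) : 0 ≤ iso x := by
  unfold iso
  split_ifs <;> norm_num

theorem iso_le {q : ℕ} (x : ZMod q × ZMod q) : iso x ≤ 1 := by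
  unfold iso
  split_ifs <;> norm_num

/-- The weight. -/
def Wt (d : ℕ) (x₁ : ZMod d × ZMod d) (x₂ : ZMod 2 × ZMod 2) : ℝ := (iso x₁ - gg d) * iso x₂

theorem key (hG : GeoStmt) {X Λ Y : ℝ} {f : ℝ → ℝ} (hf : Adm X Λ f) (hX : 0 < X) (hY : 0 < Y)
    (d : ℕ) :
    ∑' γ : SL(2, ℤ), Wt d (ract γ (0, 1)) (ract γ (1, 1)) * f (dist (ipt Y) (γ • I)) =
      4 * (∑ k ∈ (Icc 1 (KM X Y) : Finset ℕ) with d ∣ k, sA f Y k - gg d * mu X f Y) := by
  set h : ℕ → ℤ → ℝ := fun k l => if 1 ≤ k then ((if d ∣ k then 1 else 0) - gg d) *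
    (if Even l then f (hd (l / k) (1 / k) Y) else 0) else 0 with hh
  have hne : ∀ k l, h k l ≠ 0 → 1 ≤ k ∧ f (hd (l / k) (1 / k) Y) ≠ 0 := by
    intro k l hkl
    by_cases hk : 1 ≤ k
    · refine ⟨hk, fun h0 => hkl ?_⟩
      simp only [hh, h0, ite_self, mul_zero]
    · exact absurd (by simp only [hh, if_neg hk]) hkl
  have h9 := (hG.2.2.2.2.2.2.2.2 (KM X Y) h
    (fun k l hkl => (supp hG hf hX hY (hne k l hkl).1 (hne k l hkl).2).1) (fun k => by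
      refine (Set.finite_Icc (-⌈2 * X * (k * Y)⌉) ⌈2 * X * (k * Y)⌉).subset fun l hl => ?_
      have h1 := (supp hG hf hX hY (hne k l hl).1 (hne k l hl).2).2
      have h2 : l ^ 2 ≤ ⌈2 * X * (k * Y)⌉ := by
        have := Int.le_ceil (2 * X * (k * Y))
        exact_mod_cast h1.trans this
      constructor <;> nlinarith [sq_nonneg (l + 1), sq_nonneg (l - 1), sq_nonneg l])).2
  have e1 : ∀ γ : SL(2, ℤ), Wt d (ract γ (0, 1)) (ract γ (1, 1)) * f (dist (ipt Y) (γ • I)) =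
      h (kk γ) (ll γ) := by
    intro γ
    obtain ⟨k1, k2, -, k4⟩ := hG.2.2.2.2.2.2.1 γ 0
    have a1 : ract γ ((0, 1) : ZMod d × ZMod d) = (((γ 1 0 : ℤ) : ZMod d), ((γ 1 1 : ℤ) : ZMod d)) := by
      simp [ract]
    have a2 : ract γ ((1, 1) : ZMod 2 × ZMod 2) =
        (((γ 0 0 + γ 1 0 : ℤ) : ZMod 2), ((γ 0 1 + γ 1 1 : ℤ) : ZMod 2)) := by
      simp [ract]
    rw [Wt, a1, a2, iso_int, iso_int, (hG.2.2.2.2.2.1 Y γ hY).1, ← k2]
    simp only [hh, if_pos k1, Int.natCast_dvd_natCast, k4, Nat.cast_ofNat]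
    split_ifs <;> ring
  rw [tsum_congr e1, h9, mu, sum_filter, mul_sum _ _ (gg d), ← sum_sub_distrib]
  congr 1
  refine sum_congr rfl fun k hk => ?_
  have hk1 : 1 ≤ k := (mem_Icc.1 hk).1
  have e2 : ∀ l : ℤ, (if (k : ℤ) ∣ l ^ 2 + 1 then h k l else 0) =
      ((if d ∣ k then 1 else 0) - gg d) *
        (if Even l ∧ (k : ℤ) ∣ l ^ 2 + 1 then f (hd (l / k) (1 / k) Y) else 0) := by
    intro l
    simp only [hh, if_pos hk1]
    by_cases a : (k : ℤ) ∣ l ^ 2 + 1 <;> by_cases b : Even l <;> simp [a, b]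
  rw [tsum_congr e2, tsum_mul_left, sA]
  split_ifs <;> ring

/-- The arithmetic weight on the side of the base point. -/
def aw (d : ℕ) (γ : SL(2, ℤ)) : ℝ :=
  (if (d : ℤ) ∣ fro γ ^ 2 - 4 then (rho d : ℝ) else 0) + 3 * rho d * gg d

theorem eng (hR : RhoStmt) (hG : GeoStmt) (h1 : K1Stmt) (h7 : K7Stmt) {d : ℕ} [NeZero d]
    (hd : Squarefree d) {R E S : ℝ} (hR1 : 1 ≤ R) {j : ℕ} (hj : 1 ≤ j) (z : ℍ)
    (h : S ^ 2 ≤ E ^ 2 *
      (∑' γ : SL(2, ℤ), (∑ y₁ ∈ UU d, ∑ y₂ ∈ UU 2,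
          |Wt d y₁ y₂| * |Wt d (ract γ y₁) (ract γ y₂)|) /
          (Nat.totient d * Nat.totient 2) * kr R j I (γ • I)) *
      (∑' γ : SL(2, ℤ), if dt (ract γ ((0, 1) : ZMod d × ZMod d)) (0, 1) = 0 ∧
          dt (ract γ ((1, 1) : ZMod 2 × ZMod 2)) (1, 1) = 0 then kr R j z (γ • z) else 0))
    (hE : 0 ≤ E) :
    2 * |S| ≤ E * ((∑' γ : SL(2, ℤ), aw d γ * kr R j I (γ • I)) +
      ∑' γ : SL(2, ℤ), if (d : ℤ) ∣ γ 1 0 then kr R j z (γ • z) else 0) := by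
  obtain ⟨-, k0, -, k3, -⟩ := h1 R j hR1 hj
  have hg := (hR.2.2.2.2.2.2.2.2.2.1 d hd).1
  have hφ : (0 : ℝ) < Nat.totient d := by exact_mod_cast Nat.totient_pos.2 (NeZero.pos d)
  have hs2 : ∑ y ∈ UU 2, iso y = 1 := by
    rw [(h7.2.2.2 2 Nat.prime_two.prime.squarefree).1, hR.2.2.2.2.2.1]
    simp
  set A := ∑' γ : SL(2, ℤ), (∑ y₁ ∈ UU d, ∑ y₂ ∈ UU 2,
          |Wt d y₁ y₂| * |Wt d (ract γ y₁) (ract γ y₂)|) /
          (Nat.totient d * Nat.totient 2) * kr R j I (γ • I) with hA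
  set V := ∑' γ : SL(2, ℤ), if dt (ract γ ((0, 1) : ZMod d × ZMod d)) (0, 1) = 0 ∧
          dt (ract γ ((1, 1) : ZMod 2 × ZMod 2)) (1, 1) = 0 then kr R j z (γ • z) else 0 with hV
  have A0 : 0 ≤ A := tsum_nonneg fun γ => mul_nonneg (by positivity) (k0 _ _)
  have V0 : 0 ≤ V := tsum_nonneg fun γ => by
    split_ifs
    exacts [k0 _ _, le_rfl]
  have A1 : A ≤ ∑' γ : SL(2, ℤ), aw d γ * kr R j I (γ • I) := by
    refine Summable.tsum_le_tsum (fun γ => mul_le_mul_of_nonneg_right ?_ (k0 _ _))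
      (sm hG I I (j * R) _ fun γ hγ => by rw [k3 _ _ hγ, mul_zero])
      (sm hG I I (j * R) _ fun γ hγ => by rw [k3 _ _ hγ, mul_zero])
    rw [Nat.totient_two, Nat.cast_one, mul_one, div_le_iff₀ hφ, mul_comm]
    refine le_trans (sum_le_sum fun y₁ _ => ?_) ((h7.2.2.2 d hd).2.2 γ)
    have b : ∀ x : ZMod d × ZMod d, |iso x - gg d| ≤ iso x + gg d := fun x => by
      have := iso_nonneg x
      rw [abs_le]
      constructor <;> linarith
    rw [← mul_one ((iso y₁ + gg d) * _), ← hs2, mul_sum]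
    refine sum_le_sum fun y₂ _ => ?_
    rw [Wt, Wt, abs_mul, abs_mul, abs_of_nonneg (iso_nonneg y₂),
      abs_of_nonneg (iso_nonneg (ract γ y₂))]
    have c1 := iso_nonneg y₂
    have c2 := iso_nonneg y₁
    calc _ = |iso y₁ - gg d| * |iso (ract γ y₁) - gg d| * iso (ract γ y₂) * iso y₂ := by ring
      _ ≤ (iso y₁ + gg d) * (iso (ract γ y₁) + gg d) * 1 * iso y₂ := by
        have c3 := iso_nonneg (ract γ y₁)
        have c4 := iso_nonneg (ract γ y₂)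
        gcongr
        exacts [b _, b _, iso_le _]
      _ = _ := by ring
  have V1 : V ≤ ∑' γ : SL(2, ℤ), if (d : ℤ) ∣ γ 1 0 then kr R j z (γ • z) else 0 := by
    refine Summable.tsum_le_tsum (fun γ => ?_)
      (sm hG z z (j * R) _ fun γ hγ => by rw [k3 _ _ hγ, ite_self])
      (sm hG z z (j * R) _ fun γ hγ => by rw [k3 _ _ hγ, ite_self])
    split_ifs with a b
    · exact le_rfl
    · refine absurd ((ZMod.intCast_zmod_eq_zero_iff_dvd _ _).1 ?_) b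
      simpa [dt, ract] using a.1
    · exact k0 _ _
    · exact le_rfl
  refine le_trans ?_ (mul_le_mul_of_nonneg_left (add_le_add A1 V1) hE)
  refine abs_le_of_sq_le_sq' ?_ (by positivity) |>.2
  have := mul_nonneg (sq_nonneg E) (sq_nonneg (A - V))
  rw [mul_pow, sq_abs]
  nlinarith

theorem cnt {m : ℤ} (hm : m ≠ 0) (s : Finset ℕ) (g : ℕ → ℝ) {G : ℝ} (hG : 0 ≤ G)
    (hg : ∀ d ∈ s, g d ≤ G) :
    ∑ d ∈ s, (if (d : ℤ) ∣ m then g d else 0) ≤ #m.natAbs.divisors * G := by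
  rw [← sum_filter]
  refine (sum_le_card_nsmul _ _ G fun d hd => hg d (mem_filter.1 hd).1).trans ?_
  rw [nsmul_eq_mul]
  refine mul_le_mul_of_nonneg_right (Nat.cast_le.2 (card_le_card fun d hd => ?_)) hG
  exact Nat.mem_divisors.2 ⟨Int.natCast_dvd.1 (mem_filter.1 hd).2, Int.natAbs_ne_zero.2 hm⟩

theorem tau_int {B T : ℝ} (hT : ∀ m : ℕ, 1 ≤ m → (m : ℝ) ≤ B → (#m.divisors : ℝ) ≤ T) {m : ℤ}
    (hm : m ≠ 0) (h : |(m : ℝ)| ≤ B) : (#m.natAbs.divisors : ℝ) ≤ T :=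
  hT _ (Int.natAbs_pos.2 hm) (by rwa [Nat.cast_natAbs, Int.cast_abs])

theorem sumV (hG : GeoStmt) {U Y P B T r : ℝ} {D : ℕ} (hY : 0 < Y) (hP : 0 ≤ P) (hT0 : 0 ≤ T)
    (hT : ∀ m : ℕ, 1 ≤ m → (m : ℝ) ≤ B → (#m.divisors : ℝ) ≤ T) (hB : 2 * U ≤ B * Y ^ 2)
    (s : Finset ℕ) (hs : #s ≤ D) (κ : SL(2, ℤ) → ℝ) (h0 : ∀ γ, 0 ≤ κ γ)
    (h1 : ∀ γ, κ γ ≤ P * mj U (dist (ipt Y) (γ • ipt Y)))
    (h2 : ∀ γ, r < dist (ipt Y) (γ • ipt Y) → κ γ = 0) :
    ∑ d ∈ s, (∑' γ : SL(2, ℤ), if (d : ℤ) ∣ γ 1 0 then κ γ else 0) ≤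
      P * (T * ∑' γ : SL(2, ℤ), mj U (dist (ipt Y) (γ • ipt Y)) +
        D * ∑' γ : SL(2, ℤ), if γ 1 0 = 0 then mj U (dist (ipt Y) (γ • ipt Y)) else 0) := by
  have s1 := sm_mj hG (ipt Y) U
  have s2 : Summable fun γ : SL(2, ℤ) =>
      if γ 1 0 = 0 then mj U (dist (ipt Y) (γ • ipt Y)) else 0 :=
    sm hG _ _ U _ fun γ h => by rw [mj_zero dist_nonneg h, ite_self]
  have s3 : ∀ d ∈ s, Summable fun γ : SL(2, ℤ) => if (d : ℤ) ∣ γ 1 0 then κ γ else 0 :=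
    fun d _ => sm hG _ _ r _ fun γ h => by rw [h2 γ h, ite_self]
  rw [← Summable.tsum_finsetSum s3, ← tsum_mul_left, ← tsum_mul_left,
    ← (s1.mul_left _).tsum_add (s2.mul_left _), ← tsum_mul_left]
  refine Summable.tsum_le_tsum (fun γ => ?_) (summable_sum s3)
    (((s1.mul_left _).add (s2.mul_left _)).mul_left _)
  have m0 := mj_nonneg U (dist (ipt Y) (γ • ipt Y))
  have m1 := h1 γ
  by_cases hc : γ 1 0 = 0
  · simp only [hc, dvd_zero, if_true, sum_const, nsmul_eq_mul]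
    have hs' : (#s : ℝ) ≤ D := by exact_mod_cast hs
    have := mul_le_mul hs' m1 (h0 γ) (Nat.cast_nonneg D)
    have := mul_nonneg hP (mul_nonneg hT0 m0)
    nlinarith
  · rw [if_neg hc, mul_zero, add_zero]
    refine (cnt hc s (fun _ => κ γ) (mul_nonneg hP m0) fun _ _ => m1).trans ?_
    by_cases hU : cosh (dist (ipt Y) (γ • ipt Y)) ≤ U
    · have e := (hG.2.2.2.2.2.1 Y γ hY).2
      have c1 : (γ 1 0 : ℝ) ^ 2 * Y ^ 2 ≤ B * Y ^ 2 := by
        have : 0 ≤ (γ 0 1 : ℝ) ^ 2 / Y ^ 2 := by positivity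
        nlinarith [sq_nonneg (γ 0 0 : ℝ), sq_nonneg (γ 1 1 : ℝ)]
      have c2 : (γ 1 0 : ℝ) ^ 2 ≤ B := le_of_mul_le_mul_right c1 (by positivity)
      have c3 : (1 : ℝ) ≤ |(γ 1 0 : ℝ)| := by exact_mod_cast Int.one_le_abs hc
      have c4 := tau_int hT hc (by nlinarith [sq_abs (γ 1 0 : ℝ)])
      calc _ ≤ T * (P * mj U (dist (ipt Y) (γ • ipt Y))) :=
            mul_le_mul_of_nonneg_right c4 (mul_nonneg hP m0)
        _ = _ := by ring
    · rw [mj_neg hU]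
      simp

theorem sumA (hR : RhoStmt) (hG : GeoStmt) {U P B T L r : ℝ} {D : ℕ} (hU : 1 ≤ U) (hP : 0 ≤ P)
    (hT0 : 0 ≤ T) (hT : ∀ m : ℕ, 1 ≤ m → (m : ℝ) ≤ B → (#m.divisors : ℝ) ≤ T)
    (hB : 4 * U ^ 2 ≤ B) (hD : (D : ℝ) ≤ B) (hL : (1 + log D) ^ 2 ≤ L)
    (s : Finset ℕ) (hs : s ⊆ Icc 1 D) (hq : ∀ d ∈ s, Squarefree d) (κ : SL(2, ℤ) → ℝ)
    (h1 : ∀ γ, κ γ ≤ P * mj U (dist I (γ • I)))
    (h2 : ∀ γ, r < dist I (γ • I) → κ γ = 0) :
    ∑ d ∈ s, (∑' γ : SL(2, ℤ), aw d γ * κ γ) ≤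
      P * ((T ^ 2 + 3 * T * L) * ∑' γ : SL(2, ℤ), mj U (dist I (γ • I)) +
        D * T * ∑' γ : SL(2, ℤ), mj 1 (dist I (γ • I))) := by
  have s1 := sm_mj hG I U
  have s2 := sm_mj hG I 1
  have s3 : ∀ d ∈ s, Summable fun γ : SL(2, ℤ) => aw d γ * κ γ :=
    fun d _ => sm hG _ _ r _ fun γ h => by rw [h2 γ h, mul_zero]
  have hρ : ∀ d ∈ s, (rho d : ℝ) ≤ T := fun d hd => by
    have a := mem_Icc.1 (hs hd)
    exact le_trans (by exact_mod_cast hR.2.2.2.2.2.2.1 d)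
      (hT d a.1 (le_trans (by exact_mod_cast a.2) hD))
  have hg : ∑ d ∈ s, 3 * (rho d : ℝ) * gg d ≤ 3 * T * L := by
    calc _ ≤ ∑ d ∈ s, 3 * T * ((rho d : ℝ) / d) := sum_le_sum fun d hd => by
            have a := hR.2.2.2.2.2.2.2.2.2.1 d (hq d hd)
            have b := hρ d hd
            gcongr
            exacts [a.1, a.2.1]
      _ ≤ 3 * T * L := by
        rw [← mul_sum]
        refine mul_le_mul_of_nonneg_left (le_trans ?_ ((hR.2.2.2.2.2.2.2.2.2.2.1 D).1.trans hL))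
          (by positivity)
        exact sum_le_sum_of_subset_of_nonneg hs fun _ _ _ => by positivity
  have hL0 : 0 ≤ L := (sq_nonneg _).trans hL
  rw [← Summable.tsum_finsetSum s3, ← tsum_mul_left, ← tsum_mul_left,
    ← (s1.mul_left _).tsum_add (s2.mul_left _), ← tsum_mul_left]
  refine Summable.tsum_le_tsum (fun γ => ?_) (summable_sum s3)
    (((s1.mul_left _).add (s2.mul_left _)).mul_left _)
  have m0 := mj_nonneg U (dist I (γ • I))
  have m0' := mj_nonneg 1 (dist I (γ • I))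
  have e : 2 * cosh (dist I (γ • I)) = fro γ := by
    have := (hG.2.2.2.2.2.1 1 γ one_pos).2
    rw [hG.2.2.2.2.1] at this
    rw [this, fro]
    push_cast
    ring
  have a0 : 0 ≤ ∑ d ∈ s, aw d γ := sum_nonneg fun d hd => by
    have a := (hR.2.2.2.2.2.2.2.2.2.1 d (hq d hd)).1
    unfold aw
    split_ifs <;> positivity
  rw [← sum_mul]
  refine (mul_le_mul_of_nonneg_left (h1 γ) a0).trans ?_
  rw [mul_left_comm]
  refine mul_le_mul_of_nonneg_left ?_ hP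
  have c0 := one_le_cosh (dist I (γ • I))
  simp only [aw, sum_add_distrib]
  by_cases hc : fro γ ^ 2 - 4 = 0
  · have c1 : (fro γ : ℝ) ^ 2 - 4 = 0 := by exact_mod_cast hc
    have c2 : cosh (dist I (γ • I)) = 1 := by nlinarith
    have c3 : mj U (dist I (γ • I)) = 1 := mj_one c2 hU
    have c4 : mj 1 (dist I (γ • I)) = 1 := mj_one c2 le_rfl
    have c5 : ∑ d ∈ s, (rho d : ℝ) ≤ D * T := by
      refine (sum_le_card_nsmul _ _ T hρ).trans ?_
      rw [nsmul_eq_mul]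
      refine mul_le_mul_of_nonneg_right (Nat.cast_le.2 ?_) hT0
      simpa using card_le_card hs
    simp only [hc, dvd_zero, if_true, c3, c4]
    nlinarith [sq_nonneg T]
  · by_cases hU' : cosh (dist I (γ • I)) ≤ U
    · have c4 := tau_int hT hc (by
        push_cast
        rw [← e, abs_le]
        constructor <;> nlinarith)
      have c5 := (cnt hc s (fun d => (rho d : ℝ)) hT0 hρ).trans
        (mul_le_mul_of_nonneg_right c4 hT0)
      have c6 := mul_le_mul_of_nonneg_right (add_le_add c5 hg) m0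
      have c7 : 0 ≤ D * T * mj 1 (dist I (γ • I)) := by positivity
      nlinarith
    · have c3 : mj U (dist I (γ • I)) = 0 := mj_neg hU'
      rw [c3]
      simp only [mul_zero, zero_add]
      positivity

theorem ev_log (K θ : ℝ) (n : ℕ) (hθ : 0 < θ) :
    ∀ᶠ X : ℝ in atTop, K * log X ^ n ≤ X ^ θ := by
  have h := (isLittleO_log_rpow_rpow_atTop (n : ℝ) hθ).const_mul_left K
  filter_upwards [h.bound one_pos, eventually_ge_atTop (1 : ℝ)] with X hX h1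
  rw [rpow_natCast, one_mul, Real.norm_of_nonneg (by positivity : 0 ≤ X ^ θ)] at hX
  exact (le_abs_self _).trans hX

theorem arith {P T L G S D Y a b v w : ℝ} (hP : 0 ≤ P) (hT : 1 ≤ T) (hL : 1 ≤ L) (hG : 0 ≤ G)
    (hD0 : 0 ≤ D) (hD : D ≤ S) (hDY : D * Y ≤ S) (ha : a ≤ G * (3 * S)) (hb : b ≤ G * 3)
    (hv : v ≤ G * (3 * S)) (hw : w ≤ G * (1 + Y)) :
    P * ((T ^ 2 + 3 * T * L) * a + D * T * b) + P * (T * v + D * w) ≤
      20 * P * G * S * T ^ 2 * L := by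
  have hS : 0 ≤ G * S := mul_nonneg hG (hD0.trans hD)
  have t1 : T ≤ T ^ 2 * L := by nlinarith [mul_le_mul_of_nonneg_left hL (sq_nonneg T)]
  have t2 : T ^ 2 ≤ T ^ 2 * L := by nlinarith [mul_le_mul_of_nonneg_left hL (sq_nonneg T)]
  have t3 : T * L ≤ T ^ 2 * L := by
    refine mul_le_mul_of_nonneg_right (by nlinarith) (by linarith)
  have e1 : (T ^ 2 + 3 * T * L) * a ≤ 4 * (T ^ 2 * L) * (G * (3 * S)) :=
    (mul_le_mul_of_nonneg_left ha (by positivity)).trans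
      (mul_le_mul_of_nonneg_right (by linarith) (by linarith))
  have e2 : D * T * b ≤ S * (T ^ 2 * L) * (G * 3) :=
    (mul_le_mul_of_nonneg_left hb (by positivity)).trans
      (mul_le_mul_of_nonneg_right (mul_le_mul hD t1 (by linarith) (hD0.trans hD)) (by positivity))
  have e3 : T * v ≤ T ^ 2 * L * (G * (3 * S)) :=
    (mul_le_mul_of_nonneg_left hv (by positivity)).trans
      (mul_le_mul_of_nonneg_right t1 (by linarith))
  have e4 : D * w ≤ T ^ 2 * L * (G * (2 * S)) := by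
    have x1 := mul_le_mul_of_nonneg_left hw hD0
    have x2 := mul_le_mul_of_nonneg_left (add_le_add hD hDY) hG
    have x3 := mul_le_mul_of_nonneg_right (hT.trans t1) hS
    nlinarith
  have := mul_le_mul_of_nonneg_left (add_le_add (add_le_add e1 e2) (add_le_add e3 e4)) hP
  nlinarith

end K9

open K9 in
theorem k9 (hR : RhoStmt) (hG : GeoStmt) (h1 : K1Stmt) (h2 : K2Stmt) (h6 : K6Stmt) (h7 : K7Stmt)
    (h8 : K8Stmt) : K9Stmt := by
  intro η hη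
  obtain ⟨C₂, hC₂, h2⟩ := h2
  obtain ⟨δ, C₆, hδ, hC₆, h6⟩ := h6
  refine ⟨⌈2 / η⌉₊ + 3, fun n hn => ?_⟩
  have hn3 : 3 ≤ n := by omega
  have hn0 : (0 : ℝ) < n := by exact_mod_cast (by omega : 0 < n)
  have hnη : 1 / (n : ℝ) ≤ η / 2 := by
    have a : 2 / η ≤ n := (Nat.le_ceil _).trans (by exact_mod_cast (by omega : ⌈2 / η⌉₊ ≤ n))
    rw [div_le_iff₀ hη] at a
    rw [div_le_iff₀ hn0]
    linarith
  set ε := δ / n / 20 with hε
  have hε0 : 0 < ε := by positivity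
  obtain ⟨C₈, hC₈, h8⟩ := h8 ε hε0
  obtain ⟨Cτ, hCτ, hτ⟩ := MP_9177b7_ag.EQ.div.1 1 ε hε0
  have hCτ1 : 1 ≤ Cτ := by simpa [MP_9177b7_ag.EQ.tau] using (hτ 1 le_rfl).1
  obtain ⟨m, n₀, hm1, hn₀, hnm, hn₀2⟩ : ∃ m n₀ : ℕ, 1 ≤ m ∧ 1 ≤ n₀ ∧ n = n₀ + m + m ∧ n₀ ≤ 2 :=
    ⟨(n - 1) / 2, n - 2 * ((n - 1) / 2), by omega, by omega, by omega, by omega⟩
  refine ⟨δ / n / 4, by positivity, ?_⟩
  filter_upwards [ev_log (160 * C₈ * Cτ ^ 2 * (C₆ * C₂) ^ n) (δ / n / 4) (n + 3) (by positivity),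
    eventually_ge_atTop (4 : ℝ), tendsto_log_atTop.eventually_ge_atTop (2 * n)] with X hK hX hlog
  intro Y hY1 hY2
  have hX0 : 0 < X := by linarith
  have hX1 : 1 ≤ X := by linarith
  have hY : 0 < Y := (rpow_pos_of_pos hX0 _).trans_le hY1
  set D := ⌊X ^ (1 / 2 - η)⌋₊ with hDdef
  rcases Nat.eq_zero_or_pos D with hD0 | hD0
  · rw [hD0]
    simpa using (rpow_pos_of_pos hX0 _).le
  set R := log X / n with hRdef
  have hnR : n * R = log X := by rw [hRdef]; field_simp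
  have hn1 : (3 : ℝ) ≤ n := by exact_mod_cast hn3
  have hR2 : 2 ≤ R := by rw [hRdef, le_div_iff₀ hn0]; exact hlog
  have hRL : R ≤ log X := by nlinarith only [hnR, hn1, hR2]
  have hnm' : (n : ℝ) = n₀ + m + m := by exact_mod_cast hnm
  have hn₀1 : (1 : ℝ) ≤ n₀ := by exact_mod_cast hn₀
  have hn₀2' : (n₀ : ℝ) ≤ 2 := by exact_mod_cast hn₀2
  have hm0 : (0 : ℝ) ≤ m := Nat.cast_nonneg m
  set S := exp (m * R) with hS
  set U := exp ((2 * m : ℕ) * R) with hU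
  have hUS : U = S ^ 2 := by rw [hU, hS, ← exp_nat_mul]; congr 1; push_cast; ring
  have hS1 : 1 ≤ S := one_le_exp (by positivity)
  have hU1 : 1 ≤ U := one_le_exp (by positivity)
  have hsq : √U = S := by rw [hUS, sqrt_sq (by linarith)]
  have hUX : U ≤ X := by
    rw [hU, ← exp_log hX0, ← hnR, exp_le_exp]
    push_cast
    nlinarith only [hnm', hn₀1, hR2]
  have hSX : S ≤ X := by nlinarith only [hUS, hUX, hS1]
  have hSl : X ^ (1 / 2 - η / 2) ≤ S := by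
    rw [rpow_def_of_pos hX0, hS, exp_le_exp, ← hnR]
    have a : 1 ≤ η / 2 * n := by rwa [div_le_iff₀ hn0] at hnη
    nlinarith only [a, hnm', hn₀2', hR2]
  have hD1 : (1 : ℝ) ≤ D := by exact_mod_cast hD0
  have hDX : (D : ℝ) ≤ X ^ (1 / 2 - η) := Nat.floor_le (rpow_pos_of_pos hX0 _).le
  have hXS : X ^ (1 / 2 - η) ≤ S :=
    (rpow_le_rpow_of_exponent_le hX1 (by linarith)).trans hSl
  have hDY : D * Y ≤ S := by
    refine le_trans (mul_le_mul hDX hY2 hY.le (rpow_pos_of_pos hX0 _).le) (le_trans ?_ hSl)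
    rw [← rpow_add hX0]
    exact le_of_eq (by congr 1; ring)
  have hYS : Y ≤ S := by nlinarith only [hDY, hD1, hY]
  have hYi : 1 / Y ≤ S := by
    refine le_trans ?_ hXS
    rw [div_le_iff₀ hY]
    refine le_trans ?_ (mul_le_mul_of_nonneg_left hY1 (rpow_pos_of_pos hX0 _).le)
    rw [← rpow_add hX0]
    simp
  have hSY : 1 ≤ S * Y := by rwa [div_le_iff₀ hY] at hYi
  have hX2 : 4 * X ≤ X ^ 2 := by nlinarith only [hX]
  have hX3 : 4 * X ^ 2 ≤ X ^ 4 := by nlinarith only [hX2, hX]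
  have hU2 : U ^ 2 ≤ X ^ 2 := by gcongr
  set T := Cτ * (X ^ 4) ^ ε with hT
  have hX4 : 1 ≤ X ^ 4 := one_le_pow₀ hX1
  have hT1 : 1 ≤ T := one_le_mul_of_one_le_of_one_le hCτ1 (one_le_rpow hX4 hε0.le)
  have hTT : ∀ k : ℕ, 1 ≤ k → (k : ℝ) ≤ X ^ 4 → (#k.divisors : ℝ) ≤ T := fun k hk hk' =>
    (hτ k hk).1.trans (by rw [hT]; gcongr)
  set Λ := (C₂ * R) ^ (2 * m) * (2 + (2 * m : ℕ) * R) with hΛ
  have hΛ0 : 0 ≤ Λ := by positivity
  have hj : 1 ≤ 2 * m := by omega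
  obtain ⟨-, k0, -, k3, -, -, -, k7⟩ := h1 R (2 * m) (by linarith) hj
  have hk : ∀ z w, kr R (2 * m) z w ≤ Λ * S * mj U (dist z w) := fun z w => by
    rw [k7, ← hsq]
    exact adm_le (h2 R (2 * m) hR2 hj) (exp_pos _) hΛ0 dist_nonneg
  have hf := h2 R n hR2 (by omega)
  rw [show exp (n * R) = X by rw [hnR, exp_log hX0]] at hf
  set s := {d ∈ (Icc 1 D : Finset ℕ) | Squarefree d ∧ Odd d} with hs
  set E := (C₆ * R * exp ((1 - δ) * R)) ^ n₀ with hE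
  have hE0 : 0 ≤ E := by positivity
  have step : ∀ d ∈ s, 8 * |∑ k ∈ (Icc 1 (KM X Y) : Finset ℕ) with d ∣ k, sA (prof R n) Y k -
      gg d * mu X (prof R n) Y| ≤ E * ((∑' γ : SL(2, ℤ), aw d γ * kr R (2 * m) I (γ • I)) +
      ∑' γ : SL(2, ℤ), if (d : ℤ) ∣ γ 1 0 then kr R (2 * m) (ipt Y) (γ • ipt Y) else 0) := by
    intro d hd
    obtain ⟨hd1, hd2, hd3⟩ := mem_filter.1 hd
    have : NeZero d := ⟨hd2.ne_zero⟩
    have a := h6 R n₀ m m hR2 hm1 hm1 d 2 (Nat.coprime_two_right.2 hd3) (Wt d)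
      (fun u₁ u₂ x₁ x₂ => by rw [Wt, Wt, iso_smul, iso_smul]) (by
        simp only [Wt, ← mul_sum, ← sum_mul, sum_sub_distrib, sum_const, nsmul_eq_mul]
        rw [(h7.2.2.2 d hd2).2.1]
        ring) Unit univ (fun _ => (0, 1)) (fun _ => (1, 1)) (ipt Y) (fun _ _ => by
        simp only [UU, mem_filter, mem_univ, true_and]
        exact ⟨isCoprime_one_right, isCoprime_one_right⟩)
    simp only [univ_unique, sum_singleton, ← hnm] at a
    simp only [(h1 R n (by linarith) (by omega)).2.2.2.2.2.2.2] at a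
    rw [key hG hf hX0 hY d, mul_comm 2 n₀, pow_mul] at a
    have b := eng hR hG h1 h7 hd2 (by linarith) hj (ipt Y) a hE0
    rw [abs_mul, abs_of_pos (by norm_num : (0 : ℝ) < 4)] at b
    linarith
  have hL1 : 1 ≤ log X := by linarith
  have sA' := sumA hR hG (P := Λ * S) (B := X ^ 4) (L := 4 * log X ^ 2) (D := D) hU1
    (by positivity) (by linarith) hTT (by linarith only [hU2, hX3])
    (by linarith only [hDX, hXS, hSX, hX2, hX3, hX]) (by
      have a := log_le_log (by linarith) ((hDX.trans hXS).trans hSX)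
      have b := log_nonneg hD1
      nlinarith only [a, b, hL1]) s (filter_subset _ _) (fun d hd => (mem_filter.1 hd).2.1)
    (fun γ => kr R (2 * m) I (γ • I)) (fun γ => hk _ _) fun γ => k3 _ _
  have sV' := sumV hG (U := U) (P := Λ * S) (B := X ^ 4) (D := D) hY (by positivity)
    (by linarith) hTT (by
      have a : 1 ≤ X * Y := hSY.trans (by gcongr)
      have b := mul_le_mul_of_nonneg_left (one_le_pow₀ a : 1 ≤ (X * Y) ^ 2) (sq_nonneg X)
      linarith only [b, hUX, hX2, hX]) s (by simpa using card_le_card (filter_subset _ (Icc 1 D)))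
    (fun γ => kr R (2 * m) (ipt Y) (γ • ipt Y)) (fun γ => k0 _ _) (fun γ => hk _ _)
    fun γ => k3 _ _
  set G := C₈ * (X ^ 2) ^ ε with hGdef
  have hG0 : 0 ≤ G := by positivity
  have g1 := (h8 U 1 hU1 one_pos).1
  have g2 := (h8 1 1 le_rfl one_pos).1
  rw [hG.2.2.2.2.1] at g1 g2
  obtain ⟨g3, g4, -⟩ := h8 U Y hU1 hY
  have fin := arith (P := Λ * S) (L := 4 * log X ^ 2) (by positivity) hT1
    (by nlinarith only [hL1]) hG0
    (Nat.cast_nonneg D) (hDX.trans hXS) hDY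
    (g1.trans (by rw [hsq, hGdef]; gcongr <;> linarith only [hUX, hX2, hX, hS1]))
    (g2.trans (by rw [sqrt_one, hGdef]; gcongr <;> linarith only [hX2, hX]))
    (g3.trans (by
      have : U * (Y + 1 / Y) ≤ X ^ 2 := by
        have a : 2 * S ≤ X := abs_le_of_sq_le_sq' (by linarith only [hUS, hUX, hX2]) hX0.le |>.2
        rw [sq]
        exact mul_le_mul hUX (by linarith) (by positivity) hX0.le
      rw [hsq, hGdef]; gcongr; linarith))
    (g4.trans (by rw [hGdef]; gcongr; linarith only [hUX, hX2, hX]))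
  have tot := sum_le_sum step
  rw [← mul_sum, ← mul_sum, sum_add_distrib] at tot
  have tot2 := tot.trans (mul_le_mul_of_nonneg_left ((add_le_add sA' sV').trans fin) hE0)
  have p1 : exp ((1 - δ) * R) ^ n₀ * S ^ 2 ≤ X ^ (1 - δ / n) := by
    rw [← hUS, hU, ← exp_nat_mul, ← exp_add, rpow_def_of_pos hX0, exp_le_exp, ← hnR]
    have a : n * R * (1 - δ / n) = n * R - δ * R := by field_simp
    have b : δ * R ≤ n₀ * (δ * R) := le_mul_of_one_le_left (by positivity) hn₀1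
    rw [a, hnm']
    push_cast
    linarith
  have p2 : (X ^ 2) ^ ε * ((X ^ 4) ^ ε) ^ 2 = X ^ (δ / n / 2) := by
    rw [← rpow_natCast, ← rpow_natCast, ← rpow_natCast, ← rpow_mul hX0.le, ← rpow_mul hX0.le,
      ← rpow_mul hX0.le, ← rpow_add hX0, hε]
    congr 1
    push_cast
    ring
  have p3 : (C₆ * R) ^ n₀ * (C₂ * R) ^ (2 * m) ≤ (C₆ * C₂) ^ n * log X ^ n := by
    rw [← mul_pow, show n = n₀ + 2 * m by omega, pow_add]
    gcongr
    · exact le_mul_of_one_le_right (by linarith) hC₂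
    · exact le_mul_of_one_le_left (by linarith) hC₆
  have p4 : 2 + (2 * m : ℕ) * R ≤ 2 * log X := by
    push_cast
    nlinarith only [hnR, hnm', hn₀1, hR2, hm0]
  have p5 : X ^ (δ / n / 4) * (X ^ (1 - δ / n) * X ^ (δ / n / 2)) = X ^ (1 - δ / n / 4) := by
    rw [← rpow_add hX0, ← rpow_add hX0]
    congr 1
    ring
  have p6 : E * (20 * (Λ * S) * G * S * T ^ 2 * (4 * log X ^ 2)) ≤ X ^ (1 - δ / n / 4) := by
    calc _ = 80 * C₈ * Cτ ^ 2 * ((C₆ * R) ^ n₀ * (C₂ * R) ^ (2 * m)) * (2 + (2 * m : ℕ) * R) *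
          log X ^ 2 * (exp ((1 - δ) * R) ^ n₀ * S ^ 2 * ((X ^ 2) ^ ε * ((X ^ 4) ^ ε) ^ 2)) := by
          rw [hE, hΛ, hGdef, hT, mul_pow (C₆ * R), mul_pow Cτ]
          ring
      _ ≤ 80 * C₈ * Cτ ^ 2 * ((C₆ * C₂) ^ n * log X ^ n) * (2 * log X) *
          log X ^ 2 * (X ^ (1 - δ / n) * X ^ (δ / n / 2)) := by
          rw [p2]
          gcongr
      _ = 160 * C₈ * Cτ ^ 2 * (C₆ * C₂) ^ n * log X ^ (n + 3) *
          (X ^ (1 - δ / n) * X ^ (δ / n / 2)) := by ring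
      _ ≤ _ := by
          rw [← p5]
          gcongr
  have p7 := (rpow_pos_of_pos hX0 (1 - δ / n / 4)).le
  linarith

end Pool.Agent.Lib.MP_4b1228_nt.PP
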