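import Pool.Agent.Lib.MP_4b1228_nt.PP.St
import Pool.Agent.Shared.PNTAP

/-! Sums over primes weighted by the number of roots of `l ^ 2 + 1`. -/

open Finset Real Filter Topology
open scoped Classical

namespace Pool.Agent.Lib.MP_4b1228_nt.PP

namespace Mert

theorem abel {a f : ℕ → ℝ} {c : ℝ} {M : ℕ} (hA : ∀ n, M ≤ n → ∑ m ∈ Ioc 0 n, a m ≤ c * n)
    (hf : ∀ n, M < n → f (n + 1) ≤ f n) (h0 : ∀ n, M < n → 0 ≤ f n) {N : ℕ} (hN : M ≤ N) :
    ∑ m ∈ Ioc M N, a m * f m ≤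
      c * ∑ m ∈ Ioc M N, f m + (c * M - ∑ m ∈ Ioc 0 M, a m) * f (M + 1) := by
  have key : ∑ m ∈ Ioc M N, a m * f m ≤ c * ∑ m ∈ Ioc M N, f m +
      (c * M - ∑ m ∈ Ioc 0 M, a m) * f (M + 1) - (c * N - ∑ m ∈ Ioc 0 N, a m) * f (N + 1) := by
    induction N, hN using Nat.le_induction with
    | base => simp
    | succ N hN ih =>
      have h1 := hA (N + 1) (by omega)
      have h2 := hf (N + 1) (by omega)
      rw [sum_Ioc_succ_top (Nat.zero_le N)] at h1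
      rw [sum_Ioc_succ_top hN, sum_Ioc_succ_top hN, sum_Ioc_succ_top (Nat.zero_le N)]
      push_cast at h1 ⊢
      nlinarith [mul_nonneg (sub_nonneg.2 h1) (sub_nonneg.2 h2)]
  nlinarith [mul_nonneg (sub_nonneg.2 (hA N hN)) (h0 (N + 1) (by omega))]

theorem step {n : ℕ} (h : 1 ≤ n) : 1 / ((n + 1 : ℕ) : ℝ) ≤ log (n + 1 : ℕ) - log n := by
  have h1 : (0 : ℝ) < n := by exact_mod_cast h
  have h2 := one_sub_inv_le_log_of_pos (show (0 : ℝ) < (n + 1 : ℕ) / n by positivity)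
  rw [log_div (by positivity) h1.ne'] at h2
  refine le_trans (le_of_eq ?_) h2
  push_cast
  field_simp
  ring

theorem harm {M N : ℕ} (h : 1 ≤ M) (hN : M ≤ N) : ∑ m ∈ Ioc M N, 1 / (m : ℝ) ≤ log N - log M := by
  induction N, hN using Nat.le_induction with
  | base => simp
  | succ N hN ih =>
    rw [sum_Ioc_succ_top hN]
    linarith [step (h.trans hN)]

theorem lharm {M N : ℕ} (h : 2 ≤ M) (hN : M ≤ N) :
    ∑ m ∈ Ioc M N, 1 / ((m : ℝ) * log m) ≤ log (log N) - log (log M) := by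
  induction N, hN using Nat.le_induction with
  | base => simp
  | succ N hN ih =>
    rw [sum_Ioc_succ_top hN]
    have h1 : 0 < log (N : ℝ) := log_pos (by exact_mod_cast (by omega : 1 < N))
    have h2 : 0 < log ((N + 1 : ℕ) : ℝ) := log_pos (by exact_mod_cast (by omega : 1 < N + 1))
    have h3 := one_sub_inv_le_log_of_pos (div_pos h2 h1)
    rw [log_div h2.ne' h1.ne', inv_div, one_sub_div h2.ne'] at h3
    have h4 := div_le_div_of_nonneg_right (step (n := N) (by omega)) h2.le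
    rw [div_div] at h4
    linarith

/-- The weight of a prime. -/
noncomputable def wp (m : ℕ) : ℝ := if m.Prime then rho m * log m else 0

theorem wp_sum (h : RhoStmt) {n : ℕ} (hn : 2 ≤ n) :
    ∑ m ∈ Ioc 0 n, wp m = 2 * Shared.PNTAP.thetaAP (1 : ZMod 4) n + log 2 := by
  have e : log 2 = ∑ m ∈ Icc 1 n, if m = 2 then log 2 else 0 := by
    rw [sum_ite_eq', if_pos (mem_Icc.2 ⟨by omega, hn⟩)]
  rw [Shared.PNTAP.thetaAP, Nat.floor_natCast, sum_filter, mul_sum, e, ← sum_add_distrib]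
  refine sum_congr rfl fun m _ => ?_
  unfold wp
  by_cases h1 : m.Prime
  · by_cases h2 : m = 2
    · subst h2
      rw [if_pos h1, h.2.2.2.2.2.1, if_neg (fun a => absurd a.2 (by decide)), if_pos rfl]
      simp
    · have h3 := h.2.2.2.1 m 1 h1 h2 le_rfl
      have h4 : (m : ZMod 4) = 1 ↔ m % 4 = 1 :=
        (ZMod.natCast_eq_natCast_iff' m 1 4).trans Iff.rfl
      rw [pow_one] at h3
      rw [if_pos h1, h3, if_neg h2, add_zero]
      simp only [h1, h4, true_and]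
      split_ifs <;> simp
  · rw [if_neg h1, if_neg fun a => h1 a.1, if_neg fun a : m = 2 => h1 (a ▸ Nat.prime_two)]
    simp

theorem wp_lim (h : RhoStmt) : Tendsto (fun n : ℕ => (∑ m ∈ Ioc 0 n, wp m) / n) atTop (𝓝 1) := by
  have t := ((Shared.PNTAP.theta_ap (q := 4) (a := 1) isUnit_one).comp
    tendsto_natCast_atTop_atTop).const_mul 2
  have e : Nat.totient 4 = 2 := by decide
  have u := t.add (tendsto_const_div_atTop_nhds_zero_nat (log 2))
  rw [e, add_zero, Nat.cast_two, mul_inv_cancel₀ two_ne_zero] at u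
  refine u.congr' ?_
  filter_upwards [eventually_ge_atTop 2] with n hn
  rw [wp_sum h hn, add_div, mul_div_assoc]
  rfl

theorem lam_le (h : RhoStmt) (n : ℕ) : ∑ m ∈ Ioc 0 n, ArithmeticFunction.vonMangoldt m * (rho m : ℝ) ≤
    ∑ m ∈ Ioc 0 n, wp m + 2 * (Chebyshev.psi n - Chebyshev.theta n) := by
  rw [Chebyshev.psi, Chebyshev.theta, Nat.floor_natCast, sum_filter, ← sum_sub_distrib, mul_sum,
    ← sum_add_distrib]
  refine sum_le_sum fun m _ => ?_
  unfold wp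
  split_ifs with h1
  · rw [ArithmeticFunction.vonMangoldt_apply_prime h1, sub_self, mul_zero, add_zero, mul_comm]
  · rw [zero_add, sub_zero, mul_comm]
    by_cases h2 : IsPrimePow m
    · obtain ⟨p, j, h3, -, rfl⟩ := (isPrimePow_nat_iff m).1 h2
      exact mul_le_mul_of_nonneg_right (by exact_mod_cast h.2.2.1 p j h3)
        ArithmeticFunction.vonMangoldt_nonneg
    · rw [ArithmeticFunction.vonMangoldt_eq_zero_iff.2 h2, mul_zero, mul_zero]

theorem pt_lim : Tendsto (fun x : ℝ => (Chebyshev.psi x - Chebyshev.theta x) / x) atTop (𝓝 0) := by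
  have h1 := ((isLittleO_log_rpow_atTop (r := 1 / 2)
    (by norm_num)).tendsto_div_nhds_zero).const_mul 2
  rw [mul_zero] at h1
  refine squeeze_zero' ?_ ?_ h1
  · filter_upwards [eventually_ge_atTop 0] with x hx
    exact div_nonneg (sub_nonneg.2 (Chebyshev.theta_le_psi x)) hx
  · filter_upwards [eventually_ge_atTop 1] with x hx
    refine (div_le_div_of_nonneg_right (Chebyshev.psi_sub_theta_le hx) (by linarith)).trans
      (le_of_eq ?_)
    rw [← Real.sqrt_eq_rpow]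
    have h2 : 0 < √x := Real.sqrt_pos.2 (by linarith)
    nth_rewrite 3 [← Real.mul_self_sqrt (show 0 ≤ x by linarith)]
    field_simp

theorem bounds (h : RhoStmt) {δ : ℝ} (hδ : 0 < δ) : ∃ M : ℕ, 2 ≤ M ∧ ∀ n, M ≤ n →
    (1 - δ) * n ≤ ∑ m ∈ Ioc 0 n, wp m ∧ ∑ m ∈ Ioc 0 n, wp m ≤ (1 + δ) * n ∧
      ∑ m ∈ Ioc 0 n, ArithmeticFunction.vonMangoldt m * (rho m : ℝ) ≤ (1 + δ) * n := by
  have t := (wp_lim h).add ((pt_lim.comp tendsto_natCast_atTop_atTop).const_mul 2)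
  rw [mul_zero, add_zero] at t
  obtain ⟨M, hM⟩ := eventually_atTop.1 ((((wp_lim h).eventually_const_lt (sub_lt_self 1 hδ)).and
    ((wp_lim h).eventually_lt_const (lt_add_of_pos_right 1 hδ))).and
    (t.eventually_lt_const (lt_add_of_pos_right 1 hδ)))
  refine ⟨max 2 M, le_max_left _ _, fun n hn => ?_⟩
  obtain ⟨⟨a, b⟩, c⟩ := hM n ((le_max_right _ _).trans hn)
  have h0 : (0 : ℝ) < n := by exact_mod_cast (by omega : 0 < n)
  rw [Function.comp_apply, ← mul_div_assoc, ← add_div, div_lt_iff₀ h0] at c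
  exact ⟨((lt_div_iff₀ h0).1 a).le, ((div_lt_iff₀ h0).1 b).le, (lam_le h n).trans c.le⟩

theorem cut {y y' : ℝ} {g F : ℕ → ℝ} (hF : ∀ p, p.Prime → g p = wp p * F p) {B : ℝ}
    (h0 : 0 ≤ B) (h1 : ⌈y⌉₊ ≤ ⌊y'⌋₊ →
      wp ⌈y⌉₊ * F ⌈y⌉₊ + ∑ m ∈ Ioc ⌈y⌉₊ ⌊y'⌋₊, wp m * F m ≤ B) :
    ∑ p ∈ (Icc 1 ⌊y'⌋₊ : Finset ℕ) with Nat.Prime p ∧ y ≤ p, g p ≤ B := by
  have e : ∑ p ∈ (Icc 1 ⌊y'⌋₊ : Finset ℕ) with Nat.Prime p ∧ y ≤ p, g p =
      ∑ m ∈ Icc ⌈y⌉₊ ⌊y'⌋₊, wp m * F m := by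
    rw [sum_congr rfl fun p hp => hF p (mem_filter.1 hp).2.1]
    refine sum_subset (fun p hp => ?_) fun p hp hn => ?_
    · obtain ⟨a, -, b⟩ := mem_filter.1 hp
      exact mem_Icc.2 ⟨Nat.ceil_le.2 b, (mem_Icc.1 a).2⟩
    · obtain ⟨a, b⟩ := mem_Icc.1 hp
      rw [wp, if_neg fun c => hn (mem_filter.2 ⟨mem_Icc.2 ⟨c.pos, b⟩, c, Nat.ceil_le.1 a⟩),
        zero_mul]
  rw [e]
  rcases le_or_gt ⌈y⌉₊ ⌊y'⌋₊ with h | h
  · rw [← add_sum_Ioc_eq_sum_Icc h]
    exact h1 h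
  · rwa [Icc_eq_empty_of_lt h, sum_empty]

theorem wp_le (h : RhoStmt) (m : ℕ) : wp m ≤ 2 * log m := by
  unfold wp
  split_ifs with h1
  · have := h.2.2.1 m 1 h1
    rw [pow_one] at this
    exact mul_le_mul_of_nonneg_right (by exact_mod_cast this) (log_natCast_nonneg m)
  · exact mul_nonneg zero_le_two (log_natCast_nonneg m)

end Mert

open Mert in
theorem mertS (h : RhoStmt) : MertStmt := by
  intro ε hε
  obtain ⟨δ, hδ, rfl⟩ : ∃ δ : ℝ, 0 < δ ∧ ε = 3 * δ := ⟨ε / 3, by positivity, by ring⟩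
  obtain ⟨M, M2, hM⟩ := bounds h hδ
  set C := ∑ m ∈ Ioc 0 M, ArithmeticFunction.vonMangoldt m * (rho m : ℝ) / m with hC
  obtain ⟨y₀, hy₀⟩ := eventually_atTop.1 ((((eventually_ge_atTop (M + 1 : ℝ)).and
    (eventually_ge_atTop (2 / δ))).and (tendsto_log_atTop.eventually_ge_atTop ((2 + 2 * δ) / δ))).and
    (tendsto_log_atTop.eventually_ge_atTop ((C + 1 + δ) / δ)))
  refine ⟨max 2 y₀, le_max_left _ _, fun y y' hy hy' => ?_⟩
  obtain ⟨⟨⟨a1, a2⟩, a3⟩, a4⟩ := hy₀ y ((le_max_right _ _).trans hy)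
  have M3 : (2 : ℝ) ≤ M := by exact_mod_cast M2
  have y0 : 0 < y := by linarith
  have l0 : 0 < log y := log_pos (by linarith)
  have l1 : log y ≤ log y' := log_le_log y0 hy'
  have c1 : y ≤ ⌈y⌉₊ := Nat.le_ceil y
  have c2 : M ≤ ⌈y⌉₊ := by exact_mod_cast (show (M : ℝ) ≤ ⌈y⌉₊ by linarith)
  have c3 : log y ≤ log ⌈y⌉₊ := log_le_log y0 c1
  have f1 : (⌊y'⌋₊ : ℝ) ≤ y' := Nat.floor_le (by linarith)
  have hA : ∀ n, ⌈y⌉₊ ≤ n → ∑ m ∈ Ioc 0 n, wp m ≤ (1 + δ) * n := fun n hn =>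
    (hM n (c2.trans hn)).2.1
  have hB := (hM _ c2).1
  rw [div_le_iff₀ hδ] at a2 a3 a4
  refine ⟨cut (F := fun m => 1 / ((m : ℝ) * log m)) (fun p hp => ?_) ?_ fun hN => ?_,
    cut (F := fun m => 1 / (m : ℝ)) (fun p hp => ?_) ?_ fun hN => ?_, ?_⟩
  · have : 0 < log (p : ℝ) := log_pos (by exact_mod_cast hp.one_lt)
    have : (0 : ℝ) < p := by exact_mod_cast hp.pos
    rw [wp, if_pos hp]
    field_simp
  · have := log_nonneg ((one_le_div l0).2 l1)
    positivity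
  · have b := abel (f := fun m => 1 / ((m : ℝ) * log m)) hA (fun n hn => by
      have n1 : (1 : ℝ) < n := by exact_mod_cast (by omega : 1 < n)
      have := log_pos n1
      refine one_div_le_one_div_of_le (by positivity) (mul_le_mul (by simp)
        (log_le_log (by linarith) (by simp)) this.le (by positivity)))
      (fun n _ => by have := log_natCast_nonneg n; positivity) hN
    have d := lharm (M2.trans c2) hN
    have f2 : (⌈y⌉₊ : ℝ) ≤ ⌊y'⌋₊ := by exact_mod_cast hN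
    have d1 : log (log ⌊y'⌋₊) ≤ log (log y') :=
      log_le_log (log_pos (by linarith)) (log_le_log (by linarith) f1)
    have d2 : log (log y) ≤ log (log ⌈y⌉₊) := log_le_log l0 c3
    have d3 : log (log y) ≤ log (log y') := log_le_log l0 l1
    have d4 : wp ⌈y⌉₊ * (1 / ((⌈y⌉₊ : ℝ) * log ⌈y⌉₊)) ≤ δ := by
      rw [mul_one_div, div_le_iff₀ (mul_pos (by linarith) (by linarith))]
      nlinarith [wp_le h ⌈y⌉₊, mul_le_mul_of_nonneg_right (a2.trans
        (mul_le_mul_of_nonneg_right c1 hδ.le)) (l0.le.trans c3)]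
    have d5 : ((1 + δ) * ⌈y⌉₊ - ∑ m ∈ Ioc 0 ⌈y⌉₊, wp m) *
        (1 / (((⌈y⌉₊ + 1 : ℕ) : ℝ) * log (⌈y⌉₊ + 1 : ℕ))) ≤ 2 * δ := by
      have e1 : 1 ≤ log ((⌈y⌉₊ + 1 : ℕ) : ℝ) := by
        rw [le_log_iff_exp_le (by positivity)]
        push_cast
        linarith [exp_one_lt_three]
      rw [mul_one_div, div_le_iff₀ (by positivity)]
      have e2 : (⌈y⌉₊ : ℝ) ≤ ((⌈y⌉₊ + 1 : ℕ) : ℝ) * log (⌈y⌉₊ + 1 : ℕ) :=
        le_trans (by simp) (le_mul_of_one_le_right (by positivity) e1)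
      nlinarith
    rw [log_div (l0.trans_le l1).ne' l0.ne']
    nlinarith
  · rw [wp, if_pos hp, mul_one_div]
  · have := log_nonneg ((one_le_div y0).2 hy')
    have := l0.trans_le l1
    positivity
  · have b := abel (f := fun m => 1 / (m : ℝ)) hA (fun n hn =>
      one_div_le_one_div_of_le (by exact_mod_cast (by omega : 0 < n)) (by simp))
      (fun n _ => by positivity) hN
    have d := harm (by omega) hN
    have f2 : (⌈y⌉₊ : ℝ) ≤ ⌊y'⌋₊ := by exact_mod_cast hN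
    have d1 : log ⌊y'⌋₊ ≤ log y' := log_le_log (by linarith) f1
    have d4 : wp ⌈y⌉₊ * (1 / (⌈y⌉₊ : ℝ)) ≤ 2 := by
      rw [mul_one_div, div_le_iff₀ (by linarith)]
      linarith [wp_le h ⌈y⌉₊, log_le_self (show (0 : ℝ) ≤ ⌈y⌉₊ by positivity)]
    have d5 : ((1 + δ) * ⌈y⌉₊ - ∑ m ∈ Ioc 0 ⌈y⌉₊, wp m) * (1 / ((⌈y⌉₊ + 1 : ℕ) : ℝ)) ≤ 2 * δ := by
      rw [mul_one_div, div_le_iff₀ (by positivity)]
      push_cast
      nlinarith
    rw [log_div (by linarith) y0.ne']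
    nlinarith
  · have g1 : M ≤ ⌊y⌋₊ := Nat.le_floor (by linarith)
    have b := abel (f := fun m => 1 / (m : ℝ)) (fun n hn => (hM n hn).2.2) (fun n hn =>
      one_div_le_one_div_of_le (by exact_mod_cast (by omega : 0 < n)) (by simp))
      (fun n _ => by positivity) g1
    have d := harm (by omega) g1
    have d1 : log ⌊y⌋₊ ≤ log y := log_le_log (by exact_mod_cast (by omega : 0 < ⌊y⌋₊))
      (Nat.floor_le y0.le)
    have d2 : 0 ≤ log (M : ℝ) := log_natCast_nonneg M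
    have d3 : 0 ≤ ∑ m ∈ Ioc 0 M, ArithmeticFunction.vonMangoldt m * (rho m : ℝ) :=
      sum_nonneg fun m _ => mul_nonneg ArithmeticFunction.vonMangoldt_nonneg (by positivity)
    have d5 : ((1 + δ) * M - ∑ m ∈ Ioc 0 M, ArithmeticFunction.vonMangoldt m * (rho m : ℝ)) *
        (1 / ((M + 1 : ℕ) : ℝ)) ≤ 1 + δ := by
      rw [mul_one_div, div_le_iff₀ (by positivity)]
      push_cast
      nlinarith
    rw [show Icc 1 ⌊y⌋₊ = Ioc 0 ⌊y⌋₊ from rfl, ← sum_Ioc_consecutive _ (Nat.zero_le M) g1, ← hC]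
    simp only [mul_one_div] at b d5
    nlinarith

end Pool.Agent.Lib.MP_4b1228_nt.PP
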