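import Pool.Agent.Lib.MP_4b1228_nt.PP.St

/-! Large proper prime powers dividing `l ^ 2 + 1` are rare. -/

open Finset Real Filter
open scoped Classical

noncomputable section

namespace Pool.Agent.Lib.MP_4b1228_nt.PP

namespace PPs

theorem blocks (hR : RhoStmt) (q : ℕ) (a : ℤ) (n : ℕ) :
    #{l ∈ Ico a (a + n * q) | (q : ℤ) ∣ l ^ 2 + 1} ≤ n * rho q := by
  induction n with
  | zero => simp
  | succ n ih =>
    have h7 := hR.2.2.2.2.2.2.2.1 q (a + n * q)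
    have hs : {l ∈ Ico a (a + ((n + 1 : ℕ) : ℤ) * q) | (q : ℤ) ∣ l ^ 2 + 1} ⊆
        {l ∈ Ico a (a + n * q) | (q : ℤ) ∣ l ^ 2 + 1} ∪
          {l ∈ Ico (a + n * q) (a + n * q + q) | (q : ℤ) ∣ l ^ 2 + 1} := by
      intro l hl
      simp only [mem_filter, mem_Ico, mem_union] at hl ⊢
      obtain ⟨⟨h1, h2⟩, h3⟩ := hl
      push_cast at h2
      by_cases h : l < a + n * q
      · exact Or.inl ⟨⟨h1, h⟩, h3⟩
      · exact Or.inr ⟨⟨not_lt.1 h, by linarith⟩, h3⟩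
    calc _ ≤ _ := card_le_card hs
      _ ≤ _ := card_union_le _ _
      _ ≤ n * rho q + rho q := by rw [h7]; omega
      _ = _ := by ring

theorem cnt (hR : RhoStmt) (q N : ℕ) (hq : 1 ≤ q) :
    (#{l ∈ (Icc (-(N : ℤ)) N : Finset ℤ) | (q : ℤ) ∣ l ^ 2 + 1} : ℝ) ≤
      ((2 * N + 1) / q + 1) * rho q := by
  have h := blocks hR q (-(N : ℤ)) ((2 * N + 1) / q + 1)
  have h1 : 2 * N + 1 ≤ ((2 * N + 1) / q + 1) * q := by
    have := Nat.lt_div_mul_add (a := 2 * N + 1) hq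
    nlinarith
  have hs : {l ∈ (Icc (-(N : ℤ)) N : Finset ℤ) | (q : ℤ) ∣ l ^ 2 + 1} ⊆
      {l ∈ Ico (-(N : ℤ)) (-(N : ℤ) + (((2 * N + 1) / q + 1 : ℕ) : ℤ) * q) |
        (q : ℤ) ∣ l ^ 2 + 1} := by
    intro l hl
    simp only [mem_filter, mem_Ico, mem_Icc] at hl ⊢
    obtain ⟨⟨h2, h3⟩, h4⟩ := hl
    refine ⟨⟨h2, ?_⟩, h4⟩
    have h5 : ((2 * N + 1 : ℕ) : ℤ) ≤ ((((2 * N + 1) / q + 1) * q : ℕ) : ℤ) := by exact_mod_cast h1
    rw [Nat.cast_mul] at h5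
    have h6 : ((2 * N + 1 : ℕ) : ℤ) = 2 * N + 1 := by push_cast; ring
    linarith
  have h2 := (card_le_card hs).trans h
  have h3 : ((((2 * N + 1) / q : ℕ) : ℝ)) ≤ (2 * N + 1) / q := by
    have := Nat.cast_div_le (α := ℝ) (m := 2 * N + 1) (n := q)
    push_cast at this
    exact this
  calc _ ≤ ((((2 * N + 1) / q + 1) * rho q : ℕ) : ℝ) := by exact_mod_cast h2
    _ = ((((2 * N + 1) / q : ℕ) : ℝ) + 1) * rho q := by push_cast; ring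
    _ ≤ _ := by gcongr

/-- The gap principle. -/
theorem gap {r m m' : ℤ} {l l' : ℤ} (hm : 2 ≤ m) (hl : 0 ≤ l) (hl' : 0 ≤ l') (h : l ^ 2 + 1 = r * m ^ 2)
    (h' : l' ^ 2 + 1 = r * m' ^ 2) (hlt : m < m') : 2 * m ≤ m' := by
  have hr0 : 0 < r := by
    by_contra hc
    have : r * m ^ 2 ≤ 0 := mul_nonpos_of_nonpos_of_nonneg (not_lt.1 hc) (sq_nonneg m)
    nlinarith [sq_nonneg l]
  have hr : 2 ≤ r := by
    by_contra hc
    have h1 : r = 1 := by omega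
    subst h1
    have h2 : l < m := by
      by_contra h3
      nlinarith [not_lt.1 h3]
    have h3 : l + 1 ≤ m := h2
    nlinarith
  have h1 : m ≤ l := by
    by_contra hc
    have : l + 1 ≤ m := by omega
    nlinarith
  have h2 : m' ≤ l' := by
    by_contra hc
    have : l' + 1 ≤ m' := by omega
    nlinarith
  have h3 : (l' * m - l * m') * (l' * m + l * m') = m' ^ 2 - m ^ 2 := by
    have e1 : l ^ 2 = r * m ^ 2 - 1 := by linarith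
    have e2 : l' ^ 2 = r * m' ^ 2 - 1 := by linarith
    calc _ = l' ^ 2 * m ^ 2 - l ^ 2 * m' ^ 2 := by ring
      _ = _ := by rw [e1, e2]; ring
  have h4 : 2 * (m * m') ≤ l' * m + l * m' := by nlinarith
  have h5 : 0 < m * m' := by nlinarith
  have h6 : 0 < m' ^ 2 - m ^ 2 := by nlinarith
  have h7 : 1 ≤ l' * m - l * m' := by
    by_contra hc
    have : l' * m - l * m' ≤ 0 := by omega
    have := mul_nonpos_of_nonpos_of_nonneg this (by linarith : 0 ≤ l' * m + l * m')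
    linarith
  have h8 : l' * m + l * m' ≤ m' ^ 2 - m ^ 2 := by nlinarith
  by_contra hc
  have : m' < 2 * m := not_le.1 hc
  nlinarith

theorem two (S : Finset ℤ) (T r j : ℕ) (hT : 2 ≤ T) (hj : 1 ≤ j) :
    #{l ∈ S | ∃ m : ℕ, m / T = j ∧ l ^ 2 + 1 = r * (m : ℤ) ^ 2} ≤ 2 := by
  have key : ∀ (l l' : ℤ) (m m' : ℕ), m / T = j → m' / T = j → l ^ 2 + 1 = r * (m : ℤ) ^ 2 →
      l' ^ 2 + 1 = r * (m' : ℤ) ^ 2 → ¬ m < m' := by
    intro l l' m m' h1 h2 h3 h4 hlt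
    have a1 : j * T ≤ m := by rw [← h1]; exact Nat.div_mul_le_self _ _
    have a2 : m' < j * T + T := by rw [← h2]; exact Nat.lt_div_mul_add (by omega)
    have a3 : T ≤ j * T := Nat.le_mul_of_pos_left _ hj
    have := gap (r := r) (m := m) (m' := m') (l := |l|) (l' := |l'|) (by omega) (abs_nonneg _)
      (abs_nonneg _) (by rw [sq_abs]; exact h3) (by rw [sq_abs]; exact h4) (by exact_mod_cast hlt)
    omega
  rcases ({l ∈ S | ∃ m : ℕ, m / T = j ∧ l ^ 2 + 1 = r * (m : ℤ) ^ 2} : Finset ℤ).eq_empty_or_nonempty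
    with h | ⟨l₀, h₀⟩
  · rw [h]; simp
  · obtain ⟨-, m₀, b1, b2⟩ := mem_filter.1 h₀
    refine le_trans (card_le_card (t := {l₀, -l₀}) ?_) card_le_two
    intro l hl
    obtain ⟨-, m, c1, c2⟩ := mem_filter.1 hl
    have e : m = m₀ := le_antisymm (not_lt.1 (key _ _ _ _ b1 c1 b2 c2)) (not_lt.1 (key _ _ _ _ c1 b1 c2 b2))
    subst e
    have : l ^ 2 = l₀ ^ 2 := by linarith
    rcases sq_eq_sq_iff_eq_or_eq_neg.1 this with h | h <;> simp [h]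

theorem main (hR : RhoStmt) (N T k : ℕ) (hT : 2 ≤ T) :
    (#{l ∈ (Icc (-(N : ℤ)) N : Finset ℤ) | ∃ m : ℕ, k < m ∧ rho (m ^ 2) ≤ 2 ∧
      ((m ^ 2 : ℕ) : ℤ) ∣ l ^ 2 + 1} : ℝ) ≤
      4 * (2 * N + 1) / (k + 1) + 2 * T + 2 * ((N ^ 2 + 1) / T ^ 2) * ((N + 1) / T) := by
  set S : Finset ℤ := Icc (-(N : ℤ)) N with hS
  set I : Finset ℕ := {m ∈ Ioo k T | rho (m ^ 2) ≤ 2} with hI
  set J : Finset (ℕ × ℕ) := Icc 1 ((N ^ 2 + 1) / T ^ 2) ×ˢ Icc 1 ((N + 1) / T) with hJ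
  have hs : {l ∈ S | ∃ m : ℕ, k < m ∧ rho (m ^ 2) ≤ 2 ∧ ((m ^ 2 : ℕ) : ℤ) ∣ l ^ 2 + 1} ⊆
      I.biUnion (fun m => {l ∈ S | ((m ^ 2 : ℕ) : ℤ) ∣ l ^ 2 + 1}) ∪
      J.biUnion (fun x => {l ∈ S | ∃ m : ℕ, m / T = x.2 ∧ l ^ 2 + 1 = x.1 * (m : ℤ) ^ 2}) := by
    intro l hl
    obtain ⟨hl1, m, h1, h2, h3⟩ := mem_filter.1 hl
    rw [mem_union, mem_biUnion, mem_biUnion]
    by_cases hm : m < T
    · exact Or.inl ⟨m, mem_filter.2 ⟨mem_Ioo.2 ⟨h1, hm⟩, h2⟩, mem_filter.2 ⟨hl1, h3⟩⟩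
    · right
      have hm' : T ≤ m := not_lt.1 hm
      obtain ⟨r, hr⟩ := h3
      push_cast at hr
      have hl2 : l ^ 2 ≤ (N : ℤ) ^ 2 := by
        rw [hS, mem_Icc] at hl1
        nlinarith [hl1.1, hl1.2]
      have hr0 : 0 < r := by
        by_contra hc
        have : (m : ℤ) ^ 2 * r ≤ 0 := mul_nonpos_of_nonneg_of_nonpos (sq_nonneg _) (not_lt.1 hc)
        nlinarith [sq_nonneg l]
      obtain ⟨r, rfl⟩ := Int.eq_ofNat_of_zero_le hr0.le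
      have hr1 : 1 ≤ r := by exact_mod_cast hr0
      have h4 : m ^ 2 * r ≤ N ^ 2 + 1 := by
        have : (m : ℤ) ^ 2 * r ≤ (N : ℤ) ^ 2 + 1 := by linarith
        exact_mod_cast this
      have h5 : T ^ 2 ≤ m ^ 2 := Nat.pow_le_pow_left hm' 2
      have h6 : m ≤ N + 1 := by
        by_contra hc
        have : N + 1 < m := not_le.1 hc
        nlinarith
      refine ⟨(r, m / T), mem_product.2 ⟨mem_Icc.2 ⟨hr1, ?_⟩, mem_Icc.2 ⟨?_, ?_⟩⟩,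
        mem_filter.2 ⟨hl1, m, rfl, by rw [hr]; ring⟩⟩
      · rw [Nat.le_div_iff_mul_le (by positivity)]
        nlinarith
      · exact (Nat.le_div_iff_mul_le (by omega)).2 (by omega)
      · exact Nat.div_le_div_right h6
  have h1 : (#(I.biUnion (fun m => {l ∈ S | ((m ^ 2 : ℕ) : ℤ) ∣ l ^ 2 + 1})) : ℝ) ≤
      4 * (2 * N + 1) / (k + 1) + 2 * T := by
    have a1 : (#(I.biUnion (fun m => {l ∈ S | ((m ^ 2 : ℕ) : ℤ) ∣ l ^ 2 + 1})) : ℝ) ≤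
        ∑ m ∈ I, (#{l ∈ S | ((m ^ 2 : ℕ) : ℤ) ∣ l ^ 2 + 1} : ℝ) := by
      exact_mod_cast card_biUnion_le
    have a2 : ∀ m ∈ I, (#{l ∈ S | ((m ^ 2 : ℕ) : ℤ) ∣ l ^ 2 + 1} : ℝ) ≤
        2 * (2 * N + 1) * ((m : ℝ) ^ 2)⁻¹ + 2 := by
      intro m hm
      obtain ⟨b1, b2⟩ := mem_filter.1 hm
      have b3 : 0 < m := by have := (mem_Ioo.1 b1).1; omega
      have b4 := cnt hR (m ^ 2) N (Nat.one_le_pow _ _ b3)
      have b5 : (rho (m ^ 2) : ℝ) ≤ 2 := by exact_mod_cast b2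
      calc _ ≤ _ := b4
        _ ≤ ((2 * N + 1) / ((m ^ 2 : ℕ) : ℝ) + 1) * 2 := by gcongr
        _ = _ := by push_cast; ring
    have a3 : ∑ m ∈ I, (2 * (2 * (N : ℝ) + 1) * ((m : ℝ) ^ 2)⁻¹ + 2) ≤
        ∑ m ∈ Ioo k T, (2 * (2 * (N : ℝ) + 1) * ((m : ℝ) ^ 2)⁻¹ + 2) :=
      sum_le_sum_of_subset_of_nonneg (filter_subset _ _) fun _ _ _ => by positivity
    have a4 := sum_Ioo_inv_sq_le (α := ℝ) k T
    have a5 : (#(Ioo k T) : ℝ) ≤ T := by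
      have : #(Ioo k T) ≤ T := by rw [Nat.card_Ioo]; omega
      exact_mod_cast this
    rw [sum_add_distrib (s := Ioo k T), ← mul_sum, sum_const, nsmul_eq_mul] at a3
    have a6 : 2 * (2 * (N : ℝ) + 1) * ∑ m ∈ Ioo k T, ((m : ℝ) ^ 2)⁻¹ ≤
        2 * (2 * (N : ℝ) + 1) * (2 / (k + 1)) := by gcongr
    have a7 : 2 * (2 * (N : ℝ) + 1) * (2 / (k + 1)) = 4 * (2 * N + 1) / (k + 1) := by ring
    have a8 := sum_le_sum a2
    linarith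
  have h2 : (#(J.biUnion (fun x => {l ∈ S | ∃ m : ℕ, m / T = x.2 ∧
      l ^ 2 + 1 = x.1 * (m : ℤ) ^ 2})) : ℝ) ≤ 2 * ((N ^ 2 + 1) / T ^ 2) * ((N + 1) / T) := by
    have a1 : #(J.biUnion (fun x => {l ∈ S | ∃ m : ℕ, m / T = x.2 ∧
        l ^ 2 + 1 = x.1 * (m : ℤ) ^ 2})) ≤ #J * 2 :=
      card_biUnion_le_card_mul _ _ _ fun x hx =>
        two S T x.1 x.2 hT (mem_Icc.1 (mem_product.1 hx).2).1
    have a2 : #J = (N ^ 2 + 1) / T ^ 2 * ((N + 1) / T) := by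
      rw [hJ, card_product, Nat.card_Icc, Nat.card_Icc]; simp
    have a3 := Nat.cast_div_le (α := ℝ) (m := N ^ 2 + 1) (n := T ^ 2)
    have a4 := Nat.cast_div_le (α := ℝ) (m := N + 1) (n := T)
    rw [a2] at a1
    calc _ ≤ (((N ^ 2 + 1) / T ^ 2 * ((N + 1) / T) * 2 : ℕ) : ℝ) := by exact_mod_cast a1
      _ = 2 * (((N ^ 2 + 1) / T ^ 2 : ℕ) : ℝ) * (((N + 1) / T : ℕ) : ℝ) := by
        rw [Nat.cast_mul, Nat.cast_mul]; push_cast; ring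
      _ ≤ 2 * (((N ^ 2 + 1 : ℕ) : ℝ) / ((T ^ 2 : ℕ) : ℝ)) * (((N + 1 : ℕ) : ℝ) / T) := by gcongr
      _ = _ := by push_cast; ring
  have h3 := (card_le_card hs).trans (card_union_le _ _)
  have h4 : (#{l ∈ S | ∃ m : ℕ, k < m ∧ rho (m ^ 2) ≤ 2 ∧ ((m ^ 2 : ℕ) : ℤ) ∣ l ^ 2 + 1} : ℝ) ≤
      (#(I.biUnion (fun m => {l ∈ S | ((m ^ 2 : ℕ) : ℤ) ∣ l ^ 2 + 1})) : ℝ) +
      (#(J.biUnion (fun x => {l ∈ S | ∃ m : ℕ, m / T = x.2 ∧
        l ^ 2 + 1 = x.1 * (m : ℤ) ^ 2})) : ℝ) := by exact_mod_cast h3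
  linarith

theorem tot (ε : ℝ) (hε : 0 < ε) : ∃ P : ℕ, 1 ≤ P ∧ (Nat.totient P : ℝ) ≤ ε * P := by
  have h := (not_summable_iff_tendsto_nat_atTop_of_nonneg
    (f := Set.indicator {p : ℕ | p.Prime} (fun n : ℕ => (1 : ℝ) / n))
    (fun n => Set.indicator_nonneg (fun _ _ => by positivity) n)).1 not_summable_one_div_on_primes
  obtain ⟨n, hn⟩ := (h.eventually_ge_atTop (-log ε)).exists
  set s : Finset ℕ := (range n).filter Nat.Prime with hs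
  have hp : ∀ p ∈ s, p.Prime := fun p hp => (mem_filter.1 hp).2
  have e1 : ∑ i ∈ range n, Set.indicator {p : ℕ | p.Prime} (fun n : ℕ => (1 : ℝ) / n) i =
      ∑ p ∈ s, (1 : ℝ) / p := by
    rw [hs, sum_filter]
    exact sum_congr rfl fun i _ => by simp [Set.indicator_apply]
  rw [e1] at hn
  refine ⟨∏ p ∈ s, p, prod_pos fun p h => (hp p h).pos, ?_⟩
  have e2 := Nat.totient_eq_mul_prod_factors (∏ p ∈ s, p)
  rw [Nat.primeFactors_prod hp] at e2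
  have e3 : ((Nat.totient (∏ p ∈ s, p) : ℕ) : ℝ) =
      ((∏ p ∈ s, p : ℕ) : ℝ) * ∏ p ∈ s, (1 - (p : ℝ)⁻¹) := by
    have := congrArg (fun x : ℚ => (x : ℝ)) e2
    simpa using this
  have e4 : ∏ p ∈ s, (1 - (p : ℝ)⁻¹) ≤ ∏ p ∈ s, exp (-(1 / (p : ℝ))) := by
    refine prod_le_prod (fun p h => ?_) fun p _ => ?_
    · have : (1 : ℝ) ≤ p := by exact_mod_cast (hp p h).one_lt.le
      exact sub_nonneg.2 (inv_le_one_of_one_le₀ this)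
    · have := add_one_le_exp (-(1 / (p : ℝ)))
      rw [one_div] at this ⊢
      linarith
  rw [← exp_sum, sum_neg_distrib] at e4
  have e5 : exp (-∑ p ∈ s, 1 / (p : ℝ)) ≤ ε := by
    calc _ ≤ exp (log ε) := exp_le_exp.2 (by linarith)
      _ = ε := exp_log hε
  rw [e3, mul_comm]
  exact mul_le_mul_of_nonneg_right (e4.trans e5) (Nat.cast_nonneg _)

end PPs

theorem ppS (hR : RhoStmt) : PPStmt := by
  refine ⟨?_, PPs.tot⟩
  have hu := (tendsto_rpow_atTop (y := 1 / 60) (by norm_num)).eventually_ge_atTop (3 : ℝ)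
  filter_upwards [hu, eventually_ge_atTop (1 : ℝ)] with X hu hX
  have hX0 : 0 ≤ X := by linarith
  obtain ⟨u, hud⟩ : ∃ u, u = X ^ (1 / 60 : ℝ) := ⟨_, rfl⟩
  have pw : ∀ n : ℕ, u ^ n = X ^ ((n : ℝ) / 60) := by
    intro n
    rw [hud, ← rpow_natCast, ← rpow_mul hX0]
    congr 1
    ring
  have p60 : u ^ 60 = X := by rw [pw]; norm_num
  have p30 : X ^ (1 / 2 : ℝ) = u ^ 30 := by rw [pw]; norm_num
  have p54 : X ^ (9 / 10 : ℝ) = u ^ 54 := by rw [pw]; norm_num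
  rw [← hud] at hu
  have hu1 : 1 ≤ u := by linarith
  have hu0 : 0 < u := by linarith
  obtain ⟨N, hN⟩ := Int.eq_ofNat_of_zero_le (Int.ceil_nonneg hX0)
  have hN1 : (N : ℝ) ≤ 2 * u ^ 60 := by
    have h1 := Int.ceil_lt_add_one X
    rw [hN] at h1
    push_cast at h1
    linarith
  have t1 : u ^ 45 ≤ (⌈u ^ 45⌉₊ : ℝ) := Nat.le_ceil _
  have t2 : (⌈u ^ 45⌉₊ : ℝ) < u ^ 45 + 1 := Nat.ceil_lt_add_one (by positivity)
  have t3 : u ≤ u ^ 45 := le_self_pow₀ hu1 (by norm_num)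
  have t4 : 2 ≤ ⌈u ^ 45⌉₊ := by
    have : ((2 : ℕ) : ℝ) ≤ (⌈u ^ 45⌉₊ : ℝ) := by push_cast; linarith
    exact_mod_cast this
  have k1 : u ^ 10 < (⌊u ^ 10⌋₊ : ℝ) + 1 := Nat.lt_floor_add_one _
  have k2 : (⌊u ^ 10⌋₊ : ℝ) ≤ u ^ 10 := Nat.floor_le (by positivity)
  have hm := PPs.main hR N ⌈u ^ 45⌉₊ ⌊u ^ 10⌋₊ t4
  generalize ⌈u ^ 45⌉₊ = T at *
  generalize ⌊u ^ 10⌋₊ = k at *
  rw [hN, p30, p54]
  have hs : {l ∈ (Icc (-(N : ℤ)) N : Finset ℤ) | ∃ p j : ℕ, p.Prime ∧ 2 ≤ j ∧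
      (p : ℤ) ^ j ∣ l ^ 2 + 1 ∧ u ^ 30 < (p : ℝ) ^ j} ⊆
      {l ∈ (Icc (-(N : ℤ)) N : Finset ℤ) | ∃ m : ℕ, k < m ∧ rho (m ^ 2) ≤ 2 ∧
        ((m ^ 2 : ℕ) : ℤ) ∣ l ^ 2 + 1} := by
    intro l hl
    obtain ⟨h1, p, j, hp, hj, hd, hlt⟩ := mem_filter.1 hl
    refine mem_filter.2 ⟨h1, p ^ (j / 2), ?_, ?_, ?_⟩
    · have hp1 : (1 : ℝ) ≤ p := by exact_mod_cast hp.one_lt.le
      have a1 : (p : ℝ) ^ j ≤ ((p : ℝ) ^ (j / 2)) ^ 3 := by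
        rw [← pow_mul]
        exact pow_le_pow_right₀ hp1 (by omega)
      have a2 : (u ^ 10) ^ 3 < ((p : ℝ) ^ (j / 2)) ^ 3 := by
        rw [← pow_mul]
        exact hlt.trans_le a1
      have a3 := lt_of_pow_lt_pow_left₀ 3 (by positivity) a2
      have : (k : ℝ) < ((p ^ (j / 2) : ℕ) : ℝ) := by push_cast; linarith
      exact_mod_cast this
    · rw [← pow_mul]
      exact hR.2.2.1 p _ hp
    · refine Dvd.dvd.trans ?_ hd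
      push_cast
      rw [← pow_mul]
      exact pow_dvd_pow _ (by omega)
  have h1 : (#{l ∈ (Icc (-(N : ℤ)) N : Finset ℤ) | ∃ p j : ℕ, p.Prime ∧ 2 ≤ j ∧
      (p : ℤ) ^ j ∣ l ^ 2 + 1 ∧ u ^ 30 < (p : ℝ) ^ j} : ℝ) ≤ _ :=
    le_trans (by exact_mod_cast card_le_card hs) hm
  have o60 : 1 ≤ u ^ 60 := one_le_pow₀ hu1
  have o45 : 1 ≤ u ^ 45 := one_le_pow₀ hu1
  have b1 : 4 * (2 * (N : ℝ) + 1) / (k + 1) ≤ 20 * u ^ 50 := by
    rw [div_le_iff₀ (by positivity)]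
    calc 4 * (2 * (N : ℝ) + 1) ≤ 20 * u ^ 60 := by linarith
      _ = 20 * u ^ 50 * u ^ 10 := by ring
      _ ≤ _ := by gcongr
  have b2 : ((N : ℝ) ^ 2 + 1) / T ^ 2 ≤ 5 * u ^ 30 := by
    rw [div_le_iff₀ (by positivity)]
    have c1 : (N : ℝ) ^ 2 ≤ (2 * u ^ 60) ^ 2 := by gcongr
    have c2 : 1 ≤ (u ^ 60) ^ 2 := one_le_pow₀ o60
    calc (N : ℝ) ^ 2 + 1 ≤ 5 * (u ^ 60) ^ 2 := by nlinarith
      _ = 5 * u ^ 30 * (u ^ 45) ^ 2 := by ring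
      _ ≤ _ := by gcongr
  have b3 : ((N : ℝ) + 1) / T ≤ 3 * u ^ 15 := by
    rw [div_le_iff₀ (by linarith)]
    calc (N : ℝ) + 1 ≤ 3 * u ^ 60 := by linarith
      _ = 3 * u ^ 15 * u ^ 45 := by ring
      _ ≤ _ := by gcongr
  have b4 : 2 * (((N : ℝ) ^ 2 + 1) / T ^ 2) * (((N : ℝ) + 1) / T) ≤ 30 * u ^ 45 := by
    calc _ ≤ 2 * (5 * u ^ 30) * (3 * u ^ 15) := by gcongr
      _ = _ := by ring
  have b5 : u ^ 45 ≤ u ^ 50 := pow_le_pow_right₀ hu1 (by norm_num)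
  have b6 : 81 * u ^ 50 ≤ u ^ 54 := by
    have : (3 : ℝ) ^ 4 ≤ u ^ 4 := by gcongr
    calc 81 * u ^ 50 = 3 ^ 4 * u ^ 50 := by norm_num
      _ ≤ u ^ 4 * u ^ 50 := by gcongr
      _ = _ := by ring
  refine le_trans (le_of_eq ?_) (h1.trans (by linarith))
  congr

end Pool.Agent.Lib.MP_4b1228_nt.PP
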