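import Pool.Agent.Lib.MP_4b1228_nt.PP.St

/-! The mean value of the number of roots of `l ^ 2 + 1` on the odd multiples of `d`. -/

open Finset Real Filter Topology
open scoped Classical ArithmeticFunction.Moebius ArithmeticFunction.zeta

noncomputable section

namespace Pool.Agent.Lib.MP_4b1228_nt.PP

namespace Rs

/-- The character modulo four. -/
def chi (n : ℕ) : ℝ := if n % 4 = 1 then 1 else if n % 4 = 3 then -1 else 0

/-- Its centred summatory function. -/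
def yy (n : ℕ) : ℝ := if n % 4 = 1 ∨ n % 4 = 2 then 1 / 2 else -1 / 2

theorem mod_cases (n : ℕ) : n % 4 = 0 ∨ n % 4 = 1 ∨ n % 4 = 2 ∨ n % 4 = 3 := by omega

theorem yy_succ (n : ℕ) : yy (n + 1) = yy n + chi (n + 1) := by
  unfold yy chi
  rw [Nat.add_mod]
  rcases mod_cases n with h | h | h | h <;> rw [h] <;> norm_num

theorem yy_bd (n : ℕ) : -1 / 2 ≤ yy n ∧ yy n ≤ 1 / 2 := by
  unfold yy
  split_ifs <;> norm_num

theorem chi_mul (a b : ℕ) : chi (a * b) = chi a * chi b := by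
  unfold chi
  rw [Nat.mul_mod]
  rcases mod_cases a with h | h | h | h <;> rcases mod_cases b with h' | h' | h' | h' <;>
    rw [h, h'] <;> norm_num

theorem abs_chi (n : ℕ) : |chi n| ≤ 1 := by
  unfold chi
  split_ifs <;> norm_num

theorem alt (a : ℕ → ℝ) (U V : ℕ) (h : U ≤ V) (ha : ∀ n, U < n → a (n + 1) ≤ a n)
    (h0 : ∀ n, 0 ≤ a n) : |∑ n ∈ Ioc U V, chi n * a n| ≤ a (U + 1) := by
  have H : |∑ n ∈ Ioc U V, chi n * a n - yy V * a (V + 1) + yy U * a (U + 1)| ≤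
      (a (U + 1) - a (V + 1)) / 2 := by
    induction V, h using Nat.le_induction with
    | base => simp
    | succ V hV ih =>
      rw [sum_Ioc_succ_top hV]
      have h1 := ha (V + 1) (by omega)
      have h2 := yy_bd (V + 1)
      have h3 : chi (V + 1) = yy (V + 1) - yy V := by rw [yy_succ]; ring
      rw [h3]
      rw [abs_le] at ih ⊢
      constructor <;> nlinarith [ih.1, ih.2, h2.1, h2.2]
  have h1 := yy_bd U
  have h2 := yy_bd V
  have h3 := h0 (U + 1)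
  have h4 := h0 (V + 1)
  rw [abs_le] at H ⊢
  constructor <;> nlinarith [H.1, H.2, h1.1, h1.2, h2.1, h2.2]

theorem lim (u : ℕ → ℝ) (B : ℝ) (h : ∀ U V, U ≤ V → |∑ n ∈ Ioc U V, u n| ≤ B / (U + 1)) :
    ∃ L, ∀ U, |L - ∑ n ∈ Ioc 0 U, u n| ≤ B / (U + 1) := by
  have h1 : ∀ U V, U ≤ V → |∑ n ∈ Ioc 0 V, u n - ∑ n ∈ Ioc 0 U, u n| ≤ B / (U + 1) := by
    intro U V hUV
    rw [← sum_Ioc_consecutive _ (Nat.zero_le U) hUV, add_sub_cancel_left]
    exact h U V hUV
  have h2 : CauchySeq fun U => ∑ n ∈ Ioc 0 U, u n := by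
    refine cauchySeq_of_le_tendsto_0' (fun U : ℕ => B / (U + 1)) (fun n m hnm => ?_) ?_
    · rw [dist_comm, Real.dist_eq]
      exact h1 n m hnm
    · exact tendsto_const_nhds.div_atTop
        (tendsto_atTop_add_const_right _ _ tendsto_natCast_atTop_atTop)
  obtain ⟨L, hL⟩ := cauchySeq_tendsto_of_complete h2
  refine ⟨L, fun U => ?_⟩
  exact le_of_tendsto ((hL.sub_const _).abs) (eventually_atTop.2 ⟨U, fun V hV => h1 U V hV⟩)

/-- The number of odd integers up to `j`. -/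
def od (j : ℕ) : ℝ := ((j + 1) / 2 : ℕ)

def TT (M : ℕ) : ℝ := ∑ n ∈ Ioc 0 M, chi n * od (M / n)

theorem div_sqrt (M : ℕ) : (M : ℝ) / (Nat.sqrt M + 1) ≤ √M ∧ (Nat.sqrt M : ℝ) ≤ √M := by
  constructor
  · rw [div_le_iff₀ (by positivity)]
    have h1 : √(M : ℝ) ≤ Nat.sqrt M + 1 := by
      rw [sqrt_le_left (by positivity)]
      exact_mod_cast (Nat.lt_succ_sqrt' M).le
    calc (M : ℝ) = √M * √M := (mul_self_sqrt (by positivity)).symm
      _ ≤ _ := by gcongr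
  · rw [le_sqrt (by positivity) (by positivity)]
    exact_mod_cast Nat.sqrt_le' M

theorem floor_bd (M n : ℕ) (hn : 0 < n) :
    ((M / n : ℕ) : ℝ) ≤ M / n ∧ (M : ℝ) / n ≤ (M / n : ℕ) + 1 := by
  refine ⟨Nat.cast_div_le, ?_⟩
  rw [div_le_iff₀ (by positivity)]
  have := Nat.lt_div_mul_add (a := M) hn
  have h : (M : ℝ) ≤ (M / n : ℕ) * n + n := by exact_mod_cast this.le
  linarith

theorem od_bd (j : ℕ) : (j : ℝ) / 2 ≤ od j ∧ od j ≤ j / 2 + 1 / 2 ∧ od j ≤ j := by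
  have h1 : j ≤ 2 * ((j + 1) / 2) := by omega
  have h2 : 2 * ((j + 1) / 2) ≤ j + 1 := by omega
  have h3 : (j + 1) / 2 ≤ j := by omega
  have h1' : (j : ℝ) ≤ 2 * ((j + 1) / 2 : ℕ) := by exact_mod_cast h1
  have h2' : 2 * (((j + 1) / 2 : ℕ) : ℝ) ≤ j + 1 := by exact_mod_cast h2
  unfold od
  exact ⟨by linarith, by linarith, by exact_mod_cast h3⟩

theorem TT_est : ∃ L : ℝ, 2 / 3 ≤ L ∧ L ≤ 4 / 3 ∧ ∀ M : ℕ, |TT M - L / 2 * M| ≤ 3 * √M := by
  obtain ⟨L, hL⟩ := lim (fun n => chi n * (1 / n)) 1 fun U V h => by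
    have := alt (fun n => 1 / n) U V h (fun n hn => ?_) fun n => by positivity
    · simpa using this
    · have : (0 : ℝ) < n := by exact_mod_cast (Nat.zero_le U).trans_lt hn
      push_cast
      gcongr
      linarith
  have h2 := hL 2
  have e2 : ∑ n ∈ Ioc 0 2, chi n * (1 / (n : ℝ)) = 1 := by
    rw [sum_Ioc_succ_top (by norm_num), sum_Ioc_succ_top (by norm_num)]
    norm_num [chi]
  rw [e2, abs_le] at h2
  refine ⟨L, by norm_num at h2 ⊢; linarith [h2.1], by norm_num at h2 ⊢; linarith [h2.2],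
    fun M => ?_⟩
  obtain ⟨s1, s2⟩ := div_sqrt M
  have hU := Nat.sqrt_le_self M
  generalize Nat.sqrt M = U at s1 s2 hU
  have a1 : |∑ n ∈ Ioc U M, chi n * od (M / n)| ≤ √M := by
    refine (alt (fun n => od (M / n)) U M hU (fun n hn => ?_) fun n => by unfold od; positivity).trans ?_
    · have : M / (n + 1) ≤ M / n := Nat.div_le_div_left (by omega) (by omega)
      unfold od
      exact_mod_cast Nat.div_le_div_right (by omega)
    · refine (od_bd _).2.2.trans ((floor_bd M (U + 1) (by omega)).1.trans ?_)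
      exact_mod_cast s1
  have a2 : |∑ n ∈ Ioc 0 U, chi n * od (M / n) - M / 2 * ∑ n ∈ Ioc 0 U, chi n * (1 / (n : ℝ))| ≤
      √M := by
    rw [mul_sum, ← sum_sub_distrib]
    refine (abs_sum_le_sum_abs _ _).trans ((sum_le_card_nsmul _ _ 1 fun n hn => ?_).trans ?_)
    · have h1 := od_bd (M / n)
      have h2 := floor_bd M n (mem_Ioc.1 hn).1
      rw [show chi n * od (M / n) - M / 2 * (chi n * (1 / (n : ℝ))) =
        chi n * (od (M / n) - M / n / 2) by ring, abs_mul]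
      refine mul_le_one₀ (abs_chi n) (abs_nonneg _) (abs_le.2 ⟨?_, ?_⟩) <;>
        linarith [h1.1, h1.2.1, h2.1, h2.2]
    · simpa using s2
  have a3 : |M / 2 * ∑ n ∈ Ioc 0 U, chi n * (1 / (n : ℝ)) - L / 2 * M| ≤ √M := by
    rw [show M / 2 * ∑ n ∈ Ioc 0 U, chi n * (1 / (n : ℝ)) - L / 2 * M =
      -(M / 2) * (L - ∑ n ∈ Ioc 0 U, chi n * (1 / (n : ℝ))) by ring, abs_mul, abs_neg,
      abs_of_nonneg (by positivity)]
    refine (mul_le_mul_of_nonneg_left (hL U) (by positivity)).trans ?_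
    have : (M : ℝ) / 2 * (1 / (U + 1)) = M / (U + 1) / 2 := by ring
    rw [this]
    linarith [sqrt_nonneg (M : ℝ)]
  rw [TT, ← sum_Ioc_consecutive _ (Nat.zero_le U) hU]
  rw [abs_le] at a1 a2 a3 ⊢
  constructor <;> linarith [a1.1, a1.2, a2.1, a2.2, a3.1, a3.2]

/-- The number of roots on odd moduli. -/
def rr (k : ℕ) : ℝ := if Odd k then rho k else 0

def rA : ArithmeticFunction ℝ := ⟨rr, by simp [rr]⟩

def oA : ArithmeticFunction ℝ := ⟨fun k => if Odd k then 1 else 0, by simp⟩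

def cA : ArithmeticFunction ℝ := ⟨chi, by simp [chi]⟩

def fA : ArithmeticFunction ℝ :=
  ((μ : ArithmeticFunction ℝ).pmul (μ : ArithmeticFunction ℝ)).pmul cA

theorem fA_apply (a : ℕ) : fA a = (μ a : ℝ) * μ a * chi a := rfl

theorem rr_mul (hR : RhoStmt) {a b : ℕ} (h : a.Coprime b) : rr (a * b) = rr a * rr b := by
  unfold rr
  rw [hR.1 a b h]
  by_cases ha : Odd a <;> by_cases hb : Odd b <;> simp [Nat.odd_mul, ha, hb]

theorem rr_one (hR : RhoStmt) : rr 1 = 1 := by simp [rr, hR.2.2.2.2.1]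

theorem rr_pow (hR : RhoStmt) {p j : ℕ} (hp : p.Prime) (h2 : p ≠ 2) (hj : 1 ≤ j) :
    rr (p ^ j) = if p % 4 = 1 then 2 else 0 := by
  rw [rr, if_pos (hp.odd_of_ne_two h2).pow, hR.2.2.2.1 p j hp h2 hj]
  split_ifs <;> simp

theorem conv (hR : RhoStmt) : rA = fA * oA := by
  have h1 : rA.IsMultiplicative := ⟨rr_one hR, fun h => rr_mul hR h⟩
  have h2 : oA.IsMultiplicative := ⟨by simp [oA], fun {a b} _ => by
    by_cases ha : Odd a <;> by_cases hb : Odd b <;> simp [oA, Nat.odd_mul, ha, hb]⟩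
  have h3 : cA.IsMultiplicative := ⟨by simp [cA, chi], fun _ => chi_mul _ _⟩
  have h4 : fA.IsMultiplicative :=
    (ArithmeticFunction.isMultiplicative_moebius.intCast.pmul
      ArithmeticFunction.isMultiplicative_moebius.intCast).pmul h3
  rw [ArithmeticFunction.IsMultiplicative.eq_iff_eq_on_prime_powers _ h1 _ (h4.mul h2)]
  intro p i hp
  rcases i with _ | i
  · rw [pow_zero, h1.1, (h4.mul h2).1]
  rw [ArithmeticFunction.mul_apply, Nat.sum_divisorsAntidiagonal fun a b => fA a * oA b,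
    Nat.sum_divisors_prime_pow hp, sum_range_succ', sum_range_succ', sum_eq_zero]
  · simp only [zero_add, pow_one, pow_zero, Nat.div_one, h4.1, one_mul, fA_apply,
      ArithmeticFunction.moebius_apply_prime hp]
    rw [pow_succ, Nat.mul_div_cancel _ hp.pos, ← pow_succ]
    by_cases h : p = 2
    · subst h
      have : ¬Odd (2 ^ (i + 1)) := by simp [Nat.even_pow]
      simp [rA, rr, oA, chi, this]
    · have ho := hp.odd_of_ne_two h
      have h5 := rr_pow hR hp h (j := i + 1) (by omega)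
      have h6 := Nat.odd_iff.1 ho
      simp only [rA, oA, ArithmeticFunction.coe_mk, h5, if_pos ho.pow, chi]
      rcases mod_cases p with h7 | h7 | h7 | h7 <;> first | omega | (rw [h7]; norm_num)
  · intro j _
    rw [fA_apply, ArithmeticFunction.moebius_apply_prime_pow hp (by omega), if_neg (by omega)]
    simp

theorem sum_mult (F : ℕ → ℝ) (N q : ℕ) (hq : 0 < q) :
    ∑ a ∈ Ioc 0 N, (if q ∣ a then F a else 0) = ∑ n ∈ Ioc 0 (N / q), F (q * n) := by
  rw [← sum_filter, ← sum_image (g := fun n => q * n) (f := F)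
    fun a _ b _ h => Nat.eq_of_mul_eq_mul_left hq h]
  refine sum_congr ?_ fun _ _ => rfl
  ext a
  simp only [mem_filter, mem_Ioc, mem_image, Nat.le_div_iff_mul_le hq]
  constructor
  · rintro ⟨⟨h1, h2⟩, n, rfl⟩
    exact ⟨n, ⟨Nat.pos_of_mul_pos_left h1, by rwa [mul_comm]⟩, rfl⟩
  · rintro ⟨n, ⟨h1, h2⟩, rfl⟩
    exact ⟨⟨by positivity, by rwa [mul_comm]⟩, n, rfl⟩

theorem mu_sq (N a : ℕ) (ha : a ∈ Ioc 0 N) :
    (μ a : ℝ) * μ a = ∑ m ∈ Ioc 0 N, if m ^ 2 ∣ a then (μ m : ℝ) else 0 := by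
  obtain ⟨h1, h2⟩ := mem_Ioc.1 ha
  have h3 : Nat.floorRoot 2 a ≠ 0 := Nat.floorRoot_ne_zero.2 ⟨two_ne_zero, h1.ne'⟩
  have e : (Ioc 0 N).filter (fun m => m ^ 2 ∣ a) = (Nat.floorRoot 2 a).divisors := by
    ext m
    rw [mem_filter, mem_Ioc, Nat.mem_divisors, ← Nat.pow_dvd_iff_dvd_floorRoot]
    refine ⟨fun h => ⟨h.2, h3⟩, fun h => ⟨?_, h.1⟩⟩
    have h4 := Nat.le_of_dvd h1 h.1
    have h5 : 0 < m := Nat.pos_of_dvd_of_pos ((dvd_pow_self m two_ne_zero).trans h.1) h1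
    exact ⟨h5, by nlinarith⟩
  have e2 := congrArg (fun f : ArithmeticFunction ℝ => f (Nat.floorRoot 2 a))
    (ArithmeticFunction.coe_moebius_mul_coe_zeta (R := ℝ))
  simp only [ArithmeticFunction.coe_mul_zeta_apply, ArithmeticFunction.intCoe_apply,
    ArithmeticFunction.one_apply] at e2
  rw [← sum_filter, e, e2, ← sq, ← Int.cast_pow, ArithmeticFunction.moebius_sq]
  have e3 : Squarefree a ↔ Nat.floorRoot 2 a = 1 := by
    constructor
    · intro h
      exact Nat.isUnit_iff.1 (h _ (by rw [← sq]; exact Nat.floorRoot_pow_dvd))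
    · intro h x hx
      rw [← sq, Nat.pow_dvd_iff_dvd_floorRoot, h] at hx
      exact isUnit_of_dvd_one hx
  simp only [e3]
  split_ifs <;> simp

theorem sum_od (j : ℕ) : ∑ b ∈ Ioc 0 j, oA b = od j := by
  induction j with
  | zero => simp [od]
  | succ j ih =>
    rw [sum_Ioc_succ_top (Nat.zero_le j), ih]
    simp only [od, oA, ArithmeticFunction.coe_mk, Nat.odd_iff]
    split_ifs with h
    · rw [show (j + 1 + 1) / 2 = (j + 1) / 2 + 1 by omega]
      simp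
    · rw [show (j + 1 + 1) / 2 = (j + 1) / 2 by omega]
      simp

theorem S_eq (hR : RhoStmt) (N : ℕ) :
    ∑ k ∈ Ioc 0 N, rr k = ∑ m ∈ Ioc 0 N, (μ m : ℝ) * chi (m ^ 2) * TT (N / m ^ 2) := by
  have h := ArithmeticFunction.sum_Ioc_mul_eq_sum_sum fA oA N
  rw [← conv hR] at h
  refine h.trans ?_
  rw [sum_congr rfl (g := fun a => ∑ m ∈ Ioc 0 N,
    if m ^ 2 ∣ a then (μ m : ℝ) * (chi a * od (N / a)) else 0) fun a ha => ?_, sum_comm]
  · refine sum_congr rfl fun m hm => ?_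
    rw [sum_mult _ _ _ (pow_pos (mem_Ioc.1 hm).1 2), TT, mul_sum]
    refine sum_congr rfl fun n _ => ?_
    rw [chi_mul, Nat.div_div_eq_div_mul]
    ring
  · rw [fA_apply, sum_od, mu_sq N a ha, sum_mul, sum_mul]
    refine sum_congr rfl fun m _ => ?_
    split_ifs <;> ring

theorem abs_w (m : ℕ) : |(μ m : ℝ) * chi (m ^ 2)| ≤ 1 := by
  rw [abs_mul]
  exact mul_le_one₀ (by exact_mod_cast ArithmeticFunction.abs_moebius_le_one) (abs_nonneg _)
    (abs_chi _)

theorem harm (M : ℕ) : ∑ k ∈ Ioc 0 M, 1 / (k : ℝ) ≤ 1 + log M := by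
  have := harmonic_le_one_add_log M
  rw [harmonic_eq_sum_Icc] at this
  push_cast at this
  simp only [one_div]
  exact this

theorem S_est (hR : RhoStmt) : ∃ c : ℝ, 0 < c ∧ c ≤ 2 ∧ ∀ N : ℕ, 1 ≤ N →
    |∑ k ∈ Ioc 0 N, rr k - c * N| ≤ 6 * √N * (1 + log N) := by
  obtain ⟨L, hL1, hL2, hL⟩ := TT_est
  obtain ⟨Z, hZ⟩ := lim (fun m => (μ m : ℝ) * chi (m ^ 2) * ((m : ℝ) ^ 2)⁻¹) 2 fun U V _ => by
    refine (abs_sum_le_sum_abs _ _).trans (le_trans ?_ (sum_Ioo_inv_sq_le U (V + 1)))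
    rw [Ioo_add_one_right_eq_Ioc]
    refine sum_le_sum fun m _ => ?_
    rw [abs_mul, abs_of_nonneg (a := ((m : ℝ) ^ 2)⁻¹) (by positivity)]
    exact mul_le_of_le_one_left (by positivity) (abs_w m)
  have h2 := hZ 2
  have e2 : ∑ m ∈ Ioc 0 2, (μ m : ℝ) * chi (m ^ 2) * ((m : ℝ) ^ 2)⁻¹ = 1 := by
    rw [sum_Ioc_succ_top (by norm_num), sum_Ioc_succ_top (by norm_num)]
    norm_num [chi]
  rw [e2, abs_le] at h2
  have hZ1 : 1 / 3 ≤ Z := by norm_num at h2 ⊢; linarith [h2.1]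
  have hZ2 : Z ≤ 5 / 3 := by norm_num at h2 ⊢; linarith [h2.2]
  refine ⟨L / 2 * Z, by positivity, by nlinarith, fun N hN => ?_⟩
  obtain ⟨s1, s2⟩ := div_sqrt N
  have hU := Nat.sqrt_le_self N
  have hU2 := Nat.lt_succ_sqrt' N
  have hU3 := Nat.sqrt_pos.2 hN
  generalize Nat.sqrt N = U at s1 s2 hU hU2 hU3
  have e : ∑ k ∈ Ioc 0 N, rr k = ∑ m ∈ Ioc 0 U, (μ m : ℝ) * chi (m ^ 2) * TT (N / m ^ 2) := by
    rw [S_eq hR, ← sum_Ioc_consecutive _ (Nat.zero_le U) hU, sum_eq_zero (s := Ioc U N), add_zero]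
    intro m hm
    have : U.succ ^ 2 ≤ m ^ 2 := Nat.pow_le_pow_left (mem_Ioc.1 hm).1 2
    rw [Nat.div_eq_of_lt (by omega)]
    simp [TT]
  have a1 : |∑ m ∈ Ioc 0 U, (μ m : ℝ) * chi (m ^ 2) * TT (N / m ^ 2) -
      L / 2 * N * ∑ m ∈ Ioc 0 U, (μ m : ℝ) * chi (m ^ 2) * ((m : ℝ) ^ 2)⁻¹| ≤
      3 * √N * (1 + log N) + √N := by
    rw [mul_sum, ← sum_sub_distrib]
    refine (abs_sum_le_sum_abs _ _).trans ((sum_le_sum
      (g := fun m : ℕ => 3 * √N * (1 / (m : ℝ)) + 1) fun m hm => ?_).trans ?_)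
    · have hm0 := (mem_Ioc.1 hm).1
      have hm1 : (0 : ℝ) < m := by exact_mod_cast hm0
      have h1 := hL (N / m ^ 2)
      have h2 := floor_bd N (m ^ 2) (by positivity)
      push_cast at h2
      have h3 : √((N / m ^ 2 : ℕ) : ℝ) ≤ √N * (1 / (m : ℝ)) := by
        refine (sqrt_le_sqrt h2.1).trans (le_of_eq ?_)
        rw [sqrt_div' _ (by positivity), sqrt_sq hm1.le]
        ring
      rw [show (μ m : ℝ) * chi (m ^ 2) * TT (N / m ^ 2) -
        L / 2 * N * ((μ m : ℝ) * chi (m ^ 2) * ((m : ℝ) ^ 2)⁻¹) =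
        (μ m : ℝ) * chi (m ^ 2) * (TT (N / m ^ 2) - L / 2 * (N / (m : ℝ) ^ 2)) by ring, abs_mul]
      refine (mul_le_of_le_one_left (abs_nonneg _) (abs_w m)).trans ?_
      rw [abs_le] at h1 ⊢
      constructor <;> nlinarith [h1.1, h1.2, h2.1, h2.2]
    · rw [sum_add_distrib, ← mul_sum]
      have h1 : log U ≤ log N := log_le_log (by exact_mod_cast hU3) (by exact_mod_cast hU)
      have h2 := harm U
      gcongr
      · linarith
      · simpa using s2
  have a2 : |L / 2 * N * ∑ m ∈ Ioc 0 U, (μ m : ℝ) * chi (m ^ 2) * ((m : ℝ) ^ 2)⁻¹ -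
      L / 2 * Z * N| ≤ 2 * √N := by
    rw [show L / 2 * N * ∑ m ∈ Ioc 0 U, (μ m : ℝ) * chi (m ^ 2) * ((m : ℝ) ^ 2)⁻¹ - L / 2 * Z * N =
      -(L / 2 * N) * (Z - ∑ m ∈ Ioc 0 U, (μ m : ℝ) * chi (m ^ 2) * ((m : ℝ) ^ 2)⁻¹) by ring,
      abs_mul, abs_neg, abs_of_nonneg (by positivity)]
    refine (mul_le_mul_of_nonneg_left (hZ U) (by positivity)).trans ?_
    rw [show L / 2 * N * (2 / ((U : ℝ) + 1)) = L * (N / (U + 1)) by ring]
    gcongr
    linarith
  have h0 : 0 ≤ log N := log_nonneg (by exact_mod_cast hN)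
  have h1 := sqrt_nonneg (N : ℝ)
  have h3 := mul_nonneg h1 h0
  rw [e]
  rw [abs_le] at a1 a2 ⊢
  constructor <;> nlinarith [a1.1, a1.2, a2.1, a2.2]

/-- The sum over the multiples of `d`. -/
def SS (d : ℕ) (x : ℝ) : ℝ := ∑ k ∈ Ioc 0 ⌊x⌋₊, if d ∣ k then rr k else 0

theorem SS_small (d : ℕ) {x : ℝ} (hx : x < 1) : SS d x = 0 := by
  rw [SS, Nat.floor_eq_zero.2 hx]
  simp

theorem base (hR : RhoStmt) : ∃ c : ℝ, 0 < c ∧ ∀ ε : ℝ, 0 < ε → ε ≤ 1 / 2 → ∃ K : ℝ, c ≤ K ∧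
    ∀ x : ℝ, 0 ≤ x → |SS 1 x - c * x| ≤ K * x ^ (1 / 2 + ε) := by
  obtain ⟨c, hc, hc2, h⟩ := S_est hR
  refine ⟨c, hc, fun ε hε hε2 => ⟨6 * (1 + 1 / ε) + c, le_add_of_nonneg_left (by positivity),
    fun x hx => ?_⟩⟩
  rcases lt_or_ge x 1 with h1 | h1
  · rw [SS_small _ h1, zero_sub, abs_neg, abs_of_nonneg (by positivity)]
    have : x ≤ x ^ (1 / 2 + ε) := self_le_rpow_of_le_one hx h1.le (by linarith)
    gcongr
    exact le_add_of_nonneg_left (by positivity)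
  · have h2 := h ⌊x⌋₊ (Nat.one_le_floor_iff x |>.2 h1)
    have h3 := Nat.floor_le hx
    have h4 := Nat.lt_floor_add_one x
    have h5 : (1 : ℝ) ≤ ⌊x⌋₊ := by exact_mod_cast Nat.one_le_floor_iff x |>.2 h1
    have h6 : 1 ≤ x ^ (1 / 2 + ε) := one_le_rpow h1 (by positivity)
    have h7 : 6 * √(⌊x⌋₊ : ℝ) * (1 + log ⌊x⌋₊) ≤ 6 * (1 + 1 / ε) * x ^ (1 / 2 + ε) := by
      have g1 : log ⌊x⌋₊ ≤ log x := log_le_log (by linarith) h3
      have g2 := log_le_rpow_div hx hε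
      have g3 : 1 ≤ x ^ ε := one_le_rpow h1 hε.le
      have g4 : 0 ≤ log (⌊x⌋₊ : ℝ) := log_nonneg h5
      rw [rpow_add (by linarith), ← sqrt_eq_rpow]
      calc 6 * √(⌊x⌋₊ : ℝ) * (1 + log ⌊x⌋₊) ≤ 6 * √x * (x ^ ε + x ^ ε / ε) := by
            gcongr
            exact g1.trans g2
        _ = _ := by ring
    simp only [SS, one_dvd, if_true]
    rw [abs_le] at h2 ⊢
    constructor <;> nlinarith [h2.1, h2.2]

theorem rr_prime_mul (hR : RhoStmt) {p : ℕ} (hp : p.Prime) (h2 : p ≠ 2) {e : ℕ} (he : 0 < e) :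
    rr (p * e) = if p % 4 = 1 then 2 * rr e - if p ∣ e then rr e else 0 else 0 := by
  obtain ⟨j, e, h1, rfl⟩ := Nat.exists_eq_pow_mul_and_not_dvd he.ne' p hp.ne_one
  have hc : ∀ i, (p ^ i).Coprime e := fun i => ((Nat.Prime.coprime_iff_not_dvd hp).2 h1).pow_left i
  rw [← mul_assoc, ← pow_succ', rr_mul hR (hc _), rr_mul hR (hc _), rr_pow hR hp h2 (by omega)]
  rcases j with _ | j
  · simp [rr_one hR, h1]
  · rw [rr_pow hR hp h2 (by omega), if_pos (Dvd.dvd.mul_right (dvd_pow_self p (by omega)) e)]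
    split_ifs <;> ring

theorem SS_rec (hR : RhoStmt) {p d : ℕ} (hp : p.Prime) (h2 : p ≠ 2) (hd : p.Coprime d) (x : ℝ) :
    SS (p * d) x = if p % 4 = 1 then 2 * SS d (x / p) - SS (p * d) (x / p) else 0 := by
  have e : SS (p * d) x = ∑ e ∈ Ioc 0 ⌊x / p⌋₊, if d ∣ e then rr (p * e) else 0 := by
    have := sum_mult (fun k => if p * d ∣ k then rr k else 0) ⌊x⌋₊ p hp.pos
    simp only [Nat.mul_dvd_mul_iff_left hp.pos] at this
    rw [Nat.floor_div_natCast, ← this, SS]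
    refine sum_congr rfl fun k _ => ?_
    by_cases h : p * d ∣ k
    · rw [if_pos (Dvd.dvd.trans (Dvd.intro _ rfl) h)]
    · simp [h]
  rw [e]
  split_ifs with h4
  · rw [SS, SS, mul_sum, ← sum_sub_distrib]
    refine sum_congr rfl fun e he => ?_
    rw [rr_prime_mul hR hp h2 (mem_Ioc.1 he).1, if_pos h4]
    by_cases g1 : d ∣ e
    · by_cases g2 : p ∣ e
      · simp [g1, g2, hd.mul_dvd_of_dvd_of_dvd g2 g1]
      · have : ¬p * d ∣ e := fun h => g2 (Dvd.dvd.trans (Dvd.intro _ rfl) h)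
        simp [g1, g2, this]
    · have : ¬p * d ∣ e := fun h => g1 (Dvd.dvd.trans (Dvd.intro_left _ rfl) h)
      simp [g1, this]
  · refine sum_eq_zero fun e he => ?_
    rw [rr_prime_mul hR hp h2 (mem_Ioc.1 he).1, if_neg h4, ite_self]

theorem step {θ p g K K' : ℝ} {A B : ℝ → ℝ} (hθ : θ ≤ 1) (hp : 1 < p)
    (hB : ∀ x, B x = 2 * A (x / p) - B (x / p)) (hB0 : ∀ x, x < 1 → B x = 0)
    (hA : ∀ x, 0 ≤ x → |A x - g * x| ≤ K * x ^ θ) (hg : 0 ≤ g) (hg' : 2 / (p + 1) * g ≤ K')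
    (hK : 2 * K + K' ≤ K' * p ^ θ) (x : ℝ) (hx : 0 ≤ x) :
    |B x - 2 / (p + 1) * g * x| ≤ K' * x ^ θ := by
  obtain ⟨n, hn⟩ := pow_unbounded_of_one_lt x hp
  have hp0 : 0 < p := by linarith
  induction n generalizing x with
  | zero =>
    rw [pow_zero] at hn
    rw [hB0 x hn, zero_sub, abs_neg, abs_of_nonneg (by positivity)]
    exact mul_le_mul hg' (self_le_rpow_of_le_one hx hn.le hθ) hx (le_trans (by positivity) hg')
  | succ n ih =>
    have h1 := ih (x / p) (by positivity) (by rwa [div_lt_iff₀ hp0, ← pow_succ])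
    have h2 := hA (x / p) (by positivity)
    have h3 : x ^ θ = p ^ θ * (x / p) ^ θ := by
      rw [← mul_rpow hp0.le (by positivity), mul_div_cancel₀ _ hp0.ne']
    have h4 : 2 / (p + 1) * g * x = 2 * (g * (x / p)) - 2 / (p + 1) * g * (x / p) := by
      field_simp
      ring
    have h5 := mul_le_mul_of_nonneg_right hK (rpow_nonneg (div_nonneg hx hp0.le) θ)
    rw [hB x, h3, h4]
    rw [abs_le] at h1 h2 ⊢
    constructor <;> nlinarith [h1.1, h1.2, h2.1, h2.2]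

theorem all (hR : RhoStmt) {c θ K : ℝ} (hc : 0 < c) (hK : c ≤ K) (hθ : 1 / 2 ≤ θ) (hθ' : θ ≤ 1)
    (h : ∀ x : ℝ, 0 ≤ x → |SS 1 x - c * x| ≤ K * x ^ θ) (s : Finset ℕ) :
    (∀ p ∈ s, p.Prime ∧ p ≠ 2) →
      (∏ p ∈ s, (rho p : ℝ) / (p + 1)) * c ≤ (if 5 ∈ s then 2 * K else K) ∧ ∀ x : ℝ, 0 ≤ x →
        |SS (∏ p ∈ s, p) x - (∏ p ∈ s, (rho p : ℝ) / (p + 1)) * c * x| ≤
          (if 5 ∈ s then 2 * K else K) * x ^ θ := by
  have hK0 : 0 < K := hc.trans_le hK
  induction s using Finset.induction_on with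
  | empty => simpa using ⟨hK, h⟩
  | insert p s hps ih =>
    intro hs
    obtain ⟨hp, h2⟩ := hs p (mem_insert_self _ _)
    obtain ⟨i1, i2⟩ := ih fun q hq => hs q (mem_insert_of_mem hq)
    have hd : p.Coprime (∏ q ∈ s, q) := Nat.Coprime.prod_right fun q hq =>
      (Nat.coprime_primes hp (hs q (mem_insert_of_mem hq)).1).2 fun e => hps (e ▸ hq)
    have hr := hR.2.2.2.1 p 1 hp h2 le_rfl
    have hrec := SS_rec hR hp h2 hd
    have hK1 : 0 < if 5 ∈ insert p s then 2 * K else K := by split_ifs <;> positivity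
    rw [pow_one] at hr
    rw [prod_insert hps, prod_insert hps, hr]
    by_cases h4 : p % 4 = 1
    · simp only [if_pos h4, Nat.cast_ofNat] at hrec ⊢
      have hp1 := hp.one_lt
      have hp5 : (5 : ℝ) ≤ p := by exact_mod_cast (by omega : 5 ≤ p)
      have hg : 0 ≤ (∏ p ∈ s, (rho p : ℝ) / (p + 1)) * c := by positivity
      have hle : (if 5 ∈ s then 2 * K else K) ≤ if 5 ∈ insert p s then 2 * K else K := by
        by_cases g : 5 ∈ s
        · rw [if_pos g, if_pos (mem_insert_of_mem g)]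
        · rw [if_neg g]
          split_ifs <;> linarith
      have hg' : 2 / ((p : ℝ) + 1) * ((∏ p ∈ s, (rho p : ℝ) / (p + 1)) * c) ≤
          if 5 ∈ insert p s then 2 * K else K := by
        refine (mul_le_of_le_one_left hg ?_).trans (i1.trans hle)
        rw [div_le_one (by positivity)]
        linarith
      have hq : √p ≤ (p : ℝ) ^ θ := by
        rw [sqrt_eq_rpow]
        exact rpow_le_rpow_of_exponent_le (by linarith) hθ
      rw [mul_assoc]
      refine ⟨hg', step hθ' (by linarith) hrec (fun x => SS_small _) i2 hg hg' ?_⟩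
      by_cases g : p = 5
      · have g2 : (2 : ℝ) ≤ √p := by
          rw [le_sqrt (by norm_num) (by positivity)]
          linarith
        rw [if_neg (g ▸ hps), if_pos (g ▸ mem_insert_self _ _)]
        nlinarith
      · have hp9 : (9 : ℝ) ≤ p := by exact_mod_cast (by omega : 9 ≤ p)
        have g2 : (3 : ℝ) ≤ √p := by
          rw [le_sqrt (by norm_num) (by positivity)]
          linarith
        nlinarith
    · simp only [if_neg h4, Nat.cast_zero, zero_div, zero_mul] at hrec ⊢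
      refine ⟨hK1.le, fun x hx => ?_⟩
      rw [hrec, sub_zero, abs_zero]
      positivity

end Rs

theorem rsS (hR : RhoStmt) : RSStmt := by
  obtain ⟨c, hc, h⟩ := Rs.base hR
  refine ⟨c, hc, fun ε hε => ?_⟩
  obtain ⟨K, hK, h⟩ := h (min ε (1 / 2)) (by positivity) (min_le_right _ _)
  have hK0 : 0 < K := hc.trans_le hK
  refine ⟨2 * K, by positivity, fun x d hx hd ho => ?_⟩
  have hm : 0 < min ε (1 / 2) := by positivity
  have H := (Rs.all hR hc hK (by linarith) (by linarith [min_le_right ε (1 / 2)]) h d.primeFactors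
    fun p hp => ⟨Nat.prime_of_mem_primeFactors hp, by
      rintro rfl
      exact (Nat.not_even_iff_odd.2 ho) (even_iff_two_dvd.2 (Nat.dvd_of_mem_primeFactors hp))⟩).2
    x (by positivity)
  rw [Nat.prod_primeFactors_of_squarefree hd] at H
  have e : ∑ k ∈ (Icc 1 x : Finset ℕ) with Odd k ∧ d ∣ k, (rho k : ℝ) = Rs.SS d x := by
    rw [sum_filter, Rs.SS, Nat.floor_natCast]
    refine sum_congr rfl fun k _ => ?_
    by_cases h1 : Odd k <;> by_cases h2 : d ∣ k <;> simp [Rs.rr, h1, h2]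
  have hx1 : (1 : ℝ) ≤ x := by exact_mod_cast hx
  have hd1 : (1 : ℝ) ≤ d := by exact_mod_cast ho.pos
  rw [e, mul_comm c, gg]
  refine H.trans ?_
  rw [mul_assoc (2 * K), add_comm, rpow_add (by linarith), ← sqrt_eq_rpow]
  gcongr
  · split_ifs <;> linarith
  · exact (rpow_le_rpow_of_exponent_le hx1 (min_le_left _ _)).trans
      (rpow_le_rpow (by positivity) (le_mul_of_one_le_left (by positivity) hd1) hε.le)

end Pool.Agent.Lib.MP_4b1228_nt.PP
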