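import Pool.Agent.Lib.MP_4b1228_nt.PP.S1b

/-! The abstract sieve inequality. -/

open Finset Real
open scoped Classical

noncomputable section

namespace Pool.Agent.Lib.MP_4b1228_nt.PP

namespace S1

/-- restriction to rough numbers -/
def rt (z : ℝ) (F : ℕ → ℝ) (d : ℕ) : ℝ := if Rough z d then F d else 0

def gam (z : ℝ) (F : ℕ → ℝ) (N : ℕ) : ℝ :=
  ∑ x ∈ N.divisorsAntidiagonal, rt z F x.1 * if Sm z x.2 then sg x.2 else 0

def alp (z : ℝ) (F : ℕ → ℝ) (m : ℕ) : ℝ := ∑ d ∈ m.divisors, rt z F d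

def lam0 (z L : ℝ) (F₁ F₂ : ℕ → ℝ) (d : ℕ) : ℝ :=
  ∑ x ∈ d.divisorsAntidiagonal, (if (x.1 : ℝ) ≤ L then gam z F₁ x.1 else 0) * rt z F₂ x.2

def lam (w z L : ℝ) (F₁ F₂ : ℕ → ℝ) (d : ℕ) : ℝ :=
  if Squarefree d ∧ Rough w d then lam0 z L F₁ F₂ d else 0

def bet (w z L : ℝ) (F : ℕ → ℝ) (N : ℕ) : ℝ :=
  if Squarefree N ∧ Rough w N ∧ First z L N then gam z F N else 0

def P1 (w z L : ℝ) (F₁ F₂ : ℕ → ℝ) (k : ℕ) : ℝ :=
  if Rough w k then ∑ d ∈ k.divisors, lam w z L F₁ F₂ d else 0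

def P2 (w z L : ℝ) (F₁ F₂ : ℕ → ℝ) (k : ℕ) : ℝ :=
  ∑ x ∈ k.divisorsAntidiagonal,
    if Rough (qq z x.2) x.1 then alp z F₂ x.1 * bet w z L F₁ x.2 else 0

def P3 (z : ℝ) (G₁ G₂ : ℕ → ℝ) (k : ℕ) : ℝ :=
  ∑ x ∈ k.divisorsAntidiagonal, rt z G₁ x.1 * if Squarefree x.2 then rt z G₂ x.2 else 0

variable {w z L B : ℝ} {F F₁ F₂ G₁ G₂ : ℕ → ℝ}

theorem rt_ne {d : ℕ} (h : rt z F d ≠ 0) : Rough z d ∧ F d ≠ 0 := by
  unfold rt at h
  split_ifs at h with h1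
  · exact ⟨h1, h⟩
  · exact absurd rfl h

theorem rough_div {k c : ℕ} (hc : c ∣ k) (h1 : Rough z c) (h2 : Rough z (k / c)) : Rough z k :=
  Nat.mul_div_cancel' hc ▸ Rough.mul h1 h2

theorem ident (hL : 1 ≤ L) {k : ℕ} (hk : Squarefree k) (hw : Rough w k) :
    P1 w z L F₁ F₂ k + P2 w z L F₁ F₂ k =
      if Rough z k then ∑ D ∈ k.divisors, ∑ x ∈ D.divisorsAntidiagonal, F₁ x.1 * F₂ x.2 else 0 := by
  have k0 := hk.ne_zero
  have hd : ∀ d ∈ k.divisors, Squarefree d ∧ Rough w d := fun d h =>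
    ⟨hk.squarefree_of_dvd (Nat.dvd_of_mem_divisors h), Rough.dvd hw (Nat.dvd_of_mem_divisors h)⟩
  have e1 : P1 w z L F₁ F₂ k =
      ∑ N ∈ k.divisors, (if (N : ℝ) ≤ L then gam z F₁ N else 0) * alp z F₂ (k / N) := by
    rw [P1, if_pos hw, sum_congr rfl fun d h => show lam w z L F₁ F₂ d = _ from if_pos (hd d h)]
    simp only [lam0, alp, mul_sum]
    exact sum_anti fun N e => (if (N : ℝ) ≤ L then gam z F₁ N else 0) * rt z F₂ e
  have e2 : P1 w z L F₁ F₂ k + P2 w z L F₁ F₂ k =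
      ∑ N ∈ k.divisors, gam z F₁ N * (alp z F₂ (k / N) * Wt z L N (k / N)) := by
    rw [e1, P2, Nat.sum_divisorsAntidiagonal'
      fun m N => if Rough (qq z N) m then alp z F₂ m * bet w z L F₁ N else 0, ← sum_add_distrib]
    refine sum_congr rfl fun N h => ?_
    simp only [bet, Wt, (hd N h).1, (hd N h).2, true_and]
    by_cases c1 : First z L N <;> by_cases c2 : Rough (qq z N) (k / N) <;>
      by_cases c3 : (N : ℝ) ≤ L <;> simp [c1, c2, c3] <;> ring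
  have e3 : ∀ N ∈ k.divisors, gam z F₁ N * (alp z F₂ (k / N) * Wt z L N (k / N)) =
      ∑ x ∈ N.divisorsAntidiagonal, (rt z F₁ x.1 * if Sm z x.2 then sg x.2 else 0) *
        (alp z F₂ (k / (x.1 * x.2)) * Wt z L (x.1 * x.2) (k / (x.1 * x.2))) := by
    intro N _
    rw [gam, sum_mul]
    exact sum_congr rfl fun x hx => by rw [(Nat.mem_divisorsAntidiagonal.1 hx).1]
  rw [e2, sum_congr rfl e3, sum_anti fun c e => (rt z F₁ c * if Sm z e then sg e else 0) *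
    (alp z F₂ (k / (c * e)) * Wt z L (c * e) (k / (c * e))), sum_anti fun c e => F₁ c * F₂ e]
  have e4 : ∀ c ∈ k.divisors, ∑ e ∈ (k / c).divisors, (rt z F₁ c * if Sm z e then sg e else 0) *
      (alp z F₂ (k / (c * e)) * Wt z L (c * e) (k / (c * e))) =
      if Rough z k then ∑ e ∈ (k / c).divisors, F₁ c * F₂ e else 0 := by
    intro c h
    have hc := Nat.dvd_of_mem_divisors h
    have hm : Squarefree (k / c) := hk.squarefree_of_dvd (Nat.div_dvd_of_dvd hc)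
    by_cases c1 : Rough z c
    · have b := buch hL hm (Nat.pos_of_mem_divisors h).ne' c1
      have e5 : ∀ e ∈ (k / c).divisors, (rt z F₁ c * if Sm z e then sg e else 0) *
          (alp z F₂ (k / (c * e)) * Wt z L (c * e) (k / (c * e))) = F₁ c * alp z F₂ (k / c) *
          if Sm z e then sg e * Wt z L (c * e) (k / c / e) else 0 := by
        intro e he
        rw [rt, if_pos c1, ← Nat.div_div_eq_div_mul]
        split_ifs with c2
        · rw [alp, alp, sum_div hm.ne_zero (Nat.dvd_of_mem_divisors he) _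
            fun d hd => (cop (rt_ne hd).1 c2).symm]
          ring
        · ring
      rw [sum_congr rfl e5, ← mul_sum, b]
      by_cases c2 : Rough z k
      · have c3 := Rough.dvd c2 (Nat.div_dvd_of_dvd hc)
        rw [if_pos c2, if_pos c3, mul_one, alp, mul_sum]
        exact sum_congr rfl fun e he => by
          rw [rt, if_pos (Rough.dvd c3 (Nat.dvd_of_mem_divisors he))]
      · rw [if_neg c2, if_neg fun q => c2 (rough_div hc c1 q), mul_zero]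
    · rw [if_neg fun q => c1 (Rough.dvd q hc)]
      simp [rt, c1]
  rw [sum_congr rfl e4]
  split_ifs <;> simp

theorem ident3 {k : ℕ} (hk : Squarefree k) :
    P3 z G₁ G₂ k = if Rough z k then ∑ x ∈ k.divisorsAntidiagonal, G₁ x.1 * G₂ x.2 else 0 := by
  rw [P3]
  split_ifs with h
  · refine sum_congr rfl fun x hx => ?_
    have h1 := Nat.dvd_of_mem_divisors (Nat.fst_mem_divisors_of_mem_antidiagonal hx)
    have h2 := Nat.dvd_of_mem_divisors (Nat.snd_mem_divisors_of_mem_antidiagonal hx)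
    rw [rt, rt, if_pos (Rough.dvd h h1), if_pos (Rough.dvd h h2), if_pos (hk.squarefree_of_dvd h2)]
  · refine sum_eq_zero fun x hx => ?_
    by_contra h0
    have h1 := right_ne_zero_of_mul h0
    split_ifs at h1
    · exact h ((Nat.mem_divisorsAntidiagonal.1 hx).1 ▸
        Rough.mul (rt_ne (left_ne_zero_of_mul h0)).1 (rt_ne h1).1)
    · exact h1 rfl

/-! Sizes. -/

theorem abs_rt (hF : ∀ d, |F d| ≤ B) (d : ℕ) : |rt z F d| ≤ B := by
  unfold rt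
  split_ifs
  · exact hF d
  · simpa using (abs_nonneg _).trans (hF d)

theorem sum_rt (hF : ∀ d, |F d| ≤ B) {n : ℕ} {T : ℝ} {g : ℕ → ℝ}
    (hg : ∀ d ∈ n.divisors, |g d| ≤ T) :
    |∑ d ∈ n.divisors, rt z F d * g d| ≤ B * tz z n * T := by
  refine (abs_sum_le_sum_abs _ _).trans ?_
  rw [tz, ← sum_boole, mul_sum, sum_mul]
  refine sum_le_sum fun d hd => ?_
  unfold rt
  split_ifs
  · rw [abs_mul, mul_one]
    exact mul_le_mul (hF d) (hg d hd) (abs_nonneg _) ((abs_nonneg _).trans (hF d))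
  · simp

theorem abs_alp (hF : ∀ d, |F d| ≤ B) (m : ℕ) : |alp z F m| ≤ B * tz z m := by
  simpa [alp] using sum_rt (z := z) hF (n := m) (T := 1) (g := fun _ => 1) (by simp)

theorem abs_gam (hF : ∀ d, |F d| ≤ B) (N : ℕ) : |gam z F N| ≤ B * tz z N := by
  rw [gam, Nat.sum_divisorsAntidiagonal fun c e => rt z F c * if Sm z e then sg e else 0,
    ← mul_one (B * _)]
  refine sum_rt hF fun d _ => ?_
  split_ifs <;> simp [abs_sg]

theorem abs_bet (hF : ∀ d, |F d| ≤ B) (N : ℕ) : |bet w z L F N| ≤ B * tz z N := by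
  unfold bet
  split_ifs
  · exact abs_gam hF N
  · simpa using (abs_nonneg _).trans (abs_gam (z := z) hF N)

theorem abs_lam (h1 : ∀ d, |F₁ d| ≤ B) (h2 : ∀ d, |F₂ d| ≤ B) (d : ℕ) :
    |lam w z L F₁ F₂ d| ≤ (B * tz z d) ^ 2 := by
  unfold lam
  split_ifs with h
  · have hB := (abs_nonneg _).trans (h1 0)
    rw [lam0, Nat.sum_divisorsAntidiagonal'
      fun N e => (if (N : ℝ) ≤ L then gam z F₁ N else 0) * rt z F₂ e, sq]
    simp only [mul_comm _ (rt z F₂ _)]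
    refine sum_rt h2 fun e he => ?_
    split_ifs
    · exact (abs_gam h1 _).trans (mul_le_mul_of_nonneg_left (tz_mono h.1.ne_zero
        (Nat.div_dvd_of_dvd (Nat.dvd_of_mem_divisors he)) le_rfl) hB)
    · simpa using mul_nonneg hB (tz_nonneg _ _)
  · simpa using sq_nonneg _

theorem lam_ne {D₂ : ℝ} (h2 : ∀ d, F₂ d ≠ 0 → (d : ℝ) ≤ D₂) {d : ℕ} (h : lam w z L F₁ F₂ d ≠ 0) :
    Squarefree d ∧ Rough w d ∧ (d : ℝ) ≤ L * D₂ := by
  unfold lam at h
  split_ifs at h with h1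
  · obtain ⟨x, hx, h0⟩ := exists_ne_zero_of_sum_ne_zero h
    have h3 := left_ne_zero_of_mul h0
    split_ifs at h3 with h4
    · refine ⟨h1.1, h1.2, ?_⟩
      rw [← (Nat.mem_divisorsAntidiagonal.1 hx).1, Nat.cast_mul]
      exact mul_le_mul h4 (h2 _ (rt_ne (right_ne_zero_of_mul h0)).2) (Nat.cast_nonneg _)
        ((Nat.cast_nonneg _).trans h4)
    · exact absurd rfl h3
  · exact absurd rfl h

theorem bet_ne {WH : ℝ} (hL : 0 ≤ L) (hW : L * z ≤ WH) (h1 : ∀ d, F d ≠ 0 → (d : ℝ) ≤ WH) {N : ℕ}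
    (h : bet w z L F N ≠ 0) : Squarefree N ∧ Rough w N ∧ L ≤ N ∧ (N : ℝ) ≤ WH := by
  unfold bet at h
  split_ifs at h with h2
  swap
  · exact absurd rfl h
  obtain ⟨s1, s2, s3, s4⟩ := h2
  refine ⟨s1, s2, s3.le, ?_⟩
  by_cases c : z ≤ N.minFac
  · obtain ⟨x, hx, h0⟩ := exists_ne_zero_of_sum_ne_zero h
    have h3 := right_ne_zero_of_mul h0
    have e := (Nat.mem_divisorsAntidiagonal.1 hx).1
    split_ifs at h3 with h4
    · have e1 : x.2 = 1 := by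
        by_contra q
        have hp := Nat.minFac_prime q
        exact not_lt.2 (c.trans (Nat.cast_le.2 (Nat.minFac_le_of_dvd hp.two_le
          ((Nat.minFac_dvd _).trans (e ▸ dvd_mul_left _ _))))) (h4.2 _ hp (Nat.minFac_dvd _))
      rw [← e, e1, mul_one]
      exact h1 _ (rt_ne (left_ne_zero_of_mul h0)).2
    · exact absurd rfl h3
  · rw [← Nat.div_mul_cancel (Nat.minFac_dvd N), Nat.cast_mul]
    exact (mul_le_mul (s4.resolve_left c) (not_le.1 c).le (Nat.cast_nonneg _) hL).trans hW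

theorem P2_ne (hL : 1 ≤ L) (hz : w ≤ z) {k : ℕ} (h : ¬ Rough w k) : P2 w z L F₁ F₂ k = 0 := by
  refine sum_eq_zero fun x hx => ?_
  by_contra h0
  split_ifs at h0 with h1
  swap
  · exact h0 rfl
  have h2 := right_ne_zero_of_mul h0
  unfold bet at h2
  split_ifs at h2 with h3
  swap
  · exact h2 rfl
  have c1 : x.2 ≠ 1 := fun q => not_lt.2 hL (by simpa [q] using h3.2.2.1)
  refine h ((Nat.mem_divisorsAntidiagonal.1 hx).1 ▸ Rough.mul (Rough.mono h1 ?_) h3.2.1)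
  rw [qq, Nat.cast_min]
  exact le_min (h3.2.1 _ (Nat.minFac_prime c1) (Nat.minFac_dvd _)) (hz.trans (Nat.le_ceil z))

theorem P3_ne (hz : w ≤ z) {k : ℕ} (h : ¬ Rough w k) : P3 z G₁ G₂ k = 0 := by
  refine sum_eq_zero fun x hx => ?_
  by_contra h0
  have h1 := right_ne_zero_of_mul h0
  split_ifs at h1
  · exact h ((Nat.mem_divisorsAntidiagonal.1 hx).1 ▸
      Rough.mono (Rough.mul (rt_ne (left_ne_zero_of_mul h0)).1 (rt_ne h1).1) hz)
  · exact h1 rfl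

theorem abs_sum_div {k : ℕ} {T S : ℝ} {g : ℕ → ℝ} (hw : Rough w k) (hT : tz w k ≤ T) (hS : 0 ≤ S)
    (hg : ∀ d ∈ k.divisors, |g d| ≤ S) : |∑ d ∈ k.divisors, g d| ≤ T * S := by
  refine (abs_sum_le_sum_abs _ _).trans ((sum_le_card_nsmul _ _ S hg).trans ?_)
  rw [nsmul_eq_mul, card_div hw]
  exact mul_le_mul_of_nonneg_right hT hS

theorem abs_P {k : ℕ} {T : ℝ} (hz : w ≤ z) (k0 : k ≠ 0) (hw : Rough w k) (hT : tz w k ≤ T)
    (hT1 : 1 ≤ T) (h1 : ∀ d, |F₁ d| ≤ B) (h2 : ∀ d, |F₂ d| ≤ B) (h3 : ∀ d, |G₁ d| ≤ B)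
    (h4 : ∀ d, |G₂ d| ≤ B) :
    |P1 w z L F₁ F₂ k + P2 w z L F₁ F₂ k - P3 z G₁ G₂ k| ≤ 3 * (T * (B * T) ^ 2) := by
  have hB := (abs_nonneg _).trans (h1 0)
  have hBT : B ≤ B * T := le_mul_of_one_le_right hB hT1
  have t : ∀ d, d ∣ k → B * tz z d ≤ B * T := fun d hd =>
    mul_le_mul_of_nonneg_left ((tz_mono k0 hd hz).trans hT) hB
  have a1 : |P1 w z L F₁ F₂ k| ≤ T * (B * T) ^ 2 := by
    rw [P1, if_pos hw]
    exact abs_sum_div hw hT (sq_nonneg _) fun d hd => (abs_lam h1 h2 d).trans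
      (pow_le_pow_left₀ (mul_nonneg hB (tz_nonneg _ _)) (t d (Nat.dvd_of_mem_divisors hd)) 2)
  have a2 : |P2 w z L F₁ F₂ k| ≤ T * (B * T) ^ 2 := by
    rw [P2, Nat.sum_divisorsAntidiagonal
      fun m N => if Rough (qq z N) m then alp z F₂ m * bet w z L F₁ N else 0]
    refine abs_sum_div hw hT (sq_nonneg _) fun d hd => ?_
    have hd1 := Nat.dvd_of_mem_divisors hd
    split_ifs
    · rw [abs_mul, sq]
      exact mul_le_mul ((abs_alp h2 d).trans (t d hd1))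
        ((abs_bet h1 _).trans (t _ (Nat.div_dvd_of_dvd hd1))) (abs_nonneg _) (hB.trans hBT)
    · simpa using sq_nonneg _
  have a3 : |P3 z G₁ G₂ k| ≤ T * (B * T) ^ 2 := by
    rw [P3, Nat.sum_divisorsAntidiagonal
      fun m n => rt z G₁ m * if Squarefree n then rt z G₂ n else 0]
    refine abs_sum_div hw hT (sq_nonneg _) fun d _ => ?_
    rw [abs_mul, sq]
    refine mul_le_mul ((abs_rt h3 d).trans hBT) ?_ (abs_nonneg _) (hB.trans hBT)
    split_ifs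
    · exact (abs_rt h4 _).trans hBT
    · simpa using hB.trans hBT
  have := abs_sub (P1 w z L F₁ F₂ k + P2 w z L F₁ F₂ k) (P3 z G₁ G₂ k)
  have := abs_add_le (P1 w z L F₁ F₂ k) (P2 w z L F₁ F₂ k)
  linarith

/-- one family of coefficients -/
theorem one {a b : ℕ → ℝ} {M D kb : ℕ} {WH D₂ lo Tz Tw E E₀ : ℝ}
    (hab : ∀ k, 1 ≤ k → 0 ≤ a k ∧ 0 ≤ b k ∧ (M < k → a k = 0 ∧ b k = 0))
    (hw : 1 < w) (hz : w ≤ z) (hM : z ≤ M) (hL : 1 ≤ L) (hW : L * z ≤ WH) (hk : 1 ≤ kb)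
    (hD : L * D₂ * w ^ kb ≤ D) (hTz : 1 ≤ Tz) (hTw : 1 ≤ Tw) (hE : 0 ≤ E) (hB : 0 < B)
    (tz1 : ∀ k ∈ Icc 1 (max M D), tz z k ≤ Tz) (tw1 : ∀ k ∈ Icc 1 M, tz w k ≤ Tw)
    (h1 : ∀ d, |F₁ d| ≤ B) (h2 : ∀ d, |F₂ d| ≤ B) (h3 : ∀ d, |G₁ d| ≤ B) (h4 : ∀ d, |G₂ d| ≤ B)
    (s1 : ∀ d, F₁ d ≠ 0 → (d : ℝ) ≤ WH) (s2 : ∀ d, F₂ d ≠ 0 → (d : ℝ) ≤ D₂)
    (s4 : ∀ d, G₂ d ≠ 0 → L ≤ d ∧ (d : ℝ) ≤ WH)
    (t1 : ∑ d ∈ Icc 1 D with Squarefree d, |∑ k ∈ Icc 1 M with d ∣ k, (a k - b k)| ≤ E)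
    (t2 : HII M (fun k => a k - b k) w L WH E)
    (t3 : ∑ d ∈ Icc 1 D with Squarefree d ∧ tiny w d = kb, ∑ k ∈ Icc 1 M with d ∣ k, b k ≤ E)
    (t4 : ∑ k ∈ Icc 1 M with Rough w k ∧ (¬ Squarefree k ∨ (k : ℝ) < lo), (a k + b k) ≤ E₀) :
    ∑ k ∈ (Icc 1 M : Finset ℕ) with Squarefree (k : ℕ) ∧ lo ≤ k, (if Rough z k then
      ∑ D ∈ k.divisors, ∑ x ∈ D.divisorsAntidiagonal, F₁ x.1 * F₂ x.2 -
        ∑ x ∈ k.divisorsAntidiagonal, G₁ x.1 * G₂ x.2 else 0) * (a k - b k) ≤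
      (Nat.log 2 M + 7) * ((B * Tz) ^ 2 * E) + 3 * (Tw * (B * Tw) ^ 2) * E₀ := by
  have hr : ∀ k, M < k → a k - b k = 0 := fun k h => by
    obtain ⟨q1, q2⟩ := (hab k (by omega)).2.2 h
    rw [q1, q2, sub_zero]
  have hA : 0 < B * Tz := mul_pos hB (one_pos.trans_le hTz)
  have hBT : B ≤ B * Tz := le_mul_of_one_le_right hB.le hTz
  have t : ∀ d ∈ Icc 1 (max M D), B * tz z d ≤ B * Tz := fun d hd =>
    mul_le_mul_of_nonneg_left (tz1 d hd) hB.le
  have tM : ∀ d ∈ Icc 1 M, d ∈ Icc 1 (max M D) := fun d hd => Icc_subset_Icc_right (le_max_left _ _) hd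
  have a1 := typeI (l := lam w z L F₁ F₂) (L := (B * Tz) ^ 2) hw.le (sq_nonneg _) hk
    (fun k h => ⟨(hab k h).1, (hab k h).2.1⟩) hD (fun d hd => by
      rcases Nat.eq_zero_or_pos d with rfl | d0
      · simpa [lam] using sq_nonneg (B * Tz)
      · exact (abs_lam h1 h2 d).trans (pow_le_pow_left₀ (mul_nonneg hB.le (tz_nonneg _ _))
          (t d (mem_Icc.2 ⟨d0, hd.trans (le_max_right _ _)⟩)) 2))
    (fun d => lam_ne s2) t1 t3
  have a2 := typeII' (α := alp z F₂) (β := bet w z L F₁) t2 hr hA hM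
    (fun m hm => (abs_alp h2 m).trans (t m (tM m hm)))
    (fun m hm => (abs_bet h1 m).trans (t m (tM m hm)))
    fun n => bet_ne (zero_le_one.trans hL) hW s1
  have a3 := typeII (α := rt z G₁) (β := fun n => if Squarefree n then rt z G₂ n else 0) t2 hr hA
    (fun _ => 0) (fun _ => 0) (fun m _ => (abs_rt h3 m).trans hBT) (fun n _ => by
      split_ifs
      · exact (abs_rt h4 n).trans hBT
      · simpa using hA.le) fun n hn => by
      split_ifs at hn with q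
      · exact ⟨q, Rough.mono (rt_ne hn).1 hz, s4 n (rt_ne hn).2⟩
      · exact absurd rfl hn
  simp only [if_true] at a3
  have a4 := neg_le_of_abs_le a3
  have a5 := mul_le_mul_of_nonneg_left t4
    (show 0 ≤ 3 * (Tw * (B * Tw) ^ 2) by have := zero_le_one.trans hTw; positivity)
  have a6 : ∑ k ∈ (Icc 1 M : Finset ℕ) with Squarefree (k : ℕ) ∧ lo ≤ k, (if Rough z k then
      ∑ D ∈ k.divisors, ∑ x ∈ D.divisorsAntidiagonal, F₁ x.1 * F₂ x.2 -
        ∑ x ∈ k.divisorsAntidiagonal, G₁ x.1 * G₂ x.2 else 0) * (a k - b k) ≤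
      ∑ k ∈ Icc 1 M, (P1 w z L F₁ F₂ k * (a k - b k) + P2 w z L F₁ F₂ k * (a k - b k) -
        P3 z G₁ G₂ k * (a k - b k)) + 3 * (Tw * (B * Tw) ^ 2) *
        ∑ k ∈ Icc 1 M with Rough w k ∧ (¬ Squarefree k ∨ (k : ℝ) < lo), (a k + b k) := by
    rw [sum_filter, sum_filter, mul_sum, ← sum_add_distrib]
    refine sum_le_sum fun k hk' => ?_
    have k1 := (mem_Icc.1 hk').1
    rw [← add_mul, ← sub_mul]
    by_cases c1 : Rough w k
    · by_cases c2 : Squarefree k ∧ lo ≤ k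
      · have c3 : ¬ (Rough w k ∧ (¬ Squarefree k ∨ (k : ℝ) < lo)) := fun q =>
          q.2.elim (fun u => u c2.1) fun u => not_lt.2 c2.2 u
        rw [if_pos c2, if_neg c3, ident hL c2.1 c1, ident3 c2.1]
        split_ifs <;> simp
      · rw [if_neg c2, if_pos ⟨c1, (not_and_or.1 c2).imp_right not_le.1⟩]
        have c3 : |a k - b k| ≤ a k + b k := by
          have := hab k k1
          rw [abs_le]
          constructor <;> linarith
        have c4 := abs_P (L := L) hz (by omega) c1 (tw1 k hk') hTw h1 h2 h3 h4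
        have c5 := mul_le_mul c4 c3 (abs_nonneg _) ((abs_nonneg _).trans c4)
        rw [← abs_mul] at c5
        linarith [neg_le_of_abs_le c5]
    · have c2 : ¬ Rough z k := fun q => c1 (Rough.mono q hz)
      rw [P2_ne hL hz c1, P3_ne hz c1, P1]
      simp [c1, c2]
  rw [sum_sub_distrib, sum_add_distrib] at a6
  simp only [P1, P2, P3] at a6
  linarith

end S1

theorem s1 : S1Stmt := by
  intro a b M D B kb w z WL WH D₂ lo Tz Tw E E₀ f₁ f₂ g₁ g₂ hab hw hz hM hL _ hW hk hD hTz hTw hE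
    tz1 tw1 hO hP t1 t2 t3 t4
  have hE₀ : 0 ≤ E₀ := (sum_nonneg fun k hk' => by
    have := hab k (mem_Icc.1 (mem_filter.1 hk').1).1
    linarith).trans t4
  have a1 : ∑ p ∈ (Icc 1 M : Finset ℕ) with Nat.Prime p ∧ lo ≤ p, a p ≤
      ∑ k ∈ (Icc 1 M : Finset ℕ) with Squarefree (k : ℕ) ∧ lo ≤ k, Psi z B f₁ f₂ g₁ g₂ k * a k := by
    rw [sum_filter, sum_filter]
    refine sum_le_sum fun k hk' => ?_
    have h0 := (hab k (mem_Icc.1 hk').1).1
    by_cases c : Squarefree k ∧ lo ≤ k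
    · have := mul_le_mul_of_nonneg_right (hP k hk' c.1 c.2) h0
      rw [if_pos c]
      refine le_trans ?_ this
      by_cases c1 : k.Prime <;> simp [c1, c.2]
    · rw [if_neg c, if_neg fun q => c ⟨q.1.prime.squarefree, q.2⟩]
  have a2 : ∑ k ∈ (Icc 1 M : Finset ℕ) with Squarefree (k : ℕ) ∧ lo ≤ k, Psi z B f₁ f₂ g₁ g₂ k * (a k - b k) ≤
      B * ((Nat.log 2 M + 7) * ((B * Tz) ^ 2 * E) + 3 * (Tw * (B * Tw) ^ 2) * E₀) := by
    have e : ∀ k, Psi z B f₁ f₂ g₁ g₂ k * (a k - b k) = ∑ j ∈ range B, (if Rough z k then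
        ∑ D ∈ k.divisors, ∑ x ∈ D.divisorsAntidiagonal, f₁ j x.1 * f₂ j x.2 -
          ∑ x ∈ k.divisorsAntidiagonal, g₁ j x.1 * g₂ j x.2 else 0) * (a k - b k) := fun k => by
      rw [Psi, ← sum_mul]
      split_ifs <;> simp
    simp only [e]
    rw [sum_comm]
    refine (sum_le_card_nsmul _ _ _ fun j hj => S1.one hab hw hz hM hL hW hk hD hTz hTw hE
      (Nat.cast_pos.2 (by rw [mem_range] at hj; omega)) tz1 tw1 (fun d => (hO j d).1)
      (fun d => (hO j d).2.1) (fun d => (hO j d).2.2.1) (fun d => (hO j d).2.2.2.1)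
      (fun d => (hO j d).2.2.2.2.1) (fun d => (hO j d).2.2.2.2.2.1)
      (fun d => (hO j d).2.2.2.2.2.2) t1 t2 t3 t4).trans ?_
    rw [card_range, nsmul_eq_mul]
  simp only [mul_sub, sum_sub_distrib] at a2
  have p1 : 0 ≤ (B : ℝ) ^ 3 * Tz ^ 2 * E := by positivity
  have p2 : 0 ≤ (B : ℝ) ^ 3 * Tz ^ 2 * E * Nat.log 2 M := by positivity
  have p3 : 0 ≤ (B : ℝ) ^ 3 * Tw ^ 3 * E₀ := by have := zero_le_one.trans hTw; positivity
  linarith

end Pool.Agent.Lib.MP_4b1228_nt.PP
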