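import Pool.Agent.Lib.MP_4b1228_nt.PP.T2e

/-!
Type II information.
-/

open Finset Real Filter
open scoped Classical

noncomputable section

namespace Pool.Agent.Lib.MP_4b1228_nt.PP

namespace T2

lemma ev_exp (K : ℝ) (n : ℕ) : ∀ᶠ t : ℝ in atTop, K * t ^ n ≤ exp t := by
  filter_upwards [(tendsto_exp_div_pow_atTop n).eventually_ge_atTop K, eventually_gt_atTop 0]
    with t h h0
  rwa [le_div_iff₀ (by positivity)] at h

lemma ii_bd {X Λ C P : ℝ} {f : ℝ → ℝ} (hX : 3 ≤ X)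
    (hP : C * Λ * log X ≤ P ^ 2)
    (h : ∀ v : ℝ, 0 < v → 0 ≤ II f v ∧
      II f v ≤ C * Λ * log X * √(X * v) ∧ (2 * X < v → II f v = 0) ∧
      ∀ v' : ℝ, 0 < v' → |log (v / v')| ≤ 1 →
        |II f v - II f v'| ≤ |log (v / v')| * (C * Λ * log X * √(X * v))) (v : ℝ) (hv : 0 < v) :
    0 ≤ II f v ∧ II f v ≤ 2 * P ^ 2 * X ∧ ∀ v' : ℝ, 0 < v' →
      |log (v / v')| ≤ 1 → |II f v - II f v'| ≤ |log (v / v')| * (3 * P ^ 2 * X) := by
  have L0 : 0 ≤ log X := log_nonneg (by linarith)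
  have key : ∀ a : ℝ, 0 ≤ a → v ≤ a ^ 2 * X → C * Λ * log X * √(X * v) ≤ a * P ^ 2 * X :=
    fun a ha hv' => by
      have : √(X * v) ≤ a * X := sqrt_le_iff.2 ⟨by positivity, by nlinarith⟩
      calc _ ≤ P ^ 2 * (a * X) := by gcongr
        _ = _ := by ring
  obtain ⟨h0, h1, h2, h3⟩ := h v hv
  refine ⟨h0, ?_, fun v' hv' hl => ?_⟩
  · rcases le_or_gt v (2 * X) with c | c
    · exact h1.trans (key 2 (by norm_num) (by linarith))
    · rw [h2 c]; positivity
  · rcases le_or_gt v (9 * X) with c | c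
    · exact (h3 v' hv' hl).trans 
        (mul_le_mul_of_nonneg_left (key 3 (by norm_num) (by linarith)) (abs_nonneg _))
    · have h4 : v / v' ≤ exp 1 := by
        rw [← log_le_iff_le_exp (by positivity)]; exact (le_abs_self _).trans hl
      rw [div_le_iff₀ hv'] at h4
      have h5 := exp_one_lt_d9
      rw [h2 (by linarith), (h v' hv').2.2.1 (by nlinarith), sub_zero, abs_zero]
      positivity

end T2

/-- The strong form. -/
def T2SStmt : Prop :=
  ∀ (A : ℕ) (η δ : ℝ), 0 < η → η ≤ 1 → 0 < δ →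
    ∀ᶠ X : ℝ in atTop, ∀ f : ℝ → ℝ, Adm X (log X ^ A) f → E2 X η δ f →
      ∀ Y : ℝ, 1 / X ≤ Y → Y ≤ X ^ (η / 8) → ∀ (α β : ℕ → ℝ) (u v : ℕ → ℕ),
        (∀ m, |α m| ≤ 1) → (∀ n, |β n| ≤ 1) →
        (∀ n, β n ≠ 0 → Squarefree n ∧ Rough (wX X) n ∧ X ^ η ≤ n * Y ∧
          (n : ℝ) ^ 3 ≤ Y * X ^ (1 - 2 * η)) →
        |bil (KM X Y) (fun k => sA f Y k - sB f Y k) α β u v| ≤ X * exp (-√(log X))

open T2 in
theorem T2.core (hR : RhoStmt) (hG : GeoStmt) (h1 : I1Stmt) (h2 : I2Stmt) (A : ℕ) {η δ : ℝ}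
    (hη : 0 < η) (hδ : 0 < δ) :
    ∀ᶠ X : ℝ in atTop, ∀ f : ℝ → ℝ, Adm X (log X ^ A) f → E2 X η δ f →
      ∀ Y : ℝ, 1 / X ≤ Y → Y ≤ X → 16 * (Y + 1) ^ 4 ≤ X ^ η → ∀ (α β : ℕ → ℝ) (u v : ℕ → ℕ),
        (∀ m, |α m| ≤ 1) → (∀ n, |β n| ≤ 1) →
        (∀ n, β n ≠ 0 → Squarefree n ∧ Rough (wX X) n ∧ X ^ η ≤ n * Y ∧
          (n : ℝ) ^ 3 ≤ Y * X ^ (1 - 2 * η)) →
        |bil (KM X Y) (fun k => sA f Y k - sB f Y k) α β u v| ≤
          X * exp (-(log X ^ (2 / 3 : ℝ) / 16)) := by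
  obtain ⟨C₁, hC₁, h1⟩ := h1
  obtain ⟨C₂, hC₂, h2⟩ := h2
  have ht : Tendsto (fun X : ℝ => log X ^ (1 / 3 : ℝ)) atTop atTop :=
    (tendsto_rpow_atTop (by norm_num)).comp tendsto_log_atTop
  filter_upwards [ht.eventually (ev_exp 1 (3 * A)), ht.eventually (ev_exp C₁ 3),
    ht.eventually (ev_exp C₂ 6), ht.eventually (ev_exp 144 6), ht.eventually (ev_exp 50 0),
    ht.eventually_ge_atTop 896, ht.eventually_ge_atTop (2 / η), ht.eventually_ge_atTop (2 / δ),
    eventually_ge_atTop 3] with X a1 a2 a3 a4 a5 a6 a7 a8 hX f hf hE Y hY hY1 hY2 α β u v hα hβ hb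
  have X0 : 0 < X := by linarith
  have L0 : 0 ≤ log X := log_nonneg (by linarith)
  set t := log X ^ (1 / 3 : ℝ) with htd
  have t1 : 1 ≤ t := by linarith
  have t3 : log X = t ^ 3 := by
    rw [htd, ← rpow_natCast, ← rpow_mul L0]; norm_num
  have t2 : log X ^ (2 / 3 : ℝ) = t ^ 2 := by
    rw [htd, ← rpow_natCast, ← rpow_mul L0]; norm_num
  have L1 : 1 ≤ log X := by rw [t3]; exact one_le_pow₀ t1
  set s := exp (t ^ 2 / 8) with hs
  have sp : ∀ k : ℕ, s ^ k = exp (k * (t ^ 2 / 8)) := fun k => (exp_nat_mul _ k).symm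
  have w : wX X = s ^ 8 := by rw [wX, t2, sp]; congr 1; push_cast; ring
  have Xp : ∀ e : ℝ, X ^ e = exp (t ^ 3 * e) := fun e => by rw [rpow_def_of_pos X0, t3]
  set P := exp (11 * t) with hP
  have tP : exp t ≤ P := exp_le_exp.2 (by linarith)
  have P1 : 1 ≤ P := one_le_exp (by linarith)
  have lA : log X ^ A ≤ P := by rw [t3, ← pow_mul]; linarith
  have lA0 : 0 ≤ log X ^ A := by positivity
  have l6 : log X ^ 2 = t ^ 6 := by rw [t3]; ring
  obtain ⟨k1, -, k3, k4⟩ := h2 X hX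
  obtain ⟨k5, k6, k7, -⟩ := k4 _ f hf
  have e2 : (2 : ℝ) ≤ exp 1 := by have := add_one_le_exp (1 : ℝ); linarith
  have c : Ctx X P s f := by
    refine ⟨hX, e2.trans (exp_le_exp.2 (by nlinarith)), P1, hf.nonneg,
      ii_bd (C := C₁) (Λ := log X ^ A) hX ?_ fun v hv => ((h1 X _ f hX hf).1 v hv).2, fun Y M B hY => ?_,
      fun r r' hr hr' h => ?_, fun Y k l hY hk h => ?_, fun Y m hY hm => (k7 Y m hY hm).trans ?_,
      fun Y m hY hm => (k6 Y m hY (by omega)).2.2.2.1 hm, fun m hm hm' => ?_⟩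
    · have : C₁ * log X ≤ P := by rw [t3]; linarith
      calc _ = C₁ * log X * log X ^ A := by ring
        _ ≤ P * P := by gcongr
        _ = _ := by ring
    · refine (sum_Pt_le M B (fun m l => maj X (hd (l / m) (1 / m) Y)) (fun _ _ _ => maj_nonneg _ _)
        fun m hm => k3 Y m hY (mem_Icc.1 hm).1).trans ((k1 Y M hY).trans ?_)
      have : C₂ * log X ^ 2 ≤ P := by rw [l6]; linarith
      calc _ = C₂ * log X ^ 2 * X := by ring
        _ ≤ _ := by gcongr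
    · have := maj_nonneg X r
      exact ⟨(k5 r r' hr hr' h).1.trans (by gcongr), (k5 r r' hr hr' h).2.trans (by gcongr)⟩
    · obtain ⟨b1, b2, -⟩ := (k6 Y k hY hk).2.2.2.2 l h
      exact ⟨b1, b2⟩
    · have b1 : C₂ * log X ≤ C₂ * log X ^ 2 := by gcongr; nlinarith
      have b2 : C₂ * log X ≤ P := by rw [l6] at b1; linarith
      gcongr ?_ * _ * _
      calc _ = C₂ * log X * log X ^ A := by ring
        _ ≤ P * P := by gcongr
        _ = _ := by ring
    · have m0 : (0 : ℝ) < m := by exact_mod_cast hm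
      have b0 := log_natCast_nonneg m
      have b1 : log m ≤ 11 * log X := by
        have := log_le_log m0 hm'
        rwa [log_pow] at this
      have b2 : (12 * log X) ^ 2 ≤ P := by rw [mul_pow, l6]; linarith
      refine ⟨(hR.2.2.2.2.2.2.2.2.2.2.2 _ m ?_ hm).trans ?_, (omega_le hm).trans (by nlinarith),
        le_trans (by gcongr; linarith) b2⟩
      · rw [sp]; exact one_lt_exp_iff.2 (by positivity)
      · rw [sp, log_exp, rpow_def_of_pos two_pos]
        refine exp_le_exp.2 ?_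
        have b3 : log m / ((8 : ℕ) * (t ^ 2 / 8)) ≤ 11 * t := by
          rw [div_le_iff₀ (by positivity)]
          push_cast
          nlinarith
        have b4 : 0 ≤ log m / ((8 : ℕ) * (t ^ 2 / 8)) := by positivity
        have := log_two_lt_d9
        nlinarith
  have tt : 0 < t ^ 2 := by positivity
  refine (expl hR hG c hE ?_ ?_ hY hY1 hY2 α β u v hα hβ (by rw [← w]; exact hb)).trans ?_
  · rw [sp, Xp]
    rw [div_le_iff₀ hδ] at a8
    refine exp_le_exp.2 ?_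
    push_cast
    nlinarith
  · rw [sp, Xp]
    rw [div_le_iff₀ hη] at a7
    calc _ ≤ exp 1 * exp ((10 : ℕ) * (t ^ 2 / 8)) := by gcongr
      _ ≤ _ := by
        rw [← exp_add]
        refine exp_le_exp.2 ?_
        push_cast
        nlinarith
  · rw [div_le_iff₀ (exp_pos _), t2, mul_assoc X, ← exp_add]
    have b1 : exp t * P ^ 5 ≤ exp (-(t ^ 2 / 16) + t ^ 2 / 8) := by
      rw [hP, ← exp_nat_mul, ← exp_add]
      refine exp_le_exp.2 ?_
      push_cast
      nlinarith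
    calc _ = X * (50 * t ^ 0 * P ^ 5) := by ring
      _ ≤ X * (exp t * P ^ 5) := by gcongr
      _ ≤ _ := by gcongr

theorem t2s (hR : RhoStmt) (hG : GeoStmt) (h1 : I1Stmt) (h2 : I2Stmt) : T2SStmt := by
  intro A η δ hη hη1 hδ
  filter_upwards [T2.core hR hG h1 h2 A hη hδ, eventually_ge_atTop 1,
    (tendsto_rpow_atTop (half_pos hη)).eventually_ge_atTop 256,
    ((tendsto_rpow_atTop (by norm_num : (0 : ℝ) < 1 / 6)).comp
      tendsto_log_atTop).eventually_ge_atTop 16] with X h hX a1 a2 f hf hE Y hY hY1 α β u v hα hβ hb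
  have X0 : 0 < X := by linarith
  have Y0 : 0 < Y := lt_of_lt_of_le (by positivity) hY
  have L0 := log_nonneg hX
  have b1 : 1 ≤ X ^ (η / 8) := one_le_rpow hX (by positivity)
  refine (h f hf hE Y hY (hY1.trans ?_) ?_ α β u v hα hβ hb).trans ?_
  · simpa using rpow_le_rpow_of_exponent_le hX (by linarith : η / 8 ≤ 1)
  · have e1 : (X ^ (η / 8)) ^ 4 = X ^ (η / 2) := by
      rw [← rpow_natCast, ← rpow_mul X0.le]; ring_nf
    have e2 : X ^ η = X ^ (η / 2) * X ^ (η / 2) := by rw [← rpow_add X0]; ring_nf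
    calc _ ≤ 16 * (2 * X ^ (η / 8)) ^ 4 := by gcongr; linarith
      _ = 256 * X ^ (η / 2) := by rw [mul_pow, e1]; ring
      _ ≤ _ := by rw [e2]; gcongr
  · have e : log X ^ (2 / 3 : ℝ) = log X ^ (1 / 6 : ℝ) * √(log X) := by
      rw [sqrt_eq_rpow, ← rpow_add' L0 (by norm_num)]; norm_num
    have a3 : 16 ≤ log X ^ (1 / 6 : ℝ) := a2
    have := sqrt_nonneg (log X)
    gcongr
    rw [e]
    nlinarith

theorem t2 (hR : RhoStmt) (hG : GeoStmt) (h1 : I1Stmt) (h2 : I2Stmt) : T2Stmt := by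
  intro A B η δ hη hδ
  have ht : Tendsto (fun X : ℝ => log X ^ (1 / 3 : ℝ)) atTop atTop :=
    (tendsto_rpow_atTop (by norm_num)).comp tendsto_log_atTop
  filter_upwards [T2.core hR hG h1 h2 A hη hδ, eventually_ge_atTop 1,
    (tendsto_rpow_atTop hη).eventually_ge_atTop 256, ht.eventually (T2.ev_exp 1 (3 * B)),
    ht.eventually_ge_atTop 16] with X h hX a1 a2 a3 f hf hE Y hY hY1 α β u v hα hβ hb
  have X0 : 0 < X := by linarith
  have Y0 : 0 < Y := lt_of_lt_of_le (by positivity) hY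
  have L0 := log_nonneg hX
  refine (h f hf hE Y hY (hY1.trans hX) ?_ α β u v hα hβ hb).trans ?_
  · calc _ ≤ 16 * (1 + 1 : ℝ) ^ 4 := by gcongr
      _ ≤ _ := by linarith
  · set t := log X ^ (1 / 3 : ℝ) with htd
    have t3 : log X = t ^ 3 := by
      rw [htd, ← rpow_natCast, ← rpow_mul L0]; norm_num
    have t2 : log X ^ (2 / 3 : ℝ) = t ^ 2 := by
      rw [htd, ← rpow_natCast, ← rpow_mul L0]; norm_num
    rw [t2, exp_neg, ← div_eq_mul_inv, t3, ← pow_mul]
    gcongr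
    exact (by linarith : t ^ (3 * B) ≤ exp t).trans (exp_le_exp.2 (by nlinarith))

end Pool.Agent.Lib.MP_4b1228_nt.PP
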