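import Pool.Agent.Lib.MP_4b1228_nt.PP.Rho
import Pool.Agent.Lib.MP_4b1228_nt.PP.PP
import Pool.Agent.Lib.MP_4b1228_nt.PP.RS
import Pool.Agent.Lib.MP_4b1228_nt.PP.Mert
import Pool.Agent.Lib.MP_4b1228_nt.PP.Geo
import Pool.Agent.Lib.MP_4b1228_nt.PP.K1
import Pool.Agent.Lib.MP_4b1228_nt.PP.K2
import Pool.Agent.Lib.MP_4b1228_nt.PP.K3
import Pool.Agent.Lib.MP_4b1228_nt.PP.K4
import Pool.Agent.Lib.MP_4b1228_nt.PP.K5
import Pool.Agent.Lib.MP_4b1228_nt.PP.K6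
import Pool.Agent.Lib.MP_4b1228_nt.PP.K7
import Pool.Agent.Lib.MP_4b1228_nt.PP.K8
import Pool.Agent.Lib.MP_4b1228_nt.PP.K9
import Pool.Agent.Lib.MP_4b1228_nt.PP.K10
import Pool.Agent.Lib.MP_4b1228_nt.PP.I1
import Pool.Agent.Lib.MP_4b1228_nt.PP.I2
import Pool.Agent.Lib.MP_4b1228_nt.PP.I3
import Pool.Agent.Lib.MP_4b1228_nt.PP.B1
import Pool.Agent.Lib.MP_4b1228_nt.PP.Pack
import Pool.Agent.Lib.MP_4b1228_nt.PP.T0
import Pool.Agent.Lib.MP_4b1228_nt.PP.T1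
import Pool.Agent.Lib.MP_4b1228_nt.PP.T2
import Pool.Agent.Lib.MP_4b1228_nt.PP.Sel
import Pool.Agent.Lib.MP_4b1228_nt.PP.S1
import Pool.Agent.Lib.MP_4b1228_nt.PP.Cell
import Pool.Agent.Lib.MP_4b1228_nt.PP.Final

/-!
All blocks of the analytic part, without hypotheses.
-/

namespace Pool.Agent.Lib.MP_4b1228_nt.PP.Eng

theorem rho' : RhoStmt := rhoS
theorem pp' : PPStmt := ppS rhoS
theorem rs' : RSStmt := rsS rhoS
theorem mert' : MertStmt := mertS rhoS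
theorem geo' : GeoStmt := geoS
theorem k3' : K3Stmt := k3 geoS k1
theorem k4' : K4Stmt := k4 geoS k1
theorem k5' : K5Stmt := k5 geoS
theorem k7' : K7Stmt := k7 rhoS
theorem k8' : K8Stmt := k8 geoS
theorem k6' : K6Stmt := k6 geoS k1 k2 k4' k5' k7'
theorem k9' : K9Stmt := k9 rhoS geoS k1 k2 k6' k7' k8'
theorem k10' : K10Stmt := k10 rhoS geoS k1 k2 k6' k7' k8'
theorem i1' : I1Stmt := i1 geoS
theorem i2' : I2Stmt := i2 rhoS geoS
theorem i3' : I3Stmt := i3 geoS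
theorem b1' : B1Stmt := b1 rhoS i1'
theorem pack' : PackStmt := pack geoS k2 k3' k9' k10' i2'
theorem t0' : T0Stmt := t0 rhoS i1' i2'
theorem t1' : T1Stmt := t1 rhoS i2' b1'
theorem t2' : T2Stmt := t2 rhoS geoS i1' i2'
theorem sel' : SelStmt := sel rhoS
theorem cell' : CellStmt := cellS rhoS rs' i1' i2' t1' t2' t0' s1

/-- The certificate implies the theorem. -/
theorem finalS : FinalStmt := final rhoS pp' rs' mert' i2' i3' pack' t1' t0' sel' cell'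

end Pool.Agent.Lib.MP_4b1228_nt.PP.Eng
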