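import Pool.Agent.Lib.MP_4b1228_nt.PP.St

/-!
Method of Chebyshev and Hooley: the elementary parts.
-/

open Finset Real Filter UpperHalfPlane MeasureTheory
open scoped MatrixGroups Classical

noncomputable section

namespace Pool.Agent.Lib.MP_4b1228_nt.PP.Fz

theorem small (C : ℝ) (n : ℕ) {θ : ℝ} (hθ : 0 < θ) :
    ∀ᶠ X : ℝ in atTop, C * log X ^ n * X ^ (1 - θ) ≤ X := by
  have h := (isLittleO_log_rpow_rpow_atTop (n : ℝ) hθ).bound (c := 1 / (|C| + 1)) (by positivity)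
  filter_upwards [h, eventually_ge_atTop (1 : ℝ)] with X hX h1
  have h0 : 0 < X := by linarith
  have hl : 0 ≤ log X := log_nonneg h1
  rw [rpow_natCast, Real.norm_of_nonneg (by positivity), Real.norm_of_nonneg (by positivity)] at hX
  have e : X ^ θ * X ^ (1 - θ) = X := by rw [← rpow_add h0]; simp
  have hp : 0 ≤ X ^ (1 - θ) := by positivity
  have h2 : C * log X ^ n ≤ X ^ θ := by
    have : C * log X ^ n ≤ (|C| + 1) * log X ^ n := by
      gcongr; linarith [le_abs_self C]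
    have h3 : (|C| + 1) * log X ^ n ≤ (|C| + 1) * (1 / (|C| + 1) * X ^ θ) := by gcongr
    have h4 : (|C| + 1) * (1 / (|C| + 1) * X ^ θ) = X ^ θ := by field_simp
    linarith
  calc C * log X ^ n * X ^ (1 - θ) ≤ X ^ θ * X ^ (1 - θ) := by gcongr
    _ = X := e

theorem big (C : ℝ) {a b : ℝ} (h : a < b) : ∀ᶠ X : ℝ in atTop, C * X ^ a ≤ X ^ b := by
  filter_upwards [(tendsto_rpow_atTop (sub_pos.2 h)).eventually_ge_atTop C,
    eventually_gt_atTop (0 : ℝ)] with X hX h0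
  have e : X ^ (b - a) * X ^ a = X ^ b := by rw [← rpow_add h0]; simp
  rw [← e]
  gcongr

/-- The even integers of size between `L₀` and `X`. -/
def LL (X L₀ : ℝ) : Finset ℤ :=
  {l ∈ (Icc (-⌈X⌉) ⌈X⌉ : Finset ℤ) | (2 : ℤ) ∣ l ∧ L₀ ≤ |(l : ℝ)|}

theorem Itot_nonneg {X Λ : ℝ} {f : ℝ → ℝ} (h : Adm X Λ f) : 0 ≤ Itot f :=
  integral_nonneg fun _ => integral_nonneg fun _ => h.nonneg _

theorem cls {X L₀ B : ℝ} {W : ℤ → ℝ} (hW : ∀ l, 0 ≤ W l) {q : ℕ}
    (h : ∀ r : ℤ, ∑ l ∈ (Icc (-⌈X⌉) ⌈X⌉ : Finset ℤ) with (q : ℤ) ∣ l - r ∧ L₀ ≤ |(l : ℝ)|,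
      W l ≤ B)
    {T : Finset ℤ} (hT : T ⊆ LL X L₀) (R : Finset ℤ) (hR : ∀ l ∈ T, ∃ r ∈ R, (q : ℤ) ∣ l - r) :
    ∑ l ∈ T, W l ≤ #R * B := by
  calc ∑ l ∈ T, W l ≤ ∑ l ∈ T, ∑ r ∈ R, if (q : ℤ) ∣ l - r then W l else 0 := by
        refine sum_le_sum fun l hl => ?_
        obtain ⟨r, hr, hd⟩ := hR l hl
        have := single_le_sum (f := fun r => if (q : ℤ) ∣ l - r then W l else 0)
          (fun r _ => by split_ifs; exacts [hW l, le_rfl]) hr
        simpa [hd] using this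
    _ = ∑ r ∈ R, ∑ l ∈ T with (q : ℤ) ∣ l - r, W l := by
        rw [sum_comm]; simp only [sum_filter]
    _ ≤ ∑ r ∈ R, B := by
        refine sum_le_sum fun r _ => le_trans ?_ (h r)
        refine sum_le_sum_of_subset_of_nonneg ?_ fun l _ _ => hW l
        intro l hl
        rw [mem_filter] at hl ⊢
        have := mem_filter.1 (hT hl.1)
        exact ⟨this.1, hl.2, this.2.2⟩
    _ = #R * B := by simp

theorem sqrt_div {X θ : ℝ} (h0 : 0 < X) : √(X / X ^ (1 - θ)) = X ^ (θ / 2) := by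
  rw [sqrt_eq_rpow, ← rpow_one X, ← rpow_mul h0.le, ← rpow_sub h0, ← rpow_mul h0.le,
    ← rpow_mul h0.le]
  congr 1; ring

theorem sqrt_mul' {X θ : ℝ} (h0 : 0 < X) : √(X * X ^ (1 - θ)) = X ^ (1 - θ / 2) := by
  rw [sqrt_eq_rpow, ← rpow_one X, ← rpow_mul h0.le, ← rpow_add h0, ← rpow_mul h0.le,
    ← rpow_mul h0.le]
  congr 1; ring

/-- Lower bound for the weighted sum of `log (l ^ 2 + 1)`. -/
theorem low (hI3 : I3Stmt) (A : ℕ) {θ : ℝ} (h0 : 0 < θ) (h1 : θ ≤ 1 / 2) :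
    ∀ᶠ X : ℝ in atTop, ∀ f : ℝ → ℝ, Adm X (log X ^ A) f →
      (1 - θ) * log X * Itot f - X ≤
        ∑ l ∈ LL X (X ^ (1 - θ)), WW f l * log ((l : ℝ) ^ 2 + 1) := by
  obtain ⟨C, hC, H⟩ := hI3
  filter_upwards [small (2 * C) (A + 3) (half_pos h0), eventually_ge_atTop (3 : ℝ),
    (tendsto_rpow_atTop (show 0 < 1 - θ by linarith)).eventually_ge_atTop 2] with X hs h3 h2 f hf
  have hX : 0 < X := by linarith
  have hl : 0 ≤ log X := log_nonneg (by linarith)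
  obtain ⟨hW, -, -, h4⟩ := H X _ f h3 hf
  have hle : X ^ (1 - θ) ≤ X := by
    calc X ^ (1 - θ) ≤ X ^ (1 : ℝ) := rpow_le_rpow_of_exponent_le (by linarith) (by linarith)
      _ = X := rpow_one X
  have h5 := h4 _ h2 hle
  rw [sqrt_mul' hX] at h5
  have h6 : 2 * (1 - θ) * log X * ∑ l ∈ LL X (X ^ (1 - θ)), WW f l ≤
      ∑ l ∈ LL X (X ^ (1 - θ)), WW f l * log ((l : ℝ) ^ 2 + 1) := by
    rw [mul_sum]
    refine sum_le_sum fun l hl' => ?_
    rw [mul_comm]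
    refine mul_le_mul_of_nonneg_left ?_ (hW l).1
    have h7 : X ^ (1 - θ) ≤ |(l : ℝ)| := (mem_filter.1 hl').2.2
    have h8 : (X ^ (1 - θ)) ^ 2 ≤ (l : ℝ) ^ 2 + 1 := by
      have : (X ^ (1 - θ)) ^ 2 ≤ |(l : ℝ)| ^ 2 := by gcongr
      rw [sq_abs] at this; linarith
    calc 2 * (1 - θ) * log X = log ((X ^ (1 - θ)) ^ 2) := by
          rw [log_pow, log_rpow hX]; push_cast; ring
      _ ≤ _ := log_le_log (by positivity) h8
  refine le_trans ?_ h6
  have h9 : 0 ≤ 2 * (1 - θ) * log X := by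
    have : 0 ≤ 1 - θ := by linarith
    positivity
  refine le_trans ?_ (mul_le_mul_of_nonneg_left h5 h9)
  have h10 : 0 ≤ C * log X ^ (A + 3) * X ^ (1 - θ / 2) := by positivity
  have e : 2 * (1 - θ) * log X * (Itot f / 2 - C * log X ^ A * log X ^ 2 * X ^ (1 - θ / 2)) =
      (1 - θ) * log X * Itot f - 2 * (1 - θ) * (C * log X ^ (A + 3) * X ^ (1 - θ / 2)) := by ring
  rw [e]
  nlinarith

/-- The contribution of the small prime powers. -/
theorem sm (hRho : RhoStmt) (hM : MertStmt) (hI3 : I3Stmt) (A : ℕ) {θ ε : ℝ} (h0 : 0 < θ)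
    (h1 : θ ≤ 1 / 4) (hε : 0 < ε) (hε1 : ε ≤ 1) :
    ∀ᶠ X : ℝ in atTop, ∀ f : ℝ → ℝ, Adm X (log X ^ A) f →
      ∑ l ∈ LL X (X ^ (1 - θ)), WW f l *
        ∑ k ∈ (Icc 1 ⌊X ^ (1 - 2 * θ)⌋₊ : Finset ℕ) with ((k : ℕ) : ℤ) ∣ l ^ 2 + 1,
          ArithmeticFunction.vonMangoldt k ≤ (1 + ε) * log X * Itot f / 2 + X := by
  obtain ⟨C, hC, H⟩ := hI3
  obtain ⟨y₀, hy₀, hy⟩ := hM ε hε
  filter_upwards [small (2 * C) (A + 3) h0, eventually_ge_atTop (3 : ℝ),
    (tendsto_rpow_atTop (show 0 < 1 - 2 * θ by linarith)).eventually_ge_atTop y₀,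
    big 2 (show 1 - 2 * θ < 1 - θ by linarith)] with X hs h3 h2 hb f hf
  have hX : 0 < X := by linarith
  have hl : 0 ≤ log X := log_nonneg (by linarith)
  have hI := Itot_nonneg hf
  obtain ⟨hW, -, h4, -⟩ := H X _ f h3 hf
  have hle : X ^ (1 - θ) ≤ X := by
    calc X ^ (1 - θ) ≤ X ^ (1 : ℝ) := rpow_le_rpow_of_exponent_le (by linarith) (by linarith)
      _ = X := rpow_one X
  set P := X ^ (1 - 2 * θ) with hP
  have hP0 : 0 < P := by positivity
  set E := C * log X ^ A * log X ^ 2 * X ^ (θ / 2) with hE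
  have hE0 : 0 ≤ E := by positivity
  have hm := (hy P P h2 le_rfl).2.2
  have hlP : log P ≤ log X := by
    rw [hP, log_rpow hX]; nlinarith
  have hlP0 : 0 ≤ log P := log_nonneg (by linarith)
  have key : ∀ k ∈ (Icc 1 ⌊P⌋₊ : Finset ℕ),
      ∑ l ∈ LL X (X ^ (1 - θ)) with (k : ℤ) ∣ l ^ 2 + 1, WW f l ≤
        (rho k : ℝ) / k * (Itot f / 2 + P * E) := by
    intro k hk
    obtain ⟨hk1, hk2⟩ := mem_Icc.1 hk
    have hkP : (k : ℝ) ≤ P := (Nat.le_floor_iff hP0.le).1 hk2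
    have hk0 : (0 : ℝ) < k := by exact_mod_cast hk1
    by_cases ho : Odd k
    · have h5 := cls (W := fun l : ℤ => WW f l) (fun l => (hW l).1) (q := 2 * k)
        (fun r => h4 (X ^ (1 - θ)) (2 * k) r (by omega) (by push_cast; linarith) hle)
        (filter_subset (fun l : ℤ => (k : ℤ) ∣ l ^ 2 + 1) (LL X (X ^ (1 - θ))))
        {l ∈ Ico (0 : ℤ) (0 + 2 * k) | Even l ∧ (k : ℤ) ∣ l ^ 2 + 1} (by
          intro l hl'
          obtain ⟨hl1, hl2⟩ := mem_filter.1 hl'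
          have hl3 : (2 : ℤ) ∣ l := (mem_filter.1 hl1).2.1
          have hq : (0 : ℤ) < 2 * k := by omega
          have hd : (2 * k : ℤ) ∣ l - l % (2 * k) := Int.dvd_self_sub_emod
          refine ⟨l % (2 * k), mem_filter.2 ⟨mem_Ico.2 ⟨Int.emod_nonneg _ hq.ne', ?_⟩, ?_, ?_⟩, ?_⟩
          · simpa using Int.emod_lt_of_pos _ hq
          · rw [even_iff_two_dvd]
            have : (2 : ℤ) ∣ l - l % (2 * k) := (Dvd.intro _ rfl).trans hd
            simpa using dvd_sub hl3 this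
          · have h6 : (k : ℤ) ∣ l - l % (2 * k) := (Dvd.intro_left _ rfl).trans hd
            have h7 : (l % (2 * k)) ^ 2 + 1 =
                l ^ 2 + 1 - (l - l % (2 * k)) * (l + l % (2 * k)) := by ring
            rw [h7]
            exact dvd_sub hl2 (h6.mul_right _)
          · exact_mod_cast hd)
      rw [hRho.2.2.2.2.2.2.2.2.1 k 0 ho, sqrt_div hX] at h5
      refine h5.trans ?_
      have e : (rho k : ℝ) / k * (Itot f / 2 + P * E) =
          rho k * (Itot f / ((2 * k : ℕ) : ℝ) + P / k * E) := by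
        push_cast; field_simp
      rw [e]
      have : 1 ≤ P / k := (one_le_div hk0).2 hkP
      rw [← hE]
      gcongr
      nlinarith
    · rw [sum_eq_zero]
      · positivity
      · intro l hl'
        exfalso
        obtain ⟨hl1, hl2⟩ := mem_filter.1 hl'
        have hl3 : (2 : ℤ) ∣ l := (mem_filter.1 hl1).2.1
        have h2k : (2 : ℤ) ∣ k := by
          have := (Nat.not_odd_iff_even.1 ho).two_dvd
          exact_mod_cast this
        have h6 : (2 : ℤ) ∣ l ^ 2 + 1 := h2k.trans hl2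
        have h7 : (2 : ℤ) ∣ l ^ 2 := hl3.trans (dvd_pow_self l two_ne_zero)
        omega
  calc _ = ∑ k ∈ (Icc 1 ⌊P⌋₊ : Finset ℕ), ArithmeticFunction.vonMangoldt k *
          ∑ l ∈ LL X (X ^ (1 - θ)) with (k : ℤ) ∣ l ^ 2 + 1, WW f l := by
        simp only [sum_filter, mul_sum]
        rw [sum_comm]
        refine sum_congr rfl fun k _ => sum_congr rfl fun l _ => ?_
        split_ifs <;> ring
    _ ≤ ∑ k ∈ (Icc 1 ⌊P⌋₊ : Finset ℕ), ArithmeticFunction.vonMangoldt k * (rho k : ℝ) / k *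
          (Itot f / 2 + P * E) := by
        refine sum_le_sum fun k hk => ?_
        have := mul_le_mul_of_nonneg_left (key k hk) (ArithmeticFunction.vonMangoldt_nonneg (n := k))
        refine this.trans (le_of_eq ?_)
        ring
    _ ≤ (1 + ε) * log X * (Itot f / 2 + P * E) := by
        rw [← sum_mul]
        refine mul_le_mul_of_nonneg_right (hm.trans ?_) (by positivity)
        gcongr
    _ ≤ _ := by
        have h5 : P * X ^ (θ / 2) ≤ X ^ (1 - θ) := by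
          rw [hP, ← rpow_add hX]
          exact rpow_le_rpow_of_exponent_le (by linarith) (by linarith)
        have h6 : (1 + ε) * log X * (P * E) ≤ 2 * C * log X ^ (A + 3) * X ^ (1 - θ) := by
          calc (1 + ε) * log X * (P * E) = (1 + ε) * C * log X ^ (A + 3) * (P * X ^ (θ / 2)) := by
                rw [hE]; ring
            _ ≤ 2 * C * log X ^ (A + 3) * X ^ (1 - θ) := by gcongr; linarith
        nlinarith

/-- The integers for which `l ^ 2 + 1` has a large proper prime power divisor. -/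
def Bad (X : ℝ) (l : ℤ) : Prop :=
  ∃ p j : ℕ, p.Prime ∧ 2 ≤ j ∧ (p : ℤ) ^ j ∣ l ^ 2 + 1 ∧ X ^ (1 / 2 : ℝ) < (p : ℝ) ^ j

theorem pp (hPP : PPStmt) (hI3 : I3Stmt) (A : ℕ) {θ : ℝ} (h0 : 0 < θ) (h1 : θ ≤ 1 / 10) :
    ∀ᶠ X : ℝ in atTop, ∀ f : ℝ → ℝ, Adm X (log X ^ A) f →
      3 * log X * ∑ l ∈ LL X (X ^ (1 - θ)) with Bad X l, WW f l ≤ X := by
  obtain ⟨C, hC, H⟩ := hI3
  filter_upwards [small (3 * C) (A + 2) (show (0 : ℝ) < 1 / 20 by norm_num),
    eventually_ge_atTop (3 : ℝ), hPP.1] with X hs h3 hb f hf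
  have hX : 0 < X := by linarith
  have hl : 0 ≤ log X := log_nonneg (by linarith)
  obtain ⟨hW, -, -, -⟩ := H X _ f h3 hf
  have h4 : ∑ l ∈ LL X (X ^ (1 - θ)) with Bad X l, WW f l ≤
      #{l ∈ LL X (X ^ (1 - θ)) | Bad X l} • (C * log X ^ A * log X * X ^ (θ / 2)) := by
    refine sum_le_card_nsmul _ _ _ fun l hl' => (hW l).2.1.trans ?_
    have h7 : X ^ (1 - θ) ≤ |(l : ℝ)| := (mem_filter.1 (mem_filter.1 hl').1).2.2
    have h8 : |(l : ℝ)| ≤ √((l : ℝ) ^ 2 + 1) := abs_le_sqrt (by linarith)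
    rw [← sqrt_div hX]
    gcongr
    exact h7.trans h8
  have h5 : (#{l ∈ LL X (X ^ (1 - θ)) | Bad X l} : ℝ) ≤ X ^ (9 / 10 : ℝ) := by
    refine le_trans ?_ hb
    norm_cast
    refine card_le_card fun l hl' => ?_
    obtain ⟨hl1, hl2⟩ := mem_filter.1 hl'
    refine mem_filter.2 ⟨(mem_filter.1 hl1).1, ?_⟩
    obtain ⟨p, j, a, b, c, d⟩ := hl2
    exact ⟨p, j, a, b, by exact_mod_cast c, by exact_mod_cast d⟩
  rw [nsmul_eq_mul] at h4
  have h6 : X ^ (9 / 10 : ℝ) * X ^ (θ / 2) ≤ X ^ (1 - 1 / 20 : ℝ) := by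
    rw [← rpow_add hX]
    exact rpow_le_rpow_of_exponent_le (by linarith) (by linarith)
  calc _ ≤ 3 * log X * (X ^ (9 / 10 : ℝ) * (C * log X ^ A * log X * X ^ (θ / 2))) := by
        gcongr
        refine h4.trans ?_
        gcongr
    _ = 3 * C * log X ^ (A + 2) * (X ^ (9 / 10 : ℝ) * X ^ (θ / 2)) := by ring
    _ ≤ 3 * C * log X ^ (A + 2) * X ^ (1 - 1 / 20 : ℝ) := by gcongr
    _ ≤ X := hs

theorem pr (hPP : PPStmt) (hI3 : I3Stmt) (A : ℕ) {θ ε : ℝ} (h0 : 0 < θ) (h1 : θ ≤ 1 / 2)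
    (hε : 0 < ε) :
    ∀ᶠ X : ℝ in atTop, ∀ f : ℝ → ℝ, Adm X (log X ^ A) f →
      3 * log X * ∑ l ∈ LL X (X ^ (1 - θ)) with (l.natAbs / 2).Prime, WW f l ≤
        3 * ε * log X * Itot f / 2 + X := by
  obtain ⟨C, hC, H⟩ := hI3
  obtain ⟨P, hP1, hP⟩ := hPP.2 ε hε
  filter_upwards [small (3 * C * P) (A + 3) (show (0 : ℝ) < 1 / 2 by norm_num),
    eventually_ge_atTop (3 : ℝ),
    (tendsto_rpow_atTop (show 0 < 1 - θ by linarith)).eventually_ge_atTop (2 * P + 2)]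
    with X hs h3 hb f hf
  have hX : 0 < X := by linarith
  have hl : 0 ≤ log X := log_nonneg (by linarith)
  have hI := Itot_nonneg hf
  obtain ⟨hW, -, h4, -⟩ := H X _ f h3 hf
  have hle : X ^ (1 - θ) ≤ X := by
    calc X ^ (1 - θ) ≤ X ^ (1 : ℝ) := rpow_le_rpow_of_exponent_le (by linarith) (by linarith)
      _ = X := rpow_one X
  have hP0 : (0 : ℝ) < P := by exact_mod_cast hP1
  have h5 := cls (W := fun l : ℤ => WW f l) (fun l => (hW l).1) (q := 2 * P)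
    (fun r => h4 (X ^ (1 - θ)) (2 * P) r (by omega) (by push_cast; linarith) hle)
    (filter_subset (fun l : ℤ => (l.natAbs / 2).Prime) (LL X (X ^ (1 - θ))))
    (({a ∈ range P | P.Coprime a} : Finset ℕ).image fun a : ℕ => (2 * a : ℤ)) (by
      intro l hl'
      obtain ⟨hl1, hl2⟩ := mem_filter.1 hl'
      obtain ⟨-, ⟨h, rfl⟩, hl3⟩ := mem_filter.1 hl1
      have e : (2 * h).natAbs / 2 = h.natAbs := by rw [Int.natAbs_mul]; simp
      rw [e] at hl2
      have hq : (0 : ℤ) < P := by omega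
      have h6 : P < h.natAbs := by
        have h7 : (2 * P + 2 : ℝ) ≤ |((2 * h : ℤ) : ℝ)| := hb.trans hl3
        have h8 : (2 * P + 2 : ℤ) ≤ |2 * h| := by exact_mod_cast h7
        rw [Int.abs_eq_natAbs] at h8
        omega
      have h9 : (h % P).toNat = h % P := Int.toNat_of_nonneg (Int.emod_nonneg _ hq.ne')
      refine ⟨2 * (h % P), mem_image.2 ⟨(h % P).toNat, mem_filter.2 ⟨mem_range.2 ?_, ?_⟩, by
        rw [h9]⟩, ?_⟩
      · have := Int.emod_lt_of_pos h hq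
        omega
      · have h10 : Nat.Coprime h.natAbs P :=
          (Nat.Prime.coprime_iff_not_dvd hl2).2 fun hd => absurd (Nat.le_of_dvd hP1 hd) (by omega)
        have h11 : (h % P).gcd P = 1 := by
          rw [Int.gcd_emod]; simpa [Int.gcd] using h10
        rw [← h9, Int.gcd_natCast_natCast] at h11
        exact Nat.Coprime.symm h11
      · rw [← mul_sub]
        push_cast
        exact mul_dvd_mul_left _ Int.dvd_self_sub_emod)
  rw [sqrt_div hX] at h5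
  have h6 : (#(({a ∈ range P | P.Coprime a} : Finset ℕ).image fun a : ℕ => (2 * a : ℤ)) : ℝ) ≤
      Nat.totient P := by
    rw [Nat.totient_eq_card_coprime]
    exact_mod_cast card_image_le
  have h7 : (Nat.totient P : ℝ) ≤ P := by exact_mod_cast Nat.totient_le P
  have h8 : X ^ (θ / 2) ≤ X ^ (1 - 1 / 2 : ℝ) :=
    rpow_le_rpow_of_exponent_le (by linarith) (by linarith)
  calc _ ≤ 3 * log X * (Nat.totient P * (Itot f / ((2 * P : ℕ) : ℝ) +
          C * log X ^ A * log X ^ 2 * X ^ (θ / 2))) := by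
        gcongr
        refine h5.trans ?_
        gcongr
    _ = 3 * log X * (Nat.totient P * (Itot f / (2 * P))) +
          3 * C * Nat.totient P * log X ^ (A + 3) * X ^ (θ / 2) := by push_cast; ring
    _ ≤ 3 * log X * (ε * P * (Itot f / (2 * P))) +
          3 * C * P * log X ^ (A + 3) * X ^ (1 - 1 / 2 : ℝ) := by gcongr
    _ ≤ _ := by
        have e : 3 * log X * (ε * P * (Itot f / (2 * P))) = 3 * ε * log X * Itot f / 2 := by
          field_simp
        rw [e]; linarith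

/-- The primes between `a` and `b`. -/
def PR (a b : ℝ) : Finset ℕ := {p ∈ (Icc 1 ⌊b⌋₊ : Finset ℕ) | p.Prime ∧ a < p}

/-- The decomposition of `log (l ^ 2 + 1)`. -/
theorem dec {X a b : ℝ} (ha : X ^ (1 / 2 : ℝ) ≤ a) (ha0 : 0 ≤ a) {l : ℤ} (hl : ¬ Bad X l)
    (hb : ∀ p : ℕ, p.Prime → (p : ℤ) ∣ l ^ 2 + 1 → (p : ℝ) ≤ b) :
    log ((l : ℝ) ^ 2 + 1) ≤
      ∑ k ∈ (Icc 1 ⌊a⌋₊ : Finset ℕ) with ((k : ℕ) : ℤ) ∣ l ^ 2 + 1,
          ArithmeticFunction.vonMangoldt k +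
        ∑ p ∈ PR a b with ((p : ℕ) : ℤ) ∣ l ^ 2 + 1, log p := by
  obtain ⟨n, hn⟩ := Int.eq_ofNat_of_zero_le (show 0 ≤ l ^ 2 + 1 by positivity)
  have hn' : (l : ℝ) ^ 2 + 1 = n := by exact_mod_cast hn
  rw [hn', ← ArithmeticFunction.vonMangoldt_sum,
    ← sum_filter_add_sum_filter_not n.divisors (fun k : ℕ => (k : ℝ) ≤ a)]
  refine add_le_add ?_ ?_
  · refine sum_le_sum_of_subset_of_nonneg ?_ fun _ _ _ => ArithmeticFunction.vonMangoldt_nonneg
    intro k hk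
    obtain ⟨h1, h2⟩ := mem_filter.1 hk
    refine mem_filter.2 ⟨mem_Icc.2 ⟨Nat.pos_of_mem_divisors h1, (Nat.le_floor_iff ha0).2 h2⟩, ?_⟩
    rw [hn]
    exact_mod_cast Nat.dvd_of_mem_divisors h1
  · rw [← sum_filter_ne_zero]
    have hsub : ∀ k ∈ ({k ∈ n.divisors | ¬ (k : ℝ) ≤ a} : Finset ℕ).filter
        (fun k => ArithmeticFunction.vonMangoldt k ≠ 0),
        k ∈ ({p ∈ PR a b | (p : ℤ) ∣ l ^ 2 + 1} : Finset ℕ) := by
      intro k hk
      obtain ⟨hk1, h3⟩ := mem_filter.1 hk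
      obtain ⟨h1, h2⟩ := mem_filter.1 hk1
      have hd : (k : ℤ) ∣ l ^ 2 + 1 := by
        rw [hn]
        exact_mod_cast Nat.dvd_of_mem_divisors h1
      obtain ⟨p, j, hp, hj, rfl⟩ :=
        (isPrimePow_nat_iff k).1 (ArithmeticFunction.vonMangoldt_ne_zero_iff.1 h3)
      have hj1 : j = 1 := by
        by_contra hne
        refine hl ⟨p, j, hp, by omega, by exact_mod_cast hd, ?_⟩
        push_cast at h2
        linarith [not_le.1 h2]
      subst hj1
      rw [pow_one] at hd h2 ⊢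
      have h4 := hb p hp hd
      exact mem_filter.2 ⟨mem_filter.2 ⟨mem_Icc.2 ⟨hp.one_le,
        (Nat.le_floor_iff ((Nat.cast_nonneg p).trans h4)).2 h4⟩, hp, not_le.1 h2⟩, hd⟩
    refine (sum_le_sum fun k _ => ArithmeticFunction.vonMangoldt_le_log (n := k)).trans ?_
    exact sum_le_sum_of_subset_of_nonneg hsub fun k _ _ => log_natCast_nonneg k

end Pool.Agent.Lib.MP_4b1228_nt.PP.Fz
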