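import Pool.Agent.Lib.MP_4b1228_nt.PP.T0
import Pool.Agent.Lib.MP_4b1228_nt.PP.T2
import Pool.Agent.Lib.MP_4b1228_nt.PP.I3

/-!
The global form of the arithmetic information: the height is integrated out.
-/

open Finset Real Filter MeasureTheory
open scoped Classical

noncomputable section

namespace Pool.Agent.Lib.MP_4b1228_nt.PP

/-- Weighted number of even `l` with `k ∣ l ^ 2 + 1`. -/
def AA (X : ℝ) (f : ℝ → ℝ) (k : ℕ) : ℝ :=
  ∑ l ∈ (Icc (-⌈X⌉) ⌈X⌉ : Finset ℤ) with Even l ∧ (k : ℤ) ∣ l ^ 2 + 1, WW f l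

/-- Its expected value. -/
def BB (f : ℝ → ℝ) (k : ℕ) : ℝ := if Odd k then (rho k : ℝ) / (2 * k) * Itot f else 0

/-- All moduli up to `X ^ (1 - η)`. -/
def GT1Stmt : Prop :=
  ∀ (A : ℕ) (η : ℝ), 0 < η → η ≤ 1 → ∀ᶠ X : ℝ in atTop, ∀ f : ℝ → ℝ, Adm X (log X ^ A) f →
    ∑ k ∈ (Icc 1 ⌊X ^ (1 - η)⌋₊ : Finset ℕ), |AA X f k - BB f k| ≤ X ^ (1 - η / 12)

/-- Moduli `m n` with `m ≤ X ^ (1 - η)` and `n ^ 4 m ≤ X ^ (2 - η)`. -/
def GT2Stmt : Prop :=
  ∀ (A : ℕ) (η δ : ℝ), 0 < η → η ≤ 1 → 0 < δ →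
    ∀ᶠ X : ℝ in atTop, ∀ f : ℝ → ℝ, Adm X (log X ^ A) f → E2 X (η / 4) δ f →
      ∀ (K : ℕ) (α β : ℕ → ℝ) (u v : ℕ → ℕ), (∀ m, |α m| ≤ 1) → (∀ n, |β n| ≤ 1) →
        (∀ n, β n ≠ 0 → Squarefree n ∧ Rough (wX X) n) →
        (∀ m n, u m = v n → α m ≠ 0 → β n ≠ 0 →
          (m : ℝ) ≤ X ^ (1 - η) ∧ (n : ℝ) ^ 4 * m ≤ X ^ (2 - η)) →
        |bil K (fun k => AA X f k - BB f k) α β u v| ≤ X * exp (-(log X ^ (2 / 3 : ℝ) / 20))

namespace Glb

variable {X Λ : ℝ} {f : ℝ → ℝ}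

lemma one_le_log (hX : 3 ≤ X) : 1 ≤ log X := by
  rw [le_log_iff_exp_le (by linarith)]
  exact exp_one_lt_three.le.trans hX

lemma int_one (h1 : I1Stmt) (h3 : I3Stmt) (hX : 3 ≤ X) (hf : Adm X Λ f) {k : ℕ} (hk : 1 ≤ k) :
    Integrable (fun s : ℝ => sA f (exp s) k - sB f (exp s) k) ∧
      ∫ s : ℝ, (sA f (exp s) k - sB f (exp s) k) = AA X f k - BB f k := by
  obtain ⟨C₁, -, h1⟩ := h1
  obtain ⟨C₃, -, h3⟩ := h3
  obtain ⟨a1, a2⟩ := (h3 X Λ f hX hf).2.1 k hk
  obtain ⟨b1, b2⟩ := (h1 X Λ f hX hf).2.1 k (by exact_mod_cast hk)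
  have c : Integrable (fun s : ℝ => sB f (exp s) k) ∧ ∫ s : ℝ, sB f (exp s) k = BB f k := by
    unfold sB BB
    split_ifs
    · exact ⟨b1.const_mul _, by rw [integral_const_mul, b2]⟩
    · simp
  exact ⟨a1.sub c.1, by rw [integral_sub a1 c.1, a2, c.2, AA]⟩

/-- Integration over the height. -/
lemma core (h1 : I1Stmt) (h2 : I2Stmt) (h3 : I3Stmt) (hX : 3 ≤ X) (hf : Adm X Λ f) {ι : Type}
    (Z : Finset ι) (a : ι → ℝ) (κ : ι → ℕ) (hκ : ∀ z ∈ Z, 1 ≤ κ z) {E D : ℝ} (hE : 0 ≤ E)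
    (hD : 0 ≤ D)
    (b1 : ∀ Y : ℝ, 1 / X ^ 2 ≤ Y → |∑ z ∈ Z, a z * (sA f Y (κ z) - sB f Y (κ z))| ≤ E)
    (b2 : ∀ Y : ℝ, 0 < Y → Y ≤ 1 / X ^ 2 →
      |∑ z ∈ Z, a z * (sA f Y (κ z) - sB f Y (κ z))| ≤ D * √Y) :
    |∑ z ∈ Z, a z * (AA X f (κ z) - BB f (κ z))| ≤ 4 * log X * E + 2 * D / X := by
  have X0 : 0 < X := by linarith
  have L1 := one_le_log hX
  obtain ⟨C₂, -, h2⟩ := h2
  have k6 := ((h2 X hX).2.2.2 _ f hf).2.1
  have e : ∑ z ∈ Z, a z * (AA X f (κ z) - BB f (κ z)) =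
      ∫ s : ℝ, ∑ z ∈ Z, a z * (sA f (exp s) (κ z) - sB f (exp s) (κ z)) := by
    rw [integral_finsetSum _ fun z hz => (int_one h1 h3 hX hf (hκ z hz)).1.const_mul _]
    exact sum_congr rfl fun z hz => by
      rw [integral_const_mul, (int_one h1 h3 hX hf (hκ z hz)).2]
  set L := log X with hL
  have i1 : Integrable ((Set.Icc (-2 * L) (2 * L)).indicator fun _ : ℝ => E) :=
    (integrable_indicator_iff measurableSet_Icc).2 (integrableOn_const (by simp))
  have i2 : Integrable ((Set.Iic (-2 * L)).indicator fun s : ℝ => D * exp (1 / 2 * s)) :=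
    (integrable_indicator_iff measurableSet_Iic).2
      ((integrableOn_exp_mul_Iic (by norm_num) _).const_mul D)
  have e2 : exp (-2 * L) = 1 / X ^ 2 := by
    rw [show -2 * L = -((2 : ℕ) * L) by push_cast; ring, exp_neg, exp_nat_mul, hL, exp_log X0,
      one_div]
  rw [e, ← Real.norm_eq_abs]
  refine (norm_integral_le_of_norm_le (i1.add i2) (Eventually.of_forall fun s => ?_)).trans ?_
  · rw [Real.norm_eq_abs, Pi.add_apply]
    have n1 : 0 ≤ (Set.Icc (-2 * L) (2 * L)).indicator (fun _ : ℝ => E) s :=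
      Set.indicator_nonneg (fun _ _ => hE) _
    have n2 : 0 ≤ (Set.Iic (-2 * L)).indicator (fun s : ℝ => D * exp (1 / 2 * s)) s :=
      Set.indicator_nonneg (fun _ _ => by positivity) _
    rcases le_total s (-2 * L) with h | h
    · rw [Set.indicator_of_mem (show s ∈ Set.Iic (-2 * L) from h)]
      have := b2 (exp s) (exp_pos _) (e2 ▸ exp_le_exp.2 h)
      rw [← exp_half, show s / 2 = 1 / 2 * s by ring] at this
      linarith
    · rcases le_or_gt s (2 * L) with h' | h'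
      · rw [Set.indicator_of_mem (show s ∈ Set.Icc (-2 * L) (2 * L) from ⟨h, h'⟩)]
        have := b1 (exp s) (e2 ▸ exp_le_exp.2 h)
        linarith
      · have c1 : X ^ 2 < exp s := by
          have := exp_lt_exp.2 h'
          rwa [show 2 * L = (2 : ℕ) * L by push_cast; ring, exp_nat_mul, hL, exp_log X0] at this
        have c2 : KM X (exp s) = 0 := by
          rw [KM, Nat.floor_eq_zero, div_lt_one (exp_pos _)]
          nlinarith
        rw [sum_eq_zero fun z hz => ?_, abs_zero]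
        · positivity
        · obtain ⟨d1, d2⟩ := (k6 (exp s) (κ z) (exp_pos _) (hκ z hz)).2.2.2.1
            (by rw [c2]; exact hκ z hz)
          rw [d1, d2, sub_zero, mul_zero]
  · simp only [Pi.add_apply]
    rw [integral_add i1 i2, integral_indicator measurableSet_Icc,
      integral_indicator measurableSet_Iic, integral_const_mul,
      integral_exp_mul_Iic (by norm_num), setIntegral_const, Real.volume_real_Icc_of_le
        (by linarith), show 1 / 2 * (-2 * L) = -L by ring, exp_neg, hL, exp_log X0, smul_eq_mul]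
    apply le_of_eq
    field_simp
    ring

/-- Small heights. -/
lemma tail (hR : RhoStmt) (h1 : I1Stmt) (h2 : I2Stmt) : ∃ C : ℝ, 0 < C ∧
    ∀ (X Λ : ℝ) (f : ℝ → ℝ), 3 ≤ X → Adm X Λ f → ∀ Y : ℝ, 0 < Y → Y ≤ 1 / X ^ 2 →
      ∑ k ∈ Icc 1 ⌊X ^ 2⌋₊, |sA f Y k - sB f Y k| ≤ C * Λ * log X ^ 2 * √X * X * √Y := by
  obtain ⟨C₁, hC, h1⟩ := h1
  obtain ⟨C₂, -, h2⟩ := h2
  refine ⟨6 * C₁, by positivity, fun X Λ f hX hf Y Y0 hY => ?_⟩
  have X0 : 0 < X := by linarith
  have L1 := one_le_log hX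
  have hΛ := I1.lam_nonneg hX hf
  have k6 := ((h2 X hX).2.2.2 _ f hf).2.1
  have pt : ∀ k ∈ Icc 1 ⌊X ^ 2⌋₊, |sA f Y k - sB f Y k| ≤
      C₁ * Λ * log X * √X * √Y / 2 * (rho k / √k) := by
    intro k hk
    have k1 := (mem_Icc.1 hk).1
    have k0 : (0 : ℝ) < k := by exact_mod_cast k1
    obtain ⟨-, c2, -, -, c5⟩ := k6 Y k Y0 k1
    have a0 : sA f Y k = 0 := by
      rw [sA]
      convert tsum_zero with l
      split_ifs with h
      · by_contra h'
        have d1 := (c5 l h').2.2.1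
        have d2 : (k : ℝ) ≤ (l : ℝ) ^ 2 + 1 := by
          exact_mod_cast Int.le_of_dvd (by positivity) h.2
        rw [le_div_iff₀ (by positivity)] at hY
        have d3 : (1 : ℝ) ≤ 2 * X * Y := by
          refine le_of_mul_le_mul_left ?_ k0
          linarith
        nlinarith
      · rfl
    rw [a0, zero_sub, abs_neg, abs_of_nonneg c2, sB]
    split_ifs
    · have := ((h1 X Λ f hX hf).1 (k * Y) (by positivity)).2.2.1
      have s0 : 0 < √(k : ℝ) := sqrt_pos.2 k0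
      calc _ ≤ (rho k : ℝ) / (2 * k) * (C₁ * Λ * log X * √(X * (k * Y))) := by gcongr
        _ = _ := by
          rw [sqrt_mul X0.le, sqrt_mul k0.le]
          nth_rw 1 [← mul_self_sqrt k0.le]
          field_simp
    · positivity
  refine (sum_le_sum pt).trans ?_
  rw [← mul_sum]
  have s1 := (hR.2.2.2.2.2.2.2.2.2.2.1 ⌊X ^ 2⌋₊).2
  have s2 : (⌊X ^ 2⌋₊ : ℝ) ≤ X ^ 2 := Nat.floor_le (by positivity)
  have s3 : √(⌊X ^ 2⌋₊ : ℝ) ≤ X := sqrt_le_iff.2 ⟨X0.le, s2⟩
  have s4 : log (⌊X ^ 2⌋₊ : ℝ) ≤ 2 * log X := by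
    have : (0 : ℝ) < ⌊X ^ 2⌋₊ := by
      exact_mod_cast Nat.floor_pos.2 (by nlinarith)
    have := log_le_log this s2
    rwa [log_pow] at this
  have s5 := log_natCast_nonneg ⌊X ^ 2⌋₊
  calc _ ≤ C₁ * Λ * log X * √X * √Y / 2 * (4 * X * (3 * log X)) := by
        gcongr
        refine s1.trans ?_
        gcongr
        linarith
    _ = _ := by ring

/-- Large heights, or small moduli. -/
lemma unif (hR : RhoStmt) (h2 : I2Stmt) (h0 : T0Stmt) (A : ℕ) {η : ℝ} (hη : 0 < η)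
    (hη1 : η ≤ 1) : ∀ᶠ X : ℝ in atTop, ∀ f : ℝ → ℝ, Adm X (log X ^ A) f →
      ∀ Y : ℝ, 1 / X ^ 2 ≤ Y → ∀ S : Finset ℕ, (∀ k ∈ S, 1 ≤ k) →
        (X ^ η ≤ Y ∨ ∀ k ∈ S, k * Y ≤ X ^ (1 - η)) →
        ∑ k ∈ S, |sA f Y k - sB f Y k| ≤ X ^ (1 - η / 5) := by
  obtain ⟨C₂, hC, h2⟩ := h2
  filter_upwards [h0 A 0 η hη hη1, eventually_ge_atTop 3,
    (tendsto_rpow_atTop hη).eventually_ge_atTop 2,
    T1.ev_log (16 * C₂) (η / 2) (A + 2) (by positivity)] with X a0 hX a1 a2 f hf Y hY S hS h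
  have X0 : 0 < X := by linarith
  have Y0 : 0 < Y := lt_of_lt_of_le (by positivity) hY
  have L1 := one_le_log hX
  obtain ⟨-, k6, k7, -⟩ := (h2 X hX).2.2.2 _ f hf
  have e : ∑ k ∈ S, |sA f Y k - sB f Y k| =
      ∑ k ∈ S with k ≤ KM X Y, |sA f Y k - sB f Y k| := by
    refine (sum_filter_of_ne fun k hk h => ?_).symm
    by_contra h'
    obtain ⟨d1, d2⟩ := (k6 Y k Y0 (hS k hk)).2.2.2.1 (not_le.1 h')
    simp [d1, d2] at h
  rw [e]
  rcases h with h | h
  · have Y2 : 2 ≤ Y := a1.trans h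
    have M1 : (KM X Y : ℝ) ≤ 2 * X / Y := Nat.floor_le (by positivity)
    have M2 : (KM X Y : ℝ) ≤ X := M1.trans (by rw [div_le_iff₀ Y0]; nlinarith)
    have M3 : log (KM X Y : ℝ) ≤ log X := by
      rcases Nat.eq_zero_or_pos (KM X Y) with c | c
      · rw [c]; simp; linarith
      · exact log_le_log (by exact_mod_cast c) M2
    have M4 := log_natCast_nonneg (KM X Y)
    have M5 : √(X / Y) * √(KM X Y : ℝ) ≤ 2 * (X / Y) := by
      rw [← sqrt_mul (by positivity)]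
      refine sqrt_le_iff.2 ⟨by positivity, ?_⟩
      have : 0 ≤ X / Y := by positivity
      rw [mul_div_assoc] at M1
      nlinarith
    have M6 : X / Y ≤ X ^ (1 - η) := by
      rw [rpow_sub X0, rpow_one]; gcongr
    calc _ ≤ ∑ k ∈ Icc 1 (KM X Y), |sA f Y k - sB f Y k| :=
          sum_le_sum_of_subset_of_nonneg (fun k hk => mem_Icc.2
            ⟨hS k (mem_filter.1 hk).1, (mem_filter.1 hk).2⟩) fun _ _ _ => abs_nonneg _
      _ ≤ ∑ k ∈ Icc 1 (KM X Y), C₂ * log X ^ A * log X * √(X / Y) * (rho k / √k) :=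
          sum_le_sum fun k hk => (k7 Y k Y2 (mem_Icc.1 hk).1).trans (le_of_eq (by
            rw [mul_comm (k : ℝ) Y, ← div_div, sqrt_div' _ (Nat.cast_nonneg k)]; ring))
      _ ≤ C₂ * log X ^ A * log X * √(X / Y) * (4 * √(KM X Y : ℝ) * (2 * log X)) := by
          rw [← mul_sum]
          gcongr
          refine (hR.2.2.2.2.2.2.2.2.2.2.1 _).2.trans ?_
          gcongr
          linarith
      _ = 8 * C₂ * log X ^ (A + 2) * (√(X / Y) * √(KM X Y : ℝ)) := by ring
      _ ≤ 8 * C₂ * log X ^ (A + 2) * (2 * X ^ (1 - η)) :=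
          mul_le_mul_of_nonneg_left (by linarith) (by positivity)
      _ = 16 * C₂ * log X ^ (A + 2) * X ^ (1 - η) := by ring
      _ ≤ X ^ (η / 2) * X ^ (1 - η) := by gcongr
      _ ≤ _ := by
          rw [← rpow_add X0]
          exact rpow_le_rpow_of_exponent_le (by linarith) (by linarith)
  · refine le_trans ?_ ((a0 f hf).2.1 Y hY)
    calc _ ≤ ∑ k ∈ S with k ≤ KM X Y, (sA f Y k + sB f Y k) := sum_le_sum fun k hk => by
          obtain ⟨d1, d2, -⟩ := k6 Y k Y0 (hS k (mem_filter.1 hk).1)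
          exact abs_le.2 ⟨by linarith, by linarith⟩
      _ ≤ _ := sum_le_sum_of_subset_of_nonneg (fun k hk => mem_filter.2 ⟨mem_Icc.2
            ⟨hS k (mem_filter.1 hk).1, (mem_filter.1 hk).2⟩, h k (mem_filter.1 hk).1⟩)
          fun k hk _ => by
            obtain ⟨d1, d2, -⟩ := k6 Y k Y0 (mem_Icc.1 (mem_filter.1 hk).1).1
            linarith

lemma bil_eq (K : ℕ) (r α β : ℕ → ℝ) (u v : ℕ → ℕ) : bil K r α β u v =
    ∑ z ∈ Icc 1 K ×ˢ Icc 1 K, (if u z.1 = v z.2 then α z.1 * β z.2 else 0) * r (z.1 * z.2) := by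
  rw [bil, sum_product]
  simp only [ite_mul, zero_mul]

/-- The trivial bound for a bilinear form. -/
lemma bil_le (K : ℕ) (r α β : ℕ → ℝ) (u v : ℕ → ℕ) (hα : ∀ m, |α m| ≤ 1) (hβ : ∀ n, |β n| ≤ 1)
    (S : Finset ℕ) {T : ℝ} (hT : ∀ k ∈ S, k ≠ 0 ∧ (#k.divisors : ℝ) ≤ T)
    (hS : ∀ m n, 1 ≤ m → 1 ≤ n → u m = v n → α m ≠ 0 → β n ≠ 0 → m * n ∈ S) :
    |bil K r α β u v| ≤ T * ∑ k ∈ S, |r k| := by
  set Z := (Icc 1 K ×ˢ Icc 1 K).filter fun z : ℕ × ℕ => z.1 * z.2 ∈ S with hZ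
  have e : bil K r α β u v =
      ∑ z ∈ Z, (if u z.1 = v z.2 then α z.1 * β z.2 else 0) * r (z.1 * z.2) := by
    rw [bil_eq]
    refine (sum_filter_of_ne fun z hz h => ?_).symm
    obtain ⟨z1, z2⟩ := mem_product.1 hz
    have h' := left_ne_zero_of_mul h
    split_ifs at h' with c
    · exact hS _ _ (mem_Icc.1 z1).1 (mem_Icc.1 z2).1 c (left_ne_zero_of_mul h')
        (right_ne_zero_of_mul h')
    · exact absurd rfl h'
  rw [e, ← sum_fiberwise_of_maps_to (g := fun z : ℕ × ℕ => z.1 * z.2) (t := S)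
    fun z hz => (mem_filter.1 hz).2, mul_sum]
  refine (abs_sum_le_sum_abs _ _).trans (sum_le_sum fun k hk => ?_)
  have c : #{z ∈ Z | z.1 * z.2 = k} ≤ #k.divisors := by
    rw [show #k.divisors = #k.divisorsAntidiagonal by
      rw [← Nat.map_div_right_divisors, card_map]]
    exact card_le_card fun z hz => Nat.mem_divisorsAntidiagonal.2 ⟨(mem_filter.1 hz).2, (hT k hk).1⟩
  calc _ ≤ ∑ _z ∈ Z with _z.1 * _z.2 = k, |r k| :=
        (abs_sum_le_sum_abs _ _).trans (sum_le_sum fun z hz => by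
          rw [abs_mul, (mem_filter.1 hz).2]
          refine mul_le_of_le_one_left (abs_nonneg _) ?_
          split_ifs
          · rw [abs_mul]; exact mul_le_one₀ (hα _) (abs_nonneg _) (hβ _)
          · simp)
    _ ≤ _ := by
        rw [sum_const, nsmul_eq_mul]
        gcongr
        exact le_trans (by exact_mod_cast c) (hT k hk).2

lemma le_aux {n X : ℝ} (hn : 1 ≤ n) (hX : 1 ≤ X) (h : n ^ 4 ≤ X ^ 2) : n ≤ X := by
  refine abs_le_of_sq_le_sq' (le_trans ?_ h) (by linarith) |>.2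
  exact pow_le_pow_right₀ hn (by norm_num)

/-- Splitting the second variable. -/
lemma bil_split (K M : ℕ) (r α β : ℕ → ℝ) (u v : ℕ → ℕ) (g : ℕ → Prop)
    (hr : ∀ k, 1 ≤ k → M < k → r k = 0) :
    bil K r α β u v = bil M r (fun m => if m ≤ K then α m else 0)
      (fun n => if n ≤ K ∧ g n then β n else 0) u v +
      bil K r α (fun n => if g n then 0 else β n) u v := by
  have e : bil M r (fun m => if m ≤ K then α m else 0)
      (fun n => if n ≤ K ∧ g n then β n else 0) u v =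
      bil K r α (fun n => if g n then β n else 0) u v := by
    rw [bil_eq, bil_eq]
    refine sum_congr_of_eq_on_inter (fun z hz hz' => ?_) (fun z hz hz' => ?_) fun z hz hz' => ?_
    · simp only [mem_product, mem_Icc] at hz hz'
      by_cases c : z.1 ≤ K
      · have : ¬ z.2 ≤ K := by tauto
        simp [this]
      · simp [c]
    · simp only [mem_product, mem_Icc] at hz hz'
      rw [hr _ (Nat.mul_pos hz.1.1 hz.2.1), mul_zero]
      by_contra c
      have c1 := Nat.le_mul_of_pos_right z.1 hz.2.1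
      have c2 := Nat.le_mul_of_pos_left z.2 hz.1.1
      omega
    · simp only [mem_product, mem_Icc] at hz'
      simp [hz'.1.2, hz'.2.2]
  rw [e]
  simp only [bil, ← sum_add_distrib]
  refine sum_congr rfl fun m _ => sum_congr rfl fun n _ => ?_
  split_ifs <;> simp

end Glb

open Glb in
theorem gt1 (hR : RhoStmt) (h1 : I1Stmt) (h2 : I2Stmt) (h3 : I3Stmt) (h0 : T0Stmt) :
    GT1Stmt := by
  intro A η hη hη1
  obtain ⟨C, hC, ht⟩ := tail hR h1 h2
  filter_upwards [unif hR h2 h0 A (half_pos hη) (by linarith), eventually_ge_atTop 3,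
    T1.ev_log 8 (η / 60) 1 (by positivity), T1.ev_log (4 * C) (1 / 4) (A + 2) (by norm_num)]
    with X a0 hX a1 a2 f hf
  have X0 : 0 < X := by linarith
  have X1 : 1 ≤ X := by linarith
  have L1 := one_le_log hX
  have mono : ∀ {a b : ℝ}, a ≤ b → X ^ a ≤ X ^ b := fun h => rpow_le_rpow_of_exponent_le X1 h
  set S := (Icc 1 ⌊X ^ (1 - η)⌋₊ : Finset ℕ) with hS
  set a : ℕ → ℝ := fun k => SignType.sign (AA X f k - BB f k) with ha
  have a3 : ∀ r : ℕ → ℝ, |∑ k ∈ S, a k * r k| ≤ ∑ k ∈ S, |r k| := fun r =>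
    (abs_sum_le_sum_abs _ _).trans (sum_le_sum fun k _ => by
      rw [abs_mul]
      refine mul_le_of_le_one_left (abs_nonneg _) ?_
      simp only [ha]
      generalize SignType.sign (AA X f k - BB f k) = t
      cases t <;> simp)
  have S1 : ∀ k ∈ S, 1 ≤ k := fun k hk => (mem_Icc.1 hk).1
  have S2 : ∀ k ∈ S, (k : ℝ) ≤ X ^ (1 - η) := fun k hk =>
    (Nat.le_floor_iff (by positivity)).1 (mem_Icc.1 hk).2
  have c := core h1 h2 h3 hX hf S a id S1 (E := X ^ (1 - η / 2 / 5))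
    (D := C * log X ^ A * log X ^ 2 * √X * X) (by positivity) (by positivity)
    (fun Y hY => (a3 fun k => sA f Y k - sB f Y k).trans (a0 f hf Y hY S S1 ?_))
    fun Y Y0 hY => (a3 fun k => sA f Y k - sB f Y k).trans (le_trans ?_ (ht X _ f hX hf Y Y0 hY))
  · have e : ∑ k ∈ S, |AA X f k - BB f k| = ∑ k ∈ S, a k * (AA X f (id k) - BB f (id k)) :=
      sum_congr rfl fun k _ => (sign_mul_self _).symm
    rw [e]
    refine (le_abs_self _).trans (c.trans ?_)
    have b1 : 4 * log X * X ^ (1 - η / 2 / 5) ≤ X ^ (1 - η / 12) / 2 := by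
      have : X ^ (1 - η / 12) = X ^ (η / 60) * X ^ (1 - η / 2 / 5) := by
        rw [← rpow_add X0]; ring_nf
      rw [this, pow_one] at *
      have : 0 ≤ X ^ (1 - η / 2 / 5) := by positivity
      nlinarith
    have b2 : 2 * (C * log X ^ A * log X ^ 2 * √X * X) / X ≤ X ^ (1 - η / 12) / 2 := by
      calc _ = 4 * C * log X ^ (A + 2) * X ^ (1 / 2 : ℝ) / 2 := by
            rw [sqrt_eq_rpow]; field_simp; ring
        _ ≤ X ^ (1 / 4 : ℝ) * X ^ (1 / 2 : ℝ) / 2 := by gcongr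
        _ ≤ _ := by
            rw [← rpow_add X0]
            gcongr ?_ / 2
            exact mono (by linarith)
    linarith
  · rcases le_total (X ^ (η / 2)) Y with h | h
    · exact Or.inl h
    · refine Or.inr fun k hk => ?_
      have Y0 : 0 < Y := lt_of_lt_of_le (by positivity) hY
      calc _ ≤ X ^ (1 - η) * X ^ (η / 2) := by gcongr; exact S2 k hk
        _ = _ := by rw [← rpow_add X0]; ring_nf
  · refine sum_le_sum_of_subset_of_nonneg (Icc_subset_Icc_right (Nat.floor_le_floor ?_))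
      fun _ _ _ => abs_nonneg _
    rw [← rpow_two]
    exact mono (by linarith)

open Glb in
theorem gt2 (hR : RhoStmt) (hG : GeoStmt) (h1 : I1Stmt) (h2 : I2Stmt) (h3 : I3Stmt)
    (h0 : T0Stmt) : GT2Stmt := by
  intro A η δ hη hη1 hδ
  obtain ⟨C, hC, ht⟩ := tail hR h1 h2
  obtain ⟨Cτ, hCτ, hτ⟩ := MP_9177b7_ag.EQ.div.1 0 (η / 1280) (by positivity)
  have t3 : Tendsto (fun X : ℝ => log X ^ (1 / 3 : ℝ)) atTop atTop :=
    (tendsto_rpow_atTop (by norm_num)).comp tendsto_log_atTop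
  filter_upwards [unif hR h2 h0 A (η := η / 32) (by positivity) (by linarith),
    T2.core hR hG h1 h2 A (η := η / 4) (by positivity) hδ, eventually_ge_atTop 3,
    T1.ev_log Cτ (η / 640) 0 (by positivity), T1.ev_log (2 * C) (1 / 4) (A + 2) (by norm_num),
    (tendsto_rpow_atTop (by positivity : 0 < η / 8)).eventually_ge_atTop 256,
    t3.eventually (T2.ev_exp 9 3), t3.eventually_ge_atTop 80, t3.eventually_ge_atTop (20 / η)]
    with X a0 a1 hX a2 a3 a4 a5 a6 a7 f hf hE K α β u v hα hβ hb hm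
  obtain ⟨C₂, -, h2'⟩ := id h2
  have k6 := ((h2' X hX).2.2.2 _ f hf).2.1
  clear h2'
  have X0 : 0 < X := by linarith
  have X1 : 1 ≤ X := by linarith
  have L1 := one_le_log hX
  have mono : ∀ {a b : ℝ}, a ≤ b → X ^ a ≤ X ^ b := fun h => rpow_le_rpow_of_exponent_le X1 h
  have mX : ∀ {a : ℝ}, a ≤ 1 → X ^ a ≤ X := fun h => by simpa using mono h
  set T := X ^ (η / 320) with hT
  have dv : ∀ k ∈ (Icc 1 ⌊X ^ 2⌋₊ : Finset ℕ), k ≠ 0 ∧ (#k.divisors : ℝ) ≤ T := fun k hk => by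
    obtain ⟨k1, k2⟩ := mem_Icc.1 hk
    rw [Nat.le_floor_iff (by positivity)] at k2
    refine ⟨by omega, (hτ k k1).1.trans ?_⟩
    rw [pow_zero, mul_one] at a2
    calc _ ≤ X ^ (η / 640) * (X ^ 2) ^ (η / 1280) := by gcongr
      _ = _ := by rw [← rpow_two, ← rpow_mul X0.le, ← rpow_add X0, hT]; ring_nf
  have ac : ∀ m n, 1 ≤ m → 1 ≤ n → u m = v n → α m ≠ 0 → β n ≠ 0 →
      m * n ∈ (Icc 1 ⌊X ^ 2⌋₊ : Finset ℕ) := fun m n m1 n1 c1 c2 c3 => by
    obtain ⟨d1, d2⟩ := hm m n c1 c2 c3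
    have m1' : (1 : ℝ) ≤ m := by exact_mod_cast m1
    have n1' : (1 : ℝ) ≤ n := by exact_mod_cast n1
    have d3 : (n : ℝ) ≤ X := by
      refine le_aux n1' X1 ?_
      calc (n : ℝ) ^ 4 = n ^ 4 * 1 := (mul_one _).symm
        _ ≤ n ^ 4 * m := by gcongr
        _ ≤ X ^ (2 : ℝ) := d2.trans (mono (by linarith))
        _ = _ := rpow_two X
    refine mem_Icc.2 ⟨Nat.mul_pos m1 n1, Nat.le_floor ?_⟩
    push_cast
    have := d1.trans (mX (by linarith))
    rw [sq]
    gcongr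
  set E := X * exp (-(log X ^ (2 / 3 : ℝ) / 16)) with hEd
  have E0 : 0 ≤ E := by positivity
  have T0 : 0 ≤ T := by positivity
  have c := core h1 h2 h3 hX hf (Icc 1 K ×ˢ Icc 1 K)
    (fun z => if u z.1 = v z.2 then α z.1 * β z.2 else 0) (fun z => z.1 * z.2)
    (fun z hz => Nat.mul_pos (mem_Icc.1 (mem_product.1 hz).1).1
      (mem_Icc.1 (mem_product.1 hz).2).1) (E := E + T * X ^ (1 - η / 32 / 5))
    (D := T * (C * log X ^ A * log X ^ 2 * √X * X)) (by positivity) (by positivity)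
    (fun Y hY => ?_) fun Y Y0 hY => ?_
  · rw [bil_eq]
    refine c.trans ?_
    set t := log X ^ (1 / 3 : ℝ) with htd
    have L0 : 0 ≤ log X := by linarith
    have e3 : log X = t ^ 3 := by
      rw [htd, ← rpow_natCast, ← rpow_mul L0]; norm_num
    have e2 : log X ^ (2 / 3 : ℝ) = t ^ 2 := by
      rw [htd, ← rpow_natCast, ← rpow_mul L0]; norm_num
    have b0 : X ^ (1 - η / 320) ≤ E := by
      rw [hEd, e2, rpow_sub X0, rpow_one, div_eq_mul_inv, rpow_def_of_pos X0, ← exp_neg, e3]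
      rw [div_le_iff₀ hη] at a7
      gcongr
      nlinarith [sq_nonneg t]
    have b1 : T * X ^ (1 - η / 32 / 5) ≤ E := by
      rw [hT, ← rpow_add X0]
      exact (mono (by linarith)).trans b0
    have b2 : 2 * (T * (C * log X ^ A * log X ^ 2 * √X * X)) / X ≤ E := by
      calc _ = T * (2 * C * log X ^ (A + 2)) * X ^ (1 / 2 : ℝ) := by
            rw [sqrt_eq_rpow]; field_simp; ring
        _ ≤ T * X ^ (1 / 4 : ℝ) * X ^ (1 / 2 : ℝ) := by gcongr
        _ ≤ _ := by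
            rw [hT, ← rpow_add X0, ← rpow_add X0]
            exact (mono (by linarith)).trans b0
    calc _ ≤ 4 * log X * (E + E) + log X * E := by
          gcongr
          exact b2.trans (le_mul_of_one_le_left E0 L1)
      _ = 9 * t ^ 3 * E := by rw [← e3]; ring
      _ ≤ exp t * E := by gcongr
      _ ≤ _ := by
          rw [hEd, e2, mul_left_comm, ← exp_add]
          gcongr
          nlinarith
  · rw [← bil_eq K (fun k => sA f Y k - sB f Y k)]
    have Y0 : 0 < Y := lt_of_lt_of_le (by positivity) hY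
    rcases le_total (X ^ (η / 32)) Y with h | h
    · refine (bil_le K _ α β u v hα hβ _ dv ac).trans (le_add_of_nonneg_of_le E0 ?_)
      gcongr
      exact a0 f hf Y hY _ (fun k hk => (mem_Icc.1 hk).1) (Or.inl h)
    set g : ℕ → Prop := fun n => X ^ (η / 4) ≤ n * Y ∧ (n : ℝ) ^ 3 ≤ Y * X ^ (1 - 2 * (η / 4))
      with hg
    rw [bil_split K (KM X Y) _ α β u v g fun k k1 k2 => by
      obtain ⟨d1, d2⟩ := (k6 Y k Y0 k1).2.2.2.1 k2
      rw [d1, d2, sub_zero]]
    refine (abs_add_le _ _).trans (add_le_add ?_ ?_)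
    · rcases lt_or_ge Y (1 / X) with h' | h'
      · rw [bil, sum_eq_zero fun m _ => sum_eq_zero fun n hn => ?_, abs_zero]
        · exact E0
        · have : ¬ g n := fun ⟨d1, d2⟩ => by
            have n1 : (1 : ℝ) ≤ n := by exact_mod_cast (mem_Icc.1 hn).1
            have d3 := mX (by linarith : 1 - 2 * (η / 4) ≤ 1)
            rw [lt_div_iff₀ X0] at h'
            have := one_le_pow₀ (n := 3) n1
            nlinarith
          simp [this]
      · refine a1 f hf hE Y h' (h.trans (mX (by linarith))) ?_ _ _ u v (fun m => ?_) (fun n => ?_)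
          fun n hn => ?_
        · have b1 : 1 ≤ X ^ (η / 32) := one_le_rpow X1 (by positivity)
          have e1 : (X ^ (η / 32)) ^ 4 = X ^ (η / 8) := by
            rw [← rpow_natCast, ← rpow_mul X0.le]; ring_nf
          have e2 : X ^ (η / 4) = X ^ (η / 8) * X ^ (η / 8) := by rw [← rpow_add X0]; ring_nf
          calc _ ≤ 16 * (2 * X ^ (η / 32)) ^ 4 := by gcongr; linarith
            _ = 256 * X ^ (η / 8) := by rw [mul_pow, e1]; ring
            _ ≤ _ := by rw [e2]; gcongr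
        · split_ifs
          · exact hα m
          · simp
        · split_ifs
          · exact hβ n
          · simp
        · split_ifs at hn with d
          · exact ⟨(hb n hn).1, (hb n hn).2, d.2⟩
          · exact absurd rfl hn
    · refine (bil_le K _ α _ u v hα (fun n => ?_)
        ((Icc 1 ⌊X ^ 2⌋₊).filter fun k : ℕ => k * Y ≤ X ^ (1 - η / 32))
        (fun k hk => dv k (mem_filter.1 hk).1) fun m n m1 n1 c1 c2 c3 => ?_).trans ?_
      · split_ifs
        · simp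
        · exact hβ n
      · split_ifs at c3 with d
        · exact absurd rfl c3
        refine mem_filter.2 ⟨ac m n m1 n1 c1 c2 c3, ?_⟩
        obtain ⟨d1, d2⟩ := hm m n c1 c2 c3
        push_cast
        rcases not_and_or.1 d with d | d
        · calc _ = m * (n * Y) := by ring
            _ ≤ X ^ (1 - η) * X ^ (η / 4) := by gcongr; exact (not_le.1 d).le
            _ ≤ _ := by rw [← rpow_add X0]; exact mono (by linarith)
        · refine le_of_mul_le_mul_right ?_ (rpow_pos_of_pos X0 (1 - 2 * (η / 4)))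
          calc _ = m * n * (Y * X ^ (1 - 2 * (η / 4))) := by ring
            _ ≤ m * n * (n : ℝ) ^ 3 := by gcongr; exact (not_le.1 d).le
            _ ≤ X ^ (2 - η) := by linarith
            _ ≤ _ := by rw [← rpow_add X0]; exact mono (by linarith)
      · gcongr
        exact a0 f hf Y hY _ (fun k hk => (mem_Icc.1 (mem_filter.1 hk).1).1)
          (Or.inr fun k hk => (mem_filter.1 hk).2)
  · rw [← bil_eq K (fun k => sA f Y k - sB f Y k), mul_assoc]
    refine (bil_le K _ α β u v hα hβ _ dv ac).trans ?_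
    gcongr
    exact ht X _ f hX hf Y Y0 hY

end Pool.Agent.Lib.MP_4b1228_nt.PP
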