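import Pool.Agent.Lib.MP_4b1228_nt.PP.H46d

/-! Tables for the means of the rows of Harman type. -/

namespace Pool.Agent.Lib.MP_4b1228_nt.PP.RB.H46

theorem ok1 : allB (fun i => ckM 46 160 136 182 P tab (31 + i)) 31 = true := by
  decide +kernel

end Pool.Agent.Lib.MP_4b1228_nt.PP.RB.H46
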