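import Pool.Agent.Lib.MP_4b1228_nt.PP.H69_0
import Pool.Agent.Lib.MP_4b1228_nt.PP.H69_1
import Pool.Agent.Lib.MP_4b1228_nt.PP.H69_2
import Pool.Agent.Lib.MP_4b1228_nt.PP.H69_3
import Pool.Agent.Lib.MP_4b1228_nt.PP.H69_4
import Pool.Agent.Lib.MP_4b1228_nt.PP.H69_5

/-! Tables for the means of the rows of Harman type. -/

namespace Pool.Agent.Lib.MP_4b1228_nt.PP.RB.H69

theorem law (hR : RhoStmt) (t : R4.Tab) (hT : t.T = 69) (hQ : t.Q ≤ 240) (h0 : 204 ≤ t.a₀)
    (h1 : t.a₁ ≤ 273) :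
    ∀ a ∈ Finset.Ico t.a₀ t.a₁, R3.LawH2 t.T a (a + 1) (t.ψ a) (t.W a) (vH t tab a) := by
  refine lawM hR t tab (hT ▸ okP) okE (fun m hm => ?_) (by omega) (by omega) (by omega) hQ h0 h1
  rw [hT] at hm ⊢
  by_cases c0 : m < 31
  · have h := allB_imp ok0 (m - 0) (by omega)
    rwa [show 0 + (m - 0) = m by omega] at h
  by_cases c1 : m < 62
  · have h := allB_imp ok1 (m - 31) (by omega)
    rwa [show 31 + (m - 31) = m by omega] at h
  by_cases c2 : m < 93
  · have h := allB_imp ok2 (m - 62) (by omega)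
    rwa [show 62 + (m - 62) = m by omega] at h
  by_cases c3 : m < 124
  · have h := allB_imp ok3 (m - 93) (by omega)
    rwa [show 93 + (m - 93) = m by omega] at h
  by_cases c4 : m < 151
  · have h := allB_imp ok4 (m - 124) (by omega)
    rwa [show 124 + (m - 124) = m by omega] at h
  have h := allB_imp ok5 (m - 151) (by omega)
  rwa [show 151 + (m - 151) = m by omega] at h

end Pool.Agent.Lib.MP_4b1228_nt.PP.RB.H69
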