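import Pool.Agent.Lib.MP_4b1228_nt.PP.R3B

/-! The sum of the lower bounds for the means of the rows of Harman type. -/

open Finset

namespace Pool.Agent.Lib.MP_4b1228_nt.PP.RB

/-- The number `w` is at most the sum over all windows. -/
def ckS (t : R4.Tab) (n : HT) (w : ℤ) : Bool :=
  decide (w * 2 ^ 40 ≤ ((List.range (t.a₁ - t.a₀)).map fun i => vZ t n (t.a₀ + i)).sum)

theorem ckS_ok {t : R4.Tab} {n : HT} {w : ℤ} (h : ckS t n w = true) :
    (w : ℚ) ≤ ∑ a ∈ Ico t.a₀ t.a₁, vH t n a := by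
  rw [ckS, decide_eq_true_eq, sum_list] at h
  simp only [vH]
  rw [← sum_div, le_div_iff₀ (by positivity), sum_Ico_eq_sum_range]
  exact_mod_cast h

end Pool.Agent.Lib.MP_4b1228_nt.PP.RB
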