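import Pool.Agent.Lib.MP_4b1228_nt.PP.HaA
import Pool.Agent.Lib.MP_4b1228_nt.PP.GL
import Pool.Agent.Lib.MP_4b1228_nt.PP.RW
import Pool.Agent.Lib.MP_4b1228_nt.PP.St2

/-!
Rows that are exact by the sieve of Harman.
-/

open Finset Real Filter MeasureTheory
open scoped Classical

noncomputable section

namespace Pool.Agent.Lib.MP_4b1228_nt.PP

namespace Ha

variable {X Λ : ℝ} {f : ℝ → ℝ}

theorem int_B (h1 : I1Stmt) (hX : 3 ≤ X) (hf : Adm X Λ f) {k : ℕ} (hk : 1 ≤ k) :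
    Integrable (fun s : ℝ => sB f (exp s) k) ∧ ∫ s : ℝ, sB f (exp s) k = BB f k := by
  obtain ⟨C₁, -, h1⟩ := h1
  obtain ⟨b1, b2⟩ := (h1 X Λ f hX hf).2.1 k (by exact_mod_cast hk)
  unfold sB BB
  split_ifs
  · exact ⟨b1.const_mul _, by rw [integral_const_mul, b2]⟩
  · simp

/-- Integration over the height, with an additional integrable error. -/
theorem core2 (h1 : I1Stmt) (h2 : I2Stmt) (h3 : I3Stmt) (hX : 3 ≤ X) (hf : Adm X Λ f)
    (Z : Finset ℕ) (a : ℕ → ℝ) (hκ : ∀ z ∈ Z, 1 ≤ z) {E D : ℝ} (hE : 0 ≤ E) (hD : 0 ≤ D)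
    {H : ℝ → ℝ} (hH : Integrable H) (H0 : ∀ s, 0 ≤ H s)
    (b1 : ∀ s : ℝ, 1 / X ^ 2 ≤ exp s →
      |∑ z ∈ Z, a z * (sA f (exp s) z - sB f (exp s) z)| ≤ E + H s)
    (b2 : ∀ Y : ℝ, 0 < Y → Y ≤ 1 / X ^ 2 → |∑ z ∈ Z, a z * (sA f Y z - sB f Y z)| ≤ D * √Y) :
    |∑ z ∈ Z, a z * (AA X f z - BB f z)| ≤ 4 * log X * E + 2 * D / X + ∫ s, H s := by
  have X0 : 0 < X := by linarith
  have L1 := Glb.one_le_log hX
  obtain ⟨C₂, -, h2⟩ := h2
  have k6 := ((h2 X hX).2.2.2 _ f hf).2.1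
  have e : ∑ z ∈ Z, a z * (AA X f z - BB f z) =
      ∫ s : ℝ, ∑ z ∈ Z, a z * (sA f (exp s) z - sB f (exp s) z) := by
    rw [integral_finsetSum _ fun z hz => (Glb.int_one h1 h3 hX hf (hκ z hz)).1.const_mul _]
    exact sum_congr rfl fun z hz => by
      rw [integral_const_mul, (Glb.int_one h1 h3 hX hf (hκ z hz)).2]
  set L := log X with hL
  have i1 : Integrable ((Set.Icc (-2 * L) (2 * L)).indicator fun _ : ℝ => E) :=
    (integrable_indicator_iff measurableSet_Icc).2 (integrableOn_const (by simp))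
  have i2 : Integrable ((Set.Iic (-2 * L)).indicator fun s : ℝ => D * exp (1 / 2 * s)) :=
    (integrable_indicator_iff measurableSet_Iic).2
      ((integrableOn_exp_mul_Iic (by norm_num) _).const_mul D)
  have e2 : exp (-2 * L) = 1 / X ^ 2 := by
    rw [show -2 * L = -((2 : ℕ) * L) by push_cast; ring, exp_neg, exp_nat_mul, hL, exp_log X0,
      one_div]
  rw [e, ← Real.norm_eq_abs]
  refine (norm_integral_le_of_norm_le ((i1.add i2).add hH)
    (Eventually.of_forall fun s => ?_)).trans ?_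
  · rw [Real.norm_eq_abs, Pi.add_apply, Pi.add_apply]
    have n0 := H0 s
    have n1 : 0 ≤ (Set.Icc (-2 * L) (2 * L)).indicator (fun _ : ℝ => E) s :=
      Set.indicator_nonneg (fun _ _ => hE) _
    have n2 : 0 ≤ (Set.Iic (-2 * L)).indicator (fun s : ℝ => D * exp (1 / 2 * s)) s :=
      Set.indicator_nonneg (fun _ _ => by positivity) _
    rcases le_total s (-2 * L) with h | h
    · rw [Set.indicator_of_mem (show s ∈ Set.Iic (-2 * L) from h)]
      have := b2 (exp s) (exp_pos _) (e2 ▸ exp_le_exp.2 h)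
      rw [← exp_half, show s / 2 = 1 / 2 * s by ring] at this
      linarith
    · rcases le_or_gt s (2 * L) with h' | h'
      · rw [Set.indicator_of_mem (show s ∈ Set.Icc (-2 * L) (2 * L) from ⟨h, h'⟩)]
        have := b1 s (e2 ▸ exp_le_exp.2 h)
        linarith
      · have c1 : X ^ 2 < exp s := by
          have := exp_lt_exp.2 h'
          rwa [show 2 * L = (2 : ℕ) * L by push_cast; ring, exp_nat_mul, hL, exp_log X0] at this
        have c2 : KM X (exp s) = 0 := by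
          rw [KM, Nat.floor_eq_zero, div_lt_one (exp_pos _)]
          nlinarith
        rw [sum_eq_zero fun z hz => ?_, abs_zero]
        · positivity
        · obtain ⟨d1, d2⟩ := (k6 (exp s) z (exp_pos _) (hκ z hz)).2.2.2.1
            (by rw [c2]; exact hκ z hz)
          rw [d1, d2, sub_zero, mul_zero]
  · rw [integral_add' (i1.add i2) hH]
    simp only [Pi.add_apply]
    rw [integral_add i1 i2, integral_indicator measurableSet_Icc,
      integral_indicator measurableSet_Iic, integral_const_mul,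
      integral_exp_mul_Iic (by norm_num), setIntegral_const, Real.volume_real_Icc_of_le
        (by linarith), show 1 / 2 * (-2 * L) = -L by ring, exp_neg, hL, exp_log X0, smul_eq_mul]
    apply le_of_eq
    field_simp
    ring

theorem abs_anti {k : ℕ} {B T : ℝ} {p q : ℕ → ℝ} (hT : (#k.divisors : ℝ) ≤ T)
    (hp : ∀ d, |p d| ≤ B) (hq : ∀ d, |q d| ≤ B) :
    |∑ x ∈ k.divisorsAntidiagonal, p x.1 * q x.2| ≤ T * B ^ 2 := by
  have hB := (abs_nonneg _).trans (hp 0)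
  rw [Nat.sum_divisorsAntidiagonal fun a b => p a * q b]
  refine (abs_sum_le_sum_abs _ _).trans ((sum_le_card_nsmul _ _ (B ^ 2) fun d _ => ?_).trans ?_)
  · rw [abs_mul, sq]
    exact mul_le_mul (hp _) (hq _) (abs_nonneg _) hB
  · rw [nsmul_eq_mul]
    exact mul_le_mul_of_nonneg_right hT (sq_nonneg B)

theorem abs_psi {z WL WH D₂ T : ℝ} {B k : ℕ} {f₁ f₂ g₁ g₂ : ℕ → ℕ → ℝ}
    (hok : Ok WL WH D₂ B f₁ f₂ g₁ g₂) (k1 : 1 ≤ k) (hT1 : 1 ≤ T)
    (hT : (#{d ∈ k.divisors | Rough z d} : ℝ) ≤ T) :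
    |Psi z B f₁ f₂ g₁ g₂ k| ≤ (2 * B ^ 3 * T ^ 2 + 1) * if Rough z k then 1 else 0 := by
  unfold Psi
  split_ifs with h
  · have c : (#k.divisors : ℝ) ≤ T := (S1.card_div h).trans_le hT
    refine (abs_sum_le_sum_abs _ _).trans ((sum_le_card_nsmul _ _ (2 * B ^ 2 * T ^ 2)
      fun j _ => (abs_sub _ _).trans ?_).trans ?_)
    · have a1 := abs_anti c (fun d => (hok j d).2.2.1) fun d => (hok j d).2.2.2.1
      have a2 : |∑ D ∈ k.divisors, ∑ x ∈ D.divisorsAntidiagonal, f₁ j x.1 * f₂ j x.2| ≤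
          T * (T * B ^ 2) := by
        refine (abs_sum_le_sum_abs _ _).trans ((sum_le_card_nsmul _ _ (T * B ^ 2)
          fun D hD => abs_anti (le_trans ?_ c) (fun d => (hok j d).1)
            fun d => (hok j d).2.1).trans ?_)
        · exact_mod_cast card_le_card (Nat.divisors_subset_of_dvd (by omega)
            (Nat.dvd_of_mem_divisors hD))
        · rw [nsmul_eq_mul]
          exact mul_le_mul_of_nonneg_right c (by positivity)
      have a3 : T * (B : ℝ) ^ 2 ≤ T * (T * B ^ 2) :=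
        le_mul_of_one_le_left (by positivity) hT1
      linarith
    · rw [card_range, nsmul_eq_mul]
      linarith
  · simp

/-- the indicator function of `1` -/
def dl1 (_ d : ℕ) : ℝ := if d = 1 then 1 else 0

theorem ok0 {WL WH D₂ : ℝ} (h1 : 1 ≤ WH) (h2 : 1 ≤ D₂) :
    Ok WL WH D₂ 1 dl1 dl1 (fun _ _ => 0) (fun _ _ => 0) := by
  intro j d
  by_cases h : d = 1 <;> simp [dl1, h, h1, h2]

theorem psi0 (z : ℝ) {k : ℕ} (k1 : 1 ≤ k) :
    Psi z 1 dl1 dl1 (fun _ _ => 0) (fun _ _ => 0) k = if Rough z k then 1 else 0 := by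
  unfold Psi
  congr 1
  rw [sum_range_one, sum_eq_single 1]
  · simp [dl1]
  · intro D _ hD
    refine sum_eq_zero fun x hx => ?_
    have e := (Nat.mem_divisorsAntidiagonal.1 hx).1
    unfold dl1
    split_ifs with a b
    · exact absurd (by rw [← e, a, b]) hD
    all_goals simp
  · intro h
    exact absurd (Nat.one_mem_divisors.2 (by omega)) h

/-- the estimate in a boundary window -/
theorem wind {a b Ψ : ℕ → ℝ} {M : ℕ} {z lo C E₁ E₂ : ℝ} {F S : Finset ℕ} (Q : ℕ → Prop)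
    [DecidablePred Q] (hab : ∀ k, 1 ≤ k → 0 ≤ a k ∧ 0 ≤ b k ∧ (M < k → a k = 0 ∧ b k = 0))
    (hC : 0 ≤ C) (hF : ∀ k ∈ F, 1 ≤ k ∧ Squarefree k ∧ |Ψ k| ≤ C * if Rough z k then 1 else 0)
    (hQ : ∀ k : ℕ, (k : ℝ) < lo → Q k)
    (h1 : |∑ k ∈ (Icc 1 M : Finset ℕ) with Squarefree (k : ℕ) ∧ lo ≤ k,
      Psi z 1 dl1 dl1 (fun _ _ => 0) (fun _ _ => 0) k * (a k - b k)| ≤ E₁)
    (h2 : ∑ k ∈ (Icc 1 M : Finset ℕ) with Q k, (a k + b k) ≤ E₂)
    (hS : ∀ k : ℕ, 1 ≤ k → k ≤ M → Squarefree k → Rough z k → lo ≤ k → k ∈ S)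
    (hS1 : ∀ k ∈ S, 1 ≤ k) :
    |∑ k ∈ F, Ψ k * (a k - b k)| ≤ C * (E₁ + E₂ + 2 * ∑ k ∈ S, b k) := by
  have e : ∑ k ∈ F, Ψ k * (a k - b k) = ∑ k ∈ (Icc 1 M).filter (· ∈ F), Ψ k * (a k - b k) := by
    refine (sum_subset (fun k hk => (mem_filter.1 hk).2) fun k hk hn => ?_).symm
    have k1 := (hF k hk).1
    obtain ⟨q1, q2⟩ := (hab k k1).2.2 (by
      by_contra h
      exact hn (mem_filter.2 ⟨mem_Icc.2 ⟨k1, not_lt.1 h⟩, hk⟩))
    rw [q1, q2, sub_zero, mul_zero]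
  have h3 : ∑ k ∈ (Icc 1 M).filter (· ∈ S), b k ≤ ∑ k ∈ S, b k :=
    sum_le_sum_of_subset_of_nonneg (fun k hk => (mem_filter.1 hk).2)
      fun k hk _ => (hab k (hS1 k hk)).2.1
  refine le_trans ?_ (mul_le_mul_of_nonneg_left (add_le_add (add_le_add ((le_abs_self _).trans h1)
    h2) (mul_le_mul_of_nonneg_left h3 zero_le_two)) hC)
  rw [e, sum_filter, sum_filter, sum_filter, sum_filter, mul_sum, ← sum_add_distrib,
    ← sum_add_distrib, mul_sum]
  refine (abs_sum_le_sum_abs _ _).trans (sum_le_sum fun k hk => ?_)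
  obtain ⟨k1, k2⟩ := mem_Icc.1 hk
  obtain ⟨ha, hb, -⟩ := hab k k1
  have n : 0 ≤ (if Squarefree k ∧ lo ≤ k then
      Psi z 1 dl1 dl1 (fun _ _ => 0) (fun _ _ => 0) k * (a k - b k) else 0) +
      (if Q k then a k + b k else 0) + 2 * (if k ∈ S then b k else 0) -
      (if Squarefree k ∧ Rough z k then a k + b k else 0) := by
    rw [psi0 z k1]
    by_cases c1 : Squarefree k
    · by_cases c2 : Rough z k
      · by_cases c3 : lo ≤ k
        · rw [if_pos (And.intro c1 c3), if_pos c2, if_pos (hS k k1 k2 c1 c2 c3),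
            if_pos (And.intro c1 c2)]
          split_ifs <;> linarith
        · rw [if_neg fun h => c3 h.2, if_pos (hQ k (not_le.1 c3)), if_pos (And.intro c1 c2)]
          split_ifs <;> linarith
      · rw [if_neg c2, if_neg (show ¬ (Squarefree k ∧ Rough z k) from fun h => c2 h.2)]
        split_ifs <;> linarith
    · rw [if_neg fun h => c1 h.1, if_neg (show ¬ (Squarefree k ∧ Rough z k) from fun h => c1 h.1)]
      split_ifs <;> linarith
  refine le_trans ?_ (mul_le_mul_of_nonneg_left (sub_nonneg.1 n) hC)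
  by_cases c : k ∈ F
  · obtain ⟨-, f2, f3⟩ := hF k c
    rw [if_pos c, abs_mul]
    have c3 : |a k - b k| ≤ a k + b k := abs_le.2 ⟨by linarith, by linarith⟩
    refine (mul_le_mul f3 c3 (abs_nonneg _) ((abs_nonneg _).trans f3)).trans (le_of_eq ?_)
    by_cases c2 : Rough z k <;> simp [c2, f2]
  · rw [if_neg c, abs_zero]
    refine mul_nonneg hC ?_
    split_ifs <;> linarith

theorem triv {r Ψ : ℕ → ℝ} {C E : ℝ} {F S : Finset ℕ} (hC : 0 ≤ C) (hF : ∀ k ∈ F, |Ψ k| ≤ C)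
    (hS : F ⊆ S) (h : ∑ k ∈ S, |r k| ≤ E) : |∑ k ∈ F, Ψ k * r k| ≤ C * E := by
  refine (abs_sum_le_sum_abs _ _).trans (le_trans ?_ (mul_le_mul_of_nonneg_left
    ((sum_le_sum_of_subset_of_nonneg hS fun _ _ _ => abs_nonneg _).trans h) hC))
  rw [mul_sum]
  refine sum_le_sum fun k hk => ?_
  rw [abs_mul]
  exact mul_le_mul_of_nonneg_right (hF k hk) (abs_nonneg _)

theorem EE_eq (X : ℝ) (f : ℝ → ℝ) (Ψ : ℕ → ℝ) (lo : ℝ) {hi : ℝ} (h0 : 0 ≤ hi) :
    EE X f (fun n => ∑ k ∈ n.divisors with Squarefree (k : ℕ) ∧ lo ≤ k ∧ (k : ℝ) ≤ hi, Ψ k) =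
      ∑ k ∈ (Icc 1 ⌊hi⌋₊ : Finset ℕ) with Squarefree (k : ℕ) ∧ lo ≤ k, Ψ k * AA X f k := by
  unfold EE AA
  simp only [← filter_filter (fun l : ℤ => Even l), mul_sum]
  simp only [sum_filter (fun l : ℤ => _ ∣ l ^ 2 + 1)]
  rw [sum_comm]
  refine sum_congr rfl fun l _ => ?_
  have p : 0 < l ^ 2 + 1 := by positivity
  rw [← sum_filter]
  refine sum_congr ?_ fun k _ => mul_comm _ _
  ext k
  have e : k ∣ (l ^ 2 + 1).toNat ↔ (k : ℤ) ∣ l ^ 2 + 1 := by
    rw [← Int.natCast_dvd_natCast, Int.toNat_of_nonneg p.le]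
  simp only [mem_filter, Nat.mem_divisors, mem_Icc, Nat.le_floor_iff h0, e]
  exact ⟨fun ⟨⟨a, _⟩, b, c, d⟩ => ⟨⟨⟨Nat.pos_of_ne_zero b.ne_zero, d⟩, b, c⟩, a⟩,
    fun ⟨⟨⟨_, d⟩, b, c⟩, a⟩ => ⟨⟨a, by omega⟩, b, c, d⟩⟩

theorem sum_BB {S : Finset ℕ} (I0 : 0 ≤ Itot f) :
    ∑ k ∈ S, BB f k ≤ (∑ k ∈ S, (rho k : ℝ) / k) * (Itot f / 2) := by
  rw [sum_mul]
  refine sum_le_sum fun k _ => ?_
  unfold BB
  split_ifs
  · exact le_of_eq (by ring)
  · positivity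

/-- The two-sided estimate with the true mean. -/
theorem main (hR : RhoStmt) (hRS : RSStmt) (hM : MertStmt) (h1 : I1Stmt) (h2 : I2Stmt)
    (h3 : I3Stmt) (hT1 : T1Stmt) (hT2 : T2Stmt) (hT0 : T0Stmt) {α₀ α₁ wl wh d₂ τ : ℝ} (B : ℕ)
    (ha0 : 1 < α₀) (ha01 : α₀ ≤ α₁) (hwl : α₁ - 1 < wl) (hwh : wl < wh) (hw3 : 3 * wh < 2 - α₁)
    (hd : 0 < d₂) (hd2 : wl + d₂ < 1 / 2) (hτ : 0 < τ) :
    ∃ η₀ : ℝ, 0 < η₀ ∧ ∀ (A : ℕ) (η δ c : ℝ), 0 < η → η ≤ η₀ → 0 < δ → 0 < c →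
      ∀ᶠ X : ℝ in atTop, ∀ f : ℝ → ℝ, Adm X (log X ^ A) f → E1 X η δ f → E2 X η δ f →
        c * X ≤ Itot f → ∀ f₁ f₂ g₁ g₂ : ℕ → ℕ → ℝ, Ok (X ^ wl) (X ^ wh) (X ^ d₂) B f₁ f₂ g₁ g₂ →
        |EE X f (fun n => ∑ k ∈ n.divisors with
            Squarefree (k : ℕ) ∧ X ^ α₀ ≤ k ∧ (k : ℝ) ≤ X ^ α₁,
            Psi (X ^ (wh - wl)) B f₁ f₂ g₁ g₂ k) -
          (∑ k ∈ (Icc 1 ⌊X ^ α₁⌋₊ : Finset ℕ) with Squarefree (k : ℕ) ∧ X ^ α₀ ≤ k,
            Psi (X ^ (wh - wl)) B f₁ f₂ g₁ g₂ k * (rho k / k)) * (Itot f / 2)| ≤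
          τ * (Itot f / 2) := by
  have hw : 0 < wh - wl := sub_pos.2 hwh
  obtain ⟨Cw, hCw, rw1⟩ := RW.rw hR hM hw
  obtain ⟨Ct, hCt, tl1⟩ := Glb.tail hR h1 h2
  obtain ⟨Tz, hTz⟩ : ∃ Tz : ℝ, Tz = 2 ^ (2 / (wh - wl)) := ⟨_, rfl⟩
  have Tz1 : 1 ≤ Tz := hTz ▸ one_le_rpow (by norm_num) (by positivity)
  obtain ⟨C, hC⟩ : ∃ C : ℝ, C = 2 * B ^ 3 * Tz ^ 2 + 1 := ⟨_, rfl⟩
  have C1 : 1 ≤ C := hC ▸ le_add_of_nonneg_left (by positivity)
  have C0 : 0 < C := by linarith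
  refine ⟨min (min (min ((α₀ - 1) / 2) ((wl + 1 - α₁) / 2))
    (min ((2 - α₁ - 3 * wh) / 3) ((1 / 2 - wl - d₂) / 3))) (τ / (32 * C * Cw)),
    lt_min (lt_min (lt_min (by linarith) (by linarith)) (lt_min (by linarith) (by linarith)))
      (by positivity), fun A η δ c hη hη0 hδ hc => ?_⟩
  obtain ⟨⟨⟨η0, η1⟩, η2, η3⟩, η4⟩ : ((η ≤ (α₀ - 1) / 2 ∧ η ≤ (wl + 1 - α₁) / 2) ∧
      η ≤ (2 - α₁ - 3 * wh) / 3 ∧ η ≤ (1 / 2 - wl - d₂) / 3) ∧ η ≤ τ / (32 * C * Cw) := by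
    simpa only [le_min_iff] using hη0
  have η5 : 4 * η ≤ 1 := by linarith
  have a54 : α₁ + 2 * η ≤ 4 / 3 := by linarith
  have P := fun B => pt hR hRS h2 hT1 hT2 hT0 A B hη hδ ha01 hwh hd (by linarith) (by linarith)
    (by linarith) (by linarith)
  have I2 := h2
  obtain ⟨C2, -, i2⟩ := I2
  filter_upwards [P B, P 1, hT0 A 0 η hη (by linarith), Glb.unif hR h2 hT0 A hη (by linarith),
    rw1 (4 * η) (by positivity) η5, eventually_ge_atTop 3,
    (tendsto_rpow_atTop hη).eventually_gt_atTop 2, (tendsto_rpow_atTop hw).eventually_gt_atTop 2,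
    T1.ev_log 1 (η / 5) 2 (by positivity),
    T1.ev_log (16 * C * Ct / (τ * c)) (1 / 2) (A + 2) (by norm_num),
    tendsto_log_atTop.eventually_ge_atTop (64 * C / (τ * c))]
    with X pB p1 t0 un rw2 hX η2X z2 l1 l2 l3 f hf e1 e2 hI f₁ f₂ g₁ g₂ hok
  clear P rw1 hη0
  have X0 : 0 < X := by linarith only [hX]
  have X1 : 1 ≤ X := by linarith only [hX]
  have L1 := Glb.one_le_log hX
  have L0 : 0 < log X := by linarith only [L1]
  have xp : ∀ a : ℝ, X ^ a = exp (a * log X) := fun a => by rw [rpow_def_of_pos X0, mul_comm]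
  have I0 : 0 < Itot f := (mul_pos hc X0).trans_le hI
  have i3 := ((i2 X hX).2.2.2 _ f hf).2.1
  have t0b := (t0 f hf).2.1
  have hE : X ^ (1 - η / 5) ≤ X / log X ^ 2 := by
    rw [rpow_sub X0, rpow_one]
    exact div_le_div_of_nonneg_left X0.le (by positivity) (by linarith only [l1])
  obtain ⟨Ψ, hΨ⟩ : ∃ Ψ, Ψ = Psi (X ^ (wh - wl)) B f₁ f₂ g₁ g₂ := ⟨_, rfl⟩
  obtain ⟨F, hF⟩ : ∃ F, F = (Icc 1 ⌊X ^ α₁⌋₊ : Finset ℕ).filter
    (fun k : ℕ => Squarefree k ∧ X ^ α₀ ≤ k) := ⟨_, rfl⟩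
  have mF : ∀ k, k ∈ F ↔ (1 ≤ k ∧ (k : ℝ) ≤ X ^ α₁) ∧ Squarefree k ∧ X ^ α₀ ≤ k := fun k => by
    rw [hF, mem_filter, mem_Icc, Nat.le_floor_iff (by positivity)]
  have F2 : ∀ k ∈ F, (k : ℝ) ≤ X ^ (2 : ℝ) := fun k hk => ((mF k).1 hk).1.2.trans
    (rpow_le_rpow_of_exponent_le X1 (by linarith only [a54, hη]))
  have bΨ : ∀ k ∈ F, 1 ≤ k ∧ Squarefree k ∧
      |Ψ k| ≤ C * if Rough (X ^ (wh - wl)) k then 1 else 0 := fun k hk => by
    obtain ⟨⟨k1, -⟩, k3, -⟩ := (mF k).1 hk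
    refine ⟨k1, k3, hΨ ▸ hC ▸ abs_psi hok k1 Tz1 ?_⟩
    refine (hR.2.2.2.2.2.2.2.2.2.2.2 _ k (by linarith only [z2]) k1).trans ?_
    rw [hTz, log_rpow X0]
    refine rpow_le_rpow_of_exponent_le (by norm_num) ?_
    rw [div_le_div_iff₀ (by positivity) hw]
    have a1 : log k ≤ 2 * log X := by
      rw [← log_rpow X0]
      exact log_le_log (by exact_mod_cast k1) (F2 k hk)
    linarith only [mul_le_mul_of_nonneg_right a1 hw.le]
  have bΨ' : ∀ k ∈ F, |Ψ k| ≤ C := fun k hk => (bΨ k hk).2.2.trans (by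
    split_ifs
    · exact (mul_one C).le
    · rw [mul_zero]; exact C0.le)
  obtain ⟨S, hS⟩ : ∃ S : ℝ → Finset ℕ, S = fun a => (Icc 1 ⌊X ^ (a + 2 * η)⌋₊ : Finset ℕ).filter
    (fun k : ℕ => Squarefree k ∧ Rough (X ^ (wh - wl)) k ∧ X ^ (a - 2 * η) ≤ k) := ⟨_, rfl⟩
  have mS : ∀ a k, k ∈ S a ↔ (1 ≤ k ∧ (k : ℝ) ≤ X ^ (a + 2 * η)) ∧ Squarefree k ∧
      Rough (X ^ (wh - wl)) k ∧ X ^ (a - 2 * η) ≤ k := fun a k => by
    rw [hS, mem_filter, mem_Icc, Nat.le_floor_iff (by positivity)]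
  have iS : ∀ a, α₀ ≤ a → a ≤ α₁ → Integrable (fun s => ∑ k ∈ S a, sB f (exp s) k) ∧
      ∫ s, ∑ k ∈ S a, sB f (exp s) k ≤ Cw * (4 * η) * (Itot f / 2) := fun a b0 b1 => by
    have q := fun k (hk : k ∈ S a) => int_B h1 hX hf ((mS a k).1 hk).1.1
    refine ⟨integrable_finsetSum _ fun k hk => (q k hk).1, ?_⟩
    rw [integral_finsetSum _ fun k hk => (q k hk).1, sum_congr rfl fun k hk => (q k hk).2]
    refine (sum_BB I0.le).trans (mul_le_mul_of_nonneg_right (rw2 (a - 2 * η) _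
      (by linarith only [η0, b0]) (by linarith only [a54, b1, hη]) fun k hk => ?_) (by positivity))
    obtain ⟨⟨-, k2⟩, k3, k4, k5⟩ := (mS a k).1 hk
    exact ⟨k3, k4, k5, k2.trans_eq (by congr 1; ring)⟩
  have nS : ∀ a s, 0 ≤ ∑ k ∈ S a, sB f (exp s) k := fun a s => sum_nonneg fun k hk =>
    (i3 _ k (exp_pos s) ((mS a k).1 hk).1.1).2.1
  have E0 : 0 ≤ X / log X ^ 2 := by positivity
  have KMle : ∀ a s : ℝ, (1 - a + η) * log X ≤ s → (KM X (exp s) : ℝ) < X ^ a := fun a s h => by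
    refine (Nat.floor_le (by positivity) : (KM X (exp s) : ℝ) ≤ 2 * X / exp s).trans_lt ?_
    rw [div_lt_iff₀ (exp_pos s)]
    calc 2 * X < X ^ η * X ^ (1 : ℝ) := by rw [rpow_one]; gcongr
      _ ≤ _ := by
        rw [xp, xp, xp, ← exp_add, ← exp_add, exp_le_exp]
        linarith only [h]
  have key := core2 h1 h2 h3 hX hf F Ψ (fun k hk => (bΨ k hk).1)
    (E := 2 * C * (X / log X ^ 2)) (D := C * (Ct * log X ^ A * log X ^ 2 * √X * X))
    (by positivity) (by positivity)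
    (H := fun s => 2 * C * (∑ k ∈ S α₀, sB f (exp s) k + ∑ k ∈ S α₁, sB f (exp s) k))
    (((iS _ le_rfl ha01).1.add (iS _ ha01 le_rfl).1).const_mul _)
    (fun s => mul_nonneg (by positivity) (add_nonneg (nS _ s) (nS _ s)))
    (fun s hs => by
      have Y0 := exp_pos s
      have ab : ∀ k, 1 ≤ k → 0 ≤ sA f (exp s) k ∧ 0 ≤ sB f (exp s) k ∧
          (KM X (exp s) < k → sA f (exp s) k = 0 ∧ sB f (exp s) k = 0) := fun k hk => by
        obtain ⟨a1, a2, -, a3, -⟩ := i3 _ k Y0 hk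
        exact ⟨a1, a2, a3⟩
      have n0 := mul_nonneg C0.le (nS α₀ s)
      have n1 := mul_nonneg C0.le (nS α₁ s)
      have n2 := mul_nonneg C0.le E0
      have W : ∀ a, α₀ ≤ a → a ≤ α₁ → (1 - a - η) * log X ≤ s → s ≤ (1 - a + η) * log X →
          |∑ k ∈ F, Ψ k * (sA f (exp s) k - sB f (exp s) k)| ≤
            C * (X / log X ^ 2 + X / log X ^ 2 + 2 * ∑ k ∈ S a, sB f (exp s) k) :=
        fun a b0 b1 s0 s1 => by
        have q : X ^ (a - 2 * η) * exp s ≤ X ^ (1 - η) := by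
          rw [xp, xp, ← exp_add, exp_le_exp]
          linarith only [s1]
        refine wind (fun k : ℕ => (k : ℝ) * exp s ≤ X ^ (1 - η)) ab C0.le bΨ
          (fun k hk => (mul_le_mul_of_nonneg_right hk.le Y0.le).trans q)
          (p1 f hf e1 e2 s _
            (le_trans (mul_le_mul_of_nonneg_right (by linarith only [b1]) L0.le) s0)
            (s1.trans (mul_le_mul_of_nonneg_right (by linarith only [b0]) L0.le)) q _ _ _ _
            (ok0 (one_le_rpow X1 (by linarith only [hwl, hwh, ha0, ha01])) (one_le_rpow X1 hd.le)))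
          ((t0b _ hs).trans hE) (fun k k1 k2 k3 k4 k5 => (mS a k).2 ⟨⟨k1, ?_⟩, k3, k4, k5⟩)
          fun k hk => ((mS a k).1 hk).1.1
        exact le_trans (by exact_mod_cast k2) (KMle _ s (by linarith only [s0])).le
      rcases le_total s ((1 - α₁ - η) * log X) with c1 | c1
      · have := triv C0.le bΨ' Subset.rfl ((un f hf _ hs F (fun k hk => (bΨ k hk).1)
          (Or.inr fun k hk => ?_)).trans hE)
        · linarith only [this, n0, n1, n2]
        · calc (k : ℝ) * exp s ≤ X ^ α₁ * exp s :=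
                mul_le_mul_of_nonneg_right ((mF k).1 hk).1.2 Y0.le
            _ ≤ _ := by
              rw [xp, xp, ← exp_add, exp_le_exp]
              linarith only [c1]
      rcases le_total s ((1 - α₁ + η) * log X) with c2 | c2
      · linarith only [W α₁ ha01 le_rfl c1 c2, n0]
      rcases le_total s ((1 - α₀ - η) * log X) with c3 | c3
      · have q := pB f hf e1 e2 s (X ^ α₀) c1
          (c3.trans (mul_le_mul_of_nonneg_right (by linarith only [hη]) L0.le)) (by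
            rw [xp, xp, ← exp_add, exp_le_exp]
            linarith only [c3]) _ _ _ _ hok
        rw [← hΨ, sum_subset (s₂ := F) (fun k hk => ?_) fun k hk hn => ?_] at q
        · have := le_mul_of_one_le_left E0 C1
          linarith only [q, this, n0, n1, n2]
        · obtain ⟨k1, k2⟩ := mem_filter.1 hk
          exact (mF k).2 ⟨⟨(mem_Icc.1 k1).1,
            le_trans (by exact_mod_cast (mem_Icc.1 k1).2) (KMle _ s c2).le⟩, k2⟩
        · obtain ⟨⟨k1, -⟩, k2⟩ := (mF k).1 hk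
          obtain ⟨q1, q2⟩ := (ab k k1).2.2 (by
            by_contra h
            exact hn (mem_filter.2 ⟨mem_Icc.2 ⟨k1, not_lt.1 h⟩, k2⟩))
          rw [q1, q2, sub_zero, mul_zero]
      rcases le_total s ((1 - α₀ + η) * log X) with c4 | c4
      · linarith only [W α₀ le_rfl ha01 c3 c4, n1]
      · rw [sum_eq_zero fun k hk => ?_, abs_zero]
        · linarith only [n0, n1, n2]
        · obtain ⟨⟨k1, -⟩, -, k2⟩ := (mF k).1 hk
          obtain ⟨q1, q2⟩ := (ab k k1).2.2 (by exact_mod_cast (KMle _ s c4).trans_le k2)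
          rw [q1, q2, sub_zero, mul_zero])
    (fun Y Y0 hY => by
      rw [mul_assoc C]
      refine triv C0.le bΨ' (fun k hk => mem_Icc.2 ⟨(bΨ k hk).1, Nat.le_floor ?_⟩)
        (tl1 X _ f hX hf Y Y0 hY)
      exact_mod_cast F2 k hk)
  have e : ∑ k ∈ F, Ψ k * (AA X f k - BB f k) =
      ∑ k ∈ F, Ψ k * AA X f k - (∑ k ∈ F, Ψ k * (rho k / k)) * (Itot f / 2) := by
    rw [sum_mul, ← sum_sub_distrib]
    refine sum_congr rfl fun k hk => ?_
    unfold BB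
    split_ifs with h
    · ring
    · have q := (bΨ k hk).2.2
      rw [if_neg fun r => not_le.2 z2 (by
        exact_mod_cast r 2 Nat.prime_two (even_iff_two_dvd.1 (Nat.not_odd_iff_even.1 h))),
        mul_zero, abs_nonpos_iff] at q
      simp [q]
  rw [← hΨ, EE_eq X f Ψ _ (by positivity), ← hF, ← e]
  refine key.trans ?_
  rw [integral_const_mul, integral_add (iS _ le_rfl ha01).1 (iS _ ha01 le_rfl).1]
  have a1 : 4 * log X * (2 * C * (X / log X ^ 2)) ≤ τ * (c * X) / 8 := by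
    rw [div_le_iff₀ (by positivity)] at l3
    calc _ = 64 * C * X / (8 * log X) := by field_simp; ring
      _ ≤ log X * (τ * c) * X / (8 * log X) := by gcongr
      _ = _ := by field_simp
  have a2 : 2 * (C * (Ct * log X ^ A * log X ^ 2 * √X * X)) / X ≤ τ * (c * X) / 8 := by
    rw [← sqrt_eq_rpow] at l2
    calc _ = 16 * C * Ct / (τ * c) * log X ^ (A + 2) * √X * (τ * c / 8) := by field_simp; ring
      _ ≤ √X * √X * (τ * c / 8) := by gcongr
      _ = _ := by rw [mul_self_sqrt X0.le]; ring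
  have a3 : 2 * C * ((∫ s, ∑ k ∈ S α₀, sB f (exp s) k) + ∫ s, ∑ k ∈ S α₁, sB f (exp s) k) ≤
      τ * Itot f / 4 := by
    rw [le_div_iff₀ (by positivity)] at η4
    calc _ ≤ 2 * C * (Cw * (4 * η) * (Itot f / 2) + Cw * (4 * η) * (Itot f / 2)) :=
          mul_le_mul_of_nonneg_left (add_le_add (iS _ le_rfl ha01).2 (iS _ ha01 le_rfl).2)
            (by positivity)
      _ = η * (32 * C * Cw) * Itot f / 4 := by ring
      _ ≤ _ := by gcongr
  linarith only [a1, a2, a3, mul_le_mul_of_nonneg_left hI hτ.le]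

end Ha

theorem haS (hR : RhoStmt) (hRS : RSStmt) (hM : MertStmt) (h1 : I1Stmt) (h2 : I2Stmt)
    (h3 : I3Stmt) (hT1 : T1Stmt) (hT2 : T2Stmt) (hT0 : T0Stmt) : HaStmt := by
  intro α₀ α₁ wl wh d₂ σ v B f₁ f₂ g₁ g₂ ha0 ha01 hwl hwh hw3 hd hd2 h C₀ τ _ hτ
  have s0 : 0 < |σ| + 1 := by positivity
  obtain ⟨η₀, hη₀, H⟩ := Ha.main hR hRS hM h1 h2 h3 hT1 hT2 hT0 B ha0 ha01 hwl hwh hw3 hd hd2
    (div_pos hτ s0)
  refine ⟨η₀, hη₀, fun A η δ c hη hη0 hδ hc => ?_⟩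
  filter_upwards [H A η δ c hη hη0 hδ hc, h, eventually_gt_atTop 0] with X hX ⟨hok, hv⟩ X0 f hf
  have q := hX f hf.adm hf.e1 hf.e2 hf.low _ _ _ _ hok
  have I0 : 0 ≤ Itot f / 2 := by linarith [mul_pos hc X0, hf.low]
  have e : ∀ T : ℕ → ℝ, EE X f (fun n => σ * T n) = σ * EE X f T := fun T => by
    unfold EE
    rw [mul_sum]
    exact sum_congr rfl fun l _ => by ring
  rw [e]
  have a1 := mul_le_mul_of_nonneg_left q (abs_nonneg σ)
  rw [← abs_mul] at a1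
  have a2 := neg_le_of_abs_le a1
  have a3 := mul_le_mul_of_nonneg_right hv I0
  have a4 : |σ| * (τ / (|σ| + 1) * (Itot f / 2)) ≤ τ * (Itot f / 2) := by
    rw [← mul_assoc, ← mul_div_assoc |σ|]
    refine mul_le_mul_of_nonneg_right ((div_le_iff₀ s0).2 ?_) I0
    linarith
  linarith

end Pool.Agent.Lib.MP_4b1228_nt.PP
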