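import Pool.Agent.Lib.MP_4b1228_nt.PP.S1

/-! The abstract sieve inequality, two-sided form. -/

open Finset Real
open scoped Classical

noncomputable section

namespace Pool.Agent.Lib.MP_4b1228_nt.PP

def S1tStmt : Prop :=
  ∀ (a b : ℕ → ℝ) (M D B kb : ℕ) (w z WL WH D₂ lo Tz Tw E E₀ : ℝ) (f₁ f₂ g₁ g₂ : ℕ → ℕ → ℝ),
    (∀ k, 1 ≤ k → 0 ≤ a k ∧ 0 ≤ b k ∧ (M < k → a k = 0 ∧ b k = 0)) →
    1 < w → w ≤ z → z ≤ M → 1 ≤ WL → WL * z ≤ WH → 1 ≤ kb → WL * D₂ * w ^ kb ≤ D →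
    1 ≤ Tz → 1 ≤ Tw → 0 ≤ E →
    (∀ k ∈ (Icc 1 (max M D) : Finset ℕ), (#{d ∈ k.divisors | Rough z d} : ℝ) ≤ Tz) →
    (∀ k ∈ (Icc 1 M : Finset ℕ), (#{d ∈ k.divisors | Rough w d} : ℝ) ≤ Tw) →
    Ok WL WH D₂ B f₁ f₂ g₁ g₂ →
    ∑ d ∈ (Icc 1 D : Finset ℕ) with Squarefree d,
      |∑ k ∈ (Icc 1 M : Finset ℕ) with d ∣ k, (a k - b k)| ≤ E →
    (∀ (α β : ℕ → ℝ) (u v : ℕ → ℕ), (∀ m, |α m| ≤ 1) → (∀ n, |β n| ≤ 1) →
      (∀ n, β n ≠ 0 → Squarefree n ∧ Rough w n ∧ WL ≤ n ∧ (n : ℝ) ≤ WH) →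
      |bil M (fun k => a k - b k) α β u v| ≤ E) →
    ∑ d ∈ (Icc 1 D : Finset ℕ) with Squarefree d ∧ tiny w d = kb,
      ∑ k ∈ (Icc 1 M : Finset ℕ) with d ∣ k, b k ≤ E →
    ∑ k ∈ (Icc 1 M : Finset ℕ) with Rough w k ∧ (¬ Squarefree k ∨ (k : ℝ) < lo), (a k + b k) ≤ E₀ →
    |∑ k ∈ (Icc 1 M : Finset ℕ) with Squarefree (k : ℕ) ∧ lo ≤ k,
        Psi z B f₁ f₂ g₁ g₂ k * (a k - b k)| ≤
      10 * B ^ 3 * Tz ^ 2 * (Nat.log 2 M + 3) * E + 4 * B ^ 3 * Tw ^ 3 * E₀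

theorem s1two : S1tStmt := by
  intro a b M D B kb w z WL WH D₂ lo Tz Tw E E₀ f₁ f₂ g₁ g₂ hab hw hz hM hL hW hk hD hTz hTw hE
    tz1 tw1 hO t1 t2 t3 t4
  have hE₀ : 0 ≤ E₀ := (sum_nonneg fun k hk' => by
    have := hab k (mem_Icc.1 (mem_filter.1 hk').1).1
    linarith).trans t4
  have a2 : |∑ k ∈ (Icc 1 M : Finset ℕ) with Squarefree (k : ℕ) ∧ lo ≤ k,
      Psi z B f₁ f₂ g₁ g₂ k * (a k - b k)| ≤
      B * ((Nat.log 2 M + 7) * ((B * Tz) ^ 2 * E) + 3 * (Tw * (B * Tw) ^ 2) * E₀) := by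
    have e : ∀ k, Psi z B f₁ f₂ g₁ g₂ k * (a k - b k) = ∑ j ∈ range B, (if Rough z k then
        ∑ D ∈ k.divisors, ∑ x ∈ D.divisorsAntidiagonal, f₁ j x.1 * f₂ j x.2 -
          ∑ x ∈ k.divisorsAntidiagonal, g₁ j x.1 * g₂ j x.2 else 0) * (a k - b k) := fun k => by
      rw [Psi, ← sum_mul]
      split_ifs <;> simp
    simp only [e]
    rw [sum_comm]
    refine (abs_sum_le_sum_abs _ _).trans ((sum_le_card_nsmul _ _ _ fun j hj => ?_).trans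
      (by rw [card_range, nsmul_eq_mul]))
    have hB : (0 : ℝ) < B := Nat.cast_pos.2 (by rw [mem_range] at hj; omega)
    refine abs_le.2 ⟨neg_le.1 (le_trans (le_of_eq ?_) (S1.one (F₁ := fun d => -f₁ j d)
      (G₁ := fun d => -g₁ j d) hab hw hz hM hL hW hk hD hTz hTw hE hB tz1 tw1
      (fun d => (abs_neg (f₁ j d)).trans_le (hO j d).1) (fun d => (hO j d).2.1)
      (fun d => (abs_neg (g₁ j d)).trans_le (hO j d).2.2.1) (fun d => (hO j d).2.2.2.1)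
      (fun d h => (hO j d).2.2.2.2.1 (neg_ne_zero.1 h)) (fun d => (hO j d).2.2.2.2.2.1)
      (fun d => (hO j d).2.2.2.2.2.2) t1 t2 t3 t4)),
      S1.one hab hw hz hM hL hW hk hD hTz hTw hE hB tz1 tw1 (fun d => (hO j d).1)
      (fun d => (hO j d).2.1) (fun d => (hO j d).2.2.1) (fun d => (hO j d).2.2.2.1)
      (fun d => (hO j d).2.2.2.2.1) (fun d => (hO j d).2.2.2.2.2.1)
      (fun d => (hO j d).2.2.2.2.2.2) t1 t2 t3 t4⟩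
    rw [← sum_neg_distrib]
    refine sum_congr rfl fun k _ => ?_
    simp only [neg_mul, sum_neg_distrib]
    split_ifs <;> ring
  have p1 : 0 ≤ (B : ℝ) ^ 3 * Tz ^ 2 * E := by positivity
  have p2 : 0 ≤ (B : ℝ) ^ 3 * Tz ^ 2 * E * Nat.log 2 M := by positivity
  have p3 : 0 ≤ (B : ℝ) ^ 3 * Tw ^ 3 * E₀ := by have := zero_le_one.trans hTw; positivity
  linarith

end Pool.Agent.Lib.MP_4b1228_nt.PP
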