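import Pool.Agent.Lib.MP_4b1228_nt.PP.Cell
import Pool.Agent.Lib.MP_4b1228_nt.PP.S1t

/-!
The two-sided sieve estimate at a fixed height.
-/

open Finset Real Filter
open scoped Classical

noncomputable section

namespace Pool.Agent.Lib.MP_4b1228_nt.PP

namespace Ha

open CellS

theorem pt (hR : RhoStmt) (hRS : RSStmt) (h2 : I2Stmt) (hT1 : T1Stmt) (hT2 : T2Stmt)
    (hT0 : T0Stmt) {α₀ α₁ wl wh d₂ η δ : ℝ} (A B : ℕ) (hη : 0 < η) (hδ : 0 < δ)
    (ha01 : α₀ ≤ α₁) (hwh : wl < wh) (hd : 0 < d₂) (η0 : 2 * η ≤ α₀ - 1)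
    (η1 : 2 * η ≤ wl + 1 - α₁) (η2 : 3 * η ≤ 2 - α₁ - 3 * wh) (η3 : 3 * η ≤ 1 / 2 - wl - d₂) :
    ∀ᶠ X : ℝ in atTop, ∀ f : ℝ → ℝ, Adm X (log X ^ A) f → E1 X η δ f → E2 X η δ f →
      ∀ s lo : ℝ, (1 - α₁ - η) * log X ≤ s → s ≤ (1 - α₀ + η) * log X →
        lo * exp s ≤ X ^ (1 - η) → ∀ f₁ f₂ g₁ g₂ : ℕ → ℕ → ℝ,
        Ok (X ^ wl) (X ^ wh) (X ^ d₂) B f₁ f₂ g₁ g₂ →
        |∑ k ∈ (Icc 1 (KM X (exp s)) : Finset ℕ) with Squarefree (k : ℕ) ∧ lo ≤ k,
          Psi (X ^ (wh - wl)) B f₁ f₂ g₁ g₂ k * (sA f (exp s) k - sB f (exp s) k)| ≤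
          X / log X ^ 2 := by
  obtain ⟨c, -, hc⟩ := hRS
  obtain ⟨δ', hδ', t1⟩ := hT1 c hc A η δ hη hδ
  obtain ⟨C2, -, h2⟩ := h2
  have hw : 0 < wh - wl := sub_pos.2 hwh
  obtain ⟨Tz, hTz⟩ : ∃ Tz : ℝ, Tz = 2 ^ (2 / (wh - wl)) := ⟨_, rfl⟩
  filter_upwards [t1, hT2 A 4 η δ hη hδ, hT0 A 4 η hη (by linarith), eventually_ge_atTop 3,
    ev (eventually_ge_atTop 7), ev (big hw), ev (big (half_pos (half_pos (half_pos hη)))),
    ev (big hδ'), ev (eventually_ge_atTop (240 * (B : ℝ) ^ 3 * Tz ^ 2)),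
    ev (small (2 * (8 * (B : ℝ) ^ 3 + 1)) 12), ev (small 1 24)]
    with X t1 t2 t0 hX u7 uw uη uδ uB uE uE' f hf e1 e2 s l0 hs1 hs2 hl f₁ f₂ g₁ g₂ hok
  have X0 : 0 < X := by linarith only [hX]
  have L0 : 0 < log X := log_pos (by linarith only [hX])
  have p2 := pw L0.le 2
  have p3 := pw L0.le 3
  have p4 := pw L0.le 4
  have p6 := pw L0.le 6
  obtain ⟨u, hu⟩ : ∃ u, u = log X ^ (1 / 6 : ℝ) := ⟨_, rfl⟩
  rw [← hu] at u7 uw uη uδ uB uE uE' p2 p3 p4 p6
  have q2 : log X ^ (1 / 3 : ℝ) = u ^ 2 := by rw [p2]; norm_num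
  have q3 : √(log X) = u ^ 3 := by rw [p3, sqrt_eq_rpow]; norm_num
  have q4 : log X ^ (2 / 3 : ℝ) = u ^ 4 := by rw [p4]; norm_num
  have q6 : log X = u ^ 6 := by rw [p6]; norm_num
  clear p2 p3 p4 p6 hu
  have u0 : 0 < u := by linarith only [u7]
  have u1 : 1 ≤ u := by linarith only [u7]
  have X1 : 1 ≤ X := by linarith only [hX]
  have up : ∀ m n : ℕ, m ≤ n → u ^ m ≤ u ^ n := fun m n h => pow_le_pow_right₀ u1 h
  have L1 : 1 ≤ log X := by rw [q6]; exact one_le_pow₀ u1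
  have xp : ∀ a : ℝ, X ^ a = exp (a * log X) := fun a => by rw [rpow_def_of_pos X0, mul_comm]
  have x1 : X = exp (1 * log X) := by rw [one_mul, exp_log X0]
  have hw0 : wX X = exp (u ^ 4) := by rw [wX, q4]
  have ηL : u ^ 3 ≤ η / 5 * log X := by
    have := mul_le_mul uη (up 3 5 (by norm_num)) (by positivity) (by positivity)
    rw [q6]
    linarith only [this, mul_pos hη (pow_pos u0 6)]
  have η2X : 2 ≤ exp (η * log X) := by
    have := add_one_le_exp (η * log X)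
    have h : 1 ≤ u ^ 3 := one_le_pow₀ u1
    linarith only [this, ηL, h]
  have hδL : X ^ (1 - δ') ≤ X / log X ^ 4 := by
    rw [le_div_iff₀ (by positivity), q6, xp]
    have a1 : exp ((1 - δ') * log X) ≤ X * exp (-u) := by
      conv_rhs => rw [x1, ← exp_add]
      rw [exp_le_exp, q6]
      have := mul_le_mul uδ (up 1 5 (by norm_num)) (by positivity) (by positivity)
      linarith only [this]
    calc exp ((1 - δ') * log X) * (u ^ 6) ^ 4 ≤ X * exp (-u) * (u ^ 6) ^ 4 := by gcongr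
      _ = X * (1 * u ^ 24 * exp (-u)) := by ring
      _ ≤ X * 1 := by gcongr; linarith only [uE']
      _ = X := mul_one X
  have hηX : X ^ (1 - η / 5) ≤ X * exp (-u ^ 3) := by
    conv_rhs => rw [x1, ← exp_add]
    rw [xp, exp_le_exp]
    linarith only [ηL]
  obtain ⟨-, -, -, i3⟩ := h2 X hX
  obtain ⟨-, i3, -, -⟩ := i3 _ f hf
  obtain ⟨t0a, t0b, t0c⟩ := t0 f hf
  have Tz1 : 1 ≤ Tz := hTz ▸ one_le_rpow (by norm_num) (by positivity)
  have lo : ∀ a, a ≤ 1 - α₁ - η → a * log X ≤ s := fun a h =>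
    (mul_le_mul_of_nonneg_right h L0.le).trans hs1
  have hi : ∀ a, 1 - α₀ + η ≤ a → s ≤ a * log X := fun a h =>
    hs2.trans (mul_le_mul_of_nonneg_right h L0.le)
  have w0 : 0 < wl := by linarith only [hη, η0, η1, ha01]
  have a54 : α₁ + 2 * η ≤ 4 / 3 := by linarith only [hη, η1, η2, hwh]
  have Y0 := exp_pos s
  have Y1 : exp s ≤ 1 := exp_le_one_iff.2 (by simpa using hi 0 (by linarith only [η0, hη]))
  have Ylo : ∀ a, a ≤ 1 - α₁ - η → X ^ a ≤ exp s := fun a h => by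
    rw [xp, exp_le_exp]; exact lo a h
  have YX : 1 / X ≤ exp s := by
    have := Ylo (-1) (by linarith only [a54, hη])
    rwa [rpow_neg_one, ← one_div] at this
  have YX2 : 1 / X ^ 2 ≤ exp s :=
    (one_div_le_one_div_of_le X0 (le_self_pow₀ X1 two_ne_zero)).trans YX
  obtain ⟨M, hM⟩ : ∃ M, M = KM X (exp s) := ⟨_, rfl⟩
  have M1 : (M : ℝ) ≤ X ^ (2 : ℝ) := by
    refine (hM ▸ Nat.floor_le (by positivity) : (M : ℝ) ≤ 2 * X / exp s).trans ?_
    rw [div_le_iff₀ Y0, xp, ← exp_add]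
    calc 2 * X ≤ exp (η * log X) * exp (1 * log X) := by rw [← x1]; gcongr
      _ ≤ _ := by
        rw [← exp_add, exp_le_exp]
        have := lo (η - 1) (by linarith only [a54])
        linarith only [this]
  have M2 : X ≤ M := by
    have a1 : 2 * X / exp s < M + 1 := hM ▸ Nat.lt_floor_add_one _
    have a2 : 2 * X ≤ 2 * X / exp s := by
      rw [le_div_iff₀ Y0]
      exact mul_le_of_le_one_right (by positivity) Y1
    linarith only [a1, a2, hX]
  have lgM : ∀ k : ℕ, 1 ≤ k → k ≤ M → log k ≤ 2 * log X := fun k k1 k2 => by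
    rw [← log_rpow X0]
    exact log_le_log (by exact_mod_cast k1) (le_trans (by exact_mod_cast k2) M1)
  have DX : ⌊X ^ (1 / 2 - η)⌋₊ ≤ ⌊X⌋₊ := Nat.floor_le_floor (by
    conv_rhs => rw [← rpow_one X]
    exact rpow_le_rpow_of_exponent_le X1 (by linarith only [hη]))
  have DM : ⌊X ^ (1 / 2 - η)⌋₊ ≤ M := DX.trans (Nat.floor_le_of_le M2)
  have ab : ∀ k, 1 ≤ k → 0 ≤ sA f (exp s) k ∧ 0 ≤ sB f (exp s) k ∧
      (M < k → sA f (exp s) k = 0 ∧ sB f (exp s) k = 0) := fun k hk => by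
    obtain ⟨a1, a2, -, a3, -⟩ := i3 _ k Y0 hk
    exact ⟨a1, a2, hM ▸ a3⟩
  have hQ : ∀ k : ℕ, (k : ℝ) < l0 → (k : ℝ) * exp s ≤ X ^ (1 - η) := fun k hk =>
    (mul_le_mul_of_nonneg_right hk.le Y0.le).trans hl
  have b0 := t0b _ YX2
  have a0 := t0a _ (Ylo _ (by linarith only [a54, hη])) Y1
  rw [← hM] at a0 b0
  rw [q3] at a0
  have kb1 : 1 ≤ η * u ^ 2 := by
    linarith only [uη, mul_le_mul_of_nonneg_left (up 1 2 (by norm_num)) hη.le, mul_pos hη u0]
  have key := s1two (sA f (exp s)) (sB f (exp s)) M ⌊X ^ (1 / 2 - η)⌋₊ B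
    ⌊η * log X ^ (1 / 3 : ℝ)⌋₊
    (wX X) (X ^ (wh - wl)) (X ^ wl) (X ^ wh) (X ^ d₂) l0 Tz (exp (2 * u ^ 2))
    (X / log X ^ 4) (X * exp (-u ^ 3) + X * exp (-u ^ 3)) f₁ f₂ g₁ g₂ ab
    (by rw [hw0]; exact one_lt_exp_iff.2 (by positivity))
    (by
      rw [hw0, xp, exp_le_exp, q6]
      have := mul_le_mul uw (up 4 5 (by norm_num)) (by positivity) (by positivity)
      linarith only [this])
    (le_trans (by
      conv_rhs => rw [← rpow_one X]
      exact rpow_le_rpow_of_exponent_le X1 (by linarith only [w0, η2, η0, ha01, hη])) M2)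
    (one_le_rpow X1 w0.le)
    (by rw [← rpow_add X0]; exact le_of_eq (by congr 1; ring))
    (by rw [q2]; exact Nat.le_floor (by exact_mod_cast kb1))
    (by
      have a1 : (⌊η * log X ^ (1 / 3 : ℝ)⌋₊ : ℝ) ≤ η * u ^ 2 := by
        rw [q2]; exact Nat.floor_le (by positivity)
      have a2 : X ^ wl * X ^ d₂ * wX X ^ ⌊η * log X ^ (1 / 3 : ℝ)⌋₊ ≤
          exp ((wl + d₂ + η) * log X) := by
        rw [hw0, xp, xp, ← exp_nat_mul, ← exp_add, ← exp_add, exp_le_exp]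
        have := mul_le_mul_of_nonneg_right a1 (pow_pos u0 4).le
        have e : η * u ^ 2 * u ^ 4 = η * log X := by rw [q6]; ring
        linarith only [this, e]
      have a3 : 2 * exp ((wl + d₂ + η) * log X) ≤ X ^ (1 / 2 - η) := by
        calc _ ≤ exp (η * log X) * exp ((wl + d₂ + η) * log X) := by gcongr
          _ ≤ _ := by
            rw [xp, ← exp_add, exp_le_exp, ← add_mul]
            exact mul_le_mul_of_nonneg_right (by linarith only [η3]) L0.le
      have a4 : 1 ≤ exp ((wl + d₂ + η) * log X) := one_le_exp (by positivity)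
      have a5 := Nat.lt_floor_add_one (X ^ (1 / 2 - η))
      linarith only [a2, a3, a4, a5])
    Tz1 (one_le_exp (by positivity)) (by positivity)
    (fun k hk => by
      rw [max_eq_left DM, mem_Icc] at hk
      refine (hR.2.2.2.2.2.2.2.2.2.2.2 _ k (one_lt_rpow (by linarith only [hX]) hw) hk.1).trans ?_
      rw [hTz, log_rpow X0]
      refine rpow_le_rpow_of_exponent_le (by norm_num) ?_
      rw [div_le_div_iff₀ (by positivity) hw]
      have := mul_le_mul_of_nonneg_right (lgM k hk.1 hk.2) hw.le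
      linarith only [this])
    (fun k hk => by
      rw [mem_Icc] at hk
      refine (hR.2.2.2.2.2.2.2.2.2.2.2 _ k
        (by rw [hw0]; exact one_lt_exp_iff.2 (by positivity)) hk.1).trans ?_
      rw [hw0, log_exp, rpow_def_of_pos two_pos, exp_le_exp]
      have a1 : log k / u ^ 4 ≤ 2 * u ^ 2 := by
        rw [div_le_iff₀ (by positivity)]
        have := lgM k hk.1 hk.2
        linarith only [this, q6]
      have a2 : log 2 ≤ 1 := by linarith only [log_two_lt_d9]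
      exact (mul_le_of_le_one_left (div_nonneg (log_natCast_nonneg k) (by positivity)) a2).trans a1)
    hok
    (hM ▸ ((t1 f hf e1 _ (Ylo _ (by linarith only [a54])) (by
      rw [xp, exp_le_exp]; exact hi _ (by linarith only [η0]))).1.trans hδL))
    (fun α β a b hα hβ hn => hM ▸ t2 f hf e2 _ YX Y1 α β a b hα hβ fun n h => by
      obtain ⟨n1, n2, n3, n4⟩ := hn n h
      refine ⟨n1, n2, ?_, ?_⟩
      · calc X ^ η ≤ X ^ wl * exp s := by
              rw [xp, xp, ← exp_add, exp_le_exp]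
              have := lo (η - wl) (by linarith only [η1])
              linarith only [this]
          _ ≤ _ := by gcongr
      · calc (n : ℝ) ^ 3 ≤ (X ^ wh) ^ 3 := by gcongr
          _ ≤ _ := by
            rw [xp, xp, ← exp_nat_mul, ← exp_add, exp_le_exp]
            have := lo (3 * wh - 1 + 2 * η) (by linarith only [η2])
            push_cast
            linarith only [this])
    (le_trans (sum_le_sum_of_subset_of_nonneg
      (filter_subset_filter _ (Icc_subset_Icc_right DX)) fun d _ _ =>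
        sum_nonneg fun k hk => (ab k (mem_Icc.1 (mem_filter.1 hk).1).1).2.1)
      (hM ▸ t0c _ YX Y1))
    ((union _ ab hQ).trans (add_le_add a0 (b0.trans hηX)))
  have lg2 : (Nat.log 2 M + 3 : ℝ) ≤ 6 * u ^ 6 := by
    have M0 : 1 ≤ M := by exact_mod_cast (by linarith only [M2, hX] : (1 : ℝ) ≤ M)
    have a1 : ((2 ^ Nat.log 2 M : ℕ) : ℝ) ≤ M := by
      exact_mod_cast Nat.pow_log_le_self 2 (by omega : M ≠ 0)
    have a2 := (log_le_log (by positivity) a1).trans (lgM M M0 le_rfl)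
    push_cast at a2
    rw [log_pow] at a2
    have a3 := log_two_gt_d9
    have a4 : (0 : ℝ) ≤ Nat.log 2 M := Nat.cast_nonneg _
    linarith only [mul_le_mul_of_nonneg_left a3.le a4, a2, L1, q6]
  have er := err (T := u ^ 6) X0 u7 (Nat.cast_nonneg B) (by positivity) lg2
    (by linarith only [pow_pos u0 6]) uB uE
  rw [← hM]
  refine key.trans ?_
  rw [le_div_iff₀ (by positivity), q6]
  have p : 0 ≤ u ^ 6 * (X * exp (-u ^ 3)) * u ^ 6 := by positivity
  linarith only [er, p]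

end Ha

end Pool.Agent.Lib.MP_4b1228_nt.PP
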