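import Pool.Agent.Lib.MP_4b1228_nt.PP.St2

/-!
The two sided sieve estimate at one height.
-/

set_option autoImplicit false

open Finset Real Filter
open scoped Classical

noncomputable section

namespace Pool.Agent.Lib.MP_4b1228_nt.PP

/-- Harman's sieve at one height, two sided. -/
def HaPt : Prop :=
  ∀ (α₀ α₁ wl wh d₂ ε : ℝ) (B : ℕ), 0 < ε → 1 < α₀ → α₀ ≤ α₁ → α₁ - 1 < wl → wl < wh →
    3 * wh < 2 - α₁ → 0 < d₂ → wl + d₂ < 1 / 2 → ∃ η₀ : ℝ, 0 < η₀ ∧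
    ∀ (A : ℕ) (η δ : ℝ), 0 < η → η ≤ η₀ → 0 < δ →
    ∀ᶠ X : ℝ in atTop, ∀ f : ℝ → ℝ, Adm X (log X ^ A) f → E1 X η δ f → E2 X η δ f →
      ∀ f₁ f₂ g₁ g₂ : ℕ → ℕ → ℝ, Ok (X ^ wl) (X ^ wh) (X ^ d₂) B f₁ f₂ g₁ g₂ →
      ∀ s ∈ Set.Icc ((1 - α₁ + ε) * log X) ((1 - α₀ - ε) * log X),
        |∑ k ∈ (Icc 1 ⌊X ^ α₁⌋₊ : Finset ℕ) with Squarefree (k : ℕ) ∧ X ^ α₀ ≤ k,
          Psi (X ^ (wh - wl)) B f₁ f₂ g₁ g₂ k * (sA f (exp s) k - sB f (exp s) k)| ≤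
          X / log X ^ 2

end Pool.Agent.Lib.MP_4b1228_nt.PP
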