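import Pool.Agent.Lib.MP_4b1228_nt.PP.St2

/-!
Rows whose mean depends on `X`.
-/

open Finset Real Filter
open scoped Classical

noncomputable section

namespace Pool.Agent.Lib.MP_4b1228_nt.PP

/-- The mean of `T X` is asymptotically at least `m X`. -/
def RowF (T : ℝ → ℕ → ℝ) (m : ℝ → ℝ) : Prop := Row (fun X n => T X n - m X) 0

theorem EE_mul (X : ℝ) (f : ℝ → ℝ) (a : ℝ) (T : ℕ → ℝ) :
    EE X f (fun n => a * T n) = a * EE X f T := by
  unfold EE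
  rw [mul_sum]
  exact sum_congr rfl fun l _ => by ring

/-- A bounded nonnegative factor depending on `X`. -/
theorem Row.smul0 {T : ℝ → ℕ → ℝ} (h : Row T 0) {a : ℝ → ℝ} {M : ℝ}
    (ha : ∀ᶠ X : ℝ in atTop, 0 ≤ a X ∧ a X ≤ M) : Row (fun X n => a X * T X n) 0 := by
  intro C₀ τ hC hτ
  have hM : 0 < max M 1 := lt_max_of_lt_right one_pos
  obtain ⟨η₀, h0, H⟩ := h C₀ (τ / max M 1) hC (by positivity)
  refine ⟨η₀, h0, fun A η δ c h1 h2 h3 h4 => ?_⟩
  filter_upwards [H A η δ c h1 h2 h3 h4, ha, eventually_gt_atTop 0] with X hX ⟨a0, a1⟩ X0 f hf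
  have hI : 0 ≤ Itot f / 2 := by
    have := hf.low
    have := mul_pos h4 X0
    linarith
  rw [EE_mul]
  have h5 := mul_le_mul_of_nonneg_left (hX f hf) a0
  have h6 : a X * (τ / max M 1) ≤ τ := by
    rw [← mul_div_assoc, div_le_iff₀ hM]
    nlinarith [le_max_left M 1]
  nlinarith

namespace RowF

variable (hR : RowStmt) {T T' : ℝ → ℕ → ℝ} {m m' : ℝ → ℝ}
include hR

theorem mono (h : RowF T m)
    (hle : ∀ᶠ X : ℝ in atTop, m' X ≤ m X ∧ ∀ n : ℕ, 1 ≤ n → (n : ℝ) ≤ X ^ 2 → T X n ≤ T' X n) :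
    RowF T' m' :=
  hR.2.2.2.2.1 _ _ 0 0 h le_rfl (hle.mono fun X hX n h1 h2 => by linarith [hX.1, hX.2 n h1 h2])

/-- One comparison for both. -/
theorem mono' (h : RowF T m) (hle : ∀ᶠ X : ℝ in atTop, ∀ n : ℕ, 1 ≤ n → (n : ℝ) ≤ X ^ 2 →
    T X n - m X ≤ T' X n - m' X) : RowF T' m' :=
  hR.2.2.2.2.1 _ _ 0 0 h le_rfl hle

theorem row (h : RowF T m) {v : ℝ} (hv : ∀ᶠ X : ℝ in atTop, v ≤ m X) : Row T v :=
  hR.2.2.2.2.1 _ _ _ v (hR.2.1 _ _ _ _ h (hR.1 v)) (by simp)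
    (hv.mono fun X hX n _ _ => by linarith)

theorem of_row {v : ℝ} (h : Row T v) : RowF T fun _ => v :=
  hR.2.2.2.2.1 _ _ _ 0 (hR.2.1 _ _ _ _ h (hR.1 (-v))) (by simp)
    (Eventually.of_forall fun X n _ _ => by linarith)

theorem const (m : ℝ → ℝ) : RowF (fun X _ => m X) m :=
  hR.2.2.2.2.1 _ _ 0 0 (hR.1 0) le_rfl (Eventually.of_forall fun X n _ _ => by simp)

theorem add (h : RowF T m) (h' : RowF T' m') :
    RowF (fun X n => T X n + T' X n) fun X => m X + m' X :=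
  hR.2.2.2.2.1 _ _ _ 0 (hR.2.1 _ _ _ _ h h') (by simp)
    (Eventually.of_forall fun X n _ _ => by linarith)

theorem sum {ι : Type} (s : Finset ι) {T : ι → ℝ → ℕ → ℝ} {m : ι → ℝ → ℝ}
    (h : ∀ i ∈ s, RowF (T i) (m i)) :
    RowF (fun X n => ∑ i ∈ s, T i X n) fun X => ∑ i ∈ s, m i X :=
  hR.2.2.2.2.1 _ _ _ 0 (hR.2.2.2.1 ι s _ (fun _ => 0) h) (by simp)
    (Eventually.of_forall fun X n _ _ => by rw [sum_sub_distrib])

theorem smul (h : RowF T m) {a : ℝ → ℝ} {M : ℝ} (ha : ∀ᶠ X : ℝ in atTop, 0 ≤ a X ∧ a X ≤ M) :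
    RowF (fun X n => a X * T X n) fun X => a X * m X :=
  hR.2.2.2.2.1 _ _ 0 0 (Row.smul0 h ha) le_rfl
    (Eventually.of_forall fun X n _ _ => by rw [mul_sub])

theorem lim (h : ∀ τ : ℝ, 0 < τ → RowF T fun X => m X - τ) : RowF T m :=
  hR.2.2.2.2.2 _ _ fun τ hτ =>
    hR.2.2.2.2.1 _ _ _ _ (hR.2.1 _ _ _ _ (h τ hτ) (hR.1 (-τ))) (by simp)
      (Eventually.of_forall fun X n _ _ => by linarith)

/-- From rows with a constant mean to rows with a variable mean, for a family which may be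
shifted by multiples of a test `D` of mean `N`. -/
theorem of_shift {D : ℝ → ℕ → ℝ} {N : ℝ → ℝ} {M : ℝ} (hb : ∀ᶠ X : ℝ in atTop, |m X| ≤ M)
    (h1 : Row (fun X n => T X n + (M - m X) / N X * D X n) M)
    (h2 : Row (fun X n => -(1 / N X) * D X n) (-1)) : RowF T m := by
  have h3 := (of_row hR h2).smul hR (a := fun X => M - m X) (M := 2 * M)
    (hb.mono fun X hX => by have := abs_le.1 hX; constructor <;> linarith)
  exact ((of_row hR h1).add hR h3).mono' hR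
    (Eventually.of_forall fun X n _ _ => le_of_eq (by ring))

end RowF

end Pool.Agent.Lib.MP_4b1228_nt.PP
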