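import Pool.Agent.Lib.MP_4b1228_nt.PP.St2

/-!
Global certificates: the rough divisors of size about `X` may be neglected.
-/

open Finset Real Filter
open scoped Classical

noncomputable section

namespace Pool.Agent.Lib.MP_4b1228_nt.PP

/-- The number of rough squarefree divisors in `[X ^ (1 - γ), X ^ (1 + γ)]`. -/
def edge (X ζ γ : ℝ) (n : ℕ) : ℝ :=
  #(n.divisors.filter fun k : ℕ =>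
    Squarefree k ∧ Rough (X ^ ζ) k ∧ X ^ (1 - γ) ≤ k ∧ (k : ℝ) ≤ X ^ (1 + γ))

def EdgeStmt : Prop :=
  ∀ (ζ C v : ℝ) (T : ℝ → ℕ → ℝ), 0 < ζ →
    (∀ γ : ℝ, 0 < γ → ∃ T' : ℝ → ℕ → ℝ, Row T' v ∧ ∀ᶠ X : ℝ in atTop, ∀ n : ℕ, 1 ≤ n →
      (n : ℝ) ≤ X ^ 2 → T' X n ≤ T X n + C * edge X ζ γ n) → Row T v

/-- Harman's rows, starting anywhere below `X`. -/
def Ha2Stmt : Prop :=
  ∀ (α₀ α₁ wl wh d₂ σ v : ℝ) (B : ℕ) (f₁ f₂ g₁ g₂ : ℝ → ℕ → ℕ → ℝ),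
    α₁ - 1 < wl → 0 < wl → wl < wh → 3 * wh < 2 - α₁ → 0 < d₂ → wl + d₂ < 1 / 2 →
    (∀ᶠ X : ℝ in atTop, Ok (X ^ wl) (X ^ wh) (X ^ d₂) B (f₁ X) (f₂ X) (g₁ X) (g₂ X) ∧
      v ≤ σ * ∑ k ∈ (Icc 1 ⌊X ^ α₁⌋₊ : Finset ℕ) with Squarefree (k : ℕ) ∧ X ^ α₀ ≤ k,
        Psi (X ^ (wh - wl)) B (f₁ X) (f₂ X) (g₁ X) (g₂ X) k * (rho k / k)) →
    Row (fun X n => σ * ∑ k ∈ n.divisors with Squarefree (k : ℕ) ∧ X ^ α₀ ≤ k ∧ (k : ℝ) ≤ X ^ α₁,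
      Psi (X ^ (wh - wl)) B (f₁ X) (f₂ X) (g₁ X) (g₂ X) k) v

end Pool.Agent.Lib.MP_4b1228_nt.PP
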