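import Pool.Agent.Lib.MP_4b1228_nt.PP.Sv
import Pool.Agent.Lib.MP_4b1228_nt.PP.St2e
import Pool.Agent.Lib.MP_4b1228_nt.PP.RowF
import Pool.Agent.Lib.MP_4b1228_nt.PP.RW

/-!
Rows on sets of primes that are exact by Harman's sieve.
-/

open Finset Real Filter
open scoped Classical

noncomputable section

namespace Pool.Agent.Lib.MP_4b1228_nt.PP.He

open Sv

lemma pf_div {k q : ℕ} (hk : Squarefree k) (hq : q ∈ k.primeFactors) :
    (k / q).primeFactors = k.primeFactors.erase q := by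
  have q1 := Nat.prime_of_mem_primeFactors hq
  obtain ⟨m, rfl⟩ := Nat.dvd_of_mem_primeFactors hq
  have hc := Nat.coprime_of_squarefree_mul hk
  rw [Nat.mul_div_cancel_left _ q1.pos, hc.primeFactors_mul, q1.primeFactors, ← insert_eq,
    erase_insert]
  exact fun h => (q1.coprime_iff_not_dvd.1 hc) (Nat.dvd_of_mem_primeFactors h)

/-- The small primes. -/
def sp (y : ℝ) (k : ℕ) : Finset ℕ := k.primeFactors.filter fun p : ℕ => (p : ℝ) < y

def f1 (j x : ℕ) : ℝ := if j = 0 ∧ x = 1 then 1 else 0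

def g1 (X ζ M : ℝ) (φ : Finset ℕ → ℝ) (j x : ℕ) : ℝ :=
  if j = 0 ∧ 1 ≤ x ∧ (x : ℝ) ≤ M then
    (∑ D ∈ (RP X ζ x).powerset, φ D) / (1 + #(sp (X ^ ζ) x)) else 0

def g2 (z y : ℝ) (_j q : ℕ) : ℝ := if q.Prime ∧ z ≤ q ∧ (q : ℝ) < y then 1 else 0

lemma psi_eq {X ζ z M : ℝ} (hz : z ≤ X ^ ζ) (φ : Finset ℕ → ℝ) {B : ℕ} (hB : 1 ≤ B) {k : ℕ}
    (hk : Squarefree k) (hM : (k : ℝ) ≤ M) :
    Psi z B f1 (fun _ => lift (X ^ ζ) φ) (g1 X ζ M φ) (g2 z (X ^ ζ)) k =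
      lift (X ^ ζ) (fun K => ∑ D ∈ K.powerset, φ D) k := by
  have k0 := hk.ne_zero
  unfold Psi
  split_ifs with hr
  swap
  · exact (if_neg fun h => hr fun p hp hd => hz.trans (h.2 p hp hd)).symm
  rw [sum_eq_single 0 (fun j _ hj => by simp [f1, g1, hj]) fun h => absurd (mem_range.2 hB) h]
  have e1 : ∑ D ∈ k.divisors, ∑ x ∈ D.divisorsAntidiagonal, f1 0 x.1 * lift (X ^ ζ) φ x.2 =
      ∑ D ∈ (RP X ζ k).powerset, φ D := by
    rw [← sum_lift_dvd X ζ φ k0, filter_true_of_mem fun d hd =>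
      hk.squarefree_of_dvd (Nat.dvd_of_mem_divisors hd)]
    refine sum_congr rfl fun D hD => ?_
    rw [Nat.sum_divisorsAntidiagonal fun x y => f1 0 x * lift (X ^ ζ) φ y,
      sum_eq_single 1 (fun j _ hj => by simp [f1, hj])
        fun h => absurd (Nat.one_mem_divisors.2 (Nat.pos_of_mem_divisors hD).ne') h]
    simp [f1]
  have e2 : ∑ x ∈ k.divisorsAntidiagonal, g1 X ζ M φ 0 x.1 * g2 z (X ^ ζ) 0 x.2 =
      ∑ _q ∈ sp (X ^ ζ) k, (∑ D ∈ (RP X ζ k).powerset, φ D) / #(sp (X ^ ζ) k) := by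
    rw [Nat.sum_divisorsAntidiagonal' fun x y => g1 X ζ M φ 0 x * g2 z (X ^ ζ) 0 y]
    have e : sp (X ^ ζ) k = k.divisors.filter fun q : ℕ => q.Prime ∧ z ≤ q ∧ (q : ℝ) < X ^ ζ := by
      ext q
      simp only [sp, mem_filter, Nat.mem_primeFactors, Nat.mem_divisors]
      exact ⟨fun h => ⟨⟨h.1.2.1, k0⟩, h.1.1, hr q h.1.1 h.1.2.1, h.2⟩,
        fun h => ⟨⟨h.2.1, h.1.1, k0⟩, h.2.2.2⟩⟩
    simp only [g2, mul_ite, mul_one, mul_zero]
    rw [← sum_filter, ← e]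
    refine sum_congr rfl fun q hq => ?_
    obtain ⟨q1, q2⟩ := mem_filter.1 hq
    have q3 : 1 ≤ k / q := Nat.div_pos (Nat.le_of_mem_primeFactors q1)
      (Nat.prime_of_mem_primeFactors q1).pos
    have q4 : ((k / q : ℕ) : ℝ) ≤ M := le_trans (by exact_mod_cast Nat.div_le_self k q) hM
    have q5 : RP X ζ (k / q) = RP X ζ k := by
      unfold RP
      rw [pf_div hk q1, filter_erase, erase_eq_of_notMem]
      exact fun h => absurd (mem_filter.1 h).2 (not_le.2 q2)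
    have q6 : sp (X ^ ζ) (k / q) = (sp (X ^ ζ) k).erase q := by
      unfold sp
      rw [pf_div hk q1, filter_erase]
    rw [g1, if_pos ⟨rfl, q3, q4⟩, q5, q6, ← card_erase_add_one hq]
    push_cast
    rw [add_comm]
  rw [e1, e2, sum_const, nsmul_eq_mul, lift]
  split_ifs with h
  · have e3 : sp (X ^ ζ) k = ∅ := filter_eq_empty_iff.2 fun p hp => not_lt.2
      (h.2 p (Nat.prime_of_mem_primeFactors hp) (Nat.dvd_of_mem_primeFactors hp))
    have e4 : RP X ζ k = k.primeFactors := filter_true_of_mem fun p hp =>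
      h.2 p (Nat.prime_of_mem_primeFactors hp) (Nat.dvd_of_mem_primeFactors hp)
    simp [e3, e4]
  · have e3 : (#(sp (X ^ ζ) k) : ℝ) ≠ 0 := by
      rw [Nat.cast_ne_zero, card_ne_zero, nonempty_iff_ne_empty]
      exact fun e => h ⟨hk, fun p hp hd => not_lt.1
        (filter_eq_empty_iff.1 e (Nat.mem_primeFactors.2 ⟨hp, hd, k0⟩))⟩
    field_simp
    ring

/-- The sum of `A` over the sets of large primes of `n`. -/
def TS (ζ : ℝ) (A : ℝ → Finset ℕ → ℝ) (X : ℝ) (n : ℕ) : ℝ := ∑ K ∈ (RP X ζ n).powerset, A X K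

/-- Its mean in the model. -/
def MN (ζ : ℝ) (A : ℝ → Finset ℕ → ℝ) (X : ℝ) : ℝ :=
  ∑ K ∈ (PR X ζ).powerset, A X K * ∏ p ∈ K, gp p

/-- The test has at least the mean of the model. -/
def Exa (ζ : ℝ) (A : ℝ → Finset ℕ → ℝ) : Prop := RowF (TS ζ A) (MN ζ A)

/-- The sum of the marks, for sets of product at most `X ^ a`. -/
def cut (X a : ℝ) (φ : Finset ℕ → ℝ) (K : Finset ℕ) : ℝ :=
  if ∏ p ∈ K, (p : ℝ) ≤ X ^ a then ∑ D ∈ K.powerset, φ D else 0

lemma window {ζ a d : ℝ} (hζ : 0 < ζ) (h1 : 7 * a < 8) (h2 : 3 * ζ + a < 2) (h3 : 2 * d < 1)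
    (h4 : 2 * (a + d) < 3) : ∃ wl wh : ℝ, a - 1 < wl ∧ 0 < wl ∧ wl < wh ∧ 3 * wh < 2 - a ∧
      wl + d < 1 / 2 ∧ wh - wl ≤ ζ ∧ (wh - wl < ζ → wl ≤ wh - wl ∧ ζ ≤ wh) := by
  obtain ⟨l, l1, l2, l3, l4⟩ : ∃ l : ℝ, a - 1 ≤ l ∧ 0 ≤ l ∧ 6 * l < 2 - a ∧ l + d < 1 / 2 := by
    rcases le_total a 1 with h | h
    · exact ⟨0, by linarith, le_rfl, by linarith, by linarith⟩
    · exact ⟨a - 1, le_rfl, by linarith, by linarith, by linarith⟩
  obtain ⟨s, s0, s1, s2, s3⟩ : ∃ s : ℝ, 0 < s ∧ s ≤ (2 - a - 6 * l) / 9 ∧ s ≤ (2 - a - 3 * ζ) / 3 ∧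
      s ≤ (1 / 2 - l - d) / 2 :=
    ⟨min ((2 - a - 6 * l) / 9) (min ((2 - a - 3 * ζ) / 3) ((1 / 2 - l - d) / 2)),
      lt_min (by linarith) (lt_min (by linarith) (by linarith)), min_le_left _ _,
      (min_le_right _ _).trans (min_le_left _ _), (min_le_right _ _).trans (min_le_right _ _)⟩
  rcases le_total (l + s + ζ) ((2 - a) / 3 - s) with h | h
  · exact ⟨l + s, l + s + ζ, by linarith, by linarith, by linarith, by linarith, by linarith,
      by linarith, fun h => by linarith⟩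
  · exact ⟨l + s, (2 - a) / 3 - s, by linarith, by linarith, by linarith, by linarith, by linarith,
      by linarith, fun _ => ⟨by linarith, by linarith⟩⟩

lemma lift_cut (X ζ a : ℝ) (φ : Finset ℕ → ℝ) {k : ℕ} (hk : Squarefree k) :
    lift (X ^ ζ) (cut X a φ) k =
      if (k : ℝ) ≤ X ^ a then lift (X ^ ζ) (fun K => ∑ D ∈ K.powerset, φ D) k else 0 := by
  unfold lift cut
  rw [← Nat.cast_prod, Nat.prod_primeFactors_of_squarefree hk]
  split_ifs <;> rfl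

lemma sum_bd {X ζ e C : ℝ} (hX : 1 < X) (hζ : 0 < ζ) {φ : Finset ℕ → ℝ} {K : Finset ℕ}
    (hK : ∀ p ∈ K, X ^ ζ ≤ p) (h : ∏ p ∈ K, (p : ℝ) ≤ X ^ e) (hφ : ∀ D ⊆ K, |φ D| ≤ C) :
    |∑ D ∈ K.powerset, φ D| ≤ 2 ^ ⌊e / ζ⌋₊ * C := by
  have C0 : 0 ≤ C := (abs_nonneg _).trans (hφ ∅ (empty_subset _))
  refine (abs_sum_le_sum_abs _ _).trans ((sum_le_card_nsmul _ _ C fun D hD =>
    hφ D (mem_powerset.1 hD)).trans ?_)
  rw [card_powerset, nsmul_eq_mul]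
  push_cast
  exact mul_le_mul_of_nonneg_right (pow_le_pow_right₀ one_le_two (card_le hX hζ hK h)) C0

theorem he0 (hR : RhoStmt) (hW : RowStmt) (hH : Ha2Stmt) {ζ a d C v : ℝ}
    {φ : ℝ → Finset ℕ → ℝ} (hζ : 0 < ζ) (h1 : 7 * a < 8) (h2 : 3 * ζ + a < 2) (hd : 0 < d)
    (h3 : 2 * d < 1) (h4 : 2 * (a + d) < 3)
    (hφ : ∀ᶠ X : ℝ in atTop, ∀ D : Finset ℕ, (∀ p ∈ D, p.Prime ∧ X ^ ζ ≤ p) →
      |φ X D| ≤ C ∧ (φ X D ≠ 0 → ∏ p ∈ D, (p : ℝ) ≤ X ^ d))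
    (hv : ∀ᶠ X : ℝ in atTop, v ≤ MN ζ (fun X => cut X a (φ X)) X) :
    Row (TS ζ fun X => cut X a (φ X)) v := by
  obtain ⟨wl, wh, w1, w2, w3, w4, w5, w6, w7⟩ := window hζ h1 h2 h3 h4
  obtain ⟨B, B1, B2⟩ : ∃ B : ℕ, 1 ≤ B ∧ 2 ^ ⌊2 / ζ⌋₊ * C ≤ B :=
    ⟨⌈2 ^ ⌊2 / ζ⌋₊ * C⌉₊ + 1, by omega, by push_cast; linarith [Nat.le_ceil (2 ^ ⌊2 / ζ⌋₊ * C)]⟩
  have B3 : (1 : ℝ) ≤ B := by exact_mod_cast B1
  have key : ∀ X : ℝ, 1 < X → ∀ k : ℕ, Squarefree k → (k : ℝ) ≤ X ^ a →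
      Psi (X ^ (wh - wl)) B f1 (fun _ => lift (X ^ ζ) (φ X)) (g1 X ζ (X ^ (2 : ℝ)) (φ X))
        (g2 (X ^ (wh - wl)) (X ^ ζ)) k = lift (X ^ ζ) (cut X a (φ X)) k := by
    intro X hX k hk hka
    rw [lift_cut _ _ _ _ hk, if_pos hka]
    exact psi_eq (rpow_le_rpow_of_exponent_le hX.le w6) _ B1 hk
      (hka.trans (rpow_le_rpow_of_exponent_le hX.le (by linarith)))
  refine hW.2.2.2.2.1 _ _ v v (hH 0 a wl wh d 1 v B (fun _ => f1)
    (fun X _ => lift (X ^ ζ) (φ X)) (fun X => g1 X ζ (X ^ (2 : ℝ)) (φ X))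
    (fun X => g2 (X ^ (wh - wl)) (X ^ ζ)) w1 w2 w3 w4 hd w5 ?_) le_rfl ?_
  · filter_upwards [hφ, hv, eventually_gt_atTop 1] with X hφ hv hX
    have C0 : 0 ≤ C := (abs_nonneg _).trans (hφ ∅ (by simp)).1
    have C1 : C ≤ B := le_trans (le_mul_of_one_le_left C0 (one_le_pow₀ one_le_two)) B2
    refine ⟨fun j x => ?_, hv.trans (le_of_eq ?_)⟩
    · have a1 := lift_bd C0 hφ x
      refine ⟨?_, a1.1.trans C1, ?_, ?_, fun h => ?_, fun h => (a1.2 h).2, fun h => ?_⟩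
      · unfold f1
        split_ifs <;> simp [B1]
      · unfold g1
        split_ifs with h
        · rw [abs_div]
          refine (div_le_self (abs_nonneg _) ?_).trans (le_trans (sum_bd hX hζ
            (fun p hp => (mem_RP hp).2) ?_ fun D hD => (hφ D fun p hp => mem_RP (hD hp)).1) B2)
          · exact le_trans (by simp) (le_abs_self _)
          · refine le_trans ?_ h.2.2
            rw [← Nat.cast_prod, Nat.cast_le]
            exact Nat.le_of_dvd h.2.1 ((prod_dvd_prod_of_subset _ _ _ (filter_subset _ _)).trans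
              (Nat.prod_primeFactors_dvd x))
        · simp
      · unfold g2
        split_ifs <;> simp [B1]
      · have : x = 1 := by
          by_contra e
          exact h (if_neg fun h' => e h'.2)
        rw [this, Nat.cast_one]
        exact one_le_rpow hX.le (by linarith)
      · have h' : x.Prime ∧ X ^ (wh - wl) ≤ x ∧ (x : ℝ) < X ^ ζ := by
          by_contra e
          exact h (if_neg e)
        have := w7 ((rpow_lt_rpow_left_iff hX).1 (h'.2.1.trans_lt h'.2.2))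
        exact ⟨(rpow_le_rpow_of_exponent_le hX.le this.1).trans h'.2.1,
          h'.2.2.le.trans (rpow_le_rpow_of_exponent_le hX.le this.2)⟩
    · have a2 : X ^ a ≤ X ^ 2 := by
        rw [← rpow_two]
        exact rpow_le_rpow_of_exponent_le hX.le (by linarith)
      rw [one_mul, MN, ← sum_lift_mean hR X ζ _ fun T _ h => ?_]
      · symm
        refine sum_subset_zero_on_sdiff (fun k hk => ?_) (fun k hk => ?_) fun k hk => ?_
        · obtain ⟨k1, k2⟩ := mem_filter.1 hk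
          exact mem_filter.2 ⟨Icc_subset_Icc_right (Nat.floor_mono a2) k1, k2.1⟩
        · obtain ⟨k1, k2⟩ := mem_sdiff.1 hk
          obtain ⟨k3, k4⟩ := mem_filter.1 k1
          rw [lift_cut _ _ _ _ k4, if_neg fun h => k2 (mem_filter.2
            ⟨mem_Icc.2 ⟨(mem_Icc.1 k3).1, Nat.le_floor h⟩, k4, ?_⟩), zero_mul]
          rw [rpow_zero]
          exact_mod_cast (mem_Icc.1 k3).1
        · obtain ⟨k1, k2⟩ := mem_filter.1 hk
          rw [key X hX k k2.1 ((Nat.le_floor_iff (by positivity)).1 (mem_Icc.1 k1).2)]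
      · refine le_trans ?_ a2
        by_contra e
        exact h (if_neg e)
  · filter_upwards [eventually_gt_atTop 1] with X hX n hn _
    refine le_of_eq ?_
    rw [one_mul, TS, ← sum_lift_dvd X ζ _ (by omega)]
    refine sum_subset_zero_on_sdiff (fun k hk => ?_) (fun k hk => ?_) fun k hk => ?_
    · obtain ⟨k1, k2⟩ := mem_filter.1 hk
      exact mem_filter.2 ⟨k1, k2.1⟩
    · obtain ⟨k1, k2⟩ := mem_sdiff.1 hk
      obtain ⟨k3, k4⟩ := mem_filter.1 k1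
      rw [lift_cut _ _ _ _ k4, if_neg fun h => k2 (mem_filter.2 ⟨k3, k4, ?_, h⟩)]
      rw [rpow_zero]
      exact_mod_cast Nat.pos_of_mem_divisors k3
    · obtain ⟨k1, k2⟩ := mem_filter.1 hk
      exact key X hX k k2.1 k2.2.2

end Pool.Agent.Lib.MP_4b1228_nt.PP.He
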