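import Pool.Agent.Lib.MP_4b1228_nt.PP.He

/-!
Exact rows with weights depending on the size of the set.
-/

open Finset Real Filter
open scoped Classical

noncomputable section

namespace Pool.Agent.Lib.MP_4b1228_nt.PP.He

open Sv

/-- The size of a set of primes in units of `log X`. -/
def ls (X : ℝ) (K : Finset ℕ) : ℝ := ∑ p ∈ K, log p / log X

lemma ls_le {X : ℝ} (hX : 1 < X) {K : Finset ℕ} (hK : ∀ p ∈ K, p.Prime) (a : ℝ) :
    ls X K ≤ a ↔ ∏ p ∈ K, (p : ℝ) ≤ X ^ a := by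
  have h : ∀ p ∈ K, (0 : ℝ) < p := fun p hp => by exact_mod_cast (hK p hp).pos
  rw [ls, ← sum_div, div_le_iff₀ (log_pos hX), le_rpow_iff_log_le (prod_pos h) (by linarith),
    log_prod fun p hp => (h p hp).ne']

lemma tot (hM : MertStmt) {ζ : ℝ} (hζ : 0 < ζ) : ∃ C : ℝ, 0 < C ∧ ∀ᶠ X : ℝ in atTop,
    ∑ K ∈ (PR X ζ).powerset, ∏ p ∈ K, gp p ≤ C := by
  refine ⟨exp (((1 + 1) * 2 + 1 * (ζ + 2)) / ζ), exp_pos _, ?_⟩
  filter_upwards [RW.pw hM hζ one_pos, eventually_gt_atTop 1] with X hX hX1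
  have h := hX (X ^ ζ) 2 (ζ + 2) le_rfl zero_le_two (by rw [rpow_add (by linarith)])
  rw [← prod_one_add]
  refine (prod_le_prod (g := fun p => exp (gp p)) (fun p _ => by linarith [gp_nonneg p])
    fun p _ => by linarith [add_one_le_exp (gp p)]).trans ?_
  rw [← exp_sum]
  refine exp_le_exp.2 (le_trans (sum_le_sum_of_subset_of_nonneg (fun p hp => ?_)
    fun p _ _ => gp_nonneg p) h)
  refine RW.mem_Pw (mem_PR hp).1 (mem_PR hp).2 ?_
  have h1 := (Nat.le_floor_iff (by positivity)).1 (mem_Icc.1 (mem_filter.1 hp).1).2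
  rw [rpow_two]
  exact h1.trans (le_mul_of_one_le_left (by positivity) (one_le_rpow hX1.le hζ.le))

lemma MN_abs {ζ X C : ℝ} {A : ℝ → Finset ℕ → ℝ} (h : ∀ K ⊆ PR X ζ, |A X K| ≤ C) :
    |MN ζ A X| ≤ C * ∑ K ∈ (PR X ζ).powerset, ∏ p ∈ K, gp p := by
  rw [mul_sum]
  refine (abs_sum_le_sum_abs _ _).trans (sum_le_sum fun K hK => ?_)
  have := prod_nonneg fun p (_ : p ∈ K) => gp_nonneg p
  rw [abs_mul, abs_of_nonneg this]
  exact mul_le_mul_of_nonneg_right (h K (mem_powerset.1 hK)) this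

variable {ζ : ℝ} {A A' : ℝ → Finset ℕ → ℝ}

theorem Exa.congr (hW : RowStmt) (h : Exa ζ A) (e : ∀ᶠ X : ℝ in atTop, ∀ K : Finset ℕ,
    (∀ p ∈ K, p.Prime ∧ X ^ ζ ≤ p) → A X K = A' X K) : Exa ζ A' :=
  RowF.mono hW h (e.mono fun _ hX => ⟨le_of_eq (sum_congr rfl fun K hK => by
      rw [hX K fun p hp => mem_PR (mem_powerset.1 hK hp)]),
    fun _ _ _ => le_of_eq (sum_congr rfl fun K hK => hX K fun p hp => mem_RP (mem_powerset.1 hK hp))⟩)

theorem Exa.add (hW : RowStmt) (h : Exa ζ A) (h' : Exa ζ A') :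
    Exa ζ fun X K => A X K + A' X K :=
  RowF.mono hW (RowF.add hW h h') (Eventually.of_forall fun _ =>
    ⟨le_of_eq (by simp only [MN, add_mul, sum_add_distrib]),
      fun _ _ _ => le_of_eq (by simp only [TS, sum_add_distrib])⟩)

theorem Exa.sum (hW : RowStmt) {ι : Type} (s : Finset ι) {A : ι → ℝ → Finset ℕ → ℝ}
    (h : ∀ i ∈ s, Exa ζ (A i)) : Exa ζ fun X K => ∑ i ∈ s, A i X K :=
  RowF.mono hW (RowF.sum hW s h) (Eventually.of_forall fun _ =>
    ⟨le_of_eq (by simp only [MN, sum_mul]; exact sum_comm),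
      fun _ _ _ => le_of_eq (by simp only [TS]; exact sum_comm)⟩)

theorem Exa.approx (hW : RowStmt) (hM : MertStmt) (hζ : 0 < ζ)
    (h : ∀ τ : ℝ, 0 < τ → ∃ A', Exa ζ A' ∧ ∀ᶠ X : ℝ in atTop, ∀ K : Finset ℕ,
      (∀ p ∈ K, p.Prime ∧ X ^ ζ ≤ p) → A' X K ≤ A X K ∧ A X K - τ ≤ A' X K) : Exa ζ A := by
  obtain ⟨C, C0, hC⟩ := tot hM hζ
  refine RowF.lim hW fun τ hτ => ?_
  obtain ⟨A', h1, h2⟩ := h (τ / C) (by positivity)
  refine RowF.mono hW h1 ?_
  filter_upwards [h2, hC] with X h2 hC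
  refine ⟨?_, fun _ _ _ => sum_le_sum fun K hK =>
    (h2 K fun p hp => mem_RP (mem_powerset.1 hK hp)).1⟩
  have h3 : τ / C * ∑ K ∈ (PR X ζ).powerset, ∏ p ∈ K, gp p ≤ τ := by
    refine (mul_le_mul_of_nonneg_left hC (by positivity)).trans_eq (by field_simp)
  refine le_trans (sub_le_sub_left h3 _) ?_
  rw [MN, mul_sum, ← sum_sub_distrib]
  refine sum_le_sum fun K hK => ?_
  rw [← sub_mul]
  exact mul_le_mul_of_nonneg_right (h2 K fun p hp => mem_PR (mem_powerset.1 hK hp)).2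
    (prod_nonneg fun p _ => gp_nonneg p)

theorem Exa.row (hW : RowStmt) (h : Exa ζ A) {v : ℝ} (hv : ∀ᶠ X : ℝ in atTop, v ≤ MN ζ A X) :
    Row (TS ζ A) v := RowF.row hW h hv

/-- The unit for the convolution. -/
def dl (D : Finset ℕ) : ℝ := if D = ∅ then 1 else 0

lemma sum_dl (K : Finset ℕ) : ∑ D ∈ K.powerset, dl D = 1 := by simp [dl]

lemma dl_bd (D : Finset ℕ) : |dl D| ≤ 1 := by
  unfold dl
  split_ifs <;> simp

/-- All tests on sets of product below a power of `X` less than one are exact. -/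
theorem low (hW : RowStmt) (hM : MertStmt) (hE : ExSetStmt) {a C : ℝ} (hζ : 0 < ζ) (ha : a < 1)
    (h : ∀ᶠ X : ℝ in atTop, ∀ K : Finset ℕ, (∀ p ∈ K, p.Prime ∧ X ^ ζ ≤ p) →
      |A X K| ≤ C ∧ (A X K ≠ 0 → ls X K ≤ a)) : Exa ζ A := by
  obtain ⟨C', C0, hC⟩ := tot hM hζ
  have e : ∀ (U : Finset ℕ → ℝ) T, cv U dl T = U T := fun U T => by
    rw [cv, sum_eq_single T (fun D hD hn => ?_) fun h => absurd (mem_powerset_self T) h]
    · simp [dl]
    · rw [dl, if_neg fun h => hn ((mem_powerset.1 hD).antisymm (sdiff_eq_empty_iff_subset.1 h)),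
        mul_zero]
  have h1 := exSet' hE (ε := ζ) (γ := 1 - max a 0) (v := 0) (C := C + C * C' + 1) 1
    (fun _ => max a 0) (fun _ => 0) (fun X _ K => A X K - MN ζ A X * dl K) (fun _ _ => dl) hζ
    (by simpa using ha) (fun _ _ => ⟨by linarith, by linarith⟩) (by
      filter_upwards [h, hC, eventually_gt_atTop 1] with X h hC hX
      have c0 : 0 ≤ C := (abs_nonneg _).trans (h ∅ (by simp)).1
      have c1 := (MN_abs fun K hK => (h K fun p hp => mem_PR (hK hp)).1).trans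
        (mul_le_mul_of_nonneg_left hC c0)
      refine ⟨fun j _ T hT => ⟨(abs_sub _ _).trans ?_, (dl_bd T).trans (by nlinarith), fun h1 => ?_,
        fun h1 => ?_⟩, le_of_eq ?_⟩
      · rw [abs_mul]
        nlinarith [(h T hT).1, dl_bd T, abs_nonneg (dl T), abs_nonneg (MN ζ A X)]
      · by_cases e : T = ∅
        · simpa [e] using one_le_rpow hX.le (le_max_right a 0)
        · exact (ls_le hX (fun p hp => (hT p hp).1) _).1
            (((h T hT).2 (by simpa [dl, e] using h1)).trans (le_max_left _ _))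
      · have : T = ∅ := by
          by_contra e
          exact h1 (if_neg e)
        simp [this]
      · simp only [sum_range_one, e, sub_mul, sum_sub_distrib]
        simp [dl, MN])
  refine hW.2.2.2.2.1 _ _ 0 0 h1 le_rfl (Eventually.of_forall fun X n _ _ => le_of_eq ?_)
  simp only [sum_range_one, e, sum_sub_distrib, ← mul_sum, sum_dl, TS, mul_one]

section
variable (hR : RhoStmt) (hM : MertStmt) (hW : RowStmt) (hH : Ha2Stmt)
include hR hM hW hH

theorem heF {a d C : ℝ} {φ : ℝ → Finset ℕ → ℝ} (hζ : 0 < ζ) (h0 : 0 ≤ a) (h1 : 7 * a < 8)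
    (h2 : 3 * ζ + a < 2) (h3 : 2 * d < 1) (h4 : 2 * (a + d) < 3)
    (hφ : ∀ᶠ X : ℝ in atTop, ∀ D : Finset ℕ, (∀ p ∈ D, p.Prime ∧ X ^ ζ ≤ p) →
      |φ X D| ≤ C ∧ (φ X D ≠ 0 → ls X D ≤ d)) : Exa ζ fun X => cut X a (φ X) := by
  obtain ⟨C', C0, hC⟩ := tot hM hζ
  have d0 : 0 < max d (1 / 4) := lt_max_of_lt_right (by norm_num)
  have d1 : 2 * max d (1 / 4) < 1 := by
    rcases max_cases d (1 / 4) with h | h <;> linarith [h.1]
  have d2 : 2 * (a + max d (1 / 4)) < 3 := by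
    rcases max_cases d (1 / 4) with h | h <;> linarith [h.1]
  set N := MN ζ fun X => cut X a dl with hN
  set m := MN ζ fun X => cut X a (φ X) with hm
  have N1 : ∀ᶠ X : ℝ in atTop, 1 ≤ N X := by
    filter_upwards [eventually_gt_atTop 1] with X hX
    refine le_trans (le_of_eq ?_) (single_le_sum (f := fun K => cut X a dl K * ∏ p ∈ K, gp p)
      (fun K _ => mul_nonneg ?_ (prod_nonneg fun p _ => gp_nonneg p)) (empty_mem_powerset _))
    · simp [cut, dl, one_le_rpow hX.le h0]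
    · unfold cut
      split_ifs <;> simp [sum_dl]
  have m1 : ∀ᶠ X : ℝ in atTop, |m X| ≤ 2 ^ ⌊a / ζ⌋₊ * C * C' := by
    filter_upwards [hφ, hC, eventually_gt_atTop 1] with X hφ hC hX
    have c0 : 0 ≤ C := (abs_nonneg _).trans (hφ ∅ (by simp)).1
    refine (MN_abs fun K hK => ?_).trans (mul_le_mul_of_nonneg_left hC (by positivity))
    unfold cut
    split_ifs with h
    · exact sum_bd hX hζ (fun p hp => (mem_PR (hK hp)).2) h
        fun D hD => (hφ D fun p hp => mem_PR (hK (hD hp))).1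
    · simp only [abs_zero]
      positivity
  have lin : ∀ X (ψ : Finset ℕ → ℝ) (c : ℝ) K,
      cut X a (fun D => ψ D + c * dl D) K = cut X a ψ K + c * cut X a dl K := by
    intro X ψ c K
    unfold cut
    split_ifs <;> simp [sum_add_distrib, mul_sum]
  have gen : ∀ (ψ : ℝ → Finset ℕ → ℝ) (c : ℝ → ℝ) (E v : ℝ), (∀ᶠ X : ℝ in atTop, |c X| ≤ E ∧
      (∀ D : Finset ℕ, (∀ p ∈ D, p.Prime ∧ X ^ ζ ≤ p) → |ψ X D| ≤ C ∧ (ψ X D ≠ 0 → ls X D ≤ d)) ∧
      v = MN ζ (fun X => cut X a (ψ X)) X + c X * N X) →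
      Row (fun X n => TS ζ (fun X => cut X a (ψ X)) X n + c X * TS ζ (fun X => cut X a dl) X n)
        v := by
    intro ψ c E v h
    refine hW.2.2.2.2.1 _ _ v v (he0 hR hW hH (C := C + E) (φ := fun X D => ψ X D + c X * dl D)
      hζ h1 h2 d0 d1 d2 ?_ ?_) le_rfl (Eventually.of_forall fun X n _ _ => le_of_eq ?_)
    · filter_upwards [h, eventually_gt_atTop 1] with X ⟨c1, c2, _⟩ hX D hD
      refine ⟨(abs_add_le _ _).trans ?_, fun e => ?_⟩
      · rw [abs_mul]
        nlinarith [(c2 D hD).1, dl_bd D, abs_nonneg (dl D), abs_nonneg (c X)]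
      · by_cases e' : D = ∅
        · simpa [e'] using one_le_rpow hX.le d0.le
        · exact (ls_le hX (fun p hp => (hD p hp).1) _).1
            (((c2 D hD).2 (by simpa [dl, e'] using e)).trans (le_max_left _ _))
    · filter_upwards [h] with X ⟨_, _, c3⟩
      simp only [c3, hN, MN, lin, add_mul, sum_add_distrib, mul_sum, mul_assoc, le_refl]
    · simp only [TS, lin, sum_add_distrib, mul_sum]
  refine RowF.of_shift hW (D := TS ζ fun X => cut X a dl) (N := N) m1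
    (gen φ _ (2 * (2 ^ ⌊a / ζ⌋₊ * C * C')) _ ?_) ?_
  · filter_upwards [hφ, N1, m1] with X hφ N1 m1
    have := abs_le.1 m1
    refine ⟨?_, hφ, by field_simp; ring⟩
    rw [abs_div, abs_of_nonneg (by linarith), abs_of_nonneg (by linarith)]
    exact (div_le_self (by linarith) N1).trans (by linarith)
  · refine hW.2.2.2.2.1 _ _ _ _ (gen (fun _ _ => 0) (fun X => -(1 / N X)) 1 (-1) ?_) le_rfl
      (Eventually.of_forall fun X n _ _ => le_of_eq (by simp [TS, cut]))
    filter_upwards [hφ, N1] with X hφ N1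
    refine ⟨?_, fun D hD => ⟨by simpa using (abs_nonneg _).trans (hφ D hD).1, by simp⟩, ?_⟩
    · rw [abs_neg, abs_of_nonneg (by positivity)]
      exact div_le_one_of_le₀ N1 (by linarith)
    · have : MN ζ (fun X => cut X a fun _ => 0) X = 0 := by simp [MN, cut]
      rw [this]
      field_simp
      ring

end

/-- Restriction to a window of sizes. -/
def win (X a b : ℝ) (F : Finset ℕ → ℝ) (K : Finset ℕ) : ℝ :=
  if a < ls X K ∧ ls X K ≤ b then F K else 0

lemma win_sum (X : ℝ) {t : ℕ → ℝ} (ht : Monotone t) (F : Finset ℕ → ℝ) (K : Finset ℕ) (M : ℕ) :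
    ∑ i ∈ range M, win X (t i) (t (i + 1)) F K = win X (t 0) (t M) F K := by
  induction M with
  | zero => rw [sum_range_zero, win, if_neg fun h => absurd h.2 (not_le.2 h.1)]
  | succ M ih =>
    have h1 := ht (Nat.zero_le M)
    have h2 := ht (Nat.le_succ M)
    rw [sum_range_succ, ih]
    unfold win
    by_cases a : t 0 < ls X K <;> by_cases b : t M < ls X K <;> by_cases c : ls X K ≤ t (M + 1) <;>
      simp [a, b, c, not_lt.1, not_le.2] <;> linarith

section
variable (hR : RhoStmt) (hM : MertStmt) (hW : RowStmt) (hH : Ha2Stmt)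
include hR hM hW hH

theorem heP {a b d C : ℝ} {φ : ℝ → Finset ℕ → ℝ} (hζ : 0 < ζ) (h0 : 0 ≤ a) (hab : a ≤ b)
    (h1 : 7 * b < 8) (h2 : 3 * ζ + b < 2) (h3 : 2 * d < 1) (h4 : 2 * (b + d) < 3)
    (hφ : ∀ᶠ X : ℝ in atTop, ∀ D : Finset ℕ, (∀ p ∈ D, p.Prime ∧ X ^ ζ ≤ p) →
      |φ X D| ≤ C ∧ (φ X D ≠ 0 → ls X D ≤ d)) :
    Exa ζ fun X => win X a b fun K => ∑ D ∈ K.powerset, φ X D := by
  refine ((heF hR hM hW hH hζ (h0.trans hab) h1 h2 h3 h4 hφ).add hW
    (heF hR hM hW hH (φ := fun X D => -φ X D) hζ h0 (by linarith) (by linarith) h3 (by linarith)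
      (by simpa using hφ))).congr hW ?_
  filter_upwards [eventually_gt_atTop 1] with X hX K hK
  simp only [cut, win, ← ls_le hX fun p hp => (hK p hp).1, sum_neg_distrib]
  by_cases c : ls X K ≤ a
  · simp [c, c.trans hab, not_lt.2 c]
  · by_cases c' : ls X K ≤ b <;> simp [c, c', not_le.1 c]

/-- Marks `D` with a weight that is Lipschitz in the size of the set. -/
theorem heW {a b γ C : ℝ} {W : ℝ → Finset ℕ → ℝ → ℝ} (hζ : 0 < ζ) (h0 : 0 ≤ a) (hab : a ≤ b)
    (h1 : 7 * b < 8) (h2 : 3 * ζ + b < 2) (hγ : 0 < γ)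
    (hφ : ∀ᶠ X : ℝ in atTop, ∀ D : Finset ℕ, (∀ p ∈ D, p.Prime ∧ X ^ ζ ≤ p) → ∀ t, a < t → t ≤ b →
      |W X D t| ≤ C ∧ (W X D t ≠ 0 → ls X D ≤ 1 / 2 - γ ∧ ls X D + t ≤ 3 / 2 - γ) ∧
      ∀ t', a < t' → t' ≤ b → |W X D t - W X D t'| ≤ C * |t - t'|) :
    Exa ζ fun X => win X a b fun K => ∑ D ∈ K.powerset, W X D (ls X K) := by
  refine Exa.approx hW hM hζ fun τ hτ => ?_
  obtain ⟨M, M0, hM'⟩ : ∃ M : ℕ, 0 < M ∧ 2 ^ ⌊b / ζ⌋₊ * (|C| * ((b - a) / M)) ≤ τ / 2 := by
    obtain ⟨M, hM'⟩ := exists_nat_gt (2 ^ ⌊b / ζ⌋₊ * (|C| * (b - a)) / (τ / 2))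
    have : (0 : ℝ) < M := lt_of_le_of_lt (by have := sub_nonneg.2 hab; positivity) hM'
    refine ⟨M, by exact_mod_cast this, ?_⟩
    rw [div_lt_iff₀ (by positivity)] at hM'
    rw [← mul_div_assoc, ← mul_div_assoc, div_le_iff₀ this]
    linarith
  have M1 : (0 : ℝ) < M := by exact_mod_cast M0
  set h := (b - a) / M with hh
  have h' : 0 ≤ h := div_nonneg (sub_nonneg.2 hab) M1.le
  set t : ℕ → ℝ := fun i => a + i * h with ht
  have tm : Monotone t := fun i j hij =>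
    add_le_add_right (mul_le_mul_of_nonneg_right (Nat.cast_le.2 hij) h') _
  have t0 : t 0 = a := by simp [ht]
  have tM : t M = b := by simp only [ht, hh]; field_simp; ring
  have ts : ∀ i, t (i + 1) = t i + h := fun i => by simp only [ht]; push_cast; ring
  refine ⟨_, Exa.sum hW (range M) fun i hi => heP hR hM hW hH (C := |C| + τ / 2)
    (a := t i) (b := t (i + 1)) (d := max (min (1 / 2) (3 / 2 - t (i + 1)) - γ) 0)
    (φ := fun X D => (if a < t (i + 1) then W X D (t (i + 1)) else 0) - τ / 2 * dl D) hζ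
    (h0.trans (t0 ▸ tm (Nat.zero_le i))) (tm (Nat.le_succ i)) ?_ ?_ ?_ ?_ ?_, ?_⟩
  all_goals try have tb : t (i + 1) ≤ b := tM ▸ tm (mem_range.1 hi)
  · linarith
  · linarith
  · rcases max_cases (min (1 / 2) (3 / 2 - t (i + 1)) - γ) 0 with e | e <;>
      linarith [e.1, min_le_left (1 / 2) (3 / 2 - t (i + 1))]
  · rcases max_cases (min (1 / 2) (3 / 2 - t (i + 1)) - γ) 0 with e | e <;>
      linarith [e.1, min_le_right (1 / 2) (3 / 2 - t (i + 1))]
  · filter_upwards [hφ] with X hφ D hD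
    refine ⟨(abs_sub _ _).trans (add_le_add ?_ ?_), fun e => ?_⟩
    · split_ifs with c
      · exact (hφ D hD _ c tb).1.trans (le_abs_self C)
      · simp
    · rw [abs_mul, abs_of_pos (half_pos hτ)]
      exact mul_le_of_le_one_right (half_pos hτ).le (dl_bd D)
    · by_cases e' : D = ∅
      · simp [e', ls]
      · have e2 : a < t (i + 1) ∧ W X D (t (i + 1)) ≠ 0 := by simpa [dl, e'] using e
        have := (hφ D hD _ e2.1 tb).2.1 e2.2
        refine le_max_of_le_left ?_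
        rcases min_cases (1 / 2) (3 / 2 - t (i + 1)) with e | e <;> linarith [e.1]
  · filter_upwards [hφ, eventually_gt_atTop 1] with X hφ hX K hK
    have key : ∀ i ∈ range M, t i < ls X K → ls X K ≤ t (i + 1) →
        |∑ D ∈ K.powerset, W X D (ls X K) - ∑ D ∈ K.powerset, W X D (t (i + 1))| ≤ τ / 2 ∧
          a < t (i + 1) := by
      intro i hi c1 c2
      have tb : t (i + 1) ≤ b := tM ▸ tm (mem_range.1 hi)
      have ta : a < ls X K := lt_of_le_of_lt (t0 ▸ tm (Nat.zero_le i)) c1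
      refine ⟨?_, ta.trans_le c2⟩
      rw [← sum_sub_distrib]
      refine (sum_bd hX hζ (fun p hp => (hK p hp).2) ((ls_le hX (fun p hp => (hK p hp).1) b).1
        (c2.trans tb)) fun D hD => ?_).trans hM'
      refine ((hφ D (fun p hp => hK p (hD hp)) _ ta (c2.trans tb)).2.2 _ (ta.trans_le c2) tb).trans
        (mul_le_mul (le_abs_self C) ?_ (abs_nonneg _) (abs_nonneg _))
      rw [abs_le]
      constructor <;> linarith [ts i]
    have e1 := win_sum X tm (fun K => ∑ D ∈ K.powerset, W X D (ls X K)) K M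
    have e2 := win_sum X tm (fun _ => τ) K M
    rw [t0, tM] at e1 e2
    have e3 : win X a b (fun _ => τ) K ≤ τ := by
      unfold win
      split_ifs <;> linarith
    refine ⟨e1 ▸ sum_le_sum fun i hi => ?_, le_trans (sub_le_sub_left e3 _) ?_⟩
    swap
    rw [← e1, ← e2, ← sum_sub_distrib]
    refine sum_le_sum fun i hi => ?_
    all_goals
      unfold win
      by_cases c : t i < ls X K ∧ ls X K ≤ t (i + 1)
      · obtain ⟨k1, k2⟩ := key i hi c.1 c.2
        simp only [if_pos c, if_pos k2, sum_sub_distrib, ← mul_sum, sum_dl]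
        linarith [abs_le.1 k1]
      · simp [if_neg c]

end

end Pool.Agent.Lib.MP_4b1228_nt.PP.He
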