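import Pool.Agent.Lib.MP_4b1228_nt.PP.St

/-!
Type II information from the engine: the estimate for one pair of moduli.
-/

open Finset Real Filter UpperHalfPlane MeasureTheory
open scoped MatrixGroups Classical

noncomputable section

namespace Pool.Agent.Lib.MP_4b1228_nt.PP

namespace K10

/-- The row `(1, 2 i)`. -/
def row (q i : ℕ) : ZMod q × ZMod q := (1, 2 * (i : ZMod q))

/-- The weight on pairs of rows. -/
def Wt (q₁ q₂ : ℕ) (x₁ : ZMod q₁ × ZMod q₁) (x₂ : ZMod q₂ × ZMod q₂) : ℝ :=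
  (iso x₁ - gg q₁) * (iso x₂ - gg q₂)

/-- The first local factor. -/
def aa (q : ℕ) (γ : SL(2, ℤ)) : ℝ :=
  (if (q : ℤ) ∣ fro γ ^ 2 - 4 then (rho q : ℝ) else 0) + 3 * rho q * gg q

/-- The second local factor. -/
def bb (J q : ℕ) (γ : SL(2, ℤ)) : ℝ :=
  ∑ i ∈ range J, ∑ i' ∈ range J, if (q : ℤ) ∣ dl γ i i' then (1 : ℝ) else 0

lemma gg_nonneg (q : ℕ) : 0 ≤ gg q := by
  unfold gg; exact prod_nonneg fun p _ => by positivity

lemma iso_nonneg {q : ℕ} (x : ZMod q × ZMod q) : 0 ≤ iso x := by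
  unfold iso; split_ifs <;> norm_num

lemma aa_nonneg (q : ℕ) (γ : SL(2, ℤ)) : 0 ≤ aa q γ := by
  unfold aa
  have := gg_nonneg q
  split_ifs <;> positivity

lemma bb_nonneg (J q : ℕ) (γ : SL(2, ℤ)) : 0 ≤ bb J q γ := by
  unfold bb
  exact sum_nonneg fun i _ => sum_nonneg fun i' _ => by split_ifs <;> norm_num

lemma iso_row (q i : ℕ) (γ : SL(2, ℤ)) :
    iso (ract γ (row q i)) = if (q : ℤ) ∣ (γ 0 0 + 2 * i * γ 1 0) ^ 2 + (γ 0 1 + 2 * i * γ 1 1) ^ 2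
      then 1 else 0 := by
  unfold iso ract row
  refine if_congr ?_ rfl rfl
  rw [← ZMod.intCast_zmod_eq_zero_iff_dvd]
  push_cast
  simp only [one_mul]

lemma dt_row (q i i' : ℕ) (γ : SL(2, ℤ)) :
    dt (ract γ (row q i)) (row q i') = 0 ↔ (q : ℤ) ∣ dl γ i i' := by
  unfold dt ract row dl
  rw [← ZMod.intCast_zmod_eq_zero_iff_dvd]
  push_cast
  simp only [one_mul, mul_one]

lemma iso_smul {q : ℕ} (u : (ZMod q)ˣ) (x : ZMod q × ZMod q) : iso ((u : ZMod q) • x) = iso x := by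
  unfold iso
  have : ((u : ZMod q) • x).1 ^ 2 + ((u : ZMod q) • x).2 ^ 2 =
      (u : ZMod q) ^ 2 * (x.1 ^ 2 + x.2 ^ 2) := by
    simp only [Prod.smul_fst, Prod.smul_snd, smul_eq_mul]; ring
  rw [this]
  have hu : IsUnit ((u : ZMod q) ^ 2) := (Units.isUnit u).pow 2
  simp only [hu.mul_right_eq_zero]

lemma row_mem (q i : ℕ) [NeZero q] : row q i ∈ UU q := by
  unfold UU row
  simp only [mem_filter, mem_univ, true_and]
  exact isCoprime_one_left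

/-- Support of an admissible profile. -/
lemma supp (geo : GeoStmt) {X Λ Y : ℝ} {f : ℝ → ℝ} (hf : Adm X Λ f) (hX : 1 ≤ X) (hY : 0 < Y)
    {k : ℕ} (hk : 1 ≤ k) {l : ℤ} (h : f (hd (l / k) (1 / k) Y) ≠ 0) :
    k ≤ KM X Y ∧ (l : ℝ) ^ 2 ≤ 2 * X * (k * Y) := by
  have hk0 : (0 : ℝ) < k := by exact_mod_cast hk
  have hy : (0 : ℝ) < 1 / k := by positivity
  obtain ⟨h0, hc, -⟩ := geo.1 (l / k) (1 / k) Y hy hY
  have h1 : hd (l / k) (1 / k) Y ≤ log X := by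
    by_contra hh
    exact h (hf.supp _ (not_le.mp hh))
  have h2 : cosh (hd (l / k) (1 / k) Y) ≤ X := by
    have e1 : exp (hd (l / k) (1 / k) Y) ≤ X := by
      calc _ ≤ exp (log X) := exp_le_exp.mpr h1
        _ = X := exp_log (by linarith)
    have e2 : exp (-hd (l / k) (1 / k) Y) ≤ X := by
      calc _ ≤ exp 0 := exp_le_exp.mpr (by linarith)
        _ = 1 := exp_zero
        _ ≤ X := hX
    rw [cosh_eq]; linarith
  rw [hc, div_le_iff₀ (by positivity)] at h2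
  have h3 : (l : ℝ) ^ 2 + 1 + (k * Y) ^ 2 ≤ 2 * X * (k * Y) := by
    have e : ((l / k : ℝ) ^ 2 + (1 / k) ^ 2 + Y ^ 2) * k ^ 2 = (l : ℝ) ^ 2 + 1 + (k * Y) ^ 2 := by
      field_simp
    have e' : X * (2 * (1 / k) * Y) * k ^ 2 = 2 * X * (k * Y) := by
      field_simp
    rw [← e, ← e']
    exact mul_le_mul_of_nonneg_right h2 (by positivity)
  have hkY : 0 < (k : ℝ) * Y := by positivity
  refine ⟨?_, by nlinarith [sq_nonneg (k * Y : ℝ)]⟩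
  unfold KM
  refine Nat.le_floor ?_
  rw [le_div_iff₀ hY]
  have : (k * Y) * (k * Y) ≤ 2 * X * (k * Y) := by nlinarith [sq_nonneg (l : ℝ)]
  exact le_of_mul_le_mul_right this hkY

/-- The inner sum as a sum over the modular group. -/
lemma inner_eq (geo : GeoStmt) (k1 : K1Stmt) {X Λ Y R : ℝ} {n : ℕ} (hR : 1 ≤ R) (hn : 1 ≤ n)
    (hf : Adm X Λ (prof R n)) (hX : 1 ≤ X) (hY : 0 < Y) (q₁ q₂ i₁ i₂ : ℕ) :
    ∑' γ : SL(2, ℤ), Wt q₁ q₂ (ract γ (row q₁ i₁)) (ract γ (row q₂ i₂)) * kr R n (ipt Y) (γ • I) =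
      4 * ∑ k ∈ (Icc 1 (KM X Y) : Finset ℕ), ∑' l : ℤ,
        if (k : ℤ) ∣ l ^ 2 + 1 then
          xi q₁ (((l + 2 * i₁ * k) ^ 2 + 1) / k) * xi q₂ (((l + 2 * i₂ * k) ^ 2 + 1) / k) *
            prof R n (hd (l / k) (1 / k) Y) else 0 := by
  set h : ℕ → ℤ → ℝ := fun k l => if 1 ≤ k then
    xi q₁ (((l + 2 * i₁ * k) ^ 2 + 1) / k) * xi q₂ (((l + 2 * i₂ * k) ^ 2 + 1) / k) *
      prof R n (hd (l / k) (1 / k) Y) else 0 with hh
  have hs : ∀ k l, h k l ≠ 0 → 1 ≤ k ∧ prof R n (hd (l / k) (1 / k) Y) ≠ 0 := by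
    intro k l hkl
    simp only [hh] at hkl
    split_ifs at hkl with hk
    · exact ⟨hk, right_ne_zero_of_mul hkl⟩
    · exact absurd rfl hkl
  have key := (geo.2.2.2.2.2.2.2.2 (KM X Y) h (fun k l hkl => (supp geo hf hX hY (hs k l hkl).1
    (hs k l hkl).2).1) (fun k => ?_)).2
  · have e1 : ∀ γ : SL(2, ℤ), Wt q₁ q₂ (ract γ (row q₁ i₁)) (ract γ (row q₂ i₂)) *
        kr R n (ipt Y) (γ • I) = h (kk γ) (ll γ) := by
      intro γ
      obtain ⟨g1, -, g3, -⟩ := geo.2.2.2.2.2.2.1 γ (2 * i₁)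
      obtain ⟨-, -, g4, -⟩ := geo.2.2.2.2.2.2.1 γ (2 * i₂)
      have hk0 : (kk γ : ℤ) ≠ 0 := by exact_mod_cast (by omega : kk γ ≠ 0)
      simp only [hh, if_pos g1]
      rw [← g3, ← g4, Int.mul_ediv_cancel_left _ hk0, Int.mul_ediv_cancel_left _ hk0,
        (k1 R n hR hn).2.2.2.2.2.2.2, (geo.2.2.2.2.2.1 Y γ hY).1]
      unfold Wt xi
      rw [iso_row, iso_row]
    simp only [e1]
    rw [key]
    congr 1
    refine sum_congr rfl fun k hk => tsum_congr fun l => ?_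
    simp only [hh, if_pos (mem_Icc.mp hk).1]
  · refine (Set.finite_Icc (-⌈2 * X * (k * Y)⌉) ⌈2 * X * (k * Y)⌉).subset fun l hl => ?_
    have h1 := (supp geo hf hX hY (hs k l hl).1 (hs k l hl).2).2
    have h2 : ((l ^ 2 : ℤ) : ℝ) ≤ (⌈2 * X * (k * Y)⌉ : ℤ) := by
      push_cast; exact h1.trans (Int.le_ceil _)
    have h3 : l ^ 2 ≤ ⌈2 * X * (k * Y)⌉ := by exact_mod_cast h2
    constructor <;> nlinarith [sq_nonneg (2 * l - 1), sq_nonneg (2 * l + 1), sq_nonneg l,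
      Int.le_self_sq l, Int.le_self_sq (-l)]

/-- The estimate for one pair of moduli. -/
lemma pair (k1 : K1Stmt) (k7 : K7Stmt) {Γ R : ℝ} {n n₁ n₂ : ℕ} (hR : 1 ≤ R) (hn₁ : 1 ≤ n₁)
    (hn₂ : 1 ≤ n₂) (hΓ : 0 ≤ Γ) (q₁ q₂ J : ℕ) [NeZero q₁] [NeZero q₂]
    (hq₁ : Squarefree q₁) (hq₂ : Squarefree q₂) (z : ℍ) (T₁ T₂ : Finset SL(2, ℤ))
    (hT₁ : ∀ γ ∉ T₁, kr R (2 * n₁) I (γ • I) = 0) (hT₂ : ∀ γ ∉ T₂, kr R (2 * n₂) z (γ • z) = 0)
    (h6 : ∀ W : ZMod q₁ × ZMod q₁ → ZMod q₂ × ZMod q₂ → ℝ,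
      (∀ (u₁ : (ZMod q₁)ˣ) (u₂ : (ZMod q₂)ˣ) x₁ x₂,
        W ((u₁ : ZMod q₁) • x₁) ((u₂ : ZMod q₂) • x₂) = W x₁ x₂) →
      ∑ x₁ ∈ UU q₁, ∑ x₂ ∈ UU q₂, W x₁ x₂ = 0 →
      ∀ (ι : Type) (s : Finset ι) (x₁ : ι → ZMod q₁ × ZMod q₁) (x₂ : ι → ZMod q₂ × ZMod q₂) (z : ℍ),
      (∀ a ∈ s, x₁ a ∈ UU q₁ ∧ x₂ a ∈ UU q₂) →
      (∑ a ∈ s, ∑' γ : SL(2, ℤ),
          W (ract γ (x₁ a)) (ract γ (x₂ a)) * kr R n z (γ • I)) ^ 2 ≤ Γ *
        (∑' γ : SL(2, ℤ), (∑ y₁ ∈ UU q₁, ∑ y₂ ∈ UU q₂, |W y₁ y₂| * |W (ract γ y₁) (ract γ y₂)|) /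
          (Nat.totient q₁ * Nat.totient q₂) * kr R (2 * n₁) I (γ • I)) *
        (∑ a ∈ s, ∑ b ∈ s, ∑' γ : SL(2, ℤ),
          if dt (ract γ (x₁ a)) (x₁ b) = 0 ∧ dt (ract γ (x₂ a)) (x₂ b) = 0 then
            kr R (2 * n₂) z (γ • z) else 0)) :
    (∑ i ∈ range J ×ˢ range J, ∑' γ : SL(2, ℤ),
        Wt q₁ q₂ (ract γ (row q₁ i.1)) (ract γ (row q₂ i.2)) * kr R n z (γ • I)) ^ 2 ≤
      (Γ * ∑ γ ∈ T₁, aa q₁ γ * aa q₂ γ * kr R (2 * n₁) I (γ • I)) *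
        ∑ γ ∈ T₂, bb J q₁ γ * bb J q₂ γ * kr R (2 * n₂) z (γ • z) := by
  obtain ⟨-, a1, a2⟩ := k7.2.2.2 q₁ hq₁
  obtain ⟨-, b1, b2⟩ := k7.2.2.2 q₂ hq₂
  have p1 := (k1 R (2 * n₁) hR (by omega)).2.1
  have p2 := (k1 R (2 * n₂) hR (by omega)).2.1
  have key := h6 (Wt q₁ q₂) (fun u₁ u₂ x₁ x₂ => by unfold Wt; rw [iso_smul, iso_smul]) (by
      unfold Wt
      rw [← sum_mul_sum, sum_sub_distrib, a1, sum_const, nsmul_eq_mul]
      ring) (ℕ × ℕ) (range J ×ˢ range J) (fun a => row q₁ a.1) (fun a => row q₂ a.2) z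
      (fun a _ => ⟨row_mem _ _, row_mem _ _⟩)
  refine key.trans ?_
  have eB : (∑ a ∈ range J ×ˢ range J, ∑ b ∈ range J ×ˢ range J, ∑' γ : SL(2, ℤ),
      if dt (ract γ (row q₁ a.1)) (row q₁ b.1) = 0 ∧ dt (ract γ (row q₂ a.2)) (row q₂ b.2) = 0 then
        kr R (2 * n₂) z (γ • z) else 0) =
      ∑ γ ∈ T₂, bb J q₁ γ * bb J q₂ γ * kr R (2 * n₂) z (γ • z) := by
    have e : ∀ a b : ℕ × ℕ, (∑' γ : SL(2, ℤ),
        if dt (ract γ (row q₁ a.1)) (row q₁ b.1) = 0 ∧ dt (ract γ (row q₂ a.2)) (row q₂ b.2) = 0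
        then kr R (2 * n₂) z (γ • z) else 0) = ∑ γ ∈ T₂,
          (if (q₁ : ℤ) ∣ dl γ a.1 b.1 then (1 : ℝ) else 0) *
          (if (q₂ : ℤ) ∣ dl γ a.2 b.2 then (1 : ℝ) else 0) * kr R (2 * n₂) z (γ • z) := by
      intro a b
      rw [tsum_eq_sum (s := T₂) (fun γ hγ => by simp only [hT₂ γ hγ, ite_self])]
      refine sum_congr rfl fun γ _ => ?_
      simp only [dt_row]
      by_cases h1 : (q₁ : ℤ) ∣ dl γ a.1 b.1 <;> by_cases h2 : (q₂ : ℤ) ∣ dl γ a.2 b.2 <;>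
        simp [h1, h2]
    simp only [e]
    rw [sum_congr rfl fun a _ => sum_comm, sum_comm]
    refine sum_congr rfl fun γ _ => ?_
    simp only [← sum_mul]
    congr 1
    unfold bb
    rw [sum_mul_sum, sum_product]
    refine sum_congr rfl fun i _ => sum_congr rfl fun j _ => ?_
    rw [sum_mul_sum, sum_product]
  rw [eB]
  refine mul_le_mul_of_nonneg_right (mul_le_mul_of_nonneg_left ?_ hΓ)
    (sum_nonneg fun γ _ => mul_nonneg (mul_nonneg (bb_nonneg _ _ _) (bb_nonneg _ _ _)) (p2 _ _))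
  rw [tsum_eq_sum (s := T₁) (fun γ hγ => by simp only [hT₁ γ hγ, mul_zero])]
  refine sum_le_sum fun γ _ => mul_le_mul_of_nonneg_right ?_ (p1 _ _)
  have t1 : (0 : ℝ) < Nat.totient q₁ := by exact_mod_cast Nat.totient_pos.mpr (NeZero.pos q₁)
  have t2 : (0 : ℝ) < Nat.totient q₂ := by exact_mod_cast Nat.totient_pos.mpr (NeZero.pos q₂)
  rw [div_le_iff₀ (by positivity)]
  have ab : ∀ {q : ℕ} (x : ZMod q × ZMod q), |iso x - gg q| ≤ iso x + gg q := fun {q} x =>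
    abs_le.mpr ⟨by linarith [iso_nonneg x], by linarith [gg_nonneg q]⟩
  calc _ ≤ ∑ y₁ ∈ UU q₁, ∑ y₂ ∈ UU q₂, ((iso y₁ + gg q₁) * (iso (ract γ y₁) + gg q₁)) *
          ((iso y₂ + gg q₂) * (iso (ract γ y₂) + gg q₂)) := by
        refine sum_le_sum fun y₁ _ => sum_le_sum fun y₂ _ => ?_
        unfold Wt
        rw [abs_mul, abs_mul]
        have c1 := ab y₁; have c2 := ab y₂; have c3 := ab (ract γ y₁); have c4 := ab (ract γ y₂)
        calc _ = (|iso y₁ - gg q₁| * |iso (ract γ y₁) - gg q₁|) *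
              (|iso y₂ - gg q₂| * |iso (ract γ y₂) - gg q₂|) := by ring
          _ ≤ _ := mul_le_mul (mul_le_mul c1 c3 (abs_nonneg _) ((abs_nonneg _).trans c1))
              (mul_le_mul c2 c4 (abs_nonneg _) ((abs_nonneg _).trans c2)) (by positivity)
              (mul_nonneg ((abs_nonneg _).trans c1) ((abs_nonneg _).trans c3))
    _ = (∑ y₁ ∈ UU q₁, (iso y₁ + gg q₁) * (iso (ract γ y₁) + gg q₁)) *
          ∑ y₂ ∈ UU q₂, (iso y₂ + gg q₂) * (iso (ract γ y₂) + gg q₂) := by rw [sum_mul_sum]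
    _ ≤ (Nat.totient q₁ * aa q₁ γ) * (Nat.totient q₂ * aa q₂ γ) := by
        refine mul_le_mul (a2 γ) (b2 γ) (sum_nonneg fun y _ => ?_)
          (mul_nonneg t1.le (aa_nonneg _ _))
        exact mul_nonneg (add_nonneg (iso_nonneg _) (gg_nonneg _))
          (add_nonneg (iso_nonneg _) (gg_nonneg _))
    _ = _ := by ring

end K10

end Pool.Agent.Lib.MP_4b1228_nt.PP
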