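import Pool.Agent.Lib.MP_4b1228_nt.PP.St

/-!
Counting lemmas for the equidistribution in large balls: matrices with a small lower left entry.
-/

open Finset Real UpperHalfPlane
open scoped MatrixGroups Classical

noncomputable section

namespace Pool.Agent.Lib.MP_4b1228_nt.PP.K5

/-- The harmonic weight. -/
def hw (n : ℤ) : ℝ := 1 / max 1 |(n : ℝ)|

lemma hw_nonneg (n : ℤ) : 0 ≤ hw n := by unfold hw; positivity

lemma sum_hw (B : ℕ) : ∑ n ∈ (Icc (-(B : ℤ)) B : Finset ℤ), hw n = 1 + 2 * (harmonic B : ℝ) := by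
  induction B with
  | zero => simp [hw]
  | succ B ih =>
    have e : (Icc (-((B + 1 : ℕ) : ℤ)) ((B + 1 : ℕ) : ℤ) : Finset ℤ) =
        insert (-((B : ℤ) + 1)) (insert ((B : ℤ) + 1) (Icc (-(B : ℤ)) B)) := by
      ext x; simp only [mem_Icc, mem_insert]; push_cast; omega
    rw [e, sum_insert (by simp only [mem_Icc, mem_insert]; omega),
      sum_insert (by simp only [mem_Icc]; omega), ih, harmonic_succ]
    have h0 : (0 : ℝ) ≤ B := Nat.cast_nonneg B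
    have h1 : hw ((B : ℤ) + 1) = 1 / ((B : ℝ) + 1) := by
      unfold hw; push_cast
      rw [abs_of_nonneg (by linarith), max_eq_right (by linarith)]
    have h2 : hw (-((B : ℤ) + 1)) = 1 / ((B : ℝ) + 1) := by
      unfold hw; push_cast
      rw [abs_neg, abs_of_nonneg (by linarith), max_eq_right (by linarith)]
    rw [h1, h2]; push_cast; ring

lemma sum_hw_le (B : ℕ) : ∑ n ∈ (Icc (-(B : ℤ)) B : Finset ℤ), hw n ≤ 3 + 2 * log B := by
  rw [sum_hw]; have := harmonic_le_one_add_log B; linarith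

lemma fib {α : Type*} (S : Finset α) (pr : α → ℤ) (B K : ℕ)
    (h1 : ∀ γ ∈ S, pr γ ∈ (Icc (-(B : ℤ)) B : Finset ℤ))
    (h2 : ∀ n, #{γ ∈ S | pr γ = n} ≤ K) :
    ∑ γ ∈ S, hw (pr γ) ≤ K * (3 + 2 * log B) := by
  rw [← sum_fiberwise_of_maps_to h1]
  calc _ ≤ ∑ n ∈ (Icc (-(B : ℤ)) B : Finset ℤ), (K : ℝ) * hw n := by
        refine sum_le_sum fun n _ => ?_
        rw [sum_congr rfl (g := fun _ => hw n) fun γ hγ => by rw [(mem_filter.1 hγ).2], sum_const,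
          nsmul_eq_mul]
        exact mul_le_mul_of_nonneg_right (by exact_mod_cast h2 n) (hw_nonneg n)
    _ ≤ _ := by
        rw [← mul_sum]; exact mul_le_mul_of_nonneg_left (sum_hw_le B) (Nat.cast_nonneg K)

lemma cnt (s : Finset ℤ) (n : ℤ) (hn : n ≠ 0) :
    #{c ∈ s | c ∣ n} ≤ 2 * #n.natAbs.divisors := by
  have : #((univ : Finset Bool) ×ˢ n.natAbs.divisors) = 2 * #n.natAbs.divisors := by
    simp [card_product]
  rw [← this]
  refine card_le_card_of_injOn (fun c => (decide (0 < c), c.natAbs)) ?_ ?_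
  · intro c hc
    have hc' := (mem_filter.1 (mem_coe.1 hc)).2
    simp only [coe_product, coe_univ, Set.mem_prod, Set.mem_univ, true_and, mem_coe,
      Nat.mem_divisors]
    exact ⟨Int.natAbs_dvd_natAbs.2 hc', Int.natAbs_ne_zero.2 hn⟩
  · intro a _ b _ h
    simp only [Prod.mk.injEq, decide_eq_decide] at h
    omega

lemma det_eq (γ : SL(2, ℤ)) : γ 0 0 * γ 1 1 - γ 0 1 * γ 1 0 = 1 := by
  have := γ.det_coe
  rwa [Matrix.det_fin_two] at this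

lemma ext4 {γ σ : SL(2, ℤ)} (h1 : γ 0 0 = σ 0 0) (h2 : γ 0 1 = σ 0 1) (h3 : γ 1 0 = σ 1 0)
    (h4 : γ 1 1 = σ 1 1) : γ = σ := by
  ext i j; fin_cases i <;> fin_cases j <;> assumption

lemma two {S : Finset SL(2, ℤ)} (a e : ℤ) (h0 : a * e = 0)
    (h : ∀ γ ∈ S, γ 0 0 = a ∧ γ 1 1 = e) : #S ≤ 2 := by
  have h2 : #({1, -1} : Finset ℤ) = 2 := by decide
  refine le_of_le_of_eq ?_ h2
  have key : ∀ γ ∈ S, γ 0 1 * γ 1 0 = -1 := fun γ hγ => by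
    have := det_eq γ
    rw [(h γ hγ).1, (h γ hγ).2, h0] at this; linarith
  refine card_le_card_of_injOn (fun γ => γ 1 0) ?_ ?_
  · intro γ hγ
    have := Int.eq_one_or_neg_one_of_mul_eq_neg_one' (key γ hγ)
    simp only [coe_insert, coe_singleton, Set.mem_insert_iff, Set.mem_singleton_iff]
    omega
  · intro γ hγ σ hσ hc
    have h1 := Int.eq_one_or_neg_one_of_mul_eq_neg_one' (key γ hγ)
    have h2 := Int.eq_one_or_neg_one_of_mul_eq_neg_one' (key σ hσ)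
    simp only at hc
    exact ext4 ((h γ hγ).1.trans (h σ hσ).1.symm) (by omega) hc
      ((h γ hγ).2.trans (h σ hσ).2.symm)

lemma fibre (T : Finset SL(2, ℤ)) (B K : ℕ) (b c : ℤ)
    (hK : ∀ m : ℕ, 1 ≤ m → m ≤ B ^ 2 → #m.divisors ≤ K)
    (h : ∀ γ ∈ T, (∀ i j, |γ i j| ≤ B) ∧ γ 0 0 * γ 1 1 ≠ 0 ∧ γ 0 1 = b ∧ γ 1 0 = c) :
    #T ≤ 2 * K := by
  rcases Finset.eq_empty_or_nonempty T with h0 | ⟨γ₀, h₀⟩
  · rw [h0]; simp
  have key : ∀ γ ∈ T, γ 0 0 * γ 1 1 = 1 + b * c := by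
    intro γ hγ
    have := det_eq γ
    rw [(h γ hγ).2.2.1, (h γ hγ).2.2.2] at this
    linarith
  have hn : 1 + b * c ≠ 0 := key γ₀ h₀ ▸ (h γ₀ h₀).2.1
  have hle : (1 + b * c).natAbs ≤ B ^ 2 := by
    rw [← key γ₀ h₀, Int.natAbs_mul, sq]
    have u1 := (h γ₀ h₀).1 0 0
    have u2 := (h γ₀ h₀).1 1 1
    rw [← Int.natCast_natAbs] at u1 u2
    exact Nat.mul_le_mul (by exact_mod_cast u1) (by exact_mod_cast u2)
  refine le_trans ?_ ((cnt (Icc (-(B : ℤ)) B) _ hn).trans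
    (Nat.mul_le_mul_left 2 (hK _ (Int.natAbs_pos.2 hn) hle)))
  refine card_le_card_of_injOn (fun γ => γ 0 0) ?_ ?_
  · intro γ hγ
    exact mem_coe.2 (mem_filter.2 ⟨mem_Icc.2 (abs_le.1 ((h γ hγ).1 0 0)),
      key γ hγ ▸ dvd_mul_right _ _⟩)
  · intro γ hγ σ hσ e
    obtain ⟨-, k2, k3, k4⟩ := h γ hγ
    obtain ⟨-, -, l3, l4⟩ := h σ hσ
    have k5 := key γ hγ
    have l5 := key σ hσ
    simp only at e
    refine ext4 e (k3.trans l3.symm) (k4.trans l4.symm) ?_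
    rw [← e] at l5
    exact mul_left_cancel₀ (left_ne_zero_of_mul k2) (k5.trans l5.symm)

lemma fibre2 (T : Finset SL(2, ℤ)) (B C₀ K : ℕ) (b : ℤ)
    (hK : ∀ m : ℕ, 1 ≤ m → m ≤ B ^ 2 → #m.divisors ≤ K)
    (h : ∀ γ ∈ T, (∀ i j, |γ i j| ≤ B) ∧ γ 0 0 * γ 1 1 ≠ 0 ∧ γ 0 1 = b ∧ |γ 1 0| ≤ C₀) :
    #T ≤ 2 * K * (2 * C₀ + 1) := by
  have hc : #(Icc (-(C₀ : ℤ)) C₀ : Finset ℤ) = 2 * C₀ + 1 := by
    rw [Int.card_Icc]; omega
  rw [← hc]
  refine card_le_mul_card_image_of_maps_to (f := fun γ : SL(2, ℤ) => γ 1 0)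
    (fun γ hγ => mem_Icc.2 (abs_le.1 (h γ hγ).2.2.2)) _ fun c _ => ?_
  refine fibre _ B K b c hK fun γ hγ => ?_
  obtain ⟨h1, h2⟩ := mem_filter.1 hγ
  exact ⟨(h γ h1).1, (h γ h1).2.1, (h γ h1).2.2.1, h2⟩

/-- Matrices with a small lower left entry. -/
lemma small (S : Finset SL(2, ℤ)) (B C₀ K : ℕ) (w : SL(2, ℤ) → ℝ)
    (hB : ∀ γ ∈ S, ∀ i j, |γ i j| ≤ B) (hC : ∀ γ ∈ S, |γ 1 0| ≤ C₀)
    (hK : ∀ m : ℕ, 1 ≤ m → m ≤ B ^ 2 → #m.divisors ≤ K)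
    (hw' : ∀ γ ∈ S, ∀ i j, w γ ≤ hw (γ i j)) :
    ∑ γ ∈ S, w γ ≤ ((2 * C₀ + 1) * (2 * K) + 4) * (3 + 2 * log B) := by
  have hI : ∀ γ ∈ S, ∀ i j, γ i j ∈ (Icc (-(B : ℤ)) B : Finset ℤ) := fun γ hγ i j =>
    mem_Icc.2 (abs_le.1 (hB γ hγ i j))
  have a1 := fib (S.filter fun γ => γ 0 0 = 0) (fun γ => γ 1 1) B 2
    (fun γ hγ => hI γ (mem_filter.1 hγ).1 1 1) (by
      intro n
      refine two 0 n (by simp) fun γ hγ => ?_
      obtain ⟨h1, h2⟩ := mem_filter.1 hγ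
      exact ⟨(mem_filter.1 h1).2, h2⟩)
  have a2 := fib (S.filter fun γ => γ 1 1 = 0) (fun γ => γ 0 0) B 2
    (fun γ hγ => hI γ (mem_filter.1 hγ).1 0 0) (by
      intro n
      refine two n 0 (by simp) fun γ hγ => ?_
      obtain ⟨h1, h2⟩ := mem_filter.1 hγ
      exact ⟨h2, (mem_filter.1 h1).2⟩)
  have a3 := fib (S.filter fun γ => γ 0 0 * γ 1 1 ≠ 0) (fun γ => γ 0 1) B (2 * K * (2 * C₀ + 1))
    (fun γ hγ => hI γ (mem_filter.1 hγ).1 0 1) (by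
      intro b
      refine fibre2 _ B C₀ K b hK fun γ hγ => ?_
      obtain ⟨h1, h2⟩ := mem_filter.1 hγ
      obtain ⟨h3, h4⟩ := mem_filter.1 h1
      exact ⟨hB γ h3, h4, h2, hC γ h3⟩)
  have a4 : ∑ γ ∈ S, w γ ≤ ∑ γ ∈ S with γ 0 0 = 0, hw (γ 1 1) +
      ∑ γ ∈ S with γ 1 1 = 0, hw (γ 0 0) + ∑ γ ∈ S with γ 0 0 * γ 1 1 ≠ 0, hw (γ 0 1) := by
    simp only [sum_filter, ← sum_add_distrib]
    refine sum_le_sum fun γ hγ => ?_
    have b1 := hw' γ hγ 0 0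
    have b2 := hw' γ hγ 0 1
    have b3 := hw' γ hγ 1 1
    have c1 := hw_nonneg (γ 0 0)
    have c2 := hw_nonneg (γ 0 1)
    have c3 := hw_nonneg (γ 1 1)
    by_cases h1 : γ 0 0 = 0
    · rw [if_pos h1]; split_ifs <;> linarith
    · by_cases h2 : γ 1 1 = 0
      · rw [if_neg h1, if_pos h2]; split_ifs <;> linarith
      · rw [if_neg h1, if_neg h2, if_pos (mul_ne_zero h1 h2)]; linarith
  push_cast at a1 a2 a3
  linarith

lemma sum_split (h : ℤ → ℝ) (a₀ : ℤ) (L n : ℕ) :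
    ∑ a ∈ Ico a₀ (a₀ + n * L), h a =
      ∑ j ∈ range n, ∑ a ∈ Ico (a₀ + j * L) (a₀ + j * L + L), h a := by
  induction n with
  | zero => simp
  | succ n ih =>
    have h0 : (0 : ℤ) ≤ n * L := by positivity
    have h1 : (0 : ℤ) ≤ L := by positivity
    rw [sum_range_succ, ← ih, ← sum_union (Ico_disjoint_Ico_consecutive _ _ _),
      Ico_union_Ico_eq_Ico (by linarith) (by linarith)]
    congr 2; push_cast; ring

lemma sum_split2 (h : ℤ × ℤ → ℝ) (a₀ : ℤ) (L n : ℕ) :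
    ∑ w ∈ Ico a₀ (a₀ + n * L) ×ˢ Ico a₀ (a₀ + n * L), h w =
      ∑ j ∈ range n ×ˢ range n, ∑ w ∈ Ico (a₀ + j.1 * L) (a₀ + j.1 * L + L) ×ˢ
        Ico (a₀ + j.2 * L) (a₀ + j.2 * L + L), h w := by
  rw [sum_product, sum_split, sum_product]
  refine sum_congr rfl fun i _ => ?_
  simp only [sum_product]
  rw [sum_comm (s := range n)]
  refine sum_congr rfl fun a _ => ?_
  rw [sum_split (fun e => h (a, e))]

/-- The number of matrices with diagonal in a box. -/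
lemma total (Cs : Finset ℤ) (W : Finset (ℤ × ℤ)) (K : ℕ)
    (hK : ∀ w ∈ W, w.1 * w.2 - 1 ≠ 0 → #(w.1 * w.2 - 1).natAbs.divisors ≤ K) :
    ∑ c ∈ Cs, ∑ w ∈ W, (if c ∣ w.1 * w.2 - 1 then (1 : ℝ) else 0) ≤ #W * (2 * K) + 2 * #Cs := by
  rw [sum_comm]
  have h1 : ∀ w ∈ W, ∑ c ∈ Cs, (if c ∣ w.1 * w.2 - 1 then (1 : ℝ) else 0) ≤
      2 * K + if w.1 * w.2 - 1 = 0 then (#Cs : ℝ) else 0 := by
    intro w hw
    rw [sum_boole]
    split_ifs with h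
    · have : (#{c ∈ Cs | c ∣ w.1 * w.2 - 1} : ℝ) ≤ #Cs := by exact_mod_cast card_filter_le _ _
      have : (0 : ℝ) ≤ K := Nat.cast_nonneg K
      linarith
    · have := (cnt Cs _ h).trans (Nat.mul_le_mul_left 2 (hK w hw h))
      rw [add_zero]; exact_mod_cast this
  refine (sum_le_sum h1).trans ?_
  rw [sum_add_distrib, sum_const, nsmul_eq_mul, ← sum_filter, sum_const, nsmul_eq_mul]
  have h2 : #{w ∈ W | w.1 * w.2 - 1 = 0} ≤ 2 := by
    have : #({(1, 1), (-1, -1)} : Finset (ℤ × ℤ)) = 2 := by decide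
    rw [← this]
    refine card_le_card fun w hw => ?_
    have := Int.eq_one_or_neg_one_of_mul_eq_one' (sub_eq_zero.1 (mem_filter.1 hw).2)
    simp only [mem_insert, mem_singleton, Prod.ext_iff]
    exact this
  have h3 : (#{w ∈ W | w.1 * w.2 - 1 = 0} : ℝ) ≤ 2 := by exact_mod_cast h2
  have := mul_le_mul_of_nonneg_right h3 (Nat.cast_nonneg (α := ℝ) #Cs)
  linarith

end Pool.Agent.Lib.MP_4b1228_nt.PP.K5
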