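import Pool.Agent.Lib.MP_4b1228_nt.PP.K5a

/-!
Equidistribution in large balls: matrices with a large lower left entry.
-/

open Finset Real UpperHalfPlane
open scoped MatrixGroups Classical

noncomputable section

namespace Pool.Agent.Lib.MP_4b1228_nt.PP.K5

open MP_9177b7_ag.EQ

def fr (c a e : ℝ) : ℝ := a ^ 2 + e ^ 2 + c ^ 2 + ((a * e - 1) / c) ^ 2

/-- The displacement of `i` by the real matrix with entries `a, c, e` and determinant one. -/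
def dd (c a e : ℝ) : ℝ := arcosh (fr c a e / 2)

lemma dd_symm (c a e : ℝ) : dd c a e = dd c e a := by
  unfold dd fr; congr 1; ring

lemma fr_eq {c : ℝ} (hc : c ≠ 0) (a e : ℝ) :
    ((a / c - e / (c * (c ^ 2 + e ^ 2))) ^ 2 + (1 / (c ^ 2 + e ^ 2)) ^ 2 + 1 ^ 2) /
      (2 * (1 / (c ^ 2 + e ^ 2)) * 1) = fr c a e / 2 := by
  have : c ^ 2 + e ^ 2 ≠ 0 := by positivity
  unfold fr; field_simp; ring

lemma dd_hd {c : ℝ} (hc : c ≠ 0) (a e : ℝ) :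
    dd c a e = hd (a / c - e / (c * (c ^ 2 + e ^ 2))) (1 / (c ^ 2 + e ^ 2)) 1 := by
  unfold dd hd; rw [fr_eq hc]

lemma dd_facts (hg : GeoStmt) {c : ℝ} (hc : c ≠ 0) (a e : ℝ) :
    0 ≤ dd c a e ∧ cosh (dd c a e) = fr c a e / 2 ∧ ∀ a', |dd c a e - dd c a' e| ≤ |a - a'| / |c| := by
  have hk : 0 < 1 / (c ^ 2 + e ^ 2) := by positivity
  obtain ⟨h1, h2, h3, -⟩ := hg.1 (a / c - e / (c * (c ^ 2 + e ^ 2))) _ 1 hk one_pos
  refine ⟨dd_hd hc a e ▸ h1, by rw [dd_hd hc, h2, fr_eq hc], fun a' => ?_⟩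
  rw [dd_hd hc, dd_hd hc]
  refine (h3 _).trans (le_of_eq ?_)
  rw [div_one, ← abs_div]; congr 1; ring

lemma dd_lip (hg : GeoStmt) {c : ℝ} (hc : c ≠ 0) (a e a' e' : ℝ) :
    |dd c a e - dd c a' e'| ≤ (|a - a'| + |e - e'|) / |c| := by
  have h1 := (dd_facts hg hc a e).2.2 a'
  have h2 := (dd_facts hg hc e a').2.2 e'
  rw [dd_symm c e a', dd_symm c e' a'] at h2
  rw [add_div]
  exact (abs_sub_le _ _ _).trans (add_le_add h1 h2)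

lemma cosh_dist_I (hg : GeoStmt) (γ : SL(2, ℤ)) : 2 * cosh (dist I (γ • I)) =
    (γ 0 0 : ℝ) ^ 2 + (γ 1 1 : ℝ) ^ 2 + (γ 0 1 : ℝ) ^ 2 + (γ 1 0 : ℝ) ^ 2 := by
  have := (hg.2.2.2.2.2.1 1 γ one_pos).2
  rw [hg.2.2.2.2.1] at this
  rw [this]; ring

lemma dist_dd (hg : GeoStmt) (γ : SL(2, ℤ)) (hc : γ 1 0 ≠ 0) :
    dist I (γ • I) = dd (γ 1 0) (γ 0 0) (γ 1 1) := by
  have hc' : (γ 1 0 : ℝ) ≠ 0 := by exact_mod_cast hc
  have h1 := cosh_dist_I hg γ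
  have h2 : (γ 0 0 : ℝ) * γ 1 1 - γ 0 1 * γ 1 0 = 1 := by exact_mod_cast det_eq γ
  have h3 : ((γ 0 0 : ℝ) * γ 1 1 - 1) / γ 1 0 = γ 0 1 := by
    rw [div_eq_iff hc']; linarith
  have h4 : fr (γ 1 0) (γ 0 0) (γ 1 1) / 2 = cosh (dist I (γ • I)) := by
    unfold fr; rw [h3]; linarith
  unfold dd
  rw [h4, arcosh_cosh dist_nonneg]

/-- The integer matrix with entries `a, c, e`. -/
def mt (c a e : ℤ) : M2 := !![a, (a * e - 1) / c; c, e]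

/-- The summand. -/
def gs (ψ : M2 → ℝ) (f : ℝ → ℝ) (c : ℤ) (w : ℤ × ℤ) : ℝ :=
  if c ∣ w.1 * w.2 - 1 then (ψ (mt c (w.1 + c) w.2) - ψ (mt c w.1 w.2)) * f (dd c w.1 w.2) else 0

lemma shift (ψ : M2 → ℝ) (c a₀ e₀ : ℤ) (L : ℕ) :
    ∑ w ∈ Ico a₀ (a₀ + L) ×ˢ Ico e₀ (e₀ + L),
      (if c ∣ w.1 * w.2 - 1 then ψ (mt c (w.1 + c) w.2) else 0) = boxSum ψ 1 c (a₀ + c) e₀ L := by
  unfold boxSum
  rw [sum_filter]
  refine sum_bij' (fun w _ => (w.1 + c, w.2)) (fun w _ => (w.1 - c, w.2)) ?_ ?_ ?_ ?_ ?_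
  · intro w hw
    simp only [mem_product, mem_Ico] at hw ⊢
    omega
  · intro w hw
    simp only [mem_product, mem_Ico] at hw ⊢
    omega
  · intro w _; simp
  · intro w _; simp
  · intro w _
    have : c ∣ (w.1 + c) * w.2 - 1 ↔ c ∣ w.1 * w.2 - 1 := by
      rw [show (w.1 + c) * w.2 - 1 = w.1 * w.2 - 1 + c * w.2 by ring]
      exact dvd_add_left (dvd_mul_right _ _)
    simp only [this, mt]

lemma box (ψ : M2 → ℝ) (hψ : ∀ g, |ψ g| ≤ 1) (f : ℝ → ℝ) (c a₀ e₀ : ℤ) (L : ℕ) (E P O : ℝ)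
    (hE : |boxSum ψ 1 c (a₀ + c) e₀ L - boxSum ψ 1 c a₀ e₀ L| ≤ E)
    (hP : |f (dd c a₀ e₀)| ≤ P)
    (hO : ∀ w ∈ Ico a₀ (a₀ + L) ×ˢ Ico e₀ (e₀ + L), |f (dd c w.1 w.2) - f (dd c a₀ e₀)| ≤ O) :
    |∑ w ∈ Ico a₀ (a₀ + L) ×ˢ Ico e₀ (e₀ + L), gs ψ f c w| ≤ P * E +
      ∑ w ∈ Ico a₀ (a₀ + L) ×ˢ Ico e₀ (e₀ + L),
        2 * O * (if c ∣ w.1 * w.2 - 1 then (1 : ℝ) else 0) := by
  have e1 : boxSum ψ 1 c a₀ e₀ L = ∑ w ∈ Ico a₀ (a₀ + L) ×ˢ Ico e₀ (e₀ + L),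
      (if c ∣ w.1 * w.2 - 1 then ψ (mt c w.1 w.2) else 0) := by
    unfold boxSum; rw [sum_filter]; rfl
  have e2 : ∑ w ∈ Ico a₀ (a₀ + L) ×ˢ Ico e₀ (e₀ + L), gs ψ f c w =
      f (dd c a₀ e₀) * (boxSum ψ 1 c (a₀ + c) e₀ L - boxSum ψ 1 c a₀ e₀ L) +
      ∑ w ∈ Ico a₀ (a₀ + L) ×ˢ Ico e₀ (e₀ + L), (if c ∣ w.1 * w.2 - 1 then
        (ψ (mt c (w.1 + c) w.2) - ψ (mt c w.1 w.2)) * (f (dd c w.1 w.2) - f (dd c a₀ e₀))
          else 0) := by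
    rw [← shift, e1, ← sum_sub_distrib, mul_sum, ← sum_add_distrib]
    refine sum_congr rfl fun w _ => ?_
    unfold gs; split_ifs <;> ring
  rw [e2]
  refine (abs_add_le _ _).trans (add_le_add ?_ ?_)
  · rw [abs_mul]
    exact mul_le_mul hP hE (abs_nonneg _) ((abs_nonneg _).trans hP)
  · refine (abs_sum_le_sum_abs _ _).trans (sum_le_sum fun w hw => ?_)
    split_ifs
    · rw [abs_mul, mul_one]
      refine mul_le_mul ?_ (hO w hw) (abs_nonneg _) (by norm_num)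
      have := abs_sub (ψ (mt c (w.1 + c) w.2)) (ψ (mt c w.1 w.2))
      linarith [hψ (mt c (w.1 + c) w.2), hψ (mt c w.1 w.2)]
    · simp

/-- The sum for one value of the lower left entry. -/
lemma row (hg : GeoStmt) {X Λ : ℝ} {f : ℝ → ℝ} (hf : Adm X Λ f) (hΛ : 0 ≤ Λ) (hX : 0 ≤ X)
    (ψ : M2 → ℝ) (hψ : ∀ g, |ψ g| ≤ 1) (c a₀ : ℤ) (L n : ℕ) (E P C₀ : ℝ) (hC : 0 < C₀)
    (hc : C₀ ≤ |(c : ℝ)|) (hL : 2 * (L : ℝ) ≤ C₀) (hP : √(X / (C₀ ^ 2 / 2)) ≤ P)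
    (hE : ∀ a e, |boxSum ψ 1 c (a + c) e L - boxSum ψ 1 c a e L| ≤ E) :
    |∑ w ∈ Ico a₀ (a₀ + n * L) ×ˢ Ico a₀ (a₀ + n * L), gs ψ f c w| ≤
      (n : ℝ) ^ 2 * (Λ * P * E) + 2 * (2 * L / C₀ * Λ * P) *
        ∑ w ∈ Ico a₀ (a₀ + n * L) ×ˢ Ico a₀ (a₀ + n * L),
          (if c ∣ w.1 * w.2 - 1 then (1 : ℝ) else 0) := by
  have hc0 : (c : ℝ) ≠ 0 := abs_pos.1 (hC.trans_le hc)
  have hs : ∀ a e : ℝ, √(X / cosh (dd c a e)) ≤ P := by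
    intro a e
    refine le_trans (sqrt_le_sqrt ?_) hP
    refine div_le_div_of_nonneg_left hX (by positivity) ?_
    rw [(dd_facts hg hc0 a e).2.1]
    have : C₀ ^ 2 ≤ (c : ℝ) ^ 2 := by rw [← sq_abs (c : ℝ)]; gcongr
    unfold fr
    nlinarith [sq_nonneg a, sq_nonneg e, sq_nonneg ((a * e - 1) / c)]
  rw [mul_sum, sum_split2, sum_split2 (fun w => 2 * (2 * L / C₀ * Λ * P) *
    (if c ∣ w.1 * w.2 - 1 then (1 : ℝ) else 0))]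
  have hn : (n : ℝ) ^ 2 * (Λ * P * E) = ∑ _j ∈ range n ×ˢ range n, Λ * P * E := by
    rw [sum_const, card_product, card_range, nsmul_eq_mul]; push_cast; ring
  rw [hn, ← sum_add_distrib]
  refine (abs_sum_le_sum_abs _ _).trans (sum_le_sum fun j _ => ?_)
  refine box ψ hψ f c _ _ L E _ _ (hE _ _) ?_ ?_
  · rw [abs_of_nonneg (hf.nonneg _)]
    exact (hf.bd _ (dd_facts hg hc0 _ _).1).trans (mul_le_mul_of_nonneg_left (hs _ _) hΛ)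
  · intro w hw
    simp only [mem_product, mem_Ico] at hw
    set a := a₀ + j.1 * L
    set e := a₀ + j.2 * L
    have h1 : |(w.1 : ℝ) - a| ≤ L := by
      have : |w.1 - a| ≤ L := abs_le.2 ⟨by omega, by omega⟩
      exact_mod_cast this
    have h2 : |(w.2 : ℝ) - e| ≤ L := by
      have : |w.2 - e| ≤ L := abs_le.2 ⟨by omega, by omega⟩
      exact_mod_cast this
    have h3 : |dd c w.1 w.2 - dd c a e| ≤ 2 * L / C₀ :=
      (dd_lip hg hc0 _ _ _ _).trans (div_le_div₀ (by positivity) (by linarith) hC hc)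
    have h4 : 2 * (L : ℝ) / C₀ ≤ 1 := (div_le_one hC).2 hL
    refine (hf.lip _ _ (dd_facts hg hc0 _ _).1 (dd_facts hg hc0 _ _).1 (h3.trans h4)).trans ?_
    exact mul_le_mul (mul_le_mul_of_nonneg_right h3 hΛ) (hs _ _) (sqrt_nonneg _) (by positivity)

lemma mt_eq (γ : SL(2, ℤ)) (hc : γ 1 0 ≠ 0) :
    γ.1 = mt (γ 1 0) (γ 0 0) (γ 1 1) ∧
    (ModularGroup.T * γ).1 = mt (γ 1 0) (γ 0 0 + γ 1 0) (γ 1 1) := by
  have h := det_eq γ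
  have h1 : (γ 0 0 * γ 1 1 - 1) / γ 1 0 = γ 0 1 := by
    rw [show γ 0 0 * γ 1 1 - 1 = γ 0 1 * γ 1 0 by linarith, Int.mul_ediv_cancel _ hc]
  have h2 : ((γ 0 0 + γ 1 0) * γ 1 1 - 1) / γ 1 0 = γ 0 1 + γ 1 1 := by
    rw [show (γ 0 0 + γ 1 0) * γ 1 1 - 1 = (γ 0 1 + γ 1 1) * γ 1 0 by linarith,
      Int.mul_ediv_cancel _ hc]
  unfold mt
  rw [h1, h2]
  constructor
  · ext i j; fin_cases i <;> fin_cases j <;> rfl
  · ext i j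
    fin_cases i <;> fin_cases j <;>
      simp [ModularGroup.T, Matrix.mul_apply, Fin.sum_univ_two]

/-- Passage from matrices to triples. -/
lemma large (hg : GeoStmt) (ψ : M2 → ℝ) (f : ℝ → ℝ) (S : Finset SL(2, ℤ)) (Cs : Finset ℤ)
    (W : Finset (ℤ × ℤ)) (h0 : (0 : ℤ) ∉ Cs)
    (h1 : ∀ γ ∈ S, γ 1 0 ∈ Cs ∧ (γ 0 0, γ 1 1) ∈ W)
    (h2 : ∀ γ : SL(2, ℤ), γ 1 0 ∈ Cs → f (dist I (γ • I)) ≠ 0 → γ ∈ S) :
    ∑ γ ∈ S, (ψ (ModularGroup.T * γ).1 - ψ γ.1) * f (dist I (γ • I)) =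
      ∑ c ∈ Cs, ∑ w ∈ W, gs ψ f c w := by
  rw [← sum_product' (f := fun c w => gs ψ f c w)]
  have hne : ∀ γ ∈ S, γ 1 0 ≠ 0 := fun γ hγ h => h0 (h ▸ (h1 γ hγ).1)
  refine sum_of_injOn (fun γ : SL(2, ℤ) => (γ 1 0, (γ 0 0, γ 1 1))) ?_ ?_ ?_ ?_
  · intro γ hγ σ _ h
    simp only [Prod.mk.injEq] at h
    obtain ⟨k1, k2, k3⟩ := h
    refine ext4 k2 ?_ k1 k3
    have u := det_eq γ
    have v := det_eq σ
    rw [← k1, ← k2, ← k3] at v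
    exact mul_right_cancel₀ (hne γ hγ) (by linarith)
  · intro γ hγ
    exact mem_coe.2 (mem_product.2 (h1 γ hγ))
  · intro t ht hni
    by_contra hne'
    unfold gs at hne'
    split_ifs at hne' with hd
    · have hc : t.1 ≠ 0 := fun h => h0 (h ▸ (mem_product.1 ht).1)
      let γ : SL(2, ℤ) := ⟨mt t.1 t.2.1 t.2.2, by
        simp only [mt, Matrix.det_fin_two_of]
        rw [Int.ediv_mul_cancel hd]; ring⟩
      have e1 : γ 1 0 = t.1 := rfl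
      have e2 : γ 0 0 = t.2.1 := rfl
      have e3 : γ 1 1 = t.2.2 := rfl
      refine hni ⟨γ, mem_coe.2 (h2 γ (mem_product.1 ht).1 ?_), rfl⟩
      rw [dist_dd hg γ hc, e1, e2, e3]
      exact right_ne_zero_of_mul hne'
    · exact hne' rfl
  · intro γ hγ
    have hc := hne γ hγ
    have hd : γ 1 0 ∣ γ 0 0 * γ 1 1 - 1 := ⟨γ 0 1, by linarith [det_eq γ]⟩
    unfold gs
    simp only
    rw [if_pos hd, ← (mt_eq γ hc).1, ← (mt_eq γ hc).2, dist_dd hg γ hc]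

end Pool.Agent.Lib.MP_4b1228_nt.PP.K5
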