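import Pool.Agent.Lib.MP_4b1228_nt.PP.St

/-! The engine: Cauchy-Schwarz, logarithmic convexity and equidistribution in large balls. -/

open Finset Real Filter UpperHalfPlane
open scoped MatrixGroups Classical

noncomputable section

namespace Pool.Agent.Lib.MP_4b1228_nt.PP

open MP_9177b7_ag.EQ (M2 Per Dv)

namespace K6

theorem sm {α : Type} {F : α → ℝ} (hF : (Function.support F).Finite) (c : α → ℝ) :
    Summable fun γ => c γ * F γ :=
  summable_of_hasFiniteSupport (hF.subset fun _ h => right_ne_zero_of_mul h)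

theorem per_mul {q : ℕ} {ψ : M2 → ℝ} (h : Per q ψ) (g : M2) : Per q fun M => ψ (g * M) :=
  ⟨fun _ => h.1 _, fun M M' d => h.2 _ _ fun i j => by
    rw [← Matrix.mul_sub, Matrix.mul_apply]
    exact Finset.dvd_sum fun l _ => (d l j).mul_left _⟩

theorem gap {q : ℕ} (F : ℕ → SL(2, ℤ) → ℝ) (e : ℕ → ℝ)
    (fin : ∀ m, (Function.support (F m)).Finite) (hS : ∀ m γ, F m (ModularGroup.S * γ) = F m γ)
    (hT : ∃ C : ℝ, ∀ m ψ, Per q ψ →
      |∑' γ : SL(2, ℤ), (ψ (ModularGroup.T * γ).1 - ψ γ.1) * F m γ| ≤ C * e m) (g : SL(2, ℤ)) :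
    ∃ C : ℝ, ∀ m ψ, Per q ψ → |∑' γ : SL(2, ℤ), (ψ (g * γ).1 - ψ γ.1) * F m γ| ≤ C * e m := by
  have hg : g ∈ Subgroup.closure {ModularGroup.S, ModularGroup.T} := by
    rw [SpecialLinearGroup.SL2Z_generators]; trivial
  induction hg using Subgroup.closure_induction with
  | mem x hx =>
    rcases hx with rfl | rfl
    · refine ⟨0, fun m ψ _ => ?_⟩
      have := (Equiv.mulLeft ModularGroup.S).tsum_eq fun γ : SL(2, ℤ) => ψ γ.1 * F m γ
      simp only [Equiv.coe_mulLeft, hS] at this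
      simp only [sub_mul]
      rw [(sm (fin m) _).tsum_sub (sm (fin m) _), this]
      simp
    · exact hT
  | one => exact ⟨0, fun m ψ _ => by simp⟩
  | mul x y _ _ a b =>
    obtain ⟨C, a⟩ := a
    obtain ⟨C', b⟩ := b
    refine ⟨C' + C, fun m ψ p => ?_⟩
    have e1 : ∀ γ : SL(2, ℤ), (ψ (x * y * γ).1 - ψ γ.1) * F m γ =
        (ψ (x.1 * (y * γ).1) - ψ (x.1 * γ.1)) * F m γ + (ψ (x * γ).1 - ψ γ.1) * F m γ := fun γ => by
      rw [mul_assoc, Matrix.SpecialLinearGroup.coe_mul x (y * γ),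
        Matrix.SpecialLinearGroup.coe_mul x γ]
      ring
    rw [tsum_congr e1, (sm (fin m) _).tsum_add (sm (fin m) _), add_mul]
    exact (abs_add_le _ _).trans (add_le_add (b m _ (per_mul p x.1)) (a m ψ p))
  | inv x _ a =>
    obtain ⟨C, a⟩ := a
    refine ⟨C, fun m ψ p => ?_⟩
    have e1 : ∀ γ : SL(2, ℤ), (ψ (x⁻¹ * γ).1 - ψ γ.1) * F m γ =
        -((ψ ((x⁻¹).1 * (x * γ).1) - ψ ((x⁻¹).1 * γ.1)) * F m γ) := fun γ => by
      rw [← Matrix.SpecialLinearGroup.coe_mul, ← Matrix.SpecialLinearGroup.coe_mul,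
        inv_mul_cancel_left]
      ring
    rw [tsum_congr e1, tsum_neg, abs_neg]
    exact a m _ (per_mul p _)

theorem conv (a : ℕ → ℝ) {μ K : ℝ} (h0 : 0 < μ) (nn : ∀ m, 0 ≤ a m)
    (lc : ∀ m, a (m + 1) ^ 2 ≤ a m * a (m + 2)) (bd : ∀ m, a m ≤ K * μ ^ m) (m n : ℕ) :
    a (m + n) ≤ μ ^ n * a m := by
  have st : ∀ m, a (m + 1) ≤ μ * a m := fun m => by
    by_contra hc
    rw [not_le] at hc
    have p0 : 0 < a m := (nn m).lt_of_ne fun e => by
      have := lc m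
      rw [← e] at this hc
      nlinarith
    obtain ⟨r, hr⟩ : ∃ r, a (m + 1) = r * a m := ⟨a (m + 1) / a m, by field_simp⟩
    have r1 : μ < r := lt_of_mul_lt_mul_right (hr ▸ hc) p0.le
    have r0 : 0 < r := h0.trans r1
    have k : ∀ j, r ^ j * a m ≤ a (m + j) ∧ r * a (m + j) ≤ a (m + j + 1) := fun j => by
      induction j with
      | zero => simp [hr]
      | succ j ih =>
        have p1 : 0 < a (m + j) := lt_of_lt_of_le (by positivity) ih.1
        refine ⟨by rw [pow_succ', mul_assoc]; exact (mul_le_mul_of_nonneg_left ih.1 r0.le).trans ih.2,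
          le_of_mul_le_mul_left ?_ p1⟩
        have := lc (m + j)
        have := mul_le_mul_of_nonneg_right ih.2 (nn (m + j + 1))
        rw [← add_assoc]
        nlinarith
    obtain ⟨j, hj⟩ := pow_unbounded_of_one_lt (K * μ ^ m / a m) ((one_lt_div h0).2 r1)
    have := (k j).1.trans (bd (m + j))
    rw [div_pow, div_lt_div_iff₀ p0 (by positivity)] at hj
    rw [pow_add] at this
    nlinarith
  induction n with
  | zero => simp
  | succ n ih =>
    rw [← add_assoc, pow_succ', mul_assoc]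
    exact (st _).trans (mul_le_mul_of_nonneg_left ih h0.le)

theorem qq {𝒳 ι : Type} [Fintype 𝒳] (act : SL(2, ℤ) → 𝒳 → 𝒳) {R : ℝ} {j : ℕ}
    (fin : ∀ z w : ℍ, (Function.support fun γ : SL(2, ℤ) => kr R j z (γ • w)).Finite)
    (s : Finset ι) (c : ι → ℝ) (x : ι → 𝒳) (z : ℍ) (W : 𝒳 → ℝ) :
    QQ act R j s c x (fun _ => z) univ W id (fun _ => I) =
      ∑ a ∈ s, c a * ∑' γ : SL(2, ℤ), W (act γ (x a)) * kr R j z (γ • I) := by
  refine sum_congr rfl fun a _ => ?_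
  have e : ∀ (y : 𝒳) (γ : SL(2, ℤ)), (if act γ (x a) = y then kr R j z (γ • I) else 0) =
      (if act γ (x a) = y then 1 else 0) * kr R j z (γ • I) := fun y γ => by simp
  simp only [id, e, ← tsum_mul_left, ← mul_assoc]
  rw [← Summable.tsum_finsetSum fun y _ => sm (fin _ _) _]
  refine tsum_congr fun γ => ?_
  rw [← sum_mul]
  simp

theorem cnt {α : Type} [Fintype α] {p : α → Prop} {_ : DecidablePred p} {c : Prop}
    {_ : Decidable c} (h : ∀ a b, p a → p b → a = b) (h' : ∀ a, p a → c) :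
    (∑ a, if p a then (1 : ℝ) else 0) ≤ if c then 1 else 0 := by
  rw [sum_boole]
  split_ifs with q
  · exact_mod_cast card_le_one.2 fun a r b r' => h a b (mem_filter.1 r).2 (mem_filter.1 r').2
  · rw [filter_eq_empty_iff.2 fun a _ r => q (h' a r)]
    simp

theorem ract_smul {q : ℕ} (γ : SL(2, ℤ)) (u : ZMod q) (x : ZMod q × ZMod q) :
    ract γ (u • x) = u • ract γ x := by
  ext <;> simp [ract] <;> ring

theorem dt0 {q : ℕ} {u u' : (ZMod q)ˣ} {x y : ZMod q × ZMod q}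
    (h : (u : ZMod q) • x = (u' : ZMod q) • y) : dt x y = 0 := by
  have a : (u : ZMod q) * x.1 = u' * y.1 := congrArg Prod.fst h
  have b : (u : ZMod q) * x.2 = u' * y.2 := congrArg Prod.snd h
  exact (Units.mul_right_eq_zero u).1 (by rw [dt]; linear_combination y.2 * a - y.1 * b)

theorem uinj {q : ℕ} [NeZero q] {u u' : (ZMod q)ˣ} {y : ZMod q × ZMod q} (hy : y ∈ UU q)
    (h : (u : ZMod q) • y = (u' : ZMod q) • y) : u = u' := by
  obtain ⟨a, b, e⟩ : IsCoprime y.1 y.2 := by simpa [UU] using hy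
  have c : (u : ZMod q) * y.1 = u' * y.1 := congrArg Prod.fst h
  have d : (u : ZMod q) * y.2 = u' * y.2 := congrArg Prod.snd h
  exact Units.ext (by linear_combination a * c + b * d + (u' - u : ZMod q) * e)

theorem smul_mem {q : ℕ} [NeZero q] (u : (ZMod q)ˣ) {y : ZMod q × ZMod q} (hy : y ∈ UU q) :
    (u : ZMod q) • y ∈ UU q := by
  simp only [UU, mem_filter, mem_univ, true_and] at hy ⊢
  exact (isCoprime_mul_unit_left u.isUnit _ _).2 hy

/-- The action of matrices on rows. -/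
def mact {q : ℕ} (M : M2) (x : ZMod q × ZMod q) : ZMod q × ZMod q :=
  (x.1 * (M 0 0 : ℤ) + x.2 * (M 1 0 : ℤ), x.1 * (M 0 1 : ℤ) + x.2 * (M 1 1 : ℤ))

theorem mact_per {q : ℕ} {n : ℤ} (h : (q : ℤ) ∣ n) {M M' : M2} (d : Dv n (M - M'))
    (x : ZMod q × ZMod q) : mact M x = mact M' x := by
  have : ∀ i j, ((M i j : ℤ) : ZMod q) = (M' i j : ℤ) := fun i j =>
    ((ZMod.intCast_eq_intCast_iff_dvd_sub _ _ _).2 (h.trans (d i j))).symm
  simp only [mact, this]

theorem poly (A : ℕ) {R : ℝ} (hR : 2 ≤ R) : ∃ K : ℝ, 0 ≤ K ∧ ∀ m : ℕ,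
    (2 + (2 * (m + 1) : ℕ) * R) * ((2 * (m + 1) : ℕ) * R) ^ A ≤ K * 4 ^ m := by
  refine ⟨(3 * R) ^ (A + 1) * (A + 1).factorial * 4, by positivity, fun m => ?_⟩
  have a := pow_div_factorial_le_exp ((m : ℝ) + 1) (by positivity) (A + 1)
  rw [div_le_iff₀ (by positivity)] at a
  have b : exp ((m : ℝ) + 1) ≤ 4 ^ (m + 1) := by
    rw [show (m : ℝ) + 1 = (m + 1 : ℕ) * 1 by simp, exp_nat_mul]
    exact pow_le_pow_left₀ (exp_pos _).le (exp_one_lt_d9.le.trans (by norm_num)) _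
  have m0 : (0 : ℝ) ≤ m := m.cast_nonneg
  calc _ ≤ (3 * R * (m + 1)) * (3 * R * (m + 1)) ^ A := by
        push_cast
        exact mul_le_mul (by nlinarith) (pow_le_pow_left₀ (by positivity) (by nlinarith) _)
          (by positivity) (by positivity)
    _ = (3 * R) ^ (A + 1) * (m + 1) ^ (A + 1) := by rw [← mul_pow]; ring
    _ ≤ (3 * R) ^ (A + 1) * (4 ^ (m + 1) * (A + 1).factorial) := by
        gcongr
        exact a.trans (by gcongr)
    _ = _ := by ring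

end K6

open K6

theorem k6 (geo : GeoStmt) (k1 : K1Stmt) (k2 : K2Stmt) (k4 : K4Stmt) (k5 : K5Stmt) (k7 : K7Stmt) :
    K6Stmt := by
  obtain ⟨C, C1, k2⟩ := k2
  obtain ⟨δ, A, d0, k5⟩ := k5
  refine ⟨δ, 2 * C, d0, by linarith, fun R n₀ n₁ n₂ hR h1 h2 q₁ q₂ _ _ co W hW W0 ι s x₁ x₂ z hx => ?_⟩
  have R1 : 1 ≤ R := by linarith
  have fin : ∀ j, 1 ≤ j → ∀ z w : ℍ,
      (Function.support fun γ : SL(2, ℤ) => kr R j z (γ • w)).Finite := fun j hj z w =>
    (geo.2.2.2.2.2.2.2.1 z w (j * R)).subset fun γ h =>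
      not_lt.1 fun c => h ((k1 R j R1 hj).2.2.2.1 _ _ c)
  let act : SL(2, ℤ) → UU q₁ × UU q₂ → UU q₁ × UU q₂ := fun γ x =>
    (⟨ract γ x.1, (k7.2.1 q₁ γ _).2 x.1.2⟩, ⟨ract γ x.2, (k7.2.1 q₂ γ _).2 x.2.2⟩)
  have a1 : ∀ x, act 1 x = x := fun x =>
    Prod.ext (Subtype.ext (k7.1 q₁ _).1) (Subtype.ext (k7.1 q₂ _).1)
  have a2 : ∀ γ σ x, act (γ * σ) x = act σ (act γ x) := fun γ σ x =>
    Prod.ext (Subtype.ext ((k7.1 q₁ _).2 γ σ)) (Subtype.ext ((k7.1 q₂ _).2 γ σ))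
  let V : UU q₁ × UU q₂ → ℝ := fun x => W x.1 x.2
  have sV : ∀ g : ZMod q₁ × ZMod q₁ → ZMod q₂ × ZMod q₂ → ℝ,
      ∑ x : UU q₁ × UU q₂, g x.1 x.2 = ∑ y₁ ∈ UU q₁, ∑ y₂ ∈ UU q₂, g y₁ y₂ := fun g => by
    rw [Fintype.sum_prod_type, ← sum_coe_sort (UU q₁)]
    exact sum_congr rfl fun y _ => sum_coe_sort (UU q₂) (g y)
  let a : ℕ → ℝ := fun m => QQ act R (2 * (m + 1)) univ V id (fun _ => I) univ V id fun _ => I
  have ea : ∀ m, a m = ∑ y, V y * ∑' γ : SL(2, ℤ), V (act γ y) * kr R (2 * (m + 1)) I (γ • I) :=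
    fun m => qq act (fin _ (by omega)) univ V id I V
  set μ := (2 * C * R * exp ((1 - δ) * R)) ^ 2 with hμ
  have μ0 : 0 < μ := by positivity
  have bd : ∃ K, ∀ m, a m ≤ K * μ ^ m := by
    obtain ⟨C', k5⟩ := k5 (q₁ * q₂) NeZero.one_le
    obtain ⟨K, K0, hK⟩ := poly A hR
    have gp := gap (q := q₁ * q₂) (fun m γ => kr R (2 * (m + 1)) I (γ • I)) (fun m => μ ^ m)
      (fun m => fin _ (by omega) _ _) (fun m γ => by
        have : ModularGroup.S • I = I := by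
          rw [modular_S_smul, UpperHalfPlane.ext_iff]
          simp
        rw [mul_smul, ← (k1 R _ R1 (by omega)).2.2.2.2.2.1 ModularGroup.S I (γ • I), this])
      ⟨|C'| * K * (C * R * exp ((1 - δ) * R)) ^ 2, fun m ψ p => by
        have X3 : 3 ≤ exp ((2 * (m + 1) : ℕ) * R) := by
          have : (0 : ℝ) ≤ m := m.cast_nonneg
          have := add_one_le_exp ((2 * (m + 1) : ℕ) * R)
          push_cast at this ⊢
          nlinarith
        have := k5 _ _ _ X3 (k2 R (2 * (m + 1)) hR (by omega)) ψ p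
        simp only [← (k1 R (2 * (m + 1)) R1 (by omega)).2.2.2.2.2.2.2] at this
        refine this.trans ?_
        rw [log_exp, ← exp_mul, mul_assoc _ R (1 - δ), exp_nat_mul, mul_comm R (1 - δ)]
        calc _ = C' * (((2 + (2 * (m + 1) : ℕ) * R) * ((2 * (m + 1) : ℕ) * R) ^ A) *
              (C * R * exp ((1 - δ) * R)) ^ (2 * (m + 1))) := by rw [mul_pow (C * R)]; ring
          _ ≤ |C'| * (K * 4 ^ m * (C * R * exp ((1 - δ) * R)) ^ (2 * (m + 1))) := by
              exact mul_le_mul (le_abs_self _) (mul_le_mul_of_nonneg_right (hK m) (by positivity))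
                (by positivity) (abs_nonneg _)
          _ = _ := by
              rw [hμ, show (4 : ℝ) = 2 ^ 2 by norm_num, ← pow_mul, ← pow_mul]
              ring⟩
    obtain ⟨B, hB⟩ := Finite.exists_le fun x : (ZMod q₁ × ZMod q₁) × ZMod q₂ × ZMod q₂ =>
      |W x.1 x.2| + 1
    have B0 : 0 < B := lt_of_lt_of_le (by positivity) (hB 0)
    let y₀ : UU q₁ × UU q₂ := (⟨(1, 0), by simp [UU, isCoprime_one_left]⟩,
      ⟨(1, 0), by simp [UU, isCoprime_one_left]⟩)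
    have tr : ∀ y, ∃ g, act g y₀ = y := fun y => by
      obtain ⟨g, b1, b2⟩ := k7.2.2.1 q₁ q₂ co _ y₀.1.2 _ y.1.2 _ y₀.2.2 _ y.2.2
      exact ⟨g, Prod.ext (Subtype.ext b1) (Subtype.ext b2)⟩
    choose g hg using tr
    choose c hc using gp
    refine ⟨∑ y, |V y| * (B * c (g y)), fun m => ?_⟩
    have f := fin (2 * (m + 1)) (by omega) I I
    have e0 : ∑ y, V y = 0 := (sV W).trans W0
    rw [ea, ← sub_zero (∑ y, _), ← zero_mul
      (∑' γ : SL(2, ℤ), V (act γ y₀) * kr R (2 * (m + 1)) I (γ • I)), ← e0, sum_mul,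
      ← sum_sub_distrib, sum_mul]
    refine sum_le_sum fun y _ => (le_abs_self _).trans ?_
    rw [← mul_sub, abs_mul, mul_assoc, ← (sm f _).tsum_sub (sm f _)]
    refine mul_le_mul_of_nonneg_left ?_ (abs_nonneg _)
    have := hc (g y) m (fun M => W (mact M y₀.1) (mact M y₀.2) / B) ⟨fun M => by
      rw [abs_div, abs_of_pos B0, div_le_one B0]
      linarith [hB (mact M y₀.1, mact M y₀.2)], fun M M' d => by
      beta_reduce
      rw [mact_per (by simp) d, mact_per (q := q₂) (by simp) d]⟩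
    rw [mul_assoc, ← div_le_iff₀' B0, ← abs_of_pos B0, ← abs_div, ← tsum_div_const]
    refine le_of_eq_of_le (congrArg _ (tsum_congr fun γ => ?_)) this
    have : V (act γ y) = W (mact (g y * γ).1 y₀.1) (mact (g y * γ).1 y₀.2) := by
      conv_lhs => rw [← hg y, ← a2]
      rfl
    rw [this]
    change _ = (_ - V (act γ y₀) / B) * _
    ring
  obtain ⟨K, bd⟩ := bd
  have k4' := fun κ : Type => k4 _ κ (UU q₁ × UU q₂) act a1 a2 R
  have an : ∀ m, 0 ≤ a m := fun m =>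
    (k4' _ (m + 1) 1 R1 (by omega) le_rfl univ V id (fun _ => I) univ V id fun _ => I).1
  have cv := conv a μ0 an (fun m => by
    have := (k4' _ (m + 1) (m + 2 + 1) R1 (by omega) (by omega) univ V id (fun _ => I) univ V id
      fun _ => I).2
    rwa [show m + 1 + (m + 2 + 1) = 2 * (m + 1 + 1) by ring] at this) bd (n₁ - 1) n₀
  set Φ : ℝ := Nat.totient q₁ * Nat.totient q₂ with hΦ
  have Φ0 : 0 < Φ := by
    have := Nat.totient_pos.2 (NeZero.pos q₁)
    have := Nat.totient_pos.2 (NeZero.pos q₂)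
    positivity
  have cU : (Fintype.card ((ZMod q₁)ˣ × (ZMod q₂)ˣ) : ℝ) = Φ := by
    simp [hΦ, ZMod.card_units_eq_totient]
  let x : s × (ZMod q₁)ˣ × (ZMod q₂)ˣ → UU q₁ × UU q₂ := fun b =>
    (⟨_, smul_mem b.2.1 (hx _ b.1.2).1⟩, ⟨_, smul_mem b.2.2 (hx _ b.1.2).2⟩)
  obtain ⟨-, cs⟩ := k4' _ n₂ (n₁ - 1 + n₀ + 1) R1 h2 (by omega) univ (fun _ => 1 / Φ) x
    (fun _ => z) univ V id fun _ => I
  have e1 : QQ act R (n₂ + (n₁ - 1 + n₀ + 1)) univ (fun _ => 1 / Φ) x (fun _ => z) univ V id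
      (fun _ => I) = ∑ a ∈ s, ∑' γ : SL(2, ℤ),
        W (ract γ (x₁ a)) (ract γ (x₂ a)) * kr R (n₀ + n₁ + n₂) z (γ • I) := by
    rw [qq act (fin _ (by omega)), show n₂ + (n₁ - 1 + n₀ + 1) = n₀ + n₁ + n₂ by omega,
      Fintype.sum_prod_type, ← sum_coe_sort s]
    refine sum_congr rfl fun b _ => ?_
    simp only [V, act, x, ract_smul, hW, sum_const, card_univ, nsmul_eq_mul, cU]
    field_simp
  have kn := fun j hj => (k1 R j R1 hj).2.1
  have e2 : a (n₁ - 1) ≤ Φ * ∑' γ : SL(2, ℤ), (∑ y₁ ∈ UU q₁, ∑ y₂ ∈ UU q₂,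
      |W y₁ y₂| * |W (ract γ y₁) (ract γ y₂)|) / Φ * kr R (2 * n₁) I (γ • I) := by
    have f := fin (2 * n₁) (by omega) I I
    rw [ea, show 2 * (n₁ - 1 + 1) = 2 * n₁ by omega, ← tsum_mul_left]
    simp only [← tsum_mul_left, ← mul_assoc]
    rw [← Summable.tsum_finsetSum fun y _ => sm f _]
    refine (summable_sum fun y _ => sm f _).tsum_le_tsum (fun γ => ?_) (sm f _)
    rw [← sum_mul, mul_div_cancel₀ _ Φ0.ne', ← sV fun y₁ y₂ =>
      |W y₁ y₂| * |W (ract γ y₁) (ract γ y₂)|]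
    refine mul_le_mul_of_nonneg_right (sum_le_sum fun y _ => ?_) (kn _ (by omega) _ _)
    rw [← abs_mul]
    exact le_abs_self _
  have e3 : QQ act R (2 * n₂) univ (fun _ => 1 / Φ) x (fun _ => z) univ (fun _ => 1 / Φ) x
      (fun _ => z) ≤ (∑ a ∈ s, ∑ b ∈ s, ∑' γ : SL(2, ℤ),
        if dt (ract γ (x₁ a)) (x₁ b) = 0 ∧ dt (ract γ (x₂ a)) (x₂ b) = 0 then
          kr R (2 * n₂) z (γ • z) else 0) / Φ := by
    have f := fin (2 * n₂) (by omega) z z
    have e : ∀ (p : Prop) [Decidable p] (γ : SL(2, ℤ)),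
        (if p then kr R (2 * n₂) z (γ • z) else 0) =
        (if p then 1 else 0) * kr R (2 * n₂) z (γ • z) := fun p _ γ => by simp
    rw [QQ, Fintype.sum_prod_type, ← sum_coe_sort s, sum_div]
    refine sum_le_sum fun b _ => ?_
    refine (sum_le_card_nsmul _ _ (1 / Φ * (1 / Φ) * ∑ b' ∈ s, ∑' γ : SL(2, ℤ),
      if dt (ract γ (x₁ b)) (x₁ b') = 0 ∧ dt (ract γ (x₂ b)) (x₂ b') = 0 then
        kr R (2 * n₂) z (γ • z) else 0) fun u _ => ?_).trans (le_of_eq ?_)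
    · rw [← mul_sum, Fintype.sum_prod_type, ← sum_coe_sort s]
      refine mul_le_mul_of_nonneg_left (sum_le_sum fun b' _ => ?_) (by positivity)
      simp only [e]
      rw [← Summable.tsum_finsetSum fun y _ => sm f _]
      refine (summable_sum fun y _ => sm f _).tsum_le_tsum (fun γ => ?_) (sm f _)
      rw [← sum_mul]
      refine mul_le_mul_of_nonneg_right ?_ (kn _ (by omega) _ _)
      have w : ∀ u', act γ (x (b, u)) = x (b', u') →
          (u.1 : ZMod q₁) • ract γ (x₁ b) = (u'.1 : ZMod q₁) • x₁ b' ∧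
          (u.2 : ZMod q₂) • ract γ (x₂ b) = (u'.2 : ZMod q₂) • x₂ b' := fun u' h =>
        ⟨(ract_smul _ _ _).symm.trans (congrArg (fun t => t.1.1) h),
          (ract_smul _ _ _).symm.trans (congrArg (fun t => t.2.1) h)⟩
      exact cnt (fun u' u'' p p' => Prod.ext
        (uinj (hx _ b'.2).1 ((w _ p).1.symm.trans (w _ p').1))
        (uinj (hx _ b'.2).2 ((w _ p).2.symm.trans (w _ p').2)))
        fun u' p => ⟨dt0 (w _ p).1, dt0 (w _ p).2⟩
    · rw [card_univ, nsmul_eq_mul, cU]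
      field_simp
  rw [e1] at cs
  refine cs.trans ((mul_le_mul e3 (cv.trans (mul_le_mul_of_nonneg_left e2 (by positivity)))
    (an _) ((k4' _ n₂ 1 R1 h2 le_rfl _ _ _ _ univ V id fun _ => I).1.trans e3)).trans
    (le_of_eq ?_))
  rw [pow_mul, ← hμ]
  field_simp

end Pool.Agent.Lib.MP_4b1228_nt.PP
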