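import Pool.Agent.Lib.MP_4b1228_nt.PP.LSW
import Pool.Agent.Lib.MP_4b1228_nt.PP.LSX

/-!
The weights of the linear sieve on the integers.
-/

open Finset Real
open scoped Classical

noncomputable section

namespace Pool.Agent.Lib.MP_4b1228_nt.PP.LSG

/-- The height of a class. -/
def ht (n : ℕ) : ℝ := n + 1

/-- The weights. -/
def W (P : Finset ℕ) (c : ℕ → ℕ) (up : Bool) (D : ℝ) (d : ℕ) : ℝ :=
  LSX.wt P c (LS.chi ht up D) d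

/-- The number of bilinear pieces. -/
def nB (D : ℝ) : ℕ := (LSX.EE ⌊D⌋₊ ⌊D⌋₊).card

lemma ht_mono : Monotone ht := fun a b h => by
  unfold ht
  exact_mod_cast Nat.succ_le_succ h

lemma ht_pos (n : ℕ) : 0 < ht n := by
  unfold ht
  positivity

variable {P : Finset ℕ} {c : ℕ → ℕ} {D Y : ℝ} {up : Bool}

lemma lam_eq (S : Finset ℕ) : LSX.lam c (LS.chi ht up D) S = LS.lam c ht up D S := rfl

theorem abs_W (d : ℕ) : |W P c up D d| ≤ 1 := LSX.abs_wt d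

/-- The pointwise inequalities. -/
theorem point (hP : ∀ p ∈ P, p.Prime) (hc : Monotone c) (D : ℝ) {n : ℕ} (hn : n ≠ 0) :
    ∑ d ∈ n.divisors, W P c false D d ≤ (if ∀ p ∈ P, ¬ p ∣ n then 1 else 0) ∧
      (if ∀ p ∈ P, ¬ p ∣ n then 1 else 0) ≤ ∑ d ∈ n.divisors, W P c true D d := by
  have h := LS.point_one (h := ht) hc (P.filter (· ∣ n)) D
  have e : (if P.filter (· ∣ n) = ∅ then (1 : ℝ) else 0) =
      if ∀ p ∈ P, ¬ p ∣ n then 1 else 0 := by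
    simp only [filter_eq_empty_iff]
  unfold W
  rw [LSX.sum_wt_dvd hP hn, LSX.sum_wt_dvd hP hn, ← e]
  exact h

lemma half (h2 : up = false → ∀ p ∈ P, 2 * ht (c p) ≤ D) {d : ℕ} (hd : LSX.In P d) :
    up = false → ∀ x ∈ LSX.pt c d, 2 * ht x ≤ D := fun e x hx => by
  obtain ⟨p, h1, _, rfl⟩ := LSX.mem_pt hd hx
  exact h2 e p h1

/-- The support. -/
theorem supp (hY : 1 ≤ Y) (hp : ∀ p ∈ P, (p : ℝ) ≤ Y ^ ht (c p)) (hD : 0 ≤ D)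
    (h2 : up = false → ∀ p ∈ P, 2 * ht (c p) ≤ D) {d : ℕ} (h : W P c up D d ≠ 0) :
    LSX.In P d ∧ (d : ℝ) ≤ Y ^ D := by
  obtain ⟨h3, h4⟩ := LSX.wt_supp h
  exact ⟨h3, LSX.le_rpow hY hp h3
    (LS.chi_sum ht_mono (fun n => (ht_pos n).le) _ up D h4 (half h2 h3) hD)⟩

lemma mem_EE {δ : Multiset ℕ} (h : (δ.map ht).sum ≤ D) : δ ∈ LSX.EE ⌊D⌋₊ ⌊D⌋₊ := by
  refine LSX.mem_EE (Nat.le_floor ?_) fun a ha => Nat.lt_of_succ_le (Nat.le_floor ?_)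
  · have := LSX.card_mul_le (h := ht) (h₀ := 1) (δ := δ) fun a _ => by
      unfold ht
      linarith [Nat.cast_nonneg (α := ℝ) a]
    linarith
  · have := Multiset.single_le_sum (s := δ.map ht) (fun x hx => by
      obtain ⟨b, _, rfl⟩ := Multiset.mem_map.1 hx
      exact (ht_pos b).le) _ (Multiset.mem_map_of_mem ht ha)
    push_cast
    exact this.trans h

/-- The bilinear form. -/
theorem bil (hY : 1 ≤ Y) (hp : ∀ p ∈ P, (p : ℝ) ≤ Y ^ ht (c p)) (hD : 0 ≤ D)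
    (h2 : up = false → ∀ p ∈ P, 2 * ht (c p) ≤ D) {D₁ D₂ : ℝ} (h₁ : 0 ≤ D₁) (h₂ : 0 ≤ D₂)
    (hs : D ≤ D₁ + D₂) :
    ∃ al be : ℕ → ℕ → ℝ,
      (∀ j d, |al j d| ≤ 1 ∧ |be j d| ≤ 1 ∧ (al j d ≠ 0 → LSX.In P d ∧ (d : ℝ) ≤ Y ^ D₁) ∧
        (be j d ≠ 0 → LSX.In P d ∧ (d : ℝ) ≤ Y ^ D₂)) ∧
      ∀ d, Squarefree d →
        W P c up D d = ∑ j ∈ range (nB D), ∑ x ∈ d.divisorsAntidiagonal, al j x.1 * be j x.2 := by
  obtain ⟨al, be, h3, h4⟩ := LSX.bil' (P := P) (c := c) (chi := LS.chi ht up D)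
    (fun δ => (δ.map ht).sum ≤ D₁) (fun δ => (δ.map ht).sum ≤ D₂) (LSX.EE ⌊D⌋₊ ⌊D⌋₊)
    fun d hd h => ⟨mem_EE (LS.chi_sum ht_mono (fun n => (ht_pos n).le) _ up D h (half h2 hd) hD),
      LS.split ht_mono (fun n => (ht_pos n).le) _ up D D₁ D₂ h (half h2 hd) h₁ h₂ hs⟩
  refine ⟨al, be, fun j d => ?_, h4⟩
  obtain ⟨a1, a2, a3, a4⟩ := h3 j d
  exact ⟨a1, a2, fun h => ⟨(a3 h).1, LSX.le_rpow hY hp (a3 h).1 (a3 h).2⟩,
    fun h => ⟨(a4 h).1, LSX.le_rpow hY hp (a4 h).1 (a4 h).2⟩⟩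

/-- The mean, over any finite set containing the support. -/
theorem mean (hP : ∀ p ∈ P, p.Prime) (F : Finset ℕ) (hF : ∀ d, W P c up D d ≠ 0 → d ∈ F)
    (g : ℕ → ℝ) :
    ∑ d ∈ F, W P c up D d * ∏ p ∈ d.primeFactors, g p = LS.VV c ht g up D P :=
  LSX.sum_wt_mul hP F (fun d h1 h2 => hF d (by
    unfold W
    rw [LSX.wt_eq, if_pos ⟨h1, h2⟩]
    exact pow_ne_zero _ (by norm_num))) fun S => ∏ p ∈ S, g p

/-- The bounds of Jurkat and Richert for the weights. -/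
theorem jr (hP : ∀ p ∈ P, p.Prime) (hc : Monotone c) {K : ℝ} {N : ℕ} {a b g : ℕ → ℝ}
    (tab : LS.Tab K N a b) (H : LS.Dim c ht g K P) (hg : ∀ p ∈ P, 0 ≤ g p ∧ g p ≤ 1)
    (D z : ℝ) (hz : 0 < z) (hT : ∀ p ∈ P, ht (c p) ≤ z) (F : Finset ℕ) :
    ((∀ d, W P c true D d ≠ 0 → d ∈ F) →
      (N ≤ ⌊N * D / z⌋₊ → ∑ d ∈ F, W P c true D d * ∏ p ∈ d.primeFactors, g p ≤
        (∏ p ∈ P, (1 - g p)) * (1 + a ⌊N * D / z⌋₊)) ∧
      (0 < D → D ≤ 3 * z → ∑ d ∈ F, W P c true D d * ∏ p ∈ d.primeFactors, g p ≤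
        (∏ p ∈ P, (1 - g p)) * (K * (3 * z / D) * (1 + a (3 * N))))) ∧
    ((∀ d, W P c false D d ≠ 0 → d ∈ F) → 2 * N ≤ ⌊N * D / z⌋₊ →
      (∏ p ∈ P, (1 - g p)) * (1 - b ⌊N * D / z⌋₊) ≤
        ∑ d ∈ F, W P c false D d * ∏ p ∈ d.primeFactors, g p) := by
  obtain ⟨h1, h2, h3⟩ := LS.jr hc ht_mono ht_pos tab P H hg D z hz hT
  refine ⟨fun hF => ?_, fun hF => ?_⟩
  · rw [mean hP F hF]
    exact ⟨h1, h3⟩
  · rw [mean hP F hF]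
    exact h2

end Pool.Agent.Lib.MP_4b1228_nt.PP.LSG
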