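import Pool.Agent.Lib.MP_4b1228_nt.PP.LSJ0

/-! The dimension hypothesis of the linear sieve for size classes of primes. -/

open Finset Real
open scoped Classical

namespace Pool.Agent.Lib.MP_4b1228_nt.PP

namespace LSH

theorem one_sub {τ y : ℝ} (hτ : τ ≤ 1 / 2) (h0 : 0 ≤ y) (h1 : y ≤ τ) :
    exp (-((1 + 2 * τ) * y)) ≤ 1 - y := by
  have hp : 0 ≤ (1 + 2 * τ) * y := mul_nonneg (by linarith) h0
  have h2 := add_one_le_exp ((1 + 2 * τ) * y)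
  rw [exp_neg, inv_le_iff_one_le_mul₀ (exp_pos _)]
  have h3 : 1 ≤ (1 - y) * ((1 + 2 * τ) * y + 1) := by
    have : (1 + 2 * τ) * y ≤ 2 * τ := by nlinarith
    nlinarith [mul_le_mul_of_nonneg_left this h0]
  exact h3.trans (mul_le_mul_of_nonneg_left h2 (by linarith))

/-- A product over a window of exponents `[a, b]`. -/
theorem core {K ε : ℝ} (hK : 1 < K) (hε : 0 < ε) : ∃ τ : ℝ, 0 < τ ∧ τ ≤ 1 / 2 ∧
    ∀ (T : Finset ℕ) (g : ℕ → ℝ) (a b : ℝ), ε ≤ a → a ≤ b → b ≤ 1 →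
      (∀ r ∈ T, 0 ≤ g r ∧ g r ≤ τ) → ∑ r ∈ T, g r ≤ (1 + τ) * log (b / a) + τ →
      a ≤ K * b * ∏ r ∈ T, (1 - g r) := by
  have hl : 0 < log K := log_pos hK
  have hΛ : 0 < 4 * |log ε| + 2 := by positivity
  refine ⟨min (1 / 2) (log K / (4 * |log ε| + 2)), lt_min (by norm_num) (div_pos hl hΛ),
    min_le_left _ _, ?_⟩
  set τ := min (1 / 2) (log K / (4 * |log ε| + 2)) with hτd
  have hτ0 : 0 < τ := lt_min (by norm_num) (div_pos hl hΛ)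
  have hτ1 : τ ≤ 1 / 2 := min_le_left _ _
  have hτ2 : τ * (4 * |log ε| + 2) ≤ log K := (le_div_iff₀ hΛ).1 (min_le_right _ _)
  intro T g a b ha hab hb hg hs
  have ha0 : 0 < a := hε.trans_le ha
  have hb0 : 0 < b := ha0.trans_le hab
  have hL0 : 0 ≤ log (b / a) := log_nonneg ((one_le_div ha0).2 hab)
  have hL1 : log (b / a) ≤ |log ε| := by
    rw [log_div hb0.ne' ha0.ne']
    have h1 : log b ≤ 0 := log_nonpos hb0.le hb
    have h2 : log ε ≤ log a := log_le_log hε ha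
    linarith [neg_abs_le (log ε)]
  have h1 : exp (-((1 + 2 * τ) * ∑ r ∈ T, g r)) ≤ ∏ r ∈ T, (1 - g r) := by
    rw [mul_sum, ← sum_neg_distrib, exp_sum]
    exact prod_le_prod (fun r _ => (exp_pos _).le) fun r hr => one_sub hτ1 (hg r hr).1 (hg r hr).2
  have h2 : (1 + 2 * τ) * ∑ r ∈ T, g r ≤ log (b / a) + log K := by
    have h3 := mul_le_mul_of_nonneg_left hs (show 0 ≤ 1 + 2 * τ by linarith)
    have h4 : τ * log (b / a) ≤ τ * |log ε| := mul_le_mul_of_nonneg_left hL1 hτ0.le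
    have h5 : τ * (τ * log (b / a)) ≤ 1 / 2 * (τ * log (b / a)) :=
      mul_le_mul_of_nonneg_right hτ1 (mul_nonneg hτ0.le hL0)
    nlinarith
  have h3 : exp (-(log (b / a) + log K)) ≤ ∏ r ∈ T, (1 - g r) :=
    (exp_le_exp.2 (by linarith)).trans h1
  rw [exp_neg, exp_add, exp_log (div_pos hb0 ha0), exp_log (by linarith)] at h3
  have h4 : a = K * b * (b / a * K)⁻¹ := by
    have : K ≠ 0 := by linarith
    field_simp
  calc a = K * b * (b / a * K)⁻¹ := h4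
    _ ≤ _ := mul_le_mul_of_nonneg_left h3 (by positivity)

/-- Class form: a product over primes whose classes lie in `[u, z]`. -/
theorem gen {K ε : ℝ} (hK : 1 < K) (hε : 0 < ε) : ∃ η₀ τ₀ : ℝ, 0 < η₀ ∧ 0 < τ₀ ∧ τ₀ ≤ 1 / 2 ∧
    ∀ (η τ : ℝ), 0 < η → η ≤ η₀ → τ ≤ τ₀ → ∀ (P : Finset ℕ) (x g : ℕ → ℝ) (h : ℕ → ℕ),
      (∀ p ∈ P, ε ≤ x p ∧ x p ≤ 1) → (∀ p ∈ P, h p = ⌊x p / η⌋₊ + 1) →
      (∀ p ∈ P, 0 ≤ g p ∧ g p ≤ τ) →
      (∀ a b : ℝ, ε ≤ a → a ≤ b → b ≤ 1 →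
        ∑ p ∈ P with a ≤ x p ∧ x p ≤ b, g p ≤ (1 + τ) * log (b / a) + τ) →
      ∀ (u z : ℕ) (T : Finset ℕ), T ⊆ P → u ≤ z → (∀ r ∈ T, u ≤ h r ∧ h r ≤ z) →
        (u : ℝ) ≤ K * z * ∏ r ∈ T, (1 - g r) := by
  have hs : 1 < √K := by rw [lt_sqrt (by norm_num)]; simpa using hK
  have hss : √K * √K = K := mul_self_sqrt (by linarith)
  obtain ⟨τ₀, ht0, ht1, H⟩ := core hs hε
  refine ⟨ε * (√K - 1), τ₀, mul_pos hε (by linarith), ht0, ht1, ?_⟩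
  intro η τ hη hη0 hτ P x g h hx hh hg hm u z T hT huz hr
  rcases T.eq_empty_or_nonempty with rfl | ⟨r₀, hr₀⟩
  · have h1 : (u : ℝ) ≤ z := by exact_mod_cast huz
    have h2 : (0 : ℝ) ≤ z := Nat.cast_nonneg z
    simp only [prod_empty, mul_one]
    nlinarith
  have hlo : ∀ r ∈ T, max ε (η * (u - 1)) ≤ x r := fun r hr' => by
    refine max_le (hx r (hT hr')).1 ?_
    have h1 := (hr r hr').1
    rw [hh r (hT hr')] at h1
    have h2 : (u : ℝ) ≤ (⌊x r / η⌋₊ : ℝ) + 1 := by exact_mod_cast h1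
    have h3 : (⌊x r / η⌋₊ : ℝ) ≤ x r / η :=
      Nat.floor_le (div_nonneg (hε.le.trans (hx r (hT hr')).1) hη.le)
    have h4 : (u : ℝ) - 1 ≤ x r / η := by linarith
    rw [le_div_iff₀ hη] at h4
    linarith
  have hhi : ∀ r ∈ T, x r ≤ min 1 (η * z) := fun r hr' => by
    refine le_min (hx r (hT hr')).2 ?_
    have h1 := (hr r hr').2
    rw [hh r (hT hr')] at h1
    have h2 : (⌊x r / η⌋₊ : ℝ) + 1 ≤ z := by exact_mod_cast h1
    have h3 := Nat.lt_floor_add_one (x r / η)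
    have h4 : x r / η ≤ z := by linarith
    rw [div_le_iff₀ hη] at h4
    linarith
  set a := max ε (η * (u - 1)) with ha
  set b := min 1 (η * z) with hb
  have hab : a ≤ b := (hlo r₀ hr₀).trans (hhi r₀ hr₀)
  have hεa : ε ≤ a := le_max_left _ _
  have ha0 : 0 < a := hε.trans_le hεa
  have hL : 0 ≤ log (b / a) := log_nonneg ((one_le_div ha0).2 hab)
  have hsum : ∑ r ∈ T, g r ≤ (1 + τ₀) * log (b / a) + τ₀ := by
    have h1 : ∑ r ∈ T, g r ≤ ∑ p ∈ P with a ≤ x p ∧ x p ≤ b, g p :=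
      sum_le_sum_of_subset_of_nonneg
        (fun r hr' => mem_filter.2 ⟨hT hr', hlo r hr', hhi r hr'⟩)
        fun r hr' _ => (hg r (mem_filter.1 hr').1).1
    have h2 := hm a b hεa hab (min_le_left _ _)
    nlinarith [mul_le_mul_of_nonneg_right hτ hL]
  have key := H T g a b hεa hab (min_le_left _ _)
    (fun r hr' => ⟨(hg r (hT hr')).1, (hg r (hT hr')).2.trans hτ⟩) hsum
  have hV : 0 ≤ ∏ r ∈ T, (1 - g r) :=
    prod_nonneg fun r hr' => by linarith [(hg r (hT hr')).2]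
  have h1 : η * u ≤ √K * a := by
    have h2 : η * (u - 1) ≤ a := le_max_right _ _
    nlinarith [mul_le_mul_of_nonneg_right hεa (show 0 ≤ √K - 1 by linarith)]
  have h2 : √K * b * ∏ r ∈ T, (1 - g r) ≤ √K * (η * z) * ∏ r ∈ T, (1 - g r) :=
    mul_le_mul_of_nonneg_right (mul_le_mul_of_nonneg_left (min_le_right _ _) (by linarith)) hV
  have h3 : η * u ≤ η * (K * z * ∏ r ∈ T, (1 - g r)) :=
    calc η * u ≤ √K * (√K * (η * z) * ∏ r ∈ T, (1 - g r)) :=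
          h1.trans (mul_le_mul_of_nonneg_left (key.trans h2) (by linarith))
      _ = η * (√K * √K * z * ∏ r ∈ T, (1 - g r)) := by ring
      _ = _ := by rw [hss]
  exact le_of_mul_le_mul_left h3 hη

/-- The hypothesis `LS.Hyp` from a Mertens-type upper bound in the scale of exponents. -/
theorem hyp {K ε : ℝ} (hK : 1 < K) (hε : 0 < ε) : ∃ η₀ τ₀ : ℝ, 0 < η₀ ∧ 0 < τ₀ ∧ τ₀ ≤ 1 / 2 ∧
    ∀ (η τ : ℝ), 0 < η → η ≤ η₀ → τ ≤ τ₀ → ∀ (P : Finset ℕ) (x g : ℕ → ℝ) (h : ℕ → ℕ),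
      (∀ p ∈ P, ε ≤ x p ∧ x p ≤ 1) → (∀ p ∈ P, h p = ⌊x p / η⌋₊ + 1) →
      (∀ p ∈ P, 0 ≤ g p ∧ g p ≤ τ) →
      (∀ a b : ℝ, ε ≤ a → a ≤ b → b ≤ 1 →
        ∑ p ∈ P with a ≤ x p ∧ x p ≤ b, g p ≤ (1 + τ) * log (b / a) + τ) →
      LS.Hyp h g K P := by
  obtain ⟨η₀, τ₀, h1, h2, h3, H⟩ := gen hK hε
  exact ⟨η₀, τ₀, h1, h2, h3, fun η τ a b c P x g h hx hh hg hm u t _ hut =>
    H η τ a b c P x g h hx hh hg hm u t _ (filter_subset _ _) hut fun r hr => (mem_filter.1 hr).2⟩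

end LSH

end Pool.Agent.Lib.MP_4b1228_nt.PP
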