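import Pool.Agent.Lib.MP_4b1228_nt.PP.St
import Pool.Agent.Lib.MP_4b1228_nt.PP.LSH

/-! The dimension hypothesis for primes weighted by at most `rho p / p`. -/

open Finset Real Filter
open scoped Classical

namespace Pool.Agent.Lib.MP_4b1228_nt.PP

namespace LSH

theorem cls_mono {X η : ℝ} (hX : 1 < X) (hη : 0 < η) {p q : ℕ} (hp : 1 ≤ p) (hpq : p ≤ q) :
    ⌊log p / log X / η⌋₊ + 1 ≤ ⌊log q / log X / η⌋₊ + 1 := by
  have h1 : log (p : ℝ) ≤ log q := log_le_log (by exact_mod_cast hp) (by exact_mod_cast hpq)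
  have h2 := log_pos hX
  gcongr

theorem le_cls {X η : ℝ} (hX : 1 < X) (hη : 0 < η) {p : ℕ} (hp : 1 ≤ p) :
    (p : ℝ) ≤ X ^ (η * ((⌊log p / log X / η⌋₊ + 1 : ℕ) : ℝ)) := by
  have h1 := (Nat.lt_floor_add_one (log p / log X / η)).le
  have h2 := log_pos hX
  rw [div_le_iff₀ hη, div_le_iff₀ h2] at h1
  rw [le_rpow_iff_log_le (by exact_mod_cast hp) (by linarith)]
  push_cast
  linarith

theorem hypP (R : RhoStmt) (M : MertStmt) {K ε : ℝ} (hK : 1 < K) (hε : 0 < ε) :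
    ∃ η₀ : ℝ, 0 < η₀ ∧ ∀ᶠ X : ℝ in atTop, ∀ η : ℝ, 0 < η → η ≤ η₀ →
      ∀ (P : Finset ℕ) (g : ℕ → ℝ) (h : ℕ → ℕ),
        (∀ p ∈ P, p.Prime ∧ X ^ ε ≤ p ∧ (p : ℝ) ≤ X) →
        (∀ p ∈ P, 0 ≤ g p ∧ g p ≤ rho p / p) →
        (∀ p ∈ P, h p = ⌊log p / log X / η⌋₊ + 1) →
        LS.Hyp h g K P ∧ (∀ p ∈ P, g p ≤ 1 / 2) ∧ (∀ p ∈ P, ∀ q ∈ P, p ≤ q → h p ≤ h q) ∧
          ∀ p ∈ P, 1 ≤ h p ∧ (p : ℝ) ≤ X ^ (η * h p) := by
  obtain ⟨η₀, τ, h1, h2, h3, H⟩ := hyp hK hε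
  obtain ⟨y₀, -, hM⟩ := M τ h2
  refine ⟨η₀, h1, ?_⟩
  filter_upwards [eventually_gt_atTop 1, (tendsto_rpow_atTop hε).eventually_ge_atTop y₀,
    (tendsto_rpow_atTop hε).eventually_ge_atTop (2 / τ)] with X hX hy hτ η hη hη0 P g h hP hg hh
  have hX0 : 0 < X := by linarith
  have hL := log_pos hX
  have hp0 : ∀ p ∈ P, (0 : ℝ) < p := fun p hp => by exact_mod_cast (hP p hp).1.pos
  have hgτ : ∀ p ∈ P, g p ≤ τ := fun p hp => by
    have h4 : (rho p : ℝ) ≤ 2 := by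
      have := R.2.2.1 p 1 (hP p hp).1
      rw [pow_one] at this
      exact_mod_cast this
    have h5 : 2 / τ ≤ p := hτ.trans (hP p hp).2.1
    rw [div_le_iff₀ h2] at h5
    refine (hg p hp).2.trans ?_
    rw [div_le_iff₀ (hp0 p hp)]
    linarith
  refine ⟨H η τ hη hη0 le_rfl P (fun p => log p / log X) g h (fun p hp => ⟨?_, ?_⟩) hh
    (fun p hp => ⟨(hg p hp).1, hgτ p hp⟩) fun a b ha hab hb => ?_,
    fun p hp => (hgτ p hp).trans h3, fun p hp q hq hpq => ?_, fun p hp => ⟨?_, ?_⟩⟩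
  · rw [le_div_iff₀ hL, ← rpow_le_iff_le_log hX0 (hp0 p hp)]
    exact (hP p hp).2.1
  · rw [div_le_one hL]
    exact log_le_log (hp0 p hp) (hP p hp).2.2
  · have ha0 : 0 < a := hε.trans_le ha
    have h4 := (hM (X ^ a) (X ^ b) (hy.trans (rpow_le_rpow_of_exponent_le hX.le ha))
      (rpow_le_rpow_of_exponent_le hX.le hab)).1
    rw [log_rpow hX0, log_rpow hX0, mul_div_mul_right _ _ hL.ne'] at h4
    refine le_trans ?_ h4
    refine (sum_le_sum fun p hp => (hg p (mem_filter.1 hp).1).2).trans ?_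
    refine sum_le_sum_of_subset_of_nonneg (fun p hp => ?_) fun p _ _ => by positivity
    obtain ⟨hp, h5, h6⟩ := mem_filter.1 hp
    rw [le_div_iff₀ hL, ← rpow_le_iff_le_log hX0 (hp0 p hp)] at h5
    rw [div_le_iff₀ hL, ← le_rpow_iff_log_le (hp0 p hp) hX0] at h6
    exact mem_filter.2 ⟨mem_Icc.2 ⟨(hP p hp).1.pos, Nat.le_floor h6⟩, (hP p hp).1, h5⟩
  · rw [hh p hp, hh q hq]
    exact cls_mono hX hη (hP p hp).1.pos hpq
  · rw [hh p hp]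
    omega
  · rw [hh p hp]
    exact le_cls hX hη (hP p hp).1.pos

end LSH

end Pool.Agent.Lib.MP_4b1228_nt.PP
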