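import Pool.Agent.Lib.MP_4b1228_nt.PP.LSt
import Pool.Agent.Lib.MP_4b1228_nt.PP.LSW

/-! The dimension hypothesis for rounded sizes of primes. -/

open Finset Real
open scoped Classical

namespace Pool.Agent.Lib.MP_4b1228_nt.PP

namespace LSH3

theorem one_sub {τ y : ℝ} (hτ : τ ≤ 1 / 2) (h0 : 0 ≤ y) (h1 : y ≤ τ) :
    exp (-((1 + 2 * τ) * y)) ≤ 1 - y := by
  have hp : 0 ≤ (1 + 2 * τ) * y := mul_nonneg (by linarith) h0
  have h2 := add_one_le_exp ((1 + 2 * τ) * y)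
  rw [exp_neg, inv_le_iff_one_le_mul₀ (exp_pos _)]
  have h3 : 1 ≤ (1 - y) * ((1 + 2 * τ) * y + 1) := by
    have : (1 + 2 * τ) * y ≤ 2 * τ := by nlinarith
    nlinarith [mul_le_mul_of_nonneg_left this h0]
  exact h3.trans (mul_le_mul_of_nonneg_left h2 (by linarith))

/-- A product over a window of exponents `[a, b]`. -/
theorem core {K ε : ℝ} (hK : 1 < K) (hε : 0 < ε) : ∃ τ : ℝ, 0 < τ ∧ τ ≤ 1 / 2 ∧
    ∀ (T : Finset ℕ) (g : ℕ → ℝ) (a b : ℝ), ε ≤ a → a ≤ b → b ≤ 1 →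
      (∀ r ∈ T, 0 ≤ g r ∧ g r ≤ τ) → ∑ r ∈ T, g r ≤ (1 + τ) * log (b / a) + τ →
      a ≤ K * b * ∏ r ∈ T, (1 - g r) := by
  have hl : 0 < log K := log_pos hK
  have hΛ : 0 < 4 * |log ε| + 2 := by positivity
  refine ⟨min (1 / 2) (log K / (4 * |log ε| + 2)), lt_min (by norm_num) (div_pos hl hΛ),
    min_le_left _ _, ?_⟩
  set τ := min (1 / 2) (log K / (4 * |log ε| + 2)) with hτd
  have hτ0 : 0 < τ := lt_min (by norm_num) (div_pos hl hΛ)
  have hτ1 : τ ≤ 1 / 2 := min_le_left _ _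
  have hτ2 : τ * (4 * |log ε| + 2) ≤ log K := (le_div_iff₀ hΛ).1 (min_le_right _ _)
  intro T g a b ha hab hb hg hs
  have ha0 : 0 < a := hε.trans_le ha
  have hb0 : 0 < b := ha0.trans_le hab
  have hL0 : 0 ≤ log (b / a) := log_nonneg ((one_le_div ha0).2 hab)
  have hL1 : log (b / a) ≤ |log ε| := by
    rw [log_div hb0.ne' ha0.ne']
    have h1 : log b ≤ 0 := log_nonpos hb0.le hb
    have h2 : log ε ≤ log a := log_le_log hε ha
    linarith [neg_abs_le (log ε)]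
  have h1 : exp (-((1 + 2 * τ) * ∑ r ∈ T, g r)) ≤ ∏ r ∈ T, (1 - g r) := by
    rw [mul_sum, ← sum_neg_distrib, exp_sum]
    exact prod_le_prod (fun r _ => (exp_pos _).le) fun r hr => one_sub hτ1 (hg r hr).1 (hg r hr).2
  have h2 : (1 + 2 * τ) * ∑ r ∈ T, g r ≤ log (b / a) + log K := by
    have h3 := mul_le_mul_of_nonneg_left hs (show 0 ≤ 1 + 2 * τ by linarith)
    have h4 : τ * log (b / a) ≤ τ * |log ε| := mul_le_mul_of_nonneg_left hL1 hτ0.le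
    have h5 : τ * (τ * log (b / a)) ≤ 1 / 2 * (τ * log (b / a)) :=
      mul_le_mul_of_nonneg_right hτ1 (mul_nonneg hτ0.le hL0)
    nlinarith
  have h3 : exp (-(log (b / a) + log K)) ≤ ∏ r ∈ T, (1 - g r) :=
    (exp_le_exp.2 (by linarith)).trans h1
  rw [exp_neg, exp_add, exp_log (div_pos hb0 ha0), exp_log (by linarith)] at h3
  have h4 : a = K * b * (b / a * K)⁻¹ := by
    have : K ≠ 0 := by linarith
    field_simp
  calc a = K * b * (b / a * K)⁻¹ := h4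
    _ ≤ _ := mul_le_mul_of_nonneg_left h3 (by positivity)

theorem dimP {K ε : ℝ} (hK : 1 < K) (hε : 0 < ε) : ∃ (Q₀ : ℕ) (τ : ℝ), 1 ≤ Q₀ ∧ 0 < τ ∧
    τ ≤ 1 / 2 ∧ ∀ Q : ℕ, Q₀ ≤ Q → ∀ X : ℝ, 1 < X → ∀ (P : Finset ℕ) (g : ℕ → ℝ) (c : ℕ → ℕ)
      (h : ℕ → ℝ), (∀ p ∈ P, X ^ ε ≤ p ∧ LS.hq X Q p ≤ Q) → LS.Mer τ g P →
      (∀ p ∈ P, h (c p) = LS.hq X Q p) → LS.Dim c h g K P := by
  have hs : 1 < √K := by rw [lt_sqrt (by norm_num)]; simpa using hK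
  have hss : √K * √K = K := mul_self_sqrt (by linarith)
  obtain ⟨τ, ht0, ht1, H⟩ := core hs hε
  have he : 0 < ε * (√K - 1) := mul_pos hε (by linarith)
  refine ⟨⌈1 / (ε * (√K - 1))⌉₊ + 1, τ, by omega, ht0, ht1, ?_⟩
  intro Q hQ X hX P g c h hP hm hh u z hu huz
  have hQ1 : 1 ≤ ε * (√K - 1) * Q := by
    have h1 : ((⌈1 / (ε * (√K - 1))⌉₊ + 1 : ℕ) : ℝ) ≤ Q := by exact_mod_cast hQ
    have h2 := Nat.le_ceil (1 / (ε * (√K - 1)))
    push_cast at h1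
    have h3 : 1 / (ε * (√K - 1)) ≤ Q := by linarith
    rw [div_le_iff₀ he] at h3
    linarith
  have hQ0 : (0 : ℝ) < Q := by exact_mod_cast (by omega : 0 < Q)
  have hX0 : 0 < X := by linarith
  have hL := log_pos hX
  generalize hT : (P.filter fun p => u ≤ h (c p) ∧ h (c p) ≤ z) = T
  have hmem : ∀ p ∈ T, p ∈ P ∧ u ≤ h (c p) ∧ h (c p) ≤ z := fun p hp => by
    rw [← hT] at hp
    exact mem_filter.1 hp
  rcases T.eq_empty_or_nonempty with rfl | hne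
  · simp only [prod_empty, mul_one]
    nlinarith
  have hp0 : ∀ p ∈ P, (0 : ℝ) < p := fun p hp => (rpow_pos_of_pos hX0 ε).trans_le (hP p hp).1
  have hx : ∀ p ∈ P, ε ≤ log p / log X := fun p hp => by
    rw [le_div_iff₀ hL, ← rpow_le_iff_le_log hX0 (hp0 p hp)]
    exact (hP p hp).1
  have hq1 : ∀ p : ℕ, Q * (log p / log X) ≤ LS.hq X Q p := fun p => by
    have := (Nat.lt_floor_add_one (Q * log p / log X)).le
    unfold LS.hq
    push_cast
    rwa [← mul_div_assoc]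
  have hq2 : ∀ p ∈ P, (LS.hq X Q p : ℝ) ≤ Q * (log p / log X) + 1 := fun p hp => by
    have h1 : 0 ≤ Q * (log p / log X) := mul_nonneg hQ0.le (hε.le.trans (hx p hp))
    have := Nat.floor_le h1
    unfold LS.hq
    push_cast
    rw [mul_div_assoc]
    linarith
  obtain ⟨hp, hpu, -⟩ := hmem _ (T.min'_mem hne)
  obtain ⟨hp', -, hpz⟩ := hmem _ (T.max'_mem hne)
  have hpp := T.min'_le_max' hne
  have hsub : T ⊆ P.filter fun q => T.min' hne ≤ q ∧ q ≤ T.max' hne := fun r hr =>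
    mem_filter.2 ⟨(hmem r hr).1, T.min'_le r hr, T.le_max' r hr⟩
  generalize T.min' hne = p at *
  generalize T.max' hne = p' at *
  have hab : log p / log X ≤ log p' / log X :=
    div_le_div_of_nonneg_right (log_le_log (hp0 p hp) (by exact_mod_cast hpp)) hL.le
  have hb : log p' / log X ≤ 1 := by
    have h1 : (LS.hq X Q p' : ℝ) ≤ Q := by exact_mod_cast (hP p' hp').2
    have h2 := (hq1 p').trans h1
    exact le_of_mul_le_mul_left (by linarith) hQ0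
  have key := H T g _ _ (hx p hp) hab hb (fun r hr => hm.1 r (hmem r hr).1) (by
    rw [div_div_div_cancel_right₀ hL.ne']
    exact (sum_le_sum_of_subset_of_nonneg hsub
      fun r hr _ => (hm.1 r (mem_filter.1 hr).1).1).trans (hm.2 p hp p' hp' hpp))
  have hV : 0 ≤ ∏ r ∈ T, (1 - g r) :=
    prod_nonneg fun r hr => by linarith [(hm.1 r (hmem r hr).1).2]
  rw [hh p hp] at hpu
  rw [hh p' hp'] at hpz
  have h1 : u ≤ √K * (Q * (log p / log X)) := by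
    have h2 := hq2 p hp
    have h3 := mul_le_mul_of_nonneg_right (hx p hp)
      (mul_nonneg (show 0 ≤ √K - 1 by linarith) hQ0.le)
    nlinarith
  have h2 : Q * (log p' / log X) * ∏ r ∈ T, (1 - g r) ≤ z * ∏ r ∈ T, (1 - g r) :=
    mul_le_mul_of_nonneg_right ((hq1 p').trans hpz) hV
  calc u ≤ √K * (Q * (√K * (log p' / log X) * ∏ r ∈ T, (1 - g r))) :=
        h1.trans (mul_le_mul_of_nonneg_left (mul_le_mul_of_nonneg_left key hQ0.le) (by linarith))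
    _ = √K * √K * (Q * (log p' / log X) * ∏ r ∈ T, (1 - g r)) := by ring
    _ ≤ K * (z * ∏ r ∈ T, (1 - g r)) := by
        rw [hss]
        exact mul_le_mul_of_nonneg_left h2 (by linarith)
    _ = _ := by ring

/-- The same for the prime factors of an admissible modulus. -/
theorem dim {K ε : ℝ} (hK : 1 < K) (hε : 0 < ε) : ∃ (Q₀ : ℕ) (τ : ℝ), 1 ≤ Q₀ ∧ 0 < τ ∧
    τ ≤ 1 / 2 ∧ ∀ Q : ℕ, Q₀ ≤ Q → ∀ X : ℝ, 1 < X → ∀ Z m : ℕ, Z ≤ Q → LS.In X ε Q Z m →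
      ∀ g : ℕ → ℝ, LS.Mer τ g m.primeFactors → ∀ (c : ℕ → ℕ) (h : ℕ → ℝ),
      (∀ p ∈ m.primeFactors, h (c p) = LS.hq X Q p) → LS.Dim c h g K m.primeFactors := by
  obtain ⟨Q₀, τ, h1, h2, h3, H⟩ := dimP hK hε
  exact ⟨Q₀, τ, h1, h2, h3, fun Q hQ X hX Z m hZ hm g hg c h hh =>
    H Q hQ X hX _ g c h (fun p hp => ⟨(hm.2 p hp).1, (hm.2 p hp).2.trans hZ⟩) hg hh⟩

end LSH3

end Pool.Agent.Lib.MP_4b1228_nt.PP
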