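import Pool.Agent.Lib.MP_4b1228_nt.PP.LSJ0

/-!
The Jurkat-Richert induction with step functions: proof.
-/

open Finset

namespace Pool.Agent.Lib.MP_4b1228_nt.PP.LS

namespace J

theorem filt_top {m : ℕ} {S : Finset ℕ} (hm : ∀ x ∈ S, x < m) :
    (insert m S).filter (· < m) = S := by
  ext p
  simp only [mem_filter, mem_insert]
  constructor
  · rintro ⟨rfl | h, h'⟩
    · exact absurd h' (lt_irrefl _)
    · exact h
  · exact fun h => ⟨Or.inr h, hm p h⟩

/-- Telescoping identity. -/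
theorem tele (h : ℕ → ℕ) (g : ℕ → ℝ) (u : ℕ) (S : Finset ℕ)
    (hs : ∀ p ∈ S, ∀ q ∈ S, p ≤ q → h p ≤ h q) :
    ∑ m ∈ S with u ≤ h m, g m * ∏ p ∈ S.filter (· < m), (1 - g p) =
      ∏ p ∈ S with h p < u, (1 - g p) - ∏ p ∈ S, (1 - g p) := by
  induction S using Finset.induction_on_max with
  | empty => simp
  | insert m S hm ih =>
    have hmS : m ∉ S := fun h => lt_irrefl _ (hm m h)
    have ih' := ih fun p hp q hq => hs p (mem_insert_of_mem hp) q (mem_insert_of_mem hq)
    have e2 : ∀ q ∈ S, (insert m S).filter (· < q) = S.filter (· < q) := by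
      intro q hq
      rw [filter_insert, if_neg (not_lt.2 (hm q hq).le)]
    have hle : ∀ p ∈ S, h p ≤ h m := fun p hp =>
      hs p (mem_insert_of_mem hp) m (mem_insert_self _ _) (hm p hp).le
    by_cases hu : u ≤ h m
    · have e3 : ∑ q ∈ S with u ≤ h q, g q * ∏ p ∈ (insert m S).filter (· < q), (1 - g p) =
          ∑ q ∈ S with u ≤ h q, g q * ∏ p ∈ S.filter (· < q), (1 - g p) :=
        sum_congr rfl fun q hq => by rw [e2 q (mem_filter.1 hq).1]
      rw [filter_insert, if_pos hu, sum_insert (fun h => hmS (mem_filter.1 h).1), filt_top hm, e3,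
        ih', filter_insert, if_neg (not_lt.2 hu), prod_insert hmS]
      ring
    · have e3 : (insert m S).filter (fun q => u ≤ h q) = ∅ := by
        apply filter_eq_empty_iff.2
        intro p hp
        rcases mem_insert.1 hp with rfl | hp
        · exact hu
        · have := hle p hp
          omega
      have e4 : (insert m S).filter (fun q => h q < u) = insert m S := by
        apply filter_true_of_mem
        intro p hp
        rcases mem_insert.1 hp with rfl | hp
        · omega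
        · have := hle p hp
          omega
      rw [e3, e4]
      simp

theorem tele0 (h : ℕ → ℕ) (g : ℕ → ℝ) (S : Finset ℕ)
    (hs : ∀ p ∈ S, ∀ q ∈ S, p ≤ q → h p ≤ h q) :
    ∑ m ∈ S, g m * ∏ p ∈ S.filter (· < m), (1 - g p) = 1 - ∏ p ∈ S, (1 - g p) := by
  have := tele h g 0 S hs
  simpa using this

theorem ratio {h : ℕ → ℕ} {g : ℕ → ℝ} {K : ℝ} {P S : Finset ℕ} (hK : 0 ≤ K)
    (hg : ∀ p ∈ P, 0 ≤ g p ∧ g p ≤ 1) (hH : Hyp h g K P) (hS : S ⊆ P) {u z : ℕ} (hu : 1 ≤ u)
    (huz : u ≤ z) (hz : ∀ p ∈ S, h p ≤ z) :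
    (u : ℝ) * ∏ p ∈ S with h p < u, (1 - g p) ≤ K * z * ∏ p ∈ S, (1 - g p) := by
  have h1 := hH u z hu huz
  have h2 : ∏ p ∈ P with u ≤ h p ∧ h p ≤ z, (1 - g p) ≤ ∏ p ∈ S with ¬ h p < u, (1 - g p) := by
    apply prod_le_prod_of_subset_of_le_one
    · intro p hp
      obtain ⟨hp1, hp2⟩ := mem_filter.1 hp
      exact mem_filter.2 ⟨hS hp1, not_lt.1 hp2, hz p hp1⟩
    · intro p hp
      exact sub_nonneg.2 (hg p (mem_filter.1 hp).1).2
    · intro p hp _
      have := (hg p (mem_filter.1 hp).1).1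
      linarith
  have h3 : 0 ≤ ∏ p ∈ S with h p < u, (1 - g p) :=
    prod_nonneg fun p hp => sub_nonneg.2 (hg p (hS (mem_filter.1 hp).1)).2
  rw [← prod_filter_mul_prod_filter_not S (fun p => h p < u)]
  have h4 : (u : ℝ) ≤ K * z * ∏ p ∈ S with ¬ h p < u, (1 - g p) :=
    h1.trans (mul_le_mul_of_nonneg_left h2 (by positivity))
  calc (u : ℝ) * ∏ p ∈ S with h p < u, (1 - g p)
      ≤ (K * z * ∏ p ∈ S with ¬ h p < u, (1 - g p)) * ∏ p ∈ S with h p < u, (1 - g p) :=
        mul_le_mul_of_nonneg_right h4 h3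
    _ = _ := by ring

/-- Discrete Abel summation. -/
theorem abel (S : Finset ℕ) (w : ℕ → ℝ) (j : ℕ → ℕ) (i : ℕ) (φ Φ : ℕ → ℝ) (W K : ℝ) (hi : 1 ≤ i)
    (hW : 0 ≤ W) (hK : 0 ≤ K) (hj : ∀ p ∈ S, i ≤ j p) (hφ : ∀ l, i ≤ l → φ (l + 1) ≤ φ l)
    (hφ0 : ∀ l, i ≤ l → 0 ≤ φ l) (hΦ0 : ∀ l, i ≤ l → 0 ≤ Φ l)
    (hΦ : ∀ l, i ≤ l → φ l + Φ (l + 1) ≤ Φ l)
    (hM : ∀ l : ℕ, i ≤ l → ∑ p ∈ S with j p ≤ l, w p ≤ W * (K * (l + 1) / i - 1)) :
    ∑ p ∈ S, w p * φ (j p) ≤ W * ((K - 1) * φ i + K / i * Φ i) := by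
  have hi' : (0 : ℝ) < i := by exact_mod_cast hi
  have hc : 0 ≤ W * (K / i) := by positivity
  have key : ∀ l, i ≤ l → ∑ p ∈ S with j p ≤ l, w p * (φ (j p) - φ l) +
      φ l * (W * (K * (l + 1) / i - 1)) + W * (K / i) * Φ (l + 1) ≤
        W * ((K - 1) * φ i + K / i * Φ i) := by
    intro l hl
    induction l, hl using Nat.le_induction with
    | base =>
      have e : ∑ p ∈ S with j p ≤ i, w p * (φ (j p) - φ i) = 0 := by
        apply sum_eq_zero
        intro p hp
        obtain ⟨hp1, hp2⟩ := mem_filter.1 hp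
        rw [le_antisymm hp2 (hj p hp1), sub_self, mul_zero]
      have e2 : K * (i + 1) / i = K + K / i := by field_simp
      have := mul_le_mul_of_nonneg_left (hΦ i le_rfl) hc
      rw [e, e2]
      linarith
    | succ l hl ih =>
      have e : ∑ p ∈ S with j p ≤ l + 1, w p * (φ (j p) - φ (l + 1)) =
          ∑ p ∈ S with j p ≤ l, w p * (φ (j p) - φ l) +
            (φ l - φ (l + 1)) * ∑ p ∈ S with j p ≤ l, w p := by
        rw [mul_sum, ← sum_add_distrib, sum_filter, sum_filter]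
        apply sum_congr rfl
        intro p _
        by_cases h1 : j p ≤ l
        · rw [if_pos h1, if_pos (h1.trans (Nat.le_succ l))]
          ring
        · by_cases h2 : j p ≤ l + 1
          · have : j p = l + 1 := by omega
            rw [if_neg h1, if_pos h2, this, sub_self, mul_zero]
          · rw [if_neg h1, if_neg h2]
      have e2 : K * (((l + 1 : ℕ) : ℝ) + 1) / i = K * (l + 1) / i + K / i := by
        push_cast
        field_simp
      have a1 := mul_le_mul_of_nonneg_left (hM l hl) (sub_nonneg.2 (hφ l hl))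
      have a2 := mul_le_mul_of_nonneg_left (hΦ (l + 1) (hl.trans (Nat.le_succ l))) hc
      rw [e, e2]
      linarith
  set l := max i (S.sup j) with hl
  have hil : i ≤ l := le_max_left _ _
  have hall : S.filter (fun p => j p ≤ l) = S :=
    filter_true_of_mem fun p hp => (le_sup (f := j) hp).trans (le_max_right _ _)
  have k1 := key l hil
  have k2 := mul_le_mul_of_nonneg_left (hM l hil) (hφ0 l hil)
  have k3 := mul_nonneg hc (hΦ0 (l + 1) (hil.trans (Nat.le_succ l)))
  rw [hall] at k1 k2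
  have e : ∑ p ∈ S, w p * φ (j p) = ∑ p ∈ S, w p * (φ (j p) - φ l) + φ l * ∑ p ∈ S, w p := by
    rw [mul_sum, ← sum_add_distrib]
    exact sum_congr rfl fun p _ => by ring
  rw [e]
  linarith

/-- The summation lemma of the linear sieve. -/
theorem sumlem {h : ℕ → ℕ} {g : ℕ → ℝ} {K : ℝ} {P S : Finset ℕ} (hK : 0 ≤ K)
    (h1 : ∀ p ∈ P, 1 ≤ h p) (hs : ∀ p ∈ P, ∀ q ∈ P, p ≤ q → h p ≤ h q)
    (hg : ∀ p ∈ P, 0 ≤ g p ∧ g p ≤ 1) (hH : Hyp h g K P) (hS : S ⊆ P) {M z : ℕ} (hz1 : 1 ≤ z)
    (hz : ∀ p ∈ S, h p ≤ z) (hi : 1 ≤ M / z) (φ Φ : ℕ → ℝ)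
    (hφ : ∀ l, M / z ≤ l → φ (l + 1) ≤ φ l) (hφ0 : ∀ l, M / z ≤ l → 0 ≤ φ l)
    (hΦ0 : ∀ l, M / z ≤ l → 0 ≤ Φ l) (hΦ : ∀ l, M / z ≤ l → φ l + Φ (l + 1) ≤ Φ l) :
    ∑ p ∈ S, (g p * ∏ q ∈ S.filter (· < p), (1 - g q)) * φ (M / h p) ≤
      (∏ p ∈ S, (1 - g p)) * ((K - 1) * φ (M / z) + K / (M / z : ℕ) * Φ (M / z)) := by
  have hV : 0 ≤ ∏ p ∈ S, (1 - g p) := prod_nonneg fun p hp => sub_nonneg.2 (hg p (hS hp)).2
  apply abel S _ (fun p => M / h p) (M / z) φ Φ _ K hi hV hK _ hφ hφ0 hΦ0 hΦ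
  · intro l hl
    have hlt : M < (l + 1) * z := (Nat.div_lt_iff_lt_mul hz1).1 (Nat.lt_succ_of_le hl)
    set u := M / (l + 1) + 1 with hu
    have huz : u ≤ z := by
      have : M / (l + 1) < z := (Nat.div_lt_iff_lt_mul (Nat.succ_pos l)).2 (by rwa [mul_comm])
      omega
    have e : S.filter (fun p => M / h p ≤ l) = S.filter (fun p => u ≤ h p) := by
      apply filter_congr
      intro p hp
      have hp1 := h1 p (hS hp)
      rw [← Nat.lt_succ_iff, Nat.div_lt_iff_lt_mul hp1, hu, Nat.succ_le_iff,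
        Nat.div_lt_iff_lt_mul (Nat.succ_pos l), mul_comm]
    rw [e, tele h g u S fun p hp q hq => hs p (hS hp) q (hS hq)]
    have r := ratio hK hg hH hS (u := u) (Nat.le_add_left 1 _) huz hz
    have hu0 : (0 : ℝ) < u := by exact_mod_cast Nat.succ_pos (M / (l + 1))
    have hi0 : (0 : ℝ) < (M / z : ℕ) := by exact_mod_cast hi
    have a1 : M / z * z ≤ u * (l + 1) := by
      have b1 := Nat.div_mul_le_self M z
      have b2 : M < u * (l + 1) := (Nat.div_lt_iff_lt_mul (Nat.succ_pos l)).1 (Nat.lt_succ_self _)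
      exact b1.trans b2.le
    have a2 : ((M / z : ℕ) : ℝ) * z ≤ u * (l + 1) := by exact_mod_cast a1
    have a3 : (z : ℝ) ≤ u * ((l + 1) / (M / z : ℕ)) := by
      rw [← mul_div_assoc, le_div_iff₀ hi0]
      linarith
    have a4 : ∏ p ∈ S with h p < u, (1 - g p) ≤
        (∏ p ∈ S, (1 - g p)) * (K * (l + 1) / (M / z : ℕ)) := by
      apply le_of_mul_le_mul_left _ hu0
      have := mul_le_mul_of_nonneg_left a3 (mul_nonneg hK hV)
      calc _ ≤ _ := r
        _ = K * (∏ p ∈ S, (1 - g p)) * z := by ring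
        _ ≤ _ := this
        _ = _ := by ring
    linarith
  · intro p hp
    exact Nat.div_le_div_left (hz p hp) (h1 p (hS hp))

theorem idx (N D x : ℕ) : N * (D - x) / x = N * D / x - N := by
  rw [Nat.mul_sub, mul_comm N x, Nat.sub_mul_div]

theorem anti {a : ℕ → ℝ} {n : ℕ} (ha : ∀ i, n ≤ i → a (i + 1) ≤ a i) {i j : ℕ} (hi : n ≤ i)
    (hij : i ≤ j) : a j ≤ a i := by
  induction j, hij using Nat.le_induction with
  | base => exact le_rfl
  | succ j hj ih => exact (ha j (hi.trans hj)).trans ih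

end J

open J in
theorem jS : JStmt := by
  intro K N a b Ta Tb T P h g AP AM h1 hs hg hH hR
  have hK : 0 ≤ K := zero_le_one.trans T.one_le
  have hN := T.N_pos
  suffices H : ∀ n : ℕ, ∀ S : Finset ℕ, S.card ≤ n → S ⊆ P → ∀ D z : ℕ, 1 ≤ z →
      (∀ p ∈ S, h p ≤ z) →
        (1 ≤ N * D / z → AP D S ≤ (∏ p ∈ S, (1 - g p)) * (1 + a (N * D / z))) ∧
        (2 * z ≤ D → (∏ p ∈ S, (1 - g p)) * (1 - b (N * D / z)) ≤ AM D S) ∧
        (1 ≤ D → D ≤ 3 * z →
          AP D S ≤ (∏ p ∈ S, (1 - g p)) * (K * (3 * z / D) * (1 + a (3 * N)))) from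
    fun S hS => H S.card S le_rfl hS
  intro n
  induction n using Nat.strong_induction_on with
  | _ n ih =>
  have low : ∀ S : Finset ℕ, S.card ≤ n → S ⊆ P → ∀ p ∈ S, ∀ D : ℕ,
      (2 * h p ≤ D → AP (D - h p) (S.filter (· < p)) ≤
        (∏ q ∈ S.filter (· < p), (1 - g q)) * (1 + a (N * D / h p - N))) ∧
      (3 * h p ≤ D → (∏ q ∈ S.filter (· < p), (1 - g q)) * (1 - b (N * D / h p - N)) ≤
        AM (D - h p) (S.filter (· < p))) := by
    intro S hc hS p hp D
    have hp1 := h1 p (hS hp)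
    have hlt : (S.filter (· < p)).card < n :=
      lt_of_lt_of_le (card_lt_card (filter_ssubset.2 ⟨p, hp, lt_irrefl p⟩)) hc
    have := ih _ hlt (S.filter (· < p)) le_rfl ((filter_subset _ _).trans hS) (D - h p) (h p) hp1
      fun q hq => hs q (hS (mem_filter.1 hq).1) p (hS hp) (mem_filter.1 hq).2.le
    rw [idx] at this
    refine ⟨fun hD => this.1 ?_, fun hD => this.2.1 (by omega)⟩
    have : 2 * N ≤ N * D / h p := by
      rw [Nat.le_div_iff_mul_le hp1]
      nlinarith
    omega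
  have big : ∀ S : Finset ℕ, S.card ≤ n → S ⊆ P → ∀ D z : ℕ, 1 ≤ z → (∀ p ∈ S, h p ≤ z) →
      3 * z ≤ D → AP D S ≤ (∏ p ∈ S, (1 - g p)) * (1 + a (N * D / z)) := by
    intro S hc hS D z hz1 hz hD
    have hi : 3 * N ≤ N * D / z := by
      rw [Nat.le_div_iff_mul_le hz1]
      nlinarith
    have hV : 0 ≤ ∏ p ∈ S, (1 - g p) := prod_nonneg fun p hp => sub_nonneg.2 (hg p (hS hp)).2
    have hall : S.filter (fun p => 3 * h p ≤ D) = S :=
      filter_true_of_mem fun p hp => by have := hz p hp; omega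
    have s1 := sumlem hK h1 hs hg hH hS (M := N * D) hz1 hz (by omega) (fun l => b (l - N)) Tb
      (fun l hl => by
        have : l + 1 - N = l - N + 1 := by omega
        rw [this]
        exact T.b_anti _ (by omega))
      (fun l hl => T.b_nonneg _ (by omega)) (fun l hl => T.Tb_nonneg _ (by omega))
      (fun l hl => T.Tb_step _ (by omega))
    have s2 := mul_le_mul_of_nonneg_left (T.hA _ hi) hV
    have s3 := tele0 h g S fun p hp q hq => hs p (hS hp) q (hS hq)
    have s4 : ∑ p ∈ S, (g p * ∏ q ∈ S.filter (· < p), (1 - g q)) -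
        ∑ p ∈ S, (g p * ∏ q ∈ S.filter (· < p), (1 - g q)) * b (N * D / h p - N) ≤
          ∑ p ∈ S, g p * AM (D - h p) (S.filter (· < p)) := by
      rw [← sum_sub_distrib]
      apply sum_le_sum
      intro p hp
      have := mul_le_mul_of_nonneg_left
        ((low S hc hS p hp D).2 (by have := hz p hp; omega)) (hg p (hS hp)).1
      linarith
    rw [(hR D S hS).1, hall]
    linarith
  intro S hc hS D z hz1 hz
  have hV : 0 ≤ ∏ p ∈ S, (1 - g p) := prod_nonneg fun p hp => sub_nonneg.2 (hg p (hS hp)).2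
  have ha3 : 0 ≤ a (3 * N) := T.a_nonneg _ (by omega)
  have small : 1 ≤ D → D ≤ 3 * z →
      AP D S ≤ (∏ p ∈ S, (1 - g p)) * (K * (3 * z / D) * (1 + a (3 * N))) := by
    intro hD1 hD
    have hD0 : (0 : ℝ) < D := by exact_mod_cast hD1
    rcases hD.eq_or_lt with hD | hD
    · have e : N * D / z = 3 * N := by
        rw [hD, ← mul_assoc, Nat.mul_div_cancel _ hz1, mul_comm]
      have e2 : (3 * z / D : ℝ) = 1 := by
        rw [div_eq_one_iff_eq hD0.ne', hD]
        push_cast
        rfl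
      have := big S hc hS D z hz1 hz hD.ge
      rw [e] at this
      rw [e2]
      refine this.trans (mul_le_mul_of_nonneg_left ?_ hV)
      have := T.one_le
      nlinarith
    set S' := S.filter (fun p => h p < D / 3 + 1) with hS'
    have hS'P : S' ⊆ P := (filter_subset _ _).trans hS
    have hV' : 0 ≤ ∏ p ∈ S', (1 - g p) := prod_nonneg fun p hp => sub_nonneg.2 (hg p (hS'P hp)).2
    have e1 : AP D S = AP D S' := by
      rw [(hR D S hS).1, (hR D S' hS'P).1]
      have f1 : S'.filter (fun p => 3 * h p ≤ D) = S.filter (fun p => 3 * h p ≤ D) := by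
        rw [hS', filter_filter]
        apply filter_congr
        intro p _
        omega
      rw [f1]
      congr 1
      apply sum_congr rfl
      intro p hp
      obtain ⟨hp1, hp2⟩ := mem_filter.1 hp
      have f2 : S'.filter (· < p) = S.filter (· < p) := by
        rw [hS', filter_filter]
        apply filter_congr
        intro q hq
        refine ⟨fun h => h.2, fun hqp => ⟨?_, hqp⟩⟩
        have := hs q (hS hq) p (hS hp1) hqp.le
        omega
      rw [f2]
    have e2 : AP D S' ≤ (∏ p ∈ S', (1 - g p)) * (1 + a (3 * N)) := by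
      by_cases h3 : 3 ≤ D
      · have hz' : 1 ≤ D / 3 := by omega
        have := big S' ((card_le_card (filter_subset _ _)).trans hc) hS'P D (D / 3) hz'
          (fun p hp => by have := (mem_filter.1 hp).2; omega) (by omega)
        refine this.trans (mul_le_mul_of_nonneg_left ?_ hV')
        have hi : 3 * N ≤ N * D / (D / 3) := by
          rw [Nat.le_div_iff_mul_le hz']
          have : 3 * (D / 3) ≤ D := by omega
          nlinarith
        have := anti T.a_anti (by omega : N ≤ 3 * N) hi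
        linarith
      · have f : S' = ∅ := by
          rw [hS']
          apply filter_eq_empty_iff.2
          intro p hp
          have := h1 p (hS hp)
          omega
        rw [(hR D S' hS'P).1, f]
        simp only [filter_empty, sum_empty, prod_empty]
        linarith
    have r := ratio hK hg hH hS (u := D / 3 + 1) (by omega) (by omega) hz
    have a1 : (D : ℝ) ≤ 3 * ((D / 3 + 1 : ℕ) : ℝ) := by
      exact_mod_cast (by omega : D ≤ 3 * (D / 3 + 1))
    have a2 : ∏ p ∈ S', (1 - g p) ≤ (∏ p ∈ S, (1 - g p)) * (K * (3 * z / D)) := by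
      apply le_of_mul_le_mul_left _ hD0
      have b1 := mul_le_mul_of_nonneg_right a1 hV'
      have b2 : (D : ℝ) * ((∏ p ∈ S, (1 - g p)) * (K * (3 * z / D))) =
          3 * (K * z * ∏ p ∈ S, (1 - g p)) := by field_simp
      rw [b2]
      linarith
    have a3 := mul_le_mul_of_nonneg_right a2 (by linarith : 0 ≤ 1 + a (3 * N))
    rw [e1]
    linarith
  refine ⟨fun hi => ?_, fun hD => ?_, small⟩
  · by_cases hD : 3 * z ≤ D
    · exact big S hc hS D z hz1 hz hD
    · have hD1 : 1 ≤ D := by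
        rcases Nat.eq_zero_or_pos D with rfl | h
        · simp at hi
        · exact h
      have hi3 : N * D / z < 3 * N := by
        rw [Nat.div_lt_iff_lt_mul hz1]
        nlinarith
      refine (small hD1 (by omega)).trans (mul_le_mul_of_nonneg_left ?_ hV)
      refine le_trans ?_ (T.hA0 _ hi hi3)
      have hD0 : (0 : ℝ) < D := by exact_mod_cast hD1
      have hi0 : (0 : ℝ) < (N * D / z : ℕ) := by exact_mod_cast hi
      have a1 : ((N * D / z : ℕ) : ℝ) * z ≤ N * D := by exact_mod_cast Nat.div_mul_le_self (N * D) z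
      have a2 : (3 * z / D : ℝ) ≤ 3 * N / (N * D / z : ℕ) := by
        rw [div_le_div_iff₀ hD0 hi0]
        linarith
      exact mul_le_mul_of_nonneg_right (mul_le_mul_of_nonneg_left a2 hK) (by linarith)
  · have hi : 2 * N ≤ N * D / z := by
      rw [Nat.le_div_iff_mul_le hz1]
      nlinarith
    have s1 := sumlem hK h1 hs hg hH hS (M := N * D) hz1 hz (by omega) (fun l => a (l - N)) Ta
      (fun l hl => by
        have : l + 1 - N = l - N + 1 := by omega
        rw [this]
        exact T.a_anti _ (by omega))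
      (fun l hl => T.a_nonneg _ (by omega)) (fun l hl => T.Ta_nonneg _ (by omega))
      (fun l hl => T.Ta_step _ (by omega))
    have s2 := mul_le_mul_of_nonneg_left (T.hB _ hi) hV
    have s3 := tele0 h g S fun p hp q hq => hs p (hS hp) q (hS hq)
    have s4 : ∑ p ∈ S, g p * AP (D - h p) (S.filter (· < p)) ≤
        ∑ p ∈ S, (g p * ∏ q ∈ S.filter (· < p), (1 - g q)) +
        ∑ p ∈ S, (g p * ∏ q ∈ S.filter (· < p), (1 - g q)) * a (N * D / h p - N) := by
      rw [← sum_add_distrib]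
      apply sum_le_sum
      intro p hp
      have := mul_le_mul_of_nonneg_left
        ((low S hc hS p hp D).1 (by have := hz p hp; omega)) (hg p (hS hp)).1
      linarith
    rw [(hR D S hS).2]
    linarith

end Pool.Agent.Lib.MP_4b1228_nt.PP.LS
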