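import Mathlib

/-!
The Jurkat-Richert induction with step functions: statements.
-/

open Finset

namespace Pool.Agent.Lib.MP_4b1228_nt.PP.LS

/-- Step functions: `1 + a i` majorises `F (i / N)`, `1 - b i` minorises `f (i / N)`;
`Ta`, `Tb` majorise the tail sums. -/
structure TabJ (K : ℝ) (N : ℕ) (a b Ta Tb : ℕ → ℝ) : Prop where
  one_le : 1 ≤ K
  N_pos : 1 ≤ N
  a_anti : ∀ i, N ≤ i → a (i + 1) ≤ a i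
  b_anti : ∀ i, 2 * N ≤ i → b (i + 1) ≤ b i
  a_nonneg : ∀ i, N ≤ i → 0 ≤ a i
  b_nonneg : ∀ i, 2 * N ≤ i → 0 ≤ b i
  Ta_nonneg : ∀ i, 2 * N ≤ i → 0 ≤ Ta i
  Tb_nonneg : ∀ i, 3 * N ≤ i → 0 ≤ Tb i
  Ta_step : ∀ i, 2 * N ≤ i → a (i - N) + Ta (i + 1) ≤ Ta i
  Tb_step : ∀ i, 3 * N ≤ i → b (i - N) + Tb (i + 1) ≤ Tb i
  hB : ∀ i : ℕ, 2 * N ≤ i → (K - 1) * a (i - N) + K / i * Ta i ≤ b i
  hA : ∀ i : ℕ, 3 * N ≤ i → (K - 1) * b (i - N) + K / i * Tb i ≤ a i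
  hA0 : ∀ i : ℕ, 1 ≤ i → i < 3 * N → K * (3 * N / i) * (1 + a (3 * N)) ≤ 1 + a i

/-- The one-sided hypothesis of dimension one, in the scale of the size function `h`. -/
def Hyp (h : ℕ → ℕ) (g : ℕ → ℝ) (K : ℝ) (P : Finset ℕ) : Prop :=
  ∀ u t : ℕ, 1 ≤ u → u ≤ t → (u : ℝ) ≤ K * t * ∏ p ∈ P with u ≤ h p ∧ h p ≤ t, (1 - g p)

/-- The recursion of the main terms of the Rosser-Iwaniec sieve. -/
def Rec (h : ℕ → ℕ) (g : ℕ → ℝ) (AP AM : ℕ → Finset ℕ → ℝ) (P : Finset ℕ) : Prop :=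
  ∀ (D : ℕ) (S : Finset ℕ), S ⊆ P →
    AP D S = 1 - ∑ p ∈ S with 3 * h p ≤ D, g p * AM (D - h p) (S.filter (· < p)) ∧
    AM D S = 1 - ∑ p ∈ S, g p * AP (D - h p) (S.filter (· < p))

/-- The theorem of Jurkat and Richert. -/
def JStmt : Prop :=
  ∀ (K : ℝ) (N : ℕ) (a b Ta Tb : ℕ → ℝ), TabJ K N a b Ta Tb →
    ∀ (P : Finset ℕ) (h : ℕ → ℕ) (g : ℕ → ℝ) (AP AM : ℕ → Finset ℕ → ℝ),
      (∀ p ∈ P, 1 ≤ h p) → (∀ p ∈ P, ∀ q ∈ P, p ≤ q → h p ≤ h q) →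
      (∀ p ∈ P, 0 ≤ g p ∧ g p ≤ 1) → Hyp h g K P → Rec h g AP AM P →
      ∀ S : Finset ℕ, S ⊆ P → ∀ D z : ℕ, 1 ≤ z → (∀ p ∈ S, h p ≤ z) →
        (1 ≤ N * D / z → AP D S ≤ (∏ p ∈ S, (1 - g p)) * (1 + a (N * D / z))) ∧
        (2 * z ≤ D → (∏ p ∈ S, (1 - g p)) * (1 - b (N * D / z)) ≤ AM D S) ∧
        (1 ≤ D → D ≤ 3 * z →
          AP D S ≤ (∏ p ∈ S, (1 - g p)) * (K * (3 * z / D) * (1 + a (3 * N))))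

end Pool.Agent.Lib.MP_4b1228_nt.PP.LS
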