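import Mathlib

/-!
The linear sieve: main terms of the Rosser weights, abstract form.
-/

open Finset

noncomputable section

namespace Pool.Agent.Lib.MP_4b1228_nt.PP.LSJ17

/-- The product of `1 - g n` over `n < z`. -/
def Vp (g : ℕ → ℝ) (z : ℕ) : ℝ := ∏ n ∈ range z, (1 - g n)

open Classical in
/-- The main terms of the upper (`true`) and lower (`false`) sieve of level `D`. -/
def AA (g sg : ℕ → ℝ) : ℕ → Bool → ℝ → ℝ
  | 0, _, _ => 1
  | z + 1, true, D =>
      AA g sg z true D - (if 3 * sg z ≤ D then g z * AA g sg z false (D - sg z) else 0)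
  | z + 1, false, D => AA g sg z false D - g z * AA g sg z true (D - sg z)

/-- The hypothesis of dimension one. -/
def Dim (g sg : ℕ → ℝ) (K : ℝ) (z : ℕ) : Prop :=
  ∀ u v : ℕ, u ≤ v → v ≤ z → ∀ y' y : ℝ, 0 < y' → y' ≤ y →
    (∀ p, u ≤ p → p < v → y' ≤ sg p ∧ sg p ≤ y) → y' * Vp g u ≤ K * y * Vp g v

/-- `Φ` dominates the integral of the antitone function `φ` on `[s, ∞)`. -/
def Prim (s : ℝ) (φ Φ : ℝ → ℝ) : Prop :=
  ∀ t, s ≤ t → 0 ≤ φ t ∧ 0 ≤ Φ t ∧ ∀ t', t ≤ t' → φ t' ≤ φ t ∧ (t' - t) * φ t' ≤ Φ t - Φ t'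

variable {g sg : ℕ → ℝ} {K : ℝ} {z : ℕ}

theorem Vp_succ (g : ℕ → ℝ) (z : ℕ) : Vp g (z + 1) = Vp g z - g z * Vp g z := by
  unfold Vp; rw [prod_range_succ]; ring

theorem Vp_nonneg (hg1 : ∀ n, g n ≤ 1) (z : ℕ) : 0 ≤ Vp g z :=
  prod_nonneg fun n _ => sub_nonneg.2 (hg1 n)

theorem plus_eq (g sg : ℕ → ℝ) (D : ℝ) (v : ℕ) (h : ∀ p < v, 3 * sg p ≤ D) :
    AA g sg v true D - Vp g v =
      ∑ p ∈ range v, g p * (Vp g p - AA g sg p false (D - sg p)) := by
  induction v with
  | zero => simp [AA, Vp]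
  | succ v ih =>
    rw [sum_range_succ, ← ih fun p hp => h p (by omega), Vp_succ, AA, if_pos (h v (by omega))]
    ring

theorem minus_eq (g sg : ℕ → ℝ) (D : ℝ) (v : ℕ) :
    Vp g v - AA g sg v false D =
      ∑ p ∈ range v, g p * (AA g sg p true (D - sg p) - Vp g p) := by
  induction v with
  | zero => simp [AA, Vp]
  | succ v ih =>
    rw [sum_range_succ, ← ih, Vp_succ, AA]
    ring

theorem plus_cut (g : ℕ → ℝ) (hsm : Monotone sg) (D : ℝ) (v : ℕ) :
    ∃ u ≤ v, (∀ p < u, 3 * sg p ≤ D) ∧ (∀ p, u ≤ p → p < v → D < 3 * sg p) ∧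
      AA g sg v true D = AA g sg u true D := by
  induction v with
  | zero => exact ⟨0, le_rfl, by simp, by simp, rfl⟩
  | succ v ih =>
    by_cases h : 3 * sg v ≤ D
    · refine ⟨v + 1, le_rfl, fun p hp => ?_, fun p h1 h2 => by omega, rfl⟩
      have := hsm (show p ≤ v by omega)
      linarith
    · obtain ⟨u, hu, h1, h2, h3⟩ := ih
      refine ⟨u, by omega, h1, fun p hp hp' => ?_, ?_⟩
      · rcases Nat.lt_succ_iff_lt_or_eq.1 hp' with h4 | h4
        · exact h2 p hp h4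
        · subst h4; exact not_le.1 h
      · rw [AA, if_neg h, sub_zero, h3]

theorem abel (hs0 : ∀ n, 0 < sg n) (hsm : Monotone sg) (hg1 : ∀ n, g n ≤ 1) (hK : 1 ≤ K)
    (hH : Dim g sg K z) {φ Φ : ℝ → ℝ} {D y : ℝ} (hD : 0 < D) (hy : 0 < y)
    (hP : Prim (D / y) φ Φ) {v : ℕ} (hv : v ≤ z) (hvy : ∀ p < v, sg p ≤ y) :
    ∑ p ∈ range v, g p * Vp g p * φ (D / sg p) ≤
      Vp g v * ((K - 1) * φ (D / y) + K / (D / y) * Φ (D / y)) := by
  have hV := Vp_nonneg hg1 v
  have hs : 0 < D / y := div_pos hD hy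
  set c : ℝ := K / (D / y) * Vp g v with hc
  have hc0 : 0 ≤ c := mul_nonneg (div_nonneg (by linarith) hs.le) hV
  have key : ∀ u, u ≤ v → ∀ t, D / y ≤ t → (∀ p < u, t ≤ D / sg p) → Vp g u ≤ c * t →
      ∑ p ∈ range u, g p * Vp g p * φ (D / sg p) ≤ (c * t - Vp g u) * φ t + c * Φ t := by
    intro u
    induction u with
    | zero =>
      intro _ t ht _ h
      obtain ⟨h1, h2, -⟩ := hP t ht
      simp only [range_zero, sum_empty]
      have := mul_nonneg (sub_nonneg.2 h) h1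
      have := mul_nonneg hc0 h2
      linarith
    | succ u ih =>
      intro hu t ht h1 h2
      have hu0 := hs0 u
      have huy : sg u ≤ y := hvy u (by omega)
      have h3 : D / y ≤ D / sg u := div_le_div_of_nonneg_left hD.le hu0 huy
      have h4 : ∀ p < u, D / sg u ≤ D / sg p := fun p hp =>
        div_le_div_of_nonneg_left hD.le (hs0 p) (hsm hp.le)
      have h5 : Vp g u ≤ c * (D / sg u) := by
        have := hH u v (by omega) hv (sg u) y hu0 huy fun p hp hp' => ⟨hsm hp, hvy p hp'⟩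
        have e : c * (D / sg u) = K * y * Vp g v / sg u := by
          rw [hc]; field_simp
        rw [e, le_div_iff₀ hu0]; linarith
      have h6 := ih (by omega) _ h3 h4 h5
      obtain ⟨-, -, h7⟩ := hP t ht
      obtain ⟨h8, h9⟩ := h7 _ (h1 u (by omega))
      rw [sum_range_succ]
      have e : g u * Vp g u = Vp g u - Vp g (u + 1) := by rw [Vp_succ]; ring
      rw [e]
      have h10 := mul_le_mul_of_nonneg_left h9 hc0
      have h11 := mul_le_mul_of_nonneg_left h8 (sub_nonneg.2 h2)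
      nlinarith
  have e : c * (D / y) = K * Vp g v := by rw [hc]; field_simp
  have := key v le_rfl (D / y) le_rfl
    (fun p hp => div_le_div_of_nonneg_left hD.le (hs0 p) (hvy p hp)) (by rw [e]; nlinarith)
  rw [e] at this
  calc _ ≤ _ := this
    _ = _ := by rw [hc]; ring

theorem Prim.shift {s s' : ℝ} {φ Φ : ℝ → ℝ} (h : Prim s φ Φ) (hs : s + 1 ≤ s') :
    Prim s' (fun t => φ (t - 1)) (fun t => Φ (t - 1)) := by
  intro t ht
  obtain ⟨h1, h2, h3⟩ := h (t - 1) (by linarith)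
  refine ⟨h1, h2, fun t' ht' => ?_⟩
  obtain ⟨h4, h5⟩ := h3 (t' - 1) (by linarith)
  refine ⟨h4, ?_⟩
  have e : t' - 1 - (t - 1) = t' - t := by ring
  rwa [e] at h5

/-- The theorem of Jurkat and Richert for a supersolution `a`, `b`. -/
theorem jr (hg0 : ∀ n, 0 ≤ g n) (hg1 : ∀ n, g n ≤ 1) (hs0 : ∀ n, 0 < sg n) (hsm : Monotone sg)
    (hK : 1 ≤ K) (hH : Dim g sg K z) {a b Ia Ib : ℝ → ℝ} (ha : Prim 1 a Ia) (hb : Prim 2 b Ib)
    (hA0 : ∀ s, 1 ≤ s → s < 3 → K * (3 / s) * (1 + a 3) ≤ 1 + a s)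
    (hA : ∀ s, 3 ≤ s → (K - 1) * b (s - 1) + K / s * Ib (s - 1) ≤ a s)
    (hB : ∀ s, 2 ≤ s → (K - 1) * a (s - 1) + K / s * Ia (s - 1) ≤ b s) :
    ∀ v, v ≤ z → ∀ D y : ℝ, 0 < y → (∀ p < v, sg p ≤ y) →
      (0 < D / y → D / y ≤ 3 → AA g sg v true D ≤ Vp g v * (K * (3 / (D / y)) * (1 + a 3))) ∧
      (1 ≤ D / y → AA g sg v true D ≤ Vp g v * (1 + a (D / y))) ∧
      (2 ≤ D / y → Vp g v * (1 - b (D / y)) ≤ AA g sg v false D) := by
  intro v
  induction v using Nat.strong_induction_on with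
  | _ v ih =>
  intro hv
  have hsh : ∀ (D : ℝ) (p : ℕ), (D - sg p) / sg p = D / sg p - 1 := fun D p => by
    have := (hs0 p).ne'
    field_simp
  have big : ∀ u ≤ v, ∀ D y : ℝ, 0 < y → (∀ p < u, sg p ≤ y) → 3 ≤ D / y →
      AA g sg u true D ≤ Vp g u * (1 + a (D / y)) := by
    intro u hu D y hy huy h3
    have hD : 0 < D := by
      have := (le_div_iff₀ hy).1 h3
      linarith
    have h3' : ∀ p < u, 3 ≤ D / sg p := fun p hp =>
      h3.trans (div_le_div_of_nonneg_left hD.le (hs0 p) (huy p hp))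
    have e := plus_eq g sg D u fun p hp => (le_div_iff₀ (hs0 p)).1 (h3' p hp)
    have h1 := abel hs0 hsm hg1 hK hH hD hy (hb.shift (s' := D / y) (by linarith))
      (hu.trans hv) huy
    have h2 : ∑ p ∈ range u, g p * (Vp g p - AA g sg p false (D - sg p)) ≤
        ∑ p ∈ range u, g p * Vp g p * b (D / sg p - 1) := by
      refine sum_le_sum fun p hp => ?_
      have hp' := mem_range.1 hp
      have h4 := (ih p (by omega) (by omega) (D - sg p) (sg p) (hs0 p)
        fun q hq => hsm hq.le).2.2 (by rw [hsh]; linarith [h3' p hp'])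
      rw [hsh] at h4
      rw [mul_assoc]
      exact mul_le_mul_of_nonneg_left (by linarith) (hg0 p)
    have h5 := mul_le_mul_of_nonneg_left (hA _ h3) (Vp_nonneg hg1 u)
    linarith
  intro D y hy hvy
  have small : 0 < D / y → D / y ≤ 3 →
      AA g sg v true D ≤ Vp g v * (K * (3 / (D / y)) * (1 + a 3)) := by
    intro h0 h3
    have hD : 0 < D := by
      have := (lt_div_iff₀ hy).1 h0
      linarith
    obtain ⟨u, hu, h1, h2, e⟩ := plus_cut g hsm D v
    have e3 : D / (D / 3) = 3 := by field_simp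
    have h4 := big u hu D (D / 3) (by linarith) (fun p hp => by linarith [h1 p hp]) e3.ge
    rw [e3] at h4
    have h5 := hH u v hu hv (D / 3) y (by linarith)
      (by linarith [(div_le_iff₀ hy).1 h3]) fun p hp hp' => ⟨by linarith [h2 p hp hp'], hvy p hp'⟩
    have h6 : Vp g u ≤ Vp g v * (K * (3 / (D / y))) := by
      have e4 : Vp g v * (K * (3 / (D / y))) = K * y * Vp g v / (D / 3) := by field_simp
      rw [e4, le_div_iff₀ (by linarith)]
      linarith
    have h7 : 0 ≤ 1 + a 3 := by linarith [(ha 3 (by norm_num)).1]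
    calc _ = _ := e
      _ ≤ _ := h4
      _ ≤ Vp g v * (K * (3 / (D / y))) * (1 + a 3) := mul_le_mul_of_nonneg_right h6 h7
      _ = _ := by ring
  refine ⟨small, fun h1 => ?_, fun h2 => ?_⟩
  · rcases lt_or_ge (D / y) 3 with h3 | h3
    · exact (small (by linarith) h3.le).trans
        (mul_le_mul_of_nonneg_left (hA0 _ h1 h3) (Vp_nonneg hg1 v))
    · exact big v le_rfl D y hy hvy h3
  · have hD : 0 < D := by
      have := (le_div_iff₀ hy).1 h2
      linarith
    have h2' : ∀ p < v, 2 ≤ D / sg p := fun p hp =>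
      h2.trans (div_le_div_of_nonneg_left hD.le (hs0 p) (hvy p hp))
    have e := minus_eq g sg D v
    have h1 := abel hs0 hsm hg1 hK hH hD hy (ha.shift (s' := D / y) (by linarith)) hv hvy
    have h3 : ∑ p ∈ range v, g p * (AA g sg p true (D - sg p) - Vp g p) ≤
        ∑ p ∈ range v, g p * Vp g p * a (D / sg p - 1) := by
      refine sum_le_sum fun p hp => ?_
      have hp' := mem_range.1 hp
      have h4 := (ih p hp' (by omega) (D - sg p) (sg p) (hs0 p)
        fun q hq => hsm hq.le).2.1 (by rw [hsh]; linarith [h2' p hp'])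
      rw [hsh] at h4
      rw [mul_assoc]
      exact mul_le_mul_of_nonneg_left (by linarith) (hg0 p)
    have h5 := mul_le_mul_of_nonneg_left (hB _ h2) (Vp_nonneg hg1 v)
    linarith

end Pool.Agent.Lib.MP_4b1228_nt.PP.LSJ17
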