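/-! The lattice check: a kernel search over sorted lists of classes. Lanes have 112 bits, a table
entry is `lo + 2 ^ 60 * hi` with `lo, hi < 2 ^ 30` and stands for `lo - hi`. -/

namespace Pool.Agent.Lib.MP_4b1228_nt.PP.Lat

noncomputable section

def pk (w n : Nat) (f : Nat → Nat) : Nat :=
  Nat.rec 0 (fun i r => Nat.add r (Nat.shiftLeft (f i) (Nat.mul w i))) n
def allLt (n : Nat) (f : Nat → Bool) : Bool := Nat.rec true (fun i r => Bool.rec false r (f i)) n
def frc (n : Nat) (f : Nat → Bool) : Bool := Nat.rec (f 0) (fun m _ => f (Nat.succ m)) n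

/-- `2 ^ k - 1`. -/
def ones (k : Nat) : Nat := Nat.pred (Nat.shiftLeft 1 k)
def wd (n : Nat) : Nat := Nat.mul 112 n
/-- Lane `i` of width `w`. -/
def ln (w x i : Nat) : Nat := Nat.land (Nat.shiftRight x (Nat.mul w i)) (ones w)
def em : Nat := 1237940038132458771366019071
def rm (n : Nat) : Nat := Nat.mul (pk 112 n fun _ => 1) em
def mm (n k : Nat) : Nat := Nat.mul (pk (wd n) k fun _ => 1) (rm n)
/-- Entry `i` of a table. -/
def en (x i : Nat) : Nat := Nat.land (Nat.shiftRight x (wd i)) em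
/-- Row `d` of a table with rows of `n` entries. -/
def row (x n d : Nat) : Nat := Nat.land (Nat.shiftRight x (wd (Nat.mul n d))) (rm n)
/-- Matrix `e` of a table of matrices with `k` rows of `n` entries. -/
def mat (x n k e : Nat) : Nat :=
  Nat.land (Nat.shiftRight x (wd (Nat.mul (Nat.mul n k) e))) (mm n k)
def sm (T H s : Nat) : Nat := Nat.mul (pk (wd T) H fun _ => 1) (ones (wd (Nat.sub T s)))

/-- The data: `C` classes of sizes `sz`, total size `tot`; `lim r` bounds the classes of size at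
most `r`; the tables `k0 r`, `k1 c r`, `k2 c d`, `kb c d` (`c < c1`), `k3 c d e` (`c < c1`,
`d < c3`), `kh p t` (`p < ch`, `t < th`). -/
structure Par where
  (C tot c1 c3 ch th : Nat)
  (sz lim : Nat → Nat)
  (k0 k1 k2 kb k3 kh : Nat)

def test (g : Nat) : Bool := Nat.ble (Nat.land g 1152921504606846975) (Nat.shiftRight g 60)

def go (sz lim r1 r2 rb m3 ms : Nat → Nat) (w1 wt fuel : Nat) :
    Nat → Nat → Nat → Nat → Nat → Nat → Nat → Nat → Nat → Nat → Bool :=
  Nat.rec (fun _ _ _ _ _ _ _ _ _ _ => false) (fun _ r cur rem s sb V Q B M F P =>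
    Bool.rec false
      (allLt (Nat.sub cur (Nat.sub cur (lim rem))) fun c =>
        frc (Nat.sub rem (sz c)) fun rem' =>
          r (Nat.succ c) rem' (Nat.add s (ln 112 Q c)) (Nat.add sb (ln 112 B c))
            (Nat.add V (r1 c)) (Nat.add (Nat.add Q (r2 c)) (ln w1 M c)) (Nat.add B (rb c))
            (Nat.add M (m3 c))
            (Nat.add (Nat.add F (Nat.shiftRight F (wd (sz c)))) (ln wt P c))
            (Nat.add P (Nat.land (Nat.shiftRight P (wd (sz c))) (ms c))))
      (test (Nat.add (Nat.add s (Nat.mul rem sb)) (Nat.add (ln 112 V rem) (ln 112 F 0))))) fuel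

/-- The search with the tables of `p`. -/
def Par.go (p : Par) (fuel : Nat) :
    Nat → Nat → Nat → Nat → Nat → Nat → Nat → Nat → Nat → Nat → Bool :=
  Lat.go p.sz p.lim (row p.k1 (Nat.succ p.tot)) (row p.k2 p.c1) (row p.kb p.c1)
    (mat p.k3 p.c1 p.c3) (fun c => sm p.th p.ch (p.sz c)) (wd p.c1) (wd p.th) fuel

/-- The part of the search with largest class `c`. -/
def Par.run (p : Par) (c : Nat) : Bool :=
  frc (Nat.sub p.tot (p.sz c)) fun rem' =>
    p.go 10 (Nat.succ c) rem' (Nat.add 0 (ln 112 0 c)) (Nat.add 0 (ln 112 0 c))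
      (Nat.add (row p.k0 (Nat.succ p.tot) 0) (row p.k1 (Nat.succ p.tot) c))
      (Nat.add (Nat.add 0 (row p.k2 p.c1 c)) (ln (wd p.c1) 0 c)) (Nat.add 0 (row p.kb p.c1 c))
      (Nat.add 0 (mat p.k3 p.c1 p.c3 c))
      (Nat.add (Nat.add 0 (Nat.shiftRight 0 (wd (p.sz c)))) (ln (wd p.th) (mat p.kh p.th p.ch 0) c))
      (Nat.add (mat p.kh p.th p.ch 0) (Nat.land (Nat.shiftRight (mat p.kh p.th p.ch 0)
        (wd (p.sz c))) (sm p.th p.ch (p.sz c))))

/-- The empty pattern and the conditions on `lim`. -/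
def Par.top (p : Par) : Bool :=
  Bool.rec false (Bool.rec false
    (allLt p.C fun c => allLt (Nat.succ p.tot) fun r =>
      Bool.rec true (Nat.blt c (p.lim r)) (Nat.ble (p.sz c) r))
    (test (Nat.add (Nat.add 0 (Nat.mul p.tot 0))
      (Nat.add (ln 112 (row p.k0 (Nat.succ p.tot) 0) p.tot) (ln 112 0 0))))) (Nat.ble p.tot 255)

end

end Pool.Agent.Lib.MP_4b1228_nt.PP.Lat
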