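import Pool.Agent.Lib.MP_4b1228_nt.PP.LatR
import Pool.Agent.Lib.MP_4b1228_nt.PP.R4Pt4

/-! The check at the vertices without the degenerate vertices. -/

namespace Pool.Agent.Lib.MP_4b1228_nt.PP

open Finset

namespace Lat

/-- The tables with potentials of size `2 * M` at the last symbol. -/
noncomputable def ZT.pot (z : ZT) (M n1 n3 : ℕ) : ZT :=
  { z with
    c1 := max z.c1 n1
    c3 := max z.c3 n3
    f1 := fun c r => if c + 1 = z.C then z.f1 c r - 2 * M else z.f1 c r
    f2 := fun c d => (if c < z.c1 then z.f2 c d else 0) +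
      if d + 1 = z.C ∧ c % 2 = 0 then 2 * (M : ℤ) else 0
    fb := fun c d => if c < z.c1 then z.fb c d else 0
    f3 := fun c d e => (if c < z.c1 ∧ d < z.c3 then z.f3 c d e else 0) -
      if e + 1 = z.C ∧ c % 2 = 0 ∧ d % 2 = 0 then 2 * (M : ℤ) else 0 }

theorem pot_nonneg {ι : Type} [DecidableEq ι] (x : ι → ℕ) (s : Finset ι) {C n M : ℕ}
    (hC : C % 2 = 0) (h : M = 0 ∨ ∀ p ∈ s, x p + 1 = C → (∀ q ∈ s, x q + 1 = C → q = p) ∧
      (∀ q ∈ s, x q % 2 = 0 → x q < n) ∧ 1 ≤ #(s.filter fun q => x q % 2 = 0) ∧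
      #(s.filter fun q => x q % 2 = 0) ≤ 2) :
    0 ≤ ∑ p ∈ s, ((if x p + 1 = C then -2 * (M : ℤ) else 0) + ∑ q ∈ s.erase p,
      ((if x q + 1 = C ∧ x p % 2 = 0 ∧ x p < n then 2 * (M : ℤ) else 0) +
        ∑ u ∈ (s.erase p).erase q,
          if x u + 1 = C ∧ x p % 2 = 0 ∧ x q % 2 = 0 then -(M : ℤ) else 0)) := by
  rcases h with rfl | h
  · simp
  by_cases e : ∃ a ∈ s, x a + 1 = C
  swap
  · push Not at e
    refine sum_nonneg fun p hp => add_nonneg (if_neg (e p hp)).ge (sum_nonneg fun q hq =>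
      add_nonneg (by positivity) (sum_nonneg fun u hu => (if_neg fun f => ?_).ge))
    exact e u (mem_of_mem_erase (mem_of_mem_erase hu)) f.1
  obtain ⟨a, ha, ea⟩ := e
  obtain ⟨h1, h2, h3, h4⟩ := h a ha ea
  obtain ⟨N, hN⟩ : ∃ N, N = #(s.filter fun q => x q % 2 = 0) := ⟨_, rfl⟩
  have one : ∀ (T : Finset ι) (P : Prop) [Decidable P] (v : ℤ), T ⊆ s → (P → a ∈ T) →
      ∑ u ∈ T, (if x u + 1 = C ∧ P then v else 0) = if P then v else 0 := fun T P _ v hT hP => by
    split_ifs with f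
    · rw [sum_eq_single_of_mem a (hP f) fun u hu g => if_neg fun f' => g (h1 u (hT hu) f'.1),
        if_pos ⟨ea, f⟩]
    · exact sum_eq_zero fun u _ => if_neg fun f' => f f'.2
  have ne : ∀ p, x p % 2 = 0 → a ≠ p := by rintro p hp rfl; omega
  have e1 := one s True (-2 * M) Subset.rfl fun _ => ha
  simp only [and_true, if_true] at e1
  rw [sum_add_distrib, e1, sum_congr rfl (g := fun p => if x p % 2 = 0 then M * (3 - N : ℤ) else 0)
    fun p hp => ?_, ← sum_filter, sum_const, ← hN, nsmul_eq_mul]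
  · rw [← hN] at h3 h4
    interval_cases N <;> push_cast <;> linarith
  · rw [sum_add_distrib, one _ _ _ (erase_subset _ _) fun f => mem_erase.2 ⟨ne p f.1, ha⟩,
      sum_congr rfl fun q _ => one _ _ _ ((erase_subset _ _).trans (erase_subset _ _)) fun f =>
        mem_erase.2 ⟨ne q f.2, mem_erase.2 ⟨ne p f.1, ha⟩⟩]
    by_cases f : x p % 2 = 0
    · simp only [f, h2 p hp f, true_and, if_true]
      rw [← sum_filter, sum_const, filter_erase, card_erase_of_mem (mem_filter.2 ⟨hp, f⟩), ← hN,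
        nsmul_eq_mul, Nat.cast_sub (hN ▸ h3)]
      push_cast
      ring
    · simp [f]

theorem ZT.sound_pot (z : ZT) {M n1 n3 : ℕ} (h1 : (z.pot M n1 n3).ok = true)
    (h2 : (z.pot M n1 n3).run 0 z.C = true) (hC : z.C % 2 = 0) {r : ℕ} {a0 : ℤ} {a1 : ℕ → ℤ}
    {a2 : ℕ → ℕ → ℤ} {a3 : ℕ → ℕ → ℕ → ℤ} (b0 : a0 ≤ z.f0 r) (b1 : ∀ c < z.C, a1 c ≤ z.f1 c r)
    (b2 : ∀ d < z.C, ∀ c ≤ d, a2 c d + a2 d c ≤ if c < z.c1 then z.f2 c d + r * z.fb c d else 0)
    (b3 : ∀ e < z.C, ∀ d ≤ e, ∀ c ≤ d, a3 c d e + a3 c e d + a3 d c e + a3 d e c + a3 e c d +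
      a3 e d c ≤ if c < z.c1 ∧ d < z.c3 then z.f3 c d e else 0)
    {ι : Type} [DecidableEq ι] (x : ι → ℕ) (s : Finset ι) (hx : ∀ q ∈ s, x q < z.C)
    (hr : r + ∑ q ∈ s, z.sz (x q) = z.tot)
    (h : M = 0 ∨ ∀ p ∈ s, x p + 1 = z.C → (∀ q ∈ s, x q + 1 = z.C → q = p) ∧
      (∀ q ∈ s, x q % 2 = 0 → x q < n1) ∧ 1 ≤ #(s.filter fun q => x q % 2 = 0) ∧
      #(s.filter fun q => x q % 2 = 0) ≤ 2) :
    a0 + ∑ p ∈ s, (a1 (x p) + ∑ q ∈ s.erase p, (a2 (x p) (x q) +
      ∑ u ∈ (s.erase p).erase q, a3 (x p) (x q) (x u))) ≤ 0 := by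
  have p0 := pot_nonneg x s hC h
  have := (z.pot M n1 n3).sound h1 h2 (r := r) (a0 := a0)
    (a1 := fun c => a1 c + if c + 1 = z.C then -2 * (M : ℤ) else 0)
    (a2 := fun c d => a2 c d + if d + 1 = z.C ∧ c % 2 = 0 ∧ c < n1 then 2 * (M : ℤ) else 0)
    (a3 := fun c d e => a3 c d e + if e + 1 = z.C ∧ c % 2 = 0 ∧ d % 2 = 0 then -(M : ℤ) else 0)
    b0 (fun c hc => ?_) (fun d (hd : d < z.C) c hc => ?_) (fun e (he : e < z.C) d hd c hc => ?_)
    x s hx hr
  · simp only [sum_add_distrib] at this p0 ⊢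
    linarith
  · have := b1 c hc
    simp only [ZT.pot]
    split_ifs <;> linarith
  · have := b2 d hd c hc
    simp only [ZT.pot, lt_max_iff]
    generalize z.f2 c d = A at *
    by_cases e : c < z.c1
    · simp only [e, true_or, if_true] at this ⊢
      generalize r * z.fb c d = B at *
      split_ifs <;> omega
    · simp only [e, false_or, if_false, mul_zero] at this ⊢
      split_ifs <;> omega
  · have := b3 e he d hd c hc
    have f : ∀ u v w : ℕ, u + 1 = z.C ∧ v % 2 = 0 ∧ w % 2 = 0 → e ≤ u → v = e ∨ w = e → u ≤ e →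
        False := fun u v w _ _ _ _ => by omega
    rw [if_neg fun g => f d c e g (by omega) (by omega) hd,
      if_neg fun g => f c d e g (by omega) (by omega) (by omega),
      if_neg fun g => f d e c g (by omega) (by omega) hd,
      if_neg fun g => f c e d g (by omega) (by omega) (by omega)]
    simp only [ZT.pot, lt_max_iff]
    generalize z.f3 c d e = A at *
    split_ifs at this ⊢ <;> omega

end Lat

namespace R4.Tab2

open PP.Lat

variable (t : Tab2)

/-- The tables for the symbol `δ` of the small part, with potentials of size `2 * M`. -/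
noncomputable def zt3 (b : ℤ) (k M δ : ℕ) : ZT :=
  (t.zt b k δ).pot (δ * M) (2 * (2 * t.Q - t.Θ - t.Z)) (2 * (2 * t.Q - t.Θ - 2 * t.Z))

/-- The kernel check gives the check at the vertices. -/
theorem lat3 (h : t.Low) (hΘ : t.Q < t.Θ) (hZ : 2 * t.Q ≤ t.Θ + 3 * t.Z) {b : ℤ} {k M : ℕ}
    (h1 : ∀ δ ≤ 1, (t.zt3 b k M δ).ok = true ∧ (t.zt3 b k M δ).run 0 (2 * (t.Θ - t.Z)) = true) :
    t.Lat3 b := by
  intro s c δ ρ δ₀ hs h0 hr hd
  let x : ℕ → ℕ := fun p => 2 * (c p - t.Z) + δ p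
  have x0 : ∀ p, x p = 2 * (c p - t.Z) + δ p := fun _ => rfl
  have x1 : ∀ p ∈ s, c p = t.cl (x p) := fun p hp => by
    have := hs p hp
    change _ = t.Z + (2 * (c p - t.Z) + δ p) / 2
    omega
  have x2 : ∀ p ∈ s, (δ p : ℤ) = bt (x p) := fun p hp => by
    have := hs p hp
    change _ = (((2 * (c p - t.Z) + δ p) % 2 : ℕ) : ℤ)
    omega
  have cl1 : ∀ c, t.cl c = t.Z + c / 2 := fun _ => rfl
  have := (t.zt b k δ₀).sound_pot (h1 _ h0).1 (h1 _ h0).2 (Nat.mul_mod_right _ _) (r := ρ + δ₀)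
    (a0 := t.V2 [] [] ρ δ₀ - b) (a1 := fun c => (t.zt b k δ₀).f1 c (ρ + δ₀))
    (a2 := fun c d => t.V2 [t.cl c, t.cl d] [bt c, bt d] ρ δ₀)
    (a3 := fun c d e => t.V2 [t.cl c, t.cl d, t.cl e] [bt c, bt d, bt e] ρ δ₀)
    (by simp [zt]) (fun _ _ => le_rfl) (fun d _ c hc => ?_) (fun e _ d hd c hc => ?_) x s
    (fun p hp => by have := hs p hp; change 2 * (c p - t.Z) + δ p < 2 * (t.Θ - t.Z); omega)
    (Eq.trans (congrArg _ (sum_congr rfl fun p hp => by
      have := hs p hp
      change t.Z + (2 * (c p - t.Z) + δ p + 1) / 2 = _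
      omega)) hr) ?_
  · rw [sub_add_eq_add_sub, sub_nonpos] at this
    refine le_trans (le_of_eq ?_) this
    simp only [sum_range_succ, range_zero, sum_empty, tupL, List.map_cons, List.map_nil,
      sum_add_distrib, zero_add, add_assoc]
    congr 2
    · refine sum_congr rfl fun p hp => ?_
      have := single_le_sum (f := fun p => c p + δ p) (fun _ _ => Nat.zero_le _) hp
      rw [x2 p hp, zt]
      simp only [← x1 p hp]
      rw [if_pos (by omega), Nat.add_sub_cancel]
    · congr 1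
      · exact sum_congr rfl fun p hp => sum_congr rfl fun q hq => by
          rw [x1 p hp, x2 p hp, x1 q (mem_of_mem_erase hq), x2 q (mem_of_mem_erase hq)]
      · exact sum_congr rfl fun p hp => sum_congr rfl fun q hq => sum_congr rfl fun u hu => by
          have hu := mem_of_mem_erase (mem_of_mem_erase hu)
          rw [x1 p hp, x2 p hp, x1 q (mem_of_mem_erase hq), x2 q (mem_of_mem_erase hq), x1 u hu,
            x2 u hu]
  · refine (add_le_add (t.V_two h c d ρ δ₀) (t.V_two h d c ρ δ₀)).trans ?_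
    by_cases e : t.cl c + t.cl d < t.L
    · refine le_of_le_of_eq ?_ (if_pos (show c < 2 * ((t.L + 1) / 2 - t.Z) by
        have := cl1 c; have := cl1 d; omega)).symm
      simp only [zt, if_pos (And.intro hc e)]
      exact le_of_eq (by ring)
    · have := t.far h (c := c) (l := [d]) (by simp; omega) δ₀
      have := t.far h (c := d) (l := [c]) (by simp; omega) δ₀
      simp [zt, *]
  · simp only [t.V_three h]
    by_cases e' : t.cl c + t.cl d + t.cl e < t.L
    · refine le_of_le_of_eq ?_ (if_pos (show c < 2 * ((t.L + 1) / 2 - t.Z) ∧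
        d < 2 * ((t.L - t.Z + 1) / 2 - t.Z) by
          have := cl1 c; have := cl1 d; have := cl1 e; omega)).symm
      exact (if_pos ⟨hc, hd, e'⟩).ge
    · have z : ∀ x y z, t.cl x + t.cl y + t.cl z = t.cl c + t.cl d + t.cl e → t.W0 [x, y, z] = 0 :=
        fun x y z e => (t.far h (by simp; omega) 0).1
      rw [z c d e rfl, z c e d (by omega), z d c e (by omega), z d e c (by omega),
        z e c d (by omega), z e d c (by omega)]
      simp [zt, e']
  · obtain rfl | rfl : δ₀ = 0 ∨ δ₀ = 1 := by omega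
    · exact Or.inl (zero_mul _)
    refine Or.inr fun p hp (e : x p + 1 = 2 * (t.Θ - t.Z)) => ?_
    have p1 := hs p hp
    have p2 := x0 p
    have two : ∀ q ∈ s, q ≠ p → c q + δ q + t.Θ < 2 * t.Q := fun q hq f => by
      have := add_sum_erase s (fun p => c p + δ p) hp
      have := single_le_sum (f := fun p => c p + δ p) (fun _ _ => Nat.zero_le _)
        (mem_erase.2 ⟨f, hq⟩)
      omega
    refine ⟨fun q hq (f : x q + 1 = 2 * (t.Θ - t.Z)) => by_contra fun g => ?_, fun q hq f => ?_,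
      card_pos.2 (by_contra fun f => hd ⟨rfl, fun q hq => by_contra fun g => f ⟨q, mem_filter.2
        ⟨hq, ?_⟩⟩, p, hp, by omega⟩), ?_⟩
    · have := two q hq g; have := hs q hq; have := x0 q; omega
    · have := two q hq (by rintro rfl; omega); have := hs q hq; have := x0 q; omega
    · have := hs q hq; have := x0 q; omega
    · have a1 := add_sum_erase s (fun p => c p + δ p) hp
      have a2 := sum_le_sum_of_subset (f := fun p => c p + δ p)
        (s := s.filter fun q => x q % 2 = 0) (t := s.erase p) fun q hq =>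
          mem_erase.2 ⟨by rintro rfl; have := (mem_filter.1 hq).2; omega, (mem_filter.1 hq).1⟩
      have a3 := card_nsmul_le_sum (s.filter fun q => x q % 2 = 0) (fun p => c p + δ p) t.Z
        fun q hq => (hs q (mem_filter.1 hq).1).1.trans (Nat.le_add_right _ _)
      by_contra f
      have a4 := Nat.mul_le_mul_right t.Z (not_le.1 f)
      rw [smul_eq_mul] at a3
      omega

end R4.Tab2

end Pool.Agent.Lib.MP_4b1228_nt.PP
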