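import Pool.Agent.Lib.MP_4b1228_nt.PP.Dat
import Pool.Agent.Lib.MP_4b1228_nt.PP.LatR3

/-! The tables of the check at the vertices in a form that the kernel evaluates fast. -/

namespace Pool.Agent.Lib.MP_4b1228_nt.PP.R4

open PP.Lat

noncomputable section

def frz (n : ℕ) (f : ℕ → ℤ) : ℤ := Nat.rec (f 0) (fun m _ => f (Nat.succ m)) n
def gd (b : Bool) (z : ℤ) : ℤ := Bool.rec 0 z b
def mz (a b : ℤ) : ℤ := Int.rec (fun _ => b) (fun _ => a) (Int.sub b a)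
def ng (a z : ℤ) : ℤ := Int.rec (fun _ => 0) (fun _ => z) a
def aff (a b u : ℤ) : ℤ := Int.add a (Int.mul b u)
def sc (a u v : ℤ) : ℤ := Int.mul (Int.mul 30 a) (Int.sub (Int.add u v) (ng a 1))
def m0a (co : ℕ → ℤ) (u : ℤ) : ℤ := Int.mul 60 (aff (co 0) (co 1) u)
def m0b (co : ℕ → ℤ) (u v : ℤ) : ℤ := Int.mul 60 (aff (aff (co 0) (co 1) u) (co 2) v)
def m0c (co : ℕ → ℤ) (u v w : ℤ) : ℤ :=
  Int.mul 60 (aff (aff (aff (co 0) (co 1) u) (co 2) v) (co 3) w)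
def m1a (co : ℕ → ℤ) (ρ u δ : ℤ) : ℤ :=
  aff (aff (sc (co 1) u δ) ρ (m0a co u)) 60 (Int.mul (co 0) δ)
def m1b (co : ℕ → ℤ) (u v δ : ℤ) : ℤ :=
  aff (Int.add (sc (co 1) u δ) (sc (co 2) v δ)) 60 (Int.mul (co 0) δ)
def qf (n a δ : ℤ) : ℤ := Int.mul a (Int.sub (Int.mul 60 δ) (ng a n))
def m23f (a b ρ δ : ℤ) : ℤ :=
  aff (Int.add (qf 15 (aff a (Int.mul 3 ρ) b) δ) (qf 24 b δ)) (Int.mul 60 ρ)
    (aff (Int.mul a (aff ρ 2 δ)) (Int.mul b ρ) (aff ρ 3 δ))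
def itp (f : ℕ → ℤ) (i : ℕ) (u : ℤ) : ℤ := aff (f i) (Int.sub (f (Nat.succ i)) (f i)) u

theorem frz_eq (n : ℕ) (f : ℕ → ℤ) : frz n f = f n := by cases n <;> rfl

theorem gd_eq (b : Bool) (z : ℤ) : gd b z = if b then z else 0 := by cases b <;> rfl

theorem mz_eq (a b : ℤ) : mz a b = max a b := by
  have : ∀ y : ℤ, b - a = y → (Int.rec (fun _ => b) (fun _ => a) y : ℤ) = max a b := by
    rintro (n | n) h
    · exact (max_eq_right (show a ≤ b by simp at h; omega)).symm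
    · exact (max_eq_left (show b ≤ a by omega)).symm
  exact this _ rfl

theorem ng_eq (a z : ℤ) : ng a z = if a < 0 then z else 0 := by
  cases a with
  | ofNat n => exact (if_neg (by simp)).symm
  | negSucc n => exact (if_pos (Int.negSucc_lt_zero n)).symm

theorem sub_def' (a b : ℤ) : Int.sub a b = a - b := rfl

theorem fast (co : ℕ → ℤ) (u v w : ℤ) (ρ : ℕ) : m0a co u = m0 co [u] ∧ m0b co u v = m0 co [u, v] ∧
    m0c co u v w = m0 co [u, v, w] ∧ m1a co ρ u v = m1 co ρ [u] v ∧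
    m1b co u v w = m1 co 0 [u, v] w ∧ m23f u v ρ w = m23 u v ρ w := by
  simp only [m0a, m0b, m0c, m1a, m1b, m23f, qf, sc, aff, ng_eq, m0, m1, m23, q2, q3, lin, sec,
    Int.add_def, Int.mul_def, sub_def', Int.cast_id, mul_comm (3 * (ρ : ℤ)) v]
  refine ⟨?_, ?_, ?_, ?_, ?_, ?_⟩ <;> push_cast <;> ring

namespace Tab2

variable (t : Tab2)

/-- The tables vanish on lists that are not sorted. -/
def Srt : Prop := (∀ x y j b, y < x → t.e [x, y] j b = 0 ∧ t.c [x, y] j b = 0) ∧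
  ∀ x y z b, y < x ∨ z < y → t.e [x, y, z] 0 b = 0 ∧ t.c [x, y, z] 0 b = 0

def mkf (a : ℕ) (τ : ℤ) (x : ℕ) (u : ℤ) : ℤ :=
  gd (t.mk1 a x) (aff (aff (t.h1 a x 0) (t.h1 a x 1) τ) (t.h1 a x 2) u)

def win (a : ℕ) (τ : ℤ) (g : ℕ → ℤ → ℤ) : ℤ := frz a fun a =>
  gd (Nat.ble t.a₀ a) (gd (Nat.blt a t.a₁) (Int.add (itp (t.h0 a) 0 τ) (g a τ)))

def hw2 (a : ℕ) (τ : ℤ) (g : ℕ → ℤ → ℤ) : ℤ :=
  mz (t.win a τ g) (t.win (Nat.add a 1) (Int.sub τ 1) g)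

def pr2 (g : ℕ → ℕ → ℤ → ℤ → ℤ) (x y : ℕ) (u v : ℤ) : ℤ :=
  Int.add (gd (Nat.ble x y) (g x y u v)) (gd (Nat.ble y x) (g y x v u))

def ea (j x y : ℕ) (u v : ℤ) : ℤ := Int.add (gd (t.vis j [x, y]) (m0b (t.e [x, y] j) u v))
  (gd (t.on [x, y]) (mz 0 (m0b (t.c [x, y] j) u v)))

def eb (δ : ℤ) (x y : ℕ) (u v : ℤ) : ℤ := Int.sub (Int.add (t.ea 0 x y u v)
  (Int.add (gd (t.vis 1 [x, y]) (m1b (t.e [x, y] 1) u v δ))
    (gd (t.on [x, y]) (mz 0 (m1b (t.c [x, y] 1) u v δ))))) (Int.mul δ (t.ea 1 x y u v))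

def ec (x y z : ℕ) (u v w : ℤ) : ℤ := gd (Nat.ble x y) (gd (Nat.ble y z)
  (Int.add (gd (t.vis 0 [x, y, z]) (m0c (t.e [x, y, z] 0) u v w))
    (gd (t.on [x, y, z]) (mz 0 (m0c (t.c [x, y, z] 0) u v w)))))

def s1f (x : ℕ) (u : ℤ) (ρ : ℕ) (δ : ℤ) : ℤ :=
  Int.add (Int.add (Int.add (gd (t.vis 0 [x]) (m0a (t.e [x] 0) u))
    (gd (t.vis 1 [x]) (m1a (t.e [x] 1) (Int.ofNat ρ) u δ)))
    (m23f (t.co [x] 2 0) (t.co [x] 3 0) (Int.ofNat ρ) δ))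
  (Int.add (Int.add (gd (Nat.ble (Nat.add (Nat.add x ρ) 2) t.Q)
      (Int.mul 60 (Int.add (itp (t.s1 x ρ) 0 u) (itp (t.s1 x ρ) 2 δ))))
    (Int.add (Int.mul 60 (t.lp x u)) (t.VH [x] [u])))
    (gd (t.on [x]) (Int.add (mz 0 (m0a (t.c [x] 0) u)) (mz 0 (m1a (t.c [x] 1) (Int.ofNat ρ) u δ)))))

def p2f (δ : ℤ) (x y : ℕ) (u v : ℤ) : ℤ := Int.add (pr2 (t.eb δ) x y u v)
  (gd (Nat.ble t.T x) (gd (Nat.ble t.T y) (Int.mul 60 (t.hw2 (Nat.add x y) (Int.add u v) fun a τ =>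
    Int.add (t.mkf a τ x u) (t.mkf a τ y v)))))

def h3f (a : ℕ) (τ : ℤ) (g : ℕ → ℤ → ℤ) : ℤ :=
  mz (t.hw2 a τ g) (t.win (Nat.add a 2) (Int.sub τ 2) g)

def p3f (x y z : ℕ) (u v w : ℤ) : ℤ :=
  Int.add (Int.add (Int.add (Int.add (t.ec x y z u v w) (t.ec x z y u w v))
    (Int.add (t.ec y x z v u w) (t.ec y z x v w u))) (Int.add (t.ec z x y w u v) (t.ec z y x w v u)))
  (gd (Nat.ble t.T x) (gd (Nat.ble t.T y) (gd (Nat.ble t.T z) (Int.mul 60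
    (t.h3f (Nat.add (Nat.add x y) z) (Int.add (Int.add u v) w) fun a τ =>
      Int.add (Int.add (t.mkf a τ x u) (t.mkf a τ y v)) (t.mkf a τ z w))))))

def zf (b : ℤ) (k δ : ℕ) : ZT :=
  { t.zt b k δ with
    f1 c r := frz (t.cl c) fun x => gd (Nat.ble (Nat.add x r) (Nat.mul 2 t.Q))
      (frz (Nat.sub r δ) fun ρ => t.s1f x (bt c) ρ (Int.ofNat δ))
    f2 c d := gd (Nat.ble c d) (frz (t.cl c) fun x => frz (t.cl d) fun y =>
      gd (Nat.blt (Nat.add x y) t.L) (t.p2f (Int.ofNat δ) x y (bt c) (bt d)))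
    fb c d := gd (Nat.ble c d) (frz (t.cl c) fun x => frz (t.cl d) fun y =>
      gd (Nat.blt (Nat.add x y) t.L) (pr2 (t.ea 1) x y (bt c) (bt d)))
    f3 c d e := gd (Nat.ble c d) (gd (Nat.ble d e) (frz (t.cl c) fun x => frz (t.cl d) fun y =>
      frz (t.cl e) fun z => gd (Nat.blt (Nat.add (Nat.add x y) z) t.L)
        (t.p3f x y z (bt c) (bt d) (bt e)))) }

theorem g0 (j : ℕ) (cs : List ℕ) (us : List ℤ) (ρ : ℕ) (δ : ℤ) :
    m0 (t.co cs j) us = gd (t.vis j cs) (m0 (t.e cs j) us) ∧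
    m1 (t.co cs j) ρ us δ = gd (t.vis j cs) (m1 (t.e cs j) ρ us δ) ∧
    m0 (t.cc cs j) us = gd (t.on cs) (m0 (t.c cs j) us) ∧
    m1 (t.cc cs j) ρ us δ = gd (t.on cs) (m1 (t.c cs j) ρ us δ) := by
  unfold Tab.co cc
  cases t.vis j cs <;> cases t.on cs <;> simp [gd, m0_zero, m1_zero]

theorem max_gd (b : Bool) (z : ℤ) : max 0 (gd b z) = gd b (max 0 z) := by cases b <;> simp [gd]

theorem win_eq (a : ℕ) (cs : List ℕ) (us : List ℤ) {τ : ℤ} {g : ℕ → ℤ → ℤ}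
    (h : (cs.sum : ℕ) + us.sum - (a : ℤ) = τ) (hg : g a τ = t.marks a τ cs us) :
    t.win a τ g = t.hv a cs us := by
  simp only [win, frz_eq, gd_eq, Tab.hv, h, hg, Nat.ble_eq, Nat.blt_eq, ite_and, itp, aff,
    Int.add_def, Int.mul_def, sub_def', Int.cast_id, Nat.succ_eq_add_one, zero_add]
  split_ifs <;> ring

theorem VH2 (x y : ℕ) (u v : ℤ) : t.VH [x, y] [u, v] = gd (Nat.ble t.T x) (gd (Nat.ble t.T y)
    (30 * t.hw2 (x + y) (u + v) fun a τ => t.mkf a τ x u + t.mkf a τ y v)) := by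
  rw [hw2, mz_eq, t.win_eq _ [x, y] [u, v] (by simp) (by simp [mkf, gd_eq, aff, Tab.marks]),
    t.win_eq _ [x, y] [u, v] (by simp [sub_def'])
      (by simp [mkf, gd_eq, aff, Tab.marks])]
  simp [Tab.VH, Tab.hm, gd_eq, ite_and]

theorem VH3 (x y z : ℕ) (u v w : ℤ) : t.VH [x, y, z] [u, v, w] =
    gd (Nat.ble t.T x) (gd (Nat.ble t.T y) (gd (Nat.ble t.T z) (10 * t.h3f (x + y + z) (u + v + w)
      fun a τ => t.mkf a τ x u + t.mkf a τ y v + t.mkf a τ z w))) := by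
  rw [h3f, hw2, mz_eq, mz_eq,
    t.win_eq _ [x, y, z] [u, v, w] (by simp; ring)
      (by simp [mkf, gd_eq, aff, Tab.marks, add_assoc]),
    t.win_eq _ [x, y, z] [u, v, w] (by simp [sub_def']; ring)
      (by simp [mkf, gd_eq, aff, Tab.marks, add_assoc]),
    t.win_eq _ [x, y, z] [u, v, w] (by simp [sub_def']; ring)
      (by simp [mkf, gd_eq, aff, Tab.marks, add_assoc])]
  simp [Tab.VH, Tab.hm, gd_eq, ite_and, add_assoc, Nat.factorial]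

theorem sw1 (x y z : ℕ) (u v w : ℤ) : t.VH [y, x, z] [v, u, w] = t.VH [x, y, z] [u, v, w] := by
  simp only [VH3, add_comm y x, add_comm v u, gd_eq,
    fun a τ => add_comm (t.mkf a τ y v) (t.mkf a τ x u)]
  split_ifs <;> rfl

theorem sw2 (x y z : ℕ) (u v w : ℤ) : t.VH [x, z, y] [u, w, v] = t.VH [x, y, z] [u, v, w] := by
  simp only [VH3, add_right_comm x z y, add_right_comm u w v, gd_eq,
    fun a τ => add_right_comm (t.mkf a τ x u) (t.mkf a τ z w) (t.mkf a τ y v)]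
  split_ifs <;> rfl

theorem two (h : t.Srt) (c d : ℕ) (δ : ℤ) :
    t.WA [c, d] = gd (Nat.ble (t.cl c) (t.cl d)) (t.ea 1 (t.cl c) (t.cl d) (bt c) (bt d)) ∧
    t.WB δ [c, d] = gd (Nat.ble (t.cl c) (t.cl d)) (t.eb δ (t.cl c) (t.cl d) (bt c) (bt d)) +
      t.VH [t.cl c, t.cl d] [bt c, bt d] := by
  simp only [WA, WB, W0, List.map_cons, List.map_nil, (t.g0 _ _ _ 0 0).1, (t.g0 _ _ _ 0 δ).2.1,
    (t.g0 _ _ _ 0 0).2.2.1, (t.g0 _ _ _ 0 δ).2.2.2, max_gd, ea, eb, mz_eq, (fast _ _ _ 0 0).2.1,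
    (fast _ _ _ _ 0).2.2.2.2.1, Int.add_def, Int.mul_def, sub_def']
  cases e : Nat.ble (t.cl c) (t.cl d)
  · have e' : t.cl d < t.cl c := not_le.1 fun x => by simp [Nat.ble_eq_true_of_le x] at e
    have e1 : ∀ j, t.e [t.cl c, t.cl d] j = fun _ => 0 := fun j => funext fun b => (h.1 _ _ j b e').1
    have e2 : ∀ j, t.c [t.cl c, t.cl d] j = fun _ => 0 := fun j => funext fun b => (h.1 _ _ j b e').2
    simp [e1, e2, m0_zero, m1_zero, gd_eq]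
  · simp only [gd_eq true, if_true, true_and]
    ring

theorem three (h : t.Srt) (c d e : ℕ) : t.W0 [c, d, e] =
    t.ec (t.cl c) (t.cl d) (t.cl e) (bt c) (bt d) (bt e) +
      t.VH [t.cl c, t.cl d, t.cl e] [bt c, bt d, bt e] := by
  simp only [W0, List.map_cons, List.map_nil, (t.g0 _ _ _ 0 0).1, (t.g0 _ _ _ 0 0).2.2.1, max_gd,
    ec, mz_eq, (fast _ _ _ _ 0).2.2.1, Int.add_def]
  by_cases e' : t.cl d < t.cl c ∨ t.cl e < t.cl d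
  · have e1 : t.e [t.cl c, t.cl d, t.cl e] 0 = fun _ => 0 := funext fun b => (h.2 _ _ _ b e').1
    have e2 : t.c [t.cl c, t.cl d, t.cl e] 0 = fun _ => 0 := funext fun b => (h.2 _ _ _ b e').2
    simp [e1, e2, m0_zero, gd_eq]
  · rw [Nat.ble_eq_true_of_le (by omega), Nat.ble_eq_true_of_le (by omega)]
    simp only [gd_eq true, if_true]
    ring

theorem s1f_eq (x : ℕ) (u : ℤ) (ρ : ℕ) (δ : ℤ) : t.s1f x u ρ δ = t.V2 [x] [u] ρ δ := by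
  simp only [s1f, V2, VC, Tab.V, Tab.VE, Tab.VS, (t.g0 _ _ _ 0 0).1, (t.g0 _ _ _ ρ δ).2.1,
    (t.g0 _ _ _ 0 0).2.2.1, (t.g0 _ _ _ ρ δ).2.2.2, mz_eq, (fast _ _ 0 0 0).1,
    Int.ofNat_eq_natCast, (fast _ _ _ 0 _).2.2.2.1, (fast (fun _ => 0) _ _ _ _).2.2.2.2.2,
    Int.add_def, Int.mul_def, Tab.l1, itp, aff, sub_def', gd_eq, Nat.ble_eq, Nat.add_eq,
    Int.cast_id, Nat.succ_eq_add_one]
  split_ifs <;> simp <;> ring

theorem zf_eq (h : t.Srt) (b : ℤ) (k δ : ℕ) : t.zf b k δ = t.zt b k δ := by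
  simp only [zf, zt, ZT.mk.injEq, true_and, frz_eq, s1f_eq]
  refine ⟨?_, ?_, ?_, ?_⟩
  · funext c r
    simp [gd_eq]
  · funext c d
    simp only [(t.two h _ _ _).2, VH2, p2f, pr2, gd_eq, Nat.ble_eq, Nat.blt_eq, ite_and,
      Int.add_def, Int.mul_def, Nat.add_eq, Int.ofNat_eq_natCast, add_comm (t.cl d),
      add_comm (bt d), fun a τ => add_comm (t.mkf a τ (t.cl d) (bt d))]
    split_ifs <;> ring
  · funext c d
    simp only [(t.two h _ _ 0).1, pr2, gd_eq, Nat.ble_eq, Nat.blt_eq, ite_and, Int.add_def,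
      Nat.add_eq]
  · funext c d e
    simp only [t.three h]
    rw [t.sw1 (t.cl d) (t.cl e), t.sw1 (t.cl c) (t.cl e), t.sw2 (t.cl d) (t.cl c),
      t.sw1 (t.cl c) (t.cl d), t.sw2 (t.cl c) (t.cl d)]
    simp only [VH3, p3f, gd_eq, Nat.ble_eq, Nat.blt_eq, ite_and, Int.add_def, Int.mul_def,
      Nat.add_eq]
    split_ifs <;> ring

/-- The tables without the degenerate vertices. -/
def zg (b : ℤ) (k M δ : ℕ) : ZT :=
  (t.zf b k δ).pot (δ * M) (2 * (2 * t.Q - t.Θ - t.Z)) (2 * (2 * t.Q - t.Θ - 2 * t.Z))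

end Tab2

theorem Dat.srt (x : Dat) : x.tab.Srt :=
  ⟨fun c d j b h => ⟨x.e.co_two x.w x.Z c d j b (Or.inl h), x.c.co_two x.w x.Z c d j b (Or.inl h)⟩,
    fun c d e b h => ⟨x.e.co_three x.w x.Z c d e 0 b (h.imp_right Or.inl),
      x.c.co_three x.w x.Z c d e 0 b (h.imp_right Or.inl)⟩⟩

theorem Dat.lat2 (x : Dat) {b : ℤ} {k : ℕ} (h0 : (x.tab.zf b k 0).ok = true)
    (h1 : (x.tab.zf b k 1).ok = true) (r0 : (x.tab.zf b k 0).run 0 (2 * (x.Θ - x.Z)) = true)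
    (r1 : (x.tab.zf b k 1).run 0 (2 * (x.Θ - x.Z)) = true) : x.tab.Lat2 b :=
  x.tab.lat x.low (k := k) fun δ h => by
    rw [← x.tab.zf_eq x.srt]
    rcases Nat.le_one_iff_eq_zero_or_eq_one.1 h with rfl | rfl
    exacts [⟨h0, r0⟩, ⟨h1, r1⟩]

theorem Dat.lat3 (x : Dat) (hΘ : x.Q < x.Θ) (hZ : 2 * x.Q ≤ x.Θ + 3 * x.Z) {b : ℤ} {k M : ℕ}
    (h0 : (x.tab.zg b k M 0).ok = true) (h1 : (x.tab.zg b k M 1).ok = true)
    (r0 : (x.tab.zg b k M 0).run 0 (2 * (x.Θ - x.Z)) = true)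
    (r1 : (x.tab.zg b k M 1).run 0 (2 * (x.Θ - x.Z)) = true) : x.tab.Lat3 b :=
  x.tab.lat3 x.low hΘ hZ (k := k) (M := M) fun δ h => by
    rw [Tab2.zt3, ← x.tab.zf_eq x.srt]
    rcases Nat.le_one_iff_eq_zero_or_eq_one.1 h with rfl | rfl
    exacts [⟨h0, r0⟩, ⟨h1, r1⟩]

end

end Pool.Agent.Lib.MP_4b1228_nt.PP.R4
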