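import Mathlib
import Pool.Agent.Lib.MP_4b1228_nt.PP.Lat

/-! Packed numbers. -/

namespace Pool.Agent.Lib.MP_4b1228_nt.PP.Lat

variable {w n : ℕ} {f g : ℕ → ℕ}

theorem pk_succ (w n : ℕ) (f : ℕ → ℕ) : pk w (n + 1) f = 2 ^ (w * n) * f n + pk w n f := by
  change pk w n f + f n <<< (w * n) = _
  rw [Nat.shiftLeft_eq]; ring

theorem pk_congr (h : ∀ i < n, f i = g i) : pk w n f = pk w n g := by
  induction n with
  | zero => rfl
  | succ n ih => rw [pk_succ, pk_succ, ih fun i hi => h i (by omega), h n (by omega)]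

theorem pk_add (w n : ℕ) (f g : ℕ → ℕ) :
    Nat.add (pk w n f) (pk w n g) = pk w n fun i => f i + g i := by
  induction n with
  | zero => rfl
  | succ n ih => rw [pk_succ, pk_succ, pk_succ, ← ih, Nat.add_eq, Nat.add_eq]; ring

theorem pk_const (w n c : ℕ) : Nat.mul (pk w n fun _ => 1) c = pk w n fun _ => c := by
  induction n with
  | zero => exact Nat.zero_mul c
  | succ n ih => rw [pk_succ, pk_succ, ← ih, Nat.mul_eq, Nat.mul_eq]; ring

theorem pk_zero (w n : ℕ) : pk w n (fun _ => 0) = 0 := by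
  rw [← pk_const]; rfl

theorem pk_lt (h : ∀ i < n, f i < 2 ^ w) : pk w n f < 2 ^ (w * n) := by
  induction n with
  | zero => exact Nat.one_pos
  | succ n ih =>
    have h1 := ih fun i hi => h i (by omega)
    have h2 : f n + 1 ≤ 2 ^ w := h n (by omega)
    rw [pk_succ, mul_add, mul_one, pow_add]
    have := Nat.mul_le_mul_left (2 ^ (w * n)) h2
    nlinarith

theorem pk_bit (h : ∀ i < n, f i < 2 ^ w) {l r : ℕ} (hr : r < w) :
    (pk w n f).testBit (w * l + r) ↔ l < n ∧ (f l).testBit r := by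
  induction n with
  | zero => simp [pk]
  | succ n ih =>
    have h' : ∀ i < n, f i < 2 ^ w := fun i hi => h i (by omega)
    rw [pk_succ, Nat.testBit_two_pow_mul_add _ (pk_lt h')]
    rcases lt_trichotomy l n with e | rfl | e
    · have : w * (l + 1) ≤ w * n := Nat.mul_le_mul_left w e
      rw [mul_add] at this
      rw [if_pos (by omega), ih h', and_iff_right e, and_iff_right (by omega)]
    · rw [if_neg (by omega), Nat.add_sub_cancel_left, and_iff_right (by omega)]
    · have : w * (n + 1) ≤ w * l := Nat.mul_le_mul_left w e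
      rw [mul_add] at this
      rw [if_neg (by omega), Nat.testBit_lt_two_pow ((h n (by omega)).trans_le
        (Nat.pow_le_pow_right two_pos (by omega)))]
      simp [e.not_ge]

theorem ones_eq (k : ℕ) : ones k = 2 ^ k - 1 := by
  change 1 <<< k - 1 = _
  rw [Nat.one_shiftLeft]

theorem ln_eq (w x i : ℕ) : ln w x i = x >>> (w * i) % 2 ^ w := by
  rw [ln, ones_eq]
  exact Nat.and_two_pow_sub_one_eq_mod _ _

theorem ln_pk (h : ∀ i < n, f i < 2 ^ w) (i : ℕ) :
    ln w (pk w n f) i = if i < n then f i else 0 := by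
  rw [ln_eq]
  refine Nat.eq_of_testBit_eq fun r => ?_
  rw [Nat.testBit_mod_two_pow, Nat.testBit_shiftRight]
  by_cases hr : r < w
  · rw [decide_eq_true hr, Bool.true_and, Bool.eq_iff_iff, pk_bit h hr]
    split_ifs with c <;> simp [c]
  · rw [decide_eq_false hr, Bool.false_and]
    split_ifs with c
    · exact (Nat.testBit_lt_two_pow ((h i c).trans_le (Nat.pow_le_pow_right two_pos
        (by omega)))).symm
    · simp

theorem ln_pk' (h : ∀ i < n, f i < 2 ^ w) (h0 : ∀ i, n ≤ i → f i = 0) (i : ℕ) :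
    ln w (pk w n f) i = f i := by
  rw [ln_pk h]
  split_ifs with c
  exacts [rfl, (h0 i (by omega)).symm]

theorem and_pk (hw : 0 < w ∨ n = 0) (hf : ∀ i < n, f i < 2 ^ w) (x : ℕ) :
    Nat.land x (pk w n f) = pk w n fun i => Nat.land (Nat.shiftRight x (w * i)) (f i) := by
  rcases hw with hw | rfl
  swap
  · exact Nat.and_zero x
  refine Nat.eq_of_testBit_eq fun p => ?_
  have r := Nat.mod_lt p hw
  rw [Bool.eq_iff_iff, Nat.land_eq, Nat.testBit_and, Bool.and_eq_true, ← Nat.div_add_mod p w,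
    pk_bit hf r, pk_bit (f := fun i => Nat.land (Nat.shiftRight x (w * i)) (f i))
      (fun i hi => Nat.and_le_right.trans_lt (hf i hi)) r, Nat.land_eq,
    Nat.testBit_and, Nat.shiftRight_eq', Nat.testBit_shiftRight, Bool.and_eq_true]
  tauto

theorem pk_shr (hw : 0 < w) (h : ∀ i, f i < 2 ^ w) (h0 : ∀ i, n ≤ i → f i = 0) (s : ℕ) :
    Nat.shiftRight (pk w n f) (w * s) = pk w n fun i => f (i + s) := by
  refine Nat.eq_of_testBit_eq fun p => ?_
  have r := Nat.mod_lt p hw
  rw [Bool.eq_iff_iff, Nat.shiftRight_eq', Nat.testBit_shiftRight, ← Nat.div_add_mod p w,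
    ← add_assoc, ← mul_add, pk_bit (fun i _ => h i) r, pk_bit (fun i _ => h _) r, add_comm s]
  refine and_congr_left fun x => ⟨fun _ => by omega, fun _ => ?_⟩
  by_contra c
  rw [h0 _ (by omega)] at x
  simp at x

theorem em_lt : em < 2 ^ 112 := by decide

theorem rm_eq (n : ℕ) : rm n = pk 112 n fun _ => em := pk_const _ _ _

theorem rm_lt (n : ℕ) : rm n < 2 ^ (112 * n) := by
  rw [rm_eq]
  exact pk_lt fun _ _ => em_lt

theorem row_eq (x n d : ℕ) : row x n d = pk 112 n fun c => en x (n * d + c) := by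
  rw [row, rm_eq, and_pk (Or.inl (by omega)) fun _ _ => em_lt]
  refine pk_congr fun c _ => ?_
  change x >>> (112 * (n * d)) >>> (112 * c) &&& em = x >>> (112 * (n * d + c)) &&& em
  rw [← Nat.shiftRight_add, mul_add]

theorem mat_eq (x n k e : ℕ) : mat x n k e =
    pk (112 * n) k fun d => pk 112 n fun c => en x (n * k * e + (n * d + c)) := by
  rcases Nat.eq_zero_or_pos n with rfl | hn
  · have : mm 0 k = 0 := Nat.mul_zero _
    rw [mat, this]
    exact (Nat.and_zero _).trans (pk_zero _ _).symm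
  rw [mat, mm, pk_const]
  refine (and_pk (w := 112 * n) (Or.inl (by omega)) (fun _ _ => rm_lt n) _).trans
    (pk_congr fun d _ => ?_)
  rw [rm_eq, and_pk (Or.inl (by omega)) fun _ _ => em_lt]
  refine pk_congr fun c _ => ?_
  change x >>> (112 * (n * k * e)) >>> (112 * n * d) >>> (112 * c) &&& em =
    x >>> (112 * (n * k * e + (n * d + c))) &&& em
  rw [← Nat.shiftRight_add, ← Nat.shiftRight_add, mul_add, mul_add, mul_assoc 112 n d]

theorem shr_sm {T H s : ℕ} {F : ℕ → ℕ → ℕ} (h : ∀ p t, F p t < 2 ^ 112)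
    (h0 : ∀ p t, T ≤ t → F p t = 0) :
    Nat.land (Nat.shiftRight (pk (112 * T) H fun p => pk 112 T (F p)) (wd s)) (sm T H s) =
      pk (112 * T) H fun p => pk 112 T fun t => F p (t + s) := by
  have e : sm T H s = pk (112 * T) H fun _ => 2 ^ (112 * (T - s)) - 1 := by
    rw [sm, pk_const, ones_eq]
    rfl
  rcases le_total T s with c | c
  · rw [e, Nat.sub_eq_zero_of_le c, mul_zero, pow_zero, Nat.sub_self, pk_zero]
    exact (Nat.and_zero _).trans ((pk_congr fun p _ => (pk_congr fun t _ =>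
      h0 p _ (by omega)).trans (pk_zero _ _)).trans (pk_zero _ _)).symm
  rcases Nat.eq_zero_or_pos T with rfl | hT
  · rw [e, Nat.zero_sub, mul_zero, pow_zero, Nat.sub_self, pk_zero]
    exact (Nat.and_zero _).trans (pk_zero _ _).symm
  rw [e, and_pk (Or.inl (by omega)) fun _ _ => (Nat.sub_one_lt (by positivity)).trans_le
    (Nat.pow_le_pow_right two_pos (by omega))]
  refine pk_congr fun p hp => ?_
  have a := ln_pk (w := 112 * T) (n := H) (f := fun p => pk 112 T (F p))
    (fun p _ => pk_lt fun t _ => h p t) p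
  rw [if_pos hp, ln_eq] at a
  rw [← pk_shr (by omega) (h p) (h0 p), ← a, Nat.land_eq, Nat.and_two_pow_sub_one_eq_mod]
  generalize (pk (112 * T) H fun p => pk 112 T (F p)) = y
  change y >>> (112 * s) >>> (112 * T * p) % _ = (y >>> (112 * T * p) % _) >>> (112 * s)
  rw [← Nat.shiftRight_add, add_comm, Nat.shiftRight_add, Nat.shiftRight_eq_div_pow _ (112 * s),
    Nat.shiftRight_eq_div_pow _ (112 * s), show 112 * T = 112 * s + 112 * (T - s) by omega, pow_add,
    Nat.mod_mul_right_div_self]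

theorem allLt_iff {f : ℕ → Bool} : allLt n f = true ↔ ∀ i < n, f i = true := by
  induction n with
  | zero => simp [allLt]
  | succ n ih =>
    change (Bool.rec false (allLt n f) (f n) : Bool) = true ↔ _
    rw [Nat.forall_lt_succ_right, ← ih]
    cases f n <;> simp

theorem frc_eq (n : ℕ) (f : ℕ → Bool) : frc n f = f n := by cases n <;> rfl

end Pool.Agent.Lib.MP_4b1228_nt.PP.Lat
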