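import Pool.Agent.Lib.MP_4b1228_nt.PP.R4D

/-!
Tables with exact rows on the visible small boxes of cells that are visible only in part.
-/

open Finset Real
open scoped Classical

namespace Pool.Agent.Lib.MP_4b1228_nt.PP.R4

open R3

/-- The tables. `c cs j b` (`j = 0, 1`): coefficients on the cell `cs`, used when `on cs`. -/
structure Tab2 extends Tab where
  on : List ℕ → Bool
  c : List ℕ → ℕ → ℕ → ℤ

def Tab2.cc (t : Tab2) (cs : List ℕ) (j : ℕ) : ℕ → ℤ := fun b => if t.on cs then t.c cs j b else 0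

/-- The box `ks` of mesh `1 / m` is visible together with `j` small primes. -/
def Tab.visM (t : Tab) (j : ℕ) (ks : List ℕ) : Bool :=
  visB (t.m * t.Q) (ks.map (· + 1) ++ List.replicate j (t.m * t.Z)) 0 0

def Tab2.VC (t : Tab2) (cs : List ℕ) (δs : List ℤ) (ρ : ℕ) (δ : ℤ) : ℤ :=
  max 0 (m0 (t.cc cs 0) δs) + max 0 (m1 (t.cc cs 1) ρ δs δ)

def Tab2.V2 (t : Tab2) (cs : List ℕ) (δs : List ℤ) (ρ : ℕ) (δ : ℤ) : ℤ :=
  t.V cs δs ρ δ + t.VC cs δs ρ δ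

/-- The check at the vertices. -/
def Tab2.Lat2 (t : Tab2) (b : ℤ) : Prop :=
  ∀ (s : Finset ℕ) (c : ℕ → ℕ) (δ : ℕ → ℕ) (ρ δ₀ : ℕ), (∀ p ∈ s, t.Z ≤ c p ∧ c p < t.Θ ∧ δ p ≤ 1) →
    δ₀ ≤ 1 → ρ + δ₀ + ∑ p ∈ s, (c p + δ p) = 2 * t.Q →
    ∑ k ∈ range 4, tupL k (fun l => t.V2 (l.map c) (l.map fun p => (δ p : ℤ)) ρ δ₀) s ≤ b

noncomputable section

def Tab2.AC (t : Tab2) (ys : List ℝ) (r : ℝ) : ℝ :=
  ∑ j ∈ range 2, if t.visM j (ys.map fun y : ℝ => ⌊t.m * y⌋₊) then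
    r ^ j * (t.cc (ys.map fun y : ℝ => ⌊y⌋₊) j 0 +
      lin (t.cc (ys.map fun y : ℝ => ⌊y⌋₊) j) (ys.map fr) 1) else 0

def Tab2.GC (t : Tab2) (k : ℕ) : Cf := fun x S =>
  tupL k (fun l => t.AC (l.map x) (rr t.Z x S)) (t.big x S)

def Tab2.G2 (t : Tab2) : Cf := fun x S => t.G x S + ∑ k ∈ range 4, t.GC k x S

end

/-- The boxes of mesh `1 / m` in a cell. -/
def subs (m : ℕ) : List ℕ → List (List ℕ)
  | [] => [[]]
  | c :: cs => (List.range m).flatMap fun i => (subs m cs).map fun ks => (m * c + i) :: ks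

def Enc.linM (n : Enc) (m : ℕ) (co : ℕ → ℤ) : List ℕ → ℚ → ℚ → ℕ → ℚ
  | [], _, _, _ => 0
  | k :: ks, lo, hi, i =>
      bd (co i) (lo * n.ul m (k / m) k * (ks.map n.ll).prod)
          (hi * n.uu m (k / m) k * (ks.map n.lu).prod) +
        n.linM m co ks (lo * n.ll k) (hi * n.lu k) (i + 1)

/-- One box. -/
def Enc.boxM (n : Enc) (m : ℕ) (co : ℕ → ℤ) (ks : List ℕ) : ℚ :=
  bd (co 0) (ks.map n.ll).prod (ks.map n.lu).prod + n.linM m co ks 1 1 1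

def Tab2.vB (t : Tab2) (n : Enc) (cs : List ℕ) (j : ℕ) : ℚ :=
  momQ t.Z j * ((subs t.m cs).map fun ks =>
    if t.visM j ks then n.boxM t.m (t.c cs j) ks else 0).sum

def Tab2.vC (t : Tab2) (n : Enc) (k : ℕ) : ℚ :=
  ((cells t.Z t.Q k).map fun cs => if t.on cs then t.vB n cs 0 + t.vB n cs 1 else 0).sum

def MCStmt : Prop :=
  ∀ (t : Tab2) (n : Enc) (k : ℕ), t.Ok → n.OkL → k < 4 → RowQ t.Q (t.GC k) (t.vC n k)

def Pt2Stmt : Prop :=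
  ∀ (t : Tab2) (b : ℤ) (v θ : ℝ), t.Ok → t.Lat2 b → RowQ t.Q t.G2 v → (b : ℝ) < 60 * v →
    θ * t.Q < t.Θ → Cert3 θ

end Pool.Agent.Lib.MP_4b1228_nt.PP.R4
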