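import Pool.Agent.Lib.MP_4b1228_nt.PP.LatT
import Pool.Agent.Lib.MP_4b1228_nt.PP.R4b

/-! The check at the vertices for tables of affine weights. -/

namespace Pool.Agent.Lib.MP_4b1228_nt.PP.R4

open Finset PP.Lat

theorem visB_le {q : ℕ} (l : List ℕ) : ∀ M N, visB q l M N = true → 4 * (l.sum + M + N) ≤ 5 * q := by
  induction l with
  | nil => intro M N h; simp [visB] at h; simp; omega
  | cons b l ih =>
    intro M N h
    rw [List.sum_cons]
    rcases Bool.or_eq_true_iff.1 h with h | h <;> have := ih _ _ h <;> omega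

theorem m0_zero (us : List ℤ) : m0 (fun _ => 0) us = 0 := by
  have e : ∀ i, lin (fun _ => 0) us i = 0 := by induction us <;> simp [lin, *]
  simp [m0, e]

theorem m1_zero (us : List ℤ) (ρ : ℕ) (δ : ℤ) : m1 (fun _ => 0) ρ us δ = 0 := by
  have e : ∀ i, lin (fun _ => 0) us i = 0 ∧ sec (fun _ => 0) δ us i = 0 := by
    induction us <;> simp [lin, sec, *]
  simp [m1, e]

theorem m1_eq (co : ℕ → ℤ) (us : List ℤ) (ρ : ℕ) (δ : ℤ) :
    m1 co ρ us δ = m1 co 0 us δ + ρ * m0 co us := by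
  simp only [m1, m0]; push_cast; ring

namespace Tab2

variable (t : Tab2)

noncomputable section

def L : ℕ := max t.a₁ (5 * t.Q / 4)

/-- Pairs carry at most the factor `r`, triples carry no factor. -/
def Low : Prop := (∀ c d j, 2 ≤ j → t.e [c, d] j 0 = 0) ∧
  (∀ c d e b, (∀ j, 1 ≤ j → t.e [c, d, e] j b = 0) ∧ t.c [c, d, e] 1 b = 0) ∧
  ∀ cs, t.on cs = true → cs.sum < t.L

def cl (c : ℕ) : ℕ := Nat.add t.Z (Nat.div c 2)

def bt (c : ℕ) : ℤ := Int.ofNat (Nat.mod c 2)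

def W0 (l : List ℕ) : ℤ := m0 (t.co (l.map t.cl) 0) (l.map bt) + t.VH (l.map t.cl) (l.map bt) +
  max 0 (m0 (t.cc (l.map t.cl) 0) (l.map bt))

def WA (l : List ℕ) : ℤ :=
  m0 (t.co (l.map t.cl) 1) (l.map bt) + max 0 (m0 (t.cc (l.map t.cl) 1) (l.map bt))

def WB (δ : ℤ) (l : List ℕ) : ℤ := t.W0 l + (m1 (t.co (l.map t.cl) 1) 0 (l.map bt) δ +
  max 0 (m1 (t.cc (l.map t.cl) 1) 0 (l.map bt) δ)) - δ * t.WA l

/-- The tables for the symbol `δ` of the small part. -/
def zt (b : ℤ) (k δ : ℕ) : ZT where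
  C := 2 * (t.Θ - t.Z)
  tot := 2 * t.Q
  c1 := 2 * ((t.L + 1) / 2 - t.Z)
  c3 := 2 * ((t.L - t.Z + 1) / 2 - t.Z)
  k := k
  sz c := Nat.add t.Z (Nat.div (Nat.succ c) 2)
  lim r := Nat.pred (Nat.mul 2 (Nat.sub (Nat.succ r) t.Z))
  f0 r := if r < δ then -2 ^ (k + 30) else t.V2 [] [] (r - δ) δ - b
  f1 c r := if t.cl c + r ≤ 2 * t.Q then t.V2 [t.cl c] [bt c] (r - δ) δ else 0
  f2 c d := if c ≤ d ∧ t.cl c + t.cl d < t.L then t.WB δ [c, d] + t.WB δ [d, c] else 0
  fb c d := if c ≤ d ∧ t.cl c + t.cl d < t.L then t.WA [c, d] + t.WA [d, c] else 0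
  f3 c d e := if c ≤ d ∧ d ≤ e ∧ t.cl c + t.cl d + t.cl e < t.L then
    t.W0 [c, d, e] + t.W0 [c, e, d] + t.W0 [d, c, e] + t.W0 [d, e, c] + t.W0 [e, c, d] +
      t.W0 [e, d, c] else 0

end

theorem far (hl : t.Low) {c : ℕ} {l : List ℕ} (h : t.L ≤ ((c :: l).map t.cl).sum) (δ : ℤ) :
    t.W0 (c :: l) = 0 ∧ t.WA (c :: l) = 0 ∧ t.WB δ (c :: l) = 0 := by
  have e0 : ∀ j, t.cc ((c :: l).map t.cl) j = fun _ => 0 := fun j =>
    funext fun b => if_neg fun e => (hl.2.2 _ e).not_ge h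
  rw [L, max_le_iff] at h
  have e1 : ∀ j, t.co ((c :: l).map t.cl) j = fun _ => 0 := fun j =>
    funext fun b => if_neg fun e => by
      have := visB_le _ _ _ e
      rw [List.sum_append, List.sum_map_add, List.map_id', List.map_const', List.length_map,
        List.length_cons, List.replicate_succ, List.sum_cons] at this
      omega
  have e2 : ∀ o, t.hm ((c :: l).map t.cl) ((c :: l).map bt) o = 0 := fun o => by
    induction o with
    | zero => exact if_neg (by omega)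
    | succ o ih => rw [Tab.hm, ih, Tab.hv, if_neg (by omega), max_self]
  simp only [WB, W0, WA, Tab.VH, e0, e1, e2, m0_zero, m1_zero]
  simp

theorem V_two (h : t.Low) (c d ρ δ : ℕ) : t.V2 [t.cl c, t.cl d] [bt c, bt d] ρ δ ≤
    t.WB δ [c, d] + (ρ + δ : ℕ) * t.WA [c, d] := by
  have e2 : ∀ j, 2 ≤ j → t.co [t.cl c, t.cl d] j 0 = 0 := fun j hj => by
    simp [Tab.co, h.1 _ _ j hj]
  simp only [V2, VC, Tab.V, Tab.VE, Tab.VS, WB, W0, WA, List.map_cons, List.map_nil, e2 2 le_rfl,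
    e2 3 (by omega), m1_eq _ _ ρ]
  have := mul_le_mul_of_nonneg_left (le_max_right 0 (m0 (t.cc [t.cl c, t.cl d] 1) [bt c, bt d]))
    (Int.natCast_nonneg ρ)
  have := mul_nonneg (Int.natCast_nonneg ρ)
    (le_max_left 0 (m0 (t.cc [t.cl c, t.cl d] 1) [bt c, bt d]))
  have : m23 0 0 ρ (δ : ℤ) = 0 := by simp [m23, q2, q3]
  push_cast
  rcases le_total 0 (m1 (t.cc [t.cl c, t.cl d] 1) 0 [bt c, bt d] δ) with e | e <;>
    simp only [max_eq_left e, max_eq_right e] <;> rw [← le_sub_iff_add_le', ← le_sub_iff_add_le',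
      max_le_iff] <;> constructor <;> linarith

theorem V_three (h : t.Low) (c d e ρ : ℕ) (δ : ℤ) :
    t.V2 [t.cl c, t.cl d, t.cl e] [bt c, bt d, bt e] ρ δ = t.W0 [c, d, e] := by
  have e1 : ∀ j, 1 ≤ j → t.co [t.cl c, t.cl d, t.cl e] j = fun _ => 0 := fun j hj =>
    funext fun b => by simp [Tab.co, (h.2.1 _ _ _ b).1 j hj]
  have e2 : t.cc [t.cl c, t.cl d, t.cl e] 1 = fun _ => 0 :=
    funext fun b => by simp [cc, (h.2.1 _ _ _ b).2]
  simp [V2, VC, Tab.V, W0, Tab.VE, Tab.VS, m1_zero, m23, q2, q3, e1, e2]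

/-- The kernel check gives the check at the vertices. -/
theorem lat (h : t.Low) {b : ℤ} {k : ℕ}
    (h1 : ∀ δ ≤ 1, (t.zt b k δ).ok = true ∧ (t.zt b k δ).run 0 (2 * (t.Θ - t.Z)) = true) :
    t.Lat2 b := by
  intro s c δ ρ δ₀ hs h0 hr
  let x : ℕ → ℕ := fun p => 2 * (c p - t.Z) + δ p
  have x1 : ∀ p ∈ s, c p = t.cl (x p) := fun p hp => by
    have := hs p hp
    change _ = t.Z + (2 * (c p - t.Z) + δ p) / 2
    omega
  have x2 : ∀ p ∈ s, (δ p : ℤ) = bt (x p) := fun p hp => by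
    have := hs p hp
    change _ = (((2 * (c p - t.Z) + δ p) % 2 : ℕ) : ℤ)
    omega
  have cl1 : ∀ c, t.cl c = t.Z + c / 2 := fun _ => rfl
  have := (t.zt b k δ₀).sound (h1 _ h0).1 (h1 _ h0).2 (r := ρ + δ₀) (a0 := t.V2 [] [] ρ δ₀ - b)
    (a1 := fun c => (t.zt b k δ₀).f1 c (ρ + δ₀))
    (a2 := fun c d => t.V2 [t.cl c, t.cl d] [bt c, bt d] ρ δ₀)
    (a3 := fun c d e => t.V2 [t.cl c, t.cl d, t.cl e] [bt c, bt d, bt e] ρ δ₀)
    (by simp [zt]) (fun _ _ => le_rfl) (fun d _ c hc => ?_) (fun e _ d hd c hc => ?_) x s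
    (fun p hp => by have := hs p hp; change 2 * (c p - t.Z) + δ p < 2 * (t.Θ - t.Z); omega)
    (Eq.trans (congrArg _ (sum_congr rfl fun p hp => by
      have := hs p hp
      change t.Z + (2 * (c p - t.Z) + δ p + 1) / 2 = _
      omega)) hr)
  · rw [sub_add_eq_add_sub, sub_nonpos] at this
    refine le_trans (le_of_eq ?_) this
    simp only [sum_range_succ, range_zero, sum_empty, tupL, List.map_cons, List.map_nil,
      sum_add_distrib, zero_add, add_assoc]
    congr 2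
    · refine sum_congr rfl fun p hp => ?_
      have := single_le_sum (f := fun p => c p + δ p) (fun _ _ => Nat.zero_le _) hp
      rw [x2 p hp, zt]
      simp only [← x1 p hp]
      rw [if_pos (by omega), Nat.add_sub_cancel]
    · congr 1
      · exact sum_congr rfl fun p hp => sum_congr rfl fun q hq => by
          rw [x1 p hp, x2 p hp, x1 q (mem_of_mem_erase hq), x2 q (mem_of_mem_erase hq)]
      · exact sum_congr rfl fun p hp => sum_congr rfl fun q hq => sum_congr rfl fun u hu => by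
          have hu := mem_of_mem_erase (mem_of_mem_erase hu)
          rw [x1 p hp, x2 p hp, x1 q (mem_of_mem_erase hq), x2 q (mem_of_mem_erase hq), x1 u hu,
            x2 u hu]
  · refine (add_le_add (t.V_two h c d ρ δ₀) (t.V_two h d c ρ δ₀)).trans ?_
    by_cases e : t.cl c + t.cl d < t.L
    · refine le_of_le_of_eq ?_ (if_pos (show c < 2 * ((t.L + 1) / 2 - t.Z) by
        have := cl1 c; have := cl1 d; omega)).symm
      simp only [zt, if_pos (And.intro hc e)]
      exact le_of_eq (by ring)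
    · have := t.far h (c := c) (l := [d]) (by simp; omega) δ₀
      have := t.far h (c := d) (l := [c]) (by simp; omega) δ₀
      simp [zt, *]
  · simp only [t.V_three h]
    by_cases e' : t.cl c + t.cl d + t.cl e < t.L
    · refine le_of_le_of_eq ?_ (if_pos (show c < 2 * ((t.L + 1) / 2 - t.Z) ∧
        d < 2 * ((t.L - t.Z + 1) / 2 - t.Z) by
          have := cl1 c; have := cl1 d; have := cl1 e; omega)).symm
      exact (if_pos ⟨hc, hd, e'⟩).ge
    · have z : ∀ x y z, t.cl x + t.cl y + t.cl z = t.cl c + t.cl d + t.cl e → t.W0 [x, y, z] = 0 :=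
        fun x y z e => (t.far h (by simp; omega) 0).1
      rw [z c d e rfl, z c e d (by omega), z d c e (by omega), z d e c (by omega),
        z e c d (by omega), z e d c (by omega)]
      simp [zt, e']

end Tab2

end Pool.Agent.Lib.MP_4b1228_nt.PP.R4
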