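import Pool.Agent.Lib.MP_4b1228_nt.PP.LatP

/-! Soundness of the lattice check. -/

namespace Pool.Agent.Lib.MP_4b1228_nt.PP.Lat

open Finset

/-- Tables of values. -/
structure Tab (α : Type) where
  e0 : ℕ → α
  (e1 e2 eb eh : ℕ → ℕ → α)
  e3 : ℕ → ℕ → ℕ → α

namespace Tab

variable {α β : Type} [AddCommMonoid α] [AddCommMonoid β] (T : Tab α) (sz : ℕ → ℕ)

def ps : List ℕ → ℕ → ℕ → α
  | [], p, t => T.eh p t
  | d :: l, p, t => ps l p t + ps l p (t + sz d)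

def ph : List ℕ → ℕ → α
  | [], _ => 0
  | d :: l, t => ph l t + ph l (t + sz d) + T.ps sz l d t

def m : List ℕ → ℕ → ℕ → α
  | [], _, _ => 0
  | e :: l, c, d => m l c d + T.e3 c d e

def q : List ℕ → ℕ → α
  | [], _ => 0
  | d :: l, c => q l c + T.e2 c d + T.m l c d

def qb : List ℕ → ℕ → α
  | [], _ => 0
  | d :: l, c => qb l c + T.eb c d

def v : List ℕ → ℕ → α
  | [], r => T.e0 r
  | c :: l, r => v l r + T.e1 c r

def s : List ℕ → α
  | [] => 0
  | c :: l => s l + T.q l c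

def sb : List ℕ → α
  | [] => 0
  | c :: l => sb l + T.qb l c

def val (l : List ℕ) (r : ℕ) : α := T.s l + r • T.sb l + (T.v l r + T.ph sz l 0)

def map (f : α → β) : Tab β :=
  ⟨fun r => f (T.e0 r), fun c r => f (T.e1 c r), fun c d => f (T.e2 c d), fun c d => f (T.eb c d),
    fun p t => f (T.eh p t), fun c d e => f (T.e3 c d e)⟩

theorem map_all (f : α →+ β) (l : List ℕ) :
    (∀ p t, (T.map f).ps sz l p t = f (T.ps sz l p t)) ∧
    (∀ t, (T.map f).ph sz l t = f (T.ph sz l t)) ∧ (∀ c d, (T.map f).m l c d = f (T.m l c d)) ∧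
    (∀ c, (T.map f).q l c = f (T.q l c)) ∧ (∀ c, (T.map f).qb l c = f (T.qb l c)) ∧
    (∀ r, (T.map f).v l r = f (T.v l r)) ∧ (T.map f).s l = f (T.s l) ∧
    (T.map f).sb l = f (T.sb l) := by
  induction l with
  | nil => simp [ps, ph, m, q, qb, v, s, sb, map]
  | cons d l ih =>
    obtain ⟨a, b, c, e, g, h, i, j⟩ := ih
    simp only [ps, ph, m, q, qb, v, s, sb, a, b, c, e, g, h, i, j, map_add]
    simp [map]

theorem map_val (f : α →+ β) (l : List ℕ) (r : ℕ) :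
    (T.map f).val sz l r = f (T.val sz l r) := by
  obtain ⟨-, b, -, -, -, h, i, j⟩ := T.map_all sz f l
  simp only [val, b, h, i, j, map_add, map_nsmul]

/-- All entries are at most `E`. -/
def Bd (T : Tab ℕ) (E : ℕ) : Prop :=
  (∀ r, T.e0 r ≤ E) ∧ ∀ c d, T.e1 c d ≤ E ∧ T.e2 c d ≤ E ∧ T.eb c d ≤ E ∧ T.eh c d ≤ E ∧
    ∀ e, T.e3 c d e ≤ E

theorem bd_all {T : Tab ℕ} {E : ℕ} (h : T.Bd E) (l : List ℕ) :
    (∀ p t, T.ps sz l p t ≤ 4 ^ l.length * E) ∧ (∀ t, T.ph sz l t ≤ 4 ^ l.length * E) ∧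
    (∀ c d, T.m l c d ≤ 4 ^ l.length * E) ∧ (∀ c, T.q l c ≤ 4 ^ l.length * E) ∧
    (∀ c, T.qb l c ≤ 4 ^ l.length * E) ∧ (∀ r, T.v l r ≤ 4 ^ l.length * E) ∧
    T.s l ≤ 4 ^ l.length * E ∧ T.sb l ≤ 4 ^ l.length * E := by
  induction l with
  | nil => simp [ps, ph, m, q, qb, v, s, sb, h.1, h.2]
  | cons d l ih =>
    obtain ⟨a, b, c, e, g, k, i, j⟩ := ih
    have z : E ≤ 4 ^ l.length * E := Nat.le_mul_of_pos_left _ (by positivity)
    rw [List.length_cons, pow_succ, mul_right_comm]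
    generalize 4 ^ l.length * E = B at *
    refine ⟨fun p t => ?_, fun t => ?_, fun x y => ?_, fun x => ?_, fun x => ?_, fun x => ?_,
      ?_, ?_⟩
    · have := a p t; have := a p (t + sz d); rw [ps]; omega
    · have := b t; have := b (t + sz d); have := a d t; rw [ph]; omega
    · have := c x y; have := (h.2 x y).2.2.2.2 d; rw [m]; omega
    · have := e x; have := c x d; have := (h.2 x d).2.1; rw [q]; omega
    · have := g x; have := (h.2 x d).2.2.1; rw [qb]; omega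
    · have := k x; have := (h.2 d x).1; rw [v]; omega
    · have := e d; rw [s]; omega
    · have := g d; rw [sb]; omega

theorem zero_all {c1 c3 ch th : ℕ} (h2 : ∀ c d, c1 ≤ c → T.e2 c d = 0 ∧ T.eb c d = 0)
    (h3 : ∀ c d e, c1 ≤ c ∨ c3 ≤ d → T.e3 c d e = 0)
    (hh : ∀ p t, ch ≤ p ∨ th ≤ t → T.eh p t = 0) (l : List ℕ) :
    (∀ p t, ch ≤ p ∨ th ≤ t → T.ps sz l p t = 0) ∧ (∀ t, th ≤ t → T.ph sz l t = 0) ∧
    (∀ c d, c1 ≤ c ∨ c3 ≤ d → T.m l c d = 0) ∧ (∀ c, c1 ≤ c → T.q l c = 0) ∧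
    ∀ c, c1 ≤ c → T.qb l c = 0 := by
  induction l with
  | nil => exact ⟨hh, fun _ _ => rfl, fun _ _ _ => rfl, fun _ _ => rfl, fun _ _ => rfl⟩
  | cons d l ih =>
    obtain ⟨a, b, c, e, g⟩ := ih
    refine ⟨fun p t h => ?_, fun t h => ?_, fun x y h => ?_, fun x h => ?_, fun x h => ?_⟩
    · rw [ps, a p t h, a p _ (by omega), add_zero]
    · rw [ph, b t h, b _ (by omega), a d t (by omega), add_zero, add_zero]
    · rw [m, c x y h, h3 x y d h, add_zero]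
    · rw [q, e x h, (h2 x d h).1, c x d (by omega), add_zero, add_zero]
    · rw [qb, g x h, (h2 x d h).2, add_zero]

end Tab

/-- The tables of `p`, read through `g`. -/
def Par.tab {α : Type} [Zero α] (p : Par) (g : ℕ → α) : Tab α where
  e0 r := g (en p.k0 r)
  e1 c r := g (en p.k1 ((p.tot + 1) * c + r))
  e2 c d := if c < p.c1 then g (en p.k2 (p.c1 * d + c)) else 0
  eb c d := if c < p.c1 then g (en p.kb (p.c1 * d + c)) else 0
  eh c t := if c < p.ch ∧ t < p.th then g (en p.kh (p.th * c + t)) else 0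
  e3 c d e := if c < p.c1 ∧ d < p.c3 then g (en p.k3 (p.c1 * p.c3 * e + (p.c1 * d + c))) else 0

theorem Par.tab_map {α β : Type} [AddCommMonoid α] [AddCommMonoid β] (p : Par) (g : ℕ → α)
    (f : α →+ β) : (p.tab g).map f = p.tab fun y => f (g y) := by
  simp only [Par.tab, Tab.map, apply_ite f, map_zero]

theorem Par.tab_bd (p : Par) {g : ℕ → ℕ} {E : ℕ} (h : ∀ x i, g (en x i) ≤ E) : (p.tab g).Bd E := by
  refine ⟨fun _ => h _ _, fun c d => ⟨h _ _, ?_, ?_, ?_, fun e => ?_⟩⟩ <;> simp only [Par.tab] <;>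
    split_ifs <;> first | exact h _ _ | exact Nat.zero_le _

/-- The number that an entry stands for. -/
noncomputable def ev (y : ℕ) : ℝ := (y % 2 ^ 60 : ℕ) - (y / 2 ^ 60 : ℕ)

theorem test_val (p : Par) {l : List ℕ} {r : ℕ} (hl : l.length ≤ 10) (hr : r ≤ 255)
    (h : test ((p.tab id).val p.sz l r) = true) : (p.tab ev).val p.sz l r ≤ 0 := by
  let g : ℕ → ℕ × ℕ := fun y => (y % 2 ^ 60, y / 2 ^ 60)
  let f1 : ℕ × ℕ →+ ℕ := ⟨⟨fun z => z.1 + 2 ^ 60 * z.2, rfl⟩, fun a b => by simp; ring⟩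
  let f2 : ℕ × ℕ →+ ℝ := ⟨⟨fun z => z.1 - z.2, by simp⟩, fun a b => by simp; ring⟩
  have e1 : p.tab id = (p.tab g).map f1 := by
    rw [p.tab_map]
    exact congrArg _ (funext fun y => (Nat.mod_add_div y _).symm)
  have e2 : p.tab ev = (p.tab g).map f2 := (p.tab_map g f2).symm
  have b := Tab.bd_all p.sz (E := 2 ^ 30) (p.tab_bd (g := fun y => y % 2 ^ 60) fun x i => by
    rw [en, Nat.land_eq, Nat.and_mod_two_pow]
    exact Nat.and_le_right.trans (by decide)) l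
  have e3 := Tab.map_val (p.tab g) p.sz (AddMonoidHom.fst ℕ ℕ) l r
  rw [p.tab_map] at e3
  have z : 4 ^ l.length * 2 ^ 30 ≤ 2 ^ 50 :=
    (Nat.mul_le_mul_right _ (Nat.pow_le_pow_right (by omega) hl)).trans (by decide)
  obtain ⟨-, b1, -, -, -, b2, b3, b4⟩ := b
  have lo : ((p.tab g).val p.sz l r).1 < 2 ^ 60 := by
    have := b1 0
    have := b2 r
    have := Nat.mul_le_mul hr (b4.trans z)
    refine lt_of_eq_of_lt e3.symm ?_
    change (p.tab fun y => y % 2 ^ 60).s l + r * (p.tab fun y => y % 2 ^ 60).sb l +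
      ((p.tab fun y => y % 2 ^ 60).v l r + (p.tab fun y => y % 2 ^ 60).ph p.sz l 0) < _
    omega
  rw [e1, Tab.map_val] at h
  rw [e2, Tab.map_val]
  generalize (p.tab g).val p.sz l r = y at h lo
  have h' : (y.1 + 2 ^ 60 * y.2) &&& (2 ^ 60 - 1) ≤ (y.1 + 2 ^ 60 * y.2) >>> 60 :=
    Nat.le_of_ble_eq_true h
  rw [Nat.and_two_pow_sub_one_eq_mod, Nat.shiftRight_eq_div_pow] at h'
  exact sub_nonpos.2 (Nat.cast_le.2 (by omega))

/-- The search at the node `l`. -/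
noncomputable def Par.at (p : Par) (fuel cur rem : ℕ) (l : List ℕ) : Bool :=
  p.go fuel cur rem ((p.tab id).s l) ((p.tab id).sb l) (pk 112 (p.tot + 1) ((p.tab id).v l))
    (pk 112 p.c1 ((p.tab id).q l)) (pk 112 p.c1 ((p.tab id).qb l))
    (pk (112 * p.c1) p.c3 fun d => pk 112 p.c1 fun c => (p.tab id).m l c d)
    (pk 112 p.th ((p.tab id).ph p.sz l))
    (pk (112 * p.th) p.ch fun c => pk 112 p.th ((p.tab id).ps p.sz l c))

theorem Par.step (p : Par) {fuel cur rem : ℕ} {l : List ℕ} (hl : l.length ≤ 10) (hr : rem ≤ p.tot)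
    (h : p.at (fuel + 1) cur rem l = true) : test ((p.tab id).val p.sz l rem) = true ∧
      ∀ c < cur, c < p.lim rem → p.at fuel (c + 1) (rem - p.sz c) (c :: l) = true := by
  have z : 4 ^ l.length * em < 2 ^ 112 :=
    (Nat.mul_le_mul_right _ (Nat.pow_le_pow_right (by omega) hl)).trans_lt (by decide)
  obtain ⟨b1, b2, b3, b4, b5, b6, -, -⟩ :=
    Tab.bd_all p.sz (E := em) (p.tab_bd (g := id) fun _ _ => Nat.and_le_right) l
  obtain ⟨z1, z2, z3, z4, z5⟩ := (p.tab id).zero_all p.sz (c1 := p.c1) (c3 := p.c3) (ch := p.ch)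
    (th := p.th) (fun c d h => ⟨if_neg h.not_gt, if_neg h.not_gt⟩)
    (fun c d e h => if_neg (by omega)) (fun c t h => if_neg (by omega)) l
  have a : ∀ {x y : Bool}, (Bool.rec false x y : Bool) = true → y = true ∧ x = true := by decide
  obtain ⟨h1, h2⟩ := a h
  refine ⟨?_, fun c c1 c2 => ?_⟩
  · rwa [ln_pk (fun i _ => (b6 i).trans_lt z), if_pos (by omega),
      ln_pk' (fun i _ => (b2 i).trans_lt z) z2] at h1
  have h3 := allLt_iff.1 h2 c (by simp only [Nat.sub_eq]; omega)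
  rw [frc_eq, ln_pk' (fun i _ => (b4 i).trans_lt z) z4, ln_pk' (fun i _ => (b5 i).trans_lt z) z5,
    row_eq, row_eq, row_eq, mat_eq, shr_sm (fun c t => (b1 c t).trans_lt z)
      fun c t h => z1 c t (Or.inr h)] at h3
  simp only [wd, Nat.mul_eq] at h3
  rw [pk_shr (by omega) (fun i => (b2 i).trans_lt z) z2,
    ln_pk' (fun d _ => pk_lt fun i _ => (b3 i d).trans_lt z)
      (fun d h => (pk_congr fun i _ => z3 i d (Or.inr h)).trans (pk_zero _ _)),
    ln_pk' (fun d _ => pk_lt fun i _ => (b1 d i).trans_lt z)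
      (fun d h => (pk_congr fun i _ => z1 d i (Or.inl h)).trans (pk_zero _ _))] at h3
  have pa : ∀ w n f g, pk w n f + pk w n g = _ := pk_add
  simp only [Nat.succ_eq_add_one, Nat.add_eq, pa] at h3
  refine Eq.trans ?_ h3
  change p.go fuel (c + 1) _ _ _ _ _ _ _ _ _ = p.go fuel (c + 1) _ _ _ _ _ _ _ _ _
  congr 1
  · exact pk_congr fun i h => congrArg (_ + · + _) (if_pos h)
  · exact pk_congr fun i h => congrArg (_ + ·) (if_pos h)
  · exact pk_congr fun d h => pk_congr fun i h' => congrArg (_ + ·) (if_pos ⟨h', h⟩)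

theorem Par.ext (p : Par) (hl : ∀ c < p.C, ∀ r ≤ p.tot, p.sz c ≤ r → c < p.lim r) (ht : p.tot ≤ 255)
    (r : ℕ) (e : List ℕ) : ∀ (l : List ℕ) (fuel cur rem : ℕ), l.length + fuel ≤ 11 → rem ≤ p.tot →
      cur ≤ p.C → p.at fuel cur rem l = true → e.Pairwise (· ≥ ·) → (∀ c ∈ e, c < cur) →
      r + (e.map p.sz).sum = rem → (p.tab ev).val p.sz (e.reverseAux l) r ≤ 0 := by
  induction e with
  | nil =>
    intro l fuel cur rem h1 h2 _ h4 _ _ h7
    obtain rfl : r = rem := h7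
    cases fuel with
    | zero => exact absurd h4 Bool.false_ne_true
    | succ n => exact test_val p (l := l) (by omega) (by omega) (p.step (by omega) h2 h4).1
  | cons c e ih =>
    intro l fuel cur rem h1 h2 h3 h4 h5 h6 h7
    rw [List.map_cons, List.sum_cons] at h7
    have hc := h6 c List.mem_cons_self
    cases fuel with
    | zero => exact absurd h4 Bool.false_ne_true
    | succ n =>
      exact ih (c :: l) n (c + 1) (rem - p.sz c) (by rw [List.length_cons]; omega) (by omega)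
        (by omega) ((p.step (by omega) h2 h4).2 c hc (hl c (by omega) rem h2 (by omega)))
        (List.pairwise_cons.1 h5).2
        (fun d hd => Nat.lt_succ_of_le ((List.pairwise_cons.1 h5).1 d hd)) (by omega)

theorem Par.list (p : Par) (h1 : p.top = true) (h2 : ∀ c < p.C, p.run c = true) {l : List ℕ}
    {r : ℕ} (hs : l.Pairwise (· ≤ ·)) (hc : ∀ c ∈ l, c < p.C)
    (hr : r + (l.map p.sz).sum = p.tot) : (p.tab ev).val p.sz l r ≤ 0 := by
  have a : ∀ {x y : Bool}, (Bool.rec false x y : Bool) = true → y = true ∧ x = true := by decide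
  obtain ⟨t1, t2⟩ := a h1
  obtain ⟨t2, t3⟩ := a t2
  have hl : ∀ c < p.C, ∀ r ≤ p.tot, p.sz c ≤ r → c < p.lim r := fun c c1 r c2 c3 => by
    have := allLt_iff.1 (allLt_iff.1 t3 c c1) r (Nat.lt_succ_of_le c2)
    rw [Nat.ble_eq_true_of_le c3] at this
    exact Nat.blt_eq.mp this
  have : p.at 11 p.C p.tot [] = true := by
    have e1 : row p.k0 (p.tot + 1) 0 = pk 112 (p.tot + 1) ((p.tab id).v []) :=
      (row_eq _ _ _).trans (pk_congr fun i _ => congrArg _ (Nat.zero_add i))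
    have e2 : mat p.kh p.th p.ch 0 =
        pk (112 * p.th) p.ch fun c => pk 112 p.th ((p.tab id).ps p.sz [] c) :=
      (mat_eq _ _ _ _).trans (pk_congr fun c h => pk_congr fun t h' =>
        (congrArg _ (Nat.zero_add _)).trans (if_pos ⟨h, h'⟩).symm)
    have e3 : (pk (112 * p.c1) p.c3 fun _ => pk 112 p.c1 fun _ => 0) = 0 := by
      simp only [pk_zero]
    change p.go 11 p.C p.tot 0 0 _ (pk _ _ fun _ => 0) (pk _ _ fun _ => 0)
      (pk _ _ fun _ => pk _ _ fun _ => 0) (pk _ _ fun _ => 0) _ = true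
    rw [← e1, ← e2, e3, pk_zero, pk_zero]
    change (Bool.rec false (allLt (p.C - (p.C - p.lim p.tot)) p.run) (test _) : Bool) = true
    rw [t2]
    exact allLt_iff.2 fun c h => h2 c (by omega)
  have := p.ext hl (Nat.le_of_ble_eq_true t1) r l.reverse [] 11 p.C p.tot le_rfl le_rfl le_rfl this
    (List.pairwise_reverse.2 hs) (by simpa using hc) (by simpa using hr)
  rwa [List.reverseAux_eq, List.reverse_reverse, List.append_nil] at this

section
variable {ι : Type} [DecidableEq ι] {a : ι} {s : Finset ι}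

theorem sum_two (h : a ∉ s) (f : ι → Finset ι → ℝ) :
    ∑ p ∈ insert a s, f p ((insert a s).erase p) = f a s + ∑ p ∈ s, f p (insert a (s.erase p)) := by
  rw [sum_insert h, erase_insert h]
  exact congrArg _ (sum_congr rfl fun p hp => by
    rw [erase_insert_of_ne fun e : a = p => h (e ▸ hp)])

theorem not_mem_er (h : a ∉ s) (p : ι) : a ∉ s.erase p := fun e => h (mem_of_mem_erase e)

end

/-- The value of a configuration of classes. -/
noncomputable def cf {ι : Type} [DecidableEq ι] (sz : ℕ → ℕ) (a0 : ℝ) (a1 : ℕ → ℝ)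
    (a2 he : ℕ → ℕ → ℝ) (a3 : ℕ → ℕ → ℕ → ℝ) (x : ι → ℕ) (s : Finset ι) : ℝ :=
  a0 + ∑ p ∈ s, (a1 (x p) + ∑ q ∈ s.erase p, (a2 (x p) (x q) +
    ∑ u ∈ (s.erase p).erase q, a3 (x p) (x q) (x u)) +
      ∑ K ∈ (s.erase p).powerset, he (x p) (∑ q ∈ K, sz (x q)))

theorem cf_le {ι : Type} [DecidableEq ι] (T : Tab ℝ) (sz : ℕ → ℕ) (C r : ℕ) {a1 : ℕ → ℝ}
    {a2 he : ℕ → ℕ → ℝ} {a3 : ℕ → ℕ → ℕ → ℝ} (h1 : ∀ c < C, a1 c ≤ T.e1 c r)
    (h2 : ∀ d < C, ∀ c ≤ d, a2 c d + a2 d c ≤ T.e2 c d + r * T.eb c d)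
    (h3 : ∀ e < C, ∀ d ≤ e, ∀ c ≤ d, a3 c d e + a3 c e d + a3 d c e + a3 d e c + a3 e c d +
      a3 e d c ≤ T.e3 c d e) (hh : ∀ c < C, ∀ t, he c t ≤ T.eh c t) (x : ι → ℕ) (s : Finset ι) :
    (∀ p ∈ s, x p < C) → ∃ l : List ℕ, l.Pairwise (· ≤ ·) ∧ (∀ c ∈ l, ∃ p ∈ s, x p = c) ∧
    (l.map sz).sum = ∑ p ∈ s, sz (x p) ∧
    (∀ c < C, ∀ t, ∑ K ∈ s.powerset, he c (t + ∑ q ∈ K, sz (x q)) ≤ T.ps sz l c t) ∧
    (∀ t, ∑ p ∈ s, ∑ K ∈ (s.erase p).powerset, he (x p) (t + ∑ q ∈ K, sz (x q)) ≤ T.ph sz l t) ∧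
    (∀ c d, c ≤ d → (∀ p ∈ s, d ≤ x p) → ∑ p ∈ s, (a3 c d (x p) + a3 c (x p) d + a3 d c (x p) +
      a3 d (x p) c + a3 (x p) c d + a3 (x p) d c) ≤ T.m l c d) ∧
    (∀ c, (∀ p ∈ s, c ≤ x p) → ∑ p ∈ s, (a2 c (x p) + a2 (x p) c + ∑ q ∈ s.erase p,
      (a3 c (x p) (x q) + a3 (x p) c (x q) + a3 (x p) (x q) c)) ≤ T.q l c + r * T.qb l c) ∧
    T.e0 r + ∑ p ∈ s, a1 (x p) ≤ T.v l r ∧
    ∑ p ∈ s, ∑ q ∈ s.erase p, (a2 (x p) (x q) + ∑ u ∈ (s.erase p).erase q, a3 (x p) (x q) (x u)) ≤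
      T.s l + r * T.sb l := by
  refine induction_on_min_value x s (fun _ => ⟨[], ?_⟩) fun a s ha hm ih hx => ?_
  · simpa [Tab.ps, Tab.ph, Tab.m, Tab.q, Tab.qb, Tab.v, Tab.s, Tab.sb] using hh
  obtain ⟨l, i1, i2, i3, i4, i5, i6, i7, i8, i9⟩ := ih fun p hp => hx p (mem_insert_of_mem hp)
  have hc := hx a (mem_insert_self _ _)
  have pw : ∀ {s : Finset ι}, a ∉ s → ∀ c t, ∑ K ∈ (insert a s).powerset,
      he c (t + ∑ q ∈ K, sz (x q)) = ∑ K ∈ s.powerset, he c (t + ∑ q ∈ K, sz (x q)) +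
      ∑ K ∈ s.powerset, he c (t + sz (x a) + ∑ q ∈ K, sz (x q)) := fun h c t => by
    rw [sum_powerset_insert h]
    exact congrArg _ (sum_congr rfl fun K hK => by
      rw [sum_insert fun e => h (mem_powerset.1 hK e), add_assoc])
  refine ⟨x a :: l, List.pairwise_cons.2 ⟨fun c h => ?_, i1⟩, fun c h => ?_, ?_, fun c h t => ?_,
    fun t => ?_, fun c d h h' => ?_, fun c h => ?_, ?_, ?_⟩
  · obtain ⟨p, hp, rfl⟩ := i2 c h
    exact hm p hp
  · rcases List.mem_cons.1 h with rfl | h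
    · exact ⟨a, mem_insert_self _ _, rfl⟩
    · exact (i2 c h).imp fun p hp => ⟨mem_insert_of_mem hp.1, hp.2⟩
  · rw [List.map_cons, List.sum_cons, sum_insert ha, i3]
  · rw [pw ha, Tab.ps]
    exact add_le_add (i4 c h t) (i4 c h _)
  · rw [sum_two ha fun p S => ∑ K ∈ S.powerset, he (x p) (t + ∑ q ∈ K, sz (x q)), Tab.ph]
    simp only [pw (not_mem_er ha _), sum_add_distrib]
    linarith [i5 t, i5 (t + sz (x a)), i4 _ hc t]
  · rw [sum_insert ha, Tab.m]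
    linarith [i6 c d h fun p hp => h' p (mem_insert_of_mem hp),
      h3 _ hc d (h' a (mem_insert_self _ _)) c h]
  · have e := h a (mem_insert_self _ _)
    have b1 := i7 c fun p hp => h p (mem_insert_of_mem hp)
    have b2 := i6 c _ e hm
    rw [sum_two ha fun p S => a2 c (x p) + a2 (x p) c + ∑ q ∈ S,
      (a3 c (x p) (x q) + a3 (x p) c (x q) + a3 (x p) (x q) c), Tab.q, Tab.qb]
    simp only [sum_insert (not_mem_er ha _), sum_add_distrib] at b1 b2 ⊢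
    linarith [h2 _ hc c e]
  · rw [sum_insert ha, Tab.v]
    linarith [h1 _ hc]
  · have b1 := i7 _ hm
    rw [sum_two ha fun p S => ∑ q ∈ S,
      (a2 (x p) (x q) + ∑ u ∈ S.erase q, a3 (x p) (x q) (x u)), Tab.s, Tab.sb]
    simp only [fun p => sum_two (not_mem_er ha p) fun q S =>
      a2 (x p) (x q) + ∑ u ∈ S, a3 (x p) (x q) (x u),
      sum_insert (not_mem_er (not_mem_er ha _) _), sum_add_distrib] at b1 i9 ⊢
    linarith

/-- Soundness of the check. -/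
theorem Par.sound (p : Par) (h1 : p.top = true) (h2 : ∀ c < p.C, p.run c = true) {r : ℕ} {a0 : ℝ}
    {a1 : ℕ → ℝ} {a2 he : ℕ → ℕ → ℝ} {a3 : ℕ → ℕ → ℕ → ℝ} (b0 : a0 ≤ (p.tab ev).e0 r)
    (b1 : ∀ c < p.C, a1 c ≤ (p.tab ev).e1 c r)
    (b2 : ∀ d < p.C, ∀ c ≤ d, a2 c d + a2 d c ≤ (p.tab ev).e2 c d + r * (p.tab ev).eb c d)
    (b3 : ∀ e < p.C, ∀ d ≤ e, ∀ c ≤ d, a3 c d e + a3 c e d + a3 d c e + a3 d e c + a3 e c d +
      a3 e d c ≤ (p.tab ev).e3 c d e) (bh : ∀ c < p.C, ∀ t, he c t ≤ (p.tab ev).eh c t)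
    {ι : Type} [DecidableEq ι] (x : ι → ℕ) (s : Finset ι) (hx : ∀ q ∈ s, x q < p.C)
    (hr : r + ∑ q ∈ s, p.sz (x q) = p.tot) : cf p.sz a0 a1 a2 he a3 x s ≤ 0 := by
  obtain ⟨l, i1, i2, i3, -, i5, -, -, i8, i9⟩ := cf_le (p.tab ev) p.sz p.C r b1 b2 b3 bh x s hx
  have := p.list h1 h2 i1 (fun c h => by obtain ⟨q, hq, rfl⟩ := i2 c h; exact hx q hq)
    (i3 ▸ hr)
  have i5 := i5 0
  rw [Tab.val, nsmul_eq_mul] at this
  simp only [cf, zero_add, sum_add_distrib] at i5 i9 ⊢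
  linarith

end Pool.Agent.Lib.MP_4b1228_nt.PP.Lat
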