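import Pool.Agent.Lib.MP_4b1228_nt.PP.LatS

/-! From integer tables to the packed tables of the lattice check. -/

namespace Pool.Agent.Lib.MP_4b1228_nt.PP.Lat

open Finset

noncomputable section

/-- An entry which is at least `z / 2 ^ k`; the value `2 ^ 30` marks an overflow. -/
def enc (k : ℕ) (z : ℤ) : ℕ :=
  Int.rec (fun n => min (Nat.shiftRight (Nat.add n (ones k)) k) 1073741824)
    (fun n => Nat.mul 1152921504606846976 (min (Nat.shiftRight n k) 1073741823)) z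

def fine (y : ℕ) : Bool := Bool.rec true false (Nat.beq y 1073741824)

theorem enc_lt (k : ℕ) (z : ℤ) : enc k z < 2 ^ 112 := by
  cases z with
  | ofNat n => exact (min_le_right _ _).trans_lt (by decide)
  | negSucc n => exact (Nat.mul_le_mul_left _ (min_le_right _ _)).trans_lt (by decide)

theorem le_enc {k : ℕ} {z : ℤ} (h : fine (enc k z) = true) :
    (z : ℝ) / 2 ^ k ≤ ev (Nat.land (enc k z) em) := by
  have e : ∀ a b : ℕ, a < 2 ^ 30 → b < 2 ^ 30 →
      ev (Nat.land (2 ^ 60 * b + a) em) = (a : ℝ) - b := fun a b ha hb => by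
    have : Nat.land (2 ^ 60 * b + a) em = 2 ^ 60 * b + a := by
      refine Nat.eq_of_testBit_eq fun i => ?_
      rw [Nat.land_eq, Nat.testBit_and, show em = 2 ^ 60 * (2 ^ 30 - 1) + (2 ^ 30 - 1) by decide,
        Nat.testBit_two_pow_mul_add _ (by omega), Nat.testBit_two_pow_mul_add _ (by omega)]
      split_ifs <;> rw [← Nat.testBit_and, Nat.and_two_pow_sub_one_eq_mod, Nat.mod_eq_of_lt ‹_›]
    rw [this, ev, show (2 ^ 60 * b + a) % 2 ^ 60 = a by omega,
      show (2 ^ 60 * b + a) / 2 ^ 60 = b by omega]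
  have hk : 0 < 2 ^ k := by positivity
  rw [div_le_iff₀ (by positivity)]
  cases z with
  | ofNat n =>
    have h1 : enc k (Int.ofNat n) = min ((n + (2 ^ k - 1)) / 2 ^ k) (2 ^ 30) := by
      rw [← ones_eq, ← Nat.shiftRight_eq_div_pow]; rfl
    rw [h1] at h ⊢
    have h2 : (n + (2 ^ k - 1)) / 2 ^ k < 2 ^ 30 := by
      by_contra c
      rw [min_eq_right (not_lt.1 c)] at h
      exact Bool.false_ne_true h
    have := e _ 0 h2 (by decide)
    rw [mul_zero, zero_add] at this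
    rw [min_eq_left h2.le, this]
    have h3 := Nat.lt_mul_div_succ (n + (2 ^ k - 1)) hk
    rw [mul_add, mul_comm] at h3
    simpa using (Nat.cast_le (α := ℝ)).2 (show n ≤ (n + (2 ^ k - 1)) / 2 ^ k * 2 ^ k by omega)
  | negSucc n =>
    have h1 : enc k (Int.negSucc n) = 2 ^ 60 * min (n / 2 ^ k) (2 ^ 30 - 1) + 0 := by
      rw [← Nat.shiftRight_eq_div_pow]; rfl
    rw [h1, e _ _ (by decide) ((min_le_right _ _).trans_lt (by decide))]
    have := (Nat.cast_le (α := ℝ)).2 ((Nat.mul_le_mul_right (2 ^ k)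
      (min_le_left (n / 2 ^ k) (2 ^ 30 - 1))).trans (Nat.div_mul_le_self _ _))
    rw [Nat.cast_mul, Nat.cast_pow, Nat.cast_ofNat] at this
    rw [Int.cast_negSucc, Nat.cast_succ, Nat.cast_zero]
    linarith

theorem en_ln (x i : ℕ) : en x i = Nat.land (ln 112 x i) em := by
  rw [ln, ones_eq, Nat.land_eq, Nat.land_eq, Nat.and_assoc]
  rfl

theorem ln_ln (w x : ℕ) {n c : ℕ} (d : ℕ) (h : c < n) :
    ln w x (n * d + c) = ln w (ln (w * n) x d) c := by
  obtain ⟨m, rfl⟩ := Nat.exists_eq_add_of_lt h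
  rw [ln_eq, ln_eq, ln_eq, mul_add w, Nat.shiftRight_add, mul_assoc]
  generalize x >>> (w * ((c + m + 1) * d)) = y
  rw [Nat.shiftRight_eq_div_pow, Nat.shiftRight_eq_div_pow,
    show w * (c + m + 1) = w * c + (w + w * m) by ring, pow_add, Nat.mod_mul_right_div_self,
    pow_add, Nat.mod_mul_right_mod]

def t2 (n m : ℕ) (f : ℕ → ℕ → ℕ) : ℕ := pk (wd n) m fun d => pk 112 n (f d)

def t3 (n m l : ℕ) (f : ℕ → ℕ → ℕ → ℕ) : ℕ := pk (wd (Nat.mul n m)) l fun e => t2 n m (f e)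

theorem ln_t2 {n m c d : ℕ} {f : ℕ → ℕ → ℕ} (h : ∀ d c, f d c < 2 ^ 112) (hc : c < n)
    (hd : d < m) : ln 112 (t2 n m f) (n * d + c) = f d c := by
  rw [ln_ln _ _ _ hc, t2, show wd n = 112 * n from rfl, ln_pk fun d _ => pk_lt fun c _ => h d c,
    if_pos hd, ln_pk fun c _ => h d c, if_pos hc]

theorem ln_t3 {n m l c d e : ℕ} {f : ℕ → ℕ → ℕ → ℕ} (h : ∀ e d c, f e d c < 2 ^ 112) (hc : c < n)
    (hd : d < m) (he : e < l) : ln 112 (t3 n m l f) (n * m * e + (n * d + c)) = f e d c := by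
  have : n * (d + 1) ≤ n * m := Nat.mul_le_mul_left n hd
  rw [ln_ln _ _ _ (by rw [mul_add] at this; omega), t3,
    show wd (Nat.mul n m) = 112 * (n * m) from rfl, ln_pk fun e _ => by
      rw [← mul_assoc]; exact pk_lt fun d _ => pk_lt fun c _ => h e d c, if_pos he,
    ln_t2 (h e) hc hd]

/-- Integer tables on symbols. -/
structure ZT where
  (C tot c1 c3 k : ℕ)
  (sz lim : ℕ → ℕ)
  f0 : ℕ → ℤ
  (f1 f2 fb : ℕ → ℕ → ℤ)
  f3 : ℕ → ℕ → ℕ → ℤ

namespace ZT

variable (z : ZT)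

def g0 (r : ℕ) : ℕ := enc z.k (z.f0 r)
def g1 (c r : ℕ) : ℕ := enc z.k (z.f1 c r)
def g2 (d c : ℕ) : ℕ := enc z.k (z.f2 c d)
def gb (d c : ℕ) : ℕ := enc z.k (z.fb c d)
def g3 (e d c : ℕ) : ℕ := enc z.k (z.f3 c d e)

def par : Par :=
  ⟨z.C, z.tot, z.c1, z.c3, 0, 0, z.sz, z.lim, pk 112 (Nat.succ z.tot) z.g0,
    t2 (Nat.succ z.tot) z.C z.g1, t2 z.c1 z.C z.g2, t2 z.c1 z.C z.gb, t3 z.c1 z.c3 z.C z.g3, 0⟩

/-- The root and the absence of overflow. -/
def ok : Bool :=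
  z.par.top && allLt (Nat.succ z.tot) (fun r => fine (z.g0 r)) && allLt z.C fun e =>
    allLt (Nat.succ z.tot) (fun r => fine (z.g1 e r)) &&
      allLt z.c1 (fun c => fine (z.g2 e c) && fine (z.gb e c)) &&
        allLt z.c3 fun d => allLt z.c1 fun c => fine (z.g3 e d c)

/-- The search for the largest symbols in `[a, a + n)`. -/
def run (a n : ℕ) : Bool := allLt n fun i => z.par.run (Nat.add a i)

theorem run_add {a n m : ℕ} (h : z.run a n = true) (h' : z.run (a + n) m = true) :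
    z.run a (n + m) = true := allLt_iff.2 fun i _ => by
  by_cases c : i < n
  · exact allLt_iff.1 h i c
  · have := allLt_iff.1 h' (i - n) (by omega)
    rwa [Nat.add_eq, show a + n + (i - n) = a + i by omega] at this

theorem sound (h1 : z.ok = true) (h2 : z.run 0 z.C = true) {r : ℕ} {a0 : ℤ} {a1 : ℕ → ℤ}
    {a2 : ℕ → ℕ → ℤ} {a3 : ℕ → ℕ → ℕ → ℤ} (b0 : a0 ≤ z.f0 r) (b1 : ∀ c < z.C, a1 c ≤ z.f1 c r)
    (b2 : ∀ d < z.C, ∀ c ≤ d, a2 c d + a2 d c ≤ if c < z.c1 then z.f2 c d + r * z.fb c d else 0)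
    (b3 : ∀ e < z.C, ∀ d ≤ e, ∀ c ≤ d, a3 c d e + a3 c e d + a3 d c e + a3 d e c + a3 e c d +
      a3 e d c ≤ if c < z.c1 ∧ d < z.c3 then z.f3 c d e else 0)
    {ι : Type} [DecidableEq ι] (x : ι → ℕ) (s : Finset ι) (hx : ∀ q ∈ s, x q < z.C)
    (hr : r + ∑ q ∈ s, z.sz (x q) = z.tot) :
    a0 + ∑ p ∈ s, (a1 (x p) + ∑ q ∈ s.erase p, (a2 (x p) (x q) +
      ∑ u ∈ (s.erase p).erase q, a3 (x p) (x q) (x u))) ≤ 0 := by
  simp only [ok, Bool.and_eq_true, allLt_iff] at h1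
  obtain ⟨⟨o1, o2⟩, o3⟩ := h1
  have hr' : r < z.tot + 1 := by omega
  have hk : (0 : ℝ) < 2 ^ z.k := by positivity
  have dv : ∀ {a b : ℤ}, a ≤ b → (a : ℝ) / 2 ^ z.k ≤ (b : ℝ) / 2 ^ z.k := fun h =>
    div_le_div_of_nonneg_right (Int.cast_le.2 h) hk.le
  have := z.par.sound o1 (fun c h => by simpa using allLt_iff.1 h2 c h) (r := r)
    (a0 := a0 / 2 ^ z.k) (a1 := fun c => a1 c / 2 ^ z.k) (a2 := fun c d => a2 c d / 2 ^ z.k)
    (he := fun _ _ => 0) (a3 := fun c d e => a3 c d e / 2 ^ z.k) ((dv b0).trans ?_)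
    (fun c (h : c < z.C) => (dv (b1 c h)).trans ?_) (fun d (h : d < z.C) c h' => ?_)
    (fun e (h : e < z.C) d h' c h'' => ?_)
    (fun c _ t => by simp [Par.tab, par]) x s hx hr
  · simp only [cf, sum_const_zero, add_zero, ← sum_div, ← add_div] at this
    exact_mod_cast (div_nonpos_iff.1 this).elim (fun h => absurd h.2 hk.not_ge) fun h => h.1
  · change _ ≤ ev (en (pk 112 (z.tot + 1) z.g0) r)
    rw [en_ln, ln_pk (f := z.g0) fun _ _ => enc_lt _ _, if_pos hr']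
    exact le_enc (o2 r hr')
  · change _ ≤ ev (en (t2 (z.tot + 1) z.C z.g1) ((z.tot + 1) * c + r))
    rw [en_ln, ln_t2 (f := z.g1) (fun _ _ => enc_lt _ _) hr' h]
    exact le_enc ((o3 c h).1.1 r hr')
  · have := dv (b2 d h c h')
    change _ ≤ (if c < z.c1 then ev (en (t2 z.c1 z.C z.g2) (z.c1 * d + c)) else 0) +
      r * if c < z.c1 then ev (en (t2 z.c1 z.C z.gb) (z.c1 * d + c)) else 0
    split_ifs at this ⊢ with hc
    · rw [en_ln, en_ln, ln_t2 (f := z.g2) (fun _ _ => enc_lt _ _) hc h,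
        ln_t2 (f := z.gb) (fun _ _ => enc_lt _ _) hc h]
      have e1 := le_enc ((o3 d h).1.2 c hc).1
      have e2 := mul_le_mul_of_nonneg_left (le_enc ((o3 d h).1.2 c hc).2) r.cast_nonneg
      push_cast at this
      rw [add_div, add_div, mul_div_assoc] at this
      exact this.trans (add_le_add e1 e2)
    · simpa [add_div] using this
  · have := dv (b3 e h d h' c h'')
    change _ ≤ if c < z.c1 ∧ d < z.c3 then
      ev (en (t3 z.c1 z.c3 z.C z.g3) (z.c1 * z.c3 * e + (z.c1 * d + c))) else 0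
    push_cast at this
    simp only [add_div] at this
    split_ifs at this ⊢ with hc
    · rw [en_ln, ln_t3 (f := z.g3) (fun _ _ _ => enc_lt _ _) hc.1 hc.2 h]
      exact this.trans (le_enc ((o3 e h).2 d hc.2 c hc.1))
    · simpa using this

end ZT

end

end Pool.Agent.Lib.MP_4b1228_nt.PP.Lat
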