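import Pool.Agent.Lib.MP_4b1228_nt.PP.St3c

/-!
Certificates given by tables of integers: affine weights on the cells of a lattice.
-/

open Finset Real
open scoped Classical

namespace Pool.Agent.Lib.MP_4b1228_nt.PP.R4

open R3

/-- The tables. `e cs j b`: exact rows on the cells `cs` with the factor `r ^ j`, constant term
`b = 0`, linear terms `b = 1, 2, 3` (used for `j ≤ 1`). -/
structure Tab where
  Q : ℕ
  Z : ℕ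
  m : ℕ
  N : ℕ
  T : ℕ
  a₀ : ℕ
  a₁ : ℕ
  Θ : ℕ
  p₀ : ℕ
  p₁ : ℕ
  e : List ℕ → ℕ → ℕ → ℤ
  s0 : ℕ → ℕ → ℤ
  s1 : ℕ → ℕ → ℕ → ℤ
  sl : ℕ → ℕ → ℕ
  h0 : ℕ → ℕ → ℤ
  h1 : ℕ → ℕ → ℕ → ℤ

def Tab.Ok (t : Tab) : Prop :=
  1 ≤ t.Z ∧ t.Z ≤ t.Q ∧ 1 ≤ t.m ∧ 1 ≤ t.N ∧ 4 * t.Z ≤ t.N * t.Q ∧ t.Z ≤ t.T ∧ 1 ≤ t.a₀ ∧
    7 * t.a₁ ≤ 8 * t.Q ∧ 3 * t.T + t.a₁ ≤ 2 * t.Q ∧ t.a₁ ≤ 4 * t.T ∧ t.Z ≤ t.p₀

/-- The sum over ordered tuples of `k` distinct elements. -/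
def tupL {β : Type} [AddCommMonoid β] : ℕ → (List ℕ → β) → Finset ℕ → β
  | 0, Φ, _ => Φ []
  | k + 1, Φ, S => ∑ p ∈ S, tupL k (fun l => Φ (p :: l)) (S.erase p)

/-- The sizes in the list can be put on the two sides of a bilinear form of level `q`. -/
def visB (q : ℕ) : List ℕ → ℕ → ℕ → Bool
  | [], M, N => decide (M ≤ q) && decide (4 * N + M ≤ 2 * q)
  | b :: l, M, N => visB q l (M + b) N || visB q l M (N + b)

/-- The cell `cs` is visible together with `j` small primes. -/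
def Tab.vis (t : Tab) (j : ℕ) (cs : List ℕ) : Bool :=
  visB t.Q (cs.map (· + 1) ++ List.replicate j t.Z) 0 0

/-- The coefficients on the visible cells. -/
def Tab.co (t : Tab) (cs : List ℕ) (j : ℕ) : ℕ → ℤ := fun b => if t.vis j cs then t.e cs j b else 0

/-- The marked prime is allowed. -/
def Tab.mk1 (t : Tab) (a c : ℕ) : Bool :=
  decide (a + 1 ≤ t.Q) || decide (2 * (c + a + 2) ≤ 3 * t.Q)

section poly

variable {R : Type} [CommRing R]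

def lin (co : ℕ → ℤ) : List R → ℕ → R
  | [], _ => 0
  | u :: l, i => co i * u + lin co l (i + 1)

def sec (co : ℕ → ℤ) (v : R) : List R → ℕ → R
  | [], _ => 0
  | u :: l, i => 30 * co i * (u + v - if co i < 0 then 1 else 0) + sec co v l (i + 1)

def q2 (a : ℤ) (v : R) : R := a * (60 * v - if a < 0 then 15 else 0)

def q3 (a : ℤ) (v : R) : R := a * (60 * v - if a < 0 then 24 else 0)

def m0 (co : ℕ → ℤ) (us : List R) : R := 60 * (co 0 + lin co us 1)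

def m1 (co : ℕ → ℤ) (ρ : ℕ) (us : List R) (v : R) : R :=
  60 * (ρ * (co 0 + lin co us 1) + co 0 * v) + sec co v us 1

def m23 (c₂ c₃ : ℤ) (ρ : ℕ) (v : R) : R :=
  60 * (c₂ * (ρ ^ 2 + 2 * ρ * v) + c₃ * (ρ ^ 3 + 3 * ρ ^ 2 * v)) + q2 (c₂ + 3 * ρ * c₃) v + q3 c₃ v

/-- The marks. -/
def Tab.marks (t : Tab) (a : ℕ) (τ : R) : List ℕ → List R → R
  | c :: cs, u :: us => (if t.mk1 a c then t.h1 a c 0 + t.h1 a c 1 * τ + t.h1 a c 2 * u else 0) +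
      t.marks a τ cs us
  | _, _ => 0

/-- The weight of a set with cells `cs` and fractional parts `us` in the window `[a, a + 1)`. -/
def Tab.hv (t : Tab) (a : ℕ) (cs : List ℕ) (us : List R) : R :=
  if t.a₀ ≤ a ∧ a < t.a₁ then
    t.h0 a 0 * (1 - ((cs.sum : ℕ) + us.sum - a)) + t.h0 a 1 * ((cs.sum : ℕ) + us.sum - a) +
      t.marks a ((cs.sum : ℕ) + us.sum - a) cs us
  else 0

def Tab.l0 (t : Tab) (ρ : ℕ) (v : R) : R := t.s0 ρ 0 * (1 - v) + t.s0 ρ 1 * v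

def Tab.l1 (t : Tab) (c ρ : ℕ) (u v : R) : R :=
  t.s1 c ρ 0 * (1 - u) + t.s1 c ρ 1 * u + t.s1 c ρ 2 * (1 - v) + t.s1 c ρ 3 * v

def Tab.lp (t : Tab) (c : ℕ) (u : R) : R :=
  if t.p₀ ≤ c ∧ c < t.p₁ then -(t.sl c 0 * (1 - u) + t.sl c 1 * u) else 0

end poly

/-! ### Values at the vertices (sixty times the majorant) -/

def Tab.VE (t : Tab) (cs : List ℕ) (δs : List ℤ) (ρ : ℕ) (δ : ℤ) : ℤ :=
  m0 (t.co cs 0) δs + m1 (t.co cs 1) ρ δs δ + m23 (t.co cs 2 0) (t.co cs 3 0) ρ δ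

/-- The largest value over the `o + 1` first windows. -/
def Tab.hm (t : Tab) (cs : List ℕ) (δs : List ℤ) : ℕ → ℤ
  | 0 => t.hv cs.sum cs δs
  | o + 1 => max (t.hm cs δs o) (t.hv (cs.sum + (o + 1)) cs δs)

def Tab.VH (t : Tab) (cs : List ℕ) (δs : List ℤ) : ℤ :=
  if cs.all (fun c => decide (t.T ≤ c)) then
    (60 / (cs.length.factorial : ℤ)) * t.hm cs δs (cs.length - 1) else 0

def Tab.VS (t : Tab) : List ℕ → List ℤ → ℕ → ℤ → ℤ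
  | [], _, ρ, δ => if ρ < t.Q then 60 * t.l0 ρ δ else 0
  | [c], [u], ρ, δ => (if c + ρ + 2 ≤ t.Q then 60 * t.l1 c ρ u δ else 0) + 60 * t.lp c u
  | _, _, _, _ => 0

def Tab.V (t : Tab) (cs : List ℕ) (δs : List ℤ) (ρ : ℕ) (δ : ℤ) : ℤ :=
  t.VE cs δs ρ δ + t.VS cs δs ρ δ + t.VH cs δs

/-- The check at the vertices. -/
def Tab.Lat (t : Tab) (b : ℤ) : Prop :=
  ∀ (s : Finset ℕ) (c : ℕ → ℕ) (δ : ℕ → ℕ) (ρ δ₀ : ℕ), (∀ p ∈ s, t.Z ≤ c p ∧ c p < t.Θ ∧ δ p ≤ 1) →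
    δ₀ ≤ 1 → ρ + δ₀ + ∑ p ∈ s, (c p + δ p) = 2 * t.Q →
    ∑ k ∈ range 4, tupL k (fun l => t.V (l.map c) (l.map fun p => (δ p : ℤ)) ρ δ₀) s ≤ b

/-! ### The function on configurations -/

noncomputable section

def fr (y : ℝ) : ℝ := y - ⌊y⌋₊

def Tab.AE (t : Tab) (ys : List ℝ) (r : ℝ) : ℝ :=
  ∑ j ∈ range 4, r ^ j * (t.co (ys.map fun y : ℝ => ⌊y⌋₊) j 0 +
    if j ≤ 1 then lin (t.co (ys.map fun y : ℝ => ⌊y⌋₊) j) (ys.map fr) 1 else 0)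

/-- The large elements. -/
def Tab.big (t : Tab) (x : ℕ → ℝ) (S : Finset ℕ) : Finset ℕ := S.filter fun p => (t.Z : ℝ) ≤ x p

def Tab.GE (t : Tab) (k : ℕ) : Cf := fun x S =>
  tupL k (fun l => t.AE (l.map x) (rr t.Z x S)) (t.big x S)

def Tab.A0 (t : Tab) (r : ℝ) : ℝ := if ⌊r⌋₊ < t.Q then t.l0 ⌊r⌋₊ (fr r) else 0

def Tab.A1 (t : Tab) (y r : ℝ) : ℝ :=
  if ⌊y⌋₊ + ⌊r⌋₊ + 2 ≤ t.Q then t.l1 ⌊y⌋₊ ⌊r⌋₊ (fr y) (fr r) else 0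

def Tab.GS0 (t : Tab) : Cf := fun x S => t.A0 (rr t.Z x S)

def Tab.GS1 (t : Tab) : Cf := fun x S => ∑ p ∈ t.big x S, t.A1 (x p) (rr t.Z x S)

def Tab.GP (t : Tab) : Cf := fun x S => ∑ p ∈ t.big x S, t.lp ⌊x p⌋₊ (fr (x p))

def Tab.ψ (t : Tab) (a : ℕ) (s : ℝ) : ℝ := t.h0 a 0 * (1 - (s - a)) + t.h0 a 1 * (s - a)

def Tab.W (t : Tab) (a : ℕ) (y s : ℝ) : ℝ :=
  if t.mk1 a ⌊y⌋₊ ∧ 0 ≤ y ∧ y < a + 1 then
    t.h1 a ⌊y⌋₊ 0 + t.h1 a ⌊y⌋₊ 1 * (s - a) + t.h1 a ⌊y⌋₊ 2 * fr y else 0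

def Tab.GH (t : Tab) : Cf := fun x S =>
  ∑ a ∈ Ico t.a₀ t.a₁, HT2 t.T a (a + 1) (t.ψ a) (t.W a) x S

def Tab.G (t : Tab) : Cf := fun x S =>
  ∑ k ∈ range 4, t.GE k x S + t.GS0 x S + t.GS1 x S + t.GP x S + t.GH x S

end

/-! ### Lower bounds for the means -/

/-- Enclosures: `ll k ≤ log ((k + 1) / k) ≤ lu k`; `fl i ≤ f i`, `F i ≤ fu i`; `wl k b`, `wu k b`
enclose the mean of `1 - fr r` (`b = 0`) and `fr r` (`b = 1`) on `[k / m, (k + 1) / m)`;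
`pc c b` bounds the mean number of primes in the cell `c` with the same weights. -/
structure Enc where
  ll : ℕ → ℚ
  lu : ℕ → ℚ
  fl : ℕ → ℚ
  fu : ℕ → ℚ
  wl : ℕ → ℕ → ℚ
  wu : ℕ → ℕ → ℚ
  pc : ℕ → ℕ → ℚ

def bd (c : ℤ) (lo hi : ℚ) : ℚ := if 0 ≤ c then c * lo else c * hi

def Enc.ul (n : Enc) (m c k : ℕ) : ℚ := max 0 (1 / m - c * n.lu k)

def Enc.uu (n : Enc) (m c k : ℕ) : ℚ := 1 / m - c * n.ll k

def Enc.vl (n : Enc) (m c k : ℕ) : ℚ := max 0 ((c + 1) * n.ll k - 1 / m)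

def Enc.vu (n : Enc) (m c k : ℕ) : ℚ := (c + 1) * n.lu k - 1 / m

def Enc.linB (n : Enc) (co : ℕ → ℤ) : List ℕ → ℚ → ℚ → ℕ → ℚ
  | [], _, _, _ => 0
  | c :: cs, lo, hi, i =>
      bd (co i) (lo * n.ul 1 c c * (cs.map n.ll).prod) (hi * n.uu 1 c c * (cs.map n.lu).prod) +
        n.linB co cs (lo * n.ll c) (hi * n.lu c) (i + 1)

/-- One cell. -/
def Enc.box (n : Enc) (j : ℕ) (co : ℕ → ℤ) (cs : List ℕ) : ℚ :=
  bd (co 0) (cs.map n.ll).prod (cs.map n.lu).prod + if j ≤ 1 then n.linB co cs 1 1 1 else 0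

/-- All lists of `k` cells in `[Z, Q)`. -/
def cells (Z Q : ℕ) : ℕ → List (List ℕ)
  | 0 => [[]]
  | k + 1 => (List.range (Q - Z)).flatMap fun i => (cells Z Q k).map fun cs => (Z + i) :: cs

def momQ (Z : ℚ) : ℕ → ℚ
  | 0 => 1
  | 1 => Z
  | 2 => 3 / 2 * Z ^ 2
  | _ => 17 / 6 * Z ^ 3

def Tab.vD (t : Tab) (n : Enc) (cs : List ℕ) (j : ℕ) : ℚ := momQ t.Z j * n.box j (t.co cs j) cs

def Tab.vE (t : Tab) (n : Enc) (k : ℕ) : ℚ :=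
  ((cells t.Z t.Q k).map fun cs => t.vD n cs 0 + t.vD n cs 1 + t.vD n cs 2 + t.vD n cs 3).sum

/-- The index of the sieve functions when the visible part has size at most `k / m`. -/
def Tab.lev (t : Tab) (k : ℕ) : ℕ := t.N * (5 * t.m * t.Q - 4 * k) / (4 * t.m * t.Z)

def Tab.vS0 (t : Tab) (n : Enc) : ℚ :=
  ((List.range (t.m * t.Q)).map fun k =>
    bd (t.s0 (k / t.m) 0) (n.fl (t.lev (k + 1)) * n.wl k 0) (n.fu (t.lev (k + 1)) * n.wu k 0) +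
    bd (t.s0 (k / t.m) 1) (n.fl (t.lev (k + 1)) * n.wl k 1) (n.fu (t.lev (k + 1)) * n.wu k 1)).sum

def Tab.vS1' (t : Tab) (n : Enc) (k₁ k : ℕ) : ℚ :=
  let c := k₁ / t.m
  let ρ := k / t.m
  let lo := n.fl (t.lev (k₁ + k + 2))
  let hi := n.fu (t.lev (k₁ + k + 2))
  bd (t.s1 c ρ 0) (lo * (n.wl k 0 + n.wl k 1) * n.vl t.m c k₁)
      (hi * (n.wu k 0 + n.wu k 1) * n.vu t.m c k₁) +
    bd (t.s1 c ρ 1) (lo * (n.wl k 0 + n.wl k 1) * n.ul t.m c k₁)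
      (hi * (n.wu k 0 + n.wu k 1) * n.uu t.m c k₁) +
    bd (t.s1 c ρ 2) (lo * n.wl k 0 * n.ll k₁) (hi * n.wu k 0 * n.lu k₁) +
    bd (t.s1 c ρ 3) (lo * n.wl k 1 * n.ll k₁) (hi * n.wu k 1 * n.lu k₁)

def Tab.vS1 (t : Tab) (n : Enc) : ℚ :=
  ((List.range (t.m * (t.Q - t.Z))).map fun i =>
    ((List.range (t.m * (t.Q - (t.Z + i / t.m) - 1))).map fun k =>
      t.vS1' n (t.m * t.Z + i) k).sum).sum

def Tab.vP (t : Tab) (n : Enc) : ℚ :=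
  ((List.range (t.p₁ - t.p₀)).map fun i =>
    -((t.sl (t.p₀ + i) 0 : ℚ) * n.pc (t.p₀ + i) 0 + t.sl (t.p₀ + i) 1 * n.pc (t.p₀ + i) 1)).sum

noncomputable def chi (m k b : ℕ) (r : ℝ) : ℝ :=
  if (k : ℝ) ≤ m * r ∧ m * r < k + 1 then (if b = 0 then 1 - fr r else fr r) else 0

def Enc.OkL (n : Enc) : Prop :=
  ∀ k : ℕ, 1 ≤ k → 0 ≤ n.ll k ∧ (n.ll k : ℝ) ≤ log ((k + 1) / k) ∧ log ((k + 1) / k) ≤ n.lu k

def Enc.OkF (n : Enc) (N : ℕ) (F f : ℕ → ℝ) : Prop :=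
  ∀ i : ℕ, 0 ≤ n.fl i ∧ (n.fl i ≠ 0 → 2 * N ≤ i ∧ (n.fl i : ℝ) ≤ f i) ∧
    (1 ≤ i → 0 ≤ F i ∧ F i ≤ n.fu i)

def Enc.OkW (n : Enc) (t : Tab) : Prop :=
  ∀ k < t.m * t.Q, ∀ b < 2, 0 ≤ n.wl k b ∧ 0 ≤ n.wu k b ∧
    Law t.Z (chi t.m k b) (n.wl k b) ∧ Law t.Z (fun r => -chi t.m k b r) (-(n.wu k b))

def Enc.OkP (n : Enc) (t : Tab) : Prop :=
  ∀ c : ℕ, t.p₀ ≤ c → c < t.p₁ →
    RowQ t.Q (fun x S => -tup [⟨c, c + 1, c + 1, -1, false⟩] x S) (-(n.pc c 0)) ∧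
    RowQ t.Q (fun x S => -tup [⟨c, c + 1, -c, 1, false⟩] x S) (-(n.pc c 1))

def MEStmt : Prop :=
  ∀ (t : Tab) (n : Enc) (k : ℕ), t.Ok → n.OkL → k < 4 → RowQ t.Q (t.GE k) (t.vE n k)

def MS0Stmt : Prop :=
  ∀ (t : Tab) (n : Enc) (F f : ℕ → ℝ), t.Ok → SStmt t.N F f → n.OkF t.N F f → n.OkW t →
    RowQ t.Q t.GS0 (t.vS0 n)

def MS1Stmt : Prop :=
  ∀ (t : Tab) (n : Enc) (F f : ℕ → ℝ), t.Ok → SStmt t.N F f → n.OkL → n.OkF t.N F f → n.OkW t →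
    RowQ t.Q t.GS1 (t.vS1 n)

def MPStmt : Prop := ∀ (t : Tab) (n : Enc), t.Ok → n.OkP t → RowQ t.Q t.GP (t.vP n)

def MHStmt : Prop :=
  ∀ (t : Tab) (v : ℕ → ℝ), t.Ok →
    (∀ a ∈ Ico t.a₀ t.a₁, LawH2 t.T a (a + 1) (t.ψ a) (t.W a) (v a)) →
    RowQ t.Q t.GH (∑ a ∈ Ico t.a₀ t.a₁, v a)

/-- The check at the vertices gives the certificate. -/
def PtStmt : Prop :=
  ∀ (t : Tab) (b : ℤ) (v θ : ℝ), t.Ok → t.Lat b → RowQ t.Q t.G v → (b : ℝ) < 60 * v →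
    θ * t.Q < t.Θ → Cert3 θ

/-- The equation lemmas are realized here, once. -/
theorem once4 : True := by
  have := @tupL.eq_def
  have := @tupL.eq_1
  have := @tupL.eq_2
  have := @visB.eq_def
  have := @visB.eq_1
  have := @visB.eq_2
  have := @lin.eq_def
  have := @lin.eq_1
  have := @lin.eq_2
  have := @sec.eq_def
  have := @sec.eq_1
  have := @sec.eq_2
  have := @Tab.marks.eq_def
  have := @Tab.marks.eq_1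
  have := @Tab.marks.eq_2
  have := @Tab.hm.eq_def
  have := @Tab.hm.eq_1
  have := @Tab.hm.eq_2
  have := @Tab.VS.eq_def
  have := @Tab.VS.eq_1
  have := @Tab.VS.eq_2
  have := @Tab.VS.eq_3
  have := @Enc.linB.eq_def
  have := @Enc.linB.eq_1
  have := @Enc.linB.eq_2
  have := @cells.eq_def
  have := @cells.eq_1
  have := @cells.eq_2
  have := @momQ.eq_def
  have := @momQ.eq_1
  have := @momQ.eq_2
  have := @momQ.eq_3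
  have := @momQ.eq_4
  trivial

end Pool.Agent.Lib.MP_4b1228_nt.PP.R4
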