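import Pool.Agent.Lib.MP_4b1228_nt.PP.R3Bc
import Pool.Agent.Lib.MP_4b1228_nt.PP.R4D

/-! The model means of the rows that are exact by Harman's sieve. -/

open Finset Real Filter Topology
open scoped Classical

namespace Pool.Agent.Lib.MP_4b1228_nt.PP.RB

open R3 R4

/-- The means of the basic weights, in units of `2 ^ (-40)`: `e a b` without a mark, `m a c b` with
a marked prime in the cell `c`. -/
structure HT where
  e : ℕ → ℕ → ℤ
  m : ℕ → ℕ → ℕ → ℤ

def ckC (P : ℕ → List ℤ) (n : HT) (a c : ℕ) : Bool :=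
  near (n.m a c 0) (lam (c + 1) (uP P (a - c)) 0 0 0) &&
  near (n.m a c 1) (lam (c + 1) (vP P (a - c)) 0 0 0) &&
  near (n.m a c 2) (lam (c + 1) (sub (uP P (a - c)) (0 :: uP P (a - c))) 0 0 0)

def ckE (P : ℕ → List ℤ) (n : HT) (a : ℕ) : Bool :=
  near (n.e a 0) ((sub (uP P a) (vP P a)).sum, 0) && near (n.e a 1) ((vP P a).sum, 0)

def ckA (T : ℕ) (P : ℕ → List ℤ) (n : HT) (a : ℕ) : Bool :=
  ckE P n a && allB (fun i => ckC P n a (T + i)) (a + 1 - T)

def fL {α : Type} : List ℤ → (List ℤ → α) → α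
  | [], f => f []
  | a :: l, f => fZ a fun a' => fL l fun l' => f (a' :: l')

theorem fL_eq {α : Type} (l : List ℤ) (f : List ℤ → α) : fL l f = f l := by
  induction l generalizing f with
  | nil => rfl
  | cons a l ih => rw [fL, fZ_eq, ih]

/-- All windows `a` in `[a₀, a₁)` and cells `c = a - m ≥ T` that are visible at the level `Q`. -/
def ckM (T Q a₀ a₁ : ℕ) (P : ℕ → List ℤ) (n : HT) (m : ℕ) : Bool :=
  fN m fun m => fL (uP P m) fun U => fL (vP P m) fun V => fL (sub U (0 :: U)) fun W =>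
    allB (fun i => fN (a₀ + i) fun a => fN (a - m) fun c =>
      cond (Nat.ble (T + m) a && (Nat.ble (a + 1) Q || Nat.ble (2 * (c + a + 2)) (3 * Q)))
        (near (n.m a c 0) (lam (c + 1) U 0 0 0) && near (n.m a c 1) (lam (c + 1) V 0 0 0) &&
          near (n.m a c 2) (lam (c + 1) W 0 0 0)) true) (a₁ - a₀)

def term (h v : ℤ) : ℤ := h * v - |h| * 16

def vZ (t : Tab) (n : HT) (a : ℕ) : ℤ :=
  term (t.h0 a 0) (n.e a 0) + term (t.h0 a 1) (n.e a 1) +
    ((List.range (a + 1 - t.T)).map fun i => if t.mk1 a (t.T + i) then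
      term (t.h1 a (t.T + i) 0) (n.m a (t.T + i) 0) + term (t.h1 a (t.T + i) 1) (n.m a (t.T + i) 1) +
        term (t.h1 a (t.T + i) 2) (n.m a (t.T + i) 2) else 0).sum

/-- The lower bound for the mean on the window `[a, a + 1)`. -/
def vH (t : Tab) (n : HT) (a : ℕ) : ℚ := (vZ t n a : ℚ) / 2 ^ 40

theorem Ap.term {f : ℝ → ℝ} {v : ℤ} (h : Ap f (v / 2 ^ 40) (16 / 2 ^ 40)) (c : ℤ) :
    Lo (fun X => c * f X) ((term c v : ℤ) / 2 ^ 40) := by
  convert h.lo c using 1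
  rw [RB.term]; push_cast; ring

theorem split {X u : ℝ} (hX : 1 < X) (hu : 0 < u) (T : ℕ) (F : ℕ → ℝ) (k : ℕ) :
    ∑ p ∈ pw X (u * T) (u * (T + k : ℕ)), F p =
      ∑ i ∈ range k, ∑ p ∈ pw X (u * (T + i : ℕ)) (u * ((T + i : ℕ) + 1)), F p := by
  induction k with
  | zero =>
    refine sum_eq_zero fun p hp => ?_
    obtain ⟨-, a, b⟩ := (mem_sz hX hu).1 hp
    exact absurd b (not_lt.2 a)
  | succ k ih =>
    rw [sum_range_succ, ← ih, ← sum_split hX hu (by push_cast; linarith [k.cast_nonneg (α := ℝ)])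
      (by linarith), ← add_assoc, Nat.cast_succ]

theorem W_le (t : Tab) (a : ℕ) : ∃ B : ℝ, 0 ≤ B ∧ ∀ y r : ℝ,
    |if a ≤ r ∧ r < a + 1 then t.W a y r else 0| ≤ B := by
  have p0 : ∀ c ∈ range (a + 1),
      0 ≤ |(t.h1 a c 0 : ℝ)| + |(t.h1 a c 1 : ℝ)| + |(t.h1 a c 2 : ℝ)| := fun c _ => by positivity
  refine ⟨_, sum_nonneg p0, fun y r => ?_⟩
  unfold Tab.W
  split_ifs with c1 c2
  · refine le_trans ?_ (single_le_sum p0 (mem_range.2 ((Nat.floor_lt c2.2.1).2
      (by exact_mod_cast c2.2.2))))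
    refine (abs_add_three _ _ _).trans (add_le_add (add_le_add le_rfl ?_) ?_) <;> rw [abs_mul] <;>
      refine mul_le_of_le_one_right (abs_nonneg _) (abs_le.2 ⟨?_, ?_⟩)
    · linarith [c1.1]
    · linarith [c1.2]
    · linarith [Nat.floor_le c2.2.1, show fr y = y - ⌊y⌋₊ from rfl]
    · linarith [Nat.lt_floor_add_one y, show fr y = y - ⌊y⌋₊ from rfl]
  all_goals simpa using sum_nonneg p0

theorem sum_list (f : ℕ → ℤ) (k : ℕ) : ((List.range k).map f).sum = ∑ i ∈ range k, f i := by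
  induction k with
  | zero => rfl
  | succ k ih => simp [List.range_succ, sum_range_succ, ih]

theorem cell_eq {X u : ℝ} (X1 : 1 < X) (hu : 0 < u) (t : Tab) (P : Finset ℕ) {a c : ℕ}
    (ca : c ≤ a) : ∑ p ∈ pw X (u * c) (u * (c + 1)), gp p * (Sm P gp (sz X u) fun r =>
      if a ≤ sz X u p + r ∧ sz X u p + r < a + 1 then t.W a (sz X u p) (sz X u p + r) else 0) =
    if t.mk1 a c then
      t.h1 a c 0 * ∑ p ∈ pw X (u * c) (u * (c + 1)), gp p *
        Ur P gp (sz X u) ((a - c : ℕ) + (c + 1 - sz X u p)) +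
      t.h1 a c 1 * ∑ p ∈ pw X (u * c) (u * (c + 1)), gp p *
        Vr P gp (sz X u) ((a - c : ℕ) + (c + 1 - sz X u p)) +
      t.h1 a c 2 * ∑ p ∈ pw X (u * c) (u * (c + 1)), gp p * ((1 - (c + 1 - sz X u p)) *
        Ur P gp (sz X u) ((a - c : ℕ) + (c + 1 - sz X u p))) else 0 := by
  have k : ∀ p ∈ pw X (u * c) (u * (c + 1)), (Sm P gp (sz X u) fun r =>
      if a ≤ sz X u p + r ∧ sz X u p + r < a + 1 then t.W a (sz X u p) (sz X u p + r) else 0) =
      if t.mk1 a c then (t.h1 a c 0 + t.h1 a c 2 * (sz X u p - c)) *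
        Ur P gp (sz X u) ((a - c : ℕ) + (c + 1 - sz X u p)) + t.h1 a c 1 *
        Vr P gp (sz X u) ((a - c : ℕ) + (c + 1 - sz X u p)) else 0 := by
    intro p hp
    obtain ⟨-, p2, p3⟩ := (mem_sz X1 hu).1 hp
    have p0 := sz_nonneg X1 hu p
    have f : ⌊sz X u p⌋₊ = c := (Nat.floor_eq_iff p0).2 ⟨p2, p3⟩
    have p4 : sz X u p < a + 1 := p3.trans_le (by exact_mod_cast Nat.succ_le_succ ca)
    simp only [Tab.W, fr, f, p0, p4, and_true]
    split_ifs
    · rw [Nat.cast_sub ca, show (a : ℝ) - c + (c + 1 - sz X u p) = a + 1 - sz X u p by ring, ← win]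
      congr 1
      ext r
      congr 1
      ring
    · simp [Sm]
  rw [sum_congr rfl fun p hp => by rw [k p hp]]
  split_ifs
  · simp only [mul_sum, ← sum_add_distrib]
    exact sum_congr rfl fun p _ => by ring
  · simp

theorem lawH' (hR : RhoStmt) (t : Tab) (n : HT) {N a : ℕ} {P : ℕ → List ℤ}
    (hP : ckP t.T N P = true) (hE : ckE P n a = true)
    (hC : ∀ c, t.T ≤ c → c ≤ a → t.mk1 a c = true → ckC P n a c = true) (hT : 1 ≤ t.T)
    (hTa : t.T ≤ a) (haN : a < N) (hN : N ≤ 360) :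
    LawH2 t.T a (a + 1) (t.ψ a) (t.W a) (vH t n a) := by
  intro u τ₀ hu hua hτ₀
  obtain ⟨M, hM⟩ := hyp hR hu (A := a + 1) hT
    (by exact_mod_cast (by omega : t.T ≤ a + 1)) hua
  have hS := (ckP_sol hP).mono (N' := a + 1) haN
  have M0 : 0 ≤ M := (hM 1 one_pos).exists.choose_spec.M0
  have uv : ∀ τ : ℝ, 0 < τ → ∀ᶠ X : ℝ in atTop, ∀ m ≤ a, ∀ x, 0 < x → x ≤ 1 →
      |Ur (PR X (u * t.T)) gp (sz X u) (m + x) - ev (uP P m) x / 2 ^ 100| ≤ 1 / 2 ^ 40 + τ ∧
      |Vr (PR X (u * t.T)) gp (sz X u) (m + x) - ev (vP P m) x / 2 ^ 100| ≤ 1 / 2 ^ 40 + τ := by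
    intro τ hτ
    have K0 : 0 < M * (M * exp M) + exp M := by positivity
    filter_upwards [hM (τ / (1036800 * (M * (M * exp M) + exp M))) (by positivity)]
      with X h m hm x x0 x1
    obtain ⟨b1, b2⟩ := h.uv hS (by positivity) (by push_cast; rfl) (Nat.lt_succ_of_le hm) x0 x1
    have e : er M (τ / (1036800 * (M * (M * exp M) + exp M))) = τ / 1036800 := by
      unfold er; field_simp
    have b : 8 * ((a + 1 : ℕ) : ℝ) ^ 2 * (1 / 2 ^ 60 + τ / 1036800) ≤ 8 * 360 ^ 2 *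
        (1 / 2 ^ 60 + τ / 1036800) := by
      gcongr
      exact_mod_cast (by omega : a + 1 ≤ 360)
    rw [e] at b1 b2
    constructor
    · refine le_trans (le_of_eq (congrArg _ ?_)) (b1.trans (b.trans (by linarith)))
      rw [uP, ev_sub]
      split_ifs
      · simp [ev]
      · ring
    · refine le_trans (le_of_eq (congrArg _ ?_)) (b2.trans (b.trans (by linarith)))
      rw [vP, ev_add, ev_sub]
      split_ifs
      · simp only [ev]; ring
      · ring
  simp only [ckE, Bool.and_eq_true] at hE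
  obtain ⟨e0, e1⟩ := hE
  have A0 : Ap (fun X => Ur (PR X (u * t.T)) gp (sz X u) (a + 1) -
      Vr (PR X (u * t.T)) gp (sz X u) (a + 1)) (n.e a 0 / 2 ^ 40) (16 / 2 ^ 40) := fun τ hτ => by
    filter_upwards [uv _ (half_pos hτ)] with X h
    obtain ⟨b1, b2⟩ := h a le_rfl 1 one_pos le_rfl
    have b3 := near_le e0 (a := ev (sub (uP P a) (vP P a)) 1) (τ := 0) (by simp [ev_one])
    rw [ev_sub, sub_div] at b3
    rw [abs_le] at b1 b2 b3 ⊢
    constructor <;> linarith [b1.1, b1.2, b2.1, b2.2, b3.1, b3.2]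
  have A1 : Ap (fun X => Vr (PR X (u * t.T)) gp (sz X u) (a + 1)) (n.e a 1 / 2 ^ 40)
      (16 / 2 ^ 40) := fun τ hτ => by
    filter_upwards [uv _ hτ] with X h
    have b2 := (h a le_rfl 1 one_pos le_rfl).2
    have b3 := near_le e1 (a := ev (vP P a) 1) (τ := 0) (by simp [ev_one])
    rw [abs_le] at b2 b3 ⊢
    constructor <;> linarith [b2.1, b2.2, b3.1, b3.2]
  have A2 := Lo.sum (a + 1 - t.T) (f := fun i X => if t.mk1 a (t.T + i) then
      t.h1 a (t.T + i) 0 * ∑ p ∈ pw X (u * (t.T + i : ℕ)) (u * ((t.T + i : ℕ) + 1)), gp p *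
        Ur (PR X (u * t.T)) gp (sz X u) ((a - (t.T + i) : ℕ) + ((t.T + i : ℕ) + 1 - sz X u p)) +
      t.h1 a (t.T + i) 1 * ∑ p ∈ pw X (u * (t.T + i : ℕ)) (u * ((t.T + i : ℕ) + 1)), gp p *
        Vr (PR X (u * t.T)) gp (sz X u) ((a - (t.T + i) : ℕ) + ((t.T + i : ℕ) + 1 - sz X u p)) +
      t.h1 a (t.T + i) 2 * ∑ p ∈ pw X (u * (t.T + i : ℕ)) (u * ((t.T + i : ℕ) + 1)), gp p *
        ((1 - ((t.T + i : ℕ) + 1 - sz X u p)) *
        Ur (PR X (u * t.T)) gp (sz X u) ((a - (t.T + i) : ℕ) + ((t.T + i : ℕ) + 1 - sz X u p)))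
      else 0)
    (v := fun i => ((if t.mk1 a (t.T + i) then
      term (t.h1 a (t.T + i) 0) (n.m a (t.T + i) 0) + term (t.h1 a (t.T + i) 1) (n.m a (t.T + i) 1) +
        term (t.h1 a (t.T + i) 2) (n.m a (t.T + i) 2) else 0 : ℤ) : ℝ) / 2 ^ 40) fun i hi => by
      have c0 := hC (t.T + i) (by omega) (by omega)
      have hc : 1 ≤ t.T + i := by omega
      have huc : u * ((t.T + i : ℕ) + 1) ≤ 2 := le_trans (mul_le_mul_of_nonneg_left
        (by exact_mod_cast (by omega : t.T + i + 1 ≤ a + 1)) hu.le) hua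
      generalize t.T + i = c at *
      split_ifs with cm
      swap
      · simpa using Lo.zero
      simp only [ckC, Bool.and_eq_true] at c0
      obtain ⟨⟨c0, c1⟩, c2⟩ := c0 cm
      rw [Int.cast_add, Int.cast_add, add_div, add_div]
      refine (((cell hR hu hc huc c0 (F := fun X x => Ur (PR X (u * t.T)) gp (sz X u)
        ((a - c : ℕ) + x)) fun τ hτ => ?_).term _).add ((cell hR hu hc huc c1
        (F := fun X x => Vr (PR X (u * t.T)) gp (sz X u) ((a - c : ℕ) + x))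
        fun τ hτ => ?_).term _)).add ((cell hR hu hc huc c2 (F := fun X x => (1 - x) *
        Ur (PR X (u * t.T)) gp (sz X u) ((a - c : ℕ) + x)) fun τ hτ => ?_).term _) <;>
        filter_upwards [uv τ hτ] with X h x x0 x1
      · exact (h _ (by omega) x x0 x1).1.trans (by linarith)
      · exact (h _ (by omega) x x0 x1).2.trans (by linarith)
      · refine le_trans ?_ ((h (a - c) (by omega) x x0 x1).1.trans (by linarith))
        refine le_trans (le_of_eq ?_) (mul_le_of_le_one_left (a := 1 - x) (abs_nonneg _)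
          (by linarith))
        rw [← abs_of_nonneg (sub_nonneg.2 x1), ← abs_mul, abs_of_nonneg (sub_nonneg.2 x1), ev_sub,
          ev]
        congr 1
        push_cast
        ring
  obtain ⟨B, B0, hB⟩ := W_le t a
  have K0 : 0 < M * (B * exp M) + 1 := by positivity
  filter_upwards [(((A0.term (t.h0 a 0)).add (A1.term (t.h0 a 1))).add A2) _ (half_pos hτ₀),
    hM (τ₀ / 2 / (M * (B * exp M) + 1)) (by positivity), eventually_gt_atTop 1] with X h1 h X1
  have m := h.mark (V := fun q r => if a ≤ r ∧ r < a + 1 then t.W a (sz X u q) r else 0) B0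
    fun q _ r => hB _ r
  have m1 : τ₀ / 2 / (M * (B * exp M) + 1) * M * (B * exp M) ≤ τ₀ / 2 := by
    rw [mul_assoc, div_mul_eq_mul_div, div_le_iff₀ K0]; linarith
  have v1 : (vH t n a : ℝ) = (term (t.h0 a 0) (n.e a 0) : ℤ) / 2 ^ 40 +
      (term (t.h0 a 1) (n.e a 1) : ℤ) / 2 ^ 40 + ∑ i ∈ range (a + 1 - t.T),
      ((if t.mk1 a (t.T + i) then term (t.h1 a (t.T + i) 0) (n.m a (t.T + i) 0) +
        term (t.h1 a (t.T + i) 1) (n.m a (t.T + i) 1) +
        term (t.h1 a (t.T + i) 2) (n.m a (t.T + i) 2) else 0 : ℤ) : ℝ) / 2 ^ 40 := by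
    rw [vH, Rat.cast_div, Rat.cast_intCast, vZ, ← sum_div, ← Int.cast_sum, sum_list, Int.cast_add,
      Int.cast_add, add_div, add_div]
    norm_num only
  have w0 := win (P := PR X (u * t.T)) (w := gp) (s := sz X u) a 0 (t.h0 a 0) (t.h0 a 1 - t.h0 a 0)
  have v2 : HM2 X u t.T a (a + 1) (t.ψ a) (t.W a) = (Sm (PR X (u * t.T)) gp (sz X u) fun r =>
      if a ≤ 0 + r ∧ 0 + r < a + 1 then t.h0 a 0 + (t.h0 a 1 - t.h0 a 0) * (0 + r - a) else 0) +
      ∑ K ∈ (PR X (u * t.T)).powerset, (∏ p ∈ K, gp p) * ∑ q ∈ K,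
        if a ≤ ∑ p ∈ K, sz X u p ∧ ∑ p ∈ K, sz X u p < a + 1 then
          t.W a (sz X u q) (∑ p ∈ K, sz X u p) else 0 := by
    rw [HM2, Sm, ← sum_add_distrib]
    refine sum_congr rfl fun K _ => ?_
    rw [hw2, zero_add, ← mul_add, Tab.ψ]
    congr 1
    split_ifs
    · ring
    · simp
  have ua : u * (t.T + (a + 1 - t.T) : ℕ) ≤ 2 := by
    rw [show t.T + (a + 1 - t.T) = a + 1 by omega]; exact_mod_cast hua
  rw [← sum_subset (s₁ := pw X (u * t.T) (u * (t.T + (a + 1 - t.T) : ℕ))) (fun p hp => by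
      obtain ⟨p1, p2, p3⟩ := (mem_sz X1 hu).1 hp
      exact (mem_PR_sz X1 hu le_rfl ua p2 p3).2 p1) (fun p hp hn => by
      have p1 : p.Prime := (mem_filter.1 hp).2.1
      have p2 : (a : ℝ) + 1 ≤ sz X u p := not_lt.1 fun c => hn ((mem_sz X1 hu).2 ⟨p1, h.sZ p hp, by
        rw [show t.T + (a + 1 - t.T) = a + 1 by omega]; exact_mod_cast c⟩)
      simp [Sm, Tab.W, not_lt.2 p2]), split X1 hu] at m
  rw [v1, v2, w0]
  refine le_trans ?_ (add_le_add le_rfl (sub_le_iff_le_add.2 (sub_le_iff_le_add'.1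
    ((neg_sub _ _).symm.trans_le (neg_le.1 (neg_le_of_abs_le (m.trans m1)))))))
  rw [sum_congr rfl fun i hi => cell_eq X1 hu t _ (by rw [mem_range] at hi; omega)]
  simp only [sub_zero]
  linarith

theorem lawH (hR : RhoStmt) (t : Tab) (n : HT) {N a : ℕ} {P : ℕ → List ℤ}
    (hP : ckP t.T N P = true) (hA : ckA t.T P n a = true) (hT : 1 ≤ t.T) (hTa : t.T ≤ a)
    (haN : a < N) (hN : N ≤ 360) : LawH2 t.T a (a + 1) (t.ψ a) (t.W a) (vH t n a) := by
  rw [ckA, Bool.and_eq_true] at hA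
  refine lawH' hR t n hP hA.1 (fun c h1 h2 _ => ?_) hT hTa haN hN
  have := allB_imp hA.2 (c - t.T) (by omega)
  rwa [show t.T + (c - t.T) = c by omega] at this

theorem lawM (hR : RhoStmt) (t : Tab) (n : HT) {Q a₀ a₁ : ℕ} {P : ℕ → List ℤ}
    (hP : ckP t.T a₁ P = true) (hE : allB (fun i => ckE P n (a₀ + i)) (a₁ - a₀) = true)
    (hM : ∀ m < a₁ - t.T, ckM t.T Q a₀ a₁ P n m = true) (hT : 1 ≤ t.T) (hTa : t.T ≤ a₀)
    (hN : a₁ ≤ 360) (hQ : t.Q ≤ Q) (h0 : a₀ ≤ t.a₀) (h1 : t.a₁ ≤ a₁) :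
    ∀ a ∈ Ico t.a₀ t.a₁, LawH2 t.T a (a + 1) (t.ψ a) (t.W a) (vH t n a) := by
  intro a ha
  rw [mem_Ico] at ha
  have e : a₀ + (a - a₀) = a := by omega
  refine lawH' hR t n hP (e ▸ allB_imp hE (a - a₀) (by omega)) (fun c c1 c2 c3 => ?_) hT
    (by omega) (by omega) hN
  have := hM (a - c) (by omega)
  simp only [ckM, fN_eq, fL_eq] at this
  have := allB_imp this (a - a₀) (by omega)
  rw [e, show a - (a - c) = c by omega] at this
  simp only [Tab.mk1, Bool.or_eq_true, decide_eq_true_eq] at c3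
  rwa [show (Nat.ble (t.T + (a - c)) a && (Nat.ble (a + 1) Q ||
    Nat.ble (2 * (c + a + 2)) (3 * Q))) = true by
      simp only [Bool.and_eq_true, Bool.or_eq_true, Nat.ble_eq]; omega] at this

end Pool.Agent.Lib.MP_4b1228_nt.PP.RB
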