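import Pool.Agent.Lib.MP_4b1228_nt.PP.Tu0

/-! The law of the size of the sets of large primes: the delay equation of Buchstab. -/

open Finset Real Filter Topology
open scoped Classical

noncomputable section

namespace Pool.Agent.Lib.MP_4b1228_nt.PP.RB

def Sm (P : Finset ℕ) (w s : ℕ → ℝ) (f : ℝ → ℝ) : ℝ :=
  ∑ K ∈ P.powerset, (∏ p ∈ K, w p) * f (∑ p ∈ K, s p)

def ind (b r : ℝ) : ℝ := if r < b then 1 else 0

def Ph (P : Finset ℕ) (w s : ℕ → ℝ) (b : ℝ) : ℝ := Sm P w s fun r => max 0 (b - r)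

def CC (P : Finset ℕ) (w s : ℕ → ℝ) (b : ℝ) : ℝ := Sm P w s (ind b)

structure Hyp (P : Finset ℕ) (w s : ℕ → ℝ) (Z A M τ : ℝ) : Prop where
  w0 : ∀ p, 0 ≤ w p
  w1 : ∀ p ∈ P, w p ≤ τ
  z1 : 1 ≤ Z
  sZ : ∀ p ∈ P, Z ≤ s p
  sM : ∀ p ∈ P, s p ≤ M
  tot : ∑ p ∈ P, w p ≤ M
  mert : ∀ x ≤ A, |∑ p ∈ P with s p < x, s p * w p - max 0 (x - Z)| ≤ τ

variable {P : Finset ℕ} {w s : ℕ → ℝ} {Z A M τ : ℝ}

theorem Sm_add (f g : ℝ → ℝ) : Sm P w s (fun r => f r + g r) = Sm P w s f + Sm P w s g := by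
  simp only [Sm, mul_add, sum_add_distrib]

theorem Sm_sub (f g : ℝ → ℝ) : Sm P w s (fun r => f r - g r) = Sm P w s f - Sm P w s g := by
  simp only [Sm, mul_sub, sum_sub_distrib]

theorem Sm_mul (c : ℝ) (f : ℝ → ℝ) : Sm P w s (fun r => c * f r) = c * Sm P w s f := by
  simp only [Sm, mul_sum]
  exact sum_congr rfl fun _ _ => by ring

theorem Sm_sum (T : Finset ℕ) (f : ℕ → ℝ → ℝ) :
    Sm P w s (fun r => ∑ p ∈ T, f p r) = ∑ p ∈ T, Sm P w s (f p) := by
  simp only [Sm, mul_sum]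
  exact sum_comm

theorem Sm_erase {q : ℕ} (hq : q ∈ P) (f : ℝ → ℝ) :
    Sm P w s f = Sm (P.erase q) w s f + w q * Sm (P.erase q) w s fun r => f (s q + r) := by
  conv_lhs => rw [← insert_erase hq, Sm, sum_powerset_insert (notMem_erase q P)]
  rw [Sm, Sm, mul_sum]
  congr 1
  refine sum_congr rfl fun K hK => ?_
  have : q ∉ K := fun h => notMem_erase q P (mem_powerset.1 hK h)
  rw [prod_insert this, sum_insert this, mul_assoc]

section
variable (h : Hyp P w s Z A M τ)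
include h

theorem Hyp.s0 {K : Finset ℕ} (hK : K ⊆ P) : 0 ≤ ∑ p ∈ K, s p :=
  sum_nonneg fun p hp => (zero_le_one.trans h.z1).trans (h.sZ p (hK hp))

theorem Hyp.M0 : 0 ≤ M := (sum_nonneg fun p _ => h.w0 p).trans h.tot

theorem Hyp.t0 : 0 ≤ τ := (abs_nonneg _).trans (h.mert A le_rfl)

theorem Hyp.abs {Q : Finset ℕ} (hQ : Q ⊆ P) {f : ℝ → ℝ} {B : ℝ} (hf : ∀ r, 0 ≤ r → |f r| ≤ B) :
    |Sm Q w s f| ≤ B * exp M := by
  have hB := (abs_nonneg _).trans (hf 0 le_rfl)
  have a : ∑ K ∈ Q.powerset, ∏ p ∈ K, w p ≤ exp M := by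
    rw [← prod_one_add]
    refine (prod_one_add_le_exp_sum _ h.w0).trans (exp_le_exp.2 (le_trans ?_ h.tot))
    exact sum_le_sum_of_subset_of_nonneg hQ fun p _ _ => h.w0 p
  refine (abs_sum_le_sum_abs _ _).trans (le_trans ?_ (mul_le_mul_of_nonneg_left a hB))
  rw [mul_sum]
  refine sum_le_sum fun K hK => ?_
  have := prod_nonneg fun p (_ : p ∈ K) => h.w0 p
  rw [abs_mul, abs_of_nonneg this, mul_comm]
  exact mul_le_mul_of_nonneg_right (hf _ (h.s0 ((mem_powerset.1 hK).trans hQ))) this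

/-- Only the empty set has size below `Z`. -/
theorem Hyp.low {f : ℝ → ℝ} (hf : ∀ r, 1 ≤ r → f r = 0) : Sm P w s f = f 0 := by
  rw [Sm, sum_eq_single_of_mem ∅ (empty_mem_powerset P)]
  · simp
  · intro K hK hne
    obtain ⟨q, hq⟩ := nonempty_iff_ne_empty.2 hne
    have hK := mem_powerset.1 hK
    rw [hf, mul_zero]
    exact (h.z1.trans (h.sZ q (hK hq))).trans (single_le_sum
      (fun p hp => (zero_le_one.trans h.z1).trans (h.sZ p (hK hp))) hq)

/-- A marked prime. -/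
theorem Hyp.mark {V : ℕ → ℝ → ℝ} {B : ℝ} (hB : 0 ≤ B) (hV : ∀ q ∈ P, ∀ r, |V q r| ≤ B) :
    |∑ K ∈ P.powerset, (∏ p ∈ K, w p) * ∑ q ∈ K, V q (∑ p ∈ K, s p) -
      ∑ q ∈ P, w q * Sm P w s fun r => V q (s q + r)| ≤ τ * M * (B * exp M) := by
  have e : ∑ K ∈ P.powerset, (∏ p ∈ K, w p) * ∑ q ∈ K, V q (∑ p ∈ K, s p) =
      ∑ q ∈ P, w q * Sm (P.erase q) w s fun r => V q (s q + r) := by
    simp only [Sm, mul_sum]
    rw [← Tu.swap P fun q T => w q * ((∏ p ∈ T, w p) * V q (s q + ∑ p ∈ T, s p))]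
    refine sum_congr rfl fun K _ => sum_congr rfl fun q hq => ?_
    rw [add_sum_erase _ _ hq, ← mul_assoc, mul_prod_erase _ _ hq]
  rw [e, ← sum_sub_distrib]
  refine (abs_sum_le_sum_abs _ _).trans (le_trans (sum_le_sum (g := fun q =>
    τ * w q * (B * exp M)) fun q hq => ?_) ?_)
  · rw [Sm_erase hq fun r => V q (s q + r), ← mul_sub, sub_add_cancel_left, abs_mul, abs_neg,
      abs_mul, abs_of_nonneg (h.w0 q), ← mul_assoc]
    exact mul_le_mul (mul_le_mul_of_nonneg_right (h.w1 q hq) (h.w0 q))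
      (h.abs (erase_subset _ _) fun r _ => hV q hq _) (abs_nonneg _) (mul_nonneg h.t0 (h.w0 q))
  · rw [← sum_mul, ← mul_sum]
    have := h.t0
    gcongr
    exact h.tot

end

/-- The error term. -/
def er (M τ : ℝ) : ℝ := τ * M * (M * exp M) + τ * exp M

theorem Hyp.bias (h : Hyp P w s Z A M τ) {b : ℝ} (hb : b ≤ A) :
    |b * CC P w s b - Ph P w s b - Ph P w s (b - Z)| ≤ er M τ := by
  have a1 := h.mark (V := fun q r => s q * ind b r) h.M0 fun q hq r => by
    have := (zero_le_one.trans h.z1).trans (h.sZ q hq)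
    unfold ind
    split_ifs
    · rw [mul_one, abs_of_nonneg this]; exact h.sM q hq
    · simpa using h.M0
  have a2 := h.abs subset_rfl (f := fun r => ∑ p ∈ P with s p < b - r, s p * w p -
    max 0 (b - r - Z)) fun r hr => h.mert _ (by linarith)
  have e1 : b * CC P w s b - Ph P w s b =
      ∑ K ∈ P.powerset, (∏ p ∈ K, w p) * ∑ q ∈ K, s q * ind b (∑ p ∈ K, s p) := by
    rw [CC, Ph, ← Sm_mul, ← Sm_sub]
    refine sum_congr rfl fun K _ => ?_
    rw [← sum_mul]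
    generalize ∑ p ∈ K, s p = r
    simp only [ind, max_def]
    congr 1
    split_ifs <;> linarith
  have e2 : (∑ q ∈ P, w q * Sm P w s fun r => s q * ind b (s q + r)) =
      Sm P w s fun r => ∑ p ∈ P with s p < b - r, s p * w p := by
    simp only [← Sm_mul, ← Sm_sum, sum_filter, ind, lt_sub_iff_add_lt, mul_ite, mul_one, mul_zero,
      mul_comm]
  rw [Sm_sub] at a2
  rw [e2, ← e1] at a1
  have e3 : Ph P w s (b - Z) = Sm P w s fun r => max 0 (b - r - Z) := by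
    simp only [Ph, sub_right_comm]
  rw [e3]
  exact (abs_sub_le _ _ _).trans (add_le_add a1 a2)

theorem der_max (b r : ℝ) :
    HasDerivWithinAt (fun t => max 0 (t - r)) (ind b r) (Set.Iic b) b := by
  unfold ind
  split_ifs with c
  · refine (((hasDerivAt_id b).sub_const r).congr_of_eventuallyEq ?_).hasDerivWithinAt
    filter_upwards [lt_mem_nhds c] with t ht using max_eq_right (sub_nonneg.2 ht.le)
  · exact (hasDerivWithinAt_const b _ (0 : ℝ)).congr
      (fun t ht => max_eq_left (by linarith [Set.mem_Iic.1 ht])) (max_eq_left (by linarith))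

theorem der_Ph (b : ℝ) : HasDerivWithinAt (Ph P w s) (CC P w s b) (Set.Iic b) b :=
  HasDerivWithinAt.fun_sum fun _ _ => (der_max b _).const_mul _

theorem der_sh (c t : ℝ) :
    HasDerivWithinAt (fun t => Ph P w s (c + t)) (CC P w s (c + t) * 1) (Set.Iic t) t :=
  HasDerivWithinAt.comp t (der_Ph (c + t)) ((hasDerivAt_id t).const_add c).hasDerivWithinAt
    fun _ hr => Set.mem_Iic.2 (add_le_add le_rfl (Set.mem_Iic.1 hr))

theorem cont_Ph : Continuous (Ph P w s) := by unfold Ph Sm; fun_prop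

/-- The mean value inequality for left derivatives. -/
theorem mvl {f f' : ℝ → ℝ} {a b C : ℝ} (hab : a ≤ b) (hc : ContinuousOn f (Set.Icc a b))
    (hd : ∀ x ∈ Set.Ioc a b, HasDerivWithinAt f (f' x) (Set.Iic x) x)
    (hC : ∀ x ∈ Set.Ioc a b, |f' x| ≤ C) : |f b - f a| ≤ C * (b - a) := by
  have m : ∀ x ∈ Set.Ico (-b) (-a), -x ∈ Set.Ioc a b := fun x hx =>
    ⟨by linarith [hx.2], by linarith [hx.1]⟩
  have := norm_image_sub_le_of_norm_deriv_right_le_segment (f := fun x => f (-x))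
    (f' := fun x => f' (-x) * -1) (a := -b) (b := -a) (C := C)
    (hc.comp continuous_neg.continuousOn fun x hx => ⟨by linarith [hx.2], by linarith [hx.1]⟩)
    (fun x hx => (hd _ (m x hx)).comp x (hasDerivAt_neg x).hasDerivWithinAt
      fun t ht => Set.mem_Iic.2 (neg_le_neg (Set.mem_Ici.1 ht)))
    (fun x hx => by simpa using hC _ (m x hx)) (-a) ⟨by linarith, le_rfl⟩
  rw [neg_neg, neg_neg, Real.norm_eq_abs, abs_sub_comm] at this
  exact this.trans (le_of_eq (by ring))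

/-- Approximate solutions of the delay equation, cell by cell. -/
structure Sol (Z N : ℕ) (ρ : ℝ) (p p' : ℕ → ℝ → ℝ) : Prop where
  der : ∀ n x, HasDerivAt (p n) (p' n x) x
  zero : ∀ x, 0 ≤ x → x ≤ 1 → p 0 x = x ∧ p' 0 x = 1
  mat : ∀ n, n + 1 < N → |p (n + 1) 0 - p n 1| ≤ ρ
  res : ∀ n, n + 1 < N → ∀ x, 0 ≤ x → x ≤ 1 → |((n + 1 : ℕ) + x) * p' (n + 1) x - p (n + 1) x -
    if n + 1 < Z then 0 else p (n + 1 - Z) x| ≤ ρ

variable {Z N : ℕ} {ρ : ℝ} {p p' : ℕ → ℝ → ℝ}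

theorem Hyp.neg (h : Hyp P w s Z A M τ) {b : ℝ} (hb : b ≤ 0) : Ph P w s b = 0 ∧ CC P w s b = 0 :=
  ⟨(h.low fun r hr => max_eq_left (by linarith)).trans (max_eq_left (by linarith)),
    (h.low fun r hr => if_neg (by linarith)).trans (if_neg (by linarith))⟩

theorem Hyp.er0 (h : Hyp P w s Z A M τ) : 0 ≤ er M τ := by
  have := h.t0
  have := h.M0
  unfold er
  positivity

theorem Hyp.stp (h : Hyp P w s Z A M τ) (hS : Sol Z N ρ p p') (hN : (N : ℝ) ≤ A) {n : ℕ}
    (hn : n + 1 < N) (ih : ∀ m ≤ n, ∀ x, 0 ≤ x → x ≤ 1 →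
      |Ph P w s (m + x) - p m x| ≤ 2 * m * (m + x) * (ρ + er M τ)) {x : ℝ} (x0 : 0 ≤ x)
    (x1 : x ≤ 1) : |((n + 1 : ℕ) + x) * (CC P w s ((n + 1 : ℕ) + x) - p' (n + 1) x) -
      (Ph P w s ((n + 1 : ℕ) + x) - p (n + 1) x)| ≤ (2 * n * (n + 1) + 1) * (ρ + er M τ) := by
  have a1 := h.bias (b := (n + 1 : ℕ) + x) (by
    have : ((n + 1 + 1 : ℕ) : ℝ) ≤ N := by exact_mod_cast hn
    push_cast at this ⊢; linarith)
  have a2 := hS.res n hn x x0 x1
  have η0 : 0 ≤ ρ + er M τ := add_nonneg ((abs_nonneg _).trans a2) h.er0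
  have a3 : |Ph P w s ((n + 1 : ℕ) + x - Z) - if n + 1 < Z then 0 else p (n + 1 - Z) x| ≤
      2 * n * (n + 1) * (ρ + er M τ) := by
    split_ifs with c
    · have : ((n + 1 + 1 : ℕ) : ℝ) ≤ Z := by exact_mod_cast c
      rw [(h.neg (by push_cast at this ⊢; linarith)).1, sub_zero, abs_zero]
      positivity
    · have z1 : 1 ≤ Z := by exact_mod_cast h.z1
      have := ih (n + 1 - Z) (by omega) x x0 x1
      have b : ((n + 1 - Z : ℕ) : ℝ) ≤ n := by exact_mod_cast (by omega : n + 1 - Z ≤ n)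
      rw [add_sub_right_comm, ← Nat.cast_sub (not_lt.1 c)]
      refine this.trans ?_
      gcongr
  rw [abs_le] at a1 a2 a3 ⊢
  constructor <;> linarith [a1.1, a1.2, a2.1, a2.2, a3.1, a3.2]

theorem Hyp.encl (h : Hyp P w s Z A M τ) (hS : Sol Z N ρ p p') (hN : (N : ℝ) ≤ A) (n : ℕ) :
    n < N → ∀ m ≤ n, ∀ x, 0 ≤ x → x ≤ 1 →
      |Ph P w s (m + x) - p m x| ≤ 2 * m * (m + x) * (ρ + er M τ) := by
  induction n with
  | zero =>
    intro _ m hm x x0 x1
    obtain rfl := Nat.le_zero.1 hm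
    rw [(hS.zero x x0 x1).1, Ph, h.low fun r hr => max_eq_left (by push_cast; linarith)]
    simp [x0]
  | succ n ih =>
    intro hn m hm x x0 x1
    have ih := ih (by omega)
    rcases hm.eq_or_lt with rfl | hm
    swap
    · exact ih m (by omega) x x0 x1
    have n0 : (0 : ℝ) ≤ n := Nat.cast_nonneg n
    have ρ0 : 0 ≤ ρ := (abs_nonneg _).trans (hS.mat n hn)
    have e0 := h.er0
    have pos : ∀ t : ℝ, 0 ≤ t → 0 < ((n + 1 : ℕ) : ℝ) + t := fun t ht => by positivity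
    have c1 : Continuous fun t => Ph P w s ((n + 1 : ℕ) + t) := cont_Ph.comp (by fun_prop)
    have c2 : Continuous (p (n + 1)) :=
      continuous_iff_continuousAt.2 fun t => (hS.der _ t).continuousAt
    have a1 := mvl (f := fun t => (Ph P w s ((n + 1 : ℕ) + t) - p (n + 1) t) / ((n + 1 : ℕ) + t))
      (f' := fun t => ((CC P w s ((n + 1 : ℕ) + t) * 1 - p' (n + 1) t) * ((n + 1 : ℕ) + t) -
        (Ph P w s ((n + 1 : ℕ) + t) - p (n + 1) t) * 1) / ((n + 1 : ℕ) + t) ^ 2)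
      (C := (2 * n * (n + 1) + 1) * (ρ + er M τ) / (n + 1) ^ 2) x0
      (ContinuousOn.div₀ (c1.sub c2).continuousOn (by fun_prop) fun t ht => (pos t ht.1).ne')
      (fun t ht => ((der_sh _ t).fun_sub (hS.der (n + 1) t).hasDerivWithinAt).fun_div
        ((hasDerivAt_id' t).const_add _).hasDerivWithinAt (pos t ht.1.le).ne')
      fun t ht => by
        rw [abs_div, mul_one, mul_one, mul_comm,
          abs_of_nonneg (sq_nonneg (((n + 1 : ℕ) : ℝ) + t))]
        refine div_le_div₀ (by positivity) (h.stp hS hN hn ih ht.1.le (ht.2.trans x1))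
          (by positivity) ?_
        push_cast
        exact pow_le_pow_left₀ (by positivity) (by linarith [ht.1]) 2
    have a2 : |(Ph P w s ((n + 1 : ℕ) + 0) - p (n + 1) 0) / ((n + 1 : ℕ) + 0)| ≤
        (2 * n * (n + 1) + 1) * (ρ + er M τ) / (n + 1) := by
      have b1 := ih n le_rfl 1 zero_le_one le_rfl
      have b2 := hS.mat n hn
      push_cast
      rw [add_zero, abs_div, abs_of_pos (by positivity : (0 : ℝ) < n + 1)]
      gcongr
      rw [abs_le] at b1 b2 ⊢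
      constructor <;> linarith [b1.1, b1.2, b2.1, b2.2]
    have a3 := (abs_sub_abs_le_abs_sub _ _).trans a1
    rw [abs_div, abs_of_pos (pos x x0), sub_le_iff_le_add, div_le_iff₀ (pos x x0)] at a3
    refine a3.trans ?_
    rw [mul_right_comm (2 * _)]
    refine mul_le_mul_of_nonneg_right ?_ (pos x x0).le
    refine (add_le_add (mul_le_of_le_one_right (by positivity) (by linarith)) a2).trans ?_
    push_cast
    rw [mul_div_right_comm, mul_div_right_comm, ← add_mul]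
    refine mul_le_mul_of_nonneg_right ?_ (by positivity)
    rw [div_add_div _ _ (by positivity) (by positivity), div_le_iff₀ (by positivity)]
    nlinarith [mul_nonneg n0 n0, mul_nonneg n0 (mul_nonneg n0 n0)]

/-- Enclosures on every cell. -/
theorem Hyp.both (h : Hyp P w s Z A M τ) (hS : Sol Z N ρ p p') (ρ0 : 0 ≤ ρ) (hN : (N : ℝ) ≤ A)
    {n : ℕ} (hn : n < N) {x : ℝ} (x0 : 0 < x) (x1 : x ≤ 1) :
    |Ph P w s (n + x) - p n x| ≤ 2 * N ^ 2 * (ρ + er M τ) ∧
      |CC P w s (n + x) - p' n x| ≤ 4 * N * (ρ + er M τ) := by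
  have η0 : 0 ≤ ρ + er M τ := add_nonneg ρ0 h.er0
  have nN : (n : ℝ) + 1 ≤ N := by exact_mod_cast hn
  have n0 : (0 : ℝ) ≤ n := Nat.cast_nonneg n
  have a1 := h.encl hS hN n hn n le_rfl x x0.le x1
  refine ⟨a1.trans ?_, ?_⟩
  · rw [sq, ← mul_assoc]
    gcongr <;> linarith
  · cases n with
    | zero =>
      rw [(hS.zero x x0.le x1).2, CC,
        h.low (f := ind _) fun r hr => if_neg (by push_cast; linarith), ind,
        if_pos (by simpa using x0), sub_self, abs_zero]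
      positivity
    | succ n =>
      have a2 := h.stp hS hN hn (h.encl hS hN n (by omega)) x0.le x1
      have a3 := (abs_sub_abs_le_abs_sub _ _).trans a2
      have pos : (0 : ℝ) < (n + 1 : ℕ) + x := by positivity
      rw [abs_mul, abs_of_pos pos, sub_le_iff_le_add] at a3
      refine le_of_mul_le_mul_left (a3.trans ((add_le_add le_rfl a1).trans ?_)) pos
      rw [← add_mul, ← mul_assoc]
      refine mul_le_mul_of_nonneg_right ?_ η0
      have n0 : (0 : ℝ) ≤ n := Nat.cast_nonneg n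
      push_cast at nN ⊢
      nlinarith [mul_nonneg n0 x0.le, mul_le_mul_of_nonneg_left nN (add_nonneg n0 x0.le)]

theorem Sol.mono (hS : Sol Z N ρ p p') {N' : ℕ} (h : N' ≤ N) : Sol Z N' ρ p p' :=
  ⟨hS.der, hS.zero, fun n hn => hS.mat n (by omega), fun n hn => hS.res n (by omega)⟩

/-- The mass of the window `[b - 1, b)`. -/
def Ur (P : Finset ℕ) (w s : ℕ → ℝ) (b : ℝ) : ℝ := CC P w s b - CC P w s (b - 1)

/-- Its first moment. -/
def Vr (P : Finset ℕ) (w s : ℕ → ℝ) (b : ℝ) : ℝ := CC P w s b - Ph P w s b + Ph P w s (b - 1)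

theorem win (a y α β : ℝ) :
    (Sm P w s fun r => if a ≤ y + r ∧ y + r < a + 1 then α + β * (y + r - a) else 0) =
      α * Ur P w s (a + 1 - y) + β * Vr P w s (a + 1 - y) := by
  simp only [Ur, Vr, CC, Ph, ← Sm_sub, ← Sm_add, ← Sm_mul]
  congr 1
  ext r
  by_cases c1 : r < a + 1 - y - 1
  · rw [if_neg fun c => by linarith [c.1], ind, ind, if_pos c1, if_pos (by linarith),
      max_eq_right (by linarith), max_eq_right (by linarith)]
    ring
  · by_cases c2 : r < a + 1 - y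
    · rw [if_pos ⟨by linarith, by linarith⟩, ind, ind, if_neg c1, if_pos c2,
        max_eq_right (by linarith), max_eq_left (by linarith)]
      ring
    · rw [if_neg fun c => by linarith [c.2], ind, ind, if_neg c1, if_neg c2,
        max_eq_left (by linarith), max_eq_left (by linarith)]
      ring

theorem Hyp.uv (h : Hyp P w s Z A M τ) (hS : Sol Z N ρ p p') (ρ0 : 0 ≤ ρ) (hN : (N : ℝ) ≤ A)
    {n : ℕ} (hn : n < N) {x : ℝ} (x0 : 0 < x) (x1 : x ≤ 1) :
    |Ur P w s (n + x) - (p' n x - if n = 0 then 0 else p' (n - 1) x)| ≤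
      8 * N ^ 2 * (ρ + er M τ) ∧
    |Vr P w s (n + x) - (p' n x - p n x + if n = 0 then 0 else p (n - 1) x)| ≤
      8 * N ^ 2 * (ρ + er M τ) := by
  have η0 : 0 ≤ ρ + er M τ := add_nonneg ρ0 h.er0
  obtain ⟨a1, a2⟩ := h.both hS ρ0 hN hn x0 x1
  have b : |Ph P w s (n + x - 1) - if n = 0 then 0 else p (n - 1) x| ≤ 2 * N ^ 2 * (ρ + er M τ) ∧
      |CC P w s (n + x - 1) - if n = 0 then 0 else p' (n - 1) x| ≤ 4 * N * (ρ + er M τ) := by
    cases n with
    | zero =>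
      obtain ⟨c1, c2⟩ := h.neg (b := (0 : ℕ) + x - 1) (by push_cast; linarith)
      rw [c1, c2, if_pos rfl, if_pos rfl, sub_zero, abs_zero]
      constructor <;> positivity
    | succ n =>
      rw [if_neg n.succ_ne_zero, if_neg n.succ_ne_zero, Nat.add_sub_cancel,
        show ((n + 1 : ℕ) : ℝ) + x - 1 = n + x by push_cast; ring]
      exact h.both hS ρ0 hN (by omega) x0 x1
  obtain ⟨b1, b2⟩ := b
  have N1 : (1 : ℝ) ≤ N := by exact_mod_cast (by omega : 1 ≤ N)
  have c : N * (ρ + er M τ) ≤ N ^ 2 * (ρ + er M τ) :=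
    mul_le_mul_of_nonneg_right (le_self_pow₀ N1 two_ne_zero) η0
  unfold Ur Vr
  rw [abs_le] at a1 a2 b1 b2
  constructor <;> rw [abs_le] <;> constructor <;>
    linarith [a1.1, a1.2, a2.1, a2.2, b1.1, b1.2, b2.1, b2.2]

end Pool.Agent.Lib.MP_4b1228_nt.PP.RB
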