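import Pool.Agent.Lib.MP_4b1228_nt.PP.R3Ba

/-! Polynomials with integer coefficients: checking approximate solutions. -/

open Finset Real

namespace Pool.Agent.Lib.MP_4b1228_nt.PP.RB

def fN {α : Type} (n : ℕ) (f : ℕ → α) : α := Nat.rec (f 0) (fun m _ => f (Nat.succ m)) n

theorem fN_eq {α : Type} (n : ℕ) (f : ℕ → α) : fN n f = f n := by cases n <;> rfl

def fZ {α : Type} : ℤ → (ℤ → α) → α
  | Int.ofNat n, f => fN n fun m => f (Int.ofNat m)
  | Int.negSucc n, f => fN n fun m => f (Int.negSucc m)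

theorem fZ_eq {α : Type} (z : ℤ) (f : ℤ → α) : fZ z f = f z := by
  cases z <;> rw [fZ, fN_eq]

noncomputable def ev : List ℤ → ℝ → ℝ
  | [], _ => 0
  | a :: l, x => a + x * ev l x

noncomputable def dv : List ℤ → ℝ → ℝ
  | [], _ => 0
  | _ :: l, x => ev l x + x * dv l x

def add : List ℤ → List ℤ → List ℤ
  | [], m => m
  | a :: l, [] => a :: l
  | a :: l, b :: m => (a + b) :: add l m

def smul (c : ℤ) : List ℤ → List ℤ
  | [] => []
  | a :: l => (c * a) :: smul c l

def der : ℕ → List ℤ → List ℤ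
  | _, [] => []
  | k, a :: l => (k * a) :: der (k + 1) l

def d1 (l : List ℤ) : List ℤ := der 1 l.tail

def l1 : List ℤ → ℕ
  | [] => 0
  | a :: l => a.natAbs + l1 l

theorem ev_der (l : List ℤ) (x : ℝ) : HasDerivAt (ev l) (dv l x) x := by
  induction l with
  | nil => exact hasDerivAt_const x (0 : ℝ)
  | cons a l ih =>
    have := ((hasDerivAt_id' x).fun_mul ih).const_add (a : ℝ)
    rwa [one_mul] at this

theorem ev_add (l m : List ℤ) (x : ℝ) : ev (add l m) x = ev l x + ev m x := by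
  induction l generalizing m with
  | nil => simp [add, ev]
  | cons a l ih =>
    cases m with
    | nil => simp [add, ev]
    | cons b m => simp only [add, ev, ih]; push_cast; ring

theorem ev_smul (c : ℤ) (l : List ℤ) (x : ℝ) : ev (smul c l) x = c * ev l x := by
  induction l with
  | nil => simp [smul, ev]
  | cons a l ih => simp only [smul, ev, ih]; push_cast; ring

theorem ev_der' (l : List ℤ) (x : ℝ) (k : ℕ) : ev (der k l) x = k * ev l x + x * dv l x := by
  induction l generalizing k with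
  | nil => simp [der, ev, dv]
  | cons a l ih => simp only [der, ev, dv, ih]; push_cast; ring

theorem ev_d1 (l : List ℤ) (x : ℝ) : ev (d1 l) x = dv l x := by
  cases l with
  | nil => simp [d1, der, ev, dv]
  | cons a l => simp [d1, ev_der', dv]

theorem ev_le (l : List ℤ) {x : ℝ} (x0 : 0 ≤ x) (x1 : x ≤ 1) : |ev l x| ≤ l1 l := by
  induction l with
  | nil => simp [ev, l1]
  | cons a l ih =>
    rw [ev, l1, Nat.cast_add, Nat.cast_natAbs, Int.cast_abs]
    refine (abs_add_le _ _).trans (add_le_add le_rfl ?_)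
    rw [abs_mul, abs_of_nonneg x0]
    exact (mul_le_of_le_one_left (abs_nonneg _) x1).trans ih

theorem ev_zero (l : List ℤ) : ev l 0 = l.headD 0 := by cases l <;> simp [ev]

theorem ev_one (l : List ℤ) : ev l 1 = l.sum := by
  induction l with
  | nil => simp [ev]
  | cons a l ih => simp [ev, ih]

def sub (l m : List ℤ) : List ℤ := add l (smul (-1) m)

theorem ev_sub (l m : List ℤ) (x : ℝ) : ev (sub l m) x = ev l x - ev m x := by
  rw [sub, ev_add, ev_smul]; push_cast; ring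

def allB (p : ℕ → Bool) (k : ℕ) : Bool := Nat.rec true (fun i ih => p i && ih) k

theorem allB_imp {p : ℕ → Bool} {k : ℕ} (h : allB p k = true) : ∀ i < k, p i = true := by
  induction k with
  | zero => intro i hi; omega
  | succ k ih =>
    have e : allB p (k + 1) = (p k && allB p k) := rfl
    rw [e, Bool.and_eq_true] at h
    intro i hi
    rcases (Nat.lt_succ_iff.1 hi).eq_or_lt with rfl | hi
    · exact h.1
    · exact ih h.2 i hi

/-- The check of a table of polynomials, in units of `2 ^ (-100)`. -/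
def ckP (Z N : ℕ) (P : ℕ → List ℤ) : Bool :=
  Nat.ble (l1 (sub (P 0) [0, 2 ^ 100]) + l1 (sub (d1 (P 0)) [2 ^ 100])) 0 &&
  allB (fun n => Nat.ble ((P (n + 1)).headD 0 - (P n).sum).natAbs (2 ^ 40) &&
    Nat.ble (l1 (sub (add (smul (n + 1 : ℕ) (d1 (P (n + 1)))) (0 :: d1 (P (n + 1))))
      (add (P (n + 1)) (if n + 1 < Z then [] else P (n + 1 - Z))))) (2 ^ 40)) (N - 1)

theorem ckP_sol {Z N : ℕ} {P : ℕ → List ℤ} (h : ckP Z N P = true) :
    Sol Z N (1 / 2 ^ 60) (fun n x => ev (P n) x / 2 ^ 100) fun n x => ev (d1 (P n)) x / 2 ^ 100 := by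
  rw [ckP, Bool.and_eq_true, Nat.ble_eq] at h
  obtain ⟨h0, h1⟩ := h
  have h1 := fun n (hn : n + 1 < N) => allB_imp h1 n (by omega)
  simp only [Bool.and_eq_true, Nat.ble_eq] at h1
  have key : ∀ (a : ℝ) (k : ℕ), |a| ≤ k → k ≤ 2 ^ 40 → |a / 2 ^ 100| ≤ 1 / 2 ^ 60 := by
    intro a k b1 b2
    have : (k : ℝ) ≤ 2 ^ 40 := by exact_mod_cast b2
    rw [abs_div, abs_of_pos (by positivity : (0 : ℝ) < 2 ^ 100), div_le_iff₀ (by positivity)]
    linarith
  refine ⟨fun n x => ?_, fun x x0 x1 => ?_, fun n hn => ?_, fun n hn x x0 x1 => ?_⟩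
  · rw [ev_d1]; exact (ev_der _ x).div_const _
  · have a1 := ev_le (sub (P 0) [0, 2 ^ 100]) x0 x1
    have a2 := ev_le (sub (d1 (P 0)) [2 ^ 100]) x0 x1
    rw [show l1 _ = 0 by omega, Nat.cast_zero, abs_nonpos_iff, ev_sub, sub_eq_zero] at a1 a2
    rw [a1, a2]
    simp only [ev]
    constructor <;> push_cast <;> ring
  · rw [← sub_div, ev_zero, ev_one]
    refine key _ _ (le_of_eq ?_) (h1 n hn).1
    rw [Nat.cast_natAbs]; push_cast; rfl
  · have := key _ _ (ev_le _ x0 x1) (h1 n hn).2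
    refine le_trans (le_of_eq (congrArg _ ?_)) this
    rw [ev_sub, ev_add, ev_add, ev_smul, ev]
    split_ifs
    · simp only [ev]; push_cast; ring
    · push_cast; ring

def uP (P : ℕ → List ℤ) (m : ℕ) : List ℤ :=
  sub (d1 (P m)) (if m = 0 then [] else d1 (P (m - 1)))

def vP (P : ℕ → List ℤ) (m : ℕ) : List ℤ :=
  add (sub (d1 (P m)) (P m)) (if m = 0 then [] else P (m - 1))

/-- Integration against `1 / (d - x)` on `[0, 1]`: value and error. -/
def lam (d : ℕ) : List ℤ → ℕ → ℤ → ℤ → ℤ × ℕ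
  | [], k, g, acc => (acc, 2 * g.natAbs + k * (2 * d + 1))
  | f :: l, k, g, acc => fZ ((f + g) / d) fun g' => fN (k + 1) fun k' =>
      fZ (acc + g' / k') fun acc' => lam d l k' g' acc'

/-- The number `t / 2 ^ 40` is close to the value. -/
def near (t : ℤ) (r : ℤ × ℕ) : Bool := Nat.ble ((r.1 - t * 2 ^ 60).natAbs + r.2) (2 ^ 62)

theorem near_le {t : ℤ} {r : ℤ × ℕ} (h : near t r = true) {a τ : ℝ} (ha : |a - r.1| ≤ (r.2 : ℝ) + τ) :
    |a / 2 ^ 100 - t / 2 ^ 40| ≤ (1 : ℝ) / 2 ^ 38 + τ / 2 ^ 100 := by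
  rw [near, Nat.ble_eq] at h
  have h' : |(r.1 : ℝ) - t * 2 ^ 60| + (r.2 : ℝ) ≤ 2 ^ 62 := by
    have : (((r.1 - t * 2 ^ 60).natAbs + r.2 : ℕ) : ℝ) ≤ (2 ^ 62 : ℕ) := Nat.cast_le.2 h
    rw [Nat.cast_add, Nat.cast_natAbs] at this
    push_cast at this
    norm_num at this ⊢
    exact this
  have e : a / 2 ^ 100 - t / 2 ^ 40 = (a - r.1 + (r.1 - t * 2 ^ 60)) / 2 ^ 100 := by ring
  rw [e, abs_div, abs_of_pos (by positivity : (0 : ℝ) < 2 ^ 100), div_le_iff₀ (by positivity)]
  refine (abs_add_le _ _).trans ?_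
  generalize |(r.1 : ℝ) - t * 2 ^ 60| = b at h'
  generalize |a - r.1| = c at ha
  linarith

end Pool.Agent.Lib.MP_4b1228_nt.PP.RB
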