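import Pool.Agent.Lib.MP_4b1228_nt.PP.R3Bb
import Pool.Agent.Lib.MP_4b1228_nt.PP.R3M

/-! The law of the sets of large primes: limits on one cell. -/

open Finset Real Filter Topology
open scoped Classical

noncomputable section

namespace Pool.Agent.Lib.MP_4b1228_nt.PP.RB

open R3

def Ap (f : ℝ → ℝ) (v ε : ℝ) : Prop := ∀ τ : ℝ, 0 < τ → ∀ᶠ X : ℝ in atTop, |f X - v| ≤ ε + τ

def Lo (f : ℝ → ℝ) (v : ℝ) : Prop := ∀ τ : ℝ, 0 < τ → ∀ᶠ X : ℝ in atTop, v - τ ≤ f X

theorem Ap.lo {f : ℝ → ℝ} {v ε : ℝ} (h : Ap f v ε) (c : ℝ) :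
    Lo (fun X => c * f X) (c * v - |c| * ε) := fun τ hτ => by
  filter_upwards [h (τ / (|c| + 1)) (by positivity)] with X hX
  have a := mul_le_mul_of_nonneg_left hX (abs_nonneg c)
  rw [← abs_mul] at a
  have b : |c| * (τ / (|c| + 1)) ≤ τ := by
    rw [mul_div_assoc', div_le_iff₀ (by positivity)]; linarith
  linarith [neg_le_of_abs_le a]

theorem Lo.add {f g : ℝ → ℝ} {v v' : ℝ} (h : Lo f v) (h' : Lo g v') :
    Lo (fun X => f X + g X) (v + v') := fun τ hτ => by
  filter_upwards [h _ (half_pos hτ), h' _ (half_pos hτ)] with X a b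
  linarith

theorem Lo.zero : Lo (fun _ => 0) 0 := fun τ hτ => Eventually.of_forall fun _ => by linarith

theorem Lo.sum (k : ℕ) {f : ℕ → ℝ → ℝ} {v : ℕ → ℝ} (h : ∀ i < k, Lo (f i) (v i)) :
    Lo (fun X => ∑ i ∈ range k, f i X) (∑ i ∈ range k, v i) := by
  induction k with
  | zero => exact Lo.zero
  | succ k ih =>
    simp only [sum_range_succ]
    exact (ih fun i hi => h i (by omega)).add (h k (by omega))

variable (hR : RhoStmt) {u : ℝ} (hu : 0 < u)
include hR hu

theorem hyp {T : ℕ} {A : ℝ} (hT : 1 ≤ T) (hA : (T : ℝ) ≤ A) (huA : u * A ≤ 2) :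
    ∃ M : ℝ, ∀ τ : ℝ, 0 < τ → ∀ᶠ X : ℝ in atTop, Hyp (PR X (u * T)) gp (sz X u) T A M τ := by
  have T1 : (1 : ℝ) ≤ T := by exact_mod_cast hT
  have uT : 0 < u * T := by positivity
  have uT2 : u * T ≤ 2 := (mul_le_mul_of_nonneg_left hA hu.le).trans huA
  refine ⟨2 / u + (|log (2 / (u * T))| + 2), fun τ hτ => ?_⟩
  filter_upwards [mert2 hR _ 1 uT one_pos, mert2 hR _ (τ * u) uT (by positivity),
    (tendsto_rpow_atTop uT).eventually_ge_atTop (2 / τ), eventually_gt_atTop 1] with X m1 m2 b X1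
  have gk : ∀ p : ℕ, p.Prime → X ^ (u * T) ≤ p → |gp p - rho p / p| ≤ 4 * rho p / p ^ 2 :=
    fun p _ _ => by rw [gp, sub_self, abs_zero]; positivity
  have L0 := log_pos X1
  have mem : ∀ p ∈ PR X (u * T), p.Prime ∧ X ^ (u * T) ≤ p ∧ p ≤ ⌊X ^ 2⌋₊ := fun p hp => by
    rw [PR, mem_filter, mem_Icc] at hp
    exact ⟨hp.2.1, hp.2.2, hp.1.2⟩
  refine ⟨gp_nonneg, fun p hp => ?_, T1, fun p hp => ?_, fun p hp => ?_, ?_, fun x hx => ?_⟩
  · obtain ⟨p1, p2, -⟩ := mem p hp
    have r : (rho p : ℝ) ≤ 2 := by exact_mod_cast (pow_one p ▸ hR.2.2.1 p 1 p1 : rho p ≤ 2)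
    have := (div_le_iff₀' hτ).1 (b.trans p2)
    rw [gp, div_le_iff₀ (by exact_mod_cast p1.pos)]
    linarith
  · exact (le_sz X1 hu (mem p hp).1.pos).2 (mem p hp).2.1
  · obtain ⟨p1, -, p3⟩ := mem p hp
    refine le_trans ?_ (le_add_of_nonneg_right (by positivity))
    have := log_le_log (by exact_mod_cast p1.pos) ((Nat.le_floor_iff (by positivity)).1 p3)
    rw [log_pow] at this
    rw [sz, div_le_div_iff₀ (by positivity) hu]
    push_cast at this
    nlinarith
  · have s1 : PR X (u * T) ⊆ insert ⌊X ^ 2⌋₊ (pw X (u * T) 2) := fun p hp => by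
      obtain ⟨p1, p2, p3⟩ := mem p hp
      rcases p3.eq_or_lt with e | e
      · exact mem_insert.2 (Or.inl e)
      · refine mem_insert_of_mem (mem_pw.2 ⟨p1, p2, ?_⟩)
        rw [rpow_two]
        exact lt_of_lt_of_le (by exact_mod_cast e) (Nat.floor_le (by positivity))
    have s2 : gp ⌊X ^ 2⌋₊ ≤ 1 := div_le_one_of_le₀
      (by exact_mod_cast (card_filter_le _ _).trans_eq (card_range _)) (Nat.cast_nonneg _)
    have s3 := (abs_le.1 (m1 gp gk _ 2 le_rfl uT2 le_rfl).1).2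
    have s4 : ∑ p ∈ insert ⌊X ^ 2⌋₊ (pw X (u * T) 2), gp p ≤
        gp ⌊X ^ 2⌋₊ + ∑ p ∈ pw X (u * T) 2, gp p := by
      by_cases c : ⌊X ^ 2⌋₊ ∈ pw X (u * T) 2
      · rw [insert_eq_of_mem c]; exact le_add_of_nonneg_left (gp_nonneg _)
      · rw [sum_insert c]
    have s5 := sum_le_sum_of_subset_of_nonneg s1 fun p _ _ => gp_nonneg p
    have s6 : 0 < 2 / u := by positivity
    linarith [le_abs_self (log (2 / (u * T)))]
  · rcases le_total x T with c | c
    · rw [sum_eq_zero fun p hp => absurd (mem_filter.1 hp).2 (not_lt.2 (c.trans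
        ((le_sz X1 hu (mem p (mem_filter.1 hp).1).1.pos).2 (mem p (mem_filter.1 hp).1).2.1))),
        max_eq_left (by linarith), sub_zero, abs_zero]
      exact hτ.le
    · have ux : u * x ≤ 2 := (mul_le_mul_of_nonneg_left hx hu.le).trans huA
      have e : (PR X (u * T)).filter (fun p => sz X u p < x) = pw X (u * T) (u * x) := by
        ext p
        rw [mem_filter, mem_sz X1 hu]
        exact ⟨fun h => ⟨(mem p h.1).1, (le_sz X1 hu (mem p h.1).1.pos).2 (mem p h.1).2.1, h.2⟩,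
          fun h => ⟨(mem_PR_sz X1 hu le_rfl ux h.2.1 h.2.2).2 h.1, h.2.2⟩⟩
      have s1 := (m2 gp gk _ _ le_rfl (mul_le_mul_of_nonneg_left c hu.le) ux).2
      rw [e, max_eq_right (by linarith)]
      have e2 : ∑ p ∈ pw X (u * T) (u * x), sz X u p * gp p - (x - T) =
          (∑ p ∈ pw X (u * T) (u * x), gp p * log p - (u * x - u * T) * log X) / (u * log X) := by
        rw [sub_div, sum_div]
        congr 1
        · exact sum_congr rfl fun p _ => by rw [sz]; ring
        · field_simp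
      rw [e2, abs_div, abs_of_pos (mul_pos hu L0), div_le_iff₀ (mul_pos hu L0)]
      linarith

variable {c : ℕ} (hc : 1 ≤ c) (huc : u * (c + 1) ≤ 2)
include hc huc

theorem mom (k : ℕ) : Tendsto (fun X : ℝ => ∑ p ∈ pw X (u * c) (u * (c + 1)),
    (c + 1 - sz X u p) ^ k * (sz X u p * gp p)) atTop (𝓝 (1 / (k + 1))) := by
  have := lipI hR hu (a := c) (b := c + 1) (K := k) (by exact_mod_cast hc) (by linarith) huc
    (Nat.cast_nonneg k) (fun y => (c + 1 - y) ^ k) fun s t h1 h2 h3 => by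
      refine (abs_pow_sub_pow_le _ _ k).trans ?_
      have : max |c + 1 - t| |c + 1 - s| ^ (k - 1) ≤ 1 := pow_le_one₀
        ((abs_nonneg _).trans (le_max_left _ _))
        (max_le (abs_le.2 ⟨by linarith, by linarith⟩) (abs_le.2 ⟨by linarith, by linarith⟩))
      rw [show (c : ℝ) + 1 - t - (c + 1 - s) = -(t - s) by ring, abs_neg,
        abs_of_nonneg (sub_nonneg.2 h2), mul_comm (t - s)]
      exact mul_le_of_le_one_right (mul_nonneg (Nat.cast_nonneg k) (sub_nonneg.2 h2)) this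
  rw [intervalIntegral.integral_comp_sub_left (fun y : ℝ => y ^ k), integral_pow] at this
  simpa using this

theorem cellw : ∀ᶠ X : ℝ in atTop, ∀ (F : ℕ → ℝ) (B : ℝ),
    (∀ p, 0 < c + 1 - sz X u p → c + 1 - sz X u p ≤ 1 → |F p| ≤ B) → 0 ≤ B →
      |∑ p ∈ pw X (u * c) (u * (c + 1)), gp p * F p| ≤ 2 * B := by
  have c1 : (1 : ℝ) ≤ c := by exact_mod_cast hc
  have a : log ((c + 1) / c) < 2 := by
    refine (log_le_sub_one_of_pos (by positivity)).trans_lt ?_
    rw [sub_lt_iff_lt_add, div_lt_iff₀ (by positivity)]; linarith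
  filter_upwards [(m01 hR hu (a := c) (b := c + 1) (by linarith) (by linarith) huc).1.eventually
    (gt_mem_nhds a), eventually_gt_atTop 1] with X hX X1 F B hF hB
  refine (abs_sum_le_sum_abs _ _).trans (le_trans ?_ (mul_le_mul_of_nonneg_right hX.le hB))
  rw [sum_mul]
  refine sum_le_sum fun p hp => ?_
  obtain ⟨-, p1, p2⟩ := (mem_sz X1 hu).1 hp
  rw [abs_mul, abs_of_nonneg (gp_nonneg p)]
  exact mul_le_mul_of_nonneg_left (hF p (by linarith) (by linarith)) (gp_nonneg p)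

theorem lam_ap (l : List ℤ) : ∀ (k : ℕ) (g acc : ℤ) (τ : ℝ), 0 < τ → ∀ᶠ X : ℝ in atTop,
    |∑ p ∈ pw X (u * c) (u * (c + 1)), gp p * ((c + 1 - sz X u p) ^ k *
      (g + ev l (c + 1 - sz X u p))) + acc - (lam (c + 1) l k g acc).1| + k * (2 * (c + 1) + 1) ≤
      ((lam (c + 1) l k g acc).2 : ℝ) + τ := by
  induction l with
  | nil =>
    intro k g acc τ hτ
    filter_upwards [cellw hR hu hc huc] with X hX
    have := hX (fun p => (c + 1 - sz X u p) ^ k * (g + ev [] (c + 1 - sz X u p))) |(g : ℝ)|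
      (fun p a b => by
        rw [ev, add_zero, abs_mul, abs_of_nonneg (pow_nonneg a.le k)]
        exact mul_le_of_le_one_left (abs_nonneg _) (pow_le_one₀ a.le b)) (abs_nonneg _)
    simp only [lam, add_sub_cancel_right]
    push_cast
    rw [Nat.cast_natAbs, Int.cast_abs]
    linarith
  | cons f l ih =>
    intro k g acc τ hτ
    simp only [lam, fZ_eq, fN_eq]
    have d0 : (0 : ℤ) < (c + 1 : ℕ) := by positivity
    have r0 := Int.emod_nonneg (f + g) d0.ne'
    have r1 := Int.emod_lt_of_pos (f + g) d0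
    have r2 := Int.emod_add_mul_ediv (f + g) (c + 1 : ℕ)
    generalize (f + g) % (c + 1 : ℕ) = r at r0 r1 r2
    generalize (f + g) / (c + 1 : ℕ) = g' at r2 ⊢
    have k0 : (0 : ℤ) < (k + 1 : ℕ) := by positivity
    have s0 := Int.emod_nonneg g' k0.ne'
    have s1 := Int.emod_lt_of_pos g' k0
    have s2 := Int.emod_add_mul_ediv g' (k + 1 : ℕ)
    generalize g' % (k + 1 : ℕ) = e at s0 s1 s2
    generalize g' / (k + 1 : ℕ) = j at s2 ⊢
    have t0 : (0 : ℝ) ≤ r := by exact_mod_cast r0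
    have t1 : (r : ℝ) ≤ c + 1 := by exact_mod_cast r1.le
    have t2 : (r : ℝ) + (c + 1) * g' = f + g := by exact_mod_cast r2
    have t3 : |g' * (1 / (k + 1) : ℝ) - j| ≤ 1 := by
      have b0 : (0 : ℝ) ≤ e := by exact_mod_cast s0
      have b1 : (e : ℝ) ≤ k + 1 := by exact_mod_cast s1.le
      have b2 : (e : ℝ) + (k + 1) * j = g' := by exact_mod_cast s2
      rw [← b2, show ((e : ℝ) + (k + 1) * j) * (1 / (k + 1)) - j = e / (k + 1) by field_simp; ring,
        abs_of_nonneg (by positivity)]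
      exact div_le_one_of_le₀ b1 (by positivity)
    filter_upwards [ih (k + 1) g' (acc + j) _ (half_pos hτ), cellw hR hu hc huc,
      Metric.tendsto_nhds.1 ((mom hR hu hc huc k).const_mul (g' : ℝ)) _ (half_pos hτ)]
      with X a1 a2 a3
    have a4 := a2 (fun p => (c + 1 - sz X u p) ^ k * r) (c + 1) (fun p a b => by
      rw [abs_of_nonneg (mul_nonneg (pow_nonneg a.le k) t0)]
      exact (mul_le_of_le_one_left t0 (pow_le_one₀ a.le b)).trans t1) (by positivity)
    have e1 : ∑ p ∈ pw X (u * c) (u * (c + 1)), gp p * ((c + 1 - sz X u p) ^ k *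
        (g + ev (f :: l) (c + 1 - sz X u p))) =
        ∑ p ∈ pw X (u * c) (u * (c + 1)), gp p * ((c + 1 - sz X u p) ^ (k + 1) *
          (g' + ev l (c + 1 - sz X u p))) +
        ∑ p ∈ pw X (u * c) (u * (c + 1)), gp p * ((c + 1 - sz X u p) ^ k * r) +
        g' * ∑ p ∈ pw X (u * c) (u * (c + 1)), (c + 1 - sz X u p) ^ k * (sz X u p * gp p) := by
      rw [mul_sum, ← sum_add_distrib, ← sum_add_distrib]
      refine sum_congr rfl fun p _ => ?_
      rw [ev, ← add_assoc, add_comm (g : ℝ), ← t2]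
      ring
    rw [Real.dist_eq] at a3
    rw [e1]
    push_cast at a1
    rw [← sub_nonneg] at a1
    rw [abs_le] at a4 t3
    rw [abs_lt] at a3
    rw [← le_sub_iff_add_le, abs_le]
    have a5 := le_abs_self (∑ p ∈ pw X (u * c) (u * (c + 1)), gp p *
      ((c + 1 - sz X u p) ^ (k + 1) * (g' + ev l (c + 1 - sz X u p))) + (acc + j) -
      (lam (c + 1) l (k + 1) g' (acc + j)).1)
    have a6 := neg_abs_le (∑ p ∈ pw X (u * c) (u * (c + 1)), gp p *
      ((c + 1 - sz X u p) ^ (k + 1) * (g' + ev l (c + 1 - sz X u p))) + (acc + j) -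
      (lam (c + 1) l (k + 1) g' (acc + j)).1)
    constructor <;> linarith [a3.1, a3.2, a4.1, a4.2, t3.1, t3.2]

/-- The mean over one cell. -/
theorem cell {l : List ℤ} {t : ℤ} (h : near t (lam (c + 1) l 0 0 0) = true) {F : ℝ → ℝ → ℝ}
    (hF : ∀ τ : ℝ, 0 < τ → ∀ᶠ X : ℝ in atTop, ∀ x, 0 < x → x ≤ 1 →
      |F X x - ev l x / 2 ^ 100| ≤ 1 / 2 ^ 40 + τ) :
    Ap (fun X => ∑ p ∈ pw X (u * c) (u * (c + 1)), gp p * F X (c + 1 - sz X u p)) (t / 2 ^ 40)
      (16 / 2 ^ 40) := fun τ hτ => by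
  filter_upwards [lam_ap hR hu hc huc l 0 0 0 1 one_pos, cellw hR hu hc huc, hF _ (half_pos hτ)]
    with X a1 a2 a3
  simp only [pow_zero, Int.cast_zero, zero_add, one_mul, add_zero, Nat.cast_zero, zero_mul] at a1
  have b1 := near_le h a1
  have b2 := a2 _ _ (fun p a b => a3 _ a b) (by positivity)
  simp only [mul_sub, sum_sub_distrib, ← mul_div_assoc, ← sum_div] at b2
  refine (abs_sub_le _ _ _).trans ((add_le_add b2 b1).trans ?_)
  linarith

end Pool.Agent.Lib.MP_4b1228_nt.PP.RB
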