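import Pool.Agent.Lib.MP_4b1228_nt.PP.St3c
import Pool.Agent.Lib.MP_4b1228_nt.PP.R3E
import Pool.Agent.Lib.MP_4b1228_nt.PP.Sv

/-!
Exact rows cut by a condition on the total size of the large primes.
-/

open Finset Real Filter Topology
open scoped Classical

noncomputable section

namespace Pool.Agent.Lib.MP_4b1228_nt.PP.R3.EC

/-- The weight of the set of large primes. -/
def wt (U : ℝ → ℝ) (x : ℕ → ℝ) (L : List Cel) (t : ℝ) (T : Finset ℕ) : ℝ :=
  U (t + ∑ p ∈ T, x p) * Tu.bij (L.map fun c p => c.w (x p)) T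

theorem sum_wt (U : ℝ → ℝ) (x g : ℕ → ℝ) (F : List Cel → ℝ → Finset ℕ → ℝ)
    (h0 : ∀ t S, F [] t S = U t)
    (h1 : ∀ c L t S, F (c :: L) t S = ∑ p ∈ S, c.w (x p) * g p * F L (t + x p) (S.erase p))
    (L : List Cel) (t : ℝ) (S : Finset ℕ) :
    ∑ T ∈ S.powerset, wt U x L t T * ∏ p ∈ T, g p = F L t S := by
  induction L generalizing t S with
  | nil =>
    rw [h0, sum_eq_single_of_mem ∅ (empty_mem_powerset _) fun T _ e => by simp [wt, Tu.bij, e]]
    simp [wt, Tu.bij]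
  | cons c L ih =>
    simp only [h1, ← ih, mul_sum]
    rw [← Tu.swap S fun p T => c.w (x p) * g p * (wt U x L (t + x p) T * ∏ q ∈ T, g q)]
    refine sum_congr rfl fun T _ => ?_
    simp only [wt, List.map_cons, Tu.bij, mul_sum, sum_mul]
    refine sum_congr rfl fun p hp => ?_
    rw [← mul_prod_erase T g hp, ← add_sum_erase T x hp, add_assoc]
    ring

theorem sum_wtM (U : ℝ → ℝ) (x : ℕ → ℝ) (L : List Cel) (t : ℝ) (S : Finset ℕ) :
    ∑ T ∈ S.powerset, wt U x L t T * ∏ p ∈ T, gp p = tupM U x L t S :=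
  sum_wt U x gp (tupM U x) (fun _ _ => rfl) (fun _ _ _ _ => rfl) L t S

theorem sum_wtC (U : ℝ → ℝ) (x : ℕ → ℝ) (L : List Cel) (t : ℝ) (S : Finset ℕ) :
    ∑ T ∈ S.powerset, wt U x L t T * ∏ _p ∈ T, (1 : ℝ) = tupC U x L t S :=
  sum_wt U x (fun _ => 1) (tupC U x) (fun _ _ => rfl) (fun _ _ _ _ => by simp [tupC]) L t S

theorem wt_big {U : ℝ → ℝ} {x : ℕ → ℝ} {L : List Cel} {t Z : ℝ} (hL : ∀ c ∈ L, Z ≤ c.a)
    {T : Finset ℕ} (h : wt U x L t T ≠ 0) {p : ℕ} (hp : p ∈ T) : Z ≤ x p := by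
  obtain ⟨φ, a, b⟩ := (Tu.bij_card (right_ne_zero_of_mul h)).2 p hp
  obtain ⟨c, hc, rfl⟩ := List.mem_map.1 a
  by_contra e
  exact b (if_neg fun f => e ((hL c hc).trans f.1))

theorem sum_ext {α : Type} {S S' : Finset α} {F : α → ℝ} (h : ∀ p, F p ≠ 0 → (p ∈ S ↔ p ∈ S')) :
    ∑ p ∈ S, F p = ∑ p ∈ S', F p := by
  rw [← sum_filter_ne_zero S, ← sum_filter_ne_zero S']
  refine sum_congr ?_ fun _ _ => rfl
  ext p
  simp only [mem_filter]
  exact ⟨fun a => ⟨(h p a.2).1 a.1, a.2⟩, fun a => ⟨(h p a.2).2 a.1, a.2⟩⟩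

theorem tup_ext {L : List (ℕ → ℝ)} {S S' : Finset ℕ}
    (h : ∀ φ ∈ L, ∀ p, φ p ≠ 0 → (p ∈ S ↔ p ∈ S')) : Tu.tup L S = Tu.tup L S' := by
  induction L generalizing S S' with
  | nil => rfl
  | cons φ L ih =>
    simp only [Tu.tup]
    rw [sum_congr rfl fun p _ => congrArg (φ p * ·) (ih (S' := S'.erase p) fun ψ a q b => by
      simp only [mem_erase, h ψ (List.mem_cons_of_mem _ a) q b])]
    exact sum_ext fun p e => h φ (List.mem_cons_self ..) p (left_ne_zero_of_mul e)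

theorem tup_nonneg {L : List (ℕ → ℝ)} (h : ∀ φ ∈ L, ∀ p, 0 ≤ φ p) (S : Finset ℕ) :
    0 ≤ Tu.tup L S := by
  induction L generalizing S with
  | nil => exact zero_le_one
  | cons φ L ih =>
    exact sum_nonneg fun p _ => mul_nonneg (h φ (List.mem_cons_self ..) p)
      (ih (fun ψ a => h ψ (List.mem_cons_of_mem _ a)) _)

/-- Large and small primes separate. -/
theorem split {U : ℝ → ℝ} {x : ℕ → ℝ} {L : List Cel} {Z : ℝ} (hL : ∀ c ∈ L, Z ≤ c.a)
    {L₁ L₂ : List (ℕ → ℝ)} (h : ∀ φ ∈ L₁ ++ L₂, ∀ p, φ p ≠ 0 → x p < Z) (σ : ℝ) (g : ℕ → ℝ)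
    (R : Finset ℕ) :
    ∑ T ∈ R.powerset, (∑ _j ∈ range 1, cv (fun T => σ * cv (wt U x L 0) (Tu.bij L₁) T)
      (Tu.bij L₂) T) * ∏ p ∈ T, g p = σ * (∑ T ∈ R.powerset, wt U x L 0 T * ∏ p ∈ T, g p) *
        Tu.tup ((L₁ ++ L₂).map fun φ p => φ p * g p) R := by
  have e : ∀ T, cv (fun T => σ * cv (wt U x L 0) (Tu.bij L₁) T) (Tu.bij L₂) T =
      σ * cv (wt U x L 0) (Tu.bij (L₁ ++ L₂)) T := fun T => by
    have : Tu.bij (L₁ ++ L₂) = cv (Tu.bij L₁) (Tu.bij L₂) := funext (Tu.bij_append L₁ L₂)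
    rw [this, ← Sv.cv_assoc, cv, cv, mul_sum]
    simp only [mul_assoc]
  simp only [sum_range_one, e, mul_assoc, ← mul_sum]
  rw [Sv.sum_cv, sum_mul]
  refine congrArg _ (sum_congr rfl fun T _ => ?_)
  by_cases f : wt U x L 0 T = 0
  · simp [f]
  rw [Tu.sum_bij]
  refine congrArg _ (tup_ext fun ψ a p b => ?_)
  obtain ⟨φ, c, rfl⟩ := List.mem_map.1 a
  exact ⟨fun d => (mem_sdiff.1 d).1, fun d => mem_sdiff.2 ⟨d, fun d' =>
    absurd (wt_big hL f d') (not_le.2 (h φ c p (left_ne_zero_of_mul b)))⟩⟩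

theorem cel_bd (L : List Cel) : ∃ C : ℝ, 0 ≤ C ∧ ∀ c ∈ L, ∀ t, |c.w t| ≤ C := by
  induction L with
  | nil => exact ⟨0, le_rfl, by simp⟩
  | cons c L ih =>
    obtain ⟨C, c0, hC⟩ := ih
    refine ⟨C + (|c.α| + |c.β| * (|c.a| + |c.b|)), by positivity, fun d hd t => ?_⟩
    rcases List.mem_cons.1 hd with rfl | hd
    · rw [Cel.w]
      split_ifs with e
      · have : |t| ≤ |d.a| + |d.b| := abs_le.2 ⟨by linarith [neg_abs_le d.a, abs_nonneg d.b, e.1],
          by linarith [le_abs_self d.b, abs_nonneg d.a, e.2]⟩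
        refine (abs_add_le _ _).trans ?_
        rw [abs_mul]
        have := mul_le_mul_of_nonneg_left this (abs_nonneg d.β)
        linarith
      · rw [abs_zero]; positivity
    · exact (hC d hd t).trans (le_add_of_nonneg_right (by positivity))

theorem le_sz {X u Z : ℝ} (hX : 1 < X) (hu : 0 < u) {p : ℕ} (hp : 0 < p) :
    Z ≤ sz X u p ↔ X ^ (u * Z) ≤ p := by
  have L0 := log_pos hX
  have X0 : 0 < X := by linarith
  rw [sz, le_div_iff₀ (by positivity), ← log_le_log_iff (rpow_pos_of_pos X0 _) (by exact_mod_cast hp),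
    log_rpow X0]
  ring_nf

theorem prod_le {X u A : ℝ} (hX : 1 < X) (hu : 0 < u) {T : Finset ℕ} (hT : ∀ p ∈ T, p.Prime)
    (h : ∑ p ∈ T, sz X u p ≤ A) : ∏ p ∈ T, (p : ℝ) ≤ X ^ (u * A) := by
  have L0 := log_pos hX
  rw [sum_sz, div_le_iff₀ (by positivity)] at h
  have e : ∏ p ∈ T, (p : ℝ) = exp (∑ p ∈ T, log (p : ℝ)) := by
    rw [exp_sum]
    exact prod_congr rfl fun p hp => (exp_log (by exact_mod_cast (hT p hp).pos)).symm
  rw [rpow_def_of_pos (by linarith), e]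
  exact exp_le_exp.2 (by linarith)

/-- The row for given small slots. -/
theorem core (hR : RhoStmt) (hW : RowStmt) (hE : ExSetStmt) {ι : Type} {ε γ u Z A σ v : ℝ}
    {L : List Cel} (hε : 0 < ε) (ε2 : ε ≤ 2) (hγ : 0 < γ) (hu : 0 < u) (hZ : ε ≤ u * Z)
    (hA : u * A ≤ 1) (hL : ∀ c ∈ L, Z ≤ c.a) (hv : LawC Z A σ L v) (L₁ L₂ : List ι)
    (φ : ι → ℝ → ℕ → ℝ) (b μ : ι → ℝ) (h : ∀ i ∈ L₁ ++ L₂, Tu.Fac ε (φ i) (b i) (μ i))
    (hb : ∀ i ∈ L₁ ++ L₂, b i ≤ 1)
    (hφ : ∀ᶠ X : ℝ in atTop, ∀ i ∈ L₁ ++ L₂, ∀ p, 0 ≤ φ i X p ∧ (φ i X p ≠ 0 → sz X u p < Z))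
    (h₁ : u * A + (L₁.map b).sum ≤ 1 - γ)
    (h₂ : 4 * (L₂.map b).sum + (u * A + (L₁.map b).sum) ≤ 2 - γ) :
    Row (fun X n => σ * (Tu.tup ((L₁ ++ L₂).map fun i => φ i X) (RP X ε n) *
      tupC (fun t => if t ≤ A then 1 else 0) (sz X u) L 0 (RP X ε n)))
      (((L₁ ++ L₂).map μ).prod * v) := by
  obtain ⟨C, c1, hC⟩ := Tu.common _ h
  obtain ⟨D, d0, hD⟩ := cel_bd L
  obtain ⟨U, hU⟩ : ∃ U : ℝ → ℝ, U = fun t => if t ≤ A then 1 else 0 := ⟨_, rfl⟩
  obtain ⟨m, hm⟩ : ∃ m, m = ((L₁ ++ L₂).map μ).prod := ⟨_, rfl⟩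
  have lim := Tu.tup_lim hR hε ε2 _ h
  rw [← hm] at lim ⊢
  rw [← hU]
  have sm : ∀ X : ℝ, (∀ i ∈ L₁ ++ L₂, ∀ p, 0 ≤ φ i X p ∧ (φ i X p ≠ 0 → sz X u p < Z)) →
      ∀ ψ ∈ (L₁.map fun i => φ i X) ++ L₂.map fun i => φ i X, ∀ p, ψ p ≠ 0 → sz X u p < Z :=
    fun X a ψ c p => by
      rw [← List.map_append] at c
      obtain ⟨i, hi, rfl⟩ := List.mem_map.1 c
      exact (a i hi p).2
  refine hW.2.2.2.2.2 _ _ fun τ hτ => hW.2.2.2.2.1 _ _ _ _ (exSet' hE
    (C := |σ| * (2 ^ ⌊(u * A + (L₁.map b).sum) / ε⌋₊ *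
      ((L.length * D) ^ L.length * (L₁.length * C) ^ L₁.length)) + (L₂.length * C) ^ L₂.length)
    1 (fun _ => u * A + (L₁.map b).sum) (fun _ => (L₂.map b).sum)
    (fun X _ T => σ * cv (wt U (sz X u) L 0) (Tu.bij (L₁.map fun i => φ i X)) T)
    (fun X _ => Tu.bij (L₂.map fun i => φ i X)) hε hγ (fun _ _ => ⟨h₁, h₂⟩) ?_) le_rfl ?_
  · have τ0 : 0 < τ / (|m| + 1) := by positivity
    have t1 : m * v - τ < (v - τ / (|m| + 1)) * m := by
      have : τ / (|m| + 1) * m < τ := by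
        rw [div_mul_eq_mul_div, div_lt_iff₀ (by positivity)]
        nlinarith [le_abs_self m]
      linarith
    filter_upwards [hC, hφ, hv u _ hu hA τ0, (lim.const_mul _).eventually_const_lt t1,
      eventually_gt_atTop 1] with X a1 a2 a3 a4 X1
    have X0 : 0 < X := by linarith
    have bd : ∀ L' : List ι, (∀ i ∈ L', i ∈ L₁ ++ L₂) → ∀ S,
        |Tu.bij (L'.map fun i => φ i X) S| ≤ (L'.length * C) ^ L'.length ∧
        (Tu.bij (L'.map fun i => φ i X) S ≠ 0 → ∏ p ∈ S, (p : ℝ) ≤ X ^ (L'.map b).sum) :=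
      fun L' e S => by
        refine ⟨?_, Tu.bij_prod L' _ b X0 fun i hi p => (a1 i (e i hi) p).2⟩
        have := Tu.bij_le (L := L'.map fun i => φ i X) (C := C) (by linarith) (fun θ hθ p => by
          obtain ⟨i, hi, rfl⟩ := List.mem_map.1 hθ
          exact (a1 i (e i hi) p).1) S
        rwa [List.length_map] at this
    have b1 := bd L₁ fun _ => List.mem_append_left _
    have b2 := bd L₂ fun _ => List.mem_append_right _
    have b3 : ∀ S, |wt U (sz X u) L 0 S| ≤ (L.length * D) ^ L.length := fun S => by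
      have := Tu.bij_le (L := L.map fun c p => c.w (sz X u p)) d0 (fun θ hθ p => by
        obtain ⟨c, hc, rfl⟩ := List.mem_map.1 hθ
        exact hD c hc _) S
      rw [List.length_map] at this
      rw [wt, hU]
      dsimp only
      split_ifs
      · rwa [one_mul]
      · rw [zero_mul, abs_zero]; positivity
    refine ⟨fun _ _ T hT => ?_, ?_⟩
    · have s1 : σ * cv (wt U (sz X u) L 0) (Tu.bij (L₁.map fun i => φ i X)) T ≠ 0 →
          ∏ p ∈ T, (p : ℝ) ≤ X ^ (u * A + (L₁.map b).sum) := fun e => by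
        rw [rpow_add X0]
        refine Sv.cv_supp (fun S hS f => prod_le X1 hu (fun p hp => (hT p (hS hp)).1) ?_)
          (fun S _ => (b1 S).2) (right_ne_zero_of_mul e)
        have := left_ne_zero_of_mul f
        rw [hU, zero_add] at this
        by_contra f'
        exact this (if_neg f')
      have p1 : 0 ≤ (L₂.length * C) ^ L₂.length := by positivity
      refine ⟨?_, (b2 T).1.trans (le_add_of_nonneg_left (by positivity)), s1, (b2 T).2⟩
      by_cases e : σ * cv (wt U (sz X u) L 0) (Tu.bij (L₁.map fun i => φ i X)) T = 0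
      · rw [e, abs_zero]; positivity
      have c := Sv.card_le X1 hε (fun p hp => (hT p hp).2) (s1 e)
      rw [abs_mul]
      refine le_add_of_le_of_nonneg (mul_le_mul_of_nonneg_left
        ((Sv.cv_abs (fun S _ => b3 S) fun S _ => (b1 S).1).trans ?_) (abs_nonneg _)) p1
      exact mul_le_mul_of_nonneg_right (pow_le_pow_right₀ one_le_two c) (by positivity)
    · rw [split hL (sm X a2), ← List.map_append, List.map_map]
      have e1 : ∑ T ∈ (PR X ε).powerset, wt U (sz X u) L 0 T * ∏ p ∈ T, gp p =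
          tupM U (sz X u) L 0 (PR X (u * Z)) := by
        rw [← sum_wtM]
        refine sum_ext fun T e => ?_
        simp only [mem_powerset, subset_iff, PR, mem_filter]
        refine forall₂_congr fun p hp => and_congr_right fun _ => and_congr_right fun pp => ?_
        have := (le_sz X1 hu pp.pos).1 (wt_big hL (left_ne_zero_of_mul e) hp)
        exact iff_of_true ((rpow_le_rpow_of_exponent_le X1.le hZ).trans this) this
      have e2 : Tu.tup ((L₁ ++ L₂).map ((fun φ p => φ p * gp p) ∘ fun i => φ i X)) (PR X ε) =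
          Tu.tup ((L₁ ++ L₂).map fun i p => φ i X p * (rho p / p)) (pw X ε 2) := by
        refine tup_ext fun ψ e p f => ?_
        obtain ⟨i, hi, rfl⟩ := List.mem_map.1 e
        have : (p : ℝ) < X ^ (2 : ℝ) := ((a1 i hi p).2 (left_ne_zero_of_mul f)).trans_lt
          (rpow_lt_rpow_of_exponent_lt X1 (by linarith [hb i hi]))
        rw [mem_pw, PR, mem_filter, mem_Icc]
        refine ⟨fun a => ⟨a.2.1, a.2.2, this⟩, fun a => ⟨⟨a.1.pos, Nat.le_floor ?_⟩, a.1, a.2.1⟩⟩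
        rw [← rpow_two]
        exact this.le
      rw [e1, e2, hU]
      refine a4.le.trans (mul_le_mul_of_nonneg_right a3 (tup_nonneg (fun ψ e p => ?_) _))
      obtain ⟨i, hi, rfl⟩ := List.mem_map.1 e
      exact mul_nonneg (a2 i hi p).1 (by positivity)
  · filter_upwards [hφ] with X a2 n _ _
    have := split (U := U) hL (sm X a2) σ (fun _ => 1) (RP X ε n)
    rw [sum_wtC, ← List.map_append] at this
    simp only [prod_const_one, mul_one, List.map_id'] at this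
    rw [this]
    exact le_of_eq (by ring)

end Pool.Agent.Lib.MP_4b1228_nt.PP.R3.EC

namespace Pool.Agent.Lib.MP_4b1228_nt.PP.R3

theorem ecS (hR : RhoStmt) (hW : RowStmt) (hE : ExSetStmt) : ECStmt := by
  intro Q j₁ j₂ Z A σ v L hQ Z0 A0 hj hL h₁ h₂ hv
  refine (RowQ.const hW hQ 0).raise (a := 0) (by simp) fun u hu _ uQ _ => ?_
  refine expand hW (ε₁ := min 2 (u * Z)) hj (by positivity) _ fun ε a1 a2 E b1 b2 => ?_
  obtain ⟨a2, a3⟩ := le_min_iff.1 a2
  have j1 : 0 ≤ j₁ * Z := by positivity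
  have j2 : 0 ≤ j₂ * Z := by positivity
  have k1 : (((E.take j₁).length : ℕ) : ℝ) ≤ j₁ := by exact_mod_cast List.length_take_le ..
  have k2 : (((E.drop j₁).length : ℕ) : ℝ) ≤ j₂ := by
    have : (E.drop j₁).length ≤ j₂ := by rw [List.length_drop]; omega
    exact_mod_cast this
  have k3 := mul_le_mul_of_nonneg_right k1 (a1.le.trans a3)
  have k4 := mul_le_mul_of_nonneg_right k2 (a1.le.trans a3)
  have k5 := mul_le_mul_of_nonneg_left h₁ hu.le
  have k6 := mul_le_mul_of_nonneg_left h₂ hu.le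
  have k7 : ∀ i ∈ E.take j₁ ++ E.drop j₁, (u : ℝ) * Z ≤ 1 := fun i hi => by
    rw [List.take_append_drop] at hi
    have : 1 ≤ j₁ ∨ 1 ≤ j₂ := by have := List.length_pos_of_mem hi; omega
    have Q0 : (0 : ℝ) ≤ Q := Nat.cast_nonneg Q
    have : Z ≤ Q := by
      rcases this with f | f
      · have : (1 : ℝ) ≤ j₁ := by exact_mod_cast f
        nlinarith
      · have : (1 : ℝ) ≤ j₂ := by exact_mod_cast f
        nlinarith
    linarith [mul_le_mul_of_nonneg_left this hu.le]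
  have := EC.core hR hW hE a1 a2 (sub_pos.2 uQ) hu a3 (by nlinarith) (fun c hc => (hL c hc).1) hv
    (E.take j₁) (E.drop j₁) (fun e X p => sm Z e (sz X u p)) (fun _ => u * Z) (smI Z (ε / u))
    (fun i hi => sm_fac hR hu a1 a3 (by linarith [k7 i hi])
      (b2 i (by rwa [List.take_append_drop] at hi))) k7
    (by
      filter_upwards [eventually_gt_atTop 1] with X X1 i _ p
      unfold sm
      split_ifs with f
      · exact ⟨pow_nonneg (sz_nonneg X1 hu p) _, fun _ => f⟩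
      · exact ⟨le_rfl, fun e => absurd rfl e⟩)
    (by simp only [List.map_const', List.sum_replicate, nsmul_eq_mul]; nlinarith)
    (by simp only [List.map_const', List.sum_replicate, nsmul_eq_mul]; nlinarith)
  rw [List.take_append_drop] at this
  simpa only [tupF_eq] using this

end Pool.Agent.Lib.MP_4b1228_nt.PP.R3
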