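import Pool.Agent.Lib.MP_4b1228_nt.PP.St3c
import Pool.Agent.Lib.MP_4b1228_nt.PP.Mert2

/-!
The model mean of cut tuples tends to an iterated integral.
-/

open Finset Real Filter Topology MeasureTheory
open scoped Classical

noncomputable section

namespace Pool.Agent.Lib.MP_4b1228_nt.PP.R3

/-- Iterated integrals with a weight on the total size. -/
def JG {ι : Type} (U : ℝ → ℝ) (a b : ι → ℝ) (f : ι → ℝ → ℝ) : List ι → ℝ → ℝ
  | [], t => U t
  | i :: L, t => ∫ y in a i..b i, f i y * JG U a b f L (t + y)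

/-- A continuous nonnegative density on `[a, b]`. -/
def Dn (a b : ℝ) (f : ℝ → ℝ) : Prop :=
  a ≤ b ∧ ContinuousOn f (Set.Icc a b) ∧ ∀ y ∈ Set.Icc a b, 0 ≤ f y

theorem Dn.ii {a b : ℝ} {f F : ℝ → ℝ} (h : Dn a b f) (hF : Antitone F) {a' b' : ℝ} (h1 : a ≤ a')
    (h2 : a' ≤ b') (h3 : b' ≤ b) : IntervalIntegrable (fun y => f y * F y) volume a' b' :=
  hF.intervalIntegrable.continuousOn_mul (by
    rw [Set.uIcc_of_le h2]; exact h.2.1.mono (Set.Icc_subset_Icc h1 h3))

theorem sh {F : ℝ → ℝ} (hF : Antitone F) (t : ℝ) : Antitone fun y => F (t + y) :=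
  fun _ _ h => hF (by linarith)

theorem JG_bd {ι : Type} {U : ℝ → ℝ} {a b : ι → ℝ} {f : ι → ℝ → ℝ} (hU : Antitone U)
    (U0 : ∀ t, 0 ≤ U t ∧ U t ≤ 1) {L : List ι} (h : ∀ i ∈ L, Dn (a i) (b i) (f i)) :
    Antitone (JG U a b f L) ∧ ∃ B : ℝ, ∀ t, 0 ≤ JG U a b f L t ∧ JG U a b f L t ≤ B := by
  induction L with
  | nil => exact ⟨hU, 1, U0⟩
  | cons i L ih =>
    obtain ⟨h1, B, h2⟩ := ih fun j hj => h j (List.mem_cons_of_mem _ hj)
    have d := h i (List.mem_cons_self ..)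
    refine ⟨fun s t hst => ?_, ∫ y in a i..b i, f i y * B, fun t => ⟨?_, ?_⟩⟩
    · exact intervalIntegral.integral_mono_on d.1 (d.ii (sh h1 t) le_rfl d.1 le_rfl)
        (d.ii (sh h1 s) le_rfl d.1 le_rfl) fun y hy =>
          mul_le_mul_of_nonneg_left (h1 (by linarith)) (d.2.2 y hy)
    · exact intervalIntegral.integral_nonneg d.1 fun y hy => mul_nonneg (d.2.2 y hy) (h2 _).1
    · exact intervalIntegral.integral_mono_on d.1 (d.ii (sh h1 t) le_rfl d.1 le_rfl)
        (d.ii antitone_const le_rfl d.1 le_rfl) fun y hy =>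
          mul_le_mul_of_nonneg_left (h2 _).2 (d.2.2 y hy)

theorem JG_mono {ι : Type} {U : ℝ → ℝ} {a b : ι → ℝ} {f g : ι → ℝ → ℝ} (hU : Antitone U)
    (U0 : ∀ t, 0 ≤ U t ∧ U t ≤ 1) {L : List ι} (hf : ∀ i ∈ L, Dn (a i) (b i) (f i))
    (hg : ∀ i ∈ L, Dn (a i) (b i) (g i))
    (h : ∀ i ∈ L, ∀ y ∈ Set.Icc (a i) (b i), f i y ≤ g i y) (t : ℝ) :
    JG U a b f L t ≤ JG U a b g L t := by
  induction L generalizing t with
  | nil => exact le_rfl
  | cons i L ih =>
    have hf' := fun j hj => hf j (List.mem_cons_of_mem _ hj)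
    have hg' := fun j hj => hg j (List.mem_cons_of_mem _ hj)
    obtain ⟨h1, B, h2⟩ := JG_bd hU U0 hf'
    have d := hf i (List.mem_cons_self ..)
    have e := hg i (List.mem_cons_self ..)
    exact intervalIntegral.integral_mono_on d.1 (d.ii (sh h1 t) le_rfl d.1 le_rfl)
      (e.ii (sh (JG_bd hU U0 hg').1 t) le_rfl d.1 le_rfl) fun y hy =>
        mul_le_mul (h i (List.mem_cons_self ..) y hy)
          (ih hf' hg' (fun j hj => h j (List.mem_cons_of_mem _ hj)) _) (h2 _).1 (e.2.2 y hy)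

/-- Equidistribution on intervals gives equidistribution for monotone functions. -/
theorem equi {P : Finset ℕ} {x g : ℕ → ℝ} {h F : ℝ → ℝ} {a b H B τ : ℝ} {m : ℕ} (hm : 1 ≤ m)
    (g0 : ∀ p ∈ P, a ≤ x p → x p < b → 0 ≤ g p) (d : Dn a b h)
    (hH : ∀ y ∈ Set.Icc a b, h y ≤ H)
    (hF : Antitone F) (F0 : ∀ y, 0 ≤ F y ∧ F y ≤ B)
    (hν : ∀ a' b', a ≤ a' → a' ≤ b' → b' ≤ b →
      |∑ p ∈ P with a' ≤ x p ∧ x p < b', g p - ∫ y in a'..b', h y| ≤ τ) :
    |∑ p ∈ P with a ≤ x p ∧ x p < b, g p * F (x p) - ∫ y in a..b, h y * F y| ≤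
      B * (H * ((b - a) / m)) + m * (B * τ) := by
  obtain ⟨δ, hδ⟩ : ∃ δ, δ = (b - a) / m := ⟨_, rfl⟩
  have m0 : (0 : ℝ) < m := by exact_mod_cast hm
  have δ0 : 0 ≤ δ := hδ ▸ div_nonneg (sub_nonneg.2 d.1) m0.le
  have δ1 : a + m * δ = b := by rw [hδ]; field_simp; ring
  have τ0 : 0 ≤ τ := (abs_nonneg _).trans (hν a a le_rfl le_rfl d.1)
  have H0 : 0 ≤ H := (d.2.2 a ⟨le_rfl, d.1⟩).trans (hH a ⟨le_rfl, d.1⟩)
  have key : ∀ n : ℕ, n ≤ m → |∑ p ∈ P with a ≤ x p ∧ x p < a + n * δ, g p * F (x p) -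
      ∫ y in a..a + n * δ, h y * F y| ≤ (F a - F (a + n * δ)) * (H * δ) + n * (B * τ) := by
    intro n hn
    induction n with
    | zero =>
      rw [filter_false_of_mem fun p _ e => by simp at e; linarith [e.1, e.2]]
      simp
    | succ n ih =>
      have ih := ih (by omega)
      obtain ⟨s, hs⟩ : ∃ s, s = a + n * δ := ⟨_, rfl⟩
      have e1 : a + (n + 1 : ℕ) * δ = s + δ := by rw [hs]; push_cast; ring
      have s1 : a ≤ s := by rw [hs]; have : 0 ≤ n * δ := by positivity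
                            linarith
      have s2 : s + δ ≤ b := by
        rw [← e1, ← δ1]
        have : ((n + 1 : ℕ) : ℝ) ≤ m := by exact_mod_cast hn
        nlinarith
      have s3 : s ≤ s + δ := by linarith
      rw [e1]
      rw [← hs] at ih
      have e2 : ∑ p ∈ P with a ≤ x p ∧ x p < s + δ, g p * F (x p) =
          ∑ p ∈ P with a ≤ x p ∧ x p < s, g p * F (x p) +
            ∑ p ∈ P with s ≤ x p ∧ x p < s + δ, g p * F (x p) := by
        simp only [sum_filter, ← sum_add_distrib]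
        refine sum_congr rfl fun p _ => ?_
        by_cases c : x p < s
        · rw [if_neg (c := s ≤ x p ∧ _) fun e => by linarith [e.1], add_zero]
          exact if_congr ⟨fun e => ⟨e.1, c⟩, fun e => ⟨e.1, by linarith⟩⟩ rfl rfl
        · rw [if_neg (c := _ ∧ x p < s) fun e => c e.2, zero_add]
          exact if_congr ⟨fun e => ⟨not_lt.1 c, e.2⟩, fun e => ⟨by linarith [e.1], e.2⟩⟩ rfl rfl
      rw [e2, ← intervalIntegral.integral_add_adjacent_intervals
        (d.ii hF le_rfl s1 (by linarith)) (d.ii hF s1 s3 s2)]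
      have sub : ∀ y ∈ Set.Icc s (s + δ), y ∈ Set.Icc a b := fun y hy =>
        ⟨s1.trans hy.1, hy.2.trans s2⟩
      have i1 : ∀ c : ℝ, IntervalIntegrable (fun y => h y * c) volume s (s + δ) := fun c =>
        d.ii antitone_const s1 s3 s2
      have n1 : ∫ y in s..s + δ, h y ≤ H * δ := by
        have := intervalIntegral.integral_mono_on s3 (by simpa using i1 1)
          (intervalIntegrable_const (c := H)) fun y hy => hH y (sub y hy)
        simpa [mul_comm] using this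
      have n0 : 0 ≤ ∫ y in s..s + δ, h y :=
        intervalIntegral.integral_nonneg s3 fun y hy => d.2.2 y (sub y hy)
      have a1 : ∫ y in s..s + δ, h y * F y ≤ (∫ y in s..s + δ, h y) * F s := by
        rw [← intervalIntegral.integral_mul_const]
        exact intervalIntegral.integral_mono_on s3 (d.ii hF s1 s3 s2) (i1 _) fun y hy =>
          mul_le_mul_of_nonneg_left (hF hy.1) (d.2.2 y (sub y hy))
      have a2 : (∫ y in s..s + δ, h y) * F (s + δ) ≤ ∫ y in s..s + δ, h y * F y := by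
        rw [← intervalIntegral.integral_mul_const]
        exact intervalIntegral.integral_mono_on s3 (i1 _) (d.ii hF s1 s3 s2) fun y hy =>
          mul_le_mul_of_nonneg_left (hF hy.2) (d.2.2 y (sub y hy))
      have gp0 : ∀ p ∈ P.filter fun p => s ≤ x p ∧ x p < s + δ, 0 ≤ g p := fun p hp =>
        g0 p (mem_filter.1 hp).1 (s1.trans (mem_filter.1 hp).2.1) ((mem_filter.1 hp).2.2.trans_le s2)
      have b1 : ∑ p ∈ P with s ≤ x p ∧ x p < s + δ, g p * F (x p) ≤
          (∑ p ∈ P with s ≤ x p ∧ x p < s + δ, g p) * F s := by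
        rw [sum_mul]
        exact sum_le_sum fun p hp =>
          mul_le_mul_of_nonneg_left (hF (mem_filter.1 hp).2.1) (gp0 p hp)
      have b2 : (∑ p ∈ P with s ≤ x p ∧ x p < s + δ, g p) * F (s + δ) ≤
          ∑ p ∈ P with s ≤ x p ∧ x p < s + δ, g p * F (x p) := by
        rw [sum_mul]
        exact sum_le_sum fun p hp =>
          mul_le_mul_of_nonneg_left (hF (mem_filter.1 hp).2.2.le) (gp0 p hp)
      obtain ⟨c1, c2⟩ := abs_le.1 (hν s (s + δ) s1 s3 s2)
      obtain ⟨c3, c4⟩ := abs_le.1 ih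
      have f1 := hF s3
      have f2 := mul_le_mul_of_nonneg_right n1 (sub_nonneg.2 f1)
      have f3 := mul_le_mul_of_nonneg_right c1 (F0 (s + δ)).1
      have f4 := mul_le_mul_of_nonneg_right c2 (F0 s).1
      have f5 := mul_le_mul_of_nonneg_left (F0 s).2 τ0
      have f6 := mul_le_mul_of_nonneg_left (F0 (s + δ)).2 τ0
      rw [abs_le]
      push_cast
      constructor <;> linarith
  have := key m le_rfl
  rw [δ1] at this
  rw [← hδ]
  refine this.trans (add_le_add_left (mul_le_mul_of_nonneg_right ?_ (by positivity)) _)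
  linarith [(F0 a).2, (F0 b).1]

/-- The density of a cell. -/
def Cel.f (c : Cel) (y : ℝ) : ℝ := (c.α + c.β * y) / y

theorem Cel.dn {c : Cel} (h0 : 0 < c.a) (h1 : c.a ≤ c.b)
    (h2 : ∀ y ∈ Set.Icc c.a c.b, 0 ≤ c.α + c.β * y) : Dn c.a c.b c.f :=
  ⟨h1, ContinuousOn.div (by fun_prop) continuousOn_id fun y hy => (h0.trans_le hy.1).ne',
    fun y hy => div_nonneg (h2 y hy) (h0.trans_le hy.1).le⟩

theorem Cel.int (c : Cel) {a b : ℝ} (h0 : 0 < a) (h1 : a ≤ b) :
    ∫ y in a..b, c.f y = c.α * log (b / a) + c.β * (b - a) := by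
  have : ∫ y in a..b, c.f y = ∫ y in a..b, (c.α * y⁻¹ + c.β) :=
    intervalIntegral.integral_congr fun y hy => by
      rw [Set.uIcc_of_le h1] at hy
      have := (h0.trans_le hy.1).ne'
      simp only [Cel.f]
      field_simp
  have nz : (0 : ℝ) ∉ Set.uIcc a b := by
    rw [Set.uIcc_of_le h1]; exact fun e => absurd e.1 (not_le.2 h0)
  rw [this, intervalIntegral.integral_add
    ((intervalIntegral.intervalIntegrable_inv (f := fun y => y) (fun y hy e => nz (e ▸ hy))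
      continuousOn_id).const_mul _) intervalIntegrable_const,
    intervalIntegral.integral_const_mul, integral_inv nz]
  simp [mul_comm]

theorem flt {X u Z a b : ℝ} (X1 : 1 < X) (hu : 0 < u) (h1 : Z ≤ a) (h2 : u * b ≤ 2) :
    ((PR X (u * Z)).filter fun p => a ≤ sz X u p ∧ sz X u p < b) = pw X (u * a) (u * b) := by
  have L0 := log_pos X1
  have X0 : 0 < X := by linarith
  ext p
  rw [mem_filter, PR, mem_filter, mem_pw, mem_Icc]
  have e : p.Prime → (a ≤ sz X u p ↔ X ^ (u * a) ≤ p) ∧ (sz X u p < b ↔ (p : ℝ) < X ^ (u * b)) :=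
    fun hp => by
      have p0 : (0 : ℝ) < p := by exact_mod_cast hp.pos
      rw [sz, le_div_iff₀ (by positivity), div_lt_iff₀ (by positivity),
        ← log_le_log_iff (rpow_pos_of_pos X0 _) p0, ← log_lt_log_iff p0 (rpow_pos_of_pos X0 _),
        log_rpow X0, log_rpow X0]
      constructor <;> ring_nf
  constructor
  · rintro ⟨⟨-, hp, -⟩, c⟩
    exact ⟨hp, (e hp).1.1 c.1, (e hp).2.1 c.2⟩
  · rintro ⟨hp, c1, c2⟩
    refine ⟨⟨⟨hp.pos, Nat.le_floor ?_⟩, hp, le_trans ?_ c1⟩, (e hp).1.2 c1, (e hp).2.2 c2⟩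
    · rw [← rpow_two]
      exact c2.le.trans (rpow_le_rpow_of_exponent_le X1.le h2)
    · exact rpow_le_rpow_of_exponent_le X1.le (by gcongr)

/-- The mean of a cell weight on all subintervals. -/
theorem cell (hR : RhoStmt) {u Z τ : ℝ} (hu : 0 < u) (hZ : 0 < Z) (hτ : 0 < τ) (c : Cel)
    (h1 : Z ≤ c.a) (h2 : u * c.b ≤ 2) : ∀ᶠ X : ℝ in atTop, ∀ a b, c.a ≤ a → a ≤ b → b ≤ c.b →
      |∑ p ∈ PR X (u * Z) with a ≤ sz X u p ∧ sz X u p < b, (c.α + c.β * sz X u p) * gp p -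
        ∫ y in a..b, c.f y| ≤ τ := by
  obtain ⟨K, hK⟩ : ∃ K, K = |c.α| + |c.β| / u + 1 := ⟨_, rfl⟩
  have K0 : 0 < K := by rw [hK]; positivity
  filter_upwards [mert2 hR (u * Z) (τ / K) (by positivity) (by positivity),
    eventually_gt_atTop 1] with X hX X1 a b a1 a2 a3
  have L0 := log_pos X1
  have b2 : u * b ≤ 2 := le_trans (by gcongr) h2
  have a0 : 0 < a := by linarith
  obtain ⟨e1, e2⟩ := hX gp (fun p _ _ => by rw [gp, sub_self, abs_zero]; positivity) (u * a) (u * b)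
    (by gcongr; linarith) (by gcongr) b2
  rw [flt X1 hu (h1.trans a1) b2, c.int a0 a2]
  rw [mul_div_mul_left _ _ hu.ne'] at e1
  have e3 : ∑ p ∈ pw X (u * a) (u * b), (c.α + c.β * sz X u p) * gp p -
      (c.α * log (b / a) + c.β * (b - a)) =
      c.α * (∑ p ∈ pw X (u * a) (u * b), gp p - log (b / a)) + c.β / (u * log X) *
        (∑ p ∈ pw X (u * a) (u * b), gp p * log p - (u * b - u * a) * log X) := by
    rw [sum_congr rfl
      (g := fun p => c.α * gp p + c.β / (u * log X) * (gp p * log p)) fun p _ => by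
        rw [sz]; ring, sum_add_distrib, ← mul_sum, ← mul_sum]
    field_simp
    ring
  rw [e3]
  refine (abs_add_le _ _).trans ?_
  rw [abs_mul, abs_mul, abs_div, abs_of_pos (a := u * log X) (by positivity)]
  have f1 := mul_le_mul_of_nonneg_left e1 (abs_nonneg c.α)
  have f2 := mul_le_mul_of_nonneg_left e2 (show 0 ≤ |c.β| / (u * log X) by positivity)
  have f3 : |c.β| / (u * log X) * (τ / K * log X) = |c.β| / u * (τ / K) := by field_simp
  have f4 : K * (τ / K) = τ := by field_simp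
  have f5 : 0 < τ / K := by positivity
  rw [hK] at f4
  rw [← hK] at f4
  nlinarith

/-- The limit of the model mean. -/
theorem tupM_lim (hR : RhoStmt) {U : ℝ → ℝ} (hU : Antitone U) (U0 : ∀ t, 0 ≤ U t ∧ U t ≤ 1)
    {u Z : ℝ} (hu : 0 < u) (hZ : 0 < Z) (L : List Cel)
    (h : ∀ c ∈ L, Z ≤ c.a ∧ c.a ≤ c.b ∧ u * c.b ≤ 2 ∧ ∀ y ∈ Set.Icc c.a c.b, 0 ≤ c.α + c.β * y)
    (k : ℕ) {τ : ℝ} (hτ : 0 < τ) : ∀ᶠ X : ℝ in atTop, ∀ (t : ℝ) (S : Finset ℕ),
      S ⊆ PR X (u * Z) → #(PR X (u * Z) \ S) ≤ k →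
      |tupM U (sz X u) L t S - JG U Cel.a Cel.b Cel.f L t| ≤ τ := by
  induction L generalizing k τ with
  | nil => exact Eventually.of_forall fun X t S _ _ => by simp [tupM, JG, hτ.le]
  | cons c L ih =>
    have h' := fun j hj => h j (List.mem_cons_of_mem _ hj)
    obtain ⟨c1, c2, c3, c4⟩ := h c (List.mem_cons_self ..)
    have a0 : 0 < c.a := hZ.trans_le c1
    have d := Cel.dn a0 c2 c4
    obtain ⟨J1, B, J2⟩ := JG_bd hU U0 (f := Cel.f) (L := L) fun j hj =>
      Cel.dn (hZ.trans_le (h' j hj).1) (h' j hj).2.1 (h' j hj).2.2.2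
    have B0 : 0 ≤ B := (J2 0).1.trans (J2 0).2
    obtain ⟨H, hH⟩ := (isCompact_Icc.image_of_continuousOn d.2.1).bddAbove
    have hH : ∀ y ∈ Set.Icc c.a c.b, c.f y ≤ H := fun y hy => hH ⟨y, hy, rfl⟩
    have H0 : 0 ≤ H := (d.2.2 _ ⟨le_rfl, c2⟩).trans (hH _ ⟨le_rfl, c2⟩)
    obtain ⟨M, hM⟩ : ∃ M, M = |∫ y in c.a..c.b, c.f y| + 1 := ⟨_, rfl⟩
    have M0 : 0 < M := by rw [hM]; positivity
    obtain ⟨m, m1, m2⟩ : ∃ m : ℕ, 1 ≤ m ∧ B * (H * ((c.b - c.a) / m)) ≤ τ / 4 := by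
      obtain ⟨m, hm⟩ := exists_nat_gt (B * (H * (c.b - c.a)) / (τ / 4))
      have : 0 ≤ B * (H * (c.b - c.a)) / (τ / 4) := by have := sub_nonneg.2 c2; positivity
      have m0 : (0 : ℝ) < m := this.trans_lt hm
      refine ⟨m, by exact_mod_cast m0, ?_⟩
      rw [div_lt_iff₀ (by positivity)] at hm
      rw [← mul_div_assoc, ← mul_div_assoc, div_le_iff₀ m0]
      linarith
    have t2 : Tendsto (fun X : ℝ => k * (H * c.b * (2 * (X ^ (u * Z))⁻¹) * B)) atTop (𝓝 0) := by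
      have := ((((tendsto_rpow_atTop (mul_pos hu hZ)).inv_tendsto_atTop.const_mul 2).const_mul
        (H * c.b)).mul_const B).const_mul (k : ℝ)
      simpa using this
    filter_upwards [ih h' (k + 1) (τ := τ / 4 / M) (by positivity),
      cell hR hu hZ (τ := τ / 4 / (m * B + 1)) (by positivity) c c1 c3, cell hR hu hZ one_pos c c1 c3,
      t2.eventually_le_const (show 0 < τ / 4 by positivity), eventually_gt_atTop 0]
      with X x1 x2 x3 x4 X0 t S hS hk
    obtain ⟨P, hP⟩ : ∃ P, P = PR X (u * Z) := ⟨_, rfl⟩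
    rw [← hP] at x1 x2 x3 hS hk
    obtain ⟨x, hx⟩ : ∃ x, x = sz X u := ⟨_, rfl⟩
    rw [← hx] at x1 x2 x3 ⊢
    obtain ⟨J, hJ⟩ : ∃ J, J = JG U Cel.a Cel.b Cel.f L := ⟨_, rfl⟩
    rw [← hJ] at x1 J1 J2
    have g0 : ∀ p, 0 ≤ gp p := fun p => by rw [gp]; positivity
    have w0 : ∀ y, 0 ≤ c.w y ∧ c.w y ≤ H * c.b := fun y => by
      rw [Cel.w]
      split_ifs with e
      · have y0 : 0 < y := a0.trans_le e.1
        refine ⟨c4 y ⟨e.1, e.2.le⟩, ?_⟩
        have := hH y ⟨e.1, e.2.le⟩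
        rw [Cel.f, div_le_iff₀ y0] at this
        exact this.trans (mul_le_mul_of_nonneg_left e.2.le H0)
      · exact ⟨le_rfl, mul_nonneg H0 (a0.le.trans c2)⟩
    have sw : ∀ F : ℕ → ℝ, ∑ p ∈ P, c.w (x p) * gp p * F p =
        ∑ p ∈ P with c.a ≤ x p ∧ x p < c.b, (c.α + c.β * x p) * gp p * F p := fun F => by
      rw [sum_filter]
      refine sum_congr rfl fun p _ => ?_
      rw [Cel.w]
      split_ifs <;> simp
    have e1 := equi (P := P) (x := x) (g := fun p => (c.α + c.β * x p) * gp p)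
      (F := fun y => J (t + y)) m1 (fun p _ e f => mul_nonneg (c4 _ ⟨e, f.le⟩) (g0 p)) d hH
      (sh J1 t) (fun y => J2 _) x2
    rw [← sw fun p => J (t + x p)] at e1
    have e2 : ∑ p ∈ P, c.w (x p) * gp p ≤ M := by
      have := sw fun _ => 1
      simp only [mul_one] at this
      rw [this, hM]
      linarith [(abs_le.1 (x3 _ _ le_rfl c2 le_rfl)).2, le_abs_self (∫ y in c.a..c.b, c.f y)]
    have e3 : |∑ p ∈ S, c.w (x p) * gp p * (tupM U x L (t + x p) (S.erase p) - J (t + x p))| ≤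
        τ / 4 := by
      refine (abs_sum_le_sum_abs _ _).trans ((sum_le_sum
        (g := fun p => c.w (x p) * gp p * (τ / 4 / M)) fun p hp => ?_).trans ?_)
      · rw [abs_mul, abs_of_nonneg (mul_nonneg (w0 _).1 (g0 p))]
        refine mul_le_mul_of_nonneg_left (x1 _ _ ((erase_subset _ _).trans hS) ?_)
          (mul_nonneg (w0 _).1 (g0 p))
        refine (card_le_card (t := insert p (P \ S)) fun q hq => ?_).trans
          ((card_insert_le _ _).trans (by omega))
        by_cases e : q = p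
        · exact e ▸ mem_insert_self _ _
        · exact mem_insert_of_mem (mem_sdiff.2 ⟨(mem_sdiff.1 hq).1,
            fun f => (mem_sdiff.1 hq).2 (mem_erase.2 ⟨e, f⟩)⟩)
      · rw [← sum_mul]
        refine (mul_le_mul_of_nonneg_right ((sum_le_sum_of_subset_of_nonneg hS
          fun p _ _ => mul_nonneg (w0 _).1 (g0 p)).trans e2) (by positivity)).trans_eq ?_
        field_simp
    have e4 : |∑ p ∈ P \ S, c.w (x p) * gp p * J (t + x p)| ≤ τ / 4 := by
      refine (abs_sum_le_sum_abs _ _).trans ((sum_le_card_nsmul _ _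
        (H * c.b * (2 * (X ^ (u * Z))⁻¹) * B) fun p hp => ?_).trans (le_trans ?_ x4))
      · rw [abs_of_nonneg (mul_nonneg (mul_nonneg (w0 _).1 (g0 p)) (J2 _).1)]
        have q := (mem_sdiff.1 hp).1
        rw [hP, PR, mem_filter] at q
        have r2 : (rho p : ℝ) ≤ 2 := by
          have := hR.2.2.1 p 1 q.2.1
          rw [pow_one] at this
          exact_mod_cast this
        have r3 : gp p ≤ 2 * (X ^ (u * Z))⁻¹ := by
          rw [gp, ← div_eq_mul_inv]
          exact div_le_div₀ zero_le_two r2 (by positivity) q.2.2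
        exact mul_le_mul (mul_le_mul (w0 _).2 r3 (g0 p) ((w0 0).1.trans (w0 0).2)) (J2 _).2 (J2 _).1
          (mul_nonneg ((w0 0).1.trans (w0 0).2) (by positivity))
      · rw [nsmul_eq_mul]
        exact mul_le_mul_of_nonneg_right (by exact_mod_cast hk)
          (mul_nonneg (mul_nonneg ((w0 0).1.trans (w0 0).2) (by positivity)) B0)
    have e5 : m * (B * (τ / 4 / (m * B + 1))) ≤ τ / 4 := by
      rw [← mul_assoc, ← mul_div_assoc, div_le_iff₀ (by positivity)]
      nlinarith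
    simp only [tupM, JG, ← hJ]
    rw [← sum_sdiff hS] at e1
    simp only [mul_sub, sum_sub_distrib] at e3
    rw [abs_le] at e1 e3 e4 ⊢
    constructor <;> linarith [e1.1, e1.2, e3.1, e3.2, e4.1, e4.2]

theorem cut_anti (A : ℝ) : Antitone fun t : ℝ => if t ≤ A then (1 : ℝ) else 0 := fun s t h => by
  dsimp only
  split_ifs with c d d
  · exact le_rfl
  · exact absurd (h.trans c) d
  · exact zero_le_one
  · exact le_rfl

theorem cut_bd (A t : ℝ) : 0 ≤ (if t ≤ A then (1 : ℝ) else 0) ∧ (if t ≤ A then (1 : ℝ) else 0) ≤ 1 := by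
  split_ifs <;> simp

/-- The law of cut tuples as an iterated integral. -/
theorem lawC_int (hR : RhoStmt) {Z A σ v : ℝ} (hZ : 0 < Z) {L : List Cel}
    (h : ∀ c ∈ L, Z ≤ c.a ∧ c.a ≤ c.b ∧ c.b ≤ 2 * A ∧ ∀ y ∈ Set.Icc c.a c.b, 0 ≤ c.α + c.β * y)
    (hv : v ≤ σ * JG (fun t => if t ≤ A then 1 else 0) Cel.a Cel.b Cel.f L 0) :
    LawC Z A σ L v := by
  intro u τ hu hA hτ
  filter_upwards [tupM_lim hR (cut_anti A) (cut_bd A) hu hZ L (fun c hc => ⟨(h c hc).1, (h c hc).2.1,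
    by nlinarith [(h c hc).2.2.1], (h c hc).2.2.2⟩) 0 (τ := τ / (|σ| + 1)) (by positivity)] with X hX
  have := mul_le_mul_of_nonneg_left (hX 0 _ Subset.rfl (by simp)) (abs_nonneg σ)
  rw [← abs_mul, mul_sub] at this
  have e : |σ| * (τ / (|σ| + 1)) ≤ τ := by
    rw [← mul_div_assoc, div_le_iff₀ (by positivity)]
    nlinarith
  linarith [(abs_le.1 this).1]

end Pool.Agent.Lib.MP_4b1228_nt.PP.R3
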