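import Pool.Agent.Lib.MP_4b1228_nt.PP.R3D

/-!
Closed rational bounds for the model mean of cut tuples.
-/

open Finset Real Filter Topology MeasureTheory

namespace Pool.Agent.Lib.MP_4b1228_nt.PP.R3

/-- A cell with a cubic density `e₀ + e₁ v + e₂ v ^ 2 + e₃ v ^ 3`, `v = y - a`. -/
structure Cub (K : Type) where
  a : K
  b : K
  e₀ : K
  e₁ : K
  e₂ : K
  e₃ : K

section
variable {K : Type} [Field K] [LinearOrder K]

def Cub.d₀ (c : Cub K) (y : K) : K := c.e₀ + (y - c.a) * (c.e₁ + (y - c.a) * (c.e₂ + (y - c.a) * c.e₃))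
def Cub.d₁ (c : Cub K) (y : K) : K := c.e₁ + (y - c.a) * (2 * c.e₂ + (y - c.a) * (3 * c.e₃))
def Cub.d₂ (c : Cub K) (y : K) : K := 2 * c.e₂ + (y - c.a) * (6 * c.e₃)
def Cub.d₃ (c : Cub K) : K := 6 * c.e₃

/-- The iterated integral of the densities against the truncated power `s ^ n / n !`. -/
def ev : List (Cub K) → ℕ → K → K
  | [], n, s => if 0 ≤ s then s ^ n / n.factorial else 0
  | c :: L, n, s =>
    c.e₀ * ev L (n + 1) (s - c.a) + c.e₁ * ev L (n + 2) (s - c.a) +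
      2 * c.e₂ * ev L (n + 3) (s - c.a) + c.d₃ * ev L (n + 4) (s - c.a) -
    (c.d₀ c.b * ev L (n + 1) (s - c.b) + c.d₁ c.b * ev L (n + 2) (s - c.b) +
      c.d₂ c.b * ev L (n + 3) (s - c.b) + c.d₃ * ev L (n + 4) (s - c.b))

/-- The product of `α + β y` with the quadratic that interpolates `1 / y` at `r, m, m`. -/
def mkC (a b α β r m : K) : Cub K :=
  let q₂ := 1 / (r * m ^ 2)
  let q₁ := (2 * a - r - 2 * m) * q₂
  let q₀ := (a ^ 2 - (r + 2 * m) * a + (2 * r + m) * m) * q₂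
  ⟨a, b, (α + β * a) * q₀, (α + β * a) * q₁ + β * q₀, (α + β * a) * q₂ + β * q₁, β * q₂⟩

/-- A lower density. -/
def loC (a b α β : K) : Cub K := mkC a b α β b ((3 * a + b) / 4)

/-- An upper density. -/
def hiC (a b α β : K) : Cub K := mkC a b α β a ((a + 3 * b) / 4)

end

theorem ev_d (L : List (Cub ℝ)) (n : ℕ) (s : ℝ) (h : n ≠ 0 ∨ s ≠ 0 ∨ L ≠ []) :
    HasDerivAt (ev L (n + 1)) (ev L n s) s := by
  induction L generalizing n s with
  | nil =>
    have p : ∀ s : ℝ, HasDerivAt (fun s : ℝ => s ^ (n + 1) / (n + 1).factorial)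
        (s ^ n / n.factorial) s := fun s => by
      refine ((hasDerivAt_pow (n + 1) s).div_const _).congr_deriv ?_
      rw [Nat.factorial_succ]
      push_cast
      have : (n : ℝ) + 1 ≠ 0 := by positivity
      field_simp
    rcases lt_trichotomy s 0 with c | c | c
    · rw [ev, if_neg (not_le.2 c)]
      refine (hasDerivAt_const s 0).congr_of_eventuallyEq ?_
      filter_upwards [Iio_mem_nhds c] with y hy
      rw [ev, if_neg (not_le.2 hy)]
    · subst c
      have n0 : n ≠ 0 := by simpa using h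
      have z : ev ([] : List (Cub ℝ)) n 0 = 0 := by simp [ev, n0]
      rw [z, ← hasDerivWithinAt_univ, ← Set.Iic_union_Ici (a := (0 : ℝ))]
      refine HasDerivWithinAt.union ((hasDerivWithinAt_const _ _ 0).congr (fun y hy => ?_)
        (by simp [ev])) (((p 0).hasDerivWithinAt.congr (fun y hy => ?_) (by simp [ev])).congr_deriv
          (by simp [n0]))
      · rcases (Set.mem_Iic.1 hy).eq_or_lt with e | e
        · simp [ev, e]
        · rw [ev, if_neg (not_le.2 e)]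
      · rw [ev, if_pos (Set.mem_Ici.1 hy)]
    · rw [ev, if_pos c.le]
      refine (p s).congr_of_eventuallyEq ?_
      filter_upwards [Ioi_mem_nhds c] with y hy
      rw [ev, if_pos (le_of_lt hy)]
  | cons c L ih =>
    have q : ∀ (j : ℕ) (r : ℝ), HasDerivAt (fun s => ev L (n + 1 + (j + 1)) (s - r))
        (ev L (n + (j + 1)) (s - r)) s := fun j r => by
      have := (ih (n + (j + 1)) (s - r) (Or.inl (by omega))).comp_sub_const s r
      rwa [show n + (j + 1) + 1 = n + 1 + (j + 1) by omega] at this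
    exact (((((q 0 _).const_mul _).add ((q 1 _).const_mul _)).add ((q 2 _).const_mul _)).add
      ((q 3 _).const_mul _)).sub (((((q 0 _).const_mul _).add ((q 1 _).const_mul _)).add
      ((q 2 _).const_mul _)).add ((q 3 _).const_mul _))

theorem ev_c (L : List (Cub ℝ)) (n : ℕ) : Continuous (ev L (n + 1)) := by
  by_cases h : n ≠ 0 ∨ L ≠ []
  · exact continuous_iff_continuousAt.2 fun s => (ev_d L n s (by tauto)).continuousAt
  · obtain ⟨rfl, rfl⟩ : n = 0 ∧ L = [] := by tauto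
    have : ev ([] : List (Cub ℝ)) (0 + 1) = fun s => max 0 s := by
      ext s
      simp [ev, max_def]
    rw [this]
    fun_prop

theorem ev_int (c : Cub ℝ) (L : List (Cub ℝ)) (s : ℝ)
    (hi : IntervalIntegrable (fun y => c.d₀ y * ev L 0 (s - y)) volume c.a c.b) :
    ∫ y in c.a..c.b, c.d₀ y * ev L 0 (s - y) = ev (c :: L) 0 s := by
  have := MeasureTheory.integral_eq_of_hasDerivAt_off_countable
    (fun y => -(c.d₀ y * ev L 1 (s - y) + c.d₁ y * ev L 2 (s - y) + c.d₂ y * ev L 3 (s - y) +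
      c.d₃ * ev L 4 (s - y))) (fun y => c.d₀ y * ev L 0 (s - y)) (a := c.a) (b := c.b)
    (Set.countable_singleton s) (by
      have := ev_c L 0
      have := ev_c L 1
      have := ev_c L 2
      have := ev_c L 3
      unfold Cub.d₀ Cub.d₁ Cub.d₂
      fun_prop) (fun y hy => by
      have q : ∀ j : ℕ, HasDerivAt (fun y => ev L (j + 1) (s - y)) (-ev L j (s - y)) y := fun j =>
        (ev_d L j (s - y) (Or.inr (Or.inl (sub_ne_zero.2 (Ne.symm hy.2))))).comp_const_sub s y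
      have v : HasDerivAt (fun y => y - c.a) 1 y := (hasDerivAt_id y).sub_const _
      have p0 : HasDerivAt c.d₀ (c.d₁ y) y :=
        ((v.mul ((v.mul ((v.mul_const _).const_add _)).const_add _)).const_add _).congr_deriv
          (by simp only [Cub.d₁, Pi.mul_apply]; ring)
      have p1 : HasDerivAt c.d₁ (c.d₂ y) y :=
        ((v.mul ((v.mul_const _).const_add _)).const_add _).congr_deriv
          (by simp only [Cub.d₂]; ring)
      have p2 : HasDerivAt c.d₂ c.d₃ y :=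
        ((v.mul_const _).const_add _).congr_deriv (by simp only [Cub.d₃]; ring)
      exact (((((p0.mul (q 0)).add (p1.mul (q 1))).add (p2.mul (q 2))).add
        ((q 3).const_mul _)).neg).congr_deriv (by ring)) hi
  rw [this, ev]
  simp only [Cub.d₀, Cub.d₁, Cub.d₂]
  ring

theorem JG_ev {ι : Type} (A : ℝ) {a b : ι → ℝ} (q : ι → Cub ℝ) {L : List ι}
    (h : ∀ i ∈ L, (q i).a = a i ∧ (q i).b = b i ∧ Dn (a i) (b i) (q i).d₀) (t : ℝ) :
    JG (fun t => if t ≤ A then 1 else 0) a b (fun i => (q i).d₀) L t = ev (L.map q) 0 (A - t) := by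
  induction L generalizing t with
  | nil => simp [JG, ev]
  | cons i L ih =>
    have h' := fun j hj => h j (List.mem_cons_of_mem _ hj)
    obtain ⟨e1, e2, d⟩ := h i (List.mem_cons_self ..)
    have := d.ii (sh (JG_bd (cut_anti A) (cut_bd A) fun j hj => (h' j hj).2.2).1 t) le_rfl d.1 le_rfl
    simp only [JG, ih h', ← sub_sub] at this ⊢
    rw [List.map_cons, ← ev_int _ _ _ (by rwa [e1, e2]), e1, e2]

theorem mkC_d {a b α β r m y : ℝ} (hr : 0 < r) (hm : 0 < m) (hy : 0 < y) :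
    (mkC a b α β r m).d₀ y = (α + β * y) / y * (1 - (r - y) * (m - y) ^ 2 / (r * m ^ 2)) := by
  simp only [mkC, Cub.d₀]
  field_simp
  ring

theorem d₀_c (c : Cub ℝ) : Continuous c.d₀ := by unfold Cub.d₀; fun_prop

/-- The hypothesis on the cells. -/
def OkC (Z A : ℝ) (c : Cel) : Prop :=
  Z ≤ c.a ∧ c.a ≤ c.b ∧ c.b ≤ 2 * A ∧ 0 ≤ c.α + c.β * c.a ∧ 0 ≤ c.α + c.β * c.b

theorem OkC.w {Z A : ℝ} {c : Cel} (h : OkC Z A c) : ∀ y ∈ Set.Icc c.a c.b, 0 ≤ c.α + c.β * y :=
  fun y hy => by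
    rcases le_total 0 c.β with e | e
    · nlinarith [hy.1, h.2.2.2.1]
    · nlinarith [hy.2, h.2.2.2.2]

theorem lawC_lo (hR : RhoStmt) {Z A σ : ℝ} (hZ : 0 < Z) (hσ : 0 ≤ σ) {L : List Cel}
    (h : ∀ c ∈ L, OkC Z A c) :
    LawC Z A σ L (σ * ev (L.map fun c => loC c.a c.b c.α c.β) 0 A) := by
  have k : ∀ c ∈ L, ∀ y ∈ Set.Icc c.a c.b,
      0 ≤ (loC c.a c.b c.α c.β).d₀ y ∧ (loC c.a c.b c.α c.β).d₀ y ≤ c.f y := fun c hc y hy => by
    have a0 : 0 < c.a := hZ.trans_le (h c hc).1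
    have y0 : 0 < y := a0.trans_le hy.1
    have b0 : 0 < c.b := y0.trans_le hy.2
    have f0 : 0 ≤ c.f y := div_nonneg ((h c hc).w y hy) y0.le
    have e0 := sub_nonneg.2 hy.2
    obtain ⟨m, hm⟩ : ∃ m, m = (3 * c.a + c.b) / 4 := ⟨_, rfl⟩
    have m0 : 0 < m := by rw [hm]; positivity
    rw [loC, ← hm, mkC_d b0 m0 y0]
    refine ⟨mul_nonneg f0 ?_, mul_le_of_le_one_right f0 (sub_le_self _ (by positivity))⟩
    rw [sub_nonneg, div_le_one (by positivity)]
    have : c.b * m ^ 2 - (c.b - y) * (m - y) ^ 2 = y * ((y - m) ^ 2 + c.b * (2 * m - y)) := by ring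
    rcases le_total y (2 * m) with e | e
    · have : 0 ≤ y * ((y - m) ^ 2 + c.b * (2 * m - y)) := by have := sub_nonneg.2 e; positivity
      linarith
    · have b4 : c.b ≤ 4 * m := by linarith
      have : 0 ≤ (y - m) ^ 2 + c.b * (2 * m - y) := by
        nlinarith [mul_nonneg (sub_nonneg.2 e) (sub_nonneg.2 b4), sq_nonneg (y - 3 * m)]
      nlinarith
  refine lawC_int hR hZ (fun c hc => ⟨(h c hc).1, (h c hc).2.1, (h c hc).2.2.1, (h c hc).w⟩)
    (mul_le_mul_of_nonneg_left ?_ hσ)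
  have d : ∀ c ∈ L, Dn c.a c.b (loC c.a c.b c.α c.β).d₀ := fun c hc =>
    ⟨(h c hc).2.1, (d₀_c _).continuousOn, fun y hy => (k c hc y hy).1⟩
  have := JG_ev A (a := Cel.a) (b := Cel.b) (fun c : Cel => loC c.a c.b c.α c.β) (L := L)
    (fun c hc => ⟨rfl, rfl, d c hc⟩) 0
  rw [sub_zero] at this
  rw [← this]
  exact JG_mono (cut_anti A) (cut_bd A) d
    (fun c hc => Cel.dn (hZ.trans_le (h c hc).1) (h c hc).2.1 (h c hc).w)
    (fun c hc y hy => (k c hc y hy).2) 0

theorem lawC_hi (hR : RhoStmt) {Z A σ : ℝ} (hZ : 0 < Z) (hσ : σ ≤ 0) {L : List Cel}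
    (h : ∀ c ∈ L, OkC Z A c) :
    LawC Z A σ L (σ * ev (L.map fun c => hiC c.a c.b c.α c.β) 0 A) := by
  have k : ∀ c ∈ L, ∀ y ∈ Set.Icc c.a c.b,
      0 ≤ c.f y ∧ c.f y ≤ (hiC c.a c.b c.α c.β).d₀ y := fun c hc y hy => by
    have a0 : 0 < c.a := hZ.trans_le (h c hc).1
    have y0 : 0 < y := a0.trans_le hy.1
    have b0 : 0 < c.b := y0.trans_le hy.2
    have f0 : 0 ≤ c.f y := div_nonneg ((h c hc).w y hy) y0.le
    have e0 := sub_nonneg.2 hy.1
    have m0 : 0 < (c.a + 3 * c.b) / 4 := by positivity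
    rw [hiC, mkC_d a0 m0 y0]
    refine ⟨f0, le_mul_of_one_le_right f0 ?_⟩
    rw [← neg_sub y, neg_mul, neg_div, sub_neg_eq_add]
    exact le_add_of_nonneg_right (by positivity)
  refine lawC_int hR hZ (fun c hc => ⟨(h c hc).1, (h c hc).2.1, (h c hc).2.2.1, (h c hc).w⟩)
    (mul_le_mul_of_nonpos_left ?_ hσ)
  have d : ∀ c ∈ L, Dn c.a c.b (hiC c.a c.b c.α c.β).d₀ := fun c hc =>
    ⟨(h c hc).2.1, (d₀_c _).continuousOn, fun y hy => (k c hc y hy).1.trans (k c hc y hy).2⟩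
  have := JG_ev A (a := Cel.a) (b := Cel.b) (fun c : Cel => hiC c.a c.b c.α c.β) (L := L)
    (fun c hc => ⟨rfl, rfl, d c hc⟩) 0
  rw [sub_zero] at this
  rw [← this]
  exact JG_mono (cut_anti A) (cut_bd A)
    (fun c hc => Cel.dn (hZ.trans_le (h c hc).1) (h c hc).2.1 (h c hc).w) d
    (fun c hc y hy => (k c hc y hy).2) 0

/-- Rational cells. -/
def Cub.cast (c : Cub ℚ) : Cub ℝ := ⟨c.a, c.b, c.e₀, c.e₁, c.e₂, c.e₃⟩

theorem ev_cast (L : List (Cub ℚ)) (n : ℕ) (s : ℚ) :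
    ((ev L n s : ℚ) : ℝ) = ev (L.map Cub.cast) n s := by
  induction L generalizing n s with
  | nil =>
    simp only [ev, List.map_nil, Rat.cast_nonneg]
    split_ifs <;> simp
  | cons c L ih =>
    simp only [ev, List.map_cons, Cub.d₀, Cub.d₁, Cub.d₂, Cub.d₃, Cub.cast]
    push_cast [ih]
    rfl

theorem loC_cast (a b α β : ℚ) : (loC a b α β).cast = loC (a : ℝ) b α β := by
  simp [loC, mkC, Cub.cast]

theorem hiC_cast (a b α β : ℚ) : (hiC a b α β).cast = hiC (a : ℝ) b α β := by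
  simp [hiC, mkC, Cub.cast]

end Pool.Agent.Lib.MP_4b1228_nt.PP.R3
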