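import Pool.Agent.Lib.MP_4b1228_nt.PP.RowQ
import Pool.Agent.Lib.MP_4b1228_nt.PP.CtC6
import Pool.Agent.Lib.MP_4b1228_nt.PP.CtA
import Pool.Agent.Lib.MP_4b1228_nt.PP.CtC1
import Pool.Agent.Lib.MP_4b1228_nt.PP.CtC2
import Pool.Agent.Lib.MP_4b1228_nt.PP.CtE
import Pool.Agent.Lib.MP_4b1228_nt.PP.CtS
import Pool.Agent.Lib.MP_4b1228_nt.PP.CtG

/-!
The row of one large prime from certified cells.
-/

open Finset Real Filter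
open scoped Classical

noncomputable section

namespace Pool.Agent.Lib.MP_4b1228_nt.PP.R3

theorem cellRow (hr : RowStmt) (hh : Ha2Stmt) {α₀ α₁ v : ℝ} (h1 : 1 ≤ α₁) (h : Cell α₀ α₁ v) :
    Row (fun X n => -∑ p ∈ n.primeFactors,
      if X ^ α₀ ≤ p ∧ (p : ℝ) ≤ X ^ α₁ then (1 : ℝ) else 0) (-v) := by
  obtain ⟨B, wl, wh, d₂, a1, a2, a3, a4, a5, H⟩ := h
  have H' : ∀ X : ℝ, ∃ f₁ f₂ g₁ g₂ : ℕ → ℕ → ℝ, (∃ f₁ f₂ g₁ g₂ : ℕ → ℕ → ℝ,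
      Ok (X ^ wl) (X ^ wh) (X ^ d₂) B f₁ f₂ g₁ g₂ ∧
      (∀ k : ℕ, Squarefree k → X ^ α₀ ≤ k → (k : ℝ) ≤ X ^ α₁ →
        (if k.Prime then 1 else 0) ≤ Psi (X ^ (wh - wl)) B f₁ f₂ g₁ g₂ k) ∧
      ∑ k ∈ (Icc 1 ⌊X ^ α₁⌋₊ : Finset ℕ) with Squarefree (k : ℕ) ∧ X ^ α₀ ≤ k,
        Psi (X ^ (wh - wl)) B f₁ f₂ g₁ g₂ k * (rho k / k) ≤ v) →
      Ok (X ^ wl) (X ^ wh) (X ^ d₂) B f₁ f₂ g₁ g₂ ∧
      (∀ k : ℕ, Squarefree k → X ^ α₀ ≤ k → (k : ℝ) ≤ X ^ α₁ →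
        (if k.Prime then 1 else 0) ≤ Psi (X ^ (wh - wl)) B f₁ f₂ g₁ g₂ k) ∧
      ∑ k ∈ (Icc 1 ⌊X ^ α₁⌋₊ : Finset ℕ) with Squarefree (k : ℕ) ∧ X ^ α₀ ≤ k,
        Psi (X ^ (wh - wl)) B f₁ f₂ g₁ g₂ k * (rho k / k) ≤ v := fun X => by
    by_contra! hc
    obtain ⟨⟨f₁, f₂, g₁, g₂, b1, b2, b3⟩, -⟩ := hc 0 0 0 0
    exact ((hc f₁ f₂ g₁ g₂).2 b1 b2).not_ge b3
  choose f₁ f₂ g₁ g₂ H' using H'
  have H2 := H.mono H'
  refine hr.2.2.2.2.1 _ _ _ _ (hh α₀ α₁ wl wh d₂ (-1) (-v) B f₁ f₂ g₁ g₂ a1 (by linarith) a2 a3 a4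
    a5 (H2.mono fun X h => ⟨h.1, by linarith [h.2.2]⟩)) le_rfl (H2.mono fun X h n hn _ => ?_)
  rw [neg_one_mul, neg_le_neg_iff, ← sum_filter]
  refine le_trans (sum_le_sum (g := fun k => if k.Prime then (1 : ℝ) else 0) fun p hp => ?_)
    ((sum_le_sum_of_subset_of_nonneg (fun p hp => ?_) fun _ _ _ => by positivity).trans
      (sum_le_sum fun k hk => ?_))
  · rw [if_pos (Nat.prime_of_mem_primeFactors (mem_filter.1 hp).1)]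
  · obtain ⟨b1, b2⟩ := mem_filter.1 hp
    exact mem_filter.2 ⟨Nat.mem_divisors.2 ⟨Nat.dvd_of_mem_primeFactors b1, by omega⟩,
      (Nat.prime_of_mem_primeFactors b1).squarefree, b2⟩
  · obtain ⟨-, b1, b2, b3⟩ := mem_filter.1 hk
    exact h.2.1 k b1 b2 b3

/-- Side conditions of a cell that may start below `X`. -/
def side2 (p : Ct.Par) : Bool :=
  decide (p.WH ≤ p.A₀ ∧ p.A₀ < 2000000 ∧ 1000000 ≤ p.A₁ ∧ p.A₁ < 1000000 + p.WL ∧ p.WL < p.WH ∧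
    3 * p.WH + p.A₁ < 2 * 1000000 ∧ 0 < p.D₂ ∧ 2 * (p.WL + p.D₂) < 1000000)

/-- One large prime with any weight `W` that is at most `M i` on the cell `i`. -/
def P2Stmt : Prop :=
  ∀ (Q : ℕ) (ι : Type) (s : Finset ι) (P : ι → Ct.Par) (M : ι → ℝ) (W : ℝ → ℝ), 1 ≤ Q →
    (∀ i ∈ s, (P i).chk = true ∧ side2 (P i) = true ∧ 0 ≤ M i) →
    (∀ t, W t ≤ 0 ∨ ∃ i ∈ s, (((P i).A₀ + 1) * Q : ℝ) ≤ 1000000 * t ∧
      1000000 * t ≤ (P i).A₁ * Q ∧ W t ≤ M i) →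
    RowQ Q (fun x S => -∑ p ∈ S, W (x p)) (-∑ i ∈ s, M i * ((P i).v / 2 ^ 40))

theorem p2S (hR : RhoStmt) (hM : MertStmt) (hr : RowStmt) (hh : Ha2Stmt) : P2Stmt := by
  intro Q ι s P M W hQ hs hW
  have Q0 : (0 : ℝ) < Q := by exact_mod_cast hQ
  refine ⟨(1 - 1 / 2000000) / Q, by positivity, by rw [div_mul_cancel₀ _ Q0.ne']; norm_num,
    fun u u1 u2 τ hτ => ⟨1, one_pos, fun ε _ _ => ?_⟩⟩
  have u0 : (0 : ℝ) < u := lt_trans (by positivity) u1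
  rw [div_lt_iff₀ Q0] at u1
  have H := hr.2.2.2.1 ι s _ _ fun i hi => by
    obtain ⟨a, b, c⟩ := hs i hi
    obtain ⟨b1, -, b3, b4, b5, b6, b7, b8⟩ := of_decide_eq_true b
    refine hr.2.2.1 _ _ (M i) c (cellRow hr hh ?_ (Ct.c6 hR hM Ct.c1 1000000 _ _ _ _ _ _
      (by norm_num) b1 b4 b5 b6 b7 b8 (Ct.aS Ct.eS Ct.sS Ct.c2 _ a)))
    rw [one_le_div (by norm_num)]
    exact_mod_cast b3
  refine hr.2.2.2.2.1 _ _ _ _ H (by simp only [mul_neg, sum_neg_distrib]; linarith) ?_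
  filter_upwards [eventually_gt_atTop 1] with X hX n _ _
  have L0 := log_pos hX
  have X0 : 0 < X := by linarith
  simp only [mul_neg, sum_neg_distrib, neg_le_neg_iff, mul_sum]
  rw [sum_comm]
  have nn : ∀ (p : ℕ), ∀ i ∈ s, 0 ≤ M i * if X ^ (((P i).A₀ : ℝ) / (1000000 : ℕ)) ≤ p ∧
      (p : ℝ) ≤ X ^ (((P i).A₁ : ℝ) / (1000000 : ℕ)) then (1 : ℝ) else 0 := fun p i hi =>
    mul_nonneg (hs i hi).2.2 (by positivity)
  refine le_trans (sum_le_sum fun p hp => ?_) (sum_le_sum_of_subset_of_nonneg (filter_subset _ _)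
    fun p _ _ => sum_nonneg (nn p))
  have p0 : (0 : ℝ) < p := by exact_mod_cast (Nat.prime_of_mem_primeFactors (mem_filter.1 hp).1).pos
  rcases hW (sz X u p) with h | ⟨i, hi, h1, h2, h3⟩
  · exact h.trans (sum_nonneg (nn p))
  refine le_trans ?_ (single_le_sum (nn p) hi)
  have e : log p = u * sz X u p * log X := by rw [sz]; field_simp
  have b2 : ((P i).A₀ : ℝ) + 1 ≤ 2000000 := by
    exact_mod_cast (of_decide_eq_true (hs i hi).2.1).2.1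
  have b0 : (0 : ℝ) ≤ (P i).A₀ := Nat.cast_nonneg _
  have b1 : (0 : ℝ) ≤ (P i).A₁ := Nat.cast_nonneg _
  rw [if_pos, mul_one]
  · exact h3
  rw [← log_le_log_iff (rpow_pos_of_pos X0 _) p0, ← log_le_log_iff p0 (rpow_pos_of_pos X0 _),
    log_rpow X0, log_rpow X0, e]
  push_cast
  constructor <;> refine mul_le_mul_of_nonneg_right ?_ L0.le
  · rw [div_le_iff₀ (by norm_num)]
    nlinarith [mul_le_mul_of_nonneg_left h1 u0.le]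
  · rw [le_div_iff₀ (by norm_num)]
    nlinarith [mul_le_mul_of_nonneg_left h2 u0.le]

end Pool.Agent.Lib.MP_4b1228_nt.PP.R3
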