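import Pool.Agent.Lib.MP_4b1228_nt.PP.R3P2

/-!
The row of one large prime in a lattice cell, from a chain of certified cells.
-/

open Finset Real Filter
open scoped Classical

namespace Pool.Agent.Lib.MP_4b1228_nt.PP.R3

open Ct

def chain (L : List Par) (e : ℕ) : Bool :=
  allB (fun i => side2 (nth L e i) && decide ((nth L e i).A₁ = (nth L e (i + 1)).A₀ + 2)) L.length

/-- The cells used for `[a, b)`. -/
def sel (Q a b : ℕ) (p : Par) : Bool :=
  decide ((p.A₀ + 2) * Q ≤ 1000000 * b ∧ 1000000 * a + Q < p.A₁ * Q)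

/-- Cost of the weight `1`, times `2 ^ 40 * 10 ^ 6`. -/
def pcC (L : List Par) (Q a b : ℕ) : ℕ :=
  ∑ i ∈ range L.length, if sel Q a b (nth L 0 i) then (nth L 0 i).v * 1000000 else 0

/-- Cost of the weight `b - t`. -/
def pc0 (L : List Par) (Q a b : ℕ) : ℕ :=
  ∑ i ∈ range L.length, if sel Q a b (nth L 0 i) then
    (nth L 0 i).v * (1000000 * b - ((nth L 0 i).A₀ + 1) * Q) else 0

/-- Cost of the weight `t - a`. -/
def pc1 (L : List Par) (Q a b : ℕ) : ℕ :=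
  ∑ i ∈ range L.length, if sel Q a b (nth L 0 i) then
    (nth L 0 i).v * ((nth L 0 i).A₁ * Q - 1000000 * a) else 0

theorem p2cell (h2 : P2Stmt) {L : List Par} {e : ℕ} (hL : ∀ p ∈ L, p.chk = true)
    (hc : chain L e = true) {Q a b : ℕ} (hQ : 1 ≤ Q) (hQ' : Q ≤ 1000000) (hab : a < b)
    (ha : ((nth L e 0).A₀ + 1) * Q ≤ 1000000 * a) (hb : 1000000 * b < (e + 2) * Q)
    {w w₀ w₁ : ℝ} (h : 0 ≤ w) (h₀ : 0 ≤ w₀) (h₁ : 0 ≤ w₁) (W : ℝ → ℝ)
    (hW : ∀ t, W t ≤ 0 ∨ (a : ℝ) ≤ t ∧ t < b ∧ W t ≤ w + w₀ * (b - t) + w₁ * (t - a)) :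
    RowQ Q (fun x S => -∑ p ∈ S, W (x p))
      (-((w * pcC L Q a b + w₀ * pc0 L Q a b + w₁ * pc1 L Q a b) / (2 ^ 40 * 10 ^ 6))) := by
  have H : ∀ i < L.length, side2 (nth L e i) = true ∧ (nth L e i).A₁ = (nth L e (i + 1)).A₀ + 2 :=
    fun i hi => by
      have := allB_imp hc i hi
      rw [Bool.and_eq_true] at this
      exact ⟨this.1, of_decide_eq_true this.2⟩
  have E : ∀ i < L.length, nth L 0 i = nth L e i := fun i hi => by
    rw [nth, nth, List.getD_eq_getElem _ _ hi, List.getD_eq_getElem _ _ hi]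
  have he : (nth L e L.length).A₀ = e := by simp [nth]
  have R := h2 Q ℕ ((range L.length).filter fun i => sel Q a b (nth L 0 i) = true) (nth L 0)
    (fun i => w + w₀ * ((1000000 * b - ((nth L 0 i).A₀ + 1) * Q : ℕ) / 1000000) +
      w₁ * (((nth L 0 i).A₁ * Q - 1000000 * a : ℕ) / 1000000)) W hQ (fun i hi => ?_) fun t => ?_
  · convert R using 2
    simp only [pcC, pc0, pc1, ← sum_filter, Nat.cast_sum, Nat.cast_mul, mul_sum, ← sum_add_distrib,
      sum_div]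
    exact sum_congr rfl fun i _ => by push_cast; ring
  · have hi := mem_range.1 (mem_filter.1 hi).1
    refine ⟨hL _ ?_, by rw [E i hi]; exact (H i hi).1, by positivity⟩
    rw [nth, List.getD_eq_getElem _ _ hi]
    exact List.getElem_mem hi
  refine (hW t).imp_right fun ⟨t1, t2, t3⟩ => ?_
  obtain ⟨i, hi⟩ : ∃ i, i = Nat.findGreatest (fun i => ((((nth L e i).A₀ + 1) * Q : ℕ) : ℝ) ≤
    1000000 * t ∧ ((nth L e i).A₀ + 2) * Q ≤ 1000000 * b) L.length := ⟨_, rfl⟩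
  have c1 : ((((nth L e i).A₀ + 1) * Q : ℕ) : ℝ) ≤ 1000000 * t ∧
      ((nth L e i).A₀ + 2) * Q ≤ 1000000 * b := by
    rw [hi]
    refine Nat.findGreatest_spec (P := fun i => ((((nth L e i).A₀ + 1) * Q : ℕ) : ℝ) ≤
      1000000 * t ∧ ((nth L e i).A₀ + 2) * Q ≤ 1000000 * b) (Nat.zero_le _) ⟨?_, by nlinarith⟩
    refine (Nat.cast_le.2 ha).trans ?_
    push_cast
    linarith
  have c2 : i < L.length := lt_of_le_of_ne (hi ▸ Nat.findGreatest_le _) fun q => by
    rw [q, he] at c1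
    exact hb.not_ge c1.2
  have c3 := Nat.findGreatest_is_greatest (P := fun i => ((((nth L e i).A₀ + 1) * Q : ℕ) : ℝ) ≤
    1000000 * t ∧ ((nth L e i).A₀ + 2) * Q ≤ 1000000 * b) (n := L.length) (k := i + 1)
    (by rw [← hi]; exact Nat.lt_succ_self _) c2
  have c4 := (H i c2).2
  have Q1 : (1 : ℝ) ≤ Q := by exact_mod_cast hQ
  have c5 : 1000000 * a + Q < (nth L e i).A₁ * Q ∧ 1000000 * t ≤ (nth L e i).A₁ * Q := by
    rw [c4]
    rcases not_and_or.1 c3 with c | c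
    · have c := not_le.1 c
      have : ((1000000 * a : ℕ) : ℝ) < (((nth L e (i + 1)).A₀ + 1) * Q : ℕ) := by
        refine lt_of_le_of_lt ?_ c
        push_cast
        linarith
      have := Nat.cast_lt.1 this
      push_cast at c ⊢
      exact ⟨by nlinarith, by nlinarith⟩
    · have c := not_le.1 c
      have : ((1000000 * b : ℕ) : ℝ) < (((nth L e (i + 1)).A₀ + 2) * Q : ℕ) := Nat.cast_lt.2 c
      push_cast at this ⊢
      exact ⟨by nlinarith, by nlinarith⟩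
  refine ⟨i, mem_filter.2 ⟨mem_range.2 c2, ?_⟩, ?_⟩ <;> rw [E i c2]
  · exact decide_eq_true ⟨c1.2, c5.1⟩
  refine ⟨by exact_mod_cast c1.1, c5.2, t3.trans ?_⟩
  rw [Nat.cast_sub (by nlinarith [c1.2]), Nat.cast_sub (by nlinarith [c5.1])]
  have d1 := c1.1
  have d2 := c5.2
  push_cast at d1 ⊢
  gcongr <;> rw [le_div_iff₀ (by norm_num)] <;> linarith

end Pool.Agent.Lib.MP_4b1228_nt.PP.R3
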