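import Pool.Agent.Lib.MP_4b1228_nt.PP.R3P3
import Pool.Agent.Lib.MP_4b1228_nt.PP.CtU0
import Pool.Agent.Lib.MP_4b1228_nt.PP.CtU1
import Pool.Agent.Lib.MP_4b1228_nt.PP.CtU2
import Pool.Agent.Lib.MP_4b1228_nt.PP.CtU3
import Pool.Agent.Lib.MP_4b1228_nt.PP.CtU4
import Pool.Agent.Lib.MP_4b1228_nt.PP.CtU5
import Pool.Agent.Lib.MP_4b1228_nt.PP.CtU6
import Pool.Agent.Lib.MP_4b1228_nt.PP.CtU7

/-!
Cells with ends at the multiples of `1 / 480`, from `1` to `29 / 24`.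
-/

open Finset

namespace Pool.Agent.Lib.MP_4b1228_nt.PP.R3

open Ct

def uc : List Par := [
  u0, u1, u2, u3, u4, u5, u6, u7, u8, u9, u10, u11, u12, u13, u14, u15, u16, u17, u18, u19, u20,
  u21, u22, u23, u24, u25, u26, u27, u28, u29, u30, u31, u32, u33, u34, u35, u36, u37, u38, u39,
  u40, u41, u42, u43, u44, u45, u46, u47, u48, u49, u50, u51, u52, u53, u54, u55, u56, u57, u58,
  u59, u60, u61, u62, u63, u64, u65, u66, u67, u68, u69, u70, u71, u72, u73, u74, u75, u76, u77,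
  u78, u79, u80, u81, u82, u83, u84, u85, u86, u87, u88, u89, u90, u91, u92, u93, u94, u95, u96,
  u97, u98, u99]

theorem uc_ok : ∀ p ∈ uc, p.chk = true := by
  simp only [uc, List.forall_mem_cons]
  exact ⟨
  u0_ok, u1_ok, u2_ok, u3_ok, u4_ok, u5_ok, u6_ok, u7_ok, u8_ok, u9_ok, u10_ok, u11_ok, u12_ok,
  u13_ok, u14_ok, u15_ok, u16_ok, u17_ok, u18_ok, u19_ok, u20_ok, u21_ok, u22_ok, u23_ok,
  u24_ok, u25_ok, u26_ok, u27_ok, u28_ok, u29_ok, u30_ok, u31_ok, u32_ok, u33_ok, u34_ok,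
  u35_ok, u36_ok, u37_ok, u38_ok, u39_ok, u40_ok, u41_ok, u42_ok, u43_ok, u44_ok, u45_ok,
  u46_ok, u47_ok, u48_ok, u49_ok, u50_ok, u51_ok, u52_ok, u53_ok, u54_ok, u55_ok, u56_ok,
  u57_ok, u58_ok, u59_ok, u60_ok, u61_ok, u62_ok, u63_ok, u64_ok, u65_ok, u66_ok, u67_ok,
  u68_ok, u69_ok, u70_ok, u71_ok, u72_ok, u73_ok, u74_ok, u75_ok, u76_ok, u77_ok, u78_ok,
  u79_ok, u80_ok, u81_ok, u82_ok, u83_ok, u84_ok, u85_ok, u86_ok, u87_ok, u88_ok, u89_ok,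
  u90_ok, u91_ok, u92_ok, u93_ok, u94_ok, u95_ok, u96_ok, u97_ok, u98_ok, u99_ok,
  fun _ h => absurd h List.not_mem_nil⟩

theorem p2u (h2 : P2Stmt) {Q a b : ℕ} (hQ : 1 ≤ Q) (hQ' : Q ≤ 1000000) (hab : a < b) (ha : Q ≤ a)
    (hb : 1000000 * b < 1208334 * Q) {w w₀ w₁ : ℝ} (h : 0 ≤ w) (h₀ : 0 ≤ w₀) (h₁ : 0 ≤ w₁)
    (W : ℝ → ℝ)
    (hW : ∀ t, W t ≤ 0 ∨ (a : ℝ) ≤ t ∧ t < b ∧ W t ≤ w + w₀ * (b - t) + w₁ * (t - a)) :
    RowQ Q (fun x S => -∑ p ∈ S, W (x p))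
      (-((w * pcC uc Q a b + w₀ * pc0 uc Q a b + w₁ * pc1 uc Q a b) / (2 ^ 40 * 10 ^ 6))) :=
  p2cell h2 uc_ok (e := 1208332) (by decide +kernel) hQ hQ' hab
    (by rw [show (nth uc 1208332 0).A₀ + 1 = 1000000 by decide +kernel]; omega) hb h h₀ h₁ W hW

end Pool.Agent.Lib.MP_4b1228_nt.PP.R3
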