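import Pool.Agent.Lib.MP_4b1228_nt.PP.R4D

/-!
Nested form of the sums over cells, for evaluation in the kernel.
-/

namespace Pool.Agent.Lib.MP_4b1228_nt.PP.R4

def sumC (Z Q : ℕ) : ℕ → (List ℕ → ℚ) → ℚ
  | 0, g => g []
  | k + 1, g => ((List.range (Q - Z)).map fun i => sumC Z Q k fun cs => g ((Z + i) :: cs)).sum

theorem sumC_eq (Z Q k : ℕ) (g : List ℕ → ℚ) : ((cells Z Q k).map g).sum = sumC Z Q k g := by
  induction k generalizing g with
  | zero => simp [cells, sumC]
  | succ k ih =>
    unfold cells sumC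
    generalize List.range (Q - Z) = l
    induction l with
    | nil => rfl
    | cons a l ih' =>
      rw [List.flatMap_cons, List.map_append, List.sum_append, ih', List.map_cons, List.sum_cons,
        List.map_map, ← ih]
      rfl

theorem length_cells {Z Q k : ℕ} {cs : List ℕ} (h : cs ∈ cells Z Q k) : cs.length = k := by
  induction k generalizing cs with
  | zero => simpa [cells] using h
  | succ k ih =>
    obtain ⟨i, -, h⟩ := List.mem_flatMap.1 h
    obtain ⟨l, h', rfl⟩ := List.mem_map.1 h
    rw [List.length_cons, ih h']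

theorem linB_zero (n : Enc) {co : ℕ → ℤ} (cs : List ℕ) (lo hi : ℚ) (i : ℕ)
    (h : ∀ b, i ≤ b → b < i + cs.length → co b = 0) : n.linB co cs lo hi i = 0 := by
  induction cs generalizing lo hi i with
  | nil => rfl
  | cons c cs ih =>
    rw [List.length_cons] at h
    rw [Enc.linB, h i le_rfl (by omega), ih _ _ _ fun b h1 h2 => h b (by omega) (by omega)]
    simp [bd]

/-- The value of one cell; cells without coefficients and invisible cells are skipped. -/
def Tab.vF (t : Tab) (n : Enc) (cs : List ℕ) (j : ℕ) : ℚ :=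
  bif (t.e cs j 0 == 0 && t.e cs j 1 == 0 && t.e cs j 2 == 0 && t.e cs j 3 == 0) then 0
  else bif t.vis j cs then momQ t.Z j * n.box j (t.e cs j) cs else 0

theorem box_zero (n : Enc) (j : ℕ) {co : ℕ → ℤ} {cs : List ℕ} (h : ∀ b ≤ cs.length, co b = 0) :
    n.box j co cs = 0 := by
  rw [Enc.box, h 0 (Nat.zero_le _), linB_zero n cs 1 1 1 fun b _ h2 => h b (by omega)]
  simp [bd]

theorem Tab.vF_eq (t : Tab) (n : Enc) {cs : List ℕ} (h : cs.length ≤ 3) (j : ℕ) :
    t.vD n cs j = t.vF n cs j := by
  unfold Tab.vF Tab.vD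
  cases e : t.vis j cs
  · rw [box_zero n j fun b _ => by simp [Tab.co, e]]
    simp
  · have : t.co cs j = t.e cs j := funext fun b => by simp [Tab.co, e]
    rw [this]
    cases e' : (t.e cs j 0 == 0 && t.e cs j 1 == 0 && t.e cs j 2 == 0 && t.e cs j 3 == 0)
    · rfl
    · simp only [Bool.and_eq_true, beq_iff_eq] at e'
      rw [box_zero n j fun b hb => by
        have : b = 0 ∨ b = 1 ∨ b = 2 ∨ b = 3 := by omega
        rcases this with rfl | rfl | rfl | rfl <;> simp [e']]
      simp

theorem Tab.vE_eq (t : Tab) (n : Enc) {k : ℕ} (hk : k ≤ 3) : t.vE n k =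
    sumC t.Z t.Q k fun cs => t.vF n cs 0 + t.vF n cs 1 + t.vF n cs 2 + t.vF n cs 3 := by
  rw [← sumC_eq, Tab.vE]
  refine congrArg List.sum (List.map_congr_left fun cs h => ?_)
  have := (length_cells h).trans_le hk
  simp only [t.vF_eq n this]

end Pool.Agent.Lib.MP_4b1228_nt.PP.R4
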