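import Pool.Agent.Lib.MP_4b1228_nt.PP.R4D
import Pool.Agent.Lib.MP_4b1228_nt.PP.R3P4

/-!
The rows of one large prime for the tables.
-/

open Finset Real

namespace Pool.Agent.Lib.MP_4b1228_nt.PP.R4

open R3

/-- Costs of the weights `1 - u` (`b = 0`), `u` (`b = 1`) and `1` (`b = 2`) on `[c, c + 1)`. -/
def pcQ (Q c b : ℕ) : ℚ :=
  if 1000000 * (c + 1) < 1208334 * Q then
    ((if b = 0 then pc0 uc Q c (c + 1) else if b = 1 then pc1 uc Q c (c + 1)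
      else pcC uc Q c (c + 1) : ℕ) : ℚ) / (2 ^ 40 * 10 ^ 6)
  else if b < 2 then 2 / Q else 4 / Q

theorem rowP (h2 : P2Stmt) (hP : PStmt) {Q c : ℕ} (hQ : 5 ≤ Q) (hQ' : Q ≤ 1000000) (h1 : Q ≤ c)
    (h3 : 2 * (c + 1) ≤ 3 * Q) {w w₀ w₁ α β : ℝ} (h : 0 ≤ w) (h₀ : 0 ≤ w₀) (h₁ : 0 ≤ w₁)
    (hα : α = w + w₀ * (c + 1) - w₁ * c) (hβ : β = w₁ - w₀) :
    RowQ Q (fun x S => -tup [⟨c, c + 1, α, β, false⟩] x S)
      (-(w * pcQ Q c 2 + w₀ * pcQ Q c 0 + w₁ * pcQ Q c 1)) := by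
  have e : ∀ t : ℝ, α + β * t = w + w₀ * (c + 1 - t) + w₁ * (t - c) := fun t => by
    rw [hα, hβ]; ring
  by_cases hc : 1000000 * (c + 1) < 1208334 * Q
  · have R := p2u h2 (by omega) hQ' (Nat.lt_succ_self c) h1 hc h h₀ h₁
      (Cel.w ⟨c, c + 1, α, β, false⟩) fun t => ?_
    · convert R using 2
      · simp [tup, tupF]
      · simp only [pcQ, if_pos hc]
        push_cast
        ring
    · rw [Cel.w]
      split_ifs with ht
      · refine Or.inr ⟨ht.1, by exact_mod_cast ht.2, le_of_eq ?_⟩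
        push_cast
        exact e t
      · exact Or.inl le_rfl
  · have R := hP Q ⟨c, c + 1, α, β, false⟩ (by omega) (Nat.cast_lt.2 (by omega : Q < c))
      (by simp) (show 2 * ((c : ℝ) + 1) ≤ 3 * Q by exact_mod_cast h3) fun t => ?_
    · convert R using 2
      simp only [pcQ, if_neg hc, e]
      push_cast
      ring
    · rw [Cel.w]
      split_ifs with ht
      · rw [e]
        have := sub_nonneg.2 ht.1
        have := sub_nonneg.2 ht.2.le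
        positivity
      · exact le_rfl

theorem okP (h2 : P2Stmt) (hP : PStmt) (n : Enc) (t : Tab) (hn : n.pc = pcQ t.Q) (hQ : 5 ≤ t.Q)
    (hQ' : t.Q ≤ 1000000) (h0 : t.Q ≤ t.p₀) (h1 : 2 * t.p₁ ≤ 3 * t.Q) : n.OkP t := by
  intro c a b
  rw [hn]
  constructor
  · simpa using rowP h2 hP hQ hQ' (h0.trans a) (by omega) (α := c + 1) (β := -1) le_rfl
      zero_le_one le_rfl (by ring) (by ring)
  · simpa using rowP h2 hP hQ hQ' (h0.trans a) (by omega) (α := -c) (β := 1) le_rfl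
      le_rfl zero_le_one (by ring) (by ring)

/-- The sharper mean: the common part of the two weights is a constant weight. -/
def Tab.vP2 (t : Tab) : ℚ :=
  ∑ c ∈ Ico t.p₀ t.p₁, -((min (t.sl c 0) (t.sl c 1) : ℕ) * pcQ t.Q c 2 +
    (t.sl c 0 - t.sl c 1 : ℕ) * pcQ t.Q c 0 + (t.sl c 1 - t.sl c 0 : ℕ) * pcQ t.Q c 1)

theorem mp2 (hq : RowQStmt) (h2 : P2Stmt) (hP : PStmt) (t : Tab) (hZ : t.Z ≤ t.p₀) (hQ : 5 ≤ t.Q)
    (hQ' : t.Q ≤ 1000000) (h0 : t.Q ≤ t.p₀) (h1 : 2 * t.p₁ ≤ 3 * t.Q) :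
    RowQ t.Q t.GP t.vP2 := by
  obtain ⟨-, -, -, hs, -, hm⟩ := hq t.Q (by omega)
  refine hm _ _ _ _ (hs ℕ (Ico t.p₀ t.p₁) _ _ fun c hc => rowP h2 hP hQ hQ'
    (h0.trans (mem_Ico.1 hc).1) (by have := (mem_Ico.1 hc).2; omega)
    (w := (min (t.sl c 0) (t.sl c 1) : ℕ)) (w₀ := (t.sl c 0 - t.sl c 1 : ℕ))
    (w₁ := (t.sl c 1 - t.sl c 0 : ℕ)) (by positivity) (by positivity) (by positivity) rfl rfl)
    (le_of_eq (by rw [Tab.vP2]; push_cast; rfl)) fun x S hx _ => le_of_eq ?_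
  simp only [tup, tupF, List.map, mul_one, Tab.GP, Tab.big, ← sum_neg_distrib]
  rw [sum_comm, sum_filter]
  refine sum_congr rfl fun p hp => ?_
  have x0 := (hx p hp).le
  have f1 := Nat.floor_le x0
  have f2 := Nat.lt_floor_add_one (x p)
  have z : ∀ c, c ≠ ⌊x p⌋₊ → ∀ α β, -Cel.w ⟨c, c + 1, α, β, false⟩ (x p) = 0 := fun c hc α β => by
    rw [Cel.w, if_neg fun h => hc ((Nat.floor_eq_iff x0).2 h).symm, neg_zero]
  by_cases hc : ⌊x p⌋₊ ∈ Ico t.p₀ t.p₁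
  · rw [sum_eq_single_of_mem _ hc fun c _ h => z c h _ _, Cel.w, if_pos ⟨f1, f2⟩, Tab.lp,
      if_pos (mem_Ico.1 hc), if_pos ((Nat.cast_le.2 (hZ.trans (mem_Ico.1 hc).1)).trans f1), fr]
    rcases le_total (t.sl ⌊x p⌋₊ 0) (t.sl ⌊x p⌋₊ 1) with h | h
    · rw [min_eq_left h, Nat.sub_eq_zero_of_le h, Nat.cast_sub h]; push_cast; ring
    · rw [min_eq_right h, Nat.sub_eq_zero_of_le h, Nat.cast_sub h]; push_cast; ring
  · rw [sum_eq_zero fun c h => z c (fun e => hc (e ▸ h)) _ _, Tab.lp,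
      if_neg fun h => hc (mem_Ico.2 h), ite_self]

end Pool.Agent.Lib.MP_4b1228_nt.PP.R4
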