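import Pool.Agent.Lib.MP_4b1228_nt.PP.R4Pt
import Pool.Agent.Lib.MP_4b1228_nt.PP.R4b

/-!
The check at the vertices gives the certificate: general form, and tables with small boxes.
-/

open Finset Real
open scoped Classical

noncomputable section

namespace Pool.Agent.Lib.MP_4b1228_nt.PP.R4

open R3

namespace Pt

lemma G_eq (t : Tab) (ht : t.Ok) (x : ℕ → ℝ) (S : Finset ℕ) :
    60 * t.G x S = ∑ k ∈ range 4, tupL k (fun l => 60 * t.AE (l.map x) (rr t.Z x S) +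
      Sl t x (rr t.Z x S) l + 60 / (l.length.factorial : ℝ) * Hs t x l.toFinset) (t.big x S) := by
  simp only [tupL_add, tupL_mul, sum_add_distrib, GH_eq t ht]
  have : ∑ k ∈ range 4, tupL k (fun l => Sl t x (rr t.Z x S) l) (t.big x S) =
      60 * (t.GS0 x S + t.GS1 x S + t.GP x S) := by
    simp [sum_range_succ, tupL, Sl, Tab.GS0, Tab.GS1, Tab.GP, sum_add_distrib, mul_add, mul_sum,
      add_assoc]
  rw [this, ← mul_sum]
  unfold Tab.G Tab.GE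
  ring

/-- The value at a vertex for a general vertex function. -/
def FW (V : List ℕ → List ℤ → ℕ → ℤ → ℤ) (s : Finset ℕ) (c δ : ℕ → ℕ) (ρ δ₀ : ℕ) : ℤ :=
  ∑ k ∈ range 4, tupL k (fun l => V (l.map c) (l.map fun p => (δ p : ℤ)) ρ δ₀) s

lemma FW_bd (V : List ℕ → List ℤ → ℕ → ℤ → ℤ) (n : ℕ) : ∃ C : ℝ,
    ∀ (s : Finset ℕ) (c δ : ℕ → ℕ) (ρ δ₀ : ℕ), s.card ≤ n →
    (∀ p ∈ s, c p ≤ n ∧ δ p ≤ n) → ρ ≤ n → δ₀ ≤ n → (FW V s c δ ρ δ₀ : ℝ) ≤ C := by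
  have hA : {l : List ℕ | l.length ≤ 3 ∧ ∀ a ∈ l, a ≤ n}.Finite := by
    refine ((List.finite_length_le (Fin (n + 1)) 3).image (List.map Fin.val)).subset ?_
    rintro l ⟨h1, h2⟩
    refine ⟨l.map (Fin.ofNat (n + 1)), by simpa using h1, ?_⟩
    rw [List.map_map]
    conv_rhs => rw [← List.map_id l]
    exact List.map_congr_left fun a ha => by simpa using Nat.lt_succ_of_le (h2 a ha)
  obtain ⟨M, hM⟩ := (((hA.prod hA).prod ((Set.finite_Iic n).prod (Set.finite_Iic n))).image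
    fun q => ((V q.1.1 (q.1.2.map fun a : ℕ => (a : ℤ)) q.2.1 q.2.2 : ℤ) : ℝ)).bddAbove
  refine ⟨∑ k ∈ range 4, max M 0 * (n : ℝ) ^ k, fun s c δ ρ δ₀ h1 h2 h3 h4 => ?_⟩
  simp only [FW, Int.cast_sum, tupL_cast]
  refine sum_le_sum fun k hk => le_trans (tupL_le _ _ _ _ fun l a1 _ a3 => ?_)
    (tupL_const (le_max_right M 0) n k s h1)
  have hl : l.length ≤ 3 := by have := mem_range.1 hk; omega
  refine le_trans (hM ⟨((l.map c, l.map δ), (ρ, δ₀)), ⟨⟨⟨by simpa using hl, ?_⟩,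
    ⟨by simpa using hl, ?_⟩⟩, h3, h4⟩, ?_⟩) (le_max_left _ _)
  · simpa using fun p hp => (h2 p (a3 p hp)).1
  · simpa using fun p hp => (h2 p (a3 p hp)).2
  · simp only [List.map_map, Function.comp_def]

/-- The final step, for any function `G` that is at most the mean of vertex values `F`. -/
theorem pt_gen {Q Z Θ : ℕ} {G : Cf} {F : Finset ℕ → (ℕ → ℕ) → (ℕ → ℕ) → ℕ → ℕ → ℝ} {b v θ : ℝ}
    (hZ : 1 ≤ Z) (hQ : 1 ≤ Q)
    (hC : ∃ C : ℝ, ∀ (s : Finset ℕ) (c δ : ℕ → ℕ) (ρ δ₀ : ℕ), s.card ≤ 2 * Q + 1 →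
      (∀ p ∈ s, c p ≤ 2 * Q + 1 ∧ δ p ≤ 2 * Q + 1) → ρ ≤ 2 * Q + 1 → δ₀ ≤ 2 * Q + 1 →
      F s c δ ρ δ₀ ≤ C)
    (hL : ∀ (s : Finset ℕ) (c δ : ℕ → ℕ) (ρ δ₀ : ℕ), (∀ p ∈ s, Z ≤ c p ∧ c p < Θ ∧ δ p ≤ 1) →
      δ₀ ≤ 1 → ρ + δ₀ + ∑ p ∈ s, (c p + δ p) = 2 * Q → F s c δ ρ δ₀ ≤ b)
    (hG : ∀ (x : ℕ → ℝ) (S : Finset ℕ), (∀ p ∈ S, 0 < x p) → ∀ P w δ δ₀ d,
      Rd (S.filter fun p => (Z : ℝ) ≤ x p) x (rr Z x S) P w δ δ₀ d → G x S ≤ ∑ ω ∈ P, w ω *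
        F (S.filter fun p => (Z : ℝ) ≤ x p) (fun p => ⌊x p⌋₊) (δ ω) ⌊rr Z x S⌋₊ (δ₀ ω))
    (hv : RowQ Q G v) (hb : b < v) (hθ : θ * Q < Θ) : Cert3 θ := by
  obtain ⟨C₀, hC₀⟩ := hC
  set C := max C₀ b with hC
  have hCb : 0 ≤ C - b := sub_nonneg.2 (le_max_right _ _)
  obtain ⟨κ, κ0, κ1, κ2, κ3⟩ : ∃ κ : ℝ, 0 < κ ∧ κ < 1 ∧ θ * Q + κ < Θ ∧ b + (C - b) * κ < v := by
    have c1 : ∀ᶠ κ : ℝ in nhds 0, κ < 1 := eventually_lt_nhds one_pos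
    have c2 : ∀ᶠ κ : ℝ in nhds 0, θ * Q + κ < Θ :=
      ContinuousAt.eventually_lt (by fun_prop) (by fun_prop) (by simpa using hθ)
    have c3 : ∀ᶠ κ : ℝ in nhds 0, b + (C - b) * κ < v :=
      ContinuousAt.eventually_lt (by fun_prop) (by fun_prop) (by simpa using hb)
    obtain ⟨κ, ⟨a, b, c⟩, d⟩ := (((c1.and (c2.and c3)).filter_mono nhdsWithin_le_nhds).and
      (self_mem_nhdsWithin (s := Set.Ioi (0 : ℝ)))).exists
    exact ⟨κ, d, a, b, c⟩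
  refine ⟨Q, θ * Q, κ, v, b + (C - b) * κ, C, G, hQ, le_rfl, κ0, κ3, hv, fun x S hS hs => ?_⟩
  set B := S.filter fun p => (Z : ℝ) ≤ x p with hB
  have hx : ∀ p ∈ B, 0 ≤ x p := fun p hp => (hS p (mem_filter.1 hp).1).le
  have hr : 0 ≤ rr Z x S := sum_nonneg fun p hp => (hS p (mem_filter.1 hp).1).le
  have hA : rr Z x S + ∑ p ∈ B, x p = ∑ p ∈ S, x p := by
    rw [← sum_filter_add_sum_filter_not S (fun p => x p < (Z : ℝ))]
    simp only [not_lt]; rfl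
  obtain ⟨P, w, δ, δ₀, d, H⟩ := exists_rd B x hx hr
  have hG := hG x S hS P w δ δ₀ d H
  have fl : ∀ y : ℝ, y ≤ 2 * Q + 1 → ⌊y⌋₊ ≤ 2 * Q + 1 := fun y hy =>
    Nat.floor_le_of_le (by exact_mod_cast hy)
  have hB0 : 0 ≤ ∑ p ∈ B, x p := sum_nonneg hx
  have hcard : B.card ≤ 2 * Q + 1 := by
    have a1 : (B.card : ℝ) * 1 ≤ ∑ p ∈ B, x p := by
      rw [← nsmul_eq_mul]
      exact card_nsmul_le_sum _ _ _ fun p hp =>
        le_trans (by exact_mod_cast hZ) (mem_filter.1 hp).2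
    have : (B.card : ℝ) ≤ 2 * Q + 1 := by linarith
    exact_mod_cast this
  have hF : ∀ ω, F B (fun p => ⌊x p⌋₊) (δ ω) ⌊rr Z x S⌋₊ (δ₀ ω) ≤ C := by
    intro ω
    refine le_trans (hC₀ _ _ _ _ _ hcard (fun p hp => ⟨fl _ ?_, (H.b1 ω p).trans (by omega)⟩)
      (fl _ (by linarith)) ((H.b2 ω).trans (by omega))) (le_max_left _ _)
    linarith [single_le_sum hx hp]
  have mean : ∀ {c₀ c₁ : ℝ}, (∀ ω ∈ P, F B (fun p => ⌊x p⌋₊) (δ ω) ⌊rr Z x S⌋₊ (δ₀ ω) ≤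
      c₀ + c₁ * d ω) → G x S ≤ c₀ + c₁ * (⌈∑ p ∈ S, x p⌉₊ - ∑ p ∈ S, x p) := by
    intro c₀ c₁ h
    have := E_aff H.one H.e3 H.e3 c₀ c₁ 0
    simp only [zero_mul, add_zero, hA] at this
    rw [← this]
    exact hG.trans (sum_le_sum fun ω hω => mul_le_mul_of_nonneg_left (h ω hω) (H.pos ω))
  refine ⟨by linarith [mean (c₀ := C) (c₁ := 0) fun ω _ => by simpa using hF ω],
    fun h1 h2 h3 => ?_⟩
  have good : ∀ ω ∈ P, 2 * Q + d ω = ⌈∑ p ∈ S, x p⌉₊ →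
      F B (fun p => ⌊x p⌋₊) (δ ω) ⌊rr Z x S⌋₊ (δ₀ ω) ≤ b := by
    intro ω hω h
    have a1 := H.tot ω hω
    rw [hA] at a1
    refine hL _ _ _ _ _ (fun p hp => ⟨Nat.le_floor (mem_filter.1 hp).2,
      (Nat.floor_lt (hx p hp)).2 ?_, H.b1 ω p⟩) (H.b2 ω) (by omega)
    linarith [h1 p (mem_filter.1 hp).1]
  have hQ' : (1 : ℝ) ≤ Q := by exact_mod_cast hQ
  rcases le_or_gt (∑ p ∈ S, x p) (2 * Q) with h | h
  · have e : ⌈∑ p ∈ S, x p⌉₊ = 2 * Q := by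
      rw [Nat.ceil_eq_iff (by omega), Nat.cast_sub (by omega)]
      push_cast
      exact ⟨by linarith, h⟩
    have := mean (c₀ := b) (c₁ := C - b) fun ω hω => by
      rcases Nat.le_one_iff_eq_zero_or_eq_one.1 (H.b3 ω) with e0 | e0
      · simpa [e0] using good ω hω (by omega)
      · simpa [e0] using hF ω
    rw [e] at this
    push_cast at this
    nlinarith
  · have e : ⌈∑ p ∈ S, x p⌉₊ = 2 * Q + 1 := by
      rw [Nat.ceil_eq_iff (by omega), Nat.add_sub_cancel]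
      push_cast
      exact ⟨h, hs⟩
    have := mean (c₀ := C) (c₁ := b - C) fun ω hω => by
      rcases Nat.le_one_iff_eq_zero_or_eq_one.1 (H.b3 ω) with e0 | e0
      · simpa [e0] using hF ω
      · simpa [e0] using good ω hω (by omega)
    rw [e] at this
    push_cast at this
    nlinarith

section term

variable {B : Finset ℕ} {x : ℕ → ℝ} {r : ℝ} {P : Finset (Finset (Option (Option ℕ)))}
  {w : Finset (Option (Option ℕ)) → ℝ} {δ : Finset (Option (Option ℕ)) → ℕ → ℕ}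
  {δ₀ d : Finset (Option (Option ℕ)) → ℕ}

lemma E_max (H : Rd B x r P w δ δ₀ d) (f : Finset (Option (Option ℕ)) → ℤ) {a : ℝ} (p : Prop)
    [Decidable p] (h : a ≤ ∑ ω ∈ P, w ω * (f ω : ℝ)) :
    (if p then a else 0) ≤ ∑ ω ∈ P, w ω * ((max 0 (f ω) : ℤ) : ℝ) := by
  split_ifs
  · exact h.trans (sum_le_sum fun ω _ => mul_le_mul_of_nonneg_left
      (Int.cast_le.2 (le_max_right _ _)) (H.pos ω))
  · exact sum_nonneg fun ω _ => mul_nonneg (H.pos ω) (Int.cast_nonneg (le_max_left _ _))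

lemma term_C (H : Rd B x r P w δ δ₀ d) (t : Tab2) (hx : ∀ p ∈ B, 0 ≤ x p) (hr : 0 ≤ r)
    (l : List ℕ) (hl : ∀ p ∈ l, p ∈ B) :
    60 * t.AC (l.map x) r ≤ ∑ ω ∈ P, w ω *
      (t.VC (l.map fun p => ⌊x p⌋₊) (l.map fun p => (δ ω p : ℤ)) ⌊r⌋₊ (δ₀ ω) : ℤ) := by
  simp only [Tab2.AC, Tab2.VC, Int.cast_add, sum_range_succ, range_zero, sum_empty, zero_add,
    List.map_map, Function.comp_def, mul_add (60 : ℝ), mul_ite, mul_zero]
  set cs := l.map fun p => ⌊x p⌋₊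
  have h1 := fun co i => E_lin (P := P) (w := w) (β := fun p ω => (δ ω p : ℝ))
    (u := fun p => fr (x p)) co l i fun p hp => H.e1 p (hl p hp)
  have h2 := fun co i => E_sec H.one co (β := fun p ω => (δ ω p : ℝ))
    (u := fun p => fr (x p)) H.e2 l i fun p hp => H.e1 p (hl p hp)
  rw [E_add]
  refine add_le_add (E_max H _ _ (le_of_eq ?_)) (E_max H _ _ ?_)
  · have := E_aff H.one (h1 (t.cc cs 0) 1) H.e2 (60 * t.cc cs 0 0) 60 0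
    unfold m0
    rw [sum_congr rfl fun ω _ => ?_, this]
    · ring
    · push_cast [cast_lin, List.map_map, Function.comp_def]
      ring
  · obtain ⟨h0, h0'⟩ := fr_mem hr
    have a1 := sec_ge (t.cc cs 1) h0 h0'.le (l.map fun p => fr (x p)) 1 (by
      intro u hu
      obtain ⟨p, hp, rfl⟩ := List.mem_map.1 hu
      exact ⟨(fr_mem (hx p (hl p hp))).1, (fr_mem (hx p (hl p hp))).2.le⟩)
    have a2 := E_aff H.one (h1 (t.cc cs 1) 1) H.e2 (60 * ⌊r⌋₊ * t.cc cs 1 0) (60 * ⌊r⌋₊)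
      (60 * t.cc cs 1 0)
    have a3 : ∑ ω ∈ P, w ω * ((m1 (t.cc cs 1) ⌊r⌋₊ (l.map fun p => (δ ω p : ℤ)) (δ₀ ω) : ℤ) : ℝ) =
        m1 (t.cc cs 1) ⌊r⌋₊ (l.map fun p => fr (x p)) (fr r) := by
      unfold m1
      push_cast [cast_lin, cast_sec, List.map_map, Function.comp_def]
      rw [E_add, h2]
      congr 1
      rw [sum_congr rfl fun ω _ => ?_, a2]
      · ring
      · ring
    rw [a3]
    unfold m1
    have e : r = ⌊r⌋₊ + fr r := by unfold fr; ring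
    generalize fr r = v at *
    generalize (⌊r⌋₊ : ℝ) = ρ at *
    subst e
    nlinarith

end term

end Pt

open Pt in
theorem pt2 : Pt2Stmt := by
  intro t b v θ ht hL hv hb hθ
  refine pt_gen (Q := t.Q) (Z := t.Z) (Θ := t.Θ) (G := t.G2)
    (F := fun s c δ ρ δ₀ => (FW t.V2 s c δ ρ δ₀ : ℝ) / 60) (b := b / 60) ht.1 (ht.1.trans ht.2.1)
    ?_ ?_ ?_ hv (by linarith) hθ
  · obtain ⟨C, hC⟩ := FW_bd t.V2 (2 * t.Q + 1)
    exact ⟨C / 60, fun s c δ ρ δ₀ a b c d => by linarith [hC s _ δ ρ δ₀ a b c d]⟩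
  · intro s c δ ρ δ₀ h1 h2 h3
    have : (FW t.V2 s c δ ρ δ₀ : ℝ) ≤ b := Int.cast_le.2 (hL s c δ ρ δ₀ h1 h2 h3)
    linarith
  · intro x S hS P w δ δ₀ d H
    have hx : ∀ p ∈ t.big x S, 0 ≤ x p := fun p hp => (hS p (mem_filter.1 hp).1).le
    have hr : 0 ≤ rr t.Z x S := sum_nonneg fun p hp => (hS p (mem_filter.1 hp).1).le
    have a1 := G_le t.toTab ht hS H
    have a2 : 60 * ∑ k ∈ range 4, t.GC k x S ≤ ∑ ω ∈ P, w ω *
        (FW t.VC (t.big x S) (fun p => ⌊x p⌋₊) (δ ω) ⌊rr t.Z x S⌋₊ (δ₀ ω) : ℤ) := by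
      simp only [FW, Int.cast_sum, tupL_cast, mul_sum]
      rw [sum_comm]
      refine sum_le_sum fun k _ => ?_
      rw [← tupL_sum, Tab2.GC, ← tupL_mul]
      exact tupL_le _ _ _ _ fun l _ _ h3 => term_C H t hx hr l h3
    have a3 : ∀ ω, (FW t.V2 (t.big x S) (fun p => ⌊x p⌋₊) (δ ω) ⌊rr t.Z x S⌋₊ (δ₀ ω) : ℝ) =
        (FV t.toTab (t.big x S) (fun p => ⌊x p⌋₊) (δ ω) ⌊rr t.Z x S⌋₊ (δ₀ ω) : ℤ) +
        (FW t.VC (t.big x S) (fun p => ⌊x p⌋₊) (δ ω) ⌊rr t.Z x S⌋₊ (δ₀ ω) : ℤ) := by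
      intro ω
      simp only [FW, FV, Tab2.V2, Int.cast_sum, tupL_cast, Int.cast_add, tupL_add, sum_add_distrib]
    have a4 : ∑ ω ∈ P, w ω * ((FW t.V2 (t.big x S) (fun p => ⌊x p⌋₊) (δ ω) ⌊rr t.Z x S⌋₊ (δ₀ ω) :
        ℝ) / 60) = (∑ ω ∈ P, w ω * (FW t.V2 (t.big x S) (fun p => ⌊x p⌋₊) (δ ω) ⌊rr t.Z x S⌋₊
          (δ₀ ω) : ℝ)) / 60 := by
      rw [sum_div]
      exact sum_congr rfl fun ω _ => by ring
    refine le_trans ?_ (le_of_eq a4.symm)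
    simp only [a3]
    rw [E_add]
    unfold Tab2.G2
    linarith

end Pool.Agent.Lib.MP_4b1228_nt.PP.R4
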