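import Pool.Agent.Lib.MP_4b1228_nt.PP.R4Pt2

/-!
The certificate at the end point: a thin cell above `Θ` is paid for by the row for one prime.
-/

open Finset Real
open scoped Classical

noncomputable section

namespace Pool.Agent.Lib.MP_4b1228_nt.PP.R4

open R3

namespace Pt

/-- The pointwise bounds. -/
theorem pt_core {Q Z Θ : ℕ} {G : Cf} {F : Finset ℕ → (ℕ → ℕ) → (ℕ → ℕ) → ℕ → ℕ → ℝ} {b : ℝ}
    (hZ : 1 ≤ Z) (hQ : 1 ≤ Q)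
    (hC : ∃ C : ℝ, ∀ (s : Finset ℕ) (c δ : ℕ → ℕ) (ρ δ₀ : ℕ), s.card ≤ 2 * Q + 1 →
      (∀ p ∈ s, c p ≤ 2 * Q + 1 ∧ δ p ≤ 2 * Q + 1) → ρ ≤ 2 * Q + 1 → δ₀ ≤ 2 * Q + 1 →
      F s c δ ρ δ₀ ≤ C)
    (hL : ∀ (s : Finset ℕ) (c δ : ℕ → ℕ) (ρ δ₀ : ℕ), (∀ p ∈ s, Z ≤ c p ∧ c p < Θ ∧ δ p ≤ 1) →
      δ₀ ≤ 1 → ρ + δ₀ + ∑ p ∈ s, (c p + δ p) = 2 * Q → F s c δ ρ δ₀ ≤ b)
    (hG : ∀ (x : ℕ → ℝ) (S : Finset ℕ), (∀ p ∈ S, 0 < x p) → ∀ P w δ δ₀ d,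
      Rd (S.filter fun p => (Z : ℝ) ≤ x p) x (rr Z x S) P w δ δ₀ d → G x S ≤ ∑ ω ∈ P, w ω *
        F (S.filter fun p => (Z : ℝ) ≤ x p) (fun p => ⌊x p⌋₊) (δ ω) ⌊rr Z x S⌋₊ (δ₀ ω)) :
    ∃ C : ℝ, b ≤ C ∧ ∀ (x : ℕ → ℝ) (S : Finset ℕ), (∀ p ∈ S, 0 < x p) →
      ∑ p ∈ S, x p ≤ 2 * (Q : ℝ) + 1 → G x S ≤ C ∧ ∀ κ : ℝ, κ < 1 → (∀ p ∈ S, x p < Θ) →
        2 * Q - κ ≤ ∑ p ∈ S, x p → ∑ p ∈ S, x p ≤ 2 * Q + κ → G x S ≤ b + (C - b) * κ := by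
  obtain ⟨C₀, hC₀⟩ := hC
  set C := max C₀ b with hC
  have hCb : 0 ≤ C - b := sub_nonneg.2 (le_max_right _ _)
  refine ⟨C, le_max_right _ _, fun x S hS hs => ?_⟩
  set B := S.filter fun p => (Z : ℝ) ≤ x p with hB
  have hx : ∀ p ∈ B, 0 ≤ x p := fun p hp => (hS p (mem_filter.1 hp).1).le
  have hr : 0 ≤ rr Z x S := sum_nonneg fun p hp => (hS p (mem_filter.1 hp).1).le
  have hA : rr Z x S + ∑ p ∈ B, x p = ∑ p ∈ S, x p := by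
    rw [← sum_filter_add_sum_filter_not S (fun p => x p < (Z : ℝ))]
    simp only [not_lt]; rfl
  obtain ⟨P, w, δ, δ₀, d, H⟩ := exists_rd B x hx hr
  have hG := hG x S hS P w δ δ₀ d H
  have fl : ∀ y : ℝ, y ≤ 2 * Q + 1 → ⌊y⌋₊ ≤ 2 * Q + 1 := fun y hy =>
    Nat.floor_le_of_le (by exact_mod_cast hy)
  have hB0 : 0 ≤ ∑ p ∈ B, x p := sum_nonneg hx
  have hcard : B.card ≤ 2 * Q + 1 := by
    have a1 : (B.card : ℝ) * 1 ≤ ∑ p ∈ B, x p := by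
      rw [← nsmul_eq_mul]
      exact card_nsmul_le_sum _ _ _ fun p hp =>
        le_trans (by exact_mod_cast hZ) (mem_filter.1 hp).2
    have : (B.card : ℝ) ≤ 2 * Q + 1 := by linarith
    exact_mod_cast this
  have hF : ∀ ω, F B (fun p => ⌊x p⌋₊) (δ ω) ⌊rr Z x S⌋₊ (δ₀ ω) ≤ C := by
    intro ω
    refine le_trans (hC₀ _ _ _ _ _ hcard (fun p hp => ⟨fl _ ?_, (H.b1 ω p).trans (by omega)⟩)
      (fl _ (by linarith)) ((H.b2 ω).trans (by omega))) (le_max_left _ _)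
    linarith [single_le_sum hx hp]
  have mean : ∀ {c₀ c₁ : ℝ}, (∀ ω ∈ P, F B (fun p => ⌊x p⌋₊) (δ ω) ⌊rr Z x S⌋₊ (δ₀ ω) ≤
      c₀ + c₁ * d ω) → G x S ≤ c₀ + c₁ * (⌈∑ p ∈ S, x p⌉₊ - ∑ p ∈ S, x p) := by
    intro c₀ c₁ h
    have := E_aff H.one H.e3 H.e3 c₀ c₁ 0
    simp only [zero_mul, add_zero, hA] at this
    rw [← this]
    exact hG.trans (sum_le_sum fun ω hω => mul_le_mul_of_nonneg_left (h ω hω) (H.pos ω))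
  refine ⟨by linarith [mean (c₀ := C) (c₁ := 0) fun ω _ => by simpa using hF ω],
    fun κ κ1 h1 h2 h3 => ?_⟩
  have good : ∀ ω ∈ P, 2 * Q + d ω = ⌈∑ p ∈ S, x p⌉₊ →
      F B (fun p => ⌊x p⌋₊) (δ ω) ⌊rr Z x S⌋₊ (δ₀ ω) ≤ b := by
    intro ω hω h
    have a1 := H.tot ω hω
    rw [hA] at a1
    refine hL _ _ _ _ _ (fun p hp => ⟨Nat.le_floor (mem_filter.1 hp).2,
      (Nat.floor_lt (hx p hp)).2 ?_, H.b1 ω p⟩) (H.b2 ω) (by omega)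
    exact h1 p (mem_filter.1 hp).1
  have hQ' : (1 : ℝ) ≤ Q := by exact_mod_cast hQ
  rcases le_or_gt (∑ p ∈ S, x p) (2 * Q) with h | h
  · have e : ⌈∑ p ∈ S, x p⌉₊ = 2 * Q := by
      rw [Nat.ceil_eq_iff (by omega), Nat.cast_sub (by omega)]
      push_cast
      exact ⟨by linarith, h⟩
    have := mean (c₀ := b) (c₁ := C - b) fun ω hω => by
      rcases Nat.le_one_iff_eq_zero_or_eq_one.1 (H.b3 ω) with e0 | e0
      · simpa [e0] using good ω hω (by omega)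
      · simpa [e0] using hF ω
    rw [e] at this
    push_cast at this
    nlinarith
  · have e : ⌈∑ p ∈ S, x p⌉₊ = 2 * Q + 1 := by
      rw [Nat.ceil_eq_iff (by omega), Nat.add_sub_cancel]
      push_cast
      exact ⟨h, hs⟩
    have := mean (c₀ := C) (c₁ := b - C) fun ω hω => by
      rcases Nat.le_one_iff_eq_zero_or_eq_one.1 (H.b3 ω) with e0 | e0
      · simpa [e0] using hF ω
      · simpa [e0] using good ω hω (by omega)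
    rw [e] at this
    push_cast at this
    nlinarith

/-- The final step with the end point included. -/
theorem pt_end (hR : RowQStmt) (hP : PStmt) {Q Θ : ℕ} {G : Cf} {b v θ : ℝ} (hQ : 1 ≤ Q)
    (h : ∃ C : ℝ, b ≤ C ∧ ∀ (x : ℕ → ℝ) (S : Finset ℕ), (∀ p ∈ S, 0 < x p) →
      ∑ p ∈ S, x p ≤ 2 * (Q : ℝ) + 1 → G x S ≤ C ∧ ∀ κ : ℝ, κ < 1 → (∀ p ∈ S, x p < Θ) →
        2 * Q - κ ≤ ∑ p ∈ S, x p → ∑ p ∈ S, x p ≤ 2 * Q + κ → G x S ≤ b + (C - b) * κ)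
    (hv : RowQ Q G v) (hb : b < v) (hθ : θ * Q ≤ Θ) (h1 : Q < Θ) (h2 : 2 * Θ < 3 * Q) :
    Cert3 θ := by
  obtain ⟨C, hC, H⟩ := h
  have hCb : 0 ≤ C - b := sub_nonneg.2 hC
  have Q0 : (0 : ℝ) < Q := by exact_mod_cast hQ
  obtain ⟨κ, κ0, κ1, κ3⟩ : ∃ κ : ℝ, 0 < κ ∧ κ < 1 / 4 ∧
      b + (C - b) * κ + (C - b) * (8 * κ / Q) < v := by
    have c1 : ∀ᶠ κ : ℝ in nhds 0, κ < 1 / 4 := eventually_lt_nhds (by norm_num)
    have c3 : ∀ᶠ κ : ℝ in nhds 0, b + (C - b) * κ + (C - b) * (8 * κ / Q) < v :=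
      ContinuousAt.eventually_lt (by fun_prop) (by fun_prop) (by simpa using hb)
    obtain ⟨κ, ⟨a, c⟩, d⟩ := (((c1.and c3).filter_mono nhdsWithin_le_nhds).and
      (self_mem_nhdsWithin (s := Set.Ioi (0 : ℝ)))).exists
    exact ⟨κ, d, a, c⟩
  let c : Cel := ⟨Θ, Θ + 2 * κ, 1, 0, false⟩
  have w0 : ∀ t, 0 ≤ c.w t := fun t => by
    unfold Cel.w
    split_ifs <;> simp [c]
  have h2' : 2 * (Θ : ℝ) + 1 ≤ 3 * Q := by exact_mod_cast h2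
  have r1 := hP Q c hQ (by simp only [c]; exact_mod_cast h1) (by simp only [c]; linarith)
    (by simp only [c]; linarith) w0
  have r2 := (hR Q hQ).2.1 _ _ _ _ hv ((hR Q hQ).2.2.1 _ _ (C - b) hCb r1)
  refine ⟨Q, Θ, κ, _, b + (C - b) * κ, C, _, hQ, hθ, κ0, ?_, r2, fun x S hS hs => ?_⟩
  · have : 4 * (c.b - c.a) * (c.α + c.β * ((c.a + c.b) / 2)) / Q = 8 * κ / Q := by
      simp only [c]; ring
    rw [this]
    linarith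
  have e : tup [c] x S = ∑ p ∈ S, c.w (x p) := by simp [tup, tupF]
  have t0 : 0 ≤ tup [c] x S := e ▸ sum_nonneg fun p _ => w0 _
  obtain ⟨a1, a2⟩ := H x S hS hs
  refine ⟨by nlinarith, fun b1 b2 b3 => ?_⟩
  by_cases hh : ∀ p ∈ S, x p < Θ
  · have := a2 κ (by linarith) hh b2 b3
    nlinarith
  · push Not at hh
    obtain ⟨p, hp, hx⟩ := hh
    have t1 : 1 ≤ tup [c] x S := by
      rw [e]
      refine le_trans (le_of_eq ?_) (single_le_sum (f := fun p => c.w (x p)) (fun p _ => w0 _) hp)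
      have : x p < Θ + 2 * κ := by linarith [b1 p hp]
      simp [Cel.w, c, hx, this]
    nlinarith [mul_nonneg hCb κ0.le]

end Pt

def Pt3Stmt : Prop :=
  ∀ (t : Tab2) (b : ℤ) (v θ : ℝ), t.Ok → t.Lat2 b → RowQ t.Q t.G2 v → (b : ℝ) < 60 * v →
    θ * t.Q ≤ t.Θ → t.Q < t.Θ → 2 * t.Θ < 3 * t.Q → Cert3 θ

open Pt in
theorem pt3 (hR : RowQStmt) (hP : PStmt) : Pt3Stmt := by
  intro t b v θ ht hL hv hb hθ h1 h2
  refine pt_end hR hP (b := b / 60) (ht.1.trans ht.2.1) (pt_core (Q := t.Q) (Z := t.Z) (Θ := t.Θ)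
    (G := t.G2) (F := fun s c δ ρ δ₀ => (FW t.V2 s c δ ρ δ₀ : ℝ) / 60) ht.1 (ht.1.trans ht.2.1)
    ?_ ?_ ?_) hv (by linarith) hθ h1 h2
  · obtain ⟨C, hC⟩ := FW_bd t.V2 (2 * t.Q + 1)
    exact ⟨C / 60, fun s c δ ρ δ₀ a b c d => by linarith [hC s _ δ ρ δ₀ a b c d]⟩
  · intro s c δ ρ δ₀ h1 h2 h3
    have : (FW t.V2 s c δ ρ δ₀ : ℝ) ≤ b := Int.cast_le.2 (hL s c δ ρ δ₀ h1 h2 h3)
    linarith
  · intro x S hS P w δ δ₀ d H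
    have hx : ∀ p ∈ t.big x S, 0 ≤ x p := fun p hp => (hS p (mem_filter.1 hp).1).le
    have hr : 0 ≤ rr t.Z x S := sum_nonneg fun p hp => (hS p (mem_filter.1 hp).1).le
    have a1 := G_le t.toTab ht hS H
    have a2 : 60 * ∑ k ∈ range 4, t.GC k x S ≤ ∑ ω ∈ P, w ω *
        (FW t.VC (t.big x S) (fun p => ⌊x p⌋₊) (δ ω) ⌊rr t.Z x S⌋₊ (δ₀ ω) : ℤ) := by
      simp only [FW, Int.cast_sum, tupL_cast, mul_sum]
      rw [sum_comm]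
      refine sum_le_sum fun k _ => ?_
      rw [← tupL_sum, Tab2.GC, ← tupL_mul]
      exact tupL_le _ _ _ _ fun l _ _ h3 => term_C H t hx hr l h3
    have a3 : ∀ ω, (FW t.V2 (t.big x S) (fun p => ⌊x p⌋₊) (δ ω) ⌊rr t.Z x S⌋₊ (δ₀ ω) : ℝ) =
        (FV t.toTab (t.big x S) (fun p => ⌊x p⌋₊) (δ ω) ⌊rr t.Z x S⌋₊ (δ₀ ω) : ℤ) +
        (FW t.VC (t.big x S) (fun p => ⌊x p⌋₊) (δ ω) ⌊rr t.Z x S⌋₊ (δ₀ ω) : ℤ) := by
      intro ω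
      simp only [FW, FV, Tab2.V2, Int.cast_sum, tupL_cast, Int.cast_add, tupL_add, sum_add_distrib]
    have a4 : ∑ ω ∈ P, w ω * ((FW t.V2 (t.big x S) (fun p => ⌊x p⌋₊) (δ ω) ⌊rr t.Z x S⌋₊ (δ₀ ω) :
        ℝ) / 60) = (∑ ω ∈ P, w ω * (FW t.V2 (t.big x S) (fun p => ⌊x p⌋₊) (δ ω) ⌊rr t.Z x S⌋₊
          (δ₀ ω) : ℝ)) / 60 := by
      rw [sum_div]
      exact sum_congr rfl fun ω _ => by ring
    refine le_trans ?_ (le_of_eq a4.symm)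
    simp only [a3]
    rw [E_add]
    unfold Tab2.G2
    linarith

end Pool.Agent.Lib.MP_4b1228_nt.PP.R4
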