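import Pool.Agent.Lib.MP_4b1228_nt.PP.R4K
import Pool.Agent.Lib.MP_4b1228_nt.PP.R4S0

/-!
Fixed point evaluation of the means. A natural number `P + 2 ^ 256 * N` stands for `P - N`.
-/

open Finset

namespace Pool.Agent.Lib.MP_4b1228_nt.PP.R4

namespace V

noncomputable section

def frc (n : ℕ) (f : ℕ → ℕ) : ℕ := Nat.rec (f 0) (fun m _ => f (Nat.succ m)) n

def sm (lo len : ℕ) (f : ℕ → ℕ) : ℕ := Nat.rec 0 (fun i r => Nat.add r (frc (Nat.add lo i) f)) len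

def tm (c : ℤ) (lo hi : ℕ) : ℕ :=
  Int.rec (fun n => Nat.mul n lo) (fun n => Nat.shiftLeft (Nat.mul (Nat.succ n) hi) 256) c

/-- The value of `x` is at least `d * w`. -/
def chk (x d : ℕ) (w : ℤ) : Bool :=
  Nat.rec false (fun m _ => Int.rec
    (fun n => Nat.ble (Nat.add (Nat.mul n d) (Nat.shiftRight m 256)) (Nat.mod m (Nat.pow 2 256)))
    (fun n => Nat.ble (Nat.shiftRight m 256)
      (Nat.add (Nat.mod m (Nat.pow 2 256)) (Nat.mul (Nat.succ n) d))) w) (Nat.succ x)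

/-- Pairs with first cell `a`; the cell after `a` is at least `s a`. -/
def ev2 (t : Tab) (j D : ℕ) (s L U : ℕ → ℕ) (c2 : ℕ → ℕ → ℤ × ℤ × ℤ) (a : ℕ) : ℕ :=
  frc (L a) fun la => frc (U a) fun ua => frc (Nat.sub D (Nat.mul a ua)) fun ma =>
    frc (Nat.sub D (Nat.mul a la)) fun na => sm (s a) (Nat.sub t.Q (s a)) fun b =>
      Bool.rec 0 (frc (L b) fun lb => frc (U b) fun ub =>
        Prod.rec (fun x0 y => Prod.rec (fun x1 x2 =>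
          Nat.add (tm x0 (Nat.mul la lb) (Nat.mul ua ub))
            (Nat.add (tm x1 (Nat.mul ma lb) (Nat.mul na ub))
              (tm x2 (Nat.mul la (Nat.sub D (Nat.mul b ub)))
                (Nat.mul ua (Nat.sub D (Nat.mul b lb)))))) y) (c2 a b)) (t.vis j [a, b])

/-- Triples with the first cells `a`, `b`. -/
def ev3' (t : Tab) (j D : ℕ) (s L U : ℕ → ℕ) (c3 : ℕ → ℕ → ℕ → ℤ × ℤ × ℤ × ℤ) (a b : ℕ)
    (l0 u0 l1 u1 l2 u2 : ℕ) : ℕ :=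
  sm (s b) (Nat.sub (Nat.sub t.Q (Nat.sub t.Q (Nat.sub (Nat.div (Nat.mul 5 t.Q) 4)
    (Nat.add (Nat.add a b) 2)))) (s b)) fun c =>
      Bool.rec 0 (frc (L c) fun lc => frc (U c) fun uc =>
        Prod.rec (fun x0 y => Prod.rec (fun x1 z => Prod.rec (fun x2 x3 =>
          Nat.add (tm x0 (Nat.mul l0 lc) (Nat.mul u0 uc))
            (Nat.add (tm x1 (Nat.mul l1 lc) (Nat.mul u1 uc))
              (Nat.add (tm x2 (Nat.mul l2 lc) (Nat.mul u2 uc))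
                (tm x3 (Nat.mul l0 (Nat.sub D (Nat.mul c uc)))
                  (Nat.mul u0 (Nat.sub D (Nat.mul c lc))))))) z) y) (c3 a b c))
        (t.vis j [a, b, c])

/-- Triples with first cell `a`. -/
def ev3 (t : Tab) (j D : ℕ) (s L U : ℕ → ℕ) (c3 : ℕ → ℕ → ℕ → ℤ × ℤ × ℤ × ℤ) (a : ℕ) : ℕ :=
  frc (L a) fun la => frc (U a) fun ua => frc (Nat.sub D (Nat.mul a ua)) fun ma =>
    frc (Nat.sub D (Nat.mul a la)) fun na => sm (s a) (Nat.sub t.Q (s a)) fun b =>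
      frc (L b) fun lb => frc (U b) fun ub =>
        frc (Nat.mul la lb) fun l0 => frc (Nat.mul ua ub) fun u0 =>
        frc (Nat.mul ma lb) fun l1 => frc (Nat.mul na ub) fun u1 =>
        frc (Nat.mul la (Nat.sub D (Nat.mul b ub))) fun l2 =>
        frc (Nat.mul ua (Nat.sub D (Nat.mul b lb))) fun u2 =>
          ev3' t j D s L U c3 a b l0 u0 l1 u1 l2 u2

/-- One term of the sieved rows without large primes; `fL k`, `fU k` belong to `t.lev k`. -/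
def ev0 (t : Tab) (fL fU : ℕ → ℕ) (wL wU : ℕ → ℕ → ℕ) (k : ℕ) : ℕ :=
  frc (Nat.div k t.m) fun ρ => frc (fL (Nat.succ k)) fun lo => frc (fU (Nat.succ k)) fun hi =>
    Nat.add (tm (t.s0 ρ 0) (Nat.mul lo (wL k 0)) (Nat.mul hi (wU k 0)))
      (tm (t.s0 ρ 1) (Nat.mul lo (wL k 1)) (Nat.mul hi (wU k 1)))

/-- The sieved rows with one large prime in the fine cell `k₁`. -/
def ev1 (t : Tab) (D : ℕ) (L U fL fU : ℕ → ℕ) (wL wU : ℕ → ℕ → ℕ)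
    (c1 : ℕ → ℕ → ℤ × ℤ × ℤ × ℤ) (k₁ : ℕ) : ℕ :=
  frc (Nat.div k₁ t.m) fun c => frc (Nat.mul t.m (L k₁)) fun l => frc (Nat.mul t.m (U k₁)) fun u =>
    frc (Nat.sub (Nat.mul (Nat.succ c) l) D) fun vl => frc (Nat.sub (Nat.mul (Nat.succ c) u) D) fun vu =>
    frc (Nat.sub D (Nat.mul c u)) fun ul => frc (Nat.sub D (Nat.mul c l)) fun uu =>
      sm 0 (Nat.mul t.m (Nat.sub (Nat.sub t.Q c) 1)) fun k =>
        frc (Nat.add (Nat.add k₁ k) 2) fun i => frc (Nat.div k t.m) fun ρ =>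
        frc (fL i) fun lo => frc (fU i) fun hi =>
        frc (Nat.mul lo (wL k 0)) fun a0 => frc (Nat.mul lo (wL k 1)) fun a1 =>
        frc (Nat.mul hi (wU k 0)) fun b0 => frc (Nat.mul hi (wU k 1)) fun b1 =>
          Prod.rec (fun x0 y => Prod.rec (fun x1 z => Prod.rec (fun x2 x3 =>
            Nat.add (Nat.add (Nat.add
              (tm x0 (Nat.mul (Nat.add a0 a1) vl) (Nat.mul (Nat.add b0 b1) vu))
              (tm x1 (Nat.mul (Nat.add a0 a1) ul) (Nat.mul (Nat.add b0 b1) uu)))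
              (tm x2 (Nat.mul a0 l) (Nat.mul b0 u)))
              (tm x3 (Nat.mul a1 l) (Nat.mul b1 u))) z) y) (c1 c ρ)

end

theorem frc_eq (n : ℕ) (f : ℕ → ℕ) : frc n f = f n := by cases n <;> rfl

def Rl (x : ℕ) (v : ℚ) : Prop := ∃ P N : ℕ, x = P + 2 ^ 256 * N ∧ (P : ℚ) - N ≤ v

theorem Rl.zero : Rl 0 0 := ⟨0, 0, rfl, by simp⟩

theorem Rl.add {x y : ℕ} {v w : ℚ} (h : Rl x v) (h' : Rl y w) : Rl (Nat.add x y) (v + w) := by
  obtain ⟨P, N, rfl, a⟩ := h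
  obtain ⟨P', N', rfl, b⟩ := h'
  refine ⟨P + P', N + N', by rw [Nat.add_eq]; ring, ?_⟩
  push_cast
  linarith

theorem Rl.mono {x : ℕ} {v w : ℚ} (h : Rl x v) (e : v ≤ w) : Rl x w := by
  obtain ⟨P, N, a, b⟩ := h
  exact ⟨P, N, a, b.trans e⟩

theorem Rl.tm {lo hi : ℕ} {d l u : ℚ} (c : ℤ) (h1 : (lo : ℚ) ≤ d * l) (h2 : d * u ≤ hi) :
    Rl (tm c lo hi) (d * bd c l u) := by
  cases c with
  | ofNat n =>
    refine ⟨n * lo, 0, rfl, ?_⟩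
    rw [bd, Int.ofNat_eq_natCast, if_pos (Int.natCast_nonneg n)]
    push_cast
    nlinarith [mul_le_mul_of_nonneg_left h1 (Nat.cast_nonneg n : (0 : ℚ) ≤ n)]
  | negSucc n =>
    refine ⟨0, (n + 1) * hi, ?_, ?_⟩
    · change Nat.shiftLeft ((n + 1) * hi) 256 = _
      rw [Nat.shiftLeft_eq', Nat.shiftLeft_eq, zero_add, mul_comm]
    · rw [bd, if_neg (Int.negSucc_not_nonneg n).1]
      push_cast
      nlinarith [mul_le_mul_of_nonneg_left h2 (by positivity : (0 : ℚ) ≤ n + 1)]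

theorem Rl.sm {lo len : ℕ} {f : ℕ → ℕ} {g : ℕ → ℚ}
    (h : ∀ a, lo ≤ a → a < lo + len → Rl (f a) (g a)) :
    Rl (sm lo len f) (∑ a ∈ Ico lo (lo + len), g a) := by
  induction len with
  | zero => rw [add_zero, Ico_self, sum_empty]; exact Rl.zero
  | succ len ih =>
    rw [← add_assoc, sum_Ico_succ_top (Nat.le_add_right _ _)]
    refine (ih fun a h1 h2 => h a h1 (by omega)).add ?_
    rw [frc_eq]
    exact h _ (Nat.le_add_right _ _) (by rw [Nat.add_eq]; omega)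

/-- The terms outside the range of the loop vanish. -/
theorem Rl.sm' {lo len Z Q : ℕ} {f : ℕ → ℕ} {g : ℕ → ℚ} {d : ℚ} (h1 : Z ≤ lo)
    (h2 : ∀ a, a < lo + len → lo ≤ a → a < Q)
    (h : ∀ a, lo ≤ a → a < Q → Rl (f a) (d * g a))
    (h0 : ∀ a, Z ≤ a → a < Q → (a < lo ∨ lo + len ≤ a) → g a = 0) :
    Rl (V.sm lo len f) (d * ∑ a ∈ Ico Z Q, g a) := by
  rw [← sum_subset (s₁ := Ico lo (lo + len)) (fun a ha => by
    rw [mem_Ico] at ha ⊢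
    exact ⟨h1.trans ha.1, h2 a ha.2 ha.1⟩) (fun a ha hb => by
    rw [mem_Ico] at ha hb
    exact h0 a ha.1 ha.2 (by omega)), mul_sum]
  exact Rl.sm fun a a1 a2 => h a a1 (h2 a a2 a1)

theorem Rl.chk {x d : ℕ} {v : ℚ} {w : ℤ} (h : Rl x (d * v)) (hd : 0 < d)
    (c : chk x d w = true) : (w : ℚ) ≤ v := by
  obtain ⟨P, N, e, a⟩ := h
  have d0 : (0 : ℚ) < d := by exact_mod_cast hd
  have b1 : x % 2 ^ 256 ≤ P := by
    rw [e, Nat.add_mul_mod_self_left]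
    exact Nat.mod_le _ _
  have b2 : N ≤ x / 2 ^ 256 := by
    rw [e, Nat.add_mul_div_left _ _ (by positivity)]
    exact Nat.le_add_left _ _
  refine le_of_mul_le_mul_left (le_trans ?_ a) d0
  cases w with
  | ofNat n =>
    have c' : n * d + x >>> 256 ≤ x % 2 ^ 256 := Nat.le_of_ble_eq_true c
    rw [Nat.shiftRight_eq_div_pow] at c'
    have : ((n * d + N : ℕ) : ℚ) ≤ P := Nat.cast_le.2 (by omega)
    rw [Int.ofNat_eq_natCast]
    push_cast at this ⊢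
    linarith
  | negSucc n =>
    have c' : x >>> 256 ≤ x % 2 ^ 256 + (n + 1) * d := Nat.le_of_ble_eq_true c
    rw [Nat.shiftRight_eq_div_pow] at c'
    have : (N : ℚ) ≤ (P + (n + 1) * d : ℕ) := Nat.cast_le.2 (by omega)
    push_cast at this ⊢
    linarith

theorem sub_le {a b : ℕ} {y : ℚ} (h0 : 0 ≤ y) (h : (a : ℚ) - b ≤ y) : ((a - b : ℕ) : ℚ) ≤ y := by
  rcases le_total b a with e | e
  · rwa [Nat.cast_sub e]
  · rw [Nat.sub_eq_zero_of_le e]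
    exact_mod_cast h0

theorem le_sub (a b : ℕ) : (a : ℚ) - b ≤ (a - b : ℕ) := by
  have : (a : ℚ) ≤ (a - b + b : ℕ) := Nat.cast_le.2 (by omega)
  push_cast at this
  linarith

theorem lsum (Z Q : ℕ) (g : ℕ → ℚ) :
    ((List.range (Q - Z)).map fun i => g (Z + i)).sum = ∑ a ∈ Ico Z Q, g a := by
  rw [sum_Ico_eq_sum_range, ← List.sum_toFinset _ List.nodup_range, List.toFinset_range]

theorem visB_le {q : ℕ} {l : List ℕ} {M N : ℕ} (h : visB q l M N = true) :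
    4 * (M + N + l.sum) ≤ 5 * q := by
  induction l generalizing M N with
  | nil =>
    simp only [visB, Bool.and_eq_true, decide_eq_true_eq] at h
    simp only [List.sum_nil]
    omega
  | cons b l ih =>
    rw [visB, Bool.or_eq_true] at h
    rw [List.sum_cons]
    rcases h with h | h <;> have := ih h <;> omega

end V

open V

/-- Integers over the denominator `D` that enclose the logarithms at `k`. -/
def Enc.NL (n : Enc) (D : ℕ) (L U : ℕ → ℕ) (k : ℕ) : Prop :=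
  (L k : ℚ) ≤ D * n.ll k ∧ D * n.lu k ≤ U k ∧ 0 ≤ n.lu k

theorem Enc.NL.u {n : Enc} {D : ℕ} {L U : ℕ → ℕ} {a : ℕ} (h : n.NL D L U a) :
    ((D - a * U a : ℕ) : ℚ) ≤ D * n.ul 1 a a ∧ D * n.uu 1 a a ≤ (D - a * L a : ℕ) ∧
      0 ≤ n.ul 1 a a := by
  have a0 : (0 : ℚ) ≤ a := Nat.cast_nonneg a
  have d0 : (0 : ℚ) ≤ D := Nat.cast_nonneg D
  refine ⟨sub_le (mul_nonneg d0 (le_max_left _ _)) (le_trans ?_
    (mul_le_mul_of_nonneg_left (le_max_right _ _) d0)), le_trans ?_ (le_sub _ _), le_max_left _ _⟩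
  · push_cast
    nlinarith [mul_le_mul_of_nonneg_left h.2.1 a0]
  · unfold Enc.uu
    push_cast
    nlinarith [mul_le_mul_of_nonneg_left h.1 a0]

theorem lo_mul {x y : ℕ} {d e p q : ℚ} (h1 : (x : ℚ) ≤ d * p) (h2 : (y : ℚ) ≤ e * q) :
    ((x * y : ℕ) : ℚ) ≤ d * e * (p * q) := by
  have := mul_le_mul h1 h2 (Nat.cast_nonneg y) ((Nat.cast_nonneg x).trans h1)
  push_cast
  linarith

theorem hi_mul {x y : ℕ} {d e p q : ℚ} (h1 : d * p ≤ x) (h2 : e * q ≤ y) (h : 0 ≤ e * q) :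
    d * e * (p * q) ≤ (x * y : ℕ) := by
  have := mul_le_mul h1 h2 h (Nat.cast_nonneg x)
  push_cast
  linarith

theorem hi_mul' {x y : ℕ} {d e p q : ℚ} (h1 : d * p ≤ x) (h2 : e * q ≤ y) (h : 0 ≤ d * p) :
    d * e * (p * q) ≤ (x * y : ℕ) := by
  have := hi_mul h2 h1 h
  rwa [mul_comm e, mul_comm q, mul_comm y] at this

/-- The rows on `k` cells with the factor `r ^ j`. -/
def Tab.vJ (t : Tab) (n : Enc) (k j : ℕ) : ℚ := sumC t.Z t.Q k fun cs => n.box j (t.co cs j) cs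

theorem Tab.vE_vJ (t : Tab) (n : Enc) (k : ℕ) : t.vE n k = t.vJ n k 0 + t.Z * t.vJ n k 1 +
    3 / 2 * t.Z ^ 2 * t.vJ n k 2 + 17 / 6 * t.Z ^ 3 * t.vJ n k 3 := by
  simp only [Tab.vE, Tab.vJ, ← sumC_eq, Tab.vD, momQ, List.sum_map_add, List.sum_map_mul_left,
    one_mul]

theorem Tab.box_zero (t : Tab) (n : Enc) {j : ℕ} {cs : List ℕ}
    (h : t.vis j cs = false ∨ ∀ b ≤ cs.length, t.e cs j b = 0) : n.box j (t.co cs j) cs = 0 :=
  R4.box_zero n j fun b hb => by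
    rcases h with h | h
    · simp [Tab.co, h]
    · simp [Tab.co, h b hb]

theorem Tab.vJ_zero (t : Tab) (n : Enc) {k j : ℕ}
    (h : ∀ cs : List ℕ, cs.length = k → ∀ b ≤ k, t.e cs j b = 0) : t.vJ n k j = 0 := by
  rw [Tab.vJ, ← sumC_eq]
  refine List.sum_eq_zero fun x hx => ?_
  obtain ⟨cs, hc, rfl⟩ := List.mem_map.1 hx
  exact t.box_zero n (Or.inr (by rw [length_cells hc]; exact h cs (length_cells hc)))

/-- The part of `vJ n 2 j` with first cell `a`. -/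
def Tab.r2 (t : Tab) (n : Enc) (j a : ℕ) : ℚ :=
  ∑ b ∈ Ico t.Z t.Q, n.box j (t.co [a, b] j) [a, b]

/-- The part of `vJ n 3 j` with first cell `a`. -/
def Tab.r3 (t : Tab) (n : Enc) (j a : ℕ) : ℚ :=
  ∑ b ∈ Ico t.Z t.Q, ∑ c ∈ Ico t.Z t.Q, n.box j (t.co [a, b, c] j) [a, b, c]

theorem Tab.vJ2 (t : Tab) (n : Enc) (j : ℕ) : t.vJ n 2 j = ∑ a ∈ Ico t.Z t.Q, t.r2 n j a := by
  simp only [Tab.vJ, Tab.r2, sumC, ← lsum]

theorem Tab.vJ3 (t : Tab) (n : Enc) (j : ℕ) : t.vJ n 3 j = ∑ a ∈ Ico t.Z t.Q, t.r3 n j a := by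
  simp only [Tab.vJ, Tab.r3, sumC, ← lsum]

theorem bd_zero (x y : ℚ) : bd 0 x y = 0 := by simp [bd]

/-- The coefficients on pairs of cells. -/
def Tab.d2 (t : Tab) (j a b : ℕ) : ℤ × ℤ × ℤ :=
  (t.e [a, b] j 0, if j ≤ 1 then t.e [a, b] j 1 else 0, if j ≤ 1 then t.e [a, b] j 2 else 0)

def Tab.C2 (t : Tab) (j : ℕ) (s : ℕ → ℕ) (c2 : ℕ → ℕ → ℤ × ℤ × ℤ) : Prop :=
  ∀ a b, t.Z ≤ a → t.Z ≤ b → t.Z ≤ s a ∧ (b < s a → ∀ i ≤ 2, t.e [a, b] j i = 0) ∧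
    (s a ≤ b → c2 a b = t.d2 j a b)

/-- The coefficients on triples of cells. -/
def Tab.d3 (t : Tab) (j a b c : ℕ) : ℤ × ℤ × ℤ × ℤ :=
  (t.e [a, b, c] j 0, if j ≤ 1 then t.e [a, b, c] j 1 else 0,
    if j ≤ 1 then t.e [a, b, c] j 2 else 0, if j ≤ 1 then t.e [a, b, c] j 3 else 0)

def Tab.C3 (t : Tab) (j : ℕ) (s : ℕ → ℕ) (c3 : ℕ → ℕ → ℕ → ℤ × ℤ × ℤ × ℤ) : Prop :=
  ∀ a b c, t.Z ≤ a → t.Z ≤ b → t.Z ≤ c → t.Z ≤ s a ∧
    (b < s a ∨ c < s b → ∀ i ≤ 3, t.e [a, b, c] j i = 0) ∧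
    (s a ≤ b → s b ≤ c → c3 a b c = t.d3 j a b c)

variable {t : Tab} {n : Enc} {j D : ℕ} {s L U : ℕ → ℕ}

theorem ev2_ok {c2 : ℕ → ℕ → ℤ × ℤ × ℤ} (hL : ∀ k, t.Z ≤ k → k < t.Q → n.NL D L U k)
    (hc : t.C2 j s c2) {a : ℕ} (a1 : t.Z ≤ a) (a2 : a < t.Q) :
    Rl (ev2 t j D s L U c2 a) ((D ^ 2 : ℕ) * t.r2 n j a) := by
  have d0 : (0 : ℚ) ≤ D := Nat.cast_nonneg D
  have s1 := (hc a a a1 a1).1
  unfold ev2
  simp only [frc_eq]
  refine Rl.sm' s1 (fun b h _ => by rw [Nat.sub_eq] at h; omega) (fun b b1 b2 => ?_)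
    fun b b1 b2 h => t.box_zero n (Or.inr ((hc a b a1 b1).2.1 (by rw [Nat.sub_eq] at h; omega)))
  cases e : t.vis j [a, b]
  · rw [t.box_zero n (Or.inl e), mul_zero]
    exact Rl.zero
  have A := hL a a1 a2
  have B := hL b (s1.trans b1) b2
  have e' : t.co [a, b] j = t.e [a, b] j := funext fun i => by simp [Tab.co, e]
  rw [(hc a b a1 (s1.trans b1)).2.2 b1, e']
  refine ((Rl.tm _ (lo_mul A.1 B.1) (hi_mul A.2.1 B.2.1 (mul_nonneg d0 B.2.2))).add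
    ((Rl.tm _ (lo_mul A.u.1 B.1) (hi_mul A.u.2.1 B.2.1 (mul_nonneg d0 B.2.2))).add
      (Rl.tm _ (lo_mul A.1 B.u.1) (hi_mul' A.2.1 B.u.2.1 (mul_nonneg d0 A.2.2))))).mono
    (le_of_eq ?_)
  by_cases h : j ≤ 1 <;> simp only [Enc.box, Enc.linB, Tab.d2, h, bd_zero, if_true, if_false,
    List.map_cons, List.map_nil, List.prod_cons, List.prod_nil, mul_one, one_mul, Nat.cast_pow] <;> ring

theorem ev3_ok {c3 : ℕ → ℕ → ℕ → ℤ × ℤ × ℤ × ℤ} (hL : ∀ k, t.Z ≤ k → k < t.Q → n.NL D L U k)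
    (hc : t.C3 j s c3) {a : ℕ} (a1 : t.Z ≤ a) (a2 : a < t.Q) :
    Rl (ev3 t j D s L U c3 a) ((D ^ 3 : ℕ) * t.r3 n j a) := by
  have d0 : (0 : ℚ) ≤ D := Nat.cast_nonneg D
  have s1 := (hc a a a a1 a1 a1).1
  unfold ev3 ev3'
  simp only [frc_eq]
  refine Rl.sm' s1 (fun b h _ => by rw [Nat.sub_eq] at h; omega) (fun b b1 b2 => ?_)
    fun b b1 b2 h => sum_eq_zero fun c hc' => t.box_zero n (Or.inr
      ((hc a b c a1 b1 (mem_Ico.1 hc').1).2.1 (Or.inl (by rw [Nat.sub_eq] at h; omega))))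
  have b0 := s1.trans b1
  have s2 := (hc b b b b0 b0 b0).1
  refine Rl.sm' s2 (fun c h _ => by simp only [Nat.sub_eq] at h; omega)
    (fun c c1 c2 => ?_) fun c c1 c2 h => t.box_zero n ?_
  · cases e : t.vis j [a, b, c]
    · rw [t.box_zero n (Or.inl e), mul_zero]
      exact Rl.zero
    have A := hL a a1 a2
    have B := hL b b0 b2
    have C := hL c (s2.trans c1) c2
    have A0 := mul_nonneg d0 A.2.2
    have B0 := mul_nonneg d0 B.2.2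
    have C0 := mul_nonneg d0 C.2.2
    have e' : t.co [a, b, c] j = t.e [a, b, c] j := funext fun i => by simp [Tab.co, e]
    rw [(hc a b c a1 b0 (s2.trans c1)).2.2 b1 c1, e']
    refine ((Rl.tm _ (lo_mul (lo_mul A.1 B.1) C.1) (hi_mul (hi_mul A.2.1 B.2.1 B0) C.2.1 C0)).add
      ((Rl.tm _ (lo_mul (lo_mul A.u.1 B.1) C.1) (hi_mul (hi_mul A.u.2.1 B.2.1 B0) C.2.1 C0)).add
      ((Rl.tm _ (lo_mul (lo_mul A.1 B.u.1) C.1) (hi_mul (hi_mul' A.2.1 B.u.2.1 A0) C.2.1 C0)).add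
      (Rl.tm _ (lo_mul (lo_mul A.1 B.1) C.u.1) (hi_mul' (hi_mul A.2.1 B.2.1 B0) C.u.2.1
        (mul_nonneg (mul_nonneg d0 d0) (mul_nonneg A.2.2 B.2.2))))))).mono (le_of_eq ?_)
    by_cases h : j ≤ 1 <;> simp only [Enc.box, Enc.linB, Tab.d3, h, bd_zero, if_true, if_false,
      List.map_cons, List.map_nil, List.prod_cons, List.prod_nil, mul_one, one_mul, Nat.cast_pow,
      mul_assoc] <;> ring
  · rcases lt_or_ge c (s b) with l | l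
    · exact Or.inr ((hc a b c a1 b0 c1).2.1 (Or.inr l))
    left
    by_contra e
    have := visB_le ((Bool.not_eq_false _).mp e)
    simp only [List.map_cons, List.map_nil, List.sum_append, List.sum_cons, List.sum_nil] at this
    rw [show Nat.div (Nat.mul 5 t.Q) 4 = 5 * t.Q / 4 from rfl] at h
    simp only [Nat.sub_eq, Nat.add_eq] at h
    omega

/-- Integers that enclose the sieve functions at `t.lev k`. -/
def Enc.NF (n : Enc) (t : Tab) (D : ℕ) (L U : ℕ → ℕ) (k : ℕ) : Prop :=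
  (L k : ℚ) ≤ D * n.fl (t.lev k) ∧ D * n.fu (t.lev k) ≤ U k ∧ 0 ≤ n.fu (t.lev k)

/-- Integers that enclose the law of the small part. -/
def Enc.NW (n : Enc) (D : ℕ) (L U : ℕ → ℕ → ℕ) (k : ℕ) : Prop :=
  ∀ b < 2, (L k b : ℚ) ≤ D * n.wl k b ∧ D * n.wu k b ≤ U k b ∧ 0 ≤ n.wu k b

def Tab.r0 (t : Tab) (n : Enc) (k : ℕ) : ℚ :=
  bd (t.s0 (k / t.m) 0) (n.fl (t.lev (k + 1)) * n.wl k 0) (n.fu (t.lev (k + 1)) * n.wu k 0) +
    bd (t.s0 (k / t.m) 1) (n.fl (t.lev (k + 1)) * n.wl k 1) (n.fu (t.lev (k + 1)) * n.wu k 1)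

def Tab.r1 (t : Tab) (n : Enc) (k₁ : ℕ) : ℚ :=
  ∑ k ∈ Ico 0 (t.m * (t.Q - k₁ / t.m - 1)), t.vS1' n k₁ k

theorem Tab.vS0_eq (t : Tab) (n : Enc) : t.vS0 n = ∑ k ∈ Ico 0 (t.m * t.Q), t.r0 n k := by
  simp only [Tab.vS0, Tab.r0, ← lsum, zero_add, Nat.sub_zero]

theorem Tab.vS1_eq (t : Tab) (n : Enc) (hm : 1 ≤ t.m) :
    t.vS1 n = ∑ k ∈ Ico (t.m * t.Z) (t.m * t.Q), t.r1 n k := by
  simp only [Tab.vS1, Tab.r1, ← lsum, zero_add, Nat.sub_zero, Nat.mul_sub t.m t.Q t.Z,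
    Nat.mul_add_div hm]

variable {DF DW : ℕ} {fL fU : ℕ → ℕ} {wL wU : ℕ → ℕ → ℕ}

theorem ev0_ok {k : ℕ} (hF : n.NF t DF fL fU (k + 1)) (hW : n.NW DW wL wU k) :
    Rl (ev0 t fL fU wL wU k) ((DF * DW : ℕ) * t.r0 n k) := by
  have d0 : (0 : ℚ) ≤ DW := Nat.cast_nonneg DW
  have A := hW 0 (by decide)
  have B := hW 1 (by decide)
  unfold ev0
  simp only [frc_eq]
  refine ((Rl.tm _ (lo_mul hF.1 A.1) (hi_mul hF.2.1 A.2.1 (mul_nonneg d0 A.2.2))).add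
    (Rl.tm _ (lo_mul hF.1 B.1) (hi_mul hF.2.1 B.2.1 (mul_nonneg d0 B.2.2)))).mono (le_of_eq ?_)
  rw [Tab.r0, Nat.cast_mul, mul_add]
  rfl

theorem Enc.NL.fine (h : n.NL D L U j) {m : ℕ} (hm : 1 ≤ m) (c : ℕ) :
    ((m * L j : ℕ) : ℚ) ≤ (m * D : ℕ) * n.ll j ∧ (m * D : ℕ) * n.lu j ≤ (m * U j : ℕ) ∧
    (((c + 1) * (m * L j) - D : ℕ) : ℚ) ≤ (m * D : ℕ) * n.vl m c j ∧
    (m * D : ℕ) * n.vu m c j ≤ ((c + 1) * (m * U j) - D : ℕ) ∧
    ((D - c * (m * U j) : ℕ) : ℚ) ≤ (m * D : ℕ) * n.ul m c j ∧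
    (m * D : ℕ) * n.uu m c j ≤ (D - c * (m * L j) : ℕ) := by
  have m0 : (0 : ℚ) < m := mod_cast hm
  have c0 : (0 : ℚ) ≤ c := Nat.cast_nonneg c
  have d0 : (0 : ℚ) ≤ (m * D : ℕ) := Nat.cast_nonneg _
  have e : ((m * D : ℕ) : ℚ) * (1 / m) = D := by push_cast; field_simp
  have a : ((m * L j : ℕ) : ℚ) ≤ (m * D : ℕ) * n.ll j := by
    push_cast
    linarith [mul_le_mul_of_nonneg_left h.1 m0.le]
  have b : (m * D : ℕ) * n.lu j ≤ (m * U j : ℕ) := by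
    push_cast
    linarith [mul_le_mul_of_nonneg_left h.2.1 m0.le]
  have a' := mul_le_mul_of_nonneg_left a c0
  have b' := mul_le_mul_of_nonneg_left b c0
  refine ⟨a, b, sub_le (mul_nonneg d0 (le_max_left _ _)) (le_trans ?_
    (mul_le_mul_of_nonneg_left (le_max_right _ _) d0)), le_trans ?_ (le_sub _ _),
    sub_le (mul_nonneg d0 (le_max_left _ _)) (le_trans ?_
    (mul_le_mul_of_nonneg_left (le_max_right _ _) d0)), le_trans ?_ (le_sub _ _)⟩ <;>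
  (try simp only [Enc.vu, Enc.uu]) <;> rw [mul_sub, e, Nat.cast_mul _ (m * _)] <;>
  (try rw [Nat.cast_succ]) <;> linarith

/-- The coefficients of the rows with one large prime. -/
def Tab.d1 (t : Tab) (c ρ : ℕ) : ℤ × ℤ × ℤ × ℤ := (t.s1 c ρ 0, t.s1 c ρ 1, t.s1 c ρ 2, t.s1 c ρ 3)

theorem ev1_ok {k₁ : ℕ} {c1 : ℕ → ℕ → ℤ × ℤ × ℤ × ℤ} (hm : 1 ≤ t.m) (hL : n.NL D L U k₁)
    (hF : ∀ k ≤ t.m * t.Q, n.NF t DF fL fU k) (hW : ∀ k < t.m * t.Q, n.NW DW wL wU k)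
    (hc : ∀ c ρ, c1 c ρ = t.d1 c ρ) :
    Rl (ev1 t D L U fL fU wL wU c1 k₁) ((DF * DW * (t.m * D) : ℕ) * t.r1 n k₁) := by
  have d0 : (0 : ℚ) ≤ DW := Nat.cast_nonneg DW
  have d1 : (0 : ℚ) ≤ DF := Nat.cast_nonneg DF
  obtain ⟨l, u, vl, vu, ul, uu⟩ := hL.fine hm (k₁ / t.m)
  unfold ev1
  simp only [frc_eq]
  refine Rl.sm' le_rfl (fun b h _ => by rwa [zero_add] at h) (fun k _ k2 => ?_)
    fun k _ k2 h => absurd (show k < Nat.mul t.m (Nat.sub (Nat.sub t.Q (Nat.div k₁ t.m)) 1)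
      from k2) (by omega)
  have k3 : k₁ + k + 2 ≤ t.m * t.Q := by
    have h1 := Nat.lt_mul_div_succ k₁ hm
    obtain ⟨q, hq⟩ : ∃ q, t.Q = k₁ / t.m + 1 + q := Nat.exists_eq_add_of_le (by
      by_contra h
      rw [show t.Q - k₁ / t.m - 1 = 0 by omega] at k2
      omega)
    rw [show t.Q - k₁ / t.m - 1 = q by omega] at k2
    rw [hq, mul_add _ _ q]
    omega
  have F := hF _ k3
  have A := hW k (by omega) 0 (by decide)
  have B := hW k (by omega) 1 (by decide)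
  have a0 := lo_mul F.1 A.1
  have a1 := lo_mul F.1 B.1
  have b0 := hi_mul F.2.1 A.2.1 (mul_nonneg d0 A.2.2)
  have b1 := hi_mul F.2.1 B.2.1 (mul_nonneg d0 B.2.2)
  have p0 := mul_nonneg (mul_nonneg d1 d0) (mul_nonneg F.2.2 A.2.2)
  have p1 := mul_nonneg (mul_nonneg d1 d0) (mul_nonneg F.2.2 B.2.2)
  have a := add_le_add a0 a1
  have b := add_le_add b0 b1
  have p := add_nonneg p0 p1
  rw [← mul_add, ← mul_add] at a b p
  rw [← Nat.cast_add] at a b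
  rw [hc]
  refine ((((Rl.tm _ (lo_mul a vl) (hi_mul' b vu p)).add (Rl.tm _ (lo_mul a ul) (hi_mul' b uu p))).add
    (Rl.tm _ (lo_mul a0 l) (hi_mul' b0 u p0))).add (Rl.tm _ (lo_mul a1 l) (hi_mul' b1 u p1))).mono
    (le_of_eq ?_)
  rw [Tab.vS1', Nat.cast_mul (DF * DW), Nat.cast_mul DF, ← mul_add, ← mul_add, ← mul_add]
  rfl

/-! ### Rounding and shards -/

namespace V

noncomputable def flo (D : ℕ) (q : ℚ) : ℕ :=
  Int.rec (fun n => Nat.div (Nat.mul n D) q.den) (fun _ => 0) q.num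

noncomputable def cei (D : ℕ) (q : ℚ) : ℕ := Nat.succ (flo D q)

theorem flo_le (D : ℕ) {q : ℚ} (h : 0 ≤ q) : (flo D q : ℚ) ≤ D * q := by
  obtain ⟨n, e⟩ := Int.eq_ofNat_of_zero_le (Rat.num_nonneg.2 h)
  have a : flo D q = n * D / q.den := by rw [flo, e]; rfl
  rw [a]
  refine Nat.cast_div_le.trans (le_of_eq ?_)
  conv_rhs => rw [← Rat.num_div_den q, e]
  push_cast
  ring

theorem le_cei (D : ℕ) (q : ℚ) : D * q ≤ cei D q := by
  rcases le_total 0 q with h | h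
  · obtain ⟨n, e⟩ := Int.eq_ofNat_of_zero_le (Rat.num_nonneg.2 h)
    have a : cei D q = n * D / q.den + 1 := by rw [cei, flo, e]; rfl
    have b := (Nat.cast_le (α := ℚ)).2 (Nat.lt_mul_div_succ (n * D) q.den_pos).le
    have d : (0 : ℚ) < q.den := mod_cast q.den_pos
    rw [a]
    conv_lhs => rw [← Rat.num_div_den q, e, ← mul_div_assoc]
    rw [div_le_iff₀ d]
    push_cast at b ⊢
    linarith
  · exact (mul_nonpos_of_nonneg_of_nonpos (Nat.cast_nonneg D) h).trans (Nat.cast_nonneg _)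

/-- The integer `w` is a lower bound for the terms in `[lo, hi)`. -/
def Bd (g : ℕ → ℚ) (lo hi : ℕ) (w : ℤ) : Prop := lo ≤ hi ∧ (w : ℚ) ≤ ∑ a ∈ Ico lo hi, g a

theorem Bd.add {g : ℕ → ℚ} {a b c : ℕ} {v w : ℤ} (h : Bd g a b v) (h' : Bd g b c w) :
    Bd g a c (v + w) := ⟨h.1.trans h'.1, by
  rw [← sum_Ico_consecutive g h.1 h'.1, Int.cast_add]
  exact add_le_add h.2 h'.2⟩

theorem Bd.of {g : ℕ → ℚ} {f : ℕ → ℕ} {lo len d : ℕ} {w : ℤ} (hd : 0 < d)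
    (h : ∀ a, lo ≤ a → a < lo + len → Rl (f a) (d * g a)) (c : chk (sm lo len f) d w = true) :
    Bd g lo (lo + len) w :=
  ⟨Nat.le_add_right _ _, Rl.chk (by rw [mul_sum]; exact Rl.sm h) hd c⟩

end V

theorem Enc.OkL.nl (h : n.OkL) (D : ℕ) {k : ℕ} (hk : 1 ≤ k) :
    n.NL D (fun k => flo D (n.ll k)) (fun k => cei D (n.lu k)) k :=
  ⟨flo_le D (h k hk).1, le_cei D _, (h k hk).1.trans (mod_cast (h k hk).2.1.trans (h k hk).2.2)⟩

theorem Enc.OkF.nf {F f : ℕ → ℝ} (h : n.OkF t.N F f) (ht : t.Ok) (D k : ℕ) (hk : k ≤ t.m * t.Q) :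
    n.NF t D (fun k => flo D (n.fl (t.lev k))) (fun k => cei D (n.fu (t.lev k))) k :=
  have a := (h _).2.2 (t.lev_ok ht hk).1
  ⟨flo_le D (h _).1, le_cei D _, mod_cast a.1.trans a.2⟩

theorem Enc.OkW.nw (h : n.OkW t) (D k : ℕ) (hk : k < t.m * t.Q) :
    n.NW D (fun k b => flo D (n.wl k b)) (fun k b => cei D (n.wu k b)) k := fun b hb =>
  ⟨flo_le D (h k hk b hb).1, le_cei D _, (h k hk b hb).2.1⟩

noncomputable section

/-- The checks for a shard `[lo, lo + len)` of first cells, all denominators `2 ^ 40`. -/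
def Tab.k2 (t : Tab) (n : Enc) (j : ℕ) (s : ℕ → ℕ) (c2 : ℕ → ℕ → ℤ × ℤ × ℤ) (lo len : ℕ) : ℕ :=
  sm lo len (ev2 t j 1099511627776 s (fun k => flo 1099511627776 (n.ll k))
    (fun k => cei 1099511627776 (n.lu k)) c2)

def Tab.k3 (t : Tab) (n : Enc) (j : ℕ) (s : ℕ → ℕ) (c3 : ℕ → ℕ → ℕ → ℤ × ℤ × ℤ × ℤ)
    (lo len : ℕ) : ℕ :=
  sm lo len (ev3 t j 1099511627776 s (fun k => flo 1099511627776 (n.ll k))
    (fun k => cei 1099511627776 (n.lu k)) c3)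

def Tab.k0 (t : Tab) (n : Enc) (lo len : ℕ) : ℕ :=
  sm lo len (ev0 t (fun k => flo 1099511627776 (n.fl (t.lev k)))
    (fun k => cei 1099511627776 (n.fu (t.lev k))) (fun k b => flo 1099511627776 (n.wl k b))
    fun k b => cei 1099511627776 (n.wu k b))

def Tab.k1 (t : Tab) (n : Enc) (c1 : ℕ → ℕ → ℤ × ℤ × ℤ × ℤ) (lo len : ℕ) : ℕ :=
  sm lo len (ev1 t 1099511627776 (fun k => flo 1099511627776 (n.ll k))
    (fun k => cei 1099511627776 (n.lu k)) (fun k => flo 1099511627776 (n.fl (t.lev k)))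
    (fun k => cei 1099511627776 (n.fu (t.lev k))) (fun k b => flo 1099511627776 (n.wl k b))
    (fun k b => cei 1099511627776 (n.wu k b)) c1)

end

variable {lo len : ℕ} {w : ℤ} {F f : ℕ → ℝ}

theorem bd2 (ht : t.Ok) (oL : n.OkL) {c2 : ℕ → ℕ → ℤ × ℤ × ℤ} (hc : t.C2 j s c2) (h1 : t.Z ≤ lo)
    (h2 : lo + len ≤ t.Q) (c : chk (t.k2 n j s c2 lo len) (1099511627776 ^ 2) w = true) :
    Bd (t.r2 n j) lo (lo + len) w :=
  Bd.of (by decide) (fun _ a1 a2 => ev2_ok (fun _ k1 _ => oL.nl _ (ht.1.trans k1)) hc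
    (h1.trans a1) (a2.trans_le h2)) c

theorem bd3 (ht : t.Ok) (oL : n.OkL) {c3 : ℕ → ℕ → ℕ → ℤ × ℤ × ℤ × ℤ} (hc : t.C3 j s c3)
    (h1 : t.Z ≤ lo) (h2 : lo + len ≤ t.Q)
    (c : chk (t.k3 n j s c3 lo len) (1099511627776 ^ 3) w = true) :
    Bd (t.r3 n j) lo (lo + len) w :=
  Bd.of (by decide) (fun _ a1 a2 => ev3_ok (fun _ k1 _ => oL.nl _ (ht.1.trans k1)) hc
    (h1.trans a1) (a2.trans_le h2)) c

theorem bd0 (ht : t.Ok) (oF : n.OkF t.N F f) (oW : n.OkW t) (h2 : lo + len ≤ t.m * t.Q)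
    (c : chk (t.k0 n lo len) (1099511627776 * 1099511627776) w = true) :
    Bd (t.r0 n) lo (lo + len) w :=
  Bd.of (by decide) (fun _ _ a2 => ev0_ok (oF.nf ht _ _ (a2.trans_le h2))
    (oW.nw _ _ (a2.trans_le h2))) c

theorem bd1 (ht : t.Ok) (oL : n.OkL) (oF : n.OkF t.N F f) (oW : n.OkW t)
    {c1 : ℕ → ℕ → ℤ × ℤ × ℤ × ℤ} (hc : ∀ c ρ, c1 c ρ = t.d1 c ρ) (h1 : 1 ≤ lo)
    (c : chk (t.k1 n c1 lo len) (1099511627776 * 1099511627776 * (t.m * 1099511627776)) w = true) :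
    Bd (t.r1 n) lo (lo + len) w :=
  Bd.of (Nat.mul_pos (by decide) (Nat.mul_pos ht.2.2.1 (by decide))) (fun _ a1 _ =>
    ev1_ok ht.2.2.1 (oL.nl _ (h1.trans a1)) (oF.nf ht _) (oW.nw _) hc) c

theorem vE2_ge {w' : ℤ} (h0 : Bd (t.r2 n 0) t.Z t.Q w) (h1 : Bd (t.r2 n 1) t.Z t.Q w')
    (h : ∀ a b j i, 2 ≤ j → t.e [a, b] j i = 0) : ((w + t.Z * w' : ℤ) : ℚ) ≤ t.vE n 2 := by
  have z : ∀ j, 2 ≤ j → t.vJ n 2 j = 0 := fun j hj => t.vJ_zero n fun cs hc i _ => by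
    obtain ⟨a, b, rfl⟩ := List.length_eq_two.1 hc
    exact h a b j i hj
  rw [t.vE_vJ, z 2 le_rfl, z 3 (by decide), t.vJ2, t.vJ2]
  push_cast
  linarith [h0.2, mul_le_mul_of_nonneg_left h1.2 (Nat.cast_nonneg t.Z : (0 : ℚ) ≤ t.Z)]

theorem vE3_ge (h0 : Bd (t.r3 n 0) t.Z t.Q w) (h : ∀ a b c j i, 1 ≤ j → t.e [a, b, c] j i = 0) :
    (w : ℚ) ≤ t.vE n 3 := by
  have z : ∀ j, 1 ≤ j → t.vJ n 3 j = 0 := fun j hj => t.vJ_zero n fun cs hc i _ => by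
    obtain ⟨a, b, c, rfl⟩ := List.length_eq_three.1 hc
    exact h a b c j i hj
  rw [t.vE_vJ, z 1 le_rfl, z 2 (by decide), z 3 (by decide), t.vJ3]
  linarith [h0.2]

theorem vS0_ge (h : Bd (t.r0 n) 0 (t.m * t.Q) w) : (w : ℚ) ≤ t.vS0 n := t.vS0_eq n ▸ h.2

theorem vS1_ge (ht : t.Ok) (h : Bd (t.r1 n) (t.m * t.Z) (t.m * t.Q) w) : (w : ℚ) ≤ t.vS1 n :=
  t.vS1_eq n ht.2.2.1 ▸ h.2

end Pool.Agent.Lib.MP_4b1228_nt.PP.R4
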