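import Pool.Agent.Lib.MP_4b1228_nt.PP.R4b
import Pool.Agent.Lib.MP_4b1228_nt.PP.R4K
import Pool.Agent.Lib.MP_4b1228_nt.PP.R4L

/-!
Evaluation in the kernel of the mean of the rows on the small boxes.
-/

namespace Pool.Agent.Lib.MP_4b1228_nt.PP.R4.V2

def fN {α : Type} (n : ℕ) (f : ℕ → α) : α := Nat.rec (f 0) (fun m _ => f (Nat.succ m)) n

theorem fN_eq {α : Type} (n : ℕ) (f : ℕ → α) : fN n f = f n := by cases n <;> rfl

def sumN (f : ℕ → ℕ) (k : ℕ) : ℕ := Nat.rec 0 (fun i ih => Nat.add (f i) ih) k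

theorem sumN_succ (f : ℕ → ℕ) (k : ℕ) : sumN f (k + 1) = f k + sumN f k := rfl

theorem sumN_add (f : ℕ → ℕ) (a b : ℕ) :
    sumN f (a + b) = sumN f a + sumN (fun i => f (a + i)) b := by
  induction b with
  | zero => rfl
  | succ b ih => rw [← add_assoc, sumN_succ, sumN_succ, ih]; omega

def mx (a b : ℕ) : ℕ := fN a fun x => fN b fun y => cond (Nat.ble x y) y x

def mn (a b : ℕ) : ℕ := fN a fun x => fN b fun y => cond (Nat.ble x y) x y

theorem mx_eq (a b : ℕ) : mx a b = max a b := by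
  simp only [mx, fN_eq, Bool.cond_eq_ite, Nat.ble_eq]; rfl

theorem mn_eq (a b : ℕ) : mn a b = min a b := by
  simp only [mn, fN_eq, Bool.cond_eq_ite, Nat.ble_eq]; rfl

/-- The largest size that can be added to the list. -/
noncomputable def thr (q r : ℕ) (l : List ℕ) : ℕ → ℕ → ℕ :=
  List.rec (fun M N => fN (Nat.sub r (Nat.add (Nat.mul 4 N) M)) fun x =>
      mx (mn (Nat.sub q M) x) (cond (Nat.ble M q) (Nat.shiftRight x 2) 0))
    (fun b _ ih M N => mx (fN (Nat.add M b) fun M' => ih M' N) (fN (Nat.add N b) fun N' => ih M N')) l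

theorem thr_eq (q k : ℕ) (l : List ℕ) (M N : ℕ) :
    Nat.blt k (thr q (2 * q) l M N) = visB q (l ++ [k + 1]) M N := by
  rw [Bool.eq_iff_iff, Nat.blt_eq]
  induction l generalizing M N with
  | nil =>
    simp only [thr, fN_eq, mx_eq, mn_eq, Bool.cond_eq_ite, Nat.ble_eq, Nat.add_eq, Nat.sub_eq,
      Nat.mul_eq, Nat.shiftRight_eq, Nat.shiftRight_eq_div_pow, List.nil_append, visB,
      Bool.or_eq_true, Bool.and_eq_true, decide_eq_true_eq]
    split_ifs <;> omega
  | cons b l ih =>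
    rw [List.cons_append, visB, Bool.or_eq_true, ← ih, ← ih, ← lt_max_iff, ← mx_eq]
    change k < mx (fN _ fun M' => thr q _ l M' N) (fN _ fun N' => thr q _ l M N') ↔ _
    rw [fN_eq, fN_eq]
    rfl

theorem visB_perm (q : ℕ) {l l' : List ℕ} (h : l.Perm l') :
    ∀ M N, visB q l M N = visB q l' M N := by
  induction h with
  | nil => intros; rfl
  | cons b _ ih => intro M N; rw [visB, visB, ih, ih]
  | swap a b l =>
    intro M N
    simp only [visB, Nat.add_right_comm _ a b]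
    ac_rfl
  | trans _ _ h1 h2 => intro M N; rw [h1, h2]

/-- The sum over the visible boxes: positive terms, plus `W` times the negative terms. -/
def SB (m D W : ℕ) (L U : ℕ → ℕ) (co : ℕ → ℤ) :
    List ℕ → (List ℕ → Bool) → ℕ → ℕ → ℕ → ℕ → ℕ → ℕ
  | [], vis, _, _, a, b, _ => cond (vis []) (Nat.add a (Nat.mul b W)) 0
  | c :: cs, vis, lo, hi, a, b, i =>
    fN (Nat.mul (co i).toNat lo) fun p => fN (Nat.mul (-co i).toNat hi) fun q =>
    fN (Nat.mul m c) fun e => sumN (fun s => fN (Nat.add e s) fun k =>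
      fN (L k) fun l => fN (U k) fun u => fN (Nat.mul lo l) fun lo' => fN (Nat.mul hi u) fun hi' =>
      fN (Nat.add (Nat.mul a l) (Nat.mul p (Nat.sub D (Nat.mul e u)))) fun a' =>
      fN (Nat.add (Nat.mul b u) (Nat.mul q (Nat.sub D (Nat.mul e l)))) fun b' =>
        SB m D W L U co cs (fun ks => vis (k :: ks)) lo' hi' a' b' (Nat.succ i)) m

/-- The same sum, faster. -/
noncomputable def SF (m q r D W : ℕ) (L U : ℕ → ℕ) (co : ℕ → ℤ) :
    List ℕ → List ℕ → ℕ → ℕ → ℕ → ℕ → ℕ → ℕ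
  | [], pre, _, _, a, b, _ => cond (visB q pre 0 0) (Nat.add a (Nat.mul b W)) 0
  | [c], pre, lo, hi, a, b, i =>
    fN (Nat.mul (co i).toNat lo) fun p => fN (Nat.mul (-co i).toNat hi) fun y =>
    fN (Nat.mul m c) fun e => fN (thr q r pre 0 0) fun θ => sumN (fun s => fN (Nat.add e s) fun k =>
      cond (Nat.blt k θ) (fN (L k) fun l => fN (U k) fun u =>
        Nat.add (Nat.add (Nat.mul a l) (Nat.mul p (Nat.sub D (Nat.mul e u))))
          (Nat.mul (Nat.add (Nat.mul b u) (Nat.mul y (Nat.sub D (Nat.mul e l)))) W)) 0) m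
  | c :: d :: cs, pre, lo, hi, a, b, i =>
    fN (Nat.mul (co i).toNat lo) fun p => fN (Nat.mul (-co i).toNat hi) fun y =>
    fN (Nat.mul m c) fun e => sumN (fun s => fN (Nat.add e s) fun k =>
      fN (L k) fun l => fN (U k) fun u => fN (Nat.mul lo l) fun lo' => fN (Nat.mul hi u) fun hi' =>
      fN (Nat.add (Nat.mul a l) (Nat.mul p (Nat.sub D (Nat.mul e u)))) fun a' =>
      fN (Nat.add (Nat.mul b u) (Nat.mul y (Nat.sub D (Nat.mul e l)))) fun b' =>
        SF m q r D W L U co (d :: cs) (Nat.succ k :: pre) lo' hi' a' b' (Nat.succ i)) m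

theorem SF_eq (m q D W : ℕ) (L U : ℕ → ℕ) (co : ℕ → ℤ) (cs : List ℕ) :
    ∀ (pre : List ℕ) (lo hi a b i : ℕ), SF m q (2 * q) D W L U co cs pre lo hi a b i =
      SB m D W L U co cs (fun ks => visB q (pre ++ ks.map (· + 1)) 0 0) lo hi a b i := by
  induction cs with
  | nil => intro pre lo hi a b i; simp only [SF, SB, List.map_nil, List.append_nil]
  | cons c cs ih =>
    intro pre lo hi a b i
    cases cs with
    | nil => simp only [SF, SB, fN_eq, thr_eq, List.map_cons, List.map_nil]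
    | cons d cs =>
      rw [SF, SB]
      simp only [fN_eq, ih, List.map_cons, visB_perm q List.perm_middle, List.cons_append]

noncomputable section

def one (t : Tab2) (D W : ℕ) (L U : ℕ → ℕ) (cs : List ℕ) (j : ℕ) : ℕ :=
  cond (t.c cs j 0 == 0 && t.c cs j 1 == 0 && t.c cs j 2 == 0 && t.c cs j 3 == 0) 0
    (fN t.m fun m => fN (Nat.mul m t.Q) fun q => fN (Nat.mul 2 q) fun r =>
      fN (Nat.mul m t.Z) fun z => fN (Nat.mul m (t.c cs j 0).toNat) fun a =>
      fN (Nat.mul m (-t.c cs j 0).toNat) fun b =>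
        SF m q r D W L U (t.c cs j) cs (List.replicate j z) 1 1 a b 1)

def cel (t : Tab2) (D W : ℕ) (L U : ℕ → ℕ) (cs : List ℕ) : ℕ :=
  cond (t.on cs) (Nat.add (one t D W L U cs 0) (Nat.mul t.Z (one t D W L U cs 1))) 0

/-- The sum over the sorted lists of cells with bounded sum. -/
def sumP (Z n : ℕ) : ℕ → ℕ → ℕ → (List ℕ → ℕ) → ℕ
  | 0, _, _, g => g []
  | k + 1, lo, S, g => sumN (fun i => fN (Nat.add Z i) fun c =>
      cond (Nat.ble lo c && Nat.ble c S)
        (fN (Nat.sub S c) fun S' => sumP Z n k c S' fun cs => g (c :: cs)) 0) n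

/-- The cells with `k + 1` elements whose first element is `Z + i`. -/
def row (t : Tab2) (D W : ℕ) (L U : ℕ → ℕ) (S k i : ℕ) : ℕ :=
  fN (Nat.add t.Z i) fun c => cond (Nat.ble 0 c && Nat.ble c S) (fN (Nat.sub S c) fun S' =>
    sumP t.Z (t.Q - t.Z) k c S' fun cs => cel t D W L U (c :: cs)) 0

def vCN (t : Tab2) (D W : ℕ) (L U : ℕ → ℕ) (S k : ℕ) : ℕ :=
  sumP t.Z (t.Q - t.Z) k 0 S (cel t D W L U)

theorem vCN_succ (t : Tab2) (D W : ℕ) (L U : ℕ → ℕ) (S k : ℕ) :
    vCN t D W L U S (k + 1) = sumN (row t D W L U S k) (t.Q - t.Z) := rfl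

end

def Rep (W X : ℕ) (v : ℚ) : Prop := ∃ A B : ℕ, X = A + B * W ∧ (A : ℚ) - B ≤ v

variable {W : ℕ}

theorem Rep.zero : Rep W 0 0 := ⟨0, 0, by simp, by simp⟩

theorem Rep.add {X Y : ℕ} {v w : ℚ} (h : Rep W X v) (h' : Rep W Y w) : Rep W (X + Y) (v + w) := by
  obtain ⟨A, B, rfl, h⟩ := h
  obtain ⟨A', B', rfl, h'⟩ := h'
  exact ⟨A + A', B + B', by ring, by push_cast; linarith⟩

theorem Rep.mul {X : ℕ} {v : ℚ} (h : Rep W X v) (z : ℕ) : Rep W (z * X) (z * v) := by
  obtain ⟨A, B, rfl, h⟩ := h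
  refine ⟨z * A, z * B, by ring, ?_⟩
  push_cast
  rw [← mul_sub]
  exact mul_le_mul_of_nonneg_left h z.cast_nonneg

theorem Rep.sum {f : ℕ → ℕ} {g : ℕ → ℚ} (E : ℚ) (k : ℕ) (h : ∀ i < k, Rep W (f i) (E * g i)) :
    Rep W (sumN f k) (E * ((List.range k).map g).sum) := by
  induction k with
  | zero => simpa [sumN] using Rep.zero
  | succ k ih =>
    rw [sumN_succ, List.range_succ, List.map_append, List.sum_append, add_comm _ (List.sum _),
      mul_add]
    exact Rep.add (by simpa using h k (by omega)) (ih fun i hi => h i (by omega))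

theorem Rep.le {X : ℕ} {v : ℚ} (h : Rep W X v) (hW : 0 < W) :
    ((X % W : ℕ) : ℚ) - (X / W : ℕ) ≤ v := by
  obtain ⟨A, B, rfl, h⟩ := h
  rw [Nat.add_mul_mod_self_right, Nat.add_mul_div_right _ _ hW]
  have a : ((A % W : ℕ) : ℚ) ≤ A := by exact_mod_cast Nat.mod_le _ _
  have b : (0 : ℚ) ≤ (A / W : ℕ) := Nat.cast_nonneg _
  rw [Nat.cast_add]
  linarith

theorem bd_eq (c : ℤ) (x y : ℚ) : bd c x y = c.toNat * x - (-c).toNat * y := by
  unfold bd
  split_ifs with h
  · rw [Int.toNat_of_nonpos (neg_nonpos.2 h), ← Int.cast_natCast, Int.toNat_of_nonneg h]; simp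
  · rw [Int.toNat_of_nonpos (not_le.1 h).le, ← Int.cast_natCast (-c).toNat,
      Int.toNat_of_nonneg (by omega)]; simp

def G (n : Enc) (m : ℕ) (co : ℕ → ℤ) (ks : List ℕ) (lo hi a b : ℚ) (i : ℕ) : ℚ :=
  a * (ks.map n.ll).prod - b * (ks.map n.lu).prod + n.linM m co ks lo hi i

theorem G_cons (n : Enc) (m : ℕ) (co : ℕ → ℤ) (k : ℕ) (ks : List ℕ) (lo hi a b : ℚ) (i : ℕ) :
    G n m co (k :: ks) lo hi a b i = G n m co ks (lo * n.ll k) (hi * n.lu k)
      (a * n.ll k + (co i).toNat * lo * n.ul m (k / m) k)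
      (b * n.lu k + (-co i).toNat * hi * n.uu m (k / m) k) (i + 1) := by
  simp only [G, Enc.linM, bd_eq, List.map_cons, List.prod_cons]
  ring

theorem sum_flat (l : List ℕ) (f : ℕ → List (List ℕ)) (g : List ℕ → ℚ) :
    ((l.flatMap f).map g).sum = (l.map fun i => ((f i).map g).sum).sum := by
  induction l with
  | nil => rfl
  | cons a l ih => rw [List.flatMap_cons, List.map_append, List.sum_append, ih]; rfl

variable {n : Enc} {m Q D : ℕ} {L U : ℕ → ℕ}

theorem SB_rep (hm : 1 ≤ m) (h : ∀ x < m * Q, (L x : ℚ) ≤ n.ll x * D ∧ 0 ≤ n.lu x ∧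
    n.lu x * D ≤ U x) (co : ℕ → ℤ) (cs : List ℕ) : (∀ c ∈ cs, c < Q) →
    ∀ (vis : List ℕ → Bool) (lo hi a b i : ℕ) (lo' hi' a' b' E : ℚ), 0 ≤ E → 0 ≤ hi' →
      lo ≤ lo' * E → hi' * E ≤ hi → a ≤ a' * (m * E) → b' * (m * E) ≤ b →
      Rep W (SB m D W L U co cs vis lo hi a b i) (m * (E * D ^ cs.length) *
        ((subs m cs).map fun ks => if vis ks then G n m co ks lo' hi' a' b' i else 0).sum) := by
  induction cs with
  | nil =>
    intro _ vis lo hi a b i lo' hi' a' b' E _ _ _ _ h3 h4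
    simp only [SB, subs, List.map_cons, List.map_nil, List.sum_cons, List.sum_nil, G, Enc.linM,
      List.prod_nil, List.length_nil]
    cases vis []
    · simpa using Rep.zero
    · exact ⟨a, b, rfl, by simp only [if_true]; linarith⟩
  | cons c cs ih =>
    intro hc vis lo hi a b i lo' hi' a' b' E E0 h0 h1 h2 h3 h4
    simp only [SB, fN_eq, subs, sum_flat, List.map_map, Nat.add_eq, Nat.mul_eq, Nat.sub_eq]
    refine Rep.sum _ _ fun s hs => ?_
    have hk : m * c + s < m * Q := by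
      have := Nat.mul_le_mul_left m (show c + 1 ≤ Q from hc c List.mem_cons_self)
      rw [Nat.mul_succ] at this
      omega
    have e : (m * c + s) / m = c := by
      rw [Nat.mul_add_div hm, Nat.div_eq_of_lt hs]; rfl
    obtain ⟨k1, k2, k3⟩ := h _ hk
    simp only [Function.comp_def, G_cons, e]
    generalize m * c + s = k at *
    have m0 : (0 : ℚ) < m := by exact_mod_cast hm
    have D0 : (0 : ℚ) ≤ D := Nat.cast_nonneg D
    have u1 : ((D - m * c * U k : ℕ) : ℚ) ≤ n.ul m c k * (m * D) := by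
      rcases le_total D (m * c * U k) with d | d
      · rw [Nat.sub_eq_zero_of_le d, Nat.cast_zero]
        exact mul_nonneg (le_max_left _ _) (by positivity)
      · refine le_trans ?_ (mul_le_mul_of_nonneg_right (le_max_right _ _) (by positivity))
        have := mul_le_mul_of_nonneg_left k3 (show (0 : ℚ) ≤ m * c by positivity)
        rw [Nat.cast_sub d, sub_mul, one_div, inv_mul_cancel_left₀ m0.ne']
        push_cast
        linarith
    have u2 : n.uu m c k * (m * D) ≤ (D - m * c * L k : ℕ) := by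
      have a1 : (D : ℚ) ≤ (D - m * c * L k : ℕ) + (m * c * L k : ℕ) := by
        exact_mod_cast le_tsub_add
      have := mul_le_mul_of_nonneg_left k1 (show (0 : ℚ) ≤ m * c by positivity)
      rw [Enc.uu, sub_mul, one_div, inv_mul_cancel_left₀ m0.ne']
      rw [Nat.cast_mul, Nat.cast_mul] at a1
      linarith
    rw [List.length_cons, pow_succ' (D : ℚ), ← mul_assoc E]
    have l0 : (0 : ℚ) ≤ lo := Nat.cast_nonneg _
    have a0 : (0 : ℚ) ≤ a := Nat.cast_nonneg _
    have v0 : 0 ≤ n.lu k * D := mul_nonneg k2 D0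
    refine ih (fun x hx => hc x (List.mem_cons_of_mem _ hx)) _ _ _ _ _ _ _ _ _ _ _
      (mul_nonneg E0 D0) (mul_nonneg h0 k2) ?_ ?_ ?_ ?_
    · rw [Nat.cast_mul]
      exact (mul_le_mul h1 k1 (Nat.cast_nonneg _) (l0.trans h1)).trans_eq (by ring)
    · rw [Nat.cast_mul]
      exact le_trans (le_of_eq (by ring)) (mul_le_mul h2 k3 v0 (Nat.cast_nonneg _))
    · rw [Nat.cast_add, Nat.cast_mul, Nat.cast_mul, Nat.cast_mul, mul_assoc]
      exact (add_le_add (mul_le_mul h3 k1 (Nat.cast_nonneg _) (a0.trans h3))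
        (mul_le_mul_of_nonneg_left (mul_le_mul h1 u1 (Nat.cast_nonneg _) (l0.trans h1))
          (Nat.cast_nonneg _))).trans_eq (by ring)
    · rw [Nat.cast_add, Nat.cast_mul, Nat.cast_mul, Nat.cast_mul, mul_assoc _ (hi : ℚ)]
      exact le_trans (le_of_eq (by ring)) (add_le_add (mul_le_mul h4 k3 v0 (Nat.cast_nonneg _))
        (mul_le_mul_of_nonneg_left ((mul_le_mul_of_nonneg_left u2 (mul_nonneg h0 E0)).trans
          (mul_le_mul_of_nonneg_right h2 (Nat.cast_nonneg _))) (Nat.cast_nonneg _)))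

theorem linM_zero (n : Enc) (m : ℕ) {co : ℕ → ℤ} (h : ∀ b ≤ 3, co b = 0) (ks : List ℕ) :
    ∀ (lo hi : ℚ) (i : ℕ), i + ks.length ≤ 4 → n.linM m co ks lo hi i = 0 := by
  induction ks with
  | nil => intros; rfl
  | cons k ks ih =>
    intro lo hi i hi'
    rw [List.length_cons] at hi'
    rw [Enc.linM, h i (by omega), ih _ _ _ (by omega)]
    simp [bd]

theorem length_subs {m : ℕ} {cs ks : List ℕ} (h : ks ∈ subs m cs) : ks.length = cs.length := by
  induction cs generalizing ks with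
  | nil => simpa [subs] using h
  | cons c cs ih =>
    obtain ⟨i, -, h⟩ := List.mem_flatMap.1 h
    obtain ⟨l, h', rfl⟩ := List.mem_map.1 h
    rw [List.length_cons, ih h', List.length_cons]

theorem one_rep {t : Tab2} (hm : 1 ≤ t.m) (h : ∀ x < t.m * t.Q, (L x : ℚ) ≤ n.ll x * D ∧
    0 ≤ n.lu x ∧ n.lu x * D ≤ U x) {cs : List ℕ} (hc : ∀ c ∈ cs, c < t.Q) (hl : cs.length ≤ 3)
    (j : ℕ) : Rep W (one t D W L U cs j) (t.m * D ^ cs.length * ((subs t.m cs).map fun ks =>
      if t.visM j ks then n.boxM t.m (t.c cs j) ks else 0).sum) := by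
  unfold one
  cases e : (t.c cs j 0 == 0 && t.c cs j 1 == 0 && t.c cs j 2 == 0 && t.c cs j 3 == 0)
  · have := SB_rep (W := W) hm h (t.c cs j) cs hc (t.visM j) 1 1 (t.m * (t.c cs j 0).toNat)
      (t.m * (-t.c cs j 0).toNat) 1 1 1 (t.c cs j 0).toNat (-t.c cs j 0).toNat 1 zero_le_one
      zero_le_one (by simp) (by simp) (by simp [mul_comm]) (by simp [mul_comm])
    have v : (fun ks : List ℕ => visB (t.m * t.Q) (List.replicate j (t.m * t.Z) ++
        ks.map (· + 1)) 0 0) = t.visM j := funext fun ks => visB_perm _ List.perm_append_comm 0 0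
    simp only [cond_false, fN_eq, Nat.mul_eq, SF_eq, v]
    simp only [G, ← bd_eq, one_mul] at this
    exact this
  · simp only [Bool.and_eq_true, beq_iff_eq] at e
    have z : ∀ b ≤ 3, t.c cs j b = 0 := fun b hb => by
      have : b = 0 ∨ b = 1 ∨ b = 2 ∨ b = 3 := by omega
      rcases this with rfl | rfl | rfl | rfl <;> simp [e]
    rw [List.sum_eq_zero, mul_zero]
    · exact Rep.zero
    · intro x hx
      obtain ⟨ks, hk, rfl⟩ := List.mem_map.1 hx
      rw [Enc.boxM, z 0 (by omega), linM_zero n _ z ks _ _ _ (by rw [length_subs hk]; omega)]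
      simp [bd]

theorem sumC_zero (Z Q k : ℕ) {g : List ℕ → ℚ} (h : ∀ cs : List ℕ, cs.length = k → g cs = 0) :
    sumC Z Q k g = 0 := by
  rw [← sumC_eq]
  refine List.sum_eq_zero fun x hx => ?_
  obtain ⟨cs, hc, rfl⟩ := List.mem_map.1 hx
  exact h cs (length_cells hc)

theorem sumP_rep (Z Q k : ℕ) (E : ℚ) : ∀ (lo S : ℕ) (f : List ℕ → ℕ) (g : List ℕ → ℚ),
    (∀ cs : List ℕ, cs.length = k → (∀ c ∈ cs, c < Q) → Rep W (f cs) (E * g cs)) →
    (∀ cs : List ℕ, cs.length = k → g cs ≠ 0 → (lo :: cs).Pairwise (· ≤ ·) ∧ cs.sum ≤ S) →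
    Rep W (sumP Z (Q - Z) k lo S f) (E * sumC Z Q k g) := by
  induction k with
  | zero => exact fun _ _ f g h _ => h [] rfl (by simp)
  | succ k ih =>
    intro lo S f g h h'
    refine Rep.sum _ _ fun i hi => ?_
    simp only [fN_eq, Nat.add_eq, Nat.sub_eq]
    cases e : (Nat.ble lo (Z + i) && Nat.ble (Z + i) S)
    · rw [sumC_zero Z Q k fun cs hc => ?_, mul_zero]
      · exact Rep.zero
      · by_contra c
        obtain ⟨c1, c2⟩ := h' _ (by rw [List.length_cons, hc]) c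
        have c3 := List.rel_of_pairwise_cons c1 List.mem_cons_self
        rw [List.sum_cons] at c2
        rw [Bool.eq_false_iff] at e
        exact e (by simp only [Bool.and_eq_true, Nat.ble_eq]; omega)
    · refine ih _ _ _ _ (fun cs h1 h2 => h _ (by rw [List.length_cons, h1]) fun c hc => ?_)
        fun cs h1 h2 => ?_
      · rcases List.mem_cons.1 hc with rfl | hc
        · omega
        · exact h2 c hc
      · obtain ⟨c1, c2⟩ := h' _ (by rw [List.length_cons, h1]) h2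
        rw [List.sum_cons] at c2
        exact ⟨c1.of_cons, by omega⟩

/-- The lower bound. -/
theorem vC_ge (t : Tab2) (n : Enc) {k D W S X : ℕ} {L U : ℕ → ℕ} (hm : 1 ≤ t.m) (hD : 0 < D)
    (hW : 0 < W) (hk : k ≤ 3) (h : ∀ x < t.m * t.Q, (L x : ℚ) ≤ n.ll x * D ∧ 0 ≤ n.lu x ∧
      n.lu x * D ≤ U x)
    (hs : ∀ cs : List ℕ, cs.length = k → t.on cs = true → cs.Pairwise (· ≤ ·) ∧ cs.sum ≤ S)
    (hX : vCN t D W L U S k = X) :
    (((X % W : ℕ) : ℚ) - (X / W : ℕ)) / (t.m * D ^ k) ≤ t.vC n k := by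
  rw [div_le_iff₀' (by positivity), Tab2.vC, sumC_eq, ← hX]
  refine (sumP_rep _ _ _ _ _ _ _ _ (fun cs h1 h2 => ?_) fun cs h1 h2 => ?_).le hW
  swap
  · obtain ⟨c1, c2⟩ := hs cs h1 (by by_contra c; exact h2 (if_neg c))
    exact ⟨List.pairwise_cons.2 ⟨fun _ _ => Nat.zero_le _, c1⟩, c2⟩
  unfold cel
  cases t.on cs
  · simpa using Rep.zero
  · have := (one_rep (W := W) hm h h2 (by omega) 0).add
      ((one_rep (W := W) hm h h2 (by omega) 1).mul t.Z)
    rw [h1] at this
    refine (congrArg _ ?_).mp this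
    simp only [Tab2.vB, momQ, if_true]
    ring

/-- The tables of `R4L`. -/
def LQ (k : ℕ) : ℕ := lgS (2 * k + 1)

def UQ (k : ℕ) : ℕ := lgS (2 * k + 1) + 250000000000 / (2 * k + 1) ^ 9 + 5

/-- Entry of a packed table. -/
def pk (T k : ℕ) : ℕ := Nat.land (Nat.shiftRight T (Nat.mul 44 k)) 17592186044415

def okT (TL TU k : ℕ) : Bool :=
  Nat.rec true (fun i ih => Nat.ble (pk TL i) (LQ i) && Nat.ble (UQ i) (pk TU i) && ih) k

theorem okT_imp {TL TU k : ℕ} (h : okT TL TU k = true) :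
    ∀ i < k, pk TL i ≤ LQ i ∧ UQ i ≤ pk TU i := by
  induction k with
  | zero => intro i hi; omega
  | succ k ih =>
    have e : okT TL TU (k + 1) =
      (Nat.ble (pk TL k) (LQ k) && Nat.ble (UQ k) (pk TU k) && okT TL TU k) := rfl
    simp only [e, Bool.and_eq_true, Nat.ble_eq] at h
    intro i hi
    rcases (Nat.lt_succ_iff.1 hi).eq_or_lt with rfl | hi
    · exact h.1
    · exact ih h.2 i hi

theorem vC_geQ (t : Tab2) (n : Enc) {k W S X TL TU : ℕ} (hm : 1 ≤ t.m) (hW : 0 < W) (hk : k ≤ 3)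
    (hl : n.ll = llQ) (hu : n.lu = luQ) (hT : okT TL TU (t.m * t.Q) = true)
    (hs : ∀ cs : List ℕ, cs.length = k → t.on cs = true → cs.Pairwise (· ≤ ·) ∧ cs.sum ≤ S)
    (hX : vCN t 1000000000000 W (pk TL) (pk TU) S k = X) :
    (((X % W : ℕ) : ℚ) - (X / W : ℕ)) / (t.m * 1000000000000 ^ k) ≤ t.vC n k := by
  have := vC_ge t n hm (by norm_num) hW hk (fun x hx => ?_) hs hX
  · exact_mod_cast this
  · obtain ⟨a, b⟩ := okT_imp hT x hx
    rw [hl, hu, llQ, luQ]
    refine ⟨le_trans (Nat.cast_le.2 a) (le_of_eq ?_), by positivity,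
      le_trans (le_of_eq ?_) (Nat.cast_le.2 b)⟩
    · rw [LQ]; push_cast; ring
    · rw [UQ]; push_cast; ring

end Pool.Agent.Lib.MP_4b1228_nt.PP.R4.V2
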