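import Pool.Agent.Lib.MP_4b1228_nt.PP.R4D

/-!
Certificates on two scales: the rows live on a fine lattice, the check of the patterns on a
coarse one.
-/

open Finset Real
open scoped Classical

namespace Pool.Agent.Lib.MP_4b1228_nt.PP.R5

open R3 R4

/-- The coarse tables. The fine unit is `μ` times smaller, the fine values `Λ` times larger. -/
structure Co where
  μ : ℕ
  Λ : ℕ
  Q : ℕ
  Z : ℕ
  Θ : ℕ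
  F0 : ℕ → ℤ
  P0 : ℕ → ℤ
  F1 : ℕ → ℕ → ℤ
  P1 : ℕ → ℕ → ℤ
  inv : ℕ → ℤ
  F2 : ℕ → ℕ → ℤ
  B2 : ℕ → ℕ → ℤ
  F3 : ℕ → ℕ → ℕ → ℤ
  th : List ℕ → ℕ → Bool

def Co.Ok (c : Co) (t : Tab) : Prop :=
  1 ≤ c.μ ∧ 1 ≤ c.Λ ∧ t.Q = c.μ * c.Q ∧ t.Z = c.μ * c.Z ∧ c.Q ≤ c.Θ ∧ c.Θ ≤ 2 * c.Q ∧
    t.a₁ ≤ t.Q + t.T ∧ (∀ i j, c.F2 i j = c.F2 j i) ∧ (∀ i j, c.B2 i j = c.B2 j i) ∧
    (∀ i j k, c.F3 i j k = c.F3 j i k ∧ c.F3 i j k = c.F3 i k j) ∧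
    (∀ x y j b, y < x ∨ 2 ≤ j → t.e [x, y] j b = 0) ∧
    (∀ x y z j b, y < x ∨ z < y ∨ 1 ≤ j → t.e [x, y, z] j b = 0)

/-! ### The check of the patterns -/

/-- Six times the value of an ordered tuple of cells `cs` with bits `δs`. -/
def Co.W (c : Co) (G0 : ℕ → ℤ) (G1 : ℕ → ℕ → ℤ) (R : ℕ) : List ℕ → List ℕ → ℤ
  | [], _ => 6 * G0 R
  | [i], [a] => 6 * if i < c.Q then G1 (i + a) R else c.inv (i + a)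
  | [i, j], [a, b] =>
      if i < c.Q ∧ j < c.Q then 3 * (c.F2 (i + a) (j + b) + R * c.B2 (i + a) (j + b)) else 0
  | [i, j, k], [a, b, d] => if i < c.Q ∧ j < c.Q ∧ k < c.Q then c.F3 (i + a) (j + b) (k + d) else 0
  | _, _ => 0

/-- Six times the value of a pattern. -/
def Co.FV (c : Co) (s : Finset ℕ) (x δ : ℕ → ℕ) (R : ℕ) : ℤ :=
  ∑ k ∈ range 4, tupL k (fun l =>
    c.W (if (∃ p ∈ s, c.Q ≤ x p) ∧ s.card = 1 then c.P0 else c.F0)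
      (if (∃ p ∈ s, c.Q ≤ x p) ∧ s.card = 2 then c.P1 else c.F1) R (l.map x) (l.map δ)) s

def Co.Lat (c : Co) (b : ℤ) : Prop :=
  ∀ (s : Finset ℕ) (x δ : ℕ → ℕ) (R : ℕ), (∀ p ∈ s, c.Z ≤ x p ∧ x p < c.Θ ∧ δ p ≤ 1) →
    R + ∑ p ∈ s, (x p + δ p) = 2 * c.Q → c.FV s x δ R ≤ 6 * b

/-! ### Lower bounds for the mean over the vertices of a coarse cell -/

def bz (b : Bool) : ℤ := if b then 1 else 0

def mx (F : ℕ → ℕ → ℤ) : ℤ := F 1 1 - F 1 0 - F 0 1 + F 0 0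

def L1 (μ : ℤ) (F : ℕ → ℤ) (a : ℤ) : ℤ := F 0 * (μ - a) + F 1 * a

def ML2 (μ : ℤ) (F : ℕ → ℕ → ℤ) (a b : ℤ) : ℤ :=
  (F 0 0 * (μ - a) + F 1 0 * a) * (μ - b) + (F 0 1 * (μ - a) + F 1 1 * a) * b

def gp (μ : ℤ) (θ : Bool) (a b : ℤ) : ℤ := a * b - bz θ * μ * (a + b - μ)

/-- `μ ^ 2` times the bound at the point `(a / μ, b / μ)`. -/
def L2 (μ : ℤ) (F : ℕ → ℕ → ℤ) (θ : Bool) (a b : ℤ) : ℤ :=
  ML2 μ F a b - max 0 (mx F) * gp μ θ a b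

def mm (F G : ℕ → ℕ → ℤ) : ℤ := max 0 (max (mx F) (mx G))

/-- `μ ^ 3` times the bound at the point `(a / μ, b / μ, d / μ)`. -/
def L3 (μ : ℤ) (F : ℕ → ℕ → ℕ → ℤ) (θ : ℕ → Bool) (a b d : ℤ) : ℤ :=
  ML2 μ (fun i j => F i j 0) a b * (μ - d) + ML2 μ (fun i j => F i j 1) a b * d -
    μ * (mm (fun i j => F i j 0) (fun i j => F i j 1) * gp μ (θ 0) a b +
      mm (fun i k => F i 0 k) (fun i k => F i 1 k) * gp μ (θ 1) a d +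
      mm (fun j k => F 0 j k) (fun j k => F 1 j k) * gp μ (θ 2) b d)

/-- The sum of the positive parts of the slopes. -/
def slp (B : ℕ → ℕ → ℤ) : ℤ :=
  max 0 (max (B 1 0 - B 0 0) (B 1 1 - B 0 1)) + max 0 (max (B 0 1 - B 0 0) (B 1 1 - B 1 0))

/-- The position of a vertex of the fine cell `x` in its coarse cell. -/
def Co.ps (c : Co) (x a : ℕ) : ℤ := (x % c.μ + a : ℕ)

/-- The number of permutations that fix a sorted list. -/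
def mul2 (x y : ℕ) : ℤ := if x = y then 2 else 1

def mul3 (x y z : ℕ) : ℤ := if x = y then (if y = z then 6 else 2) else if y = z then 2 else 1

/-- The exact row at a vertex. -/
def ev (t : Tab) (cs : List ℕ) (j : ℕ) (δs : List ℤ) : ℤ := t.co cs j 0 + lin (t.co cs j) δs 1

/-- The largest window at a vertex. -/
def hx (t : Tab) (cs : List ℕ) (δs : List ℤ) : ℤ :=
  if cs.all (fun x => decide (t.T ≤ x)) then t.hm cs δs (cs.length - 1) else 0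

/-! ### The local conditions -/

def Co.C0 (c : Co) (t : Tab) (G : ℕ → ℤ) (ρ : ℕ) : Prop :=
  ∀ b ≤ 1, c.μ * t.V [] [] ρ (b : ℕ) ≤
    60 * c.Λ * L1 c.μ (fun j => G (ρ / c.μ + j)) (c.ps ρ b)

def Co.C1 (c : Co) (t : Tab) (G : ℕ → ℕ → ℤ) (n x ρ : ℕ) : Prop :=
  ∀ a ≤ 1, ∀ b ≤ 1, c.μ ^ 2 * t.V [x] [(a : ℕ)] ρ (b : ℕ) ≤
    60 * c.Λ * L2 c.μ (fun i j => G (x / c.μ + i) (ρ / c.μ + j)) (c.th [x, ρ] n) (c.ps x a) (c.ps ρ b)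

def Co.CI (c : Co) (t : Tab) (x : ℕ) : Prop :=
  ∀ a ≤ 1, c.μ * t.V [x] [(a : ℕ)] 0 0 ≤ 60 * c.Λ * L1 c.μ (fun i => c.inv (x / c.μ + i)) (c.ps x a)

/-- The part of a pair without `r`, with an error `e / 4`. -/
def Co.CF (c : Co) (t : Tab) (x y : ℕ) (e : ℤ) : Prop :=
  (∀ a ≤ 1, ∀ b ≤ 1,
    4 * c.μ ^ 2 * (mul2 x y * ev t [x, y] 0 [(a : ℕ), (b : ℕ)] + hx t [x, y] [(a : ℕ), (b : ℕ)]) ≤
      c.Λ * (4 * L2 c.μ (fun i j => c.F2 (x / c.μ + i) (y / c.μ + j)) (c.th [x, y] 2) (c.ps x a)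
        (c.ps y b) - c.μ ^ 2 * e)) ∨
  (∀ a ≤ 1, ∀ b ≤ 1, ∀ i ≤ 1, ∀ j ≤ 1,
    4 * (mul2 x y * ev t [x, y] 0 [(a : ℕ), (b : ℕ)] + hx t [x, y] [(a : ℕ), (b : ℕ)]) ≤
      c.Λ * (4 * c.F2 (x / c.μ + i) (y / c.μ + j) - e))

def Co.C2 (c : Co) (t : Tab) (x y : ℕ) : Prop :=
  ((∀ a ≤ 1, ∀ b ≤ 1, c.μ ^ 3 * (mul2 x y * ev t [x, y] 1 [(a : ℕ), (b : ℕ)]) ≤
      c.Λ * L2 c.μ (fun i j => c.B2 (x / c.μ + i) (y / c.μ + j)) (c.th [x, y] 3) (c.ps x a)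
        (c.ps y b)) ∧ c.CF t x y (slp fun i j => c.B2 (x / c.μ + i) (y / c.μ + j))) ∨
  ((∀ a ≤ 1, ∀ b ≤ 1, ∀ i ≤ 1, ∀ j ≤ 1, c.μ * (mul2 x y * ev t [x, y] 1 [(a : ℕ), (b : ℕ)]) ≤
      c.Λ * c.B2 (x / c.μ + i) (y / c.μ + j)) ∧ c.CF t x y 0)

def Co.C3 (c : Co) (t : Tab) (x y z : ℕ) : Prop :=
  (∀ a ≤ 1, ∀ b ≤ 1, ∀ d ≤ 1,
    c.μ ^ 3 * (mul3 x y z * ev t [x, y, z] 0 [(a : ℕ), (b : ℕ), (d : ℕ)] +
      hx t [x, y, z] [(a : ℕ), (b : ℕ), (d : ℕ)]) ≤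
      c.Λ * L3 c.μ (fun i j k => c.F3 (x / c.μ + i) (y / c.μ + j) (z / c.μ + k))
        (fun n => c.th [x, y, z] n) (c.ps x a) (c.ps y b) (c.ps z d)) ∨
  (∀ a ≤ 1, ∀ b ≤ 1, ∀ d ≤ 1, ∀ i ≤ 1, ∀ j ≤ 1, ∀ k ≤ 1,
    mul3 x y z * ev t [x, y, z] 0 [(a : ℕ), (b : ℕ), (d : ℕ)] +
      hx t [x, y, z] [(a : ℕ), (b : ℕ), (d : ℕ)] ≤
      c.Λ * c.F3 (x / c.μ + i) (y / c.μ + j) (z / c.μ + k))

structure Co.Loc (c : Co) (t : Tab) : Prop where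
  c0 : ∀ ρ ≤ 2 * t.Q, c.C0 t c.F0 ρ
  p0 : ∀ ρ ≤ t.Q, c.μ * (2 * c.Q - c.Θ) ≤ ρ → c.C0 t c.P0 ρ
  c1 : ∀ x ρ, t.Z ≤ x → x < t.Q → x + ρ ≤ 2 * t.Q → c.C1 t c.F1 0 x ρ
  p1 : ∀ x ρ, t.Z ≤ x → x < t.Q → x + ρ ≤ t.Q → c.μ * (2 * c.Q - c.Θ) < x + ρ + 2 →
    c.C1 t c.P1 1 x ρ
  ci : ∀ x, t.Q ≤ x → x < c.μ * c.Θ → c.CI t x
  c2 : ∀ x y, t.Z ≤ x → x ≤ y → y < t.Q → c.C2 t x y
  c3 : ∀ x y z, t.Z ≤ x → x ≤ y → y ≤ z → z < t.Q → c.C3 t x y z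

/-- The local conditions and the check of the patterns give the certificate. -/
def Pt5Stmt : Prop :=
  ∀ (t : Tab) (c : Co) (b : ℤ) (v θ : ℝ), t.Ok → c.Ok t → c.Loc t → c.Lat b → RowQ t.Q t.G v →
    (c.Λ : ℝ) * b < v → θ * c.Q < c.Θ → Cert3 θ

/-- The equation lemmas are realized here, once. -/
theorem once5 : True := by
  have := @Co.W.eq_def
  have := @Co.W.eq_1
  have := @Co.W.eq_2
  have := @Co.W.eq_3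
  have := @Co.W.eq_4
  have := @Co.W.eq_5
  trivial

end Pool.Agent.Lib.MP_4b1228_nt.PP.R5
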