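import Pool.Agent.Lib.MP_4b1228_nt.PP.R5D
import Pool.Agent.Lib.MP_4b1228_nt.PP.LatR

/-!
Certificates on two scales: a checker for the local conditions on triples.
-/

namespace Pool.Agent.Lib.MP_4b1228_nt.PP.R5

open R4

namespace K3

noncomputable section

def frc (n : ℕ) (f : ℕ → Bool) : Bool := Nat.rec (f 0) (fun m _ => f (Nat.succ m)) n

def frp (n : ℕ) (f : ℕ → Bool) : Bool := Nat.rec false (fun m _ => f (Nat.succ m)) n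

def an (a b : Bool) : Bool := Bool.rec false b a

def oo (a b : Bool) : Bool := Bool.rec b true a

def al (lo len : ℕ) (f : ℕ → Bool) : Bool :=
  Nat.rec true (fun i r => Bool.rec false r (frc (Nat.add lo i) f)) len

/-- At least `m * c + 2 ^ 64`. -/
def um (m : ℕ) (c : ℤ) : ℕ :=
  Int.rec (fun n => Nat.add 18446744073709551616 (Nat.mul m n))
    (fun n => Nat.sub 18446744073709551616 (Nat.mul m (Nat.succ n))) c

/-- At least `2 ^ 64 - c`. -/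
def dn (c : ℤ) : ℕ :=
  Int.rec (fun n => Nat.sub 18446744073709551616 n)
    (fun n => Nat.add 18446744073709551616 (Nat.succ n)) c

def hU (t : Tab) (n c b : ℕ) : ℕ := Bool.rec 18446744073709551616 (um 1 (t.h1 n c b)) (t.mk1 n c)

def hD (t : Tab) (n c : ℕ) : ℕ := Bool.rec 18446744073709551616 (dn (t.h1 n c 1)) (t.mk1 n c)

def sU (t : Tab) (n : ℕ) : ℕ := um 1 (Int.sub (t.h0 n 1) (t.h0 n 0))

def sD (t : Tab) (n : ℕ) : ℕ := dn (Int.sub (t.h0 n 1) (t.h0 n 0))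

def zU (t : Tab) (n : ℕ) : ℕ := um 1 (t.h0 n 0)

def rg (t : Tab) (n : ℕ) : Bool := an (Nat.ble t.a₀ n) (Nat.ble (Nat.succ n) t.a₁)

/-- An affine function at the eight vertices. -/
def ck (r₀ r₁ r₂ r₃ r₄ r₅ r₆ r₇ c₀ c₁ c₂ c₃ : ℕ) : Bool :=
  frc c₀ fun a => frc c₁ fun b => frc c₂ fun c => frc c₃ fun d =>
    frc (Nat.add a b) fun ab => frc (Nat.add a c) fun ac => frc (Nat.add ab c) fun abc =>
      an (Nat.ble a r₀) (an (Nat.ble ab r₁) (an (Nat.ble ac r₂) (an (Nat.ble abc r₃)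
        (an (Nat.ble (Nat.add a d) r₄) (an (Nat.ble (Nat.add ab d) r₅)
          (an (Nat.ble (Nat.add ac d) r₆) (Nat.ble (Nat.add abc d) r₇)))))))

/-- One window. -/
def win (t : Tab) (n o x y z e₀ e₁ e₂ e₃ : ℕ) (k : ℕ → ℕ → ℕ → ℕ → Bool) : Bool :=
  Bool.rec (k e₀ e₁ e₂ e₃)
    (frc (Nat.add (Nat.add (sU t n) (hU t n x 1)) (Nat.add (hU t n y 1) (hU t n z 1))) fun su =>
      k (Nat.sub (Nat.add (Nat.add (Nat.add e₀ (zU t n)) (Nat.add (hU t n x 0)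
          (Nat.add (hU t n y 0) (hU t n z 0))))
          (Nat.mul o (Nat.add (Nat.add (sD t n) (hD t n x)) (Nat.add (hD t n y) (hD t n z)))))
          (Nat.mul (Nat.succ o) 73786976294838206464))
        (Nat.sub (Nat.add (Nat.add e₁ su) (hU t n x 2)) 92233720368547758080)
        (Nat.sub (Nat.add (Nat.add e₂ su) (hU t n y 2)) 92233720368547758080)
        (Nat.sub (Nat.add (Nat.add e₃ su) (hU t n z 2)) 92233720368547758080)) (rg t n)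

def wins (t : Tab) (h : Bool) (x y z e₀ e₁ e₂ e₃ : ℕ) (k : ℕ → ℕ → ℕ → ℕ → Bool) : Bool :=
  Bool.rec (k e₀ e₁ e₂ e₃) (frc (Nat.add (Nat.add x y) z) fun s =>
    an (win t s 0 x y z e₀ e₁ e₂ e₃ k) (frc (Nat.succ s) fun s₁ =>
      an (win t s₁ 1 x y z e₀ e₁ e₂ e₃ k) (frc (Nat.succ s₁) fun s₂ =>
        win t s₂ 2 x y z e₀ e₁ e₂ e₃ k))) h

def mN (x y z : ℕ) : ℕ :=
  Bool.rec (Bool.rec 1 2 (Nat.beq y z)) (Bool.rec 2 6 (Nat.beq y z)) (Nat.beq x y)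

/-- The left side: `v` says that the cell is visible, `h` that a window meets it. -/
def lhs (t : Tab) (L : ℕ) (v h : Bool) (x y z : ℕ) (k : ℕ → ℕ → ℕ → ℕ → Bool) : Bool :=
  Bool.rec (frc (Nat.add 18446744073709551616 L) fun e₀ =>
      wins t h x y z e₀ 18446744073709551616 18446744073709551616 18446744073709551616 k)
    (frc (mN x y z) fun m => frc (Nat.add (um m (t.e [x, y, z] 0 0)) L) fun e₀ =>
      frc (um m (t.e [x, y, z] 0 1)) fun e₁ => frc (um m (t.e [x, y, z] 0 2)) fun e₂ =>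
        frc (um m (t.e [x, y, z] 0 3)) fun e₃ => wins t h x y z e₀ e₁ e₂ e₃ k) v

def lf (q s n : ℕ) : Bool :=
  an (Nat.ble (Nat.add (Nat.mul 3 n) s) (Nat.mul 2 q)) (Nat.ble s (Nat.add q n))

def v3 (q x y z : ℕ) : Bool :=
  frc (Nat.add (Nat.add (Nat.add x y) z) 3) fun s =>
    oo (Nat.ble s q) (oo (lf q s (Nat.succ x)) (oo (lf q s (Nat.succ y)) (oo (lf q s (Nat.succ z))
      (an (Nat.ble (Nat.add (Nat.mul 3 (Nat.add (Nat.add x y) 2)) s) (Nat.mul 2 q))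
        (Nat.ble s (Nat.add q (Nat.add (Nat.add x y) 2)) ||
          lf q s (Nat.add (Nat.add x z) 2) || lf q s (Nat.add (Nat.add y z) 2) || lf q s s)))))

def ha (t : Tab) (x y z : ℕ) : Bool :=
  an (Nat.ble t.T x) (frc (Nat.add (Nat.add x y) z) fun s =>
    an (Nat.ble t.a₀ (Nat.add s 2)) (Nat.ble (Nat.succ s) t.a₁))

def ip (a b U u : ℕ) : ℕ := Nat.add (Nat.mul a U) (Nat.mul b u)

def pn (m u₀ u₁ v₀ v₁ : ℕ) (k : ℕ → ℕ → ℕ → ℕ → Bool) : Bool :=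
  frc (Nat.mul m u₀) fun a₀ => frc (Nat.mul m u₁) fun a₁ =>
    frc (Nat.mul a₀ v₀) fun g₀ => frc (Nat.mul a₁ v₀) fun g₁ =>
      frc (Nat.mul a₀ v₁) fun g₂ => frc (Nat.mul a₁ v₁) fun g₃ => k g₀ g₁ g₂ g₃

def pen (θ : Bool) (m u₀ u₁ U₀ U₁ v₀ v₁ V₀ V₁ : ℕ) (k : ℕ → ℕ → ℕ → ℕ → Bool) : Bool :=
  Bool.rec (pn m u₀ u₁ v₀ v₁ k) (pn m U₀ U₁ V₀ V₁ k) θ

def rv (μ3 b₀ b₁ S s g₁ g₂ g₃ w : ℕ) (k : ℕ → Bool) : Bool :=
  frp (Nat.div (Nat.sub (ip b₀ b₁ S s) (Nat.add (Nat.add g₁ g₂) g₃)) μ3) fun r =>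
    frc (Nat.add r w) k

/-- The first alternative on a fine cell. -/
def fst (θ : ℕ → Bool) (μ3 m₁ m₂ m₃ p₀ p₁ P₀ P₁ q₀ q₁ Q₀ Q₁ s₀ s₁ S₀ S₁ b₀ b₁ b₂ b₃ b₄ b₅ b₆ b₇ : ℕ)
    (k : (ℕ → ℕ → ℕ → ℕ → Bool) → Bool) : Bool :=
  pen (θ 0) m₁ p₀ p₁ P₀ P₁ q₀ q₁ Q₀ Q₁ fun x₀ x₁ x₂ x₃ =>
  pen (θ 1) m₂ p₀ p₁ P₀ P₁ s₀ s₁ S₀ S₁ fun y₀ y₁ y₂ y₃ =>
  pen (θ 2) m₃ q₀ q₁ Q₀ Q₁ s₀ s₁ S₀ S₁ fun z₀ z₁ z₂ z₃ =>
  rv μ3 b₀ b₄ S₀ s₀ x₀ y₀ z₀ 18446744073709551616 fun r₀ =>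
  rv μ3 b₁ b₅ S₀ s₀ x₁ y₁ z₀ 36893488147419103232 fun r₁ =>
  rv μ3 b₂ b₆ S₀ s₀ x₂ y₀ z₁ 36893488147419103232 fun r₂ =>
  rv μ3 b₃ b₇ S₀ s₀ x₃ y₁ z₁ 55340232221128654848 fun r₃ =>
  rv μ3 b₀ b₄ S₁ s₁ x₀ y₂ z₂ 36893488147419103232 fun r₄ =>
  rv μ3 b₁ b₅ S₁ s₁ x₁ y₃ z₂ 55340232221128654848 fun r₅ =>
  rv μ3 b₂ b₆ S₁ s₁ x₂ y₂ z₃ 55340232221128654848 fun r₆ =>
  rv μ3 b₃ b₇ S₁ s₁ x₃ y₃ z₃ 73786976294838206464 fun r₇ => k (ck r₀ r₁ r₂ r₃ r₄ r₅ r₆ r₇)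

/-- The second alternative. -/
def snd (mn : ℕ) (k : (ℕ → ℕ → ℕ → ℕ → Bool) → Bool) : Bool :=
  frc (Nat.add mn 18446744073709551616) fun a => frc (Nat.add mn 36893488147419103232) fun b =>
    frc (Nat.add mn 55340232221128654848) fun c =>
      k (ck a b b c b c c (Nat.add mn 73786976294838206464))

def frb (b : Bool) (f : Bool → Bool) : Bool := Bool.rec (f false) (f true) b

def cell (t : Tab) (L mn x y z : ℕ) (F : ((ℕ → ℕ → ℕ → ℕ → Bool) → Bool) → Bool) : Bool :=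
  frb (v3 t.Q x y z) fun v => frb (ha t x y z) fun h =>
    oo (an (Bool.rec (Bool.rec true false h) false v) (Nat.ble L mn))
      (oo (F (lhs t L v h x y z)) (snd mn (lhs t L v h x y z)))

def mxN (a b : ℕ) : ℕ := Bool.rec a b (Nat.ble a b)

def mnN (a b : ℕ) : ℕ := Bool.rec b a (Nat.ble a b)

def mq (μ a b c d a' b' c' d' : ℕ) (k : ℕ → Bool) : Bool :=
  frc (Nat.sub (Nat.add a b) (Nat.add c d)) fun x =>
    frc (Nat.sub (Nat.add a' b') (Nat.add c' d')) fun y => frc (Nat.mul μ (mxN x y)) k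

def m2 (a b : ℕ) (k : ℕ → Bool) : Bool := frc (mnN a b) k

/-- The fine cells of a coarse cell. -/
def fine (t : Tab) (c : Co) (μ L mn i j k f₀ f₁ f₂ f₃ f₄ f₅ f₆ f₇ : ℕ) : Bool :=
  mq μ f₃ f₀ f₁ f₂ f₇ f₄ f₅ f₆ fun m₁ => mq μ f₅ f₀ f₁ f₄ f₇ f₂ f₃ f₆ fun m₂ =>
  mq μ f₆ f₀ f₂ f₄ f₇ f₁ f₃ f₅ fun m₃ => frc (Nat.mul (Nat.mul μ μ) μ) fun μ3 =>
  al 0 μ fun p₀ => frc (Nat.succ p₀) fun p₁ => frc (Nat.sub μ p₀) fun P₀ =>
  frc (Nat.sub μ p₁) fun P₁ => frc (Nat.add (Nat.mul μ i) p₀) fun x =>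
  frc (ip f₀ f₁ P₀ p₀) fun a₀ => frc (ip f₀ f₁ P₁ p₁) fun a₁ =>
  frc (ip f₂ f₃ P₀ p₀) fun a₂ => frc (ip f₂ f₃ P₁ p₁) fun a₃ =>
  frc (ip f₄ f₅ P₀ p₀) fun a₄ => frc (ip f₄ f₅ P₁ p₁) fun a₅ =>
  frc (ip f₆ f₇ P₀ p₀) fun a₆ => frc (ip f₆ f₇ P₁ p₁) fun a₇ =>
  al 0 μ fun q₀ => frc (Nat.add (Nat.mul μ j) q₀) fun y => oo (Nat.ble (Nat.succ y) x)
  (frc (Nat.succ q₀) fun q₁ => frc (Nat.sub μ q₀) fun Q₀ => frc (Nat.sub μ q₁) fun Q₁ =>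
  frc (ip a₀ a₂ Q₀ q₀) fun b₀ => frc (ip a₁ a₃ Q₀ q₀) fun b₁ =>
  frc (ip a₀ a₂ Q₁ q₁) fun b₂ => frc (ip a₁ a₃ Q₁ q₁) fun b₃ =>
  frc (ip a₄ a₆ Q₀ q₀) fun b₄ => frc (ip a₅ a₇ Q₀ q₀) fun b₅ =>
  frc (ip a₄ a₆ Q₁ q₁) fun b₆ => frc (ip a₅ a₇ Q₁ q₁) fun b₇ =>
  al 0 μ fun s₀ => frc (Nat.add (Nat.mul μ k) s₀) fun z => oo (Nat.ble (Nat.succ z) y)
  (cell t L mn x y z fun κ => frc (Nat.succ s₀) fun s₁ => frc (Nat.sub μ s₀) fun S₀ =>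
    frc (Nat.sub μ s₁) fun S₁ => fst (c.th [x, y, z]) μ3 m₁ m₂ m₃ p₀ p₁ P₀ P₁ q₀ q₁ Q₀ Q₁
      s₀ s₁ S₀ S₁ b₀ b₁ b₂ b₃ b₄ b₅ b₆ b₇ κ))

/-- `Λ * (F3 + 2 ^ 32)`, or zero. -/
def nd (c : Co) (i j k : ℕ) : ℕ :=
  Nat.mul c.Λ (Int.rec (fun n => Nat.add 4294967296 n)
    (fun n => Nat.sub 4294967296 (Nat.succ n)) (c.F3 i j k))

def coarse (t : Tab) (c : Co) (i j k : ℕ) : Bool :=
  frc c.μ fun μ => frc (Nat.mul c.Λ 4294967296) fun L =>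
  frc (Nat.succ i) fun i' => frc (Nat.succ j) fun j' => frc (Nat.succ k) fun k' =>
  frp (nd c i j k) fun f₀ => frp (nd c i' j k) fun f₁ => frp (nd c i j' k) fun f₂ =>
  frp (nd c i' j' k) fun f₃ => frp (nd c i j k') fun f₄ => frp (nd c i' j k') fun f₅ =>
  frp (nd c i j' k') fun f₆ => frp (nd c i' j' k') fun f₇ =>
  m2 f₀ f₁ fun n₁ => m2 n₁ f₂ fun n₂ => m2 n₂ f₃ fun n₃ => m2 n₃ f₄ fun n₄ => m2 n₄ f₅ fun n₅ =>
  m2 n₅ f₆ fun n₆ => m2 n₆ f₇ fun mn =>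
  oo (an (Nat.ble L mn) (frc (Nat.mul μ (Nat.add (Nat.add i j) k)) fun s =>
      an (Nat.ble t.a₁ s) (Nat.ble (Nat.mul 5 t.Q) (Nat.add (Nat.mul 4 s) 11))))
    (fine t c μ L mn i j k f₀ f₁ f₂ f₃ f₄ f₅ f₆ f₇)

/-- The coarse cells `(i, j, k)` with `n = i * Q + j`, `i ≤ j ≤ k < Q` and `i + j + k < S`. -/
def row (t : Tab) (c : Co) (S n : ℕ) : Bool :=
  frc (Nat.div n c.Q) fun i => frc (Nat.mod n c.Q) fun j => oo (Nat.ble (Nat.succ j) i)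
    (al j (Nat.sub (mnN c.Q (Nat.sub S (Nat.add i j))) j) (coarse t c i j))

end

/-! ### Soundness -/

theorem frc_eq (n : ℕ) (f : ℕ → Bool) : frc n f = f n := by cases n <;> rfl

theorem frb_eq (b : Bool) (f : Bool → Bool) : frb b f = f b := by cases b <;> rfl

theorem frp_iff {n : ℕ} {f : ℕ → Bool} : frp n f = true ↔ 0 < n ∧ f n = true := by
  cases n with
  | zero => simp [frp]
  | succ n => simp [frp]

theorem an_iff {a b : Bool} : an a b = true ↔ a = true ∧ b = true := by cases a <;> simp [an]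

theorem oo_iff {a b : Bool} : oo a b = true ↔ a = true ∨ b = true := by cases a <;> simp [oo]

theorem al_imp {lo len : ℕ} {f : ℕ → Bool} (h : al lo len f = true) :
    ∀ i, lo ≤ i → i < lo + len → f i = true := by
  induction len with
  | zero => intro i a b; omega
  | succ n ih =>
    have e : al lo (n + 1) f = an (frc (lo + n) f) (al lo n f) := rfl
    rw [e, an_iff, frc_eq] at h
    intro i a b
    rcases (Nat.lt_succ_iff.1 b).eq_or_lt with rfl | b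
    · exact h.1
    · exact ih h.2 i a b

theorem um_ge (m : ℕ) (c : ℤ) : m * c + 18446744073709551616 ≤ (um m c : ℤ) := by
  cases c with
  | ofNat n =>
    change _ ≤ ((18446744073709551616 + m * n : ℕ) : ℤ)
    rw [Int.ofNat_eq_natCast]
    push_cast
    omega
  | negSucc n =>
    change _ ≤ ((18446744073709551616 - m * (n + 1) : ℕ) : ℤ)
    have : (m : ℤ) * Int.negSucc n = -((m * (n + 1) : ℕ) : ℤ) := by
      rw [Int.negSucc_eq]; push_cast; ring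
    rw [this]
    omega

theorem dn_ge (c : ℤ) : -c + 18446744073709551616 ≤ (dn c : ℤ) := by
  cases c with
  | ofNat n =>
    change _ ≤ ((18446744073709551616 - n : ℕ) : ℤ)
    rw [Int.ofNat_eq_natCast]
    omega
  | negSucc n =>
    change _ ≤ ((18446744073709551616 + (n + 1) : ℕ) : ℤ)
    omega

/-- The marks that are allowed. -/
def mk (t : Tab) (n c b : ℕ) : ℤ := if t.mk1 n c then t.h1 n c b else 0

theorem hU_ge (t : Tab) (n c b : ℕ) : mk t n c b + 18446744073709551616 ≤ (hU t n c b : ℤ) := by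
  unfold mk hU
  cases t.mk1 n c
  · simp
  · simpa using um_ge 1 (t.h1 n c b)

theorem hD_ge (t : Tab) (n c : ℕ) : -mk t n c 1 + 18446744073709551616 ≤ (hD t n c : ℤ) := by
  unfold mk hD
  cases t.mk1 n c
  · simp
  · simpa using dn_ge (t.h1 n c 1)

theorem hv_eq (t : Tab) {o x y z : ℕ} (h : t.a₀ ≤ x + y + z + o ∧ x + y + z + o < t.a₁) (a b d : ℤ) :
    t.hv (x + y + z + o) [x, y, z] [a, b, d] = t.h0 (x + y + z + o) 0 + mk t (x + y + z + o) x 0 +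
      mk t (x + y + z + o) y 0 + mk t (x + y + z + o) z 0 + (a + b + d - o) *
        (t.h0 (x + y + z + o) 1 - t.h0 (x + y + z + o) 0 + mk t (x + y + z + o) x 1 +
          mk t (x + y + z + o) y 1 + mk t (x + y + z + o) z 1) + a * mk t (x + y + z + o) x 2 +
        b * mk t (x + y + z + o) y 2 + d * mk t (x + y + z + o) z 2 := by
  rw [Tab.hv, if_pos h]
  simp only [Tab.marks, mk, List.sum_cons, List.sum_nil, Int.cast_id]
  split_ifs <;> push_cast <;> ring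

def Ck (R : ℕ → ℕ → ℕ → ℤ) (k : ℕ → ℕ → ℕ → ℕ → Bool) : Prop :=
  ∀ c₀ c₁ c₂ c₃ : ℕ, k c₀ c₁ c₂ c₃ = true → ∀ a : ℕ, a ≤ 1 → ∀ b : ℕ, b ≤ 1 → ∀ d : ℕ, d ≤ 1 →
    (c₀ + a * c₁ + b * c₂ + d * c₃ : ℤ) ≤ R a b d + (1 + a + b + d) * 18446744073709551616

theorem ck_spec {R : ℕ → ℕ → ℕ → ℤ} {r₀ r₁ r₂ r₃ r₄ r₅ r₆ r₇ : ℕ}
    (h₀ : (r₀ : ℤ) ≤ R 0 0 0 + 18446744073709551616) (h₁ : (r₁ : ℤ) ≤ R 1 0 0 + 36893488147419103232)
    (h₂ : (r₂ : ℤ) ≤ R 0 1 0 + 36893488147419103232) (h₃ : (r₃ : ℤ) ≤ R 1 1 0 + 55340232221128654848)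
    (h₄ : (r₄ : ℤ) ≤ R 0 0 1 + 36893488147419103232) (h₅ : (r₅ : ℤ) ≤ R 1 0 1 + 55340232221128654848)
    (h₆ : (r₆ : ℤ) ≤ R 0 1 1 + 55340232221128654848)
    (h₇ : (r₇ : ℤ) ≤ R 1 1 1 + 73786976294838206464) : Ck R (ck r₀ r₁ r₂ r₃ r₄ r₅ r₆ r₇) := by
  intro c₀ c₁ c₂ c₃ h a ha b hb d hd
  simp only [ck, frc_eq, an_iff, Nat.ble_eq, Nat.add_eq] at h
  interval_cases a <;> interval_cases b <;> interval_cases d <;> push_cast <;> omega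

section
variable {R : ℕ → ℕ → ℕ → ℤ} {k : ℕ → ℕ → ℕ → ℕ → Bool} {t : Tab} {x y z e₀ e₁ e₂ e₃ : ℕ}
  {E₀ E₁ E₂ E₃ : ℤ}

theorem Ck.le (hk : Ck R k) (h : k e₀ e₁ e₂ e₃ = true) (h₀ : E₀ + 18446744073709551616 ≤ e₀)
    (h₁ : E₁ + 18446744073709551616 ≤ e₁) (h₂ : E₂ + 18446744073709551616 ≤ e₂)
    (h₃ : E₃ + 18446744073709551616 ≤ e₃) : ∀ a ≤ 1, ∀ b ≤ 1, ∀ d ≤ 1,
      E₀ + (a : ℕ) * E₁ + (b : ℕ) * E₂ + (d : ℕ) * E₃ ≤ R a b d := by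
  intro a ha b hb d hd
  have := hk _ _ _ _ h a ha b hb d hd
  interval_cases a <;> interval_cases b <;> interval_cases d <;> push_cast at this ⊢ <;> omega

theorem win_spec (hk : Ck R k) {o : ℕ} (h : win t (x + y + z + o) o x y z e₀ e₁ e₂ e₃ k = true)
    (h₀ : E₀ + 18446744073709551616 ≤ e₀) (h₁ : E₁ + 18446744073709551616 ≤ e₁)
    (h₂ : E₂ + 18446744073709551616 ≤ e₂) (h₃ : E₃ + 18446744073709551616 ≤ e₃) :
    ∀ a ≤ 1, ∀ b ≤ 1, ∀ d ≤ 1, E₀ + (a : ℕ) * E₁ + (b : ℕ) * E₂ + (d : ℕ) * E₃ +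
      t.hv (x + y + z + o) [x, y, z] [((a : ℕ) : ℤ), (b : ℕ), (d : ℕ)] ≤ R a b d := by
  intro a ha b hb d hd
  unfold win at h
  cases hr : rg t (x + y + z + o) with
  | false =>
    rw [hr] at h
    have : ¬ (t.a₀ ≤ x + y + z + o ∧ x + y + z + o < t.a₁) := fun h' => by
      have : rg t (x + y + z + o) = true := an_iff.2 ⟨Nat.ble_eq ▸ h'.1, Nat.ble_eq ▸ h'.2⟩
      rw [hr] at this
      exact absurd this (by simp)
    rw [Tab.hv, if_neg this, add_zero]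
    exact hk.le h h₀ h₁ h₂ h₃ a ha b hb d hd
  | true =>
    rw [hr] at h
    simp only [rg, an_iff, Nat.ble_eq] at hr
    rw [hv_eq t hr]
    generalize x + y + z + o = n at *
    simp only [frc_eq, Nat.add_eq, Nat.sub_eq, Nat.mul_eq, Nat.succ_eq_add_one] at h
    have a0 := um_ge 1 (t.h0 n 0)
    have a1 := um_ge 1 (t.h0 n 1 - t.h0 n 0)
    have a2 := dn_ge (t.h0 n 1 - t.h0 n 0)
    have b1 := hU_ge t n x 1
    have b2 := hU_ge t n y 1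
    have b3 := hU_ge t n z 1
    have c1 := hD_ge t n x
    have c2 := hD_ge t n y
    have c3 := hD_ge t n z
    have d1 := hU_ge t n x 0
    have d2 := hU_ge t n y 0
    have d3 := hU_ge t n z 0
    have e1 := hU_ge t n x 2
    have e2 := hU_ge t n y 2
    have e3 := hU_ge t n z 2
    change _ ≤ (zU t n : ℤ) at a0
    change _ ≤ (sU t n : ℤ) at a1
    change _ ≤ (sD t n : ℤ) at a2
    obtain ⟨σ, hσ⟩ : ∃ σ, σ = t.h0 n 1 - t.h0 n 0 + mk t n x 1 + mk t n y 1 + mk t n z 1 := ⟨_, rfl⟩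
    have f : (o : ℤ) * (73786976294838206464 - σ) ≤
        ((o * (sD t n + hD t n x + (hD t n y + hD t n z)) : ℕ) : ℤ) := by
      push_cast
      exact mul_le_mul_of_nonneg_left (by omega) (Int.natCast_nonneg o)
    rw [mul_sub] at f
    have := hk.le (E₀ := E₀ + t.h0 n 0 + mk t n x 0 + mk t n y 0 + mk t n z 0 - o * σ)
      (E₁ := E₁ + σ + mk t n x 2) (E₂ := E₂ + σ + mk t n y 2) (E₃ := E₃ + σ + mk t n z 2) h
      (by generalize (o : ℤ) * σ = w at *; generalize o * (_ + _ + _) = w' at *; omega)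
      (by omega) (by omega) (by omega) a ha b hb d hd
    rw [← hσ]
    linarith

theorem wins_spec (hk : Ck R k) (hxy : x ≤ y) (hyz : y ≤ z)
    (h : wins t (ha t x y z) x y z e₀ e₁ e₂ e₃ k = true)
    (h₀ : E₀ + 18446744073709551616 ≤ e₀) (h₁ : E₁ + 18446744073709551616 ≤ e₁)
    (h₂ : E₂ + 18446744073709551616 ≤ e₂) (h₃ : E₃ + 18446744073709551616 ≤ e₃) :
    ∀ a ≤ 1, ∀ b ≤ 1, ∀ d ≤ 1, E₀ + (a : ℕ) * E₁ + (b : ℕ) * E₂ + (d : ℕ) * E₃ +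
      hx t [x, y, z] [((a : ℕ) : ℤ), (b : ℕ), (d : ℕ)] ≤ R a b d := by
  intro a h1 b h2 d h3
  have e : [x, y, z].sum = x + y + z := by simp [add_assoc]
  unfold wins at h
  cases hr : ha t x y z with
  | false =>
    rw [hr] at h
    have h4 : hx t [x, y, z] [((a : ℕ) : ℤ), (b : ℕ), (d : ℕ)] = 0 := by
      have h5 := Bool.eq_false_iff.1 hr
      simp only [ha, ne_eq, an_iff, frc_eq, Nat.ble_eq, Nat.add_eq, Nat.succ_eq_add_one] at h5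
      unfold hx
      split_ifs with h6
      · have h7 : t.T ≤ x := by simp at h6; exact h6.1
        simp only [List.length_cons, List.length_nil, Nat.reduceAdd, Nat.reduceSub, Tab.hm, Tab.hv, e]
        rw [if_neg (by omega), if_neg (by omega), if_neg (by omega)]
        rfl
      · rfl
    rw [h4, add_zero]
    exact hk.le h h₀ h₁ h₂ h₃ a h1 b h2 d h3
  | true =>
    rw [hr] at h
    simp only [ha, an_iff, frc_eq, Nat.ble_eq] at hr h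
    have w0 := win_spec (o := 0) hk h.1 h₀ h₁ h₂ h₃ a h1 b h2 d h3
    have w1 := win_spec (o := 1) hk h.2.1 h₀ h₁ h₂ h₃ a h1 b h2 d h3
    have w2 := win_spec (o := 2) hk h.2.2 h₀ h₁ h₂ h₃ a h1 b h2 d h3
    have h6 : ([x, y, z].all fun c => decide (t.T ≤ c)) = true := by simp; omega
    rw [hx, if_pos h6]
    simp only [List.length_cons, List.length_nil, Nat.reduceAdd, Nat.reduceSub, Tab.hm, e]
    rw [add_zero] at w0
    rw [← le_sub_iff_add_le'] at w0 w1 w2 ⊢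
    exact max_le (max_le w0 w1) w2

theorem mN_eq (x y z : ℕ) : (mN x y z : ℤ) = mul3 x y z := by
  unfold mN mul3
  cases h1 : Nat.beq x y <;> cases h2 : Nat.beq y z
  · rw [if_neg (Nat.ne_of_beq_eq_false h1), if_neg (Nat.ne_of_beq_eq_false h2)]; rfl
  · rw [if_neg (Nat.ne_of_beq_eq_false h1), if_pos (Nat.eq_of_beq_eq_true h2)]; rfl
  · rw [if_pos (Nat.eq_of_beq_eq_true h1), if_neg (Nat.ne_of_beq_eq_false h2)]; rfl
  · rw [if_pos (Nat.eq_of_beq_eq_true h1), if_pos (Nat.eq_of_beq_eq_true h2)]; rfl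

theorem v3_eq (t : Tab) (hxy : x ≤ y) (hyz : y ≤ z) : v3 t.Q x y z = t.vis 0 [x, y, z] := by
  rw [Bool.eq_iff_iff]
  simp only [v3, lf, frc_eq, oo_iff, an_iff, Bool.or_eq_true, Nat.ble_eq, Nat.add_eq, Nat.mul_eq,
    Nat.succ_eq_add_one, Tab.vis, List.map_cons, List.map_nil, List.replicate_zero,
    List.append_nil, visB, Bool.and_eq_true, decide_eq_true_eq]
  omega

theorem lhs_spec (hk : Ck R k) (hxy : x ≤ y) (hyz : y ≤ z) {L : ℕ}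
    (h : lhs t L (t.vis 0 [x, y, z]) (ha t x y z) x y z k = true) :
    ∀ a ≤ 1, ∀ b ≤ 1, ∀ d ≤ 1, mul3 x y z * ev t [x, y, z] 0 [((a : ℕ) : ℤ), (b : ℕ), (d : ℕ)] +
      hx t [x, y, z] [((a : ℕ) : ℤ), (b : ℕ), (d : ℕ)] + L ≤ R a b d := by
  intro a h1 b h2 d h3
  unfold lhs at h
  simp only [ev, lin, Tab.co, Int.cast_id]
  cases hv : t.vis 0 [x, y, z] with
  | false =>
    rw [hv] at h
    simp only [frc_eq, Nat.add_eq] at h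
    have := wins_spec (E₀ := L) (E₁ := 0) (E₂ := 0) (E₃ := 0) hk hxy hyz h (by omega) (by omega)
      (by omega) (by omega) a h1 b h2 d h3
    simp only [Bool.false_eq_true, if_false]
    linarith
  | true =>
    rw [hv] at h
    simp only [frc_eq, Nat.add_eq] at h
    have a0 := um_ge (mN x y z) (t.e [x, y, z] 0 0)
    have := wins_spec (E₀ := mN x y z * t.e [x, y, z] 0 0 + L) hk hxy hyz h (by push_cast; linarith)
      (um_ge _ _) (um_ge _ _) (um_ge _ _) a h1 b h2 d h3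
    rw [mN_eq] at this
    simp only [if_true]
    linarith

end

def sel (θ : Bool) (u U : ℕ) : ℕ := Bool.rec u U θ

theorem pen_eq (θ : Bool) (m u₀ u₁ U₀ U₁ v₀ v₁ V₀ V₁ : ℕ) (k : ℕ → ℕ → ℕ → ℕ → Bool) :
    pen θ m u₀ u₁ U₀ U₁ v₀ v₁ V₀ V₁ k = k (m * sel θ u₀ U₀ * sel θ v₀ V₀)
      (m * sel θ u₁ U₁ * sel θ v₀ V₀) (m * sel θ u₀ U₀ * sel θ v₁ V₁)
      (m * sel θ u₁ U₁ * sel θ v₁ V₁) := by
  cases θ <;> simp only [pen, pn, frc_eq] <;> rfl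

theorem gp_eq {μ u v : ℕ} (hu : u ≤ μ) (hv : v ≤ μ) (θ : Bool) :
    gp μ θ u v = (sel θ u (μ - u) : ℤ) * sel θ v (μ - v) := by
  cases θ
  · simp [gp, bz, sel]
  · simp only [gp, bz, sel, Nat.cast_sub hu, Nat.cast_sub hv, if_true]
    ring

theorem rv_spec {μ3 b₀ b₁ S s g₁ g₂ g₃ w : ℕ} {k : ℕ → Bool}
    (h : rv μ3 b₀ b₁ S s g₁ g₂ g₃ w k = true) : ∃ r : ℕ, k (r + w) = true ∧
      (μ3 * r : ℤ) ≤ (ip b₀ b₁ S s : ℕ) - ((g₁ + g₂ + g₃ : ℕ) : ℤ) := by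
  rw [rv, frp_iff, frc_eq] at h
  refine ⟨_, h.2, ?_⟩
  have h1 := h.1
  change 0 < (ip b₀ b₁ S s - (g₁ + g₂ + g₃)) / μ3 at h1
  change (μ3 * ((ip b₀ b₁ S s - (g₁ + g₂ + g₃)) / μ3 : ℕ) : ℤ) ≤ _
  have h2 := Nat.mul_div_le (ip b₀ b₁ S s - (g₁ + g₂ + g₃)) μ3
  have h3 : 0 < ip b₀ b₁ S s - (g₁ + g₂ + g₃) := Nat.pos_of_div_pos h1
  rw [← Nat.cast_mul]
  omega

theorem mxN_eq (a b : ℕ) : mxN a b = max a b := by
  unfold mxN
  cases h : Nat.ble a b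
  · exact (max_eq_left (Nat.not_le_of_not_ble_eq_true (by simp [h]) |> not_le.1).le).symm
  · exact (max_eq_right (Nat.le_of_ble_eq_true h)).symm

theorem mnN_eq (a b : ℕ) : mnN a b = min a b := by
  unfold mnN
  cases h : Nat.ble a b
  · exact (min_eq_right (Nat.not_le_of_not_ble_eq_true (by simp [h]) |> not_le.1).le).symm
  · exact (min_eq_left (Nat.le_of_ble_eq_true h)).symm

theorem mm_eq {Λ : ℕ} {K : ℤ} {F G : ℕ → ℕ → ℤ} {a b c d a' b' c' d' : ℕ}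
    (ha : (a : ℤ) = Λ * (F 1 1 + K)) (hb : (b : ℤ) = Λ * (F 0 0 + K)) (hc : (c : ℤ) = Λ * (F 1 0 + K))
    (hd : (d : ℤ) = Λ * (F 0 1 + K)) (ha' : (a' : ℤ) = Λ * (G 1 1 + K))
    (hb' : (b' : ℤ) = Λ * (G 0 0 + K)) (hc' : (c' : ℤ) = Λ * (G 1 0 + K))
    (hd' : (d' : ℤ) = Λ * (G 0 1 + K)) :
    ((max (a + b - (c + d)) (a' + b' - (c' + d')) : ℕ) : ℤ) = Λ * mm F G := by
  have e1 : (Λ : ℤ) * mx F = a + b - (c + d) := by rw [ha, hb, hc, hd, mx]; ring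
  have e2 : (Λ : ℤ) * mx G = a' + b' - (c' + d') := by rw [ha', hb', hc', hd', mx]; ring
  rw [mm, mul_max_of_nonneg _ _ (Int.natCast_nonneg Λ), mul_max_of_nonneg _ _ (Int.natCast_nonneg Λ),
    e1, e2, mul_zero]
  omega

theorem nd_eq {c : Co} {i j k : ℕ} (h : 0 < nd c i j k) :
    (nd c i j k : ℤ) = c.Λ * (c.F3 i j k + 4294967296) := by
  unfold nd at h ⊢
  generalize c.F3 i j k = v at h ⊢
  cases v with
  | ofNat n =>
    change ((c.Λ * (4294967296 + n) : ℕ) : ℤ) = _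
    rw [Int.ofNat_eq_natCast]
    push_cast
    ring
  | negSucc n =>
    change 0 < c.Λ * (4294967296 - (n + 1)) at h
    change ((c.Λ * (4294967296 - (n + 1)) : ℕ) : ℤ) = _
    have h1 := Nat.pos_of_mul_pos_left h
    have h2 : ((4294967296 - (n + 1) : ℕ) : ℤ) = Int.negSucc n + 4294967296 := by omega
    rw [Nat.cast_mul, h2]

section
variable {t : Tab} {c : Co} {F : ℕ → ℕ → ℕ → ℤ} {f₀ f₁ f₂ f₃ f₄ f₅ f₆ f₇ : ℕ}

/-- The scaled nodes. -/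
structure Nd (Λ : ℕ) (F : ℕ → ℕ → ℕ → ℤ) (f₀ f₁ f₂ f₃ f₄ f₅ f₆ f₇ : ℕ) : Prop where
  h₀ : (f₀ : ℤ) = Λ * (F 0 0 0 + 4294967296)
  h₁ : (f₁ : ℤ) = Λ * (F 1 0 0 + 4294967296)
  h₂ : (f₂ : ℤ) = Λ * (F 0 1 0 + 4294967296)
  h₃ : (f₃ : ℤ) = Λ * (F 1 1 0 + 4294967296)
  h₄ : (f₄ : ℤ) = Λ * (F 0 0 1 + 4294967296)
  h₅ : (f₅ : ℤ) = Λ * (F 1 0 1 + 4294967296)
  h₆ : (f₆ : ℤ) = Λ * (F 0 1 1 + 4294967296)
  h₇ : (f₇ : ℤ) = Λ * (F 1 1 1 + 4294967296)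

theorem L3_eq {Λ μ u v w : ℕ} (H : Nd Λ F f₀ f₁ f₂ f₃ f₄ f₅ f₆ f₇) (θ : ℕ → Bool) (hu : u ≤ μ)
    (hv : v ≤ μ) (hw : w ≤ μ) :
    ((ip (ip (ip f₀ f₁ (μ - u) u) (ip f₂ f₃ (μ - u) u) (μ - v) v)
      (ip (ip f₄ f₅ (μ - u) u) (ip f₆ f₇ (μ - u) u) (μ - v) v) (μ - w) w : ℕ) : ℤ) -
      ((μ * max (f₃ + f₀ - (f₁ + f₂)) (f₇ + f₄ - (f₅ + f₆)) * sel (θ 0) u (μ - u) *
          sel (θ 0) v (μ - v) +
        μ * max (f₅ + f₀ - (f₁ + f₄)) (f₇ + f₂ - (f₃ + f₆)) * sel (θ 1) u (μ - u) *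
          sel (θ 1) w (μ - w) +
        μ * max (f₆ + f₀ - (f₂ + f₄)) (f₇ + f₁ - (f₃ + f₅)) * sel (θ 2) v (μ - v) *
          sel (θ 2) w (μ - w) : ℕ) : ℤ) =
      Λ * L3 μ F θ u v w + μ ^ 3 * (Λ * 4294967296 : ℕ) := by
  have m₁ := mm_eq (F := fun i j => F i j 0) (G := fun i j => F i j 1) H.h₃ H.h₀ H.h₁ H.h₂ H.h₇
    H.h₄ H.h₅ H.h₆
  have m₂ := mm_eq (F := fun i k => F i 0 k) (G := fun i k => F i 1 k) H.h₅ H.h₀ H.h₁ H.h₄ H.h₇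
    H.h₂ H.h₃ H.h₆
  have m₃ := mm_eq (F := fun j k => F 0 j k) (G := fun j k => F 1 j k) H.h₆ H.h₀ H.h₂ H.h₄ H.h₇
    H.h₁ H.h₃ H.h₅
  rw [L3, gp_eq hu hv, gp_eq hu hw, gp_eq hv hw]
  simp only [ip, ML2, Nat.add_eq, Nat.mul_eq, Nat.cast_add, Nat.cast_mul, m₁, m₂, m₃,
    Nat.cast_sub hu, Nat.cast_sub hv, Nat.cast_sub hw, H.h₀, H.h₁, H.h₂, H.h₃, H.h₄, H.h₅, H.h₆,
    H.h₇, Nat.cast_ofNat]
  ring

theorem Nd.min_le {Λ mn : ℕ} (H : Nd Λ F f₀ f₁ f₂ f₃ f₄ f₅ f₆ f₇)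
    (h : mn = min (min (min (min (min (min (min f₀ f₁) f₂) f₃) f₄) f₅) f₆) f₇) :
    ∀ i ≤ 1, ∀ j ≤ 1, ∀ k ≤ 1, (mn : ℤ) ≤ Λ * F i j k + (Λ * 4294967296 : ℕ) := by
  obtain ⟨h₀, h₁, h₂, h₃, h₄, h₅, h₆, h₇⟩ := H
  rw [mul_add] at h₀ h₁ h₂ h₃ h₄ h₅ h₆ h₇
  intro i hi j hj k hk
  push_cast
  interval_cases i <;> interval_cases j <;> interval_cases k <;> omega

theorem zero_of {x y z : ℕ} (hxy : x ≤ y) (hyz : y ≤ z) (hv : t.vis 0 [x, y, z] = false)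
    (hh : ha t x y z = false) (a b d : ℕ) (h1 : a ≤ 1) (h2 : b ≤ 1) (h3 : d ≤ 1) :
    mul3 x y z * ev t [x, y, z] 0 [(a : ℤ), b, d] + hx t [x, y, z] [(a : ℤ), b, d] ≤ 0 := by
  have hk : Ck (fun _ _ _ => 0) (ck 18446744073709551616 36893488147419103232 36893488147419103232
      55340232221128654848 36893488147419103232 55340232221128654848 55340232221128654848
      73786976294838206464) := ck_spec le_rfl le_rfl le_rfl le_rfl le_rfl le_rfl le_rfl le_rfl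
  have := lhs_spec (L := 0) (t := t) hk hxy hyz (by rw [hv, hh]; rfl) a h1 b h2 d h3
  simpa using this

theorem cell_spec {L mn x y z : ℕ} {Φ : ((ℕ → ℕ → ℕ → ℕ → Bool) → Bool) → Bool}
    (hxy : x ≤ y) (hyz : y ≤ z)
    (hm : ∀ i ≤ 1, ∀ j ≤ 1, ∀ k ≤ 1,
      (mn : ℤ) ≤ c.Λ * c.F3 (x / c.μ + i) (y / c.μ + j) (z / c.μ + k) + L)
    (hΦ : ∀ κ, Φ κ = true → ∃ k R, κ k = true ∧ Ck R k ∧ ∀ a ≤ 1, ∀ b ≤ 1, ∀ d ≤ 1,
      c.μ ^ 3 * R a b d ≤ c.Λ * L3 c.μ (fun i j k => c.F3 (x / c.μ + i) (y / c.μ + j) (z / c.μ + k))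
        (fun n => c.th [x, y, z] n) (c.ps x a) (c.ps y b) (c.ps z d) + c.μ ^ 3 * L)
    (h : cell t L mn x y z Φ = true) : c.C3 t x y z := by
  simp only [cell, frb_eq, oo_iff, an_iff, v3_eq t hxy hyz, Nat.ble_eq] at h
  rcases h with ⟨h1, h2⟩ | h | h
  · refine Or.inr fun a ha b hb d hd i hi j hj k hk => ?_
    have h3 := hm i hi j hj k hk
    refine (zero_of hxy hyz ?_ ?_ a b d ha hb hd).trans (by omega)
    · revert h1; cases t.vis 0 [x, y, z] <;> simp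
    · revert h1; cases t.vis 0 [x, y, z] <;> cases K3.ha t x y z <;> simp
  · obtain ⟨k, R, h1, h2, h3⟩ := hΦ _ h
    refine Or.inl fun a ha b hb d hd => ?_
    have h4 := mul_le_mul_of_nonneg_left (lhs_spec h2 hxy hyz h1 a ha b hb d hd)
      (pow_nonneg (Int.natCast_nonneg c.μ) 3)
    have h5 := h3 a ha b hb d hd
    linarith
  · simp only [snd, frc_eq, Nat.add_eq] at h
    refine Or.inr fun a ha b hb d hd i hi j hj k hk => ?_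
    have h4 := lhs_spec (R := fun _ _ _ => mn) (ck_spec (by omega) (by omega) (by omega) (by omega)
      (by omega) (by omega) (by omega) (by omega)) hxy hyz h a ha b hb d hd
    have h5 := hm i hi j hj k hk
    linarith

theorem fst_spec {θ : ℕ → Bool} {μ Λ p q s : ℕ} (H : Nd Λ F f₀ f₁ f₂ f₃ f₄ f₅ f₆ f₇) (hp : p < μ)
    (hq : q < μ) (hs : s < μ) {κ : (ℕ → ℕ → ℕ → ℕ → Bool) → Bool}
    (h : fst θ (μ * μ * μ) (μ * max (f₃ + f₀ - (f₁ + f₂)) (f₇ + f₄ - (f₅ + f₆)))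
      (μ * max (f₅ + f₀ - (f₁ + f₄)) (f₇ + f₂ - (f₃ + f₆)))
      (μ * max (f₆ + f₀ - (f₂ + f₄)) (f₇ + f₁ - (f₃ + f₅))) p (p + 1) (μ - p) (μ - (p + 1))
      q (q + 1) (μ - q) (μ - (q + 1)) s (s + 1) (μ - s) (μ - (s + 1))
      (ip (ip f₀ f₁ (μ - p) p) (ip f₂ f₃ (μ - p) p) (μ - q) q)
      (ip (ip f₀ f₁ (μ - (p + 1)) (p + 1)) (ip f₂ f₃ (μ - (p + 1)) (p + 1)) (μ - q) q)
      (ip (ip f₀ f₁ (μ - p) p) (ip f₂ f₃ (μ - p) p) (μ - (q + 1)) (q + 1))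
      (ip (ip f₀ f₁ (μ - (p + 1)) (p + 1)) (ip f₂ f₃ (μ - (p + 1)) (p + 1)) (μ - (q + 1)) (q + 1))
      (ip (ip f₄ f₅ (μ - p) p) (ip f₆ f₇ (μ - p) p) (μ - q) q)
      (ip (ip f₄ f₅ (μ - (p + 1)) (p + 1)) (ip f₆ f₇ (μ - (p + 1)) (p + 1)) (μ - q) q)
      (ip (ip f₄ f₅ (μ - p) p) (ip f₆ f₇ (μ - p) p) (μ - (q + 1)) (q + 1))
      (ip (ip f₄ f₅ (μ - (p + 1)) (p + 1)) (ip f₆ f₇ (μ - (p + 1)) (p + 1)) (μ - (q + 1)) (q + 1))
      κ = true) : ∃ k R, κ k = true ∧ Ck R k ∧ ∀ a ≤ 1, ∀ b ≤ 1, ∀ d ≤ 1,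
      (μ : ℤ) ^ 3 * R a b d ≤ Λ * L3 μ F θ (p + a : ℕ) (q + b : ℕ) (s + d : ℕ) +
        μ ^ 3 * (Λ * 4294967296 : ℕ) := by
  rw [fst, pen_eq, pen_eq, pen_eq] at h
  obtain ⟨r₀, h, g₀⟩ := rv_spec h
  obtain ⟨r₁, h, g₁⟩ := rv_spec h
  obtain ⟨r₂, h, g₂⟩ := rv_spec h
  obtain ⟨r₃, h, g₃⟩ := rv_spec h
  obtain ⟨r₄, h, g₄⟩ := rv_spec h
  obtain ⟨r₅, h, g₅⟩ := rv_spec h
  obtain ⟨r₆, h, g₆⟩ := rv_spec h
  obtain ⟨r₇, h, g₇⟩ := rv_spec h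
  rw [L3_eq H θ (by omega) (by omega) (by omega)] at g₀ g₁ g₂ g₃ g₄ g₅ g₆ g₇
  have e : ((μ * μ * μ : ℕ) : ℤ) = μ ^ 3 := by push_cast; ring
  rw [e] at g₀ g₁ g₂ g₃ g₄ g₅ g₆ g₇
  refine ⟨_, fun a b d => if d = 0 then (if b = 0 then (if a = 0 then r₀ else r₁) else
    if a = 0 then r₂ else r₃) else if b = 0 then (if a = 0 then r₄ else r₅) else
    if a = 0 then r₆ else r₇, h, ck_spec (by simp) (by simp) (by simp) (by simp) (by simp) (by simp)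
      (by simp) (by simp), fun a ha b hb d hd => ?_⟩
  interval_cases a <;> interval_cases b <;> interval_cases d <;> assumption

theorem coarse_spec (hμ : 1 ≤ c.μ) {x y z : ℕ} (hxy : x ≤ y) (hyz : y ≤ z)
    (h : coarse t c (x / c.μ) (y / c.μ) (z / c.μ) = true) : c.C3 t x y z := by
  simp only [coarse, frc_eq, frp_iff, m2, oo_iff, an_iff, Nat.ble_eq, Nat.add_eq, Nat.mul_eq,
    Nat.succ_eq_add_one, mnN_eq] at h
  obtain ⟨a₀, a₁, a₂, a₃, a₄, a₅, a₆, a₇, h⟩ := h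
  have H : Nd c.Λ (fun i j k => c.F3 (x / c.μ + i) (y / c.μ + j) (z / c.μ + k)) _ _ _ _ _ _ _ _ :=
    ⟨nd_eq a₀, nd_eq a₁, nd_eq a₂, nd_eq a₃, nd_eq a₄, nd_eq a₅, nd_eq a₆, nd_eq a₇⟩
  have hm := H.min_le rfl
  simp only [Nat.add_zero] at hm
  have ex := Nat.div_add_mod x c.μ
  have ey := Nat.div_add_mod y c.μ
  have ez := Nat.div_add_mod z c.μ
  rcases h with ⟨h1, h2, h3⟩ | h
  · simp only [mul_add] at h2 h3
    refine Or.inr fun a ha b hb d hd i hi j hj k hk => ?_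
    have h4 := hm i hi j hj k hk
    refine (zero_of hxy hyz ?_ ?_ a b d ha hb hd).trans (by omega)
    · refine Bool.eq_false_iff.2 fun h5 => ?_
      have := visB_le _ _ _ h5
      simp at this
      omega
    · refine Bool.eq_false_iff.2 fun h5 => ?_
      simp only [K3.ha, an_iff, frc_eq, Nat.ble_eq, Nat.add_eq, Nat.succ_eq_add_one] at h5
      omega
  · simp only [fine, mq, frc_eq, Nat.add_eq, Nat.mul_eq, Nat.sub_eq, Nat.succ_eq_add_one,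
      mxN_eq] at h
    have h1 := al_imp h (x % c.μ) (Nat.zero_le _) (by simpa using Nat.mod_lt _ hμ)
    have h2 := al_imp h1 (y % c.μ) (Nat.zero_le _) (by simpa using Nat.mod_lt _ hμ)
    rw [ex, ey, oo_iff, Nat.ble_eq] at h2
    have h3 := al_imp (h2.resolve_left (by omega)) (z % c.μ) (Nat.zero_le _)
      (by simpa using Nat.mod_lt _ hμ)
    rw [ez, oo_iff, Nat.ble_eq] at h3
    exact cell_spec hxy hyz hm (fun κ hκ => fst_spec H (Nat.mod_lt _ hμ) (Nat.mod_lt _ hμ)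
      (Nat.mod_lt _ hμ) hκ) (h3.resolve_left (by omega))

end

end K3

/-- The checker for the rows `lo ≤ n < lo + len`; the row `n = i * Q + j` holds the coarse cells
`(i, j, k)`. -/
noncomputable def k3 (t : Tab) (c : Co) (S lo len : ℕ) : Bool := K3.al lo len (K3.row t c S)

/-- The rows `lo ≤ n < hi` are checked. -/
def Rows3 (t : Tab) (c : Co) (S lo hi : ℕ) : Prop := ∀ n, lo ≤ n → n < hi → K3.row t c S n = true

theorem rows3_of {t : Tab} {c : Co} {S lo len : ℕ} (h : k3 t c S lo len = true) :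
    Rows3 t c S lo (lo + len) := K3.al_imp h

theorem Rows3.add {t : Tab} {c : Co} {S a b d : ℕ} (h : Rows3 t c S a b) (h' : Rows3 t c S b d) :
    Rows3 t c S a d := fun n h1 h2 => (lt_or_ge n b).elim (h n h1) fun h3 => h' n h3 h2

open K3 in
/-- The condition on all triples. -/
theorem c3_of {t : Tab} {c : Co} (hc : c.Ok t) {S I : ℕ} (h : Rows3 t c S (c.Z * c.Q) (I * c.Q))
    (hI : S ≤ 3 * I) (h1 : t.a₁ ≤ c.μ * S) (h2 : 5 * t.Q ≤ 4 * (c.μ * S) + 11)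
    (h0 : ∀ i ≤ c.Q, ∀ j ≤ c.Q, ∀ k ≤ c.Q, S ≤ i + j + k → 0 ≤ c.F3 i j k) :
    ∀ x y z, t.Z ≤ x → x ≤ y → y ≤ z → z < t.Q → c.C3 t x y z := by
  intro x y z hx hxy hyz hz
  obtain ⟨hμ, -, hQ, hZ, -⟩ := hc
  have a1 : x / c.μ ≤ y / c.μ := Nat.div_le_div_right hxy
  have a2 : y / c.μ ≤ z / c.μ := Nat.div_le_div_right hyz
  have a3 : z / c.μ < c.Q := (Nat.div_lt_iff_lt_mul hμ).2 (by rw [mul_comm, ← hQ]; exact hz)
  have a4 : c.Z ≤ x / c.μ := (Nat.le_div_iff_mul_le hμ).2 (by rw [mul_comm, ← hZ]; exact hx)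
  by_cases hS : x / c.μ + y / c.μ + z / c.μ < S
  · have a5 : (x / c.μ + 1) * c.Q ≤ I * c.Q := Nat.mul_le_mul_right _ (by omega)
    have a6 : c.Z * c.Q ≤ x / c.μ * c.Q := Nat.mul_le_mul_right _ a4
    rw [add_mul, one_mul] at a5
    have a7 := h (x / c.μ * c.Q + y / c.μ) (by omega) (by omega)
    have a8 : (x / c.μ * c.Q + y / c.μ) / c.Q = x / c.μ := by
      rw [add_comm, Nat.add_mul_div_right _ _ (by omega), Nat.div_eq_of_lt (by omega), zero_add]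
    have a9 : (x / c.μ * c.Q + y / c.μ) % c.Q = y / c.μ := by
      rw [add_comm, Nat.add_mul_mod_self_right, Nat.mod_eq_of_lt (by omega)]
    simp only [row, frc_eq, oo_iff, Nat.ble_eq, Nat.add_eq, Nat.sub_eq, Nat.succ_eq_add_one,
      mnN_eq] at a7
    change _ + 1 ≤ (x / c.μ * c.Q + y / c.μ) / c.Q ∨ al ((x / c.μ * c.Q + y / c.μ) % c.Q)
      (min c.Q (S - ((x / c.μ * c.Q + y / c.μ) / c.Q + (x / c.μ * c.Q + y / c.μ) % c.Q)) -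
        (x / c.μ * c.Q + y / c.μ) % c.Q) (coarse t c ((x / c.μ * c.Q + y / c.μ) / c.Q)
          ((x / c.μ * c.Q + y / c.μ) % c.Q)) = true at a7
    change (x / c.μ * c.Q + y / c.μ) % c.Q + 1 ≤ _ ∨ _ at a7
    rw [a8, a9] at a7
    exact coarse_spec hμ hxy hyz (al_imp (a7.resolve_left (by omega)) _ a2 (by omega))
  · have ex := Nat.div_add_mod x c.μ
    have ey := Nat.div_add_mod y c.μ
    have ez := Nat.div_add_mod z c.μ
    have b1 : c.μ * S ≤ c.μ * (x / c.μ + y / c.μ + z / c.μ) := Nat.mul_le_mul_left _ (by omega)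
    simp only [mul_add] at b1
    refine Or.inr fun a ha b hb d hd i hi j hj k hk => ?_
    refine (zero_of hxy hyz ?_ ?_ a b d ha hb hd).trans (mul_nonneg (Int.natCast_nonneg _)
      (h0 _ (by omega) _ (by omega) _ (by omega) (by omega)))
    · refine Bool.eq_false_iff.2 fun h5 => ?_
      have := visB_le _ _ _ h5
      simp at this
      omega
    · refine Bool.eq_false_iff.2 fun h5 => ?_
      simp only [K3.ha, an_iff, frc_eq, Nat.ble_eq, Nat.add_eq, Nat.succ_eq_add_one] at h5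
      omega

end Pool.Agent.Lib.MP_4b1228_nt.PP.R5
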