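import Pool.Agent.Lib.MP_4b1228_nt.PP.LatT
import Pool.Agent.Lib.MP_4b1228_nt.PP.R5D

/-! The check of the patterns on the coarse lattice. -/

namespace Pool.Agent.Lib.MP_4b1228_nt.PP

open Finset

theorem Lat.ZT.sound6 (z : Lat.ZT) (h1 : z.ok = true) (h2 : z.run 0 z.C = true) {r : ℕ} {a0 : ℤ}
    {a1 : ℕ → ℤ} {a2 : ℕ → ℕ → ℤ} {a3 : ℕ → ℕ → ℕ → ℤ} (b0 : a0 ≤ z.f0 r)
    (b1 : ∀ c < z.C, a1 c ≤ z.f1 c r)
    (b2 : ∀ d < z.C, ∀ c ≤ d, a2 c d + a2 d c ≤
      2 * if c < z.c1 then z.f2 c d + r * z.fb c d else 0)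
    (b3 : ∀ e < z.C, ∀ d ≤ e, ∀ c ≤ d, a3 c d e + a3 c e d + a3 d c e + a3 d e c + a3 e c d +
      a3 e d c ≤ 6 * if c < z.c1 ∧ d < z.c3 then z.f3 c d e else 0)
    {ι : Type} [DecidableEq ι] (x : ι → ℕ) (s : Finset ι) (hx : ∀ q ∈ s, x q < z.C)
    (hr : r + ∑ q ∈ s, z.sz (x q) = z.tot) :
    6 * a0 + ∑ p ∈ s, (6 * a1 (x p) + ∑ q ∈ s.erase p, (3 * a2 (x p) (x q) +
      ∑ u ∈ (s.erase p).erase q, a3 (x p) (x q) (x u))) ≤ 0 := by
  simp only [Lat.ZT.ok, Bool.and_eq_true, Lat.allLt_iff] at h1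
  obtain ⟨⟨o1, o2⟩, o3⟩ := h1
  have hr' : r < z.tot + 1 := by omega
  have hk : (0 : ℝ) < 2 ^ z.k := by positivity
  have dv : ∀ {a b : ℤ}, a ≤ b → (a : ℝ) / 2 ^ z.k ≤ (b : ℝ) / 2 ^ z.k := fun h =>
    div_le_div_of_nonneg_right (Int.cast_le.2 h) hk.le
  have := z.par.sound o1 (fun c h => by simpa using Lat.allLt_iff.1 h2 c h) (r := r)
    (a0 := a0 / 2 ^ z.k) (a1 := fun c => a1 c / 2 ^ z.k) (a2 := fun c d => a2 c d / 2 ^ z.k / 2)
    (he := fun _ _ => 0) (a3 := fun c d e => a3 c d e / 2 ^ z.k / 6) ((dv b0).trans ?_)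
    (fun c (h : c < z.C) => (dv (b1 c h)).trans ?_) (fun d (h : d < z.C) c h' => ?_)
    (fun e (h : e < z.C) d h' c h'' => ?_)
    (fun c _ t => by simp [Lat.Par.tab, Lat.ZT.par]) x s hx hr
  · simp only [Lat.cf, sum_const_zero, add_zero] at this
    have e : ((6 * a0 + ∑ p ∈ s, (6 * a1 (x p) + ∑ q ∈ s.erase p, (3 * a2 (x p) (x q) +
        ∑ u ∈ (s.erase p).erase q, a3 (x p) (x q) (x u))) : ℤ) : ℝ) =
        6 * 2 ^ z.k * ((a0 : ℝ) / 2 ^ z.k + ∑ p ∈ s,
        ((a1 (x p) : ℝ) / 2 ^ z.k + ∑ q ∈ s.erase p, ((a2 (x p) (x q) : ℝ) / 2 ^ z.k / 2 +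
          ∑ u ∈ (s.erase p).erase q, (a3 (x p) (x q) (x u) : ℝ) / 2 ^ z.k / 6))) := by
      simp only [mul_add, mul_sum]
      push_cast
      refine congrArg₂ _ (by field_simp) (sum_congr rfl fun _ _ => congrArg₂ _ (by field_simp)
        (sum_congr rfl fun _ _ => congrArg₂ _ (by field_simp; ring)
          (sum_congr rfl fun _ _ => by field_simp)))
    have := mul_nonpos_of_nonneg_of_nonpos (by positivity : (0 : ℝ) ≤ 6 * 2 ^ z.k) this
    rw [← e] at this
    exact_mod_cast this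
  · change _ ≤ Lat.ev (Lat.en (Lat.pk 112 (z.tot + 1) z.g0) r)
    rw [Lat.en_ln, Lat.ln_pk (f := z.g0) fun _ _ => Lat.enc_lt _ _, if_pos hr']
    exact Lat.le_enc (o2 r hr')
  · change _ ≤ Lat.ev (Lat.en (Lat.t2 (z.tot + 1) z.C z.g1) ((z.tot + 1) * c + r))
    rw [Lat.en_ln, Lat.ln_t2 (f := z.g1) (fun _ _ => Lat.enc_lt _ _) hr' h]
    exact Lat.le_enc ((o3 c h).1.1 r hr')
  · have := dv (b2 d h c h')
    change _ ≤ (if c < z.c1 then Lat.ev (Lat.en (Lat.t2 z.c1 z.C z.g2) (z.c1 * d + c)) else 0) +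
      r * if c < z.c1 then Lat.ev (Lat.en (Lat.t2 z.c1 z.C z.gb) (z.c1 * d + c)) else 0
    split_ifs at this ⊢ with hc
    · rw [Lat.en_ln, Lat.en_ln, Lat.ln_t2 (f := z.g2) (fun _ _ => Lat.enc_lt _ _) hc h,
        Lat.ln_t2 (f := z.gb) (fun _ _ => Lat.enc_lt _ _) hc h]
      have e1 := Lat.le_enc ((o3 d h).1.2 c hc).1
      have e2 := mul_le_mul_of_nonneg_left (Lat.le_enc ((o3 d h).1.2 c hc).2) r.cast_nonneg
      push_cast at this
      rw [add_div, mul_div_assoc, add_div, mul_div_assoc] at this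
      refine le_trans ?_ (add_le_add e1 e2)
      linarith
    · push_cast at this
      rw [add_div, zero_div] at this
      linarith
  · have := dv (b3 e h d h' c h'')
    change _ ≤ if c < z.c1 ∧ d < z.c3 then
      Lat.ev (Lat.en (Lat.t3 z.c1 z.c3 z.C z.g3) (z.c1 * z.c3 * e + (z.c1 * d + c))) else 0
    push_cast at this
    simp only [add_div, mul_div_assoc] at this
    split_ifs at this ⊢ with hc
    · rw [Lat.en_ln, Lat.ln_t3 (f := z.g3) (fun _ _ _ => Lat.enc_lt _ _) hc.1 hc.2 h]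
      refine le_trans ?_ (Lat.le_enc ((o3 e h).2 d hc.2 c hc.1))
      linarith
    · rw [zero_div] at this
      linarith

namespace R5.Co

open PP.Lat R4
open scoped Classical

variable (c : Co)

noncomputable section

/-- The tables on the nodes `Z + i ≤ Q` for the total size `T`; sums of nodes are less than `S`. -/
def zt (k S T : ℕ) (a : ℤ) (G0 : ℕ → ℤ) (G1 : ℕ → ℕ → ℤ) : ZT where
  C := Nat.sub (Nat.succ (min T c.Q)) c.Z
  tot := T
  c1 := Nat.sub (Nat.div (Nat.succ S) 2) c.Z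
  c3 := Nat.sub (Nat.div (Nat.sub (Nat.succ S) c.Z) 2) c.Z
  k := k
  sz i := Nat.add c.Z i
  lim r := Nat.sub (Nat.succ r) c.Z
  f0 r := Int.add (G0 r) a
  f1 i r := Bool.rec 0 (G1 (Nat.add c.Z i) r) (Nat.ble (Nat.add (Nat.add c.Z i) r) T)
  f2 i j := Bool.rec 0 (Bool.rec 0 (c.F2 (Nat.add c.Z i) (Nat.add c.Z j))
    (Nat.blt (Nat.add (Nat.add c.Z i) (Nat.add c.Z j)) S)) (Nat.ble i j)
  fb i j := Bool.rec 0 (Bool.rec 0 (c.B2 (Nat.add c.Z i) (Nat.add c.Z j))
    (Nat.blt (Nat.add (Nat.add c.Z i) (Nat.add c.Z j)) S)) (Nat.ble i j)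
  f3 i j l := Bool.rec 0 (Bool.rec 0 (Bool.rec 0
    (c.F3 (Nat.add c.Z i) (Nat.add c.Z j) (Nat.add c.Z l))
    (Nat.blt (Nat.add (Nat.add (Nat.add c.Z i) (Nat.add c.Z j)) (Nat.add c.Z l)) S))
    (Nat.ble i j)) (Nat.ble j l)

/-- The patterns without a large cell. -/
def zA (k S : ℕ) (b : ℤ) : ZT := c.zt k S (Nat.mul 2 c.Q) (Int.neg b) c.F0 c.F1

/-- The patterns with one large cell, of node `2 Q - T`. -/
def zB (k S : ℕ) (b : ℤ) (T : ℕ) : ZT :=
  c.zt k (min S (Nat.succ T)) T (Int.sub (c.inv (Nat.sub (Nat.mul 2 c.Q) T)) b)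
    (fun r => Bool.rec (c.F0 r) (c.P0 r) (Nat.beq r T))
    fun i r => Bool.rec (c.F1 i r) (c.P1 i r) (Nat.beq (Nat.add i r) T)

/-- The check for `T` in `[lo, lo + n)`. -/
def kB (k S : ℕ) (b : ℤ) (lo n : ℕ) : Bool :=
  allLt n fun i => frc (Nat.add lo i) fun T =>
    Bool.rec false ((c.zB k S b T).run 0 (c.zB k S b T).C) (c.zB k S b T).ok

end

theorem kB_add {k S lo n m : ℕ} {b : ℤ} (h : c.kB k S b lo n = true)
    (h' : c.kB k S b (lo + n) m = true) : c.kB k S b lo (n + m) = true := allLt_iff.2 fun i _ => by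
  by_cases e : i < n
  · exact allLt_iff.1 h i e
  · have := allLt_iff.1 h' (i - n) (by omega)
    rwa [Nat.add_eq, show lo + n + (i - n) = lo + i by omega] at this

/-- The symmetries and the vanishing far away. -/
structure Far (S T : ℕ) : Prop where
  s2 : ∀ i j, c.F2 i j = c.F2 j i
  sb : ∀ i j, c.B2 i j = c.B2 j i
  s3 : ∀ i j k, c.F3 i j k = c.F3 j i k ∧ c.F3 i j k = c.F3 i k j
  z2 : ∀ i j, S ≤ i + j → i + j ≤ T → c.F2 i j = 0 ∧ c.B2 i j = 0
  z3 : ∀ i j k, S ≤ i + j + k → i + j + k ≤ T → c.F3 i j k = 0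

theorem brec {α : Type} {b : Bool} {P : Prop} [Decidable P] (h : b = true ↔ P) (x y : α) :
    (Bool.rec x y b : α) = if P then y else x := by
  cases b
  · exact (if_neg fun e => Bool.false_ne_true (h.2 e)).symm
  · exact (if_pos (h.1 rfl)).symm

theorem core {k S T : ℕ} {a : ℤ} {G0 : ℕ → ℤ} {G1 : ℕ → ℕ → ℤ} (h : c.Far S T)
    (h1 : (c.zt k S T a G0 G1).ok = true)
    (h2 : (c.zt k S T a G0 G1).run 0 (c.zt k S T a G0 G1).C = true) (s : Finset ℕ) (n : ℕ → ℕ)
    (R : ℕ) (hs : ∀ p ∈ s, c.Z ≤ n p ∧ n p ≤ c.Q) (hr : R + ∑ p ∈ s, n p = T) :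
    6 * (G0 R + a) + ∑ p ∈ s, (6 * G1 (n p) R + ∑ q ∈ s.erase p,
      (3 * (c.F2 (n p) (n q) + R * c.B2 (n p) (n q)) +
        ∑ u ∈ (s.erase p).erase q, c.F3 (n p) (n q) (n u))) ≤ 0 := by
  have x1 : ∀ p ∈ s, c.Z + (n p - c.Z) = n p := fun p hp => Nat.add_sub_cancel' (hs p hp).1
  have l1 : ∀ p ∈ s, n p + R ≤ T := fun p hp => by
    have := single_le_sum (f := n) (fun _ _ => Nat.zero_le _) hp
    omega
  have l2 : ∀ p ∈ s, ∀ q ∈ s.erase p, n p + n q ≤ T := fun p hp q hq => by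
    have := add_sum_erase s n hp
    have := single_le_sum (f := n) (fun _ _ => Nat.zero_le _) hq
    omega
  have l3 : ∀ p ∈ s, ∀ q ∈ s.erase p, ∀ u ∈ (s.erase p).erase q, n p + n q + n u ≤ T :=
    fun p hp q hq u hu => by
      have := add_sum_erase s n hp
      have := add_sum_erase _ n hq
      have := single_le_sum (f := n) (fun _ _ => Nat.zero_le _) hu
      omega
  have := (c.zt k S T a G0 G1).sound6 h1 h2 (r := R) (a0 := G0 R + a)
    (a1 := fun i => (c.zt k S T a G0 G1).f1 i R)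
    (a2 := fun i j => if c.Z + i + (c.Z + j) < S then
      c.F2 (c.Z + i) (c.Z + j) + R * c.B2 (c.Z + i) (c.Z + j) else 0)
    (a3 := fun i j l => if c.Z + i + (c.Z + j) + (c.Z + l) < S then
      c.F3 (c.Z + i) (c.Z + j) (c.Z + l) else 0)
    le_rfl (fun _ _ => le_rfl) (fun j _ i hi => ?_) (fun l _ j hj i hi => ?_)
    (fun p => n p - c.Z) s (fun p hp => by
      have := hs p hp
      have := l1 p hp
      change n p - c.Z < min T c.Q + 1 - c.Z
      omega) (Eq.trans (congrArg _ (sum_congr rfl x1)) hr)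
  · refine le_trans (le_of_eq ?_) this
    refine congrArg _ (sum_congr rfl fun p hp => congrArg₂ _ ?_ (sum_congr rfl fun q hq =>
      congrArg₂ _ ?_ (sum_congr rfl fun u hu => ?_)))
    · simp only [zt, Nat.add_eq, x1 p hp, brec Nat.ble_eq.to_iff, if_pos (l1 p hp)]
    · rw [x1 p hp, x1 q (mem_of_mem_erase hq)]
      split_ifs with e
      · rfl
      · have := h.z2 _ _ (not_lt.1 e) (l2 p hp q hq)
        rw [this.1, this.2, mul_zero, add_zero]
    · rw [x1 p hp, x1 q (mem_of_mem_erase hq), x1 u (mem_of_mem_erase (mem_of_mem_erase hu))]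
      split_ifs with e
      · rfl
      · exact h.z3 _ _ _ (not_lt.1 e) (l3 p hp q hq u hu)
  · simp only [zt, Nat.add_eq, brec Nat.ble_eq.to_iff, brec Nat.blt_eq.to_iff, if_pos hi,
      add_comm (c.Z + j), h.s2 (c.Z + j), h.sb (c.Z + j)]
    by_cases e : c.Z + i + (c.Z + j) < S
    · rw [if_pos (show i < (S.succ.div 2).sub c.Z from show i < (S + 1) / 2 - c.Z by omega)]
      simp only [if_pos e]
      exact le_of_eq (by ring)
    · simp [e]
  · simp only [zt, Nat.add_eq, brec Nat.ble_eq.to_iff, brec Nat.blt_eq.to_iff, if_pos hi,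
      if_pos hj]
    by_cases e : c.Z + i + (c.Z + j) + (c.Z + l) < S
    · rw [if_pos (show i < (S.succ.div 2).sub c.Z ∧ j < ((S.succ.sub c.Z).div 2).sub c.Z from
        show i < (S + 1) / 2 - c.Z ∧ j < (S + 1 - c.Z) / 2 - c.Z by omega),
        if_pos e, if_pos (by omega), if_pos (by omega), if_pos (by omega), if_pos (by omega),
        if_pos (by omega)]
      generalize c.Z + i = x, c.Z + j = y, c.Z + l = w
      have := h.s3 x y w
      have := h.s3 y x w
      have := h.s3 x w y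
      have := h.s3 w x y
      omega
    · rw [if_neg e, if_neg (by omega), if_neg (by omega), if_neg (by omega), if_neg (by omega),
        if_neg (by omega)]
      simp

theorem FV_eq (s : Finset ℕ) (x δ : ℕ → ℕ) (R : ℕ) : c.FV s x δ R =
    6 * (if (∃ p ∈ s, c.Q ≤ x p) ∧ s.card = 1 then c.P0 else c.F0) R +
      ∑ p ∈ s with ¬x p < c.Q, 6 * c.inv (x p + δ p) + ∑ p ∈ s with x p < c.Q,
        (6 * (if (∃ p ∈ s, c.Q ≤ x p) ∧ s.card = 2 then c.P1 else c.F1) (x p + δ p) R +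
          ∑ q ∈ (s.filter fun p => x p < c.Q).erase p,
            (3 * (c.F2 (x p + δ p) (x q + δ q) + R * c.B2 (x p + δ p) (x q + δ q)) +
              ∑ u ∈ ((s.filter fun p => x p < c.Q).erase p).erase q,
                c.F3 (x p + δ p) (x q + δ q) (x u + δ u))) := by
  simp only [FV, sum_range_succ, range_zero, sum_empty, tupL, List.map_cons, List.map_nil, W,
    zero_add, ← filter_erase, sum_filter, add_assoc, ← sum_add_distrib]
  refine congrArg _ (sum_congr rfl fun p _ => ?_)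
  by_cases e : x p < c.Q
  · simp only [e, true_and, if_true, not_true, if_false, zero_add]
    refine congrArg _ (sum_congr rfl fun q _ => ?_)
    by_cases f : x q < c.Q <;> simp [f]
  · simp [e]

/-- The kernel check gives the check of the patterns. -/
theorem lat {k S : ℕ} {b : ℤ} (hZ : 1 ≤ c.Z) (hΘ : c.Θ ≤ 2 * c.Q) (h : c.Far S (2 * c.Q))
    (h1 : (c.zA k S b).ok = true) (h2 : (c.zA k S b).run 0 (c.Q + 1 - c.Z) = true)
    (h3 : c.kB k S b (2 * c.Q - c.Θ) (c.Θ + 1 - c.Q) = true) (h4 : c.F0 0 + 2 * c.inv c.Q ≤ b) :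
    c.Lat b := by
  intro s x δ R hs hr
  rw [FV_eq]
  have sm : ∀ p ∈ s.filter fun p => x p < c.Q, c.Z ≤ x p + δ p ∧ x p + δ p ≤ c.Q := fun p hp => by
    have := mem_filter.1 hp
    have := hs p this.1
    omega
  rw [← sum_filter_add_sum_filter_not s fun p => x p < c.Q] at hr
  by_cases e : ∃ p ∈ s, c.Q ≤ x p
  swap
  · have e1 : s.filter (fun p => ¬x p < c.Q) = ∅ :=
      filter_eq_empty_iff.2 fun p hp f => e ⟨p, hp, not_lt.1 f⟩
    rw [e1, sum_empty, add_zero] at hr ⊢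
    have := c.core (T := 2 * c.Q) (a := -b) h h1 (by
      refine Eq.trans (congrArg _ ?_) h2
      change min (2 * c.Q) c.Q + 1 - c.Z = _
      omega) _ (fun p => x p + δ p) R sm hr
    simp only [e, false_and, if_false]
    linarith
  obtain ⟨p, hp, hq⟩ := id e
  have p1 : p ∈ s.filter fun p => ¬x p < c.Q := mem_filter.2 ⟨hp, hq.not_gt⟩
  have cd := card_filter_add_card_filter_not (s := s) fun p => x p < c.Q
  simp only [e, true_and]
  have s0 : ∀ t : Finset ℕ, t ⊆ s → ∑ p ∈ t, (x p + δ p) = 0 → t = ∅ := fun t ht f =>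
    eq_empty_of_forall_notMem fun q hq => by
      have := sum_eq_zero_iff.1 f q hq
      have := hs q (ht hq)
      omega
  rw [← add_sum_erase _ _ p1] at hr ⊢
  rw [← card_erase_add_one p1] at cd
  rcases ((s.filter fun p => ¬x p < c.Q).erase p).eq_empty_or_nonempty with e1 | ⟨q, q1⟩
  · rw [e1, sum_empty, add_zero] at hr ⊢
    rw [e1, card_empty] at cd
    obtain ⟨T, hT⟩ : ∃ T, T = 2 * c.Q - (x p + δ p) := ⟨_, rfl⟩
    have p2 := hs p hp
    have k1 := allLt_iff.1 h3 (T - (2 * c.Q - c.Θ)) (by omega)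
    rw [frc_eq, Nat.add_eq, show 2 * c.Q - c.Θ + (T - (2 * c.Q - c.Θ)) = T by omega] at k1
    have k2 : (c.zB k S b T).ok = true := by
      by_contra f
      rw [Bool.eq_false_iff.2 f] at k1
      exact Bool.false_ne_true k1
    rw [k2] at k1
    have := c.core ⟨h.s2, h.sb, h.s3, fun i j a1 a2 => h.z2 i j (by omega) (by omega),
      fun i j l a1 a2 => h.z3 i j l (by omega) (by omega)⟩ k2 k1 _ (fun p => x p + δ p) R sm
      (by omega)
    simp only [brec Nat.beq_eq.to_iff, Nat.add_eq, Nat.sub_eq, Nat.mul_eq,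
      show 2 * c.Q - T = x p + δ p by omega] at this
    have g0 : (if #s = 1 then c.P0 else c.F0) R = if R = T then c.P0 R else c.F0 R := by
      by_cases f : R = T
      · rw [s0 _ (filter_subset _ _) (by omega), card_empty] at cd
        rw [if_pos f, if_pos cd.symm]
      · rw [if_neg f, if_neg fun g => f ?_]
        rw [card_eq_zero.1 (show #(s.filter fun p => x p < c.Q) = 0 by omega), sum_empty] at hr
        omega
    have g1 : ∀ q ∈ s.filter fun p => x p < c.Q, (if #s = 2 then c.P1 else c.F1) (x q + δ q) R =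
        if x q + δ q + R = T then c.P1 (x q + δ q) R else c.F1 (x q + δ q) R := fun q hq => by
      rw [← add_sum_erase _ _ hq] at hr
      rw [← card_erase_add_one hq] at cd
      by_cases f : x q + δ q + R = T
      · rw [s0 _ ((erase_subset _ _).trans (filter_subset _ _)) (by omega), card_empty] at cd
        rw [if_pos f, if_pos cd.symm]
      · rw [if_neg f, if_neg fun g => f ?_]
        rw [card_eq_zero.1 (show #((s.filter fun p => x p < c.Q).erase q) = 0 by omega),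
          sum_empty] at hr
        omega
    rw [g0, sum_congr rfl fun q hq => by rw [g1 q hq]]
    change 6 * (_ + (_ - b)) + _ ≤ _ at this
    linarith
  · rw [← add_sum_erase _ _ q1] at hr ⊢
    rw [← card_erase_add_one q1] at cd
    have q2 := (mem_filter.1 (mem_of_mem_erase q1)).2
    have e1 := s0 _ (filter_subset (fun p => x p < c.Q) _) (by omega)
    have e2 := s0 (((s.filter fun p => ¬x p < c.Q).erase p).erase q)
      ((erase_subset _ _).trans ((erase_subset _ _).trans (filter_subset _ _))) (by omega)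
    rw [e1, e2, sum_empty, sum_empty, if_neg (by omega), show x p + δ p = c.Q by omega,
      show x q + δ q = c.Q by omega, show R = 0 by omega]
    linarith

end R5.Co

end Pool.Agent.Lib.MP_4b1228_nt.PP
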