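import Pool.Agent.Lib.MP_4b1228_nt.PP.Dat
import Pool.Agent.Lib.MP_4b1228_nt.PP.R5L
import Pool.Agent.Lib.MP_4b1228_nt.PP.R5K3

/-! Packed data for the coarse tables. -/

namespace Pool.Agent.Lib.MP_4b1228_nt.PP.R5

open R4

noncomputable section

/-- Rows of lanes of width `w`; the nodes start at `Z`; the entries vanish from the sum `S` on. -/
structure CD where
  (μ Λ Q Z Θ S w : ℕ)
  (f0 p0 inv : ℕ)
  (f1 p1 f2 b2 : List ℕ)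
  f3 : List (List ℕ)

def mn (a b : ℕ) : ℕ := Nat.sub a (Nat.sub a b)

def mj (a b : ℕ) : ℕ := Nat.add a (Nat.sub b a)

def CD.two (d : CD) (l : List ℕ) (i j : ℕ) : ℤ :=
  Bool.rec (gz d.w (nth 0 l (Nat.sub (mn i j) d.Z)) (Nat.sub (mj i j) d.Z)) 0
    (Nat.ble d.S (Nat.add i j))

def CD.g3 (d : CD) (a s b : ℕ) : ℤ :=
  Bool.rec (gz d.w (nth 0 (nth [] d.f3 (Nat.sub a d.Z)) (Nat.sub (Nat.sub (Nat.sub s a) b) d.Z))
    (Nat.sub b d.Z)) 0 (Nat.ble d.S s)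

def tb (μ x y : ℕ) : Bool := Nat.ble μ (Nat.succ (Nat.add (Nat.mod x μ) (Nat.mod y μ)))

def thr (μ : ℕ) : List ℕ → ℕ → Bool
  | [x, y], _ => tb μ x y
  | [x, y, z], n => Nat.rec (tb μ x y) (fun m _ => Nat.rec (tb μ x z) (fun _ _ => tb μ y z) m) n
  | _, _ => false

def CD.co (d : CD) : Co where
  μ := d.μ
  Λ := d.Λ
  Q := d.Q
  Z := d.Z
  Θ := d.Θ
  F0 := gz d.w d.f0
  P0 := gz d.w d.p0
  F1 i := gz d.w (nth 0 d.f1 (Nat.sub i d.Z))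
  P1 i := gz d.w (nth 0 d.p1 (Nat.sub i d.Z))
  inv i := gz d.w d.inv (Nat.sub i d.Q)
  F2 := d.two d.f2
  B2 := d.two d.b2
  F3 i j k := d.g3 (mn i (mn j k)) (Nat.add (Nat.add i j) k) (mj i (mj j k))
  th := thr d.μ

end

theorem mn_eq (a b : ℕ) : mn a b = min a b := by rw [mn, Nat.sub_eq, Nat.sub_eq]; omega

theorem mj_eq (a b : ℕ) : mj a b = max a b := by rw [mj, Nat.add_eq, Nat.sub_eq]; omega

theorem CD.two_symm (d : CD) (l : List ℕ) (i j : ℕ) : d.two l i j = d.two l j i := by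
  simp only [CD.two, mn_eq, mj_eq, Nat.add_eq, min_comm i, max_comm i, add_comm i]

theorem CD.far (d : CD) (T : ℕ) : d.co.Far d.S T where
  s2 := d.two_symm _
  sb := d.two_symm _
  s3 i j k := by
    simp only [CD.co, mn_eq, mj_eq, Nat.add_eq]
    exact ⟨by rw [min_left_comm, max_left_comm, add_comm i], by
      rw [min_comm j, max_comm j, add_right_comm]⟩
  z2 i j h _ := by
    simp only [CD.co, CD.two, Nat.add_eq, Nat.ble_eq_true_of_le h, and_self]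
  z3 i j k h _ := by simp only [CD.co, CD.g3, Nat.add_eq, Nat.ble_eq_true_of_le h]

/-- The numerical side conditions. -/
def CD.Sd (d : CD) (x : Dat) : Prop :=
  1 ≤ d.μ ∧ 1 ≤ d.Λ ∧ x.Q = d.μ * d.Q ∧ x.Z = d.μ * d.Z ∧ d.Q ≤ d.Θ ∧ d.Θ ≤ 2 * d.Q ∧
    x.a₁ ≤ x.Q + x.T ∧ 1 ≤ d.Z ∧ x.a₁ ≤ d.μ * d.S ∧ 5 * x.Q ≤ 4 * (d.μ * d.S) + 11

instance (d : CD) (x : Dat) : Decidable (d.Sd x) := by unfold CD.Sd; infer_instance

theorem CD.ok {d : CD} {x : Dat} (h : d.Sd x) : d.co.Ok x.tab.toTab :=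
  ⟨h.1, h.2.1, h.2.2.1, h.2.2.2.1, h.2.2.2.2.1, h.2.2.2.2.2.1, h.2.2.2.2.2.2.1, (d.far 0).s2,
    (d.far 0).sb, (d.far 0).s3, x.e.co_two _ _, x.e.co_three _ _⟩

theorem CD.lat {d : CD} {x : Dat} (h : d.Sd x) {k : ℕ} {b : ℤ} (h1 : (d.co.zA k d.S b).ok = true)
    (h2 : (d.co.zA k d.S b).run 0 (d.Q + 1 - d.Z) = true)
    (h3 : d.co.kB k d.S b (2 * d.Q - d.Θ) (d.Θ + 1 - d.Q) = true)
    (h4 : d.co.F0 0 + 2 * d.co.inv d.Q ≤ b) : d.co.Lat b :=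
  d.co.lat h.2.2.2.2.2.2.2.1 h.2.2.2.2.2.1 (d.far _) h1 h2 h3 h4

theorem CD.c3 {d : CD} {x : Dat} (h : d.Sd x) {I : ℕ} (hI : d.S ≤ 3 * I)
    (h3 : Rows3 x.tab.toTab d.co d.S (d.Z * d.Q) (I * d.Q)) :
    ∀ a b c, x.Z ≤ a → a ≤ b → b ≤ c → c < x.Q → d.co.C3 x.tab.toTab a b c :=
  c3_of (CD.ok h) h3 hI h.2.2.2.2.2.2.2.2.1 h.2.2.2.2.2.2.2.2.2 fun i _ j _ k _ e =>
    ((d.far _).z3 i j k e le_rfl).ge

end Pool.Agent.Lib.MP_4b1228_nt.PP.R5
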