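import Pool.Agent.Lib.MP_4b1228_nt.PP.R5D

/-!
Checkers for the local conditions with at most one large cell. A natural number
`P + (2 ^ 256 + 1) * N` stands for `P - N`.
-/

open Finset

namespace Pool.Agent.Lib.MP_4b1228_nt.PP.R5

open R3 R4

namespace K1

noncomputable section

def frc (n : ℕ) (f : ℕ → Bool) : Bool := Nat.rec (f 0) (fun m _ => f (Nat.succ m)) n

def all (lo len : ℕ) (f : ℕ → Bool) : Bool :=
  Nat.rec true (fun i r => Bool.rec false r (frc (Nat.add lo i) f)) len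

/-- the code of `-n` -/
def sh (n : ℕ) : ℕ :=
  Nat.mul n 115792089237316195423570985008687907853269984665640564039457584007913129639937

/-- the code of `c` -/
def en (c : ℤ) : ℕ := Int.rec (fun n => n) (fun n => sh (Nat.succ n)) c

/-- the code of `-c` -/
def nn (c : ℤ) : ℕ := Int.rec (fun n => sh n) (fun n => Nat.succ n) c

def lw (x : ℕ) : ℕ :=
  Nat.mod x 115792089237316195423570985008687907853269984665640564039457584007913129639936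

def up (x : ℕ) : ℕ := Nat.mul (Nat.shiftRight x 256) 2

def ok (x : ℕ) : Bool := frc x fun y => Nat.ble (up y) (lw y)

def vx (A B L H M u w g : ℕ) : Bool :=
  ok (Nat.add (Nat.add (Nat.add A B) (Nat.add (Nat.mul L u) (Nat.mul H w))) (Nat.mul M g))

/-- the four vertices -/
def v4 (A0 A1 B0 B1 L0 H0 L1 H1 M u0 u1 w0 w1 p0 p1 q0 q1 : ℕ) : Bool :=
  Bool.rec false (Bool.rec false (Bool.rec false
    (vx A1 B1 L1 H1 M u1 w1 (Nat.mul p1 q1)) (vx A1 B0 L1 H1 M u0 w0 (Nat.mul p1 q0)))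
    (vx A0 B1 L0 H0 M u1 w1 (Nat.mul p0 q1))) (vx A0 B0 L0 H0 M u0 w0 (Nat.mul p0 q0))

def fin (θ : Bool) (A0 A1 B0 B1 L0 H0 L1 H1 M n0 n1 a0 a1 μ k : ℕ) : Bool :=
  frc A0 fun A0 => frc A1 fun A1 => frc B0 fun B0 => frc B1 fun B1 =>
    frc (Nat.sub μ k) fun u0 => frc (Nat.pred u0) fun u1 => frc (Nat.succ k) fun w1 =>
      Bool.rec (v4 A0 A1 B0 B1 L0 H0 L1 H1 M u0 u1 k w1 a0 a1 k w1)
        (v4 A0 A1 B0 B1 L0 H0 L1 H1 M u0 u1 k w1 n0 n1 u0 u1) θ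

/-- one fine cell -/
def cell (θ : Bool) (s : ℤ × ℤ × ℤ × ℤ) (lim K0 K1 S0 S1 Bq C2 C3 E2 E3 m15 m60
    L0 H0 L1 H1 M n0 n1 a0 a1 μ k ρ : ℕ) : Bool :=
  frc (Nat.add E2 (Nat.mul E3 ρ)) fun e =>
  frc (sh (Nat.mul m15 (Nat.sub (up e) (lw e)))) fun pen =>
  frc (Nat.succ ρ) fun r =>
  frc (Nat.add K0 (Nat.mul S0 ρ)) fun A0 => frc (Nat.add K1 (Nat.mul S1 ρ)) fun A1 =>
  frc (Nat.add (Nat.mul (Nat.add C2 (Nat.mul C3 ρ)) (Nat.mul ρ ρ)) pen) fun B0 =>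
  frc (Nat.add (Nat.add (Nat.mul (Nat.add C2 (Nat.mul C3 r)) (Nat.mul r r)) pen) Bq) fun B1 =>
    Bool.rec (fin θ A0 A1 B0 B1 L0 H0 L1 H1 M n0 n1 a0 a1 μ k)
      (Prod.rec (fun x0 y => Prod.rec (fun x1 z => Prod.rec (fun x2 x3 =>
        fin θ (Nat.add A0 (Nat.mul (nn x0) m60)) (Nat.add A1 (Nat.mul (nn x1) m60))
          (Nat.add B0 (Nat.mul (nn x2) m60)) (Nat.add B1 (Nat.mul (nn x3) m60))
          L0 H0 L1 H1 M n0 n1 a0 a1 μ k) z) y) s) (Nat.ble r lim)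

/-- the part of the value that depends only on the large cell -/
def kA (t : Tab) (x : ℕ) (a : ℤ) : ℤ :=
  m0 (t.co [x] 0) [a] + sec (t.co [x] 1) 0 [a] 1 + q3 (t.co [x] 3 0) 0 + 60 * t.lp x a +
    t.VH [x] [a]

def pos (c : ℤ) : ℕ := Int.rec (fun n => n) (fun _ => 0) c

/-- the cells `lo ≤ ρ < hi` of the row `x` -/
def row (t : Tab) (c : Co) (G : ℕ → ℕ → ℤ) (n : ℕ) (s1 : ℕ → ℕ → ℤ × ℤ × ℤ × ℤ) (x lo hi : ℕ) :
    Bool :=
  frc c.μ fun μ => frc (Nat.mul μ μ) fun m => frc (Nat.mul 60 m) fun m60 =>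
  frc (Nat.mul 15 m) fun m15 => frc (Nat.mul 60 c.Λ) fun lam =>
  frc (Nat.div x μ) fun i => frc (Nat.succ i) fun i' => frc (Nat.mod x μ) fun a0 =>
  frc (Nat.succ a0) fun a1 => frc (Nat.sub μ a0) fun n0 => frc (Nat.sub μ a1) fun n1 =>
  frc (Nat.mul lam n0) fun y0 => frc (Nat.mul lam n1) fun y1 =>
  frc (Nat.mul lam a0) fun z0 => frc (Nat.mul lam a1) fun z1 =>
  frc (Nat.mul (nn (kA t x 0)) m) fun K0 => frc (Nat.mul (nn (kA t x 1)) m) fun K1 =>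
  frc (Nat.mul (nn (t.co [x] 1 0)) m60) fun S0 =>
  frc (Nat.add S0 (Nat.mul (nn (t.co [x] 1 1)) m60)) fun S1 =>
  frc (Nat.add S0 (Nat.mul (nn (t.co [x] 1 1)) (Nat.mul 30 m))) fun Bq =>
  frc (Nat.mul (nn (t.co [x] 2 0)) m60) fun C2 => frc (Nat.mul (nn (t.co [x] 3 0)) m60) fun C3 =>
  frc (en (t.co [x] 2 0)) fun E2 => frc (Nat.mul (en (t.co [x] 3 0)) 3) fun E3 =>
  frc (Nat.sub t.Q (Nat.succ x)) fun lim => frc lo fun lo => frc hi fun hi =>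
    all (Nat.div lo μ) (Nat.sub (Nat.succ (Nat.div hi μ)) (Nat.div lo μ)) fun j =>
      frc (Nat.succ j) fun j' => frc (Nat.mul μ j) fun r0 =>
      frc (en (G i j)) fun g00 => frc (en (G i' j)) fun g10 =>
      frc (en (G i j')) fun g01 => frc (en (G i' j')) fun g11 =>
      frc (Nat.add (Nat.mul g00 y0) (Nat.mul g10 z0)) fun L0 =>
      frc (Nat.add (Nat.mul g01 y0) (Nat.mul g11 z0)) fun H0 =>
      frc (Nat.add (Nat.mul g00 y1) (Nat.mul g10 z1)) fun L1 =>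
      frc (Nat.add (Nat.mul g01 y1) (Nat.mul g11 z1)) fun H1 =>
      frc (sh (Nat.mul lam (pos (Int.add (Int.sub (Int.sub (G i' j') (G i' j))
        (G i j')) (G i j))))) fun M =>
        all 0 μ fun k => frc (Nat.add r0 k) fun ρ =>
          Bool.rec (Bool.rec true
            (cell (c.th [x, ρ] n) (s1 x ρ) lim K0 K1 S0 S1 Bq C2 C3 E2 E3 m15 m60
              L0 H0 L1 H1 M n0 n1 a0 a1 μ k ρ) (Nat.blt ρ hi)) true (Nat.blt ρ lo)

def c0B (t : Tab) (c : Co) (G : ℕ → ℤ) (ρ : ℕ) : Bool :=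
  decide (c.μ * t.V [] [] ρ (0 : ℕ) ≤ 60 * c.Λ * L1 c.μ (fun j => G (ρ / c.μ + j)) (c.ps ρ 0)) &&
    decide (c.μ * t.V [] [] ρ (1 : ℕ) ≤ 60 * c.Λ * L1 c.μ (fun j => G (ρ / c.μ + j)) (c.ps ρ 1))

def ciB (t : Tab) (c : Co) (x : ℕ) : Bool :=
  decide (c.μ * t.V [x] [(0 : ℕ)] 0 0 ≤
      60 * c.Λ * L1 c.μ (fun i => c.inv (x / c.μ + i)) (c.ps x 0)) &&
    decide (c.μ * t.V [x] [(1 : ℕ)] 0 0 ≤
      60 * c.Λ * L1 c.μ (fun i => c.inv (x / c.μ + i)) (c.ps x 1))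

end

theorem frc_eq (n : ℕ) (f : ℕ → Bool) : frc n f = f n := by cases n <;> rfl

theorem rec_and (a b : Bool) : (Bool.rec false b a : Bool) = (a && b) := by cases a <;> rfl

theorem all_sound {lo len : ℕ} {f : ℕ → Bool} (h : all lo len f = true) :
    ∀ i, lo ≤ i → i < lo + len → f i = true := by
  induction len with
  | zero => intro i h1 h2; omega
  | succ len ih =>
    intro i h1 h2
    have h' : (Bool.rec false (all lo len f) (frc (Nat.add lo len) f) : Bool) = true := h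
    rw [rec_and, Bool.and_eq_true, frc_eq] at h'
    rcases Nat.lt_succ_iff_lt_or_eq.1 (show i < lo + len + 1 from h2) with e | e
    · exact ih h'.2 i h1 e
    · rw [e]; exact h'.1

def Rl (x : ℕ) (v : ℤ) : Prop := ∃ P N : ℕ, x = P + (2 ^ 256 + 1) * N ∧ (P : ℤ) - N ≤ v

theorem Rl.add {x y : ℕ} {v w : ℤ} (h : Rl x v) (h' : Rl y w) : Rl (Nat.add x y) (v + w) := by
  obtain ⟨P, N, rfl, a⟩ := h
  obtain ⟨P', N', rfl, b⟩ := h'
  refine ⟨P + P', N + N', by rw [Nat.add_eq]; ring, ?_⟩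
  push_cast
  linarith

theorem Rl.mul {x : ℕ} {v : ℤ} (h : Rl x v) (m : ℕ) : Rl (Nat.mul x m) (v * m) := by
  obtain ⟨P, N, rfl, a⟩ := h
  refine ⟨P * m, N * m, by rw [Nat.mul_eq]; ring, ?_⟩
  push_cast
  nlinarith [mul_le_mul_of_nonneg_right a (Nat.cast_nonneg m : (0 : ℤ) ≤ m)]

theorem Rl.mono {x : ℕ} {v w : ℤ} (h : Rl x v) (e : v ≤ w) : Rl x w := by
  obtain ⟨P, N, a, b⟩ := h
  exact ⟨P, N, a, b.trans e⟩

theorem Rl.sh (n : ℕ) : Rl (sh n) (-n) :=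
  ⟨0, n, by rw [K1.sh, Nat.mul_eq, zero_add, mul_comm]; norm_num, by simp⟩

theorem Rl.en (c : ℤ) : Rl (en c) c := by
  cases c with
  | ofNat n => exact ⟨n, 0, rfl, by simp⟩
  | negSucc n =>
    have := Rl.sh (Nat.succ n)
    rw [K1.en]
    exact this

theorem Rl.nn (c : ℤ) : Rl (nn c) (-c) := by
  cases c with
  | ofNat n =>
    have := Rl.sh n
    rw [K1.nn]
    exact this
  | negSucc n => exact ⟨n + 1, 0, rfl, by rw [Int.negSucc_eq]; push_cast; simp⟩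

theorem Rl.le {x : ℕ} {v : ℤ} (h : Rl x v) : (lw x : ℤ) - up x ≤ v := by
  obtain ⟨P, N, e, a⟩ := h
  have h1 : lw x = x % 2 ^ 256 := by
    rw [show 2 ^ 256 =
      115792089237316195423570985008687907853269984665640564039457584007913129639936 by norm_num]
    rfl
  have h2 : up x = x / 2 ^ 256 * 2 := congrArg (· * 2) (Nat.shiftRight_eq_div_pow x 256)
  rw [h1, h2, e, show P + (2 ^ 256 + 1) * N = P + N + 2 ^ 256 * N by ring,
    Nat.add_mul_mod_self_left, Nat.add_mul_div_left _ _ (by positivity)]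
  have := Nat.mod_le (P + N) (2 ^ 256)
  generalize (P + N) % 2 ^ 256 = u at *
  generalize (P + N) / 2 ^ 256 = w at *
  push_cast
  omega

theorem Rl.ok {x : ℕ} {v : ℤ} (h : Rl x v) (k : ok x = true) : 0 ≤ v := by
  rw [K1.ok, frc_eq, Nat.ble_eq] at k
  have := h.le
  omega

theorem vx_sound {A B L H M u w g : ℕ} {a b l h m : ℤ} (k : vx A B L H M u w g = true)
    (hA : Rl A a) (hB : Rl B b) (hL : Rl L l) (hH : Rl H h) (hM : Rl M m) :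
    0 ≤ a + b + (l * u + h * w) + m * g :=
  (((hA.add hB).add ((hL.mul u).add (hH.mul w))).add (hM.mul g)).ok k

theorem fin_sound {θ : Bool} {A0 A1 B0 B1 L0 H0 L1 H1 M μ x k : ℕ} {A B L H : ℕ → ℤ} {m : ℤ}
    (h : fin θ A0 A1 B0 B1 L0 H0 L1 H1 M (μ - x) (μ - (x + 1)) x (x + 1) μ k = true)
    (hx : x < μ) (hk : k < μ) (a0 : Rl A0 (A 0)) (a1 : Rl A1 (A 1)) (b0 : Rl B0 (B 0))
    (b1 : Rl B1 (B 1)) (l0 : Rl L0 (L 0)) (h0 : Rl H0 (H 0)) (l1 : Rl L1 (L 1)) (h1 : Rl H1 (H 1))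
    (hm : Rl M m) : ∀ a ≤ 1, ∀ b ≤ 1, 0 ≤ A a + B b + (L a * (μ - (k + b : ℕ)) + H a * (k + b : ℕ)) +
      m * gp μ θ (x + a : ℕ) (k + b : ℕ) := by
  simp only [fin, frc_eq, Nat.sub_eq, Nat.pred_eq_sub_one, Nat.succ_eq_add_one] at h
  have e1 : ((μ - k : ℕ) : ℤ) = μ - k := by omega
  have e2 : ((μ - k - 1 : ℕ) : ℤ) = μ - k - 1 := by omega
  have e3 : ((μ - x : ℕ) : ℤ) = μ - x := by omega
  have e4 : ((μ - (x + 1) : ℕ) : ℤ) = μ - x - 1 := by omega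
  cases θ
  all_goals
    simp only [v4, rec_and, Bool.and_eq_true] at h
    have t1 := vx_sound h.1 a0 b0 l0 h0 hm
    have t2 := vx_sound h.2.1 a0 b1 l0 h0 hm
    have t3 := vx_sound h.2.2.1 a1 b0 l1 h1 hm
    have t4 := vx_sound h.2.2.2 a1 b1 l1 h1 hm
    simp only [Nat.mul_eq, Nat.cast_mul, e1, e2, e3, e4, Nat.cast_add, Nat.cast_one] at t1 t2 t3 t4
    intro a ha b hb
    interval_cases a <;> interval_cases b <;>
      simp only [gp, bz, Nat.cast_add, Nat.cast_one, Nat.cast_zero, if_true, Bool.false_eq_true,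
        if_false] <;> linarith

theorem cell_sound {θ : Bool} {s : ℕ → ℤ} {lim K0 K1 S0 S1 Bq C2 C3 E2 E3 m15 m60 L0 H0 L1 H1 M μ x
    k ρ : ℕ} {K S L H : ℕ → ℤ} {bq c2 c3 e2 e3 m : ℤ}
    (h : cell θ (s 0, s 1, s 2, s 3) lim K0 K1 S0 S1 Bq C2 C3 E2 E3 m15 m60 L0 H0 L1 H1 M (μ - x)
      (μ - (x + 1)) x (x + 1) μ k ρ = true)
    (hx : x < μ) (hk : k < μ) (k0 : Rl K0 (K 0)) (k1 : Rl K1 (K 1)) (s0 : Rl S0 (S 0))
    (s1 : Rl S1 (S 1)) (hq : Rl Bq bq) (h2 : Rl C2 c2) (h3 : Rl C3 c3) (g2 : Rl E2 e2)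
    (g3 : Rl E3 e3) (l0 : Rl L0 (L 0)) (h0 : Rl H0 (H 0)) (l1 : Rl L1 (L 1)) (h1 : Rl H1 (H 1))
    (hm : Rl M m) : ∀ a ≤ 1, ∀ b ≤ 1,
      0 ≤ K a + S a * ρ + ((c2 + c3 * (ρ + b)) * (ρ + b) ^ 2 - m15 * max 0 (-(e2 + e3 * ρ)) +
        b * bq) - (if ρ + 1 ≤ lim then m60 * (s a + s (2 + b)) else 0) +
        (L a * (μ - (k + b : ℕ)) + H a * (k + b : ℕ)) + m * gp μ θ (x + a : ℕ) (k + b : ℕ) := by
  simp only [cell, frc_eq] at h
  have p := (g2.add (g3.mul ρ)).le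
  generalize Nat.add E2 (Nat.mul E3 ρ) = e at h p
  have hp : Rl (sh (Nat.mul m15 (Nat.sub (up e) (lw e))))
      (-(m15 * max 0 (-(e2 + e3 * ρ)))) := by
    refine (Rl.sh _).mono (neg_le_neg ?_)
    rw [Nat.mul_eq, Nat.cast_mul]
    refine mul_le_mul_of_nonneg_left (max_le (Nat.cast_nonneg _) ?_) (Nat.cast_nonneg _)
    rw [Nat.sub_eq]
    omega
  have a0 := k0.add (s0.mul ρ)
  have a1 := k1.add (s1.mul ρ)
  have b0 := ((h2.add (h3.mul ρ)).mul (Nat.mul ρ ρ)).add hp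
  have b1 := (((h2.add (h3.mul ρ.succ)).mul (Nat.mul ρ.succ ρ.succ)).add hp).add hq
  intro a ha b hb
  by_cases c : ρ + 1 ≤ lim
  · rw [Nat.ble_eq_true_of_le c] at h
    have := fin_sound (A := fun a => K a + S a * ρ + -s a * m60)
      (B := fun b => (c2 + c3 * (ρ + b)) * (ρ + b) ^ 2 - m15 * max 0 (-(e2 + e3 * ρ)) + b * bq +
        -s (2 + b) * m60) h hx hk (a0.add ((Rl.nn _).mul _)) (a1.add ((Rl.nn _).mul _))
      ((b0.add ((Rl.nn _).mul _)).mono (le_of_eq (by simp; ring)))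
      ((b1.add ((Rl.nn _).mul _)).mono (le_of_eq (by simp; ring))) l0 h0 l1 h1 hm a ha b hb
    rw [if_pos c]
    linarith
  · rw [show Nat.ble ρ.succ lim = false from Bool.eq_false_iff.2 fun e => c (Nat.le_of_ble_eq_true e)] at h
    have := fin_sound (A := fun a => K a + S a * ρ)
      (B := fun b => (c2 + c3 * (ρ + b)) * (ρ + b) ^ 2 - m15 * max 0 (-(e2 + e3 * ρ)) + b * bq)
      h hx hk a0 a1 (b0.mono (le_of_eq (by simp; ring))) (b1.mono (le_of_eq (by simp; ring)))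
      l0 h0 l1 h1 hm a ha b hb
    rw [if_neg c]
    linarith

theorem pos_eq (c : ℤ) : (pos c : ℤ) = max 0 c := by
  cases c with
  | ofNat n => exact (max_eq_right (Int.natCast_nonneg n)).symm
  | negSucc n => exact (max_eq_left (Int.negSucc_lt_zero n).le).symm

theorem V_one (t : Tab) (x ρ a b : ℕ) (ha : a ≤ 1) (hb : b ≤ 1) :
    t.V [x] [(a : ℤ)] ρ b = kA t x a + 60 * (t.co [x] 1 0 + t.co [x] 1 1 * a) * ρ +
      (60 * (t.co [x] 2 0 + t.co [x] 3 0 * (ρ + b)) * (ρ + b) ^ 2 +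
        15 * max 0 (-(t.co [x] 2 0 + t.co [x] 3 0 * 3 * ρ)) +
        b * (60 * t.co [x] 1 0 + 30 * t.co [x] 1 1)) +
      if ρ + 1 ≤ t.Q - (x + 1) then 60 * (t.s1 x ρ a + t.s1 x ρ (2 + b)) else 0 := by
  have e : (x + ρ + 2 ≤ t.Q) = (ρ + 1 ≤ t.Q - (x + 1)) := propext (by omega)
  have q : ∀ A v : ℤ, q2 A v = 60 * A * v + 15 * max 0 (-A) := by
    intro A v
    unfold q2
    split_ifs with h
    · rw [max_eq_right (by omega)]; simp; ring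
    · rw [max_eq_left (by omega)]; simp; ring
  simp only [Tab.V, Tab.VE, Tab.VS, kA, m1, m23, q, q3, lin, sec, Tab.l1, e, Int.cast_id]
  rw [show t.co [x] 2 0 + 3 * ρ * t.co [x] 3 0 = t.co [x] 2 0 + t.co [x] 3 0 * 3 * ρ by ring]
  by_cases c : ρ + 1 ≤ t.Q - (x + 1) <;> simp only [c, if_true, if_false] <;>
    interval_cases a <;> interval_cases b <;> push_cast <;> ring

theorem row_sound {t : Tab} {c : Co} {G : ℕ → ℕ → ℤ} {n : ℕ} {s1 : ℕ → ℕ → ℤ × ℤ × ℤ × ℤ}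
    {x lo hi : ℕ} (hμ : 1 ≤ c.μ)
    (hs : ∀ x ρ, s1 x ρ = (t.s1 x ρ 0, t.s1 x ρ 1, t.s1 x ρ 2, t.s1 x ρ 3))
    (h : row t c G n s1 x lo hi = true) : ∀ ρ, lo ≤ ρ → ρ < hi → c.C1 t G n x ρ := by
  intro ρ h1 h2 a ha b hb
  simp only [row, frc_eq] at h
  have d1 : lo / c.μ ≤ ρ / c.μ := Nat.div_le_div_right h1
  have d2 : ρ / c.μ ≤ hi / c.μ := Nat.div_le_div_right h2.le
  have h' := all_sound (all_sound h (ρ / c.μ) d1 (by
    change ρ / c.μ < lo / c.μ + (hi / c.μ + 1 - lo / c.μ)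
    omega)) (ρ % c.μ) (Nat.zero_le _) (by rw [zero_add]; exact Nat.mod_lt _ hμ)
  have e : Nat.add (Nat.mul c.μ (ρ / c.μ)) (ρ % c.μ) = ρ := Nat.div_add_mod ρ c.μ
  rw [e, show Nat.blt ρ lo = false from Bool.eq_false_iff.2 fun e => by
    rw [Nat.blt_eq] at e; omega, show Nat.blt ρ hi = true by rw [Nat.blt_eq]; exact h2, hs] at h'
  have hx : x % c.μ < c.μ := Nat.mod_lt _ hμ
  have e3 : ((c.μ - x % c.μ : ℕ) : ℤ) = c.μ - (x % c.μ : ℕ) := by omega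
  have e4 : ((c.μ - (x % c.μ + 1) : ℕ) : ℤ) = c.μ - (x % c.μ : ℕ) - 1 := by omega
  have s0 := (Rl.nn (t.co [x] 1 0)).mul (Nat.mul 60 (Nat.mul c.μ c.μ))
  have := cell_sound (s := t.s1 x ρ) (μ := c.μ) (x := x % c.μ)
    (K := fun a => -kA t x a * c.μ ^ 2)
    (S := fun a => -(60 * (t.co [x] 1 0 + t.co [x] 1 1 * a)) * c.μ ^ 2)
    (L := fun a => 60 * c.Λ * (G (x / c.μ) (ρ / c.μ) * (c.μ - (x % c.μ + a : ℕ)) +
      G (x / c.μ + 1) (ρ / c.μ) * (x % c.μ + a : ℕ)))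
    (H := fun a => 60 * c.Λ * (G (x / c.μ) (ρ / c.μ + 1) * (c.μ - (x % c.μ + a : ℕ)) +
      G (x / c.μ + 1) (ρ / c.μ + 1) * (x % c.μ + a : ℕ)))
    (m := -(60 * c.Λ * max 0 (mx fun i j => G (x / c.μ + i) (ρ / c.μ + j))))
    h' hx (Nat.mod_lt _ hμ)
    (((Rl.nn _).mul _).mono (le_of_eq (by simp [sq])))
    (((Rl.nn _).mul _).mono (le_of_eq (by simp [sq])))
    (s0.mono (le_of_eq (by simp; ring)))
    ((s0.add ((Rl.nn _).mul _)).mono (le_of_eq (by simp; ring)))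
    (s0.add ((Rl.nn _).mul _)) ((Rl.nn _).mul _) ((Rl.nn _).mul _) (Rl.en _) ((Rl.en _).mul _)
    ((((Rl.en _).mul _).add ((Rl.en _).mul _)).mono (le_of_eq ?_))
    ((((Rl.en _).mul _).add ((Rl.en _).mul _)).mono (le_of_eq ?_))
    ((((Rl.en _).mul _).add ((Rl.en _).mul _)).mono (le_of_eq ?_))
    ((((Rl.en _).mul _).add ((Rl.en _).mul _)).mono (le_of_eq ?_))
    ((Rl.sh _).mono (le_of_eq ?_)) a ha b hb
  · rw [V_one t x ρ a b ha hb]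
    simp only [L2, ML2, Co.ps, add_zero, Nat.mul_eq, Nat.sub_eq, Nat.succ_eq_add_one, Nat.cast_mul,
      Nat.cast_ofNat] at this ⊢
    by_cases c : ρ + 1 ≤ t.Q - (x + 1) <;> simp only [c, if_true, if_false] at this ⊢ <;> linarith
  all_goals
    simp only [Nat.mul_eq, Nat.sub_eq, Nat.succ_eq_add_one, Nat.cast_mul, Nat.cast_ofNat, pos_eq,
      mx, add_zero, show x.mod c.μ = x % c.μ from rfl, show x.div c.μ = x / c.μ from rfl, e3, e4,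
      Nat.cast_add, Nat.cast_one]
  · ring
  · ring
  · ring
  · ring
  · rfl

theorem c0B_sound {t : Tab} {c : Co} {G : ℕ → ℤ} {ρ : ℕ} (h : c0B t c G ρ = true) : c.C0 t G ρ := by
  rw [c0B, Bool.and_eq_true, decide_eq_true_eq, decide_eq_true_eq] at h
  intro b hb
  interval_cases b
  exacts [h.1, h.2]

theorem ciB_sound {t : Tab} {c : Co} {x : ℕ} (h : ciB t c x = true) : c.CI t x := by
  rw [ciB, Bool.and_eq_true, decide_eq_true_eq, decide_eq_true_eq] at h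
  intro b hb
  interval_cases b
  exacts [h.1, h.2]

end K1

open K1

noncomputable section

/-- the fields `c0`, `p0`, `ci` -/
def k0 (t : Tab) (c : Co) : Bool :=
  all 0 (2 * t.Q + 1) (c0B t c c.F0) &&
    all (c.μ * (2 * c.Q - c.Θ)) (t.Q + 1 - c.μ * (2 * c.Q - c.Θ)) (c0B t c c.P0) &&
    all t.Q (c.μ * c.Θ - t.Q) (ciB t c)

/-- the field `c1` for `lo ≤ x < lo + len` -/
def k1 (t : Tab) (c : Co) (s1 : ℕ → ℕ → ℤ × ℤ × ℤ × ℤ) (lo len : ℕ) : Bool :=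
  all lo len fun x => row t c c.F1 0 s1 x 0 (2 * t.Q + 1 - x)

/-- the field `p1` for `lo ≤ x < lo + len` -/
def kp (t : Tab) (c : Co) (s1 : ℕ → ℕ → ℤ × ℤ × ℤ × ℤ) (lo len : ℕ) : Bool :=
  all lo len fun x => row t c c.P1 1 s1 x (c.μ * (2 * c.Q - c.Θ) - (x + 1)) (t.Q + 1 - x)

end

theorem k0_sound {t : Tab} {c : Co} (h : k0 t c = true) :
    (∀ ρ ≤ 2 * t.Q, c.C0 t c.F0 ρ) ∧ (∀ ρ ≤ t.Q, c.μ * (2 * c.Q - c.Θ) ≤ ρ → c.C0 t c.P0 ρ) ∧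
      ∀ x, t.Q ≤ x → x < c.μ * c.Θ → c.CI t x := by
  rw [k0, Bool.and_eq_true, Bool.and_eq_true] at h
  exact ⟨fun ρ h1 => c0B_sound (all_sound h.1.1 ρ (by omega) (by omega)),
    fun ρ h1 h2 => c0B_sound (all_sound h.1.2 ρ h2 (by omega)),
    fun x h1 h2 => ciB_sound (all_sound h.2 x h1 (by omega))⟩

theorem k1_sound {t : Tab} {c : Co} {s1 : ℕ → ℕ → ℤ × ℤ × ℤ × ℤ} {lo len : ℕ} (hμ : 1 ≤ c.μ)
    (hs : ∀ x ρ, s1 x ρ = (t.s1 x ρ 0, t.s1 x ρ 1, t.s1 x ρ 2, t.s1 x ρ 3))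
    (h : k1 t c s1 lo len = true) :
    ∀ x ρ, lo ≤ x → x < lo + len → x + ρ ≤ 2 * t.Q → c.C1 t c.F1 0 x ρ :=
  fun x ρ h1 h2 h3 => row_sound hμ hs (all_sound h x h1 h2) ρ (Nat.zero_le _) (by omega)

theorem kp_sound {t : Tab} {c : Co} {s1 : ℕ → ℕ → ℤ × ℤ × ℤ × ℤ} {lo len : ℕ} (hμ : 1 ≤ c.μ)
    (hs : ∀ x ρ, s1 x ρ = (t.s1 x ρ 0, t.s1 x ρ 1, t.s1 x ρ 2, t.s1 x ρ 3))
    (h : kp t c s1 lo len = true) :
    ∀ x ρ, lo ≤ x → x < lo + len → x + ρ ≤ t.Q → c.μ * (2 * c.Q - c.Θ) < x + ρ + 2 →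
      c.C1 t c.P1 1 x ρ :=
  fun x ρ h1 h2 h3 h4 => row_sound hμ hs (all_sound h x h1 h2) ρ (by omega) (by omega)

end Pool.Agent.Lib.MP_4b1228_nt.PP.R5
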