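import Pool.Agent.Lib.MP_4b1228_nt.PP.R5D

/-!
A checker for the local conditions on pairs. The natural number `n` stands for `n - 2 ^ 60`.
-/

namespace Pool.Agent.Lib.MP_4b1228_nt.PP.R5

open R4

namespace K2

noncomputable section

def fb (n : ℕ) (f : ℕ → Bool) : Bool := Nat.rec (f 0) (fun m _ => f (Nat.succ m)) n

def fz (z : ℤ) (f : ℤ → Bool) : Bool :=
  Int.rec (fun n => fb n fun m => f (Int.ofNat m)) (fun n => fb n fun m => f (Int.negSucc m)) z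

def fo (z : ℤ) (f : ℕ → Bool) : Bool :=
  Int.rec (fun n => fb (Nat.add 1152921504606846976 n) f)
    (fun n => Bool.rec false (fb (Nat.sub 1152921504606846975 n) f)
      (Nat.ble n 1152921504606846975)) z

def an (a b : Bool) : Bool := Bool.rec false b a

def orr (a b : Bool) : Bool := Bool.rec b true a

def al (lo len : ℕ) (f : ℕ → Bool) : Bool :=
  Nat.rec true (fun i r => an (fb (Nat.add lo i) f) r) len

def mxn (a b : ℕ) : ℕ := Nat.add a (Nat.sub b a)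

def mnn (a b : ℕ) : ℕ := Nat.sub a (Nat.sub a b)

/-- `A + Λ * m * gap ≤ Λ * bilinear + C`. -/
def lf (μ Λ f₀ f₁ f₂ f₃ m : ℕ) (θ : Bool) (C a a' b b' A : ℕ) : Bool :=
  Nat.ble (Nat.add A (Nat.mul Λ (Nat.mul m (Bool.rec (Nat.mul a b) (Nat.mul a' b') θ))))
    (Nat.add (Nat.mul Λ (Nat.add (Nat.mul (Nat.add (Nat.mul f₀ a') (Nat.mul f₁ a)) b')
      (Nat.mul (Nat.add (Nat.mul f₂ a') (Nat.mul f₃ a)) b))) (Nat.add C (Nat.sub μ μ)))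

/-- The four vertices; `K * (w - O) + E ≤ Λ * L2`, where `D = E + Λ * O * μ ^ 2`. -/
def lf4 (μ Λ f₀ f₁ f₂ f₃ : ℕ) (θ : Bool) (a b K D w₀ w₁ w₂ w₃ : ℕ) : Bool :=
  fb (Nat.sub (Nat.add f₃ f₀) (Nat.add f₁ f₂)) fun m => fb (Nat.mul K 1152921504606846976) fun C =>
  fb (Nat.sub μ a) fun a' => fb (Nat.sub μ b) fun b' => fb (Nat.succ a) fun a₁ =>
  fb (Nat.succ b) fun b₁ => fb (Nat.sub μ a₁) fun a₁' => fb (Nat.sub μ b₁) fun b₁' =>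
    an (lf μ Λ f₀ f₁ f₂ f₃ m θ C a a' b b' (Nat.add (Nat.mul K w₀) D))
      (an (lf μ Λ f₀ f₁ f₂ f₃ m θ C a₁ a₁' b b' (Nat.add (Nat.mul K w₁) D))
        (an (lf μ Λ f₀ f₁ f₂ f₃ m θ C a a' b₁ b₁' (Nat.add (Nat.mul K w₂) D))
          (lf μ Λ f₀ f₁ f₂ f₃ m θ C a₁ a₁' b₁ b₁' (Nat.add (Nat.mul K w₃) D))))

/-- `K * (w - O) + E ≤ Λ * (f - O)` for all `w`, `f`. -/
def rt (Λ f₀ f₁ f₂ f₃ K E w₀ w₁ w₂ w₃ : ℕ) : Bool :=
  fb (mxn w₀ w₁) fun p => fb (mxn w₂ w₃) fun q => fb (mnn f₀ f₁) fun r => fb (mnn f₂ f₃) fun s =>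
    Nat.ble (Nat.add (Nat.add (Nat.mul K (mxn p q)) E) (Nat.mul Λ 1152921504606846976))
      (Nat.add (Nat.mul Λ (mnn r s)) (Nat.mul K 1152921504606846976))

def cf (μ Λ f₀ f₁ f₂ f₃ : ℕ) (θ : Bool) (a b w₀ w₁ w₂ w₃ e : ℕ) : Bool :=
  orr (rt (Nat.mul 4 Λ) f₀ f₁ f₂ f₃ 4 (Nat.mul Λ e) w₀ w₁ w₂ w₃)
    (fb (Nat.mul μ μ) fun n => fb (Nat.mul 4 n) fun K => fb (Nat.mul 4 Λ) fun Λ' =>
      fb (Nat.mul (Nat.mul Λ n) (Nat.add e 4611686018427387904)) fun D =>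
        lf4 μ Λ' f₀ f₁ f₂ f₃ θ a b K D w₀ w₁ w₂ w₃)

/-- The four values of an exact row. -/
def e4 (t : Tab) (x y j : ℕ) (k : ℤ → ℤ → ℤ → ℤ → Bool) : Bool :=
  Bool.rec (k 0 0 0 0) (fz (t.e [x, y] j 0) fun p => fz (t.e [x, y] j 1) fun q =>
    fz (t.e [x, y] j 2) fun r => fz (Int.add p q) fun s => k p s (Int.add p r) (Int.add s r))
    (t.vis j [x, y])

def h4 (t : Tab) (x y : ℕ) (k : ℤ → ℤ → ℤ → ℤ → Bool) : Bool :=
  Bool.rec (k 0 0 0 0)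
    (k (hx t [x, y] [0, 0]) (hx t [x, y] [1, 0]) (hx t [x, y] [0, 1]) (hx t [x, y] [1, 1]))
    (an (Nat.ble t.T x) (an (Nat.ble t.a₀ (Nat.succ (Nat.add x y)))
      (Nat.ble (Nat.succ (Nat.add x y)) t.a₁)))

def n4 (F : ℕ → ℕ → ℤ) (i j : ℕ) (k : ℕ → ℕ → ℕ → ℕ → Bool) : Bool :=
  fo (F i j) fun f₀ => fb (Nat.succ i) fun i' => fo (F i' j) fun f₁ => fb (Nat.succ j) fun j' =>
    fo (F i j') fun f₂ => fo (F i' j') fun f₃ => k f₀ f₁ f₂ f₃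

def cell (t : Tab) (c : Co) (μ Λ x i a y : ℕ) : Bool :=
  fb (Nat.div y μ) fun j => fb (Nat.mod y μ) fun b => fb (Bool.rec 1 2 (Nat.beq x y)) fun u =>
  n4 c.F2 i j fun f₀ f₁ f₂ f₃ => n4 c.B2 i j fun g₀ g₁ g₂ g₃ =>
  e4 t x y 0 fun p₀ p₁ p₂ p₃ => h4 t x y fun h₀ h₁ h₂ h₃ =>
  fo (Int.add (Int.mul (Int.ofNat u) p₀) h₀) fun w₀ =>
  fo (Int.add (Int.mul (Int.ofNat u) p₁) h₁) fun w₁ =>
  fo (Int.add (Int.mul (Int.ofNat u) p₂) h₂) fun w₂ =>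
  fo (Int.add (Int.mul (Int.ofNat u) p₃) h₃) fun w₃ =>
  e4 t x y 1 fun q₀ q₁ q₂ q₃ => fo q₀ fun v₀ => fo q₁ fun v₁ => fo q₂ fun v₂ => fo q₃ fun v₃ =>
    orr (an (rt Λ g₀ g₁ g₂ g₃ (Nat.mul μ u) 0 v₀ v₁ v₂ v₃)
        (cf μ Λ f₀ f₁ f₂ f₃ (c.th [x, y] 2) a b w₀ w₁ w₂ w₃ 0))
      (an (fb (Nat.mul μ μ) fun n => fb (Nat.mul (Nat.mul n μ) u) fun K =>
          fb (Nat.mul (Nat.mul Λ n) 1152921504606846976) fun D =>
            lf4 μ Λ g₀ g₁ g₂ g₃ (c.th [x, y] 3) a b K D v₀ v₁ v₂ v₃)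
        (fb (Nat.add (mxn (Nat.sub g₁ g₀) (Nat.sub g₃ g₂)) (mxn (Nat.sub g₂ g₀) (Nat.sub g₃ g₁)))
          fun e => cf μ Λ f₀ f₁ f₂ f₃ (c.th [x, y] 2) a b w₀ w₁ w₂ w₃ e))

end

theorem fb_eq (n : ℕ) (f : ℕ → Bool) : fb n f = f n := by cases n <;> rfl

theorem fz_eq (z : ℤ) (f : ℤ → Bool) : fz z f = f z := by
  cases z
  · exact fb_eq _ fun m => f (Int.ofNat m)
  · exact fb_eq _ fun m => f (Int.negSucc m)

theorem an_eq (a b : Bool) : an a b = true ↔ a = true ∧ b = true := by cases a <;> simp [an]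

theorem orr_eq (a b : Bool) : orr a b = true ↔ a = true ∨ b = true := by cases a <;> simp [orr]

theorem fo_ok {z : ℤ} {f : ℕ → Bool} (h : fo z f = true) :
    ∃ n : ℕ, (n : ℤ) = z + 1152921504606846976 ∧ f n = true := by
  cases z with
  | ofNat n => exact ⟨_, by simp [add_comm], (fb_eq _ _).symm.trans h⟩
  | negSucc n =>
    simp only [fo] at h
    cases e : Nat.ble n 1152921504606846975 with
    | false => rw [e] at h; cases h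
    | true =>
      rw [e] at h
      have := Nat.le_of_ble_eq_true e
      exact ⟨_, by rw [Nat.sub_eq]; omega, (fb_eq _ _).symm.trans h⟩

theorem al_ok {lo len : ℕ} {f : ℕ → Bool} (h : al lo len f = true) :
    ∀ x, lo ≤ x → x < lo + len → f x = true := by
  induction len with
  | zero => intro x h1 h2; omega
  | succ len ih =>
    obtain ⟨a, b⟩ := (an_eq _ _).1 h
    intro x h1 h2
    rcases Nat.lt_succ_iff_lt_or_eq.1 (show x < lo + len + 1 by omega) with h3 | h3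
    · exact ih b x h1 h3
    · rw [fb_eq] at a; exact h3 ▸ a

theorem mxn_eq (a b : ℕ) : mxn a b = max a b := by simp only [mxn, Nat.add_eq, Nat.sub_eq]; omega

theorem mnn_eq (a b : ℕ) : mnn a b = min a b := by simp only [mnn, Nat.sub_eq]; omega

/-- The four numbers represent the table. -/
def Rp (F : ℕ → ℕ → ℤ) (f₀ f₁ f₂ f₃ : ℕ) : Prop :=
  (f₀ : ℤ) = F 0 0 + 1152921504606846976 ∧ (f₁ : ℤ) = F 1 0 + 1152921504606846976 ∧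
    (f₂ : ℤ) = F 0 1 + 1152921504606846976 ∧ (f₃ : ℤ) = F 1 1 + 1152921504606846976

theorem four {P : ℕ → ℕ → Prop} (h₀ : P 0 0) (h₁ : P 1 0) (h₂ : P 0 1) (h₃ : P 1 1) :
    ∀ a ≤ 1, ∀ b ≤ 1, P a b := by
  intro a ha b hb
  interval_cases a <;> interval_cases b <;> assumption

variable {F W : ℕ → ℕ → ℤ} {μ Λ f₀ f₁ f₂ f₃ w₀ w₁ w₂ w₃ K : ℕ} {θ : Bool}

theorem lf_ok (hF : Rp F f₀ f₁ f₂ f₃) {a b A C : ℕ} (ha : a ≤ μ) (hb : b ≤ μ)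
    (h : lf μ Λ f₀ f₁ f₂ f₃ (f₃ + f₀ - (f₁ + f₂)) θ C a (μ - a) b (μ - b) A = true) :
    (A : ℤ) ≤ Λ * (L2 μ F θ a b + 1152921504606846976 * μ ^ 2) + C := by
  obtain ⟨e₀, e₁, e₂, e₃⟩ := hF
  have em : ((f₃ + f₀ - (f₁ + f₂) : ℕ) : ℤ) = max 0 (mx F) := by rw [mx]; omega
  simp only [lf, Nat.ble_eq, Nat.add_eq, Nat.mul_eq, Nat.sub_eq, Nat.sub_self, add_zero] at h
  generalize f₃ + f₀ - (f₁ + f₂) = m at em h
  rw [L2, ML2, ← em, gp]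
  cases θ
  · zify [ha, hb] at h
    rw [e₀, e₁, e₂, e₃] at h
    simp only [bz, Bool.false_eq_true, if_false]
    linarith
  · zify [ha, hb] at h
    rw [e₀, e₁, e₂, e₃] at h
    simp only [bz, if_true]
    linarith

theorem lf4_ok (hF : Rp F f₀ f₁ f₂ f₃) (hW : Rp W w₀ w₁ w₂ w₃) {a b D : ℕ} (ha : a < μ)
    (hb : b < μ) (h : lf4 μ Λ f₀ f₁ f₂ f₃ θ a b K D w₀ w₁ w₂ w₃ = true) : ∀ p ≤ 1, ∀ q ≤ 1,
    K * W p q + D ≤ Λ * (L2 μ F θ (a + p : ℕ) (b + q : ℕ) + 1152921504606846976 * μ ^ 2) := by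
  simp only [lf4, fb_eq, an_eq, Nat.add_eq, Nat.mul_eq, Nat.sub_eq] at h
  obtain ⟨h₀, h₁, h₂, h₃⟩ := h
  obtain ⟨e₀, e₁, e₂, e₃⟩ := hW
  have k₀ := lf_ok hF ha.le hb.le h₀
  have k₁ := lf_ok hF ha hb.le h₁
  have k₂ := lf_ok hF ha.le hb h₂
  have k₃ := lf_ok hF ha hb h₃
  push_cast at k₀ k₁ k₂ k₃
  rw [e₀] at k₀
  rw [e₁] at k₁
  rw [e₂] at k₂
  rw [e₃] at k₃
  refine four ?_ ?_ ?_ ?_ <;> push_cast <;> (try simp only [add_zero]) <;> linarith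

theorem rt_ok (hF : Rp F f₀ f₁ f₂ f₃) (hW : Rp W w₀ w₁ w₂ w₃) {E : ℕ}
    (h : rt Λ f₀ f₁ f₂ f₃ K E w₀ w₁ w₂ w₃ = true) :
    ∀ p ≤ 1, ∀ q ≤ 1, ∀ i ≤ 1, ∀ j ≤ 1, K * W p q + E ≤ Λ * F i j := by
  simp only [rt, fb_eq, mxn_eq, mnn_eq, Nat.ble_eq, Nat.add_eq, Nat.mul_eq] at h
  obtain ⟨e₀, e₁, e₂, e₃⟩ := hF
  obtain ⟨d₀, d₁, d₂, d₃⟩ := hW
  intro p hp q hq i hi j hj
  have a : W p q + 1152921504606846976 ≤ (max (max w₀ w₁) (max w₂ w₃) : ℕ) := by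
    revert p q; refine four ?_ ?_ ?_ ?_ <;> omega
  have b : ((min (min f₀ f₁) (min f₂ f₃) : ℕ) : ℤ) ≤ F i j + 1152921504606846976 := by
    revert i j; refine four ?_ ?_ ?_ ?_ <;> omega
  generalize max (max w₀ w₁) (max w₂ w₃) = M at a h
  generalize min (min f₀ f₁) (min f₂ f₃) = N at b h
  zify at h
  have a' := mul_le_mul_of_nonneg_left a (Int.natCast_nonneg K)
  have b' := mul_le_mul_of_nonneg_left b (Int.natCast_nonneg Λ)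
  linarith

theorem n4_ok {i j : ℕ} {k : ℕ → ℕ → ℕ → ℕ → Bool} (h : n4 F i j k = true) :
    ∃ f₀ f₁ f₂ f₃, Rp (fun a b => F (i + a) (j + b)) f₀ f₁ f₂ f₃ ∧ k f₀ f₁ f₂ f₃ = true := by
  obtain ⟨f₀, e₀, h⟩ := fo_ok h
  rw [fb_eq] at h
  obtain ⟨f₁, e₁, h⟩ := fo_ok h
  rw [fb_eq] at h
  obtain ⟨f₂, e₂, h⟩ := fo_ok h
  obtain ⟨f₃, e₃, h⟩ := fo_ok h
  exact ⟨f₀, f₁, f₂, f₃, ⟨e₀, e₁, e₂, e₃⟩, h⟩

theorem e4_eq (t : Tab) (x y j : ℕ) (k : ℤ → ℤ → ℤ → ℤ → Bool) :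
    e4 t x y j k = k (ev t [x, y] j [(0 : ℕ), (0 : ℕ)]) (ev t [x, y] j [(1 : ℕ), (0 : ℕ)])
      (ev t [x, y] j [(0 : ℕ), (1 : ℕ)]) (ev t [x, y] j [(1 : ℕ), (1 : ℕ)]) := by
  cases h : t.vis j [x, y] <;> simp [e4, ev, lin, Tab.co, h, fz_eq, add_assoc]

theorem h4_eq (t : Tab) (x y : ℕ) (k : ℤ → ℤ → ℤ → ℤ → Bool) :
    h4 t x y k = k (hx t [x, y] [(0 : ℕ), (0 : ℕ)]) (hx t [x, y] [(1 : ℕ), (0 : ℕ)])
      (hx t [x, y] [(0 : ℕ), (1 : ℕ)]) (hx t [x, y] [(1 : ℕ), (1 : ℕ)]) := by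
  unfold h4
  cases h : an (Nat.ble t.T x) (an (Nat.ble t.a₀ (Nat.succ (Nat.add x y)))
      (Nat.ble (Nat.succ (Nat.add x y)) t.a₁))
  · have z : ∀ l, hx t [x, y] l = 0 := fun l => by
      have h' := (Bool.not_eq_true _).mpr h
      simp only [an_eq, Nat.ble_eq, Nat.add_eq, Nat.succ_eq_add_one] at h'
      unfold hx
      split_ifs with e
      · simp only [List.all_cons, Bool.and_eq_true, decide_eq_true_eq] at e
        simp only [List.length_cons, List.length_nil, Tab.hm, Tab.hv, List.sum_cons, List.sum_nil]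
        rw [if_neg (by omega), if_neg (by omega), max_self]
      · rfl
    simp only [z]
  · rfl

theorem cf_ok {t : Tab} {c : Co} {x y e : ℕ} (hμ : 1 ≤ c.μ)
    (hF : Rp (fun a b => c.F2 (x / c.μ + a) (y / c.μ + b)) f₀ f₁ f₂ f₃)
    (hW : Rp (fun a b => mul2 x y * ev t [x, y] 0 [(a : ℕ), (b : ℕ)] +
      hx t [x, y] [(a : ℕ), (b : ℕ)]) w₀ w₁ w₂ w₃)
    (h : cf c.μ c.Λ f₀ f₁ f₂ f₃ (c.th [x, y] 2) (x % c.μ) (y % c.μ) w₀ w₁ w₂ w₃ e = true) :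
    c.CF t x y e := by
  simp only [cf, orr_eq, fb_eq, Nat.mul_eq, Nat.add_eq] at h
  rcases h with h | h
  · refine Or.inr fun a ha b hb i hi j hj => ?_
    have := rt_ok hF hW h a ha b hb i hi j hj
    push_cast at this ⊢
    linarith
  · refine Or.inl fun a ha b hb => ?_
    have := lf4_ok hF hW (Nat.mod_lt _ hμ) (Nat.mod_lt _ hμ) h a ha b hb
    simp only [Co.ps]
    generalize L2 _ _ _ _ _ = L at this ⊢
    push_cast at this ⊢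
    linarith

theorem cell_ok {t : Tab} {c : Co} {x y : ℕ} (hμ : 1 ≤ c.μ)
    (h : cell t c c.μ c.Λ x (x / c.μ) (x % c.μ) y = true) : c.C2 t x y := by
  have eu : ((Bool.rec 1 2 (Nat.beq x y) : ℕ) : ℤ) = mul2 x y := by
    cases e : Nat.beq x y
    · simp [mul2, Nat.ne_of_beq_eq_false e]
    · simp [mul2, Nat.eq_of_beq_eq_true e]
  have e₁ : Nat.div y c.μ = y / c.μ := rfl
  have e₂ : Nat.mod y c.μ = y % c.μ := rfl
  simp only [cell, fb_eq, e₁, e₂] at h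
  generalize (Bool.rec 1 2 (Nat.beq x y) : ℕ) = u at eu h
  obtain ⟨f₀, f₁, f₂, f₃, hF, h⟩ := n4_ok h
  obtain ⟨g₀, g₁, g₂, g₃, hG, h⟩ := n4_ok h
  rw [e4_eq, h4_eq] at h
  obtain ⟨w₀, a₀, h⟩ := fo_ok h
  obtain ⟨w₁, a₁, h⟩ := fo_ok h
  obtain ⟨w₂, a₂, h⟩ := fo_ok h
  obtain ⟨w₃, a₃, h⟩ := fo_ok h
  rw [e4_eq] at h
  obtain ⟨v₀, b₀, h⟩ := fo_ok h
  obtain ⟨v₁, b₁, h⟩ := fo_ok h
  obtain ⟨v₂, b₂, h⟩ := fo_ok h
  obtain ⟨v₃, b₃, h⟩ := fo_ok h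
  have hW : Rp (fun a b => mul2 x y * ev t [x, y] 0 [(a : ℕ), (b : ℕ)] +
      hx t [x, y] [(a : ℕ), (b : ℕ)]) w₀ w₁ w₂ w₃ := by
    rw [← eu]; exact ⟨a₀, a₁, a₂, a₃⟩
  have hV : Rp (fun a b => ev t [x, y] 1 [(a : ℕ), (b : ℕ)]) v₀ v₁ v₂ v₃ := ⟨b₀, b₁, b₂, b₃⟩
  rcases (orr_eq _ _).1 h with h | h <;> obtain ⟨h, h'⟩ := (an_eq _ _).1 h
  · refine Or.inr ⟨fun a ha b hb i hi j hj => ?_, cf_ok (e := 0) hμ hF hW h'⟩
    have := rt_ok hG hV h a ha b hb i hi j hj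
    rw [← eu]
    simp only [Nat.mul_eq] at this
    push_cast at this ⊢
    linarith
  · refine Or.inl ⟨fun a ha b hb => ?_, ?_⟩
    · have := lf4_ok hG hV (Nat.mod_lt _ hμ) (Nat.mod_lt _ hμ) h a ha b hb
      rw [← eu]
      simp only [Co.ps]
      simp only [Nat.mul_eq] at this
      generalize L2 _ _ _ _ _ = L at this ⊢
      push_cast at this ⊢
      linarith
    · have := cf_ok hμ hF hW h'
      obtain ⟨e₀, e₁, e₂, e₃⟩ := hG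
      convert this using 1
      simp only [slp, mxn_eq, Nat.add_eq, Nat.sub_eq] at e₀ e₁ e₂ e₃ ⊢
      omega

end K2

open K2

/-- The check of the pairs with the first cell in `[lo, lo + len)`. -/
noncomputable def k2 (t : Tab) (c : Co) (lo len : ℕ) : Bool :=
  fb c.μ fun μ => fb c.Λ fun Λ => fb t.Q fun Q => al lo len fun x =>
    fb (Nat.div x μ) fun i => fb (Nat.mod x μ) fun a => al x (Nat.sub Q x) (cell t c μ Λ x i a)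

theorem k2_ok {t : Tab} {c : Co} {lo len : ℕ} (hμ : 1 ≤ c.μ) (h : k2 t c lo len = true) :
    ∀ x y, lo ≤ x → x < lo + len → x ≤ y → y < t.Q → c.C2 t x y := by
  intro x y h1 h2 h3 h4
  simp only [k2, fb_eq] at h
  have := al_ok h x h1 h2
  exact cell_ok hμ (al_ok this y h3 (by rw [Nat.sub_eq]; omega))

end Pool.Agent.Lib.MP_4b1228_nt.PP.R5
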