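import Pool.Agent.Lib.MP_4b1228_nt.PP.Rnd

/-!
Lower bounds for means of functions of two or three rounded coordinates.
-/

open Finset
open scoped Classical

noncomputable section

namespace Pool.Agent.Lib.MP_4b1228_nt.PP.R5M

open Rnd

section poly

variable {R : Type*} [CommRing R]

/-- Bilinear interpolation. -/
def ml2 (F : ℕ → ℕ → R) (u v : R) : R :=
  F 0 0 * (1 - u) * (1 - v) + F 1 0 * u * (1 - v) + F 0 1 * (1 - u) * v + F 1 1 * u * v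

/-- Trilinear interpolation. -/
def ml3 (F : ℕ → ℕ → ℕ → R) (u v t : R) : R :=
  ml2 (fun a b => F a b 0) u v * (1 - t) + ml2 (fun a b => F a b 1) u v * t

/-- The mixed difference. -/
def mx (F : ℕ → ℕ → R) : R := F 1 1 - F 1 0 - F 0 1 + F 0 0

def gap (θ u v : R) : R := u * v - θ * (u + v - 1)

def lam2 (F : ℕ → ℕ → R) (m θ u v : R) : R := ml2 F u v - m * gap θ u v

def lam3 (F : ℕ → ℕ → ℕ → R) (m₁ m₂ m₃ θ₁ θ₂ θ₃ u v t : R) : R :=
  ml3 F u v t - m₁ * gap θ₁ u v - m₂ * gap θ₂ u t - m₃ * gap θ₃ v t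

end poly

variable {α : Type*}

/-- The bit of `i`. -/
def bt (T : Finset α) (i : α) : ℕ := if i ∈ T then 1 else 0

theorem bt_le (T : Finset α) (i : α) : bt T i ≤ 1 := by unfold bt; split_ifs <;> simp

/-- The probability that three coordinates are rounded up. -/
def up3 (s : Finset α) (k : ℕ) (w : Finset α → ℝ) (i j l : α) : ℝ :=
  ∑ T ∈ powersetCard k s with i ∈ T ∧ j ∈ T ∧ l ∈ T, w T

/-- The probability that three coordinates are rounded down. -/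
def dn3 (s : Finset α) (k : ℕ) (w : Finset α → ℝ) (i j l : α) : ℝ :=
  ∑ T ∈ powersetCard k s with i ∉ T ∧ j ∉ T ∧ l ∉ T, w T

variable {s : Finset α} {k : ℕ} {u : α → ℝ} {w : Finset α → ℝ} {i j l : α}

theorem unit (H : Law s k u w) (hi : i ∈ s) : 0 ≤ u i ∧ u i ≤ 1 := by
  obtain ⟨g0, g1, g2, -⟩ := H.both_bd hi hi
  exact ⟨g0.trans g2, by linarith⟩

theorem up3_nonneg (H : Law s k u w) : 0 ≤ up3 s k w i j l := sum_nonneg fun T _ => H.1 T

theorem dn3_nonneg (H : Law s k u w) : 0 ≤ dn3 s k w i j l := sum_nonneg fun T _ => H.1 T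

/-- One coordinate. -/
theorem one (H : Law s k u w) (hi : i ∈ s) (F : ℕ → ℝ) :
    ∑ T ∈ powersetCard k s, w T * F (bt T i) = F 0 * (1 - u i) + F 1 * u i := by
  have := H.one hi fun P => F (if P then 1 else 0)
  simp only [if_true, if_false] at this
  rw [show F 0 * (1 - u i) + F 1 * u i = F 0 + (F 1 - F 0) * u i by ring, ← this]
  exact sum_congr rfl fun T _ => by unfold bt; congr

theorem two (H : Law s k u w) (hi : i ∈ s) (hj : j ∈ s) (F : ℕ → ℕ → ℝ) :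
    ∑ T ∈ powersetCard k s, w T * F (bt T i) (bt T j) =
      ml2 F (u i) (u j) - mx F * (u i * u j - both s k w i j) := by
  have := H.two hi hj fun P P' => F (if P then 1 else 0) (if P' then 1 else 0)
  simp only [if_true, if_false] at this
  have e : ∑ T ∈ powersetCard k s, w T * F (bt T i) (bt T j) = _ :=
    (sum_congr rfl fun T _ => by unfold bt; congr).trans this
  rw [e, ml2, mx]
  ring

theorem three (H : Law s k u w) (hi : i ∈ s) (hj : j ∈ s) (hl : l ∈ s) (F : ℕ → ℕ → ℕ → ℝ) :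
    ∑ T ∈ powersetCard k s, w T * F (bt T i) (bt T j) (bt T l) =
      F 0 0 0 + (F 1 0 0 - F 0 0 0) * u i + (F 0 1 0 - F 0 0 0) * u j + (F 0 0 1 - F 0 0 0) * u l +
        mx (fun a b => F a b 0) * both s k w i j + mx (fun a b => F a 0 b) * both s k w i l +
        mx (fun a b => F 0 a b) * both s k w j l +
        (mx (fun a b => F a b 1) - mx (fun a b => F a b 0)) * up3 s k w i j l := by
  rw [← H.2.2 i hi, ← H.2.2 j hj, ← H.2.2 l hl, both, both, both, up3]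
  simp only [mul_sum, sum_filter]
  nth_rewrite 1 [← mul_one (F 0 0 0), ← H.2.1]
  rw [mul_sum]
  simp only [← sum_add_distrib]
  refine sum_congr rfl fun T _ => ?_
  by_cases h : i ∈ T <;> by_cases h' : j ∈ T <;> by_cases h'' : l ∈ T <;>
    simp [h, h', h'', bt, mx] <;> ring

theorem dn3_eq (H : Law s k u w) (hi : i ∈ s) (hj : j ∈ s) (hl : l ∈ s) :
    dn3 s k w i j l = 1 - u i - u j - u l + both s k w i j + both s k w i l + both s k w j l -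
      up3 s k w i j l := by
  have := three H hi hj hl fun a b c => if a = 0 ∧ b = 0 ∧ c = 0 then 1 else 0
  have e : dn3 s k w i j l = ∑ T ∈ powersetCard k s,
      w T * (if bt T i = 0 ∧ bt T j = 0 ∧ bt T l = 0 then 1 else 0) := by
    rw [dn3, sum_filter]
    refine sum_congr rfl fun T _ => ?_
    by_cases h : i ∈ T <;> by_cases h' : j ∈ T <;> by_cases h'' : l ∈ T <;> simp [h, h', h'', bt]
  rw [e, this]
  simp [mx]
  ring

theorem gap_ge (H : Law s k u w) (hi : i ∈ s) (hj : j ∈ s) {θ : ℝ} (h0 : 0 ≤ θ) (h1 : θ ≤ 1) :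
    u i * u j - both s k w i j ≤ gap θ (u i) (u j) := by
  obtain ⟨a0, a1, -, -⟩ := H.both_bd hi hj
  rw [gap]
  nlinarith [mul_nonneg h0 (sub_nonneg.2 a1), mul_nonneg (sub_nonneg.2 h1) a0]

theorem gap_nonneg {θ x y : ℝ} (h0 : 0 ≤ θ) (h1 : θ ≤ 1) (x0 : 0 ≤ x) (x1 : x ≤ 1) (y0 : 0 ≤ y)
    (y1 : y ≤ 1) : 0 ≤ gap θ x y := by
  rw [gap]
  nlinarith [mul_nonneg h0 (mul_nonneg (sub_nonneg.2 x1) (sub_nonneg.2 y1)),
    mul_nonneg (sub_nonneg.2 h1) (mul_nonneg x0 y0)]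

theorem lam2_le' (H : Law s k u w) (hi : i ∈ s) (hj : j ∈ s)
    (n : both s k w i j ≤ u i * u j) (F : ℕ → ℕ → ℝ) {m θ : ℝ} (m0 : 0 ≤ m) (m1 : mx F ≤ m)
    (h0 : 0 ≤ θ) (h1 : θ ≤ 1) :
    lam2 F m θ (u i) (u j) ≤ ∑ T ∈ powersetCard k s, w T * F (bt T i) (bt T j) := by
  rw [two H hi hj, lam2]
  have := gap_ge H hi hj h0 h1
  nlinarith [mul_nonneg m0 (sub_nonneg.2 this), mul_nonneg (sub_nonneg.2 m1) (sub_nonneg.2 n)]

theorem lam3_le' (H : Law s k u w) (hi : i ∈ s) (hj : j ∈ s) (hl : l ∈ s)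
    (n₁ : both s k w i j ≤ u i * u j) (n₂ : both s k w i l ≤ u i * u l)
    (n₃ : both s k w j l ≤ u j * u l) (n₄ : up3 s k w i j l ≤ u i * u j * u l)
    (n₅ : dn3 s k w i j l ≤ (1 - u i) * (1 - u j) * (1 - u l)) (F : ℕ → ℕ → ℕ → ℝ)
    {m₁ m₂ m₃ θ₁ θ₂ θ₃ : ℝ} (a₁ : 0 ≤ m₁) (a₂ : 0 ≤ m₂) (a₃ : 0 ≤ m₃)
    (b₁ : mx (fun a b => F a b 0) ≤ m₁) (c₁ : mx (fun a b => F a b 1) ≤ m₁)
    (b₂ : mx (fun a b => F a 0 b) ≤ m₂) (c₂ : mx (fun a b => F a 1 b) ≤ m₂)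
    (b₃ : mx (fun a b => F 0 a b) ≤ m₃) (c₃ : mx (fun a b => F 1 a b) ≤ m₃)
    (d₁ : 0 ≤ θ₁) (e₁ : θ₁ ≤ 1) (d₂ : 0 ≤ θ₂) (e₂ : θ₂ ≤ 1) (d₃ : 0 ≤ θ₃) (e₃ : θ₃ ≤ 1) :
    lam3 F m₁ m₂ m₃ θ₁ θ₂ θ₃ (u i) (u j) (u l) ≤
      ∑ T ∈ powersetCard k s, w T * F (bt T i) (bt T j) (bt T l) := by
  rw [dn3_eq H hi hj hl] at n₅
  have g₁ := mul_le_mul_of_nonneg_left (gap_ge H hi hj d₁ e₁) a₁
  have g₂ := mul_le_mul_of_nonneg_left (gap_ge H hi hl d₂ e₂) a₂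
  have g₃ := mul_le_mul_of_nonneg_left (gap_ge H hj hl d₃ e₃) a₃
  rw [three H hi hj hl, lam3]
  obtain ⟨c, hc⟩ : ∃ c, c = mx (fun a b => F a b 1) - mx (fun a b => F a b 0) := ⟨_, rfl⟩
  have f₁ : mx (fun a b => F a b 0) + c ≤ m₁ := by linarith
  have f₂ : mx (fun a b => F a 0 b) + c ≤ m₂ := by simp only [mx] at hc c₂ ⊢; linarith
  have f₃ : mx (fun a b => F 0 a b) + c ≤ m₃ := by simp only [mx] at hc c₃ ⊢; linarith
  have e : ml3 F (u i) (u j) (u l) =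
      F 0 0 0 + (F 1 0 0 - F 0 0 0) * u i + (F 0 1 0 - F 0 0 0) * u j + (F 0 0 1 - F 0 0 0) * u l +
        mx (fun a b => F a b 0) * (u i * u j) + mx (fun a b => F a 0 b) * (u i * u l) +
        mx (fun a b => F 0 a b) * (u j * u l) + c * (u i * u j * u l) := by
    rw [hc]; simp only [ml3, ml2, mx]; ring
  rw [e, ← hc]
  rcases le_total c 0 with h | h
  · nlinarith [mul_nonneg (sub_nonneg.2 b₁) (sub_nonneg.2 n₁),
      mul_nonneg (sub_nonneg.2 b₂) (sub_nonneg.2 n₂), mul_nonneg (sub_nonneg.2 b₃) (sub_nonneg.2 n₃),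
      mul_nonneg (neg_nonneg.2 h) (sub_nonneg.2 n₄)]
  · nlinarith [mul_nonneg (sub_nonneg.2 f₁) (sub_nonneg.2 n₁),
      mul_nonneg (sub_nonneg.2 f₂) (sub_nonneg.2 n₂), mul_nonneg (sub_nonneg.2 f₃) (sub_nonneg.2 n₃),
      mul_nonneg h (sub_nonneg.2 n₅)]

theorem quarter (H : Law s k u w) (hi : i ∈ s) (hj : j ∈ s) (n : both s k w i j ≤ u i * u j)
    {a b : ℝ} (b0 : 0 ≤ b) (hb : a ≤ b) : a * (u i * u j - both s k w i j) ≤ b / 4 := by
  have := (abs_le.1 (H.cov hi hj)).1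
  nlinarith [mul_nonneg (sub_nonneg.2 hb) (sub_nonneg.2 n),
    mul_nonneg b0 (show 0 ≤ 1 / 4 - (u i * u j - both s k w i j) by linarith)]

/-- One coordinate and the factor `ρ + u l`. -/
theorem rlam1_le' (H : Law s k u w) (hi : i ∈ s) (hl : l ∈ s) (n : both s k w i l ≤ u i * u l)
    (B : ℕ → ℝ) (ρ : ℝ) {b : ℝ} (b0 : 0 ≤ b) (hb : B 1 - B 0 ≤ b) :
    (ρ + u l) * (B 0 * (1 - u i) + B 1 * u i) ≤
      ∑ T ∈ powersetCard k s, w T * ((ρ + bt T l) * B (bt T i)) + b / 4 := by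
  have := two H hi hl fun a c => (ρ + c) * B a
  have q := quarter H hi hl n b0 hb
  rw [this]
  simp only [ml2, mx, Nat.cast_zero, Nat.cast_one]
  nlinarith

/-- Two coordinates and the factor `ρ + u l`. -/
theorem rlam2_le' (H : Law s k u w) (hi : i ∈ s) (hj : j ∈ s) (hl : l ∈ s)
    (n₁ : both s k w i j ≤ u i * u j) (n₂ : both s k w i l ≤ u i * u l)
    (n₃ : both s k w j l ≤ u j * u l) (n₄ : up3 s k w i j l ≤ u i * u j * u l)
    (B : ℕ → ℕ → ℝ) {ρ m θ b₁ b₂ : ℝ} (hρ : 0 ≤ ρ) (m0 : 0 ≤ m) (m1 : mx B ≤ m) (h0 : 0 ≤ θ)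
    (h1 : θ ≤ 1) (a₁ : 0 ≤ b₁) (c₁ : B 1 0 - B 0 0 ≤ b₁) (d₁ : B 1 1 - B 0 1 ≤ b₁)
    (a₂ : 0 ≤ b₂) (c₂ : B 0 1 - B 0 0 ≤ b₂) (d₂ : B 1 1 - B 1 0 ≤ b₂) :
    (ρ + u l) * lam2 B m θ (u i) (u j) ≤
      ∑ T ∈ powersetCard k s, w T * ((ρ + bt T l) * B (bt T i) (bt T j)) + (b₁ + b₂) / 4 := by
  have e : ∑ T ∈ powersetCard k s, w T * ((ρ + bt T l) * B (bt T i) (bt T j)) =
      ρ * ∑ T ∈ powersetCard k s, w T * B (bt T i) (bt T j) +
        ∑ T ∈ powersetCard k s, w T * (bt T l * B (bt T i) (bt T j)) := by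
    rw [mul_sum, ← sum_add_distrib]
    exact sum_congr rfl fun T _ => by ring
  have p := mul_le_mul_of_nonneg_left (lam2_le' H hi hj n₁ B m0 m1 h0 h1) hρ
  have t := three H hi hj hl fun a b c => (c : ℝ) * B a b
  simp only [mx, Nat.cast_zero, Nat.cast_one] at t
  have q₁ := quarter H hi hl n₂ a₁ c₁
  have q₂ := quarter H hj hl n₃ a₂ c₂
  have r₁ := quarter H hi hl n₂ a₁ d₁
  have r₂ := quarter H hj hl n₃ a₂ d₂
  obtain ⟨x0, x1⟩ := unit H hi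
  obtain ⟨y0, y1⟩ := unit H hj
  obtain ⟨z0, -⟩ := unit H hl
  have g := gap_nonneg h0 h1 x0 x1 y0 y1
  have u0 : 0 ≤ up3 s k w i j l := up3_nonneg H
  have u1 : 0 ≤ u l - both s k w i l - both s k w j l + up3 s k w i j l := by
    have := three H hi hj hl fun a b c => if a = 0 ∧ b = 0 ∧ c = 1 then 1 else 0
    have h : 0 ≤ ∑ T ∈ powersetCard k s,
        w T * (if bt T i = 0 ∧ bt T j = 0 ∧ bt T l = 1 then (1 : ℝ) else 0) :=
      sum_nonneg fun T _ => mul_nonneg (H.1 T) (by positivity)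
    rw [this] at h
    simp [mx] at h
    linarith
  rw [e, t, add_mul]
  suffices h : u l * lam2 B m θ (u i) (u j) ≤ B 0 0 * u l + (B 1 0 - B 0 0) * both s k w i l +
      (B 0 1 - B 0 0) * both s k w j l + mx B * up3 s k w i j l + (b₁ + b₂) / 4 by
    rw [mx] at h; linarith
  have el : lam2 B m θ (u i) (u j) = B 0 0 + (B 1 0 - B 0 0) * u i + (B 0 1 - B 0 0) * u j +
      mx B * (u i * u j) - m * gap θ (u i) (u j) := by simp only [lam2, ml2, mx]; ring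
  rw [el]
  rcases le_total (mx B) 0 with h | h
  · nlinarith [mul_nonneg (neg_nonneg.2 h) (sub_nonneg.2 n₄), mul_nonneg z0 (mul_nonneg m0 g)]
  · have k₁ : B 1 1 - B 0 1 = B 1 0 - B 0 0 + mx B := by rw [mx]; ring
    have k₂ : B 1 1 - B 1 0 = B 0 1 - B 0 0 + mx B := by rw [mx]; ring
    rw [k₁] at r₁
    rw [k₂] at r₂
    have s₁ := mul_nonneg z0 (mul_nonneg (sub_nonneg.2 m1) g)
    have s₂ := mul_nonneg (sub_nonneg.2 h1) (mul_nonneg h u0)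
    have s₃ := mul_nonneg h0 (mul_nonneg h u1)
    have s₄ := mul_le_mul_of_nonneg_left (add_le_add q₁ q₂) (sub_nonneg.2 h1)
    have s₅ := mul_le_mul_of_nonneg_left (add_le_add r₁ r₂) h0
    rw [gap] at s₁ ⊢
    nlinarith

/-- A mean is at least the smallest value. -/
theorem ge (H : Law s k u w) {F : Finset α → ℝ} {c : ℝ} (h : ∀ T ∈ powersetCard k s, c ≤ F T) :
    c ≤ ∑ T ∈ powersetCard k s, w T * F T := by
  calc c = ∑ T ∈ powersetCard k s, w T * c := by rw [← sum_mul, H.2.1, one_mul]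
    _ ≤ _ := sum_le_sum fun T hT => mul_le_mul_of_nonneg_left (h T hT) (H.1 T)

end Pool.Agent.Lib.MP_4b1228_nt.PP.R5M
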