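import Pool.Agent.Lib.MP_4b1228_nt.PP.R4Pa

/-!
Symmetrisation of sums over ordered tuples.
-/

open Finset

namespace Pool.Agent.Lib.MP_4b1228_nt.PP.R5Y

open R4

/-- The number of permutations fixing a sorted list of length at most three. -/
def mult : List ℕ → ℕ
  | [c, d] => if c = d then 2 else 1
  | [c, d, e] => if c = d then (if d = e then 6 else 2) else if d = e then 2 else 1
  | _ => 1

/-- Sorted lists of length at most three. -/
def srt : List ℕ → Bool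
  | [c, d] => decide (c ≤ d)
  | [c, d, e] => decide (c ≤ d) && decide (d ≤ e)
  | _ => true

/-- Six times the weight. -/
def w6 (cs : List ℕ) : ℕ := if srt cs then 6 / mult cs else 0

/-- The weight: `1 / mult` on sorted lists, zero otherwise. -/
noncomputable def wt (cs : List ℕ) : ℝ := if srt cs then 1 / (mult cs : ℝ) else 0

theorem mult_cases (cs : List ℕ) : mult cs = 1 ∨ mult cs = 2 ∨ mult cs = 6 := by
  unfold mult
  split
  · split_ifs <;> simp
  · split_ifs <;> simp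
  · simp

theorem mult_pos (cs : List ℕ) : 0 < mult cs := by
  rcases mult_cases cs with h | h | h <;> omega

theorem wt_eq (cs : List ℕ) : wt cs = (w6 cs : ℝ) / 6 := by
  unfold wt w6
  split_ifs
  · rcases mult_cases cs with h | h | h <;> rw [h] <;> norm_num
  · simp

theorem wt_nonneg (cs : List ℕ) : 0 ≤ wt cs := by
  rw [wt_eq]; positivity

theorem w6_two (c d : ℕ) : w6 [c, d] + w6 [d, c] = 6 := by
  simp only [w6, srt, mult, decide_eq_true_eq]
  split_ifs <;> omega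

theorem w6_three (c d e : ℕ) : w6 [c, d, e] + w6 [c, e, d] + w6 [d, c, e] + w6 [d, e, c] +
    w6 [e, c, d] + w6 [e, d, c] = 6 := by
  have q : ∀ x y z : ℕ, w6 [x, y, z] = if x ≤ y ∧ y ≤ z then
      (if x = z then 1 else if x = y ∨ y = z then 3 else 6) else 0 := fun x y z => by
    simp only [w6, srt, mult, Bool.and_eq_true, decide_eq_true_eq]
    split_ifs <;> omega
  have r : ∀ x y z : ℕ, (w6 [x, y, z] = 6 ∧ x < y ∧ y < z) ∨ (w6 [x, y, z] = 3 ∧ x = y ∧ y < z) ∨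
      (w6 [x, y, z] = 3 ∧ x < y ∧ y = z) ∨ (w6 [x, y, z] = 1 ∧ x = y ∧ y = z) ∨
      (w6 [x, y, z] = 0 ∧ (y < x ∨ z < y)) := fun x y z => by
    rw [q]
    split_ifs <;> omega
  have r1 := r c d e
  have r2 := r c e d
  have r3 := r d c e
  have r4 := r d e c
  have r5 := r e c d
  have r6 := r e d c
  omega

theorem wt_two (c d : ℕ) : wt [c, d] + wt [d, c] = 1 := by
  have : ((w6 [c, d] + w6 [d, c] : ℕ) : ℝ) = 6 := by rw [w6_two]; norm_num
  push_cast at this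
  simp only [wt_eq]
  linarith

theorem wt_three (c d e : ℕ) : wt [c, d, e] + wt [c, e, d] + wt [d, c, e] + wt [d, e, c] +
    wt [e, c, d] + wt [e, d, c] = 1 := by
  have : ((w6 [c, d, e] + w6 [c, e, d] + w6 [d, c, e] + w6 [d, e, c] + w6 [e, c, d] +
      w6 [e, d, c] : ℕ) : ℝ) = 6 := by rw [w6_three]; norm_num
  push_cast at this
  simp only [wt_eq]
  linarith

section sums

variable {β : Type} [AddCommMonoid β]

theorem t2 (Φ : List ℕ → β) (S : Finset ℕ) :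
    tupL 2 Φ S = ∑ p ∈ S, ∑ q ∈ S.erase p, Φ [p, q] := rfl

theorem t3 (Φ : List ℕ → β) (S : Finset ℕ) :
    tupL 3 Φ S = ∑ p ∈ S, ∑ q ∈ S.erase p, ∑ r ∈ (S.erase p).erase q, Φ [p, q, r] := rfl

theorem sw (F : ℕ → ℕ → β) (S : Finset ℕ) :
    ∑ p ∈ S, ∑ q ∈ S.erase p, F p q = ∑ p ∈ S, ∑ q ∈ S.erase p, F q p :=
  sum_comm' fun p q => by simp only [mem_erase]; tauto

/-- The sum over ordered triples of distinct elements. -/
def s3 (F : ℕ → ℕ → ℕ → β) (S : Finset ℕ) : β :=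
  ∑ p ∈ S, ∑ q ∈ S.erase p, ∑ r ∈ (S.erase p).erase q, F p q r

theorem s3_23 (F : ℕ → ℕ → ℕ → β) (S : Finset ℕ) : s3 (fun p q r => F p r q) S = s3 F S :=
  sum_congr rfl fun p _ => (sw (F p) (S.erase p)).symm

theorem s3_12 (F : ℕ → ℕ → ℕ → β) (S : Finset ℕ) : s3 (fun p q r => F q p r) S = s3 F S := by
  unfold s3
  rw [sw (fun p q => ∑ r ∈ (S.erase p).erase q, F p q r)]
  exact sum_congr rfl fun p _ => sum_congr rfl fun q _ => by rw [erase_right_comm]

theorem s3_add (F G : ℕ → ℕ → ℕ → β) (S : Finset ℕ) :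
    s3 (fun p q r => F p q r + G p q r) S = s3 F S + s3 G S := by
  simp only [s3, sum_add_distrib]

theorem two (Φ : List ℕ → β) (S : Finset ℕ) :
    ∑ p ∈ S, ∑ q ∈ S.erase p, (Φ [p, q] + Φ [q, p]) = 2 • tupL 2 Φ S := by
  simp only [sum_add_distrib]
  rw [← sw (fun p q => Φ [p, q]), t2, two_nsmul]

theorem six (Φ : List ℕ → β) (S : Finset ℕ) :
    s3 (fun p q r => Φ [p, q, r] + Φ [p, r, q] + Φ [q, p, r] + Φ [q, r, p] + Φ [r, p, q] +
      Φ [r, q, p]) S = 6 • tupL 3 Φ S := by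
  have e0 : s3 (fun p q r => Φ [p, q, r]) S = tupL 3 Φ S := rfl
  have e1 : s3 (fun p q r => Φ [p, r, q]) S = tupL 3 Φ S := s3_23 (fun p q r => Φ [p, q, r]) S
  have e2 : s3 (fun p q r => Φ [q, p, r]) S = tupL 3 Φ S := s3_12 (fun p q r => Φ [p, q, r]) S
  have e3 : s3 (fun p q r => Φ [q, r, p]) S = tupL 3 Φ S :=
    (s3_12 (fun p q r => Φ [p, r, q]) S).trans e1
  have e4 : s3 (fun p q r => Φ [r, p, q]) S = tupL 3 Φ S :=
    (s3_23 (fun p q r => Φ [q, p, r]) S).trans e2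
  have e5 : s3 (fun p q r => Φ [r, q, p]) S = tupL 3 Φ S :=
    (s3_12 (fun p q r => Φ [r, p, q]) S).trans e4
  rw [s3_add, s3_add, s3_add, s3_add, s3_add, e0, e1, e2, e3, e4, e5]
  abel

end sums

/-- The general form for pairs. -/
theorem perm2 {Φ Ψ : List ℕ → ℝ} {S : Finset ℕ}
    (h : ∀ p ∈ S, ∀ q ∈ S, p ≠ q → Φ [p, q] + Φ [q, p] ≤ Ψ [p, q]) :
    tupL 2 Φ S ≤ tupL 2 Ψ S / 2 := by
  have h1 := two Φ S
  have h2 : ∑ p ∈ S, ∑ q ∈ S.erase p, (Φ [p, q] + Φ [q, p]) ≤ tupL 2 Ψ S :=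
    sum_le_sum fun p hp => sum_le_sum fun q hq =>
      h p hp q (mem_of_mem_erase hq) (ne_of_mem_erase hq).symm
  rw [h1, nsmul_eq_mul] at h2
  push_cast at h2
  linarith

/-- The general form for triples. -/
theorem perm3 {Φ Ψ : List ℕ → ℝ} {S : Finset ℕ}
    (h : ∀ p ∈ S, ∀ q ∈ S, ∀ r ∈ S, p ≠ q → p ≠ r → q ≠ r → Φ [p, q, r] + Φ [p, r, q] +
      Φ [q, p, r] + Φ [q, r, p] + Φ [r, p, q] + Φ [r, q, p] ≤ Ψ [p, q, r]) :
    tupL 3 Φ S ≤ tupL 3 Ψ S / 6 := by
  have h1 := six Φ S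
  have h2 : s3 (fun p q r => Φ [p, q, r] + Φ [p, r, q] + Φ [q, p, r] + Φ [q, r, p] + Φ [r, p, q] +
      Φ [r, q, p]) S ≤ tupL 3 Ψ S :=
    sum_le_sum fun p hp => sum_le_sum fun q hq => sum_le_sum fun r hr =>
      h p hp q (mem_of_mem_erase hq) r (mem_of_mem_erase (mem_of_mem_erase hr))
        (ne_of_mem_erase hq).symm (ne_of_mem_erase (mem_of_mem_erase hr)).symm
        (ne_of_mem_erase hr).symm
  rw [h1, nsmul_eq_mul] at h2
  push_cast at h2
  linarith

/-- Symmetrisation. -/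
theorem sym {k : ℕ} (hk : k < 4) (cls : ℕ → ℕ) {Φ Ψ : List ℕ → ℝ} {S : Finset ℕ}
    (hΨ : ∀ l l' : List ℕ, l.Perm l' → l.length = k → l.Nodup → (∀ p ∈ l, p ∈ S) → Ψ l' = Ψ l)
    (h : ∀ l : List ℕ, l.length = k → l.Nodup → (∀ p ∈ l, p ∈ S) → Φ l ≤ wt (l.map cls) * Ψ l) :
    tupL k Φ S ≤ tupL k Ψ S / k.factorial := by
  refine (Pt.tupL_le k _ _ S h).trans ?_
  interval_cases k
  · simp [tupL, wt, srt, mult]
  · simp [tupL, wt, srt, mult]
  · refine (perm2 (Ψ := Ψ) fun p hp q hq n => le_of_eq ?_).trans_eq (by norm_num)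
    simp only [List.map]
    rw [hΨ [p, q] [q, p] (List.Perm.swap _ _ _) rfl (by simp [n]) (by simp [hp, hq]), ← add_mul,
      wt_two, one_mul]
  · refine (perm3 (Ψ := Ψ) fun p hp q hq r hr n1 n2 n3 => le_of_eq ?_).trans_eq
      (by norm_num [Nat.factorial])
    have H : ∀ l', [p, q, r].Perm l' → Ψ l' = Ψ [p, q, r] := fun l' e =>
      hΨ _ _ e rfl (by simp [n1, n2, n3]) (by simp [hp, hq, hr])
    have a : ∀ x y z : ℕ, [x, y, z].Perm [y, x, z] := fun x y z => List.Perm.swap _ _ _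
    have b : ∀ x y z : ℕ, [x, y, z].Perm [x, z, y] := fun x y z => (List.Perm.swap _ _ _).cons _
    simp only [List.map]
    rw [H _ (b p q r), H _ (a p q r), H _ ((a p q r).trans (b q p r)),
      H _ ((b p q r).trans (a p r q)), H _ (((b p q r).trans (a p r q)).trans (b r p q))]
    linear_combination Ψ [p, q, r] * wt_three (cls p) (cls q) (cls r)

/-- Sums over subsets as sums over tuples. -/
theorem sub_eq (k : ℕ) (h : Finset ℕ → ℝ) (S : Finset ℕ) :
    ∑ K ∈ powersetCard k S, h K = tupL k (fun l => h l.toFinset) S / k.factorial := by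
  rw [Pt.tupL_sym, mul_div_cancel_left₀ _ (by positivity)]

/-- Sums over subsets as sums over sorted tuples. -/
theorem sub_wt {k : ℕ} (hk : k < 4) (cls : ℕ → ℕ) (h : Finset ℕ → ℝ) (S : Finset ℕ) :
    ∑ K ∈ powersetCard k S, h K = tupL k (fun l => wt (l.map cls) * h l.toFinset) S := by
  have e : ∀ h : Finset ℕ → ℝ, tupL k (fun l => wt (l.map cls) * h l.toFinset) S ≤
      ∑ K ∈ powersetCard k S, h K := fun h => by
    rw [sub_eq]
    exact sym hk cls (fun l l' a _ _ _ => by rw [List.toFinset_eq_of_perm _ _ a])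
      fun _ _ _ _ => le_rfl
  refine le_antisymm ?_ (e h)
  have h1 := e fun K => -h K
  have h2 := Pt.tupL_mul (-1) k (fun l => wt (l.map cls) * h l.toFinset) S
  simp only [mul_neg, neg_mul, one_mul, sum_neg_distrib] at h1 h2
  linarith

/-- The equality form. -/
theorem sym_eq {k : ℕ} (hk : k < 4) (cls : ℕ → ℕ) {Ψ : List ℕ → ℝ} {S : Finset ℕ}
    (hΨ : ∀ l l' : List ℕ, l.Perm l' → l.length = k → l.Nodup → (∀ p ∈ l, p ∈ S) → Ψ l' = Ψ l) :
    tupL k (fun l => wt (l.map cls) * Ψ l) S = tupL k Ψ S / k.factorial := by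
  refine le_antisymm (sym hk cls hΨ fun _ _ _ _ => le_rfl) ?_
  have h1 := sym hk cls (Ψ := fun l => -Ψ l) (Φ := fun l => wt (l.map cls) * -Ψ l) (S := S)
    (fun l l' a b c d => by rw [hΨ l l' a b c d]) fun _ _ _ _ => le_rfl
  have h2 := Pt.tupL_mul (-1) k (fun l => wt (l.map cls) * Ψ l) S
  have h3 := Pt.tupL_mul (-1) k Ψ S
  simp only [mul_neg, neg_mul, one_mul] at h1 h2 h3
  rw [h2, h3, neg_div] at h1
  linarith

end Pool.Agent.Lib.MP_4b1228_nt.PP.R5Y
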