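import Pool.Agent.Lib.MP_4b1228_nt.PP.R5S
import Pool.Agent.Lib.MP_4b1228_nt.PP.R5Y
import Pool.Agent.Lib.MP_4b1228_nt.PP.R4Pt4

/-!
Certificates on two scales: the bound for one configuration.
-/

open Finset Real
open scoped Classical

noncomputable section

namespace Pool.Agent.Lib.MP_4b1228_nt.PP.R5

open R3 R4 R4.Pt R5M R5Y

namespace Pt

lemma W_long (c : Co) (G0 : ℕ → ℤ) (G1 : ℕ → ℕ → ℤ) (R : ℕ) : ∀ (cs δs : List ℕ), 4 ≤ cs.length →
    c.W G0 G1 R cs δs = 0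
  | _ :: _ :: _ :: _ :: _, _, _ => by simp [Co.W]
  | [], _, h | [_], _, h | [_, _], _, h | [_, _, _], _, h => by simp at h

lemma W_swap {c : Co} {t : Tab} (hc : c.Ok t) (G0 : ℕ → ℤ) (G1 : ℕ → ℕ → ℤ) (R : ℕ) (X δ : ℕ → ℕ)
    (a b : ℕ) : ∀ P l : List ℕ, c.W G0 G1 R ((P ++ a :: b :: l).map X) ((P ++ a :: b :: l).map δ) =
      c.W G0 G1 R ((P ++ b :: a :: l).map X) ((P ++ b :: a :: l).map δ)
  | [], [] => by
    obtain ⟨-, -, -, -, -, -, -, h1, h2, -⟩ := hc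
    simp only [List.nil_append, List.map, Co.W, h1 (X a + δ a), h2 (X a + δ a), and_comm]
  | [], [d] => by
    obtain ⟨-, -, -, -, -, -, -, -, -, h1, -⟩ := hc
    simp only [List.nil_append, List.map, Co.W, (h1 (X a + δ a) _ _).1, and_left_comm]
  | [d], [] => by
    obtain ⟨-, -, -, -, -, -, -, -, -, h1, -⟩ := hc
    simp only [List.cons_append, List.nil_append, List.map, Co.W, (h1 _ (X a + δ a) _).2, and_comm]
  | [], _ :: _ :: _ | [_], _ :: _ | _ :: _ :: _, _ => by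
    rw [W_long, W_long] <;> simp <;> omega

lemma W_perm {c : Co} {t : Tab} (hc : c.Ok t) (G0 : ℕ → ℤ) (G1 : ℕ → ℕ → ℤ) (R : ℕ) (X δ : ℕ → ℕ)
    {l l' : List ℕ} (h : l.Perm l') : ∀ P : List ℕ,
    c.W G0 G1 R ((P ++ l).map X) ((P ++ l).map δ) =
      c.W G0 G1 R ((P ++ l').map X) ((P ++ l').map δ) := by
  induction h with
  | nil => exact fun _ => rfl
  | cons a _ ih =>
    intro P
    simpa only [List.append_assoc, List.singleton_append] using ih (P ++ [a])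
  | swap a b l => exact fun P => W_swap hc G0 G1 R X δ b a P l
  | trans _ _ i1 i2 => exact fun P => (i1 P).trans (i2 P)

lemma vis_le {q : ℕ} : ∀ {l : List ℕ} {M N : ℕ}, visB q l M N = true →
    M ≤ q ∧ N ≤ q ∧ ∀ b ∈ l, b ≤ q
  | [], M, N, h => by simp [visB] at h; simp; omega
  | b :: l, M, N, h => by
    rcases Bool.or_eq_true_iff.1 h with h | h <;> obtain ⟨a1, a2, a3⟩ := vis_le h <;>
      exact ⟨by omega, by omega, List.forall_mem_cons.2 ⟨by omega, a3⟩⟩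

lemma AE_zero (t : Tab) (ys : List ℝ) (r : ℝ)
    (h : ∀ j b, t.co (ys.map fun y : ℝ => ⌊y⌋₊) j b = 0) : t.AE ys r = 0 := by
  have e : ∀ (j : ℕ) (us : List ℝ) (i : ℕ), lin (t.co (ys.map fun y : ℝ => ⌊y⌋₊) j) us i = 0 := by
    intro j us
    induction us <;> simp [lin, *]
  simp [Tab.AE, h, e]

lemma AE_inv (t : Tab) (ys : List ℝ) (r : ℝ) {y : ℝ} (hy : y ∈ ys) (h : t.Q ≤ ⌊y⌋₊) :
    t.AE ys r = 0 :=
  AE_zero t ys r fun j b => if_neg fun g => by
    have := (vis_le g).2.2 _ (List.mem_append_left _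
      (List.mem_map_of_mem (List.mem_map_of_mem hy)))
    omega

lemma Hs_eq (t : Tab) (x : ℕ → ℝ) (l : List ℕ) (hl : l.Nodup) (h : ∀ p ∈ l, 0 ≤ x p) :
    Hs t x l.toFinset = Hv t (l.map x) := by
  unfold Hs Hv
  rw [win_eq t x l hl h]
  simp only [List.mem_toFinset, List.forall_mem_map, List.map_map, Function.comp_def]

lemma Hv_far (t : Tab) {ys : List ℝ} (h : (∀ y ∈ ys, (t.T : ℝ) ≤ y) → (t.a₁ : ℝ) ≤ ys.sum) :
    Hv t ys = 0 := by
  unfold Hv Tab.hv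
  split_ifs with a b
  · exact absurd (Nat.le_floor (h a)) (not_le.2 b.2)
  · rfl
  · rfl

/-- The index set. -/
abbrev ix (B : Finset ℕ) : Finset (Option (Option ℕ)) := insertNone (insertNone B)

def uu (B : Finset ℕ) (x : ℕ → ℝ) (r : ℝ) : Option (Option ℕ) → ℝ
  | none => ⌈r + ∑ p ∈ B, x p⌉₊ - (r + ∑ p ∈ B, x p)
  | some none => fr r
  | some (some p) => fr (x p)

variable {N : Cls (Option (Option ℕ))}

lemma exists_nd (hN : ExS N) (B : Finset ℕ) (x : ℕ → ℝ) {r : ℝ} (hx : ∀ p ∈ B, 0 ≤ x p)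
    (hr : 0 ≤ r) : ∃ k w, N (ix B) k (uu B x r) w ∧ ∀ T ∈ powersetCard k (ix B),
      ⌊r⌋₊ + bt T (some none) + ∑ p ∈ B, (⌊x p⌋₊ + bt T (some (some p))) + bt T none =
        ⌈r + ∑ p ∈ B, x p⌉₊ := by
  have A0 : 0 ≤ r + ∑ p ∈ B, x p := add_nonneg hr (sum_nonneg hx)
  set n := ⌊r⌋₊ + ∑ p ∈ B, ⌊x p⌋₊ with hn
  have hnA : (n : ℝ) ≤ r + ∑ p ∈ B, x p := by
    rw [hn]; push_cast
    exact add_le_add (Nat.floor_le hr) (sum_le_sum fun p hp => Nat.floor_le (hx p hp))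
  have hn2 : n ≤ ⌈r + ∑ p ∈ B, x p⌉₊ := by exact_mod_cast hnA.trans (Nat.le_ceil _)
  have hu : ∀ i ∈ ix B, 0 ≤ uu B x r i ∧ uu B x r i ≤ 1 := by
    rintro (_ | _ | p) hi
    · exact ⟨by simp only [uu]; linarith [Nat.le_ceil (r + ∑ p ∈ B, x p)],
        by simp only [uu]; linarith [Nat.ceil_lt_add_one A0]⟩
    · exact ⟨(Pt.fr_mem hr).1, (Pt.fr_mem hr).2.le⟩
    · have hp : p ∈ B := by simpa using hi
      exact ⟨(Pt.fr_mem (hx p hp)).1, (Pt.fr_mem (hx p hp)).2.le⟩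
  have hsum : ∑ i ∈ ix B, uu B x r i = ((⌈r + ∑ p ∈ B, x p⌉₊ - n : ℕ) : ℝ) := by
    rw [sum_insertNone, sum_insertNone, Nat.cast_sub hn2, hn]
    simp only [uu, fr, sum_sub_distrib]
    push_cast
    ring
  obtain ⟨w, H⟩ := hN.2 _ _ _ hu hsum
  refine ⟨_, w, H, fun T hT => ?_⟩
  obtain ⟨h1, h2⟩ := mem_powersetCard.1 hT
  have : ∑ i ∈ ix B, bt T i = T.card := by
    have e : (ix B).filter (· ∈ T) = T := by rw [filter_mem_eq_inter, inter_eq_right.2 h1]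
    rw [← congrArg card e, card_filter]
    exact sum_congr rfl fun i _ => by unfold bt; congr
  rw [sum_insertNone, sum_insertNone, h2] at this
  rw [sum_add_distrib]
  omega

lemma vis_iff {c : Co} {t : Tab} (hc : c.Ok t) (y : ℝ) : ⌊y / c.μ⌋₊ < c.Q ↔ ⌊y⌋₊ < t.Q := by
  rw [Nat.floor_div_natCast, Nat.div_lt_iff_lt_mul hc.1, hc.2.2.1, mul_comm]

lemma wt_two {a b : ℕ} (h : a ≤ b) {A H E : ℝ} (e : (mul2 a b : ℝ) * A + H ≤ E) :
    60 * A + 0 + 60 * (wt [a, b] * H) ≤ wt [a, b] * (60 * E) := by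
  simp only [wt, srt, mult, mul2, h, decide_true, if_true] at e ⊢
  split_ifs at e ⊢ <;> push_cast at e ⊢ <;> linarith

lemma wt_three {a b d : ℕ} (h : a ≤ b) (h' : b ≤ d) {A H E : ℝ} (e : (mul3 a b d : ℝ) * A + H ≤ E) :
    60 * A + 0 + 60 * (wt [a, b, d] * H) ≤ wt [a, b, d] * (60 * E) := by
  simp only [wt, srt, mult, mul3, h, h', decide_true, Bool.and_self, if_true] at e ⊢
  split_ifs at e ⊢ <;> push_cast at e ⊢ <;> linarith

/-- One tuple. -/
lemma term (h0 : T0S N) (h1 : T1S N) (hI : TIS N) (h2 : T2S N) (h3 : T3S N) {t : Tab} {c : Co}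
    (ht : t.Ok) (hc : c.Ok t) (hL : c.Loc t) {B : Finset ℕ} {x : ℕ → ℝ} {r : ℝ} {k : ℕ}
    {w : Finset (Option (Option ℕ)) → ℝ}
    (H : N (ix B) k (uu B (fun p => x p / c.μ) (r / c.μ)) w)
    (hx : ∀ p ∈ B, (t.Z : ℝ) ≤ x p ∧ x p < c.μ * c.Θ) (hr : 0 ≤ r) {G0 : ℕ → ℤ} {G1 : ℕ → ℕ → ℤ}
    (g0 : c.C0 t G0 ⌊r⌋₊) (g1 : ∀ p ∈ B, ⌊x p⌋₊ < t.Q → ∃ n, c.C1 t G1 n ⌊x p⌋₊ ⌊r⌋₊) :
    ∀ l : List ℕ, l.length < 4 → l.Nodup → (∀ p ∈ l, p ∈ B) →
    60 * t.AE (l.map x) r + Sl t x r l + 60 * (wt (l.map fun p => ⌊x p⌋₊) * Hs t x l.toFinset) ≤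
      wt (l.map fun p => ⌊x p⌋₊) * (l.length.factorial * (10 * c.Λ) *
        ∑ T ∈ powersetCard k (ix B), w T * (c.W G0 G1 (⌊r / c.μ⌋₊ + bt T (some none))
          (l.map fun p => ⌊x p / c.μ⌋₊) (l.map fun p => bt T (some (some p))) : ℝ)) := by
  intro l hl hn hB
  have x0 : ∀ p ∈ B, 0 ≤ x p := fun p hp => (Nat.cast_nonneg _).trans (hx p hp).1
  have xz : ∀ p ∈ B, t.Z ≤ ⌊x p⌋₊ := fun p hp => Nat.le_floor (hx p hp).1
  have m0 : some none ∈ ix B := by simp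
  have m1 : ∀ p ∈ B, some (some p) ∈ ix B := fun p hp => by simpa using hp
  have sc : ∀ (a : ℝ) (f g : Finset (Option (Option ℕ)) → ℝ), (∀ T, f T = a * g T) →
      ∑ T ∈ powersetCard k (ix B), w T * f T = a * ∑ T ∈ powersetCard k (ix B), w T * g T :=
    fun a f g e => by rw [mul_sum]; exact sum_congr rfl fun T _ => by rw [e]; ring
  have ha : (t.a₁ : ℝ) ≤ t.Q + t.T := by exact_mod_cast hc.2.2.2.2.2.2.1
  have T0 : (0 : ℝ) ≤ t.T := Nat.cast_nonneg _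
  rw [Hs_eq t x l hn fun p hp => x0 p (hB p hp)]
  match l, hl, hn, hB with
  | [], _, _, _ =>
    have a1 := h0 t c _ _ _ _ ht hc H _ m0 r hr rfl G0 g0
    have a2 : Hv t [] = 0 := by
      have := ht.2.2.2.2.2.2.1
      simp [Hv, Tab.hv]; omega
    simp only [List.map_nil, a2, Sl, wt, srt, mult, List.length_nil, Nat.factorial]
    rw [sc 6 _ (fun T => G0 (⌊r / c.μ⌋₊ + bt T (some none))) fun T => by simp [Co.W]]
    push_cast
    linarith
  | [p], _, _, hB =>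
    have hp := hB p List.mem_cons_self
    simp only [List.map_cons, List.map_nil, Sl, wt, srt, mult, List.length_singleton,
      Nat.factorial]
    by_cases v : ⌊x p⌋₊ < t.Q
    · obtain ⟨n, g⟩ := g1 p hp v
      have a1 := h1 t c _ _ _ _ ht hc H _ (m1 p hp) _ m0 (by simp) (x p) r (x0 p hp) hr rfl rfl G1 n g
      rw [sc 6 _ (fun T => G1 (⌊x p / c.μ⌋₊ + bt T (some (some p))) (⌊r / c.μ⌋₊ + bt T (some none)))
        fun T => by simp [Co.W, (vis_iff hc _).2 v]]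
      push_cast
      linarith
    · have a1 := hI t c _ _ _ _ ht hc H _ (m1 p hp) (x p) r
        ((Nat.le_floor_iff (x0 p hp)).1 (not_lt.1 v)) hr rfl (hL.ci _ (not_lt.1 v)
          ((Nat.floor_lt (x0 p hp)).2 (by exact_mod_cast (hx p hp).2)))
      rw [sc 6 _ (fun T => c.inv (⌊x p / c.μ⌋₊ + bt T (some (some p))))
        fun T => by simp [Co.W, mt (vis_iff hc _).1 v]]
      push_cast
      linarith
  | [p, q], _, hn, hB =>
    have hp := hB p (by simp)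
    have hq := hB q (by simp)
    have n1 : p ≠ q := by simpa using hn
    simp only [List.map_cons, List.map_nil, Sl]
    by_cases s : ⌊x p⌋₊ ≤ ⌊x q⌋₊
    · by_cases v : ⌊x q⌋₊ < t.Q
      · have a1 := h2 t c _ _ _ _ ht hc H _ (m1 p hp) _ (m1 q hq) _ m0 (by simpa using n1) (by simp)
          (by simp) (x p) (x q) r (x0 p hp) (x0 q hq) hr rfl rfl rfl (hL.c2 _ _ (xz p hp) s v)
        refine (wt_two s a1).trans (le_of_eq ?_)
        rw [sc 3 (fun T => (c.W _ _ _ _ _ : ℝ)) (fun T =>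
          (c.F2 (⌊x p / c.μ⌋₊ + bt T (some (some p))) (⌊x q / c.μ⌋₊ + bt T (some (some q))) : ℝ) +
            ((⌊r / c.μ⌋₊ + bt T (some none) : ℕ) : ℝ) * c.B2 (⌊x p / c.μ⌋₊ + bt T (some (some p)))
              (⌊x q / c.μ⌋₊ + bt T (some (some q)))) fun T => by
          simp only [Co.W, (vis_iff hc _).2 v, (vis_iff hc _).2 (s.trans_lt v), and_self, if_true]
          push_cast
          rfl]
        simp only [List.length_cons, List.length_nil, Nat.factorial]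
        push_cast
        ring
      · have a1 : (t.Q : ℝ) ≤ x q := (Nat.le_floor_iff (x0 q hq)).1 (not_lt.1 v)
        rw [AE_inv t _ r (y := x q) (by simp) (not_lt.1 v), Hv_far t fun h => by
          have := h (x p) (by simp)
          simp only [List.sum_cons, List.sum_nil]
          linarith]
        simp [Co.W, mt (vis_iff hc _).1 v]
    · rw [AE_zero t _ r fun j b => by
        simp [Tab.co, hc.2.2.2.2.2.2.2.2.2.2.1 _ _ j b (Or.inl (not_le.1 s))]]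
      simp [wt, srt, s]
  | [p, q, u], _, hn, hB =>
    have hp := hB p (by simp)
    have hq := hB q (by simp)
    have hu := hB u (by simp)
    have n1 : (p ≠ q ∧ p ≠ u) ∧ q ≠ u := by simpa using hn
    simp only [List.map_cons, List.map_nil, Sl]
    by_cases s : ⌊x p⌋₊ ≤ ⌊x q⌋₊ ∧ ⌊x q⌋₊ ≤ ⌊x u⌋₊
    · by_cases v : ⌊x u⌋₊ < t.Q
      · have a1 := h3 t c _ _ _ _ ht hc H _ (m1 p hp) _ (m1 q hq) _ (m1 u hu) (by simpa using n1.1.1)
          (by simpa using n1.1.2) (by simpa using n1.2) (x p) (x q) (x u) r (x0 p hp) (x0 q hq)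
          (x0 u hu) rfl rfl rfl (hL.c3 _ _ _ (xz p hp) s.1 s.2 v)
        refine (wt_three s.1 s.2 a1).trans (le_of_eq ?_)
        simp only [Co.W, (vis_iff hc _).2 v, (vis_iff hc _).2 (s.2.trans_lt v),
          (vis_iff hc _).2 (s.1.trans_lt (s.2.trans_lt v)), and_self, if_true]
        norm_num [Nat.factorial]
        ring_nf
        simp
      · have a1 : (t.Q : ℝ) ≤ x u := (Nat.le_floor_iff (x0 u hu)).1 (not_lt.1 v)
        rw [AE_inv t _ r (y := x u) (by simp) (not_lt.1 v), Hv_far t fun h => by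
          have := h (x p) (by simp)
          have := x0 q hq
          simp only [List.sum_cons, List.sum_nil]
          linarith]
        simp [Co.W, mt (vis_iff hc _).1 v]
    · rw [AE_zero t _ r fun j b => by
        simp [Tab.co, hc.2.2.2.2.2.2.2.2.2.2.2 ⌊x p⌋₊ ⌊x q⌋₊ ⌊x u⌋₊ j b (by omega)]]
      have : srt [⌊x p⌋₊, ⌊x q⌋₊, ⌊x u⌋₊] = false := by simpa [srt] using s
      simp [wt, this]
  | _ :: _ :: _ :: _ :: _, hl, _, _ => simp at hl; omega

end Pt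

end Pool.Agent.Lib.MP_4b1228_nt.PP.R5
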