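import Pool.Agent.Lib.MP_4b1228_nt.PP.R5Pa

/-!
Certificates on two scales: the local conditions and the check of the patterns suffice.
-/

open Finset Real
open scoped Classical

noncomputable section

namespace Pool.Agent.Lib.MP_4b1228_nt.PP.R5

open R3 R4 R4.Pt R5M R5Y

namespace Pt

variable {N : Cls (Option (Option ℕ))}

lemma G_le (h0 : T0S N) (h1 : T1S N) (hI : TIS N) (h2 : T2S N) (h3 : T3S N) {t : Tab} {c : Co}
    (ht : t.Ok) (hc : c.Ok t) (hL : c.Loc t) {x : ℕ → ℝ} {S : Finset ℕ} {k : ℕ}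
    {w : Finset (Option (Option ℕ)) → ℝ}
    (H : N (ix (t.big x S)) k (uu (t.big x S) (fun p => x p / c.μ) (rr t.Z x S / c.μ)) w)
    (hx : ∀ p ∈ t.big x S, (t.Z : ℝ) ≤ x p ∧ x p < c.μ * c.Θ) (hr : 0 ≤ rr t.Z x S)
    {G0 : ℕ → ℤ} {G1 : ℕ → ℕ → ℤ} (g0 : c.C0 t G0 ⌊rr t.Z x S⌋₊)
    (g1 : ∀ p ∈ t.big x S, ⌊x p⌋₊ < t.Q → ∃ n, c.C1 t G1 n ⌊x p⌋₊ ⌊rr t.Z x S⌋₊) :
    t.G x S ≤ ∑ T ∈ powersetCard k (ix (t.big x S)), w T * (c.Λ / 6 * (∑ j ∈ range 4, tupL j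
      (fun l => c.W G0 G1 (⌊rr t.Z x S / c.μ⌋₊ + bt T (some none)) (l.map fun p => ⌊x p / c.μ⌋₊)
        (l.map fun p => bt T (some (some p)))) (t.big x S) : ℤ)) := by
  have e := G_eq t ht x S
  set B := t.big x S
  set r := rr t.Z x S
  have e1 : ∀ j ∈ range 4, tupL j (fun l => 60 * t.AE (l.map x) r + Sl t x r l +
      60 / (l.length.factorial : ℝ) * Hs t x l.toFinset) B ≤
      10 * c.Λ * ∑ T ∈ powersetCard k (ix B), w T * tupL j (fun l => (c.W G0 G1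
        (⌊r / c.μ⌋₊ + bt T (some none)) (l.map fun p => ⌊x p / c.μ⌋₊)
        (l.map fun p => bt T (some (some p))) : ℝ)) B := by
    intro j hj
    have hj := mem_range.1 hj
    have f0 : (j.factorial : ℝ) ≠ 0 := by positivity
    have a1 : tupL j (fun l => 60 / (l.length.factorial : ℝ) * Hs t x l.toFinset) B =
        tupL j (fun l => 60 * (wt (l.map fun p => ⌊x p⌋₊) * Hs t x l.toFinset)) B := by
      rw [tupL_mul, ← sub_wt hj, sub_eq, ← mul_div_assoc, mul_div_right_comm, ← tupL_mul]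
      exact le_antisymm (tupL_le _ _ _ _ fun l h _ _ => by rw [h])
        (tupL_le _ _ _ _ fun l h _ _ => by rw [h])
    rw [tupL_add, a1, ← tupL_add]
    refine (sym hj (fun p => ⌊x p⌋₊) (Ψ := fun l => j.factorial * (10 * c.Λ) *
      ∑ T ∈ powersetCard k (ix B), w T * (c.W G0 G1 (⌊r / c.μ⌋₊ + bt T (some none))
        (l.map fun p => ⌊x p / c.μ⌋₊) (l.map fun p => bt T (some (some p))) : ℝ))
      (fun l l' p _ _ _ => ?_) fun l a b d => ?_).trans (le_of_eq ?_)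
    · congr 1
      refine sum_congr rfl fun T _ => ?_
      have := W_perm hc G0 G1 (⌊r / c.μ⌋₊ + bt T (some none)) (fun p => ⌊x p / c.μ⌋₊)
        (fun p => bt T (some (some p))) p []
      simp only [List.nil_append] at this
      rw [this]
    · have := term h0 h1 hI h2 h3 ht hc hL H hx hr g0 g1 l (a ▸ hj) b d
      rwa [a] at this
    · rw [tupL_mul, tupL_sum]
      field_simp
  have e2 := sum_le_sum e1
  rw [← e, ← mul_sum, sum_comm] at e2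
  simp only [Int.cast_sum, tupL_cast]
  have e3 : ∀ f : Finset (Option (Option ℕ)) → ℕ → ℝ,
      ∑ T ∈ powersetCard k (ix B), w T * (c.Λ / 6 * ∑ j ∈ range 4, f T j) =
        c.Λ / 6 * ∑ T ∈ powersetCard k (ix B), ∑ j ∈ range 4, w T * f T j := fun f => by
    rw [mul_sum]
    exact sum_congr rfl fun T _ => by rw [← mul_sum]; ring
  rw [e3]
  linarith

lemma FV_bd (c : Co) (n : ℕ) : ∃ C : ℝ, ∀ (s : Finset ℕ) (x δ : ℕ → ℕ) (R : ℕ), s.card ≤ n →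
    (∀ p ∈ s, x p ≤ n ∧ δ p ≤ n) → R ≤ n → (c.FV s x δ R : ℝ) ≤ C := by
  have h : ∀ G0 G1, ∃ C : ℝ, ∀ (s : Finset ℕ) (x δ : ℕ → ℕ) (R : ℕ), s.card ≤ n →
      (∀ p ∈ s, x p ≤ n ∧ δ p ≤ n) → R ≤ n → ((∑ k ∈ range 4, tupL k (fun l =>
        c.W G0 G1 R (l.map x) (l.map δ)) s : ℤ) : ℝ) ≤ C := by
    intro G0 G1
    obtain ⟨C, hC⟩ := FW_bd (fun cs δs R _ => c.W G0 G1 R cs (δs.map Int.toNat)) n
    refine ⟨C, fun s x δ R a b d => ?_⟩
    simpa only [FW, List.map_map, Function.comp_def, Int.toNat_natCast] using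
      hC s x δ R 0 a b d (Nat.zero_le _)
  obtain ⟨C₁, h₁⟩ := h c.P0 c.P1
  obtain ⟨C₂, h₂⟩ := h c.P0 c.F1
  obtain ⟨C₃, h₃⟩ := h c.F0 c.P1
  obtain ⟨C₄, h₄⟩ := h c.F0 c.F1
  refine ⟨max (max C₁ C₂) (max C₃ C₄), fun s x δ R a b d => ?_⟩
  unfold Co.FV
  split_ifs
  · exact (h₁ s x δ R a b d).trans (le_max_of_le_left (le_max_left _ _))
  · exact (h₂ s x δ R a b d).trans (le_max_of_le_left (le_max_right _ _))
  · exact (h₃ s x δ R a b d).trans (le_max_of_le_right (le_max_left _ _))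
  · exact (h₄ s x δ R a b d).trans (le_max_of_le_right (le_max_right _ _))

lemma G_bd (t : Tab) (ht : t.Ok) : ∃ C : ℝ, ∀ (x : ℕ → ℝ) (S : Finset ℕ), (∀ p ∈ S, 0 < x p) →
    ∑ p ∈ S, x p ≤ 2 * (t.Q : ℝ) + 1 → t.G x S ≤ C := by
  obtain ⟨C₀, hC₀⟩ := R4.Pt.FV_bd t (2 * t.Q + 1)
  obtain ⟨C, -, hC⟩ := pt_core (Q := t.Q) (Z := t.Z) (Θ := 0) (G := t.G)
    (F := fun s c δ ρ δ₀ => (FV t s c δ ρ δ₀ : ℝ) / 60) (b := C₀ / 60) ht.1 (ht.1.trans ht.2.1)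
    ⟨C₀ / 60, fun s c δ ρ δ₀ a b d e => by linarith [hC₀ s c δ ρ δ₀ a b d e]⟩
    (fun s c δ ρ δ₀ a b d => by
      have e : s = ∅ := eq_empty_of_forall_notMem fun p hp => absurd (a p hp).2.1 (Nat.not_lt_zero _)
      subst e
      linarith [hC₀ ∅ c δ ρ δ₀ (by simp) (by simp) (by omega) (by omega)])
    (fun x S hS P w δ δ₀ d H => by
      have := R4.Pt.G_le t ht hS H
      simp only [← mul_div_assoc, ← sum_div]
      unfold Tab.big at this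
      linarith)
  exact ⟨C, fun x S a b => (hC x S a b).1⟩

theorem core (hN : ExS N) (h0 : T0S N) (h1 : T1S N) (hI : TIS N) (h2 : T2S N) (h3 : T3S N)
    {t : Tab} {c : Co} {b : ℤ} (ht : t.Ok) (hc : c.Ok t) (hL : c.Loc t) (hb : c.Lat b) :
    ∃ C : ℝ, (c.Λ : ℝ) * b ≤ C ∧ ∀ (x : ℕ → ℝ) (S : Finset ℕ), (∀ p ∈ S, 0 < x p) →
      ∑ p ∈ S, x p ≤ 2 * (t.Q : ℝ) + 1 → t.G x S ≤ C ∧ ∀ κ : ℝ, 0 < κ → κ < 1 →
        (∀ p ∈ S, x p < (c.μ * c.Θ : ℕ) - κ) → 2 * t.Q - κ ≤ ∑ p ∈ S, x p →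
        ∑ p ∈ S, x p ≤ 2 * t.Q + κ → t.G x S ≤ c.Λ * b + (C - c.Λ * b) * κ := by
  obtain ⟨C₁, hC₁⟩ := G_bd t ht
  obtain ⟨C₂, hC₂⟩ := FV_bd c (2 * t.Q + 2)
  set C := max (max C₁ (c.Λ / 6 * C₂)) (c.Λ * b) with hC
  have hCb : 0 ≤ C - c.Λ * b := sub_nonneg.2 (le_max_right _ _)
  refine ⟨C, le_max_right _ _, fun x S hS hs => ⟨(hC₁ x S hS hs).trans
    (le_max_of_le_left (le_max_left _ _)), fun κ κ0 κ1 a1 a2 a3 => ?_⟩⟩
  have hμ : (1 : ℝ) ≤ c.μ := by exact_mod_cast hc.1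
  have μ0 : (0 : ℝ) < c.μ := by linarith
  have eQ : (t.Q : ℝ) = c.μ * c.Q := by exact_mod_cast hc.2.2.1
  have eZ : (t.Z : ℝ) = c.μ * c.Z := by exact_mod_cast hc.2.2.2.1
  have hQ : 1 ≤ c.Q := by
    have := ht.1.trans ht.2.1
    rw [hc.2.2.1] at this
    exact Nat.pos_of_mul_pos_left this
  have hΘ : ((c.μ * (2 * c.Q - c.Θ) : ℕ) : ℝ) = 2 * t.Q - (c.μ * c.Θ : ℕ) := by
    push_cast [Nat.cast_sub hc.2.2.2.2.2.1, eQ]
    ring
  have hx : ∀ p ∈ t.big x S, (t.Z : ℝ) ≤ x p ∧ x p < (c.μ * c.Θ : ℕ) - κ := fun p hp =>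
    ⟨(mem_filter.1 hp).2, a1 p (mem_filter.1 hp).1⟩
  have hr : 0 ≤ rr t.Z x S := sum_nonneg fun p hp => (hS p (mem_filter.1 hp).1).le
  have hA : rr t.Z x S + ∑ p ∈ t.big x S, x p = ∑ p ∈ S, x p := by
    rw [← sum_filter_add_sum_filter_not S (fun p => x p < (t.Z : ℝ))]
    simp only [not_lt]; rfl
  have hG := fun k w H G0 G1 g0 g1 => G_le h0 h1 hI h2 h3 ht hc hL (x := x) (S := S) (k := k) (w := w)
    H (fun p hp => ⟨(hx p hp).1, by have := (hx p hp).2; push_cast at this; linarith⟩) hr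
    (G0 := G0) (G1 := G1) g0 g1
  generalize t.big x S = B at *
  generalize rr t.Z x S = r at *
  generalize ∑ p ∈ S, x p = A at *
  have Z1 : (1 : ℝ) ≤ t.Z := by exact_mod_cast ht.1
  have x0 : ∀ p ∈ B, 0 ≤ x p := fun p hp => by linarith [(hx p hp).1]
  have hB0 : 0 ≤ ∑ p ∈ B, x p := sum_nonneg x0
  obtain ⟨k, w, H, htot⟩ := exists_nd hN B (fun p => x p / c.μ) (r := r / c.μ)
    (fun p hp => div_nonneg (x0 p hp) μ0.le) (div_nonneg hr μ0.le)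
  have eA : r / c.μ + ∑ p ∈ B, x p / c.μ = A / c.μ := by rw [← sum_div, ← add_div, hA]
  have fl : ∀ (y : ℝ) (n : ℕ), 0 ≤ y → y ≤ n + κ → ⌊y⌋₊ ≤ n := fun y n y0 hy =>
    Nat.lt_succ_iff.1 ((Nat.floor_lt y0).2 (by push_cast; linarith))
  have fa : ∀ y : ℝ, 0 ≤ y → ⌊y⌋₊ + ⌊r⌋₊ ≤ ⌊y + r⌋₊ := fun y y0 => Nat.le_floor (by
    push_cast; linarith [Nat.floor_le y0, Nat.floor_le hr])
  have big : ∀ q ∈ B, c.Q ≤ ⌊x q / c.μ⌋₊ → (t.Q : ℝ) ≤ x q := fun q hq h =>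
    (Nat.le_floor_iff (x0 q hq)).1 (not_lt.1 (mt (vis_iff hc _).2 (not_lt.2 h)))
  have hG' : t.G x S ≤ ∑ T ∈ powersetCard k (ix B), w T * (c.Λ / 6 * (c.FV B (fun p => ⌊x p / c.μ⌋₊)
      (fun p => bt T (some (some p))) (⌊r / c.μ⌋₊ + bt T (some none)) : ℝ)) := by
    refine hG k w H _ _ ?_ fun p hp v => ?_
    · split_ifs with h
      · obtain ⟨⟨q, hq, b1⟩, b2⟩ := h
        obtain ⟨q', rfl⟩ := card_eq_one.1 b2
        obtain rfl := mem_singleton.1 hq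
        rw [sum_singleton] at hA
        refine hL.p0 _ (fl _ _ hr (by linarith [big q hq b1])) (Nat.le_floor ?_)
        rw [hΘ]
        linarith [(hx q hq).2]
      · exact hL.c0 _ (fl _ _ hr (by push_cast; linarith))
    · have xz : t.Z ≤ ⌊x p⌋₊ := Nat.le_floor (hx p hp).1
      split_ifs with h
      · obtain ⟨⟨q, hq, b1⟩, b2⟩ := h
        have n1 : p ≠ q := by
          rintro rfl
          exact absurd ((vis_iff hc _).2 v) (not_lt.2 b1)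
        have e : B = {p, q} := (eq_of_subset_of_card_le (insert_subset hp (singleton_subset_iff.2 hq))
          (by rw [b2, card_pair n1])).symm
        rw [e, sum_pair n1] at hA
        refine ⟨1, hL.p1 _ _ xz v ((fa _ (x0 p hp)).trans (fl _ _ (add_nonneg (x0 p hp) hr)
          (by linarith [big q hq b1]))) ?_⟩
        have : ((c.μ * (2 * c.Q - c.Θ) : ℕ) : ℝ) < ⌊x p⌋₊ + ⌊r⌋₊ + 2 := by
          rw [hΘ]
          linarith [(hx q hq).2, Nat.lt_floor_add_one (x p), Nat.lt_floor_add_one r]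
        exact_mod_cast this
      · refine ⟨0, hL.c1 _ _ xz v ((fa _ (x0 p hp)).trans (fl _ _ (add_nonneg (x0 p hp) hr) ?_))⟩
        push_cast
        linarith [single_le_sum x0 hp]
  have L := hN.1 _ _ _ _ H
  have dv : ∀ y : ℝ, 0 ≤ y → y ≤ A → ⌊y / c.μ⌋₊ ≤ 2 * t.Q := fun y y0 hy =>
    fl _ _ (div_nonneg y0 μ0.le) ((div_le_self y0 hμ).trans (by push_cast; linarith))
  have hcard : B.card ≤ 2 * t.Q + 2 := by
    have b1 : (B.card : ℝ) * 1 ≤ ∑ p ∈ B, x p := by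
      rw [← nsmul_eq_mul]
      exact card_nsmul_le_sum _ _ _ fun p hp => Z1.trans (hx p hp).1
    have : (B.card : ℝ) ≤ 2 * t.Q + 2 := by linarith
    exact_mod_cast this
  have Λ0 : (0 : ℝ) ≤ c.Λ / 6 := by positivity
  have hF : ∀ T, c.Λ / 6 * (c.FV B (fun p => ⌊x p / c.μ⌋₊) (fun p => bt T (some (some p)))
      (⌊r / c.μ⌋₊ + bt T (some none)) : ℝ) ≤ C := fun T => by
    refine le_trans (mul_le_mul_of_nonneg_left (hC₂ _ _ _ _ hcard (fun p hp => ⟨?_, ?_⟩) ?_) Λ0)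
      (le_max_of_le_left (le_max_right _ _))
    · exact (dv _ (x0 p hp) (by linarith [single_le_sum x0 hp])).trans (by omega)
    · exact (bt_le _ _).trans (by omega)
    · have := dv r hr (by linarith)
      have := bt_le T (some none)
      omega
  have mean : ∀ {c₀ c₁ : ℝ}, (∀ T ∈ powersetCard k (ix B), c.Λ / 6 * (c.FV B (fun p => ⌊x p / c.μ⌋₊)
      (fun p => bt T (some (some p))) (⌊r / c.μ⌋₊ + bt T (some none)) : ℝ) ≤ c₀ + c₁ * bt T none) →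
      t.G x S ≤ c₀ + c₁ * (⌈A / c.μ⌉₊ - A / c.μ) := by
    intro c₀ c₁ h
    have e := one L (i := none) (by simp) fun a => c₀ + c₁ * a
    simp only [uu, eA] at e
    refine hG'.trans ((sum_le_sum fun T hT => mul_le_mul_of_nonneg_left (h T hT) (L.1 T)).trans
      (e.trans ?_).le)
    push_cast
    ring
  have good : ∀ T ∈ powersetCard k (ix B), 2 * c.Q + bt T none = ⌈A / c.μ⌉₊ →
      c.Λ / 6 * (c.FV B (fun p => ⌊x p / c.μ⌋₊) (fun p => bt T (some (some p)))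
        (⌊r / c.μ⌋₊ + bt T (some none)) : ℝ) ≤ c.Λ * b := by
    intro T hT h
    have b1 := htot T hT
    rw [eA] at b1
    have b2 := hb B (fun p => ⌊x p / c.μ⌋₊) (fun p => bt T (some (some p)))
      (⌊r / c.μ⌋₊ + bt T (some none)) (fun p hp => ⟨Nat.le_floor ?_,
        (Nat.floor_lt (div_nonneg (x0 p hp) μ0.le)).2 ?_, bt_le _ _⟩) (by omega)
    · have b3 := mul_le_mul_of_nonneg_left ((Int.cast_le (R := ℝ)).2 b2) Λ0
      push_cast at b3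
      linarith
    · rw [le_div_iff₀' μ0, ← eZ]
      exact (hx p hp).1
    · have := (hx p hp).2
      rw [div_lt_iff₀' μ0]
      push_cast at this
      linarith
  have hQ' : (1 : ℝ) ≤ c.Q := by exact_mod_cast hQ
  have k1 : κ / c.μ ≤ κ := div_le_self κ0.le hμ
  have d1 : 2 * c.Q - κ ≤ A / c.μ := by
    have : 2 * c.Q - κ / c.μ ≤ A / c.μ := by
      rw [le_div_iff₀ μ0, sub_mul, div_mul_cancel₀ _ μ0.ne']; linarith
    linarith
  have d2 : A / c.μ ≤ 2 * c.Q + κ := by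
    have : A / c.μ ≤ 2 * c.Q + κ / c.μ := by
      rw [div_le_iff₀ μ0, add_mul, div_mul_cancel₀ _ μ0.ne']; linarith
    linarith
  generalize A / c.μ = A' at *
  rcases le_or_gt A' (2 * c.Q) with h | h
  · have e : ⌈A'⌉₊ = 2 * c.Q := by
      rw [Nat.ceil_eq_iff (by omega), Nat.cast_sub (by omega)]
      push_cast
      exact ⟨by linarith, h⟩
    have := mean (c₀ := c.Λ * b) (c₁ := C - c.Λ * b) fun T hT => by
      rcases Nat.le_one_iff_eq_zero_or_eq_one.1 (bt_le T none) with e0 | e0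
      · simpa [e0] using good T hT (by omega)
      · simpa [e0] using hF T
    rw [e] at this
    push_cast at this
    nlinarith
  · have e : ⌈A'⌉₊ = 2 * c.Q + 1 := by
      rw [Nat.ceil_eq_iff (by omega), Nat.add_sub_cancel]
      push_cast
      exact ⟨h, by linarith⟩
    have := mean (c₀ := C) (c₁ := c.Λ * b - C) fun T hT => by
      rcases Nat.le_one_iff_eq_zero_or_eq_one.1 (bt_le T none) with e0 | e0
      · simpa [e0] using hF T
      · simpa [e0] using good T hT (by omega)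
    rw [e] at this
    push_cast at this
    nlinarith

end Pt

variable {N : Cls (Option (Option ℕ))}

theorem pt6N (hR : RowQStmt) (hP : PStmt) (hN : ExS N) (h0 : T0S N) (h1 : T1S N) (hI : TIS N)
    (h2 : T2S N) (h3 : T3S N) : Pt6Stmt := by
  intro t c b v θ ht hc hL hb hv hv' hθ a1 a2
  refine pt_end' hR hP (Θ := c.μ * c.Θ) (ht.1.trans ht.2.1) (Pt.core hN h0 h1 hI h2 h3 ht hc hL hb) hv
    hv' ?_ ?_ ?_
  · rw [hc.2.2.1]
    push_cast
    nlinarith [(Nat.cast_nonneg c.μ : (0 : ℝ) ≤ c.μ)]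
  · rw [hc.2.2.1]
    exact Nat.mul_lt_mul_of_pos_left a1 hc.1
  · rw [hc.2.2.1, mul_left_comm, mul_left_comm 3]
    exact Nat.mul_lt_mul_of_pos_left a2 hc.1

theorem pt5N (hN : ExS N) (h0 : T0S N) (h1 : T1S N) (hI : TIS N) (h2 : T2S N) (h3 : T3S N) :
    Pt5Stmt := by
  intro t c b v θ ht hc hL hb hv hv' hθ
  obtain ⟨C, -, H⟩ := Pt.core hN h0 h1 hI h2 h3 ht hc hL hb
  have hθ' : θ * t.Q < (c.μ * c.Θ : ℕ) := by
    have : (0 : ℝ) < c.μ := by exact_mod_cast hc.1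
    rw [hc.2.2.1]
    push_cast
    nlinarith
  obtain ⟨κ, κ0, κ1, κ2, κ3⟩ : ∃ κ : ℝ, 0 < κ ∧ κ < 1 ∧ θ * t.Q + 2 * κ < (c.μ * c.Θ : ℕ) ∧
      c.Λ * b + (C - c.Λ * b) * κ < v := by
    have c1 : ∀ᶠ κ : ℝ in nhds 0, κ < 1 := eventually_lt_nhds one_pos
    have c2 : ∀ᶠ κ : ℝ in nhds 0, θ * t.Q + 2 * κ < (c.μ * c.Θ : ℕ) :=
      ContinuousAt.eventually_lt (by fun_prop) (by fun_prop) (by simpa using hθ')
    have c3 : ∀ᶠ κ : ℝ in nhds 0, c.Λ * b + (C - c.Λ * b) * κ < v :=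
      ContinuousAt.eventually_lt (by fun_prop) (by fun_prop) (by simpa using hv')
    obtain ⟨κ, ⟨a, b, c⟩, d⟩ := (((c1.and (c2.and c3)).filter_mono nhdsWithin_le_nhds).and
      (self_mem_nhdsWithin (s := Set.Ioi (0 : ℝ)))).exists
    exact ⟨κ, d, a, b, c⟩
  exact ⟨t.Q, θ * t.Q, κ, v, _, C, t.G, ht.1.trans ht.2.1, le_rfl, κ0, κ3, hv, fun x S a b =>
    ⟨(H x S a b).1, fun d e f => (H x S a b).2 κ κ0 κ1 (fun p hp => by linarith [d p hp]) e f⟩⟩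

end Pool.Agent.Lib.MP_4b1228_nt.PP.R5
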