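import Pool.Agent.Lib.MP_4b1228_nt.PP.R5D
import Pool.Agent.Lib.MP_4b1228_nt.PP.R5M0

/-!
The bounds for single terms of a certificate on two scales.
-/

open Finset Real
open scoped Classical

noncomputable section

namespace Pool.Agent.Lib.MP_4b1228_nt.PP.R5

open R3 R4 R5M

/-- The weight of the windows. -/
def Hv (t : Tab) (ys : List ℝ) : ℝ :=
  if ∀ y ∈ ys, (t.T : ℝ) ≤ y then t.hv ⌊ys.sum⌋₊ (ys.map fun y : ℝ => ⌊y⌋₊) (ys.map fr) else 0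

/-- A class of laws. -/
abbrev Cls (α : Type) : Type := Finset α → ℕ → (α → ℝ) → (Finset α → ℝ) → Prop

variable {α : Type} (N : Cls α)

def ExS : Prop :=
  (∀ s k u w, N s k u w → Rnd.Law s k u w) ∧
    ∀ (s : Finset α) (k : ℕ) (u : α → ℝ), (∀ i ∈ s, 0 ≤ u i ∧ u i ≤ 1) → ∑ i ∈ s, u i = k →
      ∃ w, N s k u w

def T0S : Prop :=
  ∀ (t : Tab) (c : Co) s k u w, t.Ok → c.Ok t → N s k u w → ∀ l ∈ s, ∀ r : ℝ, 0 ≤ r →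
    u l = fr (r / c.μ) → ∀ G : ℕ → ℤ, c.C0 t G ⌊r⌋₊ →
    t.AE [] r + t.A0 r ≤ c.Λ * ∑ T ∈ powersetCard k s, w T * (G (⌊r / c.μ⌋₊ + bt T l) : ℝ)

def T1S : Prop :=
  ∀ (t : Tab) (c : Co) s k u w, t.Ok → c.Ok t → N s k u w → ∀ i ∈ s, ∀ l ∈ s, i ≠ l →
    ∀ x r : ℝ, 0 ≤ x → 0 ≤ r → u i = fr (x / c.μ) → u l = fr (r / c.μ) →
    ∀ (G : ℕ → ℕ → ℤ) (n : ℕ), c.C1 t G n ⌊x⌋₊ ⌊r⌋₊ →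
    t.AE [x] r + t.A1 x r + t.lp ⌊x⌋₊ (fr x) + Hv t [x] ≤
      c.Λ * ∑ T ∈ powersetCard k s, w T * (G (⌊x / c.μ⌋₊ + bt T i) (⌊r / c.μ⌋₊ + bt T l) : ℝ)

def TIS : Prop :=
  ∀ (t : Tab) (c : Co) s k u w, t.Ok → c.Ok t → N s k u w → ∀ i ∈ s,
    ∀ x r : ℝ, (t.Q : ℝ) ≤ x → 0 ≤ r → u i = fr (x / c.μ) → c.CI t ⌊x⌋₊ →
    t.AE [x] r + t.A1 x r + t.lp ⌊x⌋₊ (fr x) + Hv t [x] ≤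
      c.Λ * ∑ T ∈ powersetCard k s, w T * (c.inv (⌊x / c.μ⌋₊ + bt T i) : ℝ)

def T2S : Prop :=
  ∀ (t : Tab) (c : Co) s k u w, t.Ok → c.Ok t → N s k u w → ∀ i ∈ s, ∀ j ∈ s, ∀ l ∈ s,
    i ≠ j → i ≠ l → j ≠ l → ∀ x y r : ℝ, 0 ≤ x → 0 ≤ y → 0 ≤ r → u i = fr (x / c.μ) →
    u j = fr (y / c.μ) → u l = fr (r / c.μ) → c.C2 t ⌊x⌋₊ ⌊y⌋₊ →
    (mul2 ⌊x⌋₊ ⌊y⌋₊ : ℝ) * t.AE [x, y] r + Hv t [x, y] ≤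
      c.Λ * ∑ T ∈ powersetCard k s, w T *
        ((c.F2 (⌊x / c.μ⌋₊ + bt T i) (⌊y / c.μ⌋₊ + bt T j) : ℝ) +
          ((⌊r / c.μ⌋₊ + bt T l : ℕ) : ℝ) * c.B2 (⌊x / c.μ⌋₊ + bt T i) (⌊y / c.μ⌋₊ + bt T j))

def T3S : Prop :=
  ∀ (t : Tab) (c : Co) s k u w, t.Ok → c.Ok t → N s k u w → ∀ i ∈ s, ∀ j ∈ s, ∀ l ∈ s,
    i ≠ j → i ≠ l → j ≠ l → ∀ x y z r : ℝ, 0 ≤ x → 0 ≤ y → 0 ≤ z → u i = fr (x / c.μ) →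
    u j = fr (y / c.μ) → u l = fr (z / c.μ) → c.C3 t ⌊x⌋₊ ⌊y⌋₊ ⌊z⌋₊ →
    (mul3 ⌊x⌋₊ ⌊y⌋₊ ⌊z⌋₊ : ℝ) * t.AE [x, y, z] r + Hv t [x, y, z] ≤
      c.Λ * ∑ T ∈ powersetCard k s, w T *
        (c.F3 (⌊x / c.μ⌋₊ + bt T i) (⌊y / c.μ⌋₊ + bt T j) (⌊z / c.μ⌋₊ + bt T l) : ℝ)

/-- The statement with the end point. -/
def Pt6Stmt : Prop :=
  ∀ (t : Tab) (c : Co) (b : ℤ) (v θ : ℝ), t.Ok → c.Ok t → c.Loc t → c.Lat b → RowQ t.Q t.G v →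
    (c.Λ : ℝ) * b < v → θ * c.Q ≤ c.Θ → c.Q < c.Θ → 2 * c.Θ < 3 * c.Q → Cert3 θ

end Pool.Agent.Lib.MP_4b1228_nt.PP.R5
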