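import Pool.Agent.Lib.MP_4b1228_nt.PP.R5S
import Pool.Agent.Lib.MP_4b1228_nt.PP.R5M0
import Pool.Agent.Lib.MP_4b1228_nt.PP.R4Pt

/-!
The terms of pairs.
-/

open Finset Real
open scoped Classical

noncomputable section

namespace Pool.Agent.Lib.MP_4b1228_nt.PP.R5

open R3 R4 Rnd R5M

namespace T2

lemma ml2_mono {f g : ℕ → ℕ → ℝ} (h : ∀ a ≤ 1, ∀ b ≤ 1, f a b ≤ g a b) {x y : ℝ} (x0 : 0 ≤ x)
    (x1 : x ≤ 1) (y0 : 0 ≤ y) (y1 : y ≤ 1) : ml2 f x y ≤ ml2 g x y := by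
  have a := h 0 zero_le_one 0 zero_le_one
  have b := h 1 le_rfl 0 zero_le_one
  have c := h 0 zero_le_one 1 le_rfl
  have d := h 1 le_rfl 1 le_rfl
  have x2 := sub_nonneg.2 x1
  have y2 := sub_nonneg.2 y1
  unfold ml2
  gcongr

lemma ml2_const (c x y : ℝ) : ml2 (fun _ _ => c) x y = c := by unfold ml2; ring

/-- The position in the coarse cell. -/
lemma fr_div {μ : ℕ} (hμ : 1 ≤ μ) (x : ℝ) :
    (μ : ℝ) * R4.fr (x / μ) = (⌊x⌋₊ % μ : ℕ) + R4.fr x := by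
  have h : (μ : ℝ) ≠ 0 := by positivity
  have e : (⌊x⌋₊ : ℝ) = μ * (⌊x⌋₊ / μ : ℕ) + (⌊x⌋₊ % μ : ℕ) := by
    exact_mod_cast (Nat.div_add_mod _ _).symm
  unfold R4.fr
  rw [Nat.floor_div_natCast, mul_sub, mul_div_cancel₀ _ h]
  linarith

lemma split {μ : ℕ} (hμ : 1 ≤ μ) (x : ℝ) : x = μ * ((⌊x⌋₊ / μ : ℕ) + R4.fr (x / μ)) := by
  have h : (μ : ℝ) ≠ 0 := by positivity
  unfold R4.fr
  rw [Nat.floor_div_natCast, add_sub_cancel, mul_div_cancel₀ _ h]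

lemma L2_eq (c : Co) (hμ : 1 ≤ c.μ) (F : ℕ → ℕ → ℤ) (θ : Bool) (x y : ℝ) :
    ml2 (fun a b => (L2 c.μ F θ (c.ps ⌊x⌋₊ a) (c.ps ⌊y⌋₊ b) : ℝ)) (R4.fr x) (R4.fr y) =
      c.μ ^ 2 * lam2 (fun a b => (F a b : ℝ)) (max 0 (R5.mx F) : ℤ) (bz θ : ℤ)
        (R4.fr (x / c.μ)) (R4.fr (y / c.μ)) := by
  have a := fr_div hμ x
  have b := fr_div hμ y
  have a' : R4.fr x = c.μ * R4.fr (x / c.μ) - (⌊x⌋₊ % c.μ : ℕ) := by linarith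
  have b' : R4.fr y = c.μ * R4.fr (y / c.μ) - (⌊y⌋₊ % c.μ : ℕ) := by linarith
  rw [a', b']
  simp only [ml2, L2, ML2, R5.gp, lam2, gap, Co.ps]
  generalize max 0 (R5.mx F) = m
  generalize ⌊x⌋₊ % c.μ = p
  generalize ⌊y⌋₊ % c.μ = q
  push_cast
  ring

lemma ev_eq (t : Tab) (cs : List ℕ) (j : ℕ) (x y : ℝ) :
    ml2 (fun a b => (ev t cs j [(a : ℕ), (b : ℕ)] : ℝ)) x y = t.co cs j 0 + lin (t.co cs j) [x, y] 1 := by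
  simp only [ml2, ev, lin]
  push_cast
  ring

lemma hv_eq (t : Tab) (n X Y : ℕ) (x y : ℝ) :
    ml2 (fun a b => ((t.hv n [X, Y] [((a : ℕ) : ℤ), ((b : ℕ) : ℤ)] : ℤ) : ℝ)) x y =
      t.hv n [X, Y] [x, y] := by
  simp only [ml2, Tab.hv, Tab.marks, List.sum_cons, List.sum_nil]
  split_ifs <;> push_cast <;> ring

lemma bz_mem (θ : Bool) : (0 : ℝ) ≤ (bz θ : ℤ) ∧ ((bz θ : ℤ) : ℝ) ≤ 1 := by
  cases θ <;> simp [bz]

lemma mx_le (F : ℕ → ℕ → ℤ) : (0 : ℝ) ≤ (max 0 (R5.mx F) : ℤ) ∧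
    R5M.mx (fun a b => (F a b : ℝ)) ≤ (max 0 (R5.mx F) : ℤ) := by
  constructor
  · exact_mod_cast le_max_left _ _
  · have : R5.mx F ≤ max 0 (R5.mx F) := le_max_right _ _
    simp only [R5M.mx]
    rw [R5.mx] at this ⊢
    exact_mod_cast this

end T2

open T2

lemma T2.Hv_le (t : Tab) {x y : ℝ} (hx : 0 ≤ x) (hy : 0 ≤ y) :
    Hv t [x, y] ≤ ml2 (fun a b => (R5.hx t [⌊x⌋₊, ⌊y⌋₊] [(a : ℕ), (b : ℕ)] : ℝ))
      (R4.fr x) (R4.fr y) := by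
  obtain ⟨x0, x1⟩ := Pt.fr_mem hx
  obtain ⟨y0, y1⟩ := Pt.fr_mem hy
  have eq : (∀ z ∈ [x, y], (t.T : ℝ) ≤ z) ↔
      ([⌊x⌋₊, ⌊y⌋₊].all fun x => decide (t.T ≤ x)) = true := by
    simp [Nat.le_floor_iff hx, Nat.le_floor_iff hy]
  simp only [Hv, R5.hx, List.map_cons, List.map_nil, eq]
  split_ifs
  · obtain ⟨o, ho, e⟩ : ∃ o ≤ 1, ⌊[x, y].sum⌋₊ = [⌊x⌋₊, ⌊y⌋₊].sum + o := by
      have h1 : ⌊x⌋₊ + ⌊y⌋₊ ≤ ⌊x + y⌋₊ := Nat.le_floor (by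
        push_cast; exact add_le_add (Nat.floor_le hx) (Nat.floor_le hy))
      have h2 : ⌊x + y⌋₊ < ⌊x⌋₊ + ⌊y⌋₊ + 2 := (Nat.floor_lt (add_nonneg hx hy)).2 (by
        push_cast; linarith [Nat.lt_floor_add_one x, Nat.lt_floor_add_one y])
      refine ⟨⌊x + y⌋₊ - (⌊x⌋₊ + ⌊y⌋₊), by omega, ?_⟩
      simp only [List.sum_cons, List.sum_nil, add_zero]
      omega
    rw [e, ← hv_eq]
    refine ml2_mono (fun a _ b _ => ?_) x0 x1.le y0 y1.le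
    exact_mod_cast Pt.hm_ge t _ _ _ o ho
  · simp [ml2]

variable {α : Type*} {s : Finset α} {k : ℕ} {u : α → ℝ} {w : Finset α → ℝ} {i j l : α}

lemma T2.cf {c : Co} {t : Tab} (hμ : 1 ≤ c.μ) {x y : ℝ} (hx : 0 ≤ x) (hy : 0 ≤ y)
    (H : Rnd.Law s k u w) (hi : i ∈ s) (hj : j ∈ s) (n : both s k w i j ≤ u i * u j)
    (ui : u i = R4.fr (x / c.μ)) (uj : u j = R4.fr (y / c.μ)) {e : ℤ} (h : c.CF t ⌊x⌋₊ ⌊y⌋₊ e) :
    mul2 ⌊x⌋₊ ⌊y⌋₊ * (t.co [⌊x⌋₊, ⌊y⌋₊] 0 0 + lin (t.co [⌊x⌋₊, ⌊y⌋₊] 0) [R4.fr x, R4.fr y] 1) +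
      Hv t [x, y] ≤ c.Λ * (∑ T ∈ powersetCard k s,
        w T * c.F2 (⌊x⌋₊ / c.μ + bt T i) (⌊y⌋₊ / c.μ + bt T j) - e / 4) := by
  obtain ⟨x0, x1⟩ := Pt.fr_mem hx
  obtain ⟨y0, y1⟩ := Pt.fr_mem hy
  have a := Hv_le t hx hy
  rw [← ev_eq]
  have hΛ : (0 : ℝ) ≤ c.Λ := by positivity
  rcases h with h | h
  · have b := ml2_mono (f := fun a b => ((_ : ℤ) : ℝ)) (g := fun a b => ((_ : ℤ) : ℝ))
      (fun a ha b hb => Int.cast_le.2 (h a ha b hb)) x0 x1.le y0 y1.le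
    have d := L2_eq c hμ (fun i j => c.F2 (⌊x⌋₊ / c.μ + i) (⌊y⌋₊ / c.μ + j))
      (c.th [⌊x⌋₊, ⌊y⌋₊] 2) x y
    have f := lam2_le' H hi hj n (fun i j => (c.F2 (⌊x⌋₊ / c.μ + i) (⌊y⌋₊ / c.μ + j) : ℝ))
      (mx_le _).1 (mx_le _).2 (bz_mem (c.th [⌊x⌋₊, ⌊y⌋₊] 2)).1 (bz_mem _).2
    rw [ui, uj] at f
    have m : (0 : ℝ) < c.μ ^ 2 := by positivity
    refine le_of_mul_le_mul_left ?_ m
    have f' := mul_le_mul_of_nonneg_left (mul_le_mul_of_nonneg_left f m.le) hΛ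
    have a' := mul_le_mul_of_nonneg_left a m.le
    rw [← d] at f'
    simp only [ml2] at a' b f' ⊢
    push_cast at a' b f' ⊢
    linarith
  · have : 4 * (mul2 ⌊x⌋₊ ⌊y⌋₊ * ml2 (fun a b => (ev t [⌊x⌋₊, ⌊y⌋₊] 0 [(a : ℕ), (b : ℕ)] : ℝ))
        (R4.fr x) (R4.fr y) + Hv t [x, y]) + c.Λ * e ≤ ∑ T ∈ powersetCard k s,
        w T * (4 * c.Λ * c.F2 (⌊x⌋₊ / c.μ + bt T i) (⌊y⌋₊ / c.μ + bt T j)) := by
      refine ge H fun T _ => ?_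
      have b := ml2_mono (f := fun a b => ((_ : ℤ) : ℝ)) (g := fun a b => ((_ : ℤ) : ℝ))
        (fun a ha b hb => Int.cast_le.2 (h a ha b hb _ (bt_le T i) _ (bt_le T j))) x0 x1.le y0 y1.le
      rw [ml2_const] at b
      simp only [ml2] at a b ⊢
      push_cast at a b ⊢
      linarith
    rw [sum_congr rfl fun T _ => mul_left_comm _ _ _, ← mul_sum] at this
    linarith

/-- The term of a pair. -/
theorem t2' {c : Co} {t : Tab} (hc : c.Ok t) {x y r : ℝ} (hx : 0 ≤ x) (hy : 0 ≤ y)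
    (H : Rnd.Law s k u w) (hi : i ∈ s) (hj : j ∈ s) (hl : l ∈ s)
    (n₁ : both s k w i j ≤ u i * u j) (n₂ : both s k w i l ≤ u i * u l)
    (n₃ : both s k w j l ≤ u j * u l) (n₄ : up3 s k w i j l ≤ u i * u j * u l)
    (ui : u i = R4.fr (x / c.μ)) (uj : u j = R4.fr (y / c.μ)) (ul : u l = R4.fr (r / c.μ))
    (h : c.C2 t ⌊x⌋₊ ⌊y⌋₊) :
    mul2 ⌊x⌋₊ ⌊y⌋₊ * t.AE [x, y] r + Hv t [x, y] ≤ c.Λ * ∑ T ∈ powersetCard k s,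
      w T * (c.F2 (⌊x⌋₊ / c.μ + bt T i) (⌊y⌋₊ / c.μ + bt T j) +
        (⌊r⌋₊ / c.μ + bt T l : ℕ) * c.B2 (⌊x⌋₊ / c.μ + bt T i) (⌊y⌋₊ / c.μ + bt T j)) := by
  obtain ⟨hμ, -, -, -, -, -, -, -, -, -, hz, -⟩ := hc
  obtain ⟨x0, x1⟩ := Pt.fr_mem hx
  obtain ⟨y0, y1⟩ := Pt.fr_mem hy
  have hΛ : (0 : ℝ) ≤ c.Λ := by positivity
  have z : ∀ j, 2 ≤ j → t.co [⌊x⌋₊, ⌊y⌋₊] j 0 = 0 := fun j hj => by
    simp [Tab.co, hz _ _ j 0 (Or.inr hj)]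
  have e : t.AE [x, y] r =
      (t.co [⌊x⌋₊, ⌊y⌋₊] 0 0 + lin (t.co [⌊x⌋₊, ⌊y⌋₊] 0) [R4.fr x, R4.fr y] 1) +
      r * ml2 (fun a b => (ev t [⌊x⌋₊, ⌊y⌋₊] 1 [(a : ℕ), (b : ℕ)] : ℝ)) (R4.fr x) (R4.fr y) := by
    rw [ev_eq]
    simp [Tab.AE, sum_range_succ, z]
  have er := T2.split hμ r
  rw [← ul] at er
  have r0 : (0 : ℝ) ≤ (⌊r⌋₊ / c.μ : ℕ) + u l := add_nonneg (by positivity) (unit H hl).1
  simp only [mul_add (w _), sum_add_distrib, Nat.cast_add]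
  rw [e]
  set A := ml2 (fun a b => (ev t [⌊x⌋₊, ⌊y⌋₊] 1 [(a : ℕ), (b : ℕ)] : ℝ)) (R4.fr x) (R4.fr y)
    with hA
  set ρ : ℝ := ((⌊r⌋₊ / c.μ : ℕ) : ℝ)
  rcases h with ⟨h, h'⟩ | ⟨h, h'⟩
  · have a := T2.cf hμ hx hy H hi hj n₁ ui uj h'
    set B : ℕ → ℕ → ℤ := fun i j => c.B2 (⌊x⌋₊ / c.μ + i) (⌊y⌋₊ / c.μ + j) with hB
    have b := ml2_mono (f := fun a b => ((_ : ℤ) : ℝ)) (g := fun a b => ((_ : ℤ) : ℝ))
      (fun a ha b hb => Int.cast_le.2 (h a ha b hb)) x0 x1.le y0 y1.le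
    have d := L2_eq c hμ B (c.th [⌊x⌋₊, ⌊y⌋₊] 3) x y
    have f := rlam2_le' H hi hj hl n₁ n₂ n₃ n₄ (fun a b => (B a b : ℝ)) (ρ := ρ)
      (b₁ := (max 0 (max (B 1 0 - B 0 0) (B 1 1 - B 0 1)) : ℤ))
      (b₂ := (max 0 (max (B 0 1 - B 0 0) (B 1 1 - B 1 0)) : ℤ)) (by positivity)
      (mx_le B).1 (mx_le B).2 (bz_mem (c.th [⌊x⌋₊, ⌊y⌋₊] 3)).1 (bz_mem _).2
      (by exact_mod_cast le_max_left _ _)
      (by exact_mod_cast (le_max_left _ _).trans (le_max_right _ _))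
      (by exact_mod_cast (le_max_right _ _).trans (le_max_right _ _))
      (by exact_mod_cast le_max_left _ _)
      (by exact_mod_cast (le_max_left _ _).trans (le_max_right _ _))
      (by exact_mod_cast (le_max_right _ _).trans (le_max_right _ _))
    rw [← ui, ← uj] at d
    have m : (0 : ℝ) < c.μ ^ 2 := by positivity
    have g : c.μ * (mul2 ⌊x⌋₊ ⌊y⌋₊ * A) ≤ c.Λ * lam2 (fun a b => (B a b : ℝ))
        (max 0 (R5.mx B) : ℤ) (bz (c.th [⌊x⌋₊, ⌊y⌋₊] 3) : ℤ) (u i) (u j) := by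
      refine le_of_mul_le_mul_left ?_ m
      rw [mul_left_comm _ (c.Λ : ℝ), ← d, hA]
      simp only [ml2] at b ⊢
      push_cast at b ⊢
      linarith
    have g' := mul_le_mul_of_nonneg_left g r0
    have f' := mul_le_mul_of_nonneg_left f hΛ
    have es : ((slp B : ℤ) : ℝ) = (max 0 (max (B 1 0 - B 0 0) (B 1 1 - B 0 1)) : ℤ) +
      (max 0 (max (B 0 1 - B 0 0) (B 1 1 - B 1 0)) : ℤ) := by rw [slp, Int.cast_add]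
    rw [← es] at f'
    nth_rewrite 1 [er]
    simp only [hB] at f'
    linarith
  · have a := T2.cf hμ hx hy H hi hj n₁ ui uj h'
    have o := one H hl fun b => (ρ + b) * (c.μ * (mul2 ⌊x⌋₊ ⌊y⌋₊ * A))
    have f : ∑ T ∈ powersetCard k s, w T * ((ρ + bt T l) * (c.μ * (mul2 ⌊x⌋₊ ⌊y⌋₊ * A))) ≤
        c.Λ * ∑ T ∈ powersetCard k s,
          w T * ((ρ + bt T l) * c.B2 (⌊x⌋₊ / c.μ + bt T i) (⌊y⌋₊ / c.μ + bt T j)) := by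
      rw [mul_sum]
      refine sum_le_sum fun T _ => ?_
      have b := ml2_mono (f := fun a b => ((_ : ℤ) : ℝ)) (g := fun a b => ((_ : ℤ) : ℝ))
        (fun a ha b hb => Int.cast_le.2 (h a ha b hb _ (bt_le T i) _ (bt_le T j))) x0 x1.le y0 y1.le
      rw [ml2_const] at b
      have b' : c.μ * (mul2 ⌊x⌋₊ ⌊y⌋₊ * A) ≤
          c.Λ * c.B2 (⌊x⌋₊ / c.μ + bt T i) (⌊y⌋₊ / c.μ + bt T j) := by
        rw [hA]
        simp only [ml2] at b ⊢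
        push_cast at b ⊢
        linarith
      have p : 0 ≤ w T * (ρ + bt T l) := mul_nonneg (H.1 T) (by positivity)
      nlinarith [mul_le_mul_of_nonneg_left b' p]
    rw [o] at f
    nth_rewrite 1 [er]
    push_cast at a f ⊢
    linarith

/-- Laws with negative dependence. -/
def Neg {α : Type} (N : Cls α) : Prop :=
  ∀ s k u w, N s k u w → Rnd.Law s k u w ∧
    (∀ i ∈ s, ∀ j ∈ s, i ≠ j → both s k w i j ≤ u i * u j) ∧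
    ∀ i ∈ s, ∀ j ∈ s, ∀ l ∈ s, i ≠ j → i ≠ l → j ≠ l → up3 s k w i j l ≤ u i * u j * u l ∧
      dn3 s k w i j l ≤ (1 - u i) * (1 - u j) * (1 - u l)

theorem t2N {α : Type} {N : Cls α} (hN : Neg N) : T2S N := by
  intro t c s k u w _ hc h i hi j hj l hl ij il jl x y r hx hy _ ui uj ul hC
  obtain ⟨H, n₁, n₂⟩ := hN s k u w h
  simp only [Nat.floor_div_natCast]
  exact t2' hc hx hy H hi hj hl (n₁ i hi j hj ij) (n₁ i hi l hl il) (n₁ j hj l hl jl)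
    (n₂ i hi j hj l hl ij il jl).1 ui uj ul hC

end Pool.Agent.Lib.MP_4b1228_nt.PP.R5
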