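import Pool.Agent.Lib.MP_4b1228_nt.PP.St

/-! Combinatorial lemmas for the abstract sieve. -/

open Finset Real
open scoped Classical

noncomputable section

namespace Pool.Agent.Lib.MP_4b1228_nt.PP.S1

/-- Squarefree with all prime factors below `y`. -/
def Sm (y : ℝ) (e : ℕ) : Prop := Squarefree e ∧ ∀ p : ℕ, p.Prime → p ∣ e → (p : ℝ) < y

/-- The number of prime factors. -/
def om (e : ℕ) : ℕ := e.primeFactors.card

/-- The sign. -/
def sg (e : ℕ) : ℝ := (-1) ^ om e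

/-- The number of rough divisors. -/
def tz (y : ℝ) (n : ℕ) : ℝ := (#{d ∈ n.divisors | Rough y d} : ℝ)

/-- The prime factors below `y`. -/
def sp (y : ℝ) (m : ℕ) : Finset ℕ := m.primeFactors.filter fun p : ℕ => (p : ℝ) < y

theorem abs_sg (e : ℕ) : |sg e| = 1 := by simp [sg]

theorem Rough.dvd {y : ℝ} {d n : ℕ} (h : Rough y n) (hd : d ∣ n) : Rough y d :=
  fun p hp h1 => h p hp (h1.trans hd)

theorem Rough.mul {y : ℝ} {a b : ℕ} (ha : Rough y a) (hb : Rough y b) : Rough y (a * b) :=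
  fun p hp h => ((Nat.Prime.dvd_mul hp).1 h).elim (ha p hp) (hb p hp)

theorem Rough.mono {y y' : ℝ} {n : ℕ} (h : Rough y n) (hy : y' ≤ y) : Rough y' n :=
  fun p hp h1 => hy.trans (h p hp h1)

theorem cop {y : ℝ} {d e : ℕ} (hd : Rough y d) (he : Sm y e) : d.Coprime e :=
  Nat.coprime_of_dvd fun p hp h1 h2 => absurd (he.2 p hp h2) (not_lt.2 (hd p hp h1))

theorem tz_nonneg (y : ℝ) (n : ℕ) : 0 ≤ tz y n := Nat.cast_nonneg _

theorem tz_mono {y y' : ℝ} {d n : ℕ} (hn : n ≠ 0) (hd : d ∣ n) (hy : y' ≤ y) :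
    tz y d ≤ tz y' n := by
  refine Nat.cast_le.2 (card_le_card fun x hx => ?_)
  rw [mem_filter, Nat.mem_divisors] at hx ⊢
  exact ⟨⟨hx.1.1.trans hd, hn⟩, Rough.mono hx.2 hy⟩

theorem card_div {y : ℝ} {n : ℕ} (h : Rough y n) : (#n.divisors : ℝ) = tz y n := by
  rw [tz, filter_true_of_mem fun d hd => Rough.dvd h (Nat.dvd_of_mem_divisors hd)]

theorem mem_sp {y : ℝ} {m p : ℕ} : p ∈ sp y m ↔ (p.Prime ∧ p ∣ m ∧ m ≠ 0) ∧ (p : ℝ) < y := by
  rw [sp, mem_filter, Nat.mem_primeFactors]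

theorem sp_empty {y : ℝ} {m : ℕ} (hm : m ≠ 0) : sp y m = ∅ ↔ Rough y m := by
  simp only [eq_empty_iff_forall_notMem, mem_sp, Rough]
  exact ⟨fun h p h1 h2 => not_lt.1 fun h3 => h p ⟨⟨h1, h2, hm⟩, h3⟩,
    fun h p h1 => not_lt.2 (h p h1.1.1 h1.1.2.1) h1.2⟩

theorem om_prod {T : Finset ℕ} (h : ∀ p ∈ T, p.Prime) : om (∏ p ∈ T, p) = #T := by
  rw [om, Nat.primeFactors_prod h]

theorem prod_dvd {y : ℝ} {m : ℕ} {T : Finset ℕ} (h : T ⊆ sp y m) : ∏ p ∈ T, p ∣ m :=
  (prod_dvd_prod_of_subset _ _ _ (h.trans (filter_subset _ _))).trans (Nat.prod_primeFactors_dvd m)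

/-- smooth squarefree divisors are sets of primes -/
theorem sum_sm {y : ℝ} {m : ℕ} (hm : m ≠ 0) (g : ℕ → ℝ) :
    ∑ e ∈ m.divisors, (if Sm y e then g e else 0) = ∑ T ∈ (sp y m).powerset, g (∏ p ∈ T, p) := by
  rw [← sum_filter]
  refine sum_nbij' (fun e => e.primeFactors) (fun T => ∏ p ∈ T, p) ?_ ?_ ?_ ?_ ?_
  · intro e he
    rw [mem_filter, Nat.mem_divisors] at he
    refine mem_powerset.2 fun p hp => ?_
    rw [Nat.mem_primeFactors] at hp
    exact mem_sp.2 ⟨⟨hp.1, hp.2.1.trans he.1.1, hm⟩, he.2.2 p hp.1 hp.2.1⟩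
  · intro T hT
    rw [mem_powerset] at hT
    have hp : ∀ p ∈ T, p.Prime := fun p h => (mem_sp.1 (hT h)).1.1
    refine mem_filter.2 ⟨Nat.mem_divisors.2 ⟨prod_dvd hT, hm⟩, ?_, fun p h1 h2 => ?_⟩
    · exact Finset.squarefree_prod_of_pairwise_isCoprime
        (fun p h1 q h2 h => Nat.coprime_iff_isRelPrime.1
          ((Nat.coprime_primes (hp p h1) (hp q h2)).2 h))
        fun p h => (hp p h).prime.squarefree
    · obtain ⟨q, h3, h4⟩ := (Nat.Prime.prime h1).dvd_finsetProd_iff _ |>.1 h2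
      rw [(Nat.prime_dvd_prime_iff_eq h1 (hp q h3)).1 h4]
      exact (mem_sp.1 (hT h3)).2
  · intro e he
    exact Nat.prod_primeFactors_of_squarefree (mem_filter.1 he).2.1
  · intro T hT
    exact Nat.primeFactors_prod fun p h => (mem_sp.1 (mem_powerset.1 hT h)).1.1
  · intro e he
    rw [Nat.prod_primeFactors_of_squarefree (mem_filter.1 he).2.1]

/-- the truncation of the sieve of Eratosthenes -/
theorem bonf {y : ℝ} {m kb : ℕ} (hm : m ≠ 0) (hk : 1 ≤ kb) :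
    |(if Rough y m then 1 else 0) -
      ∑ e ∈ m.divisors, (if Sm y e then if om e < kb then sg e else 0 else 0)| ≤
      ∑ e ∈ m.divisors, (if Sm y e then if om e = kb then (1 : ℝ) else 0 else 0) := by
  rw [sum_sm hm, sum_sm hm]
  have hp : ∀ T ∈ (sp y m).powerset, om (∏ p ∈ T, p) = #T := fun T hT =>
    om_prod fun p h => (mem_sp.1 (mem_powerset.1 hT h)).1.1
  have e1 : ∑ T ∈ (sp y m).powerset, (if om (∏ p ∈ T, p) < kb then sg (∏ p ∈ T, p) else 0) =
      ∑ T ∈ (sp y m).powerset, (if #T < kb then (-1 : ℝ) ^ #T else 0) :=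
    sum_congr rfl fun T hT => by rw [sg, hp T hT]
  have e2 : ∑ T ∈ (sp y m).powerset, (if om (∏ p ∈ T, p) = kb then (1 : ℝ) else 0) =
      ∑ T ∈ (sp y m).powerset, (if #T = kb then (1 : ℝ) else 0) :=
    sum_congr rfl fun T hT => by rw [hp T hT]
  rw [e1, e2, ← sp_empty hm]
  generalize sp y m = S
  rcases S.eq_empty_or_nonempty with rfl | ⟨p, h⟩
  · have : 0 < kb := hk
    simp [this]
  · rw [if_neg (ne_empty_of_mem h), zero_sub, abs_neg, ← insert_erase h,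
      sum_powerset_insert (notMem_erase p S), sum_powerset_insert (notMem_erase p S),
      ← sum_add_distrib, ← sum_add_distrib]
    refine (abs_sum_le_sum_abs _ _).trans (sum_le_sum fun T hT => ?_)
    rw [card_insert_of_notMem fun q => notMem_erase p S (mem_powerset.1 hT q), pow_succ]
    split_ifs <;> first | omega | simp

/-- the bound for the prime factors of the cofactor -/
def qq (z : ℝ) (N : ℕ) : ℕ := min N.minFac ⌈z⌉₊

/-- `N` is the first product that exceeds `L` -/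
def First (z L : ℝ) (N : ℕ) : Prop :=
  L < N ∧ (z ≤ N.minFac ∨ ((N / N.minFac : ℕ) : ℝ) ≤ L)

/-- the weight in the identity of Buchstab -/
def Wt (z L : ℝ) (N M : ℕ) : ℝ :=
  (if (N : ℝ) ≤ L then 1 else 0) + if First z L N ∧ Rough (qq z N) M then 1 else 0

theorem buch {z L : ℝ} (hL : 1 ≤ L) {c m : ℕ} (hm : Squarefree m) (hc0 : c ≠ 0)
    (hc : Rough z c) :
    ∑ e ∈ m.divisors, (if Sm z e then sg e * Wt z L (c * e) (m / e) else 0) =
      if Rough z m then 1 else 0 := by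
  have hm0 := hm.ne_zero
  rw [sum_sm hm0]
  split_ifs with h
  · rw [(sp_empty hm0).2 h, powerset_empty, sum_singleton, prod_empty, mul_one, Nat.div_one, Wt]
    have : sg 1 = 1 := by simp [sg, om]
    rw [this, one_mul]
    by_cases h1 : (c : ℝ) ≤ L
    · rw [if_pos h1, if_neg fun q => not_lt.2 h1 q.1.1, add_zero]
    · have c1 : c ≠ 1 := by
        rintro rfl
        exact h1 (by simpa using hL)
      rw [if_neg h1, zero_add, if_pos]
      refine ⟨⟨not_le.1 h1, Or.inl (hc _ (Nat.minFac_prime c1) (Nat.minFac_dvd c))⟩, ?_⟩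
      intro p hp h2
      exact Nat.cast_le.2 ((min_le_right _ _).trans (Nat.ceil_le.2 (h p hp h2)))
  · have m1 : m ≠ 1 := by
      rintro rfl
      exact h fun p hp h2 => absurd (Nat.dvd_one.1 h2) hp.ne_one
    obtain ⟨p, hpm⟩ : ∃ p, p = m.minFac := ⟨_, rfl⟩
    have hp : p.Prime := hpm ▸ Nat.minFac_prime m1
    have hle : ∀ q : ℕ, q.Prime → q ∣ m → p ≤ q := fun q h1 h2 =>
      hpm ▸ Nat.minFac_le_of_dvd h1.two_le h2
    have hpz : (p : ℝ) < z := by
      by_contra h1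
      exact h fun q h2 h3 => (not_lt.1 h1).trans (Nat.cast_le.2 (hle q h2 h3))
    have hpS : p ∈ sp z m := mem_sp.2 ⟨⟨hp, hpm ▸ Nat.minFac_dvd m, hm0⟩, hpz⟩
    rw [← insert_erase hpS, sum_powerset_insert (notMem_erase p _), ← sum_add_distrib]
    refine sum_eq_zero fun T hT => ?_
    rw [mem_powerset] at hT
    have hpT : p ∉ T := fun q => notMem_erase p _ (hT q)
    have hT1 : T ⊆ sp z m := hT.trans (erase_subset _ _)
    have hT2 : insert p T ⊆ sp z m := insert_subset hpS hT1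
    have s1 : sg (∏ q ∈ insert p T, q) = -sg (∏ q ∈ T, q) := by
      rw [sg, sg, om_prod fun q h1 => (mem_sp.1 (hT2 h1)).1.1,
        om_prod fun q h1 => (mem_sp.1 (hT1 h1)).1.1, card_insert_of_notMem hpT, pow_succ]
      ring
    have d2 := prod_dvd hT2
    rw [s1, prod_insert hpT] at *
    generalize ∏ q ∈ T, q = e at d2 ⊢
    have e0 : e ≠ 0 := by
      rintro rfl
      exact hm0 (by simpa using d2)
    have hpe : ¬ p ∣ e := fun q =>
      hp.ne_one (Nat.isUnit_iff.1 (hm p ((mul_dvd_mul_left p q).trans d2)))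
    have hge : ∀ q : ℕ, q.Prime → q ∣ c * e → p < q := fun q h1 h2 => by
      rcases (Nat.Prime.dvd_mul h1).1 h2 with h3 | h3
      · exact Nat.cast_lt.1 (hpz.trans_le (hc q h1 h3))
      · exact lt_of_le_of_ne (hle q h1 (h3.trans ((dvd_mul_left e p).trans d2)))
          fun h4 => hpe (h4 ▸ h3)
    have f1 : ¬ (First z L (c * e) ∧ Rough (qq z (c * e)) (m / e)) := by
      rintro ⟨⟨h1, -⟩, h2⟩
      have c1 : c * e ≠ 1 := fun q => by
        rw [q] at h1
        exact not_lt.2 hL (by simpa using h1)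
      have h3 := h2 p hp ((Nat.dvd_div_iff_mul_dvd ((dvd_mul_left e p).trans d2)).2
        (mul_comm p e ▸ d2))
      exact not_lt.2 (Nat.cast_le.1 h3) (lt_min (hge _ (Nat.minFac_prime c1) (Nat.minFac_dvd _))
        (Nat.lt_ceil.2 hpz))
    have f2 : (c * (p * e)).minFac = p := by
      refine le_antisymm (Nat.minFac_le_of_dvd hp.two_le ⟨c * e, by ring⟩) ?_
      have c1 : c * (p * e) ≠ 1 := fun q =>
        hp.ne_one (Nat.eq_one_of_mul_eq_one_right (Nat.eq_one_of_mul_eq_one_left q))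
      have h1 := Nat.minFac_prime c1
      have h2 : (c * (p * e)).minFac ∣ p * (c * e) := by
        rw [show p * (c * e) = c * (p * e) by ring]
        exact Nat.minFac_dvd _
      rcases (Nat.Prime.dvd_mul h1).1 h2 with h3 | h3
      · exact ((Nat.prime_dvd_prime_iff_eq h1 hp).1 h3).ge
      · exact (hge _ h1 h3).le
    have f3 : Rough (qq z (c * (p * e))) (m / (p * e)) := fun q h1 h2 =>
      Nat.cast_le.2 ((min_le_left _ _).trans
        (f2.le.trans (hle q h1 (h2.trans (Nat.div_dvd_of_dvd d2)))))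
    have f4 : c * (p * e) / p = c * e := by
      rw [show c * (p * e) = p * (c * e) by ring, Nat.mul_div_cancel_left _ hp.pos]
    have f5 : ((c * e : ℕ) : ℝ) ≤ ((c * (p * e) : ℕ) : ℝ) :=
      Nat.cast_le.2 (Nat.mul_le_mul_left c (Nat.le_mul_of_pos_left e hp.pos))
    rw [Wt, Wt, if_neg f1]
    simp only [First, f2, f4, f3, and_true, not_le.2 hpz, false_or]
    by_cases h1 : ((c * (p * e) : ℕ) : ℝ) ≤ L
    · rw [if_pos h1, if_pos (f5.trans h1), if_neg fun q => not_lt.2 h1 q.1]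
      ring
    · by_cases h2 : ((c * e : ℕ) : ℝ) ≤ L
      · rw [if_neg h1, if_pos h2, if_pos ⟨not_le.1 h1, h2⟩]
        ring
      · rw [if_neg h1, if_neg h2, if_neg fun q => h2 q.2]
        ring

/-- comparison of two numbers through the first binary digit where they differ -/
theorem bits : ∀ (J q t : ℕ), q < 2 ^ J → t < 2 ^ J →
    (if q < t then (1 : ℝ) else 0) = ∑ j ∈ range J,
      if t / 2 ^ (j + 1) = q / 2 ^ (j + 1) ∧ t / 2 ^ j % 2 = 1 ∧ q / 2 ^ j % 2 = 0 then 1 else 0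
  | 0, q, t, h1, h2 => by
    rw [if_neg (by omega), range_zero, sum_empty]
  | J + 1, q, t, h1, h2 => by
    have ih := bits J (q / 2) (t / 2) (by omega) (by omega)
    simp only [Nat.div_div_eq_div_mul, ← pow_succ'] at ih
    rw [sum_range_succ', ← ih]
    simp only [zero_add, pow_one, pow_zero, Nat.div_one]
    split_ifs <;> first | omega | simp

/-- sums over factorisations of divisors -/
theorem sum_anti {k : ℕ} (G : ℕ → ℕ → ℝ) :
    ∑ D ∈ k.divisors, ∑ x ∈ D.divisorsAntidiagonal, G x.1 x.2 =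
      ∑ c ∈ k.divisors, ∑ e ∈ (k / c).divisors, G c e := by
  rw [sum_sigma', sum_sigma']
  refine sum_nbij' (fun x => ⟨x.2.1, x.2.2⟩) (fun x => ⟨x.1 * x.2, (x.1, x.2)⟩) ?_ ?_ ?_ ?_ ?_
  · rintro ⟨D, c, e⟩ h
    simp only [mem_sigma, Nat.mem_divisors, Nat.mem_divisorsAntidiagonal] at h ⊢
    obtain ⟨⟨h1, h2⟩, rfl, h3⟩ := h
    have h4 : c ∣ k := (dvd_mul_right c e).trans h1
    exact ⟨⟨h4, h2⟩, (Nat.dvd_div_iff_mul_dvd h4).2 h1,
      (Nat.div_pos (Nat.le_of_dvd (Nat.pos_of_ne_zero h2) h4)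
        (Nat.pos_of_ne_zero (left_ne_zero_of_mul h3))).ne'⟩
  · rintro ⟨c, e⟩ h
    simp only [mem_sigma, Nat.mem_divisors, Nat.mem_divisorsAntidiagonal] at h ⊢
    obtain ⟨⟨h1, h2⟩, h3, -⟩ := h
    have h4 := (Nat.dvd_div_iff_mul_dvd h1).1 h3
    exact ⟨⟨h4, h2⟩, trivial, ne_zero_of_dvd_ne_zero h2 h4⟩
  · rintro ⟨D, c, e⟩ h
    simp only [mem_sigma, Nat.mem_divisorsAntidiagonal] at h
    obtain ⟨-, rfl, -⟩ := h
    rfl
  · rintro ⟨c, e⟩ _
    rfl
  · rintro ⟨D, c, e⟩ _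
    rfl

/-- dividing by a coprime factor does not change a sum over divisors -/
theorem sum_div {k c : ℕ} (hk : k ≠ 0) (hc : c ∣ k) (g : ℕ → ℝ) (hg : ∀ e, g e ≠ 0 → c.Coprime e) :
    ∑ e ∈ (k / c).divisors, g e = ∑ e ∈ k.divisors, g e := by
  refine sum_subset (Nat.divisors_subset_of_dvd hk (Nat.div_dvd_of_dvd hc)) fun e h1 h2 => ?_
  by_contra h3
  refine h2 (Nat.mem_divisors.2 ⟨(Nat.dvd_div_iff_mul_dvd hc).2
    ((hg e h3).mul_dvd_of_dvd_of_dvd hc (Nat.dvd_of_mem_divisors h1)), ?_⟩)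
  exact (Nat.div_pos (Nat.le_of_dvd (Nat.pos_of_ne_zero hk) hc)
    (Nat.pos_of_dvd_of_pos hc (Nat.pos_of_ne_zero hk))).ne'

/-- bilinear forms as sums over factorisations -/
theorem sum_bil {M : ℕ} {r : ℕ → ℝ} (hr : ∀ k, M < k → r k = 0) (F : ℕ → ℕ → ℝ) :
    ∑ k ∈ Icc 1 M, (∑ x ∈ k.divisorsAntidiagonal, F x.1 x.2) * r k =
      ∑ m ∈ Icc 1 M, ∑ n ∈ Icc 1 M, F m n * r (m * n) := by
  rw [← sum_product']
  have e : Icc 1 M = Ioc 0 M := rfl
  have h1 : ∀ k ∈ Icc 1 M, (∑ x ∈ k.divisorsAntidiagonal, F x.1 x.2) * r k =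
      ∑ x ∈ Icc 1 M ×ˢ Icc 1 M, if x.1 * x.2 = k then F x.1 x.2 * r (x.1 * x.2) else 0 := by
    intro k hk
    rw [mem_Icc] at hk
    rw [Nat.divisorsAntidiagonal_eq_prod_filter_of_le (by omega) hk.2, ← e, sum_mul, sum_filter]
    refine sum_congr rfl fun x _ => ?_
    split_ifs with h
    · rw [h]
    · rfl
  rw [sum_congr rfl h1, sum_comm]
  refine sum_congr rfl fun x hx => ?_
  rw [sum_ite_eq]
  split_ifs with h
  · rfl
  · simp only [mem_product, mem_Icc] at hx h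
    have : 1 ≤ x.1 * x.2 := Nat.mul_pos hx.1.1 hx.2.1
    rw [hr _ (by omega), mul_zero]

/-- exchange of the order of summation -/
theorem sum_swap {M D : ℕ} (Λ ρ : ℕ → ℝ) (P : ℕ → Prop) [DecidablePred P]
    (h : ∀ n, Λ n ≠ 0 → n ≤ D ∧ P n) :
    ∑ k ∈ Icc 1 M, (∑ n ∈ k.divisors, Λ n) * ρ k =
      ∑ n ∈ Icc 1 D with P n, Λ n * ∑ k ∈ Icc 1 M with n ∣ k, ρ k := by
  simp only [mul_sum, sum_filter]
  have h1 : ∀ n ∈ Icc 1 D, (if P n then ∑ k ∈ Icc 1 M, Λ n * if n ∣ k then ρ k else 0 else 0) =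
      ∑ k ∈ Icc 1 M, Λ n * if n ∣ k then ρ k else 0 := by
    intro n _
    split_ifs with h2
    · rfl
    · have : Λ n = 0 := by
        by_contra h3
        exact h2 (h n h3).2
      simp [this]
  rw [sum_congr rfl h1, sum_comm]
  refine sum_congr rfl fun k hk => ?_
  rw [mem_Icc] at hk
  simp only [mul_ite, mul_zero]
  rw [← sum_filter, ← sum_mul]
  congr 1
  refine (sum_subset (fun n hn => ?_) fun n h1 h2 => ?_).symm
  · exact Nat.mem_divisors.2 ⟨(mem_filter.1 hn).2, by omega⟩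
  · by_contra h3
    exact h2 (mem_filter.2 ⟨mem_Icc.2 ⟨Nat.pos_of_mem_divisors h1, (h n h3).1⟩,
      Nat.dvd_of_mem_divisors h1⟩)

end Pool.Agent.Lib.MP_4b1228_nt.PP.S1
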