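import Pool.Agent.Lib.MP_4b1228_nt.PP.S1a

/-! The linear and the bilinear part of the abstract sieve. -/

open Finset Real
open scoped Classical

noncomputable section

namespace Pool.Agent.Lib.MP_4b1228_nt.PP.S1

theorem Sm.le {y : ℝ} {e kb : ℕ} (hy : 1 ≤ y) (h : Sm y e) (hk : om e ≤ kb) : (e : ℝ) ≤ y ^ kb := by
  refine le_trans ?_ (pow_le_pow_right₀ hy hk)
  rw [om, ← prod_const]
  conv_lhs => rw [← Nat.prod_primeFactors_of_squarefree h.1, Nat.cast_prod]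
  exact prod_le_prod (fun _ _ => Nat.cast_nonneg _) fun p hp =>
    (h.2 p (Nat.prime_of_mem_primeFactors hp) (Nat.dvd_of_mem_primeFactors hp)).le

theorem tiny_mul {y : ℝ} {d e : ℕ} (hd : Rough y d) (he : Sm y e) : tiny y (d * e) = om e := by
  rw [tiny, (cop hd he).primeFactors_mul, filter_union, filter_false_of_mem fun p hp => not_lt.2
    (hd p (Nat.prime_of_mem_primeFactors hp) (Nat.dvd_of_mem_primeFactors hp)), empty_union,
    filter_true_of_mem fun p hp =>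
      he.2 p (Nat.prime_of_mem_primeFactors hp) (Nat.dvd_of_mem_primeFactors hp), om]

/-- convolution of a function on rough numbers with a function on smooth numbers -/
theorem conv_rs {w L D₀ : ℝ} {D kb : ℕ} {l h : ℕ → ℝ} (hw : 1 ≤ w) (hL : 0 ≤ L)
    (hD : D₀ * w ^ kb ≤ D) (hl : ∀ d, d ≤ D → |l d| ≤ L)
    (hl' : ∀ d, l d ≠ 0 → Squarefree d ∧ Rough w d ∧ (d : ℝ) ≤ D₀)
    (hh : ∀ e, |h e| ≤ 1) (hh' : ∀ e, h e ≠ 0 → Sm w e ∧ om e ≤ kb) :
    ∃ Λ : ℕ → ℝ, (∀ n, |Λ n| ≤ L) ∧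
      (∀ n, Λ n ≠ 0 → n ≤ D ∧ Squarefree n ∧ ∃ e, h e ≠ 0 ∧ tiny w n = om e) ∧
      ∀ k, k ≠ 0 → (∑ d ∈ k.divisors, l d) * ∑ e ∈ k.divisors, h e = ∑ n ∈ k.divisors, Λ n := by
  have key : ∀ d e, l d * h e ≠ 0 → d * e ≤ D := fun d e h0 => by
    have h1 := hl' d (left_ne_zero_of_mul h0)
    have h2 := hh' e (right_ne_zero_of_mul h0)
    have h3 := mul_le_mul h1.2.2 (h2.1.le hw h2.2) (Nat.cast_nonneg _)
      ((Nat.cast_nonneg _).trans h1.2.2)
    exact_mod_cast h3.trans hD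
  refine ⟨fun n => ∑ x ∈ n.divisorsAntidiagonal, l x.1 * h x.2, fun n => ?_, fun n hn => ?_,
    fun k hk => ?_⟩
  · beta_reduce
    by_cases h0 : ∃ x ∈ n.divisorsAntidiagonal, l x.1 * h x.2 ≠ 0
    · obtain ⟨x, hx, h0⟩ := h0
      have a1 := hl' _ (left_ne_zero_of_mul h0)
      have a2 := hh' _ (right_ne_zero_of_mul h0)
      rw [sum_eq_single_of_mem x hx, abs_mul]
      · have := Nat.le_mul_of_pos_right x.1 (Nat.pos_of_ne_zero a2.1.1.ne_zero)
        simpa using mul_le_mul (hl _ (this.trans (key _ _ h0))) (hh x.2) (abs_nonneg _) hL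
      · intro y hy hne
        by_contra h1
        have b1 := hl' _ (left_ne_zero_of_mul h1)
        have b2 := hh' _ (right_ne_zero_of_mul h1)
        have e : y.1 * y.2 = x.1 * x.2 :=
          (Nat.mem_divisorsAntidiagonal.1 hy).1.trans (Nat.mem_divisorsAntidiagonal.1 hx).1.symm
        have e1 : y.1 = x.1 := Nat.dvd_antisymm
          ((cop b1.2.1 a2.1).dvd_of_dvd_mul_right (e ▸ dvd_mul_right _ _))
          ((cop a1.2.1 b2.1).dvd_of_dvd_mul_right (e ▸ dvd_mul_right _ _))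
        rw [e1] at e
        exact hne (Prod.ext e1 (Nat.eq_of_mul_eq_mul_left (Nat.pos_of_ne_zero a1.1.ne_zero) e))
    · simp only [not_exists, not_and, not_not] at h0
      rwa [sum_eq_zero h0, abs_zero]
  · obtain ⟨x, hx, h0⟩ := exists_ne_zero_of_sum_ne_zero hn
    have a1 := hl' _ (left_ne_zero_of_mul h0)
    have a2 := hh' _ (right_ne_zero_of_mul h0)
    rw [← (Nat.mem_divisorsAntidiagonal.1 hx).1]
    exact ⟨key _ _ h0, (Nat.squarefree_mul (cop a1.2.1 a2.1)).2 ⟨a1.1, a2.1.1⟩,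
      x.2, right_ne_zero_of_mul h0, tiny_mul a1.2.1 a2.1⟩
  · rw [sum_anti fun d e => l d * h e, sum_mul]
    refine sum_congr rfl fun d hd => ?_
    rw [← mul_sum]
    by_cases h0 : l d = 0
    · simp [h0]
    · rw [sum_div hk (Nat.dvd_of_mem_divisors hd) h fun e he => cop (hl' d h0).2.1 (hh' e he).1]

/-- the linear part, by the truncation of Brun -/
theorem typeI {a b l : ℕ → ℝ} {M D kb : ℕ} {w L D₀ E : ℝ} (hw : 1 ≤ w) (hL : 0 ≤ L) (hk : 1 ≤ kb)
    (hab : ∀ k, 1 ≤ k → 0 ≤ a k ∧ 0 ≤ b k)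
    (hD : D₀ * w ^ kb ≤ D) (hl : ∀ d, d ≤ D → |l d| ≤ L)
    (hl' : ∀ d, l d ≠ 0 → Squarefree d ∧ Rough w d ∧ (d : ℝ) ≤ D₀)
    (h1 : ∑ d ∈ Icc 1 D with Squarefree d, |∑ k ∈ Icc 1 M with d ∣ k, (a k - b k)| ≤ E)
    (h2 : ∑ d ∈ Icc 1 D with Squarefree d ∧ tiny w d = kb, ∑ k ∈ Icc 1 M with d ∣ k, b k ≤ E) :
    ∑ k ∈ Icc 1 M, (if Rough w k then ∑ d ∈ k.divisors, l d else 0) * (a k - b k) ≤ 4 * L * E := by
  obtain ⟨Λ, p1, p2, p3⟩ := conv_rs (h := fun e => if Sm w e then if om e < kb then sg e else 0 else 0)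
    hw hL hD hl hl' (fun e => by split_ifs <;> simp [abs_sg]) fun e he => by
      split_ifs at he with q1 q2
      · exact ⟨q1, q2.le⟩
      all_goals exact absurd rfl he
  obtain ⟨Λ', q1, q2, q3⟩ := conv_rs (l := fun d => |l d|)
    (h := fun e => if Sm w e then if om e = kb then (1 : ℝ) else 0 else 0)
    hw hL hD (fun d hd => by rw [abs_abs]; exact hl d hd) (fun d hd => hl' d (abs_ne_zero.1 hd))
    (fun e => by split_ifs <;> simp) fun e he => by
      split_ifs at he with q1 q2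
      · exact ⟨q1, q2.le⟩
      all_goals exact absurd rfl he
  have s1 : ∑ k ∈ Icc 1 M, (if Rough w k then ∑ d ∈ k.divisors, l d else 0) * (a k - b k) ≤
      ∑ k ∈ Icc 1 M, ((∑ n ∈ k.divisors, Λ n) * (a k - b k) +
        (∑ n ∈ k.divisors, Λ' n) * (a k + b k)) := by
    refine sum_le_sum fun k hk' => ?_
    have k1 := (mem_Icc.1 hk').1
    have k0 : k ≠ 0 := by omega
    rw [← p3 k k0, ← q3 k k0]
    have c1 := bonf (y := w) k0 hk
    have c2 := abs_sum_le_sum_abs l k.divisors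
    have c3 : |a k - b k| ≤ a k + b k := by
      have := hab k k1
      rw [abs_le]
      constructor <;> linarith
    have c4 := mul_le_mul (mul_le_mul c2 c1 (abs_nonneg _) ((abs_nonneg _).trans c2)) c3
      (abs_nonneg _) (mul_nonneg ((abs_nonneg _).trans c2) ((abs_nonneg _).trans c1))
    rw [← abs_mul, ← abs_mul] at c4
    have c5 := (le_abs_self _).trans c4
    split_ifs at c5 ⊢ <;> linarith
  have s2 : ∑ k ∈ Icc 1 M, (∑ n ∈ k.divisors, Λ n) * (a k - b k) ≤ L * E := by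
    rw [sum_swap (D := D) Λ _ Squarefree fun n hn => ⟨(p2 n hn).1, (p2 n hn).2.1⟩]
    refine le_trans ?_ (mul_le_mul_of_nonneg_left h1 hL)
    rw [mul_sum]
    refine sum_le_sum fun n _ => le_trans (le_abs_self (Λ n * _)) ?_
    rw [abs_mul]
    exact mul_le_mul_of_nonneg_right (p1 n) (abs_nonneg _)
  have s3 : ∑ k ∈ Icc 1 M, (∑ n ∈ k.divisors, Λ' n) * (a k + b k) ≤ L * (E + 2 * E) := by
    rw [sum_swap (D := D) Λ' _ (fun d => Squarefree d ∧ tiny w d = kb) fun n hn => by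
      obtain ⟨r1, r2, e, r3, r4⟩ := q2 n hn
      refine ⟨r1, r2, r4.trans ?_⟩
      by_contra r5
      simp [r5] at r3]
    have t1 : ∑ d ∈ Icc 1 D with Squarefree d ∧ tiny w d = kb,
        |∑ k ∈ Icc 1 M with d ∣ k, (a k - b k)| ≤ E :=
      (sum_le_sum_of_subset_of_nonneg (fun d hd => by
        rw [mem_filter] at hd ⊢
        exact ⟨hd.1, hd.2.1⟩) fun _ _ _ => abs_nonneg _).trans h1
    refine le_trans ?_ (mul_le_mul_of_nonneg_left
      (add_le_add t1 (mul_le_mul_of_nonneg_left h2 zero_le_two)) hL)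
    rw [mul_sum, ← sum_add_distrib, mul_sum]
    refine sum_le_sum fun n _ => ?_
    have t2 : 0 ≤ ∑ k ∈ Icc 1 M with n ∣ k, (a k + b k) := sum_nonneg fun k hk' => by
      have := hab k (mem_Icc.1 (mem_filter.1 hk').1).1
      linarith
    refine mul_le_mul ((le_abs_self _).trans (q1 n)) ?_ t2 hL
    refine le_trans (le_of_eq ?_) (add_le_add_left (le_abs_self _) _)
    rw [mul_sum, ← sum_add_distrib]
    exact sum_congr rfl fun k _ => by ring
  rw [sum_add_distrib] at s1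
  linarith

/-- the hypothesis on bilinear forms -/
def HII (M : ℕ) (r : ℕ → ℝ) (w WL WH E : ℝ) : Prop :=
  ∀ (α β : ℕ → ℝ) (u v : ℕ → ℕ), (∀ m, |α m| ≤ 1) → (∀ n, |β n| ≤ 1) →
    (∀ n, β n ≠ 0 → Squarefree n ∧ Rough w n ∧ WL ≤ n ∧ (n : ℝ) ≤ WH) → |bil M r α β u v| ≤ E

theorem typeII {M : ℕ} {r : ℕ → ℝ} {w WL WH E A : ℝ} (H : HII M r w WL WH E)
    (hr : ∀ k, M < k → r k = 0) (hA : 0 < A) {α β : ℕ → ℝ} (u v : ℕ → ℕ)
    (hα : ∀ m ∈ Icc 1 M, |α m| ≤ A) (hβ : ∀ n ∈ Icc 1 M, |β n| ≤ A)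
    (hs : ∀ n, β n ≠ 0 → Squarefree n ∧ Rough w n ∧ WL ≤ n ∧ (n : ℝ) ≤ WH) :
    |∑ k ∈ Icc 1 M, (∑ x ∈ k.divisorsAntidiagonal,
      if u x.1 = v x.2 then α x.1 * β x.2 else 0) * r k| ≤ A ^ 2 * E := by
  have nb : ∀ γ : ℕ → ℝ, (∀ m ∈ Icc 1 M, |γ m| ≤ A) →
      ∀ m, |if m ∈ Icc 1 M then γ m / A else 0| ≤ 1 := fun γ h m => by
    split_ifs with h1
    · rw [abs_div, abs_of_pos hA, div_le_one hA]
      exact h m h1
    · simp
  have h := H _ _ u v (nb α hα) (nb β hβ) fun n hn => hs n fun q => by simp [q] at hn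
  rw [sum_bil hr fun m n => if u m = v n then α m * β n else 0]
  refine le_trans (le_of_eq ?_) (mul_le_mul_of_nonneg_left h (sq_nonneg A))
  rw [← abs_of_nonneg (sq_nonneg A), ← abs_mul, bil, mul_sum]
  refine congrArg _ (sum_congr rfl fun m hm => ?_)
  rw [mul_sum]
  refine sum_congr rfl fun n hn => ?_
  rw [if_pos hm, if_pos hn]
  split_ifs
  · field_simp
  · simp

/-- the label of the cofactor -/
def tt (z : ℝ) (m : ℕ) : ℕ := (if m = 1 then ⌈z⌉₊ else min m.minFac ⌈z⌉₊) + 1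

theorem rough_qq {z : ℝ} {N m : ℕ} : Rough (qq z N) m ↔ qq z N < tt z m := by
  rw [tt, Nat.lt_succ_iff]
  split_ifs with h
  · subst h
    exact ⟨fun _ => min_le_right _ _, fun _ p hp h2 => absurd (Nat.dvd_one.1 h2) hp.ne_one⟩
  · exact ⟨fun h1 => le_min (Nat.cast_le.1 (h1 _ (Nat.minFac_prime h) (Nat.minFac_dvd m)))
      (min_le_right _ _), fun h1 p hp h2 => Nat.cast_le.2
        (h1.trans ((min_le_left _ _).trans (Nat.minFac_le_of_dvd hp.two_le h2)))⟩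

theorem typeII' {M : ℕ} {r : ℕ → ℝ} {w z WL WH E A : ℝ} (H : HII M r w WL WH E)
    (hr : ∀ k, M < k → r k = 0) (hA : 0 < A) (hz : z ≤ M) {α β : ℕ → ℝ}
    (hα : ∀ m ∈ Icc 1 M, |α m| ≤ A) (hβ : ∀ n ∈ Icc 1 M, |β n| ≤ A)
    (hs : ∀ n, β n ≠ 0 → Squarefree n ∧ Rough w n ∧ WL ≤ n ∧ (n : ℝ) ≤ WH) :
    ∑ k ∈ Icc 1 M, (∑ x ∈ k.divisorsAntidiagonal,
      if Rough (qq z x.2) x.1 then α x.1 * β x.2 else 0) * r k ≤
        (Nat.log 2 M + 2) * (A ^ 2 * E) := by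
  have hZ : ⌈z⌉₊ ≤ M := Nat.ceil_le.2 hz
  have hM : M < 2 ^ (Nat.log 2 M + 1) := Nat.lt_pow_succ_log_self one_lt_two M
  have e1 : ∀ m n : ℕ, (if Rough (qq z n) m then α m * β n else 0) =
      ∑ j ∈ range (Nat.log 2 M + 2), if tt z m / 2 ^ (j + 1) = qq z n / 2 ^ (j + 1) then
        (if tt z m / 2 ^ j % 2 = 1 then α m else 0) *
          (if qq z n / 2 ^ j % 2 = 0 then β n else 0) else 0 := by
    intro m n
    have b1 : qq z n ≤ ⌈z⌉₊ := min_le_right _ _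
    have b2 : tt z m ≤ ⌈z⌉₊ + 1 := by
      unfold tt
      split_ifs <;> omega
    have := bits (Nat.log 2 M + 2) (qq z n) (tt z m) (by rw [pow_succ]; omega)
      (by rw [pow_succ]; omega)
    rw [← boole_mul, if_congr rough_qq rfl rfl, this, sum_mul]
    refine sum_congr rfl fun j _ => ?_
    by_cases c1 : tt z m / 2 ^ (j + 1) = qq z n / 2 ^ (j + 1) <;>
      by_cases c2 : tt z m / 2 ^ j % 2 = 1 <;> by_cases c3 : qq z n / 2 ^ j % 2 = 0 <;>
      simp [c1, c2, c3]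
  simp only [e1]
  simp only [sum_comm (s := Nat.divisorsAntidiagonal _) (t := range _), sum_mul (s := range _)]
  rw [sum_comm]
  refine (sum_le_card_nsmul _ _ (A ^ 2 * E) fun j _ => (le_abs_self _).trans ?_).trans ?_
  · refine typeII H hr hA (fun m => tt z m / 2 ^ (j + 1)) (fun n => qq z n / 2 ^ (j + 1))
      (α := fun m => if tt z m / 2 ^ j % 2 = 1 then α m else 0)
      (β := fun n => if qq z n / 2 ^ j % 2 = 0 then β n else 0) (fun m hm => ?_) (fun n hn => ?_)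
      fun n hn => hs n fun q => by simp [q] at hn
    · split_ifs
      · exact hα m hm
      · simpa using hA.le
    · split_ifs
      · exact hβ n hn
      · simpa using hA.le
  · simp

end Pool.Agent.Lib.MP_4b1228_nt.PP.S1
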