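import Pool.Agent.Lib.MP_9177b7_ag.EQ.StN

/-!
Largest prime factor of `m ^ 2 + 1`: definitions and the statements of all blocks.
-/

open Finset Real Filter UpperHalfPlane MeasureTheory
open scoped MatrixGroups Classical

noncomputable section

namespace Pool.Agent.Lib.MP_4b1228_nt.PP

/-! ### Arithmetic -/

/-- Number of roots of `l ^ 2 + 1` modulo `k`. -/
def rho (k : ℕ) : ℕ := #{l ∈ range k | k ∣ l ^ 2 + 1}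

/-- The density of the isotropic points on the projective line modulo a squarefree number. -/
def gg (d : ℕ) : ℝ := ∏ p ∈ d.primeFactors, (rho p : ℝ) / (p + 1)

/-- All prime factors are at least `y`. -/
def Rough (y : ℝ) (k : ℕ) : Prop := ∀ p : ℕ, p.Prime → p ∣ k → y ≤ p

/-- The number of prime factors below `w`. -/
def tiny (w : ℝ) (d : ℕ) : ℕ := (d.primeFactors.filter fun p : ℕ => (p : ℝ) < w).card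

/-- The bound for the tiny primes. -/
def wX (X : ℝ) : ℝ := exp (log X ^ (2 / 3 : ℝ))

def RhoStmt : Prop :=
  (∀ a b : ℕ, a.Coprime b → rho (a * b) = rho a * rho b) ∧
  (∀ a b : ℕ, rho (a * b) ≤ rho a * rho b) ∧
  (∀ p j : ℕ, p.Prime → rho (p ^ j) ≤ 2) ∧
  (∀ p j : ℕ, p.Prime → p ≠ 2 → 1 ≤ j → rho (p ^ j) = if p % 4 = 1 then 2 else 0) ∧
  rho 1 = 1 ∧ rho 2 = 1 ∧
  (∀ k : ℕ, rho k ≤ k.divisors.card) ∧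
  (∀ (k : ℕ) (a : ℤ), #{l ∈ Ico a (a + k) | (k : ℤ) ∣ l ^ 2 + 1} = rho k) ∧
  (∀ (k : ℕ) (a : ℤ), Odd k → #{l ∈ Ico a (a + 2 * k) | Even l ∧ (k : ℤ) ∣ l ^ 2 + 1} = rho k) ∧
  (∀ d : ℕ, Squarefree d → 0 ≤ gg d ∧ gg d ≤ rho d / d ∧
    (rho d : ℝ) / d - gg d ≤ rho d / d * ∑ p ∈ d.primeFactors, 1 / (p : ℝ)) ∧
  (∀ x : ℕ, ∑ k ∈ (Icc 1 x : Finset ℕ), (rho k : ℝ) / k ≤ (1 + log x) ^ 2 ∧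
    ∑ k ∈ (Icc 1 x : Finset ℕ), (rho k : ℝ) / √k ≤ 4 * √x * (1 + log x)) ∧
  (∀ (y : ℝ) (m : ℕ), 1 < y → 1 ≤ m →
    (#{d ∈ m.divisors | Rough y d} : ℝ) ≤ 2 ^ (log m / log y))

/-- Mean value of `rho` on the odd multiples of `d`. -/
def RS (c : ℝ) : Prop :=
  ∀ ε : ℝ, 0 < ε → ∃ C : ℝ, 0 < C ∧ ∀ (x d : ℕ), 1 ≤ x → Squarefree d → Odd d →
    |∑ k ∈ (Icc 1 x : Finset ℕ) with Odd k ∧ d ∣ k, (rho k : ℝ) - c * gg d * x| ≤ C * ((d : ℝ) * x) ^ ε * √x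

def RSStmt : Prop := ∃ c : ℝ, 0 < c ∧ RS c

def MertStmt : Prop :=
  ∀ ε : ℝ, 0 < ε → ∃ y₀ : ℝ, 2 ≤ y₀ ∧ ∀ y y' : ℝ, y₀ ≤ y → y ≤ y' →
    ∑ p ∈ (Icc 1 ⌊y'⌋₊ : Finset ℕ) with Nat.Prime p ∧ y ≤ p, (rho p : ℝ) / p ≤ (1 + ε) * log (log y' / log y) + ε ∧
    ∑ p ∈ (Icc 1 ⌊y'⌋₊ : Finset ℕ) with Nat.Prime p ∧ y ≤ p, (rho p : ℝ) * log p / p ≤
      (1 + ε) * log (y' / y) + ε * log y' ∧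
    ∑ k ∈ (Icc 1 ⌊y⌋₊ : Finset ℕ), ArithmeticFunction.vonMangoldt k * (rho k : ℝ) / k ≤ (1 + ε) * log y

/-- Large proper prime powers are rare; a modulus with few reduced classes. -/
def PPStmt : Prop :=
  (∀ᶠ X : ℝ in atTop, (#{l ∈ (Icc (-⌈X⌉) ⌈X⌉ : Finset ℤ) | ∃ p j : ℕ, p.Prime ∧ 2 ≤ j ∧
    (p : ℤ) ^ j ∣ l ^ 2 + 1 ∧ X ^ (1 / 2 : ℝ) < (p : ℝ) ^ j} : ℝ) ≤ X ^ (9 / 10 : ℝ)) ∧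
  ∀ ε : ℝ, 0 < ε → ∃ P : ℕ, 1 ≤ P ∧ (Nat.totient P : ℝ) ≤ ε * P

/-! ### Geometry -/

/-- Hyperbolic distance between `x + i y` and `i Y`. -/
def hd (x y Y : ℝ) : ℝ := arcosh ((x ^ 2 + y ^ 2 + Y ^ 2) / (2 * y * Y))

/-- The point `i Y` (for `Y > 0`). -/
def ipt (Y : ℝ) : ℍ := ofComplex (Y * Complex.I)

def kk (γ : SL(2, ℤ)) : ℕ := (γ 1 0 ^ 2 + γ 1 1 ^ 2).toNat

def ll (γ : SL(2, ℤ)) : ℤ := γ 0 0 * γ 1 0 + γ 0 1 * γ 1 1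

def GeoStmt : Prop :=
  (∀ x y Y : ℝ, 0 < y → 0 < Y → 0 ≤ hd x y Y ∧
    cosh (hd x y Y) = (x ^ 2 + y ^ 2 + Y ^ 2) / (2 * y * Y) ∧
    (∀ x' : ℝ, |hd x y Y - hd x' y Y| ≤ |x - x'| / Y) ∧
    (∀ Y' : ℝ, 0 < Y' → |hd x y Y - hd x y Y'| ≤ |log (Y / Y')|) ∧
    (∀ y' : ℝ, 0 < y' → |hd x y Y - hd x y' Y| ≤ |log (y / y')|) ∧
    (∀ a : ℝ, 0 < a → hd (a * x) (a * y) (a * Y) = hd x y Y)) ∧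
  (∀ y Y : ℝ, 0 < y → 0 < Y → Continuous fun x => hd x y Y) ∧
  (∀ y : ℝ, 0 < y → Continuous fun p : ℝ × ℝ => hd p.1 y (exp p.2)) ∧
  (∀ (Y : ℝ) (z : ℍ), 0 < Y → dist (ipt Y) z = hd z.re z.im Y) ∧
  (ipt 1 = I) ∧
  (∀ (Y : ℝ) (γ : SL(2, ℤ)), 0 < Y →
    dist (ipt Y) (γ • I) = hd (ll γ / kk γ) (1 / kk γ) Y ∧
    2 * cosh (dist (ipt Y) (γ • ipt Y)) =
      (γ 0 0 : ℝ) ^ 2 + (γ 1 1 : ℝ) ^ 2 + (γ 0 1 : ℝ) ^ 2 / Y ^ 2 + (γ 1 0 : ℝ) ^ 2 * Y ^ 2) ∧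
  (∀ (γ : SL(2, ℤ)) (h : ℤ), 1 ≤ kk γ ∧ (kk γ : ℤ) = γ 1 0 ^ 2 + γ 1 1 ^ 2 ∧
    (kk γ : ℤ) * ((γ 0 0 + h * γ 1 0) ^ 2 + (γ 0 1 + h * γ 1 1) ^ 2) = (ll γ + h * kk γ) ^ 2 + 1 ∧
    (Even (ll γ) ↔ (2 : ℤ) ∣ (γ 0 0 + γ 1 0) ^ 2 + (γ 0 1 + γ 1 1) ^ 2)) ∧
  (∀ (z w : ℍ) (r : ℝ), {γ : SL(2, ℤ) | dist z (γ • w) ≤ r}.Finite) ∧
  (∀ (M : ℕ) (h : ℕ → ℤ → ℝ), (∀ k l, h k l ≠ 0 → k ≤ M) → (∀ k, {l | h k l ≠ 0}.Finite) →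
    {γ : SL(2, ℤ) | h (kk γ) (ll γ) ≠ 0}.Finite ∧
    ∑' γ : SL(2, ℤ), h (kk γ) (ll γ) =
      4 * ∑ k ∈ (Icc 1 M : Finset ℕ), ∑' l : ℤ, if (k : ℤ) ∣ l ^ 2 + 1 then h k l else 0)

/-- Admissible radial profiles. -/
structure Adm (X Λ : ℝ) (f : ℝ → ℝ) : Prop where
  nonneg : ∀ r, 0 ≤ f r
  supp : ∀ r, log X < r → f r = 0
  bd : ∀ r, 0 ≤ r → f r ≤ Λ * √(X / cosh r)
  lip : ∀ r r', 0 ≤ r → 0 ≤ r' → |r - r'| ≤ 1 → |f r - f r'| ≤ |r - r'| * Λ * √(X / cosh r)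

/-! ### The kernels -/

def tent (R r : ℝ) : ℝ := max 0 (min 1 (R - r))

/-- `ker R j` is the convolution of `j + 1` copies of the tent kernel. -/
def ker (R : ℝ) : ℕ → ℍ → ℍ → ℝ
  | 0 => fun z w => tent R (dist z w)
  | j + 1 => fun z w => ∫ v : ℍ, tent R (dist z v) * ker R j v w

/-- The convolution of `j ≥ 1` copies. -/
def kr (R : ℝ) (j : ℕ) : ℍ → ℍ → ℝ := ker R (j - 1)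

/-- Its radial profile. -/
def prof (R : ℝ) (j : ℕ) (r : ℝ) : ℝ := kr R j I (ipt (exp r))

def K1Stmt : Prop :=
  ∀ (R : ℝ) (j : ℕ), 1 ≤ R → 1 ≤ j →
    (Continuous fun p : ℍ × ℍ => kr R j p.1 p.2) ∧
    (∀ z w, 0 ≤ kr R j z w) ∧
    (∀ z w, kr R j z w = kr R j w z) ∧
    (∀ z w, j * R < dist z w → kr R j z w = 0) ∧
    (∀ (g : SL(2, ℝ)) (z w : ℍ), kr R j (g • z) (g • w) = kr R j z w) ∧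
    (∀ (g : SL(2, ℤ)) (z w : ℍ), kr R j (g • z) (g • w) = kr R j z w) ∧
    (∀ i, 1 ≤ i → ∀ z w, kr R (i + j) z w = ∫ v : ℍ, kr R i z v * kr R j v w) ∧
    (∀ z w, kr R j z w = prof R j (dist z w))

def K2Stmt : Prop :=
  ∃ C : ℝ, 1 ≤ C ∧ ∀ (R : ℝ) (j : ℕ), 2 ≤ R → 1 ≤ j →
    Adm (exp (j * R)) ((C * R) ^ j * (2 + j * R)) (prof R j)

/-- Horocycle integral. -/
def II (f : ℝ → ℝ) (v : ℝ) : ℝ := ∫ t : ℝ, f (hd t 1 v)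

/-- Total mass. -/
def Itot (f : ℝ → ℝ) : ℝ := ∫ s : ℝ, II f (exp s)

/-- The weight of the integer `l`. -/
def WW (f : ℝ → ℝ) (t : ℝ) : ℝ := ∫ s : ℝ, f (hd t 1 (exp s))

def K3Stmt : Prop :=
  ∃ c C : ℝ, 0 < c ∧ 0 < C ∧ ∀ (R : ℝ) (j : ℕ), 2 ≤ R → 1 ≤ j →
    (c * exp R) ^ j ≤ Itot (prof R j) ∧
    ∀ z : ℍ, ∑' γ : SL(2, ℤ), prof R j (dist z (γ • I)) ≤ C * Itot (prof R j)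

/-- The pairing of two finite families of weighted points of `𝒳 × ℍ`. -/
def QQ {𝒳 ι κ : Type} (act : SL(2, ℤ) → 𝒳 → 𝒳) (R : ℝ) (j : ℕ)
    (s : Finset ι) (c : ι → ℝ) (x : ι → 𝒳) (z : ι → ℍ)
    (s' : Finset κ) (c' : κ → ℝ) (x' : κ → 𝒳) (z' : κ → ℍ) : ℝ :=
  ∑ a ∈ s, ∑ b ∈ s', c a * c' b *
    ∑' γ : SL(2, ℤ), if act γ (x a) = x' b then kr R j (z a) (γ • z' b) else 0

/-- Cauchy-Schwarz inequality on the quotient. -/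
def K4Stmt : Prop :=
  ∀ (𝒳 ι κ : Type) [Fintype 𝒳] (act : SL(2, ℤ) → 𝒳 → 𝒳), (∀ x, act 1 x = x) →
    (∀ γ σ x, act (γ * σ) x = act σ (act γ x)) → ∀ (R : ℝ) (i j : ℕ), 1 ≤ R → 1 ≤ i → 1 ≤ j →
    ∀ (s : Finset ι) (c : ι → ℝ) (x : ι → 𝒳) (z : ι → ℍ)
      (s' : Finset κ) (c' : κ → ℝ) (x' : κ → 𝒳) (z' : κ → ℍ),
      0 ≤ QQ act R (2 * i) s c x z s c x z ∧
      QQ act R (i + j) s c x z s' c' x' z' ^ 2 ≤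
        QQ act R (2 * i) s c x z s c x z * QQ act R (2 * j) s' c' x' z' s' c' x' z'

/-- Equidistribution in large balls, with an exponent independent of the level. -/
def K5Stmt : Prop :=
  ∃ (δ : ℝ) (A : ℕ), 0 < δ ∧ ∀ q : ℕ, 1 ≤ q → ∃ C : ℝ, ∀ (X Λ : ℝ) (f : ℝ → ℝ), 3 ≤ X →
    Adm X Λ f → ∀ ψ : MP_9177b7_ag.EQ.M2 → ℝ, MP_9177b7_ag.EQ.Per q ψ →
      |∑' γ : SL(2, ℤ), (ψ (ModularGroup.T * γ).1 - ψ γ.1) * f (dist I (γ • I))| ≤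
        C * Λ * log X ^ A * X ^ (1 - δ)

/-- Unimodular rows modulo `q`. -/
def UU (q : ℕ) [NeZero q] : Finset (ZMod q × ZMod q) := {x | IsCoprime x.1 x.2}

/-- Right action on rows. -/
def ract {q : ℕ} (γ : SL(2, ℤ)) (x : ZMod q × ZMod q) : ZMod q × ZMod q :=
  (x.1 * (γ 0 0 : ℤ) + x.2 * (γ 1 0 : ℤ), x.1 * (γ 0 1 : ℤ) + x.2 * (γ 1 1 : ℤ))

/-- Indicator of the isotropic rows. -/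
def iso {q : ℕ} (x : ZMod q × ZMod q) : ℝ := if x.1 ^ 2 + x.2 ^ 2 = 0 then 1 else 0

def dt {q : ℕ} (x y : ZMod q × ZMod q) : ZMod q := x.1 * y.2 - x.2 * y.1

/-- Squared Frobenius norm. -/
def fro (γ : SL(2, ℤ)) : ℤ := γ 0 0 ^ 2 + γ 0 1 ^ 2 + γ 1 0 ^ 2 + γ 1 1 ^ 2

def K7Stmt : Prop :=
  (∀ (q : ℕ) (x : ZMod q × ZMod q), ract 1 x = x ∧
    ∀ γ σ : SL(2, ℤ), ract (γ * σ) x = ract σ (ract γ x)) ∧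
  (∀ (q : ℕ) [NeZero q] (γ : SL(2, ℤ)) (x : ZMod q × ZMod q), ract γ x ∈ UU q ↔ x ∈ UU q) ∧
  (∀ (q₁ q₂ : ℕ) [NeZero q₁] [NeZero q₂], q₁.Coprime q₂ → ∀ x₁ ∈ UU q₁, ∀ y₁ ∈ UU q₁,
    ∀ x₂ ∈ UU q₂, ∀ y₂ ∈ UU q₂, ∃ γ : SL(2, ℤ), ract γ x₁ = y₁ ∧ ract γ x₂ = y₂) ∧
  (∀ (q : ℕ) [NeZero q], Squarefree q →
    ∑ x ∈ UU q, iso x = Nat.totient q * rho q ∧ ∑ x ∈ UU q, iso x = gg q * #(UU q) ∧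
    ∀ γ : SL(2, ℤ), ∑ x ∈ UU q, (iso x + gg q) * (iso (ract γ x) + gg q) ≤
      Nat.totient q * ((if (q : ℤ) ∣ fro γ ^ 2 - 4 then (rho q : ℝ) else 0) + 3 * rho q * gg q))

/-- The engine. -/
def K6Stmt : Prop :=
  ∃ δ C : ℝ, 0 < δ ∧ 1 ≤ C ∧ ∀ (R : ℝ) (n₀ n₁ n₂ : ℕ), 2 ≤ R → 1 ≤ n₁ → 1 ≤ n₂ →
    ∀ (q₁ q₂ : ℕ) [NeZero q₁] [NeZero q₂], q₁.Coprime q₂ →
    ∀ W : ZMod q₁ × ZMod q₁ → ZMod q₂ × ZMod q₂ → ℝ,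
      (∀ (u₁ : (ZMod q₁)ˣ) (u₂ : (ZMod q₂)ˣ) x₁ x₂,
        W ((u₁ : ZMod q₁) • x₁) ((u₂ : ZMod q₂) • x₂) = W x₁ x₂) →
      ∑ x₁ ∈ UU q₁, ∑ x₂ ∈ UU q₂, W x₁ x₂ = 0 →
    ∀ (ι : Type) (s : Finset ι) (x₁ : ι → ZMod q₁ × ZMod q₁) (x₂ : ι → ZMod q₂ × ZMod q₂) (z : ℍ),
      (∀ a ∈ s, x₁ a ∈ UU q₁ ∧ x₂ a ∈ UU q₂) →
      (∑ a ∈ s, ∑' γ : SL(2, ℤ),
          W (ract γ (x₁ a)) (ract γ (x₂ a)) * kr R (n₀ + n₁ + n₂) z (γ • I)) ^ 2 ≤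
        (C * R * exp ((1 - δ) * R)) ^ (2 * n₀) *
        (∑' γ : SL(2, ℤ), (∑ y₁ ∈ UU q₁, ∑ y₂ ∈ UU q₂, |W y₁ y₂| * |W (ract γ y₁) (ract γ y₂)|) /
          (Nat.totient q₁ * Nat.totient q₂) * kr R (2 * n₁) I (γ • I)) *
        (∑ a ∈ s, ∑ b ∈ s, ∑' γ : SL(2, ℤ),
          if dt (ract γ (x₁ a)) (x₁ b) = 0 ∧ dt (ract γ (x₂ a)) (x₂ b) = 0 then
            kr R (2 * n₂) z (γ • z) else 0)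

/-- Truncated majorant. -/
def mj (U r : ℝ) : ℝ := if cosh r ≤ U then 1 / √(cosh r) else 0

/-- The determinant of the rows `(1, 2 i) γ` and `(1, 2 i')`. -/
def dl (γ : SL(2, ℤ)) (i i' : ℕ) : ℤ :=
  (γ 0 0 + 2 * i * γ 1 0) * (2 * i') - (γ 0 1 + 2 * i * γ 1 1)

/-- Counting matrices. -/
def K8Stmt : Prop :=
  ∀ ε : ℝ, 0 < ε → ∃ C : ℝ, 0 < C ∧ ∀ U Y : ℝ, 1 ≤ U → 0 < Y →
    ∑' γ : SL(2, ℤ), mj U (dist (ipt Y) (γ • ipt Y)) ≤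
      C * (U * (Y + 1 / Y)) ^ ε * (√U + Y + 1 / Y) ∧
    (∑' γ : SL(2, ℤ), if γ 1 0 = 0 then mj U (dist (ipt Y) (γ • ipt Y)) else 0) ≤
      C * U ^ ε * (1 + Y) ∧
    (1 ≤ Y → ∀ J : ℕ, ∑' γ : SL(2, ℤ), mj U (dist (ipt Y) (γ • ipt Y)) *
      (#{p ∈ range J ×ˢ range J | dl γ p.1 p.2 = 0} : ℝ) ^ 2 ≤ C * U ^ ε * J ^ 3)

/-! ### The two sequences -/

def sA (f : ℝ → ℝ) (Y : ℝ) (k : ℕ) : ℝ :=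
  ∑' l : ℤ, if Even l ∧ (k : ℤ) ∣ l ^ 2 + 1 then f (hd (l / k) (1 / k) Y) else 0

def sB (f : ℝ → ℝ) (Y : ℝ) (k : ℕ) : ℝ :=
  if Odd k then (rho k : ℝ) / (2 * k) * II f (k * Y) else 0

/-- Both sequences vanish beyond this bound. -/
def KM (X Y : ℝ) : ℕ := ⌊2 * X / Y⌋₊

def mu (X : ℝ) (f : ℝ → ℝ) (Y : ℝ) : ℝ := ∑ k ∈ (Icc 1 (KM X Y) : Finset ℕ), sA f Y k

def xi (n : ℕ) (m : ℤ) : ℝ := (if (n : ℤ) ∣ m then 1 else 0) - gg n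

def E1 (X η δ : ℝ) (f : ℝ → ℝ) : Prop :=
  ∀ Y : ℝ, X ^ (η - 1 / 2) ≤ Y → Y ≤ X ^ (η / 2) →
    ∑ d ∈ (Icc 1 ⌊X ^ (1 / 2 - η)⌋₊ : Finset ℕ) with Squarefree d ∧ Odd d,
      |∑ k ∈ (Icc 1 (KM X Y) : Finset ℕ) with d ∣ k, sA f Y k - gg d * mu X f Y| ≤ X ^ (1 - δ)

def E2 (X η δ : ℝ) (f : ℝ → ℝ) : Prop :=
  ∀ (N J : ℕ) (Y : ℝ), 1 ≤ Y → (J : ℝ) ≤ Y → Y ≤ N → (N : ℝ) ^ 4 ≤ Y * X ^ (1 - η) →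
    ∑ n ∈ (Icc 1 N ×ˢ Icc 1 N : Finset (ℕ × ℕ)) with n.1.Coprime n.2 ∧ Squarefree n.1 ∧ Squarefree n.2,
      |∑ i ∈ range J ×ˢ range J, ∑ k ∈ (Icc 1 (KM X Y) : Finset ℕ), ∑' l : ℤ,
        if (k : ℤ) ∣ l ^ 2 + 1 then
          xi n.1 (((l + 2 * i.1 * k) ^ 2 + 1) / k) * xi n.2 (((l + 2 * i.2 * k) ^ 2 + 1) / k) *
            f (hd (l / k) (1 / k) Y) else 0| ≤ Y ^ 2 * X ^ (1 - δ)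

def K9Stmt : Prop :=
  ∀ η : ℝ, 0 < η → ∃ n₀ : ℕ, ∀ n, n₀ ≤ n → ∃ δ : ℝ, 0 < δ ∧
    ∀ᶠ X : ℝ in atTop, E1 X η δ (prof (log X / n) n)

def K10Stmt : Prop :=
  ∀ η : ℝ, 0 < η → ∃ n₀ : ℕ, ∀ n, n₀ ≤ n → ∃ δ : ℝ, 0 < δ ∧
    ∀ᶠ X : ℝ in atTop, E2 X η δ (prof (log X / n) n)

/-- Everything the arithmetic side uses of the kernel. -/
def PackStmt : Prop :=
  ∃ C₀ : ℝ, 0 < C₀ ∧ ∀ η : ℝ, 0 < η → ∃ (A : ℕ) (δ c : ℝ), 0 < δ ∧ 0 < c ∧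
    ∀ᶠ X : ℝ in atTop, ∃ f : ℝ → ℝ, Adm X (log X ^ A) f ∧ E1 X η δ f ∧ E2 X η δ f ∧
      c * X ≤ Itot f ∧ ∀ Y : ℝ, 0 < Y → mu X f Y ≤ C₀ * Itot f

/-! ### Trivial counting -/

def maj (X r : ℝ) : ℝ := if r ≤ log X + 1 then √(X / cosh r) else 0

def I1Stmt : Prop :=
  ∃ C : ℝ, 0 < C ∧ ∀ (X Λ : ℝ) (f : ℝ → ℝ), 3 ≤ X → Adm X Λ f →
    (∀ v : ℝ, 0 < v → Integrable (fun t : ℝ => f (hd t 1 v)) ∧ 0 ≤ II f v ∧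
      II f v ≤ C * Λ * log X * √(X * v) ∧ (2 * X < v → II f v = 0) ∧
      ∀ v' : ℝ, 0 < v' → |log (v / v')| ≤ 1 →
        |II f v - II f v'| ≤ |log (v / v')| * (C * Λ * log X * √(X * v))) ∧
    (∀ v : ℝ, 0 < v → Integrable (fun s : ℝ => II f (v * exp s)) ∧
      ∫ s : ℝ, II f (v * exp s) = Itot f) ∧
    (∀ Y : ℝ, 0 < Y →
      |∑ k ∈ (Icc 1 (KM X Y) : Finset ℕ), II f (k * Y) / k - Itot f| ≤ C * Λ * log X * √(X * Y)) ∧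
    Itot f ≤ C * Λ * log X * X

def I2Stmt : Prop :=
  ∃ C : ℝ, 0 < C ∧ ∀ (X : ℝ), 3 ≤ X →
    (∀ (Y : ℝ) (M : ℕ), 0 < Y → ∑ k ∈ (Icc 1 M : Finset ℕ), (∑' l : ℤ,
      if (k : ℤ) ∣ l ^ 2 + 1 then maj X (hd (l / k) (1 / k) Y) else 0) ≤ C * X * log X ^ 2) ∧
    (∀ r r' : ℝ, 0 ≤ r → 0 ≤ r' → |r - r'| ≤ 1 → 0 ≤ maj X r ∧ maj X r ≤ maj (3 * X) r') ∧
    (∀ (Y : ℝ) (k : ℕ), 0 < Y → 1 ≤ k → {l : ℤ | maj X (hd (l / k) (1 / k) Y) ≠ 0}.Finite) ∧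
    ∀ (Λ : ℝ) (f : ℝ → ℝ), Adm X Λ f →
      (∀ r r', 0 ≤ r → 0 ≤ r' → |r - r'| ≤ 1 →
        f r ≤ Λ * maj X r ∧ |f r - f r'| ≤ |r - r'| * Λ * maj X r) ∧
      (∀ (Y : ℝ) (k : ℕ), 0 < Y → 1 ≤ k → 0 ≤ sA f Y k ∧ 0 ≤ sB f Y k ∧
        (Even k → sA f Y k = 0) ∧ (KM X Y < k → sA f Y k = 0 ∧ sB f Y k = 0) ∧
        ∀ l : ℤ, f (hd (l / k) (1 / k) Y) ≠ 0 → |(l : ℝ)| ≤ X ∧ k * Y ≤ 2 * X ∧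
          (l : ℝ) ^ 2 + 1 ≤ 2 * X * (k * Y) ∧
          f (hd (l / k) (1 / k) Y) ≤ Λ * √(X / √((l : ℝ) ^ 2 + 1))) ∧
      (∀ (Y : ℝ) (m : ℕ), 2 ≤ Y → 1 ≤ m →
        |sA f Y m - sB f Y m| ≤ C * Λ * log X * rho m * √(X / (m * Y))) ∧
      (∀ Y : ℝ, 0 < Y → mu X f Y = mu X f (1 / Y))

def I3Stmt : Prop :=
  ∃ C : ℝ, 0 < C ∧ ∀ (X Λ : ℝ) (f : ℝ → ℝ), 3 ≤ X → Adm X Λ f →
    (∀ t : ℝ, 0 ≤ WW f t ∧ WW f t ≤ C * Λ * log X * √(X / √(t ^ 2 + 1)) ∧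
      (X < |t| → WW f t = 0)) ∧
    (∀ k : ℕ, 1 ≤ k → Integrable (fun s : ℝ => sA f (exp s) k) ∧
      ∫ s : ℝ, sA f (exp s) k =
        ∑ l ∈ (Icc (-⌈X⌉) ⌈X⌉ : Finset ℤ) with Even l ∧ (k : ℤ) ∣ l ^ 2 + 1, WW f l) ∧
    (∀ (L₀ : ℝ) (q : ℕ) (r : ℤ), 1 ≤ q → (q : ℝ) ≤ L₀ → L₀ ≤ X →
      ∑ l ∈ (Icc (-⌈X⌉) ⌈X⌉ : Finset ℤ) with (q : ℤ) ∣ l - r ∧ L₀ ≤ |(l : ℝ)|, WW f l ≤
        Itot f / q + C * Λ * log X ^ 2 * √(X / L₀)) ∧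
    (∀ L₀ : ℝ, 2 ≤ L₀ → L₀ ≤ X →
      Itot f / 2 - C * Λ * log X ^ 2 * √(X * L₀) ≤
        ∑ l ∈ (Icc (-⌈X⌉) ⌈X⌉ : Finset ℤ) with (2 : ℤ) ∣ l ∧ L₀ ≤ |(l : ℝ)|, WW f l)

/-- Type I for the comparison sequence. -/
def B1Stmt : Prop :=
  ∀ c : ℝ, RS c → ∀ ε : ℝ, 0 < ε → ∃ C : ℝ, 0 < C ∧ ∀ (X Λ Y : ℝ) (f : ℝ → ℝ) (d : ℕ), 3 ≤ X →
    Adm X Λ f → 1 / X ≤ Y → Squarefree d → Odd d → (d : ℝ) ≤ X →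
      |∑ k ∈ (Icc 1 (KM X Y) : Finset ℕ) with d ∣ k, sB f Y k - c * gg d * Itot f / 2| ≤
        C * Λ * X ^ ε * √(X * Y)

/-! ### Arithmetic information -/

def T1Stmt : Prop :=
  ∀ c : ℝ, RS c → ∀ (A : ℕ) (η δ : ℝ), 0 < η → 0 < δ → ∃ δ' : ℝ, 0 < δ' ∧
    ∀ᶠ X : ℝ in atTop, ∀ f : ℝ → ℝ, Adm X (log X ^ A) f → E1 X η δ f →
      ∀ Y : ℝ, X ^ (η - 1 / 2) ≤ Y → Y ≤ X ^ (-η) →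
        ∑ d ∈ (Icc 1 ⌊X ^ (1 / 2 - η)⌋₊ : Finset ℕ) with Squarefree d,
          |∑ k ∈ (Icc 1 (KM X Y) : Finset ℕ) with d ∣ k, (sA f Y k - sB f Y k)| ≤ X ^ (1 - δ') ∧
        |mu X f Y - c * Itot f / 2| ≤ X ^ (1 - δ')

/-- A bilinear form with labels. -/
def bil (M : ℕ) (r : ℕ → ℝ) (α β : ℕ → ℝ) (u v : ℕ → ℕ) : ℝ :=
  ∑ m ∈ (Icc 1 M : Finset ℕ), ∑ n ∈ (Icc 1 M : Finset ℕ), if u m = v n then α m * β n * r (m * n) else 0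

def T2Stmt : Prop :=
  ∀ (A B : ℕ) (η δ : ℝ), 0 < η → 0 < δ →
    ∀ᶠ X : ℝ in atTop, ∀ f : ℝ → ℝ, Adm X (log X ^ A) f → E2 X η δ f →
      ∀ Y : ℝ, 1 / X ≤ Y → Y ≤ 1 → ∀ (α β : ℕ → ℝ) (u v : ℕ → ℕ),
        (∀ m, |α m| ≤ 1) → (∀ n, |β n| ≤ 1) →
        (∀ n, β n ≠ 0 → Squarefree n ∧ Rough (wX X) n ∧ X ^ η ≤ n * Y ∧
          (n : ℝ) ^ 3 ≤ Y * X ^ (1 - 2 * η)) →
        |bil (KM X Y) (fun k => sA f Y k - sB f Y k) α β u v| ≤ X / log X ^ B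

def T0Stmt : Prop :=
  ∀ (A B : ℕ) (η : ℝ), 0 < η → η ≤ 1 →
    ∀ᶠ X : ℝ in atTop, ∀ f : ℝ → ℝ, Adm X (log X ^ A) f →
      (∀ Y : ℝ, X ^ (-(1 / 2) : ℝ) ≤ Y → Y ≤ 1 →
        ∑ k ∈ (Icc 1 (KM X Y) : Finset ℕ) with Rough (wX X) k ∧ ¬ Squarefree k, (sA f Y k + sB f Y k) ≤
          X * exp (-√(log X))) ∧
      (∀ Y : ℝ, 1 / X ^ 2 ≤ Y →
        ∑ k ∈ (Icc 1 (KM X Y) : Finset ℕ) with ((k : ℕ) : ℝ) * Y ≤ X ^ (1 - η), (sA f Y k + sB f Y k) ≤ X ^ (1 - η / 5)) ∧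
      (∀ Y : ℝ, 1 / X ≤ Y → Y ≤ 1 →
        ∑ d ∈ (Icc 1 ⌊X⌋₊ : Finset ℕ) with Squarefree d ∧
            tiny (wX X) d = ⌊η * log X ^ (1 / 3 : ℝ)⌋₊,
          ∑ k ∈ (Icc 1 (KM X Y) : Finset ℕ) with d ∣ k, sB f Y k ≤ X / log X ^ B)

/-- Selberg sieve. -/
def SelStmt : Prop :=
  ∀ c : ℝ, 0 < c → RS c → ∀ (A : ℕ) (η δ : ℝ), 0 < η → η < 1 / 8 → 0 < δ →
    ∀ᶠ X : ℝ in atTop, ∀ f : ℝ → ℝ, Adm X (log X ^ A) f → E1 X η δ f →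
      ∀ Y : ℝ, X ^ (η - 1 / 2) ≤ Y → Y ≤ X ^ (η / 2) →
        ∑ p ∈ (Icc 1 (KM X Y) : Finset ℕ) with Nat.Prime p ∧ X ^ (1 / 4 : ℝ) < p, sA f Y p ≤
          mu X f Y / (c * (1 / 4 - η) * log X) + X ^ (1 - δ / 2)

/-! ### The sieve -/

/-- The majorant attached to four families of coefficients. -/
def Psi (z : ℝ) (B : ℕ) (f₁ f₂ g₁ g₂ : ℕ → ℕ → ℝ) (k : ℕ) : ℝ :=
  if Rough z k then ∑ j ∈ range B,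
    (∑ D ∈ k.divisors, ∑ x ∈ D.divisorsAntidiagonal, f₁ j x.1 * f₂ j x.2 -
      ∑ x ∈ k.divisorsAntidiagonal, g₁ j x.1 * g₂ j x.2) else 0

/-- Size and support conditions. -/
def Ok (WL WH D₂ : ℝ) (B : ℕ) (f₁ f₂ g₁ g₂ : ℕ → ℕ → ℝ) : Prop :=
  ∀ j d : ℕ, |f₁ j d| ≤ B ∧ |f₂ j d| ≤ B ∧ |g₁ j d| ≤ B ∧ |g₂ j d| ≤ B ∧
    (f₁ j d ≠ 0 → (d : ℝ) ≤ WH) ∧ (f₂ j d ≠ 0 → (d : ℝ) ≤ D₂) ∧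
    (g₂ j d ≠ 0 → WL ≤ d ∧ (d : ℝ) ≤ WH)

/-- The abstract sieve inequality. -/
def S1Stmt : Prop :=
  ∀ (a b : ℕ → ℝ) (M D B kb : ℕ) (w z WL WH D₂ lo Tz Tw E E₀ : ℝ) (f₁ f₂ g₁ g₂ : ℕ → ℕ → ℝ),
    (∀ k, 1 ≤ k → 0 ≤ a k ∧ 0 ≤ b k ∧ (M < k → a k = 0 ∧ b k = 0)) →
    1 < w → w ≤ z → z ≤ M → 1 ≤ WL → 1 ≤ D₂ → WL * z ≤ WH → 1 ≤ kb → WL * D₂ * w ^ kb ≤ D →
    1 ≤ Tz → 1 ≤ Tw → 0 ≤ E →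
    (∀ k ∈ (Icc 1 (max M D) : Finset ℕ), (#{d ∈ k.divisors | Rough z d} : ℝ) ≤ Tz) →
    (∀ k ∈ (Icc 1 M : Finset ℕ), (#{d ∈ k.divisors | Rough w d} : ℝ) ≤ Tw) →
    Ok WL WH D₂ B f₁ f₂ g₁ g₂ →
    (∀ k ∈ (Icc 1 M : Finset ℕ), Squarefree k → lo ≤ k → (if k.Prime then 1 else 0) ≤ Psi z B f₁ f₂ g₁ g₂ k) →
    ∑ d ∈ (Icc 1 D : Finset ℕ) with Squarefree d, |∑ k ∈ (Icc 1 M : Finset ℕ) with d ∣ k, (a k - b k)| ≤ E →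
    (∀ (α β : ℕ → ℝ) (u v : ℕ → ℕ), (∀ m, |α m| ≤ 1) → (∀ n, |β n| ≤ 1) →
      (∀ n, β n ≠ 0 → Squarefree n ∧ Rough w n ∧ WL ≤ n ∧ (n : ℝ) ≤ WH) →
      |bil M (fun k => a k - b k) α β u v| ≤ E) →
    ∑ d ∈ (Icc 1 D : Finset ℕ) with Squarefree d ∧ tiny w d = kb,
      ∑ k ∈ (Icc 1 M : Finset ℕ) with d ∣ k, b k ≤ E →
    ∑ k ∈ (Icc 1 M : Finset ℕ) with Rough w k ∧ (¬ Squarefree k ∨ (k : ℝ) < lo), (a k + b k) ≤ E₀ →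
    ∑ p ∈ (Icc 1 M : Finset ℕ) with Nat.Prime p ∧ lo ≤ p, a p ≤
      ∑ k ∈ (Icc 1 M : Finset ℕ) with Squarefree (k : ℕ) ∧ lo ≤ k, Psi z B f₁ f₂ g₁ g₂ k * b k +
        10 * B ^ 3 * Tz ^ 2 * (Nat.log 2 M + 3) * E + 4 * B ^ 3 * Tw ^ 3 * E₀

/-- A majorant for the primes in `[X ^ α₀, X ^ α₁]` of weighted mass at most `v`. -/
def Cell (α₀ α₁ v : ℝ) : Prop :=
  ∃ (B : ℕ) (wl wh d₂ : ℝ), α₁ - 1 < wl ∧ wl < wh ∧ 3 * wh < 2 - α₁ ∧ 0 < d₂ ∧ wl + d₂ < 1 / 2 ∧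
    ∀ᶠ X : ℝ in atTop, ∃ f₁ f₂ g₁ g₂ : ℕ → ℕ → ℝ,
      Ok (X ^ wl) (X ^ wh) (X ^ d₂) B f₁ f₂ g₁ g₂ ∧
      (∀ k : ℕ, Squarefree k → X ^ α₀ ≤ k → (k : ℝ) ≤ X ^ α₁ →
        (if k.Prime then 1 else 0) ≤ Psi (X ^ (wh - wl)) B f₁ f₂ g₁ g₂ k) ∧
      ∑ k ∈ (Icc 1 ⌊X ^ α₁⌋₊ : Finset ℕ) with Squarefree (k : ℕ) ∧ X ^ α₀ ≤ k,
        Psi (X ^ (wh - wl)) B f₁ f₂ g₁ g₂ k * (rho k / k) ≤ v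

/-- The certificate for the exponent `ϖ`. -/
def CertStmt (ϖ : ℝ) : Prop :=
  ∃ (m : ℕ) (β v : ℕ → ℝ) (ε : ℝ), 0 < ε ∧ 1 + ε < β 0 ∧ (∀ i < m, β i ≤ β (i + 1)) ∧
    β m ≤ 5 / 4 ∧ (∀ i < m, Cell (β i - ε) (β (i + 1) + ε) (v i)) ∧
    ∑ i ∈ range m, (β (i + 1) + ε) * v i + 2 * (β 0 ^ 2 - 1) + 2 * (ϖ ^ 2 - β m ^ 2) < 1

/-- The bound for the primes in one cell. -/
def CellStmt : Prop :=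
  ∀ α₀ α₁ v ε : ℝ, 0 < ε → 1 < α₀ → α₀ ≤ α₁ → α₁ ≤ 4 / 3 → Cell α₀ α₁ v → ∃ η₀ : ℝ, 0 < η₀ ∧
    ∀ (A : ℕ) (η δ : ℝ), 0 < η → η ≤ η₀ → 0 < δ →
    ∀ᶠ X : ℝ in atTop, ∀ f : ℝ → ℝ, Adm X (log X ^ A) f → E1 X η δ f → E2 X η δ f →
      ∀ P : Finset ℕ, (∀ p ∈ P, p.Prime) →
      ∫ s in Set.Icc ((1 - α₁ + ε) * log X) ((1 - α₀ - ε) * log X), ∑ p ∈ P, log p * sA f (exp s) p ≤
        α₁ * v * log X * Itot f / 2 + X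

/-- The theorem. -/
def MainStmt (ϖ : ℝ) : Prop :=
  {m : ℕ | (∃ q n : ℕ, q.Prime ∧ 1 < n ∧ m = 2 * q * n) ∧
    ∃ p : ℕ, p.Prime ∧ p ∣ m ^ 2 + 1 ∧ (m : ℝ) ^ ϖ < p}.Infinite

/-- The method of Chebyshev and Hooley. -/
def FinalStmt : Prop :=
  ∀ ϖ : ℝ, 5 / 4 ≤ ϖ → ϖ ≤ 7 / 5 → CertStmt ϖ → MainStmt ϖ

end Pool.Agent.Lib.MP_4b1228_nt.PP
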