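import Pool.Agent.Lib.MP_4b1228_nt.PP.St2e
import Pool.Agent.Lib.MP_4b1228_nt.PP.RowF

/-!
Harman's rows with a mean that depends on `X`.
-/

open Finset Real Filter
open scoped Classical

noncomputable section

namespace Pool.Agent.Lib.MP_4b1228_nt.PP

def HaFStmt : Prop :=
  ∀ (α₀ α₁ wl wh d₂ σ : ℝ) (B : ℕ) (f₁ f₂ g₁ g₂ : ℝ → ℕ → ℕ → ℝ), 1 < α₀ → α₀ ≤ α₁ →
    α₁ - 1 < wl → wl < wh → 3 * wh < 2 - α₁ → 0 < d₂ → wl + d₂ < 1 / 2 →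
    (∀ᶠ X : ℝ in atTop, Ok (X ^ wl) (X ^ wh) (X ^ d₂) B (f₁ X) (f₂ X) (g₁ X) (g₂ X)) →
    RowF (fun X n => σ * ∑ k ∈ n.divisors with Squarefree (k : ℕ) ∧ X ^ α₀ ≤ k ∧ (k : ℝ) ≤ X ^ α₁,
        Psi (X ^ (wh - wl)) B (f₁ X) (f₂ X) (g₁ X) (g₂ X) k)
      fun X => σ * ∑ k ∈ (Icc 1 ⌊X ^ α₁⌋₊ : Finset ℕ) with Squarefree (k : ℕ) ∧ X ^ α₀ ≤ k,
        Psi (X ^ (wh - wl)) B (f₁ X) (f₂ X) (g₁ X) (g₂ X) k * (rho k / k)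

def Ha2FStmt : Prop :=
  ∀ (α₀ α₁ wl wh d₂ σ : ℝ) (B : ℕ) (f₁ f₂ g₁ g₂ : ℝ → ℕ → ℕ → ℝ),
    α₁ - 1 < wl → 0 < wl → wl < wh → 3 * wh < 2 - α₁ → 0 < d₂ → wl + d₂ < 1 / 2 →
    (∀ᶠ X : ℝ in atTop, Ok (X ^ wl) (X ^ wh) (X ^ d₂) B (f₁ X) (f₂ X) (g₁ X) (g₂ X)) →
    RowF (fun X n => σ * ∑ k ∈ n.divisors with Squarefree (k : ℕ) ∧ X ^ α₀ ≤ k ∧ (k : ℝ) ≤ X ^ α₁,
        Psi (X ^ (wh - wl)) B (f₁ X) (f₂ X) (g₁ X) (g₂ X) k)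
      fun X => σ * ∑ k ∈ (Icc 1 ⌊X ^ α₁⌋₊ : Finset ℕ) with Squarefree (k : ℕ) ∧ X ^ α₀ ≤ k,
        Psi (X ^ (wh - wl)) B (f₁ X) (f₂ X) (g₁ X) (g₂ X) k * (rho k / k)

theorem ha2_of_F (hR : RowStmt) (h : Ha2FStmt) : Ha2Stmt :=
  fun α₀ α₁ wl wh d₂ σ _ B f₁ f₂ g₁ g₂ a1 a2 a3 a4 a5 a6 H =>
    (h α₀ α₁ wl wh d₂ σ B f₁ f₂ g₁ g₂ a1 a2 a3 a4 a5 a6 (H.mono fun _ h => h.1)).row hR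
      (H.mono fun _ h => h.2)

end Pool.Agent.Lib.MP_4b1228_nt.PP
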