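import Pool.Agent.Lib.MP_4b1228_nt.PP.SvD
import Pool.Agent.Lib.MP_4b1228_nt.PP.St2e

/-!
Rows at the level of configurations: a finite set `S` with a size function `x`.
The level `X` has size slightly more than `Q`, so that all range conditions are closed.
-/

open Finset Real Filter Topology
open scoped Classical

noncomputable section

namespace Pool.Agent.Lib.MP_4b1228_nt.PP.R3

/-- The size of `p` in units of `u * log X`. -/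
def sz (X u : ℝ) (p : ℕ) : ℝ := log p / (u * log X)

/-- A function of configurations. -/
abbrev Cf : Type := (ℕ → ℝ) → Finset ℕ → ℝ

/-- The mean of `G` on the primes of `l ^ 2 + 1` above `X ^ ε` is at least `v`, as `ε → 0`. -/
def RowC (u : ℝ) (G : Cf) (v : ℝ) : Prop :=
  ∀ τ : ℝ, 0 < τ → ∃ ε₀ : ℝ, 0 < ε₀ ∧ ∀ ε : ℝ, 0 < ε → ε ≤ ε₀ →
    Row (fun X n => G (sz X u) (RP X ε n)) (v - τ)

/-- The same for all rational units slightly below `1 / Q`. -/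
def RowQ (Q : ℕ) (G : Cf) (v : ℝ) : Prop :=
  ∃ u₀ : ℝ, 0 < u₀ ∧ u₀ * Q < 1 ∧ ∀ u : ℚ, u₀ < u → (u : ℝ) * Q < 1 → RowC u G v

/-- Rules for rows. -/
def RowQStmt : Prop :=
  ∀ Q : ℕ, 1 ≤ Q →
  (∀ a : ℝ, RowQ Q (fun _ _ => a) a) ∧
  (∀ G G' v v', RowQ Q G v → RowQ Q G' v' → RowQ Q (fun x S => G x S + G' x S) (v + v')) ∧
  (∀ G v (a : ℝ), 0 ≤ a → RowQ Q G v → RowQ Q (fun x S => a * G x S) (a * v)) ∧
  (∀ (ι : Type) (s : Finset ι) (G : ι → Cf) (v : ι → ℝ), (∀ i ∈ s, RowQ Q (G i) (v i)) →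
    RowQ Q (fun x S => ∑ i ∈ s, G i x S) (∑ i ∈ s, v i)) ∧
  (∀ (ι : Type) (s : List ι) (G : ι → Cf) (v : ι → ℝ), (∀ i ∈ s, RowQ Q (G i) (v i)) →
    RowQ Q (fun x S => (s.map fun i => G i x S).sum) (s.map v).sum) ∧
  (∀ (G G' : Cf) (v v' : ℝ), RowQ Q G v → v' ≤ v →
    (∀ (x : ℕ → ℝ) (S : Finset ℕ), (∀ p ∈ S, 0 < x p) → ∑ p ∈ S, x p ≤ 2 * (Q : ℝ) + 1 →
      G x S ≤ G' x S) → RowQ Q G' v')

/-- A certificate at the level of configurations. -/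
def Cert3 (θ : ℝ) : Prop :=
  ∃ (Q : ℕ) (Θ κ v v' C : ℝ) (G : Cf), 1 ≤ Q ∧ θ * Q ≤ Θ ∧ 0 < κ ∧ v' < v ∧ RowQ Q G v ∧
    ∀ (x : ℕ → ℝ) (S : Finset ℕ), (∀ p ∈ S, 0 < x p) → ∑ p ∈ S, x p ≤ 2 * (Q : ℝ) + 1 →
      G x S ≤ C ∧ ((∀ p ∈ S, x p ≤ Θ + κ) → 2 * Q - κ ≤ ∑ p ∈ S, x p →
        ∑ p ∈ S, x p ≤ 2 * Q + κ → G x S ≤ v')

def Glob3Stmt : Prop := ∀ θ : ℝ, 1 ≤ θ → θ ≤ 2 → Cert3 θ → Glob θ

/-! ### Tuples of distinct primes -/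

/-- The sum over ordered tuples of distinct elements of `S` of the product of the weights. -/
def tupF : List (ℕ → ℝ) → Finset ℕ → ℝ
  | [], _ => 1
  | φ :: L, S => ∑ p ∈ S, φ p * tupF L (S.erase p)

/-- A cell `[a, b)` with an affine weight and a side. -/
structure Cel where
  a : ℝ
  b : ℝ
  α : ℝ
  β : ℝ
  side : Bool

def Cel.w (c : Cel) (t : ℝ) : ℝ := if c.a ≤ t ∧ t < c.b then c.α + c.β * t else 0

def Cel.I (c : Cel) : ℝ := c.α * log (c.b / c.a) + c.β * (c.b - c.a)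

def tup (L : List Cel) : Cf := fun x S => tupF (L.map fun c p => c.w (x p)) S

/-- The size of the small part. -/
def rr (Z : ℝ) : Cf := fun x S => ∑ p ∈ S with x p < Z, x p

def mM (L : List Cel) : ℝ := (L.map fun c => if c.side then 0 else c.b).sum

def mN (L : List Cel) : ℝ := (L.map fun c => if c.side then c.b else 0).sum

/-- Moments of the small part. -/
def mom (Z : ℝ) : ℕ → ℝ
  | 0 => 1
  | 1 => Z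
  | 2 => 3 / 2 * Z ^ 2
  | _ => 17 / 6 * Z ^ 3

/-- Exact rows: `j₁` small primes on the long side, `j₂` on the short side. -/
def EStmt : Prop :=
  ∀ (Q j₁ j₂ : ℕ) (Z σ : ℝ) (L : List Cel), 1 ≤ Q → 0 < Z → j₁ + j₂ ≤ 3 →
    (∀ c ∈ L, Z ≤ c.a ∧ c.a ≤ c.b) → mM L + j₁ * Z ≤ Q →
    4 * (mN L + j₂ * Z) + (mM L + j₁ * Z) ≤ 2 * Q →
    RowQ Q (fun x S => σ * (rr Z x S ^ (j₁ + j₂) * tup L x S))
      (σ * (mom Z (j₁ + j₂) * (L.map Cel.I).prod))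

/-! ### Sieved rows -/

/-- The small primes. -/
def PS (X ε u Z : ℝ) : Finset ℕ := (PR X ε).filter fun p : ℕ => sz X u p < Z

/-- The mean of `χ` of the size of the small part in the independent model. -/
def EM (X ε u Z : ℝ) (χ : ℝ → ℝ) : ℝ :=
  ∑ S ∈ (PS X ε u Z).powerset,
    (∏ p ∈ S, gp p) * (∏ p ∈ PS X ε u Z \ S, (1 - gp p)) * χ (∑ p ∈ S, sz X u p)

/-- `v` is an asymptotic lower bound for the model mean of `χ`. -/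
def Law (Z : ℝ) (χ : ℝ → ℝ) (v : ℝ) : Prop :=
  ∀ u τ : ℝ, 0 < u → u * Z ≤ 1 → 0 < τ → ∃ ε₀ : ℝ, 0 < ε₀ ∧ ∀ ε : ℝ, 0 < ε → ε ≤ ε₀ →
    ∀ᶠ X : ℝ in atTop, v - τ ≤ EM X ε u Z χ

/-- Rows with a visible small part. -/
def SStmt (N : ℕ) (F f : ℕ → ℝ) : Prop :=
  ∀ (Q Z i : ℕ) (r₁ D₁ D₂ B v : ℝ) (L : List Cel) (χ : ℝ → ℝ), 1 ≤ Z → Z ≤ Q →
    (∀ c ∈ L, (Z : ℝ) ≤ c.a ∧ c.a ≤ c.b ∧ ∀ t, 0 ≤ c.w t) →
    (∀ t, 0 ≤ χ t ∧ χ t ≤ B ∧ (χ t ≠ 0 → t ≤ r₁)) → 0 ≤ r₁ → 0 ≤ D₁ → 0 ≤ D₂ →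
    mM L + r₁ + D₁ ≤ Q → 4 * (mN L + D₂) + (mM L + r₁ + D₁) ≤ 2 * Q →
    (i : ℝ) * Z ≤ N * (D₁ + D₂) →
    (1 ≤ i → 0 ≤ F i → 0 ≤ v → Law Z (fun t => -χ t) (-v) →
      RowQ Q (fun x S => -(χ (rr Z x S) * tup L x S)) (-(F i * v * (L.map Cel.I).prod))) ∧
    (2 * N ≤ i → 1 ≤ N → 0 ≤ f i → 0 ≤ v → Law Z χ v →
      RowQ Q (fun x S => χ (rr Z x S) * tup L x S) (f i * v * (L.map Cel.I).prod))

/-- One large prime. -/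
def PStmt : Prop :=
  ∀ (Q : ℕ) (c : Cel), 1 ≤ Q → (Q : ℝ) < c.a → c.a ≤ c.b → 2 * c.b ≤ 3 * Q → (∀ t, 0 ≤ c.w t) →
    RowQ Q (fun x S => -tup [c] x S)
      (-(4 * (c.b - c.a) * (c.α + c.β * ((c.a + c.b) / 2)) / Q))

/-! ### Rows that are exact by Harman's sieve -/

/-- The weight of a set `K` of large primes. -/
def hw (A : ℝ) (ψ : ℝ → ℝ) (W : ℝ → ℝ → ℝ) (x : ℕ → ℝ) (K : Finset ℕ) : ℝ :=
  if ∑ p ∈ K, x p ≤ A then ψ (∑ p ∈ K, x p) + ∑ q ∈ K, W (x q) (∑ p ∈ K, x p) else 0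

def HT (Z A : ℝ) (ψ : ℝ → ℝ) (W : ℝ → ℝ → ℝ) : Cf :=
  fun x S => ∑ K ∈ (S.filter fun p => Z ≤ x p).powerset, hw A ψ W x K

/-- The model mean. -/
def HM (X u Z A : ℝ) (ψ : ℝ → ℝ) (W : ℝ → ℝ → ℝ) : ℝ :=
  ∑ K ∈ (PR X (u * Z)).powerset, (∏ p ∈ K, gp p) * hw A ψ W (sz X u) K

def LawH (Z A : ℝ) (ψ : ℝ → ℝ) (W : ℝ → ℝ → ℝ) (v : ℝ) : Prop :=
  ∀ u τ : ℝ, 0 < u → u * A ≤ 2 → 0 < τ → ∀ᶠ X : ℝ in atTop, v - τ ≤ HM X u Z A ψ W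

def HStmt : Prop :=
  ∀ (Q : ℕ) (Z A B v : ℝ) (ψ : ℝ → ℝ) (W : ℝ → ℝ → ℝ), 1 ≤ Q → 0 < Z → 0 ≤ A → 7 * A ≤ 8 * Q →
    3 * Z + A ≤ 2 * Q →
    (∀ t t', |ψ t| ≤ B ∧ |ψ t - ψ t'| ≤ B * |t - t'|) →
    (∀ y t t', |W y t| ≤ B ∧ |W y t - W y t'| ≤ B * |t - t'| ∧
      (W y t ≠ 0 → t ≤ Q ∨ 2 * (y + t) ≤ 3 * Q)) →
    LawH Z A ψ W v → RowQ Q (HT Z A ψ W) v

/-- The equation lemmas are realized here, once. -/
theorem once3 : True := by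
  have := @tupF.eq_def
  have := @tupF.eq_1
  have := @tupF.eq_2
  have := @mom.eq_def
  have := @mom.eq_1
  have := @mom.eq_2
  have := @mom.eq_3
  have := @mom.eq_4
  trivial

end Pool.Agent.Lib.MP_4b1228_nt.PP.R3
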