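import Pool.Agent.Lib.MP_4b1228_nt.PP.St3
import Pool.Agent.Lib.MP_4b1228_nt.PP.Tu0

/-!
Sieved rows with a larger sieving limit.
-/

open Finset Real Filter Topology
open scoped Classical

noncomputable section

namespace Pool.Agent.Lib.MP_4b1228_nt.PP.R3

/-- Tuples of elements of size at least `Z` that contain all elements of size in `[Z, Z₂)`. -/
def tupE (L : List Cel) (Z Z₂ : ℝ) : Cf := fun x S =>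
  ∑ K ∈ (S.filter fun p => Z ≤ x p).powerset with ∀ p ∈ S, Z ≤ x p → x p < Z₂ → p ∈ K,
    Tu.bij (L.map fun c p => c.w (x p)) K

/-- Rows with a visible small part, sieved up to `Z₂`. -/
def S2Stmt (N : ℕ) (F f : ℕ → ℝ) : Prop :=
  ∀ (Q Z Z₂ i : ℕ) (r₁ D₁ D₂ B v : ℝ) (L : List Cel) (χ : ℝ → ℝ), 1 ≤ Z → Z ≤ Z₂ → Z₂ ≤ Q →
    (∀ c ∈ L, (Z : ℝ) ≤ c.a ∧ c.a ≤ c.b ∧ ∀ t, 0 ≤ c.w t) →
    (∀ t, 0 ≤ χ t ∧ χ t ≤ B ∧ (χ t ≠ 0 → t ≤ r₁)) → 0 ≤ r₁ → 0 ≤ D₁ → 0 ≤ D₂ →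
    mM L + r₁ + D₁ ≤ Q → 4 * (mN L + D₂) + (mM L + r₁ + D₁) ≤ 2 * Q →
    (i : ℝ) * Z₂ ≤ N * (D₁ + D₂) →
    (1 ≤ i → 0 ≤ F i → 0 ≤ v → Law Z (fun t => -χ t) (-v) →
      RowQ Q (fun x S => -(χ (rr Z x S) * tupE L Z Z₂ x S))
        (-(F i * v * ((Z : ℝ) / Z₂ * (L.map Cel.I).prod)))) ∧
    (2 * N ≤ i → 1 ≤ N → 0 ≤ f i → 0 ≤ v → Law Z χ v →
      RowQ Q (fun x S => χ (rr Z x S) * tupE L Z Z₂ x S)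
        (f i * v * ((Z : ℝ) / Z₂ * (L.map Cel.I).prod)))

/-- The model mean of `tupE`. -/
def TM (X ε u Z Z₂ : ℝ) (L : List Cel) : ℝ :=
  ∑ K ∈ ((PR X ε).filter fun p => Z ≤ sz X u p).powerset,
    Tu.bij (L.map fun c p => c.w (sz X u p)) K * (∏ p ∈ K, gp p) *
      ∏ p ∈ PR X ε with Z ≤ sz X u p ∧ sz X u p < Z₂ ∧ p ∉ K, (1 - gp p)

def TM2Stmt : Prop :=
  ∀ (ε u Z Z₂ : ℝ) (L : List Cel), 0 < ε → 0 < u → ε ≤ u * Z → Z ≤ Z₂ → u * Z₂ ≤ 1 →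
    (∀ c ∈ L, Z ≤ c.a ∧ c.a ≤ c.b ∧ u * c.b ≤ 1 ∧ ∀ t, 0 ≤ c.w t) →
    Tendsto (fun X : ℝ => TM X ε u Z Z₂ L) atTop (𝓝 (Z / Z₂ * (L.map Cel.I).prod))

end Pool.Agent.Lib.MP_4b1228_nt.PP.R3
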