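import Pool.Agent.Lib.MP_4b1228_nt.PP.St2
import Pool.Agent.Lib.MP_4b1228_nt.PP.LSt

/-!
Rows as functions of the set of large primes: exact rows and sieved rows.
-/

open Finset Real Filter
open scoped Classical

noncomputable section

namespace Pool.Agent.Lib.MP_4b1228_nt.PP

/-- Convolution of set functions. -/
def cv (A B : Finset ℕ → ℝ) (T : Finset ℕ) : ℝ := ∑ U ∈ T.powerset, A U * B (T \ U)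

/-- The primes in `[X ^ ε, X ^ 2]`. -/
def PR (X ε : ℝ) : Finset ℕ := (Icc 1 ⌊X ^ 2⌋₊).filter fun p : ℕ => p.Prime ∧ X ^ ε ≤ p

/-- The density at a prime. -/
def gp (p : ℕ) : ℝ := rho p / p

/-- Exact rows. -/
def ExSetStmt : Prop :=
  ∀ (ε γ v : ℝ) (B : ℕ) (a b : ℕ → ℝ) (U V : ℝ → ℕ → Finset ℕ → ℝ), 0 < ε → 0 < γ →
    (∀ j < B, a j ≤ 1 - γ ∧ 4 * b j + a j ≤ 2 - γ) →
    (∀ᶠ X : ℝ in atTop, (∀ j < B, ∀ T : Finset ℕ, (∀ p ∈ T, p.Prime ∧ X ^ ε ≤ p) →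
        |U X j T| ≤ B ∧ |V X j T| ≤ B ∧ (U X j T ≠ 0 → ∏ p ∈ T, (p : ℝ) ≤ X ^ a j) ∧
          (V X j T ≠ 0 → ∏ p ∈ T, (p : ℝ) ≤ X ^ b j)) ∧
      v ≤ ∑ T ∈ (PR X ε).powerset, (∑ j ∈ range B, cv (U X j) (V X j) T) * ∏ p ∈ T, gp p) →
    Row (fun X n => ∑ T ∈ (RP X ε n).powerset, ∑ j ∈ range B, cv (U X j) (V X j) T) v

/-- The sum of `W` over the sets of large primes of `n` that contain all those of rounded size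
at most `Z`. -/
def phi (X ε : ℝ) (Q Z : ℕ) (W : Finset ℕ → ℝ) (n : ℕ) : ℝ :=
  ∑ T ∈ (RP X ε n).powerset with ∀ p ∈ RP X ε n, LS.hq X Q p ≤ Z → p ∈ T, W T

/-- Its mean in the independent model. -/
def MS (X ε : ℝ) (Q Z : ℕ) (W : Finset ℕ → ℝ) : ℝ :=
  ∑ T ∈ (PR X ε).powerset, W T * (∏ p ∈ T, gp p) *
    ∏ p ∈ PR X ε with LS.hq X Q p ≤ Z ∧ p ∉ T, (1 - gp p)

/-- Sieved rows. -/
def SvStmt (N : ℕ) (F f : ℕ → ℝ) : Prop :=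
  ∀ ε γ : ℝ, 0 < ε → 0 < γ → ∃ Q₀ : ℕ, ∀ Q : ℕ, Q₀ ≤ Q →
    ∀ (Z D L₁ L₂ i B : ℕ) (a b v : ℝ) (U V : ℝ → Finset ℕ → ℝ), 1 ≤ Z → Z ≤ Q → D ≤ 2 * Q →
      D ≤ L₁ + L₂ → i * Z ≤ N * D → a + L₁ / Q ≤ 1 - γ →
      4 * (b + L₂ / Q) + (a + L₁ / Q) ≤ 2 - γ →
      (∀ᶠ X : ℝ in atTop, ∀ T : Finset ℕ, (∀ p ∈ T, p.Prime ∧ X ^ ε ≤ p) →
        0 ≤ U X T ∧ U X T ≤ B ∧ 0 ≤ V X T ∧ V X T ≤ B ∧
          (U X T ≠ 0 → ∏ p ∈ T, (p : ℝ) ≤ X ^ a) ∧ (V X T ≠ 0 → ∏ p ∈ T, (p : ℝ) ≤ X ^ b)) →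
      (1 ≤ i → (∀ᶠ X : ℝ in atTop, F i * MS X ε Q Z (cv (U X) (V X)) ≤ v) →
        Row (fun X n => -phi X ε Q Z (cv (U X) (V X)) n) (-v)) ∧
      (2 * Z ≤ D → 2 * N ≤ i → (∀ᶠ X : ℝ in atTop, v ≤ f i * MS X ε Q Z (cv (U X) (V X))) →
        Row (fun X n => phi X ε Q Z (cv (U X) (V X)) n) v)

end Pool.Agent.Lib.MP_4b1228_nt.PP
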