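import Pool.Agent.Lib.MP_4b1228_nt.PP.St

/-! Type I information for the difference of the two sequences. -/

open Finset Real Filter
open scoped Classical

noncomputable section

namespace Pool.Agent.Lib.MP_4b1228_nt.PP

namespace T1

theorem ev_log (K θ : ℝ) (n : ℕ) (hθ : 0 < θ) :
    ∀ᶠ X : ℝ in atTop, K * log X ^ n ≤ X ^ θ := by
  have h := (isLittleO_log_rpow_rpow_atTop (n : ℝ) hθ).const_mul_left K
  filter_upwards [h.bound one_pos, eventually_ge_atTop (1 : ℝ)] with X hX h1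
  rw [rpow_natCast, one_mul, Real.norm_of_nonneg (by positivity : 0 ≤ X ^ θ)] at hX
  exact (le_abs_self _).trans hX

theorem log_nat_le {x : ℕ} {y : ℝ} (hy : 1 ≤ y) (h : (x : ℝ) ≤ y) : log x ≤ log y := by
  rcases Nat.eq_zero_or_pos x with rfl | hx
  · simpa using log_nonneg hy
  · exact log_le_log (by exact_mod_cast hx) h

end T1

open T1 in
theorem t1 (hR : RhoStmt) (h2 : I2Stmt) (hB : B1Stmt) : T1Stmt := by
  intro c hc A η δ hη hδ
  obtain ⟨-, -, -, -, -, -, -, -, -, hg, hs, -⟩ := hR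
  obtain ⟨C2, hC2, h2⟩ := h2
  set θ : ℝ := min (min (η / 2) δ) (1 / 8) with hθd
  have hθ : 0 < θ := by positivity
  have hθ1 : θ ≤ η / 2 := (min_le_left _ _).trans (min_le_left _ _)
  have hθ2 : θ ≤ δ := (min_le_left _ _).trans (min_le_right _ _)
  have hθ3 : θ ≤ 1 / 8 := min_le_right _ _
  obtain ⟨C1, hC1, hB⟩ := hB c hc θ hθ
  refine ⟨θ / 2, by positivity, ?_⟩
  filter_upwards [ev_log (1 + 4 * (24 * C2 + C1) + C1) (θ / 2) (A + 4) (by positivity),
    eventually_ge_atTop (3 : ℝ), (tendsto_rpow_atTop hη).eventually_ge_atTop 2] with X hK hX hX2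
  intro f hf hE Y hY1 hY2
  obtain ⟨-, -, -, h2⟩ := h2 X hX
  obtain ⟨-, h2a, h2b, h2c⟩ := h2 _ f hf
  have hX0 : 0 < X := by linarith
  have hX1 : 1 ≤ X := by linarith
  have hY0 : 0 < Y := lt_of_lt_of_le (by positivity) hY1
  have hL : 1 ≤ log X := by
    rw [le_log_iff_exp_le hX0]
    exact exp_one_lt_three.le.trans hX
  have mono : ∀ {a b : ℝ}, a ≤ b → X ^ a ≤ X ^ b := fun h => rpow_le_rpow_of_exponent_le hX1 h
  set L := log X with hLd
  set P := X ^ (1 - θ) with hP
  have hP0 : 0 < P := by positivity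
  have hΛ : 1 ≤ L ^ A := one_le_pow₀ hL
  have hYi : 2 ≤ 1 / Y := by
    refine hX2.trans ?_
    rw [le_div_iff₀ hY0]
    calc X ^ η * Y ≤ X ^ η * X ^ (-η) := by gcongr
      _ = 1 := by rw [← rpow_add hX0]; simp
  have hY3 : Y ≤ 1 := by
    rw [le_div_iff₀ hY0] at hYi
    linarith
  have hXY : X * Y ≤ X ^ (1 - η) := by
    rw [sub_eq_add_neg, rpow_add hX0, rpow_one]
    gcongr
  have hXY' : X * (1 / Y) ≤ X ^ (3 / 2 : ℝ) := by
    rw [mul_one_div, div_le_iff₀ hY0]
    calc X = X ^ (3 / 2 : ℝ) * X ^ (-(1 / 2) : ℝ) := by rw [← rpow_add hX0]; norm_num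
      _ ≤ X ^ (3 / 2 : ℝ) * Y := by
        gcongr
        exact (mono (by linarith)).trans hY1
  have hinv : 1 / X ≤ Y := by
    refine le_trans ?_ hY1
    rw [one_div, ← rpow_neg_one]
    exact mono (by linarith)
  have hb : |mu X f Y - c * Itot f / 2| ≤ (24 * C2 + C1) * (L ^ A * L ^ 2 * P) := by
    rw [h2c Y hY0]
    set M := KM X (1 / Y) with hM
    have hM1 : (M : ℝ) ≤ 2 * (X * Y) := by
      refine (Nat.floor_le (by positivity)).trans_eq ?_
      field_simp
    have hM2 : 1 + log M ≤ 3 * L := by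
      have h1 : log M ≤ log (2 * X) := log_nat_le (by linarith) (hM1.trans (by nlinarith))
      rw [log_mul two_ne_zero hX0.ne'] at h1
      have := log_two_lt_d9
      linarith
    have hM3 : 0 ≤ log M := log_natCast_nonneg M
    have e1 := hB X _ (1 / Y) f 1 hX hf (hinv.trans (by linarith)) squarefree_one odd_one
      (by simpa using hX1)
    simp only [one_dvd, filter_true, gg, Nat.primeFactors_one, prod_empty, mul_one] at e1
    have e2 : |mu X f (1 / Y) - ∑ k ∈ Icc 1 M, sB f (1 / Y) k| ≤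
        C2 * L ^ A * L * √(X * Y) * (4 * √M * (1 + log M)) := by
      rw [mu, ← sum_sub_distrib]
      refine (abs_sum_le_sum_abs _ _).trans ?_
      refine le_trans (sum_le_sum fun k hk => ?_)
        ((mul_sum _ _ _).symm.le.trans (mul_le_mul_of_nonneg_left (hs M).2 (by positivity)))
      have hk : 1 ≤ k := (mem_Icc.1 hk).1
      refine (h2b _ k hYi hk).trans_eq ?_
      have : X / (k * (1 / Y)) = X * Y / k := by field_simp
      rw [this, sqrt_div (by positivity)]
      ring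
    have e3 : √(X * Y) * √M ≤ 2 * P := by
      rw [← sqrt_mul (by positivity)]
      refine sqrt_le_iff.2 ⟨by positivity, ?_⟩
      have : X * Y ≤ P := hXY.trans (mono (by linarith))
      have h0 : 0 ≤ X * Y := by positivity
      nlinarith [mul_le_mul this this h0 hP0.le, mul_le_mul_of_nonneg_left hM1 h0]
    have e4 : X ^ θ * √(X * (1 / Y)) ≤ P := by
      calc X ^ θ * √(X * (1 / Y)) ≤ X ^ θ * √(X ^ (3 / 2 : ℝ)) := by gcongr
        _ = X ^ (θ + 3 / 4) := by
          rw [sqrt_eq_rpow, ← rpow_mul hX0.le, ← rpow_add hX0]; norm_num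
        _ ≤ P := mono (by linarith)
    have e5 : C2 * L ^ A * L * √(X * Y) * (4 * √M * (1 + log M)) ≤
        24 * C2 * (L ^ A * L ^ 2 * P) := by
      calc _ = 4 * C2 * L ^ A * L * (√(X * Y) * √M) * (1 + log M) := by ring
        _ ≤ 4 * C2 * L ^ A * L * (2 * P) * (3 * L) := by gcongr
        _ = _ := by ring
    have e6 : C1 * L ^ A * X ^ θ * √(X * (1 / Y)) ≤ C1 * (L ^ A * L ^ 2 * P) := by
      calc _ = C1 * (L ^ A * 1 * (X ^ θ * √(X * (1 / Y)))) := by ring
        _ ≤ _ := by gcongr; exact one_le_pow₀ hL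
    calc _ ≤ _ := abs_sub_le _ (∑ k ∈ Icc 1 M, sB f (1 / Y) k) _
      _ ≤ _ := add_le_add (e2.trans e5) (e1.trans e6)
      _ = _ := by ring
  have hfin : ∀ t : ℝ, t ≤ (1 + 4 * (24 * C2 + C1) + C1) * L ^ (A + 4) * P →
      t ≤ X ^ (1 - θ / 2) := fun t ht => by
    refine ht.trans ?_
    calc _ ≤ X ^ (θ / 2) * P := by gcongr
      _ = _ := by rw [hP, ← rpow_add hX0]; ring_nf
  have hQ : L ^ A * P ≤ L ^ A * L ^ 2 * P := by
    calc _ = L ^ A * 1 * P := by ring
      _ ≤ _ := by gcongr; exact one_le_pow₀ hL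
  have hQ' : L ^ A * L ^ 2 * P ≤ L ^ (A + 4) * P := by
    rw [← pow_add]
    gcongr
    omega
  have hQ0 : P ≤ L ^ A * P := le_mul_of_one_le_left hP0.le hΛ
  refine ⟨hfin _ ?_, hfin _ (hb.trans ?_)⟩
  swap
  · rw [mul_assoc _ (L ^ (A + 4))]
    exact mul_le_mul (by linarith) hQ' (by positivity) (by positivity)
  set D := ⌊X ^ (1 / 2 - η)⌋₊ with hD
  have hD1 : (D : ℝ) ≤ X ^ (1 / 2 - η) := Nat.floor_le (by positivity)
  have hD2 : (D : ℝ) ≤ X := hD1.trans ((mono (by linarith)).trans_eq (rpow_one X))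
  have hE := hE Y hY1 (hY2.trans (mono (by linarith)))
  have z : ∑ d ∈ Icc 1 D with Squarefree d,
      |∑ k ∈ Icc 1 (KM X Y) with d ∣ k, (sA f Y k - sB f Y k)| =
      ∑ d ∈ Icc 1 D with Squarefree d ∧ Odd d,
      |∑ k ∈ Icc 1 (KM X Y) with d ∣ k, (sA f Y k - sB f Y k)| := by
    rw [← filter_filter, sum_filter (p := fun d => Odd d)]
    refine sum_congr rfl fun d _ => ?_
    split_ifs with h
    · rfl
    · rw [abs_eq_zero]
      refine sum_eq_zero fun k hk => ?_
      obtain ⟨hk, hdk⟩ := mem_filter.1 hk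
      have hev : Even k := even_iff_two_dvd.2 ((even_iff_two_dvd.1 (Nat.not_odd_iff_even.1 h)).trans hdk)
      rw [(h2a Y k hY0 (mem_Icc.1 hk).1).2.2.1 hev, sB, if_neg (Nat.not_odd_iff_even.2 hev),
        sub_zero]
  rw [z]
  have e7 : ∑ d ∈ Icc 1 D with Squarefree d ∧ Odd d, gg d ≤ 4 * L ^ 2 := by
    calc _ ≤ ∑ d ∈ Icc 1 D with Squarefree d ∧ Odd d, (rho d : ℝ) / d :=
          sum_le_sum fun d hd => (hg d (mem_filter.1 hd).2.1).2.1
      _ ≤ ∑ d ∈ Icc 1 D, (rho d : ℝ) / d :=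
          sum_le_sum_of_subset_of_nonneg (filter_subset _ _) fun _ _ _ => by positivity
      _ ≤ (1 + log D) ^ 2 := (hs D).1
      _ ≤ (2 * L) ^ 2 := by
          have := log_nat_le hX1 hD2
          have := log_natCast_nonneg D
          gcongr
          linarith
      _ = _ := by ring
  have e8 : (D : ℝ) * (X ^ θ * √(X * Y)) ≤ P := by
    calc _ ≤ X ^ (1 / 2 - η) * (X ^ θ * √(X ^ (1 - η))) := by gcongr
      _ = X ^ (1 / 2 - η + (θ + (1 - η) * (1 / 2))) := by
          rw [sqrt_eq_rpow, ← rpow_mul hX0.le, ← rpow_add hX0, ← rpow_add hX0]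
      _ ≤ P := mono (by linarith)
  calc _ ≤ ∑ d ∈ Icc 1 D with Squarefree d ∧ Odd d,
        (|∑ k ∈ Icc 1 (KM X Y) with d ∣ k, sA f Y k - gg d * mu X f Y| +
          gg d * |mu X f Y - c * Itot f / 2| + C1 * L ^ A * X ^ θ * √(X * Y)) := by
        refine sum_le_sum fun d hd => ?_
        obtain ⟨hd, hd1, hd2⟩ := mem_filter.1 hd
        have b := hB X _ Y f d hX hf hinv hd1 hd2
          ((Nat.cast_le.2 (mem_Icc.1 hd).2).trans hD2)
        rw [sum_sub_distrib, ← abs_of_nonneg (hg d hd1).1, ← abs_mul, abs_of_nonneg (hg d hd1).1]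
        rw [abs_sub_comm] at b
        refine (abs_sub_le _ (c * gg d * Itot f / 2) _).trans (add_le_add ?_ b)
        refine le_trans (le_of_eq ?_) (abs_add_le _ _)
        congr 1
        ring
    _ ≤ P + 4 * L ^ 2 * ((24 * C2 + C1) * (L ^ A * L ^ 2 * P)) + C1 * (L ^ A * P) := by
        rw [sum_add_distrib, sum_add_distrib, ← sum_mul, sum_const, nsmul_eq_mul]
        refine add_le_add (add_le_add (hE.trans (mono (by linarith))) ?_) ?_
        · exact mul_le_mul e7 hb (abs_nonneg _) (by positivity)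
        · have : (#{d ∈ Icc 1 D | Squarefree d ∧ Odd d} : ℝ) ≤ D := by
            exact_mod_cast (card_filter_le _ _).trans (by simp)
          calc _ ≤ (D : ℝ) * (C1 * L ^ A * X ^ θ * √(X * Y)) := by gcongr
            _ = C1 * (L ^ A * (D * (X ^ θ * √(X * Y)))) := by ring
            _ ≤ _ := by gcongr
    _ ≤ _ := by
        have e : 4 * L ^ 2 * ((24 * C2 + C1) * (L ^ A * L ^ 2 * P)) =
            4 * (24 * C2 + C1) * (L ^ (A + 4) * P) := by ring
        have := mul_le_mul_of_nonneg_left (hQ.trans hQ') hC1.le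
        rw [e, mul_assoc _ (L ^ (A + 4))]
        linarith [hQ0.trans (hQ.trans hQ')]

end Pool.Agent.Lib.MP_4b1228_nt.PP
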