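import Pool.Agent.Lib.MP_4b1228_nt.PP.St

/-!
Type II information: elementary lemmas on points and shifts.
-/

open Finset Real
open scoped Classical

noncomputable section

namespace Pool.Agent.Lib.MP_4b1228_nt.PP.T2

/-- The points `(l + i) / m`. -/
def Pt (M : ℕ) (B : ℤ) : Finset (ℕ × ℤ) :=
  (Icc 1 M ×ˢ Icc (-B) B).filter fun z => (z.1 : ℤ) ∣ z.2 ^ 2 + 1

/-- The cofactor of the shifted point. -/
def cof (i : ℕ) (z : ℕ × ℤ) : ℤ := ((z.2 + 2 * i * z.1) ^ 2 + 1) / z.1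

lemma mem_Pt {M : ℕ} {B : ℤ} {z : ℕ × ℤ} :
    z ∈ Pt M B ↔ (1 ≤ z.1 ∧ z.1 ≤ M) ∧ |z.2| ≤ B ∧ (z.1 : ℤ) ∣ z.2 ^ 2 + 1 := by
  simp [Pt, mem_filter, mem_product, mem_Icc, abs_le, and_assoc]

lemma sum_Pt (M : ℕ) (B : ℤ) (g : ℕ → ℤ → ℝ) (hg : ∀ m ∈ Icc 1 M, ∀ l, g m l ≠ 0 → |l| ≤ B) :
    ∑ m ∈ Icc 1 M, (∑' l : ℤ, if (m : ℤ) ∣ l ^ 2 + 1 then g m l else 0) =
      ∑ z ∈ Pt M B, g z.1 z.2 := by
  rw [Pt, sum_filter, sum_product]
  refine sum_congr rfl fun m hm => tsum_eq_sum fun l hl => ?_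
  split_ifs with h
  · by_contra h0
    exact hl (mem_Icc.2 (abs_le.1 (hg m hm l h0)))
  · rfl

lemma sum_Pt_le (M : ℕ) (B : ℤ) (g : ℕ → ℤ → ℝ) (h0 : ∀ m ∈ Icc 1 M, ∀ l, 0 ≤ g m l)
    (hg : ∀ m ∈ Icc 1 M, {l | g m l ≠ 0}.Finite) :
    ∑ z ∈ Pt M B, g z.1 z.2 ≤
      ∑ m ∈ Icc 1 M, (∑' l : ℤ, if (m : ℤ) ∣ l ^ 2 + 1 then g m l else 0) := by
  rw [Pt, sum_filter, sum_product]
  refine sum_le_sum fun m hm => Summable.sum_le_tsum _ (fun l _ => ?_) ?_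
  · split_ifs
    · exact h0 m hm l
    · rfl
  · refine summable_of_hasFiniteSupport ((hg m hm).subset fun l hl => ?_)
    intro h
    apply hl
    simp only [h, ite_self]

lemma shift_sum (M : ℕ) (B : ℤ) (i : ℕ) (g : ℕ → ℤ → ℝ)
    (hg : ∀ m ∈ Icc 1 M, ∀ l, g m l ≠ 0 → |l| + 2 * i * M ≤ B) :
    ∑ z ∈ Pt M B, g z.1 z.2 = ∑ z ∈ Pt M B, g z.1 (z.2 + 2 * i * z.1) := by
  have hc : ∀ m ∈ Icc 1 M, (0 : ℤ) ≤ 2 * i * m ∧ (2 * i * m : ℤ) ≤ 2 * i * M := fun m hm =>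
    ⟨by positivity, by have := (mem_Icc.1 hm).2; gcongr⟩
  rw [← sum_Pt M B g fun m hm l h => by linarith [hg m hm l h, (hc m hm).1, (hc m hm).2],
    ← sum_Pt M B (fun m l => g m (l + 2 * i * m)) fun m hm l h => by
      have h1 := hg m hm _ h
      have h2 : |l| ≤ |l + 2 * i * m| + |(2 * i * m : ℤ)| := by
        have := abs_sub (l + 2 * i * m) (2 * i * m : ℤ)
        simpa using this
      rw [abs_of_nonneg (hc m hm).1] at h2
      linarith [(hc m hm).2]]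
  refine sum_congr rfl fun m _ => ?_
  rw [← (Equiv.addRight (2 * i * m : ℤ)).tsum_eq]
  refine tsum_congr fun l => ?_
  have : (m : ℤ) ∣ (l + 2 * i * m) ^ 2 + 1 ↔ (m : ℤ) ∣ l ^ 2 + 1 := by
    rw [show (l + 2 * i * m) ^ 2 + 1 = l ^ 2 + 1 + m * (4 * i * l + 4 * i ^ 2 * m) by ring]
    exact (dvd_add_left (dvd_mul_right _ _))
  simp only [Equiv.coe_addRight, this]

lemma cof_eq {z : ℕ × ℤ} (h1 : 1 ≤ z.1) (h : (z.1 : ℤ) ∣ z.2 ^ 2 + 1) (i : ℕ) :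
    cof i z = (z.2 ^ 2 + 1) / z.1 + 4 * i * z.2 + 4 * i ^ 2 * z.1 := by
  obtain ⟨c, hc⟩ := h
  have h0 : (z.1 : ℤ) ≠ 0 := by exact_mod_cast (by omega : z.1 ≠ 0)
  rw [cof, hc, Int.mul_ediv_cancel_left _ h0,
    show (z.2 + 2 * i * z.1) ^ 2 + 1 = z.1 * (c + 4 * i * z.2 + 4 * i ^ 2 * z.1) by
      linear_combination hc, Int.mul_ediv_cancel_left _ h0]

lemma cof_pos {z : ℕ × ℤ} (h1 : 1 ≤ z.1) (h : (z.1 : ℤ) ∣ z.2 ^ 2 + 1) (i : ℕ) :
    0 < cof i z ∧ cof i z ≤ (z.2 + 2 * i * z.1) ^ 2 + 1 := by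
  have h0 : (0 : ℤ) < z.1 := by exact_mod_cast h1
  have hd : (z.1 : ℤ) ∣ (z.2 + 2 * i * z.1) ^ 2 + 1 := by
    rw [show (z.2 + 2 * i * z.1) ^ 2 + 1 = z.2 ^ 2 + 1 + z.1 * (4 * i * z.2 + 4 * i ^ 2 * z.1) by ring]
    exact dvd_add h (dvd_mul_right _ _)
  exact ⟨Int.ediv_pos_of_pos_of_dvd (by positivity) h0.le hd,
    Int.ediv_le_self _ (by positivity)⟩

/-- A prime divides few of the shifted cofactors. -/
lemma card_shift {z : ℕ × ℤ} (h1 : 1 ≤ z.1) (h : (z.1 : ℤ) ∣ z.2 ^ 2 + 1) {p : ℕ} (hp : p.Prime)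
    (h2 : p ≠ 2) (J : ℕ) :
    (#{i ∈ range J | (p : ℤ) ∣ cof i z} : ℝ) ≤ 2 * (J / p + 1) := by
  have := Fact.mk hp
  set P : Polynomial (ZMod p) := Polynomial.C (4 * (z.1 : ZMod p)) * Polynomial.X ^ 2 +
    Polynomial.C (4 * (z.2 : ZMod p)) * Polynomial.X +
      Polynomial.C ((((z.2 ^ 2 + 1) / z.1 : ℤ)) : ZMod p) with hP
  have h4 : (4 : ZMod p) ≠ 0 := by
    have : ((2 : ℕ) : ZMod p) ≠ 0 := by
      rw [Ne, ZMod.natCast_eq_zero_iff]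
      exact fun hh => h2 ((Nat.prime_dvd_prime_iff_eq hp Nat.prime_two).1 hh)
    have e : (4 : ZMod p) = ((2 : ℕ) : ZMod p) * ((2 : ℕ) : ZMod p) := by push_cast; ring
    rw [e]; exact mul_ne_zero this this
  have hP0 : P ≠ 0 := by
    intro h0
    have c2 := congrArg (fun q => Polynomial.coeff q 2) h0
    have c1 := congrArg (fun q => Polynomial.coeff q 1) h0
    simp only [hP, Polynomial.coeff_add, Polynomial.coeff_C_mul, Polynomial.coeff_X,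
      Polynomial.coeff_C, Polynomial.coeff_X_pow, Polynomial.coeff_zero] at c2 c1
    norm_num at c1 c2
    replace c1 : (z.2 : ZMod p) = 0 := c1.resolve_left h4
    replace c2 : (z.1 : ZMod p) = 0 := c2.resolve_left h4
    obtain ⟨c, hc⟩ := h
    have := congrArg (Int.cast : ℤ → ZMod p) hc
    push_cast at this
    rw [c1, c2] at this
    simp at this
  have hdeg : P.natDegree ≤ 2 := by rw [hP]; exact Polynomial.natDegree_quadratic_le
  have hr : #P.roots.toFinset ≤ 2 :=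
    (Multiset.toFinset_card_le _).trans ((Polynomial.card_roots' P).trans hdeg)
  have hsub : {i ∈ range J | (p : ℤ) ∣ cof i z} ⊆
      P.roots.toFinset.biUnion fun r => {i ∈ range J | i ≡ r.val [MOD p]} := by
    intro i hi
    obtain ⟨hi1, hi2⟩ := mem_filter.1 hi
    refine mem_biUnion.2 ⟨(i : ZMod p), ?_, mem_filter.2 ⟨hi1, ?_⟩⟩
    · rw [Multiset.mem_toFinset, Polynomial.mem_roots hP0, Polynomial.IsRoot.def]
      rw [cof_eq h1 h, ← ZMod.intCast_zmod_eq_zero_iff_dvd] at hi2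
      push_cast at hi2
      simp only [hP, Polynomial.eval_add, Polynomial.eval_mul, Polynomial.eval_C,
        Polynomial.eval_pow, Polynomial.eval_X]
      linear_combination hi2
    · rw [ZMod.val_natCast]; exact (Nat.mod_modEq i p).symm
  have hone : ∀ r : ZMod p, (#{i ∈ range J | i ≡ r.val [MOD p]} : ℝ) ≤ J / p + 1 := fun r => by
    have := Nat.count_modEq_card J hp.pos r.val
    rw [Nat.count_eq_card_filter_range] at this
    have e : #{i ∈ range J | i ≡ r.val [MOD p]} ≤ J / p + 1 := by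
      convert_to #{x ∈ range J | x ≡ r.val [MOD p]} ≤ J / p + 1
      rw [this]; split_ifs <;> omega
    calc (#{i ∈ range J | i ≡ r.val [MOD p]} : ℝ) ≤ ((J / p + 1 : ℕ) : ℝ) := by exact_mod_cast e
      _ ≤ J / p + 1 := by push_cast; gcongr; exact Nat.cast_div_le
  calc (#{i ∈ range J | (p : ℤ) ∣ cof i z} : ℝ)
      ≤ ∑ r ∈ P.roots.toFinset, (#{i ∈ range J | i ≡ r.val [MOD p]} : ℝ) := by
        exact_mod_cast (card_le_card hsub).trans card_biUnion_le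
    _ ≤ ∑ r ∈ P.roots.toFinset, ((J : ℝ) / p + 1) := sum_le_sum fun r _ => hone r
    _ ≤ 2 * (J / p + 1) := by
        rw [sum_const, nsmul_eq_mul]
        gcongr
        exact_mod_cast hr

lemma sum_inv_sq {w : ℝ} (hw : 2 ≤ w) (S : Finset ℕ) (hS : ∀ p ∈ S, w ≤ p) :
    ∑ p ∈ S, 1 / (p : ℝ) ^ 2 ≤ 2 / w := by
  set k := ⌈w⌉₊ - 1 with hk
  have h1 : 2 ≤ ⌈w⌉₊ := by
    have : ((2 : ℕ) : ℝ) ≤ ⌈w⌉₊ := by push_cast; exact hw.trans (Nat.le_ceil w)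
    exact_mod_cast this
  have hsub : S ⊆ Ioo k (S.sup id + 1) := fun p hp => mem_Ioo.2 ⟨by
    have : ⌈w⌉₊ ≤ p := Nat.ceil_le.2 (hS p hp)
    omega, Nat.lt_succ_of_le (le_sup (f := id) hp)⟩
  calc ∑ p ∈ S, 1 / (p : ℝ) ^ 2 ≤ ∑ p ∈ Ioo k (S.sup id + 1), ((p : ℝ) ^ 2)⁻¹ := by
        simp only [one_div]
        exact sum_le_sum_of_subset_of_nonneg hsub fun _ _ _ => by positivity
    _ ≤ 2 / (k + 1) := sum_Ioo_inv_sq_le _ _
    _ ≤ 2 / w := by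
        have : (k : ℝ) + 1 = ⌈w⌉₊ := by
          rw [hk]; push_cast [Nat.cast_sub (by omega : 1 ≤ ⌈w⌉₊)]; ring
        rw [this]
        gcongr
        exact Nat.le_ceil w

/-- Dropping the label of the outer variable. -/
lemma label_sq (S : Finset ℕ) (v : ℕ → ℕ) (r : ℕ) (T : ℕ → ℝ) :
    (∑ n ∈ S with v n = r, T n) ^ 2 ≤
      ∑ n ∈ S ×ˢ S with v n.1 = v n.2, T n.1 * T n.2 := by
  have e : ∑ n ∈ S ×ˢ S with v n.1 = v n.2, T n.1 * T n.2 =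
      ∑ r ∈ S.image v, (∑ n ∈ S with v n = r, T n) ^ 2 := by
    rw [← sum_fiberwise_of_maps_to (g := fun n : ℕ × ℕ => v n.1) (t := S.image v)
      (fun n hn => mem_image_of_mem v (mem_product.1 (mem_filter.1 hn).1).1)]
    refine sum_congr rfl fun r _ => ?_
    rw [sq, sum_mul_sum, ← sum_product']
    refine sum_congr ?_ fun _ _ => rfl
    ext n
    simp only [mem_filter, mem_product]
    constructor
    · rintro ⟨⟨⟨a, b⟩, c⟩, d⟩; exact ⟨⟨a, d⟩, b, c ▸ d⟩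
    · rintro ⟨⟨a, d⟩, b, c⟩; exact ⟨⟨⟨a, b⟩, d.trans c.symm⟩, d⟩
  rw [e]
  by_cases hr : r ∈ S.image v
  · exact single_le_sum (f := fun r => (∑ n ∈ S with v n = r, T n) ^ 2)
      (fun _ _ => sq_nonneg _) hr
  · rw [filter_false_of_mem fun n hn (h : v n = r) => hr (h ▸ mem_image_of_mem v hn)]
    simpa using sum_nonneg fun _ _ => sq_nonneg _

/-- Pairs with a common factor. -/
lemma noncop (S T P : Finset ℕ) (a b : ℕ → ℝ) (ha : ∀ n ∈ S, 0 ≤ a n) (hb : ∀ n ∈ T, 0 ≤ b n)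
    (hP : ∀ m ∈ S, ∀ n ∈ T, ∀ p, p.Prime → p ∣ m → p ∣ n → p ∈ P) :
    ∑ n ∈ S ×ˢ T with ¬ n.1.Coprime n.2, a n.1 * b n.2 ≤
      ∑ p ∈ P, (∑ n ∈ S with p ∣ n, a n) * ∑ n ∈ T with p ∣ n, b n := by
  have e : ∀ p ∈ P, (∑ n ∈ S with p ∣ n, a n) * ∑ n ∈ T with p ∣ n, b n =
      ∑ n ∈ S ×ˢ T, if p ∣ n.1 ∧ p ∣ n.2 then a n.1 * b n.2 else 0 := fun p _ => by
    rw [sum_mul_sum, ← sum_product', ← sum_filter]
    refine sum_congr ?_ fun _ _ => rfl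
    ext n
    simp only [mem_filter, mem_product]
    tauto
  rw [sum_congr rfl e, sum_comm, sum_filter]
  refine sum_le_sum fun n hn => ?_
  obtain ⟨h1, h2⟩ := mem_product.1 hn
  have h0 : ∀ p ∈ P, 0 ≤ if p ∣ n.1 ∧ p ∣ n.2 then a n.1 * b n.2 else 0 := fun p _ => by
    split_ifs
    · exact mul_nonneg (ha _ h1) (hb _ h2)
    · rfl
  split_ifs with h
  · exact sum_nonneg h0
  · obtain ⟨p, hp, hp1, hp2⟩ := Nat.Prime.not_coprime_iff_dvd.1 h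
    have := single_le_sum h0 (hP _ h1 _ h2 p hp hp1 hp2)
    rwa [if_pos ⟨hp1, hp2⟩] at this

/-- Multiples of a prime. -/
lemma sum_mult (hR : RhoStmt) {p : ℕ} (hp : p.Prime) (S : Finset ℕ) (N : ℕ) (hS : S ⊆ Icc 1 N) :
    ∑ n ∈ S with p ∣ n, (rho n : ℝ) / n ≤ 2 / p * (1 + log N) ^ 2 := by
  obtain ⟨-, h2, h3, -, -, -, -, -, -, -, h11, -⟩ := hR
  have hp0 : (0 : ℝ) < p := by exact_mod_cast hp.pos
  calc ∑ n ∈ S with p ∣ n, (rho n : ℝ) / n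
      ≤ ∑ n ∈ (Icc 1 N).image (fun j => p * j), (rho n : ℝ) / n := by
        refine sum_le_sum_of_subset_of_nonneg (fun n hn => ?_) fun _ _ _ => by positivity
        obtain ⟨hn1, j, rfl⟩ := mem_filter.1 hn
        obtain ⟨a, b⟩ := mem_Icc.1 (hS hn1)
        refine mem_image.2 ⟨j, mem_Icc.2 ⟨Nat.pos_of_mul_pos_left a, ?_⟩, rfl⟩
        exact (Nat.le_mul_of_pos_left j hp.pos).trans b
    _ = ∑ j ∈ Icc 1 N, (rho (p * j) : ℝ) / (p * j : ℕ) :=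
        sum_image fun a _ b _ h => Nat.eq_of_mul_eq_mul_left hp.pos h
    _ ≤ ∑ j ∈ Icc 1 N, 2 / p * ((rho j : ℝ) / j) := by
        refine sum_le_sum fun j hj => ?_
        have hj0 : (0 : ℝ) < j := by exact_mod_cast (mem_Icc.1 hj).1
        have : rho (p * j) ≤ 2 * rho j :=
          (h2 p j).trans (Nat.mul_le_mul_right _ (by simpa using h3 p 1 hp))
        have : (rho (p * j) : ℝ) ≤ 2 * rho j := by exact_mod_cast this
        push_cast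
        rw [div_mul_div_comm]
        gcongr
    _ ≤ 2 / p * (1 + log N) ^ 2 := by
        rw [← mul_sum]
        gcongr
        exact (h11 N).1

lemma omega_le {m : ℕ} (hm : 1 ≤ m) : (#m.primeFactors : ℝ) ≤ 2 * log m := by
  have h1 : 2 ^ #m.primeFactors ≤ m := by
    calc 2 ^ #m.primeFactors = ∏ _p ∈ m.primeFactors, 2 := by simp
      _ ≤ ∏ p ∈ m.primeFactors, p :=
        prod_le_prod' fun p hp => (Nat.prime_of_mem_primeFactors hp).two_le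
      _ ≤ m := Nat.le_of_dvd hm (Nat.prod_primeFactors_dvd m)
  have h2 : (2 : ℝ) ^ #m.primeFactors ≤ m := by exact_mod_cast h1
  have h3 := log_le_log (by positivity) h2
  rw [log_pow] at h3
  have := log_two_gt_d9
  nlinarith [Nat.cast_nonneg (α := ℝ) #m.primeFactors]

end Pool.Agent.Lib.MP_4b1228_nt.PP.T2
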