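import Pool.Agent.Lib.MP_4b1228_nt.PP.T2a

/-!
Type II information: one block.
-/

open Finset Real
open scoped Classical

noncomputable section

namespace Pool.Agent.Lib.MP_4b1228_nt.PP.T2

lemma gg_sum (hR : RhoStmt) (S : Finset ℕ) (N : ℕ) (hS : ∀ n ∈ S, n ∈ Icc 1 N ∧ Squarefree n) :
    ∑ n ∈ S, gg n ≤ (1 + log N) ^ 2 := by
  obtain ⟨-, -, -, -, -, -, -, -, -, h10, h11, -⟩ := hR
  calc ∑ n ∈ S, gg n ≤ ∑ n ∈ S, (rho n : ℝ) / n := sum_le_sum fun n hn => (h10 n (hS n hn).2).2.1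
    _ ≤ ∑ n ∈ Icc 1 N, (rho n : ℝ) / n :=
        sum_le_sum_of_subset_of_nonneg (fun n hn => (hS n hn).1) fun _ _ _ => by positivity
    _ ≤ _ := (h11 N).1

lemma abs_xi (hR : RhoStmt) {n : ℕ} (hn : Squarefree n) (c : ℤ) :
    |xi n c| ≤ (if (n : ℤ) ∣ c then 1 else 0) + gg n := by
  have := (hR.2.2.2.2.2.2.2.2.2.1 n hn).1
  rw [xi, abs_le]
  split_ifs <;> constructor <;> linarith

lemma count_div {w : ℝ} (S : Finset ℕ) (hS : ∀ n ∈ S, Rough w n) {c : ℤ} (hc : 0 < c) :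
    ∑ n ∈ S, (if (n : ℤ) ∣ c then (1 : ℝ) else 0) ≤ #{d ∈ c.toNat.divisors | Rough w d} := by
  rw [sum_boole]
  have : S.filter (fun n : ℕ => (n : ℤ) ∣ c) ⊆ c.toNat.divisors.filter (fun d : ℕ => Rough w d) := fun n hn => by
    obtain ⟨h1, h2⟩ := mem_filter.1 hn
    refine mem_filter.2 ⟨Nat.mem_divisors.2 ⟨?_, by omega⟩, hS n h1⟩
    rw [← Int.natCast_dvd_natCast, Int.toNat_of_nonneg hc.le]
    exact h2
  exact_mod_cast card_le_card this

lemma nc_point (hR : RhoStmt) {z : ℕ × ℤ} (h1 : 1 ≤ z.1) (h : (z.1 : ℤ) ∣ z.2 ^ 2 + 1)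
    {w P : ℝ} (hw : 3 ≤ w) (J N : ℕ) (S : Finset ℕ)
    (hS : ∀ n ∈ S, n ∈ Icc 1 N ∧ Squarefree n ∧ Rough w n) (hN : (1 + log N) ^ 2 ≤ P)
    (hT : ∀ i < J, (#{d ∈ (cof i z).toNat.divisors | Rough w d} : ℝ) ≤ P ∧
      (#(cof i z).toNat.primeFactors : ℝ) ≤ P) :
    ∑ n ∈ S ×ˢ S with ¬ n.1.Coprime n.2,
        (∑ i ∈ range J, |xi n.1 (cof i z)|) * ∑ i ∈ range J, |xi n.2 (cof i z)| ≤
      2 * P ^ 3 * (2 * J / w + 2) * J + 16 * J ^ 2 * P ^ 2 / w := by
  have hP0 : 0 ≤ P := (sq_nonneg _).trans hN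
  have hw0 : 0 < w := by linarith
  set Q := (Icc 1 N).filter fun p : ℕ => p.Prime ∧ w ≤ p with hQ
  set c : ℕ → ℝ := fun p => #{i ∈ range J | (p : ℤ) ∣ cof i z} with hc
  have hc0 : ∀ p, 0 ≤ c p := fun p => Nat.cast_nonneg _
  have a1 : ∀ p ∈ Q, ∑ n ∈ S with p ∣ n, ∑ i ∈ range J, |xi n (cof i z)| ≤
      P * c p + J * (2 / p * P) := fun p hp => by
    obtain ⟨-, hp1, hp2⟩ := mem_filter.1 hp
    have hp0 : (0 : ℝ) < p := by exact_mod_cast hp1.pos
    rw [sum_comm]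
    have b1 : ∀ i ∈ range J, ∑ n ∈ S with p ∣ n, |xi n (cof i z)| ≤
        P * (if (p : ℤ) ∣ cof i z then 1 else 0) + 2 / p * P := fun i hi => by
      calc ∑ n ∈ S with p ∣ n, |xi n (cof i z)|
          ≤ ∑ n ∈ S with p ∣ n, ((if (n : ℤ) ∣ cof i z then (1 : ℝ) else 0) + (rho n : ℝ) / n) :=
            sum_le_sum fun n hn => (abs_xi hR (hS n (mem_filter.1 hn).1).2.1 _).trans
              (by gcongr; exact (hR.2.2.2.2.2.2.2.2.2.1 n (hS n (mem_filter.1 hn).1).2.1).2.1)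
        _ ≤ _ := by
            rw [sum_add_distrib]
            refine add_le_add ?_ ((sum_mult hR hp1 S N fun n hn => (hS n hn).1).trans (by gcongr))
            split_ifs with hd
            · rw [mul_one]
              exact (count_div _ (fun n hn => (hS n (mem_filter.1 hn).1).2.2)
                (cof_pos h1 h i).1).trans (hT i (mem_range.1 hi)).1
            · rw [mul_zero]
              refine (sum_eq_zero fun n hn => if_neg fun hh => hd ?_).le
              exact (Int.natCast_dvd_natCast.2 (mem_filter.1 hn).2).trans hh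
    refine (sum_le_sum b1).trans (le_of_eq ?_)
    rw [sum_add_distrib, ← mul_sum, sum_boole, sum_const, card_range, nsmul_eq_mul]
  have a2 : ∑ p ∈ Q, c p ≤ J * P := by
    have e : ∑ p ∈ Q, c p = ∑ i ∈ range J, ∑ p ∈ Q, if (p : ℤ) ∣ cof i z then (1 : ℝ) else 0 := by
      rw [sum_comm]
      exact sum_congr rfl fun p _ => by rw [sum_boole]
    rw [e]
    calc _ ≤ ∑ _i ∈ range J, P := sum_le_sum fun i hi => by
          refine le_trans ?_ (hT i (mem_range.1 hi)).2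
          rw [sum_boole]
          have hp := (cof_pos h1 h i).1
          have : Q.filter (fun p : ℕ => (p : ℤ) ∣ cof i z) ⊆ (cof i z).toNat.primeFactors := fun p hp' => by
            obtain ⟨h3, h4⟩ := mem_filter.1 hp'
            refine Nat.mem_primeFactors.2 ⟨(mem_filter.1 h3).2.1, ?_, by omega⟩
            rw [← Int.natCast_dvd_natCast, Int.toNat_of_nonneg hp.le]
            exact h4
          exact_mod_cast card_le_card this
      _ = _ := by rw [sum_const, card_range, nsmul_eq_mul]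
  have a3 : ∀ p ∈ Q, c p ≤ 2 * J / w + 2 := fun p hp => by
    obtain ⟨-, hp1, hp2⟩ := mem_filter.1 hp
    have h2 : p ≠ 2 := fun e => by rw [e] at hp2; norm_num at hp2; linarith
    refine (card_shift h1 h hp1 h2 J).trans ?_
    have : (J : ℝ) / p ≤ J / w := by gcongr
    rw [mul_div_assoc]
    linarith
  have a4 : ∑ p ∈ Q, 1 / (p : ℝ) ^ 2 ≤ 2 / w :=
    sum_inv_sq (by linarith) Q fun p hp => (mem_filter.1 hp).2.2
  refine (noncop S S Q (fun n => ∑ i ∈ range J, |xi n (cof i z)|)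
    (fun n => ∑ i ∈ range J, |xi n (cof i z)|) (fun _ _ => sum_nonneg fun _ _ => abs_nonneg _)
    (fun _ _ => sum_nonneg fun _ _ => abs_nonneg _) fun m hm n _ p hp hpm _ => ?_).trans ?_
  · have := mem_Icc.1 (hS m hm).1
    exact mem_filter.2 ⟨mem_Icc.2 ⟨hp.pos, (Nat.le_of_dvd this.1 hpm).trans this.2⟩, hp,
      (hS m hm).2.2 p hp hpm⟩
  calc _ ≤ ∑ p ∈ Q, (2 * P ^ 2 * (2 * J / w + 2) * c p + 8 * J ^ 2 * P ^ 2 * (1 / (p : ℝ) ^ 2)) := by
        refine sum_le_sum fun p hp => ?_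
        have b0 : 0 ≤ ∑ n ∈ S with p ∣ n, ∑ i ∈ range J, |xi n (cof i z)| :=
          sum_nonneg fun _ _ => sum_nonneg fun _ _ => abs_nonneg _
        refine (mul_self_le_mul_self b0 (a1 p hp)).trans ?_
        have b1 : c p * c p ≤ (2 * J / w + 2) * c p := mul_le_mul_of_nonneg_right (a3 p hp) (hc0 p)
        have b2 : P ^ 2 * (c p * c p) ≤ P ^ 2 * ((2 * J / w + 2) * c p) := by gcongr
        have b3 : (J * (2 / p * P)) ^ 2 = 4 * J ^ 2 * P ^ 2 * (1 / (p : ℝ) ^ 2) := by ring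
        nlinarith [sq_nonneg (P * c p - J * (2 / p * P))]
    _ ≤ 2 * P ^ 2 * (2 * J / w + 2) * (J * P) + 8 * J ^ 2 * P ^ 2 * (2 / w) := by
        rw [sum_add_distrib, ← mul_sum, ← mul_sum]
        gcongr
    _ = _ := by ring

/-- The inner sum. -/
def Gf (S : Finset ℕ) (β : ℕ → ℝ) (u v : ℕ → ℕ) (i : ℕ) (z : ℕ × ℤ) : ℝ :=
  ∑ n ∈ S with v n = u z.1, β n * xi n (cof i z)

lemma block (hR : RhoStmt) {w P E κ Z : ℝ} (hw : 3 ≤ w) (M J N : ℕ) (hJ : 1 ≤ J) (B : ℤ)
    (S : Finset ℕ) (hS : ∀ n ∈ S, n ∈ Icc 1 N ∧ Squarefree n ∧ Rough w n)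
    (hN : (1 + log N) ^ 2 ≤ P) (β : ℕ → ℝ) (hβ : ∀ n, |β n| ≤ 1) (α : ℕ → ℝ) (hα : ∀ m, |α m| ≤ 1)
    (u v : ℕ → ℕ) (F g : ℕ → ℤ → ℝ) (hκ : 0 ≤ κ)
    (hT : ∀ z ∈ Pt M B, ∀ i < J, (#{d ∈ (cof i z).toNat.divisors | Rough w d} : ℝ) ≤ P ∧
      (#(cof i z).toNat.primeFactors : ℝ) ≤ P)
    (hF0 : ∀ m l, 0 ≤ F m l) (hg0 : ∀ z ∈ Pt M B, 0 ≤ g z.1 z.2)
    (hsupp : ∀ m ∈ Icc 1 M, ∀ l, F m l ≠ 0 → |l| + 2 * J * M ≤ B)
    (hFs : ∀ z ∈ Pt M B, ∀ i < J, |F z.1 (z.2 + 2 * i * z.1) - F z.1 z.2| ≤ κ * g z.1 z.2)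
    (hg : ∑ z ∈ Pt M B, g z.1 z.2 ≤ Z) (hF : ∑ z ∈ Pt M B, F z.1 z.2 ≤ Z)
    (hE : ∑ n ∈ S ×ˢ S with n.1.Coprime n.2, |∑ i ∈ range J ×ˢ range J, ∑ z ∈ Pt M B,
      xi n.1 (cof i.1 z) * xi n.2 (cof i.2 z) * F z.1 z.2| ≤ E) :
    |∑ z ∈ Pt M B, F z.1 z.2 * (if Even z.2 then α z.1 else 0) * Gf S β u v 0 z| ≤
      κ * (2 * P) * Z +
        √(Z * (E + Z * (2 * P ^ 3 * (2 * J / w + 2) * J + 16 * J ^ 2 * P ^ 2 / w))) / J := by
  have hP0 : 0 ≤ P := (sq_nonneg _).trans hN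
  have hJ0 : (0 : ℝ) < J := by exact_mod_cast hJ
  set a : ℕ × ℤ → ℝ := fun z => if Even z.2 then α z.1 else 0 with ha
  have ha1 : ∀ z, |a z| ≤ 1 := fun z => by
    simp only [ha]; split_ifs
    · exact hα _
    · simp
  have hG : ∀ z ∈ Pt M B, ∀ i < J, |Gf S β u v i z| ≤ 2 * P := fun z hz i hi => by
    obtain ⟨⟨h1, -⟩, -, h⟩ := mem_Pt.1 hz
    calc |Gf S β u v i z| ≤ ∑ n ∈ S with v n = u z.1, |β n * xi n (cof i z)| := abs_sum_le_sum_abs _ _
      _ ≤ ∑ n ∈ S, |β n * xi n (cof i z)| :=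
          sum_le_sum_of_subset_of_nonneg (filter_subset _ _) fun _ _ _ => abs_nonneg _
      _ ≤ ∑ n ∈ S, ((if (n : ℤ) ∣ cof i z then (1 : ℝ) else 0) + gg n) := sum_le_sum fun n hn => by
          rw [abs_mul]
          exact (mul_le_of_le_one_left (abs_nonneg _) (hβ n)).trans (abs_xi hR (hS n hn).2.1 _)
      _ ≤ P + P := by
          rw [sum_add_distrib]
          exact add_le_add ((count_div _ (fun n hn => (hS n hn).2.2) (cof_pos h1 h i).1).trans
            (hT z hz i hi).1) ((gg_sum hR S N fun n hn => ⟨(hS n hn).1, (hS n hn).2.1⟩).trans hN)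
      _ = 2 * P := by ring
  -- the shift
  have s1 : ∀ i ∈ range J, |∑ z ∈ Pt M B, F z.1 z.2 * a z * Gf S β u v 0 z -
      ∑ z ∈ Pt M B, F z.1 z.2 * a z * Gf S β u v i z| ≤ κ * (2 * P) * Z := fun i hi => by
    have hi' := mem_range.1 hi
    rw [shift_sum M B i (fun m l => F m l * a (m, l) * Gf S β u v 0 (m, l)) fun m hm l h => by
      have h1 := hsupp m hm l fun h0 => h (by rw [h0]; ring)
      have : (2 * i * M : ℤ) ≤ 2 * J * M := by gcongr
      linarith, ← sum_sub_distrib]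
    calc _ ≤ ∑ z ∈ Pt M B, κ * (2 * P) * g z.1 z.2 := by
          refine (abs_sum_le_sum_abs _ _).trans (sum_le_sum fun z hz => ?_)
          have e1 : a (z.1, z.2 + 2 * i * z.1) = a z := by
            have : Even (z.2 + 2 * i * z.1) ↔ Even z.2 := by
              rw [Int.even_add]
              simp [mul_assoc]
            simp only [ha, this]
          have e2 : Gf S β u v 0 (z.1, z.2 + 2 * i * z.1) = Gf S β u v i z := by
            simp [Gf, cof]
          rw [e1, e2, ← sub_mul, ← sub_mul, abs_mul, abs_mul]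
          calc _ ≤ κ * g z.1 z.2 * 1 * (2 * P) := by
                have := mul_nonneg hκ (hg0 z hz)
                gcongr
                · exact hFs z hz i hi'
                · exact ha1 z
                · exact hG z hz i hi'
            _ = _ := by ring
      _ ≤ _ := by rw [← mul_sum]; gcongr
  -- Cauchy-Schwarz
  set T : ℕ × ℤ → ℕ → ℝ := fun z n => β n * ∑ i ∈ range J, xi n (cof i z) with hTd
  have e3 : ∀ z, ∑ i ∈ range J, Gf S β u v i z = ∑ n ∈ S with v n = u z.1, T z n := fun z => by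
    simp only [Gf, hTd, mul_sum]
    exact sum_comm
  set Q := 2 * P ^ 3 * (2 * J / w + 2) * J + 16 * J ^ 2 * P ^ 2 / w with hQ
  have hQ0 : 0 ≤ Q := by have : 0 < w := by linarith
                         positivity
  have s2 : ∑ z ∈ Pt M B, F z.1 z.2 * (∑ i ∈ range J, Gf S β u v i z) ^ 2 ≤ E + Z * Q := by
    calc _ ≤ ∑ z ∈ Pt M B, F z.1 z.2 * ∑ n ∈ S ×ˢ S with v n.1 = v n.2, T z n.1 * T z n.2 :=
          sum_le_sum fun z _ => by
            rw [e3]; exact mul_le_mul_of_nonneg_left (label_sq S v _ _) (hF0 _ _)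
      _ = ∑ n ∈ S ×ˢ S with v n.1 = v n.2, ∑ z ∈ Pt M B, F z.1 z.2 * (T z n.1 * T z n.2) := by
          simp only [mul_sum]; exact sum_comm
      _ ≤ ∑ n ∈ S ×ˢ S, |∑ z ∈ Pt M B, F z.1 z.2 * (T z n.1 * T z n.2)| :=
          (sum_le_sum fun _ _ => le_abs_self _).trans
            (sum_le_sum_of_subset_of_nonneg (filter_subset _ _) fun _ _ _ => abs_nonneg _)
      _ ≤ E + Z * Q := by
          rw [← sum_filter_add_sum_filter_not _ fun n : ℕ × ℕ => n.1.Coprime n.2]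
          refine add_le_add (le_trans (sum_le_sum fun n _ => ?_) hE) ?_
          · have : ∑ z ∈ Pt M B, F z.1 z.2 * (T z n.1 * T z n.2) = β n.1 * β n.2 *
                ∑ i ∈ range J ×ˢ range J, ∑ z ∈ Pt M B,
                  xi n.1 (cof i.1 z) * xi n.2 (cof i.2 z) * F z.1 z.2 := by
              rw [sum_comm, mul_sum]
              refine sum_congr rfl fun z _ => ?_
              rw [← sum_mul, sum_product' (f := fun i j => xi n.1 (cof i z) * xi n.2 (cof j z)),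
                ← sum_mul_sum]
              simp only [hTd]; ring
            rw [this, abs_mul, abs_mul]
            exact mul_le_of_le_one_left (abs_nonneg _)
              (mul_le_one₀ (hβ _) (abs_nonneg _) (hβ _))
          · calc _ ≤ ∑ n ∈ S ×ˢ S with ¬ n.1.Coprime n.2, ∑ z ∈ Pt M B, F z.1 z.2 *
                  ((∑ i ∈ range J, |xi n.1 (cof i z)|) * ∑ i ∈ range J, |xi n.2 (cof i z)|) := by
                  refine sum_le_sum fun n _ => (abs_sum_le_sum_abs _ _).trans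
                    (sum_le_sum fun z _ => ?_)
                  have b : ∀ k, |T z k| ≤ ∑ i ∈ range J, |xi k (cof i z)| := fun k => by
                    simp only [hTd]
                    rw [abs_mul]
                    exact (mul_le_of_le_one_left (abs_nonneg _) (hβ k)).trans
                      (abs_sum_le_sum_abs _ _)
                  rw [abs_mul, abs_mul, abs_of_nonneg (hF0 _ _)]
                  exact mul_le_mul_of_nonneg_left (mul_le_mul (b _) (b _) (abs_nonneg _)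
                    ((abs_nonneg _).trans (b _))) (hF0 _ _)
              _ ≤ ∑ z ∈ Pt M B, F z.1 z.2 * Q := by
                  rw [sum_comm]
                  refine sum_le_sum fun z hz => ?_
                  obtain ⟨⟨h1, -⟩, -, h⟩ := mem_Pt.1 hz
                  rw [← mul_sum]
                  exact mul_le_mul_of_nonneg_left (nc_point hR h1 h hw J N S hS hN (hT z hz))
                    (hF0 _ _)
              _ ≤ Z * Q := by rw [← sum_mul]; gcongr
  have s3 : |∑ z ∈ Pt M B, F z.1 z.2 * a z * ∑ i ∈ range J, Gf S β u v i z| ≤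
      √(Z * (E + Z * Q)) := by
    refine abs_le_sqrt ?_
    have cs := sum_sq_le_sum_mul_sum_of_sq_le_mul (Pt M B)
      (r := fun z => F z.1 z.2 * a z * ∑ i ∈ range J, Gf S β u v i z)
      (f := fun z => F z.1 z.2) (g := fun z => F z.1 z.2 * (∑ i ∈ range J, Gf S β u v i z) ^ 2)
      (fun z _ => hF0 _ _) (fun z _ => mul_nonneg (hF0 _ _) (sq_nonneg _)) (fun z _ => by
        have : a z ^ 2 ≤ 1 := by have := ha1 z; rw [← sq_abs]; nlinarith [abs_nonneg (a z)]
        have h2 : 0 ≤ (F z.1 z.2 * ∑ i ∈ range J, Gf S β u v i z) ^ 2 := sq_nonneg _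
        nlinarith)
    refine cs.trans (mul_le_mul hF s2 (sum_nonneg fun z _ => mul_nonneg (hF0 _ _) (sq_nonneg _))
      ((sum_nonneg fun z _ => hF0 _ _).trans hF))
  set A := ∑ z ∈ Pt M B, F z.1 z.2 * a z * Gf S β u v 0 z with hA
  have e4 : ∑ z ∈ Pt M B, F z.1 z.2 * a z * ∑ i ∈ range J, Gf S β u v i z =
      ∑ i ∈ range J, ∑ z ∈ Pt M B, F z.1 z.2 * a z * Gf S β u v i z := by
    simp only [mul_sum]; exact sum_comm
  have s4 : |J * A - ∑ i ∈ range J, ∑ z ∈ Pt M B, F z.1 z.2 * a z * Gf S β u v i z| ≤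
      J * (κ * (2 * P) * Z) := by
    have : (J : ℝ) * A = ∑ _i ∈ range J, A := by rw [sum_const, card_range, nsmul_eq_mul]
    rw [this, ← sum_sub_distrib]
    refine (abs_sum_le_sum_abs _ _).trans ((sum_le_sum s1).trans (le_of_eq ?_))
    rw [sum_const, card_range, nsmul_eq_mul]
  rw [e4] at s3
  have s5 : J * |A| ≤ J * (κ * (2 * P) * Z) + √(Z * (E + Z * Q)) := by
    have := abs_add_le (J * A - ∑ i ∈ range J, ∑ z ∈ Pt M B, F z.1 z.2 * a z * Gf S β u v i z)
      (∑ i ∈ range J, ∑ z ∈ Pt M B, F z.1 z.2 * a z * Gf S β u v i z)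
    rw [sub_add_cancel, abs_mul, abs_of_pos hJ0] at this
    linarith
  rw [← sub_le_iff_le_add', le_div_iff₀ hJ0]
  linarith

end Pool.Agent.Lib.MP_4b1228_nt.PP.T2
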