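import Pool.Agent.Lib.MP_4b1228_nt.PP.T2b

/-!
Type II information: the main terms.
-/

open Finset Real
open scoped Classical

noncomputable section

namespace Pool.Agent.Lib.MP_4b1228_nt.PP.T2

lemma range_red {M M₀ : ℕ} (h : M₀ ≤ M) (g : ℕ → ℝ) (hg : ∀ m, M₀ < m → g m = 0) :
    ∑ m ∈ Icc 1 M, g m = ∑ m ∈ Icc 1 M₀, g m :=
  (sum_subset (Icc_subset_Icc_right h) fun m hm hm' => hg m (by
    rw [mem_Icc] at hm hm'; omega)).symm

/-- Counting factorisations with a rough factor. -/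
lemma sum_fact {w P : ℝ} (M : ℕ) (S : Finset ℕ) (hS : ∀ n ∈ S, n ∈ Icc 1 M ∧ Rough w n)
    (g : ℕ → ℝ) (hg : ∀ k ∈ Icc 1 (M * M), 0 ≤ g k)
    (hT : ∀ k ∈ Icc 1 (M * M), (#{d ∈ k.divisors | Rough w d} : ℝ) ≤ P) :
    ∑ n ∈ S, ∑ m ∈ Icc 1 M, g (m * n) ≤ P * ∑ k ∈ Icc 1 (M * M), g k := by
  rw [← sum_product', ← sum_fiberwise_of_maps_to (g := fun x : ℕ × ℕ => x.2 * x.1)
    (t := Icc 1 (M * M)) (fun x hx => by
      obtain ⟨h1, h2⟩ := mem_product.1 hx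
      obtain ⟨a, b⟩ := mem_Icc.1 (hS _ h1).1
      obtain ⟨c, d⟩ := mem_Icc.1 h2
      exact mem_Icc.2 ⟨Nat.mul_pos c a, Nat.mul_le_mul d b⟩), mul_sum]
  refine sum_le_sum fun k hk => ?_
  rw [sum_congr rfl fun x hx => congrArg g (mem_filter.1 hx).2, sum_const, nsmul_eq_mul]
  refine mul_le_mul_of_nonneg_right (le_trans ?_ (hT k hk)) (hg k hk)
  have hk0 : k ≠ 0 := by have := (mem_Icc.1 hk).1; omega
  have : #{x ∈ S ×ˢ Icc 1 M | x.2 * x.1 = k} ≤ #{d ∈ k.divisors | Rough w d} := by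
    refine card_le_card_of_injOn (fun x => x.1) (fun x hx => ?_) fun x hx y hy h => ?_
    · obtain ⟨h1, h2⟩ := mem_filter.1 (mem_coe.1 hx)
      exact mem_coe.2 (mem_filter.2 ⟨Nat.mem_divisors.2 ⟨Dvd.intro_left _ h2, hk0⟩,
        (hS _ (mem_product.1 h1).1).2⟩)
    · obtain ⟨h1, h2⟩ := mem_filter.1 (mem_coe.1 hx)
      obtain ⟨-, h4⟩ := mem_filter.1 (mem_coe.1 hy)
      have h5 : x.1 = y.1 := h
      have h6 : 0 < x.1 := (mem_Icc.1 (hS _ (mem_product.1 h1).1).1).1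
      refine Prod.ext h5 (Nat.eq_of_mul_eq_mul_right h6 ?_)
      rw [h2, h5, h4]
  exact_mod_cast this

/-- The densities. -/
lemma dens (hR : RhoStmt) {w P : ℝ} (hw : 3 ≤ w) (M : ℕ) (S : Finset ℕ)
    (hS : ∀ n ∈ S, n ∈ Icc 1 M ∧ Squarefree n ∧ Rough w n) (hM : (1 + log M) ^ 2 ≤ P)
    (hT : ∀ n ∈ S, (#n.primeFactors : ℝ) ≤ P) :
    ∑ m ∈ Icc 1 M, ∑ n ∈ S, |gg n * (rho m / m) - rho (m * n) / (m * n : ℕ)| ≤
      (P ^ 3 + 8 * P ^ 2) / w := by
  have hP0 : 0 ≤ P := (sq_nonneg _).trans hM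
  have hw0 : 0 < w := by linarith
  have hR' := hR
  obtain ⟨h1, h2, -, -, -, -, -, -, -, h10, h11, -⟩ := hR'
  have key : ∀ x ∈ Icc 1 M ×ˢ S, |gg x.2 * (rho x.1 / x.1) - rho (x.1 * x.2) / (x.1 * x.2 : ℕ)| ≤
      P / w * ((rho x.1 : ℝ) / x.1 * (rho x.2 / x.2)) +
        if ¬ x.1.Coprime x.2 then (rho x.1 : ℝ) / x.1 * (rho x.2 / x.2) else 0 := fun x hx => by
    obtain ⟨a, b⟩ := mem_product.1 hx
    obtain ⟨g0, g1, g2⟩ := h10 x.2 (hS _ b).2.1
    have m0 : (0 : ℝ) ≤ (rho x.1 : ℝ) / x.1 := by positivity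
    have n0 : (0 : ℝ) ≤ (rho x.2 : ℝ) / x.2 := by positivity
    have t0 : 0 ≤ P / w * ((rho x.1 : ℝ) / x.1 * (rho x.2 / x.2)) := by positivity
    have c1 : gg x.2 * (rho x.1 / x.1) ≤ (rho x.1 : ℝ) / x.1 * (rho x.2 / x.2) := by
      rw [mul_comm]; gcongr
    by_cases hc : x.1.Coprime x.2
    · rw [if_neg (not_not.2 hc), add_zero, h1 _ _ hc]
      have e : ((rho x.1 * rho x.2 : ℕ) : ℝ) / (x.1 * x.2 : ℕ) =
          (rho x.1 : ℝ) / x.1 * (rho x.2 / x.2) := by push_cast; rw [div_mul_div_comm]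
      have s : ∑ p ∈ x.2.primeFactors, 1 / (p : ℝ) ≤ P / w := by
        calc _ ≤ ∑ _p ∈ x.2.primeFactors, 1 / w := sum_le_sum fun p hp => by
              have := (hS _ b).2.2 p (Nat.prime_of_mem_primeFactors hp)
                (Nat.dvd_of_mem_primeFactors hp)
              gcongr
          _ ≤ P / w := by
              rw [sum_const, nsmul_eq_mul, mul_one_div]
              gcongr
              exact hT _ b
      rw [e, abs_sub_comm, abs_of_nonneg (sub_nonneg.2 c1)]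
      have : (rho x.2 : ℝ) / x.2 - gg x.2 ≤ rho x.2 / x.2 * (P / w) :=
        g2.trans (mul_le_mul_of_nonneg_left s n0)
      nlinarith [mul_le_mul_of_nonneg_left this m0]
    · rw [if_pos hc]
      have c2 : (rho (x.1 * x.2) : ℝ) / (x.1 * x.2 : ℕ) ≤ (rho x.1 : ℝ) / x.1 * (rho x.2 / x.2) := by
        have : (rho (x.1 * x.2) : ℝ) ≤ rho x.1 * rho x.2 := by exact_mod_cast h2 _ _
        push_cast
        rw [div_mul_div_comm]
        gcongr
      have c3 : 0 ≤ gg x.2 * (rho x.1 / x.1) := mul_nonneg g0 m0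
      have c4 : (0 : ℝ) ≤ (rho (x.1 * x.2) : ℝ) / (x.1 * x.2 : ℕ) := by positivity
      rw [abs_le]
      constructor <;> linarith
  have sM : ∑ m ∈ Icc 1 M, (rho m : ℝ) / m ≤ P := (h11 M).1.trans hM
  have sS : ∑ n ∈ S, (rho n : ℝ) / n ≤ P :=
    (sum_le_sum_of_subset_of_nonneg (fun n hn => (hS n hn).1) fun _ _ _ => by positivity).trans sM
  set Q := (Icc 1 M).filter fun p : ℕ => p.Prime ∧ w ≤ p with hQ
  rw [← sum_product']
  refine (sum_le_sum key).trans ?_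
  rw [sum_add_distrib, ← mul_sum, ← sum_filter,
    sum_product' (f := fun m n : ℕ => (rho m : ℝ) / m * (rho n / n)), ← sum_mul_sum]
  have b1 : (∑ m ∈ Icc 1 M, (rho m : ℝ) / m) * ∑ n ∈ S, (rho n : ℝ) / n ≤ P * P :=
    mul_le_mul sM sS (sum_nonneg fun _ _ => by positivity) hP0
  have b2 := noncop (Icc 1 M) S Q (fun m => (rho m : ℝ) / m) (fun m => (rho m : ℝ) / m)
    (fun _ _ => by positivity) (fun _ _ => by positivity) fun m hm n hn p hp hpm hpn => by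
      have := mem_Icc.1 hm
      exact mem_filter.2 ⟨mem_Icc.2 ⟨hp.pos, (Nat.le_of_dvd this.1 hpm).trans this.2⟩, hp,
        (hS n hn).2.2 p hp hpn⟩
  have b3 : ∑ p ∈ Q, (∑ n ∈ Icc 1 M with p ∣ n, (rho n : ℝ) / n) *
      ∑ n ∈ S with p ∣ n, (rho n : ℝ) / n ≤ 4 * P ^ 2 * (2 / w) := by
    calc _ ≤ ∑ p ∈ Q, 4 * P ^ 2 * (1 / (p : ℝ) ^ 2) := sum_le_sum fun p hp => by
          have hp1 := (mem_filter.1 hp).2.1
          have e : 2 / (p : ℝ) * (1 + log M) ^ 2 ≤ 2 / p * P := by gcongr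
          calc _ ≤ (2 / p * P) * (2 / p * P) :=
                mul_le_mul ((sum_mult hR hp1 _ M subset_rfl).trans e)
                  ((sum_mult hR hp1 S M fun n hn => (hS n hn).1).trans e)
                  (sum_nonneg fun _ _ => by positivity) (by positivity)
            _ = _ := by ring
      _ ≤ _ := by
          rw [← mul_sum]
          gcongr
          exact sum_inv_sq (by linarith) Q fun p hp => (mem_filter.1 hp).2.2
  calc _ ≤ P / w * (P * P) + 4 * P ^ 2 * (2 / w) := add_le_add (by gcongr) (b2.trans b3)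
    _ = _ := by ring

/-- Representatives of the blocks. -/
lemma exists_rep (S : Finset ℕ) (hS : ∀ n ∈ S, 1 ≤ n) {s : ℝ} (hs : 0 < s) :
    ∃ r : ℕ → ℕ, ∀ n ∈ S, r ⌊s * log n⌋₊ ∈ S ∧ |log ((n : ℝ) / r ⌊s * log n⌋₊)| ≤ 1 / s := by
  refine ⟨fun j => if h : ∃ n ∈ S, ⌊s * log n⌋₊ = j then h.choose else 1, fun n hn => ?_⟩
  have h : ∃ n' ∈ S, ⌊s * log n'⌋₊ = ⌊s * log n⌋₊ := ⟨n, hn, rfl⟩
  simp only [dif_pos h]
  obtain ⟨h1, h2⟩ := h.choose_spec
  refine ⟨h1, ?_⟩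
  set n' := h.choose
  have p1 : (1 : ℝ) ≤ n := by exact_mod_cast hS n hn
  have p2 : (1 : ℝ) ≤ n' := by exact_mod_cast hS n' h1
  have a1 := Nat.floor_le (mul_nonneg hs.le (log_nonneg p1))
  have a2 := Nat.floor_le (mul_nonneg hs.le (log_nonneg p2))
  have b1 := Nat.lt_floor_add_one (s * log n)
  have b2 := Nat.lt_floor_add_one (s * log n')
  rw [h2] at a2 b2
  rw [log_div (by linarith) (by linarith), le_div_iff₀ hs, ← abs_of_pos hs, ← abs_mul, abs_le]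
  constructor <;> nlinarith

end Pool.Agent.Lib.MP_4b1228_nt.PP.T2
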