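import Pool.Agent.Lib.MP_4b1228_nt.PP.T2c

/-!
Type II information: the four parts of the difference.
-/

open Finset Real
open scoped Classical

noncomputable section

namespace Pool.Agent.Lib.MP_4b1228_nt.PP.T2

/-- The explicit hypotheses. -/
structure Ctx (X P s : ℝ) (f : ℝ → ℝ) : Prop where
  hX : 3 ≤ X
  hs : 2 ≤ s
  hP : 1 ≤ P
  f0 : ∀ r, 0 ≤ f r
  ii : ∀ v : ℝ, 0 < v → 0 ≤ II f v ∧ II f v ≤ 2 * P ^ 2 * X ∧ ∀ v' : ℝ, 0 < v' →
    |log (v / v')| ≤ 1 → |II f v - II f v'| ≤ |log (v / v')| * (3 * P ^ 2 * X)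
  mjs : ∀ (Y : ℝ) (M : ℕ) (B : ℤ), 0 < Y →
    ∑ z ∈ Pt M B, maj X (hd (z.2 / z.1) (1 / z.1) Y) ≤ P * X
  lip : ∀ r r', 0 ≤ r → 0 ≤ r' → |r - r'| ≤ 1 →
    f r ≤ P * maj X r ∧ |f r - f r'| ≤ |r - r'| * P * maj X r
  supp : ∀ (Y : ℝ) (k : ℕ) (l : ℤ), 0 < Y → 1 ≤ k → f (hd (l / k) (1 / k) Y) ≠ 0 →
    |(l : ℝ)| ≤ X ∧ k * Y ≤ 2 * X
  tc : ∀ (Y : ℝ) (m : ℕ), 2 ≤ Y → 1 ≤ m →
    |sA f Y m - sB f Y m| ≤ P ^ 2 * rho m * √(X / (m * Y))
  tc0 : ∀ (Y : ℝ) (m : ℕ), 0 < Y → KM X Y < m → sA f Y m = 0 ∧ sB f Y m = 0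
  dv : ∀ m : ℕ, 1 ≤ m → (m : ℝ) ≤ X ^ 11 → (#{d ∈ m.divisors | Rough (s ^ 8) d} : ℝ) ≤ P ∧
    (#m.primeFactors : ℝ) ≤ P ∧ (1 + log m) ^ 2 ≤ P

lemma maj_nonneg (X r : ℝ) : 0 ≤ maj X r := by
  unfold maj; split_ifs
  · exact sqrt_nonneg _
  · rfl

/-- A finite form of the sequence with a free base point. -/
def tA (B : ℤ) (f : ℝ → ℝ) (Y : ℝ) (m n : ℕ) : ℝ :=
  ∑ l ∈ Icc (-B) B, if Even l ∧ ((m * n : ℕ) : ℤ) ∣ l ^ 2 + 1 then f (hd (l / m) (1 / m) Y) else 0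

def Gm (B : ℤ) (X Y : ℝ) (k : ℕ) : ℝ :=
  ∑ l ∈ Icc (-B) B, if (k : ℤ) ∣ l ^ 2 + 1 then maj X (hd (l / k) (1 / k) Y) else 0

lemma hd_scale (hG : GeoStmt) {Y : ℝ} (hY : 0 < Y) {m n : ℕ} (hm : 1 ≤ m) (hn : 1 ≤ n) (l : ℤ) :
    hd (l / (m * n : ℕ)) (1 / (m * n : ℕ)) Y = hd (l / m) (1 / m) (n * Y) := by
  have m0 : (0 : ℝ) < m := by exact_mod_cast hm
  have n0 : (0 : ℝ) < n := by exact_mod_cast hn
  rw [← (hG.1 _ _ Y (by push_cast; positivity) hY).2.2.2.2.2 n n0]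
  congr 1 <;> push_cast <;> field_simp

variable {X P s : ℝ} {f : ℝ → ℝ}

lemma sA_eq (hG : GeoStmt) (c : Ctx X P s f) {B : ℤ} (hB : X ≤ B) {Y : ℝ} (hY : 0 < Y) {m n : ℕ}
    (hm : 1 ≤ m) (hn : 1 ≤ n) : sA f Y (m * n) = tA B f (n * Y) m n := by
  rw [sA, tA, tsum_eq_sum (s := Icc (-B) B) fun l hl => ?_]
  · exact sum_congr rfl fun l _ => by rw [hd_scale hG hY hm hn]
  · split_ifs
    · by_contra h0
      have := (c.supp Y (m * n) l hY (Nat.mul_pos hm hn) h0).1.trans hB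
      exact hl (mem_Icc.2 (abs_le.1 (by exact_mod_cast this)))
    · rfl

lemma d1_pt (hG : GeoStmt) (c : Ctx X P s f) (B : ℤ) {Y : ℝ} (hY : 0 < Y) {m n n₀ : ℕ}
    (hm : 1 ≤ m) (hn : 1 ≤ n) (hn₀ : 1 ≤ n₀) (h : |log ((n : ℝ) / n₀)| ≤ 1 / s) :
    |tA B f (n * Y) m n - tA B f (n₀ * Y) m n| ≤ P / s * Gm B X Y (m * n) := by
  have m0 : (0 : ℝ) < m := by exact_mod_cast hm
  have n0 : (0 : ℝ) < n := by exact_mod_cast hn
  have n1 : (0 : ℝ) < n₀ := by exact_mod_cast hn₀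
  have hs := c.hs
  have hP := c.hP
  rw [tA, tA, Gm, ← sum_sub_distrib, mul_sum]
  refine (abs_sum_le_sum_abs _ _).trans (sum_le_sum fun l _ => ?_)
  have hm0 := maj_nonneg X (hd (l / (m * n : ℕ)) (1 / (m * n : ℕ)) Y)
  by_cases h1 : Even l ∧ ((m * n : ℕ) : ℤ) ∣ l ^ 2 + 1
  · rw [if_pos h1, if_pos h1, if_pos h1.2, hd_scale hG hY hm hn]
    have g1 := hG.1 (l / m) (1 / m) (n * Y) (by positivity) (by positivity)
    have g2 := hG.1 (l / m) (1 / m) (n₀ * Y) (by positivity) (by positivity)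
    have g3 := g1.2.2.2.1 (n₀ * Y) (by positivity)
    rw [mul_div_mul_right _ _ hY.ne'] at g3
    have g4 := g3.trans h
    have g5 : 1 / s ≤ 1 := by rw [div_le_one (by linarith)]; linarith
    refine (c.lip _ _ g1.1 g2.1 (g4.trans g5)).2.trans ?_
    have := maj_nonneg X (hd (l / m) (1 / m) (n * Y))
    calc _ ≤ 1 / s * P * maj X (hd (l / m) (1 / m) (n * Y)) := by gcongr
      _ = _ := by ring
  · rw [if_neg h1, if_neg h1, sub_zero, abs_zero]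
    split_ifs
    · positivity
    · simp

lemma d1 (hG : GeoStmt) (c : Ctx X P s f) (B : ℤ) {Y : ℝ} (hY : 0 < Y) (M : ℕ)
    (hM : (M : ℝ) ≤ 2 * X ^ 2) (S : Finset ℕ) (hS : ∀ n ∈ S, n ∈ Icc 1 M ∧ Rough (s ^ 8) n)
    (r : ℕ → ℕ) (hr : ∀ n ∈ S, 1 ≤ r n ∧ |log ((n : ℝ) / r n)| ≤ 1 / s) :
    ∑ m ∈ Icc 1 M, ∑ n ∈ S, |tA B f (n * Y) m n - tA B f (r n * Y) m n| ≤ P ^ 3 * X / s := by
  have hs := c.hs
  have hP := c.hP
  have hX := c.hX
  rw [sum_comm]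
  calc _ ≤ ∑ n ∈ S, ∑ m ∈ Icc 1 M, P / s * Gm B X Y (m * n) :=
        sum_le_sum fun n hn => sum_le_sum fun m hm => d1_pt hG c B hY (mem_Icc.1 hm).1
          (mem_Icc.1 (hS n hn).1).1 (hr n hn).1 (hr n hn).2
    _ = P / s * ∑ n ∈ S, ∑ m ∈ Icc 1 M, Gm B X Y (m * n) := by simp only [mul_sum]
    _ ≤ P / s * (P * ∑ k ∈ Icc 1 (M * M), Gm B X Y k) := by
        gcongr
        refine sum_fact M S hS _ (fun k _ => sum_nonneg fun l _ => ?_) fun k hk => ?_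
        · split_ifs
          · exact maj_nonneg _ _
          · rfl
        · obtain ⟨a, b⟩ := mem_Icc.1 hk
          refine (c.dv k a ?_).1
          have : (k : ℝ) ≤ M * M := by exact_mod_cast b
          calc (k : ℝ) ≤ (2 * X ^ 2) * (2 * X ^ 2) := this.trans (by gcongr)
            _ = 4 * X ^ 4 := by ring
            _ ≤ X ^ 7 * X ^ 4 := by
                gcongr
                calc (4 : ℝ) ≤ 3 ^ 7 := by norm_num
                  _ ≤ _ := by gcongr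
            _ = _ := by ring
    _ ≤ P / s * (P * (P * X)) := by
        gcongr
        have := c.mjs Y (M * M) B hY
        rwa [Pt, sum_filter, sum_product] at this
    _ = _ := by ring

lemma d2_eq (B : ℤ) (Y : ℝ) (M : ℕ) (S : Finset ℕ) (α β : ℕ → ℝ) (u v : ℕ → ℕ) :
    ∑ m ∈ Icc 1 M, ∑ n ∈ S, (if u m = v n then α m * β n else 0) *
        (tA B f Y m n - gg n * tA B f Y m 1) =
      ∑ z ∈ Pt M B, f (hd (z.2 / z.1) (1 / z.1) Y) * (if Even z.2 then α z.1 else 0) *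
        Gf S β u v 0 z := by
  rw [Pt, sum_filter, sum_product]
  refine sum_congr rfl fun m hm => ?_
  have m0 : (m : ℤ) ≠ 0 := by have := (mem_Icc.1 hm).1; omega
  simp only [tA, mul_sum, ← sum_sub_distrib]
  rw [sum_comm]
  refine sum_congr rfl fun l _ => ?_
  by_cases h : (m : ℤ) ∣ l ^ 2 + 1
  · rw [if_pos h, Gf, sum_filter, mul_sum]
    refine sum_congr rfl fun n _ => ?_
    have e : ((m * n : ℕ) : ℤ) ∣ l ^ 2 + 1 ↔ (n : ℤ) ∣ cof 0 (m, l) := by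
      obtain ⟨k, hk⟩ := h
      simp only [cof, Nat.cast_zero, mul_zero, zero_mul, add_zero, hk, Nat.cast_mul]
      rw [Int.mul_ediv_cancel_left _ m0, mul_dvd_mul_iff_left m0]
    simp only [e, xi, mul_one, h, and_true, eq_comm (a := v n)]
    by_cases h1 : Even l <;> by_cases h2 : u m = v n <;> by_cases h3 : (n : ℤ) ∣ cof 0 (m, l) <;>
      simp [h1, h2, h3] <;> ring
  · rw [if_neg h]
    refine sum_eq_zero fun n _ => ?_
    rw [if_neg (c := Even l ∧ _) fun hh => h ((Int.natCast_dvd_natCast.2 (dvd_mul_right m n)).trans hh.2),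
      if_neg (c := Even l ∧ _) fun hh => h ((Int.natCast_dvd_natCast.2 (dvd_mul_right m 1)).trans hh.2)]
    simp

lemma d3_one (hR : RhoStmt) (c : Ctx X P s f) {Y : ℝ} (hY : s ≤ Y) (M : ℕ) :
    ∑ m ∈ Icc 1 M, |sA f Y m - sB f Y m| ≤ 6 * P ^ 3 * X / s := by
  have hs := c.hs
  have hP := c.hP
  have hX := c.hX
  have hY0 : 0 < Y := by linarith
  set K := KM X Y with hK
  have hK1 : (K : ℝ) ≤ 2 * X / Y := Nat.floor_le (by positivity)
  rcases Nat.eq_zero_or_pos K with h0 | h0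
  · rw [sum_eq_zero fun m hm => ?_]
    · positivity
    · obtain ⟨a, b⟩ := c.tc0 Y m hY0 (by have := (mem_Icc.1 hm).1; omega)
      rw [a, b]; simp
  have hK2 : 1 + log K ≤ P := by
    have h1 : (K : ℝ) ≤ X ^ 11 := by
      calc (K : ℝ) ≤ 2 * X / 2 := hK1.trans (by gcongr; linarith)
        _ = X ^ 1 := by ring
        _ ≤ _ := pow_le_pow_right₀ (by linarith) (by norm_num)
    have h2 := (c.dv K h0 h1).2.2
    have h3 : 0 ≤ log (K : ℝ) := log_natCast_nonneg K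
    nlinarith
  calc _ ≤ ∑ m ∈ Icc 1 (max M K), |sA f Y m - sB f Y m| :=
        sum_le_sum_of_subset_of_nonneg (Icc_subset_Icc_right (le_max_left _ _))
          fun _ _ _ => abs_nonneg _
    _ = ∑ m ∈ Icc 1 K, |sA f Y m - sB f Y m| := range_red (le_max_right _ _) _ fun m hm => by
        obtain ⟨a, b⟩ := c.tc0 Y m hY0 hm
        rw [a, b]; simp
    _ ≤ ∑ m ∈ Icc 1 K, P ^ 2 * √(X / Y) * ((rho m : ℝ) / √m) := sum_le_sum fun m hm => by
        refine (c.tc Y m (by linarith) (mem_Icc.1 hm).1).trans (le_of_eq ?_)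
        rw [mul_comm (m : ℝ) Y, ← div_div, sqrt_div (by positivity)]
        ring
    _ ≤ P ^ 2 * √(X / Y) * (4 * √K * (1 + log K)) := by
        rw [← mul_sum]
        gcongr
        exact (hR.2.2.2.2.2.2.2.2.2.2.1 K).2
    _ ≤ P ^ 2 * √(X / Y) * (4 * (3 / 2 * √(X / Y)) * P) := by
        have h3 : 0 ≤ log (K : ℝ) := log_natCast_nonneg K
        gcongr
        refine sqrt_le_iff.2 ⟨by positivity, ?_⟩
        rw [mul_pow, sq_sqrt (by positivity)]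
        have : 0 ≤ X / Y := by positivity
        rw [mul_div_assoc] at hK1
        linarith
    _ = 6 * P ^ 3 * (√(X / Y) ^ 2) := by ring
    _ ≤ _ := by
        rw [sq_sqrt (by positivity), mul_div_assoc]
        gcongr

lemma d4_pt (hR : RhoStmt) (c : Ctx X P s f) {Y : ℝ} (hY : 0 < Y) {m n n₀ : ℕ}
    (hm : 1 ≤ m) (hn : 1 ≤ n) (hn₀ : 1 ≤ n₀) (hq : Squarefree n) (ho : Odd n)
    (h : |log ((n : ℝ) / n₀)| ≤ 1 / s) :
    |gg n * sB f (n₀ * Y) m - sB f Y (m * n)| ≤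
      2 * P ^ 2 * X / s * ((rho m : ℝ) / m * gg n) +
        P ^ 2 * X * |gg n * (rho m / m) - rho (m * n) / (m * n : ℕ)| := by
  have m0 : (0 : ℝ) < m := by exact_mod_cast hm
  have n0 : (0 : ℝ) < n := by exact_mod_cast hn
  have n1 : (0 : ℝ) < n₀ := by exact_mod_cast hn₀
  have hs := c.hs
  have hP := c.hP
  have hX := c.hX
  have g0 := (hR.2.2.2.2.2.2.2.2.2.1 n hq).1
  by_cases hodd : Odd m
  · rw [sB, sB, if_pos hodd, if_pos (hodd.mul ho)]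
    obtain ⟨a0, a1, a2⟩ := c.ii ((m * n : ℕ) * Y) (by push_cast; positivity)
    have e : ((m * n : ℕ) : ℝ) * Y / (m * (n₀ * Y)) = n / n₀ := by push_cast; field_simp
    have g5 : 1 / s ≤ 1 := by rw [div_le_one (by linarith)]; linarith
    have a3 := a2 (m * (n₀ * Y)) (by positivity) (by rw [e]; exact h.trans g5)
    rw [e] at a3
    set u := II f ((m * n : ℕ) * Y)
    set u' := II f (m * (n₀ * Y))
    have a4 : |u' - u| ≤ 1 / s * (3 * P ^ 2 * X) := by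
      rw [abs_sub_comm]; exact a3.trans (by gcongr)
    set a : ℝ := (rho m : ℝ) / m * gg n with ha
    set b : ℝ := gg n * (rho m / m) - rho (m * n) / (m * n : ℕ) with hb
    have ha0 : 0 ≤ a := by positivity
    have e2 : gg n * ((rho m : ℝ) / (2 * m) * u') - (rho (m * n) : ℝ) / (2 * (m * n : ℕ)) * u =
        a / 2 * (u' - u) + b * (u / 2) := by
      simp only [ha, hb]; push_cast; field_simp; ring
    rw [e2]
    refine (abs_add_le _ _).trans (add_le_add ?_ ?_)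
    · rw [abs_mul, abs_of_nonneg (by positivity)]
      calc _ ≤ a / 2 * (1 / s * (3 * P ^ 2 * X)) := by gcongr
        _ = 3 / 2 * P ^ 2 * X / s * a := by ring
        _ ≤ _ := by gcongr; norm_num
    · rw [abs_mul, abs_of_nonneg (a := u / 2) (by positivity), mul_comm]
      gcongr
      linarith
  · rw [sB, sB, if_neg hodd, if_neg fun hh => hodd (Nat.odd_mul.1 hh).1]
    simp only [mul_zero, sub_zero, abs_zero]
    positivity

end Pool.Agent.Lib.MP_4b1228_nt.PP.T2
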