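import Pool.Agent.Lib.MP_4b1228_nt.PP.T2d

/-!
Type II information: the explicit bound.
-/

open Finset Real
open scoped Classical

noncomputable section

namespace Pool.Agent.Lib.MP_4b1228_nt.PP.T2

variable {X P s : ℝ} {f : ℝ → ℝ}

lemma num {X P s J E κ : ℝ} (hX : 0 ≤ X) (hP : 1 ≤ P) (hs : 2 ≤ s) (hJ : s ^ 8 ≤ J)
    (hE : E ≤ 4 * J ^ 2 * X / s ^ 8) (hκ : κ ≤ 2 * P / s ^ 2) :
    κ * (2 * P) * (P ^ 2 * X) + √(P ^ 2 * X * (E + P ^ 2 * X *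
      (2 * P ^ 3 * (2 * J / s ^ 8 + 2) * J + 16 * J ^ 2 * P ^ 2 / s ^ 8))) / J ≤
        10 * P ^ 4 * X / s ^ 2 := by
  have s0 : 0 < s := by linarith
  have w0 : 0 < s ^ 8 := by positivity
  have J0 : 0 < J := w0.trans_le hJ
  have a1 : κ * (2 * P) * (P ^ 2 * X) ≤ 4 * P ^ 4 * X / s ^ 2 := by
    calc _ ≤ 2 * P / s ^ 2 * (2 * P) * (P ^ 2 * X) := by gcongr
      _ = _ := by ring
  have a2 : (2 : ℝ) ≤ 2 * J / s ^ 8 := by rw [le_div_iff₀ w0]; linarith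
  have a3 : 2 * P ^ 3 * (2 * J / s ^ 8 + 2) * J + 16 * J ^ 2 * P ^ 2 / s ^ 8 ≤
      24 * P ^ 3 * J ^ 2 / s ^ 8 := by
    have : P ^ 2 ≤ P ^ 3 := pow_le_pow_right₀ hP (by norm_num)
    calc _ ≤ 2 * P ^ 3 * (2 * J / s ^ 8 + 2 * J / s ^ 8) * J + 16 * J ^ 2 * P ^ 3 / s ^ 8 := by gcongr
      _ = _ := by ring
  have a4 : E + P ^ 2 * X * (2 * P ^ 3 * (2 * J / s ^ 8 + 2) * J + 16 * J ^ 2 * P ^ 2 / s ^ 8) ≤
      36 * P ^ 6 * J ^ 2 * X / s ^ 8 := by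
    have b1 : (1 : ℝ) ≤ P ^ 6 := one_le_pow₀ hP
    have b2 : P ^ 5 ≤ P ^ 6 := pow_le_pow_right₀ hP (by norm_num)
    have t0 : 0 ≤ J ^ 2 * X / s ^ 8 := by positivity
    calc _ ≤ 4 * J ^ 2 * X / s ^ 8 + P ^ 2 * X * (24 * P ^ 3 * J ^ 2 / s ^ 8) := by gcongr
      _ = (4 + 24 * P ^ 5) * (J ^ 2 * X / s ^ 8) := by ring
      _ ≤ (36 * P ^ 6) * (J ^ 2 * X / s ^ 8) := by gcongr; linarith
      _ = _ := by ring
  have a5 : √(P ^ 2 * X * (E + P ^ 2 * X *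
      (2 * P ^ 3 * (2 * J / s ^ 8 + 2) * J + 16 * J ^ 2 * P ^ 2 / s ^ 8))) ≤
        6 * P ^ 4 * X / s ^ 4 * J := by
    refine sqrt_le_iff.2 ⟨by positivity, ?_⟩
    calc _ ≤ P ^ 2 * X * (36 * P ^ 6 * J ^ 2 * X / s ^ 8) := by gcongr
      _ = _ := by field_simp; norm_num
  have a6 : 6 * P ^ 4 * X / s ^ 4 ≤ 6 * P ^ 4 * X / s ^ 2 := by
    gcongr
    · linarith
    · norm_num
  have a7 := (div_le_iff₀ J0).2 a5
  calc _ ≤ 4 * P ^ 4 * X / s ^ 2 + 6 * P ^ 4 * X / s ^ 2 := add_le_add a1 (a7.trans a6)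
    _ = _ := by ring

lemma d2_block (hR : RhoStmt) (hG : GeoStmt) (c : Ctx X P s f) {η δ : ℝ} (hE : E2 X η δ f)
    (hδ : s ^ 12 ≤ X ^ δ) (M N : ℕ) (hM1 : 1 ≤ M) (hM : (M : ℝ) ≤ 2 * X ^ 2) {Y : ℝ}
    (hY : 2 * s ^ 10 ≤ Y) (hYX : Y ≤ 2 * X) (hK : KM X Y ≤ M) (hN : Y ≤ N)
    (hN4 : (N : ℝ) ^ 4 ≤ Y * X ^ (1 - η)) (S : Finset ℕ)
    (hS : ∀ n ∈ S, n ∈ Icc 1 M ∧ Squarefree n ∧ Rough (s ^ 8) n) (hSN : ∀ n ∈ S, n ≤ N)
    (α β : ℕ → ℝ) (hα : ∀ m, |α m| ≤ 1) (hβ : ∀ n, |β n| ≤ 1) (u v : ℕ → ℕ) :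
    |∑ m ∈ Icc 1 M, ∑ n ∈ S, (if u m = v n then α m * β n else 0) *
        (tA ⌈9 * X ^ 3⌉ f Y m n - gg n * tA ⌈9 * X ^ 3⌉ f Y m 1)| ≤ 10 * P ^ 4 * X / s ^ 2 := by
  have hs := c.hs
  have hP := c.hP
  have hX := c.hX
  have s0 : 0 < s := by linarith
  have s1 : (1 : ℝ) ≤ s := by linarith
  have s8 : (1 : ℝ) ≤ s ^ 8 := one_le_pow₀ s1
  have s2 : (4 : ℝ) ≤ s ^ 2 := by nlinarith
  have Y0 : 0 < Y := lt_of_lt_of_le (by positivity) hY
  set B : ℤ := ⌈9 * X ^ 3⌉ with hB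
  have B1 : 9 * X ^ 3 ≤ B := Int.le_ceil _
  have X3 : X ≤ X ^ 3 := by simpa using pow_le_pow_right₀ (by linarith : 1 ≤ X) (by norm_num : 1 ≤ 3)
  have B2 : (B : ℝ) ≤ 10 * X ^ 3 := by
    have := Int.ceil_lt_add_one (9 * X ^ 3)
    linarith
  set J := ⌊Y / s ^ 2⌋₊ with hJ
  have J1 : (J : ℝ) ≤ Y / s ^ 2 := Nat.floor_le (by positivity)
  have J2 : Y / s ^ 2 < J + 1 := Nat.lt_floor_add_one _
  have J3 : 2 * s ^ 8 ≤ Y / s ^ 2 := by rw [le_div_iff₀ (by positivity)]; linarith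
  have J4 : s ^ 8 ≤ J := by linarith
  have J5 : (1 : ℝ) ≤ J := s8.trans J4
  have J6 : (J : ℝ) ≤ Y := J1.trans (div_le_self Y0.le (by linarith))
  have J7 : Y ≤ 2 * s ^ 2 * J := by
    rw [div_lt_iff₀ (by positivity)] at J2
    nlinarith
  have JM : 2 * (J : ℝ) * M ≤ 2 * X ^ 3 := by
    have : Y / s ^ 2 ≤ 2 * X / 4 := by gcongr
    calc 2 * (J : ℝ) * M ≤ 2 * (2 * X / 4) * (2 * X ^ 2) := by gcongr; linarith
      _ = _ := by ring
  have hsu : ∀ m ∈ Icc 1 M, ∀ l : ℤ, f (hd (l / m) (1 / m) Y) ≠ 0 → |l| + 2 * J * M ≤ B :=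
    fun m hm l h => by
      have h1 := (c.supp Y m l Y0 (mem_Icc.1 hm).1 h).1
      have : ((|l| + 2 * J * M : ℤ) : ℝ) ≤ B := by push_cast; linarith
      exact_mod_cast this
  have g := fun z : ℕ × ℤ => fun hz : z ∈ Pt M B => fun x : ℝ => hG.1 x (1 / z.1) Y
    (by have : (0 : ℝ) < z.1 := by exact_mod_cast (mem_Pt.1 hz).1.1
        positivity) Y0
  rw [d2_eq]
  refine (block hR (w := s ^ 8) (P := P) (E := Y ^ 2 * X ^ (1 - δ)) (κ := 2 * P / s ^ 2)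
    (Z := P ^ 2 * X) ?_ M J M (by exact_mod_cast J5) B S hS ?_ β hβ α hα u v
    (fun m l => f (hd (l / m) (1 / m) Y)) (fun m l => maj X (hd (l / m) (1 / m) Y))
    (by positivity) (fun z hz i hi => ?_) (fun _ _ => c.f0 _) (fun _ _ => maj_nonneg _ _) hsu
    (fun z hz i hi => ?_) ?_ ?_ ?_).trans (num (by linarith) hP hs J4 ?_ le_rfl)
  · calc (3 : ℝ) ≤ 2 ^ 8 := by norm_num
      _ ≤ _ := by gcongr
  · refine (c.dv M hM1 ?_).2.2
    calc (M : ℝ) ≤ X ^ 9 * X ^ 2 := hM.trans (by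
          gcongr
          calc (2 : ℝ) ≤ 3 ^ 9 := by norm_num
            _ ≤ _ := by gcongr)
      _ = _ := by ring
  · obtain ⟨⟨h1, h2⟩, h3, h4⟩ := mem_Pt.1 hz
    obtain ⟨p1, p2⟩ := cof_pos h1 h4 i
    have e : (((cof i z).toNat : ℕ) : ℝ) = (cof i z : ℝ) := by
      exact_mod_cast congrArg (Int.cast : ℤ → ℝ) (Int.toNat_of_nonneg p1.le)
    have q1 : ((cof i z : ℤ) : ℝ) ≤ (z.2 + 2 * i * z.1) ^ 2 + 1 := by exact_mod_cast p2
    have q2 : |(z.2 : ℝ)| ≤ B := by exact_mod_cast h3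
    have q3 : 2 * (i : ℝ) * z.1 ≤ 2 * J * M := by gcongr
    have q4 : |(z.2 : ℝ) + 2 * i * z.1| ≤ 12 * X ^ 3 := by
      refine (abs_add_le _ _).trans ?_
      rw [abs_of_nonneg (a := 2 * (i : ℝ) * z.1) (by positivity)]
      linarith
    have q5 : ((z.2 : ℝ) + 2 * i * z.1) ^ 2 ≤ (12 * X ^ 3) ^ 2 := by
      rw [← sq_abs]; gcongr
    have q6 : (1 : ℝ) ≤ X ^ 6 := one_le_pow₀ (by linarith)
    have := c.dv (cof i z).toNat (by omega) (by
      rw [e]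
      calc ((cof i z : ℤ) : ℝ) ≤ 3 ^ 5 * X ^ 6 := by nlinarith
        _ ≤ X ^ 5 * X ^ 6 := by gcongr
        _ = _ := by ring)
    exact ⟨this.1, this.2.1⟩
  · have m0 : (0 : ℝ) < z.1 := by exact_mod_cast (mem_Pt.1 hz).1.1
    have g1 := (g z hz (z.2 / z.1)).2.2.1 (((z.2 + 2 * i * z.1 : ℤ) : ℝ) / z.1)
    have e : |(z.2 : ℝ) / z.1 - ((z.2 + 2 * i * z.1 : ℤ) : ℝ) / z.1| = 2 * i := by
      rw [abs_sub_comm, show ((z.2 + 2 * i * z.1 : ℤ) : ℝ) / z.1 - z.2 / z.1 = 2 * i by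
        push_cast; field_simp; ring, abs_of_nonneg (by positivity)]
    have g2 : 2 * (i : ℝ) / Y ≤ 2 / s ^ 2 := by
      have : (i : ℝ) ≤ Y / s ^ 2 := le_trans (by exact_mod_cast hi.le) J1
      rw [le_div_iff₀ (by positivity)] at this
      rw [div_le_div_iff₀ Y0 (by positivity)]
      linarith
    rw [e] at g1
    have g3 := g1.trans g2
    have g4 : 2 / s ^ 2 ≤ 1 := by rw [div_le_one (by positivity)]; linarith
    rw [abs_sub_comm]
    refine (c.lip _ _ (g z hz _).1 (g z hz _).1 (g3.trans g4)).2.trans ?_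
    have := maj_nonneg X (hd (z.2 / z.1) (1 / z.1) Y)
    calc _ ≤ 2 / s ^ 2 * P * maj X (hd (z.2 / z.1) (1 / z.1) Y) := by gcongr
      _ = _ := by ring
  · refine (c.mjs Y M B Y0).trans ?_
    gcongr
    nlinarith
  · calc _ ≤ ∑ z ∈ Pt M B, P * maj X (hd (z.2 / z.1) (1 / z.1) Y) := sum_le_sum fun z hz =>
          (c.lip _ _ (g z hz _).1 (g z hz (z.2 / z.1)).1 (by simp)).1
      _ ≤ P * (P * X) := by rw [← mul_sum]; gcongr; exact c.mjs Y M B Y0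
      _ = _ := by ring
  · refine le_trans ?_ (hE N J Y (J5.trans J6) J6 hN hN4)
    refine le_trans (le_of_eq (sum_congr rfl fun n _ => ?_))
      (sum_le_sum_of_subset_of_nonneg (fun n hn => ?_) fun _ _ _ => abs_nonneg _)
    · congr 1
      refine sum_congr rfl fun i _ => ?_
      rw [← range_red hK _ fun m hm => ?_]
      · exact (sum_Pt M B (fun m l => xi n.1 (cof i.1 (m, l)) * xi n.2 (cof i.2 (m, l)) *
          f (hd (l / m) (1 / m) Y)) fun m hm l h => by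
            have := hsu m hm l (right_ne_zero_of_mul h)
            have h2 : (0 : ℤ) ≤ 2 * J * M := by positivity
            linarith).symm
      · refine (tsum_congr fun l => ?_).trans tsum_zero
        split_ifs
        · refine mul_eq_zero_of_right _ ?_
          by_contra h
          have h1 := (c.supp Y m l Y0 (by omega) h).2
          have : m ≤ KM X Y := Nat.le_floor (by rw [le_div_iff₀ Y0]; exact h1)
          omega
        · rfl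
    · obtain ⟨h1, h2⟩ := mem_filter.1 hn
      obtain ⟨h3, h4⟩ := mem_product.1 h1
      exact mem_filter.2 ⟨mem_product.2 ⟨mem_Icc.2 ⟨(mem_Icc.1 (hS _ h3).1).1, hSN _ h3⟩,
        mem_Icc.2 ⟨(mem_Icc.1 (hS _ h4).1).1, hSN _ h4⟩⟩, h2, (hS _ h3).2.1, (hS _ h4).2.1⟩
  · have X0 : 0 < X := by linarith
    have e : X ^ (1 - δ) ≤ X / s ^ 12 := by
      rw [rpow_sub X0, rpow_one]
      gcongr
    calc _ ≤ (2 * s ^ 2 * J) ^ 2 * (X / s ^ 12) := by gcongr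
      _ = _ := by field_simp; norm_num

lemma abs_sum₂ (M : ℕ) (S : Finset ℕ) (a d : ℕ → ℕ → ℝ) (ha : ∀ m n, |a m n| ≤ 1) :
    |∑ m ∈ Icc 1 M, ∑ n ∈ S, a m n * d m n| ≤ ∑ m ∈ Icc 1 M, ∑ n ∈ S, |d m n| :=
  (abs_sum_le_sum_abs _ _).trans (sum_le_sum fun _ _ => (abs_sum_le_sum_abs _ _).trans
    (sum_le_sum fun _ _ => by
      rw [abs_mul]; exact mul_le_of_le_one_left (abs_nonneg _) (ha _ _)))

theorem expl (hR : RhoStmt) (hG : GeoStmt) (c : Ctx X P s f) {η δ : ℝ} (hE : E2 X η δ f)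
    (hδ : s ^ 12 ≤ X ^ δ) (hη : 2 * s ^ 10 ≤ X ^ η) {Y : ℝ} (hY : 1 / X ≤ Y) (hY1 : Y ≤ X)
    (hY2 : 16 * (Y + 1) ^ 4 ≤ X ^ η)
    (α β : ℕ → ℝ) (u v : ℕ → ℕ) (hα : ∀ m, |α m| ≤ 1) (hβ : ∀ n, |β n| ≤ 1)
    (hb : ∀ n, β n ≠ 0 → Squarefree n ∧ Rough (s ^ 8) n ∧ X ^ η ≤ n * Y ∧
      (n : ℝ) ^ 3 ≤ Y * X ^ (1 - 2 * η)) :
    |bil (KM X Y) (fun k => sA f Y k - sB f Y k) α β u v| ≤ 50 * P ^ 5 * X / s := by
  have hs := c.hs
  have hP := c.hP
  have hX := c.hX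
  have s0 : 0 < s := by linarith
  have s1 : (1 : ℝ) ≤ s := by linarith
  have X0 : 0 < X := by linarith
  have Y0 : 0 < Y := lt_of_lt_of_le (by positivity) hY
  have w3 : 3 ≤ s ^ 8 := by
    calc (3 : ℝ) ≤ 2 ^ 8 := by norm_num
      _ ≤ _ := by gcongr
  set M := KM X Y with hM
  have M1 : (M : ℝ) ≤ 2 * X / Y := Nat.floor_le (by positivity)
  have M2 : (M : ℝ) ≤ 2 * X ^ 2 := by
    refine M1.trans ?_
    rw [div_le_iff₀ Y0]
    rw [div_le_iff₀ X0] at hY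
    nlinarith
  have M3 : 1 ≤ M := Nat.le_floor (by rw [le_div_iff₀ Y0]; push_cast; linarith)
  have M4 : (M : ℝ) ≤ X ^ 11 := by
    calc (M : ℝ) ≤ X ^ 9 * X ^ 2 := M2.trans (by
          gcongr
          calc (2 : ℝ) ≤ 3 ^ 9 := by norm_num
            _ ≤ _ := by gcongr)
      _ = _ := by ring
  have M5 := (c.dv M M3 M4).2.2
  set S := (Icc 1 M).filter fun n => β n ≠ 0 with hSd
  have hS : ∀ n ∈ S, n ∈ Icc 1 M ∧ Squarefree n ∧ Rough (s ^ 8) n := fun n hn =>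
    ⟨(mem_filter.1 hn).1, (hb n (mem_filter.1 hn).2).1, (hb n (mem_filter.1 hn).2).2.1⟩
  have hS1 : ∀ n ∈ S, 1 ≤ n := fun n hn => (mem_Icc.1 (hS n hn).1).1
  obtain ⟨r, hr⟩ := exists_rep S hS1 s0
  set ix : ℕ → ℕ := fun n => ⌊s * log n⌋₊ with hix
  set B : ℤ := ⌈9 * X ^ 3⌉ with hB
  have B1 : X ≤ B := by
    have h1 : 9 * X ^ 3 ≤ B := Int.le_ceil _
    have X3 : X ≤ X ^ 3 := by
      simpa using pow_le_pow_right₀ (by linarith : 1 ≤ X) (by norm_num : 1 ≤ 3)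
    linarith
  set a : ℕ → ℕ → ℝ := fun m n => if u m = v n then α m * β n else 0 with ha
  have ha1 : ∀ m n, |a m n| ≤ 1 := fun m n => by
    simp only [ha]; split_ifs
    · rw [abs_mul]; exact mul_le_one₀ (hα _) (abs_nonneg _) (hβ _)
    · simp
  have hbig : ∀ n ∈ S, 2 * s ^ 10 ≤ n * Y := fun n hn =>
    hη.trans (hb n (mem_filter.1 hn).2).2.2.1
  have s10 : s ≤ 2 * s ^ 10 := by
    have : s ^ 1 ≤ s ^ 10 := pow_le_pow_right₀ s1 (by norm_num)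
    linarith
  have e0 : bil M (fun k => sA f Y k - sB f Y k) α β u v =
      ∑ m ∈ Icc 1 M, ∑ n ∈ S, a m n * (tA B f (n * Y) m n - tA B f (r (ix n) * Y) m n) +
      ∑ m ∈ Icc 1 M, ∑ n ∈ S, a m n *
        (tA B f (r (ix n) * Y) m n - gg n * tA B f (r (ix n) * Y) m 1) +
      ∑ m ∈ Icc 1 M, ∑ n ∈ S, a m n *
        (gg n * (sA f (r (ix n) * Y) m - sB f (r (ix n) * Y) m)) +
      ∑ m ∈ Icc 1 M, ∑ n ∈ S, a m n * (gg n * sB f (r (ix n) * Y) m - sB f Y (m * n)) := by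
    simp only [bil, ← sum_add_distrib]
    refine sum_congr rfl fun m hm => ?_
    rw [← sum_subset (filter_subset (fun n => β n ≠ 0) _) fun n hn hn' => by
      have : β n = 0 := by by_contra h; exact hn' (mem_filter.2 ⟨hn, h⟩)
      simp [this]]
    refine sum_congr rfl fun n hn => ?_
    have h1 := sA_eq hG c B1 Y0 (mem_Icc.1 hm).1 (hS1 n hn)
    have h2 := sA_eq hG c B1 (lt_of_lt_of_le (s0.trans_le s10) (hbig _ (hr n hn).1))
      (mem_Icc.1 hm).1 le_rfl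
    rw [mul_one, Nat.cast_one, one_mul] at h2
    rw [h1, h2]
    simp only [ha]
    split_ifs <;> ring
  have t0 : 0 ≤ X / s := by positivity
  have p3 : P ^ 3 ≤ P ^ 5 := pow_le_pow_right₀ hP (by norm_num)
  have p4 : P ^ 4 ≤ P ^ 5 := pow_le_pow_right₀ hP (by norm_num)
  have g0 : ∀ n ∈ S, 0 ≤ gg n := fun n hn => (hR.2.2.2.2.2.2.2.2.2.1 n (hS n hn).2.1).1
  have gs : ∑ n ∈ S, gg n ≤ P :=
    (gg_sum hR S M fun n hn => ⟨(hS n hn).1, (hS n hn).2.1⟩).trans M5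
  have b1 := (abs_sum₂ M S a _ ha1).trans (d1 hG c B Y0 M M2 S
    (fun n hn => ⟨(hS n hn).1, (hS n hn).2.2⟩) (fun n => r (ix n))
    fun n hn => ⟨hS1 _ (hr n hn).1, (hr n hn).2⟩)
  have b2 : |∑ m ∈ Icc 1 M, ∑ n ∈ S, a m n *
      (tA B f (r (ix n) * Y) m n - gg n * tA B f (r (ix n) * Y) m 1)| ≤ 20 * P ^ 5 * X / s := by
    have e : ∑ m ∈ Icc 1 M, ∑ n ∈ S, a m n *
        (tA B f (r (ix n) * Y) m n - gg n * tA B f (r (ix n) * Y) m 1) =
        ∑ j ∈ S.image ix, ∑ m ∈ Icc 1 M, ∑ n ∈ S with ix n = j, a m n *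
          (tA B f (r j * Y) m n - gg n * tA B f (r j * Y) m 1) := by
      rw [sum_comm (s := S.image ix)]
      refine sum_congr rfl fun m _ => ?_
      rw [← sum_fiberwise_of_maps_to (g := ix) (t := S.image ix) fun n hn => mem_image_of_mem ix hn]
      exact sum_congr rfl fun j _ => sum_congr rfl fun n hn => by rw [(mem_filter.1 hn).2]
    have cd : (#(S.image ix) : ℝ) ≤ 2 * s * P := by
      have l0 := log_natCast_nonneg M
      have : S.image ix ⊆ range (⌊s * log M⌋₊ + 1) := fun j hj => by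
        obtain ⟨n, hn, rfl⟩ := mem_image.1 hj
        obtain ⟨h1, h2⟩ := mem_Icc.1 (hS n hn).1
        refine mem_range.2 (Nat.lt_succ_of_le (Nat.floor_le_floor ?_))
        gcongr
      have h1 : (#(S.image ix) : ℝ) ≤ ⌊s * log M⌋₊ + 1 := by
        exact_mod_cast (card_le_card this).trans (card_range _).le
      have h2 := Nat.floor_le (mul_nonneg s0.le l0)
      have h3 : log M ≤ P := by nlinarith
      nlinarith
    rw [e]
    calc _ ≤ ∑ _j ∈ S.image ix, 10 * P ^ 4 * X / s ^ 2 := by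
          refine (abs_sum_le_sum_abs _ _).trans (sum_le_sum fun j hj => ?_)
          obtain ⟨n, hn, rfl⟩ := mem_image.1 hj
          have h0 := (hr n hn).1
          change r (ix n) ∈ S at h0
          set n₀ := r (ix n) with hn₀
          have n1 : (1 : ℝ) ≤ n₀ := by exact_mod_cast hS1 _ h0
          have n2 : (n₀ : ℝ) ≤ M := by exact_mod_cast (mem_Icc.1 (hS _ h0).1).2
          obtain ⟨-, -, k1, k2⟩ := hb n₀ (mem_filter.1 h0).2
          have y1 : Y ≤ ⌈Y⌉₊ := Nat.le_ceil Y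
          have y2 : (⌈Y⌉₊ : ℝ) ≤ Y + 1 := (Nat.ceil_lt_add_one Y0.le).le
          have y3 : 1 ≤ ⌈Y⌉₊ := Nat.one_le_ceil_iff.2 Y0
          refine d2_block hR hG c hE hδ M (2 * n₀ * ⌈Y⌉₊) M3 M2 (hbig _ h0) ?_ ?_ ?_ ?_ _
            (fun k hk => hS k (mem_filter.1 hk).1) (fun k hk => ?_) α β hα hβ u v
          · exact (le_div_iff₀ Y0).1 (n2.trans M1)
          · exact Nat.floor_le_floor (by gcongr; nlinarith)
          · push_cast; nlinarith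
          · have h16 : 16 * (⌈Y⌉₊ : ℝ) ^ 4 ≤ X ^ η := le_trans (by gcongr) hY2
            have e2 : X ^ (1 - η) = X ^ η * X ^ (1 - 2 * η) := by
              rw [← rpow_add X0]; ring_nf
            calc ((2 * n₀ * ⌈Y⌉₊ : ℕ) : ℝ) ^ 4 = 16 * (⌈Y⌉₊ : ℝ) ^ 4 * n₀ * n₀ ^ 3 := by
                  push_cast; ring
              _ ≤ X ^ η * n₀ * (Y * X ^ (1 - 2 * η)) := by gcongr
              _ = _ := by rw [e2]; ring
          · obtain ⟨h1, h2⟩ := mem_filter.1 hk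
            have h3 := (hr k h1).2
            change |log ((k : ℝ) / r (ix k))| ≤ _ at h3
            rw [h2, ← hn₀] at h3
            have k0 : (0 : ℝ) < k := by exact_mod_cast hS1 k h1
            have h4 : log ((k : ℝ) / n₀) ≤ log 2 := by
              have : 1 / s ≤ 1 / 2 := by gcongr
              linarith [le_abs_self (log ((k : ℝ) / n₀)), log_two_gt_d9]
            rw [log_le_log_iff (by positivity) two_pos, div_le_iff₀ (by positivity)] at h4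
            exact le_trans (by exact_mod_cast h4) (Nat.le_mul_of_pos_right _ y3)
      _ ≤ 2 * s * P * (10 * P ^ 4 * X / s ^ 2) := by
          rw [sum_const, nsmul_eq_mul]; gcongr
      _ = _ := by field_simp; norm_num
  have b3 : |∑ m ∈ Icc 1 M, ∑ n ∈ S, a m n *
      (gg n * (sA f (r (ix n) * Y) m - sB f (r (ix n) * Y) m))| ≤ P * (6 * P ^ 3 * X / s) := by
    refine (abs_sum₂ M S a _ ha1).trans ?_
    rw [sum_comm]
    calc _ ≤ ∑ n ∈ S, gg n * (6 * P ^ 3 * X / s) := sum_le_sum fun n hn => by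
          simp only [abs_mul, abs_of_nonneg (g0 n hn), ← mul_sum]
          exact mul_le_mul_of_nonneg_left (d3_one hR c (s10.trans (hbig _ (hr n hn).1)) M) (g0 n hn)
      _ ≤ _ := by rw [← sum_mul]; gcongr
  have b4 : |∑ m ∈ Icc 1 M, ∑ n ∈ S, a m n * (gg n * sB f (r (ix n) * Y) m - sB f Y (m * n))| ≤
      2 * P ^ 2 * X / s * (P * P) + P ^ 2 * X * ((P ^ 3 + 8 * P ^ 2) / s ^ 8) := by
    refine (abs_sum₂ M S a _ ha1).trans ((sum_le_sum fun m hm => sum_le_sum fun n hn =>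
      d4_pt hR c Y0 (mem_Icc.1 hm).1 (hS1 n hn) (hS1 _ (hr n hn).1) (hS n hn).2.1 ?_
        (hr n hn).2).trans ?_)
    · rw [← Nat.not_even_iff_odd, even_iff_two_dvd]
      intro h
      have := (hS n hn).2.2 2 Nat.prime_two h
      norm_num at this
      linarith
    · simp only [sum_add_distrib, ← mul_sum, ← sum_mul]
      gcongr
      · exact sum_nonneg g0
      · exact (hR.2.2.2.2.2.2.2.2.2.2.1 M).1.trans M5
      · refine dens hR w3 M S hS M5 fun n hn => (c.dv n (hS1 n hn) (le_trans ?_ M4)).2.1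
        exact_mod_cast (mem_Icc.1 (hS n hn).1).2
  have b5 : P ^ 2 * X * ((P ^ 3 + 8 * P ^ 2) / s ^ 8) ≤ 9 * P ^ 5 * (X / s) := by
    have h1 : s ^ 1 ≤ s ^ 8 := pow_le_pow_right₀ s1 (by norm_num)
    have h2 : P ^ 2 ≤ P ^ 3 := pow_le_pow_right₀ hP (by norm_num)
    calc _ ≤ P ^ 2 * X * ((P ^ 3 + 8 * P ^ 3) / s ^ 1) := by gcongr
      _ = _ := by ring
  rw [e0]
  refine (abs_add_le _ _).trans ((add_le_add ((abs_add_le _ _).trans (add_le_add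
    ((abs_add_le _ _).trans (add_le_add b1 b2)) b3)) b4).trans ?_)
  have q3 := mul_le_mul_of_nonneg_right p3 t0
  have q4 := mul_le_mul_of_nonneg_right p4 t0
  have q5 : 0 ≤ P ^ 5 * (X / s) := by positivity
  have e1 : P * (6 * P ^ 3 * (X / s)) = 6 * (P ^ 4 * (X / s)) := by ring
  have e2 : 2 * P ^ 2 * (X / s) * (P * P) = 2 * (P ^ 4 * (X / s)) := by ring
  simp only [mul_div_assoc] at *
  linarith

end Pool.Agent.Lib.MP_4b1228_nt.PP.T2
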