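import Pool.Agent.Lib.MP_4b1228_nt.PP.T45
import Pool.Agent.Lib.MP_4b1228_nt.PP.R4V3
import Pool.Agent.Lib.MP_4b1228_nt.PP.H32

/-! Lower bounds for the means of the rows on small boxes and of the rows of Harman type. -/

open Finset

namespace Pool.Agent.Lib.MP_4b1228_nt.PP.R4.T45

theorem vC_ge (n : Enc) (hl : n.ll = llQ) (hu : n.lu = luQ) :
    (26410940 : ℚ) ≤ ∑ k ∈ range 4, tab.vC n k := by
  have h0 := V2.vC_dat dat n (k := 0) (w := 0) (s := 1) (by decide) (by decide) (by decide)
    (by decide) hl hu (by decide +kernel)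
  have h1 := V2.vC_dat dat n (k := 1) (w := 0) (s := 1) (by decide) (by decide) (by decide)
    (by decide) hl hu (by decide +kernel)
  have h2 := V2.vC_dat dat n (k := 2) (w := 25819144) (s := 1) (by decide) (by decide) (by decide)
    (by decide) hl hu (by decide +kernel)
  have h3 := V2.vC_dat dat n (k := 3) (w := 591796) (s := 1) (by decide) (by decide) (by decide)
    (by decide) hl hu (by decide +kernel)
  simp only [sum_range_succ, range_zero, sum_empty, tab]
  push_cast at h0 h1 h2 h3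
  linarith

theorem vH_ge : (-652192262 : ℚ) ≤ ∑ a ∈ Ico tab.a₀ tab.a₁, RB.vH tab.toTab RB.H32.tab a := by
  have h : (-652192262 : ℤ) * 2 ^ 40 ≤
      ((List.range 12).map fun i => RB.vZ tab.toTab RB.H32.tab (24 + i)).sum := by decide +kernel
  rw [RB.sum_list] at h
  simp only [RB.vH]
  rw [← sum_div, le_div_iff₀ (by positivity), show Ico tab.a₀ tab.a₁ = Ico 24 36 from rfl,
    sum_Ico_eq_sum_range]
  exact_mod_cast h

theorem lawH (hR : RhoStmt) : ∀ a ∈ Ico tab.a₀ tab.a₁, R3.LawH2 tab.T a (a + 1) (tab.ψ a) (tab.W a)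
    (RB.vH tab.toTab RB.H32.tab a) :=
  RB.H32.law hR tab.toTab rfl (by decide) (by decide) (by decide)

end Pool.Agent.Lib.MP_4b1228_nt.PP.R4.T45
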