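import Pool.Agent.Lib.MP_4b1228_nt.PP.LatF
import Pool.Agent.Lib.MP_4b1228_nt.PP.T45

/-! The check at the vertices. -/

namespace Pool.Agent.Lib.MP_4b1228_nt.PP.R4.T45

theorem o0 : (dat.tab.zg 409600 14 2199023255552 0).ok = true := by decide +kernel
theorem o1 : (dat.tab.zg 409600 14 2199023255552 1).ok = true := by decide +kernel
theorem a0 : (dat.tab.zg 409600 14 2199023255552 0).run 0 24 = true := by decide +kernel
theorem b0 : (dat.tab.zg 409600 14 2199023255552 0).run (0 + 24) 50 = true := by decide +kernel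
theorem a1 : (dat.tab.zg 409600 14 2199023255552 1).run 0 24 = true := by decide +kernel
theorem b1 : (dat.tab.zg 409600 14 2199023255552 1).run (0 + 24) 50 = true := by decide +kernel

theorem lat : tab.Lat3 409600 :=
  have e : 2 * (dat.Θ - dat.Z) = 24 + 50 := by decide
  dat.lat3 (by decide) (by decide) o0 o1 (by rw [e]; exact Lat.ZT.run_add _ a0 b0)
    (by rw [e]; exact Lat.ZT.run_add _ a1 b1)

end Pool.Agent.Lib.MP_4b1228_nt.PP.R4.T45
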