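import Pool.Agent.Lib.MP_4b1228_nt.PP.DatV
import Pool.Agent.Lib.MP_4b1228_nt.PP.T45C
import Pool.Agent.Lib.MP_4b1228_nt.PP.T45L
import Pool.Agent.Lib.MP_4b1228_nt.PP.DKT32
import Pool.Agent.Lib.MP_4b1228_nt.PP.Asm4

/-! The certificate for the exponent `45 / 32`. -/

namespace Pool.Agent.Lib.MP_4b1228_nt.PP.R4.T45F

def n : Enc := en DK.lo32 DK.hi32 500 4

theorem a : T45.dat.kA n (-2699433458) = true := by
  decide +kernel

theorem s : T45.dat.k0 n (-23064940) = true := by
  decide +kernel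

theorem p0 : T45.dat.k2 n 0 8 24 (-74452913) = true := by
  decide +kernel

theorem p1 : T45.dat.k2 n 1 8 24 (27204370) = true := by
  decide +kernel

theorem t0 : T45.dat.k3 n 8 24 (13251630) = true := by
  decide +kernel

theorem u0 : T45.dat.k1 n 32 96 (-44534913) = true := by
  decide +kernel

theorem total {F f : ℕ → ℝ} (ht : T45.dat.tab.toTab.Ok) (oL : n.OkL)
    (oF : n.OkF T45.dat.N F f) (oW : n.OkW T45.dat.tab.toTab) :
    ((839942867 : ℤ) : ℚ) ≤ T45.dat.tab.toTab.vE n 0 + T45.dat.tab.toTab.vE n 1 +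
      T45.dat.tab.toTab.vE n 2 + T45.dat.tab.toTab.vE n 3 +
      T45.dat.tab.toTab.vS0 n + T45.dat.tab.toTab.vS1 n :=
  Dat.total ht oL oF oW a s
    (Dat.bd1 ht oL oF oW (by decide) u0)
    (Dat.bd2 ht oL (by decide) (by decide) (by decide) p0)
    (Dat.bd2 ht oL (by decide) (by decide) (by decide) p1)
    (Dat.bd3 ht oL (by decide) (by decide) t0)
    (by decide +kernel)

theorem ok : T45.tab.toTab.Ok := by
  unfold Tab.Ok
  decide

theorem sd : T45.tab.toTab.Sd := by
  unfold Tab.Sd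
  decide

theorem vP : ((-207424017 : ℤ) : ℚ) ≤ T45.tab.vP3 := by
  decide +kernel

theorem oW : n.OkW T45.tab.toTab :=
  en_W T45.tab.toTab (by decide) (by decide) DK.ok32 (by decide +kernel) (by decide +kernel)

theorem cert : R3.Cert3 (45 / 32) :=
  T45.tab.cert n _ (wH := -652192262) (wC := 26410940) ok sd T45.lat (en_L _ _ _ _) (en_F _ _ _ _) oW
    (T45.lawH Eng.rho') (total ok (en_L _ _ _ _) (en_F _ _ _ _) oW) vP (mod_cast T45.vH_ge)
    (mod_cast T45.vC_ge n rfl rfl) (by decide) (by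
      rw [show T45.tab.Q = 32 from rfl, show T45.tab.Θ = 45 from rfl]; norm_num)

theorem dens : DensStmt (45 / 32) := densOf (by norm_num) (by norm_num) cert

end Pool.Agent.Lib.MP_4b1228_nt.PP.R4.T45F
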