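import Pool.Agent.Lib.MP_4b1228_nt.PP.DatV
import Pool.Agent.Lib.MP_4b1228_nt.PP.T45
import Pool.Agent.Lib.MP_4b1228_nt.PP.En
import Pool.Agent.Lib.MP_4b1228_nt.PP.DKT32

/-! The means of the exact and of the sieved rows of a table. -/

namespace Pool.Agent.Lib.MP_4b1228_nt.PP.R4.T45V

theorem a : (T45.dat).kA (en' DK.lo32 DK.hi32 500 4) (-2699433458) = true := by
  decide +kernel

theorem s : (T45.dat).k0 (en' DK.lo32 DK.hi32 500 4) (-23064940) = true := by
  decide +kernel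

theorem p0 : (T45.dat).k2 (en' DK.lo32 DK.hi32 500 4) 0 8 24 (-74452913) = true := by
  decide +kernel

theorem p1 : (T45.dat).k2 (en' DK.lo32 DK.hi32 500 4) 1 8 24 (27204370) = true := by
  decide +kernel

theorem t0 : (T45.dat).k3 (en' DK.lo32 DK.hi32 500 4) 8 24 (13251630) = true := by
  decide +kernel

theorem u0 : (T45.dat).k1 (en' DK.lo32 DK.hi32 500 4) 32 96 (-44534913) = true := by
  decide +kernel

theorem total {F f : ℕ → ℝ} (ht : (T45.dat).tab.toTab.Ok) (oL : (en' DK.lo32 DK.hi32 500 4).OkL)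
    (oF : (en' DK.lo32 DK.hi32 500 4).OkF (T45.dat).N F f) (oW : (en' DK.lo32 DK.hi32 500 4).OkW (T45.dat).tab.toTab) :
    ((839942867 : ℤ) : ℚ) ≤ (T45.dat).tab.toTab.vE (en' DK.lo32 DK.hi32 500 4) 0 + (T45.dat).tab.toTab.vE (en' DK.lo32 DK.hi32 500 4) 1 +
      (T45.dat).tab.toTab.vE (en' DK.lo32 DK.hi32 500 4) 2 + (T45.dat).tab.toTab.vE (en' DK.lo32 DK.hi32 500 4) 3 +
      (T45.dat).tab.toTab.vS0 (en' DK.lo32 DK.hi32 500 4) + (T45.dat).tab.toTab.vS1 (en' DK.lo32 DK.hi32 500 4) :=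
  Dat.total ht oL oF oW a s
    (Dat.bd1 ht oL oF oW (by decide) u0)
    (Dat.bd2 ht oL (by decide) (by decide) (by decide) p0)
    (Dat.bd2 ht oL (by decide) (by decide) (by decide) p1)
    (Dat.bd3 ht oL (by decide) (by decide) t0)
    (by decide +kernel)

end Pool.Agent.Lib.MP_4b1228_nt.PP.R4.T45V
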