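import Pool.Agent.Lib.MP_4b1228_nt.PP.R5K1
import Pool.Agent.Lib.MP_4b1228_nt.PP.U40
import Pool.Agent.Lib.MP_4b1228_nt.PP.U40C

/-! The local conditions with at most one large cell. -/

namespace Pool.Agent.Lib.MP_4b1228_nt.PP.R5.U40K

open R4

noncomputable def s1 (x ρ : ℕ) : ℤ × ℤ × ℤ × ℤ :=
  (U40.dat.tab.toTab.s1 x ρ 0, U40.dat.tab.toTab.s1 x ρ 1, U40.dat.tab.toTab.s1 x ρ 2,
    U40.dat.tab.toTab.s1 x ρ 3)

theorem a0 : k0 U40.dat.tab.toTab U40C.cd.co = true := by decide +kernel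

theorem ap : kp U40.dat.tab.toTab U40C.cd.co s1 40 120 = true := by decide +kernel

theorem a1 : k1 U40.dat.tab.toTab U40C.cd.co s1 40 40 = true := by decide +kernel

theorem a2 : k1 U40.dat.tab.toTab U40C.cd.co s1 80 80 = true := by decide +kernel

theorem mu : 1 ≤ U40C.cd.co.μ := by decide +kernel

theorem hZ : U40.dat.tab.toTab.Z = 40 := rfl

theorem hQ : U40.dat.tab.toTab.Q = 160 := rfl

theorem c0 : ∀ ρ ≤ 2 * U40.dat.tab.toTab.Q, U40C.cd.co.C0 U40.dat.tab.toTab U40C.cd.co.F0 ρ :=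
  (k0_sound a0).1

theorem p0 : ∀ ρ ≤ U40.dat.tab.toTab.Q, U40C.cd.co.μ * (2 * U40C.cd.co.Q - U40C.cd.co.Θ) ≤ ρ →
    U40C.cd.co.C0 U40.dat.tab.toTab U40C.cd.co.P0 ρ :=
  (k0_sound a0).2.1

theorem ci : ∀ x, U40.dat.tab.toTab.Q ≤ x → x < U40C.cd.co.μ * U40C.cd.co.Θ →
    U40C.cd.co.CI U40.dat.tab.toTab x :=
  (k0_sound a0).2.2

theorem c1 : ∀ x ρ, U40.dat.tab.toTab.Z ≤ x → x < U40.dat.tab.toTab.Q →
    x + ρ ≤ 2 * U40.dat.tab.toTab.Q → U40C.cd.co.C1 U40.dat.tab.toTab U40C.cd.co.F1 0 x ρ := by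
  intro x ρ h1 h2 h3
  rw [hZ] at h1
  rw [hQ] at h2
  by_cases h : x < 80
  · exact k1_sound mu (fun _ _ => rfl) a1 x ρ h1 h h3
  · exact k1_sound mu (fun _ _ => rfl) a2 x ρ (by omega) h2 h3

theorem p1 : ∀ x ρ, U40.dat.tab.toTab.Z ≤ x → x < U40.dat.tab.toTab.Q →
    x + ρ ≤ U40.dat.tab.toTab.Q →
    U40C.cd.co.μ * (2 * U40C.cd.co.Q - U40C.cd.co.Θ) < x + ρ + 2 →
    U40C.cd.co.C1 U40.dat.tab.toTab U40C.cd.co.P1 1 x ρ := by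
  intro x ρ h1 h2 h3 h4
  rw [hZ] at h1
  rw [hQ] at h2
  exact kp_sound mu (fun _ _ => rfl) ap x ρ h1 h2 h3 h4

end Pool.Agent.Lib.MP_4b1228_nt.PP.R5.U40K
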