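import Pool.Agent.Lib.MP_4b1228_nt.PP.U40
import Pool.Agent.Lib.MP_4b1228_nt.PP.U40C
import Pool.Agent.Lib.MP_4b1228_nt.PP.R5K2

/-! The checks of the patterns, of the pairs and of the triples. -/

namespace Pool.Agent.Lib.MP_4b1228_nt.PP.R5.U40C

open R4 R4.U40

theorem sd : cd.Sd dat := by decide

theorem ok : dat.tab.toTab.Ok := by unfold Tab.Ok; decide

theorem lat : cd.co.Lat 400 :=
  CD.lat sd (k := 0) (by decide +kernel) (by decide +kernel) (by decide +kernel) (by decide +kernel)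

theorem c2 : ∀ x y, 40 ≤ x → x < 40 + 120 → x ≤ y → y < 160 → cd.co.C2 dat.tab.toTab x y :=
  k2_ok (t := dat.tab.toTab) (c := cd.co) (lo := 40) (len := 120) (by decide) (by decide +kernel)

theorem c3 : ∀ a b c, 40 ≤ a → a ≤ b → b ≤ c → c < 160 → cd.co.C3 dat.tab.toTab a b c :=
  CD.c3 sd (I := 18) (by decide) (rows3_of (lo := 400) (len := 320) (by decide +kernel))

end Pool.Agent.Lib.MP_4b1228_nt.PP.R5.U40C
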