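import Pool.Agent.Lib.MP_4b1228_nt.PP.DatV
import Pool.Agent.Lib.MP_4b1228_nt.PP.U40
import Pool.Agent.Lib.MP_4b1228_nt.PP.En
import Pool.Agent.Lib.MP_4b1228_nt.PP.DKT80

/-! The means of the exact and of the sieved rows of a table. -/

namespace Pool.Agent.Lib.MP_4b1228_nt.PP.R4.U40V

theorem a : (U40.dat).kA (en' DK.lo80 DK.hi80 500 2) (-1009302542971) = true := by
  decide +kernel

theorem s : (U40.dat).k0 (en' DK.lo80 DK.hi80 500 2) (-9592501436) = true := by
  decide +kernel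

theorem p0 : (U40.dat).k2 (en' DK.lo80 DK.hi80 500 2) 0 40 120 (60191197392) = true := by
  decide +kernel

theorem p1 : (U40.dat).k2 (en' DK.lo80 DK.hi80 500 2) 1 40 120 (1316729521) = true := by
  decide +kernel

theorem t0 : (U40.dat).k3 (en' DK.lo80 DK.hi80 500 2) 40 3 (2072403036) = true := by
  decide +kernel

theorem t1 : (U40.dat).k3 (en' DK.lo80 DK.hi80 500 2) 43 117 (2471838180) = true := by
  decide +kernel

theorem u0 : (U40.dat).k1 (en' DK.lo80 DK.hi80 500 2) 80 40 (-10125029118) = true := by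
  decide +kernel

theorem u1 : (U40.dat).k1 (en' DK.lo80 DK.hi80 500 2) 120 50 (2539406743) = true := by
  decide +kernel

theorem u2 : (U40.dat).k1 (en' DK.lo80 DK.hi80 500 2) 170 150 (-6576290771) = true := by
  decide +kernel

theorem total {F f : ℕ → ℝ} (ht : (U40.dat).tab.toTab.Ok) (oL : (en' DK.lo80 DK.hi80 500 2).OkL)
    (oF : (en' DK.lo80 DK.hi80 500 2).OkF (U40.dat).N F f) (oW : (en' DK.lo80 DK.hi80 500 2).OkW (U40.dat).tab.toTab) :
    ((3336084880 : ℤ) : ℚ) ≤ (U40.dat).tab.toTab.vE (en' DK.lo80 DK.hi80 500 2) 0 + (U40.dat).tab.toTab.vE (en' DK.lo80 DK.hi80 500 2) 1 +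
      (U40.dat).tab.toTab.vE (en' DK.lo80 DK.hi80 500 2) 2 + (U40.dat).tab.toTab.vE (en' DK.lo80 DK.hi80 500 2) 3 +
      (U40.dat).tab.toTab.vS0 (en' DK.lo80 DK.hi80 500 2) + (U40.dat).tab.toTab.vS1 (en' DK.lo80 DK.hi80 500 2) :=
  Dat.total ht oL oF oW a s
    (((Dat.bd1 ht oL oF oW (by decide) u0).add
      (Dat.bd1 ht oL oF oW (by decide) u1)).add
      (Dat.bd1 ht oL oF oW (by decide) u2))
    (Dat.bd2 ht oL (by decide) (by decide) (by decide) p0)
    (Dat.bd2 ht oL (by decide) (by decide) (by decide) p1)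
    ((Dat.bd3 ht oL (by decide) (by decide) t0).add
      (Dat.bd3 ht oL (by decide) (by decide) t1))
    (by decide +kernel)

end Pool.Agent.Lib.MP_4b1228_nt.PP.R4.U40V
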