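import Pool.Agent.Lib.MP_4b1228_nt.PP.Asm5
import Pool.Agent.Lib.MP_4b1228_nt.PP.U40H
import Pool.Agent.Lib.MP_4b1228_nt.PP.U40K
import Pool.Agent.Lib.MP_4b1228_nt.PP.U40L
import Pool.Agent.Lib.MP_4b1228_nt.PP.U40V

/-! The certificate for the exponent `57 / 40`. -/

namespace Pool.Agent.Lib.MP_4b1228_nt.PP.R5.U40F

open R4

theorem sd : U40.dat.tab.toTab.Sd := by
  unfold Tab.Sd
  decide

theorem oW : (en DK.lo80 DK.hi80 500 2).OkW U40.dat.tab.toTab :=
  en_W U40.dat.tab.toTab (by decide) (by decide) DK.ok80 (by decide +kernel) (by decide +kernel)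

theorem loc : U40C.cd.co.Loc U40.dat.tab.toTab :=
  ⟨U40K.c0, U40K.p0, U40K.c1, U40K.p1, U40K.ci,
    fun x y a b c => U40C.c2 x y a (b.trans_lt c) b c, U40C.c3⟩

theorem cert : R3.Cert3 (57 / 40) :=
  cert5 U40.dat.tab.toTab U40C.cd.co (en DK.lo80 DK.hi80 500 2) _ U40C.ok sd (CD.ok U40C.sd) loc
    U40C.lat (en_L _ _ _ _) (en_F _ _ _ _) oW (U40H.lawH Eng.rho')
    (U40V.total U40C.ok (en_L _ _ _ _) (en_F _ _ _ _) oW) U40H.vP U40H.vH (by decide)
    (by rw [show U40C.cd.co.Q = 40 from rfl, show U40C.cd.co.Θ = 57 from rfl]; norm_num)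
    (by decide) (by decide)

theorem dens : DensStmt (57 / 40) := densOf (by norm_num) (by norm_num) cert

end Pool.Agent.Lib.MP_4b1228_nt.PP.R5.U40F
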