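import Pool.Agent.Lib.MP_4b1228_nt.PP.R5K1
import Pool.Agent.Lib.MP_4b1228_nt.PP.U48
import Pool.Agent.Lib.MP_4b1228_nt.PP.U48C

/-! The local conditions with at most one large cell. -/

namespace Pool.Agent.Lib.MP_4b1228_nt.PP.R5.U48K

open R4

noncomputable def s1 (x ρ : ℕ) : ℤ × ℤ × ℤ × ℤ :=
  (U48.dat.tab.toTab.s1 x ρ 0, U48.dat.tab.toTab.s1 x ρ 1, U48.dat.tab.toTab.s1 x ρ 2,
    U48.dat.tab.toTab.s1 x ρ 3)

theorem a0 : k0 U48.dat.tab.toTab U48C.cd.co = true := by decide +kernel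

theorem b1 : kp U48.dat.tab.toTab U48C.cd.co s1 55 11 = true := by decide +kernel

theorem b2 : kp U48.dat.tab.toTab U48C.cd.co s1 66 12 = true := by decide +kernel

theorem b3 : kp U48.dat.tab.toTab U48C.cd.co s1 78 14 = true := by decide +kernel

theorem b4 : kp U48.dat.tab.toTab U48C.cd.co s1 92 16 = true := by decide +kernel

theorem b5 : kp U48.dat.tab.toTab U48C.cd.co s1 108 20 = true := by decide +kernel

theorem b6 : kp U48.dat.tab.toTab U48C.cd.co s1 128 28 = true := by decide +kernel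

theorem b7 : kp U48.dat.tab.toTab U48C.cd.co s1 156 84 = true := by decide +kernel

theorem a1 : k1 U48.dat.tab.toTab U48C.cd.co s1 55 11 = true := by decide +kernel

theorem a2 : k1 U48.dat.tab.toTab U48C.cd.co s1 66 12 = true := by decide +kernel

theorem a3 : k1 U48.dat.tab.toTab U48C.cd.co s1 78 12 = true := by decide +kernel

theorem a4 : k1 U48.dat.tab.toTab U48C.cd.co s1 90 14 = true := by decide +kernel

theorem a5 : k1 U48.dat.tab.toTab U48C.cd.co s1 104 16 = true := by decide +kernel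

theorem a6 : k1 U48.dat.tab.toTab U48C.cd.co s1 120 18 = true := by decide +kernel

theorem a7 : k1 U48.dat.tab.toTab U48C.cd.co s1 138 22 = true := by decide +kernel

theorem a8 : k1 U48.dat.tab.toTab U48C.cd.co s1 160 30 = true := by decide +kernel

theorem a9 : k1 U48.dat.tab.toTab U48C.cd.co s1 190 50 = true := by decide +kernel

theorem mu : 1 ≤ U48C.cd.co.μ := by decide +kernel

theorem hZ : U48.dat.tab.toTab.Z = 55 := rfl

theorem hQ : U48.dat.tab.toTab.Q = 240 := rfl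

theorem c0 : ∀ ρ ≤ 2 * U48.dat.tab.toTab.Q, U48C.cd.co.C0 U48.dat.tab.toTab U48C.cd.co.F0 ρ :=
  (k0_sound a0).1

theorem p0 : ∀ ρ ≤ U48.dat.tab.toTab.Q, U48C.cd.co.μ * (2 * U48C.cd.co.Q - U48C.cd.co.Θ) ≤ ρ →
    U48C.cd.co.C0 U48.dat.tab.toTab U48C.cd.co.P0 ρ :=
  (k0_sound a0).2.1

theorem ci : ∀ x, U48.dat.tab.toTab.Q ≤ x → x < U48C.cd.co.μ * U48C.cd.co.Θ →
    U48C.cd.co.CI U48.dat.tab.toTab x :=
  (k0_sound a0).2.2

theorem c1 : ∀ x ρ, U48.dat.tab.toTab.Z ≤ x → x < U48.dat.tab.toTab.Q →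
    x + ρ ≤ 2 * U48.dat.tab.toTab.Q → U48C.cd.co.C1 U48.dat.tab.toTab U48C.cd.co.F1 0 x ρ := by
  intro x ρ h1 h2 h3
  rw [hZ] at h1
  rw [hQ] at h2
  by_cases g1 : x < 66
  · exact k1_sound mu (fun _ _ => rfl) a1 x ρ (by omega) g1 h3
  by_cases g2 : x < 78
  · exact k1_sound mu (fun _ _ => rfl) a2 x ρ (by omega) g2 h3
  by_cases g3 : x < 90
  · exact k1_sound mu (fun _ _ => rfl) a3 x ρ (by omega) g3 h3
  by_cases g4 : x < 104
  · exact k1_sound mu (fun _ _ => rfl) a4 x ρ (by omega) g4 h3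
  by_cases g5 : x < 120
  · exact k1_sound mu (fun _ _ => rfl) a5 x ρ (by omega) g5 h3
  by_cases g6 : x < 138
  · exact k1_sound mu (fun _ _ => rfl) a6 x ρ (by omega) g6 h3
  by_cases g7 : x < 160
  · exact k1_sound mu (fun _ _ => rfl) a7 x ρ (by omega) g7 h3
  by_cases g8 : x < 190
  · exact k1_sound mu (fun _ _ => rfl) a8 x ρ (by omega) g8 h3
  · exact k1_sound mu (fun _ _ => rfl) a9 x ρ (by omega) h2 h3

theorem p1 : ∀ x ρ, U48.dat.tab.toTab.Z ≤ x → x < U48.dat.tab.toTab.Q →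
    x + ρ ≤ U48.dat.tab.toTab.Q →
    U48C.cd.co.μ * (2 * U48C.cd.co.Q - U48C.cd.co.Θ) < x + ρ + 2 →
    U48C.cd.co.C1 U48.dat.tab.toTab U48C.cd.co.P1 1 x ρ := by
  intro x ρ h1 h2 h3 h4
  rw [hZ] at h1
  rw [hQ] at h2
  by_cases g1 : x < 66
  · exact kp_sound mu (fun _ _ => rfl) b1 x ρ (by omega) g1 h3 h4
  by_cases g2 : x < 78
  · exact kp_sound mu (fun _ _ => rfl) b2 x ρ (by omega) g2 h3 h4
  by_cases g3 : x < 92
  · exact kp_sound mu (fun _ _ => rfl) b3 x ρ (by omega) g3 h3 h4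
  by_cases g4 : x < 108
  · exact kp_sound mu (fun _ _ => rfl) b4 x ρ (by omega) g4 h3 h4
  by_cases g5 : x < 128
  · exact kp_sound mu (fun _ _ => rfl) b5 x ρ (by omega) g5 h3 h4
  by_cases g6 : x < 156
  · exact kp_sound mu (fun _ _ => rfl) b6 x ρ (by omega) g6 h3 h4
  · exact kp_sound mu (fun _ _ => rfl) b7 x ρ (by omega) h2 h3 h4

end Pool.Agent.Lib.MP_4b1228_nt.PP.R5.U48K
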