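import Pool.Agent.Lib.MP_4b1228_nt.PP.U48
import Pool.Agent.Lib.MP_4b1228_nt.PP.U48C

/-! The check of the patterns. -/

namespace Pool.Agent.Lib.MP_4b1228_nt.PP.R5.U48C

open R4 R4.U48

theorem sd : cd.Sd dat := by decide

theorem ok : dat.tab.toTab.Ok := by unfold Tab.Ok; decide

theorem lat : cd.co.Lat 600 :=
  CD.lat sd (k := 0) (by decide +kernel) (by decide +kernel) (by decide +kernel) (by decide +kernel)

end Pool.Agent.Lib.MP_4b1228_nt.PP.R5.U48C
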