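import Pool.Agent.Lib.MP_4b1228_nt.PP.U48
import Pool.Agent.Lib.MP_4b1228_nt.PP.U48C
import Pool.Agent.Lib.MP_4b1228_nt.PP.R5K2

/-! The checks of the pairs, one range of rows. -/

namespace Pool.Agent.Lib.MP_4b1228_nt.PP.R5.U48C

open R4 R4.U48

theorem q30 : k2 dat.tab.toTab cd.co 125 20 = true := by decide +kernel

theorem q31 : k2 dat.tab.toTab cd.co 145 30 = true := by decide +kernel

theorem q32 : k2 dat.tab.toTab cd.co 175 65 = true := by decide +kernel

end Pool.Agent.Lib.MP_4b1228_nt.PP.R5.U48C
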