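import Pool.Agent.Lib.MP_4b1228_nt.PP.U48P0
import Pool.Agent.Lib.MP_4b1228_nt.PP.U48P1
import Pool.Agent.Lib.MP_4b1228_nt.PP.U48P2
import Pool.Agent.Lib.MP_4b1228_nt.PP.U48P3

/-! The checks of the pairs. -/

namespace Pool.Agent.Lib.MP_4b1228_nt.PP.R5.U48C

open R4 R4.U48

theorem c2 : ∀ x y, 55 ≤ x → x < 55 + 185 → x ≤ y → y < 240 → cd.co.C2 dat.tab.toTab x y := by
  intro x y h1 h2 h3 h4
  have hμ : 1 ≤ cd.co.μ := by decide
  by_cases g0 : x < 60
  · exact k2_ok (t := dat.tab.toTab) (c := cd.co) hμ q00 x y (by omega) g0 h3 h4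
  by_cases g1 : x < 65
  · exact k2_ok (t := dat.tab.toTab) (c := cd.co) hμ q01 x y (by omega) g1 h3 h4
  by_cases g2 : x < 70
  · exact k2_ok (t := dat.tab.toTab) (c := cd.co) hμ q02 x y (by omega) g2 h3 h4
  by_cases g3 : x < 76
  · exact k2_ok (t := dat.tab.toTab) (c := cd.co) hμ q10 x y (by omega) g3 h3 h4
  by_cases g4 : x < 83
  · exact k2_ok (t := dat.tab.toTab) (c := cd.co) hμ q11 x y (by omega) g4 h3 h4
  by_cases g5 : x < 90
  · exact k2_ok (t := dat.tab.toTab) (c := cd.co) hμ q12 x y (by omega) g5 h3 h4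
  by_cases g6 : x < 100
  · exact k2_ok (t := dat.tab.toTab) (c := cd.co) hμ q20 x y (by omega) g6 h3 h4
  by_cases g7 : x < 112
  · exact k2_ok (t := dat.tab.toTab) (c := cd.co) hμ q21 x y (by omega) g7 h3 h4
  by_cases g8 : x < 125
  · exact k2_ok (t := dat.tab.toTab) (c := cd.co) hμ q22 x y (by omega) g8 h3 h4
  by_cases g9 : x < 145
  · exact k2_ok (t := dat.tab.toTab) (c := cd.co) hμ q30 x y (by omega) g9 h3 h4
  by_cases g10 : x < 175
  · exact k2_ok (t := dat.tab.toTab) (c := cd.co) hμ q31 x y (by omega) g10 h3 h4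
  · exact k2_ok (t := dat.tab.toTab) (c := cd.co) hμ q32 x y (by omega) h2 h3 h4

end Pool.Agent.Lib.MP_4b1228_nt.PP.R5.U48C
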