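import Pool.Agent.Lib.MP_4b1228_nt.PP.U48
import Pool.Agent.Lib.MP_4b1228_nt.PP.U48C

/-! The checks of the triples, one range of rows. -/

namespace Pool.Agent.Lib.MP_4b1228_nt.PP.R5.U48T

open R4

theorem rh : Rows3 U48.dat.tab.toTab U48C.cd.co 62 768 1008 :=
  (rows3_of (lo := 768) (len := 48) (by decide +kernel)).add
    (rows3_of (lo := 816) (len := 192) (by decide +kernel))

end Pool.Agent.Lib.MP_4b1228_nt.PP.R5.U48T
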