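import Pool.Agent.Lib.MP_4b1228_nt.PP.U48Ta
import Pool.Agent.Lib.MP_4b1228_nt.PP.U48Tb
import Pool.Agent.Lib.MP_4b1228_nt.PP.U48Tc
import Pool.Agent.Lib.MP_4b1228_nt.PP.U48Td
import Pool.Agent.Lib.MP_4b1228_nt.PP.U48Te
import Pool.Agent.Lib.MP_4b1228_nt.PP.U48Tf
import Pool.Agent.Lib.MP_4b1228_nt.PP.U48Tg
import Pool.Agent.Lib.MP_4b1228_nt.PP.U48Th

/-! The checks of the triples. -/

namespace Pool.Agent.Lib.MP_4b1228_nt.PP.R5.U48T

open R4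

theorem rows : Rows3 U48.dat.tab.toTab U48C.cd.co 62 528 1008 :=
  ((((((ra.add rb).add rc).add rd).add re).add rf).add rg).add rh

theorem c3 : ∀ a b c, 55 ≤ a → a ≤ b → b ≤ c → c < 240 → U48C.cd.co.C3 U48.dat.tab.toTab a b c :=
  CD.c3 (d := U48C.cd) (x := U48.dat) (by decide) (I := 21) (by decide) rows

end Pool.Agent.Lib.MP_4b1228_nt.PP.R5.U48T
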