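import Pool.Agent.Lib.MP_4b1228_nt.PP.DatV
import Pool.Agent.Lib.MP_4b1228_nt.PP.U48
import Pool.Agent.Lib.MP_4b1228_nt.PP.En
import Pool.Agent.Lib.MP_4b1228_nt.PP.DKT165

/-! The means of the exact and of the sieved rows of a table. -/

namespace Pool.Agent.Lib.MP_4b1228_nt.PP.R4.U48V

theorem t5 : U48.dat.k3 (en' DK.lo165 DK.hi165 242 3) 66 174 (7541035145) = true := by
  decide +kernel

theorem u6 : U48.dat.k1 (en' DK.lo165 DK.hi165 242 3) 438 84 (-1872634054) = true := by
  decide +kernel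

theorem u7 : U48.dat.k1 (en' DK.lo165 DK.hi165 242 3) 522 198 (-26741023856) = true := by
  decide +kernel

end Pool.Agent.Lib.MP_4b1228_nt.PP.R4.U48V
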