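import Pool.Agent.Lib.MP_4b1228_nt.PP.DatV
import Pool.Agent.Lib.MP_4b1228_nt.PP.U48
import Pool.Agent.Lib.MP_4b1228_nt.PP.En
import Pool.Agent.Lib.MP_4b1228_nt.PP.DKT165

/-! The means of the exact and of the sieved rows of a table. -/

namespace Pool.Agent.Lib.MP_4b1228_nt.PP.R4.U48V

theorem u2 : U48.dat.k1 (en' DK.lo165 DK.hi165 242 3) 237 42 (25894339815) = true := by
  decide +kernel

theorem u3 : U48.dat.k1 (en' DK.lo165 DK.hi165 242 3) 279 45 (10653241031) = true := by
  decide +kernel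

end Pool.Agent.Lib.MP_4b1228_nt.PP.R4.U48V
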