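import Pool.Agent.Lib.MP_4b1228_nt.PP.U48V0
import Pool.Agent.Lib.MP_4b1228_nt.PP.U48V1
import Pool.Agent.Lib.MP_4b1228_nt.PP.U48V2
import Pool.Agent.Lib.MP_4b1228_nt.PP.U48V3
import Pool.Agent.Lib.MP_4b1228_nt.PP.U48V4
import Pool.Agent.Lib.MP_4b1228_nt.PP.U48V5
import Pool.Agent.Lib.MP_4b1228_nt.PP.U48V6
import Pool.Agent.Lib.MP_4b1228_nt.PP.U48V7
import Pool.Agent.Lib.MP_4b1228_nt.PP.U48V8

/-! The means of the exact and of the sieved rows of a table. -/

namespace Pool.Agent.Lib.MP_4b1228_nt.PP.R4.U48V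

theorem total {F f : ℕ → ℝ} (ht : U48.dat.tab.toTab.Ok) (oL : (en' DK.lo165 DK.hi165 242 3).OkL)
    (oF : (en' DK.lo165 DK.hi165 242 3).OkF U48.dat.N F f) (oW : (en' DK.lo165 DK.hi165 242 3).OkW U48.dat.tab.toTab) :
    ((190721170146 : ℤ) : ℚ) ≤ U48.dat.tab.toTab.vE (en' DK.lo165 DK.hi165 242 3) 0 + U48.dat.tab.toTab.vE (en' DK.lo165 DK.hi165 242 3) 1 +
      U48.dat.tab.toTab.vE (en' DK.lo165 DK.hi165 242 3) 2 + U48.dat.tab.toTab.vE (en' DK.lo165 DK.hi165 242 3) 3 +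
      U48.dat.tab.toTab.vS0 (en' DK.lo165 DK.hi165 242 3) + U48.dat.tab.toTab.vS1 (en' DK.lo165 DK.hi165 242 3) :=
  Dat.total ht oL oF oW a s
    ((((((((Dat.bd1 ht oL oF oW (by decide) u0).add
      (Dat.bd1 ht oL oF oW (by decide) u1)).add
      (Dat.bd1 ht oL oF oW (by decide) u2)).add
      (Dat.bd1 ht oL oF oW (by decide) u3)).add
      (Dat.bd1 ht oL oF oW (by decide) u4)).add
      (Dat.bd1 ht oL oF oW (by decide) u5)).add
      (Dat.bd1 ht oL oF oW (by decide) u6)).add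
      (Dat.bd1 ht oL oF oW (by decide) u7))
    ((Dat.bd2 ht oL (by decide) (by decide) (by decide) p0).add
      (Dat.bd2 ht oL (by decide) (by decide) (by decide) p1))
    ((Dat.bd2 ht oL (by decide) (by decide) (by decide) q0).add
      (Dat.bd2 ht oL (by decide) (by decide) (by decide) q1))
    ((((((Dat.bd3 ht oL (by decide) (by decide) t0).add
      (Dat.bd3 ht oL (by decide) (by decide) t1)).add
      (Dat.bd3 ht oL (by decide) (by decide) t2)).add
      (Dat.bd3 ht oL (by decide) (by decide) t3)).add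
      (Dat.bd3 ht oL (by decide) (by decide) t4)).add
      (Dat.bd3 ht oL (by decide) (by decide) t5))
    (by decide +kernel)

end Pool.Agent.Lib.MP_4b1228_nt.PP.R4.U48V
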