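import Pool.Agent.Lib.MP_4b1228_nt.PP.Asm5
import Pool.Agent.Lib.MP_4b1228_nt.PP.U48H
import Pool.Agent.Lib.MP_4b1228_nt.PP.U48K
import Pool.Agent.Lib.MP_4b1228_nt.PP.U48L
import Pool.Agent.Lib.MP_4b1228_nt.PP.U48P
import Pool.Agent.Lib.MP_4b1228_nt.PP.U48T
import Pool.Agent.Lib.MP_4b1228_nt.PP.U48V

/-! The certificate for the exponent `23 / 16`. -/

namespace Pool.Agent.Lib.MP_4b1228_nt.PP.R5.U48F

open R4

theorem sd : U48.dat.tab.toTab.Sd := by
  unfold Tab.Sd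
  decide

theorem oW : (en DK.lo165 DK.hi165 242 3).OkW U48.dat.tab.toTab :=
  en_W U48.dat.tab.toTab (by decide) (by decide) DK.ok165 (by decide +kernel) (by decide +kernel)

theorem loc : U48C.cd.co.Loc U48.dat.tab.toTab :=
  ⟨U48K.c0, U48K.p0, U48K.c1, U48K.p1, U48K.ci,
    fun x y a b c => U48C.c2 x y a (b.trans_lt c) b c, U48T.c3⟩

theorem cert : R3.Cert3 (23 / 16) :=
  cert5 U48.dat.tab.toTab U48C.cd.co (en DK.lo165 DK.hi165 242 3) _ U48C.ok sd (CD.ok U48C.sd) loc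
    U48C.lat (en_L _ _ _ _) (en_F _ _ _ _) oW (U48H.lawH Eng.rho')
    (U48V.total U48C.ok (en_L _ _ _ _) (en_F _ _ _ _) oW) U48H.vP U48H.vH (by decide)
    (by rw [show U48C.cd.co.Q = 48 from rfl, show U48C.cd.co.Θ = 69 from rfl]; norm_num)
    (by decide) (by decide)

theorem dens : DensStmt (23 / 16) := densOf (by norm_num) (by norm_num) cert

end Pool.Agent.Lib.MP_4b1228_nt.PP.R5.U48F
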