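import Pool.Agent.Lib.MP_4b1228_nt.PP.U60
import Pool.Agent.Lib.MP_4b1228_nt.PP.CkP
import Pool.Agent.Lib.MP_4b1228_nt.PP.H69
import Pool.Agent.Lib.MP_4b1228_nt.PP.HS

/-! Lower bounds for the means of the rows of one large prime and of the rows of Harman type. -/

open Finset

namespace Pool.Agent.Lib.MP_4b1228_nt.PP.R4.U60H

theorem vP : ((-2765758697 : ℤ) : ℚ) ≤ U60.dat.tab.toTab.vP3 := ckP_ok (by decide +kernel)

theorem vH : ((-18952816922 : ℤ) : ℚ) ≤ ∑ a ∈ Ico U60.dat.tab.toTab.a₀ U60.dat.tab.toTab.a₁,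
    RB.vH U60.dat.tab.toTab RB.H69.tab a := RB.ckS_ok (by decide +kernel)

theorem lawH (hR : RhoStmt) : ∀ a ∈ Ico U60.dat.tab.toTab.a₀ U60.dat.tab.toTab.a₁,
    R3.LawH2 U60.dat.tab.toTab.T a (a + 1) (U60.dat.tab.toTab.ψ a) (U60.dat.tab.toTab.W a)
      (RB.vH U60.dat.tab.toTab RB.H69.tab a) :=
  RB.H69.law hR _ rfl (by decide) (by decide) (by decide)

end Pool.Agent.Lib.MP_4b1228_nt.PP.R4.U60H
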